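import Pool.Statements.S00308

set_option autoImplicit false
open Pool Pool.MP_0b625c_al

namespace Pool.Agent.S00308

noncomputable section

/-- the element of order two of the circle -/
def neg1 : Circle := Circle.exp Real.pi

lemma neg1_mul_neg1 : neg1 * neg1 = 1 := by
  unfold neg1
  rw [← Circle.exp_add, ← two_mul, Circle.exp_two_pi]

lemma dist_coe (z w : Circle) : dist z w = ‖(z : ℂ) - (w : ℂ)‖ := by
  rw [← dist_eq_norm]
  rfl

lemma dist_mul (z u w : Circle) : dist (z * u) (z * w) = dist u w := by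
  rw [dist_coe, dist_coe, Circle.coe_mul, Circle.coe_mul, ← mul_sub, norm_mul,
    Circle.norm_coe, one_mul]

/-- the metric on the circle with a shortcut of cost `c` between antipodes -/
def D (c : ℝ) (z w : Circle) : ℝ := min (dist z w) (dist z (neg1 * w) + c)

lemma dist_neg (z w : Circle) : dist (neg1 * z) w = dist z (neg1 * w) := by
  rw [← dist_mul neg1 (neg1 * z) w, ← mul_assoc, neg1_mul_neg1, one_mul]

lemma dist_le_two (z w : Circle) : dist z w ≤ 2 := by
  rw [dist_coe]
  calc ‖(z : ℂ) - (w : ℂ)‖ ≤ ‖(z : ℂ)‖ + ‖(w : ℂ)‖ := norm_sub_le _ _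
    _ = 2 := by rw [Circle.norm_coe, Circle.norm_coe]; norm_num

lemma D_self (c : ℝ) (hc : 0 < c) (z : Circle) : D c z z = 0 := by
  unfold D
  rw [dist_self]
  exact min_eq_left (by positivity)

lemma D_nonneg (c : ℝ) (hc : 0 < c) (z w : Circle) : 0 ≤ D c z w := by
  unfold D
  exact le_min dist_nonneg (by positivity)

lemma D_le (c : ℝ) (z w : Circle) : D c z w ≤ dist z w := min_le_left _ _

lemma D_comm (c : ℝ) (z w : Circle) : D c z w = D c w z := by
  unfold D
  rw [dist_comm z w, dist_comm z (neg1 * w), dist_neg]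

lemma D_triangle (c : ℝ) (hc : 0 < c) (z u w : Circle) : D c z w ≤ D c z u + D c u w := by
  have h1 := dist_triangle z u w
  have h2 := dist_triangle z u (neg1 * w)
  have h3 := dist_triangle z (neg1 * u) (neg1 * w)
  have h4 := dist_triangle z (neg1 * u) w
  rw [dist_mul] at h3
  rw [dist_neg] at h4
  unfold D
  rcases le_total (dist z u) (dist z (neg1 * u) + c) with ha | ha <;>
  rcases le_total (dist u w) (dist u (neg1 * w) + c) with hb | hb
  · rw [min_eq_left ha, min_eq_left hb]
    exact (min_le_left _ _).trans h1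
  · rw [min_eq_left ha, min_eq_right hb]
    exact (min_le_right _ _).trans (by linarith)
  · rw [min_eq_right ha, min_eq_left hb]
    exact (min_le_right _ _).trans (by linarith)
  · rw [min_eq_right ha, min_eq_right hb]
    exact (min_le_left _ _).trans (by linarith)

lemma D_mul (c : ℝ) (u z w : Circle) : D c (u * z) (u * w) = D c z w := by
  unfold D
  rw [dist_mul, mul_left_comm neg1 u w, dist_mul]

lemma dist_le_of_D_lt (c r : ℝ) (z w : Circle) (hr : r ≤ c) (h : D c z w < r) :
    dist z w = D c z w := by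
  unfold D at h ⊢
  rcases min_lt_iff.mp h with h1 | h1
  · symm
    apply min_eq_left
    have := dist_nonneg (x := z) (y := neg1 * w)
    linarith
  · have := dist_nonneg (x := z) (y := neg1 * w)
    linarith

open Classical in
/-- cost function -/
def cost (q : Circle) : ℝ := if q = 1 then 1 else dist q 1

lemma cost_pos (q : Circle) : 0 < cost q := by
  unfold cost
  split_ifs with h
  · norm_num
  · exact dist_pos.mpr h

/-- the target group -/
structure E1 where
  /-- the function -/
  f : Circle → Circle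

lemma E1.ext' {x y : E1} (h : ∀ q, x.f q = y.f q) : x = y := by
  cases x; cases y
  congr
  funext q
  exact h q

instance : Mul E1 := ⟨fun x y => ⟨fun q => x.f q * y.f q⟩⟩
instance : One E1 := ⟨⟨fun _ => 1⟩⟩
instance : Inv E1 := ⟨fun x => ⟨fun q => (x.f q)⁻¹⟩⟩

lemma mul_f (x y : E1) (q : Circle) : (x * y).f q = x.f q * y.f q := rfl
lemma one_f (q : Circle) : (1 : E1).f q = 1 := rfl
lemma inv_f (x : E1) (q : Circle) : (x⁻¹).f q = (x.f q)⁻¹ := rfl

instance : CommGroup E1 where
  mul_assoc x y z := E1.ext' fun q => mul_assoc _ _ _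
  one_mul x := E1.ext' fun q => one_mul _
  mul_one x := E1.ext' fun q => mul_one _
  inv_mul_cancel x := E1.ext' fun q => inv_mul_cancel _
  mul_comm x y := E1.ext' fun q => mul_comm _ _

instance : Dist E1 := ⟨fun x y => ⨆ q, D (cost q) (x.f q) (y.f q)⟩

lemma dist_def (x y : E1) : dist x y = ⨆ q, D (cost q) (x.f q) (y.f q) := rfl

lemma bdd (x y : E1) : BddAbove (Set.range fun q => D (cost q) (x.f q) (y.f q)) := by
  refine ⟨2, ?_⟩
  rintro _ ⟨q, rfl⟩
  exact (D_le _ _ _).trans (dist_le_two _ _)

lemma D_le_dist (x y : E1) (q : Circle) : D (cost q) (x.f q) (y.f q) ≤ dist x y :=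
  le_ciSup (bdd x y) q

lemma dist_le_iff (x y : E1) (r : ℝ) (h : ∀ q, D (cost q) (x.f q) (y.f q) ≤ r) :
    dist x y ≤ r := by
  have : Nonempty Circle := ⟨1⟩
  exact ciSup_le h

instance : MetricSpace E1 where
  dist_self x := by
    apply le_antisymm
    · apply dist_le_iff
      intro q
      rw [D_self _ (cost_pos q)]
    · exact (D_nonneg _ (cost_pos 1) _ _).trans (D_le_dist x x 1)
  dist_comm x y := by
    rw [dist_def, dist_def]
    congr 1
    funext q
    rw [D_comm]
  dist_triangle x y z := by
    apply dist_le_iff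
    intro q
    exact (D_triangle _ (cost_pos q) _ _ _).trans
      (add_le_add (D_le_dist x y q) (D_le_dist y z q))
  eq_of_dist_eq_zero := by
    intro x y h
    apply E1.ext'
    intro q
    have h1 := D_le_dist x y q
    rw [h] at h1
    have h2 : D (cost q) (x.f q) (y.f q) < cost q := lt_of_le_of_lt h1 (cost_pos q)
    have h3 := dist_le_of_D_lt _ _ _ _ le_rfl h2
    apply dist_le_zero.mp
    rw [h3]
    exact h1

lemma E1_dist_mul (u x y : E1) : dist (u * x) (u * y) = dist x y := by
  rw [dist_def, dist_def]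
  congr 1
  funext q
  rw [mul_f, mul_f, D_mul]

lemma E1_dist_mul_mul (x y x' y' : E1) : dist (x * y) (x' * y') ≤ dist x x' + dist y y' := by
  calc dist (x * y) (x' * y') ≤ dist (x * y) (x' * y) + dist (x' * y) (x' * y') :=
        dist_triangle _ _ _
    _ = dist x x' + dist y y' := by
        rw [mul_comm x y, mul_comm x' y, E1_dist_mul, mul_comm y x', E1_dist_mul]

lemma E1_dist_inv (x y : E1) : dist x⁻¹ y⁻¹ = dist x y := by
  have h : dist ((x * y) * x⁻¹) ((x * y) * y⁻¹) = dist x⁻¹ y⁻¹ := E1_dist_mul _ _ _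
  rw [← h, mul_inv_cancel_right, mul_comm x y, mul_inv_cancel_right, dist_comm]

instance : IsTopologicalGroup E1 where
  continuous_mul := by
    rw [Metric.continuous_iff]
    rintro ⟨x, y⟩ ε hε
    refine ⟨ε / 2, by positivity, ?_⟩
    rintro ⟨x', y'⟩ h
    rw [Prod.dist_eq, max_lt_iff] at h
    have := E1_dist_mul_mul x' y' x y
    simp only at h ⊢
    linarith [h.1, h.2]
  continuous_inv := by
    rw [Metric.continuous_iff]
    intro x ε hε
    exact ⟨ε, hε, fun y h => by rwa [E1_dist_inv]⟩

instance : CompleteSpace E1 := by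
  apply Metric.complete_of_cauchySeq_tendsto
  intro u hu
  rw [Metric.cauchySeq_iff] at hu
  have hlim : ∀ q : Circle, ∃ z : Circle, Filter.Tendsto (fun n => (u n).f q) Filter.atTop
      (nhds z) := by
    intro q
    refine cauchySeq_tendsto_of_complete (Metric.cauchySeq_iff.mpr ?_)
    intro ε hε
    obtain ⟨N, hN⟩ := hu (min ε (cost q)) (lt_min hε (cost_pos q))
    refine ⟨N, fun m hm n hn => ?_⟩
    have h1 := lt_of_le_of_lt (D_le_dist (u m) (u n) q) (hN m hm n hn)
    rw [dist_le_of_D_lt _ _ _ _ (min_le_right _ _) h1]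
    exact lt_of_lt_of_le h1 (min_le_left _ _)
  choose z hz using hlim
  refine ⟨⟨z⟩, ?_⟩
  rw [Metric.tendsto_atTop]
  intro ε hε
  obtain ⟨N, hN⟩ := hu (ε / 2) (by positivity)
  refine ⟨N, fun n hn => ?_⟩
  refine lt_of_le_of_lt (b := ε / 2) ?_ (by linarith)
  apply dist_le_iff
  intro q
  refine le_of_forall_pos_le_add fun η hη => ?_
  obtain ⟨M, hM⟩ := (Metric.tendsto_atTop.mp (hz q)) η hη
  have h1 := hM (max M N) (le_max_left _ _)
  have h2 := hN n hn (max M N) (le_max_right _ _)
  have h3 := D_triangle (cost q) (cost_pos q) ((u n).f q) ((u (max M N)).f q) (z q)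
  have h4 := D_le_dist (u n) (u (max M N)) q
  have h5 := D_le (cost q) ((u (max M N)).f q) (z q)
  simp only at h1 ⊢
  linarith

/-- the identity homomorphism -/
def U : (Circle → Circle) →* E1 where
  toFun x := ⟨x⟩
  map_one' := rfl
  map_mul' _ _ := rfl

lemma exists_small (δ : ℝ) (hδ : 0 < δ) : ∃ q : Circle, q ≠ 1 ∧ dist q 1 < δ := by
  have hc : Filter.Tendsto (fun t : ℝ => Circle.exp t) (nhds 0) (nhds 1) := by
    have := (Circle.exp.continuous).tendsto 0
    rwa [Circle.exp_zero] at this
  rw [Metric.tendsto_nhds_nhds] at hc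
  obtain ⟨η, hη, h⟩ := hc δ hδ
  refine ⟨Circle.exp (min (η / 2) 1), ?_, ?_⟩
  · intro h1
    rw [← Circle.exp_zero] at h1
    have h0 : 0 < min (η / 2) 1 := lt_min (by positivity) one_pos
    have hlt : min (η / 2) 1 ≤ 1 := min_le_right _ _
    have hpi := Real.pi_gt_three
    have h2 := Circle.exp_injOn_Icc (a := 0) (b := 1) (by linarith) ⟨h0.le, hlt⟩
      ⟨le_rfl, zero_le_one⟩ h1
    linarith
  · apply h
    rw [Real.dist_eq, sub_zero, abs_of_pos (lt_min (by positivity) one_pos)]
    exact lt_of_le_of_lt (min_le_left _ _) (by linarith)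

lemma dist_neg1 : dist (1 : Circle) neg1 = 2 := by
  rw [dist_coe]
  unfold neg1
  rw [Circle.coe_exp, Complex.exp_pi_mul_I, Circle.coe_one]
  norm_num

end

/-- The negation of the preceding statement: Take the group of all unit-circle-valued maps on the unit circle, with pointwise product and sup metric. Every continuous bijective homomorphism from it onto a complete metric topological group has a continuous inverse. -/
theorem result :
    ¬ (∀ (E₁ : Type) [Group E₁] [MetricSpace E₁] [CompleteSpace E₁] [IsTopologicalGroup E₁]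
      (U : (Circle → Circle) →* E₁),
      Function.Bijective U →
      (∀ x : Circle → Circle, ∀ ε > (0 : ℝ), ∃ δ > (0 : ℝ), ∀ y : Circle → Circle,
          (∀ q : Circle, dist (x q) (y q) ≤ δ) → dist (U x) (U y) < ε) →
      (∀ x : Circle → Circle, ∀ ε > (0 : ℝ), ∃ δ > (0 : ℝ), ∀ y : Circle → Circle,
          dist (U x) (U y) < δ → ∀ q : Circle, dist (x q) (y q) ≤ ε)) := by
  intro H
  have h := H E1 U
    ⟨fun x y hxy => congrArg E1.f hxy, fun y => ⟨y.f, rfl⟩⟩
    (fun x ε hε => ⟨ε / 2, by positivity, fun y hy =>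
      lt_of_le_of_lt (dist_le_iff _ _ (ε / 2) fun q => (D_le _ _ _).trans (hy q))
        (by linarith)⟩)
    (1 : Circle → Circle) 1 one_pos
  obtain ⟨δ, hδ, h⟩ := h
  obtain ⟨q, hq1, hq⟩ := exists_small (min δ 1) (lt_min hδ one_pos)
  classical
  have h1 := h (Function.update 1 q neg1) ?_ q
  · rw [Function.update_self, Pi.one_apply, dist_neg1] at h1
    norm_num at h1
  · refine lt_of_le_of_lt (b := dist q 1) ?_ (lt_of_lt_of_le hq (min_le_left _ _))
    apply dist_le_iff
    intro p
    by_cases hp : p = q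
    · subst hp
      change D (cost p) 1 (Function.update (1 : Circle → Circle) p neg1 p) ≤ _
      rw [Function.update_self]
      refine (min_le_right _ _).trans ?_
      rw [neg1_mul_neg1, dist_self, zero_add]
      simp [cost, hq1]
    · change D (cost p) 1 (Function.update (1 : Circle → Circle) q neg1 p) ≤ _
      rw [Function.update_of_ne hp, Pi.one_apply, D_self _ (cost_pos p)]
      exact dist_nonneg

end Pool.Agent.S00308
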