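import Pool.Statements.S00412

set_option autoImplicit false
open Pool Pool.MP_1a5400_al

namespace Pool.Agent.S00412

open Matrix

abbrev SL := Matrix.SpecialLinearGroup (Fin 2) ℤ

/-- nonzero vectors -/
abbrev NV := {v : ℤ × ℤ // v ≠ 0}

def act (g : SL) (v : NV) : NV :=
  ⟨(g.1 0 0 * v.1.1 + g.1 0 1 * v.1.2, g.1 1 0 * v.1.1 + g.1 1 1 * v.1.2), by
    intro h
    have h1 : g.1 0 0 * v.1.1 + g.1 0 1 * v.1.2 = 0 := congrArg Prod.fst h
    have h2 : g.1 1 0 * v.1.1 + g.1 1 1 * v.1.2 = 0 := congrArg Prod.snd h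
    have hd : g.1 0 0 * g.1 1 1 - g.1 0 1 * g.1 1 0 = 1 := by
      rw [← Matrix.det_fin_two]; exact g.2
    apply v.2
    ext
    · change v.1.1 = 0
      calc v.1.1 = (g.1 0 0 * g.1 1 1 - g.1 0 1 * g.1 1 0) * v.1.1 := by rw [hd, one_mul]
        _ = g.1 1 1 * (g.1 0 0 * v.1.1 + g.1 0 1 * v.1.2) -
            g.1 0 1 * (g.1 1 0 * v.1.1 + g.1 1 1 * v.1.2) := by ring
        _ = 0 := by rw [h1, h2]; ring
    · change v.1.2 = 0
      calc v.1.2 = (g.1 0 0 * g.1 1 1 - g.1 0 1 * g.1 1 0) * v.1.2 := by rw [hd, one_mul]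
        _ = g.1 0 0 * (g.1 1 0 * v.1.1 + g.1 1 1 * v.1.2) -
            g.1 1 0 * (g.1 0 0 * v.1.1 + g.1 0 1 * v.1.2) := by ring
        _ = 0 := by rw [h1, h2]; ring⟩

lemma act_fst (g : SL) (v : NV) : (act g v).1.1 = g.1 0 0 * v.1.1 + g.1 0 1 * v.1.2 := rfl
lemma act_snd (g : SL) (v : NV) : (act g v).1.2 = g.1 1 0 * v.1.1 + g.1 1 1 * v.1.2 := rfl

lemma NV_ext (v w : NV) (h1 : v.1.1 = w.1.1) (h2 : v.1.2 = w.1.2) : v = w := by
  apply Subtype.ext
  exact Prod.ext h1 h2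

instance : MulAction SL NV where
  smul := act
  one_smul v := by
    change act 1 v = v
    apply NV_ext
    · rw [act_fst]; simp
    · rw [act_snd]; simp
  mul_smul g h v := by
    change act (g * h) v = act g (act h v)
    apply NV_ext
    · rw [act_fst, act_fst, act_fst, act_snd]
      simp only [Matrix.SpecialLinearGroup.coe_mul, Matrix.mul_apply, Fin.sum_univ_two]
      ring
    · rw [act_snd, act_snd, act_fst, act_snd]
      simp only [Matrix.SpecialLinearGroup.coe_mul, Matrix.mul_apply, Fin.sum_univ_two]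
      ring

lemma smul_fst (g : SL) (v : NV) : (g • v).1.1 = g.1 0 0 * v.1.1 + g.1 0 1 * v.1.2 := rfl
lemma smul_snd (g : SL) (v : NV) : (g • v).1.2 = g.1 1 0 * v.1.1 + g.1 1 1 * v.1.2 := rfl

def ma : SL := ⟨!![1, 1; 0, 1], by simp [Matrix.det_fin_two]⟩
def mb : SL := ⟨!![1, 0; 4, 1], by simp [Matrix.det_fin_two]⟩
def mai : SL := ⟨!![1, -1; 0, 1], by simp [Matrix.det_fin_two]⟩
def mbi : SL := ⟨!![1, 0; -4, 1], by simp [Matrix.det_fin_two]⟩

lemma ma_inv : ma⁻¹ = mai := by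
  apply inv_eq_of_mul_eq_one_right
  apply Subtype.ext
  decide

lemma mb_inv : mb⁻¹ = mbi := by
  apply inv_eq_of_mul_eq_one_right
  apply Subtype.ext
  decide

lemma ma_smul (v : NV) : (ma • v).1.1 = v.1.1 + v.1.2 ∧ (ma • v).1.2 = v.1.2 := by
  rw [smul_fst, smul_snd]
  constructor
  · change 1 * _ + 1 * _ = _; ring
  · change 0 * _ + 1 * _ = _; ring

lemma mai_smul (v : NV) : (mai • v).1.1 = v.1.1 - v.1.2 ∧ (mai • v).1.2 = v.1.2 := by
  rw [smul_fst, smul_snd]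
  constructor
  · change 1 * _ + (-1) * _ = _; ring
  · change 0 * _ + 1 * _ = _; ring

lemma mb_smul (v : NV) : (mb • v).1.1 = v.1.1 ∧ (mb • v).1.2 = 4 * v.1.1 + v.1.2 := by
  rw [smul_fst, smul_snd]
  constructor
  · change 1 * _ + 0 * _ = _; ring
  · change 4 * _ + 1 * _ = _; ring

lemma mbi_smul (v : NV) : (mbi • v).1.1 = v.1.1 ∧ (mbi • v).1.2 = - 4 * v.1.1 + v.1.2 := by
  rw [smul_fst, smul_snd]
  constructor
  · change 1 * _ + 0 * _ = _; ring
  · change (-4) * _ + 1 * _ = _; ring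

def gen : Fin 2 → SL := ![ma, mb]

def Xa : Set NV := {v | v.1.2 ^ 2 ≤ 2 * v.1.1 * v.1.2}
def Xb : Set NV := {v | 0 ≤ 2 * v.1.1 * v.1.2 ∧ 2 * v.1.1 * v.1.2 < v.1.2 ^ 2}
def Ya : Set NV := {v | 2 * v.1.1 * v.1.2 < - v.1.2 ^ 2}
def Yb : Set NV := {v | - v.1.2 ^ 2 ≤ 2 * v.1.1 * v.1.2 ∧ 2 * v.1.1 * v.1.2 < 0}

def X : Fin 2 → Set NV := ![Xa, Xb]
def Y : Fin 2 → Set NV := ![Ya, Yb]

abbrev F2 := FreeGroup (Fin 2)

def rho : F2 →* SL := FreeGroup.lift gen

lemma sq_pos_of_ne (v : NV) : 0 < v.1.1 ^ 2 + v.1.2 ^ 2 := by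
  by_contra h
  apply v.2
  have h1 := sq_nonneg v.1.1
  have h2 := sq_nonneg v.1.2
  have h3 : v.1.1 ^ 2 = 0 := by linarith
  have h4 : v.1.2 ^ 2 = 0 := by linarith
  ext
  · exact pow_eq_zero_iff (two_ne_zero) |>.mp h3
  · exact pow_eq_zero_iff (two_ne_zero) |>.mp h4

lemma disj_XX : Disjoint Xa Xb := by
  rw [Set.disjoint_left]; intro v h1 h2
  simp only [Xa, Xb, Set.mem_ofPred_eq] at h1 h2
  linarith [h2.2]

lemma disj_YY : Disjoint Ya Yb := by
  rw [Set.disjoint_left]; intro v h1 h2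
  simp only [Ya, Yb, Set.mem_ofPred_eq] at h1 h2
  linarith [h2.1]

lemma disj_aa : Disjoint Xa Ya := by
  rw [Set.disjoint_left]; intro v h1 h2
  simp only [Xa, Ya, Set.mem_ofPred_eq] at h1 h2
  linarith [sq_nonneg v.1.2]

lemma disj_ab : Disjoint Xa Yb := by
  rw [Set.disjoint_left]; intro v h1 h2
  simp only [Xa, Yb, Set.mem_ofPred_eq] at h1 h2
  linarith [sq_nonneg v.1.2, h2.2]

lemma disj_ba : Disjoint Xb Ya := by
  rw [Set.disjoint_left]; intro v h1 h2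
  simp only [Xb, Ya, Set.mem_ofPred_eq] at h1 h2
  linarith [sq_nonneg v.1.2, h1.1]

lemma disj_bb : Disjoint Xb Yb := by
  rw [Set.disjoint_left]; intro v h1 h2
  simp only [Xb, Yb, Set.mem_ofPred_eq] at h1 h2
  linarith [h1.1, h2.2]

lemma pp_a (v : NV) (h : v ∉ Ya) : ma • v ∈ Xa := by
  simp only [Xa, Ya, Set.mem_ofPred_eq, not_lt] at h ⊢
  rw [(ma_smul v).1, (ma_smul v).2]
  nlinarith

lemma pp_ai (v : NV) (h : v ∉ Xa) : mai • v ∈ Ya := by
  simp only [Xa, Ya, Set.mem_ofPred_eq, not_le] at h ⊢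
  rw [(mai_smul v).1, (mai_smul v).2]
  nlinarith

lemma pp_b (v : NV) (h : v ∉ Yb) : mb • v ∈ Xb := by
  have h0 := sq_pos_of_ne v
  simp only [Xb, Yb, Set.mem_ofPred_eq, not_and, not_lt] at h ⊢
  rw [(mb_smul v).1, (mb_smul v).2]
  generalize v.1.1 = x at *
  generalize v.1.2 = y at *
  by_cases h1 : -y ^ 2 ≤ 2 * x * y
  · have := h h1
    constructor <;> nlinarith [sq_nonneg x, sq_nonneg y]
  · push Not at h1
    have hx : 0 < x ^ 2 := by
      by_contra hx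
      have : x = 0 := by nlinarith
      subst this
      nlinarith
    have hy : y * (2 * x + y) < 0 := by nlinarith
    have hz : 0 < x * (2 * x + y) := by nlinarith
    constructor
    · nlinarith [sq_nonneg (2 * x + y)]
    · nlinarith [sq_nonneg (2 * x + y)]

lemma pp_bi (v : NV) (h : v ∉ Xb) : mbi • v ∈ Yb := by
  have h0 := sq_pos_of_ne v
  simp only [Xb, Yb, Set.mem_ofPred_eq, not_and, not_lt] at h ⊢
  rw [(mbi_smul v).1, (mbi_smul v).2]
  generalize v.1.1 = x at *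
  generalize v.1.2 = y at *
  by_cases h1 : 0 ≤ 2 * x * y
  · have := h h1
    have hx : 0 < x ^ 2 := by
      by_contra hx
      have : x = 0 := by nlinarith
      subst this
      nlinarith
    have hy : 0 ≤ y * (2 * x - y) := by nlinarith
    have hz : 0 ≤ x * (2 * x - y) := by nlinarith
    constructor
    · nlinarith [sq_nonneg (2 * x - y)]
    · nlinarith [sq_nonneg (2 * x - y)]
  · push Not at h1
    constructor <;> nlinarith [sq_nonneg x, sq_nonneg y]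

lemma rho_inj : Function.Injective rho := by
  apply FreeGroup.injective_lift_of_ping_pong gen X Y
  · intro i
    fin_cases i
    · exact ⟨⟨(1, 0), by simp⟩, by change _ ∈ Xa; simp [Xa]⟩
    · exact ⟨⟨(0, 1), by simp⟩, by change _ ∈ Xb; simp [Xb]⟩
  · intro i j hij
    fin_cases i <;> fin_cases j
    · exact absurd rfl hij
    · exact disj_XX
    · exact disj_XX.symm
    · exact absurd rfl hij
  · intro i j hij
    fin_cases i <;> fin_cases j
    · exact absurd rfl hij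
    · exact disj_YY
    · exact disj_YY.symm
    · exact absurd rfl hij
  · intro i j
    fin_cases i <;> fin_cases j
    · exact disj_aa
    · exact disj_ab
    · exact disj_ba
    · exact disj_bb
  · intro i
    rintro _ ⟨v, hv, rfl⟩
    fin_cases i
    · exact pp_a v hv
    · exact pp_b v hv
  · intro i
    rintro _ ⟨v, hv, rfl⟩
    fin_cases i
    · change ma⁻¹ • v ∈ Ya
      rw [ma_inv]
      exact pp_ai v hv
    · change mb⁻¹ • v ∈ Yb
      rw [mb_inv]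
      exact pp_bi v hv

/-- The conjugating matrix. -/
def T : Matrix (Fin 2) (Fin 2) ℤ := !![-3, -2; 4, 2]

lemma mulT (A : Matrix (Fin 2) (Fin 2) ℤ) (i : Fin 2) :
    (A * T) i 0 = -3 * A i 0 + 4 * A i 1 ∧ (A * T) i 1 = -2 * A i 0 + 2 * A i 1 := by
  rw [Matrix.mul_apply, Matrix.mul_apply, Fin.sum_univ_two, Fin.sum_univ_two]
  constructor
  · change _ * (-3) + _ * 4 = _; ring
  · change _ * (-2) + _ * 2 = _; ring

lemma Tmul (A : Matrix (Fin 2) (Fin 2) ℤ) (j : Fin 2) :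
    (T * A) 0 j = -3 * A 0 j - 2 * A 1 j ∧ (T * A) 1 j = 4 * A 0 j + 2 * A 1 j := by
  rw [Matrix.mul_apply, Matrix.mul_apply, Fin.sum_univ_two, Fin.sum_univ_two]
  constructor
  · change (-3) * _ + (-2) * _ = _; ring
  · change 4 * _ + 2 * _ = _; ring

lemma mulT_cancel (A B : Matrix (Fin 2) (Fin 2) ℤ) (h : A * T = B * T) : A = B := by
  ext i j
  have h0 : (A * T) i 0 = (B * T) i 0 := by rw [h]
  have h1 : (A * T) i 1 = (B * T) i 1 := by rw [h]
  rw [(mulT A i).1, (mulT B i).1] at h0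
  rw [(mulT A i).2, (mulT B i).2] at h1
  fin_cases j
  · change A i 0 = B i 0
    omega
  · change A i 1 = B i 1
    omega

lemma Tmul_cancel (A B : Matrix (Fin 2) (Fin 2) ℤ) (h : T * A = T * B) : A = B := by
  ext i j
  have h0 : (T * A) 0 j = (T * B) 0 j := by rw [h]
  have h1 : (T * A) 1 j = (T * B) 1 j := by rw [h]
  rw [(Tmul A j).1, (Tmul B j).1] at h0
  rw [(Tmul A j).2, (Tmul B j).2] at h1
  fin_cases i
  · change A 0 j = B 0 j
    omega
  · change A 1 j = B 1 j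
    omega

def Rel (x y : F2) : Prop := (rho y).1 * T = T * (rho x).1

lemma Rel_unique {x y y' : F2} (h : Rel x y) (h' : Rel x y') : y = y' := by
  apply rho_inj
  apply Subtype.ext
  apply mulT_cancel
  rw [Rel] at h h'
  rw [h, h']

lemma Rel_inj {x x' y : F2} (h : Rel x y) (h' : Rel x' y) : x = x' := by
  apply rho_inj
  apply Subtype.ext
  apply Tmul_cancel
  rw [Rel] at h h'
  rw [← h, ← h']

lemma Rel_one : Rel 1 1 := by
  simp [Rel]

lemma Rel_mul {x y x' y' : F2} (h : Rel x y) (h' : Rel x' y') : Rel (x * x') (y * y') := by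
  unfold Rel at *
  rw [map_mul, map_mul, Matrix.SpecialLinearGroup.coe_mul, Matrix.SpecialLinearGroup.coe_mul,
    Matrix.mul_assoc, h', ← Matrix.mul_assoc, h, Matrix.mul_assoc]

lemma Rel_inv {x y : F2} (h : Rel x y) : Rel x⁻¹ y⁻¹ := by
  unfold Rel at *
  have h1 : (rho y⁻¹).1 * (rho y).1 = 1 := by
    rw [← Matrix.SpecialLinearGroup.coe_mul, ← map_mul, inv_mul_cancel, map_one,
      Matrix.SpecialLinearGroup.coe_one]
  have h2 : (rho x).1 * (rho x⁻¹).1 = 1 := by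
    rw [← Matrix.SpecialLinearGroup.coe_mul, ← map_mul, mul_inv_cancel, map_one,
      Matrix.SpecialLinearGroup.coe_one]
  calc (rho y⁻¹).1 * T = (rho y⁻¹).1 * (T * ((rho x).1 * (rho x⁻¹).1)) := by
        rw [h2, Matrix.mul_one]
    _ = (rho y⁻¹).1 * ((T * (rho x).1) * (rho x⁻¹).1) := by rw [Matrix.mul_assoc]
    _ = (rho y⁻¹).1 * (((rho y).1 * T) * (rho x⁻¹).1) := by rw [h]
    _ = ((rho y⁻¹).1 * (rho y).1) * (T * (rho x⁻¹).1) := by
        simp only [Matrix.mul_assoc]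
    _ = T * (rho x⁻¹).1 := by rw [h1, Matrix.one_mul]

def P : Subgroup F2 where
  carrier := {x | ∃ y, Rel x y}
  one_mem' := ⟨1, Rel_one⟩
  mul_mem' := by
    rintro x x' ⟨y, h⟩ ⟨y', h'⟩
    exact ⟨_, Rel_mul h h'⟩
  inv_mem' := by
    rintro x ⟨y, h⟩
    exact ⟨_, Rel_inv h⟩

abbrev a : F2 := FreeGroup.of 0
abbrev b : F2 := FreeGroup.of 1

lemma rho_a : rho a = ma := by simp [rho, a, gen]
lemma rho_b : rho b = mb := by simp [rho, b, gen]

lemma aa_mem : a * a ∈ P := by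
  refine ⟨(a⁻¹ * b) * a * (b⁻¹ * a), ?_⟩
  unfold Rel
  simp only [map_mul, map_inv, rho_a, rho_b, ma_inv, mb_inv]
  decide

lemma b_mem : b ∈ P := by
  refine ⟨(a⁻¹ * b) * (b * b) * (b⁻¹ * a), ?_⟩
  unfold Rel
  simp only [map_mul, map_inv, rho_a, rho_b, ma_inv, mb_inv]
  decide

lemma aba_mem : a * b * a⁻¹ ∈ P := by
  refine ⟨(a⁻¹ * b) * (a * b⁻¹ * (a * b⁻¹)) * (b⁻¹ * a), ?_⟩
  unfold Rel
  simp only [map_mul, map_inv, rho_a, rho_b, ma_inv, mb_inv]
  decide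

def sig : F2 →* Multiplicative (ZMod 2) :=
  FreeGroup.lift ![Multiplicative.ofAdd 1, 1]

lemma sig_a : sig a = Multiplicative.ofAdd 1 := by simp [sig, a]
lemma sig_b : sig b = 1 := by simp [sig, b]

lemma two_vals (z : Multiplicative (ZMod 2)) (h : z ≠ 1) : z = Multiplicative.ofAdd 1 := by
  revert z
  decide

def Q (w : F2) : Prop :=
  (sig w = 1 → w ∈ P ∧ a * w * a⁻¹ ∈ P) ∧ (sig w ≠ 1 → w * a⁻¹ ∈ P ∧ a * w ∈ P)

lemma Q_mul (u v : F2) (hu : Q u) (hv : Q v) : Q (u * v) := by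
  unfold Q at *
  by_cases h1 : sig u = 1 <;> by_cases h2 : sig v = 1
  · have hu' := hu.1 h1
    have hv' := hv.1 h2
    refine ⟨fun _ => ⟨P.mul_mem hu'.1 hv'.1, ?_⟩, fun h => ?_⟩
    · have := P.mul_mem hu'.2 hv'.2
      convert this using 1
      group
    · exact absurd (by rw [map_mul, h1, h2, one_mul]) h
  · have hu' := hu.1 h1
    have hv' := hv.2 h2
    refine ⟨fun h => ?_, fun _ => ⟨?_, ?_⟩⟩
    · rw [map_mul, h1, one_mul] at h
      exact absurd h h2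
    · have := P.mul_mem hu'.1 hv'.1
      convert this using 1
      group
    · have := P.mul_mem hu'.2 hv'.2
      convert this using 1
      group
  · have hu' := hu.2 h1
    have hv' := hv.1 h2
    refine ⟨fun h => ?_, fun _ => ⟨?_, ?_⟩⟩
    · rw [map_mul, h2, mul_one] at h
      exact absurd h h1
    · have := P.mul_mem hu'.1 hv'.2
      convert this using 1
      group
    · have := P.mul_mem hu'.2 hv'.1
      convert this using 1
      group
  · have hu' := hu.2 h1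
    have hv' := hv.2 h2
    refine ⟨fun _ => ⟨?_, ?_⟩, fun h => ?_⟩
    · have := P.mul_mem hu'.1 hv'.2
      convert this using 1
      group
    · have := P.mul_mem hu'.2 hv'.1
      convert this using 1
      group
    · refine absurd ?_ h
      rw [map_mul, two_vals _ h1, two_vals _ h2]
      decide

lemma Q_inv (u : F2) (hu : Q u) : Q u⁻¹ := by
  unfold Q at *
  refine ⟨fun h => ?_, fun h => ?_⟩
  · rw [map_inv, inv_eq_one] at h
    have hu' := hu.1 h
    refine ⟨P.inv_mem hu'.1, ?_⟩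
    have := P.inv_mem hu'.2
    convert this using 1
    group
  · rw [map_inv, ne_eq, inv_eq_one] at h
    have hu' := hu.2 h
    refine ⟨?_, ?_⟩
    · have := P.inv_mem hu'.2
      convert this using 1
      group
    · have := P.inv_mem hu'.1
      convert this using 1
      group

lemma Q_one : Q 1 := by
  unfold Q
  refine ⟨fun _ => ⟨P.one_mem, ?_⟩, fun h => absurd (map_one _) h⟩
  rw [mul_one, mul_inv_cancel]
  exact P.one_mem

lemma Q_all (w : F2) : Q w := by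
  induction w using FreeGroup.induction_on with
  | C1 => exact Q_one
  | of i =>
    fin_cases i
    · change Q a
      refine ⟨fun h => ?_, fun _ => ⟨?_, aa_mem⟩⟩
      · rw [sig_a] at h
        exact absurd h (by decide)
      · rw [mul_inv_cancel]; exact P.one_mem
    · change Q b
      exact ⟨fun _ => ⟨b_mem, aba_mem⟩, fun h => absurd sig_b h⟩
  | inv_of i hi => exact Q_inv _ hi
  | mul x y hx hy => exact Q_mul _ _ hx hy

def S : Subgroup F2 := sig.ker

lemma S_index : S.index = 2 := by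
  have hs : Function.Surjective sig := by
    intro z
    by_cases h : z = 1
    · exact ⟨1, by rw [h, map_one]⟩
    · exact ⟨a, by rw [sig_a, two_vals z h]⟩
  rw [S, Subgroup.index_ker, MonoidHom.range_eq_top.mpr hs]
  simp

lemma S_le (x : S) : ∃ y, Rel x.1 y := ((Q_all x.1).1 x.2).1

noncomputable def phi : S →* F2 where
  toFun x := Classical.choose (S_le x)
  map_one' := Rel_unique (Classical.choose_spec (S_le 1)) Rel_one
  map_mul' x y := Rel_unique (Classical.choose_spec (S_le (x * y)))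
    (Rel_mul (Classical.choose_spec (S_le x)) (Classical.choose_spec (S_le y)))

lemma phi_spec (x : S) : Rel x.1 (phi x) := Classical.choose_spec (S_le x)

lemma phi_inj : Function.Injective phi := by
  intro x y h
  apply Subtype.ext
  have h1 := phi_spec x
  have h2 := phi_spec y
  rw [← h] at h2
  exact Rel_inj h1 h2

lemma seq_dvd (u : ℕ → ℤ) (h : ∀ n, 2 * u (n + 2) + 3 * u (n + 1) + 2 * u n = 0) :
    ∀ k n, k ≤ n → (2 : ℤ) ^ k ∣ u n := by
  intro k
  induction k with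
  | zero => intro n _; simp
  | succ k ih =>
    intro n hn
    obtain ⟨m, rfl⟩ : ∃ m, n = m + 1 := ⟨n - 1, by omega⟩
    obtain ⟨s, hs⟩ := ih m (by omega)
    obtain ⟨t, ht⟩ := ih (m + 2) (by omega)
    have hm := h m
    have h3 : 3 * u (m + 1) = 2 ^ (k + 1) * (-(s + t)) := by
      rw [hs, ht] at hm
      rw [pow_succ]
      linarith
    have h4 : (2 : ℤ) ^ (k + 1) ∣ 3 * u (m + 1) := ⟨_, h3⟩
    have hc : IsCoprime ((2 : ℤ) ^ (k + 1)) 3 := by
      apply IsCoprime.pow_left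
      exact ⟨-1, 1, by norm_num⟩
    exact hc.dvd_of_dvd_mul_left h4

lemma seq_const (u : ℕ → ℤ) (h : ∀ n, 2 * u (n + 2) + 3 * u (n + 1) + 2 * u n = 0) (n : ℕ) :
    2 * u (n + 1) ^ 2 + 3 * u n * u (n + 1) + 2 * u n ^ 2 =
      2 * u 1 ^ 2 + 3 * u 0 * u 1 + 2 * u 0 ^ 2 := by
  induction n with
  | zero => rfl
  | succ n ih =>
    rw [← ih]
    have hn := h n
    have h2 : 2 * u (n + 2) = -(3 * u (n + 1) + 2 * u n) := by linarith
    have h3 : 2 * (2 * u (n + 2) ^ 2 + 3 * u (n + 1) * u (n + 2) + 2 * u (n + 1) ^ 2) =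
        2 * (2 * u (n + 1) ^ 2 + 3 * u n * u (n + 1) + 2 * u n ^ 2) := by
      calc 2 * (2 * u (n + 2) ^ 2 + 3 * u (n + 1) * u (n + 2) + 2 * u (n + 1) ^ 2) =
          (2 * u (n + 2)) ^ 2 + 3 * u (n + 1) * (2 * u (n + 2)) + 4 * u (n + 1) ^ 2 := by ring
        _ = _ := by rw [h2]; ring
    linarith

lemma seq_zero (u : ℕ → ℤ) (h : ∀ n, 2 * u (n + 2) + 3 * u (n + 1) + 2 * u n = 0) :
    u 0 = 0 ∧ u 1 = 0 := by
  set C := 2 * u 1 ^ 2 + 3 * u 0 * u 1 + 2 * u 0 ^ 2 with hC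
  have hd : ∀ n : ℕ, (2 : ℤ) ^ n ∣ C := by
    intro n
    rw [hC, ← seq_const u h n]
    obtain ⟨s, hs⟩ := seq_dvd u h n n le_rfl
    rw [hs]
    obtain ⟨t, ht⟩ := seq_dvd u h n (n + 1) (by omega)
    rw [ht]
    exact ⟨2 * 2 ^ n * t ^ 2 + 3 * s * (2 ^ n * t) + 2 * 2 ^ n * s ^ 2, by ring⟩
  have hC0 : C = 0 := by
    by_contra hne
    have h1 := Int.le_of_dvd (abs_pos.mpr hne) ((dvd_abs _ _).mpr (hd C.natAbs))
    have h2 : (C.natAbs : ℤ) = |C| := Int.natCast_natAbs C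
    have h3 : C.natAbs < 2 ^ C.natAbs := Nat.lt_two_pow_self
    have h4 : ((C.natAbs : ℕ) : ℤ) < ((2 ^ C.natAbs : ℕ) : ℤ) := by exact_mod_cast h3
    push_cast at h4
    linarith
  have h7 : (4 * u 1 + 3 * u 0) ^ 2 + 7 * u 0 ^ 2 = 0 := by
    have : (4 * u 1 + 3 * u 0) ^ 2 + 7 * u 0 ^ 2 = 8 * C := by rw [hC]; ring
    rw [this, hC0]; rfl
  have h8 : u 0 = 0 := by
    have : u 0 ^ 2 = 0 := by nlinarith [sq_nonneg (4 * u 1 + 3 * u 0), sq_nonneg (u 0)]
    exact pow_eq_zero_iff (two_ne_zero) |>.mp this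
  refine ⟨h8, ?_⟩
  rw [h8] at h7
  have : u 1 ^ 2 = 0 := by nlinarith
  exact pow_eq_zero_iff (two_ne_zero) |>.mp this

def Good (g : SL) : Prop := 4 ∣ g.1 1 0 ∧ 4 ∣ g.1 0 0 - 1 ∧ 4 ∣ g.1 1 1 - 1

lemma Good_mul (g h : SL) (hg : Good g) (hh : Good h) : Good (g * h) := by
  obtain ⟨⟨g1, hg1⟩, ⟨g2, hg2⟩, ⟨g3, hg3⟩⟩ := hg
  obtain ⟨⟨h1, hh1⟩, ⟨h2, hh2⟩, ⟨h3, hh3⟩⟩ := hh
  have hg2' : g.1 0 0 = 4 * g2 + 1 := by linarith
  have hg3' : g.1 1 1 = 4 * g3 + 1 := by linarith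
  have hh2' : h.1 0 0 = 4 * h2 + 1 := by linarith
  have hh3' : h.1 1 1 = 4 * h3 + 1 := by linarith
  unfold Good
  simp only [Matrix.SpecialLinearGroup.coe_mul, Matrix.mul_apply, Fin.sum_univ_two]
  rw [hg1, hg2', hg3', hh1, hh2', hh3']
  refine ⟨⟨g1 * (4 * h2 + 1) + (4 * g3 + 1) * h1, by ring⟩,
    ⟨4 * g2 * h2 + g2 + h2 + g.1 0 1 * h1, by ring⟩,
    ⟨g1 * h.1 0 1 + 4 * g3 * h3 + g3 + h3, by ring⟩⟩

lemma Good_rho (w : F2) : Good (rho w) := by
  induction w using FreeGroup.induction_on with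
  | C1 => rw [map_one]; exact ⟨by simp, by simp, by simp⟩
  | of i =>
    fin_cases i
    · change Good (rho a)
      rw [rho_a]
      unfold Good ma
      decide
    · change Good (rho b)
      rw [rho_b]
      unfold Good mb
      decide
  | inv_of i _ =>
    fin_cases i
    · change Good (rho a⁻¹)
      rw [map_inv, rho_a, ma_inv]
      unfold Good mai
      decide
    · change Good (rho b⁻¹)
      rw [map_inv, rho_b, mb_inv]
      unfold Good mbi
      decide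
  | mul x y hx hy => rw [map_mul]; exact Good_mul _ _ hx hy

lemma final (p q r s : ℤ) (hu : 2 * q + r = 0) (hw : 2 * (s - p) + 5 * q = 0)
    (hdet : p * s - q * r = 1) (hgood : 4 ∣ p - 1) : p = 1 ∧ q = 0 ∧ r = 0 ∧ s = 1 := by
  obtain ⟨k, hk⟩ : ∃ k, q = 2 * k := ⟨q / 2, by omega⟩
  have hs : s = p - 5 * k := by omega
  have hr : r = -4 * k := by omega
  subst hk hs hr
  have h7 : (2 * p - 5 * k) ^ 2 + 7 * k ^ 2 = 4 := by
    linear_combination 4 * hdet
  have hk0 : k = 0 := by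
    have hk2 : k ^ 2 < 1 := by nlinarith [sq_nonneg (2 * p - 5 * k)]
    have : k ^ 2 = 0 := by nlinarith [sq_nonneg k]
    exact pow_eq_zero_iff (two_ne_zero) |>.mp this
  subst hk0
  have hp : (p - 1) * (p + 1) = 0 := by linear_combination hdet
  have hp1 : p = 1 := by
    rcases mul_eq_zero.mp hp with h | h <;> omega
  subst hp1
  refine ⟨rfl, by norm_num, by norm_num, by norm_num⟩

/-- The negation of the preceding statement: For every index-2 subgroup S of the free group on two generators, every subgroup R and every isomorphism f from S onto R, some nontrivial subgroup H inside S satisfies f(H) ⊆ H. -/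
theorem result :
    ¬ (∀ (S R : Subgroup (FreeGroup (Fin 2))), S.index = 2 →
      ∀ f : S ≃* R,
        ∃ H : Subgroup (FreeGroup (Fin 2)),
          H ≤ S ∧ H ≠ ⊥ ∧
            ∀ x : S, (x : FreeGroup (Fin 2)) ∈ H → ((f x : R) : FreeGroup (Fin 2)) ∈ H) := by
  intro hall
  obtain ⟨H, hHS, hne, hinv⟩ := hall S phi.range S_index (MonoidHom.ofInjective phi_inj)
  apply hne
  rw [Subgroup.eq_bot_iff_forall]
  intro h hh
  obtain ⟨x, hx0, hx⟩ : ∃ x : ℕ → F2, x 0 = h ∧ ∀ n, Rel (x n) (x (n + 1)) := by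
    let x : ℕ → H := fun n => Nat.rec ⟨h, hh⟩ (fun _ y =>
      ⟨phi ⟨y.1, hHS y.2⟩, hinv ⟨y.1, hHS y.2⟩ y.2⟩) n
    exact ⟨fun n => (x n).1, rfl, fun n => phi_spec ⟨(x n).1, hHS (x n).2⟩⟩
  obtain ⟨M, hMdef⟩ : ∃ M : ℕ → Matrix (Fin 2) (Fin 2) ℤ, ∀ n, M n = (rho (x n)).1 :=
    ⟨_, fun _ => rfl⟩
  have hM : ∀ n, M (n + 1) * T = T * M n := fun n => by
    rw [hMdef, hMdef]; exact hx n
  have heq : ∀ n, (-3 * M (n + 1) 0 0 + 4 * M (n + 1) 0 1 = -3 * M n 0 0 - 2 * M n 1 0) ∧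
      (-2 * M (n + 1) 0 0 + 2 * M (n + 1) 0 1 = -3 * M n 0 1 - 2 * M n 1 1) ∧
      (-3 * M (n + 1) 1 0 + 4 * M (n + 1) 1 1 = 4 * M n 0 0 + 2 * M n 1 0) ∧
      (-2 * M (n + 1) 1 0 + 2 * M (n + 1) 1 1 = 4 * M n 0 1 + 2 * M n 1 1) := by
    intro n
    have hn := hM n
    refine ⟨?_, ?_, ?_, ?_⟩
    · rw [← (mulT (M (n + 1)) 0).1, hn, (Tmul (M n) 0).1]
    · rw [← (mulT (M (n + 1)) 0).2, hn, (Tmul (M n) 1).1]
    · rw [← (mulT (M (n + 1)) 1).1, hn, (Tmul (M n) 0).2]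
    · rw [← (mulT (M (n + 1)) 1).2, hn, (Tmul (M n) 1).2]
  have hu := seq_zero (fun n => 2 * M n 0 1 + M n 1 0) (by
    intro n
    obtain ⟨a1, a2, a3, a4⟩ := heq n
    obtain ⟨b1, b2, b3, b4⟩ := heq (n + 1)
    change 2 * (2 * M (n + 2) 0 1 + M (n + 2) 1 0) + 3 * (2 * M (n + 1) 0 1 + M (n + 1) 1 0) +
      2 * (2 * M n 0 1 + M n 1 0) = 0
    rw [show n + 1 + 1 = n + 2 from rfl] at b1 b2 b3 b4
    generalize M (n + 2) = A at *
    generalize M (n + 1) = B at *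
    generalize M n = D at *
    omega)
  obtain ⟨hu0, hu1⟩ := hu
  change 2 * M 0 0 1 + M 0 1 0 = 0 at hu0
  change 2 * M 1 0 1 + M 1 1 0 = 0 at hu1
  obtain ⟨c1, c2, c3, c4⟩ := heq 0
  rw [zero_add] at c1 c2 c3 c4
  have hdet : M 0 0 0 * M 0 1 1 - M 0 0 1 * M 0 1 0 = 1 := by
    rw [← Matrix.det_fin_two, hMdef]; exact (rho (x 0)).2
  have hgood : 4 ∣ M 0 0 0 - 1 := by
    rw [hMdef]; exact (Good_rho (x 0)).2.1
  have hw : 2 * (M 0 1 1 - M 0 0 0) + 5 * M 0 0 1 = 0 := by omega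
  obtain ⟨e1, e2, e3, e4⟩ := final _ _ _ _ hu0 hw hdet hgood
  have hrho : rho h = 1 := by
    rw [← hx0]
    apply Subtype.ext
    ext i j
    rw [← hMdef]
    fin_cases i <;> fin_cases j
    · exact e1
    · exact e2
    · exact e3
    · exact e4
  apply rho_inj
  rw [hrho, map_one]

end Pool.Agent.S00412
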