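import Pool.Statements.S00481
import Mathlib

set_option autoImplicit false
open Pool Pool.MP_21aa77_al

namespace Pool.Agent.S00481

open Equiv

/-- block swap function -/
def cf (k m : ℕ) : ℕ := if m < 2 ^ k then m + 2 ^ k else if m < 2 ^ (k + 1) then m - 2 ^ k else m

theorem cf_invol (k : ℕ) : Function.Involutive (cf k) := by
  intro m
  unfold cf
  have h : 2 ^ (k + 1) = 2 ^ k + 2 ^ k := by rw [pow_succ]; ring
  rw [h]
  split_ifs <;> omega

def c (k : ℕ) : Perm ℕ := (cf_invol k).toPerm

theorem c_apply (k m : ℕ) : c k m = cf k m := rfl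

/-- finitary permutations of ℕ preserving dyadic blocks -/
def G : Subgroup (Perm ℕ) where
  carrier := {π | (∃ N, ∀ m, N ≤ m → π m = m) ∧
    ∀ k m m', (π m / 2 ^ k = π m' / 2 ^ k ↔ m / 2 ^ k = m' / 2 ^ k)}
  mul_mem' := by
    rintro a b ⟨⟨N, hN⟩, ha⟩ ⟨⟨M, hM⟩, hb⟩
    refine ⟨⟨max N M, ?_⟩, ?_⟩
    · intro m hm
      rw [Perm.mul_apply, hM m (le_trans (le_max_right _ _) hm),
        hN m (le_trans (le_max_left _ _) hm)]
    · intro k m m'
      rw [Perm.mul_apply, Perm.mul_apply, ha, hb]
  one_mem' := ⟨⟨0, by simp⟩, by simp⟩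
  inv_mem' := by
    rintro a ⟨⟨N, hN⟩, ha⟩
    refine ⟨⟨N, ?_⟩, ?_⟩
    · intro m hm
      rw [Perm.inv_eq_iff_eq]
      exact (hN m hm).symm
    · intro k m m'
      rw [← ha]
      simp

theorem c_mem (k : ℕ) : c k ∈ G := by
  have hinv : ∀ m, cf k (cf k m) = m := cf_invol k
  have key : ∀ j m m', m / 2 ^ j = m' / 2 ^ j → cf k m / 2 ^ j = cf k m' / 2 ^ j := by
    intro j m m' h
    rcases le_or_gt j k with hj | hj
    · -- j ≤ k
      obtain ⟨d, rfl⟩ := Nat.exists_eq_add_of_le hj
      have hp : 0 < 2 ^ j := by positivity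
      have e1 : ∀ m, m < 2 ^ (j + d) ↔ m / 2 ^ j < 2 ^ d := by
        intro m
        rw [Nat.div_lt_iff_lt_mul hp, pow_add, mul_comm]
      have e2 : ∀ m, m < 2 ^ (j + d + 1) ↔ m / 2 ^ j < 2 ^ (d + 1) := by
        intro m
        rw [Nat.div_lt_iff_lt_mul hp, show j + d + 1 = j + (d + 1) by ring, pow_add, mul_comm]
      have e3 : ∀ m, (m + 2 ^ (j + d)) / 2 ^ j = m / 2 ^ j + 2 ^ d := by
        intro m
        rw [pow_add, Nat.add_mul_div_left _ _ hp]
      have e4 : ∀ m, (m - 2 ^ (j + d)) / 2 ^ j = m / 2 ^ j - 2 ^ d := by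
        intro m
        rw [pow_add, Nat.sub_mul_div]
      unfold cf
      simp only [e1, e2, h]
      split_ifs
      · rw [e3, e3, h]
      · rw [e4, e4, h]
      · exact h
    · have hle : 2 ^ (k + 1) ≤ 2 ^ j := Nat.pow_le_pow_right (by norm_num) hj
      have h2 : 2 ^ (k + 1) = 2 ^ k + 2 ^ k := by rw [pow_succ]; ring
      have hd : ∀ m, cf k m / 2 ^ j = m / 2 ^ j := by
        intro m
        by_cases hm : m < 2 ^ (k + 1)
        · rw [Nat.div_eq_of_lt (lt_of_lt_of_le hm hle), Nat.div_eq_of_lt]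
          refine lt_of_lt_of_le ?_ hle
          unfold cf
          split_ifs <;> omega
        · unfold cf
          rw [if_neg (by omega), if_neg hm]
      rw [hd, hd, h]
  refine ⟨⟨2 ^ (k + 1), ?_⟩, ?_⟩
  · intro m hm
    have h2 : 2 ^ (k + 1) = 2 ^ k + 2 ^ k := by rw [pow_succ]; ring
    rw [c_apply]
    unfold cf
    rw [if_neg (by omega), if_neg (by omega)]
  · intro j m m'
    rw [c_apply, c_apply]
    refine ⟨fun h => ?_, key j m m'⟩
    have := key j _ _ h
    rwa [hinv, hinv] at this

theorem isP : IsPGroup 2 G := by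
  rintro ⟨g, ⟨N, hN⟩, hg⟩
  have hlt : ∀ m, m < 2 ^ N → g m < 2 ^ N := by
    intro m hm
    by_contra hc
    push Not at hc
    have hNN : N < 2 ^ N := Nat.lt_two_pow_self
    have := hN (g m) (by omega)
    have := g.injective this
    omega
  have key : ∀ i, i ≤ N → ∀ m, ((g ^ (2 ^ i)) m) / 2 ^ (N - i) = m / 2 ^ (N - i) := by
    intro i
    induction i with
    | zero =>
      intro _ m
      simp only [pow_zero, pow_one, Nat.sub_zero]
      by_cases hm : m < 2 ^ N
      · rw [Nat.div_eq_of_lt hm, Nat.div_eq_of_lt (hlt m hm)]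
      · have hNN : N < 2 ^ N := Nat.lt_two_pow_self
        rw [hN m (by omega)]
    | succ i ih =>
      intro hi m
      obtain ⟨j, hj⟩ : ∃ j, N - i = j + 1 := ⟨N - i - 1, by omega⟩
      have hj' : N - (i + 1) = j := by omega
      have ih' := ih (by omega)
      rw [hj] at ih'
      rw [hj']
      have hmem : g ^ (2 ^ i) ∈ G := G.pow_mem ⟨⟨N, hN⟩, hg⟩ _
      have hiff := hmem.2
      set σ := g ^ (2 ^ i) with hσ
      have e : g ^ (2 ^ (i + 1)) = σ * σ := by
        rw [hσ, ← pow_add, pow_succ]; congr 1; ring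
      rw [e, Perm.mul_apply]
      have h1 := ih' m
      have h2 := ih' (σ m)
      rw [pow_succ, ← Nat.div_div_eq_div_mul, ← Nat.div_div_eq_div_mul] at h1 h2
      have h3 := hiff j m (σ m)
      omega
  refine ⟨N, ?_⟩
  apply Subtype.ext
  apply Equiv.ext
  intro m
  have := key N le_rfl m
  simp only [Nat.sub_self, pow_zero, Nat.div_one] at this
  simpa using this

/-- the finite set of elements fixing everything from N on -/
theorem fin_lev (N : ℕ) : {π : Perm ℕ | ∀ m, N ≤ m → π m = m}.Finite := by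
  have hlt : ∀ π : Perm ℕ, (∀ m, N ≤ m → π m = m) → ∀ m, m < N → π m < N := by
    intro π hπ m hm
    by_contra hc
    push Not at hc
    have := hπ (π m) hc
    have := π.injective this
    omega
  rw [← Set.finite_coe_iff]
  let f : {π : Perm ℕ | ∀ m, N ≤ m → π m = m} → (Fin N → Fin N) :=
    fun π i => ⟨π.1 i, hlt π.1 π.2 i i.2⟩
  apply Finite.of_injective f
  intro π σ h
  apply Subtype.ext
  apply Equiv.ext
  intro m
  by_cases hm : m < N
  · have := congrFun h ⟨m, hm⟩
    simpa [f] using this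
  · rw [π.2 m (by omega), σ.2 m (by omega)]

theorem G_countable : Countable G := by
  have h : (G : Set (Perm ℕ)) ⊆ ⋃ N : ℕ, {π : Perm ℕ | ∀ m, N ≤ m → π m = m} := by
    rintro π ⟨⟨N, hN⟩, _⟩
    exact Set.mem_iUnion.2 ⟨N, hN⟩
  have : (G : Set (Perm ℕ)).Countable :=
    (Set.countable_iUnion fun N => (fin_lev N).countable).mono h
  exact this.to_subtype

theorem loc_fin (s : Set G) (hs : s.Finite) : Finite ↥(Subgroup.closure s) := by
  -- common bound
  have hb : ∃ N, ∀ g ∈ s, ∀ m, N ≤ m → (g : Perm ℕ) m = m := by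
    induction s, hs using Set.Finite.induction_on with
    | empty => exact ⟨0, by simp⟩
    | insert _ _ ih =>
      rename_i a s _ _
      obtain ⟨N, hN⟩ := ih
      obtain ⟨M, hM⟩ := a.2.1
      refine ⟨max N M, ?_⟩
      intro g hg m hm
      rcases hg with rfl | hg
      · exact hM m (le_trans (le_max_right _ _) hm)
      · exact hN g hg m (le_trans (le_max_left _ _) hm)
  obtain ⟨N, hN⟩ := hb
  have hcl : ∀ g ∈ Subgroup.closure s, ∀ m, N ≤ m → (g : Perm ℕ) m = m := by
    intro g hg
    induction hg using Subgroup.closure_induction with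
    | mem x hx => exact hN x hx
    | one => intro m _; simp
    | mul x y _ _ hx hy =>
      intro m hm
      rw [Subgroup.coe_mul, Perm.mul_apply, hy m hm, hx m hm]
    | inv x _ hx =>
      intro m hm
      rw [Subgroup.coe_inv, Perm.inv_eq_iff_eq]
      exact (hx m hm).symm
  have := (fin_lev N).to_subtype
  let f : ↥(Subgroup.closure s) → {π : Perm ℕ | ∀ m, N ≤ m → π m = m} :=
    fun g => ⟨(g.1 : Perm ℕ), hcl g.1 g.2⟩
  apply Finite.of_injective f
  intro a b h
  have h' : (a.1 : Perm ℕ) = (b.1 : Perm ℕ) := congrArg (fun z => z.1) h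
  exact Subtype.ext (Subtype.ext h')

/-- There is a prime p and a locally finite p-group G with a proper abelian subgroup A such that every element of G lies in some conjugate of A. -/
theorem result :
    ∃ (p : ℕ) (G : Type) (_ : Group G) (A : Subgroup G),
      p.Prime ∧ IsPGroup p G ∧
      (∀ s : Set G, s.Finite → Finite ↥(Subgroup.closure s)) ∧
      A ≠ ⊤ ∧
      (∀ a ∈ A, ∀ b ∈ A, a * b = b * a) ∧
      (∀ g : G, ∃ x : G, x⁻¹ * g * x ∈ A) := by
  have := G_countable
  obtain ⟨x, hx⟩ := exists_surjective_nat G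
  choose n hn using fun i => (x i).2.1
  let k : ℕ → ℕ := fun i => i + ∑ j ∈ Finset.range (i + 1), n j
  have hkmono : StrictMono k := by
    apply strictMono_nat_of_lt_succ
    intro i
    simp only [k]
    rw [Finset.sum_range_succ (n := i + 1)]
    omega
  have hkn : ∀ i, n i ≤ k i := by
    intro i
    simp only [k]
    have := Finset.single_le_sum (f := n) (s := Finset.range (i + 1)) (fun _ _ => Nat.zero_le _)
      (Finset.self_mem_range_succ i)
    omega
  let C : ℕ → G := fun i => ⟨c (k i), c_mem _⟩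
  let y : ℕ → G := fun i => (C i)⁻¹ * x i * C i
  -- y i is supported in [2^k i, 2^(k i+1))
  have hy : ∀ i m, (m < 2 ^ (k i) ∨ 2 ^ (k i + 1) ≤ m) → (y i : Perm ℕ) m = m := by
    intro i m hm
    show ((C i : Perm ℕ)⁻¹ * (x i : Perm ℕ) * (C i : Perm ℕ)) m = m
    rw [Perm.mul_apply, Perm.mul_apply, Perm.inv_eq_iff_eq]
    apply hn i
    show n i ≤ cf (k i) m
    have h1 := hkn i
    have h2 : k i < 2 ^ (k i) := Nat.lt_two_pow_self
    have h3 : 2 ^ (k i + 1) = 2 ^ (k i) + 2 ^ (k i) := by rw [pow_succ]; ring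
    unfold cf
    split_ifs <;> omega
  have hcomm : ∀ i j, y i * y j = y j * y i := by
    intro i j
    rcases eq_or_ne i j with rfl | hij
    · rfl
    · apply Subtype.ext
      have hd : Perm.Disjoint (y i : Perm ℕ) (y j : Perm ℕ) := by
        intro m
        by_contra hcon
        push Not at hcon
        obtain ⟨h1, h2⟩ := hcon
        have h1' : ¬ (m < 2 ^ (k i) ∨ 2 ^ (k i + 1) ≤ m) := fun h => h1 (hy i m h)
        have h2' : ¬ (m < 2 ^ (k j) ∨ 2 ^ (k j + 1) ≤ m) := fun h => h2 (hy j m h)
        push Not at h1' h2'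
        rcases lt_or_gt_of_ne hij with hlt | hlt
        · have := hkmono hlt
          have : 2 ^ (k i + 1) ≤ 2 ^ (k j) := Nat.pow_le_pow_right (by norm_num) this
          omega
        · have := hkmono hlt
          have : 2 ^ (k j + 1) ≤ 2 ^ (k i) := Nat.pow_le_pow_right (by norm_num) this
          omega
      exact hd.commute.eq
  refine ⟨2, G, inferInstance, Subgroup.closure (Set.range y), Nat.prime_two, isP, loc_fin, ?_, ?_, ?_⟩
  · -- proper
    intro htop
    have hab : ∀ a b : G, a * b = b * a := by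
      intro a b
      have ha : a ∈ Subgroup.closure (Set.range y) := by rw [htop]; trivial
      have hb : b ∈ Subgroup.closure (Set.range y) := by rw [htop]; trivial
      induction ha, hb using Subgroup.closure_induction₂ with
      | mem x y hx hy =>
        obtain ⟨i, rfl⟩ := hx
        obtain ⟨j, rfl⟩ := hy
        exact hcomm i j
      | one_left x _ => simp
      | one_right x _ => simp
      | mul_left x y z _ _ _ h1 h2 => rw [mul_assoc, h2, ← mul_assoc, h1, mul_assoc]
      | mul_right x y z _ _ _ h1 h2 => rw [← mul_assoc, h1, mul_assoc, h2, mul_assoc]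
      | inv_left x y _ _ h => exact (Commute.inv_left (show Commute x y from h)).eq
      | inv_right x y _ _ h => exact (Commute.inv_right (show Commute x y from h)).eq
    have h := hab ⟨c 0, c_mem 0⟩ ⟨c 1, c_mem 1⟩
    have h2 := congrArg (fun g : G => (g : Perm ℕ) 0) h
    have h3 : cf 0 (cf 1 0) = cf 1 (cf 0 0) := h2
    revert h3
    decide
  · intro a ha b hb
    induction ha, hb using Subgroup.closure_induction₂ with
      | mem x y hx hy =>
        obtain ⟨i, rfl⟩ := hx
        obtain ⟨j, rfl⟩ := hy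
        exact hcomm i j
      | one_left x _ => simp
      | one_right x _ => simp
      | mul_left x y z _ _ _ h1 h2 => rw [mul_assoc, h2, ← mul_assoc, h1, mul_assoc]
      | mul_right x y z _ _ _ h1 h2 => rw [← mul_assoc, h1, mul_assoc, h2, mul_assoc]
      | inv_left x y _ _ h => exact (Commute.inv_left (show Commute x y from h)).eq
      | inv_right x y _ _ h => exact (Commute.inv_right (show Commute x y from h)).eq
  · intro g
    obtain ⟨i, rfl⟩ := hx g
    exact ⟨C i, Subgroup.subset_closure ⟨i, rfl⟩⟩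

end Pool.Agent.S00481
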