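import Pool.Statements.S00782
import Mathlib
-- import your own Pool.Agent.* helpers here

set_option autoImplicit false
open Pool Pool.MP_42baf1_al

namespace Pool.Agent.S00782

open Equiv Equiv.Perm

/-- front weight -/
def fw (m p : ℕ) : ℕ := if p % 2 = 0 then m else p / 2
/-- rear weight -/
def bw (m p : ℕ) : ℕ := if p % 2 = 0 then p / 2 else m

/-- x rear, y front, at distance D, weight at most K. -/
def Half (m K x y : ℕ) : Prop :=
  ∃ D, 1 ≤ D ∧ D < m ∧ (y = x + D ∨ y + (2 * m + 1) = x + D) ∧ m * D + fw m y + bw m x ≤ K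

/-- the invariant -/
def Inv (m K x y : ℕ) : Prop := Half m K x y ∨ Half m K y x

/-- rotation by two, on numbers. -/
def rr (m p : ℕ) : ℕ := if p + 2 < 2 * m + 1 then p + 2 else p + 2 - (2 * m + 1)

/-- swap of 0 and 1 on numbers -/
def ss (p : ℕ) : ℕ := if p = 0 then 1 else if p = 1 then 0 else p

lemma fw_rr (m p : ℕ) (hp : p < 2 * m + 1) : fw m (rr m p) ≤ fw m p + 1 := by
  unfold fw rr
  split_ifs <;> omega

lemma bw_rr (m p : ℕ) (hp : p < 2 * m + 1) : bw m (rr m p) ≤ bw m p + 1 := by
  unfold bw rr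
  split_ifs <;> omega

lemma half_rr (m K x y : ℕ) (hx : x < 2 * m + 1) (hy : y < 2 * m + 1) (h : Half m K x y) :
    Half m (K + 2) (rr m x) (rr m y) := by
  obtain ⟨D, h1, h2, h3, h4⟩ := h
  refine ⟨D, h1, h2, ?_, ?_⟩
  · unfold rr
    split_ifs <;> omega
  · have := fw_rr m y hy
    have := bw_rr m x hx
    omega

lemma inv_rr (m K x y : ℕ) (hx : x < 2 * m + 1) (hy : y < 2 * m + 1) (h : Inv m K x y) :
    Inv m (K + 2) (rr m x) (rr m y) := by
  rcases h with h | h
  · exact Or.inl (half_rr m K x y hx hy h)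
  · exact Or.inr (half_rr m K y x hy hx h)

lemma half_mono {m K L x y : ℕ} (hKL : K ≤ L) (h : Half m K x y) : Half m L x y := by
  obtain ⟨D, h1, h2, h3, h4⟩ := h
  exact ⟨D, h1, h2, h3, h4.trans hKL⟩

lemma half_ss (m K x y : ℕ) (hm : 2 ≤ m) (hx : x < 2 * m + 1) (hy : y < 2 * m + 1) (hK : K < m * m)
    (h : Half m K x y) :
    Inv m K (ss x) (ss y) := by
  have h' := h
  obtain ⟨D, h1, h2, h3, h4⟩ := h
  -- cases
  have key : ∀ D' : ℕ, m * D' ≤ K → D' < m := by
    intro D' hD'
    by_contra hcon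
    push Not at hcon
    have : m * m ≤ m * D' := Nat.mul_le_mul_left m hcon
    omega
  obtain ⟨E, rfl⟩ : ∃ E, D = E + 1 := ⟨D - 1, by omega⟩
  have e1 : m * (E + 1) = m * E + m := Nat.mul_succ m E
  have e2 : m * (E + 1 + 1) = m * E + m + m := by rw [Nat.mul_succ, Nat.mul_succ]
  have hf0 : fw m 0 = m := by simp [fw]
  have hf1 : fw m 1 = 0 := by simp [fw]
  have hb0 : bw m 0 = 0 := by simp [bw]
  have hb1 : bw m 1 = m := by simp [bw]
  by_cases hx0 : x = 0
  · subst hx0
    by_cases hy1 : y = 1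
    · subst hy1
      exact Or.inr h'
    · have hy0 : y ≠ 0 := by omega
      left
      refine ⟨E, by omega, by omega, ?_, ?_⟩
      · simp only [ss, hy0, hy1, if_true, if_false]
        omega
      · simp only [ss, hy0, hy1, if_true, if_false]
        omega
  by_cases hx1 : x = 1
  · subst hx1
    have hy0 : y ≠ 0 := by omega
    have hy1 : y ≠ 1 := by omega
    left
    refine ⟨E + 1 + 1, by omega, ?_, ?_, ?_⟩
    · apply key
      rw [hb1] at h4
      omega
    · simp only [ss, hy0, hy1, if_true, if_false, one_ne_zero]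
      omega
    · simp only [ss, hy0, hy1, if_true, if_false, one_ne_zero]
      omega
  by_cases hy0 : y = 0
  · subst hy0
    left
    refine ⟨E + 1 + 1, by omega, ?_, ?_, ?_⟩
    · apply key
      omega
    · simp only [ss, hx0, hx1, if_true, if_false]
      omega
    · simp only [ss, hx0, hx1, if_true, if_false]
      omega
  by_cases hy1 : y = 1
  · subst hy1
    left
    refine ⟨E, by omega, by omega, ?_, ?_⟩
    · simp only [ss, hx0, hx1, if_true, if_false, one_ne_zero]
      omega
    · simp only [ss, hx0, hx1, if_true, if_false, one_ne_zero]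
      omega
  · left
    simp only [ss, hx0, hx1, hy0, hy1, if_false]
    exact h'

lemma inv_ss (m K x y : ℕ) (hm : 2 ≤ m) (hx : x < 2 * m + 1) (hy : y < 2 * m + 1) (hK : K < m * m)
    (h : Inv m K x y) : Inv m K (ss x) (ss y) := by
  rcases h with h | h
  · exact half_ss m K x y hm hx hy hK h
  · exact (half_ss m K y x hm hy hx hK h).symm

lemma inv_mono {m K L x y : ℕ} (hKL : K ≤ L) (h : Inv m K x y) : Inv m L x y := by
  rcases h with h | h
  · exact Or.inl (half_mono hKL h)
  · exact Or.inr (half_mono hKL h)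

/-- rotation by two. -/
def rot (m : ℕ) : Perm (Fin (2 * m + 1)) := (finRotate (2 * m + 1)) ^ 2

lemma one_val (m : ℕ) (hm : 2 ≤ m) : (1 : Fin (2 * m + 1)).val = 1 := by
  obtain ⟨k, rfl⟩ : ∃ k, m = k + 1 := ⟨m - 1, by omega⟩
  rfl

lemma rot_val (m : ℕ) (hm : 2 ≤ m) (p : Fin (2 * m + 1)) : (rot m p : ℕ) = rr m p := by
  unfold rot rr
  rw [pow_two, Perm.mul_apply, finRotate_apply, finRotate_apply]
  have hp := p.2
  rw [Fin.val_add, Fin.val_add, one_val m hm]
  split_ifs with h
  · rw [Nat.mod_eq_of_lt (a := (p : ℕ) + 1) (by omega), Nat.mod_eq_of_lt (by omega)]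
  · by_cases h1 : (p : ℕ) + 1 < 2 * m + 1
    · rw [Nat.mod_eq_of_lt (a := (p : ℕ) + 1) (by omega)]
      have : (p : ℕ) + 1 + 1 = 2 * m + 1 := by omega
      rw [this, Nat.mod_self]
      omega
    · have : (p : ℕ) + 1 = 2 * m + 1 := by omega
      rw [this, Nat.mod_self, Nat.mod_eq_of_lt (by omega)]
      omega

lemma swap_val (m : ℕ) (hm : 2 ≤ m) (p : Fin (2 * m + 1)) :
    ((swap (0 : Fin (2 * m + 1)) 1) p : ℕ) = ss p := by
  have h1 := one_val m hm
  unfold ss
  by_cases hp0 : p = 0
  · rw [hp0, swap_apply_left, h1, Fin.val_zero, if_pos rfl]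
  by_cases hp1 : p = 1
  · rw [hp1, swap_apply_right, h1, Fin.val_zero, if_neg one_ne_zero, if_pos rfl]
  · rw [swap_apply_of_ne_of_ne hp0 hp1]
    have h2 : (p : ℕ) ≠ 0 := fun h => hp0 (Fin.ext (by simpa using h))
    have h3 : (p : ℕ) ≠ 1 := fun h => hp1 (Fin.ext (by rw [h, h1]))
    rw [if_neg h2, if_neg h3]

lemma closure_top (m : ℕ) (hm : 2 ≤ m) :
    Subgroup.closure ({rot m, swap 0 1} : Set (Perm (Fin (2 * m + 1)))) = ⊤ := by
  obtain ⟨k, rfl⟩ : ∃ k, m = k + 1 := ⟨m - 1, by omega⟩
  have hc : IsCycle (finRotate (2 * (k + 1) + 1)) := isCycle_finRotate (n := 2 * k + 1)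
  have hs : (finRotate (2 * (k + 1) + 1)).support = Finset.univ :=
    support_finRotate (n := 2 * k + 1)
  have ho : orderOf (finRotate (2 * (k + 1) + 1)) = 2 * (k + 1) + 1 := by
    rw [hc.orderOf, hs, Finset.card_univ, Fintype.card_fin]
  have hcop : Nat.Coprime 2 (2 * (k + 1) + 1) := by
    simp
  have hc2 : IsCycle (rot (k + 1)) := by
    unfold rot
    rw [hc.pow_iff, ho]
    exact hcop
  have hs2 : (rot (k + 1)).support = Finset.univ := by
    unfold rot
    rw [support_pow_coprime (by rw [ho]; exact hcop), hs]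
  have hcop2 : Nat.Coprime (k + 1 + 1) (Fintype.card (Fin (2 * (k + 1) + 1))) := by
    rw [Fintype.card_fin]
    have : 2 * (k + 1) + 1 + 1 = 2 * (k + 1 + 1) := by ring
    have h2 : Nat.Coprime (2 * (k + 1) + 1 + 1) (2 * (k + 1) + 1) := by
      simp
    rw [this] at h2
    exact Nat.Coprime.coprime_mul_left h2
  have key := closure_cycle_coprime_swap hcop2 hc2 hs2 0
  have e : ((rot (k + 1)) ^ (k + 1 + 1)) 0 = 1 := by
    unfold rot
    rw [← pow_mul]
    have : 2 * (k + 1 + 1) = (2 * (k + 1) + 1) + 1 := by ring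
    rw [this, pow_succ]
    have : (finRotate (2 * (k + 1) + 1)) ^ (2 * (k + 1) + 1) = 1 := by
      have := pow_orderOf_eq_one (finRotate (2 * (k + 1) + 1))
      rwa [ho] at this
    rw [this, one_mul, finRotate_apply]
    simp
  rw [e] at key
  exact key

lemma word_inv (m : ℕ) (hm : 2 ≤ m) (w : List (Perm (Fin (2 * m + 1))))
    (hw : ∀ s ∈ w, s ∈ ({rot m, swap 0 1} : Set (Perm (Fin (2 * m + 1)))))
    (hlen : m + 2 * w.length < m * m) :
    Inv m (m + 2 * w.length) (w.prod 0 : Fin (2 * m + 1)) (w.prod 1 : Fin (2 * m + 1)) := by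
  induction w with
  | nil =>
    left
    refine ⟨1, le_rfl, by omega, ?_, ?_⟩
    · left
      rw [List.prod_nil, Perm.one_apply, Perm.one_apply, one_val m hm, Fin.val_zero]
    · rw [List.prod_nil, Perm.one_apply, Perm.one_apply, one_val m hm, Fin.val_zero]
      simp [fw, bw]
  | cons g w ih =>
    have ih' := ih (fun s hs => hw s (List.mem_cons_of_mem _ hs)) (by
      rw [List.length_cons] at hlen; omega)
    rw [List.prod_cons, Perm.mul_apply, Perm.mul_apply]
    rw [List.length_cons] at hlen ⊢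
    have hg := hw g (List.mem_cons_self ..)
    rcases hg with hg | hg
    · rw [hg, rot_val m hm, rot_val m hm]
      have := inv_rr m _ _ _ (w.prod 0 : Fin (2 * m + 1)).2 (w.prod 1 : Fin (2 * m + 1)).2 ih'
      exact inv_mono (by omega) this
    · rw [Set.mem_singleton_iff] at hg
      rw [hg, swap_val m hm, swap_val m hm]
      have := inv_ss m _ _ _ hm (w.prod 0 : Fin (2 * m + 1)).2 (w.prod 1 : Fin (2 * m + 1)).2
        (by omega) ih'
      exact inv_mono (by omega) this

/-- The partition whose only nontrivial class is `{0, m}`. -/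
def part (m : ℕ) : Setoid (Fin (2 * m + 1)) where
  r x y := x = y ∨ (((x : ℕ) = 0 ∨ (x : ℕ) = m) ∧ ((y : ℕ) = 0 ∨ (y : ℕ) = m))
  iseqv := {
    refl := fun x => Or.inl rfl
    symm := by
      rintro x y (h | ⟨h1, h2⟩)
      · exact Or.inl h.symm
      · exact Or.inr ⟨h2, h1⟩
    trans := by
      rintro x y z (h | ⟨h1, h2⟩) (h' | ⟨h1', h2'⟩)
      · exact Or.inl (h.trans h')
      · subst h; exact Or.inr ⟨h1', h2'⟩
      · subst h'; exact Or.inr ⟨h1, h2⟩
      · exact Or.inr ⟨h1, h2'⟩ }

/-- The negation of the preceding statement: There is a constant C such that for every primitive G ≤ Sym(n) generated by S, every partition P and distinct points a, b: if some element of G sends a, b into one part of P, then some word over S of length at most C·n does too. -/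
theorem result :
    ¬ (∃ C : ℕ, ∀ (n : ℕ) (G : Subgroup (Equiv.Perm (Fin n))),
      MulAction.IsPreprimitive G (Fin n) →
      ∀ S : Set (Equiv.Perm (Fin n)), Subgroup.closure S = G →
      ∀ P : Setoid (Fin n), ∀ a b : Fin n, a ≠ b →
        (∃ g ∈ G, P.r (g a) (g b)) →
        ∃ w : List (Equiv.Perm (Fin n)), (∀ s ∈ w, s ∈ S) ∧
          w.length ≤ C * n ∧ P.r (w.prod a) (w.prod b)) := by
  rintro ⟨C, hC⟩
  set m : ℕ := 4 * C + 10 with hmdef
  have hm : 2 ≤ m := by omega
  have hprim : MulAction.IsPreprimitive (⊤ : Subgroup (Perm (Fin (2 * m + 1)))) (Fin (2 * m + 1)) := by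
    let f : Fin (2 * m + 1) →ₑ[((Subgroup.topEquiv (G := Perm (Fin (2 * m + 1)))).symm :
        Perm (Fin (2 * m + 1)) → (⊤ : Subgroup (Perm (Fin (2 * m + 1)))))] Fin (2 * m + 1) :=
      { toFun := id
        map_smul' := fun _ _ => rfl }
    exact MulAction.IsPreprimitive.of_surjective (f := f) Function.surjective_id
  have h01 : (0 : Fin (2 * m + 1)) ≠ 1 := by
    intro h
    have := congrArg Fin.val h
    rw [one_val m hm] at this
    simp at this
  obtain ⟨w, hw, hlen, hP⟩ := hC (2 * m + 1) ⊤ hprim {rot m, swap 0 1} (closure_top m hm) (part m)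
    0 1 h01 (by
      refine ⟨swap 1 ⟨m, by omega⟩, Subgroup.mem_top _, ?_⟩
      right
      constructor
      · left
        rw [swap_apply_of_ne_of_ne h01]
        · simp
        · intro h
          have := congrArg Fin.val h
          simp at this
      · right
        rw [swap_apply_left])
  have hlt : m + 2 * w.length < m * m := by
    have h1 : m * m = m * (4 * C) + m * 10 := by
      rw [← Nat.mul_add]
    have h2 : C * (2 * m + 1) = 2 * (C * m) + C := by ring
    have h3 : m * (4 * C) = 4 * (C * m) := by ring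
    omega
  have hinv := word_inv m hm w hw hlt
  have hne : (w.prod 0 : Fin (2 * m + 1)) ≠ w.prod 1 := fun h => h01 (w.prod.injective h)
  rcases hP with h | ⟨h1, h2⟩
  · exact hne h
  · have hne' : ((w.prod 0 : Fin (2 * m + 1)) : ℕ) ≠ (w.prod 1 : Fin (2 * m + 1)) :=
      fun h => hne (Fin.ext h)
    rcases hinv with ⟨D, hD1, hD2, hD3, hD4⟩ | ⟨D, hD1, hD2, hD3, hD4⟩
    · omega
    · omega

end Pool.Agent.S00782
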