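import Pool.Statements.S01078
import Mathlib
import Pool.Agent.Helper9.Semilinear

set_option autoImplicit false
open Pool Pool.MP_63a718_al

namespace Pool.Agent.S01078

/-- The negation of the preceding statement: For every group G and every right-invariant, upward-directed partial order on G whose positive cone is a chain, there is a right-invariant total order on G that contains it. -/
theorem result :
    ¬ (∀ (G : Type) [Group G] (r : G → G → Prop),
      (∀ a : G, r a a) →
      (∀ a b : G, r a b → r b a → a = b) →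
      (∀ a b c : G, r a b → r b c → r a c) →
      (∀ a b c : G, r a b → r (a * c) (b * c)) →
      (∀ a b : G, ∃ c : G, r a c ∧ r b c) →
      (∀ a b : G, r 1 a → r 1 b → r a b ∨ r b a) →
      ∃ s : G → G → Prop,
        (∀ a : G, s a a) ∧
        (∀ a b : G, s a b → s b a → a = b) ∧
        (∀ a b c : G, s a b → s b c → s a c) ∧
        (∀ a b : G, s a b ∨ s b a) ∧
        (∀ a b c : G, s a b → s (a * c) (b * c)) ∧
        (∀ a b : G, r a b → s a b)) := by
  intro H
  have h := H Pool.Agent.Helper9.Semilinear.G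
    (fun a b => Pool.Agent.Helper9.Semilinear.P (b * a⁻¹))
    (by intro a; rw [mul_inv_cancel]; exact Or.inl rfl)
    (by
      intro a b h1 h2
      have h3 := Pool.Agent.Helper9.Semilinear.P_antisymm h1 (by rwa [mul_inv_rev, inv_inv])
      exact (mul_inv_eq_one.1 h3).symm)
    (by
      intro a b c h1 h2
      have h3 := Pool.Agent.Helper9.Semilinear.P_mul h2 h1
      rwa [mul_assoc, inv_mul_cancel_left] at h3)
    (by
      intro a b c h1
      rwa [mul_inv_rev, mul_assoc, mul_inv_cancel_left])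
    (by
      intro a b
      exact Pool.Agent.Helper9.Semilinear.P_directed a b)
    (by
      intro a b h1 h2
      rw [inv_one, mul_one] at h1 h2
      exact Pool.Agent.Helper9.Semilinear.P_chain h1 h2)
  obtain ⟨s, _, santi, strans, stot, sright, sext⟩ := h
  have hmul : ∀ g k, s 1 g → s 1 k → s 1 (g * k) := by
    intro g k hg hk
    have h1 := sright 1 g k hg
    rw [one_mul] at h1
    exact strans _ _ _ hk h1
  have hP : ∀ g, Pool.Agent.Helper9.Semilinear.P g → s 1 g := by
    intro g hg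
    apply sext
    rwa [inv_one, mul_one]
  have hinv : ∀ g, s g 1 → s 1 g⁻¹ := by
    intro g hg
    have h1 := sright g 1 g⁻¹ hg
    rwa [mul_inv_cancel, one_mul] at h1
  have hcontra : ∀ x : Pool.Agent.Helper9.Semilinear.Kb, x ≠ 1 →
      s 1 (Pool.Agent.Helper9.Semilinear.io x) → s 1 (Pool.Agent.Helper9.Semilinear.io x⁻¹) →
      False := by
    intro x hx h1 h2
    have h3 := sright 1 _ (Pool.Agent.Helper9.Semilinear.io x) h2
    rw [one_mul, Pool.Agent.Helper9.Semilinear.io_mul, inv_mul_cancel,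
      Pool.Agent.Helper9.Semilinear.io_one] at h3
    have h4 := santi _ _ h1 h3
    apply hx
    have h5 := congrArg (fun g : Pool.Agent.Helper9.Semilinear.G => g.f 0) h4
    exact h5.symm
  have ha : s 1 (Pool.Agent.Helper9.Semilinear.io ⟨1, 0⟩) := by
    apply hP
    apply Pool.Agent.Helper9.Semilinear.P_io
    left
    exact ⟨rfl, by simp, Or.inl one_pos⟩
  have hb1 : s 1 (Pool.Agent.Helper9.Semilinear.io ⟨1, -2⟩) := by
    apply hP
    apply Pool.Agent.Helper9.Semilinear.P_io
    left
    exact ⟨rfl, by decide, Or.inl one_pos⟩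
  have hb2 : s 1 (Pool.Agent.Helper9.Semilinear.io ⟨1, 2⟩) := by
    apply hP
    apply Pool.Agent.Helper9.Semilinear.P_io
    left
    exact ⟨rfl, by decide, Or.inl one_pos⟩
  have eps1 := Pool.Agent.Helper9.Semilinear.eps_one
  have epsn1 := Pool.Agent.Helper9.Semilinear.eps_neg_one
  rcases stot 1 (Pool.Agent.Helper9.Semilinear.io ⟨0, 1⟩) with hb | hb
  · -- b is positive
    have h1 := hmul _ _ (hmul _ _ hb ha) hb
    rw [Pool.Agent.Helper9.Semilinear.io_mul, Pool.Agent.Helper9.Semilinear.io_mul] at h1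
    have e : (⟨0, 1⟩ : Pool.Agent.Helper9.Semilinear.Kb) * ⟨1, 0⟩ * ⟨0, 1⟩ = ⟨-1, 2⟩ := by
      ext <;> simp [eps1]
    have e2 : (⟨-1, 2⟩ : Pool.Agent.Helper9.Semilinear.Kb) = (⟨1, -2⟩ : Pool.Agent.Helper9.Semilinear.Kb)⁻¹ := by
      have : Pool.Agent.Helper9.Semilinear.eps (-2) = 1 :=
        Pool.Agent.Helper9.Semilinear.eps_even (by decide)
      ext
      · rw [Pool.Agent.Helper9.Semilinear.Kb.inv_m', this]; simp
      · rw [Pool.Agent.Helper9.Semilinear.Kb.inv_n']; simp
    rw [e, e2] at h1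
    exact hcontra ⟨1, -2⟩ (by
      intro hh
      have := congrArg Pool.Agent.Helper9.Semilinear.Kb.m hh
      simp at this) hb1 h1
  · have hb' := hinv _ hb
    have e0 : (Pool.Agent.Helper9.Semilinear.io ⟨0, 1⟩)⁻¹
        = Pool.Agent.Helper9.Semilinear.io ⟨0, -1⟩ := by
      rw [inv_eq_iff_mul_eq_one, Pool.Agent.Helper9.Semilinear.io_mul,
        ← Pool.Agent.Helper9.Semilinear.io_one]
      congr 1
    rw [e0] at hb'
    have h1 := hmul _ _ (hmul _ _ hb' ha) hb'
    rw [Pool.Agent.Helper9.Semilinear.io_mul, Pool.Agent.Helper9.Semilinear.io_mul] at h1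
    have e : (⟨0, -1⟩ : Pool.Agent.Helper9.Semilinear.Kb) * ⟨1, 0⟩ * ⟨0, -1⟩ = ⟨-1, -2⟩ := by
      ext <;> simp [epsn1]
    have e2 : (⟨-1, -2⟩ : Pool.Agent.Helper9.Semilinear.Kb) = (⟨1, 2⟩ : Pool.Agent.Helper9.Semilinear.Kb)⁻¹ := by
      have : Pool.Agent.Helper9.Semilinear.eps 2 = 1 :=
        Pool.Agent.Helper9.Semilinear.eps_even (by decide)
      ext
      · rw [Pool.Agent.Helper9.Semilinear.Kb.inv_m', this]; simp
      · rw [Pool.Agent.Helper9.Semilinear.Kb.inv_n']
    rw [e, e2] at h1
    exact hcontra ⟨1, 2⟩ (by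
      intro hh
      have := congrArg Pool.Agent.Helper9.Semilinear.Kb.m hh
      simp at this) hb2 h1

end Pool.Agent.S01078
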