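import Pool.Statements.S01091
import Mathlib
import Pool.Agent.Helper9.Neumann

set_option autoImplicit false
open scoped ComplexOrder
open Pool Pool.MP_65a4af_al

namespace Pool.Agent.S01091

/-- For every nonnegative real (n+1)×(n+1) matrix (n ≥ 1) with spectral radius 1, listing its eigenvalues with multiplicity as 1, λ₁,…,λₙ, the product of the (1−λⱼ) is at most their sum. -/
theorem result :
    ∀ n : ℕ, 1 ≤ n → ∀ A : Matrix (Fin (n + 1)) (Fin (n + 1)) ℝ,
      (∀ i j, 0 ≤ A i j) →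
      (1 : ℂ) ∈ (A.map (algebraMap ℝ ℂ)).charpoly.roots →
      (∀ z ∈ (A.map (algebraMap ℝ ℂ)).charpoly.roots, ‖z‖ ≤ 1) →
      ((((A.map (algebraMap ℝ ℂ)).charpoly.roots).erase 1).map (fun z : ℂ => 1 - z)).prod
        ≤ ((((A.map (algebraMap ℝ ℂ)).charpoly.roots).erase 1).map (fun z : ℂ => 1 - z)).sum := by
  intro n hn A hA h1 hr
  obtain ⟨a, b, hab, ha, hb⟩ := Pool.Agent.Helper9.Neumann.main n hn A hA h1 hr
  rw [ha, hb]
  exact_mod_cast hab

end Pool.Agent.S01091
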