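import Pool.Statements.S01109

set_option autoImplicit false
open Pool Pool.MP_67f4ab_al

namespace Pool.Agent.S01109

section norm
variable {X : Type*}

/-- the `ℓ¹` norm of a finitely supported function -/
noncomputable def nn (x : X →₀ ℝ) : ℝ := ∑ g ∈ x.support, |x g|

theorem nn_eq (x : X →₀ ℝ) (s : Finset X) (h : x.support ⊆ s) : nn x = ∑ g ∈ s, |x g| := by
  unfold nn
  refine Finset.sum_subset h ?_
  intro g _ hg
  rw [Finsupp.notMem_support_iff.1 hg, abs_zero]

theorem nn_nonneg (x : X →₀ ℝ) : 0 ≤ nn x := Finset.sum_nonneg fun _ _ => abs_nonneg _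

theorem nn_zero : nn (0 : X →₀ ℝ) = 0 := by simp [nn]

theorem nn_neg (x : X →₀ ℝ) : nn (-x) = nn x := by
  classical
  rw [nn_eq (-x) x.support (by rw [Finsupp.support_neg])]
  unfold nn
  refine Finset.sum_congr rfl fun g _ => ?_
  rw [Finsupp.neg_apply, abs_neg]

theorem nn_add_le (x y : X →₀ ℝ) : nn (x + y) ≤ nn x + nn y := by
  classical
  rw [nn_eq (x + y) (x.support ∪ y.support) Finsupp.support_add,
    nn_eq x (x.support ∪ y.support) Finset.subset_union_left,
    nn_eq y (x.support ∪ y.support) Finset.subset_union_right, ← Finset.sum_add_distrib]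
  refine Finset.sum_le_sum fun g _ => ?_
  rw [Finsupp.add_apply]
  exact abs_add_le _ _

theorem nn_add_eq (x y : X →₀ ℝ) (h : ∀ g, 0 ≤ x g * y g) : nn (x + y) = nn x + nn y := by
  classical
  rw [nn_eq (x + y) (x.support ∪ y.support) Finsupp.support_add,
    nn_eq x (x.support ∪ y.support) Finset.subset_union_left,
    nn_eq y (x.support ∪ y.support) Finset.subset_union_right, ← Finset.sum_add_distrib]
  refine Finset.sum_congr rfl fun g _ => ?_
  rw [Finsupp.add_apply]
  rcases le_total 0 (x g) with hx | hx <;> rcases le_total 0 (y g) with hy | hy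
  · rw [abs_of_nonneg hx, abs_of_nonneg hy, abs_of_nonneg (add_nonneg hx hy)]
  · have h1 := h g
    have h2 : x g * y g = 0 := le_antisymm (mul_nonpos_of_nonneg_of_nonpos hx hy) h1
    rcases mul_eq_zero.1 h2 with h3 | h3 <;> simp [h3]
  · have h1 := h g
    have h2 : x g * y g = 0 := le_antisymm (mul_nonpos_of_nonpos_of_nonneg hx hy) h1
    rcases mul_eq_zero.1 h2 with h3 | h3 <;> simp [h3]
  · rw [abs_of_nonpos hx, abs_of_nonpos hy, abs_of_nonpos (add_nonpos hx hy)]
    ring

theorem nn_smul (c : ℝ) (x : X →₀ ℝ) : nn (c • x) = |c| * nn x := by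
  classical
  rw [nn_eq (c • x) x.support Finsupp.support_smul]
  unfold nn
  rw [Finset.mul_sum]
  refine Finset.sum_congr rfl fun g _ => ?_
  rw [Finsupp.smul_apply, smul_eq_mul, abs_mul]

theorem nn_single (g : X) (a : ℝ) : nn (Finsupp.single g a) = |a| := by
  classical
  rw [nn_eq _ {g} Finsupp.support_single_subset]
  simp

theorem nn_sum_le {ι : Type*} (s : Finset ι) (f : ι → X →₀ ℝ) :
    nn (∑ i ∈ s, f i) ≤ ∑ i ∈ s, nn (f i) := by
  classical
  induction s using Finset.induction_on with
  | empty => simp [nn_zero]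
  | insert a s ha ih =>
    rw [Finset.sum_insert ha, Finset.sum_insert ha]
    exact (nn_add_le _ _).trans (by linarith)

end norm

section words
variable {G : Type*} [Group G]

/-- sign of a letter -/
noncomputable def sg (b : Bool) : ℝ := if b then 1 else -1

/-- value of a letter -/
def lv (l : G × Bool) : G := if l.2 then l.1 else l.1⁻¹

/-- value of a word -/
def wv (W : List (G × Bool)) : G := (W.map lv).prod

/-- abelianization of a word -/
noncomputable def fw (W : List (G × Bool)) : G →₀ ℝ :=
  (W.map (fun l => Finsupp.single l.1 (sg l.2))).sum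

theorem wv_nil : wv ([] : List (G × Bool)) = 1 := rfl
theorem wv_cons (l : G × Bool) (W) : wv (l :: W) = lv l * wv W := by simp [wv]
theorem wv_append (V W : List (G × Bool)) : wv (V ++ W) = wv V * wv W := by simp [wv]
theorem fw_nil : fw ([] : List (G × Bool)) = 0 := rfl
theorem fw_cons (l : G × Bool) (W) : fw (l :: W) = Finsupp.single l.1 (sg l.2) + fw W := by
  simp [fw]
theorem fw_append (V W : List (G × Bool)) : fw (V ++ W) = fw V + fw W := by simp [fw]

/-- opposite letter -/
def op (l : G × Bool) : G × Bool := (l.1, !l.2)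

theorem lv_op (l : G × Bool) : lv (op l) = (lv l)⁻¹ := by
  rcases l with ⟨g, b⟩
  cases b <;> simp [lv, op]

theorem single_op (l : G × Bool) :
    Finsupp.single (op l).1 (sg (op l).2) = -Finsupp.single l.1 (sg l.2) := by
  rcases l with ⟨g, b⟩
  rw [← Finsupp.single_neg]
  cases b <;> simp [sg, op]

theorem fw_nonneg (W : List (G × Bool)) (g : G) (h : (g, false) ∉ W) : 0 ≤ fw W g := by
  classical
  induction W with
  | nil => simp [fw_nil]
  | cons l W ih =>
    rw [fw_cons, Finsupp.add_apply]
    have h1 : 0 ≤ fw W g := ih (fun h' => h (List.mem_cons_of_mem _ h'))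
    rcases l with ⟨g', b⟩
    have h2 : 0 ≤ (Finsupp.single g' (sg b)) g := by
      rw [Finsupp.single_apply]
      split_ifs with hg
      · subst hg
        cases b
        · exact absurd (List.mem_cons_self) h
        · simp [sg]
      · exact le_refl _
    exact add_nonneg h2 h1

theorem fw_nonpos (W : List (G × Bool)) (g : G) (h : (g, true) ∉ W) : fw W g ≤ 0 := by
  classical
  induction W with
  | nil => simp [fw_nil]
  | cons l W ih =>
    rw [fw_cons, Finsupp.add_apply]
    have h1 : fw W g ≤ 0 := ih (fun h' => h (List.mem_cons_of_mem _ h'))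
    rcases l with ⟨g', b⟩
    have h2 : (Finsupp.single g' (sg b)) g ≤ 0 := by
      rw [Finsupp.single_apply]
      split_ifs with hg
      · subst hg
        cases b
        · simp [sg]
        · exact absurd (List.mem_cons_self) h
      · exact le_refl _
    exact add_nonpos h2 h1

theorem fw_add_norm (V W : List (G × Bool)) (h : ∀ l ∈ V, op l ∉ W) :
    nn (fw V + fw W) = nn (fw V) + nn (fw W) := by
  classical
  apply nn_add_eq
  intro g
  by_cases h1 : (g, true) ∈ V
  · have h2 : (g, false) ∉ W := h _ h1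
    by_cases h3 : (g, false) ∈ V
    · have h4 : (g, true) ∉ W := h _ h3
      have : fw W g = 0 := le_antisymm (fw_nonpos W g h4) (fw_nonneg W g h2)
      rw [this, mul_zero]
    · exact mul_nonneg (fw_nonneg V g h3) (fw_nonneg W g h2)
  · have h2 := fw_nonpos V g h1
    by_cases h3 : (g, false) ∈ V
    · have h4 : (g, true) ∉ W := h _ h3
      exact mul_nonneg_of_nonpos_of_nonpos h2 (fw_nonpos W g h4)
    · have h4 := fw_nonneg V g h3
      rw [le_antisymm h2 h4, zero_mul]

/-- no opposite letters: norm equals length -/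
theorem fw_norm_eq (W : List (G × Bool)) (h : ∀ l ∈ W, op l ∉ W) : nn (fw W) = W.length := by
  induction W with
  | nil => simp [fw_nil, nn_zero]
  | cons l W ih =>
    have h1 : nn (fw [l] + fw W) = nn (fw [l]) + nn (fw W) := by
      apply fw_add_norm
      intro l' hl'
      rw [List.mem_singleton] at hl'
      subst hl'
      intro h'
      exact h l' List.mem_cons_self (List.mem_cons_of_mem _ h')
    have h2 : fw (l :: W) = fw [l] + fw W := by rw [← fw_append]; rfl
    rw [h2, h1, ih (fun l' hl' h' => h l' (List.mem_cons_of_mem _ hl') (List.mem_cons_of_mem _ h'))]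
    have h3 : fw [l] = Finsupp.single l.1 (sg l.2) := by rw [fw_cons, fw_nil, add_zero]
    rw [h3, nn_single]
    have : |sg l.2| = 1 := by cases l.2 <;> simp [sg]
    rw [this]
    push_cast [List.length_cons]
    ring

end words

section quasi
variable {G : Type*} [Group G] (φ : G → ℝ) (D : ℝ)

/-- linear extension -/
noncomputable def Ph : (G →₀ ℝ) →ₗ[ℝ] ℝ := Finsupp.linearCombination ℝ φ

theorem Ph_single (g : G) (a : ℝ) : Ph φ (Finsupp.single g a) = a * φ g := by
  simp [Ph]

structure QM : Prop where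
  bd : ∀ g h : G, |φ (g * h) - φ g - φ h| ≤ D
  hom : ∀ (g : G) (n : ℕ), φ (g ^ n) = (n : ℝ) * φ g

variable {φ D}

theorem QM.nonneg (H : QM φ D) : 0 ≤ D := (abs_nonneg _).trans (H.bd 1 1)

theorem QM.one (H : QM φ D) : φ 1 = 0 := by
  have := H.hom 1 0
  simpa using this

theorem eq_zero_of_nat_mul_le {a C : ℝ} (h : ∀ n : ℕ, (n : ℝ) * |a| ≤ C) : a = 0 := by
  by_contra hne
  have hpos : 0 < |a| := abs_pos.2 hne
  obtain ⟨n, hn⟩ := exists_nat_gt (C / |a|)
  have h1 := h n
  rw [div_lt_iff₀ hpos] at hn
  linarith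

theorem QM.inv (H : QM φ D) (g : G) : φ g⁻¹ = -φ g := by
  have h : φ g + φ g⁻¹ = 0 := by
    apply eq_zero_of_nat_mul_le (C := D)
    intro n
    have h1 := H.bd (g ^ n) (g⁻¹ ^ n)
    rw [H.hom, H.hom, inv_pow, mul_inv_cancel, H.one] at h1
    have h2 : (n : ℝ) * |φ g + φ g⁻¹| = |0 - (n : ℝ) * φ g - (n : ℝ) * φ g⁻¹| := by
      rw [show (0 : ℝ) - (n : ℝ) * φ g - (n : ℝ) * φ g⁻¹ = -((n : ℝ) * (φ g + φ g⁻¹)) by ring,
        abs_neg, abs_mul, Nat.abs_cast]
    rw [h2]
    exact h1
  linarith

theorem QM.conj (H : QM φ D) (x g : G) : φ (x * g * x⁻¹) = φ g := by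
  have h : φ (x * g * x⁻¹) - φ g = 0 := by
    apply eq_zero_of_nat_mul_le (C := 2 * D)
    intro n
    have h1 := H.bd (x * g ^ n) x⁻¹
    have h2 := H.bd x (g ^ n)
    have h3 : φ (x * g ^ n * x⁻¹) = (n : ℝ) * φ (x * g * x⁻¹) := by
      rw [← H.hom, conj_pow]
    have h4 := H.inv x
    rw [h3, h4] at h1
    rw [H.hom] at h2
    have h5 : (n : ℝ) * |φ (x * g * x⁻¹) - φ g| = |(n : ℝ) * (φ (x * g * x⁻¹) - φ g)| := by
      rw [abs_mul, Nat.abs_cast]
    rw [h5, abs_le]
    rw [abs_le] at h1 h2
    constructor <;> nlinarith [h1.1, h1.2, h2.1, h2.2]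
  linarith

theorem QM.comm (H : QM φ D) (x y : G) : |φ (x * y * x⁻¹ * y⁻¹)| ≤ D := by
  have h1 := H.bd (x * y * x⁻¹) y⁻¹
  rw [H.conj, H.inv] at h1
  have : φ (x * y * x⁻¹ * y⁻¹) - φ y - -φ y = φ (x * y * x⁻¹ * y⁻¹) := by ring
  rwa [this] at h1

theorem QM.lv (H : QM φ D) (l : G × Bool) : φ (lv l) = sg l.2 * φ l.1 := by
  rcases l with ⟨g, b⟩
  cases b
  · simp [S01109.lv, sg, H.inv]
  · simp [S01109.lv, sg]

theorem Ph_cons (H : QM φ D) (l : G × Bool) (W) :
    Ph φ (fw (l :: W)) = φ (lv l) + Ph φ (fw W) := by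
  rw [fw_cons, map_add, Ph_single, H.lv]

theorem Ph_le (H : QM φ D) (W : List (G × Bool)) (hW : W ≠ []) :
    Ph φ (fw W) ≤ φ (wv W) + (W.length - 1) * D := by
  induction W with
  | nil => exact absurd rfl hW
  | cons l W ih =>
    rw [Ph_cons H, wv_cons]
    by_cases hW' : W = []
    · subst hW'
      simp [fw_nil, wv_nil]
    · have h1 := ih hW'
      have h2 := (abs_le.1 (H.bd (lv l) (wv W))).1
      push_cast [List.length_cons]
      linarith

/-- the word inequality -/
theorem word_ineq (H : QM φ D) : ∀ (n : ℕ) (W : List (G × Bool)), W.length = n → W ≠ [] →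
    wv W = 1 → Ph φ (fw W) ≤ D / 2 * (W.length + nn (fw W)) - D := by
  classical
  intro n
  induction n using Nat.strong_induction_on with
  | _ n ih =>
  intro W hn hne h1
  have hD := H.nonneg
  by_cases hop : ∃ l ∈ W, op l ∈ W
  swap
  · push Not at hop
    have h2 := fw_norm_eq W hop
    have h3 := Ph_le H W hne
    rw [h1, H.one] at h3
    rw [h2]
    linarith
  obtain ⟨l, hl, hlo⟩ := hop
  obtain ⟨X, Y, hXY⟩ := List.append_of_mem hl
  have hlne : op l ≠ l := by
    rcases l with ⟨g, b⟩
    cases b <;> simp [op]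
  have hlo' : op l ∈ Y ++ X := by
    rw [hXY] at hlo
    rw [List.mem_append] at hlo ⊢
    rcases hlo with h | h
    · exact Or.inr h
    · rcases List.mem_cons.1 h with h | h
      · exact absurd h hlne
      · exact Or.inl h
  obtain ⟨A, B, hAB⟩ := List.append_of_mem hlo'
  -- numerical data of `W`
  set u := lv l with hu
  have hlen : W.length = A.length + B.length + 2 := by
    have e1 : W.length = X.length + (Y.length + 1) := by rw [hXY]; simp
    have e2 : Y.length + X.length = A.length + (B.length + 1) := by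
      have := congrArg List.length hAB
      simpa using this
    omega
  have hfw : fw W = fw A + fw B := by
    have e1 : fw W = fw (Y ++ X) + Finsupp.single l.1 (sg l.2) := by
      rw [hXY, fw_append, fw_cons, fw_append]; abel
    rw [e1, hAB, fw_append, fw_cons, single_op]; abel
  have hwv : u * wv A * u⁻¹ * wv B = 1 := by
    have e1 : wv X * (u * wv Y) = 1 := by rw [← h1, hXY, wv_append, wv_cons]
    have e2 : u * (wv Y * wv X) = 1 := by
      have : u * wv Y * wv X = 1 := by
        rw [mul_eq_one_iff_eq_inv] at e1 ⊢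
        rw [e1, inv_inv]
      rwa [mul_assoc] at this
    have e3 : wv Y * wv X = wv A * (u⁻¹ * wv B) := by
      rw [← wv_append, hAB, wv_append, wv_cons, lv_op]
    rw [e3] at e2
    rw [← e2]; group
  by_cases hcr : ∃ m ∈ A, op m ∈ B
  · obtain ⟨m, hmA, hmB⟩ := hcr
    obtain ⟨A1, A2, hA⟩ := List.append_of_mem hmA
    obtain ⟨B1, B2, hB⟩ := List.append_of_mem hmB
    set v := lv m with hv
    set p := wv A1 with hp
    set q := wv A2 with hq
    set r := wv B1 with hr
    set s := wv B2 with hs
    have eA : wv A = p * v * q := by rw [hA, wv_append, wv_cons, ← mul_assoc]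
    have eB : wv B = r * v⁻¹ * s := by rw [hB, wv_append, wv_cons, lv_op, ← mul_assoc]
    set x := u * q⁻¹ * r⁻¹ with hx
    set y := r * q * p * v * r⁻¹ with hy
    set c := x * y * x⁻¹ * y⁻¹ with hc
    have hcw : c * (r * q * p * s) = 1 := by
      rw [← hwv, eA, eB, hc, hx, hy]; group
    have hwv' : wv (B1 ++ A2 ++ A1 ++ B2 ++ [(c, true)]) = 1 := by
      rw [wv_append, wv_append, wv_append, wv_append, wv_cons, wv_nil]
      have : lv (c, true) = c := by simp [lv]
      rw [this, mul_one, ← hp, ← hq, ← hr, ← hs]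
      rw [mul_eq_one_iff_eq_inv] at hcw ⊢
      rw [hcw, inv_inv]
    have hfA : fw A = fw A1 + Finsupp.single m.1 (sg m.2) + fw A2 := by
      rw [hA, fw_append, fw_cons, add_assoc]
    have hfB : fw B = fw B1 - Finsupp.single m.1 (sg m.2) + fw B2 := by
      rw [hB, fw_append, fw_cons, single_op]; abel
    have hfw' : fw (B1 ++ A2 ++ A1 ++ B2 ++ [(c, true)]) = fw W + Finsupp.single c 1 := by
      rw [hfw, hfA, hfB, fw_append, fw_append, fw_append, fw_append, fw_cons, fw_nil]
      simp only [sg, if_true, add_zero]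
      abel
    have hlen' : (B1 ++ A2 ++ A1 ++ B2 ++ [(c, true)]).length + 3 = W.length := by
      have e1 : A.length = A1.length + (A2.length + 1) := by rw [hA]; simp
      have e2 : B.length = B1.length + (B2.length + 1) := by rw [hB]; simp
      simp only [List.length_append, List.length_cons, List.length_nil]
      omega
    have key := ih _ (by omega) (B1 ++ A2 ++ A1 ++ B2 ++ [(c, true)]) rfl (by simp) hwv'
    rw [hfw', map_add, Ph_single, one_mul] at key
    have hn1 : nn (fw W + Finsupp.single c 1) ≤ nn (fw W) + 1 := by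
      refine (nn_add_le _ _).trans ?_
      rw [nn_single]; simp
    have hc' := (abs_le.1 (H.comm x y)).1
    have hl2 : ((B1 ++ A2 ++ A1 ++ B2 ++ [(c, true)]).length : ℝ) = W.length - 3 := by
      rw [← hlen']; push_cast; ring
    rw [hl2] at key
    have := mul_le_mul_of_nonneg_left hn1 (by linarith : (0 : ℝ) ≤ D / 2)
    rw [← hc] at hc'
    nlinarith
  · push Not at hcr
    have hnn : nn (fw W) = nn (fw A) + nn (fw B) := by
      rw [hfw]; exact fw_add_norm A B hcr
    have aux : ∀ A' : List (G × Bool), A'.length + 1 < n →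
        Ph φ (fw A') - φ (wv A') ≤ D / 2 * (A'.length + nn (fw A')) := by
      intro A' hA'
      have hw : wv (A' ++ [(wv A', false)]) = 1 := by
        rw [wv_append, wv_cons, wv_nil]; simp [lv]
      have hf : fw (A' ++ [(wv A', false)]) = fw A' + Finsupp.single (wv A') (-1) := by
        rw [fw_append, fw_cons, fw_nil]; simp [sg]
      have key := ih (A'.length + 1) hA' (A' ++ [(wv A', false)]) (by simp) (by simp) hw
      rw [hf, map_add, Ph_single] at key
      have hn1 : nn (fw A' + Finsupp.single (wv A') (-1)) ≤ nn (fw A') + 1 := by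
        refine (nn_add_le _ _).trans ?_
        rw [nn_single]; simp
      have := mul_le_mul_of_nonneg_left hn1 (by linarith : (0 : ℝ) ≤ D / 2)
      have hl2 : ((A' ++ [(wv A', false)]).length : ℝ) = A'.length + 1 := by
        simp
      rw [hl2] at key
      nlinarith
    have kA := aux A (by omega)
    have kB := aux B (by omega)
    have hφ : φ (wv A) + φ (wv B) = 0 := by
      have e1 : wv B = (u * wv A * u⁻¹)⁻¹ := by
        rw [eq_inv_iff_mul_eq_one]
        rw [mul_eq_one_iff_eq_inv] at hwv ⊢
        rw [hwv, inv_inv]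
      rw [e1, H.inv, H.conj]; ring
    have hPh : Ph φ (fw W) = Ph φ (fw A) + Ph φ (fw B) := by rw [hfw, map_add]
    rw [hPh, hnn, hlen]
    push_cast
    nlinarith

/-- several words at once -/
theorem words_ineq (H : QM φ D) : ∀ (n : ℕ) (Ws : List (List (G × Bool))), Ws.length = n →
    (∀ W ∈ Ws, 2 ≤ W.length ∧ wv W = 1) →
    Ph φ (Ws.map fw).sum ≤
      D / 2 * ((Ws.map List.length).sum + nn (Ws.map fw).sum) - n * D := by
  classical
  intro n
  induction n with
  | zero =>
    intro Ws h0 _
    rw [List.length_eq_zero_iff] at h0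
    subst h0
    simp [nn_zero]
  | succ n ih =>
    intro Ws hn hW
    have hD := H.nonneg
    cases Ws with
    | nil => simp at hn
    | cons W Ws =>
      have hn' : Ws.length = n := by simpa using hn
      have hW1 := hW W List.mem_cons_self
      have hW2 : ∀ V ∈ Ws, 2 ≤ V.length ∧ wv V = 1 := fun V hV => hW V (List.mem_cons_of_mem _ hV)
      by_cases hcr : ∃ V ∈ Ws, ∃ l ∈ W, op l ∈ V
      · obtain ⟨V, hV, l, hlW, hlV⟩ := hcr
        obtain ⟨S, T, hST⟩ := List.append_of_mem hV
        obtain ⟨X, Y, hXY⟩ := List.append_of_mem hlW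
        obtain ⟨X', Y', hXY'⟩ := List.append_of_mem hlV
        have hV1 := hW2 V hV
        have e1 : wv Y * wv X = (lv l)⁻¹ := by
          have h := hW1.2
          rw [hXY, wv_append, wv_cons] at h
          rw [eq_inv_iff_mul_eq_one]
          have h2 : wv X * lv l * wv Y = 1 := by rw [← h]; group
          have h3 : wv Y * (wv X * lv l) = 1 := by
            rw [mul_eq_one_iff_eq_inv] at h2 ⊢
            rw [h2, inv_inv]
          rw [mul_assoc]; exact h3
        have e2 : wv Y' * wv X' = lv l := by
          have h := hV1.2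
          rw [hXY', wv_append, wv_cons, lv_op] at h
          have h2 : wv X' * (lv l)⁻¹ * wv Y' = 1 := by rw [← h]; group
          have h3 : wv Y' * (wv X' * (lv l)⁻¹) = 1 := by
            rw [mul_eq_one_iff_eq_inv] at h2 ⊢
            rw [h2, inv_inv]
          rw [← mul_assoc, mul_inv_eq_one] at h3
          exact h3
        have eM : wv ((Y ++ X) ++ (Y' ++ X')) = 1 := by
          rw [wv_append, wv_append, wv_append, e1, e2, inv_mul_cancel]
        have fM : fw ((Y ++ X) ++ (Y' ++ X')) = fw W + fw V := by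
          rw [hXY, hXY']
          simp only [fw_append, fw_cons, single_op]
          abel
        have lM : ((Y ++ X) ++ (Y' ++ X')).length + 2 = W.length + V.length := by
          rw [hXY, hXY']
          simp only [List.length_append, List.length_cons]
          omega
        have key := ih (((Y ++ X) ++ (Y' ++ X')) :: (S ++ T)) (by
            rw [← hn', hST]
            simp only [List.length_append, List.length_cons]
            omega) (by
            intro Z hZ
            rcases List.mem_cons.1 hZ with h | h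
            · subst h
              exact ⟨by omega, eM⟩
            · apply hW2
              rw [hST]
              rcases List.mem_append.1 h with h | h
              · exact List.mem_append_left _ h
              · exact List.mem_append_right _ (List.mem_cons_of_mem _ h))
        have f1 : ((((Y ++ X) ++ (Y' ++ X')) :: (S ++ T)).map fw).sum = ((W :: Ws).map fw).sum := by
          rw [hST]
          simp only [List.map_cons, List.sum_cons, List.map_append, List.sum_append]
          rw [fM]
          abel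
        have l1 : ((((Y ++ X) ++ (Y' ++ X')) :: (S ++ T)).map List.length).sum + 2
            = ((W :: Ws).map List.length).sum := by
          rw [hST]
          simp only [List.map_cons, List.sum_cons, List.map_append, List.sum_append]
          omega
        rw [f1] at key
        rw [← l1]
        push_cast
        push_cast at key
        linarith
      · push Not at hcr
        have hnn : nn (((W :: Ws).map fw).sum) = nn (fw W) + nn (Ws.map fw).sum := by
          have hfl : (Ws.map fw).sum = fw Ws.flatten := by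
            clear hn hn' hW hW2 hcr ih
            induction Ws with
            | nil => simp [fw_nil]
            | cons V Vs ih => simp only [List.map_cons, List.sum_cons, List.flatten_cons,
                fw_append, ih]
          rw [List.map_cons, List.sum_cons, hfl]
          apply fw_add_norm
          intro l hl h
          obtain ⟨V, hV, h⟩ := List.mem_flatten.1 h
          exact hcr V hV l hl h
        have k1 := word_ineq H _ W rfl (by
          intro h
          rw [h] at hW1
          simp at hW1) hW1.2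
        have k2 := ih Ws hn' hW2
        have hl : (((W :: Ws).map List.length).sum : ℝ) =
            (W.length : ℝ) + ((Ws.map List.length).sum : ℕ) := by
          rw [List.map_cons, List.sum_cons]; exact Nat.cast_add _ _
        have hP : Ph φ ((W :: Ws).map fw).sum = Ph φ (fw W) + Ph φ (Ws.map fw).sum := by
          rw [List.map_cons, List.sum_cons, map_add]
        rw [hnn, hl, hP, Nat.cast_succ]
        linarith

/-- the boundary of a pair -/
noncomputable def bp (p : G × G) : G →₀ ℝ :=
  Finsupp.single p.1 1 + Finsupp.single p.2 1 - Finsupp.single (p.1 * p.2) 1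

/-- triangle word -/
def tri (p : G × G) (b : Bool) : List (G × Bool) :=
  if b then [(p.1, true), (p.2, true), (p.1 * p.2, false)]
  else [(p.1 * p.2, true), (p.2, false), (p.1, false)]

theorem tri_len (p : G × G) (b : Bool) : (tri p b).length = 3 := by
  cases b <;> simp [tri]

theorem tri_wv (p : G × G) (b : Bool) : wv (tri p b) = 1 := by
  cases b <;> simp [tri, wv, lv]

theorem tri_fw (p : G × G) (b : Bool) : fw (tri p b) = sg b • bp p := by
  cases b
  · simp [tri, fw, sg, bp]
    abel
  · simp [tri, fw, sg, bp]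
    abel

/-- realize multiplicities by a list of words -/
theorem exists_list (T : Finset (G × G)) (m : G × G → ℕ) (s : G × G → Bool) :
    ∃ Ws : List (List (G × Bool)), (∀ W ∈ Ws, 2 ≤ W.length ∧ wv W = 1) ∧
      Ws.length = ∑ p ∈ T, m p ∧ (Ws.map List.length).sum = 3 * ∑ p ∈ T, m p ∧
      (Ws.map fw).sum = ∑ p ∈ T, ((m p : ℝ) * sg (s p)) • bp p := by
  classical
  induction T using Finset.induction_on with
  | empty => exact ⟨[], by simp⟩
  | insert a T ha ih =>
    obtain ⟨Ws, h1, h2, h3, h4⟩ := ih
    refine ⟨List.replicate (m a) (tri a (s a)) ++ Ws, ?_, ?_, ?_, ?_⟩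
    · intro W hW
      rcases List.mem_append.1 hW with h | h
      · rw [List.eq_of_mem_replicate h]
        exact ⟨by rw [tri_len]; norm_num, tri_wv _ _⟩
      · exact h1 W h
    · rw [List.length_append, List.length_replicate, h2, Finset.sum_insert ha]
    · rw [List.map_append, List.sum_append, h3, List.map_replicate, List.sum_replicate, tri_len,
        Finset.sum_insert ha, smul_eq_mul]
      ring
    · rw [List.map_append, List.sum_append, h4, List.map_replicate, List.sum_replicate, tri_fw,
        Finset.sum_insert ha, ← Nat.cast_smul_eq_nsmul ℝ, smul_smul]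

/-- the boundary map -/
noncomputable def bd : ((G × G) →₀ ℝ) →ₗ[ℝ] (G →₀ ℝ) := Finsupp.linearCombination ℝ bp

theorem Ph_bp (p : G × G) : Ph φ (bp p) = φ p.1 + φ p.2 - φ (p.1 * p.2) := by
  simp [bp, Ph_single]

theorem Ph_bp_abs (H : QM φ D) (p : G × G) : |Ph φ (bp p)| ≤ D := by
  rw [Ph_bp, ← abs_neg]
  convert H.bd p.1 p.2 using 2
  ring

theorem nn_bp (p : G × G) : nn (bp p) ≤ 3 := by
  unfold bp
  rw [sub_eq_add_neg]
  refine (nn_add_le _ _).trans ?_
  have := nn_add_le (Finsupp.single p.1 (1 : ℝ)) (Finsupp.single p.2 1)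
  rw [nn_neg, nn_single]
  rw [nn_single, nn_single] at this
  norm_num at this ⊢
  linarith

/-- the chain inequality -/
theorem chain_ineq (H : QM φ D) (c : (G × G) →₀ ℝ) :
    Ph φ (bd c) ≤ D / 2 * (nn c + nn (bd c)) := by
  classical
  have hD := H.nonneg
  set T := c.support with hT
  have hbd : bd c = ∑ p ∈ T, c p • bp p := by
    simp [bd, Finsupp.linearCombination_apply, Finsupp.sum, hT]
  have hmain : ∀ N : ℕ, (N : ℝ) * (Ph φ (bd c) - D / 2 * (nn c + nn (bd c))) ≤ 3 * D * T.card := by
    intro N
    obtain ⟨Ws, h1, h2, h3, h4⟩ := exists_list T (fun p => ⌊(N : ℝ) * |c p|⌋₊)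
      (fun p => decide (0 ≤ c p))
    have key := words_ineq H _ Ws rfl h1
    rw [h2, h3, h4] at key
    -- difference
    set e : G × G → ℝ := fun p => (N : ℝ) * c p -
      ((⌊(N : ℝ) * |c p|⌋₊ : ℝ) * sg (decide (0 ≤ c p))) with he
    have he1 : ∀ p, |e p| ≤ 1 := by
      intro p
      have hpos : 0 ≤ (N : ℝ) * |c p| := mul_nonneg (Nat.cast_nonneg _) (abs_nonneg _)
      have hf1 := Nat.floor_le hpos
      have hf2 := Nat.lt_floor_add_one ((N : ℝ) * |c p|)
      by_cases hc : 0 ≤ c p
      · have : e p = (N : ℝ) * |c p| - ⌊(N : ℝ) * |c p|⌋₊ := by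
          simp [he, hc, sg, abs_of_nonneg hc]
        rw [this, abs_le]
        constructor <;> linarith
      · have hc' : c p ≤ 0 := le_of_not_ge hc
        have : e p = -((N : ℝ) * |c p| - ⌊(N : ℝ) * |c p|⌋₊) := by
          simp [he, hc, sg, abs_of_nonpos hc']
          ring
        rw [this, abs_neg, abs_le]
        constructor <;> linarith
    have hsum : ∑ p ∈ T, ((⌊(N : ℝ) * |c p|⌋₊ : ℝ) * sg (decide (0 ≤ c p))) • bp p
        = (N : ℝ) • bd c - ∑ p ∈ T, e p • bp p := by
      rw [hbd, Finset.smul_sum, ← Finset.sum_sub_distrib]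
      refine Finset.sum_congr rfl fun p _ => ?_
      rw [smul_smul, ← sub_smul]
      congr 1
      simp only [he]
      ring
    have hm : (∑ p ∈ T, (⌊(N : ℝ) * |c p|⌋₊ : ℝ)) ≤ N * nn c := by
      unfold nn
      rw [Finset.mul_sum]
      exact Finset.sum_le_sum fun p _ =>
        Nat.floor_le (mul_nonneg (Nat.cast_nonneg _) (abs_nonneg _))
    have hE1 : nn (∑ p ∈ T, e p • bp p) ≤ 3 * T.card := by
      refine (nn_sum_le _ _).trans ?_
      have : ∑ p ∈ T, nn (e p • bp p) ≤ ∑ _p ∈ T, (3 : ℝ) := by
        refine Finset.sum_le_sum fun p _ => ?_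
        rw [nn_smul]
        calc |e p| * nn (bp p) ≤ 1 * 3 :=
              mul_le_mul (he1 p) (nn_bp p) (nn_nonneg _) zero_le_one
          _ = 3 := by norm_num
      refine this.trans ?_
      rw [Finset.sum_const, nsmul_eq_mul]
      linarith
    have hE2 : Ph φ (∑ p ∈ T, e p • bp p) ≤ D * T.card := by
      rw [map_sum]
      have : ∑ p ∈ T, Ph φ (e p • bp p) ≤ ∑ _p ∈ T, D := by
        refine Finset.sum_le_sum fun p _ => ?_
        rw [map_smul, smul_eq_mul]
        calc e p * Ph φ (bp p) ≤ |e p * Ph φ (bp p)| := le_abs_self _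
          _ = |e p| * |Ph φ (bp p)| := abs_mul _ _
          _ ≤ 1 * D := mul_le_mul (he1 p) (Ph_bp_abs H p) (abs_nonneg _) zero_le_one
          _ = D := one_mul D
      refine this.trans ?_
      rw [Finset.sum_const, nsmul_eq_mul]
      linarith
    rw [hsum, map_sub, map_smul, smul_eq_mul] at key
    have hn1 : nn ((N : ℝ) • bd c - ∑ p ∈ T, e p • bp p) ≤ N * nn (bd c) + 3 * T.card := by
      rw [sub_eq_add_neg]
      refine (nn_add_le _ _).trans ?_
      rw [nn_neg, nn_smul, Nat.abs_cast]
      linarith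
    push_cast at key
    have a1 := mul_le_mul_of_nonneg_left hn1 (by linarith : (0 : ℝ) ≤ D / 2)
    have a2 := mul_le_mul_of_nonneg_left hm (by linarith : (0 : ℝ) ≤ D / 2)
    have hcard : (0 : ℝ) ≤ T.card := Nat.cast_nonneg _
    have a3 : 0 ≤ D * T.card := mul_nonneg hD hcard
    nlinarith
  by_contra hcon
  push Not at hcon
  have hpos : 0 < Ph φ (bd c) - D / 2 * (nn c + nn (bd c)) := by linarith
  obtain ⟨N, hN⟩ := exists_nat_gt (3 * D * T.card / (Ph φ (bd c) - D / 2 * (nn c + nn (bd c))))
  rw [div_lt_iff₀ hpos] at hN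
  linarith [hmain N]

/-- main theorem, for every group -/
theorem main (H : QM φ D) : ∃ ψ : G → ℝ, (∃ C : ℝ, ∀ g : G, |ψ g - φ g| ≤ C) ∧
    ∀ g h : G, |ψ (g * h) - ψ g - ψ h| ≤ D / 2 := by
  classical
  have hD := H.nonneg
  let S : Submodule ℝ (((G × G) →₀ ℝ) × (G →₀ ℝ)) := LinearMap.graph (-(bd (G := G)))
  let f : (((G × G) →₀ ℝ) × (G →₀ ℝ)) →ₗ.[ℝ] ℝ :=
    ⟨S, (-(Ph φ ∘ₗ LinearMap.snd ℝ _ _)) ∘ₗ S.subtype⟩
  let N : (((G × G) →₀ ℝ) × (G →₀ ℝ)) → ℝ := fun z => D / 2 * (nn z.1 + nn z.2)
  obtain ⟨L, hL1, hL2⟩ := exists_extension_of_le_sublinear f N (by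
      intro c hc x
      simp only [N, Prod.smul_fst, Prod.smul_snd, nn_smul, abs_of_pos hc]
      ring) (by
      intro x y
      simp only [N, Prod.fst_add, Prod.snd_add]
      have h1 := nn_add_le x.1 y.1
      have h2 := nn_add_le x.2 y.2
      have := mul_le_mul_of_nonneg_left (add_le_add h1 h2) (by linarith : (0 : ℝ) ≤ D / 2)
      linarith) (by
      rintro ⟨⟨c, y⟩, hz⟩
      have hy : y = -(bd c) := by
        have := (LinearMap.mem_graph_iff _ _).1 hz
        simpa using this
      subst hy
      show -(Ph φ (-(bd c))) ≤ D / 2 * (nn c + nn (-(bd c)))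
      rw [map_neg, neg_neg, nn_neg]
      exact chain_ineq H c)
  refine ⟨fun g => φ g + L (0, Finsupp.single g 1), ⟨D / 2, fun g => ?_⟩, fun g h => ?_⟩
  · have h1 := hL2 (0, Finsupp.single g 1)
    have h2 := hL2 (-(0, Finsupp.single g 1))
    rw [map_neg] at h2
    simp only [N, Prod.neg_mk, neg_zero, nn_zero, nn_neg, nn_single, abs_one] at h1 h2
    have e : φ g + L (0, Finsupp.single g 1) - φ g = L (0, Finsupp.single g 1) := by ring
    rw [e, abs_le]
    constructor <;> linarith
  · have hx : ((Finsupp.single (g, h) (1 : ℝ), -(bp (g, h))) :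
        ((G × G) →₀ ℝ) × (G →₀ ℝ)) ∈ S := by
      rw [LinearMap.mem_graph_iff]
      simp [bd]
    have h3 := hL1 ⟨_, hx⟩
    have h4 : f ⟨_, hx⟩ = Ph φ (bp (g, h)) := by
      show -(Ph φ (-(bp (g, h)))) = _
      rw [map_neg, neg_neg]
    rw [h4] at h3
    have h3' : L (Finsupp.single (g, h) (1 : ℝ), -(bp (g, h))) = Ph φ (bp (g, h)) := h3
    have e1 : ((Finsupp.single (g, h) (1 : ℝ), -(bp (g, h))) : ((G × G) →₀ ℝ) × (G →₀ ℝ)) =
        (Finsupp.single (g, h) 1, 0) - (0, bp (g, h)) := by
      simp
    rw [e1, map_sub] at h3'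
    have e2 : ((0, bp (g, h)) : ((G × G) →₀ ℝ) × (G →₀ ℝ)) =
        (0, Finsupp.single g 1) + (0, Finsupp.single h 1) - (0, Finsupp.single (g * h) 1) := by
      simp [bp]
    rw [e2, map_sub, map_add, Ph_bp] at h3'
    have h5 := hL2 (Finsupp.single (g, h) 1, 0)
    have h6 := hL2 (-(Finsupp.single (g, h) 1, 0))
    rw [map_neg] at h6
    simp only [N, Prod.neg_mk, neg_zero, nn_zero, nn_neg, nn_single, abs_one] at h5 h6
    rw [abs_le]
    simp only at h3'
    constructor <;> linarith

end quasi

/-- For every free group and every homogeneous quasimorphism φ on it with defect D, there is a function ψ within bounded distance of φ whose defect is at most D/2, hence exactly D/2. -/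
theorem result :
    ∀ (α : Type) (φ : FreeGroup α → ℝ) (D : ℝ),
      (∀ g h : FreeGroup α, |φ (g * h) - φ g - φ h| ≤ D) →
      (∀ D' : ℝ, (∀ g h : FreeGroup α, |φ (g * h) - φ g - φ h| ≤ D') → D ≤ D') →
      (∀ (g : FreeGroup α) (n : ℕ), φ (g ^ n) = (n : ℝ) * φ g) →
      ∃ ψ : FreeGroup α → ℝ,
        (∃ C : ℝ, ∀ g : FreeGroup α, |ψ g - φ g| ≤ C) ∧
        ∀ g h : FreeGroup α, |ψ (g * h) - ψ g - ψ h| ≤ D / 2 := by
  intro α φ D h1 _ h2
  exact main ⟨h1, h2⟩

end Pool.Agent.S01109
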