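import Pool.Statements.S01214
-- import your own Pool.Agent.* helpers here

set_option autoImplicit false
open Pool Pool.MP_72b122_al

namespace Pool.Agent.S01214

noncomputable section

/-- finitely supported integer sequences -/
abbrev F := ℕ →₀ ℤ

/-- pairs of finitely supported integer sequences, written multiplicatively -/
def GG : Type := F × F

/-- first component -/
def fst (x : GG) : F := Prod.fst x
/-- second component -/
def snd (x : GG) : F := Prod.snd x
/-- constructor -/
def mk (a b : F) : GG := (a, b)

@[simp] theorem fst_mk (a b : F) : fst (mk a b) = a := rfl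
@[simp] theorem snd_mk (a b : F) : snd (mk a b) = b := rfl
theorem ext {x y : GG} (h1 : fst x = fst y) (h2 : snd x = snd y) : x = y := Prod.ext h1 h2

instance : CommGroup GG := inferInstanceAs (CommGroup (Multiplicative (F × F)))
instance : Lattice GG := inferInstanceAs (Lattice (F × F))

@[simp] theorem fst_mul (x y : GG) : fst (x * y) = fst x + fst y := rfl
@[simp] theorem snd_mul (x y : GG) : snd (x * y) = snd x + snd y := rfl
@[simp] theorem fst_inv (x : GG) : fst (x⁻¹) = - fst x := rfl
@[simp] theorem snd_inv (x : GG) : snd (x⁻¹) = - snd x := rfl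
@[simp] theorem fst_one : fst (1 : GG) = 0 := rfl
@[simp] theorem snd_one : snd (1 : GG) = 0 := rfl
@[simp] theorem fst_sup (x y : GG) : fst (x ⊔ y) = fst x ⊔ fst y := rfl
@[simp] theorem snd_sup (x y : GG) : snd (x ⊔ y) = snd x ⊔ snd y := rfl
@[simp] theorem fst_inf (x y : GG) : fst (x ⊓ y) = fst x ⊓ fst y := rfl
@[simp] theorem snd_inf (x y : GG) : snd (x ⊓ y) = snd x ⊓ snd y := rfl
theorem le_iff (x y : GG) : x ≤ y ↔ fst x ≤ fst y ∧ snd x ≤ snd y := Iff.rfl

instance : MulLeftMono GG := ⟨fun z x y h => by
  rw [le_iff] at h ⊢
  simp only [fst_mul, snd_mul]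
  exact ⟨by gcongr; exact h.1, by gcongr; exact h.2⟩⟩

instance : MulRightMono GG := ⟨fun z x y h => by
  change x * z ≤ y * z
  rw [le_iff] at h ⊢
  simp only [fst_mul, snd_mul]
  exact ⟨by gcongr; exact h.1, by gcongr; exact h.2⟩⟩

/-- a discrete copy of `F` -/
def D : Type := F
instance : TopologicalSpace D := ⊥
instance : DiscreteTopology D := ⟨rfl⟩

/-- forget the discrete topology -/
def unD (d : D) : F := d
/-- put the discrete topology -/
def toD (d : F) : D := d

/-- the difference map -/
def dif (x : GG) : D := (fst x - snd x : F)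
/-- the coordinate map -/
def crd (x : GG) : ℕ → ℤ := fun n => fst x n

/-- the map inducing the topology -/
def Phi (x : GG) : D × (ℕ → ℤ) := (dif x, crd x)

instance : TopologicalSpace GG := TopologicalSpace.induced Phi inferInstance

theorem continuous_Phi : Continuous Phi := continuous_induced_dom
theorem continuous_dif : Continuous dif := continuous_fst.comp continuous_Phi
theorem continuous_crd : Continuous crd := continuous_snd.comp continuous_Phi
theorem continuous_fst_apply (n : ℕ) : Continuous (fun x : GG => fst x n) :=
  (continuous_apply n).comp continuous_crd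
theorem continuous_snd_apply (n : ℕ) : Continuous (fun x : GG => snd x n) := by
  have h : (fun x : GG => snd x n) = (fun x : GG => fst x n - (fun d : D => unD d n) (dif x)) := by
    funext x
    have : unD (dif x) n = fst x n - snd x n := rfl
    simp only [this]; ring
  rw [h]
  refine (continuous_fst_apply n).sub ?_
  exact (continuous_of_discreteTopology (f := fun d : D => unD d n)).comp continuous_dif

theorem continuous_to {X : Type} [TopologicalSpace X] (f : X → GG)
    (h1 : Continuous (fun x => dif (f x))) (h2 : ∀ n, Continuous (fun x => fst (f x) n)) :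
    Continuous f := by
  rw [continuous_induced_rng]
  exact Continuous.prodMk h1 (continuous_pi h2)

instance : IsTopologicalGroup GG where
  continuous_mul := by
    apply continuous_to
    · have h : (fun p : GG × GG => dif (p.1 * p.2)) =
          (fun q : D × D => toD (unD q.1 + unD q.2)) ∘ (fun p : GG × GG => (dif p.1, dif p.2)) := by
        funext p
        change (fst (p.1 * p.2) - snd (p.1 * p.2) : F) = (fst p.1 - snd p.1) + (fst p.2 - snd p.2)
        simp only [fst_mul, snd_mul]; abel
      rw [h]
      exact continuous_of_discreteTopology.comp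
        ((continuous_dif.comp continuous_fst).prodMk (continuous_dif.comp continuous_snd))
    · intro n
      have h : (fun p : GG × GG => fst (p.1 * p.2) n) = (fun p : GG × GG => fst p.1 n + fst p.2 n) := by
        funext p; simp
      rw [h]
      exact ((continuous_fst_apply n).comp continuous_fst).add
        ((continuous_fst_apply n).comp continuous_snd)
  continuous_inv := by
    apply continuous_to
    · have h : (fun p : GG => dif (p⁻¹)) =
          (fun q : D => toD (- unD q)) ∘ dif := by
        funext p
        change (fst (p⁻¹) - snd (p⁻¹) : F) = - (fst p - snd p)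
        simp only [fst_inv, snd_inv]; abel
      rw [h]
      exact continuous_of_discreteTopology.comp continuous_dif
    · intro n
      have h : (fun p : GG => fst (p⁻¹) n) = (fun p : GG => - fst p n) := by
        funext p; simp
      rw [h]
      exact (continuous_fst_apply n).neg

theorem ev_eq {X Y : Type} [TopologicalSpace X] [TopologicalSpace Y] [DiscreteTopology Y]
    {f : X → Y} (hf : Continuous f) (x : X) : ∀ᶠ p in nhds x, f p = f x := by
  have h : {f x} ∈ nhds (f x) := (isOpen_discrete {f x}).mem_nhds rfl
  exact hf.continuousAt h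

/-- the key lemma on lattice operations: `op` is a binary operation on integers with `op 0 0 = 0` -/
theorem dif_op_continuous (op : ℤ → ℤ → ℤ) (OP : GG → GG → GG)
    (h1 : ∀ x y n, fst (OP x y) n = op (fst x n) (fst y n))
    (h2 : ∀ x y n, snd (OP x y) n = op (snd x n) (snd y n)) :
    Continuous (fun p : GG × GG => OP p.1 p.2) := by
  have hop : Continuous (fun q : ℤ × ℤ => op q.1 q.2) := continuous_of_discreteTopology
  apply continuous_to
  · rw [continuous_iff_continuousAt]
    rintro ⟨x, y⟩
    -- a bound for the supports
    obtain ⟨m, hm⟩ : ∃ m : ℕ, ∀ n, m ≤ n → fst x n = 0 ∧ snd x n = 0 ∧ fst y n = 0 ∧ snd y n = 0 := by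
      obtain ⟨m, hm⟩ := ((fst x).support ∪ (snd x).support ∪ (fst y).support ∪ (snd y).support).exists_nat_subset_range
      refine ⟨m, fun n hn => ?_⟩
      have hn' : n ∉ ((fst x).support ∪ (snd x).support ∪ (fst y).support ∪ (snd y).support) := by
        intro h
        have := hm h
        simp at this; omega
      simp only [Finset.mem_union, Finsupp.mem_support_iff, not_or, not_not] at hn'
      tauto
    -- the neighbourhood
    have hV : ∀ᶠ p : GG × GG in nhds (x, y), dif p.1 = dif x ∧ dif p.2 = dif y ∧
        ∀ n ∈ Finset.range m, (fst p.1 n = fst x n ∧ fst p.2 n = fst y n) := by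
      have a1 : ∀ᶠ p : GG × GG in nhds (x, y), dif p.1 = dif x :=
        ev_eq (continuous_dif.comp continuous_fst) (x, y)
      have a2 : ∀ᶠ p : GG × GG in nhds (x, y), dif p.2 = dif y :=
        ev_eq (continuous_dif.comp continuous_snd) (x, y)
      have a3 : ∀ᶠ p : GG × GG in nhds (x, y), ∀ n ∈ Finset.range m,
          (fst p.1 n = fst x n ∧ fst p.2 n = fst y n) := by
        rw [Filter.eventually_all_finset]
        intro n _
        have b1 : ∀ᶠ p : GG × GG in nhds (x, y), fst p.1 n = fst x n :=
          ev_eq ((continuous_fst_apply n).comp continuous_fst) (x, y)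
        have b2 : ∀ᶠ p : GG × GG in nhds (x, y), fst p.2 n = fst y n :=
          ev_eq ((continuous_fst_apply n).comp continuous_snd) (x, y)
        exact b1.and b2
      exact a1.and (a2.and a3)
    -- the function is constant there
    have hc : ∀ᶠ p : GG × GG in nhds (x, y), dif (OP p.1 p.2) = dif (OP x y) := by
      filter_upwards [hV] with p hp
      obtain ⟨e1, e2, e3⟩ := hp
      have e1' : ∀ n, fst p.1 n - snd p.1 n = fst x n - snd x n := fun n => DFunLike.congr_fun (show (fst p.1 - snd p.1 : F) = fst x - snd x from e1) n
      have e2' : ∀ n, fst p.2 n - snd p.2 n = fst y n - snd y n := fun n => DFunLike.congr_fun (show (fst p.2 - snd p.2 : F) = fst y - snd y from e2) n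
      change (fst (OP p.1 p.2) - snd (OP p.1 p.2) : F) = fst (OP x y) - snd (OP x y)
      ext n
      rw [Finsupp.sub_apply, Finsupp.sub_apply, h1, h2, h1, h2]
      by_cases hn : n < m
      · obtain ⟨c1, c2⟩ := e3 n (Finset.mem_range.2 hn)
        have d1 := e1' n
        have d2 := e2' n
        have s1 : snd p.1 n = snd x n := by omega
        have s2 : snd p.2 n = snd y n := by omega
        rw [c1, c2, s1, s2]
      · obtain ⟨z1, z2, z3, z4⟩ := hm n (by omega)
        have d1 := e1' n
        have d2 := e2' n
        have s1 : fst p.1 n = snd p.1 n := by omega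
        have s2 : fst p.2 n = snd p.2 n := by omega
        rw [s1, s2, z1, z2, z3, z4]; simp
    exact (continuousAt_const (y := dif (OP x y))).congr (hc.mono fun p hp => hp.symm)
  · intro n
    have h : (fun p : GG × GG => fst (OP p.1 p.2) n) =
        (fun q : ℤ × ℤ => op q.1 q.2) ∘ (fun p : GG × GG => (fst p.1 n, fst p.2 n)) := by
      funext p; exact h1 _ _ _
    rw [h]
    exact hop.comp (((continuous_fst_apply n).comp continuous_fst).prodMk
      ((continuous_fst_apply n).comp continuous_snd))

instance : ContinuousSup GG := ⟨dif_op_continuous (fun a b => a ⊔ b) (fun x y => x ⊔ y)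
  (fun x y n => by simp) (fun x y n => by simp)⟩
instance : ContinuousInf GG := ⟨dif_op_continuous (fun a b => a ⊓ b) (fun x y => x ⊓ y)
  (fun x y n => by simp) (fun x y n => by simp)⟩
instance : TopologicalLattice GG := {}

/-- the first summand -/
def AA : Subgroup GG where
  carrier := {x | snd x = 0}
  mul_mem' := by intro x y hx hy; change snd (x * y) = 0; rw [snd_mul, show snd x = 0 from hx, show snd y = 0 from hy]; simp
  one_mem' := rfl
  inv_mem' := by intro x hx; change snd (x⁻¹) = 0; rw [snd_inv, show snd x = 0 from hx]; simp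

/-- the second summand -/
def BB : Subgroup GG where
  carrier := {x | fst x = 0}
  mul_mem' := by intro x y hx hy; change fst (x * y) = 0; rw [fst_mul, show fst x = 0 from hx, show fst y = 0 from hy]; simp
  one_mem' := rfl
  inv_mem' := by intro x hx; change fst (x⁻¹) = 0; rw [fst_inv, show fst x = 0 from hx]; simp

theorem mem_AA (x : GG) : x ∈ AA ↔ snd x = 0 := Iff.rfl
theorem mem_BB (x : GG) : x ∈ BB ↔ fst x = 0 := Iff.rfl

theorem isClosed_AA : IsClosed (AA : Set GG) := by
  have : (AA : Set GG) = ⋂ n : ℕ, {x | snd x n = 0} := by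
    ext x
    simp only [SetLike.mem_coe, mem_AA, Set.mem_iInter]
    constructor
    · intro h n; change snd x n = 0; rw [h]; rfl
    · intro h; ext n; exact h n
  rw [this]
  exact isClosed_iInter fun n => isClosed_eq (continuous_snd_apply n) continuous_const

theorem isClosed_BB : IsClosed (BB : Set GG) := by
  have : (BB : Set GG) = ⋂ n : ℕ, {x | fst x n = 0} := by
    ext x
    simp only [SetLike.mem_coe, mem_BB, Set.mem_iInter]
    constructor
    · intro h n; change fst x n = 0; rw [h]; rfl
    · intro h; ext n; exact h n
  rw [this]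
  exact isClosed_iInter fun n => isClosed_eq (continuous_fst_apply n) continuous_const

/-- the multiplication map -/
def phi (p : AA × BB) : GG := (p.1 : GG) * (p.2 : GG)

theorem fst_phi (p : AA × BB) : fst (phi p) = fst (p.1 : GG) := by
  change fst ((p.1 : GG) * (p.2 : GG)) = _
  rw [fst_mul, (mem_BB _).1 p.2.2, add_zero]
theorem snd_phi (p : AA × BB) : snd (phi p) = snd (p.2 : GG) := by
  change snd ((p.1 : GG) * (p.2 : GG)) = _
  rw [snd_mul, (mem_AA _).1 p.1.2, zero_add]

/-- The negation of the preceding statement: Let G be a topological lattice-ordered group with closed normal ℓ-subgroups A, B such that multiplication A×B→G is an ℓ-isomorphism. Then this map is a homeomorphism from the product topology onto G. -/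
theorem result :
    ¬ (∀ (G : Type) [Group G] [Lattice G] [MulLeftMono G] [MulRightMono G]
      [TopologicalSpace G] [IsTopologicalGroup G] [TopologicalLattice G]
      (A B : Subgroup G),
      A.Normal → B.Normal →
      IsClosed (A : Set G) → IsClosed (B : Set G) →
      (∀ x ∈ A, ∀ y ∈ A, x ⊔ y ∈ A ∧ x ⊓ y ∈ A) →
      (∀ x ∈ B, ∀ y ∈ B, x ⊔ y ∈ B ∧ x ⊓ y ∈ B) →
      ∀ φ : (↥A × ↥B) → G, (∀ p, φ p = (p.1 : G) * (p.2 : G)) →
      Function.Bijective φ →
      (∀ p q : ↥A × ↥B, p ≤ q ↔ φ p ≤ φ q) →
      ∃ e : (↥A × ↥B) ≃ₜ G, ∀ p, e p = φ p) := by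
  intro H
  obtain ⟨e, he⟩ := H GG AA BB inferInstance inferInstance isClosed_AA isClosed_BB
    (by
      intro x hx y hy
      rw [mem_AA] at hx hy
      constructor
      · rw [mem_AA, snd_sup, hx, hy, sup_idem]
      · rw [mem_AA, snd_inf, hx, hy, inf_idem])
    (by
      intro x hx y hy
      rw [mem_BB] at hx hy
      constructor
      · rw [mem_BB, fst_sup, hx, hy, sup_idem]
      · rw [mem_BB, fst_inf, hx, hy, inf_idem])
    phi (fun p => rfl)
    (by
      constructor
      · intro p q h
        have h1 : fst (p.1 : GG) = fst (q.1 : GG) := by rw [← fst_phi, ← fst_phi, h]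
        have h2 : snd (p.2 : GG) = snd (q.2 : GG) := by rw [← snd_phi, ← snd_phi, h]
        apply Prod.ext
        · apply Subtype.ext
          exact ext h1 (by rw [(mem_AA _).1 p.1.2, (mem_AA _).1 q.1.2])
        · apply Subtype.ext
          exact ext (by rw [(mem_BB _).1 p.2.2, (mem_BB _).1 q.2.2]) h2
      · intro g
        refine ⟨(⟨mk (fst g) 0, rfl⟩, ⟨mk 0 (snd g), rfl⟩), ?_⟩
        exact ext (by rw [fst_phi]; rfl) (by rw [snd_phi]; rfl))
    (by
      intro p q
      rw [le_iff, fst_phi, fst_phi, snd_phi, snd_phi, Prod.le_def, ← Subtype.coe_le_coe,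
        ← Subtype.coe_le_coe, le_iff, le_iff, (mem_AA _).1 p.1.2, (mem_AA _).1 q.1.2,
        (mem_BB _).1 p.2.2, (mem_BB _).1 q.2.2]
      simp)
  -- the inverse is continuous, hence so is `g ↦ (first summand of g)`
  have hcont : Continuous (fun g : GG => ((e.symm g).1 : GG)) :=
    continuous_subtype_val.comp (continuous_fst.comp e.symm.continuous)
  have hval : ∀ g : GG, ((e.symm g).1 : GG) = mk (fst g) 0 := by
    intro g
    have h1 : phi (e.symm g) = g := by rw [← he, e.apply_symm_apply]
    apply ext
    · rw [← fst_phi, h1]; rfl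
    · rw [(mem_AA _).1 (e.symm g).1.2]; rfl
  have hd : Continuous (fun g : GG => dif (mk (fst g) 0)) := by
    have : (fun g : GG => dif (mk (fst g) 0)) = fun g : GG => dif ((e.symm g).1 : GG) := by
      funext g; rw [hval]
    rw [this]; exact continuous_dif.comp hcont
  -- the sequence e_n + f_n tends to 1
  let s : ℕ → GG := fun n => mk (Finsupp.single n 1) (Finsupp.single n 1)
  have hs : Filter.Tendsto s Filter.atTop (nhds 1) := by
    rw [nhds_induced, Filter.tendsto_comap_iff]
    have : Phi ∘ s = fun n => (toD 0, (fun k => (Finsupp.single n (1 : ℤ) : F) k)) := by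
      funext n
      change Phi (s n) = _
      refine Prod.ext ?_ rfl
      change (fst (s n) - snd (s n) : F) = 0
      exact sub_self _
    rw [this]
    have h0 : Phi 1 = (toD 0, fun _ => 0) := by
      refine Prod.ext ?_ rfl
      change (fst (1 : GG) - snd (1 : GG) : F) = 0
      exact sub_self _
    rw [h0]
    refine Filter.Tendsto.prodMk_nhds tendsto_const_nhds ?_
    rw [tendsto_pi_nhds]
    intro k
    refine tendsto_const_nhds.congr' ?_
    filter_upwards [Filter.eventually_gt_atTop k] with n hn
    rw [Finsupp.single_apply, if_neg (by omega)]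
  have h3 : ∀ᶠ n in Filter.atTop, dif (mk (fst (s n)) 0) = dif (mk (fst (1 : GG)) 0) :=
    hs.eventually (ev_eq hd 1)
  obtain ⟨n, hn⟩ := h3.exists
  have h4 : (Finsupp.single n (1 : ℤ) - 0 : F) = (0 - 0 : F) := hn
  have h5 := DFunLike.congr_fun h4 n
  simp at h5

end

end Pool.Agent.S01214
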