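import Pool.Statements.S01237

set_option autoImplicit false
open Pool Pool.MP_7490a7_al

namespace Pool.Agent.S01237

/-! Letters: 0 zero, 1 left bracket, 2 right bracket, 3 marked-left a, 4 marked-left b,
5 right a, 6 right b, 7 8 9 heads. -/

abbrev W := List (Fin 10)

def allowed (x y : Fin 10) : Prop :=
  ((x = 1 ∨ x = 3 ∨ x = 4) ∧ (y = 3 ∨ y = 4 ∨ y = 7 ∨ y = 8 ∨ y = 9)) ∨
  ((x = 7 ∨ x = 8 ∨ x = 9 ∨ x = 5 ∨ x = 6) ∧ (y = 5 ∨ y = 6 ∨ y = 2))

instance (x y : Fin 10) : Decidable (allowed x y) := by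
  unfold allowed
  infer_instance

def isHead (x : Fin 10) : Prop := x = 7 ∨ x = 8 ∨ x = 9

instance (x : Fin 10) : Decidable (isHead x) := by
  unfold isHead
  infer_instance

def machine : List (W × W) :=
  [([7, 5], [4, 8]), ([8, 5], [3, 7]), ([7, 6], [4, 7]), ([8, 6], [4, 8]), ([8, 2], [9, 2]),
   ([3, 9], [9, 5]), ([4, 9], [9, 6]), ([1, 9], [1, 7])]

def R : Finset (W × W) :=
  machine.toFinset ∪ ((Finset.univ.filter (fun p : Fin 10 × Fin 10 => ¬ allowed p.1 p.2)).image
    (fun p => (([p.1, p.2] : W), ([0] : W))))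

lemma mem_R (l r : W) : (l, r) ∈ R ↔
    (l, r) ∈ machine ∨ ∃ s t, ¬ allowed s t ∧ l = [s, t] ∧ r = [0] := by
  unfold R
  simp only [Finset.mem_union, List.mem_toFinset, Finset.mem_image, Finset.mem_filter,
    Finset.mem_univ, true_and, Prod.mk.injEq, Prod.exists]
  constructor
  · rintro (h | ⟨s, t, h1, h2, h3⟩)
    · exact Or.inl h
    · exact Or.inr ⟨s, t, h1, h2.symm, h3.symm⟩
  · rintro (h | ⟨s, t, h1, h2, h3⟩)
    · exact Or.inl h
    · exact Or.inr ⟨s, t, h1, h2.symm, h3.symm⟩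

/-- Elementary transformations. -/
def E (u v : W) : Prop := ∃ x y l r : W, ((l, r) ∈ R ∨ (r, l) ∈ R) ∧ u = x ++ l ++ y ∧ v = x ++ r ++ y

lemma E_symm {u v : W} (h : E u v) : E v u := by
  obtain ⟨x, y, l, r, h1, h2, h3⟩ := h
  exact ⟨x, y, r, l, h1.symm, h3, h2⟩

/-- Chains of elementary transformations. -/
def Chain : ℕ → W → W → Prop
  | 0, u, v => u = v
  | m + 1, u, v => ∃ w, E u w ∧ Chain m w v

lemma chain_iff (m : ℕ) : ∀ u v : W, Chain m u v ↔ ∃ c : ℕ → W, c 0 = u ∧ c m = v ∧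
    ∀ i < m, ∃ x y l r : W, ((l, r) ∈ R ∨ (r, l) ∈ R) ∧
      c i = x ++ l ++ y ∧ c (i + 1) = x ++ r ++ y := by
  induction m with
  | zero =>
    intro u v
    constructor
    · intro h
      exact ⟨fun _ => u, rfl, h, fun i hi => absurd hi (Nat.not_lt_zero i)⟩
    · rintro ⟨c, h1, h2, -⟩
      exact h1.symm.trans h2
  | succ m ih =>
    intro u v
    constructor
    · rintro ⟨w, ⟨x, y, l, r, hlr, hu, hw⟩, hc⟩
      obtain ⟨c, h1, h2, h3⟩ := (ih w v).mp hc
      refine ⟨fun i => match i with | 0 => u | i + 1 => c i, rfl, h2, ?_⟩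
      intro i hi
      rcases i with _ | i
      · exact ⟨x, y, l, r, hlr, hu, by simpa [h1] using hw⟩
      · exact h3 i (by omega)
    · rintro ⟨c, h1, h2, h3⟩
      refine ⟨c 1, ?_, (ih _ _).mpr ⟨fun i => c (i + 1), rfl, h2, fun i hi => h3 (i + 1) (by omega)⟩⟩
      rw [← h1]
      exact h3 0 (by omega)

lemma chain_trans (m n : ℕ) : ∀ u v w : W, Chain m u v → Chain n v w → Chain (m + n) u w := by
  induction m with
  | zero =>
    intro u v w h1 h2
    rw [show u = v from h1, Nat.zero_add]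
    exact h2
  | succ m ih =>
    rintro u v w ⟨z, h1, h2⟩ h3
    rw [Nat.succ_add]
    exact ⟨z, h1, ih _ _ _ h2 h3⟩

lemma chain_one {u v : W} (h : E u v) : Chain 1 u v := ⟨v, h, rfl⟩

lemma chain_symm (m : ℕ) : ∀ u v : W, Chain m u v → Chain m v u := by
  induction m with
  | zero =>
    intro u v h
    exact Eq.symm h
  | succ m ih =>
    rintro u v ⟨z, h1, h2⟩
    exact chain_trans m 1 _ _ _ (ih _ _ h2) (chain_one (E_symm h1))

/-! ### Good words -/

def good : W → Prop
  | [] => True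
  | [a] => a ≠ 0
  | a :: b :: l => allowed a b ∧ good (b :: l)

lemma allowed_ne {a b : Fin 10} (h : allowed a b) : a ≠ 0 ∧ b ≠ 0 := by
  revert a b
  decide

lemma good_append (x : W) (a b : Fin 10) (y : W) :
    good (x ++ a :: b :: y) ↔ good (x ++ [a]) ∧ allowed a b ∧ good (b :: y) := by
  induction x with
  | nil =>
    simp only [List.nil_append, good]
    constructor
    · rintro ⟨h1, h2⟩
      exact ⟨(allowed_ne h1).1, h1, h2⟩
    · rintro ⟨_, h1, h2⟩
      exact ⟨h1, h2⟩
  | cons c x ih =>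
    rcases x with _ | ⟨d, x⟩
    · simp only [List.cons_append, List.nil_append, good]
      constructor
      · rintro ⟨h1, h2, h3⟩
        exact ⟨⟨h1, (allowed_ne h1).2⟩, h2, h3⟩
      · rintro ⟨⟨h1, _⟩, h2, h3⟩
        exact ⟨h1, h2, h3⟩
    · simp only [List.cons_append, good] at ih ⊢
      rw [ih]
      tauto

lemma good_last (x : W) (a b : Fin 10) (h : ∀ z, allowed z a ↔ allowed z b) (ha : a ≠ 0)
    (hb : b ≠ 0) : good (x ++ [a]) ↔ good (x ++ [b]) := by
  induction x with
  | nil => simp [good, ha, hb]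
  | cons c x ih =>
    rcases x with _ | ⟨d, x⟩
    · simp [good, h, ha, hb]
    · simp only [List.cons_append, good] at ih ⊢
      rw [ih]

lemma good_first (y : W) (a b : Fin 10) (h : ∀ z, allowed a z ↔ allowed b z) (ha : a ≠ 0)
    (hb : b ≠ 0) : good (a :: y) ↔ good (b :: y) := by
  rcases y with _ | ⟨d, y⟩
  · simp [good, ha, hb]
  · simp [good, h]

lemma good_pair (x y : W) (l1 l2 r1 r2 : Fin 10) (h1 : ∀ z, allowed z l1 ↔ allowed z r1)
    (h2 : ∀ z, allowed l2 z ↔ allowed r2 z) (hl : allowed l1 l2) (hr : allowed r1 r2) :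
    good (x ++ [l1, l2] ++ y) ↔ good (x ++ [r1, r2] ++ y) := by
  have e1 : x ++ [l1, l2] ++ y = x ++ l1 :: l2 :: y := by simp
  have e2 : x ++ [r1, r2] ++ y = x ++ r1 :: r2 :: y := by simp
  rw [e1, e2, good_append, good_append, good_last x l1 r1 h1 (allowed_ne hl).1 (allowed_ne hr).1,
    good_first y l2 r2 h2 (allowed_ne hl).2 (allowed_ne hr).2]
  tauto

lemma machine_good (l r : W) (h : (l, r) ∈ machine) (x y : W) :
    good (x ++ l ++ y) ↔ good (x ++ r ++ y) := by
  simp only [machine, List.mem_cons, Prod.mk.injEq, List.not_mem_nil, or_false] at h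
  rcases h with ⟨rfl, rfl⟩ | ⟨rfl, rfl⟩ | ⟨rfl, rfl⟩ | ⟨rfl, rfl⟩ | ⟨rfl, rfl⟩ | ⟨rfl, rfl⟩ |
    ⟨rfl, rfl⟩ | ⟨rfl, rfl⟩ <;>
  · apply good_pair <;> decide

lemma not_good_zero (x y : W) : ¬ good (x ++ 0 :: y) := by
  induction x with
  | nil =>
    rcases y with _ | ⟨b, y⟩
    · simp [good]
    · intro h
      exact (allowed_ne h.1).1 rfl
  | cons c x ih =>
    rcases x with _ | ⟨d, x⟩
    · intro h
      exact (allowed_ne h.1).2 rfl
    · intro h
      exact ih h.2

/-- One forward step of the machine. -/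
def Step (u v : W) : Prop := ∃ x y l r : W, (l, r) ∈ machine ∧ u = x ++ l ++ y ∧ v = x ++ r ++ y

lemma Step_E {u v : W} (h : Step u v) : E u v := by
  obtain ⟨x, y, l, r, h1, h2, h3⟩ := h
  exact ⟨x, y, l, r, Or.inl ((mem_R _ _).mpr (Or.inl h1)), h2, h3⟩

lemma Step_good {u v : W} (h : Step u v) : good u ↔ good v := by
  obtain ⟨x, y, l, r, h1, h2, h3⟩ := h
  rw [h2, h3]
  exact machine_good l r h1 x y

lemma E_good {u v : W} (h : E u v) (hu : good u) : good v ∧ (Step u v ∨ Step v u) := by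
  have key : ∀ x y l r : W, (l, r) ∈ R → (good (x ++ l ++ y) ∨ good (x ++ r ++ y)) →
      (l, r) ∈ machine := by
    intro x y l r hlr hg
    rcases (mem_R _ _).mp hlr with h | ⟨s, t, hst, rfl, rfl⟩
    · exact h
    · exfalso
      rcases hg with hg | hg
      · have e1 : x ++ [s, t] ++ y = x ++ s :: t :: y := by simp
        rw [e1, good_append] at hg
        exact hst hg.2.1
      · have e1 : x ++ [0] ++ y = x ++ 0 :: y := by simp
        rw [e1] at hg
        exact not_good_zero _ _ hg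
  obtain ⟨x, y, l, r, h1 | h1, h2, h3⟩ := h
  · have hm := key x y l r h1 (Or.inl (h2 ▸ hu))
    have hs : Step u v := ⟨x, y, l, r, hm, h2, h3⟩
    exact ⟨(Step_good hs).mp hu, Or.inl hs⟩
  · have hm := key x y r l h1 (Or.inr (h2 ▸ hu))
    have hs : Step v u := ⟨x, y, r, l, hm, h3, h2⟩
    exact ⟨(Step_good hs).mpr hu, Or.inr hs⟩

/-! ### Bad words are equal to zero -/

lemma E_zero_left (a : Fin 10) (y : W) : E (0 :: a :: y) (0 :: y) := by
  refine ⟨[], y, [0, a], [0], Or.inl ((mem_R _ _).mpr (Or.inr ⟨0, a, ?_, rfl, rfl⟩)), rfl, rfl⟩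
  intro h
  exact (allowed_ne h).1 rfl

lemma chain_zero_left (y : W) : Chain y.length (0 :: y) [0] := by
  induction y with
  | nil => rfl
  | cons a y ih => exact ⟨0 :: y, E_zero_left a y, ih⟩

lemma E_zero_right (x : W) (a : Fin 10) (y : W) : E (x ++ [a] ++ 0 :: y) (x ++ 0 :: y) := by
  refine ⟨x, y, [a, 0], [0], Or.inl ((mem_R _ _).mpr (Or.inr ⟨a, 0, ?_, rfl, rfl⟩)), by simp,
    by simp⟩
  intro h
  exact (allowed_ne h).2 rfl

lemma chain_zero (x : W) : ∀ y : W, Chain (x.length + y.length) (x ++ 0 :: y) [0] := by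
  induction x using List.reverseRecOn with
  | nil =>
    intro y
    rw [List.length_nil, Nat.zero_add]
    exact chain_zero_left y
  | append_singleton x a ih =>
    intro y
    rw [List.length_append, List.length_singleton]
    have : x.length + 1 + y.length = (x.length + y.length) + 1 := by ring
    rw [this]
    exact ⟨x ++ 0 :: y, E_zero_right x a y, ih y⟩

lemma bad_decomp (u : W) (h : ¬ good u) :
    (∃ x y, u = x ++ 0 :: y) ∨ ∃ x s t y, ¬ allowed s t ∧ u = x ++ s :: t :: y := by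
  induction u with
  | nil => exact absurd trivial h
  | cons a u ih =>
    rcases u with _ | ⟨b, u⟩
    · left
      have : a = 0 := by
        by_contra hne
        exact h hne
      exact ⟨[], [], by rw [this]; rfl⟩
    · by_cases hab : allowed a b
      · have h2 : ¬ good (b :: u) := fun h3 => h ⟨hab, h3⟩
        rcases ih h2 with ⟨x, y, hxy⟩ | ⟨x, s, t, y, hst, hxy⟩
        · left
          exact ⟨a :: x, y, by rw [hxy]; rfl⟩
        · right
          exact ⟨a :: x, s, t, y, hst, by rw [hxy]; rfl⟩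
      · right
        exact ⟨[], a, b, u, hab, rfl⟩

lemma chain_bad (u : W) (h : ¬ good u) : ∃ m, m ≤ u.length ∧ Chain m u [0] := by
  rcases bad_decomp u h with ⟨x, y, rfl⟩ | ⟨x, s, t, y, hst, rfl⟩
  · exact ⟨x.length + y.length, by simp, chain_zero x y⟩
  · refine ⟨x.length + y.length + 1, by simp, x ++ 0 :: y, ?_, chain_zero x y⟩
    exact ⟨x, y, [s, t], [0], Or.inl ((mem_R _ _).mpr (Or.inr ⟨s, t, hst, rfl, rfl⟩)), by simp,
      by simp⟩

/-! ### Uniqueness of the head -/

lemma after_head (y : W) : ∀ a : Fin 10, (a = 7 ∨ a = 8 ∨ a = 9 ∨ a = 5 ∨ a = 6 ∨ a = 2) →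
    good (a :: y) → ∀ s ∈ y, s = 5 ∨ s = 6 ∨ s = 2 := by
  induction y with
  | nil =>
    intro a _ _ s hs
    simp at hs
  | cons b y ih =>
    intro a ha hg s hs
    have hb : ∀ a b : Fin 10, (a = 7 ∨ a = 8 ∨ a = 9 ∨ a = 5 ∨ a = 6 ∨ a = 2) → allowed a b →
        (b = 5 ∨ b = 6 ∨ b = 2) := by decide
    have hb2 := hb a b ha hg.1
    rcases List.mem_cons.mp hs with rfl | hs
    · exact hb2
    · apply ih b _ hg.2 s hs
      rcases hb2 with h | h | h <;> simp [h]

lemma good_suffix (x y : W) (h : good (x ++ y)) : good y := by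
  induction x with
  | nil => exact h
  | cons c x ih =>
    apply ih
    rcases x with _ | ⟨d, x⟩
    · rcases y with _ | ⟨e, y⟩
      · trivial
      · exact h.2
    · exact h.2

lemma unique_head (x1 x2 : W) (h1 h2 : Fin 10) (y1 y2 : W) (hg : good (x1 ++ h1 :: y1))
    (hh1 : isHead h1) (hh2 : isHead h2) (heq : x1 ++ h1 :: y1 = x2 ++ h2 :: y2) :
    x1 = x2 ∧ h1 = h2 ∧ y1 = y2 := by
  have key : ∀ (c : W) (a b : Fin 10) (y z : W), good (a :: y) → isHead a → isHead b →
      a :: y = c ++ b :: z → c = [] := by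
    intro c a b y z hg ha hb hc
    rcases c with _ | ⟨d, c⟩
    · rfl
    · exfalso
      simp only [List.cons_append, List.cons.injEq] at hc
      have h3 := after_head y a (by rcases ha with h | h | h <;> simp [h]) hg b (by
        rw [hc.2]; simp)
      rcases hb with h | h | h <;> rw [h] at h3 <;> revert h3 <;> decide
  rcases List.append_eq_append_iff.mp heq with ⟨c, hc1, hc2⟩ | ⟨c, hc1, hc2⟩
  · have := key c h1 h2 y1 y2 (good_suffix x1 _ hg) hh1 hh2 hc2
    subst this
    simp at hc1 hc2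
    exact ⟨hc1.symm, hc2.1, hc2.2⟩
  · rw [heq] at hg
    have := key c h2 h1 y2 y1 (good_suffix x2 _ hg) hh2 hh1 hc2
    subst this
    simp at hc1 hc2
    exact ⟨hc1, hc2.1.symm, hc2.2.symm⟩

/-! ### The deterministic machine -/

inductive Nxt : W → Fin 10 → W → W → Fin 10 → W → Prop
  | r1 (X Y : W) : Nxt X 7 (5 :: Y) (4 :: X) 8 Y
  | r2 (X Y : W) : Nxt X 8 (5 :: Y) (3 :: X) 7 Y
  | r3 (X Y : W) : Nxt X 7 (6 :: Y) (4 :: X) 7 Y
  | r4 (X Y : W) : Nxt X 8 (6 :: Y) (4 :: X) 8 Y
  | r5 (X Y : W) : Nxt X 8 (2 :: Y) X 9 (2 :: Y)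
  | r6 (X Y : W) : Nxt (3 :: X) 9 Y X 9 (5 :: Y)
  | r7 (X Y : W) : Nxt (4 :: X) 9 Y X 9 (6 :: Y)
  | r8 (X Y : W) : Nxt (1 :: X) 9 Y (1 :: X) 7 Y

lemma Nxt_head {X Y X' Y' : W} {h h' : Fin 10} (H : Nxt X h Y X' h' Y') :
    isHead h ∧ isHead h' := by
  cases H <;> decide

lemma Nxt_det {X Y X1 Y1 X2 Y2 : W} {h h1 h2 : Fin 10} (H1 : Nxt X h Y X1 h1 Y1)
    (H2 : Nxt X h Y X2 h2 Y2) : X1 = X2 ∧ h1 = h2 ∧ Y1 = Y2 := by
  cases H1 <;> cases H2 <;> simp

lemma Step_decomp {w w' : W} (h : Step w w') : ∃ X h Y X' h' Y', Nxt X h Y X' h' Y' ∧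
    w = X.reverse ++ h :: Y ∧ w' = X'.reverse ++ h' :: Y' := by
  obtain ⟨x, y, l, r, hm, h2, h3⟩ := h
  simp only [machine, List.mem_cons, Prod.mk.injEq, List.not_mem_nil, or_false] at hm
  rcases hm with ⟨rfl, rfl⟩ | ⟨rfl, rfl⟩ | ⟨rfl, rfl⟩ | ⟨rfl, rfl⟩ | ⟨rfl, rfl⟩ | ⟨rfl, rfl⟩ |
    ⟨rfl, rfl⟩ | ⟨rfl, rfl⟩
  · exact ⟨_, _, _, _, _, _, .r1 x.reverse y, by simp [h2], by simp [h3]⟩
  · exact ⟨_, _, _, _, _, _, .r2 x.reverse y, by simp [h2], by simp [h3]⟩
  · exact ⟨_, _, _, _, _, _, .r3 x.reverse y, by simp [h2], by simp [h3]⟩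
  · exact ⟨_, _, _, _, _, _, .r4 x.reverse y, by simp [h2], by simp [h3]⟩
  · exact ⟨_, _, _, _, _, _, .r5 x.reverse y, by simp [h2], by simp [h3]⟩
  · exact ⟨_, _, _, _, _, _, .r6 x.reverse y, by simp [h2], by simp [h3]⟩
  · exact ⟨_, _, _, _, _, _, .r7 x.reverse y, by simp [h2], by simp [h3]⟩
  · exact ⟨_, _, _, _, _, _, .r8 x.reverse y, by simp [h2], by simp [h3]⟩

lemma Step_inv {X Y w' : W} {h : Fin 10} (hg : good (X.reverse ++ h :: Y)) (hh : isHead h)
    (hs : Step (X.reverse ++ h :: Y) w') : ∃ X' h' Y', Nxt X h Y X' h' Y' ∧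
      w' = X'.reverse ++ h' :: Y' := by
  obtain ⟨X1, h1, Y1, X', h', Y', hN, e1, e2⟩ := Step_decomp hs
  obtain ⟨a, b, c⟩ := unique_head _ _ _ _ _ _ hg hh (Nxt_head hN).1 e1
  have a' : X = X1 := List.reverse_injective a
  subst a' b c
  exact ⟨X', h', Y', hN, e2⟩

lemma Step_det {w w1 w2 : W} (hg : good w) (h1 : Step w w1) (h2 : Step w w2) : w1 = w2 := by
  obtain ⟨X, h, Y, X', h', Y', hN, rfl, rfl⟩ := Step_decomp h1
  obtain ⟨X'', h'', Y'', hN', rfl⟩ := Step_inv hg (Nxt_head hN).1 h2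
  obtain ⟨rfl, rfl, rfl⟩ := Nxt_det hN hN'
  rfl

def S (A : ℕ) : ℕ := if A = 0 then 0 else Nat.log 2 A + 1

lemma S_mono {A B : ℕ} (h : A ≤ B) : S A ≤ S B := by
  unfold S
  split_ifs with h1 h2 h2
  · exact le_rfl
  · exact Nat.zero_le _
  · omega
  · have := Nat.log_mono_right (b := 2) h
    omega

lemma S_half (A : ℕ) (h : A ≠ 0) : S (A / 2) + 1 = S A := by
  unfold S
  rw [if_neg h]
  by_cases h1 : A = 1
  · subst h1
    simp
  · have h2 : A / 2 ≠ 0 := by omega
    rw [if_neg h2, Nat.log_div_base]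
    have h3 : 1 ≤ Nat.log 2 A := Nat.log_pos (by norm_num) (by omega)
    omega

def psi (X : W) (h : Fin 10) (Y : W) : ℕ :=
  if h = 7 then Y.length + (Y.count 5 % 2) *
    ((2 * (X.length + Y.length + 1) + 2) * (S (X.count 3 + Y.count 5 / 2) + 1))
  else if h = 8 then Y.length + ((Y.count 5 + 1) % 2) *
    ((2 * (X.length + Y.length + 1) + 2) * (S (X.count 3 + (Y.count 5 + 1) / 2) + 1))
  else X.length + (X.length + Y.length + 1) + 1 +
    (2 * (X.length + Y.length + 1) + 2) * S (X.count 3 + Y.count 5)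

lemma no2 : ∀ b, ¬ allowed 2 b := by decide

lemma no1 : ∀ b, ¬ allowed b 1 := by decide

lemma psi_dec {X Y X' Y' : W} {h h' : Fin 10} (hg : good (X.reverse ++ h :: Y))
    (H : Nxt X h Y X' h' Y') : psi X' h' Y' < psi X h Y := by
  cases H with
  | r1 X Y =>
    simp [psi]
    have e1 : 2 * (X.length + 1 + Y'.length + 1) = 2 * (X.length + (Y'.length + 1) + 1) := by ring
    rw [e1]
    omega
  | r2 X Y =>
    simp [psi]
    have e1 : 2 * (X.length + 1 + Y'.length + 1) = 2 * (X.length + (Y'.length + 1) + 1) := by ring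
    have e2 : (Y'.count 5 + 1 + 1) % 2 = Y'.count 5 % 2 := by omega
    have e3 : X.count 3 + (Y'.count 5 + 1 + 1) / 2 = X.count 3 + 1 + Y'.count 5 / 2 := by omega
    rw [e1, e2, e3]
    omega
  | r3 X Y =>
    simp [psi]
    have e1 : 2 * (X.length + 1 + Y'.length + 1) = 2 * (X.length + (Y'.length + 1) + 1) := by ring
    rw [e1]
    omega
  | r4 X Y =>
    simp [psi]
    have e1 : 2 * (X.length + 1 + Y'.length + 1) = 2 * (X.length + (Y'.length + 1) + 1) := by ring
    rw [e1]
    omega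
  | r5 X Y =>
    have hY : Y = [] := by
      rcases Y with _ | ⟨b, Y⟩
      · rfl
      · exfalso
        have h1 := good_suffix _ _ hg
        exact no2 b h1.2.1
    subst hY
    simp [psi]
    ring_nf
    omega
  | r6 X Y =>
    simp [psi]
    have e1 : X'.length + (Y.length + 1) + 1 = X'.length + 1 + Y.length + 1 := by ring
    have e2 : X'.count 3 + (Y.count 5 + 1) = X'.count 3 + 1 + Y.count 5 := by ring
    rw [e1, e2]
    omega
  | r7 X Y =>
    simp [psi]
    have e1 : X'.length + (Y.length + 1) + 1 = X'.length + 1 + Y.length + 1 := by ring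
    rw [e1]
    omega
  | r8 X Y =>
    have hX : X = [] := by
      rcases X with _ | ⟨b, X⟩
      · rfl
      · exfalso
        have h0 : (1 :: b :: X).reverse ++ 9 :: Y = X.reverse ++ b :: 1 :: 9 :: Y := by simp
        rw [h0] at hg
        have h1 := good_suffix _ _ hg
        exact no1 b h1.1
    subst hX
    simp [psi]
    rcases Nat.mod_two_eq_zero_or_one (Y.count 5) with h0 | h0
    · rw [h0]
      simp
      omega
    · rw [h0]
      have h3 := S_half (Y.count 5) (by omega)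
      rw [h3]
      omega

/-- Iterated forward steps. -/
def StepN : ℕ → W → W → Prop
  | 0, u, v => u = v
  | m + 1, u, v => ∃ w, Step u w ∧ StepN m w v

lemma stepN_trans (m n : ℕ) : ∀ u v w : W, StepN m u v → StepN n v w → StepN (m + n) u w := by
  induction m with
  | zero =>
    intro u v w h1 h2
    rw [show u = v from h1, Nat.zero_add]
    exact h2
  | succ m ih =>
    rintro u v w ⟨z, h1, h2⟩ h3
    rw [Nat.succ_add]
    exact ⟨z, h1, ih _ _ _ h2 h3⟩

lemma stepN_chain (m : ℕ) : ∀ u v : W, StepN m u v → Chain m u v := by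
  induction m with
  | zero => exact fun u v h => h
  | succ m ih =>
    rintro u v ⟨w, h1, h2⟩
    exact ⟨w, Step_E h1, ih _ _ h2⟩

lemma stepN_psi (i : ℕ) : ∀ (X Y z : W) (h : Fin 10), isHead h → good (X.reverse ++ h :: Y) →
    StepN i (X.reverse ++ h :: Y) z → i ≤ psi X h Y := by
  induction i with
  | zero => intros; exact Nat.zero_le _
  | succ i ih =>
    rintro X Y z h hh hg ⟨w, hs, hn⟩
    obtain ⟨X', h', Y', hN, rfl⟩ := Step_inv hg hh hs
    have h1 := ih X' Y' z h' (Nxt_head hN).2 ((Step_good hs).mp hg) hn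
    have h2 := psi_dec hg hN
    omega

/-- The bound for the number of forward steps from a word of length `n`. -/
def B (n : ℕ) : ℕ := (2 * n + 2) * (S n + 2)

lemma B_mono {m n : ℕ} (h : m ≤ n) : B m ≤ B n :=
  Nat.mul_le_mul (by omega) (by have := S_mono h; omega)

lemma le_B (n : ℕ) : n ≤ B n := by
  unfold B
  nlinarith [Nat.zero_le (S n)]

lemma psi_le (X Y : W) (h : Fin 10) : psi X h Y ≤ B (X.length + Y.length + 1) := by
  have h1 : X.count 3 ≤ X.length := List.count_le_length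
  have h2 : Y.count 5 ≤ Y.length := List.count_le_length
  have key : ∀ e A : ℕ, e ≤ 1 → A ≤ X.length + Y.length + 1 →
      Y.length + e * ((2 * (X.length + Y.length + 1) + 2) * (S A + 1)) ≤
        B (X.length + Y.length + 1) := by
    intro e A he hA
    have h3 := S_mono hA
    unfold B
    calc Y.length + e * ((2 * (X.length + Y.length + 1) + 2) * (S A + 1))
        ≤ (2 * (X.length + Y.length + 1) + 2) + 1 * ((2 * (X.length + Y.length + 1) + 2) *
          (S (X.length + Y.length + 1) + 1)) := by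
          apply Nat.add_le_add (by omega)
          apply Nat.mul_le_mul he
          apply Nat.mul_le_mul le_rfl
          omega
      _ = (2 * (X.length + Y.length + 1) + 2) * (S (X.length + Y.length + 1) + 2) := by ring
  unfold psi
  split_ifs with h7 h8
  · apply key
    · omega
    · omega
  · apply key
    · omega
    · omega
  · have h3 := S_mono (show X.count 3 + Y.count 5 ≤ X.length + Y.length + 1 by omega)
    unfold B
    calc X.length + (X.length + Y.length + 1) + 1 +
        (2 * (X.length + Y.length + 1) + 2) * S (X.count 3 + Y.count 5)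
        ≤ 2 * (2 * (X.length + Y.length + 1) + 2) +
        (2 * (X.length + Y.length + 1) + 2) * S (X.length + Y.length + 1) := by
          apply Nat.add_le_add (by omega)
          exact Nat.mul_le_mul le_rfl h3
      _ = _ := by ring

lemma stepN_le_B (i : ℕ) (u z : W) (hg : good u) (h : StepN i u z) : i ≤ B u.length := by
  rcases i with _ | i
  · exact Nat.zero_le _
  · obtain ⟨w, hs, hn⟩ := h
    obtain ⟨X, h, Y, X', h', Y', hN, rfl, rfl⟩ := Step_decomp hs
    have h1 := stepN_psi (i + 1) X Y z h (Nxt_head hN).1 hg ⟨_, hs, hn⟩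
    have h2 := psi_le X Y h
    have h3 : (X.reverse ++ h :: Y).length = X.length + Y.length + 1 := by simp; ring
    rw [h3]
    exact h1.trans h2

lemma chain_good (m : ℕ) : ∀ u v : W, Chain m u v → good u → good v := by
  induction m with
  | zero =>
    intro u v h hu
    rw [← show u = v from h]
    exact hu
  | succ m ih =>
    rintro u v ⟨w, h1, h2⟩ hu
    exact ih _ _ h2 (E_good h1 hu).1

lemma common (m : ℕ) : ∀ u v : W, Chain m u v → good u →
    ∃ i j z, StepN i u z ∧ StepN j v z := by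
  induction m with
  | zero =>
    intro u v h hu
    exact ⟨0, 0, u, rfl, Eq.symm h⟩
  | succ m ih =>
    rintro u v ⟨w, h1, h2⟩ hu
    obtain ⟨hw, hs⟩ := E_good h1 hu
    obtain ⟨i, j, z, hi, hj⟩ := ih w v h2 hw
    rcases hs with hs | hs
    · exact ⟨i + 1, j, z, ⟨w, hs, hi⟩, hj⟩
    · rcases i with _ | i
      · have hz : w = z := hi
        subst hz
        exact ⟨0, j + 1, u, rfl, stepN_trans j 1 _ _ _ hj ⟨u, hs, rfl⟩⟩
      · obtain ⟨w1, hw1, hi⟩ := hi
        have : w1 = u := Step_det hw hw1 hs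
        subst this
        exact ⟨i, j, z, hi, hj⟩

lemma upper (m : ℕ) (u v : W) (h : Chain m u v) :
    ∃ m', m' ≤ 2 * B (u.length + v.length) ∧ Chain m' u v := by
  by_cases hu : good u
  · obtain ⟨i, j, z, hi, hj⟩ := common m u v h hu
    have h1 := stepN_le_B i u z hu hi
    have h2 := stepN_le_B j v z (chain_good m u v h hu) hj
    have h3 := B_mono (show u.length ≤ u.length + v.length by omega)
    have h4 := B_mono (show v.length ≤ u.length + v.length by omega)
    exact ⟨i + j, by omega, chain_trans i j _ _ _ (stepN_chain _ _ _ hi)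
      (chain_symm _ _ _ (stepN_chain _ _ _ hj))⟩
  · have hv : ¬ good v := fun hv => hu (chain_good m v u (chain_symm m u v h) hv)
    obtain ⟨i, hi, hci⟩ := chain_bad u hu
    obtain ⟨j, hj, hcj⟩ := chain_bad v hv
    have h3 := le_B (u.length + v.length)
    exact ⟨i + j, by omega, chain_trans i j _ _ _ hci (chain_symm _ _ _ hcj)⟩

/-! ### The lower bound -/

lemma terminal_chain (z : W) (hz : ∀ w, ¬ Step z w) (m : ℕ) : ∀ u, good u → Chain m u z →
    ∃ t, t ≤ m ∧ StepN t u z := by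
  induction m with
  | zero =>
    intro u _ h
    exact ⟨0, le_rfl, h⟩
  | succ m ih =>
    rintro u hu ⟨w, h1, h2⟩
    obtain ⟨hw, hs⟩ := E_good h1 hu
    obtain ⟨t, ht, htz⟩ := ih w hw h2
    rcases hs with hs | hs
    · exact ⟨t + 1, by omega, w, hs, htz⟩
    · rcases t with _ | t
      · have : w = z := htz
        subst this
        exact absurd hs (hz u)
      · obtain ⟨w1, hw1, ht1⟩ := htz
        have : w1 = u := Step_det hw hw1 hs
        subst this
        exact ⟨t, by omega, ht1⟩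

lemma terminal_unique (z : W) (hz : ∀ w, ¬ Step z w) (t : ℕ) : ∀ T u, good u → StepN t u z →
    StepN T u z → t = T := by
  induction t with
  | zero =>
    intro T u _ h1 h2
    have : u = z := h1
    subst this
    rcases T with _ | T
    · rfl
    · obtain ⟨w, hw, -⟩ := h2
      exact absurd hw (hz w)
  | succ t ih =>
    rintro T u hu ⟨w, h1, h2⟩ h3
    rcases T with _ | T
    · have : u = z := h3
      subst this
      exact absurd h1 (hz w)
    · obtain ⟨w', h1', h3⟩ := h3
      have : w = w' := Step_det hu h1 h1'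
      subst this
      rw [ih T w ((Step_good h1).mp hu) h2 h3]

lemma stepN_length (m : ℕ) : ∀ u v : W, StepN m u v → u.length = v.length := by
  induction m with
  | zero =>
    intro u v h
    rw [show u = v from h]
  | succ m ih =>
    rintro u v ⟨w, ⟨x, y, l, r, hm, h2, h3⟩, h4⟩
    rw [← ih _ _ h4, h2, h3]
    have : l.length = r.length := by
      simp only [machine, List.mem_cons, Prod.mk.injEq, List.not_mem_nil, or_false] at hm
      rcases hm with ⟨rfl, rfl⟩ | ⟨rfl, rfl⟩ | ⟨rfl, rfl⟩ | ⟨rfl, rfl⟩ | ⟨rfl, rfl⟩ | ⟨rfl, rfl⟩ |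
        ⟨rfl, rfl⟩ | ⟨rfl, rfl⟩ <;> rfl
    simp [this]

def Rl (b : Bool) : Fin 10 := if b then 5 else 6

def Ll (b : Bool) : Fin 10 := if b then 3 else 4

def hd (s : Bool) : Fin 10 := if s then 8 else 7

def sweep : Bool → List Bool → List Bool × Bool
  | s, [] => ([], s)
  | false, true :: β => (false :: (sweep true β).1, (sweep true β).2)
  | true, true :: β => (true :: (sweep false β).1, (sweep false β).2)
  | false, false :: β => (false :: (sweep false β).1, (sweep false β).2)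
  | true, false :: β => (false :: (sweep true β).1, (sweep true β).2)

lemma sweep_length (β : List Bool) : ∀ s, (sweep s β).1.length = β.length := by
  induction β with
  | nil => intro s; simp [sweep]
  | cons b β ih => intro s; cases s <;> cases b <;> simp [sweep, ih]

lemma sweep_count (β : List Bool) :
    ((sweep false β).1.count true = β.count true / 2 ∧
      ((sweep false β).2 = true ↔ β.count true % 2 = 1)) ∧
    ((sweep true β).1.count true = (β.count true + 1) / 2 ∧
      ((sweep true β).2 = true ↔ β.count true % 2 = 0)) := by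
  induction β with
  | nil => simp [sweep]
  | cons b β ih =>
    obtain ⟨⟨h1, h2⟩, h3, h4⟩ := ih
    cases b
    · simp [sweep, h1, h2, h3, h4]
    · simp [sweep, h1, h2, h3, h4]
      omega

lemma right_sweep (β : List Bool) : ∀ (s : Bool) (P Z : W),
    StepN β.length (P ++ hd s :: (β.map Rl ++ Z))
      (P ++ (sweep s β).1.map Ll ++ hd (sweep s β).2 :: Z) := by
  induction β with
  | nil =>
    intro s P Z
    show P ++ hd s :: ([].map Rl ++ Z) = _
    simp [sweep]
  | cons b β ih =>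
    intro s P Z
    cases s <;> cases b
    · refine ⟨P ++ [4] ++ hd false :: (β.map Rl ++ Z), ?_, ?_⟩
      · exact ⟨P, β.map Rl ++ Z, [7, 6], [4, 7], by simp [machine], by simp [hd, Rl],
          by simp [hd]⟩
      · have := ih false (P ++ [4]) Z
        simpa [sweep, Ll] using this
    · refine ⟨P ++ [4] ++ hd true :: (β.map Rl ++ Z), ?_, ?_⟩
      · exact ⟨P, β.map Rl ++ Z, [7, 5], [4, 8], by simp [machine], by simp [hd, Rl],
          by simp [hd]⟩
      · have := ih true (P ++ [4]) Z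
        simpa [sweep, Ll] using this
    · refine ⟨P ++ [4] ++ hd true :: (β.map Rl ++ Z), ?_, ?_⟩
      · exact ⟨P, β.map Rl ++ Z, [8, 6], [4, 8], by simp [machine], by simp [hd, Rl],
          by simp [hd]⟩
      · have := ih true (P ++ [4]) Z
        simpa [sweep, Ll] using this
    · refine ⟨P ++ [3] ++ hd false :: (β.map Rl ++ Z), ?_, ?_⟩
      · exact ⟨P, β.map Rl ++ Z, [8, 5], [3, 7], by simp [machine], by simp [hd, Rl],
          by simp [hd]⟩
      · have := ih false (P ++ [3]) Z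
        simpa [sweep, Ll] using this

lemma left_sweep (γ : List Bool) : ∀ (P Y : W),
    StepN γ.length (P ++ γ.map Ll ++ 9 :: Y) (P ++ 9 :: (γ.map Rl ++ Y)) := by
  induction γ using List.reverseRecOn with
  | nil =>
    intro P Y
    show P ++ [].map Ll ++ 9 :: Y = _
    simp
  | append_singleton γ g ih =>
    intro P Y
    rw [List.length_append, List.length_singleton]
    refine ⟨P ++ γ.map Ll ++ 9 :: (Rl g :: Y), ?_, ?_⟩
    · cases g
      · exact ⟨P ++ γ.map Ll, Y, [4, 9], [9, 6], by simp [machine], by simp [Ll],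
          by simp [Rl]⟩
      · exact ⟨P ++ γ.map Ll, Y, [3, 9], [9, 5], by simp [machine], by simp [Ll],
          by simp [Rl]⟩
    · have := ih P (Rl g :: Y)
      simpa using this

lemma round (β : List Bool) (h : β.count true % 2 = 1) :
    StepN (2 * β.length + 2) ([1] ++ 7 :: (β.map Rl ++ [2]))
      ([1] ++ 7 :: ((sweep false β).1.map Rl ++ [2])) := by
  have h1 := right_sweep β false [1] [2]
  have h2 : (sweep false β).2 = true := (sweep_count β).1.2.mpr h
  rw [h2] at h1
  have h3 : StepN 1 ([1] ++ (sweep false β).1.map Ll ++ hd true :: [2])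
      ([1] ++ (sweep false β).1.map Ll ++ 9 :: [2]) :=
    ⟨_, ⟨[1] ++ (sweep false β).1.map Ll, [], [8, 2], [9, 2], by simp [machine], by simp [hd],
      by simp⟩, rfl⟩
  have h4 := left_sweep (sweep false β).1 [1] [2]
  have h5 : StepN 1 ([1] ++ 9 :: ((sweep false β).1.map Rl ++ [2]))
      ([1] ++ 7 :: ((sweep false β).1.map Rl ++ [2])) :=
    ⟨_, ⟨[], (sweep false β).1.map Rl ++ [2], [1, 9], [1, 7], by simp [machine], by simp,
      by simp⟩, rfl⟩
  rw [sweep_length] at h4
  have h6 := stepN_trans _ _ _ _ _ (stepN_trans _ _ _ _ _ (stepN_trans _ _ _ _ _ h1 h3) h4) h5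
  have e : 2 * β.length + 2 = β.length + 1 + β.length + 1 := by ring
  rw [e]
  exact h6

lemma long_run (k : ℕ) : ∀ β : List Bool, β.count true = 2 ^ k - 1 →
    ∃ z T, k * (2 * β.length + 2) ≤ T ∧ StepN T ([1] ++ 7 :: (β.map Rl ++ [2])) z := by
  induction k with
  | zero =>
    intro β _
    exact ⟨_, 0, by simp, rfl⟩
  | succ k ih =>
    intro β hβ
    have h0 : 1 ≤ 2 ^ k := Nat.one_le_two_pow
    rw [pow_succ] at hβ
    have h1 := round β (by omega)
    obtain ⟨z, T, hT, hz⟩ := ih (sweep false β).1 (by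
      rw [(sweep_count β).1.1, hβ]
      omega)
    refine ⟨z, (2 * β.length + 2) + T, ?_, stepN_trans _ _ _ _ _ h1 hz⟩
    rw [sweep_length] at hT
    calc (k + 1) * (2 * β.length + 2) = (2 * β.length + 2) + k * (2 * β.length + 2) := by ring
      _ ≤ _ := by omega

lemma good_start (n : ℕ) : good ([1] ++ 7 :: ((List.replicate n true).map Rl ++ [2])) := by
  refine ⟨by decide, ?_⟩
  show good (7 :: ((List.replicate n true).map Rl ++ [2]))
  have key : ∀ n a, allowed a 5 → allowed a 2 →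
      good (a :: ((List.replicate n true).map Rl ++ [2])) := by
    intro n
    induction n with
    | zero =>
      intro a _ ha2
      exact ⟨ha2, show (2 : Fin 10) ≠ 0 by decide⟩
    | succ n ih =>
      intro a ha _
      exact ⟨ha, ih 5 (by decide) (by decide)⟩
  exact key n 7 (by decide) (by decide)

lemma lower (C : ℕ) : ∃ u v : W, (∃ m, Chain m u v) ∧
    ∀ m, m ≤ C * (u.length + v.length + 1) → ¬ Chain m u v := by
  set k := 6 * C + 1 with hk
  set β := List.replicate (2 ^ k - 1) true with hβ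
  set u : W := [1] ++ 7 :: (β.map Rl ++ [2]) with hu
  have hgood : good u := good_start _
  have hcount : β.count true = 2 ^ k - 1 := by rw [hβ, List.count_replicate_self]
  obtain ⟨z0, T0, hT0, hz0⟩ := long_run k β hcount
  -- take a maximal run
  have hne : {T | ∃ z, StepN T u z}.Nonempty := ⟨T0, z0, hz0⟩
  have hbdd : BddAbove {T | ∃ z, StepN T u z} :=
    ⟨B u.length, fun T ⟨z, hz⟩ => stepN_le_B T u z hgood hz⟩
  obtain ⟨z, hz⟩ := Nat.sSup_mem hne hbdd
  set T := sSup {T | ∃ z, StepN T u z} with hT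
  have hT0T : T0 ≤ T := le_csSup hbdd ⟨z0, hz0⟩
  have hterm : ∀ w, ¬ Step z w := by
    intro w hw
    have h1 : T + 1 ≤ T := le_csSup hbdd ⟨w, stepN_trans T 1 _ _ _ hz ⟨w, hw, rfl⟩⟩
    omega
  refine ⟨u, z, ⟨T, stepN_chain _ _ _ hz⟩, ?_⟩
  intro m hm hc
  obtain ⟨t, ht, htz⟩ := terminal_chain z hterm m u hgood hc
  have h1 := terminal_unique z hterm t T u hgood htz hz
  have h2 := stepN_length T u z hz
  have h3 : u.length = 2 ^ k + 2 := by
    have : 1 ≤ 2 ^ k := Nat.one_le_two_pow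
    simp [hu, hβ]
    omega
  have h4 : β.length = 2 ^ k - 1 := by simp [hβ]
  rw [← h2, h3] at hm
  rw [h4] at hT0
  have h5 : 1 ≤ 2 ^ k := Nat.one_le_two_pow
  have h6 : 2 * (2 ^ k - 1) + 2 = 2 * 2 ^ k := by omega
  rw [h6] at hT0
  have h7 : k * (2 * 2 ^ k) ≤ C * (2 ^ k + 2 + (2 ^ k + 2) + 1) := by omega
  have h8 : C * (2 ^ k + 2 + (2 ^ k + 2) + 1) ≤ C * (7 * 2 ^ k) := by
    apply Nat.mul_le_mul_left
    omega
  have h9 : k * (2 * 2 ^ k) = 12 * (C * 2 ^ k) + 2 * 2 ^ k := by
    nth_rewrite 1 [hk]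
    ring
  have h10 : C * (7 * 2 ^ k) = 7 * (C * 2 ^ k) := by ring
  omega

lemma eps (ε : ℝ) (hε : 0 < ε) : ∃ N : ℕ, ∀ n : ℕ, N ≤ n → (2 * B n : ℝ) ≤ ε * (n : ℝ) ^ 2 := by
  have hlog2 : 0 < Real.log 2 := Real.log_pos (by norm_num)
  have h1 := (Real.isLittleO_log_id_atTop.def (show 0 < ε * Real.log 2 / 16 by positivity))
  have h2 := (tendsto_natCast_atTop_atTop (R := ℝ)).eventually h1
  obtain ⟨N1, hN1⟩ := Filter.eventually_atTop.mp h2
  obtain ⟨N2, hN2⟩ := exists_nat_gt (48 / ε)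
  refine ⟨max (max N1 N2) 1, ?_⟩
  intro n hn
  have hn1 : N1 ≤ n := le_trans (le_trans (le_max_left _ _) (le_max_left _ _)) hn
  have hn2 : N2 ≤ n := le_trans (le_trans (le_max_right _ _) (le_max_left _ _)) hn
  have hn3 : 1 ≤ n := le_trans (le_max_right _ _) hn
  have hnR : (1 : ℝ) ≤ n := by exact_mod_cast hn3
  have h3 := hN1 n hn1
  simp only [id, Real.norm_eq_abs] at h3
  rw [abs_of_nonneg (Real.log_nonneg hnR), abs_of_nonneg (by linarith)] at h3
  have h4 : (48 : ℝ) / ε < n := lt_of_lt_of_le hN2 (by exact_mod_cast hn2)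
  rw [div_lt_iff₀ hε] at h4
  have h5 : (Nat.log 2 n : ℝ) ≤ Real.log n / Real.log 2 := by
    have := Real.natLog_le_logb n 2
    simpa [Real.logb] using this
  have h6 : Real.log n / Real.log 2 ≤ ε / 16 * n := by
    rw [div_le_iff₀ hlog2]
    calc Real.log n ≤ ε * Real.log 2 / 16 * n := h3
      _ = ε / 16 * n * Real.log 2 := by ring
  have h7 : (B n : ℝ) = (2 * n + 2) * (Nat.log 2 n + 3) := by
    unfold B S
    rw [if_neg (by omega)]
    push_cast
    ring
  rw [h7]
  have h8 : (Nat.log 2 n : ℝ) ≤ ε / 16 * n := h5.trans h6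
  have h9 : (2 * (n : ℝ) + 2) ≤ 4 * n := by linarith
  have h10 : (0 : ℝ) ≤ (Nat.log 2 n : ℝ) + 3 := by positivity
  calc 2 * ((2 * (n : ℝ) + 2) * (Nat.log 2 n + 3)) ≤ 2 * (4 * n * (ε / 16 * n + 3)) := by
        apply mul_le_mul_of_nonneg_left _ (by norm_num)
        apply mul_le_mul h9 (by linarith) h10 (by positivity)
    _ = ε / 2 * n ^ 2 + 24 * n := by ring
    _ ≤ ε * n ^ 2 := by nlinarith

/-- Some finite monoid presentation has Dehn function below ε·n² eventually for every ε>0, yet not bounded by any C·(n+1), i.e. it is subquadratic but not linear. -/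
theorem result :
    ∃ (k : ℕ) (R : Finset (List (Fin k) × List (Fin k)))
      (D : List (Fin k) → List (Fin k) → ℕ → Prop),
      (∀ u v m, D u v m ↔ ∃ c : ℕ → List (Fin k), c 0 = u ∧ c m = v ∧
          ∀ i < m, ∃ x y l r : List (Fin k), ((l, r) ∈ R ∨ (r, l) ∈ R) ∧
            c i = x ++ l ++ y ∧ c (i + 1) = x ++ r ++ y) ∧
      (∀ ε : ℝ, 0 < ε → ∃ N : ℕ, ∀ n : ℕ, N ≤ n → ∀ u v : List (Fin k),
          u.length + v.length ≤ n → (∃ m, D u v m) →
            ∃ m : ℕ, (m : ℝ) ≤ ε * (n : ℝ) ^ 2 ∧ D u v m) ∧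
      ¬ ∃ C : ℕ, ∀ u v : List (Fin k), (∃ m, D u v m) →
          ∃ m : ℕ, m ≤ C * (u.length + v.length + 1) ∧ D u v m := by
  refine ⟨10, R, fun u v m => Chain m u v, fun u v m => chain_iff m u v, ?_, ?_⟩
  · intro ε hε
    obtain ⟨N, hN⟩ := eps ε hε
    refine ⟨N, ?_⟩
    rintro n hn u v huv ⟨m, hm⟩
    obtain ⟨m', hm', hc⟩ := upper m u v hm
    refine ⟨m', ?_, hc⟩
    have h1 := B_mono huv
    have h2 : (m' : ℝ) ≤ 2 * B n := by
      have : m' ≤ 2 * B n := by omega
      exact_mod_cast this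
    exact h2.trans (hN n hn)
  · rintro ⟨C, hC⟩
    obtain ⟨u, v, huv, hno⟩ := lower C
    obtain ⟨m, hm, hc⟩ := hC u v huv
    exact hno m hm hc

end Pool.Agent.S01237
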