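import Pool.Statements.S01276

set_option autoImplicit false
open scoped Pointwise
open Pool Pool.MP_77870d_al

namespace Pool.Agent.S01276

/-- The element `(m, k)` stands for the coset `k + mℤ`; for `m = 0` it is the single number `k`. -/
structure S where
  m : ℕ
  k : ℕ
  h : k % m = k

@[ext] lemma S.ext' (a b : S) (h1 : a.m = b.m) (h2 : a.k = b.k) : a = b := by
  cases a; cases b; simp_all

def S.mul' (a b : S) : S := ⟨Nat.gcd a.m b.m, (a.k + b.k) % Nat.gcd a.m b.m, Nat.mod_mod _ _⟩

instance : Mul S := ⟨S.mul'⟩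

lemma mul_m (a b : S) : (a * b).m = Nat.gcd a.m b.m := rfl

lemma mul_k (a b : S) : (a * b).k = (a.k + b.k) % Nat.gcd a.m b.m := rfl

instance : Semigroup S where
  mul_assoc a b c := by
    apply S.ext'
    · rw [mul_m, mul_m, mul_m, mul_m, Nat.gcd_assoc]
    · rw [mul_k, mul_k, mul_k, mul_k, mul_m, mul_m, Nat.gcd_assoc]
      have h1 : Nat.gcd a.m (Nat.gcd b.m c.m) ∣ Nat.gcd a.m b.m :=
        Nat.gcd_dvd_gcd_of_dvd_right _ (Nat.gcd_dvd_left _ _)
      have h2 : Nat.gcd a.m (Nat.gcd b.m c.m) ∣ Nat.gcd b.m c.m := Nat.gcd_dvd_right _ _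
      rw [Nat.add_mod, Nat.mod_mod_of_dvd _ h1, ← Nat.add_mod, Nat.add_mod a.k,
        Nat.mod_mod_of_dvd _ h2, ← Nat.add_mod, add_assoc]

/-! ### Embedding finitely generated pieces -/

/-- The image of the coset in `ZMod M`. -/
def cosetImage (M : ℕ) (a : S) : Set (ZMod M) := {z | ∃ j : ℤ, z = ((a.k + a.m * j : ℤ) : ZMod M)}

/-- The second component. -/
def theta (a : S) : Set (ℕ →₀ ZMod 2) := {h | a.m = 0 → h.support.card ≤ a.k}

lemma cosetImage_mul (M : ℕ) (a b : S) (z : ZMod M) :
    z ∈ cosetImage M (a * b) ↔ ∃ x ∈ cosetImage M a, ∃ y ∈ cosetImage M b, x + y = z := by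
  constructor
  · rintro ⟨j, rfl⟩
    rw [mul_m, mul_k]
    have h1 := Int.gcd_eq_gcd_ab (a.m : ℤ) (b.m : ℤ)
    have h2 : (((a.k + b.k) % Nat.gcd a.m b.m : ℕ) : ℤ) = (a.k + b.k : ℤ) -
        (Nat.gcd a.m b.m : ℤ) * (((a.k + b.k) / Nat.gcd a.m b.m : ℕ) : ℤ) := by
      have := Nat.mod_add_div (a.k + b.k) (Nat.gcd a.m b.m)
      have h3 : (((a.k + b.k) % Nat.gcd a.m b.m : ℕ) : ℤ) +
        (Nat.gcd a.m b.m : ℤ) * (((a.k + b.k) / Nat.gcd a.m b.m : ℕ) : ℤ) = (a.k + b.k : ℤ) := by
        exact_mod_cast this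
      linarith
    rw [Int.gcd_natCast_natCast] at h1
    set q : ℤ := (((a.k + b.k) / Nat.gcd a.m b.m : ℕ) : ℤ)
    refine ⟨_, ⟨(j - q) * Int.gcdA a.m b.m, rfl⟩, _, ⟨(j - q) * Int.gcdB a.m b.m, rfl⟩, ?_⟩
    rw [← Int.cast_add]
    congr 1
    rw [h2]
    linear_combination (-(j - q)) * h1
  · rintro ⟨x, ⟨i, rfl⟩, y, ⟨j, rfl⟩, rfl⟩
    obtain ⟨c, hc⟩ : (Nat.gcd a.m b.m : ℤ) ∣ (a.m : ℤ) := by
      exact_mod_cast Nat.gcd_dvd_left _ _
    obtain ⟨d, hd⟩ : (Nat.gcd a.m b.m : ℤ) ∣ (b.m : ℤ) := by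
      exact_mod_cast Nat.gcd_dvd_right _ _
    have h3 : (((a.k + b.k) % Nat.gcd a.m b.m : ℕ) : ℤ) +
        (Nat.gcd a.m b.m : ℤ) * (((a.k + b.k) / Nat.gcd a.m b.m : ℕ) : ℤ) = (a.k + b.k : ℤ) := by
      exact_mod_cast Nat.mod_add_div (a.k + b.k) (Nat.gcd a.m b.m)
    refine ⟨c * i + d * j + (((a.k + b.k) / Nat.gcd a.m b.m : ℕ) : ℤ), ?_⟩
    rw [mul_m, mul_k, ← Int.cast_add]
    congr 1
    linear_combination i * hc + j * hd - h3

lemma theta_mul (a b : S) (z : ℕ →₀ ZMod 2) :
    z ∈ theta (a * b) ↔ ∃ x ∈ theta a, ∃ y ∈ theta b, x + y = z := by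
  classical
  constructor
  · intro hz
    by_cases ha : a.m = 0
    · by_cases hb : b.m = 0
      · have h1 : z.support.card ≤ a.k + b.k := by
          have := hz (by rw [mul_m, ha, hb, Nat.gcd_zero_left])
          rwa [mul_k, ha, hb, Nat.gcd_zero_left, Nat.mod_zero] at this
        obtain ⟨t, ht, htc⟩ := Finset.exists_subset_card_eq
          (show min a.k z.support.card ≤ z.support.card from min_le_right _ _)
        refine ⟨z.filter (· ∈ t), fun _ => ?_, z.filter (fun i => ¬ i ∈ t), fun _ => ?_,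
          Finsupp.filter_pos_add_filter_neg _ _⟩
        · rw [Finsupp.support_filter]
          calc (z.support.filter (· ∈ t)).card ≤ t.card :=
                Finset.card_le_card (fun i hi => (Finset.mem_filter.mp hi).2)
            _ ≤ a.k := by rw [htc]; exact min_le_left _ _
        · rw [Finsupp.support_filter]
          have h2 : z.support.filter (fun i => ¬ i ∈ t) = z.support \ t := by
            ext i; simp
          rw [h2, Finset.card_sdiff_of_subset ht, htc]
          omega
      · exact ⟨0, fun _ => by simp, z, fun h => absurd h hb, zero_add z⟩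
    · exact ⟨z, fun h => absurd h ha, 0, fun _ => by simp, add_zero z⟩
  · rintro ⟨x, hx, y, hy, rfl⟩ h0
    rw [mul_m, Nat.gcd_eq_zero_iff] at h0
    rw [mul_k, h0.1, h0.2, Nat.gcd_zero_left, Nat.mod_zero]
    calc (x + y).support.card ≤ (x.support ∪ y.support).card :=
          Finset.card_le_card Finsupp.support_add
      _ ≤ x.support.card + y.support.card := Finset.card_union_le _ _
      _ ≤ a.k + b.k := Nat.add_le_add (hx h0.1) (hy h0.2)

/-- The group. -/
abbrev GG (M : ℕ) := Multiplicative (ZMod M × (ℕ →₀ ZMod 2))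

/-- The homomorphism. -/
def emb (M : ℕ) (a : S) : Set (GG M) :=
  {g | (Multiplicative.toAdd g).1 ∈ cosetImage M a ∧ (Multiplicative.toAdd g).2 ∈ theta a}

lemma emb_mul (M : ℕ) (a b : S) : emb M (a * b) = emb M a * emb M b := by
  ext g
  constructor
  · rintro ⟨h1, h2⟩
    obtain ⟨x, hx, y, hy, hxy⟩ := (cosetImage_mul M a b _).mp h1
    obtain ⟨u, hu, v, hv, huv⟩ := (theta_mul a b _).mp h2
    refine Set.mem_mul.mpr ⟨Multiplicative.ofAdd (x, u), ⟨hx, hu⟩,
      Multiplicative.ofAdd (y, v), ⟨hy, hv⟩, ?_⟩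
    rw [← ofAdd_add, Prod.mk_add_mk, hxy, huv]
    rfl
  · intro h
    obtain ⟨x, ⟨hx1, hx2⟩, y, ⟨hy1, hy2⟩, rfl⟩ := Set.mem_mul.mp h
    exact ⟨(cosetImage_mul M a b _).mpr ⟨_, hx1, _, hy1, rfl⟩,
      (theta_mul a b _).mpr ⟨_, hx2, _, hy2, rfl⟩⟩

lemma GG_torsion (M : ℕ) (hM : 0 < M) : Monoid.IsTorsion (GG M) := by
  intro g
  rw [isOfFinOrder_iff_pow_eq_one]
  refine ⟨M * 2, by omega, ?_⟩
  have : (M * 2) • (Multiplicative.toAdd g) = 0 := by
    apply Prod.ext
    · show (M * 2) • (Multiplicative.toAdd g).1 = 0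
      have : M • (Multiplicative.toAdd g).1 = 0 := by
        rw [nsmul_eq_mul, ZMod.natCast_self, zero_mul]
      rw [mul_comm, mul_smul, this, smul_zero]
    · show (M * 2) • (Multiplicative.toAdd g).2 = 0
      ext i
      rw [mul_smul]
      have h2 : ∀ z : ZMod 2, 2 • z = 0 := by decide
      have : (2 • (Multiplicative.toAdd g).2) = 0 := by
        ext i
        exact h2 _
      rw [this]
      simp
  exact this

lemma emb_inj (M : ℕ) (a b : S) (ha : a.m = 0 ∨ a.m ∣ M) (hb : b.m = 0 ∨ b.m ∣ M)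
    (h : emb M a = emb M b) : a = b := by
  have h1 : ∀ a : S, ((a.k : ℤ) : ZMod M) ∈ cosetImage M a := fun a => ⟨0, by simp⟩
  have h0 : ∀ a : S, (0 : ℕ →₀ ZMod 2) ∈ theta a := fun a _ => by simp
  have hc : ∀ z, z ∈ cosetImage M a ↔ z ∈ cosetImage M b := by
    intro z
    have := Set.ext_iff.mp h (Multiplicative.ofAdd (z, 0))
    simpa [emb, h0] using this
  have ht : ∀ z, z ∈ theta a ↔ z ∈ theta b := by
    intro z
    have h2 := Set.ext_iff.mp h (Multiplicative.ofAdd (((a.k : ℤ) : ZMod M), z))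
    have h3 : ((a.k : ℤ) : ZMod M) ∈ cosetImage M b := (hc _).mp (h1 a)
    have h4 := h1 a
    simp only [emb, Set.mem_setOf_eq, toAdd_ofAdd, h3, h4, true_and] at h2
    exact h2
  -- existence of vectors with large support
  have hbig : ∀ k : ℕ, ∃ z : ℕ →₀ ZMod 2, z.support.card = k := by
    intro k
    refine ⟨Finsupp.indicator (Finset.range k) (fun _ _ => 1), ?_⟩
    have : (Finsupp.indicator (Finset.range k) (fun _ _ => (1 : ZMod 2))).support =
        Finset.range k := by
      ext i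
      simp [Finsupp.mem_support_iff, Finsupp.indicator_apply]
    rw [this, Finset.card_range]
  have key : ∀ a b : S, (∀ z, z ∈ theta a ↔ z ∈ theta b) → a.m = 0 → b.m = 0 ∧ b.k ≤ a.k := by
    intro a b ht ha0
    have hb0 : b.m = 0 := by
      by_contra hb0
      obtain ⟨z, hz⟩ := hbig (a.k + 1)
      have := (ht z).mpr (fun h => absurd h hb0) ha0
      omega
    refine ⟨hb0, ?_⟩
    obtain ⟨z, hz⟩ := hbig b.k
    have := (ht z).mpr (fun _ => hz.le) ha0
    omega
  by_cases ha0 : a.m = 0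
  · have h2 := key a b ht ha0
    have h3 := key b a (fun z => (ht z).symm) h2.1
    exact S.ext' a b (ha0.trans h2.1.symm) (le_antisymm h3.2 h2.2)
  · have hb0 : b.m ≠ 0 := fun hb0 => ha0 (key b a (fun z => (ht z).symm) hb0).1
    have ha' := ha.resolve_left ha0
    have hb' := hb.resolve_left hb0
    have key2 : ∀ a b : S, (∀ z, z ∈ cosetImage M a → z ∈ cosetImage M b) → b.m ∣ M →
        (b.m : ℤ) ∣ a.m ∧ (b.m : ℤ) ∣ (a.k : ℤ) - b.k := by
      intro a b hc hbM
      obtain ⟨j, hj⟩ := hc _ (h1 a)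
      obtain ⟨i, hi⟩ := hc ((a.k + a.m * 1 : ℤ) : ZMod M) ⟨1, rfl⟩
      rw [ZMod.intCast_eq_intCast_iff_dvd_sub] at hj hi
      have hM : (b.m : ℤ) ∣ M := by exact_mod_cast hbM
      have hj' := hM.trans hj
      have hi' := hM.trans hi
      obtain ⟨c, hc⟩ := hj'
      obtain ⟨d, hd⟩ := hi'
      constructor
      · exact ⟨c - d - j + i, by linear_combination hc - hd⟩
      · exact ⟨j - c, by linear_combination -hc⟩
    have h2 := key2 a b (fun z hz => (hc z).mp hz) hb'
    have h3 := key2 b a (fun z hz => (hc z).mpr hz) ha'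
    have hm : a.m = b.m := Nat.dvd_antisymm (by exact_mod_cast h3.1) (by exact_mod_cast h2.1)
    refine S.ext' a b hm ?_
    have h4 : b.k ≡ a.k [MOD b.m] := (Nat.modEq_iff_dvd).mpr h2.2
    have h5 := a.h
    have h6 := b.h
    rw [hm] at h5
    rw [Nat.ModEq, h5, h6] at h4
    exact h4.symm

/-! ### No global embedding -/

lemma no_embedding (G : Type) [Group G] (hG : Monoid.IsTorsion G) (f : S →ₙ* Set G)
    (hf : Function.Injective f) : False := by
  let x : S := ⟨0, 1, Nat.mod_zero _⟩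
  have hne : ∀ s : S, (∃ t, s * t ≠ s) → (f s).Nonempty := by
    rintro s ⟨t, ht⟩
    rw [Set.nonempty_iff_ne_empty]
    intro h0
    apply ht
    apply hf
    rw [map_mul, h0, Set.empty_mul]
  have hx : (f x).Nonempty := by
    apply hne
    refine ⟨x, ?_⟩
    intro h
    have := congrArg S.k h
    rw [mul_k] at this
    simp [x] at this
  obtain ⟨g, hg⟩ := hx
  obtain ⟨n, hn, hgn⟩ := (isOfFinOrder_iff_pow_eq_one.mp (hG g))
  let e : ∀ j : ℕ, S := fun j => ⟨n + 1, j % (n + 1), Nat.mod_mod _ _⟩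
  have hee : ∀ i j, e i * e j = e (i + j) := by
    intro i j
    apply S.ext'
    · rw [mul_m]
      simp [e]
    · rw [mul_k]
      simp [e]
  have hxe : ∀ j, x * e j = e (j + 1) := by
    intro j
    apply S.ext'
    · rw [mul_m]
      simp [e, x]
    · rw [mul_k]
      simp [e, x, add_comm]
  have hex : ∀ j, e j * x = e (j + 1) := by
    intro j
    apply S.ext'
    · rw [mul_m]
      simp [e, x]
    · rw [mul_k]
      simp [e, x]
  have hwrap : e (n + 1) = e 0 := by
    apply S.ext'
    · rfl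
    · simp [e]
  have hE2 : f (e 0) * f (e 0) = f (e 0) := by rw [← map_mul, hee]
  have hEne : (f (e 0)).Nonempty := by
    apply hne
    refine ⟨x, ?_⟩
    rw [hex]
    intro h
    have := congrArg S.k h
    simp only [e, zero_add, Nat.zero_mod] at this
    rw [Nat.mod_eq_of_lt (by omega)] at this
    omega
  have hpow : ∀ a ∈ f (e 0), ∀ k : ℕ, a ^ (k + 1) ∈ f (e 0) := by
    intro a ha k
    induction k with
    | zero => simpa using ha
    | succ k ih =>
      rw [pow_succ, ← hE2]
      exact Set.mul_mem_mul ih ha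
  have hinv : ∀ a ∈ f (e 0), a⁻¹ ∈ f (e 0) := by
    intro a ha
    obtain ⟨k, hk, hak⟩ := (isOfFinOrder_iff_pow_eq_one.mp (hG a))
    have h1 : a⁻¹ = a ^ (2 * k - 2 + 1) := by
      rw [inv_eq_iff_mul_eq_one, ← pow_succ']
      have : 2 * k - 2 + 1 + 1 = k * 2 := by omega
      rw [this, pow_mul, hak, one_pow]
    rw [h1]
    exact hpow a ha _
  have hmulE : ∀ a ∈ f (e 0), ∀ b ∈ f (e 0), a * b ∈ f (e 0) := by
    intro a ha b hb
    rw [← hE2]
    exact Set.mul_mem_mul ha hb
  have hBA : f (e n) * f x = f (e 0) := by rw [← map_mul, hex, hwrap]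
  obtain ⟨b, hb⟩ : (f (e n)).Nonempty := by
    rw [← hBA] at hEne
    exact (Set.mul_nonempty.mp hEne).1
  have hAE : f x * f (e 0) = {g} * f (e 0) := by
    apply Set.Subset.antisymm
    · rintro _ ⟨a, ha, c, hc, rfl⟩
      have h1 : b * a ∈ f (e 0) := by rw [← hBA]; exact Set.mul_mem_mul hb ha
      have h2 : b * g ∈ f (e 0) := by rw [← hBA]; exact Set.mul_mem_mul hb hg
      have h3 : (b * g)⁻¹ * (b * a) ∈ f (e 0) := hmulE _ (hinv _ h2) _ h1
      have h4 : g⁻¹ * a ∈ f (e 0) := by
        have : (b * g)⁻¹ * (b * a) = g⁻¹ * a := by group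
        rwa [this] at h3
      refine Set.mem_mul.mpr ⟨g, rfl, g⁻¹ * a * c, hmulE _ h4 _ hc, ?_⟩
      group
    · apply Set.mul_subset_mul_right
      simpa using hg
  have hmain : ∀ j : ℕ, f (e j) = {g ^ j} * f (e 0) := by
    intro j
    induction j with
    | zero => rw [pow_zero, Set.singleton_one, one_mul]
    | succ j ih =>
      have h1 : f (e (j + 1)) = f x * f (e 0) * f (e j) := by
        rw [← map_mul, ← map_mul, hxe, hee]
        congr 2
        ring
      have h2 : f (e 0) * f (e j) = f (e j) := by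
        rw [← map_mul, hee, zero_add]
      rw [h1, hAE, mul_assoc, h2, ih, ← mul_assoc, Set.singleton_mul_singleton, ← pow_succ']
  have h1 : f (e n) = f (e 0) := by rw [hmain n, hgn, Set.singleton_one, one_mul]
  have h2 := congrArg S.k (hf h1)
  simp only [e, Nat.zero_mod] at h2
  rw [Nat.mod_eq_of_lt (by omega)] at h2
  omega

/-- The negation of the preceding statement: For every semigroup S: if each finitely generated subsemigroup of S embeds into the semigroup of all subsets of some torsion group, then S itself embeds into the semigroup of all subsets of some torsion group. -/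
theorem result :
    ¬ (∀ (S : Type) [Semigroup S],
      (∀ T : Subsemigroup S, (∃ F : Finset S, Subsemigroup.closure (F : Set S) = T) →
        ∃ (G : Type) (_ : Group G), Monoid.IsTorsion G ∧
          ∃ f : T →ₙ* Set G, Function.Injective f) →
      ∃ (G : Type) (_ : Group G), Monoid.IsTorsion G ∧
        ∃ f : S →ₙ* Set G, Function.Injective f) := by
  intro hall
  obtain ⟨G, instG, hG, f, hf⟩ := hall S (by
    rintro T ⟨F, rfl⟩
    set M : ℕ := ∏ s ∈ F, (if s.m = 0 then 1 else s.m) with hM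
    have hMpos : 0 < M := by
      rw [hM]
      apply Finset.prod_pos
      intro s _
      split_ifs with h
      · exact one_pos
      · omega
    have hdvd : ∀ t ∈ Subsemigroup.closure (F : Set S), t.m = 0 ∨ t.m ∣ M := by
      intro t ht
      induction ht using Subsemigroup.closure_induction with
      | mem s hs =>
        by_cases h0 : s.m = 0
        · exact Or.inl h0
        · right
          have := Finset.dvd_prod_of_mem (fun s : S => if s.m = 0 then 1 else s.m)
            (Finset.mem_coe.mp hs)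
          simpa [h0] using this
      | mul a b _ _ ha hb =>
        rw [mul_m]
        rcases ha with ha | ha
        · rcases hb with hb | hb
          · left
            rw [ha, hb, Nat.gcd_zero_left]
          · right
            exact (Nat.gcd_dvd_right _ _).trans hb
        · right
          exact (Nat.gcd_dvd_left _ _).trans ha
    refine ⟨GG M, inferInstance, GG_torsion M hMpos, ⟨fun t => emb M t.1, ?_⟩, ?_⟩
    · intro a b
      exact emb_mul M a.1 b.1
    · intro a b hab
      apply Subtype.ext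
      exact emb_inj M a.1 b.1 (hdvd _ a.2) (hdvd _ b.2) hab)
  exact no_embedding G hG f hf

end Pool.Agent.S01276
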