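import Pool.Statements.S01282
-- import your own Pool.Agent.* helpers here

set_option autoImplicit false
open Pool Pool.MP_783016_al

namespace Pool.Agent.S01282

open Polynomial

/-- `F₂[x]` -/
abbrev P := Polynomial (ZMod 2)
/-- `F₂[x][s]` -/
abbrev R := Polynomial P
/-- `F₂[x][s]⁴` -/
abbrev B := Fin 4 → R

theorem two_zero (p : P) : p + p = 0 := CharTwo.add_self_eq_zero p

/-- The ring: equal constant coefficients, and the `s`-coefficients sum to zero. -/
def A : Subalgebra R B where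
  carrier := {f | (∀ i, (f i).coeff 0 = (f 0).coeff 0) ∧
    (f 0).coeff 1 + (f 1).coeff 1 + (f 2).coeff 1 + (f 3).coeff 1 = 0}
  mul_mem' := by
    rintro f g ⟨hf0, hf1⟩ ⟨hg0, hg1⟩
    refine ⟨fun i => ?_, ?_⟩
    · simp only [Pi.mul_apply, mul_coeff_zero, hf0 i, hg0 i]
    · simp only [Pi.mul_apply, mul_coeff_one, hf0 1, hf0 2, hf0 3, hg0 1, hg0 2, hg0 3]
      linear_combination (f 0).coeff 0 * hg1 + (g 0).coeff 0 * hf1
  add_mem' := by
    rintro f g ⟨hf0, hf1⟩ ⟨hg0, hg1⟩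
    refine ⟨fun i => ?_, ?_⟩
    · simp only [Pi.add_apply, coeff_add, hf0 i, hg0 i]
    · simp only [Pi.add_apply, coeff_add]
      linear_combination hf1 + hg1
  algebraMap_mem' := by
    intro r
    refine ⟨fun i => rfl, ?_⟩
    show r.coeff 1 + r.coeff 1 + r.coeff 1 + r.coeff 1 = 0
    rw [two_zero, zero_add, two_zero]

instance : IsNoetherianRing A := by
  have h1 : IsNoetherian R A := by
    show IsNoetherian R (Subalgebra.toSubmodule A)
    infer_instance
  exact isNoetherian_of_tower R h1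

/-- the eigenvalues -/
noncomputable def lam : Fin 4 → P := ![1 + X, X, 1, 0]

/-- `s ^ n * u` for `n ≥ 2` -/
theorem mem_two (u : Fin 4 → P) (n : ℕ) (hn : 2 ≤ n) :
    (fun i => (X : R) ^ n * C (u i)) ∈ A := by
  refine ⟨fun i => ?_, ?_⟩
  · simp only [coeff_mul_C, coeff_X_pow, if_neg (show ¬ (0 = n) by omega), zero_mul]
  · simp only [coeff_mul_C, coeff_X_pow, if_neg (show ¬ (1 = n) by omega), zero_mul, add_zero]

theorem mem_one (u : Fin 4 → P) : (fun i => (X : R) * C (u i)) ∈ A ↔ u 0 + u 1 + u 2 + u 3 = 0 := by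
  constructor
  · rintro ⟨_, h⟩
    simpa [coeff_mul_C] using h
  · intro h
    refine ⟨fun i => ?_, ?_⟩
    · simp
    · simpa [coeff_mul_C] using h

/-- the element `s` -/
noncomputable def σ : A := algebraMap R A X

theorem σ_val (i : Fin 4) : (σ : B) i = X := rfl

theorem σ_pow_val (n : ℕ) (i : Fin 4) : ((σ ^ n : A) : B) i = X ^ n := by
  rw [SubmonoidClass.coe_pow, Pi.pow_apply, σ_val]

/-- the element `s λ` -/
noncomputable def f : A := ⟨fun i => X * C (lam i), (mem_one lam).mpr (by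
  simp only [lam]
  show (1 + X : P) + X + 1 + 0 = 0
  linear_combination two_zero (1 + X))⟩

theorem f_pow_val (m : ℕ) (i : Fin 4) : ((f ^ m : A) : B) i = X ^ m * C (lam i ^ m) := by
  rw [SubmonoidClass.coe_pow, Pi.pow_apply]
  show (X * C (lam i)) ^ m = _
  rw [mul_pow, C_pow]

/-- the trace condition -/
def Z (m : ℕ) : Prop := (1 + X : P) ^ m + X ^ m + 1 = 0

theorem dvd_of_le {m n : ℕ} (h : n + 2 ≤ m) : σ ^ n ∣ f ^ m := by
  refine ⟨⟨fun i => X ^ (m - n) * C (lam i ^ m), mem_two _ _ (by omega)⟩, ?_⟩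
  apply Subtype.ext
  funext i
  rw [f_pow_val, MulMemClass.coe_mul, Pi.mul_apply, σ_pow_val]
  show _ = X ^ n * (X ^ (m - n) * C (lam i ^ m))
  rw [← mul_assoc, ← pow_add]
  congr 2
  omega

theorem sum_lam {m : ℕ} (hm : m ≠ 0) : lam 0 ^ m + lam 1 ^ m + lam 2 ^ m + lam 3 ^ m
    = (1 + X : P) ^ m + X ^ m + 1 := by
  show (1 + X : P) ^ m + X ^ m + 1 ^ m + 0 ^ m = _
  rw [one_pow, zero_pow hm, add_zero]

theorem dvd_pred_iff {m : ℕ} (hm : 1 ≤ m) : σ ^ (m - 1) ∣ f ^ m ↔ Z m := by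
  constructor
  · rintro ⟨g, hg⟩
    have h1 : ∀ i, (g : B) i = X * C (lam i ^ m) := by
      intro i
      have h2 := congrFun (congrArg Subtype.val hg) i
      rw [f_pow_val, MulMemClass.coe_mul, Pi.mul_apply, σ_pow_val] at h2
      have h3 : (X : R) ^ m = X ^ (m - 1) * X := by
        rw [← pow_succ]; congr 1; omega
      rw [h3, mul_assoc] at h2
      exact (mul_left_cancel₀ (pow_ne_zero _ X_ne_zero) h2).symm
    have h2 : (fun i => (X : R) * C (lam i ^ m)) ∈ A := by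
      have : (g : B) = fun i => (X : R) * C (lam i ^ m) := funext h1
      rw [← this]
      exact g.2
    rw [mem_one, sum_lam (by omega)] at h2
    exact h2
  · intro h
    refine ⟨⟨fun i => X * C (lam i ^ m), (mem_one _).mpr ?_⟩, ?_⟩
    · rw [sum_lam (by omega)]; exact h
    · apply Subtype.ext
      funext i
      rw [f_pow_val, MulMemClass.coe_mul, Pi.mul_apply, σ_pow_val]
      show _ = X ^ (m - 1) * (X * C (lam i ^ m))
      rw [← mul_assoc, ← pow_succ]
      congr 2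
      omega

theorem not_dvd_self {m n : ℕ} (hm : 1 ≤ m) (hn : m ≤ n) : ¬ σ ^ n ∣ f ^ m := by
  intro hd
  obtain ⟨g, hg⟩ := dvd_trans (pow_dvd_pow σ hn) hd
  have h1 : ∀ i, (g : B) i = C (lam i ^ m) := by
    intro i
    have h2 := congrFun (congrArg Subtype.val hg) i
    rw [f_pow_val, MulMemClass.coe_mul, Pi.mul_apply, σ_pow_val] at h2
    exact (mul_left_cancel₀ (pow_ne_zero _ X_ne_zero) h2).symm
  have h2 := g.2.1 2
  have h3 := g.2.1 3
  rw [← h2] at h3
  have e2 : (g : B) 2 = 1 := by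
    rw [h1]
    show C ((1:P) ^ m) = 1
    simp
  have e3 : (g : B) 3 = 0 := by
    rw [h1]
    show C ((0:P) ^ m) = 0
    rw [zero_pow (by omega), C_0]
  rw [show ((g : B) 3).coeff 0 = 0 by rw [e3]; simp, show ((g : B) 2).coeff 0 = 1 by rw [e2]; simp] at h3
  exact zero_ne_one h3

/-- the ideals -/
noncomputable def I : Ideal A := Ideal.span {σ}
noncomputable def J : Ideal A := Ideal.span {f}

theorem le_iff (m n : ℕ) : J ^ m ≤ I ^ n ↔ σ ^ n ∣ f ^ m := by
  rw [I, J, Ideal.span_singleton_pow, Ideal.span_singleton_pow,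
    Ideal.span_singleton_le_span_singleton]

theorem v_of_Z {m : ℕ} (hm : 1 ≤ m) (h : Z m) : sSup {n : ℕ | J ^ m ≤ I ^ n} = m - 1 := by
  apply IsGreatest.csSup_eq
  constructor
  · rw [Set.mem_ofPred_eq, le_iff, dvd_pred_iff hm]; exact h
  · intro n hn
    rw [Set.mem_ofPred_eq, le_iff] at hn
    by_contra hc
    exact not_dvd_self hm (by omega : m ≤ n) hn

theorem v_of_not_Z {m : ℕ} (hm : 2 ≤ m) (h : ¬ Z m) : sSup {n : ℕ | J ^ m ≤ I ^ n} = m - 2 := by
  apply IsGreatest.csSup_eq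
  constructor
  · rw [Set.mem_ofPred_eq, le_iff]; exact dvd_of_le (by omega)
  · intro n hn
    rw [Set.mem_ofPred_eq, le_iff] at hn
    by_contra hc
    rcases Nat.lt_or_ge n m with h1 | h1
    · have : n = m - 1 := by omega
      subst this
      exact h ((dvd_pred_iff (by omega)).mp hn)
    · exact not_dvd_self (by omega) h1 hn

theorem Z_pow (k : ℕ) : Z (2 ^ k) := by
  unfold Z
  rw [add_pow_char_pow, one_pow]
  linear_combination two_zero (1 + X ^ (2 ^ k))

theorem not_Z {k b : ℕ} (hb : 0 < b) (hb2 : b < 2 ^ k) : ¬ Z (2 ^ k + b) := by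
  intro h
  unfold Z at h
  rw [pow_add (1 + X : P), add_pow_char_pow, one_pow] at h
  have h1 := congrArg (fun p : P => p.coeff (2 ^ k)) h
  simp only [coeff_add, coeff_zero, coeff_X_pow, coeff_one] at h1
  rw [if_neg (by omega : ¬ 2 ^ k = 2 ^ k + b), if_neg (by positivity), add_zero, add_zero,
    add_mul, one_mul, coeff_add] at h1
  have h2 : ((1 + X : P) ^ b).coeff (2 ^ k) = 0 := by
    apply coeff_eq_zero_of_natDegree_lt
    calc ((1 + X : P) ^ b).natDegree ≤ b * (1 + X : P).natDegree := natDegree_pow_le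
      _ ≤ b * 1 := by
        apply Nat.mul_le_mul_left
        rw [add_comm, ← C_1, natDegree_X_add_C]
      _ < 2 ^ k := by omega
  have h3 : (X ^ (2 ^ k) * (1 + X : P) ^ b).coeff (2 ^ k) = 1 := by
    rw [coeff_X_pow_mul', if_pos le_rfl, Nat.sub_self, coeff_zero_eq_eval_zero]
    simp
  rw [h2, h3, zero_add] at h1
  exact one_ne_zero h1

/-- The negation of the preceding statement: Let A be Noetherian, J ⊆ rad I, I not nilpotent, ⋂ Iⁿ = 0, J not nilpotent, and v(m) the largest n with Jᵐ ⊆ Iⁿ. Then some t > 0 satisfies v(m+1+t) − v(m+t) = v(m+1) − v(m) for all large m. -/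
theorem result :
    ¬ (∀ (A : Type) [CommRing A] [IsNoetherianRing A] (I J : Ideal A),
      J ≤ I.radical → (∀ n : ℕ, I ^ n ≠ ⊥) → (⨅ n : ℕ, I ^ n) = ⊥ →
      (∀ m : ℕ, J ^ m ≠ ⊥) →
      ∃ t : ℕ, 0 < t ∧ ∃ M : ℕ, ∀ m : ℕ, M ≤ m →
        ((sSup {n : ℕ | J ^ (m + 1 + t) ≤ I ^ n} : ℕ) : ℤ)
            - ((sSup {n : ℕ | J ^ (m + t) ≤ I ^ n} : ℕ) : ℤ)
          = ((sSup {n : ℕ | J ^ (m + 1) ≤ I ^ n} : ℕ) : ℤ)
            - ((sSup {n : ℕ | J ^ m ≤ I ^ n} : ℕ) : ℤ)) := by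
  intro H
  have g1 : J ≤ I.radical := by
    rw [J, Ideal.span_singleton_le_iff_mem]
    refine ⟨3, ?_⟩
    rw [I, Ideal.mem_span_singleton]
    have := dvd_of_le (m := 3) (n := 1) (by norm_num)
    rwa [pow_one] at this
  have g2 : ∀ n : ℕ, I ^ n ≠ ⊥ := by
    intro n h
    rw [I, Ideal.span_singleton_pow, Ideal.span_singleton_eq_bot] at h
    have h1 := congrFun (congrArg Subtype.val h) 0
    rw [σ_pow_val] at h1
    exact pow_ne_zero n X_ne_zero h1
  have g3 : (⨅ n : ℕ, I ^ n) = ⊥ := by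
    rw [eq_bot_iff]
    intro g hg
    rw [Ideal.mem_iInf] at hg
    rw [Ideal.mem_bot]
    apply Subtype.ext
    funext i
    show (g : B) i = 0
    ext1 n
    have h1 := hg (n+1)
    rw [I, Ideal.span_singleton_pow, Ideal.mem_span_singleton] at h1
    obtain ⟨c, hc⟩ := h1
    have h2 := congrFun (congrArg Subtype.val hc) i
    rw [MulMemClass.coe_mul, Pi.mul_apply, σ_pow_val] at h2
    rw [h2, coeff_X_pow_mul', if_neg (by omega), coeff_zero]
  have g4 : ∀ m : ℕ, J ^ m ≠ ⊥ := by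
    intro m h
    rw [J, Ideal.span_singleton_pow, Ideal.span_singleton_eq_bot] at h
    have h1 := congrFun (congrArg Subtype.val h) 2
    rw [f_pow_val] at h1
    have h2 : lam 2 = 1 := rfl
    rw [h2, one_pow, C_1, mul_one] at h1
    exact pow_ne_zero m X_ne_zero h1
  obtain ⟨t, ht, M, hM⟩ := H A I J g1 g2 g3 g4
  obtain ⟨k, hk⟩ : ∃ k, M + t + 4 ≤ 2 ^ k := ⟨M + t + 4, Nat.lt_two_pow_self.le⟩
  have h1 := hM (2 ^ k - 1) (by omega)
  have e1 : 2 ^ k - 1 + 1 + t = 2 ^ k + t := by omega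
  have e2 : 2 ^ k - 1 + 1 = 2 ^ k := by omega
  rw [e1, e2, v_of_Z (by omega) (Z_pow k)] at h1
  have h2 : sSup {n : ℕ | J ^ (2 ^ k - 1) ≤ I ^ n} = 2 ^ k - 1 - 2 := by
    apply v_of_not_Z (by omega)
    obtain ⟨k', rfl⟩ : ∃ k', k = k' + 1 := by
      rcases k with _ | k'
      · simp at hk
      · exact ⟨k', rfl⟩
    have h4 : 2 ^ (k' + 1) = 2 ^ k' + 2 ^ k' := by ring
    have e3 : 2 ^ (k' + 1) - 1 = 2 ^ k' + (2 ^ k' - 1) := by omega
    rw [e3]
    exact not_Z (by omega) (by omega)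
  rw [h2, v_of_not_Z (by omega) (not_Z ht (by omega))] at h1
  rcases Nat.lt_or_ge 1 t with h3 | h3
  · have e3 : 2 ^ k - 1 + t = 2 ^ k + (t - 1) := by omega
    rw [e3, v_of_not_Z (by omega) (not_Z (by omega) (by omega))] at h1
    omega
  · have : t = 1 := by omega
    subst this
    have e3 : 2 ^ k - 1 + 1 = 2 ^ k := by omega
    rw [e3, v_of_Z (by omega) (Z_pow k)] at h1
    omega

end Pool.Agent.S01282
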