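import Pool.Statements.S01456
-- import your own Pool.Agent.* helpers here

set_option autoImplicit false
open Pool Pool.MP_8999af_al

namespace Pool.Agent.S01456

noncomputable section

/-- the 2-adic integers -/
abbrev Z : Type := ℤ_[2]
/-- the same, written multiplicatively -/
abbrev X : Type := Multiplicative Z
/-- all permutations of `Z`, to be given the discrete metric -/
def K : Type := Equiv.Perm Z

instance : Group K := inferInstanceAs (Group (Equiv.Perm Z))

open Classical in
/-- the discrete metric -/
def dd (a b : K) : ℝ := if a = b then 0 else 1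

theorem dd_self (a : K) : dd a a = 0 := by simp [dd]
theorem dd_ne {a b : K} (h : a ≠ b) : dd a b = 1 := by simp [dd, h]
theorem dd_nonneg (a b : K) : 0 ≤ dd a b := by
  by_cases h : a = b
  · rw [h, dd_self]
  · rw [dd_ne h]; norm_num
theorem dd_le (a b : K) : dd a b ≤ 1 := by
  by_cases h : a = b
  · rw [h, dd_self]; norm_num
  · rw [dd_ne h]

instance : MetricSpace K where
  dist := dd
  dist_self := dd_self
  dist_comm a b := by
    by_cases h : a = b
    · rw [h]
    · rw [dd_ne h, dd_ne (Ne.symm h)]
  dist_triangle a b c := by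
    by_cases h : a = b
    · rw [h, dd_self]; simp
    · have h1 := dd_ne h
      have h2 := dd_nonneg b c
      have h3 := dd_le a c
      linarith
  eq_of_dist_eq_zero := by
    intro a b h
    by_contra hne
    have h1 := dd_ne hne
    change dd a b = 0 at h
    rw [h1] at h; norm_num at h

theorem dist_ne {a b : K} (h : a ≠ b) : dist a b = 1 := dd_ne h

instance : DiscreteTopology K :=
  DiscreteTopology.of_forall_le_dist (r := 1) one_pos (fun a b h => (dist_ne h).ge)

instance : CompleteSpace K := by
  apply Metric.complete_of_cauchySeq_tendsto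
  intro v hv
  rw [Metric.cauchySeq_iff'] at hv
  obtain ⟨N, hN⟩ := hv 1 one_pos
  refine ⟨v N, ?_⟩
  apply tendsto_const_nhds.congr'
  filter_upwards [Filter.eventually_ge_atTop N] with n hn
  by_contra hne
  have := hN n hn
  rw [dist_ne (Ne.symm hne)] at this
  exact lt_irrefl _ this

instance : IsTopologicalGroup K where
  continuous_mul := continuous_of_discreteTopology
  continuous_inv := continuous_of_discreteTopology

/-- the group -/
abbrev G : Type := X × K

/-- translations -/
def T : X →* K where
  toFun x := Equiv.addLeft (Multiplicative.toAdd x)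
  map_one' := by
    apply Equiv.ext
    intro z
    change 0 + z = z
    rw [zero_add]
  map_mul' x y := by
    apply Equiv.ext
    intro z
    change (Multiplicative.toAdd x + Multiplicative.toAdd y) + z =
      Multiplicative.toAdd x + (Multiplicative.toAdd y + z)
    rw [add_assoc]

/-- a transposition -/
def tr (a b : Z) : K := by
  classical exact Equiv.swap a b

/-- conjugated translations -/
def cT (s : K) : X →* K := (MulAut.conj s).toMonoidHom.comp T
/-- inverse translations -/
def Ti : X →* K := T.comp invMonoidHom
/-- conjugated inverse translations -/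
def cTi (s : K) : X →* K := (MulAut.conj s).toMonoidHom.comp Ti

/-- first transposition -/
def sg : K := tr 0 1
/-- second transposition -/
def ta : K := tr 3 7

/-- the six homomorphisms into `K` -/
def ph : Fin 6 → X →* K := ![cT sg, Ti, cT ta, cTi sg, T, cTi ta]

/-- the six endomorphisms of `G` -/
def UU (i : Fin 6) : G →* G := (MonoidHom.inr X K).comp ((ph i).comp (MonoidHom.fst X K))

/-- first partial commutator -/
def gg (y : Z) : K := sg * (T (Multiplicative.ofAdd y) * sg⁻¹ * (T (Multiplicative.ofAdd y))⁻¹)
/-- second partial commutator -/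
def hh (y : Z) : K := ta * (T (Multiplicative.ofAdd y) * ta⁻¹ * (T (Multiplicative.ofAdd y))⁻¹)
/-- the product function -/
def u (y : Z) : K := gg y * hh y * (gg y)⁻¹ * (hh y)⁻¹

theorem prod_eq (x : G) : (List.ofFn (fun i => UU i x)).prod = (1, u (Multiplicative.toAdd x.1)) := by
  obtain ⟨x, k⟩ := x
  have h : ∀ i, UU i (x, k) = (1, ph i x) := fun i => rfl
  simp only [List.ofFn_succ, List.ofFn_zero, List.prod_cons, List.prod_nil, h, Prod.mk_mul_mk,
    mul_one]
  refine Prod.ext rfl ?_
  have hTi : Ti x = (T x)⁻¹ := by
    change T (x⁻¹) = _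
    rw [map_inv]
  have h0 : ph 0 x = sg * T x * sg⁻¹ := rfl
  have h1 : ph (Fin.succ 0) x = (T x)⁻¹ := hTi
  have h2 : ph (Fin.succ (Fin.succ 0)) x = ta * T x * ta⁻¹ := rfl
  have h3 : ph (Fin.succ (Fin.succ (Fin.succ 0))) x = sg * (T x)⁻¹ * sg⁻¹ := by
    rw [← hTi]; rfl
  have h4 : ph (Fin.succ (Fin.succ (Fin.succ (Fin.succ 0)))) x = T x := rfl
  have h5 : ph (Fin.succ (Fin.succ (Fin.succ (Fin.succ (Fin.succ 0))))) x = ta * (T x)⁻¹ * ta⁻¹ := by
    rw [← hTi]; rfl
  change ph 0 x * (ph (Fin.succ 0) x * (ph (Fin.succ (Fin.succ 0)) x *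
    (ph (Fin.succ (Fin.succ (Fin.succ 0))) x *
    (ph (Fin.succ (Fin.succ (Fin.succ (Fin.succ 0)))) x *
      ph (Fin.succ (Fin.succ (Fin.succ (Fin.succ (Fin.succ 0))))) x)))) = u (Multiplicative.toAdd x)
  rw [h0, h1, h2, h3, h4, h5]
  simp only [u, gg, hh, ofAdd_toAdd]
  group

theorem tr_inv (a b : Z) : (tr a b)⁻¹ = tr a b := by
  classical
  exact Equiv.swap_inv a b

theorem T_conj (y a b : Z) : T (Multiplicative.ofAdd y) * (tr a b)⁻¹ * (T (Multiplicative.ofAdd y))⁻¹ =
    tr (y + a) (y + b) := by
  classical
  rw [tr_inv]
  exact (Equiv.swap_apply_apply (Equiv.addLeft y) a b).symm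

theorem gg_eq (y : Z) : gg y = tr 0 1 * tr (y + 0) (y + 1) := by
  rw [gg, sg, T_conj]
theorem hh_eq (y : Z) : hh y = tr 3 7 * tr (y + 3) (y + 7) := by
  rw [hh, ta, T_conj]

theorem tr_disjoint {a b c d : Z} (h1 : a ≠ c) (h2 : a ≠ d) (h3 : b ≠ c) (h4 : b ≠ d) :
    Equiv.Perm.Disjoint (α := Z) (tr a b) (tr c d) := by
  classical
  intro z
  by_cases hz : z = a
  · right; rw [hz]; exact Equiv.swap_apply_of_ne_of_ne h1 h2
  · by_cases hz' : z = b
    · right; rw [hz']; exact Equiv.swap_apply_of_ne_of_ne h3 h4
    · left; exact Equiv.swap_apply_of_ne_of_ne hz hz'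

/-- the exceptional points -/
def F : List Z := [3, 7, 2, 6, -3, -2, -7, -6]

theorem u_off (y : Z) (hy : y ∉ F) : u y = 1 := by
  simp only [F, List.mem_cons, List.not_mem_nil, or_false, not_or] at hy
  obtain ⟨a1, a2, a3, a4, a5, a6, a7, a8⟩ := hy
  have hc : Equiv.Perm.Disjoint (α := Z) (gg y) (hh y) := by
    rw [gg_eq, hh_eq]
    refine Equiv.Perm.Disjoint.mul_left ?_ ?_
    · refine Equiv.Perm.Disjoint.mul_right ?_ ?_
      · refine tr_disjoint ?_ ?_ ?_ ?_
        · norm_num
        · norm_num
        · norm_num
        · norm_num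
      · refine tr_disjoint ?_ ?_ ?_ ?_
        · intro h; exact a5 (by linear_combination -h)
        · intro h; exact a7 (by linear_combination -h)
        · intro h; exact a6 (by linear_combination -h)
        · intro h; exact a8 (by linear_combination -h)
    · refine Equiv.Perm.Disjoint.mul_right ?_ ?_
      · refine tr_disjoint ?_ ?_ ?_ ?_
        · intro h; exact a1 (by linear_combination h)
        · intro h; exact a2 (by linear_combination h)
        · intro h; exact a3 (by linear_combination h)
        · intro h; exact a4 (by linear_combination h)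
      · refine tr_disjoint ?_ ?_ ?_ ?_
        · intro h
          have : (3 : Z) = 0 := by linear_combination -h
          norm_num at this
        · intro h
          have : (7 : Z) = 0 := by linear_combination -h
          norm_num at this
        · intro h
          have : (2 : Z) = 0 := by linear_combination -h
          norm_num at this
        · intro h
          have : (6 : Z) = 0 := by linear_combination -h
          norm_num at this
  have hcomm : gg y * hh y = hh y * gg y := hc.commute
  rw [u, hcomm]
  group

/-- evaluation -/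
def ap (k : K) (z : Z) : Z := Equiv.toFun (show Equiv.Perm Z from k) z

theorem ap_mul (k l : K) (z : Z) : ap (k * l) z = ap k (ap l z) := rfl

theorem tr_apply (a b z : Z) :
    ap (tr a b) z = (open Classical in if z = a then b else if z = b then a else z) := by
  classical
  have h := Equiv.swap_apply_def a b z
  exact h

theorem u_three : u 3 ≠ 1 := by
  classical
  intro h
  have hcomm : gg 3 * hh 3 = hh 3 * gg 3 := by
    have h2 : gg 3 * hh 3 * (gg 3)⁻¹ * (hh 3)⁻¹ = 1 := h
    rw [mul_inv_eq_one, mul_inv_eq_iff_eq_mul] at h2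
    exact h2
  rw [gg_eq, hh_eq] at hcomm
  have h3 := congrArg (fun p : K => ap p 3) hcomm
  simp only [ap_mul, tr_apply] at h3
  norm_num at h3

/-- approximations -/
def fl (r : ℝ) : List Z → Z → K
  | [], _ => 1
  | s :: l, y => open Classical in if y ∈ Metric.ball s r then u s else fl r l y

theorem fl_cont (r : ℝ) (l : List Z) : Continuous (fl r l) := by
  classical
  induction l with
  | nil => exact continuous_const
  | cons s l ih =>
    change Continuous (fun y => if y ∈ Metric.ball s r then u s else fl r l y)
    refine Continuous.if ?_ continuous_const ih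
    intro a ha
    have hcl : IsClopen {x : Z | x ∈ Metric.ball s r} := IsUltrametricDist.isClopen_ball s r
    rw [hcl.frontier_eq] at ha
    exact absurd ha (Set.notMem_empty _)

theorem fl_tendsto (l : List Z) (y : Z) :
    Filter.Tendsto (fun k : ℕ => fl (1 / ((k : ℝ) + 1)) l y) Filter.atTop
      (nhds (open Classical in if y ∈ l then u y else 1)) := by
  classical
  induction l with
  | nil => simp only [List.not_mem_nil, if_false]; exact tendsto_const_nhds
  | cons s l ih =>
    by_cases hy : y = s
    · have h1 : ∀ k : ℕ, fl (1 / ((k : ℝ) + 1)) (s :: l) y = u y := by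
        intro k
        change (if y ∈ Metric.ball s (1 / ((k : ℝ) + 1)) then u s else fl _ l y) = u y
        rw [if_pos (by rw [hy]; exact Metric.mem_ball_self (by positivity)), hy]
      rw [if_pos (by rw [hy]; exact List.mem_cons_self)]
      refine tendsto_const_nhds.congr (fun k => (h1 k).symm)
    · have h1 : ∀ᶠ k : ℕ in Filter.atTop, 1 / ((k : ℝ) + 1) < dist y s := by
        have := tendsto_one_div_add_atTop_nhds_zero_nat (𝕜 := ℝ)
        exact this.eventually (gt_mem_nhds (dist_pos.2 hy))
      have h2 : (if y ∈ s :: l then u y else 1) = if y ∈ l then u y else (1 : K) := by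
        simp [hy]
      rw [h2]
      refine ih.congr' ?_
      filter_upwards [h1] with k hk
      change _ = (if y ∈ Metric.ball s (1 / ((k : ℝ) + 1)) then u s else fl _ l y)
      rw [if_neg]
      rw [Metric.mem_ball, not_lt]
      exact hk.le

theorem u_eq (y : Z) : (open Classical in if y ∈ F then u y else 1) = u y := by
  classical
  by_cases h : y ∈ F
  · rw [if_pos h]
  · rw [if_neg h, u_off y h]

theorem u_seq (n : ℕ) : u (3 + 2 ^ (n + 4)) = 1 := by
  apply u_off
  have h16 : (16 : ℤ) ≤ 2 ^ (n + 4) := by
    rw [pow_add]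
    have : (1 : ℤ) ≤ 2 ^ n := one_le_pow₀ (by norm_num)
    norm_num; linarith
  have hcast : ((3 + 2 ^ (n + 4) : ℤ) : Z) = 3 + 2 ^ (n + 4) := by push_cast; ring
  rw [← hcast]
  have key : ∀ m : ℤ, (3 + 2 ^ (n + 4) : ℤ) ≠ m → (((3 + 2 ^ (n + 4) : ℤ)) : Z) ≠ (m : Z) := by
    intro m hm h
    exact hm (Int.cast_injective h)
  simp only [F, List.mem_cons, List.not_mem_nil, or_false, not_or]
  refine ⟨?_, ?_, ?_, ?_, ?_, ?_, ?_, ?_⟩
  · have := key 3 (by linarith); simpa using this
  · have := key 7 (by linarith); simpa using this
  · have := key 2 (by linarith); simpa using this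
  · have := key 6 (by linarith); simpa using this
  · have := key (-3) (by linarith); simpa using this
  · have := key (-2) (by linarith); simpa using this
  · have := key (-7) (by linarith); simpa using this
  · have := key (-6) (by linarith); simpa using this

theorem seq_tendsto : Filter.Tendsto (fun n : ℕ => (3 : Z) + 2 ^ (n + 4)) Filter.atTop (nhds 3) := by
  have h2 : ‖(2 : Z)‖ < 1 := by
    have h := PadicInt.norm_p (p := 2)
    have h4 : ‖(2 : Z)‖ = 2⁻¹ := by exact_mod_cast h
    rw [h4]; norm_num
  have h := tendsto_pow_atTop_nhds_zero_of_norm_lt_one h2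
  have h' := (Filter.tendsto_add_atTop_iff_nat 4).2 h
  simpa using h'.const_add (3 : Z)

/-- The negation of the preceding statement: In a complete metric non-commutative topological group G, if U1,...,Un are homomorphisms G→G and x ↦ U1(x)⋯Un(x) is of some Baire class (iterated pointwise sequential limits of continuous maps), then that map is continuous. -/
theorem result :
    ¬ (∀ (G : Type) [Group G] [MetricSpace G] [IsTopologicalGroup G] [CompleteSpace G],
      (∃ a b : G, a * b ≠ b * a) →
      ∀ (n : ℕ) (U : Fin n → G →* G),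
        (∀ S : Set (G → G),
          (∀ f : G → G, Continuous f → f ∈ S) →
          (∀ (f : ℕ → G → G) (g : G → G), (∀ k, f k ∈ S) →
            (∀ x, Filter.Tendsto (fun k => f k x) Filter.atTop (nhds (g x))) → g ∈ S) →
          (fun x => (List.ofFn (fun i => U i x)).prod) ∈ S) →
        Continuous (fun x => (List.ofFn (fun i => U i x)).prod)) := by
  intro H
  have hcomp : CompleteSpace X := inferInstanceAs (CompleteSpace ℤ_[2])
  have hcont := H G ⟨(1, gg 3), (1, hh 3), by
      intro h
      apply u_three
      have h2 : gg 3 * hh 3 = hh 3 * gg 3 := congrArg Prod.snd h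
      rw [u, h2]; group⟩ 6 UU (by
    intro S hS1 hS2
    have hfun : (fun x => (List.ofFn (fun i => UU i x)).prod) =
        fun x : G => ((1 : X), u (Multiplicative.toAdd x.1)) := funext prod_eq
    rw [hfun]
    refine hS2 (fun k x => ((1 : X), fl (1 / ((k : ℝ) + 1)) F (Multiplicative.toAdd x.1))) _ ?_ ?_
    · intro k
      apply hS1
      refine continuous_const.prodMk ?_
      exact (fl_cont _ F).comp (continuous_toAdd.comp continuous_fst)
    · intro x
      refine Filter.Tendsto.prodMk_nhds tendsto_const_nhds ?_
      have := fl_tendsto F (Multiplicative.toAdd x.1)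
      rw [u_eq] at this
      exact this)
  have hfun : (fun x => (List.ofFn (fun i => UU i x)).prod) =
      fun x : G => ((1 : X), u (Multiplicative.toAdd x.1)) := funext prod_eq
  rw [hfun] at hcont
  have hu : Continuous u := by
    have h1 : Continuous (fun y : Z => ((Multiplicative.ofAdd y, (1 : K)) : G)) :=
      continuous_ofAdd.prodMk continuous_const
    exact continuous_snd.comp (hcont.comp h1)
  have hlim := (hu.tendsto 3).comp seq_tendsto
  have hev : ∀ᶠ n : ℕ in Filter.atTop, u (3 + 2 ^ (n + 4)) ∈ ({u 3} : Set K) :=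
    hlim ((isOpen_discrete {u 3}).mem_nhds rfl)
  obtain ⟨n, hn⟩ := hev.exists
  rw [u_seq n] at hn
  exact u_three (Set.mem_singleton_iff.1 hn).symm

end

end Pool.Agent.S01456
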