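import Pool.Statements.S01543
-- import your own Pool.Agent.* helpers here

set_option autoImplicit false
open Pool Pool.MP_92fce8_al

namespace Pool.Agent.S01543

/-- exponent vectors -/
abbrev Ex (n : ℕ) : Type := Fin (n + 3) →₀ ℕ

/-- the membership condition for monomials in the powers -/
def cond {n : ℕ} (s : ℕ) (m : Ex n) : Prop :=
  ∑ j : Fin (n + 2), ((s - m 0) - m j.succ) ≤ s - m 0

theorem cond_up {n : ℕ} {s : ℕ} {m m' : Ex n} (h : m ≤ m') (hm : cond s m) : cond s m' := by
  unfold cond at *
  have h0 := h 0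
  by_cases hb : m' 0 ≤ s
  · -- reduce m 0 step by step
    have key : ∀ (t : ℕ) (a : Fin (n + 2) → ℕ) (k : ℕ), k ≤ t → ∑ j, (t - a j) ≤ t →
        ∑ j, ((t - k) - a j) ≤ t - k := by
      intro t a k
      induction k with
      | zero => intro _ h; simpa using h
      | succ k ih =>
        intro hk hsum
        have h1 := ih (by omega) hsum
        obtain ⟨u, hu⟩ : ∃ u, t - k = u + 1 := ⟨t - k - 1, by omega⟩
        have hu' : t - (k + 1) = u := by omega
        rw [hu'] 
        rw [hu] at h1
        by_cases hall : ∀ j, u + 1 - a j = 0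
        · have : ∑ j, (u - a j) = 0 := by
            apply Finset.sum_eq_zero
            intro j _
            have := hall j
            omega
          omega
        · push Not at hall
          obtain ⟨i, hi⟩ := hall
          have h2 : ∑ j, (u - a j) < ∑ j, (u + 1 - a j) := by
            apply Finset.sum_lt_sum
            · intro j _; omega
            · exact ⟨i, Finset.mem_univ _, by omega⟩
          omega
    have h1 := key (s - m 0) (fun j => m j.succ) (m' 0 - m 0) (by omega) hm
    have e : s - m 0 - (m' 0 - m 0) = s - m' 0 := by omega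
    rw [e] at h1
    refine le_trans (Finset.sum_le_sum fun j _ => ?_) h1
    have := h j.succ
    omega
  · have e : s - m' 0 = 0 := by omega
    rw [e]
    simp

/-- indicator exponent of a set -/
noncomputable def ind {n : ℕ} (C : Finset (Fin (n + 3))) : Ex n := ∑ i ∈ C, Finsupp.single i 1

theorem ind_apply {n : ℕ} (C : Finset (Fin (n + 3))) (l : Fin (n + 3)) :
    ind C l = if l ∈ C then 1 else 0 := by
  classical
  simp only [ind, Finsupp.coe_finsetSum, Finset.sum_apply, Finsupp.single_apply]
  rw [Finset.sum_ite_eq']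

/-- being a cover, explicitly -/
def Cov {n : ℕ} (C : Finset (Fin (n + 3))) : Prop :=
  0 ∈ C ∨ ∀ i j : Fin (n + 2), i ≠ j → i.succ ∈ C ∨ j.succ ∈ C

theorem cond_add {n s : ℕ} {m : Ex n} {C : Finset (Fin (n + 3))} (hC : Cov C) (hm : cond s m) :
    cond (s + 1) (m + ind C) := by
  classical
  by_cases h0 : 0 ∈ C
  · unfold cond at *
    simp only [Finsupp.add_apply, ind_apply, if_pos h0]
    have e : s + 1 - (m 0 + 1) = s - m 0 := by omega
    rw [e]
    refine le_trans (Finset.sum_le_sum fun j _ => ?_) hm
    omega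
  · have hC' : ∀ i j : Fin (n + 2), i ≠ j → i.succ ∈ C ∨ j.succ ∈ C := by
      rcases hC with h | h
      · exact absurd h h0
      · exact h
    unfold cond at *
    simp only [Finsupp.add_apply, ind_apply, if_neg h0, add_zero]
    by_cases hb : m 0 ≤ s
    · have e : s + 1 - m 0 = (s - m 0) + 1 := by omega
      rw [e]
      set t := s - m 0
      by_cases hall : ∀ i : Fin (n + 2), i.succ ∈ C
      · refine le_trans (Finset.sum_le_sum (g := fun j => t - m j.succ) fun j _ => ?_) (by omega)
        rw [if_pos (hall j)]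
        omega
      · push Not at hall
        obtain ⟨i, hi⟩ := hall
        have h1 : ∀ j, j ≠ i → j.succ ∈ C := by
          intro j hj
          rcases hC' j i hj with h | h
          · exact h
          · exact absurd h hi
        have h2 : ∑ j : Fin (n + 2), (t + 1 - (m j.succ + if j.succ ∈ C then 1 else 0)) ≤
            ∑ j : Fin (n + 2), ((t - m j.succ) + if j = i then 1 else 0) := by
          apply Finset.sum_le_sum
          intro j _
          by_cases hj : j = i
          · rw [if_pos hj]; omega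
          · rw [if_neg hj, if_pos (h1 j hj)]; omega
        refine h2.trans ?_
        rw [Finset.sum_add_distrib, Finset.sum_ite_eq' Finset.univ i, if_pos (Finset.mem_univ _)]
        omega
    · have e : s + 1 - m 0 = 0 := by omega
      rw [e]
      simp

theorem cond_sub {n s : ℕ} {m : Ex n} (hm : cond (s + 1) m) :
    ∃ (C : Finset (Fin (n + 3))) (m' : Ex n), Cov C ∧ cond s m' ∧ m = m' + ind C := by
  classical
  by_cases hb : 1 ≤ m 0
  · refine ⟨{0}, m - ind {0}, Or.inl (Finset.mem_singleton_self 0), ?_, ?_⟩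
    · unfold cond at *
      simp only [Finsupp.tsub_apply, ind_apply]
      have e : s - (m 0 - if (0 : Fin (n + 3)) ∈ ({0} : Finset (Fin (n + 3))) then 1 else 0) =
          s + 1 - m 0 := by simp; omega
      rw [e]
      refine le_trans (le_of_eq (Finset.sum_congr rfl fun j _ => ?_)) hm
      have : (j.succ : Fin (n + 3)) ∉ ({0} : Finset (Fin (n + 3))) := by simp
      rw [if_neg this]
      rfl
    · ext l
      simp only [Finsupp.add_apply, Finsupp.tsub_apply, ind_apply]
      by_cases hl : l = 0
      · subst hl; simp; omega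
      · have : l ∉ ({0} : Finset (Fin (n + 3))) := by simpa using hl
        rw [if_neg this]; omega
  · have hb0 : m 0 = 0 := by omega
    have hm' : ∑ j : Fin (n + 2), ((s + 1) - m j.succ) ≤ s + 1 := by
      have := hm
      unfold cond at this
      rw [hb0] at this
      simpa using this
    -- choose the omitted vertex
    have hex : ∃ i : Fin (n + 2), (∀ j, j ≠ i → 1 ≤ m j.succ) ∧
        (m i.succ ≤ s ∨ ∀ j : Fin (n + 2), s + 1 ≤ m j.succ) := by
      by_cases hz : ∃ i : Fin (n + 2), m i.succ = 0
      · obtain ⟨i, hi⟩ := hz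
        refine ⟨i, ?_, Or.inl (by omega)⟩
        intro j hj
        by_contra hcon
        have hj0 : m j.succ = 0 := by omega
        have h1 : ∑ l ∈ ({i, j} : Finset (Fin (n + 2))), ((s + 1) - m l.succ) ≤
            ∑ l : Fin (n + 2), ((s + 1) - m l.succ) :=
          Finset.sum_le_sum_of_subset (Finset.subset_univ _)
        rw [Finset.sum_pair (Ne.symm hj), hi, hj0] at h1
        omega
      · push Not at hz
        by_cases hs : ∃ i : Fin (n + 2), m i.succ ≤ s
        · obtain ⟨i, hi⟩ := hs
          exact ⟨i, fun j _ => Nat.one_le_iff_ne_zero.2 (hz j), Or.inl hi⟩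
        · push Not at hs
          exact ⟨0, fun j _ => Nat.one_le_iff_ne_zero.2 (hz j), Or.inr fun j => hs j⟩
    obtain ⟨i, hi1, hi2⟩ := hex
    let C : Finset (Fin (n + 3)) := (Finset.univ.erase 0).erase i.succ
    have hC0 : (0 : Fin (n + 3)) ∉ C := by simp [C]
    have hCi : i.succ ∉ C := by simp [C]
    have hCj : ∀ j : Fin (n + 2), j ≠ i → j.succ ∈ C := by
      intro j hj
      simp [C, hj]
    refine ⟨C, m - ind C, Or.inr ?_, ?_, ?_⟩
    · intro j l hjl
      by_cases hj : j = i
      · right; apply hCj; intro h; exact hjl (hj.trans h.symm)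
      · left; exact hCj j hj
    · unfold cond
      simp only [Finsupp.tsub_apply, ind_apply, if_neg hC0, hb0]
      simp only [Nat.sub_zero]
      rcases hi2 with h | h
      · have h2 : ∑ j : Fin (n + 2), (s - (m j.succ - if j.succ ∈ C then 1 else 0)) <
            ∑ j : Fin (n + 2), ((s + 1) - m j.succ) := by
          apply Finset.sum_lt_sum
          · intro j _
            by_cases hj : j = i
            · rw [hj, if_neg hCi]; omega
            · have := hi1 j hj
              rw [if_pos (hCj j hj)]; omega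
          · refine ⟨i, Finset.mem_univ _, ?_⟩
            rw [if_neg hCi]; omega
        omega
      · have h2 : ∑ j : Fin (n + 2), (s - (m j.succ - if j.succ ∈ C then 1 else 0)) = 0 := by
          apply Finset.sum_eq_zero
          intro j _
          have := h j
          split <;> omega
        omega
    · ext l
      simp only [Finsupp.add_apply, Finsupp.tsub_apply, ind_apply]
      by_cases hl : l ∈ C
      · rw [if_pos hl]
        have hl1 : 1 ≤ m l := by
          refine Fin.cases ?_ ?_ l (motive := fun l => l ∈ C → 1 ≤ m l) hl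
          · intro h; exact absurd h hC0
          · intro j hj
            apply hi1
            intro h; rw [h] at hj; exact hCi hj
        omega
      · rw [if_neg hl]; omega

section alg

variable {n : ℕ} {k : Type} [Field k]

/-- the ideal spanned by the monomials satisfying the condition -/
noncomputable def Q (n : ℕ) (k : Type) [Field k] (s : ℕ) : Ideal (MvPolynomial (Fin (n + 3)) k) :=
  Ideal.span ((fun m : Ex n => MvPolynomial.monomial m (1 : k)) '' {m | cond s m})

theorem mem_Q (s : ℕ) (f : MvPolynomial (Fin (n + 3)) k) :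
    f ∈ Q n k s ↔ ∀ m ∈ f.support, cond s m := by
  rw [Q, MvPolynomial.mem_ideal_span_monomial_image]
  constructor
  · intro h m hm
    obtain ⟨m', h1, h2⟩ := h m hm
    exact cond_up h2 h1
  · intro h m hm
    exact ⟨m, h m hm, le_rfl⟩

theorem prod_ind (C : Finset (Fin (n + 3))) :
    (∏ i ∈ C, (MvPolynomial.X i : MvPolynomial (Fin (n + 3)) k)) = MvPolynomial.monomial (ind C) 1 := by
  rw [ind, MvPolynomial.monomial_sum_one]
  rfl

/-- the cover ideal -/
noncomputable def JJ (n : ℕ) (k : Type) [Field k] : Ideal (MvPolynomial (Fin (n + 3)) k) :=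
  Ideal.span {p | ∃ C : Finset (Fin (n + 3)), Cov C ∧ p = ∏ i ∈ C, MvPolynomial.X i}

theorem pow_eq (s : ℕ) : (JJ n k) ^ s = Q n k s := by
  induction s with
  | zero =>
    rw [pow_zero, Ideal.one_eq_top]
    symm
    rw [Ideal.eq_top_iff_one, mem_Q]
    intro m _
    unfold cond
    simp
  | succ s ih =>
    rw [pow_succ, ih]
    apply le_antisymm
    · rw [Q, JJ, Ideal.span_mul_span', Ideal.span_le]
      rintro _ ⟨_, ⟨m, hm, rfl⟩, _, ⟨C, hC, rfl⟩, rfl⟩
      simp only [SetLike.mem_coe]
      rw [prod_ind, MvPolynomial.monomial_mul, mul_one]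
      apply Ideal.subset_span
      exact ⟨_, cond_add hC hm, rfl⟩
    · rw [Q, Ideal.span_le]
      rintro _ ⟨m, hm, rfl⟩
      obtain ⟨C, m', hC, hm', rfl⟩ := cond_sub hm
      have : (MvPolynomial.monomial (m' + ind C) (1 : k)) =
          MvPolynomial.monomial m' 1 * ∏ i ∈ C, MvPolynomial.X i := by
        rw [prod_ind, MvPolynomial.monomial_mul, mul_one]
      simp only [SetLike.mem_coe]
      rw [this]
      exact Ideal.mul_mem_mul (Ideal.subset_span ⟨m', hm', rfl⟩) (Ideal.subset_span ⟨C, hC, rfl⟩)

/-- the maximal ideal -/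
noncomputable def MM (n : ℕ) (k : Type) [Field k] : Ideal (MvPolynomial (Fin (n + 3)) k) :=
  RingHom.ker (MvPolynomial.constantCoeff : MvPolynomial (Fin (n + 3)) k →+* k)

theorem MM_max : (MM n k).IsMaximal := by
  apply RingHom.ker_isMaximal_of_surjective
  intro a
  exact ⟨MvPolynomial.C a, by simp⟩

theorem X_mem (v : Fin (n + 3)) : (MvPolynomial.X v : MvPolynomial (Fin (n + 3)) k) ∈ MM n k := by
  rw [MM, RingHom.mem_ker]
  simp

/-- saturation of the small powers -/
theorem sat {s : ℕ} (hs : s ≤ n) (m : Ex n)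
    (h : ∀ i : Fin (n + 2), ∃ q : ℕ, cond s (m + Finsupp.single i.succ q)) : cond s m := by
  classical
  unfold cond
  set t := s - m 0 with ht
  by_contra hcon
  push Not at hcon
  set S := ∑ j : Fin (n + 2), (t - m j.succ) with hS
  have h1 : ∀ i : Fin (n + 2), S ≤ t + (t - m i.succ) := by
    intro i
    obtain ⟨q, hq⟩ := h i
    unfold cond at hq
    have e0 : (m + Finsupp.single i.succ q) 0 = m 0 := by
      rw [Finsupp.add_apply, Finsupp.single_apply, if_neg (Fin.succ_ne_zero i), add_zero]
    rw [e0, ← ht] at hq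
    have h2 : S ≤ ∑ j : Fin (n + 2), ((t - (m + Finsupp.single i.succ q) j.succ) +
        if j = i then (t - m i.succ) else 0) := by
      apply Finset.sum_le_sum
      intro j _
      by_cases hj : j = i
      · rw [if_pos hj, hj]; omega
      · rw [if_neg hj, Finsupp.add_apply, Finsupp.single_apply,
          if_neg (fun h => hj (Fin.succ_injective _ h).symm)]
        omega
    rw [Finset.sum_add_distrib, Finset.sum_ite_eq' Finset.univ i, if_pos (Finset.mem_univ _)] at h2
    omega
  have h3 : ∑ i : Fin (n + 2), S ≤ ∑ i : Fin (n + 2), (t + (t - m i.succ)) :=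
    Finset.sum_le_sum fun i _ => h1 i
  rw [Finset.sum_add_distrib, ← hS, Finset.sum_const, Finset.sum_const, Finset.card_univ,
    Fintype.card_fin, smul_eq_mul, smul_eq_mul] at h3
  have h4 : t ≤ n := by omega
  nlinarith

theorem not_ass {s : ℕ} (hs : s ≤ n) :
    MM n k ∉ associatedPrimes (MvPolynomial (Fin (n + 3)) k)
      (MvPolynomial (Fin (n + 3)) k ⧸ (JJ n k) ^ s) := by
  intro hmem
  obtain ⟨hprime, x, hx⟩ := hmem
  obtain ⟨f, rfl⟩ := Ideal.Quotient.mk_surjective x
  have hf : f ∈ (JJ n k) ^ s := by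
    rw [pow_eq, mem_Q]
    intro m hm
    apply sat hs
    intro i
    have h1 : (MvPolynomial.X i.succ : MvPolynomial (Fin (n + 3)) k) ∈ MM n k := X_mem _
    rw [hx] at h1
    obtain ⟨q, hq⟩ := h1
    refine ⟨q, ?_⟩
    have h2 : (MvPolynomial.X i.succ : MvPolynomial (Fin (n + 3)) k) ^ q * f ∈ (JJ n k) ^ s := by
      rw [Submodule.mem_colon_singleton, Submodule.mem_bot] at hq
      rw [← Ideal.Quotient.eq_zero_iff_mem, map_mul]
      exact hq
    rw [pow_eq, mem_Q] at h2
    apply h2
    rw [MvPolynomial.mem_support_iff] at hm ⊢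
    rw [MvPolynomial.X_pow_eq_monomial,
      show m + Finsupp.single i.succ q = Finsupp.single i.succ q + m from add_comm _ _,
      MvPolynomial.coeff_monomial_mul, one_mul]
    exact hm
  have h0 : (Ideal.Quotient.mk ((JJ n k) ^ s)) f = 0 := Ideal.Quotient.eq_zero_iff_mem.2 hf
  apply (MM_max (n := n) (k := k)).ne_top
  rw [hx, h0, Ideal.eq_top_iff_one]
  apply Ideal.le_radical
  rw [Submodule.mem_colon_singleton, Submodule.mem_bot, smul_zero]

/-- the exponent of the socle element -/
noncomputable def FF (n : ℕ) : Ex n := Finsupp.equivFunOnFinite.symm (Fin.cons 0 (fun _ => n))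

theorem FF_zero : FF n 0 = 0 := rfl
theorem FF_succ (j : Fin (n + 2)) : FF n j.succ = n := rfl

theorem FF_not : ¬ cond (n + 1) (FF n) := by
  unfold cond
  rw [FF_zero]
  simp only [FF_succ]
  simp

theorem FF_add (v : Fin (n + 3)) : cond (n + 1) (FF n + Finsupp.single v 1) := by
  classical
  unfold cond
  refine Fin.cases ?_ ?_ v
  · rw [Finsupp.add_apply, Finsupp.single_eq_same, FF_zero]
    have : ∀ j : Fin (n + 2), (n + 1 - (0 + 1) - (FF n + Finsupp.single 0 1 : Ex n) j.succ) = 0 := by
      intro j
      rw [Finsupp.add_apply, FF_succ]; omega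
    simp only [this]
    simp
  · intro i
    have e0 : (FF n + Finsupp.single i.succ 1 : Ex n) 0 = 0 := by
      rw [Finsupp.add_apply, Finsupp.single_apply, if_neg (Fin.succ_ne_zero i), FF_zero, add_zero]
    rw [e0]
    have : ∀ j : Fin (n + 2), (n + 1 - 0 - (FF n + Finsupp.single i.succ 1 : Ex n) j.succ) =
        if j = i then 0 else 1 := by
      intro j
      rw [Finsupp.add_apply, FF_succ, Finsupp.single_apply]
      by_cases hj : j = i
      · rw [if_pos hj, if_pos (by rw [hj])]; omega
      · rw [if_neg hj, if_neg (fun h => hj (Fin.succ_injective _ h).symm)]; omega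
    simp only [this]
    rw [Finset.sum_ite, Finset.sum_const_zero, zero_add, Finset.sum_const, smul_eq_mul, mul_one]
    have hc : (Finset.univ.filter (fun j : Fin (n + 2) => ¬ j = i)).card = n + 1 := by
      rw [Finset.filter_not, Finset.filter_eq', if_pos (Finset.mem_univ _),
        Finset.card_sdiff_of_subset (Finset.subset_univ _)]
      simp
    rw [hc]
    omega

theorem ass : MM n k ∈ associatedPrimes (MvPolynomial (Fin (n + 3)) k)
    (MvPolynomial (Fin (n + 3)) k ⧸ (JJ n k) ^ (n + 1)) := by
  have hmax := MM_max (n := n) (k := k)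
  refine ⟨hmax.isPrime, Ideal.Quotient.mk _ (MvPolynomial.monomial (FF n) (1 : k)), ?_⟩
  have hle : MM n k ≤ Submodule.colon (⊥ : Submodule (MvPolynomial (Fin (n + 3)) k)
      (MvPolynomial (Fin (n + 3)) k ⧸ (JJ n k) ^ (n + 1)))
      {Ideal.Quotient.mk _ (MvPolynomial.monomial (FF n) (1 : k))} := by
    intro g hg
    rw [Submodule.mem_colon_singleton, Submodule.mem_bot]
    change (Ideal.Quotient.mk ((JJ n k) ^ (n + 1))) (g * MvPolynomial.monomial (FF n) (1 : k)) = 0
    rw [Ideal.Quotient.eq_zero_iff_mem, pow_eq, mem_Q]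
    intro m hm
    rw [MvPolynomial.mem_support_iff, MvPolynomial.coeff_mul_monomial'] at hm
    split at hm
    · rename_i hle
      rw [mul_one] at hm
      have hne : m - FF n ≠ 0 := by
        intro h0
        rw [h0] at hm
        apply hm
        rw [MM, RingHom.mem_ker] at hg
        exact hg
      obtain ⟨v, hv⟩ := Finsupp.ne_iff.1 hne
      have hv1 : 1 ≤ (m - FF n) v := Nat.one_le_iff_ne_zero.2 (by simpa using hv)
      refine cond_up ?_ (FF_add v)
      intro l
      have hl := hle l
      rw [Finsupp.add_apply, Finsupp.single_apply]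
      by_cases hlv : v = l
      · rw [if_pos hlv]
        rw [hlv, Finsupp.tsub_apply] at hv1
        omega
      · rw [if_neg hlv]; omega
    · exact absurd rfl hm
  have hne : Submodule.colon (⊥ : Submodule (MvPolynomial (Fin (n + 3)) k)
      (MvPolynomial (Fin (n + 3)) k ⧸ (JJ n k) ^ (n + 1)))
      {Ideal.Quotient.mk _ (MvPolynomial.monomial (FF n) (1 : k))} ≠ ⊤ := by
    intro h
    rw [Ideal.eq_top_iff_one, Submodule.mem_colon_singleton, Submodule.mem_bot, one_smul,
      Ideal.Quotient.eq_zero_iff_mem, pow_eq, mem_Q] at h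
    apply FF_not (n := n)
    apply h
    rw [MvPolynomial.mem_support_iff, MvPolynomial.coeff_monomial, if_pos rfl]
    exact one_ne_zero
  rw [← hmax.eq_of_le hne hle]
  exact hmax.isPrime.radical.symm

end alg

/-- the edges -/
def EE (n : ℕ) : Finset (Finset (Fin (n + 3))) :=
  ((Finset.univ : Finset (Fin (n + 2) × Fin (n + 2))).filter (fun p => p.1 ≠ p.2)).image
    (fun p => {0, p.1.succ, p.2.succ})

theorem mem_EE {n : ℕ} (e : Finset (Fin (n + 3))) :
    e ∈ EE n ↔ ∃ i j : Fin (n + 2), i ≠ j ∧ e = {0, i.succ, j.succ} := by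
  simp only [EE, Finset.mem_image, Finset.mem_filter, Finset.mem_univ, true_and, Prod.exists]
  constructor
  · rintro ⟨i, j, h, rfl⟩; exact ⟨i, j, h, rfl⟩
  · rintro ⟨i, j, h, rfl⟩; exact ⟨i, j, h, rfl⟩

theorem card_EE {n : ℕ} (e : Finset (Fin (n + 3))) (he : e ∈ EE n) : e.card = 3 := by
  obtain ⟨i, j, h, rfl⟩ := (mem_EE e).1 he
  rw [Finset.card_eq_three]
  exact ⟨0, i.succ, j.succ, (Fin.succ_ne_zero i).symm, (Fin.succ_ne_zero j).symm,
    fun hh => h (Fin.succ_injective _ hh), rfl⟩

theorem cov_iff {n : ℕ} (C : Finset (Fin (n + 3))) :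
    (∀ e ∈ EE n, (e ∩ C).Nonempty) ↔ Cov C := by
  constructor
  · intro h
    by_cases h0 : (0 : Fin (n + 3)) ∈ C
    · left; exact h0
    · right
      intro i j hij
      obtain ⟨x, hx⟩ := h _ ((mem_EE _).2 ⟨i, j, hij, rfl⟩)
      rw [Finset.mem_inter] at hx
      simp only [Finset.mem_insert, Finset.mem_singleton] at hx
      obtain ⟨hx1 | hx1 | hx1, hx2⟩ := hx
      · rw [hx1] at hx2; exact absurd hx2 h0
      · rw [hx1] at hx2; exact Or.inl hx2
      · rw [hx1] at hx2; exact Or.inr hx2
  · rintro (h | h) e he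
    · obtain ⟨i, j, hij, rfl⟩ := (mem_EE e).1 he
      exact ⟨0, by simp [h]⟩
    · obtain ⟨i, j, hij, rfl⟩ := (mem_EE e).1 he
      rcases h i j hij with h' | h'
      · exact ⟨i.succ, by simp [h']⟩
      · exact ⟨j.succ, by simp [h']⟩

/-- For every n there is a simple hypergraph (edges of size at least 2, pairwise incomparable) whose cover ideal, over any field, has associated-prime stabilization index at least chromatic number minus 1 plus n. -/
theorem result :
    ∀ n : ℕ, ∃ r : ℕ, ∃ E : Finset (Finset (Fin r)),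
      (∀ e ∈ E, 2 ≤ e.card) ∧
      (∀ e ∈ E, ∀ f ∈ E, e ⊆ f → e = f) ∧
      ∀ (k : Type) [Field k], ∀ J : Ideal (MvPolynomial (Fin r) k),
        J = Ideal.span {p : MvPolynomial (Fin r) k | ∃ C : Finset (Fin r),
              (∀ e ∈ E, (e ∩ C).Nonempty) ∧ p = ∏ i ∈ C, MvPolynomial.X i} →
        ∀ s : ℕ, 1 ≤ s →
          s < sInf {c : ℕ | ∃ col : Fin r → Fin c,
                    ∀ e ∈ E, ∃ u ∈ e, ∃ v ∈ e, col u ≠ col v} - 1 + n →
          ∃ m : ℕ, s ≤ m ∧
            associatedPrimes (MvPolynomial (Fin r) k) (MvPolynomial (Fin r) k ⧸ J ^ m) ≠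
            associatedPrimes (MvPolynomial (Fin r) k) (MvPolynomial (Fin r) k ⧸ J ^ s) := by
  intro n
  refine ⟨n + 3, EE n, ?_, ?_, ?_⟩
  · intro e he
    rw [card_EE e he]; norm_num
  · intro e he f hf hef
    exact Finset.eq_of_subset_of_card_le hef (by rw [card_EE e he, card_EE f hf])
  · intro k _ J hJ s hs1 hs
    have hJ' : J = JJ n k := by
      rw [hJ, JJ]
      congr 1
      ext p
      constructor
      · rintro ⟨C, hC, rfl⟩; exact ⟨C, (cov_iff C).1 hC, rfl⟩
      · rintro ⟨C, hC, rfl⟩; exact ⟨C, (cov_iff C).2 hC, rfl⟩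
    have h2 : sInf {c : ℕ | ∃ col : Fin (n + 3) → Fin c,
                    ∀ e ∈ EE n, ∃ u ∈ e, ∃ v ∈ e, col u ≠ col v} ≤ 2 := by
      apply Nat.sInf_le
      refine ⟨Fin.cons 0 (fun _ => 1), ?_⟩
      intro e he
      obtain ⟨i, j, hij, rfl⟩ := (mem_EE e).1 he
      refine ⟨0, by simp, i.succ, by simp, ?_⟩
      simp
    have hsn : s ≤ n := by omega
    refine ⟨n + 1, by omega, ?_⟩
    intro heq
    rw [hJ'] at heq
    have h3 := ass (n := n) (k := k)
    rw [heq] at h3
    exact not_ass hsn h3

end Pool.Agent.S01543
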