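import Pool.Statements.S01696
-- import your own Pool.Agent.* helpers here

set_option autoImplicit false
open Pool Pool.MP_a19302_al

namespace Pool.Agent.S01696

/-- position `i` of the word `u_n = (y x^n)^(2n)` carries the letter `y` -/
def IsY (n i : ℕ) : Prop := i < 2 * n * (n + 1) ∧ i % (n + 1) = 0
/-- position `i` of the word `u_n = (y x^n)^(2n)` carries the letter `x` -/
def IsX (n i : ℕ) : Prop := i < 2 * n * (n + 1) ∧ i % (n + 1) ≠ 0

instance (n i : ℕ) : Decidable (IsY n i) := by unfold IsY; infer_instance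
instance (n i : ℕ) : Decidable (IsX n i) := by unfold IsX; infer_instance

abbrev M : Type := ℕ → ℕ → ℚ
abbrev E : Type := Module.End ℚ M

/-- the operator given by the letter `x` -/
def opX : E where
  toFun f := fun n i => if IsX n i then f n (i + 1) else 0
  map_add' f g := by
    funext n i
    by_cases h : IsX n i <;> simp [h]
  map_smul' c f := by
    funext n i
    by_cases h : IsX n i <;> simp [h]

/-- the operator given by the letter `y` -/
def opY : E where
  toFun f := fun n i => if IsY n i then f n (i + 1) else 0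
  map_add' f g := by
    funext n i
    by_cases h : IsY n i <;> simp [h]
  map_smul' c f := by
    funext n i
    by_cases h : IsY n i <;> simp [h]

theorem opX_apply (f : M) (n i : ℕ) : opX f n i = if IsX n i then f n (i + 1) else 0 := rfl
theorem opY_apply (f : M) (n i : ℕ) : opY f n i = if IsY n i then f n (i + 1) else 0 := rfl

theorem opX_pow_zero (r : ℕ) : ∀ (f : M) (m i : ℕ), (∃ j < r, ¬ IsX m (i + j)) →
    (opX ^ r) f m i = 0 := by
  induction r with
  | zero => rintro f m i ⟨j, hj, _⟩; omega
  | succ r ih =>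
    rintro f m i ⟨j, hj, hn⟩
    rw [pow_succ', Module.End.mul_apply, opX_apply]
    split_ifs with h
    · rcases Nat.eq_zero_or_pos j with hj0 | hj0
      · subst hj0
        exact absurd h (by simpa using hn)
      · apply ih
        refine ⟨j - 1, by omega, ?_⟩
        have : i + 1 + (j - 1) = i + j := by omega
        rw [this]; exact hn
    · rfl

theorem opX_pow_eq (r : ℕ) : ∀ (f : M) (m i : ℕ), (∀ j < r, IsX m (i + j)) →
    (opX ^ r) f m i = f m (i + r) := by
  induction r with
  | zero => intro f m i _; rfl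
  | succ r ih =>
    intro f m i h
    rw [pow_succ', Module.End.mul_apply, opX_apply, if_pos (by simpa using h 0 (by omega)), ih]
    · congr 1; omega
    · intro j hj
      have := h (j + 1) (by omega)
      have e : i + 1 + j = i + (j + 1) := by omega
      rw [e]; exact this

theorem key (n m : ℕ) (hnm : m ≠ n) (f : M) (i : ℕ) :
    (opY * opX ^ n * opY) f m i = 0 := by
  rw [Module.End.mul_apply, Module.End.mul_apply, opY_apply]
  split_ifs with hY
  · by_cases hall : ∀ j < n, IsX m (i + 1 + j)
    · rw [opX_pow_eq n _ m (i + 1) hall, opY_apply]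
      rw [if_neg]
      rintro ⟨_, h2⟩
      obtain ⟨_, h0⟩ := hY
      rcases lt_or_gt_of_ne hnm with h | h
      · have := (hall m h).2
        apply this
        have e : i + 1 + m = i + (m + 1) := by omega
        rw [e, Nat.add_mod_right, h0]
      · have e : i + 1 + n = i + (n + 1) := by omega
        rw [e, Nat.add_mod, h0, zero_add, Nat.mod_mod, Nat.mod_eq_of_lt (by omega)] at h2
        omega
    · push Not at hall
      exact opX_pow_zero n _ m (i + 1) hall
  · rfl

/-- the algebra -/
abbrev A : Subalgebra ℚ E := Algebra.adjoin ℚ ({opX, opY} : Set E)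

def x : A := ⟨opX, Algebra.subset_adjoin (by simp)⟩
def y : A := ⟨opY, Algebra.subset_adjoin (by simp)⟩

/-- elements of `A` do not move supports to the right -/
theorem supp (a : E) (ha : a ∈ A) : ∀ (f : M) (m t : ℕ), (∀ i, t ≤ i → f m i = 0) →
    ∀ i, t ≤ i → a f m i = 0 := by
  induction ha using Algebra.adjoin_induction with
  | mem z hz =>
    intro f m t hf i hi
    rcases hz with rfl | rfl
    · rw [opX_apply]; split_ifs
      · exact hf _ (by omega)
      · rfl
    · rw [opY_apply]; split_ifs
      · exact hf _ (by omega)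
      · rfl
  | algebraMap r =>
    intro f m t hf i hi
    rw [Module.algebraMap_end_apply]
    simp [hf i hi]
  | add a b _ _ h1 h2 =>
    intro f m t hf i hi
    simp only [LinearMap.add_apply, Pi.add_apply]
    rw [h1 f m t hf i hi, h2 f m t hf i hi, add_zero]
  | mul a b _ _ h1 h2 =>
    intro f m t hf i hi
    rw [Module.End.mul_apply]
    exact h1 _ m t (h2 f m t hf) i hi

/-- the carrier of the `n`-th nilpotent ideal -/
def carr (n : ℕ) : Set A := {a | (∀ (f : M) (m : ℕ), m ≠ n → ∀ i, (a : E) f m i = 0) ∧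
  (∀ (f : M) (i : ℕ), 2 * n * (n + 1) ≤ i → (a : E) f n i = 0) ∧
  (∀ (f : M) (t : ℕ), (∀ i, t + 1 ≤ i → f n i = 0) → ∀ i, t ≤ i → (a : E) f n i = 0)}

/-- the `n`-th nilpotent ideal -/
def I (n : ℕ) : TwoSidedIdeal A := TwoSidedIdeal.mk' (carr n)
  (by
    refine ⟨?_, ?_, ?_⟩ <;> intros <;> simp)
  (by
    rintro a b ⟨a1, a2, a3⟩ ⟨b1, b2, b3⟩
    refine ⟨?_, ?_, ?_⟩
    · intro f m hm i
      simp only [Subalgebra.coe_add, LinearMap.add_apply, Pi.add_apply]
      rw [a1 f m hm i, b1 f m hm i, add_zero]
    · intro f i hi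
      simp only [Subalgebra.coe_add, LinearMap.add_apply, Pi.add_apply]
      rw [a2 f i hi, b2 f i hi, add_zero]
    · intro f t hf i hi
      simp only [Subalgebra.coe_add, LinearMap.add_apply, Pi.add_apply]
      rw [a3 f t hf i hi, b3 f t hf i hi, add_zero])
  (by
    rintro a ⟨a1, a2, a3⟩
    refine ⟨?_, ?_, ?_⟩
    · intro f m hm i
      simp only [NegMemClass.coe_neg, LinearMap.neg_apply, Pi.neg_apply]
      rw [a1 f m hm i, neg_zero]
    · intro f i hi
      simp only [NegMemClass.coe_neg, LinearMap.neg_apply, Pi.neg_apply]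
      rw [a2 f i hi, neg_zero]
    · intro f t hf i hi
      simp only [NegMemClass.coe_neg, LinearMap.neg_apply, Pi.neg_apply]
      rw [a3 f t hf i hi, neg_zero])
  (by
    rintro b a ⟨a1, a2, a3⟩
    refine ⟨?_, ?_, ?_⟩
    · intro f m hm i
      rw [Subalgebra.coe_mul, Module.End.mul_apply]
      exact supp b b.2 _ m 0 (fun i _ => a1 f m hm i) i (Nat.zero_le _)
    · intro f i hi
      rw [Subalgebra.coe_mul, Module.End.mul_apply]
      exact supp b b.2 _ n _ (fun i hi => a2 f i hi) i hi
    · intro f t hf i hi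
      rw [Subalgebra.coe_mul, Module.End.mul_apply]
      exact supp b b.2 _ n _ (a3 f t hf) i hi)
  (by
    rintro a b ⟨a1, a2, a3⟩
    refine ⟨?_, ?_, ?_⟩
    · intro f m hm i
      rw [Subalgebra.coe_mul, Module.End.mul_apply]
      exact a1 _ m hm i
    · intro f i hi
      rw [Subalgebra.coe_mul, Module.End.mul_apply]
      exact a2 _ i hi
    · intro f t hf i hi
      rw [Subalgebra.coe_mul, Module.End.mul_apply]
      exact a3 _ t (supp b b.2 _ n _ hf) i hi)

theorem mem_I (n : ℕ) (a : A) : a ∈ I n ↔ a ∈ carr n := by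
  unfold I
  exact TwoSidedIdeal.mem_mk' _ _ _ _ _ _ _

theorem list_zero (n : ℕ) (l : List A) (hl : ∀ a ∈ l, a ∈ carr n) (hne : l ≠ []) (f : M) :
    ∀ i, 2 * n * (n + 1) + 1 ≤ i + l.length → ((l.prod : A) : E) f n i = 0 := by
  induction l with
  | nil => exact absurd rfl hne
  | cons a l ih =>
    intro i hi
    obtain ⟨a1, a2, a3⟩ := hl a (by simp)
    rcases l with _ | ⟨b, l⟩
    · simp only [List.prod_cons, List.prod_nil, mul_one]
      simp only [List.length_cons, List.length_nil] at hi
      exact a2 f i (by omega)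
    · rw [List.prod_cons, Subalgebra.coe_mul, Module.End.mul_apply]
      refine a3 _ i ?_ i le_rfl
      intro i' hi'
      refine ih (fun c hc => hl c (List.mem_cons_of_mem _ hc)) (by simp) i' ?_
      rw [List.length_cons] at hi
      omega

theorem I_nilp (n : ℕ) : ∃ m : ℕ, ∀ f : Fin m → A, (∀ i, f i ∈ I n) → (List.ofFn f).prod = 0 := by
  refine ⟨2 * n * (n + 1) + 1, fun f hf => ?_⟩
  have hl : ∀ a ∈ List.ofFn f, a ∈ carr n := by
    intro a ha
    rw [List.mem_ofFn] at ha
    obtain ⟨i, rfl⟩ := ha
    exact (mem_I n _).1 (hf i)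
  have hne : List.ofFn f ≠ [] := by
    intro h
    have := congrArg List.length h
    simp at this
  apply Subtype.ext
  apply LinearMap.ext
  intro g
  funext m i
  by_cases hm : m = n
  · subst hm
    rw [list_zero m _ hl hne g i (by rw [List.length_ofFn]; omega)]
    rfl
  · have hcons : ∃ a l, List.ofFn f = a :: l := List.exists_cons_of_ne_nil hne
    obtain ⟨a, l, hal⟩ := hcons
    rw [hal, List.prod_cons, Subalgebra.coe_mul, Module.End.mul_apply]
    have ha : a ∈ carr n := hl a (by rw [hal]; simp)
    rw [ha.1 _ m hm i]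
    rfl

theorem elt_mem (n : ℕ) : y * x ^ n * y * x ^ n ∈ carr n := by
  refine ⟨?_, ?_, ?_⟩
  · intro f m hm i
    have := key n m hm ((opX ^ n) f) i
    simpa [x, y] using this
  · intro f i hi
    have : ((y * x ^ n * y * x ^ n : A) : E) f n i = opY ((opX ^ n * opY * opX ^ n) f) n i := by
      simp [x, y, mul_assoc]
    rw [this, opY_apply, if_neg]
    rintro ⟨h, _⟩
    omega
  · intro f t hf i hi
    have : ((y * x ^ n * y * x ^ n : A) : E) f n i =
        opY (((x ^ n * y * x ^ n : A) : E) f) n i := by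
      simp [x, y, mul_assoc]
    rw [this, opY_apply]
    split_ifs
    · exact supp _ (x ^ n * y * x ^ n : A).2 _ n _ hf _ (by omega)
    · rfl

theorem yx_pow (n j : ℕ) : ∀ (q : ℕ), q + j ≤ 2 * n → ∀ f : M,
    ((opY * opX ^ n) ^ j) f n (q * (n + 1)) = f n ((q + j) * (n + 1)) := by
  induction j with
  | zero => intro q _ f; rfl
  | succ j ih =>
    intro q hq f
    have hlt : (q + 1) * (n + 1) ≤ 2 * n * (n + 1) := Nat.mul_le_mul_right _ (by omega)
    have hlt' : q * (n + 1) + n + 1 ≤ 2 * n * (n + 1) := by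
      calc q * (n + 1) + n + 1 = (q + 1) * (n + 1) := by ring
        _ ≤ _ := hlt
    rw [pow_succ', Module.End.mul_apply, Module.End.mul_apply, opY_apply, if_pos, opX_pow_eq]
    · have e : q * (n + 1) + 1 + n = (q + 1) * (n + 1) := by ring
      rw [e, ih (q + 1) (by omega)]
      congr 2; omega
    · intro j' hj'
      refine ⟨by omega, ?_⟩
      have e : q * (n + 1) + 1 + j' = (1 + j') + q * (n + 1) := by ring
      rw [e, Nat.add_mul_mod_self_right, Nat.mod_eq_of_lt (by omega)]
      omega
    · refine ⟨by omega, ?_⟩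
      exact Nat.mul_mod_left _ _

theorem elt_pow_ne (n : ℕ) : (y * x ^ n * y * x ^ n) ^ n ≠ 0 := by
  intro h
  have h1 : (opY * opX ^ n) ^ (2 * n) = (0 : E) := by
    have := congrArg (fun a : A => (a : E)) h
    simp only [Subalgebra.coe_pow, Subalgebra.coe_mul, x, y, ZeroMemClass.coe_zero] at this
    rw [pow_mul, pow_two]
    simpa [mul_assoc] using this
  have h2 := yx_pow n (2 * n) 0 (by omega) (fun _ _ => 1)
  rw [h1] at h2
  simp at h2

theorem adjoin_top : Algebra.adjoin ℚ ({x, y} : Set A) = ⊤ := by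
  have h := Algebra.adjoin_adjoin_coe_preimage (R := ℚ) (s := ({opX, opY} : Set E))
  rw [← h]
  congr 1
  ext z
  simp only [Set.mem_insert_iff, Set.mem_singleton_iff, Set.mem_preimage]
  constructor
  · rintro (rfl | rfl)
    · left; rfl
    · right; rfl
  · rintro (h | h)
    · left; exact Subtype.ext h
    · right; exact Subtype.ext h

theorem rel_zero (n b : ℕ) (h : n ≠ b) : y * x ^ n * y * x ^ b * y = 0 := by
  apply Subtype.ext
  apply LinearMap.ext
  intro f
  funext m i
  have e1 : ((y * x ^ n * y * x ^ b * y : A) : E) f m i =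
      (opY * opX ^ n * opY) ((opX ^ b * opY) f) m i := by
    simp [x, y, mul_assoc]
  have e2 : ((y * x ^ n * y * x ^ b * y : A) : E) f m i =
      ((y * x ^ n : A) : E) ((opY * opX ^ b * opY) f) m i := by
    simp [x, y, mul_assoc]
  by_cases hm : m = n
  · rw [e2]
    have := supp _ (y * x ^ n : A).2 ((opY * opX ^ b * opY) f) m 0
      (fun i _ => key b m (by omega) f i) i (Nat.zero_le _)
    rw [this]; rfl
  · rw [e1, key n m hm]; rfl

section Generic

variable {B : Type} [Ring B] [Algebra ℚ B]

/-- spanning monomials -/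
def Q (x y : B) (p : ℕ × ℕ × ℕ × ℕ) : B :=
  x ^ p.1 * y * (x ^ p.2.1 * y) ^ p.2.2.1 * x ^ p.2.2.2

open Classical in
noncomputable def S (x y : B) (m : ℕ) : Finset B :=
  (Finset.range (m + 1)).image (fun a => x ^ a) ∪
  (Finset.range (m + 1) ×ˢ Finset.range (m + 1) ×ˢ Finset.range (m + 1) ×ˢ
    Finset.range (m + 1)).image (Q x y)

open Classical in
theorem S_card (x y : B) (m : ℕ) : (S x y m).card ≤ 2 * (m + 1) ^ 4 := by
  unfold S
  refine (Finset.card_union_le _ _).trans ?_
  have h1 := Finset.card_image_le (s := Finset.range (m + 1)) (f := fun a => x ^ a)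
  have h2 := Finset.card_image_le (s := (Finset.range (m + 1) ×ˢ Finset.range (m + 1) ×ˢ
    Finset.range (m + 1) ×ˢ Finset.range (m + 1))) (f := Q x y)
  simp only [Finset.card_product, Finset.card_range] at h1 h2
  have h3 : (m + 1) ≤ (m + 1) ^ 4 := Nat.le_self_pow (by norm_num) _
  have h4 : (m + 1) * ((m + 1) * ((m + 1) * (m + 1))) = (m + 1) ^ 4 := by ring
  omega

open Classical in
theorem mem_S_x (x y : B) (m a : ℕ) (h : a ≤ m) : x ^ a ∈ S x y m := by
  unfold S
  rw [Finset.mem_union]
  left
  exact Finset.mem_image_of_mem _ (by simp; omega)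

open Classical in
theorem mem_S_Q (x y : B) (m a n j b : ℕ) (h1 : a ≤ m) (h2 : n ≤ m) (h3 : j ≤ m) (h4 : b ≤ m) :
    x ^ a * y * (x ^ n * y) ^ j * x ^ b ∈ S x y m := by
  unfold S
  rw [Finset.mem_union]
  right
  rw [Finset.mem_image]
  refine ⟨(a, n, j, b), ?_, rfl⟩
  simp only [Finset.mem_product, Finset.mem_range]
  omega

theorem comm_pow (x y : B) (n j : ℕ) : y * (x ^ n * y) ^ j = (y * x ^ n) ^ j * y := by
  induction j with
  | zero => simp
  | succ j ih => rw [pow_succ, ← mul_assoc, ih, pow_succ]; simp only [mul_assoc]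

open Classical in
theorem step (x y : B) (rel : ∀ n b : ℕ, n ≠ b → y * x ^ n * y * x ^ b * y = 0)
    (m : ℕ) (s : B) (hs : s ∈ S x y m) (g : B) (hg : g = 1 ∨ g = x ∨ g = y) :
    s * g ∈ Submodule.span ℚ (S x y (m + 1) : Set B) := by
  unfold S at hs
  rw [Finset.mem_union, Finset.mem_image, Finset.mem_image] at hs
  rcases hs with ⟨a, ha, rfl⟩ | ⟨⟨a, n, j, b⟩, hp, rfl⟩
  · rw [Finset.mem_range] at ha
    rcases hg with rfl | rfl | rfl
    · rw [mul_one]
      exact Submodule.subset_span (mem_S_x _ _ _ _ (by omega))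
    · rw [← pow_succ]
      exact Submodule.subset_span (mem_S_x _ _ _ _ (by omega))
    · have := mem_S_Q x g (m + 1) a 0 0 0 (by omega) (by omega) (by omega) (by omega)
      simp only [pow_zero, mul_one] at this
      exact Submodule.subset_span this
  · simp only [Finset.mem_product, Finset.mem_range] at hp
    obtain ⟨h1, h2, h3, h4⟩ := hp
    simp only [Q]
    rcases hg with hg | hg | hg
    · rw [hg, mul_one]
      exact Submodule.subset_span (mem_S_Q _ _ _ _ _ _ _ (by omega) (by omega) (by omega) (by omega))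
    · rw [hg, mul_assoc, ← pow_succ]
      exact Submodule.subset_span (mem_S_Q _ _ _ _ _ _ _ (by omega) (by omega) (by omega) (by omega))
    · rw [hg]
      rcases Nat.eq_zero_or_pos j with hj | hj
      · subst hj
        have := mem_S_Q x y (m + 1) a b 1 0 (by omega) (by omega) (by omega) (by omega)
        simp only [pow_zero, mul_one, pow_one] at this
        rw [pow_zero, mul_one, mul_assoc]
        exact Submodule.subset_span this
      · by_cases hb : n = b
        · subst hb
          have := mem_S_Q x y (m + 1) a n (j + 1) 0 (by omega) (by omega) (by omega) (by omega)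
          rw [pow_zero, mul_one, pow_succ] at this
          have e : x ^ a * y * (x ^ n * y) ^ j * x ^ n * y =
            x ^ a * y * ((x ^ n * y) ^ j * (x ^ n * y)) := by simp only [mul_assoc]
          rw [e]
          exact Submodule.subset_span this
        · obtain ⟨j', rfl⟩ : ∃ j', j = j' + 1 := ⟨j - 1, by omega⟩
          have e : x ^ a * y * (x ^ n * y) ^ (j' + 1) * x ^ b * y =
            x ^ a * (y * x ^ n) ^ j' * (y * x ^ n * y * x ^ b * y) := by
            have : x ^ a * y * (x ^ n * y) ^ (j' + 1) * x ^ b * y =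
              x ^ a * (y * (x ^ n * y) ^ j') * (x ^ n * y) * x ^ b * y := by
              rw [pow_succ]; simp only [mul_assoc]
            rw [this, comm_pow]; simp only [mul_assoc]
          rw [e, rel n b hb, mul_zero]
          exact Submodule.zero_mem _

theorem V_pow_le (x y : B) (rel : ∀ n b : ℕ, n ≠ b → y * x ^ n * y * x ^ b * y = 0) (m : ℕ) :
    (Submodule.span ℚ ({1, x, y} : Set B)) ^ m ≤ Submodule.span ℚ (S x y m : Set B) := by
  induction m with
  | zero =>
    rw [pow_zero, Submodule.one_eq_span, Submodule.span_le]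
    rintro z rfl
    have := mem_S_x x y 0 0 le_rfl
    rw [pow_zero] at this
    exact Submodule.subset_span this
  | succ m ih =>
    rw [pow_succ]
    refine (mul_le_mul' ih le_rfl).trans ?_
    rw [Submodule.span_mul_span, Submodule.span_le]
    rintro z hz
    rw [Set.mem_mul] at hz
    obtain ⟨s, hs, g, hg, rfl⟩ := hz
    exact step x y rel m s hs g (by simpa using hg)

theorem growth (x y : B) (rel : ∀ n b : ℕ, n ≠ b → y * x ^ n * y * x ^ b * y = 0)
    (htop : Algebra.adjoin ℚ ({x, y} : Set B) = ⊤) :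
    Algebra.FiniteType ℚ B ∧
    ∃ V : Submodule ℚ B, FiniteDimensional ℚ V ∧ (1 : B) ∈ V ∧
      Algebra.adjoin ℚ (V : Set B) = ⊤ ∧
      ∃ C d : ℕ, ∀ n : ℕ, Module.finrank ℚ ↥(V ^ n) ≤ C * (n + 1) ^ d := by
  refine ⟨⟨Subalgebra.fg_def.2 ⟨{x, y}, Set.toFinite _, htop⟩⟩,
    Submodule.span ℚ ({1, x, y} : Set B), ?_, ?_, ?_, 2, 4, ?_⟩
  · exact FiniteDimensional.span_of_finite ℚ (Set.toFinite _)
  · exact Submodule.subset_span (by simp)
  · rw [← top_le_iff, ← htop]
    apply Algebra.adjoin_mono
    intro z hz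
    apply Submodule.subset_span
    simp only [Set.mem_insert_iff, Set.mem_singleton_iff] at hz ⊢
    tauto
  · intro n
    have : Module.Finite ℚ (Submodule.span ℚ (S x y n : Set B)) :=
      FiniteDimensional.span_finset ℚ _
    exact (Submodule.finrank_mono (V_pow_le x y rel n)).trans
      ((finrank_span_finset_le_card (S x y n)).trans (S_card x y n))

end Generic

/-- The negation of the preceding statement: Every finitely generated associative algebra over a field with polynomially bounded growth (finite GK dimension) has a nilpotent two-sided ideal containing every nilpotent two-sided ideal. -/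
theorem result :
    ¬ (∀ (k : Type) [Field k] (A : Type) [Ring A] [Algebra k A],
      Algebra.FiniteType k A →
      (∃ V : Submodule k A, FiniteDimensional k V ∧ (1 : A) ∈ V ∧
          Algebra.adjoin k (V : Set A) = ⊤ ∧
          ∃ C d : ℕ, ∀ n : ℕ, Module.finrank k ↥(V ^ n) ≤ C * (n + 1) ^ d) →
      ∃ N : TwoSidedIdeal A,
        (∃ m : ℕ, ∀ f : Fin m → A, (∀ i, f i ∈ N) → (List.ofFn f).prod = 0) ∧
        ∀ I : TwoSidedIdeal A,
          (∃ m : ℕ, ∀ f : Fin m → A, (∀ i, f i ∈ I) → (List.ofFn f).prod = 0) → I ≤ N) := by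
  intro H
  obtain ⟨hft, hV⟩ := growth (B := A) x y rel_zero adjoin_top
  have hmain := H ℚ A hft hV
  obtain ⟨N, ⟨m, hm⟩, hN⟩ := hmain
  have h1 : y * x ^ m * y * x ^ m ∈ N :=
    hN (I m) (I_nilp m) ((mem_I m _).2 (elt_mem m))
  have h2 := hm (fun _ => y * x ^ m * y * x ^ m) (fun _ => h1)
  rw [List.ofFn_const, List.prod_replicate] at h2
  exact elt_pow_ne m h2

end Pool.Agent.S01696
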