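import Pool.Statements.S01862
-- import your own Pool.Agent.* helpers here

set_option autoImplicit false
open Pool Pool.MP_b39e30_al

namespace Pool.Agent.S01862

open scoped commutatorElement

section gen
variable {A : Type} [CommRing A] (ε : A →+* ZMod 3)

def GG : Subgroup (Matrix.SpecialLinearGroup (Fin 2) A) where
  carrier := {x | ε (x.1 0 0) = 1 ∧ ε (x.1 1 0) = 0 ∧ ε (x.1 1 1) = 1}
  one_mem' := by simp
  mul_mem' := by
    rintro a b ⟨ha1, ha2, ha3⟩ ⟨hb1, hb2, hb3⟩
    refine ⟨?_, ?_, ?_⟩ <;>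
      simp [Matrix.mul_apply, Fin.sum_univ_two, ha1, ha2, ha3, hb1, hb2, hb3]
  inv_mem' := by
    rintro a ⟨ha1, ha2, ha3⟩
    refine ⟨?_, ?_, ?_⟩ <;>
      simp [Matrix.SpecialLinearGroup.coe_inv, Matrix.adjugate_fin_two, ha1, ha2, ha3]

theorem det_eq (x : Matrix.SpecialLinearGroup (Fin 2) A) :
    x.1 0 0 * x.1 1 1 - x.1 0 1 * x.1 1 0 = 1 := by
  have := x.2
  rwa [Matrix.det_fin_two] at this

variable {ε}

theorem GG_ext {a b : GG ε} (h00 : a.1.1 0 0 = b.1.1 0 0) (h01 : a.1.1 0 1 = b.1.1 0 1)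
    (h10 : a.1.1 1 0 = b.1.1 1 0) (h11 : a.1.1 1 1 = b.1.1 1 1) : a = b := by
  apply Subtype.ext
  apply Subtype.ext
  ext i j
  fin_cases i <;> fin_cases j <;> assumption

theorem c_mul (a b : GG ε) : (a * b).1.1 = a.1.1 * b.1.1 := rfl
theorem c_inv (a : GG ε) : (a⁻¹).1.1 = !![a.1.1 1 1, - a.1.1 0 1; - a.1.1 1 0, a.1.1 0 0] := by
  have : (a⁻¹).1.1 = Matrix.adjugate a.1.1 := rfl
  rw [this, Matrix.adjugate_fin_two]
theorem c_one : (1 : GG ε).1.1 = 1 := rfl

variable (ε)
/-- the Engel element -/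
def g : GG ε := ⟨⟨!![1, 1; 0, 1], by simp [Matrix.det_fin_two]⟩, by
  refine ⟨?_, ?_, ?_⟩ <;> simp⟩
variable {ε}

theorem c_g : (g ε).1.1 = !![1, 1; 0, 1] := rfl

def E (y : GG ε) : GG ε := y⁻¹ * (g ε)⁻¹ * y * (g ε)

theorem E_entries (y : GG ε) :
    (E y).1.1 0 0 = 1 - y.1.1 1 0 * y.1.1 1 1 ∧
    (E y).1.1 0 1 = 1 - y.1.1 1 0 * y.1.1 1 1 - y.1.1 1 1 ^ 2 ∧
    (E y).1.1 1 0 = y.1.1 1 0 ^ 2 ∧
    (E y).1.1 1 1 = 1 + y.1.1 1 0 * y.1.1 1 1 + y.1.1 1 0 ^ 2 := by
  have hd := det_eq y.1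
  refine ⟨?_, ?_, ?_, ?_⟩ <;>
    simp only [E, c_mul, c_inv, c_g, Matrix.mul_apply, Fin.sum_univ_two] <;> simp
  · linear_combination hd
  · linear_combination hd
  · ring
  · linear_combination hd

theorem engel (cube_zero : ∀ r : A, ε r = 0 → r ^ 3 = 0) (y : GG ε) : E (E (E (E y))) = 1 := by
  obtain ⟨h1a, h1b, h1c, h1d⟩ := E_entries y
  obtain ⟨h2a, h2b, h2c, h2d⟩ := E_entries (E y)
  obtain ⟨h3a, h3b, h3c, h3d⟩ := E_entries (E (E y))
  obtain ⟨h4a, h4b, h4c, h4d⟩ := E_entries (E (E (E y)))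
  have hc : (y.1.1 1 0) ^ 3 = 0 := cube_zero _ y.2.2.1
  have e2c : (E (E y)).1.1 1 0 = 0 := by
    rw [h2c, h1c]; linear_combination (y.1.1 1 0) * hc
  have e2d : (E (E y)).1.1 1 1 = 1 + (y.1.1 1 0)^2 := by
    rw [h2d, h1c, h1d]
    linear_combination (y.1.1 1 1 + 2 * (y.1.1 1 0)) * hc
  have e3c : (E (E (E y))).1.1 1 0 = 0 := by
    rw [h3c, e2c]; ring
  have e3d : (E (E (E y))).1.1 1 1 = 1 := by
    rw [h3d, e2c]; ring
  apply GG_ext
  · rw [h4a, e3c]; simp
  · rw [h4b, e3c, e3d]; simp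
  · rw [h4c, e3c]; simp
  · rw [h4d, e3c]; simp

/-- locally nilpotent -/
theorem pow9 (three : (3 : A) = 0) (cube_zero : ∀ r : A, ε r = 0 → r ^ 3 = 0) (x : GG ε) :
    x ^ 9 = 1 := by
  set M : Matrix (Fin 2) (Fin 2) A := x.1.1 with hM
  set τ : A := M 0 0 + M 1 1 - 2 with hτ
  have hτ3 : τ ^ 3 = 0 := by
    apply cube_zero
    rw [hτ]
    have h1 : ε (M 0 0) = 1 := x.2.1
    have h2 : ε (M 1 1) = 1 := x.2.2.2
    rw [map_sub, map_add, h1, h2, map_ofNat]
    ring
  have hCH : M * M = τ • M - M - 1 := by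
    have hd := det_eq x.1
    rw [← hM] at hd
    ext i j
    fin_cases i <;> fin_cases j <;>
      simp [Matrix.mul_apply, Fin.sum_univ_two, hτ]
    · linear_combination -hd + M 0 0 * three
    · linear_combination M 0 1 * three
    · linear_combination M 1 0 * three
    · linear_combination -hd + M 1 1 * three
  have h3M : (3 : ℕ) • (1 : Matrix (Fin 2) (Fin 2) A) = 0 := by
    rw [← Nat.cast_smul_eq_nsmul A]
    rw [show ((3 : ℕ) : A) = 0 by exact_mod_cast three, zero_smul]
  have h3M' : ∀ N : Matrix (Fin 2) (Fin 2) A, 3 • N = 0 := by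
    intro N
    have : 3 • N = (3 • (1 : Matrix (Fin 2) (Fin 2) A)) * N := by simp
    rw [this, h3M, zero_mul]
  have hcube : M ^ 3 = 1 + τ • (M * M - M) := by
    have h1 : M ^ 3 = M * (M * M) := by rw [pow_succ, pow_two, mul_assoc]
    have h2 : M * (M * M) = τ • (M * M) - M * M - M := by
      conv_lhs => rw [hCH]
      simp [mul_sub]
    rw [h1, h2, smul_sub]
    have h3 : τ • (M * M) - M * M - M = τ • (M * M) - (τ • M - M - 1) - M := by rw [← hCH]
    rw [h3]; abel
  have h9 : M ^ 9 = 1 := by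
    have h1 : M ^ 9 = (M ^ 3) ^ 3 := by rw [← pow_mul]
    rw [h1, hcube]
    set N := (M * M - M)
    have h2 : (1 + τ • N) ^ 3 = 1 + 3 • (τ • N + (τ • N) * (τ • N)) + (τ • N) ^ 3 := by
      simp only [pow_succ, pow_zero, one_mul, mul_add, add_mul, mul_one]
      abel
    rw [h2, h3M', add_zero, smul_pow, hτ3, zero_smul, add_zero]
  apply Subtype.ext
  apply Subtype.ext
  simpa using h9


theorem locnil (three : (3 : A) = 0) (cube_zero : ∀ r : A, ε r = 0 → r ^ 3 = 0)
    (hfin : ∀ T : Set A, T.Finite → ∃ B : Subring A, T ⊆ B ∧ Finite B)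
    (F : Set (GG ε)) (hF : F.Finite) :
    ∃ n : ℕ, ∀ h0 : GG ε, h0 ∈ Subgroup.closure F →
      ∀ hs : List (GG ε), hs.length = n →
        (∀ b : GG ε, b ∈ hs → b ∈ Subgroup.closure F) →
          hs.foldl (fun a b : GG ε => a⁻¹ * b⁻¹ * a * b) h0 = 1 := by
  obtain ⟨B, hTB, hB⟩ := hfin ((fun p : GG ε × Fin 2 × Fin 2 => p.1.1.1 p.2.1 p.2.2) '' (F ×ˢ Set.univ))
    ((hF.prod Set.finite_univ).image _)
  let H : Subgroup (GG ε) :=
    { carrier := {x | ∀ i j, x.1.1 i j ∈ B}
      one_mem' := by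
        intro i j
        rw [c_one, Matrix.one_apply]
        split_ifs
        · exact B.one_mem
        · exact B.zero_mem
      mul_mem' := by
        intro a b ha hb i j
        rw [c_mul, Matrix.mul_apply]
        exact B.sum_mem fun k _ => B.mul_mem (ha i k) (hb k j)
      inv_mem' := by
        intro a ha i j
        rw [c_inv]
        fin_cases i <;> fin_cases j <;> simp
        · exact ha 1 1
        · exact ha 0 1
        · exact ha 1 0
        · exact ha 0 0 }
  have hle : Subgroup.closure F ≤ H := by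
    rw [Subgroup.closure_le]
    intro x hx i j
    exact hTB ⟨(x, i, j), ⟨hx, trivial⟩, rfl⟩
  have hfinH : Finite H := by
    let φ : H → (Fin 2 → Fin 2 → B) := fun x i j => ⟨x.1.1.1 i j, x.2 i j⟩
    apply Finite.of_injective φ
    intro x y hxy
    apply Subtype.ext
    apply Subtype.ext
    apply Subtype.ext
    ext i j
    exact congrArg Subtype.val (congrFun (congrFun hxy i) j)
  have hfinC : Finite (Subgroup.closure F) :=
    Finite.of_injective (Subgroup.inclusion hle) (Subgroup.inclusion_injective hle)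
  have hp : IsPGroup 3 (Subgroup.closure F) := by
    intro x
    refine ⟨2, ?_⟩
    apply Subtype.ext
    have := pow9 three cube_zero x.1
    simpa using this
  have : Fact (Nat.Prime 3) := ⟨Nat.prime_three⟩
  have hnil : Group.IsNilpotent (Subgroup.closure F) := hp.isNilpotent
  obtain ⟨n, hn⟩ := (Subgroup.isNilpotent_iff_lowerCentralSeries _).1 hnil
  refine ⟨n, ?_⟩
  intro h0 hh0 hs hlen hhs
  have key : ∀ hs : List (GG ε), (∀ b : GG ε, b ∈ hs → b ∈ Subgroup.closure F) →
      ∀ k : ℕ, ∀ h : GG ε, h ∈ (Subgroup.closure F).lowerCentralSeries k →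
      hs.foldl (fun a b : GG ε => a⁻¹ * b⁻¹ * a * b) h ∈
        (Subgroup.closure F).lowerCentralSeries (k + hs.length) := by
    intro hs
    induction hs with
    | nil => intro _ k h hh; exact hh
    | cons b hs ih =>
      intro hb k h hh
      have hb1 : b ∈ Subgroup.closure F := hb b (by simp)
      have hmem : h⁻¹ * b⁻¹ * h * b ∈ (Subgroup.closure F).lowerCentralSeries (k + 1) := by
        have h1 : ⁅h⁻¹, b⁻¹⁆ ∈
            ⁅(Subgroup.closure F).lowerCentralSeries k, Subgroup.closure F⁆ :=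
          Subgroup.commutator_mem_commutator (inv_mem hh) (inv_mem hb1)
        rw [commutatorElement_def, inv_inv, inv_inv] at h1
        exact h1
      have h2 := ih (fun b hb' => hb b (by simp [hb'])) (k + 1) _ hmem
      rw [List.length_cons, show k + (hs.length + 1) = k + 1 + hs.length by ring, List.foldl_cons]
      exact h2
  have h1 := key hs hhs 0 h0 hh0
  rw [zero_add, hlen, hn, Subgroup.mem_bot] at h1
  exact h1

theorem inv_of_sq {N : Type} [Ring N] {a ui : N} (h : (1 + a) * ui = 1) (ha : a * a = 0) :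
    ui = 1 - a := by
  have h1 : (1 - a) * (1 + a) = 1 := by
    rw [sub_mul, mul_add, mul_add, ha]; simp
  calc ui = ((1 - a) * (1 + a)) * ui := by rw [h1, one_mul]
    _ = (1 - a) * ((1 + a) * ui) := by rw [mul_assoc]
    _ = 1 - a := by rw [h, mul_one]

theorem comm_calc {N : Type} [Ring N] {a b : N} (haa : a * a = 0) (hbb : b * b = 0)
    (haba : a * b * a = 0) (hbab : b * a * b = 0) :
    (1 - a) * (1 - b) * (1 + a) * (1 + b) = 1 + (a * b - b * a) := by
  have habb : a * b * b = 0 := by rw [mul_assoc, hbb, mul_zero]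
  simp only [mul_add, add_mul, mul_sub, sub_mul, one_mul, mul_one, haa, hbb, haba, hbab, habb,
    zero_mul, mul_zero]
  abel

theorem nonBaer (cancel : ∀ r η : A, ε r ≠ 0 → η * r = 0 → η = 0)
    (yy : Finset ℕ → A) (yy_ne : ∀ S, yy S ≠ 0) (yy_sq : ∀ S, S.Nonempty → yy S * yy S = 0)
    (ε_yy : ∀ S, S.Nonempty → ε (yy S) = 0)
    (yy_union : ∀ S T, Disjoint S T → yy (S ∪ T) = yy S * yy T)
    (y : GG ε) (n : ℕ) (K : ℕ → Subgroup (GG ε)) (hK0 : K 0 = Subgroup.zpowers y)
    (hKn : K n = ⊤)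
    (hK : ∀ i : ℕ, i < n → (K i ≤ K (i + 1) ∧
                ∀ a : GG ε, a ∈ K (i + 1) → ∀ b : GG ε, b ∈ K i → a * b * a⁻¹ ∈ K i)) :
    ε (y.1.1 0 1) = 0 := by
  by_contra hβ
  have hy00 : ε (y.1.1 0 0) = 1 := y.2.1
  have hy10 : ε (y.1.1 1 0) = 0 := y.2.2.1
  have hy11 : ε (y.1.1 1 1) = 1 := y.2.2.2
  have hyK : ∀ i, i ≤ n → y ∈ K i := by
    intro i
    induction i with
    | zero => intro _; rw [hK0]; exact Subgroup.mem_zpowers y
    | succ i ih => intro hi; exact (hK i (by omega)).1 (ih (by omega))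
  have claim : ∀ j, j ≤ n → ∃ X : Matrix (Fin 2) (Fin 2) A, ε (X 1 0) ≠ 0 ∧
      ∀ S : Finset ℕ, S.card = 2 ^ j → ∃ w ∈ K (n - j), w.1.1 = 1 + yy S • X := by
    intro j
    induction j with
    | zero =>
      intro _
      refine ⟨!![0, 0; 1, 0], by simp, ?_⟩
      intro S hS
      have hne : S.Nonempty := by rw [← Finset.card_pos, hS]; norm_num
      refine ⟨⟨⟨!![1, 0; yy S, 1], by simp [Matrix.det_fin_two]⟩, ?_⟩, ?_, ?_⟩
      · refine ⟨?_, ?_, ?_⟩ <;> simp [ε_yy S hne]
      · rw [Nat.sub_zero, hKn]; trivial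
      · ext i j
        fin_cases i <;> fin_cases j <;> simp
    | succ j ih =>
      intro hj
      obtain ⟨X, hX, hw⟩ := ih (by omega)
      set Y : Matrix (Fin 2) (Fin 2) A := y.1.1 with hY
      set Yi : Matrix (Fin 2) (Fin 2) A := (y⁻¹).1.1 with hYi
      have hYiY : Yi * Y = 1 := by
        rw [hYi, hY, ← c_mul, inv_mul_cancel, c_one]
      set Z : Matrix (Fin 2) (Fin 2) A := Yi * X * Y - X with hZ
      refine ⟨Z * X - X * Z, ?_, ?_⟩
      · have e1 : ε ((Z * X - X * Z) 1 0) = 2 * ε (Y 0 1) * ε (X 1 0) ^ 2 := by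
          rw [hZ, hYi, c_inv, ← hY]
          simp only [Matrix.sub_apply, Matrix.mul_apply, Fin.sum_univ_two]
          simp [hy00, hy10, hy11]
          ring
        rw [e1]
        have h2 : (2 : ZMod 3) ≠ 0 := by decide
        exact mul_ne_zero (mul_ne_zero h2 hβ) (pow_ne_zero _ hX)
      · intro S hS
        obtain ⟨S1, hS1, hc1⟩ := Finset.exists_subset_card_eq (s := S) (n := 2 ^ j)
          (by rw [hS]; exact Nat.pow_le_pow_right (by norm_num) (by omega))
        set S2 := S \ S1 with hS2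
        have hc2 : S2.card = 2 ^ j := by
          rw [hS2, Finset.card_sdiff_of_subset hS1, hS, hc1, pow_succ]; omega
        have hdis : Disjoint S1 S2 := Finset.disjoint_sdiff
        have hun : S1 ∪ S2 = S := Finset.union_sdiff_of_subset hS1
        have hne1 : S1.Nonempty := by rw [← Finset.card_pos, hc1]; positivity
        have hne2 : S2.Nonempty := by rw [← Finset.card_pos, hc2]; positivity
        obtain ⟨w1, hw1, hm1⟩ := hw S1 hc1
        obtain ⟨w2, hw2, hm2⟩ := hw S2 hc2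
        have hidx : n - j = (n - (j + 1)) + 1 := by omega
        rw [hidx] at hw1 hw2
        have hlt : n - (j + 1) < n := by omega
        obtain ⟨hle, hnorm⟩ := hK _ hlt
        set η := yy S1 with hη
        set ζ := yy S2 with hζ
        have hη2 : η * η = 0 := yy_sq S1 hne1
        have hζ2 : ζ * ζ = 0 := yy_sq S2 hne2
        have hyk := hyK (n - (j + 1)) (by omega)
        have hu : w1⁻¹ * y⁻¹ * w1 * y ∈ K (n - (j + 1)) := by
          apply Subgroup.mul_mem _ _ hyk
          have := hnorm w1⁻¹ (inv_mem hw1) y⁻¹ (inv_mem hyk)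
          rwa [inv_inv] at this
        set u := w1⁻¹ * y⁻¹ * w1 * y with hudef
        have hv : u⁻¹ * w2⁻¹ * u * w2 ∈ K (n - (j + 1)) := by
          have := hnorm w2⁻¹ (inv_mem hw2) u hu
          rw [inv_inv] at this
          have h3 := Subgroup.mul_mem _ (inv_mem hu) this
          simpa [mul_assoc] using h3
        refine ⟨_, hv, ?_⟩
        have sq0 : ∀ (M N : Matrix (Fin 2) (Fin 2) A), (η • M) * (η • N) = 0 := by
          intro M N
          rw [smul_mul_smul_comm, hη2, zero_smul]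
        have sq0' : ∀ (M N : Matrix (Fin 2) (Fin 2) A), (ζ • M) * (ζ • N) = 0 := by
          intro M N
          rw [smul_mul_smul_comm, hζ2, zero_smul]
        have i1 : (w1⁻¹).1.1 = 1 - η • X := by
          apply inv_of_sq _ (sq0 X X)
          rw [← hm1, ← c_mul, mul_inv_cancel, c_one]
        have i2 : (w2⁻¹).1.1 = 1 - ζ • X := by
          apply inv_of_sq _ (sq0' X X)
          rw [← hm2, ← c_mul, mul_inv_cancel, c_one]
        have mu : u.1.1 = 1 + η • Z := by
          have h1 : u.1.1 = (1 - η • X) * (Yi * (1 + η • X) * Y) := by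
            rw [hudef, c_mul, c_mul, c_mul, i1, hm1]
            simp only [mul_assoc]
            rfl
          have h2 : Yi * (1 + η • X) * Y = 1 + η • (Yi * X * Y) := by
            rw [mul_add, mul_one, add_mul, hYiY, Matrix.mul_smul, Matrix.smul_mul]
          rw [h1, h2, sub_mul, mul_add, mul_add, sq0, hZ, smul_sub]
          simp only [one_mul, mul_one, add_zero]
          abel
        have iu : (u⁻¹).1.1 = 1 - η • Z := by
          apply inv_of_sq _ (sq0 Z Z)
          rw [← mu, ← c_mul, mul_inv_cancel, c_one]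
        rw [c_mul, c_mul, c_mul, iu, i2, mu, hm2, comm_calc (sq0 Z Z) (sq0' X X)]
        · rw [← hun, yy_union _ _ hdis, ← hη, ← hζ, smul_mul_smul_comm, smul_mul_smul_comm,
            mul_comm ζ η, ← smul_sub]
        · rw [mul_assoc, Matrix.smul_mul η, Matrix.mul_smul, Matrix.smul_mul, Matrix.mul_smul, Matrix.mul_smul]
          rw [smul_smul, smul_smul, hη2, zero_mul, zero_smul]
        · rw [mul_assoc, Matrix.smul_mul ζ, Matrix.mul_smul, Matrix.smul_mul, Matrix.mul_smul, Matrix.mul_smul]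
          rw [smul_smul, smul_smul, hζ2, zero_mul, zero_smul]
  obtain ⟨X, hX, hw⟩ := claim n le_rfl
  obtain ⟨w, hwK, hm⟩ := hw (Finset.range (2 ^ n)) (by simp)
  rw [Nat.sub_self, hK0] at hwK
  obtain ⟨k, hk⟩ := Subgroup.mem_zpowers_iff.1 hwK
  have hcomm : w * y = y * w := by
    rw [← hk]
    exact (Commute.zpow_self y k).eq
  have h1 : (w * y).1.1 1 1 = (y * w).1.1 1 1 := by rw [hcomm]
  rw [c_mul, c_mul, hm] at h1
  simp [Matrix.mul_apply, Fin.sum_univ_two] at h1
  set η := yy (Finset.range (2 ^ n)) with hη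
  have h2 : η * (X 1 0 * y.1.1 0 1 - y.1.1 1 0 * X 0 1) = 0 := by
    linear_combination h1
  have h3 := cancel _ η ?_ h2
  · exact yy_ne _ h3
  · rw [map_sub, map_mul, map_mul, hy10, zero_mul, sub_zero]
    exact mul_ne_zero hX hβ

def H0 : Subgroup (GG ε) where
  carrier := {x | ε (x.1.1 0 1) = 0}
  one_mem' := by
    change ε ((1 : GG ε).1.1 0 1) = 0
    rw [c_one]; simp
  mul_mem' := by
    intro a b ha hb
    change ε ((a * b).1.1 0 1) = 0
    have ha' : ε (a.1.1 0 1) = 0 := ha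
    have hb' : ε (b.1.1 0 1) = 0 := hb
    rw [c_mul]
    simp [Matrix.mul_apply, Fin.sum_univ_two, ha', hb']
  inv_mem' := by
    intro a ha
    change ε ((a⁻¹).1.1 0 1) = 0
    have ha' : ε (a.1.1 0 1) = 0 := ha
    rw [c_inv]
    simp [ha']

theorem main_gen (three : (3 : A) = 0) (cube_zero : ∀ r : A, ε r = 0 → r ^ 3 = 0)
    (hfin : ∀ T : Set A, T.Finite → ∃ B : Subring A, T ⊆ B ∧ Finite B)
    (cancel : ∀ r η : A, ε r ≠ 0 → η * r = 0 → η = 0)
    (yy : Finset ℕ → A) (yy_ne : ∀ S, yy S ≠ 0) (yy_sq : ∀ S, S.Nonempty → yy S * yy S = 0)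
    (ε_yy : ∀ S, S.Nonempty → ε (yy S) = 0)
    (yy_union : ∀ S T, Disjoint S T → yy (S ∪ T) = yy S * yy T) :
    ¬ (∀ (G : Type) [Group G],
      (∃ S : Ordinal.{0} → Subgroup G,
        Monotone S ∧
        (∀ α : Ordinal.{0}, ∀ g : G, g ∈ S α →
          g = 1 ∨ ∃ β : Ordinal.{0}, β < α ∧ g ∈ S (Order.succ β)) ∧
        (∀ α : Ordinal.{0}, ∀ a : G, a ∈ S (Order.succ α) →
          ∀ b : G, b ∈ S α → a * b * a⁻¹ ∈ S α) ∧
        (∀ α : Ordinal.{0}, ∀ F : Set G, F.Finite →
          F ⊆ (S (Order.succ α) : Set G) →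
          ∃ n : ℕ, ∀ h0 : G, h0 ∈ Subgroup.closure F →
            ∀ hs : List G, hs.length = n →
              (∀ b : G, b ∈ hs → b ∈ Subgroup.closure F) →
                hs.foldl (fun a b : G => a⁻¹ * b⁻¹ * a * b) h0 ∈ S α) ∧
        (∃ β : Ordinal.{0}, S β = ⊤)) →
      ∀ x : G,
        (∃ n : ℕ, ∀ g : G, (fun y : G => y⁻¹ * x⁻¹ * y * x)^[n] g = 1) ↔
          x ∈ Subgroup.closure
            {y : G | ∃ n : ℕ, ∃ K : ℕ → Subgroup G,
              K 0 = Subgroup.zpowers y ∧ K n = ⊤ ∧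
              ∀ i : ℕ, i < n → (K i ≤ K (i + 1) ∧
                ∀ a : G, a ∈ K (i + 1) → ∀ b : G, b ∈ K i → a * b * a⁻¹ ∈ K i)}) := by
  classical
  intro h
  have h1 := h (GG ε) ?_ (g ε)
  · have h2 := h1.1 ⟨4, fun y => engel cube_zero y⟩
    have h3 : Subgroup.closure
            {y : GG ε | ∃ n : ℕ, ∃ K : ℕ → Subgroup (GG ε),
              K 0 = Subgroup.zpowers y ∧ K n = ⊤ ∧
              ∀ i : ℕ, i < n → (K i ≤ K (i + 1) ∧
                ∀ a : GG ε, a ∈ K (i + 1) → ∀ b : GG ε, b ∈ K i → a * b * a⁻¹ ∈ K i)} ≤ (H0 (ε := ε)) := by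
      rw [Subgroup.closure_le]
      rintro y ⟨n, K, hK0, hKn, hK⟩
      exact nonBaer cancel yy yy_ne yy_sq ε_yy yy_union y n K hK0 hKn hK
    have h4 : ε ((g ε).1.1 0 1) = 0 := h3 h2
    rw [c_g] at h4
    simp at h4
  · refine ⟨fun α => if α = 0 then ⊥ else ⊤, ?_, ?_, ?_, ?_, ?_⟩
    · intro α β hαβ
      by_cases hα : α = 0
      · simp [hα]
      · have hβ : β ≠ 0 := by
          rintro rfl
          exact hα (by simpa using hαβ)
        simp [hα, hβ]
    · intro α x hx
      by_cases hα : α = 0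
      · left
        simpa [hα] using hx
      · right
        refine ⟨0, pos_iff_ne_zero.2 hα, ?_⟩
        simp
    · intro α a _ b hb
      by_cases hα : α = 0
      · simp only [hα, if_true, Subgroup.mem_bot] at hb ⊢
        rw [hb]; simp
      · simp [hα]
    · intro α F hF _
      obtain ⟨n, hn⟩ := locnil three cube_zero hfin F hF
      refine ⟨n, fun h0 hh0 hs hlen hhs => ?_⟩
      rw [hn h0 hh0 hs hlen hhs]
      exact Subgroup.one_mem _
    · exact ⟨1, by simp⟩

end gen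

section ring
open MvPolynomial

abbrev P := MvPolynomial ℕ (ZMod 3)
noncomputable def I : Ideal P := Ideal.span ((fun s => monomial s (1 : ZMod 3)) '' (Set.range fun i : ℕ => Finsupp.single i 2))
abbrev R := P ⧸ I

theorem X_sq_mem (i : ℕ) : (X i : P)^2 ∈ I := by
  apply Ideal.subset_span
  exact ⟨Finsupp.single i 2, ⟨i, rfl⟩, by simp [X_pow_eq_monomial]⟩

theorem I_le : ∀ a ∈ I, constantCoeff a = (0 : ZMod 3) := by
  intro a ha
  have : I ≤ RingHom.ker (constantCoeff : P →+* ZMod 3) := by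
    apply Ideal.span_le.2
    rintro _ ⟨_, ⟨i, rfl⟩, rfl⟩
    simp [RingHom.mem_ker, constantCoeff_monomial]
  exact this ha

noncomputable def ε : R →+* ZMod 3 := Ideal.Quotient.lift I constantCoeff I_le

theorem three_R : (3 : R) = 0 := by
  have h : (3 : R) = algebraMap (ZMod 3) R 3 := (map_ofNat (algebraMap (ZMod 3) R) 3).symm
  have h3 : (3 : ZMod 3) = 0 := by decide
  rw [h, h3, map_zero]

theorem cube (r : R) : r ^ 3 = algebraMap (ZMod 3) R (ε r) := by
  obtain ⟨p, rfl⟩ := Ideal.Quotient.mk_surjective r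
  induction p using MvPolynomial.induction_on with
  | C a =>
    have h1 : ε (Ideal.Quotient.mk I (C a)) = a := by
      simp [ε]
    have h2 : (Ideal.Quotient.mk I (C a) : R) = algebraMap (ZMod 3) R a := rfl
    rw [h1, h2, ← map_pow]
    congr 1
    clear h1 h2
    revert a; decide
  | add p q hp hq =>
    rw [map_add, map_add, map_add, ← hp, ← hq]
    linear_combination (((Ideal.Quotient.mk I p)^2 * (Ideal.Quotient.mk I q) + (Ideal.Quotient.mk I p) * (Ideal.Quotient.mk I q)^2)) * three_R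
  | mul_X p i hp =>
    have h0 : (Ideal.Quotient.mk I (X i))^2 = (0 : R) := by
      rw [← map_pow]
      exact Ideal.Quotient.eq_zero_iff_mem.2 (X_sq_mem i)
    have h1 : ε (Ideal.Quotient.mk I (X i)) = 0 := by simp [ε]
    rw [map_mul, map_mul, h1, mul_zero, map_zero, mul_pow, pow_succ (Ideal.Quotient.mk I (X i)), h0]
    simp

theorem cube_zero {r : R} (h : ε r = 0) : r ^ 3 = 0 := by
  rw [cube, h, map_zero]

theorem cancel {r η : R} (h : ε r ≠ 0) (h2 : η * r = 0) : η = 0 := by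
  have h3 : η * r ^ 3 = 0 := by
    linear_combination (r^2) * h2
  rw [cube] at h3
  have h4 : η * (algebraMap (ZMod 3) R (ε r) * algebraMap (ZMod 3) R (ε r)⁻¹) = 0 := by
    rw [← mul_assoc, h3, zero_mul]
  rw [← map_mul, mul_inv_cancel₀ h, map_one, mul_one] at h4
  exact h4

noncomputable def yy (S : Finset ℕ) : R := ∏ i ∈ S, Ideal.Quotient.mk I (X i)

theorem yy_ne (S : Finset ℕ) : yy S ≠ 0 := by
  unfold yy
  rw [← map_prod]
  intro h
  rw [Ideal.Quotient.eq_zero_iff_mem] at h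
  have hm : (∏ i ∈ S, (X i : P)) = monomial (∑ i ∈ S, Finsupp.single i 1) 1 := by
    rw [monomial_sum_one]
    rfl
  rw [hm] at h
  unfold I at h
  rw [mem_ideal_span_monomial_image] at h
  obtain ⟨_, ⟨i, rfl⟩, hi⟩ := h (∑ i ∈ S, Finsupp.single i 1) (by
    rw [mem_support_iff, coeff_monomial]; simp)
  have := hi i
  rw [Finsupp.single_eq_same, Finsupp.finsetSum_apply] at this
  simp only [Finsupp.single_apply] at this
  rw [Finset.sum_ite_eq'] at this
  split_ifs at this <;> omega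

theorem yy_sq {S : Finset ℕ} (h : S.Nonempty) : yy S * yy S = 0 := by
  obtain ⟨i, hi⟩ := h
  unfold yy
  rw [← Finset.mul_prod_erase S _ hi]
  have h0 : (Ideal.Quotient.mk I (X i)) * (Ideal.Quotient.mk I (X i)) = (0 : R) := by
    rw [← map_mul, ← pow_two]
    exact Ideal.Quotient.eq_zero_iff_mem.2 (X_sq_mem i)
  linear_combination (∏ x ∈ S.erase i, Ideal.Quotient.mk I (X x))^2 * h0

theorem ε_yy {S : Finset ℕ} (h : S.Nonempty) : ε (yy S) = 0 := by
  have h1 := congrArg ε (yy_sq h)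
  rw [map_mul, map_zero] at h1
  exact mul_self_eq_zero.1 h1

theorem yy_union {S T : Finset ℕ} (h : Disjoint S T) : yy (S ∪ T) = yy S * yy T := by
  unfold yy
  rw [Finset.prod_union h]

theorem fin_adjoin (T : Set R) (hT : T.Finite) : Finite (Algebra.adjoin (ZMod 3) T) := by
  have h1 : (Algebra.adjoin (ZMod 3) T).toSubmodule.FG := by
    apply fg_adjoin_of_finite hT
    intro x _
    refine ⟨Polynomial.X ^ 3 - Polynomial.C (ε x), Polynomial.monic_X_pow_sub_C _ (by norm_num), ?_⟩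
    simp [cube]
  have h2 : Module.Finite (ZMod 3) (Algebra.adjoin (ZMod 3) T) := Module.Finite.iff_fg.2 h1
  exact Module.finite_of_finite (ZMod 3)


end ring

/-- The negation of the preceding statement: In every radical group (ascending series with locally nilpotent factors), an element is a bounded left Engel element exactly when it lies in the subgroup generated by all elements generating subnormal cyclic subgroups, i.e. the Baer radical. -/
theorem result :
    ¬ (∀ (G : Type) [Group G],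
      (∃ S : Ordinal.{0} → Subgroup G,
        Monotone S ∧
        (∀ α : Ordinal.{0}, ∀ g : G, g ∈ S α →
          g = 1 ∨ ∃ β : Ordinal.{0}, β < α ∧ g ∈ S (Order.succ β)) ∧
        (∀ α : Ordinal.{0}, ∀ a : G, a ∈ S (Order.succ α) →
          ∀ b : G, b ∈ S α → a * b * a⁻¹ ∈ S α) ∧
        (∀ α : Ordinal.{0}, ∀ F : Set G, F.Finite →
          F ⊆ (S (Order.succ α) : Set G) →
          ∃ n : ℕ, ∀ h0 : G, h0 ∈ Subgroup.closure F →
            ∀ hs : List G, hs.length = n →
              (∀ b : G, b ∈ hs → b ∈ Subgroup.closure F) →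
                hs.foldl (fun a b : G => a⁻¹ * b⁻¹ * a * b) h0 ∈ S α) ∧
        (∃ β : Ordinal.{0}, S β = ⊤)) →
      ∀ x : G,
        (∃ n : ℕ, ∀ g : G, (fun y : G => y⁻¹ * x⁻¹ * y * x)^[n] g = 1) ↔
          x ∈ Subgroup.closure
            {y : G | ∃ n : ℕ, ∃ K : ℕ → Subgroup G,
              K 0 = Subgroup.zpowers y ∧ K n = ⊤ ∧
              ∀ i : ℕ, i < n → (K i ≤ K (i + 1) ∧
                ∀ a : G, a ∈ K (i + 1) → ∀ b : G, b ∈ K i → a * b * a⁻¹ ∈ K i)}) := by
  refine main_gen (A := R) (ε := ε) three_R (fun r h => cube_zero h) ?_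
    (fun r η h h2 => cancel h h2) yy yy_ne (fun S h => yy_sq h) (fun S h => ε_yy h)
    (fun S T h => yy_union h)
  intro T hT
  exact ⟨(Algebra.adjoin (ZMod 3) T).toSubring, Algebra.subset_adjoin, fin_adjoin T hT⟩

end Pool.Agent.S01862
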