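import Pool.Statements.S01928
import Pool.Agent.H3.LatDet2
import Pool.Agent.H3.LatIrr

set_option autoImplicit false
open Pool Pool.MP_b97972_al

namespace Pool.Agent.S01928

open Matrix MvPolynomial Pool.Agent.H3.LatDet Pool.Agent.H3.LatIrr

def mask : Nat := 16323336769729096192

def L (i j : Fin 16) : Fin 16 :=
  Fin.ofNat 16 (i.1 ^^^ j.1 ^^^ (8 * ((mask >>> (8 * (i.1 % 8) + j.1 % 8)) % 2)))

abbrev MP := MvPolynomial (Fin 16) ℂ

theorem L_row : ∀ i x y : Fin 16, L i x = L i y → x = y := by decide +kernel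
theorem L_col : ∀ i x y : Fin 16, L x i = L y i → x = y := by decide +kernel

noncomputable def u (k : Fin 8) : MP := X (Fin.castAdd 8 k) + X (Fin.natAdd 8 k)
noncomputable def v (k : Fin 8) : MP := X (Fin.castAdd 8 k) - X (Fin.natAdd 8 k)

noncomputable def mA : Matrix (Fin 8) (Fin 8) MP :=
  fun i j => X (L (Fin.castAdd 8 i) (Fin.castAdd 8 j))
noncomputable def mB : Matrix (Fin 8) (Fin 8) MP :=
  fun i j => X (L (Fin.castAdd 8 i) (Fin.natAdd 8 j))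

theorem L_blk1 : ∀ i j : Fin 8, L (Fin.natAdd 8 i) (Fin.castAdd 8 j) = L (Fin.castAdd 8 i) (Fin.natAdd 8 j) := by
  decide +kernel
theorem L_blk2 : ∀ i j : Fin 8, L (Fin.natAdd 8 i) (Fin.natAdd 8 j) = L (Fin.castAdd 8 i) (Fin.castAdd 8 j) := by
  decide +kernel

noncomputable def bigM : Matrix (Fin 16) (Fin 16) MP := Matrix.of (fun i j => (X (L i j) : MP))

theorem big_blk : bigM.submatrix (finSumFinEquiv (m := 8) (n := 8)) (finSumFinEquiv (m := 8) (n := 8))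
    = fromBlocks mA mB mB mA := by
  ext1 i j
  rcases i with i | i <;> rcases j with j | j
  · rfl
  · rfl
  · show X (L (Fin.natAdd 8 i) (Fin.castAdd 8 j)) = mB i j
    rw [L_blk1]; rfl
  · show X (L (Fin.natAdd 8 i) (Fin.natAdd 8 j)) = mA i j
    rw [L_blk2]; rfl

theorem det_big : bigM.det = (mA + mB).det * (mA - mB).det := by
  rw [← det_AB, ← big_blk, det_submatrix_equiv_self]

def xr (i j : Fin 8) : Fin 8 := Fin.ofNat 8 (i.1 ^^^ j.1)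
def sg (i j : Fin 8) : Bool := (mask >>> (8 * i.1 + j.1)) % 2 = 1

theorem L_val : ∀ i j : Fin 8,
    (sg i j = false ∧ L (Fin.castAdd 8 i) (Fin.castAdd 8 j) = Fin.castAdd 8 (xr i j) ∧ L (Fin.castAdd 8 i) (Fin.natAdd 8 j) = Fin.natAdd 8 (xr i j)) ∨
    (sg i j = true ∧ L (Fin.castAdd 8 i) (Fin.castAdd 8 j) = Fin.natAdd 8 (xr i j) ∧ L (Fin.castAdd 8 i) (Fin.natAdd 8 j) = Fin.castAdd 8 (xr i j)) := by
  decide +kernel

theorem plus_eq (i j : Fin 8) : (mA + mB) i j = u (xr i j) := by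
  show (X _ : MP) + X _ = _
  rcases L_val i j with ⟨_, h1, h2⟩ | ⟨_, h1, h2⟩
  · rw [h1, h2]; rfl
  · rw [h1, h2, add_comm]; rfl

theorem minus_eq (i j : Fin 8) : (mA - mB) i j = if sg i j then - v (xr i j) else v (xr i j) := by
  show (X _ : MP) - X _ = _
  rcases L_val i j with ⟨h0, h1, h2⟩ | ⟨h0, h1, h2⟩
  · rw [h1, h2, h0]; simp [v]
  · rw [h1, h2, h0]; simp [v]

theorem plus_blk : (mA + mB).submatrix (finSumFinEquiv (m := 4) (n := 4)) (finSumFinEquiv (m := 4) (n := 4))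
    = fromBlocks (!![u 0, u 1, u 2, u 3; u 1, u 0, u 3, u 2; u 2, u 3, u 0, u 1; u 3, u 2, u 1, u 0])
        (!![u 4, u 5, u 6, u 7; u 5, u 4, u 7, u 6; u 6, u 7, u 4, u 5; u 7, u 6, u 5, u 4])
        (!![u 4, u 5, u 6, u 7; u 5, u 4, u 7, u 6; u 6, u 7, u 4, u 5; u 7, u 6, u 5, u 4])
        (!![u 0, u 1, u 2, u 3; u 1, u 0, u 3, u 2; u 2, u 3, u 0, u 1; u 3, u 2, u 1, u 0]) := by
  ext1 i j
  rw [submatrix_apply, plus_eq]
  rcases i with i | i <;> rcases j with j | j <;> fin_cases i <;> fin_cases j <;> rfl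

theorem minus_blk : (mA - mB).submatrix (finSumFinEquiv (m := 4) (n := 4)) (finSumFinEquiv (m := 4) (n := 4))
    = fromBlocks (mX (v 0) (v 1) (v 2) (v 3)) (mY (v 4) (v 5) (v 6) (v 7))
        (mZ (v 4) (v 5) (v 6) (v 7)) (mW (v 0) (v 1) (v 2) (v 3)) := by
  ext1 i j
  rw [submatrix_apply, minus_eq]
  rcases i with i | i <;> rcases j with j | j <;> fin_cases i <;> fin_cases j <;> rfl

theorem det_plus : (mA + mB).det =
    (((u 0 + u 4) + (u 1 + u 5) + (u 2 + u 6) + (u 3 + u 7)) * ((u 0 + u 4) - (u 1 + u 5) + (u 2 + u 6) - (u 3 + u 7)) * ((u 0 + u 4) + (u 1 + u 5) - (u 2 + u 6) - (u 3 + u 7)) * ((u 0 + u 4) - (u 1 + u 5) - (u 2 + u 6) + (u 3 + u 7))) *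
    (((u 0 - u 4) + (u 1 - u 5) + (u 2 - u 6) + (u 3 - u 7)) * ((u 0 - u 4) - (u 1 - u 5) + (u 2 - u 6) - (u 3 - u 7)) * ((u 0 - u 4) + (u 1 - u 5) - (u 2 - u 6) - (u 3 - u 7)) * ((u 0 - u 4) - (u 1 - u 5) - (u 2 - u 6) + (u 3 - u 7))) := by
  rw [← det_submatrix_equiv_self (finSumFinEquiv (m := 4) (n := 4)) (mA + mB), plus_blk, det_AB]
  have h1 : (!![u 0, u 1, u 2, u 3; u 1, u 0, u 3, u 2; u 2, u 3, u 0, u 1; u 3, u 2, u 1, u 0] : Matrix (Fin 4) (Fin 4) MP)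
      + !![u 4, u 5, u 6, u 7; u 5, u 4, u 7, u 6; u 6, u 7, u 4, u 5; u 7, u 6, u 5, u 4]
      = !![u 0 + u 4, u 1 + u 5, u 2 + u 6, u 3 + u 7; u 1 + u 5, u 0 + u 4, u 3 + u 7, u 2 + u 6;
          u 2 + u 6, u 3 + u 7, u 0 + u 4, u 1 + u 5; u 3 + u 7, u 2 + u 6, u 1 + u 5, u 0 + u 4] := by
    ext1 i j; fin_cases i <;> fin_cases j <;> rfl
  have h2 : (!![u 0, u 1, u 2, u 3; u 1, u 0, u 3, u 2; u 2, u 3, u 0, u 1; u 3, u 2, u 1, u 0] : Matrix (Fin 4) (Fin 4) MP)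
      - !![u 4, u 5, u 6, u 7; u 5, u 4, u 7, u 6; u 6, u 7, u 4, u 5; u 7, u 6, u 5, u 4]
      = !![u 0 - u 4, u 1 - u 5, u 2 - u 6, u 3 - u 7; u 1 - u 5, u 0 - u 4, u 3 - u 7, u 2 - u 6;
          u 2 - u 6, u 3 - u 7, u 0 - u 4, u 1 - u 5; u 3 - u 7, u 2 - u 6, u 1 - u 5, u 0 - u 4] := by
    ext1 i j; fin_cases i <;> fin_cases j <;> rfl
  rw [h1, h2, det_klein, det_klein]

noncomputable def P : Fin 10 → MP := ![
  (u 0 + u 4) + (u 1 + u 5) + (u 2 + u 6) + (u 3 + u 7),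
  (u 0 + u 4) - (u 1 + u 5) + (u 2 + u 6) - (u 3 + u 7),
  (u 0 + u 4) + (u 1 + u 5) - (u 2 + u 6) - (u 3 + u 7),
  (u 0 + u 4) - (u 1 + u 5) - (u 2 + u 6) + (u 3 + u 7),
  (u 0 - u 4) + (u 1 - u 5) + (u 2 - u 6) + (u 3 - u 7),
  (u 0 - u 4) - (u 1 - u 5) + (u 2 - u 6) - (u 3 - u 7),
  (u 0 - u 4) + (u 1 - u 5) - (u 2 - u 6) - (u 3 - u 7),
  (u 0 - u 4) - (u 1 - u 5) - (u 2 - u 6) + (u 3 - u 7),
  qa (v 0) (v 1) (v 2) (v 3) + qa (v 4) (v 5) (v 6) (v 7),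
  qa (v 0) (v 1) (v 2) (v 3) - qa (v 4) (v 5) (v 6) (v 7)]

theorem u_0 : u 0 = X 0 + X 8 := rfl
theorem v_0 : v 0 = X 0 - X 8 := rfl
theorem u_1 : u 1 = X 1 + X 9 := rfl
theorem v_1 : v 1 = X 1 - X 9 := rfl
theorem u_2 : u 2 = X 2 + X 10 := rfl
theorem v_2 : v 2 = X 2 - X 10 := rfl
theorem u_3 : u 3 = X 3 + X 11 := rfl
theorem v_3 : v 3 = X 3 - X 11 := rfl
theorem u_4 : u 4 = X 4 + X 12 := rfl
theorem v_4 : v 4 = X 4 - X 12 := rfl
theorem u_5 : u 5 = X 5 + X 13 := rfl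
theorem v_5 : v 5 = X 5 - X 13 := rfl
theorem u_6 : u 6 = X 6 + X 14 := rfl
theorem v_6 : v 6 = X 6 - X 14 := rfl
theorem u_7 : u 7 = X 7 + X 15 := rfl
theorem v_7 : v 7 = X 7 - X 15 := rfl

noncomputable def E : Fin 10 → Fin 16 → ℂ := ![
  ![1, 1, 1, 1, 1, 1, 1, 1, 1, 1, 1, 1, 1, 1, 1, 1],
  ![1, -1, 1, -1, 1, -1, 1, -1, 1, -1, 1, -1, 1, -1, 1, -1],
  ![1, 1, -1, -1, 1, 1, -1, -1, 1, 1, -1, -1, 1, 1, -1, -1],
  ![1, -1, -1, 1, 1, -1, -1, 1, 1, -1, -1, 1, 1, -1, -1, 1],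
  ![1, 1, 1, 1, -1, -1, -1, -1, 1, 1, 1, 1, -1, -1, -1, -1],
  ![1, -1, 1, -1, -1, 1, -1, 1, 1, -1, 1, -1, -1, 1, -1, 1],
  ![1, 1, -1, -1, -1, -1, 1, 1, 1, 1, -1, -1, -1, -1, 1, 1],
  ![1, -1, -1, 1, -1, 1, 1, -1, 1, -1, -1, 1, -1, 1, 1, -1],
  ![1, 0, 0, 0, 1, 0, 0, 0, -1, 0, 0, 0, -1, 0, 0, 0],
  ![1, 0, 0, 0, Complex.I, 0, 0, 0, -1, 0, 0, 0, -Complex.I, 0, 0, 0]]

theorem eval_ne (i j : Fin 10) (h : i ≠ j) : eval (E j) (P i) = 0 := by
  fin_cases i <;> fin_cases j <;> first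
    | exact absurd rfl h
    | (simp [P, E, qa, u_0, v_0, u_1, v_1, u_2, v_2, u_3, v_3, u_4, v_4, u_5, v_5, u_6, v_6, u_7, v_7]; done)
    | (simp [P, E, qa, u_0, v_0, u_1, v_1, u_2, v_2, u_3, v_3, u_4, v_4, u_5, v_5, u_6, v_6, u_7, v_7, mul_pow]; norm_num; done)
    | (simp [P, E, qa, u_0, v_0, u_1, v_1, u_2, v_2, u_3, v_3, u_4, v_4, u_5, v_5, u_6, v_6, u_7, v_7]; ring_nf; simp; try norm_num)

theorem eval_self (i : Fin 10) : eval (E i) (P i) ≠ 0 := by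
  fin_cases i <;> first
    | (simp [P, E, qa, u_0, v_0, u_1, v_1, u_2, v_2, u_3, v_3, u_4, v_4, u_5, v_5, u_6, v_6, u_7, v_7]; done)
    | (simp [P, E, qa, u_0, v_0, u_1, v_1, u_2, v_2, u_3, v_3, u_4, v_4, u_5, v_5, u_6, v_6, u_7, v_7]; norm_num; done)
    | (simp [P, E, qa, u_0, v_0, u_1, v_1, u_2, v_2, u_3, v_3, u_4, v_4, u_5, v_5, u_6, v_6, u_7, v_7]; ring_nf; simp; try norm_num)

theorem hu (k : Fin 8) : (u k).IsHomogeneous 1 := (isHomogeneous_X _ _).add (isHomogeneous_X _ _)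
theorem hv (k : Fin 8) : (v k).IsHomogeneous 1 := (isHomogeneous_X _ _).sub (isHomogeneous_X _ _)

theorem hqa (i j k l : Fin 8) : (qa (v i) (v j) (v k) (v l)).IsHomogeneous 2 := by
  have h := fun k => (hv k).pow 2
  simp only [one_mul] at h
  exact (((h i).add (h j)).add (h k)).add (h l)

theorem P_hom (i : Fin 8) : (P (Fin.castAdd 2 i)).IsHomogeneous 1 := by
  have a := fun i j => (hu i).add (hu j)
  have b := fun i j => (hu i).sub (hu j)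
  fin_cases i
  · exact (((a 0 4).add (a 1 5)).add (a 2 6)).add (a 3 7)
  · exact (((a 0 4).sub (a 1 5)).add (a 2 6)).sub (a 3 7)
  · exact (((a 0 4).add (a 1 5)).sub (a 2 6)).sub (a 3 7)
  · exact (((a 0 4).sub (a 1 5)).sub (a 2 6)).add (a 3 7)
  · exact (((b 0 4).add (b 1 5)).add (b 2 6)).add (b 3 7)
  · exact (((b 0 4).sub (b 1 5)).add (b 2 6)).sub (b 3 7)
  · exact (((b 0 4).add (b 1 5)).sub (b 2 6)).sub (b 3 7)
  · exact (((b 0 4).sub (b 1 5)).sub (b 2 6)).add (b 3 7)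

theorem P_ne (i : Fin 10) : P i ≠ 0 := by
  intro h; apply eval_self i; rw [h]; simp

theorem deg_lin (i : Fin 8) : (P (Fin.castAdd 2 i)).totalDegree = 1 :=
  (P_hom i).totalDegree (P_ne _)

theorem deg8 : (P 8).totalDegree = 2 := by
  have h : (P 8).IsHomogeneous 2 := (hqa 0 1 2 3).add (hqa 4 5 6 7)
  exact h.totalDegree (P_ne _)

theorem deg9 : (P 9).totalDegree = 2 := by
  have h : (P 9).IsHomogeneous 2 := (hqa 0 1 2 3).sub (hqa 4 5 6 7)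
  exact h.totalDegree (P_ne _)

theorem irr8 : Irreducible (P 8) := by
  refine irr_of_three deg8 (fun k => if k = 0 then 1 else 0) (fun k => if k = 1 then 1 else 0) (fun k => if k = 2 then 1 else 0) ?_
  intro a b c
  simp [P, qa, u_0, v_0, u_1, v_1, u_2, v_2, u_3, v_3, u_4, v_4, u_5, v_5, u_6, v_6, u_7, v_7]

theorem irr9 : Irreducible (P 9) := by
  refine irr_of_three deg9 (fun k => if k = 0 then 1 else 0) (fun k => if k = 1 then 1 else 0) (fun k => if k = 2 then 1 else 0) ?_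
  intro a b c
  simp [P, qa, u_0, v_0, u_1, v_1, u_2, v_2, u_3, v_3, u_4, v_4, u_5, v_5, u_6, v_6, u_7, v_7]

theorem irr (i : Fin 10) : Irreducible (P i) := by
  have h := fun i => irr_of_deg_one (deg_lin i)
  fin_cases i
  · exact h 0
  · exact h 1
  · exact h 2
  · exact h 3
  · exact h 4
  · exact h 5
  · exact h 6
  · exact h 7
  · exact irr8
  · exact irr9

theorem not_assoc (i j : Fin 10) (h : i ≠ j) : ¬ Associated (P i) (P j) := by
  rintro ⟨c, hc⟩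
  apply eval_self j
  rw [← hc, map_mul, eval_ne i j h, zero_mul]

theorem qa_ne : qa (v 0) (v 1) (v 2) (v 3) ≠ 0 := by
  intro h
  have h2 := congrArg (eval (E 8)) h
  simp [E, qa, u_0, v_0, u_1, v_1, u_2, v_2, u_3, v_3, u_4, v_4, u_5, v_5, u_6, v_6, u_7, v_7] at h2
  try norm_num at h2

theorem prod_P : ∏ j, P j ^ (P j).totalDegree =
    P 0 * P 1 * P 2 * P 3 * P 4 * P 5 * P 6 * P 7 * P 8 ^ 2 * P 9 ^ 2 := by
  have e0 : (P 0).totalDegree = 1 := deg_lin 0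
  have e1 : (P 1).totalDegree = 1 := deg_lin 1
  have e2 : (P 2).totalDegree = 1 := deg_lin 2
  have e3 : (P 3).totalDegree = 1 := deg_lin 3
  have e4 : (P 4).totalDegree = 1 := deg_lin 4
  have e5 : (P 5).totalDegree = 1 := deg_lin 5
  have e6 : (P 6).totalDegree = 1 := deg_lin 6
  have e7 : (P 7).totalDegree = 1 := deg_lin 7
  have : ∀ f : Fin 10 → MP, ∏ j, f j = f 0 * f 1 * f 2 * f 3 * f 4 * f 5 * f 6 * f 7 * f 8 * f 9 := by
    intro f
    simp only [Fin.prod_univ_castSucc, Finset.univ_eq_empty, Finset.prod_empty, one_mul]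
    rfl
  rw [this, e0, e1, e2, e3, e4, e5, e6, e7, deg8, deg9]
  simp only [pow_one]

theorem det_final : bigM.det = C (-1) * ∏ j, P j ^ (P j).totalDegree := by
  rw [det_big, det_plus, prod_P,
    ← det_submatrix_equiv_self (finSumFinEquiv (m := 4) (n := 4)) (mA - mB), minus_blk,
    det_odd _ _ _ _ _ _ _ _ qa_ne]
  have hC : (C (-1) : MP) = -1 := by simp
  rw [hC]
  show _ = -1 * (((u 0 + u 4) + (u 1 + u 5) + (u 2 + u 6) + (u 3 + u 7)) * ((u 0 + u 4) - (u 1 + u 5) + (u 2 + u 6) - (u 3 + u 7)) * ((u 0 + u 4) + (u 1 + u 5) - (u 2 + u 6) - (u 3 + u 7)) * ((u 0 + u 4) - (u 1 + u 5) - (u 2 + u 6) + (u 3 + u 7)) * ((u 0 - u 4) + (u 1 - u 5) + (u 2 - u 6) + (u 3 - u 7)) * ((u 0 - u 4) - (u 1 - u 5) + (u 2 - u 6) - (u 3 - u 7)) * ((u 0 - u 4) + (u 1 - u 5) - (u 2 - u 6) - (u 3 - u 7)) * ((u 0 - u 4) - (u 1 - u 5) - (u 2 - u 6) + (u 3 - u 7)) *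
    (qa (v 0) (v 1) (v 2) (v 3) + qa (v 4) (v 5) (v 6) (v 7)) ^ 2 *
    (qa (v 0) (v 1) (v 2) (v 3) - qa (v 4) (v 5) (v 6) (v 7)) ^ 2)
  generalize qa (v 0) (v 1) (v 2) (v 3) = s
  generalize qa (v 4) (v 5) (v 6) (v 7) = t
  generalize (u 0 + u 4) + (u 1 + u 5) + (u 2 + u 6) + (u 3 + u 7) = l0
  generalize (u 0 + u 4) - (u 1 + u 5) + (u 2 + u 6) - (u 3 + u 7) = l1
  generalize (u 0 + u 4) + (u 1 + u 5) - (u 2 + u 6) - (u 3 + u 7) = l2
  generalize (u 0 + u 4) - (u 1 + u 5) - (u 2 + u 6) + (u 3 + u 7) = l3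
  generalize (u 0 - u 4) + (u 1 - u 5) + (u 2 - u 6) + (u 3 - u 7) = l4
  generalize (u 0 - u 4) - (u 1 - u 5) + (u 2 - u 6) - (u 3 - u 7) = l5
  generalize (u 0 - u 4) + (u 1 - u 5) - (u 2 - u 6) - (u 3 - u 7) = l6
  generalize (u 0 - u 4) - (u 1 - u 5) - (u 2 - u 6) + (u 3 - u 7) = l7
  ring

theorem quad {G : Type} [Group G] (a1 a2 a3 a4 b1 b2 b3 b4 : G)
    (h1 : a1 * b1 = a2 * b2) (h2 : a1 * b3 = a2 * b4) (h3 : a3 * b1 = a4 * b2) :
    a3 * b3 = a4 * b4 := by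
  have e1 : b3 = a1⁻¹ * (a2 * b4) := by rw [← h2]; group
  have e2 : a3 = a4 * b2 * b1⁻¹ := by rw [← h3]; group
  have e3 : b2 = a2⁻¹ * (a1 * b1) := by rw [h1]; group
  rw [e1, e2, e3]; group

/-- The negation of the preceding statement: For a nonempty Latin square, if its determinant in commuting symbol variables factors over ℂ into distinct irreducibles, each raised to its own degree, then the square is a group multiplication table up to reordering rows and relabelling symbols. -/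
theorem result :
    ¬ (∀ (n : ℕ), 0 < n → ∀ (L : Fin n → Fin n → Fin n),
    (∀ i, Function.Bijective (L i)) →
    (∀ j, Function.Bijective (fun i => L i j)) →
    (∃ (k : ℕ) (P : Fin k → MvPolynomial (Fin n) ℂ) (c : ℂ), c ≠ 0 ∧
      (∀ j, Irreducible (P j)) ∧
      (∀ i j, i ≠ j → ¬ Associated (P i) (P j)) ∧
      (Matrix.of (fun i j => (MvPolynomial.X (L i j) : MvPolynomial (Fin n) ℂ))).det
        = MvPolynomial.C c * ∏ j, P j ^ (P j).totalDegree) →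
    ∃ (G : Type) (_ : Group G) (a : Fin n ≃ G) (b : Fin n ≃ G) (e : G ≃ Fin n),
      ∀ i j, L i j = e (a i * b j)) := by
  intro H
  obtain ⟨G, _, a, b, e, h⟩ := H 16 (by norm_num) L
    (fun i => Finite.injective_iff_bijective.mp (fun x y hxy => L_row i x y hxy))
    (fun i => Finite.injective_iff_bijective.mp (fun x y hxy => L_col i x y hxy))
    ⟨10, P, -1, by norm_num, irr, not_assoc, det_final⟩
  have k1 : L 0 0 = L 1 9 := by decide +kernel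
  have k2 : L 0 2 = L 1 11 := by decide +kernel
  have k3 : L 4 0 = L 13 9 := by decide +kernel
  have k4 : L 4 2 ≠ L 13 11 := by decide +kernel
  rw [h, h] at k1 k2 k3
  apply k4
  rw [h, h, quad (a 0) (a 1) (a 4) (a 13) (b 0) (b 9) (b 2) (b 11) (e.injective k1) (e.injective k2) (e.injective k3)]

end Pool.Agent.S01928
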