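import Pool.Statements.S01998

set_option autoImplicit false
open Pool Pool.MP_c12e41_al

namespace Pool.Agent.S01998

/-- The (unrestricted) lamplighter group `(ℤ → {±1}) ⋊ ℤ`. -/
@[ext] structure LG where
  n : ℤ → ℤˣ
  k : ℤ

instance : Mul LG := ⟨fun a b => ⟨fun i => a.n i * b.n (i - a.k), a.k + b.k⟩⟩
instance : One LG := ⟨⟨fun _ => 1, 0⟩⟩
instance : Inv LG := ⟨fun a => ⟨fun i => (a.n (i + a.k))⁻¹, -a.k⟩⟩

@[simp] lemma mul_n (a b : LG) (i : ℤ) : (a * b).n i = a.n i * b.n (i - a.k) := rfl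
@[simp] lemma mul_k (a b : LG) : (a * b).k = a.k + b.k := rfl
@[simp] lemma one_n (i : ℤ) : (1 : LG).n i = 1 := rfl
@[simp] lemma one_k : (1 : LG).k = 0 := rfl
@[simp] lemma inv_n (a : LG) (i : ℤ) : (a⁻¹).n i = (a.n (i + a.k))⁻¹ := rfl
@[simp] lemma inv_k (a : LG) : (a⁻¹).k = -a.k := rfl

instance : Group LG := Group.ofLeftAxioms
  (by
    intro a b c
    ext i
    · simp [mul_assoc, sub_sub]
    · simp [add_assoc])
  (by
    intro a
    ext i
    · simp
    · simp)
  (by
    intro a
    ext i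
    · simp
    · simp)

abbrev V : Type := ℤ →₀ ℚ

/-- the character value -/
def chi (L : ℕ) (n : ℤ → ℤˣ) (m : ℤ) : ℚ := (((n m * n (m + L + 1) : ℤˣ) : ℤ) : ℚ)

noncomputable def rhoFun (L : ℕ) (a : LG) : V →ₗ[ℚ] V :=
  Finsupp.linearCombination ℚ (fun j : ℤ => Finsupp.single (j + a.k) (chi L a.n (j + a.k)))

lemma rhoFun_single (L : ℕ) (a : LG) (j : ℤ) (c : ℚ) :
    rhoFun L a (Finsupp.single j c) = Finsupp.single (j + a.k) (c * chi L a.n (j + a.k)) := by
  unfold rhoFun
  rw [Finsupp.linearCombination_single, Finsupp.smul_single, smul_eq_mul]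

noncomputable def rho (L : ℕ) : LG →* Module.End ℚ V where
  toFun := rhoFun L
  map_one' := by
    apply Finsupp.lhom_ext
    intro j c
    rw [rhoFun_single]
    simp [chi]
  map_mul' := by
    intro a b
    apply Finsupp.lhom_ext
    intro j c
    rw [rhoFun_single, Module.End.mul_apply, rhoFun_single, rhoFun_single]
    congr 1
    · simp; ring
    · have e1 : j + (a * b).k - a.k = j + b.k := by simp; ring
      have e2 : j + (a * b).k + L + 1 - a.k = j + b.k + L + 1 := by simp; ring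
      have e3 : j + (a * b).k = j + b.k + a.k := by simp; ring
      simp only [chi, mul_n]
      rw [e1, e2, e3]
      push_cast
      ring

noncomputable def Phi (L : ℕ) : MonoidAlgebra ℚ LG →ₐ[ℚ] Module.End ℚ V :=
  MonoidAlgebra.lift ℚ (Module.End ℚ V) LG (rho L)

lemma Phi_of (L : ℕ) (g : LG) : Phi L (MonoidAlgebra.of ℚ LG g) = rho L g := by
  unfold Phi
  simp

lemma supp (L : ℕ) (x : MonoidAlgebra ℚ LG) (B : ℤ) (hB : ∀ g ∈ x.coeff.support, |g.k| ≤ B) (j m : ℤ)
    (h : B < |m - j|) : (Phi L x (Finsupp.single j 1)) m = 0 := by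
  unfold Phi
  rw [MonoidAlgebra.lift_apply, Finsupp.sum, LinearMap.sum_apply, Finsupp.finsetSum_apply]
  apply Finset.sum_eq_zero
  intro g hg
  rw [LinearMap.smul_apply, Finsupp.smul_apply]
  have : (rho L g) (Finsupp.single j 1) = rhoFun L g (Finsupp.single j 1) := rfl
  rw [this, rhoFun_single, Finsupp.single_apply, if_neg, smul_zero]
  intro h2
  have := hB g hg
  rw [← h2] at h
  have h3 : j + g.k - j = g.k := by ring
  rw [h3] at h
  omega

/-- generators -/
def tt : LG := ⟨fun _ => 1, 1⟩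
def aa (i : ℤ) : LG := ⟨fun m => if m = i then -1 else 1, 0⟩

noncomputable def T : MonoidAlgebra ℚ LG := MonoidAlgebra.of ℚ LG tt
noncomputable def A (i : ℤ) : MonoidAlgebra ℚ LG := MonoidAlgebra.of ℚ LG (aa i)

lemma AA (i : ℤ) : A i * A i = 1 := by
  unfold A
  rw [← map_mul]
  have : aa i * aa i = 1 := by
    ext m
    · by_cases h : m = i
      · simp [aa, h]
      · simp [aa, h]
    · simp [aa]
  rw [this, map_one]

lemma A_comm (i j : ℤ) : A i * A j = A j * A i := by
  unfold A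
  rw [← map_mul, ← map_mul]
  congr 1
  ext m
  · simp [aa, mul_comm]
  · simp [aa]

lemma TA (i : ℤ) : T * A i = A (i + 1) * T := by
  unfold A T
  rw [← map_mul, ← map_mul]
  congr 1
  ext m
  · simp only [tt, aa, mul_n, one_mul, mul_one]
    by_cases h : m = i + 1
    · rw [if_pos h, if_pos (by omega)]
    · rw [if_neg h, if_neg (by omega)]
  · simp [tt, aa]

lemma TpowA (n : ℕ) : T ^ n * A 0 = A n * T ^ n := by
  induction n with
  | zero => simp
  | succ n ih =>
    rw [pow_succ', mul_assoc, ih, ← mul_assoc, TA, mul_assoc]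
    push_cast
    rfl

noncomputable def alpha : MonoidAlgebra ℚ LG := (1 - T) * (1 + A 0)

noncomputable def theta (L : ℕ) : MonoidAlgebra ℚ LG :=
  (1 - A 0) * (1 - A ((L + 1 : ℕ) : ℤ)) * ∑ i ∈ Finset.range (L + 1), T ^ i

lemma theta_mul (L : ℕ) : theta L * alpha = 0 := by
  unfold theta alpha
  have h1 : (∑ i ∈ Finset.range (L + 1), T ^ i) * (1 - T) = 1 - T ^ (L + 1) := geom_sum_mul_neg T (L + 1)
  calc (1 - A 0) * (1 - A ((L + 1 : ℕ) : ℤ)) * (∑ i ∈ Finset.range (L + 1), T ^ i) * ((1 - T) * (1 + A 0))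
      = (1 - A 0) * (1 - A ((L + 1 : ℕ) : ℤ)) *
          (((∑ i ∈ Finset.range (L + 1), T ^ i) * (1 - T)) * (1 + A 0)) := by
        simp only [mul_assoc]
    _ = (1 - A 0) * (1 - A ((L + 1 : ℕ) : ℤ)) * ((1 + A 0) - (1 + A ((L + 1 : ℕ) : ℤ)) * T ^ (L + 1)) := by
        have h2 : (1 - T ^ (L + 1)) * (1 + A 0) =
            (1 + A 0) - (1 + A ((L + 1 : ℕ) : ℤ)) * T ^ (L + 1) := by
          rw [sub_mul, one_mul, mul_add, mul_one, TpowA, add_mul, one_mul]
        rw [h1, h2]
    _ = 0 := by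
        have c1 := A_comm 0 ((L + 1 : ℕ) : ℤ)
        have s0 := AA 0
        have s1 := AA ((L + 1 : ℕ) : ℤ)
        have e1 : (1 - A ((L + 1 : ℕ) : ℤ)) * (1 + A ((L + 1 : ℕ) : ℤ)) = 0 := by
          rw [sub_mul, mul_add, mul_add, s1, one_mul, mul_one, one_mul, add_comm]; exact sub_self _
        have e0 : (1 - A 0) * (1 + A 0) = 0 := by
          rw [sub_mul, mul_add, mul_add, s0, one_mul, mul_one, one_mul, add_comm]; exact sub_self _
        have cc : (1 - A 0) * (1 - A ((L + 1 : ℕ) : ℤ)) = (1 - A ((L + 1 : ℕ) : ℤ)) * (1 - A 0) := by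
          rw [sub_mul, mul_sub, mul_sub, sub_mul, mul_sub, mul_sub, c1]; simp; abel
        rw [mul_sub]
        have f1 : (1 - A 0) * (1 - A ((L + 1 : ℕ) : ℤ)) * (1 + A 0) = 0 := by
          rw [cc, mul_assoc, e0, mul_zero]
        have f2 : (1 - A 0) * (1 - A ((L + 1 : ℕ) : ℤ)) * ((1 + A ((L + 1 : ℕ) : ℤ)) * T ^ (L + 1)) = 0 := by
          rw [mul_assoc, ← mul_assoc (1 - A ((L + 1 : ℕ) : ℤ)), e1, zero_mul, mul_zero]
        rw [f1, f2, sub_zero]

noncomputable def e (j : ℤ) : V := Finsupp.single j 1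

lemma Phi_T (L : ℕ) (j : ℤ) : Phi L T (e j) = e (j + 1) := by
  unfold T e
  rw [Phi_of]
  have : (rho L tt) (Finsupp.single j 1) = rhoFun L tt (Finsupp.single j 1) := rfl
  rw [this, rhoFun_single]
  simp [tt, chi]

lemma Phi_A (L : ℕ) (i j : ℤ) : Phi L (A i) (e j) = chi L (aa i).n j • e j := by
  unfold A e
  rw [Phi_of]
  have : (rho L (aa i)) (Finsupp.single j 1) = rhoFun L (aa i) (Finsupp.single j 1) := rfl
  rw [this, rhoFun_single]
  simp [aa]

lemma Phi_Tpow (L n : ℕ) : Phi L (T ^ n) (e 0) = e n := by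
  induction n with
  | zero => simp
  | succ n ih =>
    rw [pow_succ', map_mul, Module.End.mul_apply, ih, Phi_T]
    push_cast
    rfl

lemma theta_e (L : ℕ) : (Phi L (theta L) (e 0)) 0 = 4 := by
  unfold theta
  rw [map_mul, Module.End.mul_apply, map_sum, LinearMap.sum_apply]
  have h1 : ∑ i ∈ Finset.range (L + 1), Phi L (T ^ i) (e 0) = ∑ i ∈ Finset.range (L + 1), e i :=
    Finset.sum_congr rfl (fun i _ => Phi_Tpow L i)
  rw [h1, map_sum, Finsupp.finsetSum_apply, Finset.sum_eq_single 0]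
  · rw [map_mul, Module.End.mul_apply, map_sub, map_sub, map_one, LinearMap.sub_apply,
      LinearMap.sub_apply, Module.End.one_apply, Phi_A, map_sub, map_smul]
    rw [Module.End.one_apply, Phi_A]
    have hz : (0 : ℤ) ≠ L + 1 := by omega
    simp [chi, aa, e, hz, hz.symm]
    norm_num
  · intro i hi hne
    rw [map_mul, Module.End.mul_apply, map_sub, map_sub, map_one, LinearMap.sub_apply,
      LinearMap.sub_apply, Module.End.one_apply, Phi_A, map_sub, map_smul]
    rw [Module.End.one_apply, Phi_A]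
    have : (e (i : ℤ)) 0 = 0 := by
      unfold e
      rw [Finsupp.single_apply, if_neg]
      exact_mod_cast hne
    simp [this]
  · intro h
    exact absurd (Finset.mem_range.2 (Nat.succ_pos L)) h

lemma alpha_e (L : ℕ) (j : ℤ) (h0 : j ≠ 0) (h1 : j ≠ -(L + 1)) :
    Phi L alpha (e j) = (2 : ℚ) • (e j - e (j + 1)) := by
  unfold alpha
  rw [map_mul, Module.End.mul_apply, map_add, map_one, LinearMap.add_apply, Module.End.one_apply,
    Phi_A]
  have h2 : chi L (aa 0).n j = 1 := by
    simp only [chi, aa]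
    rw [if_neg h0, if_neg (by omega)]
    simp
  rw [h2, one_smul, ← two_smul ℚ (e j), map_smul, map_sub, map_one, LinearMap.sub_apply,
    Module.End.one_apply, Phi_T]

lemma ann_e {L : ℕ} {b : MonoidAlgebra ℚ LG} (hb : b * alpha = 0) :
    ∀ i : ℕ, i ≤ L → Phi L b (e (-(i : ℤ))) = Phi L b (e 0) := by
  intro i
  induction i with
  | zero => intro _; simp
  | succ i ih =>
    intro hi
    rw [← ih (by omega)]
    have h1 : Phi L (b * alpha) (e (-((i + 1 : ℕ) : ℤ))) = 0 := by
      rw [hb, map_zero]; rfl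
    rw [map_mul, Module.End.mul_apply, alpha_e L _ (by push_cast; omega) (by push_cast; omega),
      map_smul, map_sub] at h1
    have h2 : -((i + 1 : ℕ) : ℤ) + 1 = -(i : ℤ) := by push_cast; ring
    rw [h2] at h1
    have h3 := (smul_eq_zero.1 h1).resolve_left (by norm_num)
    exact sub_eq_zero.1 h3

lemma ann_zero {L : ℕ} {b : MonoidAlgebra ℚ LG} (hb : b * alpha = 0) {B : ℤ}
    (hB : ∀ g ∈ b.coeff.support, |g.k| ≤ B) (hL : 2 * B < L) : Phi L b (e 0) = 0 := by
  ext m
  rw [Finsupp.zero_apply]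
  rcases le_or_gt |m| B with h | h
  · rw [← ann_e hb L le_rfl]
    apply supp L b B hB
    have h1 : (L : ℤ) = |(m - -(L : ℤ)) - m| := by
      rw [show (m - -(L : ℤ)) - m = (L : ℤ) by ring, abs_of_nonneg (by positivity)]
    have h2 := abs_sub (m - -(L : ℤ)) m
    omega
  · apply supp L b B hB
    simpa using h

/-- The negation of the preceding statement: For every field K, every group G and every element a of the group algebra K[G], the set of x with x·a = 0 equals the left ideal generated by some finite set of elements of K[G]. -/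
theorem result :
    ¬ (∀ (K : Type) [Field K] (G : Type) [Group G] (a : MonoidAlgebra K G),
      ∃ s : Finset (MonoidAlgebra K G),
        ((Submodule.span (MonoidAlgebra K G) (s : Set (MonoidAlgebra K G)) :
            Set (MonoidAlgebra K G)) = {x : MonoidAlgebra K G | x * a = 0})) := by
  intro H
  obtain ⟨s, hs⟩ := H ℚ LG alpha
  classical
  -- a bound on the `k`-support of the generators
  obtain ⟨B, hB⟩ : ∃ B : ℕ, ∀ b ∈ s, ∀ g ∈ b.coeff.support, |g.k| ≤ (B : ℤ) := by
    refine ⟨∑ b ∈ s, ∑ g ∈ b.coeff.support, g.k.natAbs, ?_⟩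
    intro b hb g hg
    have h1 : g.k.natAbs ≤ ∑ g ∈ b.coeff.support, g.k.natAbs :=
      Finset.single_le_sum (f := fun g : LG => g.k.natAbs) (fun _ _ => Nat.zero_le _) hg
    have h2 : ∑ g ∈ b.coeff.support, g.k.natAbs ≤ ∑ b ∈ s, ∑ g ∈ b.coeff.support, g.k.natAbs :=
      Finset.single_le_sum (f := fun b : MonoidAlgebra ℚ LG => ∑ g ∈ b.coeff.support, g.k.natAbs)
        (fun _ _ => Nat.zero_le _) hb
    have h3 := h1.trans h2
    rw [Int.abs_eq_natAbs]
    exact_mod_cast h3
  set L : ℕ := 2 * B + 1 with hL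
  have hgen : ∀ b ∈ s, Phi L b (e 0) = 0 := by
    intro b hb
    have hb' : b * alpha = 0 := by
      have : b ∈ (Submodule.span (MonoidAlgebra ℚ LG) (s : Set (MonoidAlgebra ℚ LG)) :
          Set (MonoidAlgebra ℚ LG)) := Submodule.subset_span hb
      rw [hs] at this
      exact this
    exact ann_zero hb' (hB b hb) (by rw [hL]; push_cast; omega)
  have hspan : ∀ b ∈ Submodule.span (MonoidAlgebra ℚ LG) (s : Set (MonoidAlgebra ℚ LG)),
      Phi L b (e 0) = 0 := by
    intro b hb
    induction hb using Submodule.span_induction with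
    | mem x hx => exact hgen x hx
    | zero => simp
    | add x y _ _ hx hy => rw [map_add, LinearMap.add_apply, hx, hy, add_zero]
    | smul a x _ hx => rw [smul_eq_mul, map_mul, Module.End.mul_apply, hx, map_zero]
  have h1 : theta L ∈ (Submodule.span (MonoidAlgebra ℚ LG) (s : Set (MonoidAlgebra ℚ LG)) :
      Set (MonoidAlgebra ℚ LG)) := by
    rw [hs]
    exact theta_mul L
  have h2 := hspan _ h1
  have h3 := theta_e L
  rw [h2] at h3
  norm_num at h3

end Pool.Agent.S01998
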