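import Pool.Statements.S02072

set_option autoImplicit false
open Pool Pool.MP_cacfbf_al

namespace Pool.Agent.S02072

/-- The three dimensional Heisenberg Lie algebra over `ZMod 3`, coordinates `(z, x, y)`. -/
def H : Type := ZMod 3 × ZMod 3 × ZMod 3

instance : AddCommGroup H := inferInstanceAs (AddCommGroup (ZMod 3 × ZMod 3 × ZMod 3))
instance : Module (ZMod 3) H := inferInstanceAs (Module (ZMod 3) (ZMod 3 × ZMod 3 × ZMod 3))

instance : DecidableEq H := inferInstanceAs (DecidableEq (ZMod 3 × ZMod 3 × ZMod 3))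

lemma Hext {u v : H} (h1 : u.1 = v.1) (h2 : u.2.1 = v.2.1) (h3 : u.2.2 = v.2.2) : u = v :=
  Prod.ext h1 (Prod.ext h2 h3)

@[simp] lemma add1 (u v : H) : (u + v).1 = u.1 + v.1 := rfl
@[simp] lemma add2 (u v : H) : (u + v).2.1 = u.2.1 + v.2.1 := rfl
@[simp] lemma add3 (u v : H) : (u + v).2.2 = u.2.2 + v.2.2 := rfl
@[simp] lemma zero1 : (0 : H).1 = 0 := rfl
@[simp] lemma zero2 : (0 : H).2.1 = 0 := rfl
@[simp] lemma zero3 : (0 : H).2.2 = 0 := rfl
@[simp] lemma smul1 (a : ZMod 3) (v : H) : (a • v).1 = a * v.1 := rfl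
@[simp] lemma smul2 (a : ZMod 3) (v : H) : (a • v).2.1 = a * v.2.1 := rfl
@[simp] lemma smul3 (a : ZMod 3) (v : H) : (a • v).2.2 = a * v.2.2 := rfl

instance : Bracket H H := ⟨fun u v => (u.2.1 * v.2.2 - u.2.2 * v.2.1, 0, 0)⟩

@[simp] lemma br1 (u v : H) : ⁅u, v⁆.1 = u.2.1 * v.2.2 - u.2.2 * v.2.1 := rfl
@[simp] lemma br2 (u v : H) : ⁅u, v⁆.2.1 = 0 := rfl
@[simp] lemma br3 (u v : H) : ⁅u, v⁆.2.2 = 0 := rfl

instance : LieRing H where
  add_lie u v w := by apply Hext <;> simp; ring
  lie_add u v w := by apply Hext <;> simp; ring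
  lie_self u := by apply Hext <;> simp; ring
  leibniz_lie u v w := by apply Hext <;> simp

instance : LieAlgebra (ZMod 3) H where
  lie_smul a u v := by apply Hext <;> simp; ring

/-- the 3-mapping: projection on the centre -/
def f (u : H) : H := (u.1, 0, 0)

@[simp] lemma f1 (u : H) : (f u).1 = u.1 := rfl
@[simp] lemma f2 (u : H) : (f u).2.1 = 0 := rfl
@[simp] lemma f3 (u : H) : (f u).2.2 = 0 := rfl

lemma f_add (u v : H) : f (u + v) = f u + f v := by apply Hext <;> simp
lemma f_smul (a : ZMod 3) (v : H) : f (a • v) = a • f v := by apply Hext <;> simp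

attribute [local instance 100] LieRing.ofAssociativeRing

abbrev U : Type := UniversalEnvelopingAlgebra (ZMod 3) H
noncomputable abbrev io : H →ₗ⁅ZMod 3⁆ U := UniversalEnvelopingAlgebra.ι (ZMod 3)

lemma three_U (A : Type) [Ring A] [Algebra (ZMod 3) A] (a : A) : a + a + a = 0 := by
  have h : (3 : ZMod 3) • a = 0 := by
    have : (3 : ZMod 3) = 0 := by decide
    rw [this, zero_smul]
  have h2 : (3 : ZMod 3) • a = a + a + a := by
    have : (3 : ZMod 3) = 1 + 1 + 1 := by decide
    rw [this, add_smul, add_smul, one_smul]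
  rw [← h2, h]

lemma comm_io (u v : H) : io u * io v - io v * io u = io ⁅u, v⁆ := by
  rw [LieHom.map_lie, LieRing.of_associative_ring_bracket]

lemma central (u v w : H) : io ⁅u, v⁆ * io w = io w * io ⁅u, v⁆ := by
  have h := comm_io ⁅u, v⁆ w
  have h2 : ⁅⁅u, v⁆, w⁆ = 0 := by apply Hext <;> simp only [br1, br2, br3, zero1, zero2, zero3, zero_mul, sub_self]
  rw [h2, map_zero, sub_eq_zero] at h
  exact h

lemma f_central (u w : H) : io (f u) * io w = io w * io (f u) := by
  have h := comm_io (f u) w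
  have h2 : ⁅f u, w⁆ = 0 := by apply Hext <;> simp
  rw [h2, map_zero, sub_eq_zero] at h
  exact h

lemma cube_add (u v : H) : (io (u + v)) ^ 3 = (io u) ^ 3 + (io v) ^ 3 := by
  rw [map_add]
  set a := io u with ha
  set b := io v with hb
  set c := io ⁅u, v⁆ with hc
  have h1 : a * b = b * a + c := by rw [hc, ← comm_io]; abel
  have h2 : c * a = a * c := central u v u
  have h3 : c * b = b * c := central u v v
  have e1 : a * a * b = b * a * a + (a * c + a * c) := by
    calc a * a * b = a * (a * b) := by rw [mul_assoc]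
      _ = a * (b * a + c) := by rw [h1]
      _ = (a * b) * a + a * c := by rw [mul_add, mul_assoc]
      _ = (b * a + c) * a + a * c := by rw [h1]
      _ = b * a * a + (c * a + a * c) := by rw [add_mul, add_assoc]
      _ = _ := by rw [h2]
  have e2 : a * b * a = b * a * a + a * c := by rw [h1, add_mul, h2]
  have e3 : a * b * b = b * b * a + (b * c + b * c) := by
    calc a * b * b = (b * a + c) * b := by rw [h1]
      _ = b * (a * b) + c * b := by rw [add_mul, mul_assoc]
      _ = b * (b * a + c) + b * c := by rw [h1, h3]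
      _ = _ := by rw [mul_add, ← mul_assoc, add_assoc]
  have e4 : b * a * b = b * b * a + b * c := by rw [mul_assoc, h1, mul_add, ← mul_assoc]
  have expand : (a + b) ^ 3 = a ^ 3 + b ^ 3 +
      ((a * a * b + a * b * a + b * a * a) + (a * b * b + b * a * b + b * b * a)) := by
    noncomm_ring
  rw [expand, e1, e2, e3, e4]
  have t1 := three_U U (b * a * a)
  have t2 := three_U U (a * c)
  have t3 := three_U U (b * b * a)
  have t4 := three_U U (b * c)
  have : (b * a * a + (a * c + a * c) + (b * a * a + a * c) + b * a * a +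
      (b * b * a + (b * c + b * c) + (b * b * a + b * c) + b * b * a)) =
      (b * a * a + b * a * a + b * a * a) + (a * c + a * c + a * c) +
      (b * b * a + b * b * a + b * b * a) + (b * c + b * c + b * c) := by abel
  rw [this, t1, t2, t3, t4]
  simp

lemma cube_comm (u v : H) : (io u) ^ 3 * io v = io v * (io u) ^ 3 := by
  set a := io u with ha
  set b := io v with hb
  set c := io ⁅u, v⁆ with hc
  have h1 : a * b = b * a + c := by rw [hc, ← comm_io]; abel
  have h2 : c * a = a * c := central u v u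
  have e : a ^ 3 * b = b * a ^ 3 + (c * (a * a) + c * (a * a) + c * (a * a)) := by
    calc a ^ 3 * b = a * (a * (a * b)) := by noncomm_ring
      _ = a * (a * (b * a + c)) := by rw [h1]
      _ = a * ((a * b) * a + a * c) := by rw [mul_add, mul_assoc]
      _ = a * ((b * a + c) * a + c * a) := by rw [h1, h2]
      _ = (a * b) * a * a + (a * c) * a + (a * c) * a := by noncomm_ring
      _ = (b * a + c) * a * a + (c * a) * a + (c * a) * a := by rw [h1, h2]
      _ = _ := by noncomm_ring
  rw [e, three_U, add_zero]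


/-! ### The restricted enveloping algebra -/

abbrev r : U → U → Prop := fun a b => ∃ x : H, a = (io x) ^ 3 ∧ b = io (f x)

abbrev Q : Type := RingQuot r

noncomputable def pr : U →ₐ[ZMod 3] Q := RingQuot.mkAlgHom (ZMod 3) r

lemma pr_cube (x : H) : (pr (io x)) ^ 3 = pr (io (f x)) := by
  rw [← map_pow]
  exact RingQuot.mkAlgHom_rel (ZMod 3) (s := r) ⟨x, rfl, rfl⟩

def hz : H := (1, 0, 0)
def hx : H := (0, 1, 0)
def hy : H := (0, 0, 1)

noncomputable def z : Q := pr (io hz)
noncomputable def x : Q := pr (io hx)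
noncomputable def y : Q := pr (io hy)

lemma z3 : z ^ 3 = z := by
  rw [z, pr_cube]; congr 2
lemma x3 : x ^ 3 = 0 := by
  rw [x, pr_cube]
  have : f hx = 0 := rfl
  rw [this, map_zero, map_zero]
lemma y3 : y ^ 3 = 0 := by
  rw [y, pr_cube]
  have : f hy = 0 := rfl
  rw [this, map_zero, map_zero]
lemma xy : x * y = y * x + z := by
  have h := congrArg pr (comm_io hx hy)
  have h2 : ⁅hx, hy⁆ = hz := by decide
  rw [h2, map_sub, map_mul, map_mul] at h
  exact (sub_eq_iff_eq_add.1 h).trans (add_comm _ _)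
lemma zx : z * x = x * z := by
  have h := congrArg pr (comm_io hz hx)
  have h2 : ⁅hz, hx⁆ = 0 := by decide
  rw [h2, map_sub, map_mul, map_mul, map_zero, map_zero] at h
  exact sub_eq_zero.1 h
lemma zy : z * y = y * z := by
  have h := congrArg pr (comm_io hz hy)
  have h2 : ⁅hz, hy⁆ = 0 := by decide
  rw [h2, map_sub, map_mul, map_mul, map_zero, map_zero] at h
  exact sub_eq_zero.1 h

/-! ### Matrix units in `Q` -/

noncomputable def d : Q := -(z * z + z)
noncomputable def E : Q := -(d * (x * x * y * y))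

lemma zzz : z * z * z = z := by
  have := z3; rwa [pow_succ, pow_two] at this
lemma xxx : x * x * x = 0 := by
  have := x3; rwa [pow_succ, pow_two] at this
lemma yyy : y * y * y = 0 := by
  have := y3; rwa [pow_succ, pow_two] at this

lemma dz : d * z = d := by
  unfold d
  rw [neg_mul, add_mul, zzz, add_comm]
lemma three (a : Q) : a + a + a = 0 := three_U Q a
lemma neg_two (a : Q) : -(a + a) = a := by
  have := three a
  rw [add_assoc] at this
  exact (eq_neg_of_add_eq_zero_left this).symm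
lemma dd : d * d = d := by
  nth_rewrite 2 [d]
  rw [mul_neg, mul_add, ← mul_assoc, dz, dz, neg_two]
lemma dx : d * x = x * d := by
  unfold d
  rw [neg_mul, add_mul, mul_neg, mul_add, mul_assoc, zx, ← mul_assoc, zx, mul_assoc]
lemma dy : d * y = y * d := by
  unfold d
  rw [neg_mul, add_mul, mul_neg, mul_add, mul_assoc, zy, ← mul_assoc, zy, mul_assoc]
lemma dE : d * E = E := by
  unfold E
  rw [mul_neg, ← mul_assoc, dd]
lemma Ed : E * d = E := by
  have h : x * x * y * y * d = d * (x * x * y * y) := by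
    rw [mul_assoc, ← dy, ← mul_assoc, mul_assoc (x * x), ← dy, ← mul_assoc, mul_assoc x, ← dx,
      ← mul_assoc, ← dx]
    simp only [mul_assoc]
  have h2 : E * d = -(d * (x * x * y * y * d)) := by
    unfold E; rw [neg_mul, mul_assoc]
  rw [h2, h, ← mul_assoc, dd]; rfl
lemma xE : x * E = 0 := by
  have h : x * E = -(d * (x * x * x * y * y)) := by
    unfold E
    rw [mul_neg, ← mul_assoc, ← dx]
    simp only [mul_assoc]
  rw [h, xxx]; simp
lemma Ey : E * y = 0 := by
  have h : E * y = -(d * (x * x * (y * y * y))) := by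
    unfold E
    simp only [mul_assoc, neg_mul]
  rw [h, yyy]; simp
lemma Ez : E * z = E := by
  rw [← Ed, mul_assoc, dz]
lemma Exy : E * x * y = E := by
  rw [mul_assoc, xy, mul_add, ← mul_assoc, Ey, zero_mul, zero_add, Ez]
lemma Exxyy : E * (x * x * y * y) = E + E := by
  have h : E * (x * x * y * y) = E * x * (x * y) * y := by simp only [mul_assoc]
  rw [h, xy, mul_add, add_mul]
  have h1 : E * x * (y * x) * y = (E * x * y) * x * y := by simp only [mul_assoc]
  have h2 : E * x * z * y = E * z * x * y := by rw [mul_assoc E x z, ← zx, ← mul_assoc]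
  rw [h1, h2, Exy, Ez, Exy]
lemma EE : E * E = E := by
  nth_rewrite 2 [E]
  rw [mul_neg, ← mul_assoc, Ed, Exxyy, neg_two]

noncomputable def u : Fin 2 → Q := ![E, y * E]
noncomputable def v : Fin 2 → Q := ![E, E * x]

lemma vu (i j : Fin 2) : v i * u j = if i = j then E else 0 := by
  fin_cases i <;> fin_cases j <;> simp [u, v]
  · exact EE
  · rw [← mul_assoc, Ey, zero_mul]
  · rw [mul_assoc, xE, mul_zero]
  · rw [← mul_assoc, Exy, EE]

lemma Ev (j : Fin 2) : E * v j = v j := by
  fin_cases j <;> simp [v]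
  · exact EE
  · rw [← mul_assoc, EE]

lemma uvuv (i j k l : Fin 2) : (u i * v j) * (u k * v l) = if j = k then u i * v l else 0 := by
  have h : (u i * v j) * (u k * v l) = u i * ((v j * u k) * v l) := by simp only [mul_assoc]
  rw [h, vu]
  split_ifs
  · rw [Ev]
  · simp

abbrev M2 : Type := Matrix (Fin 2) (Fin 2) (ZMod 3)

noncomputable def Psi (M : M2) : Q := ∑ i, ∑ j, M i j • (u i * v j)

lemma Psi_add (M N : M2) : Psi (M + N) = Psi M + Psi N := by
  simp [Psi, add_smul, Finset.sum_add_distrib]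

lemma Psi_smul (a : ZMod 3) (M : M2) : Psi (a • M) = a • Psi M := by
  simp [Psi, mul_smul, Finset.smul_sum]

lemma Psi_mul (M N : M2) : Psi (M * N) = Psi M * Psi N := by
  unfold Psi
  simp only [Finset.sum_mul, Finset.mul_sum, smul_mul_smul_comm, uvuv, Matrix.mul_apply,
    Finset.sum_smul]
  simp only [Fin.sum_univ_two]
  simp
  abel

/-- the four dimensional full matrix block plus the complementary idempotent -/
noncomputable def Phi : (ZMod 3 × M2) →ₐ[ZMod 3] Q where
  toFun p := p.1 • (1 - Psi 1) + Psi p.2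
  map_one' := by simp
  map_mul' p q := by
    show (p.1 * q.1) • (1 - Psi 1) + Psi (p.2 * q.2) = (p.1 • (1 - Psi 1) + Psi p.2) * (q.1 • (1 - Psi 1) + Psi q.2)
    have h1 : (1 - Psi 1) * (1 - Psi 1) = 1 - Psi 1 := by
      rw [mul_sub, sub_mul, sub_mul, ← Psi_mul]; simp
    have h2 : ∀ N, (1 - Psi 1) * Psi N = 0 := by
      intro N; rw [sub_mul, ← Psi_mul]; simp
    have h3 : ∀ N, Psi N * (1 - Psi 1) = 0 := by
      intro N; rw [mul_sub, ← Psi_mul]; simp
    rw [mul_add, add_mul, add_mul, smul_mul_smul_comm, h1, smul_mul_assoc, h2, mul_smul_comm, h3, Psi_mul]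
    simp
  map_zero' := by
    have : Psi 0 = 0 := by simp [Psi]
    simp [this]
  map_add' p q := by
    show (p.1 + q.1) • (1 - Psi 1) + Psi (p.2 + q.2) = _
    rw [Psi_add, add_smul]; abel
  commutes' a := by
    show a • (1 - Psi 1) + Psi (algebraMap (ZMod 3) M2 a) = _
    rw [Algebra.algebraMap_eq_smul_one, Psi_smul, Algebra.algebraMap_eq_smul_one, smul_sub]
    abel

/-! ### the standard polynomial -/

def S {m : ℕ} {A : Type} [Ring A] (w : Fin m → A) : A :=
  ∑ σ : Equiv.Perm (Fin m), ((Equiv.Perm.sign σ : ℤˣ) : ℤ) • (List.ofFn fun i => w (σ i)).prod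

lemma S_map {m : ℕ} {A B : Type} [Ring A] [Ring B] (g : A →+* B) (w : Fin m → A) :
    g (S w) = S (fun i => g (w i)) := by
  unfold S
  rw [map_sum]
  apply Finset.sum_congr rfl
  intro σ _
  rw [map_zsmul, map_list_prod, List.map_ofFn]
  rfl

lemma S_alt {m : ℕ} {A : Type} [Ring A] [Algebra (ZMod 3) A] (w : Fin m → A) :
    S w = MultilinearMap.alternatization (MultilinearMap.mkPiAlgebraFin (ZMod 3) m A) w := by
  rw [MultilinearMap.alternatization_apply]
  rfl

def m0 : Fin (2*2) → M2 :=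
  ![!![1,0;0,0], !![0,1;0,0], !![0,0;1,0], !![0,0;0,1]]

lemma S_m0 : S m0 = 0 := by
  unfold S m0
  decide +kernel

def idx : Fin (2*2) ≃ Fin 2 × Fin 2 := finProdFinEquiv.symm

lemma basis_idx (i : Fin (2*2)) : (Matrix.stdBasis (ZMod 3) (Fin 2) (Fin 2)) (idx i) = m0 i := by
  rw [show idx i = ((idx i).1, (idx i).2) from rfl, Matrix.stdBasis_eq_single]
  fin_cases i <;> decide +kernel

lemma S_M2 (w : Fin (2*2) → M2) : S w = 0 := by
  rw [S_alt]
  have h : MultilinearMap.alternatization (MultilinearMap.mkPiAlgebraFin (ZMod 3) (2*2) M2) = 0 := by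
    apply Module.Basis.ext_alternating (Matrix.stdBasis (ZMod 3) (Fin 2) (Fin 2))
    intro v hv
    set g : Fin (2*2) → Fin (2*2) := fun i => idx.symm (v i) with hg
    have hgi : Function.Injective g := fun i j hij => hv (idx.symm.injective hij)
    set σ : Equiv.Perm (Fin (2*2)) := Equiv.ofBijective g (Finite.injective_iff_bijective.1 hgi) with hσ
    have h1 : (fun i => (Matrix.stdBasis (ZMod 3) (Fin 2) (Fin 2)) (v i)) = m0 ∘ σ := by
      funext i
      show _ = m0 (idx.symm (v i))
      rw [← basis_idx, Equiv.apply_symm_apply]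
    rw [h1, AlternatingMap.map_perm, ← S_alt, S_m0]
    simp
  rw [h]; rfl

lemma S_F (w : Fin (2*2) → ZMod 3) : S w = 0 := by
  rw [S_alt]
  have h : MultilinearMap.alternatization (MultilinearMap.mkPiAlgebraFin (ZMod 3) (2*2) (ZMod 3)) = 0 := by
    apply Module.Basis.ext_alternating (Module.Basis.singleton Unit (ZMod 3))
    intro v hv
    exact absurd (hv (a₁ := 0) (a₂ := 1) rfl) (by decide)
  rw [h]; rfl

lemma S_prod (w : Fin (2*2) → ZMod 3 × M2) : S w = 0 := by
  apply Prod.ext
  · have := S_map (RingHom.fst (ZMod 3) M2) w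
    rw [S_F] at this
    exact this
  · have := S_map (RingHom.snd (ZMod 3) M2) w
    rw [S_M2] at this
    exact this

/-! ### Nonvanishing of `E` -/

abbrev M3 : Type := Matrix (Fin 3) (Fin 3) (ZMod 3)

def mx : M3 := !![0, 1, 0; 0, 0, 2; 0, 0, 0]
def my : M3 := !![0, 0, 0; 1, 0, 0; 0, 1, 0]

lemma mxy : mx * my - my * mx = 1 := by decide

lemma rho_aux : ∀ a b c a' b' c' : ZMod 3,
    (b * c' - c * b') • (1 : M3) + (0 : ZMod 3) • mx + (0 : ZMod 3) • my =
      (a • (1 : M3) + b • mx + c • my) * (a' • (1 : M3) + b' • mx + c' • my) -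
      (a' • (1 : M3) + b' • mx + c' • my) * (a • (1 : M3) + b • mx + c • my) := by
  decide +kernel

def rho : H →ₗ⁅ZMod 3⁆ M3 where
  toFun u := u.1 • (1 : M3) + u.2.1 • mx + u.2.2 • my
  map_add' u v := by simp only [add1, add2, add3, add_smul]; abel
  map_smul' a u := by simp only [smul1, smul2, smul3, mul_smul, smul_add]; rfl
  map_lie' {u v} := by
    rw [LieRing.of_associative_ring_bracket]
    exact rho_aux u.1 u.2.1 u.2.2 v.1 v.2.1 v.2.2

lemma rho_cube (u : H) : (rho u) ^ 3 = rho (f u) := by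
  have h : ∀ a b c : ZMod 3, (a • (1 : M3) + b • mx + c • my) ^ 3 = a • (1 : M3) + (0 : ZMod 3) • mx + (0 : ZMod 3) • my := by
    decide +kernel
  exact h u.1 u.2.1 u.2.2

noncomputable def rep : Q →ₐ[ZMod 3] M3 :=
  RingQuot.liftAlgHom (ZMod 3) ⟨UniversalEnvelopingAlgebra.lift (ZMod 3) rho, by
    rintro a b ⟨x, rfl, rfl⟩
    rw [map_pow, UniversalEnvelopingAlgebra.lift_ι_apply, UniversalEnvelopingAlgebra.lift_ι_apply]
    exact rho_cube x⟩

lemma rep_pr (h : H) : rep (pr (io h)) = rho h := by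
  unfold rep pr
  rw [RingQuot.liftAlgHom_mkAlgHom_apply]
  exact UniversalEnvelopingAlgebra.lift_ι_apply _ _ _

lemma E_ne : E ≠ 0 := by
  intro h
  have h2 := congrArg rep h
  have hx' : rep x = mx := (rep_pr hx).trans (by decide +kernel)
  have hy' : rep y = my := (rep_pr hy).trans (by decide +kernel)
  have hz' : rep z = 1 := (rep_pr hz).trans (by decide +kernel)
  simp only [E, d, map_neg, map_mul, map_add, map_zero, hx', hy', hz'] at h2
  revert h2
  decide +kernel

/-! ### Lower bound -/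

noncomputable def R : Subalgebra (ZMod 3) Q := Phi.range

noncomputable def r0 : R := ⟨Phi (0, !![0,1;0,0]), ⟨_, rfl⟩⟩
noncomputable def r1 : R := ⟨Phi (0, !![0,0;1,0]), ⟨_, rfl⟩⟩

lemma Phi_comm : Phi (0, !![0,1;0,0]) * Phi (0, !![0,0;1,0]) - Phi (0, !![0,0;1,0]) * Phi (0, !![0,1;0,0])
    = Phi (0, !![1,0;0,-1]) := by
  rw [← map_mul, ← map_mul, ← map_sub]
  congr 1
  decide +kernel

lemma Phi_E (c : ZMod 3) : Phi (0, !![1,0;0,0]) * Phi (0, !![1,0;0,c]) = Phi (0, !![1,0;0,0]) := by
  rw [← map_mul]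
  congr 1
  revert c
  decide +kernel

lemma Phi_E_eq : Phi (0, !![1,0;0,0]) = E := by
  show (0 : ZMod 3) • (1 - Psi 1) + Psi !![1,0;0,0] = E
  simp [Psi, u, v, Fin.sum_univ_two, EE]

lemma pow_ne (m : ℕ) : (Phi (0, !![1,0;0,-1])) ^ m ≠ 0 := by
  have h : Phi (0, !![1,0;0,0]) * (Phi (0, !![1,0;0,-1])) ^ m = Phi (0, !![1,0;0,0]) := by
    induction m with
    | zero => simp
    | succ m ih => rw [pow_succ, ← mul_assoc, ih, Phi_E]
  intro h0
  rw [h0, mul_zero, Phi_E_eq] at h
  exact E_ne h.symm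

instance : Nontrivial R := by
  refine ⟨⟨0, ⟨E, ⟨(0, !![1,0;0,0]), Phi_E_eq⟩⟩, ?_⟩⟩
  intro h
  exact E_ne (congrArg Subtype.val h).symm

instance : Finite R := by
  have : Finite (ZMod 3 × M2) := inferInstance
  exact (Set.finite_range Phi).to_subtype

lemma PI : ∃ k : ℕ, ∃ φ : FreeAlgebra (ZMod 3) (Fin k), φ ≠ 0 ∧
    ∀ x : Fin k → R, FreeAlgebra.lift (ZMod 3) x φ = 0 := by
  obtain ⟨a, b, hab, h⟩ := Finite.exists_ne_map_eq_of_infinite (fun n : ℕ => fun t : R => t ^ n)
  refine ⟨1, (FreeAlgebra.ι (ZMod 3) 0) ^ a - (FreeAlgebra.ι (ZMod 3) 0) ^ b, ?_, ?_⟩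
  · intro h0
    have h1 := congrArg (FreeAlgebra.lift (ZMod 3) (fun _ : Fin 1 => (Polynomial.X : Polynomial (ZMod 3)))) h0
    rw [map_sub, map_pow, map_pow, FreeAlgebra.lift_ι_apply, map_zero, sub_eq_zero] at h1
    have h2 := congrArg Polynomial.natDegree h1
    rw [Polynomial.natDegree_X_pow, Polynomial.natDegree_X_pow] at h2
    exact hab h2
  · intro x
    rw [map_sub, map_pow, map_pow, FreeAlgebra.lift_ι_apply]
    exact sub_eq_zero.2 (congrFun h (x 0))

lemma S_R (w : Fin (2*2) → R) : S w = 0 := by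
  choose q hq using fun i => (w i).2
  have h1 : (S w : R).1 = S (fun i => (w i).1) := S_map R.val.toRingHom w
  have h2 : (fun i => (w i).1) = fun i => Phi (q i) := funext fun i => (hq i).symm
  have h3 : S (fun i => Phi (q i)) = Phi (S q) := (S_map Phi.toRingHom q).symm
  rw [S_prod, map_zero] at h3
  rw [h2, h3] at h1
  exact Subtype.ext h1

lemma low0 : ¬ ∃ m : ℕ, 1 ≤ m ∧ ∀ x : Fin (2 * 0) → R, (S x) ^ m = 0 := by
  rintro ⟨m, -, h⟩
  have h1 := h (fun _ => 0)
  have h2 : S (fun _ : Fin (2 * 0) => (0 : R)) = 1 := by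
    unfold S
    rw [Fintype.sum_eq_single (1 : Equiv.Perm (Fin (2 * 0)))]
    · simp
    · intro σ hσ
      exact absurd (Equiv.ext fun i => Fin.elim0 i) hσ
  rw [h2, one_pow] at h1
  exact one_ne_zero h1

lemma low1 : ¬ ∃ m : ℕ, 1 ≤ m ∧ ∀ x : Fin (2 * 1) → R, (S x) ^ m = 0 := by
  rintro ⟨m, -, h⟩
  have h1 := h ![r0, r1]
  have h2 : S (![r0, r1] : Fin (2 * 1) → R) = r0 * r1 - r1 * r0 := by
    unfold S
    have hu : (Finset.univ : Finset (Equiv.Perm (Fin (2 * 1)))) = {1, Equiv.swap 0 1} := by decide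
    rw [hu, Finset.sum_insert (by decide), Finset.sum_singleton]
    simp [Equiv.Perm.sign_swap]
    rw [sub_eq_add_neg]
  rw [h2] at h1
  have h3 := congrArg Subtype.val h1
  have h4 : ((r0 * r1 - r1 * r0 : R) ^ m).1 = (Phi (0, !![1,0;0,-1])) ^ m := by
    rw [← Phi_comm]; rfl
  rw [h4] at h3
  exact pow_ne m h3

/-- The negation of the preceding statement: For any restricted Lie algebra L over a field of characteristic p and any PI subalgebra R of its restricted enveloping algebra, the least n such that some power of the standard polynomial S_{2n} vanishes identically on R is a power of p. -/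
theorem result :
    ¬ (∀ (p : ℕ), p.Prime → ∀ (F : Type) [Field F] [CharP F p]
      (L : Type) [LieRing L] [LieAlgebra F L] (f : L → L),
      (∀ x y : L,
        (UniversalEnvelopingAlgebra.ι F (x + y)) ^ p - UniversalEnvelopingAlgebra.ι F (f (x + y)) =
          ((UniversalEnvelopingAlgebra.ι F x) ^ p - UniversalEnvelopingAlgebra.ι F (f x)) +
          ((UniversalEnvelopingAlgebra.ι F y) ^ p - UniversalEnvelopingAlgebra.ι F (f y))) →
      (∀ (a : F) (x : L),
        (UniversalEnvelopingAlgebra.ι F (a • x)) ^ p - UniversalEnvelopingAlgebra.ι F (f (a • x)) =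
          a ^ p • ((UniversalEnvelopingAlgebra.ι F x) ^ p - UniversalEnvelopingAlgebra.ι F (f x))) →
      (∀ x y : L,
        Commute ((UniversalEnvelopingAlgebra.ι F x) ^ p - UniversalEnvelopingAlgebra.ι F (f x))
          (UniversalEnvelopingAlgebra.ι F y)) →
      ∀ R : Subalgebra F (RingQuot (fun a b : UniversalEnvelopingAlgebra F L =>
          ∃ x : L, a = (UniversalEnvelopingAlgebra.ι F x) ^ p ∧ b = UniversalEnvelopingAlgebra.ι F (f x))),
      (∃ k : ℕ, ∃ φ : FreeAlgebra F (Fin k), φ ≠ 0 ∧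
          ∀ x : Fin k → R, FreeAlgebra.lift F x φ = 0) →
      ∀ n : ℕ,
        (∃ m : ℕ, 1 ≤ m ∧ ∀ x : Fin (2 * n) → R,
          (∑ σ : Equiv.Perm (Fin (2 * n)),
            ((Equiv.Perm.sign σ : ℤˣ) : ℤ) • (List.ofFn fun i => x (σ i)).prod) ^ m = 0) →
        (∀ n' : ℕ, n' < n → ¬ ∃ m : ℕ, 1 ≤ m ∧ ∀ x : Fin (2 * n') → R,
          (∑ σ : Equiv.Perm (Fin (2 * n')),
            ((Equiv.Perm.sign σ : ℤˣ) : ℤ) • (List.ofFn fun i => x (σ i)).prod) ^ m = 0) →
        ∃ k : ℕ, n = p ^ k) := by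
  intro H0
  have h := H0 3 Nat.prime_three (ZMod 3) H f ?_ ?_ ?_ R PI 2 ⟨1, le_rfl, fun w => ?_⟩ ?_
  · obtain ⟨k, hk⟩ := h
    rcases k with _ | k
    · norm_num at hk
    · have : 3 ≤ 3 ^ (k + 1) := by
        rw [pow_succ]; have := Nat.one_le_pow k 3 (by norm_num); omega
      omega
  · intro a b
    have h1 := cube_add a b
    have h2 : io (f (a + b)) = io (f a) + io (f b) := by rw [f_add, map_add]
    show (io (a + b)) ^ 3 - io (f (a + b)) = ((io a) ^ 3 - io (f a)) + ((io b) ^ 3 - io (f b))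
    rw [h1, h2]; abel
  · intro a b
    show (io (a • b)) ^ 3 - io (f (a • b)) = a ^ 3 • ((io b) ^ 3 - io (f b))
    have h3 : a ^ 3 = a := by revert a; decide
    rw [f_smul, map_smul, map_smul, smul_pow, h3, smul_sub]
  · intro a b
    show ((io a) ^ 3 - io (f a)) * io b = io b * ((io a) ^ 3 - io (f a))
    rw [sub_mul, mul_sub, cube_comm, f_central]
  · rw [pow_one]; exact S_R w
  · intro n' hn'
    interval_cases n'
    · exact low0
    · exact low1

end Pool.Agent.S02072
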