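import Pool.Statements.S02252
import Mathlib

set_option autoImplicit false
open Pool Pool.MP_de34bb_al

namespace Pool.Agent.S02252

open Matrix Matrix.SpecialLinearGroup MulAction
open scoped LinearAlgebra.Projectivization Pointwise commutatorElement

section general

variable {ι F : Type*} [DecidableEq ι] [Fintype ι] [Field F]

lemma wexp {i j : ι} (hij : i ≠ j) (x y : F) (hxy : x * y = -1) :
    (1 + single i j x) * (1 + single j i y) * (1 + single i j x) =
      (1 : Matrix ι ι F) - single i i 1 - single j j 1 + single i j x + single j i y := by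
  have hyx : y * x = -1 := by rw [mul_comm]; exact hxy
  simp only [mul_add, add_mul, mul_one, one_mul, single_mul_single_same,
    single_mul_single_of_ne _ _ _ _ hij.symm, single_mul_single_of_ne _ _ _ _ hij, hxy, hyx,
    add_zero, zero_add, zero_mul, neg_mul, one_mul, mul_neg]
  simp only [← single_neg, sub_eq_add_neg]
  have : (single i j (-x) : Matrix ι ι F) = - single i j x := by rw [single_neg]
  abel_nf

lemma diag2n_decomp {i j : ι} (hij : i ≠ j) (a : F) (ha : a ≠ 0) :
    diag2n hij a ha =
      (SpecialLinearGroup.transvection hij a * SpecialLinearGroup.transvection hij.symm (-a⁻¹) *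
        SpecialLinearGroup.transvection hij a) *
      (SpecialLinearGroup.transvection hij (-1) * SpecialLinearGroup.transvection hij.symm 1 *
        SpecialLinearGroup.transvection hij (-1)) := by
  apply Subtype.ext
  change (diag2n hij a ha).1 =
    ((1 + single i j a) * (1 + single j i (-a⁻¹)) * (1 + single i j a)) *
      ((1 + single i j (-1)) * (1 + single j i 1) * (1 + single i j (-1)))
  rw [wexp hij a (-a⁻¹) (by field_simp), wexp hij (-1) 1 (by ring)]
  rw [diag2n_coe]
  have e1 : (diagonal (fun k ↦ if k = i then a else if k = j then a⁻¹ else 1) : Matrix ι ι F) =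
      1 - single i i 1 - single j j 1 + single i i a + single j j a⁻¹ := by
    ext k l
    by_cases hkl : k = l
    · subst hkl
      by_cases h1 : k = i
      · subst h1; simp [Matrix.single_apply, hij, hij.symm]
      · by_cases h2 : k = j
        · subst h2; simp [Matrix.single_apply, hij, hij.symm, h1]
        · have h1' : ¬ i = k := fun h => h1 h.symm
          have h2' : ¬ j = k := fun h => h2 h.symm
          simp [Matrix.single_apply, h1, h2, h1', h2']
    · simp only [diagonal_apply_ne _ hkl, Matrix.add_apply, Matrix.sub_apply, Matrix.one_apply_ne hkl,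
        Matrix.single_apply]
      have a1 : ¬ (i = k ∧ i = l) := by rintro ⟨h1, h2⟩; exact hkl (h1.symm.trans h2)
      have a2 : ¬ (j = k ∧ j = l) := by rintro ⟨h1, h2⟩; exact hkl (h1.symm.trans h2)
      simp [a1, a2]
  rw [e1]
  simp only [mul_add, add_mul, mul_one, one_mul, sub_mul, mul_sub, single_mul_single_same,
    single_mul_single_of_ne _ _ _ _ hij.symm, single_mul_single_of_ne _ _ _ _ hij,
    add_zero, zero_add, zero_mul, neg_mul, one_mul, mul_neg, sub_zero, zero_sub]
  simp only [single_neg, neg_neg]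
  abel


theorem transvection_induct [Nontrivial ι] (P : SpecialLinearGroup ι F → Prop)
    (ht : ∀ (i j : ι) (h : i ≠ j) c, P (SpecialLinearGroup.transvection h c))
    (hmul : ∀ A B, P A → P B → P (A * B)) (A : SpecialLinearGroup ι F) : P A := by
  refine diagonal_transvection_induction' P _ (fun i j hij c hc ↦ ?_) ht hmul
  rw [diag2n_decomp hij c hc]
  refine hmul _ _ (hmul _ _ (hmul _ _ ?_ ?_) ?_) (hmul _ _ (hmul _ _ ?_ ?_) ?_)
  all_goals exact ht _ _ _ _

lemma comm_transv {i j k : ι} (hij : i ≠ j) (hik : i ≠ k) (hkj : k ≠ j) (c : F) :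
    ⁅(SpecialLinearGroup.transvection hik c : SpecialLinearGroup ι F),
      SpecialLinearGroup.transvection hkj 1⁆ = SpecialLinearGroup.transvection hij c := by
  rw [commutatorElement_def, transvection_inv, transvection_inv]
  apply Subtype.ext
  change (1 + single i k c) * (1 + single k j 1) * (1 + single i k (-c)) * (1 + single k j (-1)) =
    1 + single i j c
  simp only [mul_add, add_mul, mul_one, one_mul, single_mul_single_same,
    single_mul_single_of_ne _ _ _ _ hij.symm, single_mul_single_of_ne _ _ _ _ hik.symm,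
    single_mul_single_of_ne _ _ _ _ hkj.symm, single_mul_single_of_ne _ _ _ _ hij,
    single_mul_single_of_ne _ _ _ _ hik, single_mul_single_of_ne _ _ _ _ hkj,
    add_zero, zero_add, mul_neg]
  simp only [← single_neg]
  abel

theorem perfect (h3 : ∀ i j : ι, i ≠ j → ∃ k, i ≠ k ∧ k ≠ j) [Nontrivial ι] :
    commutator (SpecialLinearGroup ι F) = ⊤ := by
  refine le_antisymm le_top (fun A _ ↦ transvection_induct _ ?_ (fun _ _ ↦ mul_mem) A)
  intro i j h c
  obtain ⟨k, h1, h2⟩ := h3 i j h
  rw [← comm_transv h h1 h2 c]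
  exact Subgroup.commutator_mem_commutator (Subgroup.mem_top _) (Subgroup.mem_top _)

lemma transvection_mem_lineStab {i j : ι} (hij : i ≠ j) (b : F) :
    SpecialLinearGroup.transvection hij b ∈
      lineStab (Submodule.span F {(Pi.single i (1 : F) : ι → F)}) :=
  fun w ↦ Submodule.mem_span_singleton.2 ⟨b * w j, by simp [mul_smul,
    Matrix.SpecialLinearGroup.smul_def, transvection_coe, add_smul, Matrix.single_mulVec_eq]⟩

lemma iSup_lineStab [Nontrivial ι] :
    (⨆ p : ℙ F (ι → F), lineStab p.submodule) = (⊤ : Subgroup (SpecialLinearGroup ι F)) := by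
  refine le_antisymm le_top (fun A _ ↦ transvection_induct _ ?_ (fun _ _ ↦ mul_mem) A)
  intro i j h c
  have h1 := transvection_mem_lineStab (F := F) h c
  have hne : (Pi.single i (1 : F) : ι → F) ≠ 0 := by
    rw [Ne, Pi.single_eq_zero_iff]; exact one_ne_zero
  rw [← Projectivization.submodule_mk (K := F) _ hne] at h1
  exact Subgroup.mem_iSup_of_mem _ h1

noncomputable def iwa [Nontrivial ι] :
    IwasawaStructure (SpecialLinearGroup ι F) (ℙ F (ι → F)) where
  T p := lineStab p.submodule
  is_comm p := by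
    rw [← Projectivization.mk_rep p, Projectivization.submodule_mk]
    exact lineStab_isMulCommutative_of_span p.rep p.rep_nonzero
  is_conj g p := by
    rw [PSL.smul_submodule, Matrix.SpecialLinearGroup.lineStab_smul]
  is_generator := iSup_lineStab

theorem normal_cases [Nontrivial ι] (h3 : ∀ i j : ι, i ≠ j → ∃ k, i ≠ k ∧ k ≠ j)
    (N : Subgroup (SpecialLinearGroup ι F)) [N.Normal] :
    N = ⊤ ∨ N ≤ Subgroup.center (SpecialLinearGroup ι F) := by
  by_cases h : MulAction.fixedPoints N (ℙ F (ι → F)) = .univ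
  · right
    rw [← Projectivization.SL_mulAction_ker]
    intro n hn
    rw [MonoidHom.mem_ker]
    ext p
    have : p ∈ MulAction.fixedPoints N (ℙ F (ι → F)) := by rw [h]; trivial
    exact this ⟨n, hn⟩
  · left
    have h1 := iwa.commutator_le N h
    rw [perfect h3] at h1
    exact top_le_iff.1 h1

end general

/-! ### the example in `GL(4,5)` -/

instance fact5 : Fact (Nat.Prime 5) := ⟨by norm_num⟩

abbrev K := ZMod 5
abbrev G := GL (Fin 4) K

noncomputable def a : G :=
  Matrix.GeneralLinearGroup.mkOfDetNeZero (Matrix.diagonal ![2, 1, 1, 1] : Matrix (Fin 4) (Fin 4) K)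
    (by rw [Matrix.det_diagonal]; simp [Fin.prod_univ_succ]; decide)

lemma a_coe : (a : Matrix (Fin 4) (Fin 4) K) = Matrix.diagonal ![2, 1, 1, 1] := rfl

noncomputable def L : Subgroup G := (Matrix.GeneralLinearGroup.det : G →* Kˣ).ker

instance : L.Normal := MonoidHom.normal_ker _

lemma mem_L (g : G) : g ∈ L ↔ (g : Matrix (Fin 4) (Fin 4) K).det = 1 := by
  unfold L
  rw [MonoidHom.mem_ker, Units.ext_iff]
  rfl

lemma L_eq : L = (Matrix.SpecialLinearGroup.toGL : SpecialLinearGroup (Fin 4) K →* G).range := by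
  ext g
  rw [mem_L, MonoidHom.mem_range]
  constructor
  · intro h
    let s : SpecialLinearGroup (Fin 4) K := ⟨(g : Matrix (Fin 4) (Fin 4) K), h⟩
    have hs : (s : Matrix (Fin 4) (Fin 4) K) = (g : Matrix (Fin 4) (Fin 4) K) := rfl
    refine ⟨s, ?_⟩
    apply Units.ext
    rw [coe_GL_coe_matrix, hs]
  · rintro ⟨s, rfl⟩
    rw [coe_GL_coe_matrix]
    exact s.det_coe

lemma h3 : ∀ i j : Fin 4, i ≠ j → ∃ k, i ≠ k ∧ k ≠ j := by decide

lemma L_perfect : ⁅L, L⁆ = L := by
  rw [L_eq, MonoidHom.range_eq_map, ← Subgroup.map_commutator]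
  have := perfect (ι := Fin 4) (F := K) h3
  rw [commutator_def] at this
  rw [this]

/-- the centralizer of `L` consists of scalar matrices -/
lemma cent_scalar (g : G) (hg : g ∈ Subgroup.centralizer (L : Set G)) :
    ∃ r : K, (g : Matrix (Fin 4) (Fin 4) K) = Matrix.scalar (Fin 4) r := by
  have : (g : Matrix (Fin 4) (Fin 4) K) ∈ Set.range (Matrix.scalar (Fin 4)) := by
    apply Matrix.mem_range_scalar_of_commute_transvectionStruct
    intro t
    rw [Subgroup.mem_centralizer_iff] at hg
    have h1 := hg (Matrix.SpecialLinearGroup.toGL t.toSpecialLinearGroup) (by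
      show _ ∈ L
      rw [L_eq]; exact ⟨_, rfl⟩)
    have h2 := congrArg (fun u : G => (u : Matrix (Fin 4) (Fin 4) K)) h1
    exact h2
  obtain ⟨r, hr⟩ := this
  exact ⟨r, hr.symm⟩

lemma cent_le : Subgroup.centralizer (L : Set G) ≤ L := by
  intro g hg
  obtain ⟨r, hr⟩ := cent_scalar g hg
  rw [mem_L, hr]
  have hdet : (g : Matrix (Fin 4) (Fin 4) K).det ≠ 0 := g.det.ne_zero
  rw [hr] at hdet
  have e : (Matrix.scalar (Fin 4) r).det = r ^ 4 := by
    simp [Matrix.scalar_apply, Matrix.det_diagonal]
  rw [e] at hdet ⊢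
  have : ∀ r : K, r ^ 4 ≠ 0 → r ^ 4 = 1 := by decide
  exact this r hdet

lemma a_pow (k : ℕ) : ((a ^ k : G) : Matrix (Fin 4) (Fin 4) K) = Matrix.diagonal ![2 ^ k, 1, 1, 1] := by
  rw [Units.val_pow_eq_pow_val, a_coe, Matrix.diagonal_pow]
  congr 1
  ext i
  fin_cases i <;> simp

lemma a4 : a ^ 4 = 1 := by
  apply Units.ext
  rw [a_pow]
  have : (2 : K) ^ 4 = 1 := by decide
  rw [this]
  ext i j
  fin_cases i <;> fin_cases j <;> simp

lemma det_a_pow (k : ℕ) : ((a ^ k : G) : Matrix (Fin 4) (Fin 4) K).det = 2 ^ k := by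
  rw [a_pow, Matrix.det_diagonal]
  simp [Fin.prod_univ_succ]

lemma a2 : a ^ 2 ≠ 1 := by
  intro h
  have h1 := det_a_pow 2
  rw [h] at h1
  simp at h1
  revert h1
  decide

lemma ord_a : orderOf a = 4 := by
  have := orderOf_eq_prime_pow (x := a) (p := 2) (n := 1) (by simpa using a2) (by simpa using a4)
  simpa using this

lemma mem_A (x : G) (hx : x ∈ Subgroup.zpowers a) : ∃ k < 4, x = a ^ k := by
  rw [mem_zpowers_iff_mem_range_orderOf, ord_a] at hx
  rw [Finset.mem_image] at hx
  obtain ⟨k, hk, rfl⟩ := hx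
  exact ⟨k, Finset.mem_range.1 hk, rfl⟩

/-- if `g` commutes with `a ^ 2` then `g` commutes with `a` -/
lemma comm_a (g : G) (h : g * a ^ 2 = a ^ 2 * g) : g * a = a * g := by
  have h1 := congrArg (fun u : G => (u : Matrix (Fin 4) (Fin 4) K)) h
  simp only [Units.val_mul] at h1
  rw [a_pow] at h1
  apply Units.ext
  simp only [Units.val_mul]
  rw [a_coe]
  ext i j
  have h2 := congrFun (congrFun h1 i) j
  rw [Matrix.mul_diagonal, Matrix.diagonal_mul] at h2 ⊢
  have key : ∀ x : K, (x * 1 = 2 ^ 2 * x → x * 1 = 2 * x) ∧ (x * 2 ^ 2 = 1 * x → x * 2 = 1 * x) := by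
    decide
  generalize (g : Matrix (Fin 4) (Fin 4) K) i j = x at h2 ⊢
  fin_cases i <;> fin_cases j <;>
    simp only [Matrix.cons_val_zero, Matrix.cons_val_one, Fin.mk_zero, Fin.mk_one, Fin.isValue,
      Fin.zero_eta, Fin.reduceFinMk, Matrix.cons_val] at h2 ⊢ <;>
    first
    | exact (key x).1 h2
    | exact (key x).2 h2
    | ring

lemma TI (g : G) : (∀ x ∈ Subgroup.zpowers a, g * x * g⁻¹ ∈ Subgroup.zpowers a → x = 1) ∨
    (∀ x ∈ Subgroup.zpowers a, g * x * g⁻¹ ∈ Subgroup.zpowers a) := by
  by_cases h : ∀ x ∈ Subgroup.zpowers a, g * x * g⁻¹ ∈ Subgroup.zpowers a → x = 1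
  · exact Or.inl h
  · right
    push Not at h
    obtain ⟨x, hx, hgx, hx1⟩ := h
    obtain ⟨k, hk, rfl⟩ := mem_A x hx
    obtain ⟨l, hl, hl'⟩ := mem_A _ hgx
    have ha4 := a4
    have ha2 := a2
    have conj_pow' : ∀ n : ℕ, g * (a ^ k) ^ n * g⁻¹ = (a ^ l) ^ n := by
      intro n
      rw [← hl', conj_pow]
    have hk0 : k ≠ 0 := by rintro rfl; exact hx1 (pow_zero a)
    have hcomm : g * a ^ 2 * g⁻¹ = a ^ 2 := by
      interval_cases k
      · exact absurd rfl hk0
      · -- k = 1
        have h2 := conj_pow' 2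
        rw [pow_one] at h2
        interval_cases l
        · exfalso
          rw [pow_zero, one_pow, conj_eq_one_iff] at h2
          exact ha2 h2
        · rw [pow_one] at h2; exact h2
        · exfalso
          rw [← pow_mul, ha4, conj_eq_one_iff] at h2
          exact ha2 h2
        · rw [← pow_mul] at h2
          rw [h2, show 3 * 2 = 4 + 2 from rfl, pow_add, ha4, one_mul]
      · -- k = 2
        interval_cases l
        · exfalso
          rw [pow_zero, conj_eq_one_iff] at hl'
          exact ha2 hl'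
        · exfalso
          have h2 := conj_pow' 2
          rw [← pow_mul, ha4, mul_one, mul_inv_cancel, pow_one] at h2
          exact ha2 h2.symm
        · exact hl'
        · exfalso
          have h2 := conj_pow' 2
          rw [← pow_mul, ha4, mul_one, mul_inv_cancel, ← pow_mul,
            show 3 * 2 = 4 + 2 from rfl, pow_add, ha4, one_mul] at h2
          exact ha2 h2.symm
      · -- k = 3
        have h2 := conj_pow' 2
        rw [← pow_mul, show 3 * 2 = 4 + 2 from rfl, pow_add, ha4, one_mul] at h2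
        interval_cases l
        · exfalso
          rw [pow_zero, one_pow, conj_eq_one_iff] at h2
          exact ha2 h2
        · rw [pow_one] at h2; exact h2
        · exfalso
          rw [← pow_mul, ha4, conj_eq_one_iff] at h2
          exact ha2 h2
        · rw [← pow_mul] at h2
          rw [h2, show 3 * 2 = 4 + 2 from rfl, pow_add, ha4, one_mul]
    have hc : g * a = a * g := comm_a g (by
      calc g * a ^ 2 = (g * a ^ 2 * g⁻¹) * g := by group
        _ = a ^ 2 * g := by rw [hcomm])
    intro y hy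
    obtain ⟨n, _, rfl⟩ := mem_A y hy
    have : g * a ^ n * g⁻¹ = a ^ n := by
      have h5 : Commute g (a ^ n) := (show Commute g a from hc).pow_right n
      rw [h5.eq, mul_assoc, mul_inv_cancel, mul_one]
    rw [this]
    exact hy

lemma quasi (N : Subgroup G) (hN : N ≤ L) (hnorm : ∀ l ∈ L, ∀ n ∈ N, l * n * l⁻¹ ∈ N) :
    N = L ∨ N ≤ Subgroup.centralizer (L : Set G) := by
  set φ : SpecialLinearGroup (Fin 4) K →* G := Matrix.SpecialLinearGroup.toGL with hφ
  have hL : ∀ s, φ s ∈ L := fun s => by rw [L_eq]; exact ⟨s, rfl⟩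
  have hn : (N.comap φ).Normal := by
    constructor
    intro n hn g
    rw [Subgroup.mem_comap] at hn ⊢
    rw [map_mul, map_mul, map_inv]
    exact hnorm _ (hL g) _ hn
  rcases normal_cases h3 (N.comap φ) with h | h
  · left
    apply le_antisymm hN
    intro x hx
    have hx' := hx
    rw [L_eq] at hx'
    obtain ⟨s, rfl⟩ := hx'
    have : s ∈ N.comap φ := by rw [h]; trivial
    exact this
  · right
    intro x hx
    rw [Subgroup.mem_centralizer_iff]
    intro y hy
    have hx' := hN hx
    rw [L_eq] at hx'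
    have hy' : y ∈ L := hy
    rw [L_eq] at hy'
    obtain ⟨s, rfl⟩ := hx'
    obtain ⟨t, rfl⟩ := hy'
    have hs : s ∈ Subgroup.center _ := h hx
    rw [Subgroup.mem_center_iff] at hs
    rw [← map_mul, ← map_mul, hs t]

/-- The negation of the preceding statement: In a finite group G, if a cyclic subgroup A of order 4 is a TI-subgroup and L is a component (subnormal quasisimple subgroup) with A meeting L·C(L) trivially, then A centralizes L. -/
theorem result :
    ¬ (∀ (G : Type) [Group G] [Finite G] (A L : Subgroup G),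
      IsCyclic A → Nat.card A = 4 →
      (∀ g : G, (∀ x ∈ A, g * x * g⁻¹ ∈ A → x = 1) ∨ (∀ x ∈ A, g * x * g⁻¹ ∈ A)) →
      L ≠ ⊥ →
      ⁅L, L⁆ = L →
      (∀ N : Subgroup G, N ≤ L → (∀ l ∈ L, ∀ n ∈ N, l * n * l⁻¹ ∈ N) →
          N = L ∨ N ≤ Subgroup.centralizer (L : Set G)) →
      (∃ n : ℕ, ∃ H : ℕ → Subgroup G, H 0 = L ∧ H n = ⊤ ∧
          ∀ i < n, H i ≤ H (i + 1) ∧ ∀ x ∈ H (i + 1), ∀ y ∈ H i, x * y * x⁻¹ ∈ H i) →
      A ⊓ (L ⊔ Subgroup.centralizer (L : Set G)) = ⊥ →
      A ≤ Subgroup.centralizer (L : Set G)) := by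
  intro H
  have h := H Agent.S02252.G (Subgroup.zpowers a) L inferInstance
    (by rw [Nat.card_zpowers, ord_a]) TI
    (by
      intro hbot
      have : Matrix.SpecialLinearGroup.toGL
          (SpecialLinearGroup.transvection (show (0 : Fin 4) ≠ 1 by decide) (1 : K)) ∈ L := by
        rw [L_eq]; exact ⟨_, rfl⟩
      rw [hbot, Subgroup.mem_bot] at this
      have h2 := congrArg (fun u : Agent.S02252.G => (u : Matrix (Fin 4) (Fin 4) K) 0 1) this
      have h3' : (1 : K) = 0 := by
        simpa [transvection_coe] using h2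
      exact one_ne_zero h3')
    L_perfect quasi
    ⟨1, fun i => if i = 0 then L else ⊤, by simp, by simp, by
      intro i hi
      obtain rfl : i = 0 := by omega
      refine ⟨by simp, ?_⟩
      intro x _ y hy
      simp only [if_true] at hy ⊢
      exact (inferInstance : L.Normal).conj_mem y hy x⟩
    (by
      rw [eq_bot_iff]
      rintro x ⟨hx, hx2⟩
      have hx3 : x ∈ L := (sup_le le_rfl cent_le) hx2
      obtain ⟨k, hk, rfl⟩ := mem_A x hx
      rw [mem_L, det_a_pow] at hx3
      rw [Subgroup.mem_bot]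
      interval_cases k
      · exact pow_zero a
      · exact absurd hx3 (by decide)
      · exact absurd hx3 (by decide)
      · exact absurd hx3 (by decide))
  have h1 : a ∈ L := cent_le (h (Subgroup.mem_zpowers a))
  rw [← pow_one a, mem_L, det_a_pow] at h1
  exact absurd h1 (by decide)

end Pool.Agent.S02252
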