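import Pool.Statements.S02421
-- import your own Pool.Agent.* helpers here

set_option autoImplicit false
open Pool Pool.MP_ef54ea_al

namespace Pool.Agent.S02421

abbrev Γ : Type := ℤ ×ₗ ℤ
/-- a field with a valuation in `ℤ × ℤ`, trivial on `ℚ` -/
abbrev Z : Type := HahnSeries Γ ℚ

noncomputable def val : Valuation Z (Multiplicative (WithTop Γ)ᵒᵈ) :=
  AddValuation.toValuation (HahnSeries.addVal Γ ℚ)

instance : val.IsTrivialOn ℚ := ⟨by
  intro a ha
  unfold val
  rw [AddValuation.toValuation_apply, HahnSeries.addVal_apply, HahnSeries.algebraMap_apply]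
  have : (HahnSeries.C (algebraMap ℚ ℚ a) : Z).orderTop = 0 := by
    have : (HahnSeries.C (algebraMap ℚ ℚ a) : Z) = HahnSeries.single 0 a := rfl
    rw [this, HahnSeries.orderTop_single ha]
    rfl
  rw [this]
  rfl⟩

theorem transc (d : Z) (h0 : d ≠ 0) (h : d.order ≠ 0) : Transcendental ℚ d := by
  apply Valuation.transcendental_of_ne_one (v := val) ℚ d h0
  intro h1
  unfold val at h1
  rw [AddValuation.toValuation_apply, HahnSeries.addVal_apply] at h1
  have h2 : d.orderTop = 0 := h1
  rw [← HahnSeries.order_eq_orderTop_of_ne_zero h0] at h2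
  exact h (WithTop.coe_eq_zero.1 h2)

/-- parity class of the order -/
def cls (g : Γ) : ZMod 2 × ZMod 2 := (((ofLex g).1 : ℤ), ((ofLex g).2 : ℤ))

theorem cls_add (g h : Γ) : cls (g + h) = cls g + cls h := by
  unfold cls
  ext
  · show (((ofLex (g + h)).1 : ℤ) : ZMod 2) = _
    rw [ofLex_add, Prod.fst_add]; push_cast; rfl
  · show (((ofLex (g + h)).2 : ℤ) : ZMod 2) = _
    rw [ofLex_add, Prod.snd_add]; push_cast; rfl

theorem two_zero : ∀ x : ZMod 2 × ZMod 2, x + x = 0 := by decide

theorem add_cls {x y : Z} {S T : Set (ZMod 2 × ZMod 2)} (hd : ∀ c, c ∈ S → c ∉ T)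
    (hx : x ≠ 0 → cls x.order ∈ S) (hy : y ≠ 0 → cls y.order ∈ T) :
    (x + y = 0 → x = 0 ∧ y = 0) ∧ (x + y ≠ 0 → cls (x + y).order ∈ S ∪ T) := by
  by_cases h1 : x = 0
  · subst h1
    rw [zero_add]
    exact ⟨fun h => ⟨rfl, h⟩, fun h => Or.inr (hy h)⟩
  by_cases h2 : y = 0
  · subst h2
    rw [add_zero]
    exact ⟨fun h => ⟨h, rfl⟩, fun h => Or.inl (hx h)⟩
  have hne : x.order ≠ y.order := by
    intro h
    have := hx h1
    rw [h] at this
    exact hd _ this (hy h2)
  have hne' : HahnSeries.addVal Γ ℚ x ≠ HahnSeries.addVal Γ ℚ y := by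
    rw [HahnSeries.addVal_apply_of_ne h1, HahnSeries.addVal_apply_of_ne h2]
    intro h
    exact hne (WithTop.coe_injective h)
  have hv := AddValuation.map_add_of_distinct_val (HahnSeries.addVal Γ ℚ) hne'
  rw [HahnSeries.addVal_apply_of_ne h1, HahnSeries.addVal_apply_of_ne h2] at hv
  have hxy : x + y ≠ 0 := by
    intro h
    rw [h, AddValuation.map_zero] at hv
    rcases min_choice (x.order : WithTop Γ) (y.order : WithTop Γ) with h' | h' <;> rw [h'] at hv <;>
      exact WithTop.coe_ne_top hv.symm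
  refine ⟨fun h => absurd h hxy, fun _ => ?_⟩
  rw [HahnSeries.addVal_apply_of_ne hxy] at hv
  rcases min_choice (x.order : WithTop Γ) (y.order : WithTop Γ) with h' | h' <;> rw [h'] at hv
  · left; rw [WithTop.coe_injective hv]; exact hx h1
  · right; rw [WithTop.coe_injective hv]; exact hy h2

/-- the two parameters -/
noncomputable def a : Z := HahnSeries.single (toLex (1, 0)) 1
noncomputable def b : Z := HahnSeries.single (toLex (0, 1)) 1

theorem a_ne : a ≠ 0 := HahnSeries.single_ne_zero one_ne_zero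
theorem b_ne : b ≠ 0 := HahnSeries.single_ne_zero one_ne_zero
theorem a_order : a.order = toLex (1, 0) := HahnSeries.order_single one_ne_zero
theorem b_order : b.order = toLex (0, 1) := HahnSeries.order_single one_ne_zero

theorem sq_cls (c : Z) (hc : c ≠ 0) (u : Z) (h : c * u ^ 2 ≠ 0) :
    cls (c * u ^ 2).order = cls c.order := by
  have hu : u ≠ 0 := by
    rintro rfl
    apply h; ring
  rw [HahnSeries.order_mul hc (pow_ne_zero 2 hu), pow_two, HahnSeries.order_mul hu hu, cls_add,
    cls_add, two_zero, add_zero]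

/-- the quadratic form -/
noncomputable def q (u : Z × Z × Z) : Z := b * u.1 ^ 2 + a * u.2.1 ^ 2 + a * b * u.2.2 ^ 2

theorem q_props (u : Z × Z × Z) (hu : u ≠ 0) : q u ≠ 0 ∧ (q u).order ≠ 0 := by
  have hab : a * b ≠ 0 := mul_ne_zero a_ne b_ne
  have cb : cls b.order = (0, 1) := by rw [b_order]; rfl
  have ca : cls a.order = (1, 0) := by rw [a_order]; rfl
  have cab : cls (a * b).order = (1, 1) := by
    rw [HahnSeries.order_mul a_ne b_ne, cls_add, ca, cb]; rfl
  have s1 := add_cls (x := b * u.1 ^ 2) (y := a * u.2.1 ^ 2) (S := {(0, 1)}) (T := {(1, 0)})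
    (by intro c hc hc'; rw [Set.mem_singleton_iff] at hc hc'; rw [hc] at hc'; exact absurd hc' (by decide))
    (fun h => by rw [Set.mem_singleton_iff, sq_cls b b_ne _ h, cb])
    (fun h => by rw [Set.mem_singleton_iff, sq_cls a a_ne _ h, ca])
  have s2 := add_cls (x := b * u.1 ^ 2 + a * u.2.1 ^ 2) (y := a * b * u.2.2 ^ 2)
    (S := {(0, 1)} ∪ {(1, 0)}) (T := {(1, 1)})
    (by
      intro c hc hc'
      rw [Set.mem_singleton_iff] at hc'
      subst hc'
      rcases hc with hc | hc <;> rw [Set.mem_singleton_iff] at hc <;> exact absurd hc (by decide))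
    s1.2
    (fun h => by rw [Set.mem_singleton_iff, sq_cls (a * b) hab _ h, cab])
  have hq : q u ≠ 0 := by
    intro h
    obtain ⟨h1, h2⟩ := s2.1 h
    obtain ⟨h3, h4⟩ := s1.1 h1
    apply hu
    have e1 : u.1 = 0 := by
      rcases mul_eq_zero.1 h3 with h | h
      · exact absurd h b_ne
      · exact pow_eq_zero_iff (two_ne_zero) |>.1 h
    have e2 : u.2.1 = 0 := by
      rcases mul_eq_zero.1 h4 with h | h
      · exact absurd h a_ne
      · exact pow_eq_zero_iff (two_ne_zero) |>.1 h
    have e3 : u.2.2 = 0 := by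
      rcases mul_eq_zero.1 h2 with h | h
      · exact absurd h hab
      · exact pow_eq_zero_iff (two_ne_zero) |>.1 h
    exact Prod.ext e1 (Prod.ext e2 e3)
  refine ⟨hq, ?_⟩
  intro h
  have h1 := s2.2 hq
  have h2 : cls (b * u.1 ^ 2 + a * u.2.1 ^ 2 + a * b * u.2.2 ^ 2).order = 0 := by
    have : (b * u.1 ^ 2 + a * u.2.1 ^ 2 + a * b * u.2.2 ^ 2).order = 0 := h
    rw [this]; rfl
  rw [h2] at h1
  rcases h1 with (h1 | h1) | h1 <;> rw [Set.mem_singleton_iff] at h1 <;> exact absurd h1 (by decide)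

/-- the Lie algebra -/
def L : Type := Z × Z × Z

noncomputable instance : AddCommGroup L := inferInstanceAs (AddCommGroup (Z × Z × Z))
noncomputable instance : Module ℚ L := inferInstanceAs (Module ℚ (Z × Z × Z))

noncomputable def br (u v : Z × Z × Z) : Z × Z × Z :=
  (a * (u.2.1 * v.2.2 - u.2.2 * v.2.1), b * (u.2.2 * v.1 - u.1 * v.2.2),
    u.1 * v.2.1 - u.2.1 * v.1)

noncomputable instance : Bracket L L := ⟨br⟩

theorem br_def (u v : L) : ⁅u, v⁆ = br u v := rfl

noncomputable instance : LieRing L where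
  add_lie x y z := by
    show br (x + y) z = br x z + br y z
    obtain ⟨x1, x2, x3⟩ := x
    obtain ⟨y1, y2, y3⟩ := y
    obtain ⟨z1, z2, z3⟩ := z
    show br (x1 + y1, x2 + y2, x3 + y3) (z1, z2, z3) = _ + _
    refine Prod.ext ?_ (Prod.ext ?_ ?_)
    · show _ = _ + _
      simp only [br]; ring
    · show _ = _ + _
      simp only [br]; ring
    · show _ = _ + _
      simp only [br]; ring
  lie_add x y z := by
    show br x (y + z) = br x y + br x z
    obtain ⟨x1, x2, x3⟩ := x
    obtain ⟨y1, y2, y3⟩ := y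
    obtain ⟨z1, z2, z3⟩ := z
    show br (x1, x2, x3) (y1 + z1, y2 + z2, y3 + z3) = _ + _
    refine Prod.ext ?_ (Prod.ext ?_ ?_)
    · show _ = _ + _
      simp only [br]; ring
    · show _ = _ + _
      simp only [br]; ring
    · show _ = _ + _
      simp only [br]; ring
  lie_self x := by
    show br x x = 0
    obtain ⟨x1, x2, x3⟩ := x
    refine Prod.ext ?_ (Prod.ext ?_ ?_)
    · show _ = (0 : Z)
      simp only [br]; ring
    · show _ = (0 : Z)
      simp only [br]; ring
    · show _ = (0 : Z)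
      simp only [br]; ring
  leibniz_lie x y z := by
    show br x (br y z) = br (br x y) z + br y (br x z)
    obtain ⟨x1, x2, x3⟩ := x
    obtain ⟨y1, y2, y3⟩ := y
    obtain ⟨z1, z2, z3⟩ := z
    refine Prod.ext ?_ (Prod.ext ?_ ?_)
    · show _ = _ + _
      simp only [br]; ring
    · show _ = _ + _
      simp only [br]; ring
    · show _ = _ + _
      simp only [br]; ring

theorem smul_def' (t : ℚ) (x : Z × Z × Z) : t • x = (t • x.1, t • x.2.1, t • x.2.2) := rfl

noncomputable instance : LieAlgebra ℚ L where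
  lie_smul t x y := by
    obtain ⟨x1, x2, x3⟩ := x
    obtain ⟨y1, y2, y3⟩ := y
    show br (x1, x2, x3) (t • y1, t • y2, t • y3) =
      (t • (br (x1, x2, x3) (y1, y2, y3)).1, t • (br (x1, x2, x3) (y1, y2, y3)).2.1,
        t • (br (x1, x2, x3) (y1, y2, y3)).2.2)
    simp only [br, Algebra.smul_def]
    refine Prod.ext ?_ (Prod.ext ?_ ?_)
    · show _ = _; ring
    · show _ = _; ring
    · show _ = _; ring

theorem ad_sq (u v : Z × Z × Z) :
    br u (br u (br u v)) = (-q u * (br u v).1, -q u * (br u v).2.1, -q u * (br u v).2.2) := by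
  obtain ⟨u1, u2, u3⟩ := u
  obtain ⟨v1, v2, v3⟩ := v
  refine Prod.ext ?_ (Prod.ext ?_ ?_)
  · simp only [br, q]; ring
  · simp only [br, q]; ring
  · simp only [br, q]; ring

/-- multiplication by an element of `Z` -/
noncomputable def ml (d : Z) : L →ₗ[ℚ] L where
  toFun u := (d * u.1, d * u.2.1, d * u.2.2)
  map_add' u v := by
    obtain ⟨x1, x2, x3⟩ := u
    obtain ⟨y1, y2, y3⟩ := v
    show ((d * (x1 + y1), d * (x2 + y2), d * (x3 + y3)) : Z × Z × Z) =
      (d * x1 + d * y1, d * x2 + d * y2, d * x3 + d * y3)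
    simp only [mul_add]
  map_smul' t u := by
    obtain ⟨x1, x2, x3⟩ := u
    show ((d * (t • x1), d * (t • x2), d * (t • x3)) : Z × Z × Z) =
      (t • (d * x1), t • (d * x2), t • (d * x3))
    simp only [Algebra.smul_def]
    refine Prod.ext ?_ (Prod.ext ?_ ?_)
    · show _ = _; ring
    · show _ = _; ring
    · show _ = _; ring

theorem ml_apply (d : Z) (u : L) : ml d u = ((d * u.1, d * u.2.1, d * u.2.2) : Z × Z × Z) := rfl

/-- powers of `ml d` and polynomials -/
theorem aeval_ml (d : Z) (f : Polynomial ℚ) (u : L) :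
    Polynomial.aeval (ml d) f u =
      (((Polynomial.aeval d f) * u.1, (Polynomial.aeval d f) * u.2.1,
        (Polynomial.aeval d f) * u.2.2) : Z × Z × Z) := by
  induction f using Polynomial.induction_on' with
  | add f g hf hg =>
    rw [map_add, LinearMap.add_apply, hf, hg, map_add]
    refine Prod.ext ?_ (Prod.ext ?_ ?_)
    · show _ + _ = _; ring
    · show _ + _ = _; ring
    · show _ + _ = _; ring
  | monomial n c =>
    have hpow : ∀ n : ℕ, ∀ u : L, ((ml d) ^ n) u =
        ((d ^ n * u.1, d ^ n * u.2.1, d ^ n * u.2.2) : Z × Z × Z) := by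
      intro n
      induction n with
      | zero =>
        intro u
        rw [pow_zero, Module.End.one_apply]
        exact Prod.ext (show u.1 = d ^ 0 * u.1 by rw [pow_zero, one_mul])
          (Prod.ext (show u.2.1 = d ^ 0 * u.2.1 by rw [pow_zero, one_mul])
            (show u.2.2 = d ^ 0 * u.2.2 by rw [pow_zero, one_mul]))
      | succ n ih =>
        intro u
        rw [pow_succ, Module.End.mul_apply, ih, ml_apply]
        refine Prod.ext ?_ (Prod.ext ?_ ?_)
        · show _ * (_ * _) = _; ring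
        · show _ * (_ * _) = _; ring
        · show _ * (_ * _) = _; ring
    rw [Polynomial.aeval_monomial, Polynomial.aeval_monomial, Module.End.mul_apply, hpow]
    have h9 : ∀ w : L, (algebraMap ℚ (Module.End ℚ L) c) w = c • w := fun w => rfl
    refine (h9 _).trans ?_
    refine Prod.ext ?_ (Prod.ext ?_ ?_)
    · show c • (_ * _) = _
      rw [Algebra.smul_def]; ring
    · show c • (_ * _) = _
      rw [Algebra.smul_def]; ring
    · show c • (_ * _) = _
      rw [Algebra.smul_def]; ring

theorem pure (u : L) (V : Submodule ℚ L) (hV : FiniteDimensional ℚ V)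
    (hinv : ∀ v ∈ V, ⁅u, v⁆ ∈ V) (v : L) (hv : v ∈ V) : ⁅u, v⁆ = 0 := by
  by_contra hw
  have hu : (u : Z × Z × Z) ≠ 0 := by
    intro h
    apply hw
    have : u = (0 : L) := h
    rw [this, zero_lie]
  obtain ⟨d, hd⟩ : ∃ d : Z, d = -q u := ⟨_, rfl⟩
  obtain ⟨hq0, hq1⟩ := q_props u hu
  have htr : Transcendental ℚ d := by
    rw [hd]
    apply transc _ (neg_ne_zero.2 hq0)
    rw [HahnSeries.order_neg]; exact hq1
  -- all `ad^(2k+1) v` lie in V
  have key : ∀ n : ℕ, ((ml d) ^ n) ⁅u, v⁆ ∈ V ∧ ∃ v' ∈ V, ((ml d) ^ n) ⁅u, v⁆ = ⁅u, v'⁆ := by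
    intro n
    induction n with
    | zero => exact ⟨hinv v hv, v, hv, rfl⟩
    | succ n ih =>
      obtain ⟨-, v', hv', he⟩ := ih
      have h1 : ((ml d) ^ (n + 1)) ⁅u, v⁆ = ⁅u, ⁅u, ⁅u, v'⁆⁆⁆ := by
        rw [pow_succ', Module.End.mul_apply, he, ml_apply]
        have := ad_sq u v'
        rw [hd]
        exact this.symm
      rw [h1]
      exact ⟨hinv _ (hinv _ (hinv _ hv')), _, hinv _ (hinv _ hv'), rfl⟩
  have hpoly : ∀ f : Polynomial ℚ, Polynomial.aeval (ml d) f ⁅u, v⁆ ∈ V := by
    intro f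
    induction f using Polynomial.induction_on' with
    | add f g hf hg =>
      rw [map_add, LinearMap.add_apply]; exact V.add_mem hf hg
    | monomial n c =>
      rw [Polynomial.aeval_monomial, Module.End.mul_apply]
      exact V.smul_mem c (key n).1
  let φ : Polynomial ℚ →ₗ[ℚ] V :=
    { toFun := fun f => ⟨Polynomial.aeval (ml d) f ⁅u, v⁆, hpoly f⟩
      map_add' := fun f g => by
        ext1
        show Polynomial.aeval (ml d) (f + g) ⁅u, v⁆ = _ + _
        rw [map_add, LinearMap.add_apply]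
      map_smul' := fun c f => by
        ext1
        show Polynomial.aeval (ml d) (c • f) ⁅u, v⁆ = c • _
        rw [map_smul, LinearMap.smul_apply] }
  have hinj : Function.Injective φ := by
    rw [injective_iff_map_eq_zero]
    intro f hf
    have h1 : Polynomial.aeval (ml d) f ⁅u, v⁆ = 0 := congrArg Subtype.val hf
    rw [aeval_ml] at h1
    have h2 : Polynomial.aeval d f = 0 := by
      by_contra h3
      apply hw
      have e1 : Polynomial.aeval d f * (⁅u, v⁆ : L).1 = 0 := congrArg Prod.fst h1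
      have e2 : Polynomial.aeval d f * (⁅u, v⁆ : L).2.1 = 0 :=
        congrArg (fun p : Z × Z × Z => p.2.1) h1
      have e3 : Polynomial.aeval d f * (⁅u, v⁆ : L).2.2 = 0 :=
        congrArg (fun p : Z × Z × Z => p.2.2) h1
      exact Prod.ext ((mul_eq_zero.1 e1).resolve_left h3)
        (Prod.ext ((mul_eq_zero.1 e2).resolve_left h3) ((mul_eq_zero.1 e3).resolve_left h3))
    exact (transcendental_iff.1 htr) f h2
  have hfin : FiniteDimensional ℚ (Polynomial ℚ) := FiniteDimensional.of_injective φ hinj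
  exact Polynomial.not_finite (R := ℚ) hfin

theorem simple : LieAlgebra.IsSimple ℚ L where
  eq_bot_or_eq_top := by
    intro I
    by_cases hI : I = ⊥
    · exact Or.inl hI
    right
    obtain ⟨u, huI, hu0⟩ : ∃ u ∈ I, u ≠ 0 := by
      by_contra hc
      push Not at hc
      exact hI ((LieSubmodule.eq_bot_iff I).2 hc)
    have hmul : ∀ x ∈ I, ∀ y : L, br x y ∈ I := by
      intro x hx y
      have : br x y = -⁅y, x⁆ := (lie_skew x y).symm ▸ rfl
      rw [this]
      exact I.neg_mem (lie_mem_right ℚ L I y x hx)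
    -- the three steps
    have s12 : (∀ z : Z, ((z, 0, 0) : Z × Z × Z) ∈ I) → ∀ z : Z, ((0, z, 0) : Z × Z × Z) ∈ I := by
      intro h z
      have h1 := hmul _ (h (-(b⁻¹) * z)) ((0, 0, 1) : Z × Z × Z)
      have h2 : br (-(b⁻¹) * z, 0, 0) (0, 0, 1) = (0, z, 0) := by
        simp only [br]
        refine Prod.ext ?_ (Prod.ext ?_ ?_)
        · show _ = (0 : Z); ring
        · show b * (0 * 0 - -(b⁻¹) * z * 1) = z
          field_simp [b_ne]; ring
        · show _ = (0 : Z); ring
      rwa [h2] at h1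
    have s23 : (∀ z : Z, ((0, z, 0) : Z × Z × Z) ∈ I) → ∀ z : Z, ((0, 0, z) : Z × Z × Z) ∈ I := by
      intro h z
      have h1 := hmul _ (h (-z)) ((1, 0, 0) : Z × Z × Z)
      have h2 : br (0, -z, 0) (1, 0, 0) = (0, 0, z) := by
        simp only [br]
        refine Prod.ext ?_ (Prod.ext ?_ ?_)
        · show _ = (0 : Z); ring
        · show _ = (0 : Z); ring
        · show 0 * 0 - -z * 1 = z; ring
      rwa [h2] at h1
    have s31 : (∀ z : Z, ((0, 0, z) : Z × Z × Z) ∈ I) → ∀ z : Z, ((z, 0, 0) : Z × Z × Z) ∈ I := by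
      intro h z
      have h1 := hmul _ (h (-(a⁻¹) * z)) ((0, 1, 0) : Z × Z × Z)
      have h2 : br (0, 0, -(a⁻¹) * z) (0, 1, 0) = (z, 0, 0) := by
        simp only [br]
        refine Prod.ext ?_ (Prod.ext ?_ ?_)
        · show a * (0 * 0 - -(a⁻¹) * z * 1) = z
          field_simp [a_ne]; ring
        · show _ = (0 : Z); ring
        · show _ = (0 : Z); ring
      rwa [h2] at h1
    have fin : (∀ z : Z, ((z, 0, 0) : Z × Z × Z) ∈ I) → I = ⊤ := by
      intro h
      have h2 := s12 h
      have h3 := s23 h2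
      rw [eq_top_iff]
      intro x _
      obtain ⟨x1, x2, x3⟩ := x
      have : ((x1, x2, x3) : Z × Z × Z) = (x1, 0, 0) + ((0, x2, 0) + (0, 0, x3)) := by
        refine Prod.ext ?_ (Prod.ext ?_ ?_)
        · show x1 = x1 + (0 + 0); ring
        · show x2 = 0 + (x2 + 0); ring
        · show x3 = 0 + (0 + x3); ring
      show ((x1, x2, x3) : Z × Z × Z) ∈ I
      rw [this]
      exact I.add_mem (h x1) (I.add_mem (h2 x2) (h3 x3))
    obtain ⟨u1, u2, u3⟩ := u
    by_cases c1 : u1 = 0
    · by_cases c2 : u2 = 0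
      · have c3 : u3 ≠ 0 := by
          intro c3
          apply hu0
          rw [c1, c2, c3]; rfl
        subst c1; subst c2
        -- (0,0,u3): bracket with (y,0,0) gives (0, b u3 y, 0)
        have h2 : ∀ z : Z, ((0, z, 0) : Z × Z × Z) ∈ I := by
          intro z
          have h1 := hmul _ huI (((b * u3)⁻¹ * z, 0, 0) : Z × Z × Z)
          have h2 : br (0, 0, u3) ((b * u3)⁻¹ * z, 0, 0) = (0, z, 0) := by
            simp only [br]
            refine Prod.ext ?_ (Prod.ext ?_ ?_)
            · show _ = (0 : Z); ring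
            · show b * (u3 * ((b * u3)⁻¹ * z) - 0 * 0) = z
              have := b_ne
              field_simp; ring
            · show _ = (0 : Z); ring
          rwa [h2] at h1
        exact fin (s31 (s23 h2))
      · -- u = (0, u2, u3), u2 ≠ 0
        subst c1
        -- [u, (0,0,y)] = (a u2 y, 0, 0)
        have h1 : ∀ z : Z, ((z, 0, 0) : Z × Z × Z) ∈ I := by
          intro z
          have h1 := hmul _ huI ((0, 0, (a * u2)⁻¹ * z) : Z × Z × Z)
          have h2 : br (0, u2, u3) (0, 0, (a * u2)⁻¹ * z) = (z, 0, 0) := by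
            simp only [br]
            refine Prod.ext ?_ (Prod.ext ?_ ?_)
            · show a * (u2 * ((a * u2)⁻¹ * z) - u3 * 0) = z
              have := a_ne
              field_simp; ring
            · show _ = (0 : Z); ring
            · show _ = (0 : Z); ring
          rwa [h2] at h1
        exact fin h1
    · -- u1 ≠ 0: [[u, (0,y,0)], (1,0,0)] = (0, b u1 y, 0)
      have h2 : ∀ z : Z, ((0, z, 0) : Z × Z × Z) ∈ I := by
        intro z
        have h1 := hmul _ (hmul _ huI ((0, (b * u1)⁻¹ * z, 0) : Z × Z × Z)) ((1, 0, 0) : Z × Z × Z)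
        have h2 : br (br (u1, u2, u3) (0, (b * u1)⁻¹ * z, 0)) (1, 0, 0) = (0, z, 0) := by
          simp only [br]
          refine Prod.ext ?_ (Prod.ext ?_ ?_)
          · show _ = (0 : Z); ring
          · show b * ((u1 * ((b * u1)⁻¹ * z) - u2 * 0) * 1 - a * (u2 * 0 - u3 * ((b * u1)⁻¹ * z)) * 0)
              = z
            have := b_ne
            field_simp; ring
          · show (a * (u2 * 0 - u3 * ((b * u1)⁻¹ * z))) * 0 -
              b * (u3 * 0 - u1 * 0) * 1 = (0 : Z)
            ring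
        rwa [h2] at h1
      exact fin (s31 (s23 h2))
  non_abelian := by
    intro h
    have h1 : ⁅(show L from ((1, 0, 0) : Z × Z × Z)), (show L from ((0, 1, 0) : Z × Z × Z))⁆ = 0 :=
      h.trivial _ _
    have h2 : (br (1, 0, 0) (0, 1, 0)).2.2 = 0 := congrArg (fun p : Z × Z × Z => p.2.2) h1
    simp only [br] at h2
    have h3 : (1 : Z) * 1 - 0 * 0 = 0 := h2
    simp at h3

/-- There is a field K and a simple Lie algebra L over K such that for every a in L, every finite-dimensional subspace of L invariant under ad a is killed by ad a. -/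
theorem result :
    ∃ (K : Type) (_ : Field K) (L : Type) (_ : LieRing L) (_ : LieAlgebra K L),
      LieAlgebra.IsSimple K L ∧
      ∀ a : L, ∀ V : Submodule K L, FiniteDimensional K V →
        (∀ v ∈ V, ⁅a, v⁆ ∈ V) → ∀ v ∈ V, ⁅a, v⁆ = 0 :=
  ⟨ℚ, inferInstance, L, inferInstance, inferInstance, simple,
    fun u V hV hinv v hv => pure u V hV hinv v hv⟩

end Pool.Agent.S02421
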