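import Pool.Statements.S02608
import Mathlib

set_option autoImplicit false
open Pool Pool.MP_074089_an

namespace Pool.Agent.S02608

/-- finite-dimensional spaces are reflexive -/
theorem refl_of_fd (X : Type) [NormedAddCommGroup X] [NormedSpace ℝ X] [FiniteDimensional ℝ X] :
    Function.Surjective (NormedSpace.inclusionInDoubleDual ℝ X) := by
  have e1 : Module.finrank ℝ (X →L[ℝ] ℝ) = Module.finrank ℝ X := by
    rw [← Subspace.dual_finrank_eq (K := ℝ) (V := X)]
    exact (LinearEquiv.finrank_eq (LinearMap.toContinuousLinearMap (𝕜 := ℝ) (E := X) (F' := ℝ))).symm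
  have fd1 : FiniteDimensional ℝ (X →L[ℝ] ℝ) := inferInstance
  have e2 : Module.finrank ℝ ((X →L[ℝ] ℝ) →L[ℝ] ℝ) = Module.finrank ℝ (X →L[ℝ] ℝ) := by
    rw [← Subspace.dual_finrank_eq (K := ℝ) (V := (X →L[ℝ] ℝ))]
    exact (LinearEquiv.finrank_eq
      (LinearMap.toContinuousLinearMap (𝕜 := ℝ) (E := (X →L[ℝ] ℝ)) (F' := ℝ))).symm
  have inj : Function.Injective (NormedSpace.inclusionInDoubleDual ℝ X) :=
    (NormedSpace.inclusionInDoubleDualLi ℝ (E := X)).injective
  have := (LinearMap.injective_iff_surjective_of_finrank_eq_finrank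
    (f := (NormedSpace.inclusionInDoubleDual ℝ X).toLinearMap) (by
      show Module.finrank ℝ X = Module.finrank ℝ ((X →L[ℝ] ℝ) →L[ℝ] ℝ)
      rw [e2, e1])).1 inj
  exact this

abbrev I := unitInterval

abbrev E := C(I, ℝ) × C(I, ℝ)

noncomputable def e1 : E := (⟨fun s => -(s : ℝ), by fun_prop⟩, ⟨fun s => (s : ℝ), by fun_prop⟩)
noncomputable def e2 : E :=
  (⟨fun s => 1 - (s : ℝ) ^ 2, by fun_prop⟩, ⟨fun s => 1 - (s : ℝ) ^ 2, by fun_prop⟩)
noncomputable def e3 : E := (0, 1)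

noncomputable def XS : Submodule ℝ E := Submodule.span ℝ {e1, e2, e3}

instance XS_fd : FiniteDimensional ℝ XS := by
  unfold XS
  exact FiniteDimensional.span_of_finite ℝ (by simp)

/-- the three-dimensional space -/
def XT : Type := XS

noncomputable instance : NormedAddCommGroup XT := inferInstanceAs (NormedAddCommGroup XS)
noncomputable instance : NormedSpace ℝ XT := inferInstanceAs (NormedSpace ℝ XS)
instance : FiniteDimensional ℝ XT := inferInstanceAs (FiniteDimensional ℝ XS)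
instance : CompleteSpace XT := FiniteDimensional.complete ℝ XT

/-- first component -/
noncomputable def p1 (x : XT) : C(I, ℝ) := (show XS from x).1.1
/-- second component -/
noncomputable def p2 (x : XT) : C(I, ℝ) := (show XS from x).1.2

theorem p1_add (x y : XT) (s : I) : p1 (x + y) s = p1 x s + p1 y s := rfl
theorem p2_add (x y : XT) (s : I) : p2 (x + y) s = p2 x s + p2 y s := rfl
theorem p1_smul (c : ℝ) (y : XT) (s : I) : p1 (c • y) s = c * p1 y s := rfl
theorem p2_smul (c : ℝ) (y : XT) (s : I) : p2 (c • y) s = c * p2 y s := rfl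
theorem norm_def (x : XT) : ‖x‖ = max ‖p1 x‖ ‖p2 x‖ := rfl

/-- the jump functional -/
noncomputable def jump : XT →ₗ[ℝ] ℝ where
  toFun x := p1 x 0 - p2 x 0
  map_add' x y := by rw [p1_add, p2_add]; ring
  map_smul' c x := by rw [p1_smul, p2_smul]; simp; ring

noncomputable def YS : Submodule ℝ XT := LinearMap.ker jump

noncomputable def mk (t : ℝ) : I := Set.projIcc 0 1 zero_le_one t

theorem mk_cont : Continuous mk := continuous_projIcc (h := zero_le_one)

theorem mk_coe {t : ℝ} (h0 : 0 ≤ t) (h1 : t ≤ 1) : ((mk t : I) : ℝ) = t := by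
  unfold mk
  rw [Set.projIcc_of_mem zero_le_one (⟨h0, h1⟩ : t ∈ Set.Icc (0:ℝ) 1)]

theorem mk_neg {t : ℝ} (h0 : t ≤ 0) : mk t = 0 := by
  unfold mk
  rw [Set.projIcc_of_le_left zero_le_one h0]
  rfl

noncomputable def gfun (y : YS) : C(I, ℝ) :=
  ⟨fun t => p2 y.1 (mk ((t:ℝ) - 1/2)) + p1 y.1 (mk (1/2 - (t:ℝ))) - p1 y.1 0, by
    have h1 : Continuous fun t : I => mk ((t:ℝ) - 1/2) := mk_cont.comp (by fun_prop)
    have h2 : Continuous fun t : I => mk (1/2 - (t:ℝ)) := mk_cont.comp (by fun_prop)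
    exact (((p2 y.1).continuous.comp h1).add ((p1 y.1).continuous.comp h2)).sub continuous_const⟩

theorem gfun_apply (y : YS) (t : I) : gfun y t =
    p2 y.1 (mk ((t:ℝ) - 1/2)) + p1 y.1 (mk (1/2 - (t:ℝ))) - p1 y.1 0 := rfl

theorem YS_zero (y : YS) : p1 y.1 0 = p2 y.1 0 := by
  have h := y.2
  unfold YS at h
  rw [LinearMap.mem_ker] at h
  have h' : p1 y.1 0 - p2 y.1 0 = 0 := h
  linarith

theorem gfun_right (y : YS) (t : I) (h : (1:ℝ)/2 ≤ t) : gfun y t = p2 y.1 (mk ((t:ℝ) - 1/2)) := by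
  rw [gfun_apply, mk_neg (t := 1/2 - (t:ℝ)) (by linarith)]
  ring

theorem gfun_left (y : YS) (t : I) (h : (t:ℝ) ≤ 1/2) : gfun y t = p1 y.1 (mk (1/2 - (t:ℝ))) := by
  rw [gfun_apply, mk_neg (t := (t:ℝ) - 1/2) (by linarith), ← YS_zero]
  ring

noncomputable def glin : YS →ₗ[ℝ] C(I, ℝ) where
  toFun := gfun
  map_add' := by
    intro x y; ext t
    rw [ContinuousMap.add_apply, gfun_apply, gfun_apply, gfun_apply, Submodule.coe_add,
      p1_add, p1_add, p2_add]
    ring
  map_smul' := by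
    intro c x; ext t
    rw [RingHom.id_apply, ContinuousMap.smul_apply, gfun_apply, gfun_apply, Submodule.coe_smul,
      p1_smul, p1_smul, p2_smul, smul_eq_mul]
    ring

theorem glin_bound (y : YS) : ‖glin y‖ ≤ 1 * ‖y‖ := by
  rw [one_mul]
  have hn : ‖y‖ = max ‖p1 y.1‖ ‖p2 y.1‖ := rfl
  have h : ‖gfun y‖ ≤ ‖y‖ := by
    refine (ContinuousMap.norm_le (gfun y) (norm_nonneg y)).2 ?_
    intro t
    rcases le_total (t:ℝ) (1/2) with h | h
    · rw [gfun_left y t h, hn]
      exact le_max_of_le_left (ContinuousMap.norm_coe_le_norm _ _)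
    · rw [gfun_right y t h, hn]
      exact le_max_of_le_right (ContinuousMap.norm_coe_le_norm _ _)
  exact h

noncomputable def g : YS →L[ℝ] C(I, ℝ) := LinearMap.mkContinuous glin 1 glin_bound

theorem g_apply (y : YS) : g y = gfun y := rfl

theorem g_norm : ‖g‖ ≤ 1 := LinearMap.mkContinuous_norm_le _ zero_le_one _

noncomputable def x1 : XT := (⟨e1, Submodule.subset_span (by simp)⟩ : XS)
noncomputable def x2 : XT := (⟨e2, Submodule.subset_span (by simp)⟩ : XS)
noncomputable def x3 : XT := (⟨e3, Submodule.subset_span (by simp)⟩ : XS)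

theorem p1x1 (s : I) : p1 x1 s = -(s:ℝ) := rfl
theorem p2x1 (s : I) : p2 x1 s = (s:ℝ) := rfl
theorem p1x2 (s : I) : p1 x2 s = 1 - (s:ℝ)^2 := rfl
theorem p2x2 (s : I) : p2 x2 s = 1 - (s:ℝ)^2 := rfl
theorem p1x3 (s : I) : p1 x3 s = 0 := rfl
theorem p2x3 (s : I) : p2 x3 s = 1 := rfl

theorem x12_mem (a b : ℝ) : a • x1 + b • x2 ∈ YS := by
  unfold YS
  rw [LinearMap.mem_ker]
  show p1 (a • x1 + b • x2) 0 - p2 (a • x1 + b • x2) 0 = 0
  rw [p1_add, p2_add, p1_smul, p1_smul, p2_smul, p2_smul, p1x1, p1x2, p2x1, p2x2]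
  simp

/-- norm bound for combinations -/
theorem nb (a b c r : ℝ) (hr : 0 ≤ r)
    (h1 : ∀ s : ℝ, 0 ≤ s → s ≤ 1 → |(-a * s + b * (1 - s ^ 2))| ≤ r)
    (h2 : ∀ s : ℝ, 0 ≤ s → s ≤ 1 → |(a * s + b * (1 - s ^ 2) + c)| ≤ r) :
    ‖a • x1 + b • x2 + c • x3‖ ≤ r := by
  rw [norm_def]
  apply max_le
  · refine (ContinuousMap.norm_le _ hr).2 ?_
    intro s
    have := h1 s s.2.1 s.2.2
    rw [p1_add, p1_add, p1_smul, p1_smul, p1_smul, p1x1, p1x2, p1x3, Real.norm_eq_abs]
    convert this using 2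
    ring
  · refine (ContinuousMap.norm_le _ hr).2 ?_
    intro s
    have := h2 s s.2.1 s.2.2
    rw [p2_add, p2_add, p2_smul, p2_smul, p2_smul, p2x1, p2x2, p2x3, Real.norm_eq_abs]
    convert this using 2
    ring

/-- The negation of the preceding statement: For every reflexive real Banach space X and closed subspace Y, every bounded linear map from Y into C[0,1] extends to a bounded linear map from X into C[0,1] with no larger norm. -/
theorem result :
    ¬ (∀ (X : Type) [NormedAddCommGroup X] [NormedSpace ℝ X] [CompleteSpace X],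
      Function.Surjective (NormedSpace.inclusionInDoubleDual ℝ X) →
      ∀ (Y : Submodule ℝ X), IsClosed (Y : Set X) →
      ∀ (g : Y →L[ℝ] C(unitInterval, ℝ)),
        ∃ f : X →L[ℝ] C(unitInterval, ℝ),
          f.comp Y.subtypeL = g ∧ ‖f‖ ≤ ‖g‖) := by
  intro H
  obtain ⟨f, hfg, hfn⟩ := H XT (refl_of_fd XT) YS (Submodule.closed_of_finiteDimensional _) g
  have hf1 : ‖f‖ ≤ 1 := hfn.trans g_norm
  have hfb : ∀ (x : XT) (t : I), |f x t| ≤ ‖x‖ := by
    intro x t
    calc |f x t| = ‖f x t‖ := (Real.norm_eq_abs _).symm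
      _ ≤ ‖f x‖ := ContinuousMap.norm_coe_le_norm _ _
      _ ≤ ‖f‖ * ‖x‖ := f.le_opNorm x
      _ ≤ 1 * ‖x‖ := by gcongr
      _ = ‖x‖ := one_mul _
  have hfy : ∀ (a b : ℝ) (t : I), f (a • x1 + b • x2) t = gfun ⟨a • x1 + b • x2, x12_mem a b⟩ t := by
    intro a b t
    exact congrArg (fun φ : YS →L[ℝ] C(I, ℝ) => φ ⟨a • x1 + b • x2, x12_mem a b⟩ t) hfg
  -- the right side
  have hR : ∀ v : ℝ, 0 < v → v ≤ 1/4 → 1 ≤ f x3 (mk (1/2 + v)) := by
    intro v hv hv4
    have hb : ‖(2 * v) • x1 + (1:ℝ) • x2 + (-v ^ 2) • x3‖ ≤ 1 := by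
      apply nb _ _ _ _ zero_le_one
      · intro s hs0 hs1
        rw [abs_le]
        constructor
        · nlinarith
        · nlinarith [mul_nonneg hv.le hs0]
      · intro s hs0 hs1
        rw [abs_le]
        constructor
        · nlinarith [mul_nonneg hv.le hs0]
        · nlinarith [sq_nonneg (s - v)]
    have h1 := (hfb _ (mk (1/2 + v))).trans hb
    have h2 : f ((2 * v) • x1 + (1:ℝ) • x2 + (-v ^ 2) • x3) (mk (1/2 + v)) =
        f ((2 * v) • x1 + (1:ℝ) • x2) (mk (1/2 + v)) + (-v ^ 2) * f x3 (mk (1/2 + v)) := by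
      rw [map_add, map_smul f (-v ^ 2) x3]
      simp
    rw [h2, hfy] at h1
    have hc : ((mk (1/2 + v) : I) : ℝ) = 1/2 + v := mk_coe (by linarith) (by linarith)
    rw [gfun_right _ _ (by rw [hc]; linarith)] at h1
    have hc2 : (1/2 + v - 1/2 : ℝ) = v := by ring
    rw [hc, hc2] at h1
    have hc3 : ((mk v : I) : ℝ) = v := mk_coe (by linarith) (by linarith)
    rw [p2_add, p2_smul, p2_smul, p2x1, p2x2, hc3] at h1
    have h3 := (abs_le.1 h1).2
    have h4 : 0 < v ^ 2 := by positivity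
    by_contra hlt
    push Not at hlt
    nlinarith
  have hL : ∀ v : ℝ, 0 < v → v ≤ 1/4 → f x3 (mk (1/2 - v)) ≤ 0 := by
    intro v hv hv4
    have hb : ‖(-2 * v) • x1 + (1:ℝ) • x2 + (v ^ 2) • x3‖ ≤ 1 + v ^ 2 := by
      apply nb _ _ _ _ (by positivity)
      · intro s hs0 hs1
        rw [abs_le]
        constructor
        · nlinarith [mul_nonneg hv.le hs0]
        · nlinarith [sq_nonneg (s - v)]
      · intro s hs0 hs1
        rw [abs_le]
        constructor
        · nlinarith [mul_nonneg hv.le hs0]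
        · nlinarith [mul_nonneg hv.le hs0]
    have h1 := (hfb _ (mk (1/2 - v))).trans hb
    have h2 : f ((-2 * v) • x1 + (1:ℝ) • x2 + (v ^ 2) • x3) (mk (1/2 - v)) =
        f ((-2 * v) • x1 + (1:ℝ) • x2) (mk (1/2 - v)) + (v ^ 2) * f x3 (mk (1/2 - v)) := by
      rw [map_add, map_smul f (v ^ 2) x3]
      simp
    rw [h2, hfy] at h1
    have hc : ((mk (1/2 - v) : I) : ℝ) = 1/2 - v := mk_coe (by linarith) (by linarith)
    rw [gfun_left _ _ (by rw [hc]; linarith)] at h1
    have hc2 : (1/2 - (1/2 - v) : ℝ) = v := by ring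
    rw [hc, hc2] at h1
    have hc3 : ((mk v : I) : ℝ) = v := mk_coe (by linarith) (by linarith)
    rw [p1_add, p1_smul, p1_smul, p1x1, p1x2, hc3] at h1
    have h3 := (abs_le.1 h1).2
    have h4 : 0 < v ^ 2 := by positivity
    by_contra hlt
    push Not at hlt
    nlinarith
  -- continuity at 1/2
  have hcont : Continuous fun v : ℝ => f x3 (mk (1/2 + v)) :=
    (f x3).continuous.comp (mk_cont.comp (by fun_prop))
  have h0 := (Metric.continuous_iff.1 hcont) 0 (1/2) (by norm_num)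
  obtain ⟨δ, hδ, hδ2⟩ := h0
  have hm : 0 < min (δ/2) (1/4) := by positivity
  have hm1 : min (δ/2) (1/4) ≤ δ/2 := min_le_left _ _
  have hm2 : min (δ/2) (1/4) ≤ (1/4 : ℝ) := min_le_right _ _
  set v := min (δ/2) (1/4) with hv
  have a1 := hR v hm hm2
  have a2 := hL v hm hm2
  have b1 := hδ2 v (by rw [Real.dist_eq, sub_zero, abs_of_pos hm]; linarith)
  have b2 := hδ2 (-v) (by rw [Real.dist_eq, sub_zero, abs_neg, abs_of_pos hm]; linarith)
  have e : (1/2 + -v : ℝ) = 1/2 - v := by ring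
  simp only [e] at b2
  rw [Real.dist_eq] at b1 b2
  have b1' := abs_lt.1 b1
  have b2' := abs_lt.1 b2
  linarith [b1'.1, b1'.2, b2'.1, b2'.2]

end Pool.Agent.S02608
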