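import Pool.Statements.S02665
import Mathlib
import Pool.Agent.Helper9.HilbC

set_option autoImplicit false
open MeasureTheory
open Pool Pool.MP_0eb56c_an

namespace Pool.Agent.S02665

open Pool.Agent.Helper9.Hilb
open scoped ENNReal

theorem memLp_BM {α : Type} [MeasurableSpace α] {μ : Measure α} [IsFiniteMeasure μ] (p : ℝ≥0∞)
    {f : α → ℝ} (hf : BM inferInstance f) : MemLp f p μ := by
  obtain ⟨hf, C, hC⟩ := hf
  exact MemLp.of_bound hf.aestronglyMeasurable C (Filter.Eventually.of_forall fun x => by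
    rw [Real.norm_eq_abs]; exact hC x)

theorem norm_est {α ι : Type} [LinearOrder ι] [m0 : MeasurableSpace α] {μ : Measure α}
    [IsFiniteMeasure μ] {Sig : ι → MeasurableSpace α} {D : ι → α → ℝ} (hS : Sys μ Sig D)
    (m : ℕ) (hm : 1 ≤ m) (ρ : ℝ) (hρ : ρ = 1 / (2 * m + 1)) (s : Finset (Finset ι))
    (a : Finset ι → ℝ) :
    eLpNorm (fun x => ∑ F ∈ s, a F * w ρ D F x) ((2 * m : ℕ) : ℝ≥0∞) μ ≤
      ENNReal.ofReal ((μ.real Set.univ) ^ (((2 * m : ℕ) : ℝ)⁻¹) *
        Real.sqrt (∑ F ∈ s, a F ^ 2)) := by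
  classical
  set S : Finset ι := s.biUnion id with hSdef
  have hsub : s ⊆ S.powerset := by
    intro F hF
    rw [Finset.mem_powerset]
    exact Finset.subset_biUnion_of_mem id hF
  set b : Finset ι → ℝ := fun F => if F ∈ s then a F else 0 with hb
  have e1 : ∀ x, ∑ F ∈ s, a F * w ρ D F x = ∑ F ∈ S.powerset, b F * w ρ D F x := by
    intro x
    rw [← Finset.sum_subset hsub]
    · apply Finset.sum_congr rfl
      intro F hF
      simp [hb, hF]
    · intro F _ hF
      simp [hb, hF]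
  have e2 : ∑ F ∈ s, a F ^ 2 = ∑ F ∈ S.powerset, b F ^ 2 := by
    rw [← Finset.sum_subset hsub]
    · apply Finset.sum_congr rfl
      intro F hF
      simp [hb, hF]
    · intro F _ hF
      simp [hb, hF]
  have hmain := main_est hS m hm ρ hρ S b
  simp only [e1]
  rw [e2]
  set u : α → ℝ := fun x => ∑ F ∈ S.powerset, b F * w ρ D F x with hu
  set Q := ∑ F ∈ S.powerset, b F ^ 2 with hQ
  have hQ0 : 0 ≤ Q := Finset.sum_nonneg fun _ _ => sq_nonneg _
  have huB : BM m0 u := BM.sum _ fun F _ => (BM.const (b F)).mul (w_BM0 hS ρ F)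
  have hmem : MemLp u ((2 * m : ℕ) : ℝ≥0∞) μ := memLp_BM _ huB
  rw [hmem.eLpNorm_eq_integral_rpow_norm (by
    rw [Ne, Nat.cast_eq_zero]; omega) (ENNReal.natCast_ne_top _)]
  apply ENNReal.ofReal_le_ofReal
  rw [ENNReal.toReal_natCast]
  have e3 : ∀ x, ‖u x‖ ^ ((2 * m : ℕ) : ℝ) = u x ^ (2 * m) := by
    intro x
    rw [Real.rpow_natCast, Real.norm_eq_abs, Even.pow_abs (even_two_mul m)]
  simp only [e3]
  have hM0 : 0 ≤ μ.real Set.univ := measureReal_nonneg
  calc (∫ x, u x ^ (2 * m) ∂μ) ^ (((2 * m : ℕ) : ℝ)⁻¹) ≤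
      (μ.real Set.univ * Q ^ m) ^ (((2 * m : ℕ) : ℝ)⁻¹) := by
        apply Real.rpow_le_rpow _ hmain (by positivity)
        apply integral_nonneg
        intro x
        exact Even.pow_nonneg (even_two_mul m) _
    _ = (μ.real Set.univ) ^ (((2 * m : ℕ) : ℝ)⁻¹) * (Q ^ m) ^ (((2 * m : ℕ) : ℝ)⁻¹) :=
        Real.mul_rpow hM0 (by positivity)
    _ = (μ.real Set.univ) ^ (((2 * m : ℕ) : ℝ)⁻¹) * Real.sqrt Q := by
        congr 1
        have hsq : Q ^ m = (Real.sqrt Q) ^ (2 * m) := by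
          rw [pow_mul, Real.sq_sqrt hQ0]
        rw [hsq, Real.pow_rpow_inv_natCast (Real.sqrt_nonneg _) (by omega)]

theorem core (p : ENNReal) [Fact (1 ≤ p)] (hpt : p ≠ ⊤) (α ι : Type) [m0 : MeasurableSpace α]
    (μ : Measure α) [IsFiniteMeasure μ] [LinearOrder ι] [WellFoundedLT ι] (A : ι → Set α)
    (hA : ∀ i, MeasurableSet (A i)) (hAs : ∀ s, MeasurableSet s → ∃ i, A i = s) :
    ∃ T : lp (fun _ : Finset ι => ℝ) 2 →L[ℝ] Lp ℝ p μ, DenseRange (⇑T) := by
  classical
  have hp : 1 ≤ p := Fact.out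
  choose P hPm hP0 hP1 hPorth using fun i : ι =>
    exists_P μ (SJ A (Set.Iio i)) (SJ_le A hA _) (A i) (hA i)
  let D : ι → α → ℝ := fun i x => (A i).indicator 1 x - P i x
  have hPB : ∀ i, BM (SJ A (Set.Iio i)) (P i) := fun i =>
    ⟨hPm i, 1, fun x => by rw [abs_of_nonneg (hP0 i x)]; exact hP1 i x⟩
  have hS : Sys μ (fun i => SJ A (Set.Iio i)) D := by
    constructor
    · intro i; exact SJ_le A hA _
    · intro i j hj
      have h1 : BM (SJ A (Set.Iio i)) ((A j).indicator 1) := indicator_BM (SJ_mem1 A hj)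
      have h2 : BM (SJ A (Set.Iio i)) (P j) := (hPB j).mono
        (SJ_mono A (fun k hk => lt_trans hk hj))
      exact (h1.sub h2).1
    · intro j
      have h1 : BM m0 ((A j).indicator 1) := indicator_BM (hA j)
      have h2 : BM m0 (P j) := (hPB j).mono (SJ_le A hA _)
      exact (h1.sub h2).1
    · intro j x
      have h0 := hP0 j x
      have h1 := hP1 j x
      show |(A j).indicator 1 x - P j x| ≤ 1
      by_cases hx : x ∈ A j
      · rw [Set.indicator_of_mem hx, Pi.one_apply, abs_le]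
        constructor <;> linarith
      · rw [Set.indicator_of_notMem hx, abs_le]
        constructor <;> linarith
    · intro i ψ hψ
      exact hPorth i ψ hψ.1 hψ.2
  -- exponent
  obtain ⟨n, hn⟩ := ENNReal.exists_nat_gt hpt
  let m : ℕ := n + 1
  have hm : 1 ≤ m := by omega
  have hpm : p ≤ ((2 * m : ℕ) : ℝ≥0∞) := hn.le.trans (by
    rw [Nat.cast_le]; omega)
  let ρ : ℝ := 1 / (2 * m + 1)
  have hρ : ρ = 1 / (2 * m + 1) := rfl
  have hρ0 : ρ ≠ 0 := by positivity
  have hwm : ∀ F, MemLp (w ρ D F) p μ := fun F => memLp_BM p (w_BM0 hS ρ F)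
  let v : Finset ι → Lp ℝ p μ := fun F => (hwm F).toLp (w ρ D F)
  let K : ℝ≥0∞ := μ Set.univ ^ (1 / p.toReal - 1 / (((2 * m : ℕ) : ℝ≥0∞)).toReal)
  have hKt : K ≠ ⊤ := by
    apply ENNReal.rpow_ne_top_of_nonneg _ (measure_ne_top _ _)
    rw [sub_nonneg]
    apply one_div_le_one_div_of_le
    · exact ENNReal.toReal_pos (by intro h; rw [h] at hp; simp at hp) hpt
    · exact ENNReal.toReal_mono (ENNReal.natCast_ne_top _) hpm
  let C : ℝ := (μ.real Set.univ) ^ (((2 * m : ℕ) : ℝ)⁻¹) * K.toReal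
  have hC : 0 ≤ C := by positivity
  have hcomb : ∀ (s : Finset (Finset ι)) (a : Finset ι → ℝ),
      ∃ hf : MemLp (fun x => ∑ F ∈ s, a F * w ρ D F x) p μ,
        ∑ F ∈ s, a F • v F = hf.toLp _ := by
    intro s a
    have hB : BM m0 (fun x => ∑ F ∈ s, a F * w ρ D F x) :=
      BM.sum _ fun F _ => (BM.const (a F)).mul (w_BM0 hS ρ F)
    refine ⟨memLp_BM p hB, ?_⟩
    induction s using Finset.induction_on with
    | empty =>
      rw [Finset.sum_empty]
      symm
      rw [← MemLp.toLp_zero (MemLp.zero' (p := p) (μ := μ) (ε := ℝ))]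
      apply MemLp.toLp_congr
      exact Filter.Eventually.of_forall fun x => by simp
    | insert G s hG ih =>
      have hB' : BM m0 (fun x => ∑ F ∈ s, a F * w ρ D F x) :=
        BM.sum _ fun F _ => (BM.const (a F)).mul (w_BM0 hS ρ F)
      rw [Finset.sum_insert hG, ih hB']
      show a G • (hwm G).toLp (w ρ D G) + _ = _
      rw [← MemLp.toLp_const_smul, ← MemLp.toLp_add]
      apply MemLp.toLp_congr
      refine Filter.Eventually.of_forall fun x => ?_
      simp [Finset.sum_insert hG]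
  have hb : ∀ (s : Finset (Finset ι)) (a : Finset ι → ℝ),
      ‖∑ F ∈ s, a F • v F‖ ≤ C * Real.sqrt (∑ F ∈ s, a F ^ 2) := by
    intro s a
    obtain ⟨hf, hfe⟩ := hcomb s a
    rw [hfe, Lp.norm_toLp]
    have h1 := norm_est hS m hm ρ hρ s a
    have h2 := eLpNorm_le_eLpNorm_mul_rpow_measure_univ hpm hf.1
    have h3 : eLpNorm (fun x => ∑ F ∈ s, a F * w ρ D F x) p μ ≤
        ENNReal.ofReal ((μ.real Set.univ) ^ (((2 * m : ℕ) : ℝ)⁻¹) *
        Real.sqrt (∑ F ∈ s, a F ^ 2)) * K := h2.trans (by gcongr)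
    have h4 : (ENNReal.ofReal ((μ.real Set.univ) ^ (((2 * m : ℕ) : ℝ)⁻¹) *
        Real.sqrt (∑ F ∈ s, a F ^ 2)) * K) ≠ ⊤ := ENNReal.mul_ne_top ENNReal.ofReal_ne_top hKt
    refine (ENNReal.toReal_mono h4 h3).trans (le_of_eq ?_)
    rw [ENNReal.toReal_mul, ENNReal.toReal_ofReal (by positivity)]
    ring
  obtain ⟨T, hT⟩ := exists_T v C hC hb
  refine ⟨T, ?_⟩
  -- density
  have hrange : ∀ u ∈ U ρ D Set.univ, ∃ hu : MemLp u p μ, hu.toLp u ∈ LinearMap.range T.toLinearMap := by
    intro u hu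
    unfold U at hu
    induction hu using Submodule.span_induction with
    | mem x hx =>
      obtain ⟨F, _, rfl⟩ := hx
      obtain ⟨y, hy⟩ := hT F
      exact ⟨hwm F, ⟨y, hy⟩⟩
    | zero => exact ⟨MemLp.zero, by
        have : (MemLp.zero (p := p) (μ := μ) (ε := ℝ)).toLp (0 : α → ℝ) = 0 := MemLp.toLp_zero _
        rw [this]; exact Submodule.zero_mem _⟩
    | add x y _ _ hx hy =>
      obtain ⟨hx1, hx2⟩ := hx
      obtain ⟨hy1, hy2⟩ := hy
      refine ⟨hx1.add hy1, ?_⟩
      rw [MemLp.toLp_add hx1 hy1]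
      exact Submodule.add_mem _ hx2 hy2
    | smul a x _ hx =>
      obtain ⟨hx1, hx2⟩ := hx
      refine ⟨hx1.const_smul a, ?_⟩
      rw [MemLp.toLp_const_smul a hx1]
      exact Submodule.smul_mem _ _ hx2
  have hclos : ∀ f : Lp ℝ p μ, f ∈ (LinearMap.range T.toLinearMap).topologicalClosure := by
    intro f
    refine Lp.induction hpt (fun f => f ∈ (LinearMap.range T.toLinearMap).topologicalClosure)
      ?_ ?_ ?_ f
    · intro c s hs hμs
      have h1 : App μ p ρ D Set.univ (c • (s.indicator 1)) := by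
        apply App.smul
        apply App_all hS hp hpt hρ0 hA hPB (fun _ _ => rfl)
        obtain ⟨i, rfl⟩ := hAs s hs
        exact SJ_mem1 A (J := Set.univ) (j := i) (Set.mem_univ _)
      have hmem : MemLp (c • (s.indicator 1) : α → ℝ) p μ :=
        (memLp_BM p (indicator_BM hs)).const_smul c
      have e : (Lp.simpleFunc.indicatorConst p hs hμs.ne c : Lp ℝ p μ) = hmem.toLp _ := by
        rw [Lp.simpleFunc.coe_indicatorConst]
        apply MemLp.toLp_congr
        refine Filter.Eventually.of_forall fun x => ?_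
        by_cases hx : x ∈ s
        · simp [hx]
        · simp [hx]
      rw [e]
      show _ ∈ closure (LinearMap.range T.toLinearMap : Set (Lp ℝ p μ))
      rw [EMetric.mem_closure_iff]
      intro ε hε
      obtain ⟨δ, hδ0, hδε⟩ := exists_between hε
      obtain ⟨u, hu, hu2⟩ := h1 δ hδ0.ne'
      obtain ⟨hum, hur⟩ := hrange u hu
      refine ⟨hum.toLp u, hur, ?_⟩
      rw [Lp.edist_toLp_toLp]
      exact lt_of_le_of_lt hu2 hδε
    · intro f g hf hg _ h1 h2
      exact Submodule.add_mem _ h1 h2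
    · exact Submodule.isClosed_topologicalClosure _
  intro f
  have := hclos f
  exact this

/-- index set: the measurable sets, without their inclusion order -/
def Idx (α : Type) [MeasurableSpace α] : Type := {s : Set α // MeasurableSet s}

/-- For every p with 2<p<∞ and every finite measure μ, there is a real Hilbert space H and a bounded linear operator from H into L^p(μ) whose range is dense. -/
theorem result :
    ∀ (p : ENNReal) [Fact (1 ≤ p)], 2 < p → p ≠ ⊤ →
      ∀ (α : Type) [MeasurableSpace α] (μ : Measure α) [IsFiniteMeasure μ],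
        ∃ (H : Type) (_ : NormedAddCommGroup H) (_ : InnerProductSpace ℝ H)
          (_ : CompleteSpace H) (T : H →L[ℝ] Lp ℝ p μ), DenseRange (⇑T) := by
  intro p hp1 _ hpt α m0 μ _
  classical
  let lo : LinearOrder (Idx α) := linearOrderOfSTO (WellOrderingRel : Idx α → Idx α → Prop)
  have wf : WellFoundedLT (Idx α) := ⟨(WellOrderingRel.isWellOrder (α := Idx α)).toIsWellFounded.wf⟩
  obtain ⟨T, hT⟩ := core p hpt α (Idx α) μ (fun i => i.1) (fun i => i.2) (fun s hs => ⟨⟨s, hs⟩, rfl⟩)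
  exact ⟨lp (fun _ : Finset (Idx α) => ℝ) 2, inferInstance, inferInstance, inferInstance, T, hT⟩

end Pool.Agent.S02665
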