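import Pool.Statements.S02808
import Mathlib

set_option autoImplicit false
open Pool Pool.MP_22f2dc_an

namespace Pool.Agent.S02808

open MeasureTheory Filter Topology

abbrev E2 := EuclideanSpace ℝ (Fin 2)

noncomputable def mn (t : ℝ) : ℝ := min t 0

lemma mn_cont : Continuous mn := continuous_id.min continuous_const

lemma mn_of_neg {t : ℝ} (h : t ≤ 0) : mn t = t := min_eq_left h
lemma mn_of_pos {t : ℝ} (h : 0 ≤ t) : mn t = 0 := min_eq_right h

lemma mn_mul (t : ℝ) : mn t * t = mn t * mn t := by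
  rcases le_total t 0 with h | h
  · rw [mn_of_neg h]
  · rw [mn_of_pos h]; ring

lemma hasDerivAt_mn (k : ℕ) (t : ℝ) :
    HasDerivAt (fun s => mn s ^ (k + 2)) (((k + 2 : ℕ) : ℝ) * mn t ^ (k + 1)) t := by
  rcases lt_trichotomy t 0 with h | h | h
  · have h1 : (fun s => mn s ^ (k + 2)) =ᶠ[𝓝 t] fun s => s ^ (k + 2) := by
      filter_upwards [Iio_mem_nhds h] with s hs
      rw [mn_of_neg (le_of_lt hs)]
    rw [mn_of_neg h.le]
    have := (hasDerivAt_pow (k + 2) t).congr_of_eventuallyEq h1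
    simpa using this
  · subst h
    rw [mn_of_neg le_rfl]
    have : ((k + 2 : ℕ) : ℝ) * 0 ^ (k + 1) = 0 := by simp
    rw [this, hasDerivAt_iff_isLittleO_nhds_zero]
    have h1 : (fun h : ℝ => mn (0 + h) ^ (k + 2) - mn 0 ^ (k + 2) - h • (0 : ℝ)) =
        fun h => mn h ^ (k + 2) := by
      funext h
      rw [zero_add, mn_of_neg le_rfl]; simp
    rw [h1]
    have h2 : (fun h : ℝ => mn h ^ (k + 2)) =O[𝓝 0] fun h : ℝ => h ^ 2 := by
      apply Asymptotics.IsBigO.of_bound 1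
      filter_upwards [Metric.ball_mem_nhds (0 : ℝ) one_pos] with s hs
      rw [mem_ball_zero_iff] at hs
      have h3 : |mn s| ≤ |s| := by
        rcases le_total s 0 with h | h
        · rw [mn_of_neg h]
        · rw [mn_of_pos h]; simp
      rw [one_mul, Real.norm_eq_abs, Real.norm_eq_abs, abs_pow, abs_pow]
      rw [Real.norm_eq_abs] at hs
      calc |mn s| ^ (k + 2) ≤ |s| ^ (k + 2) := pow_le_pow_left₀ (abs_nonneg _) h3 _
        _ ≤ |s| ^ 2 := pow_le_pow_of_le_one (abs_nonneg _) hs.le (by omega)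
    have h3 : (fun h : ℝ => h ^ 2) =o[𝓝 0] fun h : ℝ => h := by
      have := Asymptotics.isLittleO_pow_id (𝕜 := ℝ) (n := 2) (by norm_num)
      simpa using this
    exact h2.trans_isLittleO h3
  · have h1 : (fun s => mn s ^ (k + 2)) =ᶠ[𝓝 t] fun s => (0 : ℝ) := by
      filter_upwards [Ioi_mem_nhds h] with s hs
      rw [mn_of_pos (le_of_lt hs)]; simp
    rw [mn_of_pos h.le]
    have := (hasDerivAt_const t (0 : ℝ)).congr_of_eventuallyEq h1
    simpa using this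

lemma hasDerivAt_mn2 (t : ℝ) : HasDerivAt (fun s => mn s ^ 2) (2 * mn t) t := by
  convert hasDerivAt_mn 0 t using 1; norm_num
lemma hasDerivAt_mn3 (t : ℝ) : HasDerivAt (fun s => mn s ^ 3) (3 * mn t ^ 2) t := by
  convert hasDerivAt_mn 1 t using 1; norm_num
lemma hasDerivAt_mn4 (t : ℝ) : HasDerivAt (fun s => mn s ^ 4) (4 * mn t ^ 3) t := by
  convert hasDerivAt_mn 2 t using 1; norm_num

/-- integration by parts against a test function -/
lemma ibp (F F' φ : E2 → ℝ) (e : E2) (hF : Continuous F) (hF' : Continuous F')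
    (hd : ∀ x, HasLineDerivAt ℝ F (F' x) x e)
    (hφ : ContDiff ℝ ((⊤ : ℕ∞) : WithTop ℕ∞) φ) (hc : HasCompactSupport φ) :
    ∫ x, F x * fderiv ℝ φ x e = - ∫ x, F' x * φ x := by
  have hφ1 : ContDiff ℝ 1 φ := hφ.of_le (by exact_mod_cast le_top)
  have hdφ : Continuous (fun x => fderiv ℝ φ x e) :=
    (hφ1.continuous_fderiv (by norm_num)).clm_apply continuous_const
  have hcφ : HasCompactSupport (fun x => fderiv ℝ φ x e) := by
    have := hc.fderiv_apply (𝕜 := ℝ) e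
    exact this
  have := integral_bilinear_hasLineDerivAt_right_eq_neg_left_of_integrable (μ := volume)
    (f := F) (f' := F') (g := φ) (g' := fun x => fderiv ℝ φ x e) (v := e)
    (B := ContinuousLinearMap.mul ℝ ℝ)
    ((hF'.mul hφ.continuous).integrable_of_hasCompactSupport hc.mul_left)
    ((hF.mul hdφ).integrable_of_hasCompactSupport hcφ.mul_left)
    ((hF.mul hφ.continuous).integrable_of_hasCompactSupport hc.mul_left)
    (fun x _ => hd x)
    (fun x _ => ((hφ1.differentiable (by norm_num)) x).hasFDerivAt.hasLineDerivAt e)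
  simpa using this


lemma int_mul (f g : E2 → ℝ) (hf : Continuous f) (hg : Continuous g)
    (hc : HasCompactSupport g) : Integrable (fun x => f x * g x) :=
  (hf.mul hg).integrable_of_hasCompactSupport hc.mul_left

noncomputable abbrev e0 : E2 := EuclideanSpace.single 0 1
noncomputable abbrev e1 : E2 := EuclideanSpace.single 1 1

lemma e0_0 : (e0 : E2) 0 = 1 := by simp
lemma e0_1 : (e0 : E2) 1 = 0 := by simp
lemma e1_0 : (e1 : E2) 0 = 0 := by simp
lemma e1_1 : (e1 : E2) 1 = 1 := by simp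

/-- coefficient matrix -/
noncomputable def A (x : E2) : Matrix (Fin 2) (Fin 2) ℝ :=
  !![1, -(mn (x 0)) ^ 2 / 4; -(mn (x 0)) ^ 2 / 4, 1 + mn (x 0) * x 1 / 2]

lemma A00 (x : E2) : A x 0 0 = 1 := rfl
lemma A01 (x : E2) : A x 0 1 = -(mn (x 0)) ^ 2 / 4 := rfl
lemma A10 (x : E2) : A x 1 0 = -(mn (x 0)) ^ 2 / 4 := rfl
lemma A11 (x : E2) : A x 1 1 = 1 + mn (x 0) * x 1 / 2 := rfl

noncomputable def u (x : E2) : ℝ := x 1
noncomputable def v (x : E2) : ℝ := x 0 * x 1 + mn (x 0) ^ 4 / 24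

lemma cont0 : Continuous (fun x : E2 => x 0) := by fun_prop
lemma cont1 : Continuous (fun x : E2 => x 1) := by fun_prop
lemma contm : Continuous (fun x : E2 => mn (x 0)) := mn_cont.comp cont0

lemma hasFDerivAt_u (x : E2) : HasFDerivAt u (EuclideanSpace.proj (1 : Fin 2) : E2 →L[ℝ] ℝ) x :=
  (EuclideanSpace.proj (1 : Fin 2) : E2 →L[ℝ] ℝ).hasFDerivAt

lemma hasFDerivAt_v (x : E2) : HasFDerivAt v
    (x 0 • (EuclideanSpace.proj (1 : Fin 2) : E2 →L[ℝ] ℝ) +
      x 1 • (EuclideanSpace.proj (0 : Fin 2) : E2 →L[ℝ] ℝ) +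
      (mn (x 0) ^ 3 / 6) • (EuclideanSpace.proj (0 : Fin 2) : E2 →L[ℝ] ℝ)) x := by
  have h0 : HasFDerivAt (fun x : E2 => x 0) (EuclideanSpace.proj (0 : Fin 2) : E2 →L[ℝ] ℝ) x :=
    (EuclideanSpace.proj (0 : Fin 2) : E2 →L[ℝ] ℝ).hasFDerivAt
  have h1 : HasFDerivAt (fun x : E2 => x 1) (EuclideanSpace.proj (1 : Fin 2) : E2 →L[ℝ] ℝ) x :=
    (EuclideanSpace.proj (1 : Fin 2) : E2 →L[ℝ] ℝ).hasFDerivAt
  have h2 : HasDerivAt (fun t => mn t ^ 4 / 24) (mn (x 0) ^ 3 / 6) (x 0) := by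
    exact ((hasDerivAt_mn4 (x 0)).div_const 24).congr_deriv (by ring)
  have h3' := HasDerivAt.comp_hasFDerivAt x h2 h0
  have h3 : HasFDerivAt (fun x : E2 => mn (x 0) ^ 4 / 24)
      ((mn (x 0) ^ 3 / 6) • (EuclideanSpace.proj (0 : Fin 2) : E2 →L[ℝ] ℝ)) x := h3'
  exact (h0.mul h1).add h3

lemma fderiv_u0 (x : E2) : fderiv ℝ u x e0 = 0 := by
  rw [(hasFDerivAt_u x).fderiv]; simp
lemma fderiv_u1 (x : E2) : fderiv ℝ u x e1 = 1 := by
  rw [(hasFDerivAt_u x).fderiv]; simp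
lemma fderiv_v0 (x : E2) : fderiv ℝ v x e0 = x 1 + mn (x 0) ^ 3 / 6 := by
  rw [(hasFDerivAt_v x).fderiv]; simp
lemma fderiv_v1 (x : E2) : fderiv ℝ v x e1 = x 0 := by
  rw [(hasFDerivAt_v x).fderiv]; simp

lemma contDiff_u : ContDiff ℝ 1 u :=
  (EuclideanSpace.proj (1 : Fin 2) : E2 →L[ℝ] ℝ).contDiff

lemma contDiff_v : ContDiff ℝ 1 v := by
  rw [contDiff_one_iff_fderiv]
  refine ⟨fun x => (hasFDerivAt_v x).differentiableAt, ?_⟩
  have : fderiv ℝ v = fun x => (x 0 • (EuclideanSpace.proj (1 : Fin 2) : E2 →L[ℝ] ℝ) +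
      x 1 • (EuclideanSpace.proj (0 : Fin 2) : E2 →L[ℝ] ℝ) +
      (mn (x 0) ^ 3 / 6) • (EuclideanSpace.proj (0 : Fin 2) : E2 →L[ℝ] ℝ)) := by
    funext x; exact (hasFDerivAt_v x).fderiv
  rw [this]
  exact ((cont0.smul continuous_const).add (cont1.smul continuous_const)).add
    (((contm.pow 3).div_const 6).smul continuous_const)

/-- a function of the first coordinate -/
lemma line0 (f : ℝ → ℝ) (f' : ℝ) (x : E2) (h : HasDerivAt f f' (x 0)) :
    HasLineDerivAt ℝ (fun x : E2 => f (x 0)) f' x e0 := by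
  have h0 : HasFDerivAt (fun x : E2 => x 0) (EuclideanSpace.proj (0 : Fin 2) : E2 →L[ℝ] ℝ) x :=
    (EuclideanSpace.proj (0 : Fin 2) : E2 →L[ℝ] ℝ).hasFDerivAt
  have h3 : HasFDerivAt (fun x : E2 => f (x 0))
      (f' • (EuclideanSpace.proj (0 : Fin 2) : E2 →L[ℝ] ℝ)) x :=
    h.comp_hasFDerivAt x h0
  have := h3.hasLineDerivAt e0
  have h4 : (f' • (EuclideanSpace.proj (0 : Fin 2) : E2 →L[ℝ] ℝ)) e0 = f' := by simp
  rw [h4] at this
  exact this

lemma weak_u (φ : E2 → ℝ) (hφ : ContDiff ℝ ((⊤ : ℕ∞) : WithTop ℕ∞) φ)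
    (hc : HasCompactSupport φ) :
    ∫ x, ∑ i, ∑ j, A x i j * fderiv ℝ u x (EuclideanSpace.single j 1)
            * fderiv ℝ φ x (EuclideanSpace.single i 1) = 0 := by
  have hφ1 : ContDiff ℝ 1 φ := hφ.of_le (by exact_mod_cast le_top)
  have hdφ : ∀ e : E2, Continuous (fun x => fderiv ℝ φ x e) := fun e =>
    (hφ1.continuous_fderiv (by norm_num)).clm_apply continuous_const
  have hcφ : ∀ e : E2, HasCompactSupport (fun x => fderiv ℝ φ x e) := fun e =>
    hc.fderiv_apply (𝕜 := ℝ) e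
  have e : ∀ x, ∑ i, ∑ j, A x i j * fderiv ℝ u x (EuclideanSpace.single j 1)
            * fderiv ℝ φ x (EuclideanSpace.single i 1) =
      (-(mn (x 0)) ^ 2 / 4) * fderiv ℝ φ x e0 + (1 + mn (x 0) * x 1 / 2) * fderiv ℝ φ x e1 := by
    intro x
    simp only [Fin.sum_univ_two]
    rw [fderiv_u0, fderiv_u1, A00, A01, A10, A11]; ring
  simp_rw [e]
  have c0 : Continuous (fun x : E2 => -(mn (x 0)) ^ 2 / 4) := ((contm.pow 2).neg.div_const 4)
  have c1 : Continuous (fun x : E2 => 1 + mn (x 0) * x 1 / 2) :=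
    continuous_const.add ((contm.mul cont1).div_const 2)
  have c2 : Continuous (fun x : E2 => -mn (x 0) / 2) := contm.neg.div_const 2
  have c3 : Continuous (fun x : E2 => mn (x 0) / 2) := contm.div_const 2
  have I0 := int_mul _ _ c0 (hdφ e0) (hcφ e0)
  have I1 := int_mul _ _ c1 (hdφ e1) (hcφ e1)
  rw [integral_add I0 I1]
  rw [ibp _ (fun x => -mn (x 0) / 2) φ e0 c0 c2 ?_ hφ hc,
    ibp _ (fun x => mn (x 0) / 2) φ e1 c1 c3 ?_ hφ hc]
  · rw [← neg_add, ← integral_add (int_mul _ _ c2 hφ.continuous hc) (int_mul _ _ c3 hφ.continuous hc)]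
    have : ∀ x : E2, -mn (x 0) / 2 * φ x + mn (x 0) / 2 * φ x = 0 := by intro x; ring
    simp [this]
  · intro x
    have h : HasDerivAt (fun t : ℝ => 1 + mn (x 0) * (x 1 + t) / 2) (mn (x 0) / 2) 0 := by
      have := ((((hasDerivAt_id (0 : ℝ)).const_add (x 1)).const_mul (mn (x 0))).div_const 2).const_add 1
      simpa using this
    show HasDerivAt (fun t : ℝ => 1 + mn ((x + t • e1) 0) * (x + t • e1) 1 / 2) _ 0
    have e : (fun t : ℝ => 1 + mn ((x + t • e1) 0) * (x + t • e1) 1 / 2) =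
        fun t : ℝ => 1 + mn (x 0) * (x 1 + t) / 2 := by funext t; simp
    rw [e]; exact h
  · intro x
    apply line0 (fun t => -(mn t) ^ 2 / 4)
    exact (((hasDerivAt_mn2 (x 0)).neg).div_const 4).congr_deriv (by ring)

lemma weak_v (φ : E2 → ℝ) (hφ : ContDiff ℝ ((⊤ : ℕ∞) : WithTop ℕ∞) φ)
    (hc : HasCompactSupport φ) :
    ∫ x, ∑ i, ∑ j, A x i j * fderiv ℝ v x (EuclideanSpace.single j 1)
            * fderiv ℝ φ x (EuclideanSpace.single i 1) = 0 := by
  have hφ1 : ContDiff ℝ 1 φ := hφ.of_le (by exact_mod_cast le_top)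
  have hdφ : ∀ e : E2, Continuous (fun x => fderiv ℝ φ x e) := fun e =>
    (hφ1.continuous_fderiv (by norm_num)).clm_apply continuous_const
  have hcφ : ∀ e : E2, HasCompactSupport (fun x => fderiv ℝ φ x e) := fun e =>
    hc.fderiv_apply (𝕜 := ℝ) e
  have e : ∀ x, ∑ i, ∑ j, A x i j * fderiv ℝ v x (EuclideanSpace.single j 1)
            * fderiv ℝ φ x (EuclideanSpace.single i 1) =
      (x 1 - mn (x 0) ^ 3 / 12) * fderiv ℝ φ x e0 +
      (x 0 + mn (x 0) ^ 2 * x 1 / 4 - mn (x 0) ^ 5 / 24) * fderiv ℝ φ x e1 := by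
    intro x
    simp only [Fin.sum_univ_two]
    rw [fderiv_v0, fderiv_v1, A00, A01, A10, A11]
    have h := mn_mul (x 0)
    have h2 : mn (x 0) ^ 2 * x 0 = mn (x 0) ^ 3 := by
      calc mn (x 0) ^ 2 * x 0 = mn (x 0) * (mn (x 0) * x 0) := by ring
        _ = mn (x 0) ^ 3 := by rw [h]; ring
    have h3 : mn (x 0) * x 1 * x 0 = mn (x 0) ^ 2 * x 1 := by
      calc mn (x 0) * x 1 * x 0 = (mn (x 0) * x 0) * x 1 := by ring
        _ = mn (x 0) ^ 2 * x 1 := by rw [h]; ring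
    linear_combination (-(1 : ℝ) / 4 * fderiv ℝ φ x e0) * h2 +
      (1 / 2 * fderiv ℝ φ x e1) * h3
  simp_rw [e]
  have c0 : Continuous (fun x : E2 => x 1 - mn (x 0) ^ 3 / 12) :=
    cont1.sub ((contm.pow 3).div_const 12)
  have c1 : Continuous (fun x : E2 => x 0 + mn (x 0) ^ 2 * x 1 / 4 - mn (x 0) ^ 5 / 24) :=
    (cont0.add (((contm.pow 2).mul cont1).div_const 4)).sub ((contm.pow 5).div_const 24)
  have c2 : Continuous (fun x : E2 => -mn (x 0) ^ 2 / 4) := (contm.pow 2).neg.div_const 4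
  have c3 : Continuous (fun x : E2 => mn (x 0) ^ 2 / 4) := (contm.pow 2).div_const 4
  have I0 := int_mul _ _ c0 (hdφ e0) (hcφ e0)
  have I1 := int_mul _ _ c1 (hdφ e1) (hcφ e1)
  rw [integral_add I0 I1]
  rw [ibp _ (fun x => -mn (x 0) ^ 2 / 4) φ e0 c0 c2 ?_ hφ hc,
    ibp _ (fun x => mn (x 0) ^ 2 / 4) φ e1 c1 c3 ?_ hφ hc]
  · rw [← neg_add, ← integral_add (int_mul _ _ c2 hφ.continuous hc) (int_mul _ _ c3 hφ.continuous hc)]
    have : ∀ x : E2, -mn (x 0) ^ 2 / 4 * φ x + mn (x 0) ^ 2 / 4 * φ x = 0 := by intro x; ring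
    simp [this]
  · intro x
    have h : HasDerivAt (fun t : ℝ => x 0 + mn (x 0) ^ 2 * (x 1 + t) / 4 - mn (x 0) ^ 5 / 24)
        (mn (x 0) ^ 2 / 4) 0 := by
      have := (((((hasDerivAt_id (0 : ℝ)).const_add (x 1)).const_mul (mn (x 0) ^ 2)).div_const 4).const_add
        (x 0)).sub_const (mn (x 0) ^ 5 / 24)
      simpa using this
    show HasDerivAt (fun t : ℝ => (x + t • e1) 0 + mn ((x + t • e1) 0) ^ 2 * (x + t • e1) 1 / 4 -
      mn ((x + t • e1) 0) ^ 5 / 24) _ 0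
    have e : (fun t : ℝ => (x + t • e1) 0 + mn ((x + t • e1) 0) ^ 2 * (x + t • e1) 1 / 4 -
      mn ((x + t • e1) 0) ^ 5 / 24) =
        fun t : ℝ => x 0 + mn (x 0) ^ 2 * (x 1 + t) / 4 - mn (x 0) ^ 5 / 24 := by funext t; simp
    rw [e]; exact h
  · intro x
    have h : HasDerivAt (fun t : ℝ => x 1 - mn t ^ 3 / 12) (-mn (x 0) ^ 2 / 4) (x 0) := by
      exact (((hasDerivAt_mn3 (x 0)).div_const 12).const_sub (x 1)).congr_deriv (by ring)
    have h' : HasDerivAt (fun t : ℝ => x 1 - mn t ^ 3 / 12) (-mn (x 0) ^ 2 / 4) (x 0 + 0) := by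
      simpa using h
    have h2 := HasDerivAt.comp_const_add (x 0) (0 : ℝ) h'
    show HasDerivAt (fun t : ℝ => (x + t • e0) 1 - mn ((x + t • e0) 0) ^ 3 / 12) _ 0
    have e : (fun t : ℝ => (x + t • e0) 1 - mn ((x + t • e0) 0) ^ 3 / 12) =
        fun t : ℝ => x 1 - mn (x 0 + t) ^ 3 / 12 := by funext t; simp
    rw [e]; exact h2


def Om : Set E2 := {x | |x 0| < 1 ∧ |x 1| < 1}

lemma Om_open : IsOpen Om :=
  (isOpen_lt cont0.abs continuous_const).inter (isOpen_lt cont1.abs continuous_const)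

lemma Om_convex : Convex ℝ Om := by
  intro x hx y hy a b ha hb hab
  obtain ⟨h1, h2⟩ := hx
  obtain ⟨h3, h4⟩ := hy
  rw [abs_lt] at h1 h2 h3 h4
  show |(a • x + b • y) 0| < 1 ∧ |(a • x + b • y) 1| < 1
  simp only [PiLp.add_apply, PiLp.smul_apply, smul_eq_mul]
  have hb' : b = 1 - a := by linarith
  subst hb'
  constructor
  · rw [abs_lt]
    constructor
    · rcases ha.lt_or_eq with h | h
      · nlinarith [mul_pos h (by linarith : (0:ℝ) < x 0 + 1), mul_nonneg hb (by linarith : (0:ℝ) ≤ y 0 + 1)]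
      · rw [← h]; linarith
    · rcases ha.lt_or_eq with h | h
      · nlinarith [mul_pos h (by linarith : (0:ℝ) < 1 - x 0), mul_nonneg hb (by linarith : (0:ℝ) ≤ 1 - y 0)]
      · rw [← h]; linarith
  · rw [abs_lt]
    constructor
    · rcases ha.lt_or_eq with h | h
      · nlinarith [mul_pos h (by linarith : (0:ℝ) < x 1 + 1), mul_nonneg hb (by linarith : (0:ℝ) ≤ y 1 + 1)]
      · rw [← h]; linarith
    · rcases ha.lt_or_eq with h | h
      · nlinarith [mul_pos h (by linarith : (0:ℝ) < 1 - x 1), mul_nonneg hb (by linarith : (0:ℝ) ≤ 1 - y 1)]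
      · rw [← h]; linarith

lemma mn_bd {t : ℝ} (h : |t| < 1) : -1 ≤ mn t ∧ mn t ≤ 0 := by
  rw [abs_lt] at h
  rcases le_total t 0 with h' | h'
  · rw [mn_of_neg h']; exact ⟨by linarith, h'⟩
  · rw [mn_of_pos h']; norm_num

lemma mn_lip (s t : ℝ) : |mn s - mn t| ≤ |s - t| := by
  unfold mn
  have := abs_min_sub_min_le_max s 0 t 0
  simpa using this

lemma coord_le (x y : E2) (i : Fin 2) : |x i - y i| ≤ dist x y := by
  rw [dist_eq_norm]
  have := PiLp.norm_apply_le (x - y) i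
  simpa [Real.norm_eq_abs] using this

/-- The negation of the preceding statement: Take nonconstant C1 weak solutions u, v of div(A grad u)=0 on a connected open set in R^n, n≥2, with A symmetric, uniformly elliptic and Lipschitz. If u vanishes on a connected smooth hypersurface S and v on a nonempty open proper piece of S, then v vanishes on all of S. -/
theorem result :
    ¬ (∀ (n : ℕ), 2 ≤ n →
  ∀ (Ω : Set (EuclideanSpace ℝ (Fin n))), IsOpen Ω → IsConnected Ω →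
  ∀ (A : EuclideanSpace ℝ (Fin n) → Matrix (Fin n) (Fin n) ℝ) (K E : ℝ), 0 < K →
    (∀ x ∈ Ω, ∀ i j, A x i j = A x j i) →
    (∀ x ∈ Ω, ∀ ξ : EuclideanSpace ℝ (Fin n),
        K⁻¹ * ‖ξ‖ ^ 2 ≤ ∑ i, ∑ j, A x i j * ξ i * ξ j ∧
        ∑ i, ∑ j, A x i j * ξ i * ξ j ≤ K * ‖ξ‖ ^ 2) →
    (∀ x ∈ Ω, ∀ y ∈ Ω, ∀ i j, |A x i j - A y i j| ≤ E * dist x y) →
  ∀ (u v : EuclideanSpace ℝ (Fin n) → ℝ),
    ContDiffOn ℝ 1 u Ω → ContDiffOn ℝ 1 v Ω →
    (¬ ∃ c : ℝ, ∀ x ∈ Ω, u x = c) →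
    (¬ ∃ c : ℝ, ∀ x ∈ Ω, v x = c) →
    (∀ φ : EuclideanSpace ℝ (Fin n) → ℝ,
        ContDiff ℝ ((⊤ : ℕ∞) : WithTop ℕ∞) φ → HasCompactSupport φ → tsupport φ ⊆ Ω →
        ∫ x, ∑ i, ∑ j, A x i j * fderiv ℝ u x (EuclideanSpace.single j 1)
            * fderiv ℝ φ x (EuclideanSpace.single i 1) = 0) →
    (∀ φ : EuclideanSpace ℝ (Fin n) → ℝ,
        ContDiff ℝ ((⊤ : ℕ∞) : WithTop ℕ∞) φ → HasCompactSupport φ → tsupport φ ⊆ Ω →
        ∫ x, ∑ i, ∑ j, A x i j * fderiv ℝ v x (EuclideanSpace.single j 1)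
            * fderiv ℝ φ x (EuclideanSpace.single i 1) = 0) →
  ∀ (S Sig : Set (EuclideanSpace ℝ (Fin n))),
    S ⊆ Ω → IsConnected S →
    (∀ p ∈ S, ∃ (U : Set (EuclideanSpace ℝ (Fin n))) (f : EuclideanSpace ℝ (Fin n) → ℝ),
        IsOpen U ∧ p ∈ U ∧ ContDiff ℝ ((⊤ : ℕ∞) : WithTop ℕ∞) f ∧
        (∀ x ∈ U, fderiv ℝ f x ≠ 0) ∧ S ∩ U = {x | x ∈ U ∧ f x = 0}) →
    Sig ⊆ S → Sig.Nonempty → Sig ≠ S →
    (∃ O : Set (EuclideanSpace ℝ (Fin n)), IsOpen O ∧ Sig = S ∩ O) →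
    (∀ x ∈ S, u x = 0) →
    (∀ x ∈ Sig, v x = 0) →
    ∀ x ∈ S, v x = 0) := by
  intro H
  have h0Om : (0 : E2) ∈ Om := by constructor <;> simp
  have hball := H 2 le_rfl Om Om_open ⟨⟨0, h0Om⟩, Om_convex.isPreconnected⟩ A 4 2 (by norm_num)
    ?_ ?_ ?_ u v contDiff_u.contDiffOn contDiff_v.contDiffOn ?_ ?_
    (fun φ h1 h2 _ => weak_u φ h1 h2) (fun φ h1 h2 _ => weak_v φ h1 h2)
    {x | x ∈ Om ∧ x 1 = 0} {x | (x ∈ Om ∧ x 1 = 0) ∧ 0 < x 0}
    (fun x hx => hx.1) ⟨⟨0, h0Om, rfl⟩, ?_⟩ ?_ (fun x hx => hx.1) ?_ ?_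
    ⟨{x | 0 < x 0}, isOpen_lt continuous_const cont0, rfl⟩ (fun x hx => hx.2) ?_
    (EuclideanSpace.single 0 (-1/2)) ?_
  · -- final contradiction
    have : v (EuclideanSpace.single 0 (-1/2)) = 1 / 384 := by
      unfold v
      simp only [EuclideanSpace.single_apply, if_true]
      rw [mn_of_neg (by norm_num)]
      norm_num
    rw [this] at hball
    norm_num at hball
  · intro x _ i j
    fin_cases i <;> fin_cases j <;> rfl
  · intro x hx ξ
    obtain ⟨h1, h2⟩ := hx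
    have hm := mn_bd h1
    rw [abs_lt] at h2
    rw [EuclideanSpace.real_norm_sq_eq]
    simp only [Fin.sum_univ_two, A00, A01, A10, A11]
    set m := mn (x 0)
    set y := x 1
    set p := ξ 0
    set q := ξ 1
    have hb : m ^ 2 ≤ 1 := by nlinarith [hm.1, hm.2]
    have hb0 : 0 ≤ m ^ 2 := sq_nonneg m
    have hc : |m * y| ≤ 1 := by
      rw [abs_mul]
      have : |m| ≤ 1 := by rw [abs_le]; constructor <;> linarith [hm.1, hm.2]
      have h3 : |y| ≤ 1 := by rw [abs_le]; constructor <;> linarith [h2.1, h2.2]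
      nlinarith [abs_nonneg m, abs_nonneg y]
    rw [abs_le] at hc
    have hpq1 : 2 * p * q ≤ p ^ 2 + q ^ 2 := by nlinarith [sq_nonneg (p - q)]
    have hpq2 : -(2 * p * q) ≤ p ^ 2 + q ^ 2 := by nlinarith [sq_nonneg (p + q)]
    have h4 : m ^ 2 * (2 * p * q) ≤ p ^ 2 + q ^ 2 := by
      nlinarith [mul_le_mul_of_nonneg_left hpq1 hb0, sq_nonneg p, sq_nonneg q]
    have h5 : -(m ^ 2 * (2 * p * q)) ≤ p ^ 2 + q ^ 2 := by
      nlinarith [mul_le_mul_of_nonneg_left hpq2 hb0, sq_nonneg p, sq_nonneg q]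
    have h6 : -q ^ 2 ≤ m * y * q ^ 2 := by nlinarith [sq_nonneg q]
    have h7 : m * y * q ^ 2 ≤ q ^ 2 := by nlinarith [sq_nonneg q]
    constructor <;> nlinarith [sq_nonneg p, sq_nonneg q]
  · intro x hx y hy i j
    have hmx := mn_bd hx.1
    have hmy := mn_bd hy.1
    have l0 := coord_le x y 0
    have l1 := coord_le x y 1
    have lm := (mn_lip (x 0) (y 0)).trans l0
    have hx1 := hx.2
    have hy1 := hy.2
    have hd : 0 ≤ dist x y := dist_nonneg
    have hb : |-(mn (x 0)) ^ 2 / 4 - -(mn (y 0)) ^ 2 / 4| ≤ 2 * dist x y := by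
      have e : -(mn (x 0)) ^ 2 / 4 - -(mn (y 0)) ^ 2 / 4 =
        -((mn (x 0) + mn (y 0)) / 4) * (mn (x 0) - mn (y 0)) := by ring
      rw [e, abs_mul]
      have : |-((mn (x 0) + mn (y 0)) / 4)| ≤ 1 := by
        rw [abs_le]; constructor <;> linarith [hmx.1, hmx.2, hmy.1, hmy.2]
      nlinarith [abs_nonneg (mn (x 0) - mn (y 0)), abs_nonneg (-((mn (x 0) + mn (y 0)) / 4))]
    have hc : |(1 + mn (x 0) * x 1 / 2) - (1 + mn (y 0) * y 1 / 2)| ≤ 2 * dist x y := by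
      have e : (1 + mn (x 0) * x 1 / 2) - (1 + mn (y 0) * y 1 / 2) =
        (x 1 / 2) * (mn (x 0) - mn (y 0)) + (mn (y 0) / 2) * (x 1 - y 1) := by ring
      rw [e]
      refine (abs_add_le _ _).trans ?_
      rw [abs_mul, abs_mul]
      have h1 : |x 1 / 2| ≤ 1 := by
        rw [abs_lt] at hx1
        rw [abs_le]; constructor <;> linarith [hx1.1, hx1.2]
      have h2 : |mn (y 0) / 2| ≤ 1 := by
        rw [abs_le]; constructor <;> linarith [hmy.1, hmy.2]
      nlinarith [abs_nonneg (mn (x 0) - mn (y 0)), abs_nonneg (x 1 - y 1),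
        abs_nonneg (x 1 / 2), abs_nonneg (mn (y 0) / 2)]
    fin_cases i <;> fin_cases j
    · show |A x 0 0 - A y 0 0| ≤ _
      rw [A00, A00]; simp [hd]
    · exact hb
    · exact hb
    · exact hc
  · rintro ⟨c, hc⟩
    have h1 := hc 0 h0Om
    have h2 := hc (EuclideanSpace.single 1 (1/2)) (by
      constructor <;> simp [abs_lt] <;> norm_num)
    rw [← h1] at h2
    simp [u] at h2
  · rintro ⟨c, hc⟩
    have h1 := hc (EuclideanSpace.single 0 (-1/2)) (by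
      constructor
      · simp only [EuclideanSpace.single_apply, if_true]; rw [abs_lt]; norm_num
      · simp)
    have h2 := hc 0 h0Om
    rw [← h2] at h1
    have : v (EuclideanSpace.single 0 (-1/2)) = 1 / 384 := by
      unfold v
      simp only [EuclideanSpace.single_apply, if_true]
      rw [mn_of_neg (by norm_num)]
      norm_num
    rw [this] at h1
    simp [v, mn] at h1
  · -- S preconnected
    refine Convex.isPreconnected ?_
    intro x hx y hy a b ha hb hab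
    refine ⟨Om_convex hx.1 hy.1 ha hb hab, ?_⟩
    have h1 := hx.2
    have h2 := hy.2
    simp only [PiLp.add_apply, PiLp.smul_apply, smul_eq_mul]
    rw [h1, h2]; ring
  · -- local defining function
    intro p hp
    refine ⟨Om, fun x => x 1, Om_open, hp.1,
      (EuclideanSpace.proj (1 : Fin 2) : E2 →L[ℝ] ℝ).contDiff, ?_, ?_⟩
    · intro x _ h
      have h1 := hasFDerivAt_u x
      have h2 : fderiv ℝ (fun x : E2 => x 1) x e1 = 1 := fderiv_u1 x
      rw [h] at h2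
      simp at h2
    · ext x
      constructor
      · rintro ⟨⟨h1, h2⟩, _⟩; exact ⟨h1, h2⟩
      · rintro ⟨h1, h2⟩; exact ⟨⟨h1, h2⟩, h1⟩
  · exact ⟨EuclideanSpace.single 0 (1/2), ⟨⟨by
      simp only [EuclideanSpace.single_apply, if_true]; rw [abs_lt]; norm_num, by simp⟩, by simp⟩,
      by simp⟩
  · intro h
    have : (0 : E2) ∈ {x : E2 | (x ∈ Om ∧ x 1 = 0) ∧ 0 < x 0} := by
      rw [h]; exact ⟨h0Om, rfl⟩
    have h2 := this.2
    simp at h2
  · intro x hx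
    unfold v
    have h1 : x 1 = 0 := hx.1.2
    rw [h1, mn_of_pos hx.2.le]; ring
  · exact ⟨⟨by simp only [EuclideanSpace.single_apply, if_true]; rw [abs_lt]; norm_num, by simp⟩,
      by simp⟩

end Pool.Agent.S02808
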