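import Pool.Statements.S02850
import Mathlib

set_option autoImplicit false
open Pool Pool.MP_275f89_an

namespace Pool.Agent.S02850

open Classical Topology Filter

noncomputable def e0 : ℝ → ℝ := fun x : ℝ => if 0 < x then (1 : ℝ) else 0

def DD : Set (ℝ → ℝ) := {F : ℝ → ℝ | Monotone F ∧ (∀ x, 0 ≤ F x ∧ F x ≤ 1) ∧
  (∀ x : ℝ, x ≤ 0 → F x = 0) ∧ ∀ x : ℝ, ContinuousWithinAt F (Set.Iio x) x}

noncomputable def T (F G : ℝ → ℝ) : ℝ → ℝ :=
  if F = e0 then G else if G = e0 then F else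
    if 1 / 2 ≤ F 2 ∧ 1 / 2 ≤ G 2 then (fun x => min (F x) (G x)) else 0

lemma zero_ne : (0 : ℝ → ℝ) ≠ e0 := by
  intro h
  have := congrFun h 1
  simp [e0] at this

lemma T_e0_left (G : ℝ → ℝ) : T e0 G = G := by simp [T]
lemma T_e0_right (F : ℝ → ℝ) : T F e0 = F := by
  by_cases h : F = e0
  · rw [h, T_e0_left]
  · simp [T, h]

lemma T_pos {F G : ℝ → ℝ} (hF : F ≠ e0) (hG : G ≠ e0) (h : 1 / 2 ≤ F 2 ∧ 1 / 2 ≤ G 2) :
    T F G = fun x => min (F x) (G x) := by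
  unfold T; rw [if_neg hF, if_neg hG, if_pos h]

lemma T_neg {F G : ℝ → ℝ} (hF : F ≠ e0) (hG : G ≠ e0) (h : ¬ (1 / 2 ≤ F 2 ∧ 1 / 2 ≤ G 2)) :
    T F G = 0 := by
  unfold T; rw [if_neg hF, if_neg hG, if_neg h]

lemma le_e0 {F : ℝ → ℝ} (hF : F ∈ DD) : F ≤ e0 := by
  intro x
  unfold e0
  split_ifs with h
  · exact (hF.2.1 x).2
  · exact le_of_eq (hF.2.2.1 x (not_lt.1 h))

lemma min_ne {F G : ℝ → ℝ} (hF : F ∈ DD) (hF0 : F ≠ e0) : (fun x => min (F x) (G x)) ≠ e0 := by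
  intro h
  apply hF0
  apply le_antisymm (le_e0 hF)
  rw [← h]
  intro x
  exact min_le_left _ _

lemma zero_mem : (0 : ℝ → ℝ) ∈ DD :=
  ⟨fun _ _ _ => le_rfl, fun _ => ⟨le_rfl, zero_le_one⟩, fun _ _ => rfl,
    fun _ => continuousWithinAt_const⟩

lemma min_mem {F G : ℝ → ℝ} (hF : F ∈ DD) (hG : G ∈ DD) : (fun x => min (F x) (G x)) ∈ DD := by
  refine ⟨fun x y h => min_le_min (hF.1 h) (hG.1 h), fun x => ⟨le_min (hF.2.1 x).1 (hG.2.1 x).1,
    (min_le_left _ _).trans (hF.2.1 x).2⟩, fun x hx => ?_, fun x => ?_⟩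
  · show min (F x) (G x) = 0
    rw [hF.2.2.1 x hx, hG.2.2.1 x hx]; simp
  · exact (hF.2.2.2 x).min (hG.2.2.2 x)

lemma T_mem {F G : ℝ → ℝ} (hF : F ∈ DD) (hG : G ∈ DD) : T F G ∈ DD := by
  unfold T
  split_ifs
  · exact hG
  · exact hF
  · exact min_mem hF hG
  · exact zero_mem

lemma T_comm (F G : ℝ → ℝ) : T F G = T G F := by
  by_cases hF : F = e0
  · rw [hF, T_e0_left, T_e0_right]
  by_cases hG : G = e0
  · rw [hG, T_e0_left, T_e0_right]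
  by_cases h : 1 / 2 ≤ F 2 ∧ 1 / 2 ≤ G 2
  · rw [T_pos hF hG h, T_pos hG hF h.symm]
    funext x; exact min_comm _ _
  · rw [T_neg hF hG h, T_neg hG hF (fun h' => h h'.symm)]

lemma T_assoc {F G H : ℝ → ℝ} (hFD : F ∈ DD) (hGD : G ∈ DD) :
    T (T F G) H = T F (T G H) := by
  by_cases hF : F = e0
  · rw [hF, T_e0_left, T_e0_left]
  by_cases hG : G = e0
  · rw [hG, T_e0_left, T_e0_right]
  by_cases hH : H = e0
  · rw [hH, T_e0_right, T_e0_right]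
  have hz : ¬ (1 / 2 : ℝ) ≤ (0 : ℝ → ℝ) 2 := by norm_num
  by_cases h1 : 1 / 2 ≤ F 2 ∧ 1 / 2 ≤ G 2
  · rw [T_pos hF hG h1]
    by_cases h2 : 1 / 2 ≤ H 2
    · rw [T_pos (min_ne hFD hF) hH ⟨le_min h1.1 h1.2, h2⟩, T_pos hG hH ⟨h1.2, h2⟩,
        T_pos hF (min_ne hGD hG) ⟨h1.1, le_min h1.2 h2⟩]
      funext x; exact min_assoc _ _ _
    · rw [T_neg (min_ne hFD hF) hH (fun h => h2 h.2), T_neg hG hH (fun h => h2 h.2),
        T_neg hF zero_ne (fun h => hz h.2)]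
  · rw [T_neg hF hG h1, T_neg zero_ne hH (fun h => hz h.1)]
    by_cases h2 : 1 / 2 ≤ G 2 ∧ 1 / 2 ≤ H 2
    · rw [T_pos hG hH h2, T_neg hF (min_ne hGD hG) (fun h => h1 ⟨h.1, h2.1⟩)]
    · rw [T_neg hG hH h2, T_neg hF zero_ne (fun h => hz h.2)]

lemma T_mono {F₁ F₂ G : ℝ → ℝ} (h1 : F₁ ∈ DD) (h2 : F₂ ∈ DD) (hG : G ∈ DD) (h : F₁ ≤ F₂) :
    T F₁ G ≤ T F₂ G := by
  by_cases hG0 : G = e0
  · rw [hG0, T_e0_right, T_e0_right]; exact h
  by_cases hF1 : F₁ = e0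
  · have : F₂ = e0 := le_antisymm (le_e0 h2) (hF1 ▸ h)
    rw [hF1, this]
  by_cases hF2 : F₂ = e0
  · rw [hF2, T_e0_left]
    by_cases hp : 1 / 2 ≤ F₁ 2 ∧ 1 / 2 ≤ G 2
    · rw [T_pos hF1 hG0 hp]; intro x; exact min_le_right _ _
    · rw [T_neg hF1 hG0 hp]; intro x; exact (hG.2.1 x).1
  by_cases hp : 1 / 2 ≤ F₁ 2 ∧ 1 / 2 ≤ G 2
  · rw [T_pos hF1 hG0 hp, T_pos hF2 hG0 ⟨hp.1.trans (h 2), hp.2⟩]
    intro x; exact min_le_min (h x) le_rfl
  · rw [T_neg hF1 hG0 hp]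
    intro x; exact ((T_mem h2 hG).2.1 x).1

noncomputable def F1 : ℝ → ℝ := fun x => if x ≤ 0 then 0 else if x ≤ 1 then 1 / 4 else 1
noncomputable def F2 : ℝ → ℝ := fun x => if x ≤ 0 then 0 else 1 / 4

lemma F1_mem : F1 ∈ DD := by
  refine ⟨?_, ?_, ?_, ?_⟩
  · intro x y hxy
    unfold F1
    split_ifs <;> first | linarith | norm_num
  · intro x; unfold F1; split_ifs <;> norm_num
  · intro x hx; simp [F1, hx]
  · intro x
    by_cases h0 : x ≤ 0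
    · refine (continuousWithinAt_const (b := (0 : ℝ))).congr_of_eventuallyEq ?_ (by simp [F1, h0])
      filter_upwards [self_mem_nhdsWithin] with y hy
      have : y ≤ 0 := (le_of_lt hy).trans h0
      simp [F1, this]
    · push Not at h0
      by_cases h1 : x ≤ 1
      · refine (continuousWithinAt_const (b := (1 / 4 : ℝ))).congr_of_eventuallyEq ?_
          (by simp [F1, not_le.2 h0, h1])
        filter_upwards [self_mem_nhdsWithin, mem_nhdsWithin_of_mem_nhds (Ioi_mem_nhds h0)] with y hy hy0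
        have h2 : y ≤ 1 := (le_of_lt hy).trans h1
        have hy0' : ¬ y ≤ 0 := not_le.2 (Set.mem_Ioi.1 hy0)
        simp [F1, hy0', h2]
      · push Not at h1
        refine (continuousWithinAt_const (b := (1 : ℝ))).congr_of_eventuallyEq ?_
          (by simp [F1, not_le.2 h0, not_le.2 h1])
        filter_upwards [mem_nhdsWithin_of_mem_nhds (Ioi_mem_nhds h1)] with y hy1
        have h2 : (0 : ℝ) < y := lt_trans one_pos hy1
        have hy1' : ¬ y ≤ 1 := not_le.2 (Set.mem_Ioi.1 hy1)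
        simp [F1, not_le.2 h2, hy1']

lemma F2_mem : F2 ∈ DD := by
  refine ⟨?_, ?_, ?_, ?_⟩
  · intro x y hxy
    unfold F2
    split_ifs <;> first | linarith | norm_num
  · intro x; unfold F2; split_ifs <;> norm_num
  · intro x hx; simp [F2, hx]
  · intro x
    by_cases h0 : x ≤ 0
    · refine (continuousWithinAt_const (b := (0 : ℝ))).congr_of_eventuallyEq ?_ (by simp [F2, h0])
      filter_upwards [self_mem_nhdsWithin] with y hy
      have : y ≤ 0 := (le_of_lt hy).trans h0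
      simp [F2, this]
    · push Not at h0
      refine (continuousWithinAt_const (b := (1 / 4 : ℝ))).congr_of_eventuallyEq ?_
        (by simp [F2, not_le.2 h0])
      filter_upwards [mem_nhdsWithin_of_mem_nhds (Ioi_mem_nhds h0)] with y hy0
      have hy0' : ¬ y ≤ 0 := not_le.2 (Set.mem_Ioi.1 hy0)
      simp [F2, hy0']

/-- The negation of the preceding statement: Every commutative, associative, monotone operation on distance distribution functions with identity ε₀ is causal: if F₁≤F₂ and G₁≤G₂ on (−∞,a] with a>0, then τ(F₁,G₁)≤τ(F₂,G₂) on (−∞,a]. -/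
theorem result :
    ¬ (∀ D : Set (ℝ → ℝ),
      D = {F : ℝ → ℝ | Monotone F ∧ (∀ x, 0 ≤ F x ∧ F x ≤ 1) ∧ (∀ x : ℝ, x ≤ 0 → F x = 0) ∧
            ∀ x : ℝ, ContinuousWithinAt F (Set.Iio x) x} →
      ∀ τ : (ℝ → ℝ) → (ℝ → ℝ) → (ℝ → ℝ),
        (∀ F ∈ D, ∀ G ∈ D, τ F G ∈ D) →
        (∀ F ∈ D, ∀ G ∈ D, τ F G = τ G F) →
        (∀ F ∈ D, ∀ G ∈ D, ∀ H ∈ D, τ (τ F G) H = τ F (τ G H)) →
        (∀ F ∈ D, τ F (fun x : ℝ => if 0 < x then (1 : ℝ) else 0) = F) →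
        (∀ F₁ ∈ D, ∀ F₂ ∈ D, ∀ G ∈ D, F₁ ≤ F₂ → τ F₁ G ≤ τ F₂ G) →
        ∀ a : ℝ, 0 < a →
          ∀ F₁ ∈ D, ∀ F₂ ∈ D, ∀ G₁ ∈ D, ∀ G₂ ∈ D,
            (∀ x : ℝ, x ≤ a → F₁ x ≤ F₂ x) →
            (∀ x : ℝ, x ≤ a → G₁ x ≤ G₂ x) →
            ∀ x : ℝ, x ≤ a → τ F₁ G₁ x ≤ τ F₂ G₂ x) := by
  intro H
  have he : (fun x : ℝ => if 0 < x then (1 : ℝ) else 0) = e0 := rfl
  have key := H DD rfl T (fun F hF G hG => T_mem hF hG) (fun F _ G _ => T_comm F G)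
    (fun F hF G hG H _ => T_assoc hF hG) (fun F _ => by
      have h2 := T_e0_right F
      unfold e0 at h2
      convert h2) (fun F₁ h1 F₂ h2 G hG h => T_mono h1 h2 hG h)
    1 one_pos F1 F1_mem F2 F2_mem F1 F1_mem F1 F1_mem ?_ (fun x _ => le_rfl) 1 le_rfl
  · have n1 : F1 ≠ e0 := by
      intro h; have := congrFun h (1 / 2)
      norm_num [F1, e0] at this
    have n2 : F2 ≠ e0 := by
      intro h; have := congrFun h (1 / 2)
      norm_num [F2, e0] at this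
    have p1 : (1 / 2 : ℝ) ≤ F1 2 := by norm_num [F1]
    have p2 : ¬ (1 / 2 : ℝ) ≤ F2 2 := by norm_num [F2]
    rw [T_pos n1 n1 ⟨p1, p1⟩, T_neg n2 n1 (fun h => p2 h.1)] at key
    norm_num [F1] at key
  · intro x hx
    simp only [F1, F2]
    split_ifs <;> norm_num

end Pool.Agent.S02850
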