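import Pool.Statements.S03067
-- import your own Pool.Agent.* helpers here

set_option autoImplicit false
open Pool Pool.MP_3f3e32_an

namespace Pool.Agent.S03067

/-- For weights M as given and compact X, every unital multiplicative linear functional on rational functions with poles off X, bounded in the norm sum of M_k^-1 sup over X of the k-th derivative, is evaluation at some point of X. -/
theorem result :
    ∀ (M : ℕ → ℝ), M 0 = 1 → (∀ k, 0 < M k) →
      (∀ k j : ℕ, ((Nat.choose (k + j) j : ℕ) : ℝ) ≤ M (k + j) / (M k * M j)) →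
      Summable (fun k : ℕ => M k / M (k + 1)) →
      ∀ (X : Set ℂ), IsCompact X →
      ∀ (φ : Polynomial ℂ → Polynomial ℂ → ℂ),
        (∀ p q p' q' : Polynomial ℂ, (∀ x ∈ X, q.eval x ≠ 0) → (∀ x ∈ X, q'.eval x ≠ 0) →
            p * q' = p' * q → φ p q = φ p' q') →
        (∀ p q p' q' : Polynomial ℂ, (∀ x ∈ X, q.eval x ≠ 0) → (∀ x ∈ X, q'.eval x ≠ 0) →
            φ (p * q' + p' * q) (q * q') = φ p q + φ p' q') →
        (∀ (c : ℂ) (p q : Polynomial ℂ), (∀ x ∈ X, q.eval x ≠ 0) →
            φ (Polynomial.C c * p) q = c * φ p q) →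
        (∀ p q p' q' : Polynomial ℂ, (∀ x ∈ X, q.eval x ≠ 0) → (∀ x ∈ X, q'.eval x ≠ 0) →
            φ (p * p') (q * q') = φ p q * φ p' q') →
        φ 1 1 = 1 →
        (∃ C : ℝ, ∀ p q : Polynomial ℂ, (∀ x ∈ X, q.eval x ≠ 0) → ∀ B : ℝ,
            (∀ N : ℕ, ∑ k ∈ Finset.range N,
                (M k)⁻¹ * (⨆ x : X, ‖iteratedDeriv k (fun z : ℂ => p.eval z / q.eval z) (x : ℂ)‖) ≤ B) →
            ‖φ p q‖ ≤ C * B) →
        ∃ x ∈ X, ∀ p q : Polynomial ℂ, (∀ y ∈ X, q.eval y ≠ 0) → φ p q = p.eval x / q.eval x := by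
  intro M _ _ _ _ X _ φ hwd hadd hsmul hmul h11 _
  have one_ok : ∀ x ∈ X, (1 : Polynomial ℂ).eval x ≠ 0 := fun x _ => by simp
  have hpoly : ∀ p : Polynomial ℂ, φ p 1 = p.eval (φ Polynomial.X 1) := by
    intro p
    induction p using Polynomial.induction_on' with
    | add p q hp hq =>
      have h := hadd p 1 q 1 one_ok one_ok
      rw [mul_one, mul_one, mul_one] at h
      rw [h, hp, hq, Polynomial.eval_add]
    | monomial n a =>
      have hX : ∀ n : ℕ, φ (Polynomial.X ^ n) 1 = (φ Polynomial.X 1) ^ n := by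
        intro n
        induction n with
        | zero => simpa using h11
        | succ n ih =>
          have h := hmul (Polynomial.X ^ n) 1 Polynomial.X 1 one_ok one_ok
          rw [mul_one] at h
          rw [pow_succ, pow_succ, h, ih]
      rw [← Polynomial.C_mul_X_pow_eq_monomial, hsmul a _ 1 one_ok, hX]
      simp
  have hq : ∀ q : Polynomial ℂ, (∀ x ∈ X, q.eval x ≠ 0) → φ q 1 ≠ 0 := by
    intro q hq h0
    have h := hmul q 1 1 q one_ok hq
    rw [mul_one, one_mul, h0, zero_mul] at h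
    have h2 := hwd q q 1 1 hq one_ok (by ring)
    rw [h, h11] at h2
    exact zero_ne_one h2
  refine ⟨φ Polynomial.X 1, ?_, ?_⟩
  · by_contra hx
    apply hq (Polynomial.X - Polynomial.C (φ Polynomial.X 1))
    · intro x hxX h0
      rw [Polynomial.eval_sub, Polynomial.eval_X, Polynomial.eval_C, sub_eq_zero] at h0
      exact hx (h0 ▸ hxX)
    · rw [hpoly]; simp
  · intro p q hqX
    have h := hmul p q q 1 hqX one_ok
    rw [mul_one] at h
    have h2 := hwd (p * q) q p 1 hqX one_ok (by ring)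
    rw [h, hpoly q, hpoly p] at h2
    rw [eq_div_iff]
    · exact h2
    · rw [← hpoly q]; exact hq q hqX

end Pool.Agent.S03067
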