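import Pool.Statements.S03074

set_option autoImplicit false
open Filter Topology NNReal
open Pool Pool.MP_3fe7c1_an

namespace Pool.Agent.S03074

/-- The frequencies. -/
noncomputable def bt (k : ℕ) : ℝ := ((k + 1).factorial : ℝ)

lemma bt_pos (k : ℕ) : 0 < bt k := by
  unfold bt; exact_mod_cast Nat.factorial_pos _

lemma bt_succ (k : ℕ) : bt (k + 1) = ((k : ℝ) + 2) * bt k := by
  unfold bt
  rw [Nat.factorial_succ (k + 1)]
  push_cast
  ring

lemma bt_ge (k : ℕ) : (k : ℝ) + 1 ≤ bt k := by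
  unfold bt
  have := Nat.self_le_factorial (k + 1)
  exact_mod_cast this

/-- The multipliers. -/
noncomputable def mu (k : ℕ) (t : ℝ) : ℂ :=
  ((Real.exp (-(t / ((k : ℝ) + 1))) : ℝ) : ℂ) * Complex.exp (((bt k * t : ℝ) : ℂ) * Complex.I)

lemma norm_mu (k : ℕ) (t : ℝ) : ‖mu k t‖ = Real.exp (-(t / ((k : ℝ) + 1))) := by
  unfold mu
  rw [norm_mul, Complex.norm_exp_ofReal_mul_I, mul_one, Complex.norm_real, Real.norm_eq_abs,
    abs_of_pos (Real.exp_pos _)]

lemma mu_add (k : ℕ) (s t : ℝ) : mu k (s + t) = mu k s * mu k t := by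
  unfold mu
  have h1 : -((s + t) / ((k : ℝ) + 1)) = -(s / ((k : ℝ) + 1)) + -(t / ((k : ℝ) + 1)) := by ring
  have h2 : ((bt k * (s + t) : ℝ) : ℂ) * Complex.I
      = ((bt k * s : ℝ) : ℂ) * Complex.I + ((bt k * t : ℝ) : ℂ) * Complex.I := by
    push_cast; ring
  rw [h1, h2, Real.exp_add, Complex.exp_add]
  push_cast
  ring

lemma mu_zero (k : ℕ) : mu k 0 = 1 := by
  simp [mu]

lemma mu_cont (k : ℕ) : Continuous (mu k) := by
  unfold mu
  fun_prop

lemma norm_mu_le (k : ℕ) (t : ℝ) (ht : 0 ≤ t) : ‖mu k t‖ ≤ 1 := by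
  rw [norm_mu]
  apply Real.exp_le_one_iff.2
  have : 0 ≤ t / ((k : ℝ) + 1) := by positivity
  linarith

/-! ### Greedy signs -/

/-- greedy partial sums -/
noncomputable def psum (s : ℕ → ℝ) : ℕ → ℝ
  | 0 => 0
  | (n + 1) => if psum s n ≤ 0 then psum s n + s n else psum s n - s n

/-- greedy signs -/
noncomputable def sgn (s : ℕ → ℝ) (n : ℕ) : ℝ := if psum s n ≤ 0 then 1 else -1

lemma psum_eq (s : ℕ → ℝ) (n : ℕ) : psum s n = ∑ k ∈ Finset.range n, sgn s k * s k := by
  induction n with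
  | zero => simp [psum]
  | succ n ih =>
    rw [Finset.sum_range_succ, ← ih, psum, sgn]
    split_ifs <;> ring

lemma psum_le (s : ℕ → ℝ) (M : ℝ) (hM : 0 ≤ M) (h0 : ∀ k, 0 ≤ s k) (h1 : ∀ k, s k ≤ M)
    (n : ℕ) : |psum s n| ≤ M := by
  induction n with
  | zero => simpa [psum] using hM
  | succ n ih =>
    rw [psum]
    have h0n := h0 n
    have h1n := h1 n
    rw [abs_le] at ih
    split_ifs with h
    · rw [abs_le]; constructor <;> linarith [ih.1, ih.2]
    · rw [not_le] at h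
      rw [abs_le]; constructor <;> linarith [ih.1, ih.2]

lemma sgn_abs (s : ℕ → ℝ) (n : ℕ) : |sgn s n| = 1 := by
  unfold sgn; split_ifs <;> simp

lemma greedy (s : ℕ → ℝ) (M : ℝ) (hM : 0 ≤ M) (h0 : ∀ k, 0 ≤ s k) (h1 : ∀ k, s k ≤ M)
    (hs : Summable s) :
    ∃ e : ℕ → ℝ, ∃ S : ℝ, (∀ k, |e k| = 1) ∧ HasSum (fun k => e k * s k) S ∧ |S| ≤ M := by
  have hsum : Summable (fun k => sgn s k * s k) := by
    apply Summable.of_norm_bounded hs
    intro k
    rw [norm_mul, Real.norm_eq_abs, sgn_abs, one_mul, Real.norm_eq_abs, abs_of_nonneg (h0 k)]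
  refine ⟨sgn s, ∑' k, sgn s k * s k, sgn_abs s, hsum.hasSum, ?_⟩
  have ht := hsum.hasSum.tendsto_sum_nat
  have ht' := ht.abs
  apply le_of_tendsto ht'
  filter_upwards with n
  rw [← psum_eq]
  exact psum_le s M hM h0 h1 n

/-! ### Closing the polygon -/

lemma phases (r : ℕ → ℝ) (hr : Summable r) (h0 : ∀ k, 0 ≤ r k) (i j : ℕ) (hij : i ≠ j)
    (hi : ∀ k, r k ≤ r i) (hj : r j = r i) (hpos : 0 < r i) :
    ∃ u : ℕ → ℂ, (∀ k, ‖u k‖ = 1) ∧ HasSum (fun k => (r k : ℂ) * u k) 0 := by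
  classical
  set M := r i with hM
  set s : ℕ → ℝ := fun k => if k = i ∨ k = j then 0 else r k with hs
  have hs0 : ∀ k, 0 ≤ s k := by
    intro k; simp only [hs]; split_ifs
    · exact le_rfl
    · exact h0 k
  have hsr : ∀ k, s k ≤ r k := by
    intro k; simp only [hs]; split_ifs
    · exact h0 k
    · exact le_rfl
  have hsM : ∀ k, s k ≤ M := fun k => (hsr k).trans (hi k)
  have hssum : Summable s := Summable.of_nonneg_of_le hs0 hsr hr
  obtain ⟨e, S, he, hS, hSM⟩ := greedy s M hpos.le hs0 hsM hssum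
  rw [abs_le] at hSM
  set al := Real.arccos (-S / (2 * M)) with hal
  have hcos : Real.cos al = -S / (2 * M) := by
    apply Real.cos_arccos
    · rw [le_div_iff₀ (by positivity)]; linarith [hSM.2]
    · rw [div_le_iff₀ (by positivity)]; linarith [hSM.1]
  set ui : ℂ := Complex.exp ((al : ℂ) * Complex.I) with hui
  set uj : ℂ := Complex.exp (((-al : ℝ) : ℂ) * Complex.I) with huj
  have huij : (M : ℂ) * ui + (M : ℂ) * uj = ((-S : ℝ) : ℂ) := by
    have h2 : ui + uj = ((2 * Real.cos al : ℝ) : ℂ) := by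
      rw [hui, huj]
      push_cast
      rw [Complex.two_cos]
      
    rw [← mul_add, h2, hcos]
    push_cast
    have : (M : ℂ) ≠ 0 := by exact_mod_cast hpos.ne'
    field_simp
  refine ⟨fun k => if k = i then ui else if k = j then uj else (e k : ℂ), ?_, ?_⟩
  · intro k
    dsimp only
    split_ifs
    · exact Complex.norm_exp_ofReal_mul_I _
    · exact Complex.norm_exp_ofReal_mul_I _
    · rw [Complex.norm_real, Real.norm_eq_abs, he]
  · have hA : HasSum (fun k => ((e k * s k : ℝ) : ℂ)) ((S : ℝ) : ℂ) := by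
      exact_mod_cast (Complex.hasSum_ofReal.2 hS)
    have hB : HasSum (fun k => if k = i then (M : ℂ) * ui else 0) ((M : ℂ) * ui) :=
      hasSum_ite_eq i _
    have hC : HasSum (fun k => if k = j then (M : ℂ) * uj else 0) ((M : ℂ) * uj) :=
      hasSum_ite_eq j _
    have hD := (hA.add hB).add hC
    have hz : ((S : ℝ) : ℂ) + (M : ℂ) * ui + (M : ℂ) * uj = 0 := by
      rw [add_assoc, huij]; push_cast; ring
    rw [hz] at hD
    convert hD using 1
    funext k
    simp only [hs]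
    by_cases hki : k = i
    · subst hki
      simp [hij, hM]
    · by_cases hkj : k = j
      · subst hkj
        simp [hki, hj]
      · simp [hki, hkj, mul_comm]

/-! ### Hitting phases -/

lemma hit (s b : ℝ) (hb : 0 < b) (v : ℂ) (hv : ‖v‖ = 1) :
    ∃ t : ℝ, s ≤ t ∧ t ≤ s + 2 * Real.pi / b ∧ Complex.exp (((b * t : ℝ) : ℂ) * Complex.I) = v := by
  have hpi := Real.pi_pos
  set th := Complex.arg v with hth
  set m := ⌈(b * s - th) / (2 * Real.pi)⌉ with hm
  have h1 : (b * s - th) / (2 * Real.pi) ≤ m := Int.le_ceil _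
  have h2 : (m : ℝ) < (b * s - th) / (2 * Real.pi) + 1 := Int.ceil_lt_add_one _
  rw [div_le_iff₀ (by positivity)] at h1
  have h2' : (m : ℝ) - 1 < (b * s - th) / (2 * Real.pi) := by linarith
  rw [lt_div_iff₀ (by positivity)] at h2'
  refine ⟨(th + 2 * Real.pi * m) / b, ?_, ?_, ?_⟩
  · rw [le_div_iff₀ hb]; linarith
  · rw [div_le_iff₀ hb]
    have : (s + 2 * Real.pi / b) * b = s * b + 2 * Real.pi := by field_simp
    rw [this]
    linarith
  · have h3 : b * ((th + 2 * Real.pi * m) / b) = th + 2 * Real.pi * m := by field_simp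
    rw [h3]
    have h4 : (((th + 2 * Real.pi * m : ℝ)) : ℂ) * Complex.I
        = (th : ℂ) * Complex.I + m * (2 * Real.pi * Complex.I) := by
      push_cast; ring
    rw [h4, Complex.exp_add, Complex.exp_int_mul_two_pi_mul_I, mul_one]
    have h5 := Complex.norm_mul_exp_arg_mul_I v
    rw [hv] at h5
    simpa using h5

/-- the hitting times -/
lemma times (b : ℕ → ℝ) (hb : ∀ k, 0 < b k) (hb2 : ∀ k, 2 * b k ≤ b (k + 1)) (T : ℝ)
    (v : ℕ → ℂ) (hv : ∀ k, ‖v k‖ = 1) :
    ∃ t : ℝ, T ≤ t ∧ t ≤ T + 4 * Real.pi / b 0 ∧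
      ∀ k, ‖Complex.exp (((b k * t : ℝ) : ℂ) * Complex.I) - v k‖ ≤ 4 * Real.pi * (b k / b (k + 1)) := by
  have hpi := Real.pi_pos
  choose F hF1 hF2 hF3 using fun (k : ℕ) (s : ℝ) => hit s (b k) (hb k) (v k) (hv k)
  let τ : ℕ → ℝ := fun n => Nat.rec (F 0 T) (fun k s => F (k + 1) s) n
  have hτ0 : τ 0 = F 0 T := rfl
  have hτs : ∀ n, τ (n + 1) = F (n + 1) (τ n) := fun n => rfl
  have hex : ∀ k, Complex.exp (((b k * τ k : ℝ) : ℂ) * Complex.I) = v k := by
    intro k
    cases k with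
    | zero => rw [hτ0]; exact hF3 0 T
    | succ k => rw [hτs]; exact hF3 (k + 1) (τ k)
  have hmono : Monotone τ := by
    apply monotone_nat_of_le_succ
    intro n; rw [hτs]; exact hF1 _ _
  have hanti : Antitone (fun k => τ k + 4 * Real.pi / b (k + 1)) := by
    apply antitone_nat_of_succ_le
    intro n
    have h1 : τ (n + 1) ≤ τ n + 2 * Real.pi / b (n + 1) := by rw [hτs]; exact hF2 _ _
    have h2 : 4 * Real.pi / b (n + 1 + 1) ≤ 2 * Real.pi / b (n + 1) := by
      rw [div_le_div_iff₀ (hb _) (hb _)]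
      have := hb2 (n + 1)
      nlinarith
    have h3 : 4 * Real.pi / b (n + 1) = 2 * Real.pi / b (n + 1) + 2 * Real.pi / b (n + 1) := by ring
    rw [h3]; linarith
  have hle : τ ≤ (fun k => τ k + 4 * Real.pi / b (k + 1)) := by
    intro k
    have : 0 < 4 * Real.pi / b (k + 1) := by have := hb (k+1); positivity
    dsimp only; linarith
  have hmem := hmono.ciSup_mem_iInter_Icc_of_antitone hanti hle
  set t := ⨆ n, τ n with ht
  rw [Set.mem_iInter] at hmem
  refine ⟨t, ?_, ?_, ?_⟩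
  · have := (hmem 0).1
    have h := hF1 0 T
    rw [← hτ0] at h
    linarith
  · have h1 := (hmem 0).2
    have h := hF2 0 T
    rw [← hτ0] at h
    have h2 : 4 * Real.pi / b (0 + 1) ≤ 2 * Real.pi / b 0 := by
      rw [div_le_div_iff₀ (hb _) (hb _)]
      have := hb2 0
      nlinarith
    have h3 : 4 * Real.pi / b 0 = 2 * Real.pi / b 0 + 2 * Real.pi / b 0 := by ring
    rw [h3]; linarith
  · intro k
    have h1 := (hmem k).1
    have h2 := (hmem k).2
    rw [← hex k]
    have h4 : Complex.exp (((b k * t : ℝ) : ℂ) * Complex.I) - Complex.exp (((b k * τ k : ℝ) : ℂ) * Complex.I)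
        = Complex.exp (((b k * τ k : ℝ) : ℂ) * Complex.I) *
          (Complex.exp (Complex.I * ((b k * (t - τ k) : ℝ) : ℂ)) - 1) := by
      rw [mul_sub, ← Complex.exp_add, mul_one]
      congr 2
      push_cast; ring
    rw [h4, norm_mul, Complex.norm_exp_ofReal_mul_I, one_mul]
    refine (Real.norm_exp_I_mul_ofReal_sub_one_le (x := b k * (t - τ k))).trans ?_
    rw [Real.norm_eq_abs, abs_of_nonneg (mul_nonneg (hb k).le (by linarith))]
    have h5 : t - τ k ≤ 4 * Real.pi / b (k + 1) := by linarith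
    calc b k * (t - τ k) ≤ b k * (4 * Real.pi / b (k + 1)) :=
          mul_le_mul_of_nonneg_left h5 (hb k).le
      _ = 4 * Real.pi * (b k / b (k + 1)) := by ring

/-! ### Two maximal coefficients -/

/-- the moduli -/
noncomputable def rr (c : ℕ → ℝ) (k : ℕ) (T : ℝ) : ℝ := c k * Real.exp (-(T / ((k : ℝ) + 1)))

lemma rr_cont (c : ℕ → ℝ) (k : ℕ) : Continuous (rr c k) := by
  unfold rr; fun_prop

lemma rr_le (c : ℕ → ℝ) (hc : ∀ k, 0 ≤ c k) (k : ℕ) (T : ℝ) (hT : 0 ≤ T) : rr c k T ≤ c k := by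
  unfold rr
  have : Real.exp (-(T / ((k : ℝ) + 1))) ≤ 1 := by
    apply Real.exp_le_one_iff.2
    have : 0 ≤ T / ((k : ℝ) + 1) := by positivity
    linarith
  calc c k * Real.exp (-(T / ((k : ℝ) + 1))) ≤ c k * 1 := mul_le_mul_of_nonneg_left this (hc k)
    _ = c k := mul_one _

lemma rr_nonneg (c : ℕ → ℝ) (hc : ∀ k, 0 ≤ c k) (k : ℕ) (T : ℝ) : 0 ≤ rr c k T :=
  mul_nonneg (hc k) (Real.exp_pos _).le

lemma exists_max (g : ℕ → ℝ) (hg : Summable g) (i : ℕ) (hi : 0 < g i) :
    ∃ m, (∀ k, g k ≤ g m) ∧ 0 < g m := by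
  have hfin : {k | g i ≤ g k}.Finite := by
    have h1 := hg.tendsto_cofinite_zero
    have h2 : ∀ᶠ k in cofinite, g k < g i := h1.eventually (gt_mem_nhds hi)
    rw [Filter.eventually_cofinite] at h2
    refine h2.subset ?_
    intro k hk
    simpa using hk
  obtain ⟨m, hm, hmax⟩ := hfin.toFinset.exists_max_image g ⟨i, by simp⟩
  have hmi : g i ≤ g m := by simpa using hm
  refine ⟨m, fun k => ?_, hi.trans_le hmi⟩
  by_cases hk : g i ≤ g k
  · exact hmax k (by simpa using hk)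
  · rw [not_le] at hk
    linarith

lemma double_max (c : ℕ → ℝ) (hcs : Summable c) (hc : ∀ k, 0 ≤ c k)
    (hinf : ∀ K, ∃ k, K ≤ k ∧ c k ≠ 0) (T₀ : ℝ) (hT₀ : 0 ≤ T₀) :
    ∃ T, T₀ ≤ T ∧ ∃ i j, i ≠ j ∧ 0 < rr c i T ∧ (∀ k, rr c k T ≤ rr c i T) ∧ rr c j T = rr c i T := by
  have hsum : ∀ T, 0 ≤ T → Summable (fun k => rr c k T) := fun T hT =>
    Summable.of_nonneg_of_le (fun k => rr_nonneg c hc k T) (fun k => rr_le c hc k T hT) hcs
  obtain ⟨k₁, -, hk₁⟩ := hinf 0
  have hk₁' : 0 < rr c k₁ T₀ := mul_pos (lt_of_le_of_ne (hc _) (Ne.symm hk₁)) (Real.exp_pos _)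
  obtain ⟨m, hm, hmpos⟩ := exists_max (fun k => rr c k T₀) (hsum T₀ hT₀)
    k₁ hk₁'
  have hcm : 0 < c m := by
    rcases (hc m).lt_or_eq with h | h
    · exact h
    · exfalso; simp [rr, ← h] at hmpos
  have hposall : ∀ T, 0 < rr c m T := fun T => mul_pos hcm (Real.exp_pos _)
  set E : Set ℝ := {t | T₀ ≤ t ∧ ∀ k, rr c k t ≤ rr c m t} with hE
  have hEne : E.Nonempty := ⟨T₀, le_rfl, hm⟩
  have hEcl : IsClosed E := by
    have h1 : IsClosed {t : ℝ | T₀ ≤ t} := isClosed_Ici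
    have h2 : IsClosed {t : ℝ | ∀ k, rr c k t ≤ rr c m t} := by
      rw [Set.ofPred_forall]
      exact isClosed_iInter fun k => isClosed_le (rr_cont c k) (rr_cont c m)
    exact h1.inter h2
  have hEbd : BddAbove E := by
    obtain ⟨j, hj, hcj⟩ := hinf (m + 1)
    have hcj' : 0 < c j := lt_of_le_of_ne (hc _) (Ne.symm hcj)
    set d : ℝ := 1 / ((m : ℝ) + 1) - 1 / ((j : ℝ) + 1) with hd
    have hdpos : 0 < d := by
      have : (m : ℝ) + 1 < (j : ℝ) + 1 := by
        have : (m : ℝ) < j := by exact_mod_cast hj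
        linarith
      have := one_div_lt_one_div_of_lt (by positivity : (0:ℝ) < (m : ℝ) + 1) this
      linarith
    refine ⟨c m / c j / d, ?_⟩
    rintro t ⟨-, ht⟩
    have h1 := ht j
    unfold rr at h1
    have h2 : Real.exp (t * d) ≤ c m / c j := by
      rw [le_div_iff₀ hcj']
      have h3 : Real.exp (t * d) = Real.exp (-(t / ((j : ℝ) + 1))) * Real.exp (t / ((m : ℝ) + 1)) := by
        rw [← Real.exp_add]; congr 1; rw [hd]; ring
      rw [h3]
      calc Real.exp (-(t / ((j : ℝ) + 1))) * Real.exp (t / ((m : ℝ) + 1)) * c j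
          = (c j * Real.exp (-(t / ((j : ℝ) + 1)))) * Real.exp (t / ((m : ℝ) + 1)) := by ring
        _ ≤ (c m * Real.exp (-(t / ((m : ℝ) + 1)))) * Real.exp (t / ((m : ℝ) + 1)) :=
            mul_le_mul_of_nonneg_right h1 (Real.exp_pos _).le
        _ = c m := by rw [mul_assoc, ← Real.exp_add]; simp
    have h4 : t * d ≤ c m / c j := by
      have := Real.add_one_le_exp (t * d)
      linarith
    rw [le_div_iff₀ hdpos]; exact h4
  set T := sSup E with hT
  have hTE : T ∈ E := hEcl.csSup_mem hEne hEbd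
  have hT0 : 0 ≤ T := hT₀.trans hTE.1
  refine ⟨T, hTE.1, ?_⟩
  by_contra hcon
  push Not at hcon
  have hstrict : ∀ j, j ≠ m → rr c j T < rr c m T := by
    intro j hj
    rcases (hTE.2 j).lt_or_eq with h | h
    · exact h
    · exact absurd h (hcon m j (Ne.symm hj) (hposall T) hTE.2)
  -- lower bound
  set ε := rr c m (T + 1) with hε
  have hεpos : 0 < ε := hposall _
  have hfin : {k | ε ≤ c k}.Finite := by
    have h2 : ∀ᶠ k in cofinite, c k < ε := hcs.tendsto_cofinite_zero.eventually (gt_mem_nhds hεpos)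
    rw [Filter.eventually_cofinite] at h2
    refine h2.subset ?_
    intro k hk
    simpa using hk
  have hev : ∀ᶠ t in 𝓝 T, ∀ k ∈ {k | ε ≤ c k}, k ≠ m → rr c k t < rr c m t := by
    rw [hfin.eventually_all]
    intro k _
    by_cases hkm : k = m
    · exact Eventually.of_forall fun t h => absurd hkm h
    · have := (rr_cont c k).continuousAt.eventually_lt (rr_cont c m).continuousAt (hstrict k hkm)
      filter_upwards [this] with t ht _
      exact ht
  have hev2 : ∀ᶠ t in 𝓝[>] T, (∀ k ∈ {k | ε ≤ c k}, k ≠ m → rr c k t < rr c m t) ∧ t < T + 1 ∧ T < t := by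
    refine ((hev.filter_mono nhdsWithin_le_nhds).and ?_)
    have h1 : ∀ᶠ t in 𝓝[>] T, t < T + 1 := nhdsWithin_le_nhds (gt_mem_nhds (by linarith))
    exact h1.and self_mem_nhdsWithin
  obtain ⟨t, ht1, ht2, ht3⟩ := hev2.exists
  have htE : t ∈ E := by
    refine ⟨hTE.1.trans ht3.le, ?_⟩
    intro k
    by_cases hk : ε ≤ c k
    · by_cases hkm : k = m
      · rw [hkm]
      · exact (ht1 k hk hkm).le
    · rw [not_le] at hk
      have h1 : rr c k t ≤ c k := rr_le c hc k t (by linarith)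
      have h2 : ε ≤ rr c m t := by
        rw [hε]; unfold rr
        apply mul_le_mul_of_nonneg_left _ hcm.le
        apply Real.exp_le_exp.2
        have : t / ((m : ℝ) + 1) ≤ (T + 1) / ((m : ℝ) + 1) :=
          div_le_div_of_nonneg_right ht2.le (by positivity)
        linarith
      linarith
  have := le_csSup hEbd htE
  linarith

/-! ### The main estimate -/

lemma exp_neg_le (x : ℝ) (hx : 0 ≤ x) : Real.exp (-x) ≤ 1 / (x + 1) := by
  rw [Real.exp_neg, one_div]
  apply inv_anti₀ (by linarith)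
  exact Real.add_one_le_exp x

/-- The sum of a weak orbit. -/
noncomputable def ff (c : ℕ → ℂ) (t : ℝ) : ℂ := ∑' k, mu k t * c k

lemma summable_ff (c : ℕ → ℂ) (hc : Summable (fun k => ‖c k‖)) (t : ℝ) (ht : 0 ≤ t) :
    Summable (fun k => mu k t * c k) := by
  apply Summable.of_norm_bounded hc
  intro k
  rw [norm_mul]
  calc ‖mu k t‖ * ‖c k‖ ≤ 1 * ‖c k‖ :=
        mul_le_mul_of_nonneg_right (norm_mu_le k t ht) (norm_nonneg _)
    _ = ‖c k‖ := one_mul _

/-- case of infinite support -/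
lemma est_inf (c : ℕ → ℂ) (hc : Summable (fun k => ‖c k‖))
    (hinf : ∀ K, ∃ k, K ≤ k ∧ c k ≠ 0) (T₀ : ℝ) (hT₀ : 1 ≤ T₀) :
    ∃ T t, T₀ ≤ T ∧ T ≤ t ∧ t ≤ T + 13 ∧ ‖ff c t‖ ≤ 30 / Real.sqrt T * ∑' k, ‖c k‖ := by
  have hpi := Real.pi_pos
  have hpi4 := Real.pi_lt_d2
  obtain ⟨T, hT, i, j, hij, hpos, hmax, hj⟩ := double_max (fun k => ‖c k‖) hc
    (fun k => norm_nonneg _) (fun K => by
      obtain ⟨k, hk, hk'⟩ := hinf K
      exact ⟨k, hk, by simpa using hk'⟩) T₀ (by linarith)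
  have hT1 : 1 ≤ T := hT₀.trans hT
  have hT0 : 0 ≤ T := by linarith
  have hsum : Summable (fun k => rr (fun k => ‖c k‖) k T) :=
    Summable.of_nonneg_of_le (fun k => rr_nonneg _ (fun k => norm_nonneg _) k T)
      (fun k => rr_le _ (fun k => norm_nonneg _) k T hT0) hc
  obtain ⟨u, hu, hus⟩ := phases (fun k => rr (fun k => ‖c k‖) k T) hsum
    (fun k => rr_nonneg _ (fun k => norm_nonneg _) k T) i j hij hmax hj hpos
  set n := ⌊Real.sqrt T⌋₊ with hn
  have hsq1 : 1 ≤ Real.sqrt T := Real.one_le_sqrt.2 hT1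
  have hn1 : 1 ≤ n := by rw [hn]; exact (Nat.one_le_floor_iff _).2 hsq1
  have hnle : (n : ℝ) ≤ Real.sqrt T := Nat.floor_le (Real.sqrt_nonneg _)
  have hnlt : Real.sqrt T < n + 1 := Nat.lt_floor_add_one _
  have hTn : (n : ℝ) * n ≤ T := by
    calc (n : ℝ) * n ≤ Real.sqrt T * Real.sqrt T := by
          apply mul_le_mul hnle hnle (by positivity) (Real.sqrt_nonneg _)
      _ = T := Real.mul_self_sqrt hT0
  have hw : ∀ k, ∃ w : ℂ, ‖w‖ = 1 ∧ c k = (‖c k‖ : ℂ) * w := by
    intro k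
    by_cases h : c k = 0
    · exact ⟨1, by simp, by simp [h]⟩
    · refine ⟨c k / (‖c k‖ : ℂ), ?_, ?_⟩
      · rw [norm_div, Complex.norm_real, norm_norm]
        exact div_self (norm_ne_zero_iff.2 h)
      · have : (‖c k‖ : ℂ) ≠ 0 := by exact_mod_cast (norm_ne_zero_iff.2 h)
        field_simp
  choose w hw1 hw2 using hw
  obtain ⟨t, ht1, ht2, ht3⟩ := times (fun k => bt (n + k)) (fun k => bt_pos _)
    (fun k => by
      show 2 * bt (n + k) ≤ bt (n + k + 1)
      rw [bt_succ]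
      have := bt_pos (n + k)
      push_cast
      have h2 : (0:ℝ) ≤ (n : ℝ) + k := by positivity
      nlinarith) T (fun k => u (n + k) / w (n + k)) (fun k => by
        rw [norm_div, hu, hw1, div_one])
  have ht0 : 0 ≤ t := hT0.trans ht1
  have hb0 : bt n ≥ n + 1 := bt_ge n
  have ht2' : t - T ≤ 4 * Real.pi / (n + 1) := by
    have h1 : 4 * Real.pi / bt (n + 0) ≤ 4 * Real.pi / (n + 1) := by
      apply div_le_div_of_nonneg_left (by positivity) (by positivity)
      simpa using hb0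
    have h2 := ht2
    linarith
  refine ⟨T, t, hT, ht1, ?_, ?_⟩
  · have : 4 * Real.pi / ((n : ℝ) + 1) ≤ 4 * Real.pi := by
      apply div_le_self (by positivity)
      have : (0:ℝ) ≤ n := by positivity
      linarith
    linarith
  -- main estimate
  set E : ℝ := 30 / Real.sqrt T with hE
  have hEn : (30 : ℝ) / (n + 1) ≤ E := by
    rw [hE]
    apply div_le_div_of_nonneg_left (by norm_num) (by linarith) hnlt.le
  have hkey : ∀ k, ‖mu k t * c k - (rr (fun k => ‖c k‖) k T : ℂ) * u k‖ ≤ E * ‖c k‖ := by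
    intro k
    by_cases hk : k < n
    · -- low terms
      have hk1 : (k : ℝ) + 1 ≤ n := by exact_mod_cast hk
      have hexp : ∀ s : ℝ, T ≤ s → Real.exp (-(s / ((k : ℝ) + 1))) ≤ 1 / (n + 1) := by
        intro s hs
        refine le_trans ?_ (exp_neg_le n (by positivity))
        apply Real.exp_le_exp.2
        apply neg_le_neg
        rw [le_div_iff₀ (by positivity)]
        calc (n : ℝ) * ((k : ℝ) + 1) ≤ n * n := mul_le_mul_of_nonneg_left hk1 (by positivity)
          _ ≤ T := hTn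
          _ ≤ s := hs
      have h1 : ‖mu k t * c k‖ ≤ 1 / (n + 1) * ‖c k‖ := by
        rw [norm_mul, norm_mu]
        exact mul_le_mul_of_nonneg_right (hexp t ht1) (norm_nonneg _)
      have h2 : ‖(rr (fun k => ‖c k‖) k T : ℂ) * u k‖ ≤ 1 / (n + 1) * ‖c k‖ := by
        rw [norm_mul, hu, mul_one, Complex.norm_real, Real.norm_eq_abs,
          abs_of_nonneg (rr_nonneg _ (fun k => norm_nonneg _) k T)]
        unfold rr
        rw [mul_comm]
        exact mul_le_mul_of_nonneg_right (hexp T le_rfl) (norm_nonneg _)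
      calc ‖mu k t * c k - (rr (fun k => ‖c k‖) k T : ℂ) * u k‖
          ≤ ‖mu k t * c k‖ + ‖(rr (fun k => ‖c k‖) k T : ℂ) * u k‖ := norm_sub_le _ _
        _ ≤ 1 / (n + 1) * ‖c k‖ + 1 / (n + 1) * ‖c k‖ := add_le_add h1 h2
        _ = 2 / (n + 1) * ‖c k‖ := by ring
        _ ≤ E * ‖c k‖ := by
            apply mul_le_mul_of_nonneg_right _ (norm_nonneg _)
            refine le_trans ?_ hEn
            apply div_le_div_of_nonneg_right (by norm_num) (by positivity)
    · -- high terms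
      rw [not_lt] at hk
      obtain ⟨l, rfl⟩ := Nat.exists_eq_add_of_le hk
      set k := n + l with hkdef
      have h3 := ht3 l
      have hratio : bt (n + l) / bt (n + (l + 1)) ≤ 1 / (n + 1) := by
        rw [← add_assoc, bt_succ]
        rw [div_le_div_iff₀ (mul_pos (by positivity) (bt_pos _)) (by positivity)]
        have := bt_pos (n + l)
        push_cast
        have h2 : (0:ℝ) ≤ (l : ℝ) := by positivity
        nlinarith
      set e1 := Real.exp (-(t / ((k : ℝ) + 1))) with he1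
      set e2 := Real.exp (-(T / ((k : ℝ) + 1))) with he2
      set z := Complex.exp (((bt k * t : ℝ) : ℂ) * Complex.I) with hz
      have hzn : ‖z‖ = 1 := Complex.norm_exp_ofReal_mul_I _
      have hw0 : w k ≠ 0 := by
        intro h; have := hw1 k; rw [h] at this; simp at this
      have hsplit : mu k t * c k - (rr (fun k => ‖c k‖) k T : ℂ) * u k
          = (‖c k‖ : ℂ) * ((((e1 - e2 : ℝ)) : ℂ) * z * w k + (e2 : ℂ) * (w k * (z - u k / w k))) := by
        have hmu : mu k t = (e1 : ℂ) * z := rfl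
        have hrr : rr (fun k => ‖c k‖) k T = ‖c k‖ * e2 := rfl
        rw [hmu, hrr]
        conv_lhs => rw [hw2 k]
        rw [mul_sub (w k), mul_div_cancel₀ _ hw0]
        push_cast
        simp only [norm_mul, Complex.norm_real, norm_norm, hw1, mul_one]
        ring
      rw [hsplit, norm_mul, Complex.norm_real, norm_norm, mul_comm E]
      apply mul_le_mul_of_nonneg_left _ (norm_nonneg _)
      have he2le : e2 ≤ 1 := by
        rw [he2]; apply Real.exp_le_one_iff.2
        have : 0 ≤ T / ((k : ℝ) + 1) := by positivity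
        linarith
      have he12 : |e1 - e2| ≤ 4 * Real.pi / (n + 1) := by
        have h4 : e1 = e2 * Real.exp (-((t - T) / ((k : ℝ) + 1))) := by
          rw [he1, he2, ← Real.exp_add]; congr 1; ring
        have h5 : 1 - (t - T) / ((k : ℝ) + 1) ≤ Real.exp (-((t - T) / ((k : ℝ) + 1))) := by
          have := Real.add_one_le_exp (-((t - T) / ((k : ℝ) + 1))); linarith
        have h6 : Real.exp (-((t - T) / ((k : ℝ) + 1))) ≤ 1 := by
          apply Real.exp_le_one_iff.2
          have : 0 ≤ (t - T) / ((k : ℝ) + 1) := div_nonneg (by linarith) (by positivity)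
          linarith
        have h7 : (t - T) / ((k : ℝ) + 1) ≤ 4 * Real.pi / (n + 1) := by
          refine le_trans (div_le_self (by linarith) ?_) ht2'
          have : (0:ℝ) ≤ k := by positivity
          linarith
        have h8 : 0 ≤ 4 * Real.pi / ((n : ℝ) + 1) := by positivity
        have he2pos : 0 < e2 := Real.exp_pos _
        rw [h4, abs_le]
        constructor <;> nlinarith
      calc ‖(((e1 - e2 : ℝ)) : ℂ) * z * w k + (e2 : ℂ) * (w k * (z - u k / w k))‖
          ≤ ‖(((e1 - e2 : ℝ)) : ℂ) * z * w k‖ + ‖(e2 : ℂ) * (w k * (z - u k / w k))‖ := norm_add_le _ _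
        _ = |e1 - e2| + |e2| * ‖z - u k / w k‖ := by
            rw [norm_mul, norm_mul, hzn, hw1, norm_mul, norm_mul, hw1, Complex.norm_real,
              Complex.norm_real, Real.norm_eq_abs, Real.norm_eq_abs]
            ring
        _ ≤ 4 * Real.pi / (n + 1) + 1 * (4 * Real.pi * (1 / (n + 1))) := by
            apply add_le_add he12
            apply mul_le_mul _ _ (norm_nonneg _) zero_le_one
            · rw [abs_of_pos (Real.exp_pos _)]; exact he2le
            · refine h3.trans ?_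
              apply mul_le_mul_of_nonneg_left hratio (by positivity)
        _ = 8 * Real.pi / (n + 1) := by ring
        _ ≤ 30 / (n + 1) := by
            apply div_le_div_of_nonneg_right _ (by positivity)
            linarith
        _ ≤ E := hEn
  have hff := (summable_ff c hc t ht0).hasSum
  have hdiff := hff.sub hus
  rw [sub_zero] at hdiff
  have hb : HasSum (fun k => E * ‖c k‖) (E * ∑' k, ‖c k‖) := hc.hasSum.mul_left E
  have h := tsum_of_norm_bounded hb hkey
  rw [hdiff.tsum_eq] at h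
  exact h

/-- case of finite support -/
lemma est_fin (c : ℕ → ℂ) (hc : Summable (fun k => ‖c k‖))
    (K : ℕ) (hK : ∀ k, K ≤ k → c k = 0) (T₀ : ℝ) (hT₀ : 1 ≤ T₀) :
    ∃ T t, T₀ ≤ T ∧ T ≤ t ∧ t ≤ T + 13 ∧ ‖ff c t‖ ≤ 30 / Real.sqrt T * ∑' k, ‖c k‖ := by
  obtain ⟨n, hn1, hn2⟩ : ∃ n : ℕ, K + 1 ≤ n ∧ T₀ ≤ n := by
    refine ⟨max (K + 1) ⌈T₀⌉₊, le_max_left _ _, ?_⟩
    refine (Nat.le_ceil T₀).trans ?_
    exact_mod_cast le_max_right _ _
  have hn1' : (1 : ℝ) ≤ n := hT₀.trans hn2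
  have hnn : (n : ℝ) ≤ n * n := by nlinarith
  refine ⟨n * n, n * n, hn2.trans hnn, le_rfl, by linarith, ?_⟩
  have hsq : Real.sqrt ((n : ℝ) * n) = n := Real.sqrt_mul_self (by positivity)
  rw [hsq]
  have hb : HasSum (fun k => 30 / (n : ℝ) * ‖c k‖) (30 / (n : ℝ) * ∑' k, ‖c k‖) :=
    hc.hasSum.mul_left _
  refine tsum_of_norm_bounded hb ?_
  intro k
  by_cases hk : K ≤ k
  · rw [hK k hk]; simp
  · rw [not_le] at hk
    have hk1 : (k : ℝ) + 1 ≤ n := by
      have : k + 1 ≤ n := by omega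
      exact_mod_cast this
    rw [norm_mul, norm_mu]
    apply mul_le_mul_of_nonneg_right _ (norm_nonneg _)
    calc Real.exp (-((n : ℝ) * n / ((k : ℝ) + 1))) ≤ Real.exp (-(n : ℝ)) := by
          apply Real.exp_le_exp.2
          apply neg_le_neg
          rw [le_div_iff₀ (by positivity)]
          exact mul_le_mul_of_nonneg_left hk1 (by positivity)
      _ ≤ 1 / (n + 1) := exp_neg_le n (by positivity)
      _ ≤ 1 / n := one_div_le_one_div_of_le (by linarith) (by linarith)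
      _ ≤ 30 / n := by
          apply div_le_div_of_nonneg_right (by norm_num) (by positivity)

lemma est (c : ℕ → ℂ) (hc : Summable (fun k => ‖c k‖)) (T₀ : ℝ) (hT₀ : 1 ≤ T₀) :
    ∃ T t, T₀ ≤ T ∧ T ≤ t ∧ t ≤ T + 13 ∧ ‖ff c t‖ ≤ 30 / Real.sqrt T * ∑' k, ‖c k‖ := by
  by_cases h : ∀ K, ∃ k, K ≤ k ∧ c k ≠ 0
  · exact est_inf c hc h T₀ hT₀
  · push Not at h
    obtain ⟨K, hK⟩ := h
    exact est_fin c hc K hK T₀ hT₀

/-- The rate. -/
noncomputable def aa (t : ℝ) : ℝ := (Real.sqrt (Real.sqrt (1 + t)))⁻¹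

lemma main_small (c : ℕ → ℂ) (hc : Summable (fun k => ‖c k‖)) :
    ∃ t : ℝ, 0 ≤ t ∧ ‖ff c t‖ < aa t := by
  set C := ∑' k, ‖c k‖ with hC
  have hC0 : 0 ≤ C := tsum_nonneg fun k => norm_nonneg _
  set q0 : ℝ := 60 * C + 1 with hq0
  have hq1 : 1 ≤ q0 := by linarith
  obtain ⟨T, t, hT, hTt, htT, hle⟩ := est c hc (q0 ^ 4) (one_le_pow₀ hq1)
  have hT1 : 1 ≤ T := (one_le_pow₀ hq1).trans hT
  have ht0 : 0 ≤ t := by linarith
  refine ⟨t, ht0, hle.trans_lt ?_⟩
  rw [← hC]
  set q := Real.sqrt (Real.sqrt T) with hq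
  have hqq : q ^ 2 = Real.sqrt T := Real.sq_sqrt (Real.sqrt_nonneg _)
  have hqq4 : q ^ 4 = T := by
    have : q ^ 4 = (q ^ 2) ^ 2 := by ring
    rw [this, hqq]; exact Real.sq_sqrt (by linarith)
  have hq0' : 0 ≤ q := Real.sqrt_nonneg _
  have hqge : q0 ≤ q := by
    rw [← hqq4] at hT
    exact le_of_pow_le_pow_left₀ (by norm_num) hq0' hT
  have hqpos : 0 < q := by linarith
  have h1 : Real.sqrt (Real.sqrt (1 + t)) ≤ 2 * q := by
    rw [Real.sqrt_le_left (by positivity), Real.sqrt_le_left (by positivity)]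
    have : ((2 * q) ^ 2) ^ 2 = 16 * T := by rw [← hqq4]; ring
    rw [this]
    linarith
  have h2 : (2 * q)⁻¹ ≤ aa t := by
    unfold aa
    apply inv_anti₀ _ h1
    apply Real.sqrt_pos.2
    apply Real.sqrt_pos.2
    linarith
  refine lt_of_lt_of_le ?_ h2
  rw [← hqq, div_mul_eq_mul_div, div_lt_iff₀ (by positivity)]
  have h3 : (2 * q)⁻¹ * q ^ 2 = q / 2 := by field_simp
  rw [h3]
  linarith

/-! ### The semigroup -/

noncomputable abbrev X1 := lp (fun _ : ℕ => ℂ) 1

lemma mem_aux (x : X1) (t : ℝ) (ht : 0 ≤ t) : Memℓp (fun k => mu k t * x k) 1 := by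
  have hx : Memℓp (fun k => x k) 1 := lp.memℓp x
  rw [memℓp_gen_iff (by simp)] at hx ⊢
  refine Summable.of_nonneg_of_le (fun k => by positivity) ?_ hx
  intro k
  simp only [ENNReal.toReal_one, Real.rpow_one]
  rw [norm_mul]
  calc ‖mu k t‖ * ‖x k‖ ≤ 1 * ‖x k‖ :=
        mul_le_mul_of_nonneg_right (norm_mu_le k t ht) (norm_nonneg _)
    _ = ‖x k‖ := one_mul _

lemma norm_eq (x : X1) : ‖x‖ = ∑' k, ‖x k‖ := by
  rw [lp.norm_eq_tsum_rpow (by simp)]
  simp

lemma summable_x (x : X1) : Summable (fun k => ‖x k‖) := by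
  have hx : Memℓp (fun k => x k) 1 := lp.memℓp x
  rw [memℓp_gen_iff (by simp)] at hx
  simpa using hx

/-- the semigroup -/
noncomputable def TT (t : ℝ≥0) : X1 →L[ℂ] X1 :=
  LinearMap.mkContinuous
    { toFun := fun x => ⟨fun k => mu k t * x k, mem_aux x t t.2⟩
      map_add' := by
        intro x y
        apply lp.ext
        funext k
        show mu k t * (x k + y k) = mu k t * x k + mu k t * y k
        ring
      map_smul' := by
        intro a x
        apply lp.ext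
        funext k
        simp only [lp.coeFn_smul, Pi.smul_apply, smul_eq_mul, RingHom.id_apply]
        ring } 1
    (by
      intro x
      rw [one_mul, norm_eq, norm_eq]
      refine Summable.tsum_le_tsum ?_ (summable_x _) (summable_x x)
      intro k
      show ‖mu k t * x k‖ ≤ ‖x k‖
      rw [norm_mul]
      calc ‖mu k t‖ * ‖x k‖ ≤ 1 * ‖x k‖ :=
            mul_le_mul_of_nonneg_right (norm_mu_le k t t.2) (norm_nonneg _)
        _ = ‖x k‖ := one_mul _)

lemma TT_apply (t : ℝ≥0) (x : X1) (k : ℕ) : (TT t x) k = mu k t * x k := rfl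

lemma TT_zero : TT 0 = 1 := by
  ext x k
  rw [TT_apply]
  simp [mu_zero]

lemma TT_add (s t : ℝ≥0) : TT (s + t) = TT s * TT t := by
  apply ContinuousLinearMap.ext
  intro x
  apply lp.ext
  funext k
  show mu k ((s + t : ℝ≥0) : ℝ) * x k = mu k s * (mu k t * x k)
  rw [NNReal.coe_add, mu_add, mul_assoc]

lemma TT_hasSum (t : ℝ≥0) (x : X1) :
    HasSum (fun k => mu k t • lp.single (E := fun _ : ℕ => ℂ) 1 k (x k)) (TT t x) := by
  have h := lp.hasSum_single (E := fun _ : ℕ => ℂ) (p := 1) (by simp) (TT t x)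
  convert h using 2 with k
  rw [TT_apply, ← lp.single_smul]
  rfl

lemma TT_cont (x : X1) : Continuous (fun t : ℝ≥0 => TT t x) := by
  have h : (fun t : ℝ≥0 => TT t x) = fun t : ℝ≥0 =>
      ∑' k, mu k t • lp.single (E := fun _ : ℕ => ℂ) 1 k (x k) := by
    funext t
    exact (TT_hasSum t x).tsum_eq.symm
  rw [h]
  refine continuous_tsum (u := fun k => ‖x k‖) ?_ (summable_x x) ?_
  · intro k
    have := (mu_cont k).comp NNReal.continuous_coe
    exact this.smul continuous_const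
  · intro k t
    rw [norm_smul, lp.norm_single (by simp)]
    calc ‖mu k t‖ * ‖x k‖ ≤ 1 * ‖x k‖ :=
          mul_le_mul_of_nonneg_right (norm_mu_le k t t.2) (norm_nonneg _)
      _ = ‖x k‖ := one_mul _

/-- coefficients of a weak orbit -/
noncomputable def cf (x : X1) (y : X1 →L[ℂ] ℂ) (k : ℕ) : ℂ :=
  y (lp.single (E := fun _ : ℕ => ℂ) 1 k (x k))

lemma cf_summable (x : X1) (y : X1 →L[ℂ] ℂ) : Summable (fun k => ‖cf x y k‖) := by
  refine Summable.of_nonneg_of_le (fun k => norm_nonneg _) ?_ ((summable_x x).mul_left ‖y‖)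
  intro k
  unfold cf
  refine (y.le_opNorm _).trans ?_
  rw [lp.norm_single (by simp)]

lemma orbit_eq (x : X1) (y : X1 →L[ℂ] ℂ) (t : ℝ≥0) : y (TT t x) = ff (cf x y) t := by
  have h := (TT_hasSum t x).mapL y
  rw [← h.tsum_eq]
  unfold ff cf
  congr 1
  funext k
  rw [map_smul, smul_eq_mul]

lemma TT_weak (x : X1) (y : X1 →L[ℂ] ℂ) : Tendsto (fun t : ℝ≥0 => y (TT t x)) atTop (𝓝 0) := by
  have h : (fun t : ℝ≥0 => y (TT t x)) = fun t : ℝ≥0 => ∑' k, mu k t * cf x y k := by
    funext t; exact orbit_eq x y t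
  rw [h]
  have h0 : (0 : ℂ) = ∑' k : ℕ, (0 : ℂ) := by simp
  rw [h0]
  refine tendsto_tsum_of_dominated_convergence (bound := fun k => ‖cf x y k‖)
    (cf_summable x y) ?_ ?_
  · intro k
    rw [tendsto_zero_iff_norm_tendsto_zero]
    have h1 : (fun t : ℝ≥0 => ‖mu k t * cf x y k‖)
        = fun t : ℝ≥0 => Real.exp (-((t : ℝ) / ((k : ℝ) + 1))) * ‖cf x y k‖ := by
      funext t; rw [norm_mul, norm_mu]
    rw [h1]
    rw [← zero_mul ‖cf x y k‖]
    apply Tendsto.mul_const
    apply Real.tendsto_exp_neg_atTop_nhds_zero.comp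
    apply Tendsto.atTop_div_const (by positivity)
    exact NNReal.tendsto_coe_atTop.2 tendsto_id
  · filter_upwards with t k
    rw [norm_mul]
    calc ‖mu k t‖ * ‖cf x y k‖ ≤ 1 * ‖cf x y k‖ :=
          mul_le_mul_of_nonneg_right (norm_mu_le k t t.2) (norm_nonneg _)
      _ = ‖cf x y k‖ := one_mul _

lemma TT_not_exp : ¬ ∃ M ω : ℝ, 0 < ω ∧ ∀ t : ℝ≥0, ‖TT t‖ ≤ M * Real.exp (-ω * (t : ℝ)) := by
  rintro ⟨M, ω, hω, h⟩
  obtain ⟨k, hk⟩ := exists_nat_gt (2 / ω)
  have hkω : 1 / ((k : ℝ) + 1) ≤ ω / 2 := by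
    rw [div_le_div_iff₀ (by positivity) (by norm_num)]
    rw [div_lt_iff₀ hω] at hk
    nlinarith
  have hbd : ∀ t : ℝ≥0, Real.exp (ω / 2 * (t : ℝ)) ≤ M := by
    intro t
    have h1 := h t
    have h2 := (TT t).le_opNorm (lp.single (E := fun _ : ℕ => ℂ) 1 k (1 : ℂ))
    rw [lp.norm_single (by simp), norm_one, mul_one] at h2
    have h3 := lp.norm_apply_le_norm (by simp) (TT t (lp.single (E := fun _ : ℕ => ℂ) 1 k (1 : ℂ))) k
    rw [TT_apply, lp.single_apply_self, mul_one, norm_mu] at h3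
    have h4 : Real.exp (-((t : ℝ) / ((k : ℝ) + 1))) ≤ M * Real.exp (-ω * (t : ℝ)) := by linarith
    have h5 : Real.exp (-(ω / 2 * (t : ℝ))) ≤ Real.exp (-((t : ℝ) / ((k : ℝ) + 1))) := by
      apply Real.exp_le_exp.2
      apply neg_le_neg
      have := mul_le_mul_of_nonneg_right hkω t.2
      calc (t : ℝ) / ((k : ℝ) + 1) = 1 / ((k : ℝ) + 1) * t := by ring
        _ ≤ _ := this
    have h6 := h5.trans h4
    have h7 : Real.exp (-(ω / 2 * (t : ℝ))) * Real.exp (ω * t)
        ≤ M * Real.exp (-ω * (t : ℝ)) * Real.exp (ω * t) :=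
      mul_le_mul_of_nonneg_right h6 (Real.exp_pos _).le
    rw [← Real.exp_add, mul_assoc, ← Real.exp_add] at h7
    have h8 : -(ω / 2 * (t : ℝ)) + ω * t = ω / 2 * t := by ring
    have h9 : -ω * (t : ℝ) + ω * t = 0 := by ring
    rw [h8, h9, Real.exp_zero, mul_one] at h7
    exact h7
  have hM : 0 ≤ M := (Real.exp_pos _).le.trans (hbd 0)
  have h1 := hbd ⟨M * (2 / ω), by positivity⟩
  have h2 := Real.add_one_le_exp (ω / 2 * (M * (2 / ω)))
  have h3 : ω / 2 * (M * (2 / ω)) = M := by field_simp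
  have h4 : Real.exp (ω / 2 * (M * (2 / ω))) ≤ M := h1
  rw [h3] at h2 h4
  linarith

/-- The negation of the preceding statement: For every complex Banach space X and strongly continuous semigroup T on X that is weakly stable (y(T t x)→0 for all x, y∈X') and not exponentially stable, every positive antitone a:ℝ≥0→ℝ tending to 0 admits x∈X, y∈X' with a t ≤ ∣y(T t x)∣ for all t≥0. -/
theorem result :
    ¬ (∀ (X : Type) [NormedAddCommGroup X] [NormedSpace ℂ X] [CompleteSpace X]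
      (T : ℝ≥0 → (X →L[ℂ] X)),
      T 0 = 1 →
      (∀ s t : ℝ≥0, T (s + t) = T s * T t) →
      (∀ x : X, Continuous (fun t : ℝ≥0 => T t x)) →
      (∀ (x : X) (y : X →L[ℂ] ℂ), Tendsto (fun t : ℝ≥0 => y (T t x)) atTop (𝓝 0)) →
      (¬ ∃ M ω : ℝ, 0 < ω ∧ ∀ t : ℝ≥0, ‖T t‖ ≤ M * Real.exp (-ω * (t : ℝ))) →
      ∀ a : ℝ≥0 → ℝ, (∀ t, 0 < a t) → Antitone a → Tendsto a atTop (𝓝 0) →
        ∃ (x : X) (y : X →L[ℂ] ℂ), ∀ t : ℝ≥0, a t ≤ ‖y (T t x)‖) := by
  intro H
  obtain ⟨x, y, hxy⟩ := H X1 TT TT_zero TT_add TT_cont TT_weak TT_not_exp (fun t => aa t)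
    (fun t => by
      unfold aa
      apply inv_pos.2
      apply Real.sqrt_pos.2
      apply Real.sqrt_pos.2
      have := t.2
      positivity)
    (fun s t hst => by
      have hst' : (s : ℝ) ≤ t := hst
      unfold aa
      apply inv_anti₀
      · apply Real.sqrt_pos.2
        apply Real.sqrt_pos.2
        have := s.2
        positivity
      · apply Real.sqrt_le_sqrt
        apply Real.sqrt_le_sqrt
        linarith)
    (by
      unfold aa
      apply tendsto_inv_atTop_zero.comp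
      apply Real.tendsto_sqrt_atTop.comp
      apply Real.tendsto_sqrt_atTop.comp
      apply tendsto_atTop_add_const_left
      exact NNReal.tendsto_coe_atTop.2 tendsto_id)
  obtain ⟨t, ht0, ht⟩ := main_small (cf x y) (cf_summable x y)
  have h1 := hxy ⟨t, ht0⟩
  have h2 : aa t ≤ ‖ff (cf x y) t‖ := h1.trans_eq (congrArg norm (orbit_eq x y ⟨t, ht0⟩))
  exact absurd ht (not_lt.2 h2)

end Pool.Agent.S03074
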