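import Pool.Statements.S03100

set_option autoImplicit false
open MeasureTheory ProbabilityTheory
open Pool Pool.MP_42c79c_an

namespace Pool.Agent.S03100

/-- structural condition on a square matrix of size `m + 1` -/
def Good (m : ℕ) (δ t : ℝ) (A : Matrix (Fin (m + 1)) (Fin (m + 1)) ℝ) : Prop :=
  (∀ i j : Fin (m + 1), i = j → j ≠ Fin.last m → |A i j - 1| ≤ δ) ∧
  (∀ i j : Fin (m + 1), j < i → |A i j + 1 / 2| ≤ δ) ∧
  (∀ i j : Fin (m + 1), i < j → j ≠ Fin.last m → |A i j| ≤ δ) ∧
  (∀ i : Fin (m + 1), t ≤ A i (Fin.last m))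

lemma exists_LU (m : ℕ) : ∀ (δ t : ℝ) (A : Matrix (Fin (m + 1)) (Fin (m + 1)) ℝ),
    0 ≤ δ → δ * 2 ^ m ≤ 1 / 16 → 0 ≤ t → Good m δ t A →
    ∃ L U : Matrix (Fin (m + 1)) (Fin (m + 1)) ℝ,
      (∀ i j, i < j → L i j = 0) ∧ (∀ i, L i i = 1) ∧ (∀ i j, |L i j| ≤ 1) ∧
      (∀ i j, j < i → U i j = 0) ∧ A = L * U ∧
      (5 / 4) ^ m * t ≤ U (Fin.last m) (Fin.last m) := by
  induction m with
  | zero =>
    intro δ t A hδ hδ2 ht hA
    refine ⟨1, A, ?_, ?_, ?_, ?_, ?_, ?_⟩
    · intro i j hij
      exact absurd hij (by omega)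
    · intro i; simp
    · intro i j
      have : i = j := Fin.ext (by omega)
      subst this
      simp
    · intro i j hij
      exact absurd hij (by omega)
    · simp
    · simpa using hA.2.2.2 0
  | succ m ih =>
    intro δ t A hδ hδ2 ht hA
    obtain ⟨h1, h2, h3, h4⟩ := hA
    have hpow : (1 : ℝ) ≤ 2 ^ m := one_le_pow₀ (by norm_num)
    have hpow2 : (2 : ℝ) ^ (m + 1) = 2 * 2 ^ m := by ring
    have hδs : δ ≤ 1 / 32 := by
      rw [hpow2] at hδ2
      nlinarith
    have hlast0 : (0 : Fin (m + 2)) ≠ Fin.last (m + 1) := by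
      intro h
      have := congrArg Fin.val h
      simp at this
    have ha := abs_le.mp (h1 0 0 rfl hlast0)
    have hapos : 0 < A 0 0 := by linarith [ha.1]
    -- multipliers
    have hm : ∀ i : Fin (m + 1), |A i.succ 0 / A 0 0| ≤ 1 ∧ A i.succ 0 / A 0 0 ≤ - (1 / 4) := by
      intro i
      have hi := abs_le.mp (h2 i.succ 0 (Fin.succ_pos i))
      constructor
      · rw [abs_div, abs_of_pos hapos, div_le_one hapos, abs_le]
        constructor <;> linarith [ha.1, ha.2, hi.1, hi.2]
      · rw [div_le_iff₀ hapos]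
        linarith [ha.1, ha.2, hi.1, hi.2]
    -- Schur complement
    let A' : Matrix (Fin (m + 1)) (Fin (m + 1)) ℝ :=
      Matrix.of fun i j => A i.succ j.succ - A i.succ 0 / A 0 0 * A 0 j.succ
    have hrow : ∀ j : Fin (m + 1), j ≠ Fin.last m → |A 0 j.succ| ≤ δ := by
      intro j hj
      apply h3 0 j.succ (Fin.succ_pos j)
      intro h
      apply hj
      exact Fin.succ_injective _ h
    have hprod : ∀ i j : Fin (m + 1), j ≠ Fin.last m →
        |A i.succ 0 / A 0 0 * A 0 j.succ| ≤ δ := by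
      intro i j hj
      rw [abs_mul]
      calc |A i.succ 0 / A 0 0| * |A 0 j.succ| ≤ 1 * δ :=
            mul_le_mul (hm i).1 (hrow j hj) (abs_nonneg _) (by norm_num)
        _ = δ := one_mul _
    have hA' : Good m (2 * δ) (5 / 4 * t) A' := by
      refine ⟨?_, ?_, ?_, ?_⟩
      · intro i j hij hj
        have e1 := abs_le.mp (h1 i.succ j.succ (by rw [hij]) (fun h => hj (Fin.succ_injective _ h)))
        have e2 := abs_le.mp (hprod i j hj)
        rw [abs_le]
        simp only [A', Matrix.of_apply]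
        constructor <;> linarith [e1.1, e1.2, e2.1, e2.2]
      · intro i j hij
        have hj : j ≠ Fin.last m := fun h => by
          rw [h] at hij
          exact absurd hij (not_lt.mpr (Fin.le_last i))
        have e1 := abs_le.mp (h2 i.succ j.succ (Fin.succ_lt_succ_iff.mpr hij))
        have e2 := abs_le.mp (hprod i j hj)
        rw [abs_le]
        simp only [A', Matrix.of_apply]
        constructor <;> linarith [e1.1, e1.2, e2.1, e2.2]
      · intro i j hij hj
        have e1 := abs_le.mp (h3 i.succ j.succ (Fin.succ_lt_succ_iff.mpr hij)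
          (fun h => hj (Fin.succ_injective _ h)))
        have e2 := abs_le.mp (hprod i j hj)
        rw [abs_le]
        simp only [A', Matrix.of_apply]
        constructor <;> linarith [e1.1, e1.2, e2.1, e2.2]
      · intro i
        have e1 : t ≤ A i.succ (Fin.last m).succ := h4 i.succ
        have e2 : t ≤ A 0 (Fin.last m).succ := h4 0
        simp only [A', Matrix.of_apply]
        nlinarith [(hm i).2]
    obtain ⟨L', U', l1, l2, l3, u1, hLU, hlast⟩ := ih (2 * δ) (5 / 4 * t) A' (by linarith)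
      (by rw [hpow2] at hδ2; linarith) (by linarith) hA'
    let L : Matrix (Fin (m + 2)) (Fin (m + 2)) ℝ := Matrix.of fun i j =>
      Fin.cases (Fin.cases 1 (fun _ => 0) j)
        (fun i' => Fin.cases (A i'.succ 0 / A 0 0) (fun j' => L' i' j') j) i
    let U : Matrix (Fin (m + 2)) (Fin (m + 2)) ℝ := Matrix.of fun i j =>
      Fin.cases (A 0 j) (fun i' => Fin.cases 0 (fun j' => U' i' j') j) i
    refine ⟨L, U, ?_, ?_, ?_, ?_, ?_, ?_⟩
    · intro i j hij
      induction i using Fin.cases with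
      | zero =>
        induction j using Fin.cases with
        | zero => exact absurd hij (lt_irrefl _)
        | succ j => rfl
      | succ i =>
        induction j using Fin.cases with
        | zero => exact absurd hij (Fin.not_lt_zero _)
        | succ j => exact l1 i j (Fin.succ_lt_succ_iff.mp hij)
    · intro i
      induction i using Fin.cases with
      | zero => rfl
      | succ i => exact l2 i
    · intro i j
      induction i using Fin.cases with
      | zero =>
        induction j using Fin.cases with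
        | zero => simp [L]
        | succ j => simp [L]
      | succ i =>
        induction j using Fin.cases with
        | zero => exact (hm i).1
        | succ j => exact l3 i j
    · intro i j hij
      induction i using Fin.cases with
      | zero => exact absurd hij (Fin.not_lt_zero _)
      | succ i =>
        induction j using Fin.cases with
        | zero => rfl
        | succ j => exact u1 i j (Fin.succ_lt_succ_iff.mp hij)
    · ext i j
      rw [Matrix.mul_apply, Fin.sum_univ_succ]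
      induction i using Fin.cases with
      | zero =>
        have : ∑ k : Fin (m + 1), L 0 k.succ * U k.succ j = 0 := by
          apply Finset.sum_eq_zero
          intro k _
          have : L 0 k.succ = 0 := rfl
          rw [this, zero_mul]
        rw [this, add_zero]
        have e1 : L 0 0 = 1 := rfl
        have e2 : U 0 j = A 0 j := rfl
        rw [e1, e2, one_mul]
      | succ i =>
        have e1 : L i.succ 0 = A i.succ 0 / A 0 0 := rfl
        have e2 : U 0 j = A 0 j := rfl
        rw [e1, e2]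
        induction j using Fin.cases with
        | zero =>
          have : ∑ k : Fin (m + 1), L i.succ k.succ * U k.succ 0 = 0 := by
            apply Finset.sum_eq_zero
            intro k _
            have : U k.succ 0 = 0 := rfl
            rw [this, mul_zero]
          rw [this, add_zero, div_mul_cancel₀ _ hapos.ne']
        | succ j =>
          have : ∑ k : Fin (m + 1), L i.succ k.succ * U k.succ j.succ = A' i j := by
            rw [hLU, Matrix.mul_apply]
            rfl
          rw [this]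
          simp only [A', Matrix.of_apply]
          ring
    · have e : U (Fin.last (m + 1)) (Fin.last (m + 1)) = U' (Fin.last m) (Fin.last m) := rfl
      rw [e]
      calc (5 / 4 : ℝ) ^ (m + 1) * t = (5 / 4) ^ m * (5 / 4 * t) := by ring
        _ ≤ _ := hlast

/-- centre of the box -/
noncomputable def W (m : ℕ) (i j : Fin (m + 1)) : ℝ :=
  if j = Fin.last m then 1 else if i = j then 1 else if j < i then -(1 / 2) else 0

lemma W_abs (m : ℕ) (i j : Fin (m + 1)) : |W m i j| ≤ 1 := by
  unfold W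
  split_ifs <;> norm_num

lemma W_good (m : ℕ) (δ : ℝ) (hδ : δ ≤ 1 / 2) (G : Fin (m + 1) → Fin (m + 1) → ℝ)
    (hG : ∀ i j, |G i j - W m i j| ≤ δ) : Good m δ (1 / 2) (Matrix.of G) := by
  refine ⟨?_, ?_, ?_, ?_⟩
  · intro i j hij hj
    have := hG i j
    simpa [W, hij, hj] using this
  · intro i j hij
    have hj : j ≠ Fin.last m := fun h => by
      rw [h] at hij
      exact absurd hij (not_lt.mpr (Fin.le_last i))
    have := hG i j
    simpa [W, hij, hj, hij.ne'] using this
  · intro i j hij hj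
    have := hG i j
    simpa [W, hj, hij.ne, not_lt.mpr hij.le] using this
  · intro i
    have := abs_le.mp (hG i (Fin.last m))
    simp only [W, if_true] at this
    simp only [Matrix.of_apply]
    linarith [this.1]

lemma gauss_lower (a δ : ℝ) (ha : |a| ≤ 1) (h0 : 0 < δ) (h1 : δ ≤ 1) :
    ENNReal.ofReal (2 * δ / 27) ≤ gaussianReal 0 1 (Set.Icc (a - δ) (a + δ)) := by
  rw [gaussianReal_apply 0 (by norm_num)]
  have hle : ∀ x ∈ Set.Icc (a - δ) (a + δ), ENNReal.ofReal (1 / 27) ≤ gaussianPDF 0 1 x := by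
    intro x hx
    unfold gaussianPDF
    apply ENNReal.ofReal_le_ofReal
    unfold gaussianPDFReal
    have hx2 : x ^ 2 ≤ 4 := by
      have ha' := abs_le.mp ha
      nlinarith [hx.1, hx.2, ha'.1, ha'.2]
    have hpi : Real.sqrt (2 * Real.pi * 1) ≤ 3 := by
      rw [show (3 : ℝ) = Real.sqrt 9 by
        rw [show (9 : ℝ) = 3 ^ 2 by norm_num, Real.sqrt_sq (by norm_num)]]
      apply Real.sqrt_le_sqrt
      linarith [Real.pi_lt_four]
    have hpi0 : 0 < Real.sqrt (2 * Real.pi * 1) := by
      apply Real.sqrt_pos.mpr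
      linarith [Real.pi_pos]
    have he : (1 / 9 : ℝ) ≤ Real.exp (-(x - 0) ^ 2 / (2 * 1)) := by
      have h2 : Real.exp (-2) ≤ Real.exp (-(x - 0) ^ 2 / (2 * 1)) := by
        apply Real.exp_le_exp.mpr
        rw [sub_zero]
        linarith
      refine le_trans ?_ h2
      rw [Real.exp_neg, one_div]
      apply inv_anti₀ (Real.exp_pos _)
      have h3 : Real.exp 2 = Real.exp 1 ^ 2 := by
        rw [← Real.exp_nat_mul]; norm_num
      rw [h3]
      have := Real.exp_one_lt_d9
      nlinarith [Real.exp_pos 1]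
    have h3 : (1 / 3 : ℝ) ≤ (Real.sqrt (2 * Real.pi * 1))⁻¹ := by
      rw [one_div]
      exact inv_anti₀ hpi0 hpi
    simp only [NNReal.coe_one]
    calc (1 / 27 : ℝ) = 1 / 3 * (1 / 9) := by norm_num
      _ ≤ _ := mul_le_mul h3 he (by norm_num) (by positivity)
  calc ENNReal.ofReal (2 * δ / 27)
      = ∫⁻ _ in Set.Icc (a - δ) (a + δ), ENNReal.ofReal (1 / 27) := by
        rw [setLIntegral_const, Real.volume_Icc, ← ENNReal.ofReal_mul (by norm_num)]
        congr 1
        ring
    _ ≤ _ := setLIntegral_mono' measurableSet_Icc hle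

/-- The negation of the preceding statement: There are constants c₁ and c₂>0 such that for every n, every σ in (0,1], every real n×n Ā with spectral norm ≤ 1, and every x ≥ 1, the partial-pivoting growth factor of Ā+σG (G i.i.d. standard Gaussian) exceeds x(n/σ)^c₁ with probability ≤ 2^(−c₂x). -/
theorem result :
    ¬ (∃ c₁ c₂ : ℝ, 0 < c₂ ∧ ∀ n : ℕ, ∀ σ : ℝ, 0 < σ → σ ≤ 1 →
    ∀ Abar : Matrix (Fin n) (Fin n) ℝ,
    (∀ v : Fin n → ℝ, ∑ i, (Abar.mulVec v i) ^ 2 ≤ ∑ i, v i ^ 2) →
    ∀ x : ℝ, 1 ≤ x →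
    (Measure.pi fun _ : Fin n => Measure.pi fun _ : Fin n => gaussianReal 0 1)
      {G : Fin n → Fin n → ℝ | ∃ π : Equiv.Perm (Fin n), ∃ L U : Matrix (Fin n) (Fin n) ℝ,
        (∀ i j, i < j → L i j = 0) ∧ (∀ i, L i i = 1) ∧ (∀ i j, |L i j| ≤ 1) ∧
        (∀ i j, j < i → U i j = 0) ∧
        (Matrix.of fun i j => Abar (π i) j + σ * G (π i) j) = L * U ∧
        x * ((n : ℝ) / σ) ^ c₁ * (⨆ i, ⨆ j, |Abar i j + σ * G i j|) < ⨆ i, ⨆ j, |U i j|}
      ≤ ENNReal.ofReal ((2 : ℝ) ^ (-(c₂ * x)))) := by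
  rintro ⟨c₁, c₂, hc2, H⟩
  obtain ⟨K, hK⟩ := exists_nat_ge c₁
  have hlim := tendsto_pow_const_div_const_pow_of_one_lt (K + 3) (show (1 : ℝ) < 5 / 4 by norm_num)
  have hev := hlim.eventually (gt_mem_nhds (show (0 : ℝ) < min (c₂ / 80) (1 / 10) by positivity))
  obtain ⟨n, hn, hn1⟩ := (hev.and (Filter.eventually_ge_atTop 1)).exists
  obtain ⟨m, rfl⟩ : ∃ m, n = m + 1 := ⟨n - 1, by omega⟩
  have hN1 : (1 : ℝ) ≤ ((m + 1 : ℕ) : ℝ) := by exact_mod_cast hn1
  set N : ℝ := ((m + 1 : ℕ) : ℝ) with hN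
  have hp : (0 : ℝ) < (5 / 4) ^ (m + 1) := by positivity
  have hb1 : N ^ (K + 3) < c₂ / 80 * (5 / 4) ^ (m + 1) := by
    rw [← div_lt_iff₀ hp]
    exact lt_of_lt_of_le hn (min_le_left _ _)
  have hb2 : N ^ (K + 3) < 1 / 10 * (5 / 4) ^ (m + 1) := by
    rw [← div_lt_iff₀ hp]
    exact lt_of_lt_of_le hn (min_le_right _ _)
  have hpow : (5 / 4 : ℝ) ^ (m + 1) = 5 / 4 * (5 / 4) ^ m := by ring
  have hNK : (0 : ℝ) < N ^ K := by positivity
  have hNK3 : N ^ K ≤ N ^ (K + 3) := pow_le_pow_right₀ hN1 (by omega)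
  let x : ℝ := (5 / 4) ^ m / (8 * N ^ K)
  have hx1 : 1 ≤ x := by
    simp only [x]
    rw [le_div_iff₀ (by positivity)]
    rw [hpow] at hb2
    linarith
  have hx2 : (m + 8 : ℝ) * (N * N) < c₂ * x := by
    simp only [x]
    rw [mul_div_assoc', lt_div_iff₀ (by positivity)]
    have h8 : (m + 8 : ℝ) ≤ 8 * N := by
      rw [hN]; push_cast; linarith [(Nat.cast_nonneg m : (0 : ℝ) ≤ m)]
    have h9 : (m + 8 : ℝ) * (N * N) * (8 * N ^ K) ≤ 64 * N ^ (K + 3) := by
      calc (m + 8 : ℝ) * (N * N) * (8 * N ^ K) ≤ (8 * N) * (N * N) * (8 * N ^ K) := by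
            gcongr
        _ = 64 * N ^ (K + 3) := by ring
    rw [hpow] at hb1
    linarith
  have hH := H (m + 1) 1 one_pos le_rfl 0 (by
    intro v
    simp only [Matrix.zero_mulVec, Pi.zero_apply]
    norm_num
    exact Finset.sum_nonneg fun i _ => sq_nonneg _) x hx1
  let δ : ℝ := 1 / (16 * 2 ^ m)
  have hδ0 : 0 < δ := by positivity
  have h2m : (1 : ℝ) ≤ 2 ^ m := one_le_pow₀ (by norm_num)
  have hδ1 : δ ≤ 1 / 16 := by
    simp only [δ]
    apply one_div_le_one_div_of_le (by norm_num)
    linarith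
  have hδ2 : δ * 2 ^ m ≤ 1 / 16 := by
    simp only [δ]
    apply le_of_eq
    field_simp
  have hsub : (Set.univ.pi fun i : Fin (m + 1) => Set.univ.pi fun j : Fin (m + 1) =>
      Set.Icc (W m i j - δ) (W m i j + δ)) ⊆
      {G : Fin (m + 1) → Fin (m + 1) → ℝ | ∃ π : Equiv.Perm (Fin (m + 1)),
        ∃ L U : Matrix (Fin (m + 1)) (Fin (m + 1)) ℝ,
        (∀ i j, i < j → L i j = 0) ∧ (∀ i, L i i = 1) ∧ (∀ i j, |L i j| ≤ 1) ∧
        (∀ i j, j < i → U i j = 0) ∧
        (Matrix.of fun i j => (0 : Matrix (Fin (m + 1)) (Fin (m + 1)) ℝ) (π i) j +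
          1 * G (π i) j) = L * U ∧
        x * (((m + 1 : ℕ) : ℝ) / 1) ^ c₁ *
          (⨆ i, ⨆ j, |(0 : Matrix (Fin (m + 1)) (Fin (m + 1)) ℝ) i j + 1 * G i j|) <
          ⨆ i, ⨆ j, |U i j|} := by
    intro G hG
    have hG' : ∀ i j, |G i j - W m i j| ≤ δ := by
      intro i j
      have := hG i (Set.mem_univ i) j (Set.mem_univ j)
      rw [abs_le]
      constructor <;> linarith [this.1, this.2]
    obtain ⟨L, U, l1, l2, l3, u1, hLU, hlast⟩ := exists_LU m δ (1 / 2) (Matrix.of G) hδ0.le hδ2
      (by norm_num) (W_good m δ (by linarith) G hG')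
    refine ⟨1, L, U, l1, l2, l3, u1, ?_, ?_⟩
    · rw [← hLU]
      ext i j
      simp
    · have hGb : ∀ i j, |G i j| ≤ 2 := by
        intro i j
        have h1 := abs_le.mp (hG' i j)
        have h2 := abs_le.mp (W_abs m i j)
        rw [abs_le]
        constructor <;> linarith [h1.1, h1.2, h2.1, h2.2]
      have hsup : (⨆ i, ⨆ j, |(0 : Matrix (Fin (m + 1)) (Fin (m + 1)) ℝ) i j + 1 * G i j|) ≤ 2 := by
        apply Real.iSup_le _ (by norm_num)
        intro i
        apply Real.iSup_le _ (by norm_num)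
        intro j
        simpa using hGb i j
      have hlow : (5 / 4 : ℝ) ^ m * (1 / 2) ≤ ⨆ i, ⨆ j, |U i j| := by
        calc (5 / 4 : ℝ) ^ m * (1 / 2) ≤ U (Fin.last m) (Fin.last m) := hlast
          _ ≤ |U (Fin.last m) (Fin.last m)| := le_abs_self _
          _ ≤ ⨆ j, |U (Fin.last m) j| :=
              le_ciSup (f := fun j => |U (Fin.last m) j|) (Set.finite_range _).bddAbove _
          _ ≤ _ := le_ciSup (f := fun i => ⨆ j, |U i j|) (Set.finite_range _).bddAbove _
      have hpw : (((m + 1 : ℕ) : ℝ) / 1) ^ c₁ ≤ N ^ K := by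
        rw [div_one, ← hN, ← Real.rpow_natCast]
        exact Real.rpow_le_rpow_of_exponent_le hN1 hK
      have hpw0 : 0 ≤ (((m + 1 : ℕ) : ℝ) / 1) ^ c₁ := by positivity
      have hx0 : 0 < x := by linarith
      refine lt_of_lt_of_le ?_ hlow
      calc x * (((m + 1 : ℕ) : ℝ) / 1) ^ c₁ *
            (⨆ i, ⨆ j, |(0 : Matrix (Fin (m + 1)) (Fin (m + 1)) ℝ) i j + 1 * G i j|)
          ≤ x * N ^ K * 2 := by
            apply mul_le_mul _ hsup _ (by positivity)
            · exact mul_le_mul_of_nonneg_left hpw hx0.le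
            · exact Real.iSup_nonneg fun i => Real.iSup_nonneg fun j => abs_nonneg _
        _ = (5 / 4) ^ m * (1 / 4) := by
            simp only [x]
            field_simp
            norm_num
        _ < (5 / 4) ^ m * (1 / 2) := by
            apply mul_lt_mul_of_pos_left (by norm_num) (by positivity)
  have hmeas := (measure_mono hsub).trans hH
  rw [Measure.pi_pi] at hmeas
  have hprod : ENNReal.ofReal ((2 * δ / 27) ^ ((m + 1) * (m + 1))) ≤
      ∏ i : Fin (m + 1), (Measure.pi fun _ : Fin (m + 1) => gaussianReal 0 1)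
        (Set.univ.pi fun j : Fin (m + 1) => Set.Icc (W m i j - δ) (W m i j + δ)) := by
    have h1 : ∀ i : Fin (m + 1), ENNReal.ofReal ((2 * δ / 27) ^ (m + 1)) ≤
        (Measure.pi fun _ : Fin (m + 1) => gaussianReal 0 1)
        (Set.univ.pi fun j : Fin (m + 1) => Set.Icc (W m i j - δ) (W m i j + δ)) := by
      intro i
      rw [Measure.pi_pi, ENNReal.ofReal_pow (by positivity)]
      calc ENNReal.ofReal (2 * δ / 27) ^ (m + 1)
          = ∏ _j : Fin (m + 1), ENNReal.ofReal (2 * δ / 27) := by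
            rw [Finset.prod_const, Finset.card_univ, Fintype.card_fin]
        _ ≤ _ := Finset.prod_le_prod' fun j _ => gauss_lower _ _ (W_abs m i j) hδ0 (by linarith)
    rw [pow_mul, ENNReal.ofReal_pow (by positivity)]
    calc ENNReal.ofReal ((2 * δ / 27) ^ (m + 1)) ^ (m + 1)
        = ∏ _i : Fin (m + 1), ENNReal.ofReal ((2 * δ / 27) ^ (m + 1)) := by
          rw [Finset.prod_const, Finset.card_univ, Fintype.card_fin]
      _ ≤ _ := Finset.prod_le_prod' fun i _ => h1 i
  have hfin := hprod.trans hmeas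
  rw [ENNReal.ofReal_le_ofReal_iff (by positivity)] at hfin
  have hlow : (2 : ℝ) ^ (-((m + 8 : ℝ) * (N * N))) ≤ (2 * δ / 27) ^ ((m + 1) * (m + 1)) := by
    have h1 : (2 : ℝ) ^ (-(m + 8 : ℝ)) ≤ 2 * δ / 27 := by
      rw [Real.rpow_neg (by norm_num), show (m + 8 : ℝ) = ((m + 8 : ℕ) : ℝ) by push_cast; ring,
        Real.rpow_natCast, pow_add]
      simp only [δ]
      rw [inv_le_comm₀ (by positivity) (by positivity)]
      rw [inv_eq_one_div, div_le_iff₀ (by positivity)]
      field_simp
      norm_num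
    have h2 : (2 : ℝ) ^ (-((m + 8 : ℝ) * (N * N))) =
        ((2 : ℝ) ^ (-(m + 8 : ℝ))) ^ ((m + 1) * (m + 1)) := by
      rw [← Real.rpow_natCast, ← Real.rpow_mul (by norm_num)]
      congr 1
      rw [hN]
      push_cast
      ring
    rw [h2]
    exact pow_le_pow_left₀ (by positivity) h1 _
  have hcontra := hlow.trans hfin
  rw [Real.rpow_le_rpow_left_iff (by norm_num)] at hcontra
  linarith

end Pool.Agent.S03100
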