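import Pool.Statements.S03190
import Pool.Agent.Helper1.AssocPlane
import Pool.Agent.Helper1.PlaneSurj
-- import your own Pool.Agent.* helpers here

set_option autoImplicit false
open Pool Pool.MP_4e7b39_an

namespace Pool.Agent.S03190

open Pool.Agent.Helper1.AssocPlane Pool.Agent.Helper1.PlaneSurj

theorem mono_of_list (L : List (ℝ × ℝ → ℝ × ℝ))
    (hL : ∀ S ∈ L, Continuous S ∧
          (∀ a b c : ℝ, (S ((S (a, b)).1, c)).1 = (S (a, (S (b, c)).1)).1) ∧
          (∀ a b c : ℝ, (S ((S (a, b)).2, c)).2 = (S (a, (S (b, c)).2)).2))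
    (T : (ℝ × ℝ) ≃ₜ (ℝ × ℝ)) (hT : ∀ x, T x = L.foldr (fun S R => S ∘ R) id x) :
    Continuous (L.foldr (fun S R => S ∘ R) id) ∧ Monotone (L.foldr (fun S R => S ∘ R) id) := by
  induction L generalizing T with
  | nil => exact ⟨continuous_id, monotone_id⟩
  | cons S L ih =>
    obtain ⟨hS, hS1, hS2⟩ := hL S List.mem_cons_self
    have hL' : ∀ S ∈ L, Continuous S ∧
          (∀ a b c : ℝ, (S ((S (a, b)).1, c)).1 = (S (a, (S (b, c)).1)).1) ∧
          (∀ a b c : ℝ, (S ((S (a, b)).2, c)).2 = (S (a, (S (b, c)).2)).2) :=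
      fun S hS => hL S (List.mem_cons_of_mem _ hS)
    set R := L.foldr (fun S R => S ∘ R) id with hR
    have hRc : Continuous R := by
      rw [hR]
      clear ih hT hR
      clear hL
      clear_value R
      clear R
      induction L with
      | nil => exact continuous_id
      | cons S' L ih' =>
        exact (hL' S' List.mem_cons_self).1.comp
          (ih' fun S hS => hL' S (List.mem_cons_of_mem _ hS))
    have hT' : ∀ x, T x = S (R x) := hT
    have hleft : ∀ x, T.symm (S (R x)) = x := fun x => by rw [← hT']; simp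
    have hLc : Continuous fun y => T.symm (S y) := T.symm.continuous.comp hS
    have hsurj := surj_of_leftInverse R (fun y => T.symm (S y)) hRc hLc hleft
    let TR : (ℝ × ℝ) ≃ₜ (ℝ × ℝ) :=
      { toFun := R
        invFun := fun y => T.symm (S y)
        left_inv := hleft
        right_inv := fun y => by
          obtain ⟨x, rfl⟩ := hsurj y
          show R (T.symm (S (R x))) = R x
          rw [hleft]
        continuous_toFun := hRc
        continuous_invFun := hLc }
    have hRm := (ih hL' TR fun x => rfl).2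
    let TS : (ℝ × ℝ) ≃ₜ (ℝ × ℝ) := TR.symm.trans T
    have hTS : ∀ y, TS y = S y := by
      intro y
      obtain ⟨x, rfl⟩ := hsurj y
      show T (T.symm (S (R x))) = S (R x)
      simp
    have g1 : Good fun a b => (S (a, b)).1 := ⟨hS1, TS, fun p => by rw [hTS]⟩
    have g2 : Good fun a b => (S (a, b)).2 :=
      ⟨hS2, TS.trans (Homeomorph.prodComm ℝ ℝ), fun p => by
        show (TS p).2 = _
        rw [hTS]⟩
    refine ⟨hS.comp hRc, ?_⟩
    intro p q hpq
    have h := hRm hpq
    exact ⟨g1.mono h.1 h.2, g2.mono h.1 h.2⟩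

/-- The negation of the preceding statement: Every continuous map of the plane to itself equals a finite composition of continuous plane maps (f,g) in which both f and g, viewed as binary operations on the reals, are associative. -/
theorem result :
    ¬ (∀ T : ℝ × ℝ → ℝ × ℝ, Continuous T →
      ∃ L : List (ℝ × ℝ → ℝ × ℝ),
        (∀ S ∈ L, Continuous S ∧
          (∀ a b c : ℝ, (S ((S (a, b)).1, c)).1 = (S (a, (S (b, c)).1)).1) ∧
          (∀ a b c : ℝ, (S ((S (a, b)).2, c)).2 = (S (a, (S (b, c)).2)).2)) ∧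
        T = L.foldr (fun S R => S ∘ R) id) := by
  intro h
  let T : (ℝ × ℝ) ≃ₜ (ℝ × ℝ) := (Homeomorph.neg ℝ).prodCongr (Homeomorph.refl ℝ)
  obtain ⟨L, hL, hTL⟩ := h T T.continuous
  have hm := (mono_of_list L hL T fun x => by rw [hTL]).2
  rw [← hTL] at hm
  have h1 : T (0, 0) ≤ T (1, 0) := hm ⟨zero_le_one, le_rfl⟩
  have h2 : -(0 : ℝ) ≤ -1 := h1.1
  norm_num at h2

end Pool.Agent.S03190
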