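import Pool.Statements.S03204
import Pool.Agent.Helper1.CuspOp
-- import your own Pool.Agent.* helpers here

set_option autoImplicit false
open MeasureTheory
open Pool Pool.MP_50702e_an

namespace Pool.Agent.S03204

open Pool.Agent.Helper1.CuspOp

theorem vanish {X : Type} [NormedAddCommGroup X] [NormedSpace ℂ X] (G : Set X)
    (R : Submodule ℂ X) (hR : R = (Submodule.span ℂ G).topologicalClosure)
    (Γ : R →L[ℂ] ℂ) (h : ∀ w (hw : w ∈ R), w ∈ G → Γ ⟨w, hw⟩ = 0) : ∀ x, Γ x = 0 := by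
  have hGR : G ⊆ R := by
    rw [hR]
    exact Submodule.subset_span.trans (Submodule.le_topologicalClosure _)
  have hRc : IsClosed (R : Set X) := by
    rw [hR]; exact Submodule.isClosed_topologicalClosure _
  let Z : Submodule ℂ X := (LinearMap.ker (Γ : R →ₗ[ℂ] ℂ)).map R.subtype
  have hZ : IsClosed (Z : Set X) := by
    have h1 : IsClosed (LinearMap.ker (Γ : R →ₗ[ℂ] ℂ) : Set R) := Γ.isClosed_ker
    have h2 := (hRc.isClosedEmbedding_subtypeVal).isClosedMap _ h1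
    exact h2
  have hle : R ≤ Z := by
    conv_lhs => rw [hR]
    refine Submodule.topologicalClosure_minimal _ ?_ hZ
    rw [Submodule.span_le]
    intro w hw
    exact ⟨⟨w, hGR hw⟩, h w (hGR hw) hw, rfl⟩
  intro x
  obtain ⟨y, hy, hyx⟩ := hle x.2
  have : y = x := Subtype.ext hyx
  rw [← this]
  exact hy

theorem aeval_eig {X : Type} [NormedAddCommGroup X] [NormedSpace ℂ X] (T : X →L[ℂ] X)
    (Λ : X →L[ℂ] ℂ) (c : ℂ) (h : ∀ x, Λ (T x) = c * Λ x) (p : Polynomial ℂ) :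
    ∀ x, Λ (Polynomial.aeval T p x) = p.eval c * Λ x := by
  induction p using Polynomial.induction_on' with
  | add p q hp hq =>
    intro x
    rw [map_add, _root_.add_apply, map_add, hp, hq, Polynomial.eval_add]; ring
  | monomial n a =>
    intro x
    rw [Polynomial.aeval_monomial, Polynomial.eval_monomial]
    have hn : ∀ n : ℕ, ∀ x, Λ ((T ^ n) x) = c ^ n * Λ x := by
      intro n
      induction n with
      | zero => intro x; simp
      | succ n ih =>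
        intro x
        have e1 : (T ^ (n + 1)) x = (T ^ n) (T x) := by rw [pow_succ]; rfl
        rw [e1, ih, h]; ring
    have : (algebraMap ℂ (X →L[ℂ] X) a * T ^ n) x = a • (T ^ n) x := by
      rw [Algebra.algebraMap_eq_smul_one, smul_mul_assoc, one_mul]; rfl
    rw [this, map_smul, hn, smul_eq_mul]; ring

section model

variable (μ : Measure ℂ) (K : Set ℂ)

/-- the rational functions with poles off `K`, as classes -/
def Gset : Set (Lp ℂ 2 μ) :=
  {f : Lp ℂ 2 μ | ∃ p q : Polynomial ℂ, (∀ z ∈ K, q.eval z ≠ 0) ∧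
                (f : ℂ → ℂ) =ᵐ[μ] fun z => p.eval z / q.eval z}

variable [IsFiniteMeasure μ] (hK : IsCompact K) (hμK : μ Kᶜ = 0)

include hμK in
theorem ae_K : ∀ᵐ z ∂μ, z ∈ K := by
  rw [ae_iff]; exact hμK

include hK hμK in
theorem memRat (p q : Polynomial ℂ) (hq : ∀ z ∈ K, q.eval z ≠ 0) (r : ENNReal) :
    MemLp (fun z => p.eval z / q.eval z) r μ := by
  have hc : ContinuousOn (fun z => p.eval z / q.eval z) K :=
    p.continuous.continuousOn.div q.continuous.continuousOn hq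
  obtain ⟨C, hC⟩ := hK.exists_bound_of_continuousOn hc
  have h1 : MemLp (fun z => p.eval z / q.eval z) ⊤ μ := by
    refine memLp_top_of_bound ?_ C ?_
    · exact ((p.continuous.measurable).div (q.continuous.measurable)).aestronglyMeasurable
    · filter_upwards [ae_K μ K hμK] with z hz
      exact hC z hz
  exact h1.mono_exponent le_top

include hK hμK in
theorem mem_z : MemLp (fun z : ℂ => z) ⊤ μ := by
  have := memRat μ K hK hμK Polynomial.X 1 (fun z _ => by simp) ⊤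
  simpa using this

/-- multiplication by `z` -/
noncomputable def Mz : Lp ℂ 2 μ →L[ℂ] Lp ℂ 2 μ :=
  (ContinuousLinearMap.mul ℂ ℂ).holderL μ ⊤ 2 2 ((mem_z μ K hK hμK).toLp _)

theorem Mz_coe (f : Lp ℂ 2 μ) : (Mz μ K hK hμK f : ℂ → ℂ) =ᵐ[μ] fun z => z * f z := by
  have h1 := (ContinuousLinearMap.mul ℂ ℂ).coeFn_holder (r := 2)
    ((mem_z μ K hK hμK).toLp _) f
  have h2 := (mem_z μ K hK hμK).coeFn_toLp
  have h3 : Mz μ K hK hμK f = (ContinuousLinearMap.mul ℂ ℂ).holder 2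
    ((mem_z μ K hK hμK).toLp _) f := rfl
  rw [h3]
  filter_upwards [h1, h2] with z hz1 hz2
  rw [hz1, hz2]
  rfl

end model

/-- The negation of the preceding statement: Every subnormal operator on a separable complex Hilbert space is unitarily equivalent to multiplication by a bounded φ in R²(K,μ) on R²(K,μ), for some finite compactly supported μ and compact K containing its support. -/
theorem result :
    ¬ (∀ (H : Type) [NormedAddCommGroup H] [InnerProductSpace ℂ H] [CompleteSpace H]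
      [TopologicalSpace.SeparableSpace H] (S : H →L[ℂ] H),
      (∃ (E : Type) (_ : NormedAddCommGroup E) (_ : InnerProductSpace ℂ E) (_ : CompleteSpace E)
          (V : H →ₗᵢ[ℂ] E) (N : E →L[ℂ] E),
          IsStarNormal N ∧ N.comp V.toContinuousLinearMap = V.toContinuousLinearMap.comp S) →
      ∃ (μ : Measure ℂ) (K : Set ℂ) (R : Submodule ℂ (Lp ℂ 2 μ)) (φ : ℂ → ℂ) (U : H ≃ₗᵢ[ℂ] R),
        IsFiniteMeasure μ ∧ IsCompact K ∧ μ Kᶜ = 0 ∧
        R = (Submodule.span ℂ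
              {f : Lp ℂ 2 μ | ∃ p q : Polynomial ℂ, (∀ z ∈ K, q.eval z ≠ 0) ∧
                (f : ℂ → ℂ) =ᵐ[μ] fun z => p.eval z / q.eval z}).topologicalClosure ∧
        MemLp φ ⊤ μ ∧ (∃ f ∈ R, (f : ℂ → ℂ) =ᵐ[μ] φ) ∧
        ∀ x : H, ((U (S x) : Lp ℂ 2 μ) : ℂ → ℂ) =ᵐ[μ]
          fun z => φ z * ((U x : Lp ℂ 2 μ) : ℂ → ℂ) z) := by
  intro hall
  obtain ⟨μ, K, R, φ, U, hfin, hK, hμK, hR, _, _, hU⟩ := hall H S
    ⟨E, inferInstance, inferInstance, inferInstance, H.subtypeₗᵢ, N, N_normal, by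
      ext f n; rfl⟩
  change R = (Submodule.span ℂ (Gset μ K)).topologicalClosure at hR
  have hGR : Gset μ K ⊆ R := by
    rw [hR]
    exact Submodule.subset_span.trans (Submodule.le_topologicalClosure _)
  have hRc : IsClosed (R : Set (Lp ℂ 2 μ)) := by
    rw [hR]; exact Submodule.isClosed_topologicalClosure _
  -- multiplication by z preserves R
  have hMG : ∀ f ∈ Gset μ K, Mz μ K hK hμK f ∈ Gset μ K := by
    rintro f ⟨p, q, hq, hf⟩
    refine ⟨Polynomial.X * p, q, hq, ?_⟩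
    filter_upwards [Mz_coe μ K hK hμK f, hf] with z h1 h2
    rw [h1, h2, Polynomial.eval_mul, Polynomial.eval_X, mul_div_assoc]
  have hMR : ∀ f ∈ R, Mz μ K hK hμK f ∈ R := by
    have hle : R ≤ R.comap (Mz μ K hK hμK : Lp ℂ 2 μ →ₗ[ℂ] Lp ℂ 2 μ) := by
      conv_lhs => rw [hR]
      refine Submodule.topologicalClosure_minimal _ ?_ ?_
      · rw [Submodule.span_le]
        intro f hf
        exact hGR (hMG f hf)
      · exact hRc.preimage (Mz μ K hK hμK).continuous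
    exact fun f hf => hle hf
  let M : R →L[ℂ] R := ((Mz μ K hK hμK).comp R.subtypeL).codRestrict R (fun f => hMR f f.2)
  have hM : ∀ f : R, ((M f : Lp ℂ 2 μ) : ℂ → ℂ) =ᵐ[μ] fun z => z * (f : Lp ℂ 2 μ) z :=
    fun f => Mz_coe μ K hK hμK f
  let T : H →L[ℂ] H := (U.symm : R →L[ℂ] H).comp (M.comp (U : H →L[ℂ] R))
  have hUT : ∀ x, U (T x) = M (U x) := fun x => U.apply_symm_apply _
  have hTS : ∀ f, T (S f) = S (T f) := by
    intro f
    apply U.injective
    apply Subtype.ext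
    apply Lp.ext
    have h1 := hU f
    have h2 := hU (T f)
    have h3 := hM (U (S f))
    have h4 := hM (U f)
    rw [hUT] at h2 ⊢
    filter_upwards [h1, h2, h3, h4] with z a1 a2 a3 a4
    rw [a3, a1, a2, a4]; ring
  -- coefficients
  set h : H := T (e 0 (by norm_num)) with hh
  have hco := coeffs T hTS
  have c0 : ∀ f, (T f : E) ((0 : ℕ) : ℤ) = (h : E) ((0 : ℕ) : ℤ) * (f : E) ((0 : ℕ) : ℤ) := by
    intro f
    rw [hco f 0, ← hh, Finset.Nat.antidiagonal_zero, Finset.sum_singleton]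
    ring
  have hf1 : ∀ f : H, (f : E) ((1 : ℕ) : ℤ) = 0 := fun f => f.2.2
  have c2 : ∀ f, (T f : E) ((2 : ℕ) : ℤ) = (h : E) ((0 : ℕ) : ℤ) * (f : E) ((2 : ℕ) : ℤ) +
      (h : E) ((2 : ℕ) : ℤ) * (f : E) ((0 : ℕ) : ℤ) := by
    intro f
    rw [hco f 2, ← hh, Finset.Nat.sum_antidiagonal_eq_sum_range_succ
      (fun i j : ℕ => (f : E) (i : ℤ) * (h : E) (j : ℤ)), Finset.sum_range_succ,
      Finset.sum_range_succ, Finset.sum_range_succ, Finset.sum_range_zero]
    show 0 + (f : E) ((0 : ℕ) : ℤ) * (h : E) ((2 : ℕ) : ℤ) +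
      (f : E) ((1 : ℕ) : ℤ) * (h : E) ((1 : ℕ) : ℤ) +
      (f : E) ((2 : ℕ) : ℤ) * (h : E) ((0 : ℕ) : ℤ) = _
    rw [hf1 f, hf1 h]
    ring
  have c3 : ∀ f, (T f : E) ((3 : ℕ) : ℤ) = (h : E) ((0 : ℕ) : ℤ) * (f : E) ((3 : ℕ) : ℤ) +
      (h : E) ((3 : ℕ) : ℤ) * (f : E) ((0 : ℕ) : ℤ) := by
    intro f
    rw [hco f 3, ← hh, Finset.Nat.sum_antidiagonal_eq_sum_range_succ
      (fun i j : ℕ => (f : E) (i : ℤ) * (h : E) (j : ℤ)), Finset.sum_range_succ,
      Finset.sum_range_succ, Finset.sum_range_succ, Finset.sum_range_succ, Finset.sum_range_zero]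
    show 0 + (f : E) ((0 : ℕ) : ℤ) * (h : E) ((3 : ℕ) : ℤ) +
      (f : E) ((1 : ℕ) : ℤ) * (h : E) ((2 : ℕ) : ℤ) +
      (f : E) ((2 : ℕ) : ℤ) * (h : E) ((1 : ℕ) : ℤ) +
      (f : E) ((3 : ℕ) : ℤ) * (h : E) ((0 : ℕ) : ℤ) = _
    rw [hf1 f, hf1 h]
    ring
  set h0 := (h : E) ((0 : ℕ) : ℤ) with hh0
  set h2 := (h : E) ((2 : ℕ) : ℤ) with hh2
  set h3 := (h : E) ((3 : ℕ) : ℤ) with hh3
  obtain ⟨β, γ, hβγ, hne⟩ : ∃ β γ : ℂ, β * h2 + γ * h3 = 0 ∧ (β ≠ 0 ∨ γ ≠ 0) := by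
    by_cases hz : h2 = 0
    · exact ⟨1, 0, by rw [hz]; ring, Or.inl one_ne_zero⟩
    · exact ⟨h3, -h2, by ring, Or.inr (neg_ne_zero.2 hz)⟩
  let L0 : H →L[ℂ] ℂ := (co ((0 : ℕ) : ℤ)).comp H.subtypeL
  let L1 : H →L[ℂ] ℂ := β • (co ((2 : ℕ) : ℤ)).comp H.subtypeL +
    γ • (co ((3 : ℕ) : ℤ)).comp H.subtypeL
  have L0a : ∀ f : H, L0 f = (f : E) ((0 : ℕ) : ℤ) := fun f => rfl
  have L1a : ∀ f : H, L1 f = β * (f : E) ((2 : ℕ) : ℤ) + γ * (f : E) ((3 : ℕ) : ℤ) := fun f => rfl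
  have L0T : ∀ f, L0 (T f) = h0 * L0 f := by
    intro f
    rw [L0a, L0a, c0 f]
  have L1T : ∀ f, L1 (T f) = h0 * L1 f := by
    intro f
    rw [L1a, L1a, c2 f, c3 f]
    linear_combination (f : E) ((0 : ℕ) : ℤ) * hβγ
  let Λ0 : R →L[ℂ] ℂ := L0.comp (U.symm : R →L[ℂ] H)
  let Λ1 : R →L[ℂ] ℂ := L1.comp (U.symm : R →L[ℂ] H)
  have hUM : ∀ g : R, U.symm (M g) = T (U.symm g) := by
    intro g
    apply U.injective
    rw [hUT, U.apply_symm_apply, U.apply_symm_apply]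
  have Λ0M : ∀ g, Λ0 (M g) = h0 * Λ0 g := by
    intro g
    show L0 (U.symm (M g)) = h0 * L0 (U.symm g)
    rw [hUM, L0T]
  have Λ1M : ∀ g, Λ1 (M g) = h0 * Λ1 g := by
    intro g
    show L1 (U.symm (M g)) = h0 * L1 (U.symm g)
    rw [hUM, L1T]
  -- polynomials in M
  have hpM : ∀ (p : Polynomial ℂ) (g : R), ((Polynomial.aeval M p g : R) : Lp ℂ 2 μ) =ᵐ[μ]
      fun z => p.eval z * (g : Lp ℂ 2 μ) z := by
    intro p
    induction p using Polynomial.induction_on' with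
    | add p q hp hq =>
      intro g
      rw [map_add, _root_.add_apply, Submodule.coe_add]
      filter_upwards [hp g, hq g, Lp.coeFn_add ((Polynomial.aeval M p g : R) : Lp ℂ 2 μ)
        ((Polynomial.aeval M q g : R) : Lp ℂ 2 μ)] with z a1 a2 a3
      rw [a3, Pi.add_apply, a1, a2, Polynomial.eval_add]; ring
    | monomial n a =>
      intro g
      have hn : ∀ n : ℕ, ∀ g : R, (((M ^ n) g : R) : Lp ℂ 2 μ) =ᵐ[μ]
          fun z => z ^ n * (g : Lp ℂ 2 μ) z := by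
        intro n
        induction n with
        | zero => intro g; simp
        | succ n ih =>
          intro g
          have e1 : (M ^ (n + 1)) g = (M ^ n) (M g) := by rw [pow_succ]; rfl
          rw [e1]
          filter_upwards [ih (M g), hM g] with z a1 a2
          rw [a1, a2]; ring
      have : Polynomial.aeval M (Polynomial.monomial n a) g = a • (M ^ n) g := by
        rw [Polynomial.aeval_monomial, Algebra.algebraMap_eq_smul_one, smul_mul_assoc, one_mul]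
        rfl
      rw [this, Submodule.coe_smul]
      filter_upwards [hn n g, Lp.coeFn_smul a (((M ^ n) g : R) : Lp ℂ 2 μ)] with z a1 a2
      rw [a2, Pi.smul_apply, a1, Polynomial.eval_monomial, smul_eq_mul]; ring
  -- rational elements
  have hmemG : ∀ (p q : Polynomial ℂ) (hq : ∀ z ∈ K, q.eval z ≠ 0),
      (memRat μ K hK hμK p q hq 2).toLp _ ∈ Gset μ K := fun p q hq =>
    ⟨p, q, hq, (memRat μ K hK hμK p q hq 2).coeFn_toLp⟩
  have hΛ0 : ¬ ∀ x, Λ0 x = 0 := by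
    intro hz
    have := hz (U (e 0 (by norm_num)))
    have h5 : L0 (U.symm (U (e 0 (by norm_num)))) = 0 := this
    rw [U.symm_apply_apply, L0a, e_self] at h5
    exact one_ne_zero h5
  have hqc : ∀ q : Polynomial ℂ, (∀ z ∈ K, q.eval z ≠ 0) → q.eval h0 ≠ 0 := by
    intro q hq hq0
    apply hΛ0
    apply vanish (Gset μ K) R hR Λ0
    rintro w hw ⟨p1, q1, hq1, hw1⟩
    have hqq : ∀ z ∈ K, (q1 * q).eval z ≠ 0 := by
      intro z hz
      rw [Polynomial.eval_mul]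
      exact mul_ne_zero (hq1 z hz) (hq z hz)
    let w' : R := ⟨(memRat μ K hK hμK p1 (q1 * q) hqq 2).toLp _, hGR (hmemG p1 (q1 * q) hqq)⟩
    have hw' : Polynomial.aeval M q w' = ⟨w, hw⟩ := by
      apply Subtype.ext
      apply Lp.ext
      filter_upwards [hpM q w', (memRat μ K hK hμK p1 (q1 * q) hqq 2).coeFn_toLp, hw1,
        ae_K μ K hμK] with z a1 a2 a3 a4
      have a5 : ((w' : R) : Lp ℂ 2 μ) z = p1.eval z / (q1 * q).eval z := a2
      have b1 := hq1 z a4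
      have b2 := hq z a4
      rw [a1, a5, a3, Polynomial.eval_mul]
      field_simp
    rw [← hw', aeval_eig M Λ0 h0 Λ0M, hq0, zero_mul]
  have h1K : ∀ z ∈ K, (1 : Polynomial ℂ).eval z ≠ 0 := fun z _ => by simp
  let one : R := ⟨(memRat μ K hK hμK 1 1 h1K 2).toLp _, hGR (hmemG 1 1 h1K)⟩
  have hone : ((one : R) : Lp ℂ 2 μ) =ᵐ[μ] fun _ => (1 : ℂ) := by
    filter_upwards [(memRat μ K hK hμK 1 1 h1K 2).coeFn_toLp] with z a1
    have a2 : ((one : R) : Lp ℂ 2 μ) z = (1 : Polynomial ℂ).eval z / (1 : Polynomial ℂ).eval z := a1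
    rw [a2]; simp
  have hrel : ∀ w (hw : w ∈ R), w ∈ Gset μ K → ∃ p q : Polynomial ℂ, q.eval h0 ≠ 0 ∧
      q.eval h0 * Λ0 ⟨w, hw⟩ = p.eval h0 * Λ0 one ∧ q.eval h0 * Λ1 ⟨w, hw⟩ = p.eval h0 * Λ1 one := by
    rintro w hw ⟨p, q, hq, hw1⟩
    have heq : Polynomial.aeval M q ⟨w, hw⟩ = Polynomial.aeval M p one := by
      apply Subtype.ext
      apply Lp.ext
      filter_upwards [hpM q ⟨w, hw⟩, hpM p one, hone, hw1, ae_K μ K hμK] with z a1 a2 a3 a4 a5
      rw [a1, a2, a3, a4]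
      have := hq z a5
      field_simp
    refine ⟨p, q, hqc q hq, ?_, ?_⟩
    · rw [← aeval_eig M Λ0 h0 Λ0M, ← aeval_eig M Λ0 h0 Λ0M, heq]
    · rw [← aeval_eig M Λ1 h0 Λ1M, ← aeval_eig M Λ1 h0 Λ1M, heq]
  have hD : ∀ x, (Λ0 one • Λ1 - Λ1 one • Λ0) x = 0 := by
    apply vanish (Gset μ K) R hR
    intro w hw hwG
    obtain ⟨p, q, hq, e1, e2⟩ := hrel w hw hwG
    have : q.eval h0 * ((Λ0 one • Λ1 - Λ1 one • Λ0) ⟨w, hw⟩) = 0 := by
      show q.eval h0 * (Λ0 one * Λ1 ⟨w, hw⟩ - Λ1 one * Λ0 ⟨w, hw⟩) = 0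
      linear_combination Λ0 one * e2 - Λ1 one * e1
    exact (mul_eq_zero.1 this).resolve_left hq
  have hD' : ∀ x : H, Λ0 one * L1 x - Λ1 one * L0 x = 0 := by
    intro x
    have h6 := hD (U x)
    have h7 : Λ0 one * L1 (U.symm (U x)) - Λ1 one * L0 (U.symm (U x)) = 0 := h6
    rwa [U.symm_apply_apply] at h7
  have ht0 : Λ0 one = 0 := by
    have d2 := hD' (e 2 (by norm_num))
    have d3 := hD' (e 3 (by norm_num))
    rw [L1a, L0a, e_self, e_ne 2 _ _ (by norm_num), e_ne 2 _ _ (by norm_num)] at d2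
    rw [L1a, L0a, e_self, e_ne 3 _ _ (by norm_num), e_ne 3 _ _ (by norm_num)] at d3
    rcases hne with hb | hg
    · have : Λ0 one * β = 0 := by linear_combination d2
      exact (mul_eq_zero.1 this).resolve_right hb
    · have : Λ0 one * γ = 0 := by linear_combination d3
      exact (mul_eq_zero.1 this).resolve_right hg
  apply hΛ0
  apply vanish (Gset μ K) R hR Λ0
  intro w hw hwG
  obtain ⟨p, q, hq, e1, _⟩ := hrel w hw hwG
  rw [ht0, mul_zero] at e1
  exact (mul_eq_zero.1 e1).resolve_left hq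

end Pool.Agent.S03204
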