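import Pool.Statements.S03216

set_option autoImplicit false
open Pool Pool.MP_51da40_an

namespace Pool.Agent.S03216

open Real Polynomial

/-- modulus of the curve point -/
noncomputable def rad (τ α : ℝ) : ℝ := 79 / 100 * Real.sin (2 * α - τ) / Real.sin (3 * α - τ)

/-- the curve -/
noncomputable def zc (τ α : ℝ) : ℂ := (rad τ α : ℂ) * Complex.exp (α * Complex.I)

/-- modulus of `z^2 (s - z)` on the curve -/
noncomputable def rr (τ α : ℝ) : ℝ :=
  (79 / 100) ^ 3 * Real.sin (2 * α - τ) ^ 2 * Real.sin α / Real.sin (3 * α - τ) ^ 3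

/-- `z^2 (s - z)` -/
noncomputable def GG (z : ℂ) : ℂ := z ^ 2 * (79 / 100 - z)

lemma GG_eq (τ α : ℝ) (h : Real.sin (3 * α - τ) ≠ 0) :
    GG (zc τ α) = (rr τ α : ℂ) * Complex.exp (τ * Complex.I) := by
  obtain ⟨a, ha⟩ : ∃ a : ℝ, a = 2 * α - τ := ⟨_, rfl⟩
  have h3 : 3 * α - τ = a + α := by rw [ha]; ring
  have hτ : (τ : ℂ) * Complex.I = (α : ℂ) * Complex.I + (α : ℂ) * Complex.I + ((-a : ℝ) : ℂ) * Complex.I := by
    rw [ha]; push_cast; ring
  unfold GG zc rr rad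
  rw [hτ, Complex.exp_add, Complex.exp_add, ← ha, h3]
  rw [h3] at h
  have hS : (Real.sin (a + α) : ℂ) ≠ 0 := by exact_mod_cast h
  have hS2 : (Real.sin (a + α) : ℂ) =
      (Real.sin a : ℂ) * Real.cos α + (Real.cos a : ℂ) * Real.sin α := by
    rw [Real.sin_add]; push_cast; ring
  have he1 : Complex.exp ((α : ℂ) * Complex.I) = (Real.cos α : ℂ) + (Real.sin α : ℂ) * Complex.I := by
    rw [Complex.exp_mul_I]; push_cast; ring
  have he2 : Complex.exp (((-a : ℝ) : ℂ) * Complex.I) = (Real.cos a : ℂ) - (Real.sin a : ℂ) * Complex.I := by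
    rw [Complex.exp_mul_I]; push_cast; rw [Complex.cos_neg, Complex.sin_neg]; ring
  push_cast at hS hS2 he1 he2 ⊢
  obtain ⟨S, hSd⟩ : ∃ S : ℂ, S = Complex.sin ((a : ℂ) + α) := ⟨_, rfl⟩
  obtain ⟨u, hu⟩ : ∃ u : ℂ, u = Complex.exp ((α : ℂ) * Complex.I) := ⟨_, rfl⟩
  obtain ⟨v, hv⟩ : ∃ v : ℂ, v = Complex.exp (-(a : ℂ) * Complex.I) := ⟨_, rfl⟩
  rw [← hSd] at hS hS2 ⊢
  rw [← hu] at he1 ⊢
  rw [← hv] at he2 ⊢
  have key : S - Complex.sin a * u = Complex.sin α * v := by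
    rw [hS2, he1, he2]; ring
  have : (79 / 100 * Complex.sin a / S * u) ^ 2 * (79 / 100 - 79 / 100 * Complex.sin a / S * u)
      = (79 / 100) ^ 3 * Complex.sin a ^ 2 * u ^ 2 / S ^ 3 * (S - Complex.sin a * u) := by
    field_simp
  rw [this, key]
  ring

lemma tau_bounds {τ : ℝ} (h1 : π / 200 ≤ τ) (h2 : τ ≤ π / 100) : 1 / 100 < τ ∧ τ < 315 / 10000 := by
  have := Real.pi_gt_three
  have := Real.pi_lt_d2
  constructor <;> linarith

lemma sinb_pos {τ α : ℝ} (h1 : π / 200 ≤ τ) (h2 : τ ≤ π / 100) (h3 : τ / 2 + 1 / 10000 ≤ α)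
    (h4 : α ≤ π / 4) : 0 < Real.sin (3 * α - τ) := by
  have hp := Real.pi_gt_three
  have ht := tau_bounds h1 h2
  apply Real.sin_pos_of_pos_of_lt_pi <;> linarith

lemma q_sq : (√2 / 2) ^ 2 = (1 / 2 : ℝ) := by
  rw [div_pow, Real.sq_sqrt (by norm_num)]; norm_num

lemma rr_le {τ α : ℝ} (h1 : π / 200 ≤ τ) (h2 : τ ≤ π / 100) (h3 : τ / 2 + 1 / 10000 ≤ α)
    (h4 : α ≤ π / 4) : rr τ α ≤ 1 := by
  have hp := Real.pi_gt_three
  have ht := tau_bounds h1 h2
  have hb := sinb_pos h1 h2 h3 h4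
  unfold rr
  rw [div_le_one (by positivity)]
  have ha0 : 0 ≤ Real.sin (2 * α - τ) := Real.sin_nonneg_of_nonneg_of_le_pi (by linarith) (by linarith)
  have hα0 : 0 ≤ Real.sin α := Real.sin_nonneg_of_nonneg_of_le_pi (by linarith) (by linarith)
  by_cases hc : 3 * α - τ ≤ π / 2
  · have e1 : Real.sin (2 * α - τ) ≤ Real.sin (3 * α - τ) :=
      Real.sin_le_sin_of_le_of_le_pi_div_two (by linarith) hc (by linarith)
    have e2 : Real.sin α ≤ Real.sin (3 * α - τ) :=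
      Real.sin_le_sin_of_le_of_le_pi_div_two (by linarith) hc (by linarith)
    have e3 : Real.sin (2 * α - τ) ^ 2 * Real.sin α ≤ Real.sin (3 * α - τ) ^ 2 * Real.sin (3 * α - τ) :=
      mul_le_mul (pow_le_pow_left₀ ha0 e1 2) e2 hα0 (by positivity)
    have e4 : 0 ≤ Real.sin (2 * α - τ) ^ 2 * Real.sin α := by positivity
    nlinarith [e3, e4]
  · push Not at hc
    have e1 : √2 / 2 ≤ Real.sin (3 * α - τ) := by
      rw [← Real.sin_pi_div_four, ← Real.sin_pi_sub (3 * α - τ)]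
      exact Real.sin_le_sin_of_le_of_le_pi_div_two (by linarith) (by linarith) (by linarith)
    have e2 : Real.sin α ≤ √2 / 2 := by
      rw [← Real.sin_pi_div_four]
      exact Real.sin_le_sin_of_le_of_le_pi_div_two (by linarith) (by linarith) (by linarith)
    have e3 : Real.sin (2 * α - τ) ≤ 1 := Real.sin_le_one _
    have hq : 0 ≤ √2 / 2 := by positivity
    have e4 : (√2 / 2) ^ 3 ≤ Real.sin (3 * α - τ) ^ 3 := pow_le_pow_left₀ hq e1 3
    have e5 : (√2 / 2) ^ 3 = (√2 / 2) * (1 / 2) := by rw [pow_succ, q_sq]; ring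
    have e6 : Real.sin (2 * α - τ) ^ 2 ≤ 1 := pow_le_one₀ ha0 e3
    have e7 : Real.sin (2 * α - τ) ^ 2 * Real.sin α ≤ 1 * (√2 / 2) :=
      mul_le_mul e6 e2 hα0 (by norm_num)
    nlinarith [e4, e5, e7]

/-- lower bound for the moduli -/
noncomputable def rho : ℝ := (79 / 100) ^ 3 * Real.sin (2 / 10000) ^ 2 * Real.sin (1 / 10000)

lemma rho_pos : 0 < rho := by
  have hp := Real.pi_gt_three
  unfold rho
  have h1 : 0 < Real.sin (2 / 10000) := Real.sin_pos_of_pos_of_lt_pi (by norm_num) (by linarith)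
  have h2 : 0 < Real.sin (1 / 10000) := Real.sin_pos_of_pos_of_lt_pi (by norm_num) (by linarith)
  positivity

lemma rr_ge {τ α : ℝ} (h1 : π / 200 ≤ τ) (h2 : τ ≤ π / 100) (h3 : τ / 2 + 1 / 10000 ≤ α)
    (h4 : α ≤ π / 4) : rho ≤ rr τ α := by
  have hp := Real.pi_gt_three
  have ht := tau_bounds h1 h2
  have hb := sinb_pos h1 h2 h3 h4
  unfold rr rho
  have hb1 : Real.sin (3 * α - τ) ^ 3 ≤ 1 := pow_le_one₀ hb.le (Real.sin_le_one _)
  rw [le_div_iff₀ (by positivity)]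
  have k1 : 0 < Real.sin (2 / 10000) := Real.sin_pos_of_pos_of_lt_pi (by norm_num) (by linarith)
  have k2 : 0 < Real.sin (1 / 10000) := Real.sin_pos_of_pos_of_lt_pi (by norm_num) (by linarith)
  have k3 : Real.sin (2 / 10000) ≤ Real.sin (2 * α - τ) :=
    Real.sin_le_sin_of_le_of_le_pi_div_two (by linarith) (by linarith) (by linarith)
  have k4 : Real.sin (1 / 10000) ≤ Real.sin α :=
    Real.sin_le_sin_of_le_of_le_pi_div_two (by linarith) (by linarith) (by linarith)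
  have k5 : (79 / 100 : ℝ) ^ 3 * Real.sin (2 / 10000) ^ 2 * Real.sin (1 / 10000) ≤
      (79 / 100) ^ 3 * Real.sin (2 * α - τ) ^ 2 * Real.sin α := by gcongr
  have k6 : 0 ≤ (79 / 100 : ℝ) ^ 3 * Real.sin (2 / 10000) ^ 2 * Real.sin (1 / 10000) := by positivity
  calc _ ≤ (79 / 100 : ℝ) ^ 3 * Real.sin (2 / 10000) ^ 2 * Real.sin (1 / 10000) * 1 :=
        mul_le_mul_of_nonneg_left hb1 k6
    _ ≤ _ := by rw [mul_one]; exact k5

lemma norm_zc (τ α : ℝ) : ‖zc τ α‖ = |rad τ α| := by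
  unfold zc
  rw [norm_mul, Complex.norm_exp_ofReal_mul_I, mul_one, Complex.norm_real, Real.norm_eq_abs]

lemma far {τ : ℝ} (h1 : π / 200 ≤ τ) (h2 : τ ≤ π / 100) : 107 / 100 ≤ ‖zc τ (π / 4)‖ := by
  have hp := Real.pi_gt_three
  have ht := tau_bounds h1 h2
  have hb := sinb_pos (α := π / 4) h1 h2 (by linarith) le_rfl
  rw [norm_zc]
  refine le_trans ?_ (le_abs_self _)
  unfold rad
  rw [le_div_iff₀ hb]
  have e1 : 2 * (π / 4) - τ = π / 2 - τ := by ring
  have e2 : Real.sin (3 * (π / 4) - τ) = Real.sin (π / 4 + τ) := by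
    rw [← Real.sin_pi_sub]; congr 1; ring
  rw [e1, Real.sin_pi_div_two_sub, e2, Real.sin_add, Real.sin_pi_div_four, Real.cos_pi_div_four]
  have k1 := Real.one_sub_sq_div_two_le_cos (x := τ)
  have k2 : Real.sin τ ≤ τ := Real.sin_le (by linarith)
  have k3 : Real.cos τ ≤ 1 := Real.cos_le_one _
  have k4 : √2 / 2 ≤ 7072 / 10000 := by
    have : √2 ≤ 14144 / 10000 := by
      rw [Real.sqrt_le_left (by norm_num)]; norm_num
    linarith
  have hq : 0 ≤ √2 / 2 := by positivity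
  have k5 : √2 / 2 * Real.cos τ + √2 / 2 * Real.sin τ ≤ √2 / 2 * (1 + τ) := by
    nlinarith [mul_le_mul_of_nonneg_left k3 hq, mul_le_mul_of_nonneg_left k2 hq]
  have k6 : √2 / 2 * (1 + τ) ≤ 7072 / 10000 * (10315 / 10000) :=
    mul_le_mul k4 (by linarith) (by linarith) (by norm_num)
  have k7 : τ ^ 2 ≤ (315 / 10000) ^ 2 := pow_le_pow_left₀ (by linarith) ht.2.le 2
  nlinarith [k1, k5, k6, k7]

lemma near {τ : ℝ} (h1 : π / 200 ≤ τ) (h2 : τ ≤ π / 100) : ‖zc τ (τ / 2 + 1 / 10000)‖ ≤ 4 / 100 := by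
  have hp := Real.pi_gt_three
  have ht := tau_bounds h1 h2
  have hb := sinb_pos (α := τ / 2 + 1 / 10000) h1 h2 le_rfl (by linarith)
  have k1 : 0 < Real.sin (2 / 10000) := Real.sin_pos_of_pos_of_lt_pi (by norm_num) (by linarith)
  have e1 : 2 * (τ / 2 + 1 / 10000) - τ = 2 / 10000 := by ring
  rw [norm_zc]
  unfold rad
  rw [e1, abs_of_nonneg (by positivity), div_le_iff₀ hb]
  have k2 : Real.sin (2 / 10000) ≤ 2 / 10000 := Real.sin_le (by norm_num)
  have k3 : 2 / π * (3 * (τ / 2 + 1 / 10000) - τ) ≤ Real.sin (3 * (τ / 2 + 1 / 10000) - τ) :=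
    Real.mul_le_sin (by linarith) (by linarith)
  have k4 : 2 / π * (π / 400) ≤ 2 / π * (3 * (τ / 2 + 1 / 10000) - τ) := by
    apply mul_le_mul_of_nonneg_left _ (by positivity)
    linarith
  have k5 : 2 / π * (π / 400) = 1 / 200 := by field_simp; norm_num
  linarith

lemma zc_cont {τ : ℝ} (h1 : π / 200 ≤ τ) (h2 : τ ≤ π / 100) :
    ContinuousOn (zc τ) (Set.Icc (τ / 2 + 1 / 10000) (π / 4)) := by
  unfold zc rad
  apply ContinuousOn.mul
  · apply Complex.continuous_ofReal.comp_continuousOn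
    apply ContinuousOn.div
    · fun_prop
    · fun_prop
    · intro α hα
      exact (sinb_pos h1 h2 hα.1 hα.2).ne'
  · fun_prop

/-- the polynomial -/
noncomputable def PP (m : ℕ) : Polynomial ℂ :=
  (X ^ 2 * (X - C (79 / 100 : ℂ))) ^ m - C (1 + ((rho ^ m : ℝ) : ℂ))

lemma base_monic : (X ^ 2 * (X - C (79 / 100 : ℂ)) : Polynomial ℂ).Monic :=
  (monic_X_pow 2).mul (monic_X_sub_C _)

lemma base_natDegree : (X ^ 2 * (X - C (79 / 100 : ℂ)) : Polynomial ℂ).natDegree = 3 := by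
  rw [(monic_X_pow 2).natDegree_mul (monic_X_sub_C _), natDegree_X_pow, natDegree_X_sub_C]

lemma pow_natDegree (m : ℕ) :
    ((X ^ 2 * (X - C (79 / 100 : ℂ)) : Polynomial ℂ) ^ m).natDegree = 3 * m := by
  rw [base_monic.natDegree_pow, base_natDegree, mul_comm]

lemma PP_monic (m : ℕ) (hm : 0 < m) : (PP m).Monic := by
  unfold PP
  apply (base_monic.pow m).sub_of_left
  rw [degree_eq_natDegree (base_monic.pow m).ne_zero, pow_natDegree]
  refine lt_of_le_of_lt degree_C_le ?_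
  exact_mod_cast (by omega : 0 < 3 * m)

lemma PP_natDegree (m : ℕ) : (PP m).natDegree = 3 * m := by
  unfold PP
  rw [natDegree_sub_C, pow_natDegree]

lemma PP_eval {m : ℕ} (hm : Even m) (z : ℂ) : (PP m).eval z = GG z ^ m - (1 + ((rho ^ m : ℝ) : ℂ)) := by
  unfold PP GG
  simp only [eval_sub, eval_pow, eval_mul, eval_X, eval_C]
  congr 1
  rw [show z ^ 2 * (79 / 100 - z) = -(z ^ 2 * (z - 79 / 100)) by ring, hm.neg_pow]

/-- the lemniscate -/
def EE (m : ℕ) : Set ℂ := {w : ℂ | ‖(PP m).eval w‖ ≤ 1}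

lemma mem_EE_re {m : ℕ} (hm : Even m) {w : ℂ} (hw : w ∈ EE m) : rho ^ m ≤ (GG w ^ m).re := by
  have h : ‖(PP m).eval w‖ ≤ 1 := hw
  rw [PP_eval hm] at h
  have h2 := (Complex.abs_re_le_norm _).trans h
  have h3 := (abs_le.1 h2).1
  simp only [Complex.sub_re, Complex.add_re, Complex.one_re, Complex.ofReal_re] at h3
  linarith

lemma rho_le_one : rho ≤ 1 := by
  have h1 : π / 200 ≤ π / 150 := by have := Real.pi_pos; linarith
  have h2 : π / 150 ≤ π / 100 := by have := Real.pi_pos; linarith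
  exact (rr_ge (α := π / 4) h1 h2 (by have := Real.pi_gt_three; linarith) le_rfl).trans
    (rr_le h1 h2 (by have := Real.pi_gt_three; linarith) le_rfl)

lemma EE_bounded {m : ℕ} (hm : Even m) (hm0 : 0 < m) : Bornology.IsBounded (EE m) := by
  apply (Metric.isBounded_closedBall (x := (0 : ℂ)) (r := 3)).subset
  intro w hw
  rw [mem_closedBall_zero_iff]
  by_contra hcon
  push Not at hcon
  have h : ‖(PP m).eval w‖ ≤ 1 := hw
  rw [PP_eval hm] at h
  have h1 : ‖GG w ^ m‖ ≤ 3 := by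
    have e1 : ‖GG w ^ m‖ ≤ ‖GG w ^ m - (1 + ((rho ^ m : ℝ) : ℂ))‖ + ‖(1 + ((rho ^ m : ℝ) : ℂ))‖ := by
      have := norm_add_le (GG w ^ m - (1 + ((rho ^ m : ℝ) : ℂ))) (1 + ((rho ^ m : ℝ) : ℂ))
      rwa [sub_add_cancel] at this
    have e2 : ‖(1 + ((rho ^ m : ℝ) : ℂ))‖ ≤ 2 := by
      refine (norm_add_le _ _).trans ?_
      rw [norm_one, Complex.norm_real, Real.norm_eq_abs, abs_of_nonneg (pow_nonneg rho_pos.le _)]
      have := pow_le_one₀ (n := m) rho_pos.le rho_le_one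
      linarith
    linarith
  have h2 : 18 ≤ ‖GG w‖ := by
    unfold GG
    rw [norm_mul, norm_pow]
    have e1 : 2 ≤ ‖(79 / 100 : ℂ) - w‖ := by
      have e2 := norm_sub_norm_le w (79 / 100 : ℂ)
      rw [norm_sub_rev] at e2
      have e3 : ‖(79 / 100 : ℂ)‖ = 79 / 100 := by norm_num
      rw [e3] at e2
      linarith
    have e4 : 9 ≤ ‖w‖ ^ 2 := by nlinarith
    nlinarith
  rw [norm_pow] at h1
  have h3 : ‖GG w‖ ≤ ‖GG w‖ ^ m := le_self_pow₀ (by linarith) (by omega)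
  linarith

/-- the locally constant function separating the components -/
noncomputable def om (m : ℕ) (z : ℂ) : ℂ := GG z / Complex.exp (Complex.log (GG z ^ m) / m)

lemma slit {m : ℕ} (hm : Even m) {w : ℂ} (hw : w ∈ EE m) : GG w ^ m ∈ Complex.slitPlane := by
  left
  exact lt_of_lt_of_le (pow_pos rho_pos m) (mem_EE_re hm hw)

lemma om_cont {m : ℕ} (hm : Even m) : ContinuousOn (om m) (EE m) := by
  unfold om
  have hG : Continuous GG := by unfold GG; fun_prop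
  apply ContinuousOn.div
  · exact hG.continuousOn
  · apply Complex.continuous_exp.comp_continuousOn
    apply ContinuousOn.div_const
    intro w hw
    exact ((hG.pow m).continuousAt.clog (slit hm hw)).continuousWithinAt
  · intro w hw
    exact Complex.exp_ne_zero _

lemma om_pow {m : ℕ} (hm : Even m) (hm0 : 0 < m) {w : ℂ} (hw : w ∈ EE m) : om m w ^ m = 1 := by
  unfold om
  have hne : GG w ^ m ≠ 0 := Complex.slitPlane_ne_zero (slit hm hw)
  have hmne : (m : ℂ) ≠ 0 := by exact_mod_cast hm0.ne'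
  rw [div_pow, ← Complex.exp_nat_mul, mul_div_cancel₀ _ hmne, Complex.exp_log hne, div_self hne]

lemma om_const {m : ℕ} (hm : Even m) (hm0 : 0 < m) {S : Set ℂ} (hS : IsPreconnected S)
    (hSE : S ⊆ EE m) {x y : ℂ} (hx : x ∈ S) (hy : y ∈ S) : om m x = om m y := by
  have hfin : ({z : ℂ | z ^ m = 1} : Set ℂ).Finite := by
    have := (Polynomial.nthRoots m (1 : ℂ)).toFinset.finite_toSet
    refine this.subset ?_
    intro z hz
    simp only [Finset.mem_coe, Multiset.mem_toFinset]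
    rw [Polynomial.mem_nthRoots hm0]
    exact hz
  exact hS.constant_of_mapsTo (T := {z : ℂ | z ^ m = 1}) hfin.isDiscrete ((om_cont hm).mono hSE)
    (fun z hz => om_pow hm hm0 (hSE hz)) hx hy

/-- the angles -/
noncomputable def ta (m j : ℕ) : ℝ := 2 * π * j / m

lemma GG_pow_curve {m j : ℕ} (hm0 : 0 < m) {α : ℝ}
    (h1 : π / 200 ≤ ta m j) (h2 : ta m j ≤ π / 100) (h3 : ta m j / 2 + 1 / 10000 ≤ α)
    (h4 : α ≤ π / 4) : GG (zc (ta m j) α) ^ m = ((rr (ta m j) α ^ m : ℝ) : ℂ) := by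
  rw [GG_eq _ _ (sinb_pos h1 h2 h3 h4).ne', mul_pow, ← Complex.exp_nat_mul]
  have : (m : ℂ) * ((ta m j : ℂ) * Complex.I) = (j : ℂ) * (2 * π * Complex.I) := by
    unfold ta
    have hmne : (m : ℂ) ≠ 0 := by exact_mod_cast hm0.ne'
    push_cast
    field_simp
  rw [this, Complex.exp_nat_mul_two_pi_mul_I, mul_one]
  push_cast
  rfl

lemma curve_mem {m j : ℕ} (hm : Even m) (hm0 : 0 < m) {α : ℝ}
    (h1 : π / 200 ≤ ta m j) (h2 : ta m j ≤ π / 100) (h3 : ta m j / 2 + 1 / 10000 ≤ α)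
    (h4 : α ≤ π / 4) : zc (ta m j) α ∈ EE m := by
  show ‖(PP m).eval _‖ ≤ 1
  rw [PP_eval hm, GG_pow_curve hm0 h1 h2 h3 h4]
  have e : ((rr (ta m j) α ^ m : ℝ) : ℂ) - (1 + ((rho ^ m : ℝ) : ℂ)) =
      ((rr (ta m j) α ^ m - (1 + rho ^ m) : ℝ) : ℂ) := by push_cast; ring
  rw [e, Complex.norm_real, Real.norm_eq_abs, abs_le]
  have k1 : rho ^ m ≤ rr (ta m j) α ^ m := pow_le_pow_left₀ rho_pos.le (rr_ge h1 h2 h3 h4) m
  have k2 : rr (ta m j) α ^ m ≤ 1 :=
    pow_le_one₀ (rho_pos.le.trans (rr_ge h1 h2 h3 h4)) (rr_le h1 h2 h3 h4)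
  have k3 : 0 < rho ^ m := pow_pos rho_pos m
  constructor <;> linarith

lemma om_curve {m j : ℕ} (hm0 : 0 < m) {α : ℝ}
    (h1 : π / 200 ≤ ta m j) (h2 : ta m j ≤ π / 100) (h3 : ta m j / 2 + 1 / 10000 ≤ α)
    (h4 : α ≤ π / 4) : om m (zc (ta m j) α) = Complex.exp (ta m j * Complex.I) := by
  unfold om
  rw [GG_pow_curve hm0 h1 h2 h3 h4, GG_eq _ _ (sinb_pos h1 h2 h3 h4).ne']
  have hr : 0 < rr (ta m j) α := rho_pos.trans_le (rr_ge h1 h2 h3 h4)
  have hmne : (m : ℝ) ≠ 0 := by exact_mod_cast hm0.ne'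
  have : Complex.exp (Complex.log ((rr (ta m j) α ^ m : ℝ) : ℂ) / m) = ((rr (ta m j) α : ℝ) : ℂ) := by
    rw [← Complex.ofReal_log (by positivity), Real.log_pow]
    have e : (((m : ℝ) * Real.log (rr (ta m j) α) : ℝ) : ℂ) / (m : ℂ) = ((Real.log (rr (ta m j) α) : ℝ) : ℂ) := by
      rw [Complex.ofReal_mul]
      have : (m : ℂ) ≠ 0 := by exact_mod_cast hm0.ne'
      rw [Complex.ofReal_natCast]
      field_simp
    rw [e, ← Complex.ofReal_exp, Real.exp_log hr]
  rw [this]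
  have hr' : ((rr (ta m j) α : ℝ) : ℂ) ≠ 0 := by exact_mod_cast hr.ne'
  field_simp

lemma ta_bounds {K j : ℕ} (hK : 0 < K) (h1 : K ≤ j) (h2 : j < 2 * K) :
    π / 200 ≤ ta (400 * K) j ∧ ta (400 * K) j ≤ π / 100 := by
  have hp := Real.pi_pos
  have hK' : (0 : ℝ) < K := by exact_mod_cast hK
  have h1' : (K : ℝ) ≤ j := by exact_mod_cast h1
  have h2' : (j : ℝ) ≤ 2 * K := by exact_mod_cast h2.le
  unfold ta
  push_cast
  constructor
  · rw [le_div_iff₀ (by positivity)]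
    nlinarith [mul_le_mul_of_nonneg_left h1' hp.le]
  · rw [div_le_iff₀ (by positivity)]
    nlinarith [mul_le_mul_of_nonneg_left h2' hp.le]

/-- the component number `j` -/
noncomputable def comp (m j : ℕ) : Set ℂ := connectedComponentIn (EE m) (zc (ta m j) (π / 4))

lemma comp_diam {m j : ℕ} (hm : Even m) (hm0 : 0 < m)
    (h1 : π / 200 ≤ ta m j) (h2 : ta m j ≤ π / 100) : 1 + 1 / 100 < Metric.diam (comp m j) := by
  have hp := Real.pi_gt_three
  have ht := tau_bounds h1 h2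
  have hle : ta m j / 2 + 1 / 10000 ≤ π / 4 := by linarith
  have hsub : zc (ta m j) '' Set.Icc (ta m j / 2 + 1 / 10000) (π / 4) ⊆ comp m j := by
    apply IsPreconnected.subset_connectedComponentIn
    · exact isPreconnected_Icc.image _ (zc_cont h1 h2)
    · exact ⟨π / 4, ⟨hle, le_rfl⟩, rfl⟩
    · rintro _ ⟨α, hα, rfl⟩
      exact curve_mem hm hm0 h1 h2 hα.1 hα.2
  have hb : Bornology.IsBounded (comp m j) :=
    (EE_bounded hm hm0).subset (connectedComponentIn_subset _ _)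
  have hd := Metric.dist_le_diam_of_mem hb (hsub ⟨π / 4, ⟨hle, le_rfl⟩, rfl⟩)
    (hsub ⟨ta m j / 2 + 1 / 10000, ⟨le_rfl, hle⟩, rfl⟩)
  rw [dist_eq_norm] at hd
  have h3 := norm_sub_norm_le (zc (ta m j) (π / 4)) (zc (ta m j) (ta m j / 2 + 1 / 10000))
  have h4 := far h1 h2
  have h5 := near h1 h2
  linarith

lemma comp_inj {K i j : ℕ} (hK : 0 < K) (hi : K ≤ i ∧ i < 2 * K) (hj : K ≤ j ∧ j < 2 * K)
    (h : comp (400 * K) i = comp (400 * K) j) : i = j := by
  have hm : Even (400 * K) := ⟨200 * K, by ring⟩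
  have hm0 : 0 < 400 * K := by omega
  have bi := ta_bounds hK hi.1 hi.2
  have bj := ta_bounds hK hj.1 hj.2
  have hp := Real.pi_gt_three
  have hti := tau_bounds bi.1 bi.2
  have htj := tau_bounds bj.1 bj.2
  have hle : ta (400 * K) i / 2 + 1 / 10000 ≤ π / 4 := by linarith
  have hle' : ta (400 * K) j / 2 + 1 / 10000 ≤ π / 4 := by linarith
  have m1 : zc (ta (400 * K) i) (π / 4) ∈ comp (400 * K) i :=
    mem_connectedComponentIn (curve_mem hm hm0 bi.1 bi.2 hle le_rfl)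
  have m2 : zc (ta (400 * K) j) (π / 4) ∈ comp (400 * K) i := by
    rw [h]
    exact mem_connectedComponentIn (curve_mem hm hm0 bj.1 bj.2 hle' le_rfl)
  have e := om_const hm hm0 isPreconnected_connectedComponentIn (connectedComponentIn_subset _ _) m1 m2
  rw [om_curve hm0 bi.1 bi.2 hle le_rfl, om_curve hm0 bj.1 bj.2 hle' le_rfl] at e
  have him := congrArg Complex.im e
  rw [Complex.exp_ofReal_mul_I_im, Complex.exp_ofReal_mul_I_im] at him
  have hs : ta (400 * K) i = ta (400 * K) j :=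
    Real.injOn_sin ⟨by linarith, by linarith⟩ ⟨by linarith, by linarith⟩ him
  unfold ta at hs
  have hmr : ((400 * K : ℕ) : ℝ) ≠ 0 := by exact_mod_cast hm0.ne'
  have hp' := Real.pi_pos
  rw [div_left_inj' hmr] at hs
  have h2 : (i : ℝ) = j := mul_left_cancel₀ (by positivity : (2 * π : ℝ) ≠ 0) hs
  exact_mod_cast h2

/-- The negation of the preceding statement: For every c>0 and ε>0, for all large n, every monic complex polynomial of degree n has at most εn connected components of {∣f∣≤1} with diameter greater than 1+c. -/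
theorem result :
    ¬ (∀ c : ℝ, 0 < c → ∀ ε : ℝ, 0 < ε → ∃ N : ℕ, ∀ n : ℕ, N ≤ n →
      ∀ f : Polynomial ℂ, f.Monic → f.natDegree = n →
        ∀ s : Finset (Set ℂ),
          (∀ C ∈ s, (∃ z : ℂ, ‖f.eval z‖ ≤ 1 ∧
              connectedComponentIn {w : ℂ | ‖f.eval w‖ ≤ 1} z = C) ∧
            1 + c < Metric.diam C) →
          (s.card : ℝ) ≤ ε * (n : ℝ)) := by
  classical
  intro H
  obtain ⟨N, hN⟩ := H (1 / 100) (by norm_num) (1 / 2400) (by norm_num)
  obtain ⟨K, hKd⟩ : ∃ K, K = N + 1 := ⟨_, rfl⟩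
  have hK : 0 < K := by omega
  have hm : Even (400 * K) := ⟨200 * K, by ring⟩
  have hm0 : 0 < 400 * K := by omega
  have h := hN (3 * (400 * K)) (by omega) (PP (400 * K)) (PP_monic _ hm0) (PP_natDegree _)
    ((Finset.Ico K (2 * K)).image (comp (400 * K))) (by
      intro C hC
      rw [Finset.mem_image] at hC
      obtain ⟨j, hj, rfl⟩ := hC
      rw [Finset.mem_Ico] at hj
      have bj := ta_bounds hK hj.1 hj.2
      have hp := Real.pi_gt_three
      have htj := tau_bounds bj.1 bj.2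
      refine ⟨⟨zc (ta (400 * K) j) (π / 4), ?_, rfl⟩, comp_diam hm hm0 bj.1 bj.2⟩
      exact curve_mem hm hm0 bj.1 bj.2 (by linarith) le_rfl)
  rw [Finset.card_image_of_injOn, Nat.card_Ico] at h
  · have e : 2 * K - K = K := by omega
    rw [e] at h
    push_cast at h
    have hK' : (0 : ℝ) < K := by exact_mod_cast hK
    linarith
  · intro i hi j hj hij
    simp only [Finset.coe_Ico, Set.mem_Ico] at hi hj
    exact comp_inj hK hi hj hij

end Pool.Agent.S03216
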