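import Pool.Statements.S03220
-- import your own Pool.Agent.* helpers here

set_option autoImplicit false
open Pool Pool.MP_529e31_an

namespace Pool.Agent.S03220

/-- the exponents -/
def mm (r n : ℕ) : ℕ := 8 * r ^ 2 + 2 * n + 2

/-- the radii -/
def rr : ℕ → ℕ
  | 0 => 1
  | n + 1 => 4 * (mm (rr n) n) ^ 2

theorem rr_lt (n : ℕ) : rr n < rr (n + 1) := by
  show rr n < 4 * (mm (rr n) n) ^ 2
  have h : rr n ≤ mm (rr n) n := by
    unfold mm
    nlinarith [Nat.zero_le (rr n)]
  have h2 : 2 ≤ mm (rr n) n := by unfold mm; omega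
  nlinarith

theorem rr_mono : StrictMono rr := strictMono_nat_of_lt_succ rr_lt

theorem le_rr (n : ℕ) : n + 1 ≤ rr n := by
  induction n with
  | zero => exact le_rfl
  | succ n ih => have := rr_lt n; omega

theorem pow_le_exp (m : ℕ) (x : ℝ) (hm : 1 ≤ m) (hx : 4 * (m : ℝ) ^ 2 ≤ x) : x ^ m ≤ Real.exp x := by
  have hm' : (1 : ℝ) ≤ m := by exact_mod_cast hm
  have hx0 : 0 < x := by nlinarith
  have hs0 : 0 < Real.sqrt x := Real.sqrt_pos.2 hx0
  have h1 : Real.log x = 2 * Real.log (Real.sqrt x) := by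
    rw [Real.log_sqrt hx0.le]; ring
  have h2 : Real.log (Real.sqrt x) ≤ Real.sqrt x - 1 := Real.log_le_sub_one_of_pos hs0
  have h3 : 2 * (m : ℝ) ≤ Real.sqrt x := by
    apply Real.le_sqrt_of_sq_le
    nlinarith
  have h4 : Real.sqrt x * Real.sqrt x = x := Real.mul_self_sqrt hx0.le
  have h5 : (m : ℝ) * Real.log x ≤ x := by
    rw [h1]
    nlinarith
  calc x ^ m = Real.exp (m * Real.log x) := by
        rw [← Real.log_pow, Real.exp_log (by positivity)]
    _ ≤ Real.exp x := Real.exp_le_exp.2 h5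

/-- The negation of the preceding statement: For every ρ>0 and S in ℂ: if each entire f of order ρ finite type is bounded on S iff bounded on ℂ, then for each weight k in K_ρ there are k' in K_ρ and C>0 with ∣f∣≤k' on S implying ∣f∣≤Ck on ℂ (S sufficient). -/
theorem result :
    ¬ (∀ ρ : ℝ, 0 < ρ → ∀ S : Set ℂ,
      (∀ f : ℂ → ℂ, Differentiable ℂ f →
        (∃ A B : ℝ, 0 < A ∧ 0 < B ∧ ∀ z : ℂ, ‖f z‖ ≤ B * Real.exp (A * ‖z‖ ^ ρ)) →
        (Bornology.IsBounded (f '' S) ↔ Bornology.IsBounded (Set.range f))) →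
      ∀ k : ℂ → ℝ, Continuous k → (∀ z : ℂ, 0 < k z) →
        (∀ A : ℝ, 0 < A →
          Asymptotics.IsLittleO (Filter.cocompact ℂ) (fun z : ℂ => Real.exp (A * ‖z‖ ^ ρ)) k) →
        ∃ k' : ℂ → ℝ, Continuous k' ∧ (∀ z : ℂ, 0 < k' z) ∧
          (∀ A : ℝ, 0 < A →
            Asymptotics.IsLittleO (Filter.cocompact ℂ) (fun z : ℂ => Real.exp (A * ‖z‖ ^ ρ)) k') ∧
          ∃ C : ℝ, 0 < C ∧
            ∀ f : ℂ → ℂ, Differentiable ℂ f →
              (∃ A B : ℝ, 0 < A ∧ 0 < B ∧ ∀ z : ℂ, ‖f z‖ ≤ B * Real.exp (A * ‖z‖ ^ ρ)) →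
              (∀ z ∈ S, ‖f z‖ ≤ k' z) → ∀ z : ℂ, ‖f z‖ ≤ C * k z) := by
  intro hall
  have hmain := hall 1 one_pos {z | ∃ n, ‖z‖ = rr n} ?_
    (fun z => Real.exp (‖z‖ ^ 2)) (by fun_prop) (fun z => Real.exp_pos _) ?_
  · -- contradiction
    obtain ⟨k', hk'c, hk'0, hk'o, C, hC, hf⟩ := hmain
    have hev : ∀ᶠ z in Filter.cocompact ℂ, Real.exp ‖z‖ ≤ k' z := by
      have h1 := (hk'o 1 one_pos).bound (c := 1) one_pos
      filter_upwards [h1] with z hz
      rw [one_mul, one_mul, Real.rpow_one, Real.norm_eq_abs, Real.norm_eq_abs,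
        abs_of_pos (Real.exp_pos _), abs_of_pos (hk'0 z)] at hz
      exact hz
    obtain ⟨t, ht, hts⟩ := Filter.mem_cocompact.1 hev
    obtain ⟨R0, hR0⟩ := ht.isBounded.exists_norm_le
    obtain ⟨δ, hδ0, hδ1, hδ⟩ : ∃ δ : ℝ, 0 < δ ∧ δ ≤ 1 ∧ ∀ z, δ ≤ k' z := by
      rcases t.eq_empty_or_nonempty with he | hne
      · refine ⟨1, one_pos, le_rfl, fun z => ?_⟩
        have : z ∈ tᶜ := by rw [he]; simp
        exact (Real.one_le_exp (norm_nonneg z)).trans (hts this)
      · obtain ⟨z0, _, hmin⟩ := ht.exists_isMinOn hne hk'c.continuousOn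
        refine ⟨min 1 (k' z0), lt_min one_pos (hk'0 z0), min_le_left _ _, fun z => ?_⟩
        by_cases hz : z ∈ t
        · exact (min_le_right _ _).trans (hmin hz)
        · exact (min_le_left _ _).trans ((Real.one_le_exp (norm_nonneg z)).trans (hts hz))
    obtain ⟨n, hn⟩ := exists_nat_gt (max R0 (C / δ))
    have hn1 : R0 < n := (le_max_left _ _).trans_lt hn
    have hn2 : C / δ < n := (le_max_right _ _).trans_lt hn
    set r : ℕ := rr n with hr
    set m : ℕ := mm r n with hm
    have hnr : (n : ℝ) + 1 ≤ r := by exact_mod_cast le_rr n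
    have hn0 : (0 : ℝ) ≤ n := Nat.cast_nonneg n
    have hr1 : (1 : ℝ) ≤ r := by linarith
    have hr0 : (0 : ℝ) < r := by linarith
    have hm1 : 1 ≤ m := by rw [hm, mm]; omega
    have key := hf (fun z => (δ : ℂ) * (z / r) ^ m) (by fun_prop) ?_ ?_ (2 * r)
    · -- contradiction at the point `2 r`
      have e1 : ‖(δ : ℂ) * ((2 * r : ℂ) / r) ^ m‖ = δ * 2 ^ m := by
        have : (2 * r : ℂ) / r = 2 := by
          have : (r : ℂ) ≠ 0 := by exact_mod_cast hr0.ne'
          field_simp
        rw [this, norm_mul, norm_pow, Complex.norm_real, Real.norm_eq_abs, abs_of_pos hδ0]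
        simp
      have e2 : ‖(2 * r : ℂ)‖ = 2 * r := by
        rw [norm_mul]; simp
      simp only [e1, e2] at key
      have h2 : Real.exp ((m : ℝ) / 2) ≤ 2 ^ m := by
        have h3 : Real.exp (1 / 2) ≤ 2 := by
          have h4 : Real.exp (1 / 2) ^ 2 ≤ 2 ^ 2 := by
            rw [← Real.exp_nat_mul]
            have := Real.exp_one_lt_d9
            norm_num
            linarith
          exact (pow_le_pow_iff_left₀ (Real.exp_pos _).le (by norm_num) (by norm_num)).1 h4
        calc Real.exp ((m : ℝ) / 2) = Real.exp (1 / 2) ^ m := by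
              rw [← Real.exp_nat_mul]; ring_nf
          _ ≤ 2 ^ m := pow_le_pow_left₀ (Real.exp_pos _).le h3 m
      have h5 : (m : ℝ) / 2 = (2 * r) ^ 2 + (n + 1) := by
        rw [hm, mm]; push_cast; ring
      rw [h5, Real.exp_add] at h2
      have h6 : (n : ℝ) + 1 + 1 ≤ Real.exp (n + 1) := Real.add_one_le_exp _
      have h7 : C < δ * (n + 1 + 1) := by
        rw [div_lt_iff₀ hδ0] at hn2
        nlinarith
      have h8 : 0 < Real.exp ((2 * (r : ℝ)) ^ 2) := Real.exp_pos _
      have h9 : C * Real.exp ((2 * (r : ℝ)) ^ 2) < δ * 2 ^ m := by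
        calc C * Real.exp ((2 * (r : ℝ)) ^ 2) < δ * (n + 1 + 1) * Real.exp ((2 * (r : ℝ)) ^ 2) :=
              mul_lt_mul_of_pos_right h7 h8
          _ ≤ δ * (Real.exp ((2 * (r : ℝ)) ^ 2) * Real.exp (n + 1)) := by
              rw [mul_assoc]
              refine mul_le_mul_of_nonneg_left ?_ hδ0.le
              rw [mul_comm]
              exact mul_le_mul_of_nonneg_left h6 h8.le
          _ ≤ δ * 2 ^ m := mul_le_mul_of_nonneg_left h2 hδ0.le
      linarith
    · -- growth
      refine ⟨1, δ * (m.factorial : ℝ), one_pos, by positivity, fun z => ?_⟩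
      rw [norm_mul, norm_pow, Complex.norm_real, Real.norm_eq_abs, abs_of_pos hδ0, mul_assoc,
        one_mul, Real.rpow_one]
      refine mul_le_mul_of_nonneg_left ?_ hδ0.le
      have h1 : ‖z / (r : ℂ)‖ ≤ ‖z‖ := by
        rw [norm_div]
        have : ‖(r : ℂ)‖ = r := by simp
        rw [this]
        exact div_le_self (norm_nonneg _) hr1
      have h2 : ‖z / (r : ℂ)‖ ^ m ≤ ‖z‖ ^ m := pow_le_pow_left₀ (norm_nonneg _) h1 m
      have h3 := Real.pow_div_factorial_le_exp ‖z‖ (norm_nonneg z) m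
      rw [div_le_iff₀ (by positivity)] at h3
      linarith
    · -- bound on the circles
      rintro z ⟨j, hj⟩
      have e1 : ‖(δ : ℂ) * (z / r) ^ m‖ = δ * (rr j / r) ^ m := by
        rw [norm_mul, norm_pow, Complex.norm_real, Real.norm_eq_abs, abs_of_pos hδ0, norm_div, hj]
        simp
      rw [e1]
      rcases le_or_gt j n with hjn | hjn
      · have h1 : (rr j : ℝ) / r ≤ 1 := by
          rw [div_le_one hr0]
          exact_mod_cast rr_mono.monotone hjn
        have h2 : ((rr j : ℝ) / r) ^ m ≤ 1 := pow_le_one₀ (by positivity) h1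
        have := hδ z
        nlinarith
      · have h1 : rr (n + 1) ≤ rr j := rr_mono.monotone hjn
        have h2 : 4 * (m : ℝ) ^ 2 ≤ rr j := by
          have : 4 * m ^ 2 ≤ rr j := h1
          exact_mod_cast this
        have h3 := pow_le_exp m (rr j) hm1 h2
        have h4 : ((rr j : ℝ) / r) ^ m ≤ (rr j : ℝ) ^ m :=
          pow_le_pow_left₀ (by positivity) (div_le_self (Nat.cast_nonneg _) hr1) m
        have h5 : z ∈ tᶜ := by
          intro hzt
          have h6 := hR0 z hzt
          rw [hj] at h6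
          have h7 : (r : ℝ) ≤ rr j := by exact_mod_cast (rr_mono hjn).le
          linarith
        have h8 : Real.exp ‖z‖ ≤ k' z := hts h5
        rw [hj] at h8
        have h9 : 0 ≤ ((rr j : ℝ) / r) ^ m := by positivity
        nlinarith
  · -- the maximum principle
    intro f hfd _
    constructor
    · intro hb
      obtain ⟨M, hM⟩ := hb.exists_norm_le
      rw [isBounded_iff_forall_norm_le]
      refine ⟨M, ?_⟩
      rintro _ ⟨z, rfl⟩
      obtain ⟨n, hn⟩ := exists_nat_gt ‖z‖
      have hrn : (n : ℝ) + 1 ≤ rr n := by exact_mod_cast le_rr n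
      have hzr : ‖z‖ < rr n := by linarith
      refine Complex.norm_le_of_forall_mem_frontier_norm_le (U := Metric.ball 0 (rr n : ℝ))
        Metric.isBounded_ball hfd.diffContOnCl ?_ (subset_closure (by simpa using hzr))
      intro w hw
      have hr0 : (rr n : ℝ) ≠ 0 := by
        have : (0 : ℝ) ≤ ‖z‖ := norm_nonneg z
        linarith
      rw [frontier_ball 0 hr0, mem_sphere_zero_iff_norm] at hw
      exact hM _ ⟨w, ⟨n, hw⟩, rfl⟩
    · intro hb
      exact hb.subset (Set.image_subset_range _ _)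
  · -- the weight
    intro A hA
    simp only [Real.rpow_one]
    rw [Real.isLittleO_exp_comp_exp_comp]
    have h1 : Filter.Tendsto (fun x : ℝ => x ^ 2 - A * x) Filter.atTop Filter.atTop := by
      have : (fun x : ℝ => x ^ 2 - A * x) = fun x => x * (x - A) := by
        funext x; ring
      rw [this]
      exact Filter.tendsto_id.atTop_mul_atTop₀
        (Filter.tendsto_atTop_add_const_right _ (-A) Filter.tendsto_id)
    exact h1.comp (tendsto_norm_cocompact_atTop (E := ℂ))

end Pool.Agent.S03220
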