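import Pool.Statements.S03239
import Pool.Agent.Helper8.Cantorval

set_option autoImplicit false
open Pool Pool.MP_555292_an

namespace Pool.Agent.S03239

/-- There is a positive summable x with each term exceeding its tail sum, such that the set of all its subsums together with the gaps removed at odd construction steps equals the set of all subsums of some positive summable sequence. -/
theorem result :
    ∃ x : ℕ → ℝ, (∀ n, 0 < x n) ∧ Summable x ∧
      (∀ n, ∑' k, x (n + 1 + k) < x n) ∧
      ∃ y : ℕ → ℝ, (∀ n, 0 < y n) ∧ Summable y ∧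
        {s : ℝ | ∃ A : Set ℕ, s = ∑' n, A.indicator y n} =
          {s : ℝ | ∃ A : Set ℕ, s = ∑' n, A.indicator x n} ∪
          {t : ℝ | ∃ n : ℕ, Even n ∧ ∃ F : Finset ℕ, F ⊆ Finset.range n ∧
              (∑ i ∈ F, x i) + (∑' k, x (n + 1 + k)) < t ∧
              t < (∑ i ∈ F, x i) + x n} := by
  refine ⟨Pool.Agent.Helper8.Cantorval.x, Pool.Agent.Helper8.Cantorval.x_pos,
    Pool.Agent.Helper8.Cantorval.x_summable, Pool.Agent.Helper8.Cantorval.T_lt,
    Pool.Agent.Helper8.Cantorval.z, Pool.Agent.Helper8.Cantorval.z_pos,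
    Pool.Agent.Helper8.Cantorval.z_summable, ?_⟩
  exact Pool.Agent.Helper8.Cantorval.Sz_eq

end Pool.Agent.S03239
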