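import Pool.Statements.S03258
import Mathlib
import Pool.Agent.Helper9.HillMain

set_option autoImplicit false
open Pool Pool.MP_5876d3_an

namespace Pool.Agent.S03258

/-- The negation of the preceding statement: For any locally integrable complex a-periodic q, if the zero order of (tr M)^2-4 at z exceeds the sum of the minimal (over base points in [0,a]) Dirichlet and Neumann zero orders at z, then that sum is 0. -/
theorem result :
    ¬ (∀ (a : ℝ), 0 < a → ∀ q : ℝ → ℂ, Function.Periodic q a →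
    MeasureTheory.LocallyIntegrable q MeasureTheory.volume →
    ∀ c dc s ds : ℝ → ℂ → ℝ → ℂ,
    (∀ (x₀ : ℝ) (z : ℂ), Continuous (c x₀ z) ∧ Continuous (dc x₀ z) ∧
      Continuous (s x₀ z) ∧ Continuous (ds x₀ z) ∧
      ∀ x : ℝ,
        (c x₀ z x = 1 + ∫ t in x₀..x, dc x₀ z t) ∧
        (dc x₀ z x = ∫ t in x₀..x, (q t - z) * c x₀ z t) ∧
        (s x₀ z x = ∫ t in x₀..x, ds x₀ z t) ∧
        (ds x₀ z x = 1 + ∫ t in x₀..x, (q t - z) * s x₀ z t)) →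
    ∀ z : ℂ,
      (⨅ x₀ ∈ Set.Icc (0 : ℝ) a, analyticOrderAt (fun w : ℂ => s x₀ w (x₀ + a)) z) +
        (⨅ x₀ ∈ Set.Icc (0 : ℝ) a, analyticOrderAt (fun w : ℂ => dc x₀ w (x₀ + a)) z)
        < analyticOrderAt (fun w : ℂ => (c 0 w a + ds 0 w a) ^ 2 - 4) z →
      (⨅ x₀ ∈ Set.Icc (0 : ℝ) a, analyticOrderAt (fun w : ℂ => s x₀ w (x₀ + a)) z) +
        (⨅ x₀ ∈ Set.Icc (0 : ℝ) a, analyticOrderAt (fun w : ℂ => dc x₀ w (x₀ + a)) z) = 0) := by
  intro H
  have hpi : (0:ℝ) < 2 * Real.pi := by positivity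
  have h := H (2 * Real.pi) hpi Pool.Agent.Helper9.Hill.q Pool.Agent.Helper9.Hill.q_per
    Pool.Agent.Helper9.Hill.q_cont.locallyIntegrable
    (fun x₀ z x => Pool.Agent.Helper9.Hill.u x₀ (Pool.Agent.Helper9.Hill.ec x₀) z x)
    (fun x₀ z x => Pool.Agent.Helper9.Hill.du x₀ (Pool.Agent.Helper9.Hill.ec x₀) z x)
    (fun x₀ z x => Pool.Agent.Helper9.Hill.u x₀ (Pool.Agent.Helper9.Hill.es x₀) z x)
    (fun x₀ z x => Pool.Agent.Helper9.Hill.du x₀ (Pool.Agent.Helper9.Hill.es x₀) z x)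
    (by
      intro x₀ z
      refine ⟨Pool.Agent.Helper9.Hill.u_cont _ _ _, Pool.Agent.Helper9.Hill.du_cont _ _ _,
        Pool.Agent.Helper9.Hill.u_cont _ _ _, Pool.Agent.Helper9.Hill.du_cont _ _ _, ?_⟩
      intro x
      refine ⟨?_, ?_, ?_, ?_⟩
      · have := Pool.Agent.Helper9.Hill.u_int x₀ (Pool.Agent.Helper9.Hill.ec x₀) z x
        rwa [Pool.Agent.Helper9.Hill.c_init] at this
      · have := Pool.Agent.Helper9.Hill.du_int x₀ (Pool.Agent.Helper9.Hill.ec x₀) z x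
        rwa [Pool.Agent.Helper9.Hill.dc_init, zero_add] at this
      · have := Pool.Agent.Helper9.Hill.u_int x₀ (Pool.Agent.Helper9.Hill.es x₀) z x
        rwa [Pool.Agent.Helper9.Hill.s_init, zero_add] at this
      · have := Pool.Agent.Helper9.Hill.du_int x₀ (Pool.Agent.Helper9.Hill.es x₀) z x
        rwa [Pool.Agent.Helper9.Hill.ds_init] at this)
    0
  have hmem : Real.pi / 2 ∈ Set.Icc (0 : ℝ) (2 * Real.pi) := by
    constructor <;> linarith [Real.pi_pos]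
  have hs_le : (⨅ x₀ ∈ Set.Icc (0 : ℝ) (2 * Real.pi), analyticOrderAt (fun w : ℂ =>
      (fun x₀ z x => Pool.Agent.Helper9.Hill.u x₀ (Pool.Agent.Helper9.Hill.es x₀) z x) x₀ w
        (x₀ + 2 * Real.pi)) 0) ≤ 1 := by
    refine (iInf₂_le (Real.pi / 2) hmem).trans ?_
    obtain ⟨R, hR, hs⟩ := Pool.Agent.Helper9.Hill.s_expand (Real.pi / 2)
    simp only [hs]
    exact (Pool.Agent.Helper9.Hill.order_eq (mul_ne_zero Pool.Agent.Helper9.Hill.Bc_ne
      (pow_ne_zero 2 (Pool.Agent.Helper9.Hill.phi_ne _))) R hR).le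
  have hs_ge : 1 ≤ (⨅ x₀ ∈ Set.Icc (0 : ℝ) (2 * Real.pi), analyticOrderAt (fun w : ℂ =>
      (fun x₀ z x => Pool.Agent.Helper9.Hill.u x₀ (Pool.Agent.Helper9.Hill.es x₀) z x) x₀ w
        (x₀ + 2 * Real.pi)) 0) := by
    refine le_iInf₂ (fun x₀ _ => ?_)
    obtain ⟨R, hR, hs⟩ := Pool.Agent.Helper9.Hill.s_expand x₀
    simp only [hs]
    exact Pool.Agent.Helper9.Hill.order_ge _ R hR
  have hd_le : (⨅ x₀ ∈ Set.Icc (0 : ℝ) (2 * Real.pi), analyticOrderAt (fun w : ℂ =>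
      (fun x₀ z x => Pool.Agent.Helper9.Hill.du x₀ (Pool.Agent.Helper9.Hill.ec x₀) z x) x₀ w
        (x₀ + 2 * Real.pi)) 0) ≤ 1 := by
    refine (iInf₂_le (Real.pi / 2) hmem).trans ?_
    obtain ⟨R, hR, hs⟩ := Pool.Agent.Helper9.Hill.dc_expand (Real.pi / 2)
    simp only [hs]
    exact (Pool.Agent.Helper9.Hill.order_eq (neg_ne_zero.2 (mul_ne_zero
      Pool.Agent.Helper9.Hill.Bc_ne
      (pow_ne_zero 2 Pool.Agent.Helper9.Hill.dphi_half))) R hR).le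
  have hsum_lt : (⨅ x₀ ∈ Set.Icc (0 : ℝ) (2 * Real.pi), analyticOrderAt (fun w : ℂ =>
      (fun x₀ z x => Pool.Agent.Helper9.Hill.u x₀ (Pool.Agent.Helper9.Hill.es x₀) z x) x₀ w
        (x₀ + 2 * Real.pi)) 0) +
      (⨅ x₀ ∈ Set.Icc (0 : ℝ) (2 * Real.pi), analyticOrderAt (fun w : ℂ =>
      (fun x₀ z x => Pool.Agent.Helper9.Hill.du x₀ (Pool.Agent.Helper9.Hill.ec x₀) z x) x₀ w
        (x₀ + 2 * Real.pi)) 0) < analyticOrderAt (fun w : ℂ =>
      ((fun x₀ z x => Pool.Agent.Helper9.Hill.u x₀ (Pool.Agent.Helper9.Hill.ec x₀) z x) 0 w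
        (2 * Real.pi) +
      (fun x₀ z x => Pool.Agent.Helper9.Hill.du x₀ (Pool.Agent.Helper9.Hill.es x₀) z x) 0 w
        (2 * Real.pi)) ^ 2 - 4) 0 := by
    refine lt_of_lt_of_le (lt_of_le_of_lt (add_le_add hs_le hd_le) ?_)
      Pool.Agent.Helper9.Hill.disc_order
    norm_num
  have h0 := h hsum_lt
  rw [add_eq_zero] at h0
  have := h0.1
  rw [this] at hs_ge
  exact absurd hs_ge (by norm_num)

end Pool.Agent.S03258
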