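import Pool.Statements.S03308
-- import your own Pool.Agent.* helpers here

set_option autoImplicit false
open Pool Pool.MP_5e6479_an

namespace Pool.Agent.S03308

open Metric Set Filter Topology

/-- Harnack type inequality for a holomorphic function bounded away from zero on a disc. -/
theorem harnack {F : ℂ → ℂ} {p : ℂ} {R c M : ℝ} (hR : 0 < R) (hc : 0 < c)
    (hF : Differentiable ℂ F) (hlow : ∀ z ∈ ball p R, c ≤ ‖F z‖) (hp : ‖F p‖ ≤ M)
    {z : ℂ} (hz : ‖z - p‖ ≤ R / 2) :
    ‖F z‖ ≤ M * Real.exp (2 * (Real.log (M / c) + 1)) := by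
  have hcM : c ≤ M := le_trans (hlow p (mem_ball_self hR)) hp
  have hM : 0 < M := lt_of_lt_of_le hc hcM
  set M1 : ℝ := Real.log (M / c) + 1 with hM1
  have hM1pos : 0 < M1 := by
    have : 0 ≤ Real.log (M / c) := Real.log_nonneg (by rw [le_div_iff₀ hc]; linarith)
    linarith
  set G : ℂ → ℂ := fun w => F (p + w) with hG
  have hGd : Differentiable ℂ G := hF.comp (by fun_prop)
  have hGlow : ∀ w ∈ ball (0:ℂ) R, c ≤ ‖G w‖ := by
    intro w hw
    apply hlow
    rw [mem_ball, dist_eq_norm] at *
    simpa using hw
  have hGne : ∀ w ∈ ball (0:ℂ) R, G w ≠ 0 := by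
    intro w hw h0
    have := hGlow w hw
    rw [h0, norm_zero] at this
    linarith
  have hdG : Differentiable ℂ (deriv G) := by
    have := (hGd.differentiableOn (s := univ)).deriv isOpen_univ
    exact differentiableOn_univ.mp this
  have hlog : DifferentiableOn ℂ (fun w => deriv G w / G w) (ball 0 R) :=
    hdG.differentiableOn.div hGd.differentiableOn hGne
  obtain ⟨g, hg0, hg⟩ := hlog.isExactOn_ball.with_val_at 0 0
  have hconst : ∀ w ∈ ball (0:ℂ) R, G w * Complex.exp (-g w) = G 0 := by
    have hder : ∀ w ∈ ball (0:ℂ) R, HasDerivAt (fun w => G w * Complex.exp (-g w)) 0 w := by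
      intro w hw
      have h1 := (hGd w).hasDerivAt
      have h2 := (hg w hw).neg.cexp
      have h3 := h1.mul h2
      have hne := hGne w hw
      have h4 : deriv G w * Complex.exp (-g w) +
          G w * (Complex.exp (-g w) * -(deriv G w / G w)) = 0 := by
        field_simp
        ring
      exact HasDerivAt.congr_deriv h3 h4
    intro w hw
    have hconv : Convex ℝ (ball (0:ℂ) R) := convex_ball 0 R
    have := hconv.is_const_of_fderivWithin_eq_zero (𝕜 := ℂ) (f := fun w => G w * Complex.exp (-g w))
      (fun w hw => (hder w hw).differentiableAt.differentiableWithinAt)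
      (fun w hw => by
        rw [fderivWithin_of_isOpen isOpen_ball hw]
        have := (hder w hw).hasFDerivAt.fderiv
        rw [this]
        ext
        simp) hw (mem_ball_self hR)
    rw [this]
    simp [hg0]
  have hnorm : ∀ w ∈ ball (0:ℂ) R, ‖G w‖ = ‖G 0‖ * Real.exp ((g w).re) := by
    intro w hw
    have h1 := hconst w hw
    have h2 : G w = G 0 * Complex.exp (g w) := by
      rw [← h1, mul_assoc, ← Complex.exp_add]
      simp
    rw [h2, norm_mul, Complex.norm_exp]
  have hG0 : ‖G 0‖ ≤ M := by simpa [hG] using hp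
  have hG0' : 0 < ‖G 0‖ := lt_of_lt_of_le hc (hGlow 0 (mem_ball_self hR))
  have hre : Set.MapsTo (fun w => -g w) (ball 0 R) {z | z.re ≤ M1} := by
    intro w hw
    have h1 := hGlow w hw
    rw [hnorm w hw] at h1
    have h2 : c / M ≤ Real.exp ((g w).re) := by
      rw [div_le_iff₀ hM]
      calc c ≤ ‖G 0‖ * Real.exp ((g w).re) := h1
        _ ≤ M * Real.exp ((g w).re) := by gcongr
        _ = Real.exp ((g w).re) * M := by ring
    have h3 : Real.log (c / M) ≤ (g w).re := by
      rw [Real.log_le_iff_le_exp (by positivity)]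
      exact h2
    have h4 : Real.log (c / M) = - Real.log (M / c) := by
      rw [← Real.log_inv, inv_div]
    show (-g w).re ≤ M1
    rw [Complex.neg_re, hM1]
    linarith
  have hgd : DifferentiableOn ℂ (fun w => -g w) (ball 0 R) :=
    fun w hw => (hg w hw).neg.differentiableAt.differentiableWithinAt
  have hzR : (z - p) ∈ ball (0:ℂ) R := by
    rw [mem_ball_zero_iff]
    linarith
  have hbc := Complex.borelCaratheodory_zero hM1pos hgd hre hR hzR (by simp [hg0])
  have hb2 : ‖g (z - p)‖ ≤ 2 * M1 := by
    rw [norm_neg] at hbc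
    refine le_trans hbc ?_
    rw [div_le_iff₀ (by linarith)]
    nlinarith [norm_nonneg (z - p)]
  have hzz : F z = G (z - p) := by simp [hG]
  rw [hzz, hnorm _ hzR]
  have : (g (z - p)).re ≤ 2 * M1 := le_trans (Complex.re_le_norm _) hb2
  gcongr

theorem not_poly {h : ℂ → ℂ} (hne : ∀ z, h z ≠ 0) {a b : ℂ} (hab : h a ≠ h b) :
    ¬ ∃ p : Polynomial ℂ, ∀ z, h z = p.eval z := by
  rintro ⟨p, hp⟩
  by_cases hd : p.degree ≤ 0
  · rw [Polynomial.eq_C_of_degree_le_zero hd] at hp
    apply hab
    rw [hp a, hp b]
    simp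
  · obtain ⟨z, hz⟩ := Complex.exists_root (not_le.mp hd)
    apply hne z
    rw [hp z]
    exact hz

/-- The closed set. -/
def E0 : Set ℂ := {z | z.re ≤ 0} ∪ {z | Real.cos z.im = -1}

theorem E0_closed : IsClosed E0 := by
  apply IsClosed.union
  · exact isClosed_le Complex.continuous_re continuous_const
  · exact isClosed_eq (Real.continuous_cos.comp Complex.continuous_im) continuous_const

theorem cos_odd (k : ℤ) : Real.cos ((2 * k + 1) * Real.pi) = -1 := by
  have : ((2 * k + 1 : ℝ) * Real.pi) = Real.pi + k * (2 * Real.pi) := by ring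
  rw [this, Real.cos_add_int_mul_two_pi, Real.cos_pi]

theorem entire_const {h : ℂ → ℂ} (hd : Differentiable ℂ h) {M δ : ℝ}
    (hM : ∀ z ∈ E0, ‖h z‖ ≤ M) (hδ : 0 < δ) (hlow : ∀ z ∉ E0, δ ≤ ‖h z‖) :
    ∀ z, h z = h 0 := by
  have hpi := Real.pi_pos
  -- lower bound on the open right half plane
  have hlow' : ∀ z : ℂ, 0 < z.re → δ ≤ ‖h z‖ := by
    intro z hz
    by_cases hE : z ∈ E0
    · have hcos : Real.cos z.im = -1 := by
        rcases hE with h1 | h1
        · exact absurd h1 (not_le.mpr hz)
        · exact h1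
      have hsin : Real.sin z.im = 0 := by
        have := Real.sin_sq_add_cos_sq z.im
        rw [hcos] at this
        nlinarith
      have htend : Tendsto (fun t : ℝ => ‖h (z + t * Complex.I)‖) (𝓝[>] 0) (𝓝 ‖h z‖) := by
        have hc : Continuous (fun t : ℝ => ‖h (z + t * Complex.I)‖) := by
          have := hd.continuous
          fun_prop
        have := hc.tendsto 0
        simp only [Complex.ofReal_zero, zero_mul, add_zero] at this
        exact this.mono_left nhdsWithin_le_nhds
      refine ge_of_tendsto htend ?_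
      have : Ioo (0:ℝ) 1 ∈ 𝓝[>] (0:ℝ) := Ioo_mem_nhdsGT one_pos
      filter_upwards [this] with t ht
      apply hlow
      rintro (h1 | h1)
      · have : (z + t * Complex.I).re = z.re := by simp
        rw [mem_ofPred_eq, this] at h1
        linarith
      · have h2 : (z + t * Complex.I).im = z.im + t := by simp
        rw [mem_ofPred_eq, h2, Real.cos_add, hcos, hsin] at h1
        have h3 : Real.cos t = 1 := by linarith
        have h4 : Real.cos t < 1 := by
          rw [← Real.cos_zero]
          exact Real.cos_lt_cos_of_nonneg_of_le_pi_div_two le_rfl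
            (by nlinarith [ht.2, Real.pi_gt_three]) ht.1
        linarith
    · exact hlow z hE
  set K := M * Real.exp (2 * (Real.log (M / δ) + 1)) with hK
  have hright : ∀ z : ℂ, 2 * Real.pi ≤ z.re → ‖h z‖ ≤ K := by
    intro z hz
    set k : ℤ := ⌊z.im / (2 * Real.pi)⌋ with hk
    set p : ℂ := ⟨z.re, (2 * k + 1) * Real.pi⟩ with hp
    have h1 : (k:ℝ) ≤ z.im / (2 * Real.pi) := Int.floor_le _
    have h2 : z.im / (2 * Real.pi) < k + 1 := Int.lt_floor_add_one _
    rw [le_div_iff₀ (by positivity)] at h1
    rw [div_lt_iff₀ (by positivity)] at h2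
    have hzp : z - p = ((z.im - (2 * k + 1) * Real.pi : ℝ) : ℂ) * Complex.I := by
      apply Complex.ext <;> simp [hp]
    have hzp' : ‖z - p‖ ≤ Real.pi := by
      rw [hzp, norm_mul, Complex.norm_I, mul_one, Complex.norm_real, Real.norm_eq_abs, abs_le]
      constructor <;> linarith
    apply harnack (p := p) (R := 2 * Real.pi) (by positivity) hδ hd
    · intro w hw
      apply hlow'
      rw [mem_ball, dist_eq_norm] at hw
      have h3 : |(w - p).re| ≤ ‖w - p‖ := Complex.abs_re_le_norm _
      have h4 : (w - p).re = w.re - z.re := by simp [hp]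
      rw [h4, abs_le] at h3
      linarith
    · apply hM
      right
      exact cos_odd k
    · linarith
  have hall : ∀ z, ‖h z‖ ≤ max M K := by
    intro z
    rcases le_or_gt z.re 0 with h0 | h0
    · exact le_max_of_le_left (hM z (Or.inl h0))
    rcases le_or_gt (2 * Real.pi) z.re with h1 | h1
    · exact le_max_of_le_right (hright z h1)
    set k : ℤ := ⌊z.im / (2 * Real.pi)⌋ with hk
    have h2 : (k:ℝ) ≤ z.im / (2 * Real.pi) := Int.floor_le _
    have h3 : z.im / (2 * Real.pi) < k + 1 := Int.lt_floor_add_one _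
    rw [le_div_iff₀ (by positivity)] at h2
    rw [div_lt_iff₀ (by positivity)] at h3
    set U : Set ℂ := Ioo 0 (2 * Real.pi) ×ℂ Ioo ((2 * (k-1 : ℤ) + 1) * Real.pi) ((2 * (k+1 : ℤ) + 1) * Real.pi) with hU
    have hab : ((2 * ((k-1 : ℤ) : ℝ) + 1) * Real.pi) < ((2 * ((k+1 : ℤ) : ℝ) + 1) * Real.pi) := by
      push_cast
      nlinarith
    have hzU : z ∈ U := by
      rw [hU, Complex.mem_reProdIm]
      refine ⟨⟨h0, h1⟩, ?_, ?_⟩
      · push_cast; nlinarith
      · push_cast; nlinarith
    have hbdd : Bornology.IsBounded U := by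
      apply Bornology.IsBounded.reProdIm
      · exact isBounded_Ioo _ _
      · exact isBounded_Ioo _ _
    apply Complex.norm_le_of_forall_mem_frontier_norm_le hbdd hd.diffContOnCl _ (subset_closure hzU)
    intro w hw
    rw [hU, Complex.frontier_reProdIm, closure_Ioo (by positivity), frontier_Ioo hab,
      frontier_Ioo (by positivity : (0:ℝ) < 2 * Real.pi), closure_Ioo hab.ne] at hw
    rcases hw with hw | hw
    · rw [Complex.mem_reProdIm] at hw
      have hcos : Real.cos w.im = -1 := by
        rcases hw.2 with h4 | h4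
        · rw [h4]; exact cos_odd _
        · rw [mem_singleton_iff.mp h4]; exact cos_odd _
      exact le_max_of_le_left (hM w (Or.inr hcos))
    · rw [Complex.mem_reProdIm] at hw
      rcases hw.1 with h4 | h4
      · exact le_max_of_le_left (hM w (Or.inl h4.le))
      · exact le_max_of_le_right (hright w (mem_singleton_iff.mp h4).ge)
  intro z
  apply hd.apply_eq_apply_of_bounded
  rw [isBounded_iff_forall_norm_le]
  exact ⟨_, by rintro _ ⟨w, rfl⟩; exact hall w⟩

/-- The negation of the preceding statement: For every closed set E in ℂ: if some non-polynomial entire function is bounded on E and some non-polynomial entire function has modulus at least a positive constant off E, then a single non-polynomial entire function does both. -/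
theorem result :
    ¬ (∀ E : Set ℂ, IsClosed E →
      (∃ f : ℂ → ℂ, Differentiable ℂ f ∧
          (¬ ∃ p : Polynomial ℂ, ∀ z, f z = p.eval z) ∧
          ∃ M : ℝ, ∀ z ∈ E, ‖f z‖ ≤ M) →
      (∃ g : ℂ → ℂ, Differentiable ℂ g ∧
          (¬ ∃ p : Polynomial ℂ, ∀ z, g z = p.eval z) ∧
          ∃ δ : ℝ, 0 < δ ∧ ∀ z ∉ E, δ ≤ ‖g z‖) →
      ∃ h : ℂ → ℂ, Differentiable ℂ h ∧
          (¬ ∃ p : Polynomial ℂ, ∀ z, h z = p.eval z) ∧
          (∃ M : ℝ, ∀ z ∈ E, ‖h z‖ ≤ M) ∧
          ∃ δ : ℝ, 0 < δ ∧ ∀ z ∉ E, δ ≤ ‖h z‖) := by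
  intro H
  obtain ⟨h, hd, hnp, ⟨M, hM⟩, δ, hδ, hlow⟩ := H E0 E0_closed
    ⟨fun z => Complex.exp (Complex.exp z), by fun_prop,
      not_poly (fun z => Complex.exp_ne_zero _) (a := 0) (b := Real.pi * Complex.I) (by
        rw [Complex.exp_zero, Complex.exp_pi_mul_I]
        intro h
        have := congrArg norm h
        rw [Complex.norm_exp, Complex.norm_exp] at this
        have := Real.exp_injective this
        norm_num at this),
      Real.exp 1, by
        rintro z (hz | hz)
        · rw [Complex.norm_exp]
          apply Real.exp_le_exp.mpr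
          refine le_trans (Complex.re_le_norm _) ?_
          rw [Complex.norm_exp]
          exact Real.exp_le_one_iff.mpr hz
        · rw [Complex.norm_exp]
          apply Real.exp_le_exp.mpr
          rw [Complex.exp_re, hz]
          have := Real.exp_pos z.re
          linarith⟩
    ⟨Complex.exp, Complex.differentiable_exp,
      not_poly (fun z => Complex.exp_ne_zero _) (a := 0) (b := 1) (by
        intro h
        have := congrArg norm h
        rw [Complex.norm_exp, Complex.norm_exp] at this
        have := Real.exp_injective this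
        norm_num at this), 1, one_pos, by
        intro z hz
        rw [Complex.norm_exp]
        apply Real.one_le_exp
        by_contra h
        exact hz (Or.inl (not_le.mp h).le)⟩
  apply hnp
  refine ⟨Polynomial.C (h 0), fun z => ?_⟩
  rw [Polynomial.eval_C]
  exact entire_const hd hM hδ hlow z

end Pool.Agent.S03308
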