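import Pool.Statements.S03425

set_option autoImplicit false
open Pool Pool.MP_6eb165_an

namespace Pool.Agent.S03425

/-- the plane of triples with zero sum, with the sup norm -/
def XX : Submodule ℂ (Fin 3 → ℂ) where
  carrier := {w | w 0 + w 1 + w 2 = 0}
  add_mem' := by
    intro a b ha hb
    have ha' : a 0 + a 1 + a 2 = 0 := ha
    have hb' : b 0 + b 1 + b 2 = 0 := hb
    show (a + b) 0 + (a + b) 1 + (a + b) 2 = 0
    simp only [Pi.add_apply]
    linear_combination ha' + hb'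
  zero_mem' := by
    show (0 : Fin 3 → ℂ) 0 + (0 : Fin 3 → ℂ) 1 + (0 : Fin 3 → ℂ) 2 = 0
    simp
  smul_mem' := by
    intro c a ha
    have ha' : a 0 + a 1 + a 2 = 0 := ha
    show (c • a) 0 + (c • a) 1 + (c • a) 2 = 0
    simp only [Pi.smul_apply, smul_eq_mul]
    linear_combination c * ha'

/-- coordinate functional -/
noncomputable def fc (i : Fin 3) : XX →L[ℂ] ℂ :=
  (ContinuousLinearMap.proj (R := ℂ) (φ := fun _ : Fin 3 => ℂ) i).comp XX.subtypeL

theorem fc_apply (i : Fin 3) (x : XX) : fc i x = x.1 i := rfl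

theorem sum_zero (x : XX) : fc 0 x + fc 1 x + fc 2 x = 0 := x.2

theorem norm_fc_le (i : Fin 3) (x : XX) : ‖fc i x‖ ≤ ‖x‖ := norm_le_pi_norm x.1 i

theorem norm_le_of (x : XX) (r : ℝ) (hr : 0 ≤ r) (h : ∀ i, ‖fc i x‖ ≤ r) : ‖x‖ ≤ r :=
  (pi_norm_le_iff_of_nonneg hr).2 h

theorem opnorm_fc_le (i : Fin 3) : ‖fc i‖ ≤ 1 :=
  ContinuousLinearMap.opNorm_le_bound _ zero_le_one (fun x => by simpa using norm_fc_le i x)

theorem exists_active (x : XX) (hx : ‖x‖ = 1) : ∃ i, ‖fc i x‖ = 1 := by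
  by_contra hne
  push Not at hne
  have hlt : ∀ i, ‖fc i x‖ < 1 := fun i => lt_of_le_of_ne (hx ▸ norm_fc_le i x) (hne i)
  have : ‖x.1‖ < 1 := (pi_norm_lt_iff one_pos).2 hlt
  exact absurd hx (ne_of_lt this)

/-- build a vector from two coordinates -/
def mk3 (a b c : ℂ) (h : a + b + c = 0) : XX := ⟨![a, b, c], h⟩

theorem mk3_0 (a b c : ℂ) (h : a + b + c = 0) : fc 0 (mk3 a b c h) = a := rfl
theorem mk3_1 (a b c : ℂ) (h : a + b + c = 0) : fc 1 (mk3 a b c h) = b := rfl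
theorem mk3_2 (a b c : ℂ) (h : a + b + c = 0) : fc 2 (mk3 a b c h) = c := rfl

/-- maximum modulus in one variable -/
theorem maxmod (h : ℂ → ℂ) (hd : Differentiable ℂ h) (g : ℂ → ℝ) (hg : Continuous g)
    (hb : Bornology.IsBounded {z | g z < 1}) (h0 : g 0 ≤ 1) :
    ∃ z, g z = 1 ∧ ‖h 0‖ ≤ ‖h z‖ := by
  rcases eq_or_lt_of_le h0 with h0 | h0
  · exact ⟨0, h0, le_rfl⟩
  · obtain ⟨z, hz, hmax⟩ := Complex.exists_mem_frontier_isMaxOn_norm hb ⟨0, h0⟩
      (hd.diffContOnCl (s := {z | g z < 1}))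
    refine ⟨z, frontier_lt_subset_eq hg continuous_const hz, ?_⟩
    exact hmax (subset_closure h0)

variable {k : ℕ}

theorem diff_line (A : ContinuousMultilinearMap ℂ (fun _ : Fin k => XX) XX) (l : Fin 3) (y v : XX) :
    Differentiable ℂ (fun z : ℂ => fc l (A (fun _ => y + z • v))) := by
  have h1 : Differentiable ℂ (fun w : Fin k → XX => A w) := fun w =>
    (A.hasFDerivAt w).differentiableAt
  have h2 : Differentiable ℂ (fun z : ℂ => (fun _ : Fin k => y + z • v)) := by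
    rw [differentiable_pi]
    intro i
    exact (differentiable_const y).add (differentiable_id.smul_const v)
  exact (fc l).differentiable.comp (h1.comp h2)

/-- first push: reach the sphere -/
theorem push1 (A : ContinuousMultilinearMap ℂ (fun _ : Fin k => XX) XX) (l : Fin 3) (y : XX)
    (hy : ‖y‖ ≤ 1) : ∃ x : XX, ‖x‖ = 1 ∧ ‖fc l (A (fun _ => y))‖ ≤ ‖fc l (A (fun _ => x))‖ := by
  set v : XX := mk3 1 (-1) 0 (by ring) with hv
  have hv0 : fc 0 v = 1 := mk3_0 _ _ _ _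
  obtain ⟨z, hz1, hz2⟩ := maxmod (fun z : ℂ => fc l (A (fun _ => y + z • v))) (diff_line A l y v)
    (fun z => ‖y + z • v‖) (by fun_prop) (by
      refine (Metric.isBounded_closedBall (x := (0 : ℂ)) (r := 2)).subset ?_
      intro z hz
      have hz : ‖y + z • v‖ < 1 := hz
      have h1 : ‖fc 0 (y + z • v)‖ < 1 := lt_of_le_of_lt (norm_fc_le 0 _) hz
      have h2 : fc 0 (y + z • v) = fc 0 y + z := by
        rw [map_add, map_smul, hv0, smul_eq_mul, mul_one]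
      rw [h2] at h1
      have h3 : ‖fc 0 y‖ ≤ 1 := (norm_fc_le 0 y).trans hy
      have h4 : ‖z‖ ≤ ‖fc 0 y + z‖ + ‖fc 0 y‖ := by
        have := norm_sub_le (fc 0 y + z) (fc 0 y)
        simpa using this
      rw [mem_closedBall_zero_iff]
      linarith) (by simpa using hy)
  refine ⟨y + z • v, hz1, ?_⟩
  simpa using hz2

/-- second push in general position -/
theorem push2aux (A : ContinuousMultilinearMap ℂ (fun _ : Fin k => XX) XX) (l : Fin 3) (y v : XX)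
    (i j m : Fin 3) (hall : ∀ t : Fin 3, t = i ∨ t = j ∨ t = m)
    (hvi : fc i v = 0) (hvj : fc j v = 1) (hy : ‖y‖ = 1) (hi : ‖fc i y‖ = 1) :
    ∃ x : XX, ‖x‖ = 1 ∧ ‖fc i x‖ = 1 ∧ (‖fc j x‖ = 1 ∨ ‖fc m x‖ = 1) ∧
      ‖fc l (A (fun _ => y))‖ ≤ ‖fc l (A (fun _ => x))‖ := by
  obtain ⟨z, hz1, hz2⟩ := maxmod (fun z : ℂ => fc l (A (fun _ => y + z • v))) (diff_line A l y v)
    (fun z => max ‖fc j (y + z • v)‖ ‖fc m (y + z • v)‖) (by fun_prop) (by
      refine (Metric.isBounded_closedBall (x := (0 : ℂ)) (r := 2)).subset ?_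
      intro z hz
      have hz : max ‖fc j (y + z • v)‖ ‖fc m (y + z • v)‖ < 1 := hz
      have h1 : ‖fc j (y + z • v)‖ < 1 := lt_of_le_of_lt (le_max_left _ _) hz
      have h2 : fc j (y + z • v) = fc j y + z := by
        rw [map_add, map_smul, hvj, smul_eq_mul, mul_one]
      rw [h2] at h1
      have h3 : ‖fc j y‖ ≤ 1 := (norm_fc_le j y).trans hy.le
      have h4 : ‖z‖ ≤ ‖fc j y + z‖ + ‖fc j y‖ := by
        have := norm_sub_le (fc j y + z) (fc j y)
        simpa using this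
      rw [mem_closedBall_zero_iff]
      linarith) (by
      simp only [zero_smul, add_zero]
      exact max_le ((norm_fc_le j y).trans hy.le) ((norm_fc_le m y).trans hy.le))
  have hiz : fc i (y + z • v) = fc i y := by
    rw [map_add, map_smul, hvi, smul_zero, add_zero]
  have hj1 : ‖fc j (y + z • v)‖ ≤ 1 := by
    rw [← hz1]; exact le_max_left _ _
  have hm1 : ‖fc m (y + z • v)‖ ≤ 1 := by
    rw [← hz1]; exact le_max_right _ _
  have hi1 : ‖fc i (y + z • v)‖ = 1 := by rw [hiz, hi]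
  refine ⟨y + z • v, le_antisymm (norm_le_of _ 1 zero_le_one fun t => ?_) ?_, hi1, ?_, ?_⟩
  · rcases hall t with h | h | h <;> rw [h]
    · exact hi1.le
    · exact hj1
    · exact hm1
  · rw [← hi1]; exact norm_fc_le i _
  · rcases max_choice ‖fc j (y + z • v)‖ ‖fc m (y + z • v)‖ with h | h
    · left; rw [← h]; exact hz1
    · right; rw [← h]; exact hz1
  · simpa using hz2

/-- at a point with two active functionals -/
theorem push (A : ContinuousMultilinearMap ℂ (fun _ : Fin k => XX) XX) (l : Fin 3) (y : XX)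
    (hy : ‖y‖ ≤ 1) :
    ∃ (x : XX) (i j : Fin 3), i ≠ j ∧ ‖x‖ = 1 ∧ ‖fc i x‖ = 1 ∧ ‖fc j x‖ = 1 ∧
      ‖fc l (A (fun _ => y))‖ ≤ ‖fc l (A (fun _ => x))‖ := by
  obtain ⟨x, hx, hle⟩ := push1 A l y hy
  obtain ⟨i, hi⟩ := exists_active x hx
  fin_cases i
  · obtain ⟨x', hx', h0, h12, hle'⟩ := push2aux A l x (mk3 0 1 (-1) (by ring)) 0 1 2
      (by decide) rfl rfl hx hi
    rcases h12 with h | h
    · exact ⟨x', 0, 1, by decide, hx', h0, h, hle.trans hle'⟩
    · exact ⟨x', 0, 2, by decide, hx', h0, h, hle.trans hle'⟩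
  · obtain ⟨x', hx', h0, h12, hle'⟩ := push2aux A l x (mk3 1 0 (-1) (by ring)) 1 0 2
      (by decide) rfl rfl hx hi
    rcases h12 with h | h
    · exact ⟨x', 1, 0, by decide, hx', h0, h, hle.trans hle'⟩
    · exact ⟨x', 1, 2, by decide, hx', h0, h, hle.trans hle'⟩
  · obtain ⟨x', hx', h0, h12, hle'⟩ := push2aux A l x (mk3 1 (-1) 0 (by ring)) 2 0 1
      (by decide) rfl rfl hx hi
    rcases h12 with h | h
    · exact ⟨x', 2, 0, by decide, hx', h0, h, hle.trans hle'⟩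
    · exact ⟨x', 2, 1, by decide, hx', h0, h, hle.trans hle'⟩

/-- index type of the numerical radius -/
abbrev Pts : Type := {p : XX × (XX →L[ℂ] ℂ) // ‖p.1‖ = 1 ∧ ‖p.2‖ = 1 ∧ p.2 p.1 = 1}

theorem bdd (A : ContinuousMultilinearMap ℂ (fun _ : Fin k => XX) XX) :
    BddAbove (Set.range fun p : Pts => ‖p.1.2 (A (fun _ => p.1.1))‖) := by
  refine ⟨‖A‖, ?_⟩
  rintro _ ⟨p, rfl⟩
  have h1 := p.1.2.le_opNorm (A (fun _ => p.1.1))
  rw [p.2.2.1, one_mul] at h1
  have h2 := A.le_opNorm (fun _ => p.1.1)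
  simp only [p.2.1, Finset.prod_const_one, mul_one] at h2
  exact h1.trans h2

/-- support functional at an active coordinate -/
theorem active_le (A : ContinuousMultilinearMap ℂ (fun _ : Fin k => XX) XX) (x : XX) (i : Fin 3)
    (hx : ‖x‖ = 1) (hi : ‖fc i x‖ = 1) :
    ‖fc i (A (fun _ => x))‖ ≤ ⨆ p : Pts, ‖p.1.2 (A (fun _ => p.1.1))‖ := by
  set c : ℂ := (starRingEnd ℂ) (fc i x) with hc
  have hcn : ‖c‖ = 1 := by rw [hc, RCLike.norm_conj, hi]
  have h1 : (c • fc i) x = 1 := by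
    rw [_root_.smul_apply, smul_eq_mul, hc, mul_comm, Complex.mul_conj,
      Complex.normSq_eq_norm_sq, hi]
    norm_num
  have h2 : ‖c • fc i‖ = 1 := by
    apply le_antisymm
    · refine ContinuousLinearMap.opNorm_le_bound _ zero_le_one (fun z => ?_)
      rw [_root_.smul_apply, norm_smul, hcn, one_mul, one_mul]
      exact norm_fc_le i z
    · have := (c • fc i).le_opNorm x
      rw [h1, hx, mul_one, norm_one] at this
      exact this
  have h3 := le_ciSup (bdd A) ⟨(x, c • fc i), hx, h2, h1⟩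
  have h4 : ‖(c • fc i) (A (fun _ => x))‖ = ‖fc i (A (fun _ => x))‖ := by
    rw [_root_.smul_apply, norm_smul, hcn, one_mul]
  rw [← h4]
  exact h3

theorem lower (A : ContinuousMultilinearMap ℂ (fun _ : Fin k => XX) XX) (y : XX) (hy : ‖y‖ ≤ 1) :
    (1/2 : ℝ) * ‖A (fun _ => y)‖ ≤ ⨆ p : Pts, ‖p.1.2 (A (fun _ => p.1.1))‖ := by
  set V : ℝ := ⨆ p : Pts, ‖p.1.2 (A (fun _ => p.1.1))‖ with hV
  have hV0 : 0 ≤ V := Real.iSup_nonneg fun _ => norm_nonneg _
  have key : ∀ l : Fin 3, ‖fc l (A (fun _ => y))‖ ≤ 2 * V := by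
    intro l
    obtain ⟨x, i, j, hij, hx, hi, hj, hle⟩ := push A l y hy
    have h1 := active_le A x i hx hi
    have h2 := active_le A x j hx hj
    rw [← hV] at h1 h2
    refine hle.trans ?_
    have hs := sum_zero (A (fun _ => x))
    by_cases hli : l = i
    · subst hli; linarith
    by_cases hlj : l = j
    · subst hlj; linarith
    have h3 : fc l (A (fun _ => x)) = -(fc i (A (fun _ => x)) + fc j (A (fun _ => x))) := by
      fin_cases l <;> fin_cases i <;> fin_cases j <;> simp at hij hli hlj ⊢ <;>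
        linear_combination hs
    rw [h3, norm_neg]
    have h4 := norm_add_le (fc i (A (fun _ => x))) (fc j (A (fun _ => x)))
    linarith
  have := norm_le_of _ (2 * V) (by linarith) key
  linarith

/-- the vector in the middle of an edge of the ball -/
noncomputable def y0 : XX := mk3 (1/2) (1/2) (-1) (by norm_num)

/-- the point where the functional peaks -/
def x0 : XX := mk3 1 (-1) 0 (by norm_num)

/-- the peaking functional -/
noncomputable def gg : XX →L[ℂ] ℂ := (1/2 : ℂ) • (fc 0 - fc 1)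

theorem gg_apply (x : XX) : gg x = (fc 0 x - fc 1 x) / 2 := by
  show (1/2 : ℂ) * (fc 0 x - fc 1 x) = _
  ring

theorem norm_y0 : ‖y0‖ = 1 := by
  apply le_antisymm
  · apply norm_le_of _ 1 zero_le_one
    intro i
    fin_cases i
    · show ‖(1/2 : ℂ)‖ ≤ 1
      norm_num
    · show ‖(1/2 : ℂ)‖ ≤ 1
      norm_num
    · show ‖(-1 : ℂ)‖ ≤ 1
      norm_num
  · have h := norm_fc_le 2 y0
    have h2 : fc 2 y0 = -1 := rfl
    rw [h2, norm_neg, norm_one] at h
    exact h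

theorem norm_x0 : ‖x0‖ ≤ 1 := by
  apply norm_le_of _ 1 zero_le_one
  intro i
  fin_cases i
  · show ‖(1 : ℂ)‖ ≤ 1
    norm_num
  · show ‖(-1 : ℂ)‖ ≤ 1
    norm_num
  · show ‖(0 : ℂ)‖ ≤ 1
    norm_num

theorem gg_x0 : gg x0 = 1 := by
  rw [gg_apply]
  show ((1 : ℂ) - (-1)) / 2 = 1
  norm_num

theorem gg_le (x : XX) (hx : ‖x‖ = 1) : ‖gg x‖ ≤ 1 := by
  rw [gg_apply, norm_div]
  have h1 := norm_fc_le 0 x
  have h2 := norm_fc_le 1 x
  have h3 := norm_sub_le (fc 0 x) (fc 1 x)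
  rw [hx] at h1 h2
  have h4 : ‖(2 : ℂ)‖ = 2 := by norm_num
  rw [h4]
  linarith

theorem gg_sq (x : XX) (hx : ‖x‖ = 1) : ‖gg x‖ ^ 2 ≤ 1 - ‖fc 2 x‖ ^ 2 / 4 := by
  have h1 := norm_fc_le 0 x
  have h2 := norm_fc_le 1 x
  rw [hx] at h1 h2
  have h3 : fc 2 x = -(fc 0 x + fc 1 x) := by
    have := sum_zero x
    linear_combination this
  have h4 := parallelogram_law_with_norm ℂ (fc 0 x) (fc 1 x)
  rw [h3, norm_neg, gg_apply, norm_div]
  have h5 : ‖(2 : ℂ)‖ = 2 := by norm_num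
  rw [h5]
  have h6 : ‖fc 0 x‖ * ‖fc 0 x‖ ≤ 1 := by
    have := mul_le_mul h1 h1 (norm_nonneg _) zero_le_one
    linarith
  have h7 : ‖fc 1 x‖ * ‖fc 1 x‖ ≤ 1 := by
    have := mul_le_mul h2 h2 (norm_nonneg _) zero_le_one
    linarith
  have h8 : (‖fc 0 x - fc 1 x‖ / 2) ^ 2 = ‖fc 0 x - fc 1 x‖ * ‖fc 0 x - fc 1 x‖ / 4 := by ring
  have h9 : ‖fc 0 x + fc 1 x‖ ^ 2 = ‖fc 0 x + fc 1 x‖ * ‖fc 0 x + fc 1 x‖ := by ring
  rw [h8, h9]
  linarith

theorem phi_half (x : XX) (φ : XX →L[ℂ] ℂ) (hx : ‖x‖ = 1) (hφ : ‖φ‖ = 1) (h : φ x = 1)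
    (hsmall : ‖fc 2 x‖ ≤ 1/2) : ‖φ y0‖ ≤ 1/2 := by
  obtain ⟨ζ, hζ, hζ2⟩ : ∃ ζ : ℂ, ‖ζ‖ = 1 ∧ ζ * φ y0 = (‖φ y0‖ : ℂ) := by
    by_cases h0 : φ y0 = 0
    · exact ⟨1, by simp, by simp [h0]⟩
    · have hn : (‖φ y0‖ : ℂ) ≠ 0 := by
        exact_mod_cast (norm_ne_zero_iff.2 h0)
      refine ⟨(starRingEnd ℂ) (φ y0) / ‖φ y0‖, ?_, ?_⟩
      · rw [norm_div, RCLike.norm_conj, Complex.norm_real, norm_norm]
        exact div_self (norm_ne_zero_iff.2 h0)
      · rw [div_mul_eq_mul_div, mul_comm ((starRingEnd ℂ) (φ y0)), Complex.mul_conj,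
          Complex.normSq_eq_norm_sq]
        rw [div_eq_iff hn]
        push_cast
        ring
  have h1 : ‖x + ζ • y0‖ ≤ 3/2 := by
    apply norm_le_of _ (3/2) (by norm_num)
    intro i
    have hadd : fc i (x + ζ • y0) = fc i x + ζ * fc i y0 := by
      rw [map_add, map_smul, smul_eq_mul]
    rw [hadd]
    refine (norm_add_le _ _).trans ?_
    rw [norm_mul, hζ, one_mul]
    have hi := norm_fc_le i x
    rw [hx] at hi
    fin_cases i
    · have : ‖fc 0 y0‖ = 1/2 := by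
        show ‖(1/2 : ℂ)‖ = 1/2
        norm_num
      show ‖fc 0 x‖ + ‖fc 0 y0‖ ≤ 3/2
      rw [this]
      have : ‖fc 0 x‖ ≤ 1 := hi
      linarith
    · have : ‖fc 1 y0‖ = 1/2 := by
        show ‖(1/2 : ℂ)‖ = 1/2
        norm_num
      show ‖fc 1 x‖ + ‖fc 1 y0‖ ≤ 3/2
      rw [this]
      have : ‖fc 1 x‖ ≤ 1 := hi
      linarith
    · have : ‖fc 2 y0‖ = 1 := by
        show ‖(-1 : ℂ)‖ = 1
        norm_num
      show ‖fc 2 x‖ + ‖fc 2 y0‖ ≤ 3/2
      rw [this]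
      linarith
  have h2 : φ (x + ζ • y0) = ((1 + ‖φ y0‖ : ℝ) : ℂ) := by
    rw [map_add, map_smul, smul_eq_mul, hζ2, h]
    push_cast
    ring
  have h3 := φ.le_opNorm (x + ζ • y0)
  rw [hφ, one_mul, h2, Complex.norm_real, Real.norm_eq_abs,
    abs_of_nonneg (by have := norm_nonneg (φ y0); linarith)] at h3
  linarith

/-- the extremal polynomial -/
noncomputable def AA (k : ℕ) : ContinuousMultilinearMap ℂ (fun _ : Fin k => XX) XX :=
  (ContinuousMultilinearMap.mkPiRing ℂ (Fin k) y0).compContinuousLinearMap (fun _ => gg)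

theorem AA_apply (k : ℕ) (x : XX) : AA k (fun _ => x) = (gg x ^ k) • y0 := by
  simp [AA]

theorem upper (k : ℕ) (hk : 22 ≤ k) (c : ℝ) 
    (hc : ∀ (A : ContinuousMultilinearMap ℂ (fun _ : Fin k => XX) XX) (y : XX), ‖y‖ ≤ 1 →
      c * ‖A (fun _ => y)‖ ≤ ⨆ p : Pts, ‖p.1.2 (A (fun _ => p.1.1))‖) : c ≤ 1/2 := by
  have h1 := hc (AA k) x0 norm_x0
  rw [AA_apply, gg_x0, one_pow, one_smul, norm_y0, mul_one] at h1
  refine h1.trans (Real.iSup_le ?_ (by norm_num))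
  rintro ⟨⟨x, φ⟩, hx, hφ, h⟩
  show ‖φ (AA k (fun _ => x))‖ ≤ 1/2
  change ‖x‖ = 1 at hx
  change ‖φ‖ = 1 at hφ
  change φ x = 1 at h
  rw [AA_apply, map_smul, smul_eq_mul, norm_mul, norm_pow]
  have hg := gg_le x hx
  have hφy : ‖φ y0‖ ≤ 1 := by
    have := φ.le_opNorm y0
    rw [hφ, norm_y0] at this
    linarith
  by_cases hs : ‖fc 2 x‖ ≤ 1/2
  · have h2 := phi_half x φ hx hφ h hs
    have h3 : ‖gg x‖ ^ k ≤ 1 := pow_le_one₀ (norm_nonneg _) hg
    have h4 := mul_le_mul h3 h2 (norm_nonneg _) zero_le_one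
    linarith
  · push Not at hs
    have h2 := gg_sq x hx
    have h3 : ‖gg x‖ ^ 2 ≤ 15/16 := by
      have : (1/2 : ℝ) ^ 2 ≤ ‖fc 2 x‖ ^ 2 := pow_le_pow_left₀ (by norm_num) hs.le 2
      linarith
    have h4 : ‖gg x‖ ^ k ≤ ‖gg x‖ ^ 22 := pow_le_pow_of_le_one (norm_nonneg _) hg hk
    have h5 : ‖gg x‖ ^ 22 = (‖gg x‖ ^ 2) ^ 11 := by rw [← pow_mul]
    have h6 : (‖gg x‖ ^ 2) ^ 11 ≤ (15/16 : ℝ) ^ 11 := pow_le_pow_left₀ (by positivity) h3 11
    have h7 : (15/16 : ℝ) ^ 11 ≤ 1/2 := by norm_num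
    have h8 : ‖gg x‖ ^ k ≤ 1/2 := by linarith
    have h9 := mul_le_mul h8 hφy (norm_nonneg _) (by norm_num)
    linarith

/-- There is a real or complex Banach space X whose polynomial numerical indices n^(k)(X) (best constant c with c‖P‖ ≤ numerical radius of P, over k-homogeneous polynomials P on X) converge to a limit different from 0 and 1. -/
theorem result :
    ∃ (𝕂 : Type) (_ : RCLike 𝕂) (X : Type) (_ : NormedAddCommGroup X)
      (_ : NormedSpace 𝕂 X) (_ : CompleteSpace X) (L : ℝ),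
      Filter.Tendsto
        (fun k : ℕ => sSup {c : ℝ | 0 ≤ c ∧
          ∀ (A : ContinuousMultilinearMap 𝕂 (fun _ : Fin k => X) X) (y : X), ‖y‖ ≤ 1 →
            c * ‖A (fun _ => y)‖ ≤
              ⨆ p : {p : X × (X →L[𝕂] 𝕂) // ‖p.1‖ = 1 ∧ ‖p.2‖ = 1 ∧ p.2 p.1 = 1},
                ‖p.1.2 (A (fun _ => p.1.1))‖})
        Filter.atTop (nhds L) ∧ L ≠ 0 ∧ L ≠ 1 := by
  refine ⟨ℂ, inferInstance, XX, inferInstance, inferInstance,
    FiniteDimensional.complete ℂ XX, 1/2, ?_, by norm_num, by norm_num⟩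
  refine tendsto_const_nhds.congr' ?_
  filter_upwards [Filter.eventually_ge_atTop 22] with k hk
  symm
  apply IsGreatest.csSup_eq
  constructor
  · exact ⟨by norm_num, fun A y hy => lower A y hy⟩
  · intro c hc
    exact upper k hk c hc.2

end Pool.Agent.S03425
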