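import Pool.Statements.S03500
import Pool.Agent.Helper1.Kahan

set_option autoImplicit false
open Matrix
open Pool Pool.MP_79babf_an

namespace Pool.Agent.S03500

open Pool.Agent.Helper1.Kahan

/-- weights of the growth vector -/
noncomputable def w (c : ℝ) (i : ℕ) : ℝ := if i = 0 then 1 else c * (1 + c) ^ (i - 1)

/-- partial sums of the weights -/
noncomputable def W (c : ℝ) (i : ℕ) : ℝ := if i = 0 then 0 else (1 + c) ^ (i - 1)

theorem W_succ (c : ℝ) (i : ℕ) : W c (i + 1) = W c i + w c i := by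
  unfold W w
  rcases Nat.eq_zero_or_pos i with h | h
  · subst h; simp
  · rw [if_neg (by omega), if_neg (by omega), if_neg (by omega)]
    obtain ⟨t, rfl⟩ : ∃ t, i = t + 1 := ⟨i - 1, by omega⟩
    simp only [Nat.add_sub_cancel]
    ring

theorem w_sub (c : ℝ) (l : ℕ) : w c l - c * W c l = if l = 0 then 1 else 0 := by
  unfold W w
  split_ifs <;> ring

/-- the transposed Kahan system -/
theorem kahan_solve (c s α : ℝ) (hs : 0 < s) (k l : ℕ) (hl : l < k) :
    ∑ i : Fin k, α * col c s l i * (w c i / s ^ (i : ℕ)) = α * (if l = 0 then 1 else 0) := by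
  rw [Fin.sum_univ_eq_sum_range (fun i => α * col c s l i * (w c i / s ^ i)) k]
  set h : ℕ → ℝ := fun i => if i ≤ l then -c * α * W c i else α * (w c l - c * W c l) with hh
  have key : ∀ i, α * col c s l i * (w c i / s ^ i) = h (i + 1) - h i := by
    intro i
    have hsi : s ^ i ≠ 0 := (pow_pos hs i).ne'
    rcases lt_trichotomy i l with hil | hil | hil
    · rw [col_lt c s l i hil]
      have e1 : h i = -c * α * W c i := by simp only [hh]; rw [if_pos (by omega)]
      have e2 : h (i + 1) = -c * α * W c (i + 1) := by simp only [hh]; rw [if_pos (by omega)]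
      rw [e1, e2, W_succ]
      field_simp
      ring
    · subst hil
      rw [col_self]
      have e1 : h i = -c * α * W c i := by simp only [hh]; rw [if_pos (by omega)]
      have e2 : h (i + 1) = α * (w c i - c * W c i) := by simp only [hh]; rw [if_neg (by omega)]
      rw [e1, e2]
      field_simp
      ring
    · rw [col_gt c s l i hil]
      have e1 : h i = α * (w c l - c * W c l) := by simp only [hh]; rw [if_neg (by omega)]
      have e2 : h (i + 1) = α * (w c l - c * W c l) := by simp only [hh]; rw [if_neg (by omega)]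
      rw [e1, e2]; ring
  rw [Finset.sum_congr rfl (fun i _ => key i), Finset.sum_range_sub]
  have e0 : h 0 = 0 := by simp only [hh]; rw [if_pos (Nat.zero_le _)]; simp [W]
  have ek : h k = α * (w c l - c * W c l) := by simp only [hh]; rw [if_neg (by omega)]
  rw [e0, ek, w_sub]; ring

/-- the big matrix -/
noncomputable def QQ (c s α : ℝ) (k L : ℕ) (B : Matrix (Fin k) (Fin k) ℝ) :
    Matrix (Fin (k + L * k)) (Fin k) ℝ := fun r =>
  Fin.addCases (motive := fun _ => Fin k → ℝ) (fun l (a : Fin k) => α * col c s l a)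
    (fun p (a : Fin k) => B (finProdFinEquiv.symm p).2 a / Real.sqrt L) r

theorem QQ_left (c s α : ℝ) (k L : ℕ) (B : Matrix (Fin k) (Fin k) ℝ) (l : Fin k) :
    QQ c s α k L B (Fin.castAdd (L * k) l) = fun a : Fin k => α * col c s l a := by
  unfold QQ
  rw [Fin.addCases_left]

theorem QQ_right (c s α : ℝ) (k L : ℕ) (B : Matrix (Fin k) (Fin k) ℝ) (p : Fin (L * k)) :
    QQ c s α k L B (Fin.natAdd k p) = fun a => B (finProdFinEquiv.symm p).2 a / Real.sqrt L := by
  unfold QQ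
  rw [Fin.addCases_right]

theorem QQ_orth (c s α : ℝ) (k L : ℕ) (hL : 0 < L) (B : Matrix (Fin k) (Fin k) ℝ)
    (hB : ∀ a b : Fin k, α ^ 2 * ∑ l : Fin k, col c s l a * col c s l b +
      ∑ i : Fin k, B i a * B i b = if a = b then 1 else 0) :
    (QQ c s α k L B)ᵀ * QQ c s α k L B = 1 := by
  ext a b
  rw [Matrix.mul_apply, Matrix.one_apply, ← hB a b, Fin.sum_univ_add]
  have hL' : (0 : ℝ) < L := by exact_mod_cast hL
  congr 1
  · rw [Finset.mul_sum]
    refine Finset.sum_congr rfl fun l _ => ?_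
    rw [Matrix.transpose_apply, QQ_left]
    ring
  · have h1 : ∀ p : Fin (L * k), (QQ c s α k L B)ᵀ a (Fin.natAdd k p) *
        QQ c s α k L B (Fin.natAdd k p) b =
        (fun x : Fin L × Fin k => B x.2 a * B x.2 b / L) (finProdFinEquiv.symm p) := by
      intro p
      rw [Matrix.transpose_apply, QQ_right]
      show B (finProdFinEquiv.symm p).2 a / Real.sqrt L * (B (finProdFinEquiv.symm p).2 b / Real.sqrt L)
        = B (finProdFinEquiv.symm p).2 a * B (finProdFinEquiv.symm p).2 b / L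
      rw [div_mul_div_comm, Real.mul_self_sqrt hL'.le]
    rw [Finset.sum_congr rfl (fun p _ => h1 p),
      Equiv.sum_comp finProdFinEquiv.symm (fun x : Fin L × Fin k => B x.2 a * B x.2 b / L),
      Fintype.sum_prod_type]
    simp only [Finset.sum_const, Finset.card_univ, Fintype.card_fin, nsmul_eq_mul]
    rw [← Finset.sum_div]
    field_simp

theorem QQ_right_norm (c s α : ℝ) (k L : ℕ) (hL : 0 < L) (B : Matrix (Fin k) (Fin k) ℝ)
    (hB : ∀ a b : Fin k, α ^ 2 * ∑ l : Fin k, col c s l a * col c s l b +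
      ∑ i : Fin k, B i a * B i b = if a = b then 1 else 0) (p : Fin (L * k)) :
    ‖(WithLp.toLp 2 (QQ c s α k L B (Fin.natAdd k p)) : EuclideanSpace ℝ (Fin k))‖ ^ 2 ≤
      (k : ℝ) / L := by
  have hL' : (0 : ℝ) < L := by exact_mod_cast hL
  rw [EuclideanSpace.norm_eq, Real.sq_sqrt (Finset.sum_nonneg fun _ _ => sq_nonneg _)]
  have h1 : ∀ a : Fin k, ‖(WithLp.toLp 2 (QQ c s α k L B (Fin.natAdd k p)) :
      EuclideanSpace ℝ (Fin k)) a‖ ^ 2 ≤ 1 / L := by
    intro a
    have h2 : (WithLp.toLp 2 (QQ c s α k L B (Fin.natAdd k p)) : EuclideanSpace ℝ (Fin k)) a =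
      B (finProdFinEquiv.symm p).2 a / Real.sqrt L := by
      show QQ c s α k L B (Fin.natAdd k p) a = _
      rw [QQ_right]
    rw [h2, Real.norm_eq_abs, sq_abs, div_pow, Real.sq_sqrt hL'.le]
    apply div_le_div_of_nonneg_right _ hL'.le
    have h3 := hB a a
    rw [if_pos rfl] at h3
    have h4 : 0 ≤ α ^ 2 * ∑ l : Fin k, col c s l a * col c s l a :=
      mul_nonneg (sq_nonneg _) (Finset.sum_nonneg fun _ _ => mul_self_nonneg _)
    have h5 : B (finProdFinEquiv.symm p).2 a ^ 2 ≤ ∑ i : Fin k, B i a * B i a := by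
      rw [sq]
      exact Finset.single_le_sum (f := fun i => B i a * B i a)
        (fun i _ => mul_self_nonneg _) (Finset.mem_univ _)
    linarith
  refine (Finset.sum_le_sum fun a _ => h1 a).trans ?_
  simp only [Finset.sum_const, Finset.card_univ, Fintype.card_fin, nsmul_eq_mul]
  rw [mul_one_div]

/-- parameters for a given q -/
theorem params (q : ℕ) (hq : 1 ≤ q) :
    ∃ c s α : ℝ, c = 1 / (2 * q) ∧ 0 < s ∧ s ≤ 1 ∧ c ^ 2 + s ^ 2 = 1 ∧ 0 < α ∧ α ≤ 1 ∧
      α ^ 2 * ((2 * q ^ 2 + 1 : ℕ) : ℝ) = 1 ∧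
      (∀ j : ℕ, j < 2 * q ^ 2 + 1 → 1 / 2 ≤ (s ^ j) ^ 2) := by
  have hq' : (1 : ℝ) ≤ q := by exact_mod_cast hq
  have hc2 : ((1 : ℝ) / (2 * q)) ^ 2 = 1 / (4 * q ^ 2) := by
    rw [div_pow]; ring
  have hq2 : (1 : ℝ) ≤ (q : ℝ) ^ 2 := one_le_pow₀ hq'
  have hc3 : (1 : ℝ) / (4 * q ^ 2) ≤ 1 / 4 := by
    apply one_div_le_one_div_of_le (by norm_num); linarith
  have hpos : 0 < 1 - (1 / (2 * q) : ℝ) ^ 2 := by rw [hc2]; linarith
  have hk : (0 : ℝ) < ((2 * q ^ 2 + 1 : ℕ) : ℝ) := by positivity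
  have hk1 : (1 : ℝ) ≤ ((2 * q ^ 2 + 1 : ℕ) : ℝ) := by
    push_cast
    linarith
  refine ⟨1 / (2 * q), Real.sqrt (1 - (1 / (2 * q)) ^ 2), 1 / Real.sqrt ((2 * q ^ 2 + 1 : ℕ) : ℝ),
    rfl, Real.sqrt_pos.2 hpos, ?_, ?_, ?_, ?_, ?_, ?_⟩
  · have := sq_nonneg (1 / (2 * q) : ℝ)
    rw [Real.sqrt_le_left (by norm_num)]
    linarith
  · rw [Real.sq_sqrt hpos.le]; ring
  · positivity
  · rw [div_le_one (Real.sqrt_pos.2 hk)]
    exact Real.one_le_sqrt.2 hk1
  · rw [div_pow, Real.sq_sqrt hk.le, one_pow, one_div, inv_mul_cancel₀ hk.ne']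
  · intro j hj
    rw [← pow_mul, mul_comm j 2, pow_mul, Real.sq_sqrt hpos.le]
    have h1 := one_add_mul_le_pow (a := -(1 / (2 * q) : ℝ) ^ 2) (by rw [hc2]; linarith) j
    have h2 : 1 + -(1 / (2 * q) : ℝ) ^ 2 = 1 - (1 / (2 * q)) ^ 2 := by ring
    rw [h2] at h1
    refine le_trans ?_ h1
    rw [hc2]
    have h3 : (j : ℝ) ≤ 2 * q ^ 2 := by
      have : j ≤ 2 * q ^ 2 := by omega
      exact_mod_cast this
    have h4 : (j : ℝ) * (1 / (4 * q ^ 2)) ≤ 2 * q ^ 2 * (1 / (4 * q ^ 2)) :=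
      mul_le_mul_of_nonneg_right h3 (by positivity)
    have h5 : 2 * (q : ℝ) ^ 2 * (1 / (4 * q ^ 2)) = 1 / 2 := by
      field_simp; norm_num
    linarith

theorem growth (q : ℕ) (hq : 1 ≤ q) :
    (2 : ℝ) ^ q ≤ 4 * q * (1 / (2 * q) * (1 + 1 / (2 * q)) ^ (2 * q ^ 2 - 1)) := by
  have hq' : (1 : ℝ) ≤ q := by exact_mod_cast hq
  have hb : (2 : ℝ) ≤ (1 + 1 / (2 * q)) ^ (2 * q) := by
    have h1 := one_add_mul_le_pow (a := (1 / (2 * q) : ℝ)) (by
      have : (0 : ℝ) ≤ 1 / (2 * q) := by positivity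
      linarith) (2 * q)
    have h2 : (1 : ℝ) + ((2 * q : ℕ) : ℝ) * (1 / (2 * q)) = 2 := by
      push_cast
      field_simp
      norm_num
    rw [h2] at h1
    exact h1
  have h1 : (1 : ℝ) ≤ 1 + 1 / (2 * q) := by
    have : (0 : ℝ) ≤ 1 / (2 * q) := by positivity
    linarith
  have h2 : 2 * q * (q - 1) ≤ 2 * q ^ 2 - 1 := by
    obtain ⟨t, rfl⟩ : ∃ t, q = t + 1 := ⟨q - 1, by omega⟩
    simp only [Nat.add_sub_cancel]
    have : 2 * (t + 1) ^ 2 = 2 * (t + 1) * t + 2 * (t + 1) := by ring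
    omega
  have h3 : (2 : ℝ) ^ (q - 1) ≤ (1 + 1 / (2 * q)) ^ (2 * q ^ 2 - 1) := by
    calc (2 : ℝ) ^ (q - 1) ≤ ((1 + 1 / (2 * q)) ^ (2 * q)) ^ (q - 1) :=
          pow_le_pow_left₀ (by norm_num) hb _
      _ = (1 + 1 / (2 * q)) ^ (2 * q * (q - 1)) := by rw [← pow_mul]
      _ ≤ _ := pow_le_pow_right₀ h1 h2
  have h4 : (2 : ℝ) ^ q = 2 * 2 ^ (q - 1) := by
    rw [← pow_succ', Nat.sub_add_cancel hq]
  have h5 : 4 * (q : ℝ) * (1 / (2 * q) * (1 + 1 / (2 * q)) ^ (2 * q ^ 2 - 1)) =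
      2 * (1 + 1 / (2 * q)) ^ (2 * q ^ 2 - 1) := by
    field_simp
    norm_num
  rw [h4, h5]
  linarith

/-- The negation of the preceding statement: There are constants C, d such that for every n×k real Q with orthonormal columns (k<n), the k rows picked by greedy column-pivoted QR on Qᵀ (first index on ties) give a k×k block whose inverse has 2-norm at most C·n^d. -/
theorem result :
    ¬ (∃ C : ℝ, ∃ d : ℕ, ∀ n k : ℕ, k < n →
      ∀ Q : Matrix (Fin n) (Fin k) ℝ, Qᵀ * Q = 1 →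
      ∀ σ : Fin k → Fin n,
        (∀ j : Fin k, ∀ r : Fin n,
          Metric.infDist (WithLp.toLp 2 (Q r) : EuclideanSpace ℝ (Fin k))
              (Submodule.span ℝ
                ((fun i : Fin k => (WithLp.toLp 2 (Q (σ i)) : EuclideanSpace ℝ (Fin k))) ''
                  {i | i < j}) : Set (EuclideanSpace ℝ (Fin k)))
            ≤ Metric.infDist (WithLp.toLp 2 (Q (σ j)) : EuclideanSpace ℝ (Fin k))
              (Submodule.span ℝ
                ((fun i : Fin k => (WithLp.toLp 2 (Q (σ i)) : EuclideanSpace ℝ (Fin k))) ''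
                  {i | i < j}) : Set (EuclideanSpace ℝ (Fin k)))) →
        (∀ j : Fin k, ∀ r : Fin n, r < σ j →
          Metric.infDist (WithLp.toLp 2 (Q r) : EuclideanSpace ℝ (Fin k))
              (Submodule.span ℝ
                ((fun i : Fin k => (WithLp.toLp 2 (Q (σ i)) : EuclideanSpace ℝ (Fin k))) ''
                  {i | i < j}) : Set (EuclideanSpace ℝ (Fin k)))
            < Metric.infDist (WithLp.toLp 2 (Q (σ j)) : EuclideanSpace ℝ (Fin k))
              (Submodule.span ℝ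
                ((fun i : Fin k => (WithLp.toLp 2 (Q (σ i)) : EuclideanSpace ℝ (Fin k))) ''
                  {i | i < j}) : Set (EuclideanSpace ℝ (Fin k)))) →
        ∀ x : Fin k → ℝ,
          ‖(WithLp.toLp 2 x : EuclideanSpace ℝ (Fin k))‖ ≤
            C * (n : ℝ) ^ d *
              ‖(WithLp.toLp 2 ((Q.submatrix σ id) *ᵥ x) : EuclideanSpace ℝ (Fin k))‖) := by
  rintro ⟨C, d, H⟩
  -- choose q large
  set K : ℝ := 4 * |C| * 81 ^ d + 1 with hK
  have hKpos : 0 < K := by positivity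
  have hlim := tendsto_pow_const_div_const_pow_of_one_lt (6 * d + 1) (one_lt_two (α := ℝ))
  have hev := (hlim.eventually (gt_mem_nhds (show (0 : ℝ) < 1 / K by positivity))).and
    (Filter.eventually_ge_atTop 1)
  obtain ⟨q, hq1, hq⟩ := hev.exists
  have hq' : (1 : ℝ) ≤ q := by exact_mod_cast hq
  obtain ⟨c, s, α, hc, hs, hs1, hcs, hα, hα1, hαk, hsj⟩ := params q hq
  set k : ℕ := 2 * q ^ 2 + 1 with hkdef
  obtain ⟨B, hB⟩ := exists_B (k := k) c s hcs α hαk
  set L : ℕ := 2 * k ^ 2 with hLdef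
  have hkpos : 0 < k := by omega
  have hLpos : 0 < L := by positivity
  have hc0 : 0 < c := by rw [hc]; positivity
  have hn : k < k + L * k := by
    have : 0 < L * k := Nat.mul_pos hLpos hkpos
    omega
  have hrow : ∀ i : Fin k, (WithLp.toLp 2 (QQ c s α k L B (Fin.castAdd (L * k) i)) :
      EuclideanSpace ℝ (Fin k)) = u c s α k i := by
    intro i
    rw [QQ_left]
    rfl
  have hfun : (fun i : Fin k => (WithLp.toLp 2 (QQ c s α k L B (Fin.castAdd (L * k) i)) :
      EuclideanSpace ℝ (Fin k))) = u c s α k := funext hrow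
  have hx := H (k + L * k) k hn (QQ c s α k L B) (QQ_orth c s α k L hLpos B hB)
    (Fin.castAdd (L * k)) ?_ ?_ (fun i => w c i / s ^ (i : ℕ))
  · -- contradiction
    have hlow : c * (1 + c) ^ (2 * q ^ 2 - 1) ≤
        ‖(WithLp.toLp 2 (fun i : Fin k => w c i / s ^ (i : ℕ)) : EuclideanSpace ℝ (Fin k))‖ := by
      have h1 := PiLp.norm_apply_le
        (WithLp.toLp 2 (fun i : Fin k => w c i / s ^ (i : ℕ)) : EuclideanSpace ℝ (Fin k))
        ⟨2 * q ^ 2, by omega⟩
      refine le_trans ?_ h1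
      show _ ≤ ‖w c (2 * q ^ 2) / s ^ (2 * q ^ 2)‖
      have hw : w c (2 * q ^ 2) = c * (1 + c) ^ (2 * q ^ 2 - 1) := by
        unfold w
        rw [if_neg (by positivity)]
      rw [hw, Real.norm_of_nonneg (by positivity)]
      rw [le_div_iff₀ (by positivity)]
      have h2 : s ^ (2 * q ^ 2) ≤ 1 := pow_le_one₀ hs.le hs1
      have h3 : 0 ≤ c * (1 + c) ^ (2 * q ^ 2 - 1) := by positivity
      exact mul_le_of_le_one_right h3 h2
    have hup : ‖(WithLp.toLp 2 (((QQ c s α k L B).submatrix (Fin.castAdd (L * k)) id) *ᵥ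
        (fun i : Fin k => w c i / s ^ (i : ℕ))) : EuclideanSpace ℝ (Fin k))‖ ≤ 1 := by
      have h1 : (WithLp.toLp 2 (((QQ c s α k L B).submatrix (Fin.castAdd (L * k)) id) *ᵥ
        (fun i : Fin k => w c i / s ^ (i : ℕ))) : EuclideanSpace ℝ (Fin k)) =
        EuclideanSpace.single (⟨0, hkpos⟩ : Fin k) α := by
        ext l
        have h2 : (WithLp.toLp 2 (((QQ c s α k L B).submatrix (Fin.castAdd (L * k)) id) *ᵥ
          (fun i : Fin k => w c i / s ^ (i : ℕ))) : EuclideanSpace ℝ (Fin k)) l =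
          ∑ i : Fin k, QQ c s α k L B (Fin.castAdd (L * k) l) i * (w c i / s ^ (i : ℕ)) := rfl
        rw [h2, QQ_left, kahan_solve c s α hs k l l.2, EuclideanSpace.single_apply]
        by_cases hl : (l : ℕ) = 0
        · have : l = ⟨0, hkpos⟩ := Fin.ext hl
          rw [if_pos hl, if_pos this, mul_one]
        · have : ¬ l = ⟨0, hkpos⟩ := fun h => hl (by rw [h])
          rw [if_neg hl, if_neg this, mul_zero]
      rw [h1, EuclideanSpace.norm_single, Real.norm_of_nonneg hα.le]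
      exact hα1
    have hn2 : ((k + L * k : ℕ) : ℝ) ≤ 81 * (q : ℝ) ^ 6 := by
      have h1 : k ≤ 3 * q ^ 2 := by
        have : 1 ≤ q ^ 2 := Nat.one_le_pow _ _ hq
        omega
      have h2 : k + L * k ≤ 3 * k ^ 3 := by
        have h3 : k ≤ k ^ 3 := Nat.le_self_pow (by norm_num) k
        have h4 : L * k = 2 * k ^ 3 := by rw [hLdef]; ring
        omega
      have h3 : k ^ 3 ≤ (3 * q ^ 2) ^ 3 := Nat.pow_le_pow_left h1 3
      have h4 : (3 * q ^ 2) ^ 3 = 27 * q ^ 6 := by ring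
      have h5 : k + L * k ≤ 81 * q ^ 6 := by omega
      exact_mod_cast h5
    have hgrow := growth q hq
    rw [← hc] at hgrow
    have hA : ‖(WithLp.toLp 2 (fun i : Fin k => w c i / s ^ (i : ℕ)) : EuclideanSpace ℝ (Fin k))‖
        ≤ |C| * (81 * (q : ℝ) ^ 6) ^ d := by
      refine hx.trans ?_
      have h1 : C * ((k + L * k : ℕ) : ℝ) ^ d ≤ |C| * (81 * (q : ℝ) ^ 6) ^ d := by
        apply mul_le_mul (le_abs_self C) (pow_le_pow_left₀ (Nat.cast_nonneg _) hn2 d)
          (by positivity) (abs_nonneg _)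
      have h2 : 0 ≤ |C| * (81 * (q : ℝ) ^ 6) ^ d := by positivity
      refine (mul_le_mul_of_nonneg_right h1 (norm_nonneg _)).trans ?_
      exact mul_le_of_le_one_right h2 hup
    have hfin : (2 : ℝ) ^ q ≤ 4 * q * (|C| * (81 * (q : ℝ) ^ 6) ^ d) :=
      hgrow.trans (mul_le_mul_of_nonneg_left (hlow.trans hA) (by positivity))
    have h6 : 4 * (q : ℝ) * (|C| * (81 * (q : ℝ) ^ 6) ^ d) =
        (4 * |C| * 81 ^ d) * (q : ℝ) ^ (6 * d + 1) := by
      rw [mul_pow, ← pow_mul, pow_succ]; ring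
    rw [h6] at hfin
    have h7 : (q : ℝ) ^ (6 * d + 1) / 2 ^ q < 1 / K := hq1
    rw [div_lt_div_iff₀ (by positivity) hKpos, one_mul] at h7
    have h8 : (4 * |C| * 81 ^ d) * (q : ℝ) ^ (6 * d + 1) ≤ (q : ℝ) ^ (6 * d + 1) * K := by
      rw [hK]
      have : 0 ≤ (q : ℝ) ^ (6 * d + 1) := by positivity
      linarith [mul_comm (4 * |C| * 81 ^ d) ((q : ℝ) ^ (6 * d + 1))]
    linarith
  · -- greedy condition
    intro j r
    rw [hfun, hrow j]
    refine le_trans ?_ (infDist_ge c s α hs hα j)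
    refine Fin.addCases (fun l => ?_) (fun p => ?_) r
    · rw [hrow l]
      exact infDist_le c s α hs hα hcs j l
    · refine (Metric.infDist_le_dist_of_mem (y := 0) (Submodule.zero_mem _)).trans ?_
      rw [dist_zero_right]
      have h1 := QQ_right_norm c s α k L hLpos B hB p
      have h2 : ((k : ℝ) / L) ≤ (α * s ^ (j : ℕ)) ^ 2 := by
        have h3 := hsj j j.2
        have hkR : (0 : ℝ) < k := by exact_mod_cast hkpos
        have h4 : ((k : ℝ) / L) = 1 / (2 * k) := by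
          rw [hLdef]; push_cast; field_simp
        have h5 : α ^ 2 = 1 / k := by
          field_simp
          exact hαk
        rw [h4, mul_pow, h5]
        have h6 : (1 : ℝ) / k * (1 / 2) ≤ 1 / k * (s ^ (j : ℕ)) ^ 2 :=
          mul_le_mul_of_nonneg_left h3 (by positivity)
        have h7 : (1 : ℝ) / (2 * k) = 1 / k * (1 / 2) := by
          field_simp
        rw [h7]; exact h6
      exact le_of_sq_le_sq (h1.trans h2) (by positivity)
  · -- tie rule
    intro j r hr
    rw [hfun, hrow j]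
    refine lt_of_lt_of_le ?_ (infDist_ge c s α hs hα j)
    revert hr
    refine Fin.addCases (fun l => ?_) (fun p => ?_) r
    · intro hr
      have hlj : (l : ℕ) < (j : ℕ) := hr
      rw [hrow l, Metric.infDist_zero_of_mem]
      · positivity
      · exact Submodule.subset_span ⟨l, hlj, rfl⟩
    · intro hr
      exfalso
      have h1 : k + (p : ℕ) < (j : ℕ) := hr
      have := j.2
      omega

end Pool.Agent.S03500
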