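import Pool.Statements.S03650
-- import your own Pool.Agent.* helpers here

set_option autoImplicit false
open Filter Topology
open Pool Pool.MP_8ba4a6_an

namespace Pool.Agent.S03650


/-- an odd, increasing, piecewise linear function: slope `1` on `[-1,1]`, slope `4` outside -/
noncomputable def phi (t : ℝ) : ℝ := t + 3 * max (t - 1) 0 - 3 * max (-t - 1) 0

noncomputable def ff (x y : ℝ) : ℝ := Real.exp (-phi (Real.log x) - Real.log y / 2)

theorem phi_sub_mono {s t : ℝ} (h : s ≤ t) : phi s - s ≤ phi t - t := by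
  unfold phi
  have h1 : max (s - 1) 0 ≤ max (t - 1) 0 := max_le_max (by linarith) le_rfl
  have h2 : max (-t - 1) 0 ≤ max (-s - 1) 0 := max_le_max (by linarith) le_rfl
  linarith

theorem phi_mono {s t : ℝ} (h : s ≤ t) : phi s ≤ phi t := by
  have := phi_sub_mono h
  linarith

theorem phi_eq {t : ℝ} (h : |t| ≤ 1) : phi t = t := by
  rw [abs_le] at h
  unfold phi
  rw [max_eq_right (by linarith), max_eq_right (by linarith)]
  ring

theorem phi_cont : Continuous phi := by
  unfold phi
  fun_prop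

theorem phi_two : phi 2 = 5 := by
  unfold phi
  rw [max_eq_left (by norm_num), max_eq_right (by norm_num)]
  norm_num

theorem phi_neg_two : phi (-2) = -5 := by
  unfold phi
  rw [max_eq_right (by norm_num), max_eq_left (by norm_num)]
  norm_num

theorem log_rec {x : ℕ → ℝ} (h0 : 0 < x 0) (h1 : 0 < x 1)
    (hx : ∀ n : ℕ, x (n + 2) = x (n + 1) * ff (x (n + 1)) (x n)) :
    (∀ n, 0 < x n) ∧ ∀ n, Real.log (x (n + 2)) =
      Real.log (x (n + 1)) - phi (Real.log (x (n + 1))) - Real.log (x n) / 2 := by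
  have hpos : ∀ n, 0 < x n ∧ 0 < x (n + 1) := by
    intro n
    induction n with
    | zero => exact ⟨h0, h1⟩
    | succ n ih =>
      refine ⟨ih.2, ?_⟩
      have := hx n
      rw [show n + 1 + 1 = n + 2 by ring, this]
      exact mul_pos ih.2 (Real.exp_pos _)
  refine ⟨fun n => (hpos n).1, fun n => ?_⟩
  rw [hx n, ff, Real.log_mul (hpos n).2.ne' (Real.exp_pos _).ne', Real.log_exp]
  ring

theorem log_bound {x : ℕ → ℝ} (h0 : 0 < x 0) (h1 : 0 < x 1)
    (hx : ∀ n : ℕ, x (n + 2) = x (n + 1) * ff (x (n + 1)) (x n)) {η : ℝ} (hη : η ≤ 1)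
    (ha : |Real.log (x 0)| ≤ η) (hb : |Real.log (x 1)| ≤ η) :
    ∀ n, |Real.log (x n)| ≤ η * (1 / 2) ^ (n / 2) ∧
      |Real.log (x (n + 1))| ≤ η * (1 / 2) ^ ((n + 1) / 2) := by
  have hη0 : 0 ≤ η := (abs_nonneg _).trans ha
  obtain ⟨hpos, hrec⟩ := log_rec h0 h1 hx
  intro n
  induction n with
  | zero => simpa using ⟨ha, hb⟩
  | succ n ih =>
    refine ⟨ih.2, ?_⟩
    have h2 : |Real.log (x (n + 1))| ≤ 1 := by
      refine ih.2.trans ?_
      have : ((1 : ℝ) / 2) ^ ((n + 1) / 2) ≤ 1 := pow_le_one₀ (by norm_num) (by norm_num)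
      nlinarith
    rw [show n + 1 + 1 = n + 2 by ring, hrec n, phi_eq h2]
    have h3 : (n + 2) / 2 = n / 2 + 1 := by omega
    rw [h3, pow_succ]
    have h4 : Real.log (x (n + 1)) - Real.log (x (n + 1)) - Real.log (x n) / 2 =
      -(Real.log (x n)) * (1 / 2) := by ring
    rw [h4, abs_mul, abs_neg, abs_of_pos (by norm_num : (0 : ℝ) < 1 / 2), ← mul_assoc]
    exact mul_le_mul_of_nonneg_right ih.1 (by norm_num)

/-- The negation of the preceding statement: If f>0 is continuous on the positive quadrant, nonincreasing in x, strictly decreasing in y, x·f(x,x) strictly decreasing, and the unique positive equilibrium of x_{n+1}=x_n f(x_n,x_{n-1}) is locally asymptotically stable, then every positive solution converges to it. -/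
theorem result :
    ¬ (∀ (f : ℝ → ℝ → ℝ) (xbar : ℝ),
      ContinuousOn (fun p : ℝ × ℝ => f p.1 p.2) (Set.Ioi (0:ℝ) ×ˢ Set.Ioi (0:ℝ)) →
      (∀ x y : ℝ, 0 < x → 0 < y → 0 < f x y) →
      (∀ x₁ x₂ y : ℝ, 0 < x₁ → x₁ ≤ x₂ → 0 < y → f x₂ y ≤ f x₁ y) →
      (∀ x y₁ y₂ : ℝ, 0 < x → 0 < y₁ → y₁ < y₂ → f x y₂ < f x y₁) →
      (∀ x₁ x₂ : ℝ, 0 < x₁ → x₁ < x₂ → x₂ * f x₂ x₂ < x₁ * f x₁ x₁) →
      0 < xbar →
      f xbar xbar = 1 →
      (∀ y : ℝ, 0 < y → f y y = 1 → y = xbar) →
      (∀ ε : ℝ, 0 < ε → ∃ δ : ℝ, 0 < δ ∧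
        ∀ x : ℕ → ℝ, 0 < x 0 → 0 < x 1 →
          (∀ n : ℕ, x (n + 2) = x (n + 1) * f (x (n + 1)) (x n)) →
          |x 0 - xbar| + |x 1 - xbar| < δ →
          ∀ n : ℕ, |x n - xbar| < ε) →
      (∃ γ : ℝ, 0 < γ ∧
        ∀ x : ℕ → ℝ, 0 < x 0 → 0 < x 1 →
          (∀ n : ℕ, x (n + 2) = x (n + 1) * f (x (n + 1)) (x n)) →
          |x 0 - xbar| + |x 1 - xbar| < γ →
          Tendsto x atTop (𝓝 xbar)) →
      ∀ x : ℕ → ℝ, 0 < x 0 → 0 < x 1 →
        (∀ n : ℕ, x (n + 2) = x (n + 1) * f (x (n + 1)) (x n)) →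
        Tendsto x atTop (𝓝 xbar)) := by
  intro H
  have hcl : ContinuousOn (fun p : ℝ × ℝ => ff p.1 p.2) (Set.Ioi (0:ℝ) ×ˢ Set.Ioi (0:ℝ)) := by
    unfold ff
    apply Real.continuous_exp.comp_continuousOn
    apply ContinuousOn.sub
    · apply ContinuousOn.neg
      apply phi_cont.comp_continuousOn
      apply ContinuousOn.log continuousOn_fst
      rintro p ⟨hp, -⟩
      exact ne_of_gt hp
    · apply ContinuousOn.div_const
      apply ContinuousOn.log continuousOn_snd
      rintro p ⟨-, hp⟩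
      exact ne_of_gt hp
  -- closeness in terms of logarithms
  have hlog : ∀ η : ℝ, 0 < η → ∃ δ : ℝ, 0 < δ ∧ ∀ y : ℝ, |y - 1| < δ → |Real.log y| < η := by
    intro η hη
    have h1 : ContinuousAt Real.log 1 := Real.continuousAt_log one_ne_zero
    obtain ⟨δ, hδ, h⟩ := Metric.continuousAt_iff.1 h1 η hη
    refine ⟨δ, hδ, fun y hy => ?_⟩
    have := h (show dist y 1 < δ by rwa [Real.dist_eq])
    rwa [Real.dist_eq, Real.log_one, sub_zero] at this
  have hall := H ff 1 hcl (fun x y _ _ => Real.exp_pos _) ?_ ?_ ?_ one_pos ?_ ?_ ?_ ?_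
    (fun n => if n % 2 = 0 then Real.exp 2 else Real.exp (-2)) (by simp; positivity)
    (by simp; positivity) ?_
  · -- the 2-cycle does not converge to `1`
    have hsub : Tendsto (fun n : ℕ => 2 * n) atTop atTop :=
      tendsto_id.const_mul_atTop' (by norm_num)
    have h1 := hall.comp hsub
    have h2 : ((fun n : ℕ => if n % 2 = 0 then Real.exp 2 else Real.exp (-2)) ∘
        fun n : ℕ => 2 * n) = fun _ => Real.exp 2 := by
      funext n
      simp
    rw [h2] at h1
    have h3 := tendsto_nhds_unique h1 tendsto_const_nhds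
    have h4 : (1 : ℝ) < Real.exp 2 := Real.one_lt_exp_iff.2 (by norm_num)
    linarith
  · -- nonincreasing in `x`
    intro x₁ x₂ y h1 h12 hy
    apply Real.exp_le_exp.2
    have := phi_mono (Real.log_le_log h1 h12)
    linarith
  · intro x y₁ y₂ hx h1 h12
    apply Real.exp_lt_exp.2
    have := Real.log_lt_log h1 h12
    linarith
  · intro x₁ x₂ h1 h12
    have e : ∀ x : ℝ, 0 < x → x * ff x x =
        Real.exp (-(phi (Real.log x) - Real.log x) - Real.log x / 2) := by
      intro x hx
      have : x = Real.exp (Real.log x) := (Real.exp_log hx).symm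
      conv_lhs => rw [ff]
      nth_rewrite 1 [this]
      rw [← Real.exp_add]
      congr 1
      ring
    rw [e x₁ h1, e x₂ (h1.trans h12)]
    apply Real.exp_lt_exp.2
    have h3 := Real.log_lt_log h1 h12
    have h4 := phi_sub_mono h3.le
    linarith
  · have : phi 0 = 0 := phi_eq (by simp)
    simp [ff, this]
  · intro y hy h
    have h1 : -phi (Real.log y) - Real.log y / 2 = 0 := by
      have := congrArg Real.log h
      rwa [ff, Real.log_exp, Real.log_one] at this
    have h0 : phi 0 = 0 := phi_eq (by simp)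
    have h2 : Real.log y = 0 := by
      rcases lt_trichotomy (Real.log y) 0 with h3 | h3 | h3
      · have := phi_mono h3.le
        linarith
      · exact h3
      · have := phi_mono h3.le
        linarith
    have := Real.exp_log hy
    rw [h2, Real.exp_zero] at this
    exact this.symm
  · -- stability
    intro ε hε
    have hexp : ContinuousAt Real.exp 0 := Real.continuous_exp.continuousAt
    obtain ⟨η, hη, hη2⟩ := Metric.continuousAt_iff.1 hexp ε hε
    obtain ⟨δ, hδ, hδ2⟩ := hlog (min (η / 2) 1) (by positivity)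
    refine ⟨δ, hδ, fun x h0 h1 hx hd n => ?_⟩
    have ha := (hδ2 (x 0) (by have := abs_nonneg (x 1 - 1); linarith)).le
    have hb := (hδ2 (x 1) (by have := abs_nonneg (x 0 - 1); linarith)).le
    have hn := (log_bound h0 h1 hx (min_le_right _ _) ha hb n).1
    have hpos := (log_rec h0 h1 hx).1 n
    have h3 : |Real.log (x n)| < η := by
      refine lt_of_le_of_lt hn ?_
      have h5 : ((1 : ℝ) / 2) ^ (n / 2) ≤ 1 := pow_le_one₀ (by norm_num) (by norm_num)
      have h6 : 0 ≤ min (η / 2) 1 := by positivity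
      have h7 : min (η / 2) 1 ≤ η / 2 := min_le_left _ _
      nlinarith
    have := hη2 (show dist (Real.log (x n)) 0 < η by rwa [Real.dist_eq, sub_zero])
    rwa [Real.dist_eq, Real.exp_log hpos, Real.exp_zero] at this
  · -- attractivity
    obtain ⟨δ, hδ, hδ2⟩ := hlog 1 one_pos
    refine ⟨δ, hδ, fun x h0 h1 hx hd => ?_⟩
    have ha := (hδ2 (x 0) (by have := abs_nonneg (x 1 - 1); linarith)).le
    have hb := (hδ2 (x 1) (by have := abs_nonneg (x 0 - 1); linarith)).le
    have hn := fun n => (log_bound h0 h1 hx le_rfl ha hb n).1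
    have hpos := (log_rec h0 h1 hx).1
    have h3 : Tendsto (fun n => Real.log (x n)) atTop (𝓝 0) := by
      rw [tendsto_zero_iff_abs_tendsto_zero]
      have h4 : Tendsto (fun n : ℕ => (1 : ℝ) * (1 / 2) ^ (n / 2)) atTop (𝓝 0) := by
        have h5 := (tendsto_pow_atTop_nhds_zero_of_lt_one (r := (1 : ℝ) / 2) (by norm_num)
          (by norm_num)).comp (Nat.tendsto_div_const_atTop (two_ne_zero))
        simpa [Function.comp_def] using h5
      exact squeeze_zero (fun n => abs_nonneg _) hn h4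
    have h4 := (Real.continuous_exp.tendsto 0).comp h3
    rw [Real.exp_zero] at h4
    refine h4.congr fun n => ?_
    exact Real.exp_log (hpos n)
  · -- the 2-cycle is a solution
    intro n
    rcases Nat.even_or_odd n with h | h
    · have e0 : n % 2 = 0 := Nat.even_iff.1 h
      have e1 : (n + 1) % 2 = 1 := by omega
      have e2 : (n + 2) % 2 = 0 := by omega
      simp only [e0, e1, e2, if_true, one_ne_zero, if_false, ff, Real.log_exp]
      rw [phi_neg_two, ← Real.exp_add]
      norm_num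
    · have e0 : n % 2 = 1 := Nat.odd_iff.1 h
      have e1 : (n + 1) % 2 = 0 := by omega
      have e2 : (n + 2) % 2 = 1 := by omega
      simp only [e0, e1, e2, if_true, one_ne_zero, if_false, ff, Real.log_exp]
      rw [phi_two, ← Real.exp_add]
      norm_num

end Pool.Agent.S03650
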