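import Pool.Statements.S03783
-- import your own Pool.Agent.* helpers here

set_option autoImplicit false
open scoped ENNReal Topology
open Filter
open Pool Pool.MP_9ca510_an

namespace Pool.Agent.S03783


section defs
variable {Z : Type} [NormedAddCommGroup Z] [NormedSpace ℂ Z]

def unitSet {k : ℕ} (A : ContinuousMultilinearMap ℂ (fun _ : Fin k => Z) Z) : Set ℝ :=
  {s : ℝ | ∃ x : Z, ‖x‖ ≤ 1 ∧ s = ‖A (fun _ => x)‖}

def radSet {k : ℕ} (A : ContinuousMultilinearMap ℂ (fun _ : Fin k => Z) Z) : Set ℝ :=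
  {s : ℝ | ∃ (x : Z) (φ : Z →L[ℂ] ℂ), ‖x‖ = 1 ∧ ‖φ‖ = 1 ∧ φ x = 1 ∧ s = ‖φ (A (fun _ => x))‖}

def idxSet (k : ℕ) (Z : Type) [NormedAddCommGroup Z] [NormedSpace ℂ Z] : Set ℝ :=
  {r : ℝ | ∃ A : ContinuousMultilinearMap ℂ (fun _ : Fin k => Z) Z,
    sSup (unitSet A) = 1 ∧ r = sSup (radSet A)}

variable {k : ℕ} (A : ContinuousMultilinearMap ℂ (fun _ : Fin k => Z) Z)

theorem norm_le {x : Z} (hx : ‖x‖ ≤ 1) : ‖A (fun _ => x)‖ ≤ ‖A‖ := by
  refine (A.le_opNorm _).trans ?_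
  have : ∏ _i : Fin k, ‖x‖ ≤ 1 := Finset.prod_le_one (fun _ _ => norm_nonneg _) (fun _ _ => hx)
  exact mul_le_of_le_one_right (norm_nonneg _) this

theorem unitSet_bdd : BddAbove (unitSet A) := by
  refine ⟨‖A‖, ?_⟩
  rintro s ⟨x, hx, rfl⟩
  exact norm_le A hx

theorem radSet_bdd : BddAbove (radSet A) := by
  refine ⟨‖A‖, ?_⟩
  rintro s ⟨x, φ, hx, hφ, -, rfl⟩
  refine (φ.le_opNorm _).trans ?_
  rw [hφ, one_mul]
  exact norm_le A hx.le

theorem unitSet_nonempty : (unitSet A).Nonempty := ⟨_, 0, by simp, rfl⟩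

theorem le_one_of_sSup (h : sSup (unitSet A) = 1) {x : Z} (hx : ‖x‖ ≤ 1) :
    ‖A (fun _ => x)‖ ≤ 1 := by
  rw [← h]
  exact le_csSup (unitSet_bdd A) ⟨x, hx, rfl⟩

theorem exists_unit (Z : Type) [NormedAddCommGroup Z] [NormedSpace ℂ Z] [Nontrivial Z] :
    ∃ x : Z, ‖x‖ = 1 := by
  obtain ⟨y, hy⟩ := exists_norm_ne_zero Z
  refine ⟨((‖y‖⁻¹ : ℝ) : ℂ) • y, ?_⟩
  rw [norm_smul, Complex.norm_real, norm_inv, norm_norm, inv_mul_cancel₀ hy]

theorem exists_dual {x : Z} (hx : ‖x‖ = 1) : ∃ φ : Z →L[ℂ] ℂ, ‖φ‖ = 1 ∧ φ x = 1 := by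
  obtain ⟨g, hg1, hg2⟩ := exists_dual_vector ℂ x (by rw [hx]; norm_num)
  exact ⟨g, hg1, by rw [hg2, hx]; simp⟩

theorem radSet_nonempty [Nontrivial Z] : (radSet A).Nonempty := by
  obtain ⟨x, hx⟩ := exists_unit Z
  obtain ⟨φ, h1, h2⟩ := exists_dual hx
  exact ⟨_, x, φ, hx, h1, h2, rfl⟩

theorem radSup_nonneg : 0 ≤ sSup (radSet A) := by
  apply Real.sSup_nonneg
  rintro s ⟨x, φ, -, -, -, rfl⟩
  exact norm_nonneg _

theorem idxSet_bdd (k : ℕ) : BddBelow (idxSet k Z) := by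
  refine ⟨0, ?_⟩
  rintro r ⟨A, -, rfl⟩
  exact radSup_nonneg A

theorem idx_nonneg (k : ℕ) : 0 ≤ sInf (idxSet k Z) := by
  apply Real.sInf_nonneg
  rintro r ⟨A, -, rfl⟩
  exact radSup_nonneg A

theorem idxSet_nonempty [Nontrivial Z] (k : ℕ) : (idxSet k Z).Nonempty := by
  obtain ⟨x, hx⟩ := exists_unit Z
  obtain ⟨φ, h1, h2⟩ := exists_dual hx
  let A : ContinuousMultilinearMap ℂ (fun _ : Fin k => Z) Z :=
    ((ContinuousMultilinearMap.mkPiAlgebra ℂ (Fin k) ℂ).compContinuousLinearMap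
      (fun _ => φ)).smulRight x
  have hA : ∀ y : Z, ‖A (fun _ => y)‖ = ‖φ y‖ ^ k := by
    intro y
    simp [A, norm_smul, hx]
  refine ⟨sSup (radSet A), A, ?_, rfl⟩
  apply le_antisymm
  · apply csSup_le (unitSet_nonempty A)
    rintro s ⟨y, hy, rfl⟩
    rw [hA]
    apply pow_le_one₀ (norm_nonneg _)
    calc ‖φ y‖ ≤ ‖φ‖ * ‖y‖ := φ.le_opNorm y
      _ ≤ 1 := by rw [h1, one_mul]; exact hy
  · have : (1 : ℝ) = ‖A (fun _ => x)‖ := by rw [hA, h2]; simp
    rw [this]
    exact le_csSup (unitSet_bdd A) ⟨x, hx.le, rfl⟩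

end defs

section gen
variable {Z : Type} [NormedAddCommGroup Z] [NormedSpace ℂ Z]
  {Λ : Type} [Nonempty Λ] {X : Λ → Type} [∀ i, NormedAddCommGroup (X i)]
  [∀ i, NormedSpace ℂ (X i)] [∀ i, Nontrivial (X i)]

theorem lower {k : ℕ} (π : ∀ i, Z →L[ℂ] X i) (j : ∀ i, X i →L[ℂ] Z)
    (h1 : ∀ i z, ‖π i z‖ ≤ ‖z‖) (h2 : ∀ z (C : ℝ), (∀ i, ‖π i z‖ ≤ C) → ‖z‖ ≤ C)
    (h3 : ∀ i x, π i (j i x) = x) (h4 : ∀ i l x, l ≠ i → π l (j i x) = 0)
    (A : ContinuousMultilinearMap ℂ (fun _ : Fin k => Z) Z) (hA : sSup (unitSet A) = 1) :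
    (⨅ i, sInf (idxSet k (X i))) ≤ sSup (radSet A) := by
  classical
  set n : ℝ := ⨅ i, sInf (idxSet k (X i)) with hn
  have hn0 : 0 ≤ n := Real.iInf_nonneg fun i => idx_nonneg k
  have hni : ∀ i, n ≤ sInf (idxSet k (X i)) := fun i =>
    ciInf_le ⟨0, by rintro _ ⟨i, rfl⟩; exact idx_nonneg k⟩ i
  have hjw : ∀ i (u : X i) (w : Z), π i w = 0 → ‖j i u + w‖ ≤ max ‖u‖ ‖w‖ := by
    intro i u w hw
    apply h2
    intro l
    rw [map_add]
    by_cases hl : l = i
    · subst hl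
      rw [h3, hw, add_zero]
      exact le_max_left _ _
    · rw [h4 i l u hl, zero_add]
      exact (h1 l w).trans (le_max_right _ _)
  have key : ∀ ε : ℝ, 0 < ε → ε < 1 → (1 - ε) * n ≤ sSup (radSet A) := by
    intro ε hε0 hε1
    -- a near-norming vector
    obtain ⟨_, ⟨x, hx, rfl⟩, hxε⟩ := exists_lt_of_lt_csSup (unitSet_nonempty A)
      (show 1 - ε < sSup (unitSet A) by rw [hA]; linarith)
    obtain ⟨i, hi⟩ : ∃ i, 1 - ε < ‖π i (A (fun _ => x))‖ := by
      by_contra hcon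
      push Not at hcon
      exact absurd (h2 _ _ hcon) (not_le.2 hxε)
    set w : Z := x - j i (π i x) with hw
    have hπw : π i w = 0 := by rw [hw, map_sub, h3, sub_self]
    have hwn : ‖w‖ ≤ 1 := by
      refine le_trans (h2 _ ‖x‖ ?_) hx
      intro l
      by_cases hl : l = i
      · subst hl; rw [hπw]; simp
      · rw [hw, map_sub, h4 i l _ hl, sub_zero]; exact h1 l x
    -- a unit vector in the direction of `π i x`
    obtain ⟨e, he, hex⟩ : ∃ e : X i, ‖e‖ = 1 ∧ ((‖π i x‖ : ℝ) : ℂ) • e = π i x := by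
      by_cases h0 : π i x = 0
      · obtain ⟨e, he⟩ := exists_unit (X i)
        exact ⟨e, he, by rw [h0]; simp⟩
      · have hne : ‖π i x‖ ≠ 0 := norm_ne_zero_iff.2 h0
        refine ⟨((‖π i x‖⁻¹ : ℝ) : ℂ) • π i x, ?_, ?_⟩
        · rw [norm_smul, Complex.norm_real, norm_inv, norm_norm, inv_mul_cancel₀ hne]
        · rw [smul_smul, ← Complex.ofReal_mul, mul_inv_cancel₀ hne, Complex.ofReal_one, one_smul]
    -- maximum modulus
    obtain ⟨t, ht, htε⟩ : ∃ t : ℂ, ‖t‖ = 1 ∧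
        1 - ε < ‖π i (A (fun _ => j i (t • e) + w))‖ := by
      by_contra hcon
      push Not at hcon
      set g : ℂ → X i := fun t => π i (A (fun _ => j i (t • e) + w)) with hg
      have hgd : Differentiable ℂ g := by
        have hA' : Differentiable ℂ (fun m : Fin k → Z => A m) :=
          (A.contDiff (n := 1)).differentiable (by norm_num)
        have h5 : Differentiable ℂ (fun t : ℂ => (fun _ : Fin k => j i (t • e) + w)) := by
          rw [differentiable_pi]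
          intro _
          fun_prop
        exact (π i).differentiable.comp (hA'.comp h5)
      have h6 : ‖g ((‖π i x‖ : ℝ) : ℂ)‖ ≤ 1 - ε := by
        apply Complex.norm_le_of_forall_mem_frontier_norm_le (U := Metric.ball (0 : ℂ) 1)
          Metric.isBounded_ball hgd.diffContOnCl
        · intro z hz
          rw [frontier_ball (0 : ℂ) one_ne_zero] at hz
          exact hcon z (by simpa using hz)
        · rw [closure_ball (0 : ℂ) one_ne_zero, mem_closedBall_zero_iff, Complex.norm_real,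
            norm_norm]
          exact (h1 i x).trans hx
      have h7 : g ((‖π i x‖ : ℝ) : ℂ) = π i (A (fun _ => x)) := by
        rw [hg]
        simp only [hex, hw]
        congr 2
        funext _
        abel
      rw [h7] at h6
      linarith
    set u0 : X i := t • e with hu0
    have hu0n : ‖u0‖ = 1 := by rw [hu0, norm_smul, ht, he, one_mul]
    obtain ⟨f0, hf0, hf0u⟩ := exists_dual hu0n
    set T : X i →L[ℂ] Z := j i + f0.smulRight w with hT
    have hTu : ∀ u, T u = j i u + f0 u • w := by intro u; simp [hT]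
    have hTn : ∀ u : X i, ‖u‖ ≤ 1 → ‖T u‖ ≤ 1 := by
      intro u hu
      rw [hTu]
      refine (hjw i u (f0 u • w) (by rw [map_smul, hπw, smul_zero])).trans ?_
      apply max_le hu
      rw [norm_smul]
      have : ‖f0 u‖ ≤ 1 := by
        calc ‖f0 u‖ ≤ ‖f0‖ * ‖u‖ := f0.le_opNorm u
          _ ≤ 1 := by rw [hf0, one_mul]; exact hu
      calc ‖f0 u‖ * ‖w‖ ≤ 1 * 1 := mul_le_mul this hwn (norm_nonneg _) zero_le_one
        _ = 1 := one_mul 1
    have hπT : ∀ u, π i (T u) = u := by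
      intro u
      rw [hTu, map_add, h3, map_smul, hπw, smul_zero, add_zero]
    set B : ContinuousMultilinearMap ℂ (fun _ : Fin k => X i) (X i) :=
      (π i).compContinuousMultilinearMap (A.compContinuousLinearMap (fun _ => T)) with hB
    have hBu : ∀ u, B (fun _ => u) = π i (A (fun _ => T u)) := by intro u; simp [hB]
    set β : ℝ := sSup (unitSet B) with hβ
    have hβε : 1 - ε < β := by
      refine lt_of_lt_of_le ?_ (le_csSup (unitSet_bdd B) ⟨u0, hu0n.le, rfl⟩)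
      rw [hBu, hTu, hf0u, one_smul]
      exact htε
    have hβ0 : 0 < β := by linarith
    set B' : ContinuousMultilinearMap ℂ (fun _ : Fin k => X i) (X i) :=
      ((β⁻¹ : ℝ) : ℂ) • B with hB'
    have hB'u : ∀ u, B' (fun _ => u) = ((β⁻¹ : ℝ) : ℂ) • B (fun _ => u) := by
      intro u; simp [hB']
    have hB'n : ∀ u, ‖B' (fun _ => u)‖ = β⁻¹ * ‖B (fun _ => u)‖ := by
      intro u
      rw [hB'u, norm_smul, Complex.norm_real, Real.norm_of_nonneg (inv_nonneg.2 hβ0.le)]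
    have hB'1 : sSup (unitSet B') = 1 := by
      apply le_antisymm
      · apply csSup_le (unitSet_nonempty B')
        rintro s ⟨u, hu, rfl⟩
        rw [hB'n, inv_mul_le_iff₀ hβ0, mul_one]
        exact le_csSup (unitSet_bdd B) ⟨u, hu, rfl⟩
      · have h8 : β ≤ β * sSup (unitSet B') := by
          rw [hβ]
          apply csSup_le (unitSet_nonempty B)
          rintro s ⟨u, hu, rfl⟩
          rw [← hβ]
          have h9 : ‖B (fun _ => u)‖ = β * ‖B' (fun _ => u)‖ := by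
            rw [hB'n, mul_inv_cancel_left₀ hβ0.ne']
          rw [h9]
          exact mul_le_mul_of_nonneg_left (le_csSup (unitSet_bdd B') ⟨u, hu, rfl⟩) hβ0.le
        nlinarith
    have h10 : sInf (idxSet k (X i)) ≤ sSup (radSet B') :=
      csInf_le (idxSet_bdd k) ⟨B', hB'1, rfl⟩
    have h11 : sSup (radSet B') ≤ β⁻¹ * sSup (radSet A) := by
      apply csSup_le (radSet_nonempty B')
      rintro s ⟨u, φ, hu, hφ, hφu, rfl⟩
      rw [hB'u, map_smul, norm_smul, Complex.norm_real,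
        Real.norm_of_nonneg (inv_nonneg.2 hβ0.le)]
      apply mul_le_mul_of_nonneg_left _ (inv_nonneg.2 hβ0.le)
      apply le_csSup (radSet_bdd A)
      have hψ : (φ.comp (π i)) (T u) = 1 := by
        rw [ContinuousLinearMap.comp_apply, hπT, hφu]
      have hTu1 : ‖T u‖ = 1 := by
        apply le_antisymm (hTn u hu.le)
        rw [← hu, ← hπT u]
        refine le_trans (h1 i _) (le_of_eq ?_)
        rw [hπT]
      refine ⟨T u, φ.comp (π i), hTu1, ?_, hψ, ?_⟩
      · apply le_antisymm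
        · refine (ContinuousLinearMap.opNorm_comp_le _ _).trans ?_
          rw [hφ, one_mul]
          exact ContinuousLinearMap.opNorm_le_bound _ zero_le_one
            (fun z => by rw [one_mul]; exact h1 i z)
        · have := (φ.comp (π i)).le_opNorm (T u)
          rw [hψ, hTu1, mul_one, norm_one] at this
          exact this
      · rw [hBu, ContinuousLinearMap.comp_apply]
    have h12 : β * n ≤ sSup (radSet A) := by
      have := ((hni i).trans h10).trans h11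
      calc β * n ≤ β * (β⁻¹ * sSup (radSet A)) := mul_le_mul_of_nonneg_left this hβ0.le
        _ = _ := mul_inv_cancel_left₀ hβ0.ne' _
    refine le_trans ?_ h12
    exact mul_le_mul_of_nonneg_right hβε.le hn0
  -- let `ε → 0`
  by_contra hcon
  push Not at hcon
  have hv := radSup_nonneg A
  set v := sSup (radSet A)
  have hnpos : 0 < n := lt_of_le_of_lt hv hcon
  have h13 := key ((n - v) / (2 * n)) (by apply div_pos <;> linarith)
    (by rw [div_lt_one (by linarith)]; linarith)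
  have h14 : (1 - (n - v) / (2 * n)) * n = (n + v) / 2 := by
    field_simp
    ring
  rw [h14] at h13
  linarith

theorem upper {k : ℕ} (π : ∀ i, Z →L[ℂ] X i) (j : ∀ i, X i →L[ℂ] Z)
    (h1 : ∀ i z, ‖π i z‖ ≤ ‖z‖) (h2 : ∀ z (C : ℝ), (∀ i, ‖π i z‖ ≤ C) → ‖z‖ ≤ C)
    (h3 : ∀ i x, π i (j i x) = x) (h4 : ∀ i l x, l ≠ i → π l (j i x) = 0) (i : Λ)
    (B : ContinuousMultilinearMap ℂ (fun _ : Fin k => X i) (X i)) (hB : sSup (unitSet B) = 1) :
    sInf (idxSet k Z) ≤ sSup (radSet B) := by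
  classical
  have hjw : ∀ (u : X i) (w : Z), π i w = 0 → ‖j i u + w‖ ≤ max ‖u‖ ‖w‖ := by
    intro u w hw
    apply h2
    intro l
    rw [map_add]
    by_cases hl : l = i
    · subst hl
      rw [h3, hw, add_zero]
      exact le_max_left _ _
    · rw [h4 i l u hl, zero_add]
      exact (h1 l w).trans (le_max_right _ _)
  have hj : ∀ u, ‖j i u‖ = ‖u‖ := by
    intro u
    apply le_antisymm
    · have := hjw u 0 (map_zero _)
      simpa using this
    · have := h1 i (j i u)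
      rwa [h3] at this
  set A : ContinuousMultilinearMap ℂ (fun _ : Fin k => Z) Z :=
    (j i).compContinuousMultilinearMap (B.compContinuousLinearMap (fun _ => π i)) with hA
  have hAz : ∀ z, A (fun _ => z) = j i (B (fun _ => π i z)) := by intro z; simp [hA]
  have hset : unitSet A = unitSet B := by
    ext s
    constructor
    · rintro ⟨z, hz, rfl⟩
      exact ⟨π i z, (h1 i z).trans hz, by rw [hAz, hj]⟩
    · rintro ⟨u, hu, rfl⟩
      exact ⟨j i u, by rw [hj]; exact hu, by rw [hAz, hj, h3]⟩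
  have hZ : Nontrivial Z := by
    obtain ⟨e, he⟩ := exists_unit (X i)
    refine ⟨j i e, 0, fun h => ?_⟩
    have := hj e
    rw [h, he, norm_zero] at this
    exact zero_ne_one this
  refine (csInf_le (idxSet_bdd k) ⟨A, by rw [hset]; exact hB, rfl⟩).trans ?_
  apply csSup_le (radSet_nonempty A)
  rintro s ⟨z, ψ, hz, hψ, hψz, rfl⟩
  rw [hAz]
  set φ : X i →L[ℂ] ℂ := ψ.comp (j i) with hφ
  have hφn : ‖φ‖ ≤ 1 := by
    refine (ContinuousLinearMap.opNorm_comp_le _ _).trans ?_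
    rw [hψ, one_mul]
    exact ContinuousLinearMap.opNorm_le_bound _ zero_le_one
      (fun u => by rw [one_mul, hj])
  have e1 : ψ (j i (B fun _ => π i z)) = φ (B fun _ => π i z) := rfl
  rw [e1]
  by_cases hφ0 : φ = 0
  · rw [hφ0]
    simp only [zero_apply, norm_zero]
    exact radSup_nonneg B
  have hφpos : 0 < ‖φ‖ := norm_pos_iff.2 hφ0
  set w : Z := z - j i (π i z) with hw
  have hπw : π i w = 0 := by rw [hw, map_sub, h3, sub_self]
  have hwn : ‖w‖ ≤ 1 := by
    refine le_trans (h2 _ ‖z‖ ?_) hz.le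
    intro l
    by_cases hl : l = i
    · subst hl; rw [hπw]; simp
    · rw [hw, map_sub, h4 i l _ hl, sub_zero]; exact h1 l z
  have hsum : φ (π i z) + ψ w = 1 := by
    rw [hφ, ContinuousLinearMap.comp_apply, ← map_add, hw, ← hψz]
    congr 1
    abel
  -- `Re φ u ≤ Re φ (π i z)` for `‖u‖ ≤ 1`
  have hre : ∀ u : X i, ‖u‖ ≤ 1 → (φ u).re ≤ (φ (π i z)).re := by
    intro u hu
    have h5 : ‖j i u + w‖ ≤ 1 := (hjw u w hπw).trans (max_le hu hwn)
    have h6 : (ψ (j i u + w)).re ≤ 1 := by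
      refine (Complex.re_le_norm _).trans ((ψ.le_opNorm _).trans ?_)
      rw [hψ, one_mul]
      exact h5
    rw [map_add, Complex.add_re] at h6
    have h7 := congrArg Complex.re hsum
    rw [Complex.add_re, Complex.one_re] at h7
    have h8 : (φ u).re = (ψ (j i u)).re := rfl
    rw [h8]
    linarith
  have hnorm : ‖φ‖ ≤ (φ (π i z)).re := by
    have h0 : 0 ≤ (φ (π i z)).re := by
      have := hre 0 (by simp)
      simpa using this
    apply ContinuousLinearMap.opNorm_le_bound _ h0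
    intro u
    by_cases hu0 : u = 0
    · rw [hu0]; simp
    by_cases hφu : φ u = 0
    · rw [hφu, norm_zero]; positivity
    have hun : ‖u‖ ≠ 0 := norm_ne_zero_iff.2 hu0
    have hφun : ‖φ u‖ ≠ 0 := norm_ne_zero_iff.2 hφu
    -- rotate
    set c : ℂ := ((‖u‖⁻¹ : ℝ) : ℂ) * (((‖φ u‖⁻¹ : ℝ) : ℂ) * (starRingEnd ℂ) (φ u)) with hc
    have hcn : ‖c • u‖ ≤ 1 := by
      rw [norm_smul, hc, norm_mul, norm_mul, Complex.norm_real, Complex.norm_real, norm_inv,
        norm_inv, norm_norm, norm_norm, RCLike.norm_conj]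
      rw [inv_mul_cancel₀ hφun, mul_one, inv_mul_cancel₀ hun]
    have h9 := hre (c • u) hcn
    have h10 : φ (c • u) = ((‖u‖⁻¹ * ‖φ u‖ : ℝ) : ℂ) := by
      rw [map_smul, smul_eq_mul, hc]
      have : (starRingEnd ℂ) (φ u) * φ u = ((‖φ u‖ ^ 2 : ℝ) : ℂ) := by
        rw [mul_comm, Complex.mul_conj, Complex.normSq_eq_norm_sq]
      calc _ = ((‖u‖⁻¹ : ℝ) : ℂ) * (((‖φ u‖⁻¹ : ℝ) : ℂ) * ((starRingEnd ℂ) (φ u) * φ u)) := by
            ring
        _ = _ := by
            rw [this, ← Complex.ofReal_mul, ← Complex.ofReal_mul]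
            congr 1
            field_simp
    rw [h10, Complex.ofReal_re, inv_mul_le_iff₀ (lt_of_le_of_ne (norm_nonneg _) (Ne.symm hun))]
      at h9
    rw [mul_comm]
    exact h9
  have hle1 : ‖φ (π i z)‖ ≤ ‖φ‖ * ‖π i z‖ := φ.le_opNorm _
  have hre_le := Complex.re_le_norm (φ (π i z))
  have hπz : ‖π i z‖ = 1 := by
    apply le_antisymm ((h1 i z).trans hz.le)
    by_contra hcon
    push Not at hcon
    have : ‖φ‖ * ‖π i z‖ < ‖φ‖ * 1 := mul_lt_mul_of_pos_left hcon hφpos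
    linarith
  have hφz : φ (π i z) = ((‖φ‖ : ℝ) : ℂ) := by
    rw [hπz, mul_one] at hle1
    have h15 : (φ (π i z)).re = ‖φ (π i z)‖ := le_antisymm hre_le (hle1.trans hnorm)
    have h16 : ‖φ (π i z)‖ = ‖φ‖ := le_antisymm hle1 (hnorm.trans hre_le)
    have h17 : φ (π i z) = ((‖φ (π i z)‖ : ℝ) : ℂ) := by
      have := Complex.re_eq_norm.1 h15
      apply Complex.ext
      · rw [Complex.ofReal_re, h15]
      · rw [Complex.ofReal_im]
        exact this.2.symm
    rw [h17, h16]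
  -- normalise
  set φ' : X i →L[ℂ] ℂ := ((‖φ‖⁻¹ : ℝ) : ℂ) • φ with hφ'
  have hmem : ‖φ' (B fun _ => π i z)‖ ≤ sSup (radSet B) := by
    apply le_csSup (radSet_bdd B)
    refine ⟨π i z, φ', hπz, ?_, ?_, rfl⟩
    · rw [hφ', norm_smul, Complex.norm_real, norm_inv, norm_norm, inv_mul_cancel₀ hφpos.ne']
    · rw [hφ', smul_apply, hφz, smul_eq_mul, ← Complex.ofReal_mul,
        inv_mul_cancel₀ hφpos.ne', Complex.ofReal_one]
  have heq : ‖φ (B fun _ => π i z)‖ = ‖φ‖ * ‖φ' (B fun _ => π i z)‖ := by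
    rw [hφ', smul_apply, norm_smul, Complex.norm_real, norm_inv, norm_norm,
      mul_inv_cancel_left₀ hφpos.ne']
  rw [heq]
  calc ‖φ‖ * ‖φ' (B fun _ => π i z)‖ ≤ 1 * ‖φ' (B fun _ => π i z)‖ :=
        mul_le_mul_of_nonneg_right hφn (norm_nonneg _)
    _ ≤ _ := by rw [one_mul]; exact hmem

theorem main_gen {k : ℕ} (π : ∀ i, Z →L[ℂ] X i) (j : ∀ i, X i →L[ℂ] Z)
    (h1 : ∀ i z, ‖π i z‖ ≤ ‖z‖) (h2 : ∀ z (C : ℝ), (∀ i, ‖π i z‖ ≤ C) → ‖z‖ ≤ C)
    (h3 : ∀ i x, π i (j i x) = x) (h4 : ∀ i l x, l ≠ i → π l (j i x) = 0) :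
    sInf (idxSet k Z) = ⨅ i, sInf (idxSet k (X i)) := by
  apply le_antisymm
  · apply le_ciInf
    intro i
    apply le_csInf (idxSet_nonempty k)
    rintro r ⟨B, hB, rfl⟩
    exact upper π j h1 h2 h3 h4 i B hB
  · have hZ : Nontrivial Z := by
      obtain ⟨i⟩ := ‹Nonempty Λ›
      obtain ⟨e, he⟩ := exists_unit (X i)
      refine ⟨j i e, 0, fun h => ?_⟩
      have := h3 i e
      rw [h, map_zero] at this
      rw [← this, norm_zero] at he
      exact zero_ne_one he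
    apply le_csInf (idxSet_nonempty k)
    rintro r ⟨A, hA, rfl⟩
    exact lower π j h1 h2 h3 h4 A hA

end gen


section inst
variable {Λ : Type} [Nonempty Λ] {X : Λ → Type} [∀ i, NormedAddCommGroup (X i)]
  [∀ i, NormedSpace ℂ (X i)]

noncomputable def ev (i : Λ) : lp X ∞ →L[ℂ] X i :=
  LinearMap.mkContinuous
    { toFun := fun f => f i
      map_add' := fun f g => by simp
      map_smul' := fun c f => by simp } 1
    (fun f => by
      rw [one_mul]
      exact lp.norm_apply_le_norm ENNReal.top_ne_zero f i)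

theorem ev_apply (i : Λ) (f : lp X ∞) : ev i f = f i := rfl

theorem norm_ev (i : Λ) (f : lp X ∞) : ‖ev i f‖ ≤ ‖f‖ :=
  lp.norm_apply_le_norm ENNReal.top_ne_zero f i

theorem norm_le_of_ev (f : lp X ∞) (C : ℝ) (h : ∀ i, ‖ev i f‖ ≤ C) : ‖f‖ ≤ C := by
  have hC : 0 ≤ C := by
    obtain ⟨i⟩ := ‹Nonempty Λ›
    exact (norm_nonneg _).trans (h i)
  exact lp.norm_le_of_forall_le hC h

open Classical in
noncomputable def sg (i : Λ) : X i →L[ℂ] lp X ∞ :=
  LinearMap.mkContinuous (lp.lsingle (𝕜 := ℂ) ∞ i) 1 (fun x => by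
    rw [one_mul]
    apply norm_le_of_ev
    intro l
    rw [ev_apply]
    change ‖lp.single ∞ i x l‖ ≤ ‖x‖
    by_cases hl : l = i
    · subst hl
      rw [lp.single_apply_self]
    · rw [lp.single_apply_ne _ _ _ hl, norm_zero]
      exact norm_nonneg _)

theorem ev_sg (i : Λ) (x : X i) : ev i (sg i x) = x := by
  classical
  change lp.single ∞ i x i = x
  convert lp.single_apply_self ∞ i x

theorem ev_sg_ne (i l : Λ) (x : X i) (hl : l ≠ i) : ev l (sg i x) = 0 := by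
  classical
  change lp.single ∞ i x l = 0
  convert lp.single_apply_ne ∞ i x hl

end inst

/-- For any nonempty family of nontrivial complex Banach spaces and every k ≥ 1, the order-k polynomial numerical index of their c0-sum and of their ell-infinity-sum both equal the infimum of the order-k polynomial numerical indices of the summands. -/
theorem result :
    ∀ (Λ : Type) [Nonempty Λ] (X : Λ → Type) [∀ i, NormedAddCommGroup (X i)]
      [∀ i, NormedSpace ℂ (X i)] [∀ i, CompleteSpace (X i)] [∀ i, Nontrivial (X i)]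
      (C : Submodule ℂ (lp X ∞)),
      (∀ f : lp X ∞, f ∈ C ↔ Tendsto (fun i => ‖f i‖) cofinite (𝓝 0)) →
      ∀ k : ℕ, 1 ≤ k →
        (sInf {r : ℝ | ∃ A : ContinuousMultilinearMap ℂ (fun _ : Fin k => C) C,
            sSup {s : ℝ | ∃ x : C, ‖x‖ ≤ 1 ∧ s = ‖A (fun _ => x)‖} = 1 ∧
            r = sSup {s : ℝ | ∃ (x : C) (φ : C →L[ℂ] ℂ), ‖x‖ = 1 ∧ ‖φ‖ = 1 ∧ φ x = 1 ∧
                  s = ‖φ (A (fun _ => x))‖}}
          = ⨅ i, sInf {r : ℝ | ∃ A : ContinuousMultilinearMap ℂ (fun _ : Fin k => X i) (X i),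
            sSup {s : ℝ | ∃ x : X i, ‖x‖ ≤ 1 ∧ s = ‖A (fun _ => x)‖} = 1 ∧
            r = sSup {s : ℝ | ∃ (x : X i) (φ : X i →L[ℂ] ℂ), ‖x‖ = 1 ∧ ‖φ‖ = 1 ∧ φ x = 1 ∧
                  s = ‖φ (A (fun _ => x))‖}}) ∧
        (sInf {r : ℝ | ∃ A : ContinuousMultilinearMap ℂ (fun _ : Fin k => lp X ∞) (lp X ∞),
            sSup {s : ℝ | ∃ x : lp X ∞, ‖x‖ ≤ 1 ∧ s = ‖A (fun _ => x)‖} = 1 ∧
            r = sSup {s : ℝ | ∃ (x : lp X ∞) (φ : lp X ∞ →L[ℂ] ℂ), ‖x‖ = 1 ∧ ‖φ‖ = 1 ∧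
                  φ x = 1 ∧ s = ‖φ (A (fun _ => x))‖}}
          = ⨅ i, sInf {r : ℝ | ∃ A : ContinuousMultilinearMap ℂ (fun _ : Fin k => X i) (X i),
            sSup {s : ℝ | ∃ x : X i, ‖x‖ ≤ 1 ∧ s = ‖A (fun _ => x)‖} = 1 ∧
            r = sSup {s : ℝ | ∃ (x : X i) (φ : X i →L[ℂ] ℂ), ‖x‖ = 1 ∧ ‖φ‖ = 1 ∧ φ x = 1 ∧
                  s = ‖φ (A (fun _ => x))‖}}) := by
  intro Λ _ X _ _ _ _ C hC k hk
  have hmem : ∀ (i : Λ) (x : X i), sg i x ∈ C := by
    intro i x
    rw [hC]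
    apply tendsto_const_nhds.congr'
    have hfin : {l : Λ | ¬ l ≠ i}.Finite := by
      refine (Set.finite_singleton i).subset ?_
      intro l hl
      simpa using hl
    have : ∀ᶠ l in cofinite, l ≠ i := hfin
    filter_upwards [this] with l hl
    have h := ev_sg_ne i l x hl
    rw [ev_apply] at h
    rw [h, norm_zero]
  refine ⟨?_, ?_⟩
  · exact main_gen (Z := C) (fun i => (ev i).comp C.subtypeL)
      (fun i => (sg i).codRestrict C (hmem i))
      (fun i z => norm_ev i (z : lp X ∞))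
      (fun z c h => norm_le_of_ev (z : lp X ∞) c h)
      (fun i x => ev_sg i x) (fun i l x hl => ev_sg_ne i l x hl)
  · exact main_gen (Z := lp X ∞) ev sg norm_ev norm_le_of_ev ev_sg ev_sg_ne


end Pool.Agent.S03783
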