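import Pool.Statements.S04150
import Pool.Agent.Yule.Erg

set_option autoImplicit false
open MeasureTheory Filter Topology
open scoped ENNReal
open Pool Pool.MP_c92a3e_an

namespace Pool.Agent.S04150

/-- The negation of the preceding statement: On real L^p of a σ-finite measure, 1≤p≤∞, every strongly continuous semigroup whose operators at t>0 are positive kernel operators and whose Cesàro means converge for every f also has T_t f convergent as t→∞ for every f. -/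
theorem result :
    ¬ (∀ (Ω : Type) [MeasurableSpace Ω] (μ : Measure Ω) [SigmaFinite μ] (p : ℝ≥0∞) [Fact (1 ≤ p)]
    (T : ℝ → Lp ℝ p μ →L[ℝ] Lp ℝ p μ),
    T 0 = ContinuousLinearMap.id ℝ (Lp ℝ p μ) →
    (∀ s t : ℝ, 0 ≤ s → 0 ≤ t → T (s + t) = (T s).comp (T t)) →
    (∀ f : Lp ℝ p μ, ContinuousOn (fun t => T t f) (Set.Ici 0)) →
    (∀ t : ℝ, 0 < t → ∃ k : Ω × Ω → ℝ, Measurable k ∧ (∀ z, 0 ≤ k z) ∧
        ∀ f : Lp ℝ p μ, ∀ᵐ x ∂μ, Integrable (fun y => k (x, y) * f y) μ ∧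
          T t f x = ∫ y, k (x, y) * f y ∂μ) →
    (∀ f : Lp ℝ p μ, ∃ g : Lp ℝ p μ,
        Tendsto (fun s : ℝ => s⁻¹ • ∫ t in (0:ℝ)..s, T t f) atTop (𝓝 g)) →
    ∀ f : Lp ℝ p μ, ∃ g : Lp ℝ p μ, Tendsto (fun t : ℝ => T t f) atTop (𝓝 g)) := by
  intro H
  exact Pool.Agent.Yule.no_lim (H ℕ (Measure.count : Measure ℕ) 2 Pool.Agent.Yule.T
    Pool.Agent.Yule.T_zero
    (fun s t hs ht => Pool.Agent.Yule.T_add s t hs ht)
    (fun f => Pool.Agent.Yule.cont f)
    (fun t _ => Pool.Agent.Yule.kernel t)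
    (fun f => Pool.Agent.Yule.ergodic f)
    (Pool.Agent.Yule.e 0))

end Pool.Agent.S04150
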