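import Pool.Statements.S04250

set_option autoImplicit false
open scoped ComplexOrder
open Pool Pool.MP_d42ff2_an

namespace Pool.Agent.S04250

open Matrix

abbrev M2 : Type := Matrix (Fin 2) (Fin 2) ℂ

lemma ev_quad {A : M2} (hA : A.IsHermitian) (s d : ℝ) (h : A * A = (s : ℂ) • A - (d : ℂ) • (1 : M2))
    (j : Fin 2) : hA.eigenvalues j * hA.eigenvalues j = s * hA.eigenvalues j - d := by
  set v : Fin 2 → ℂ := ⇑(hA.eigenvectorBasis j) with hv
  have hv0 : v ≠ 0 := by
    have := hA.eigenvectorBasis.orthonormal.ne_zero j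
    intro h0
    apply this
    ext i
    exact congrFun h0 i
  have h1 : A *ᵥ v = (hA.eigenvalues j : ℂ) • v := by
    have := hA.mulVec_eigenvectorBasis j
    rw [← hv] at this
    rw [this]; rfl
  have h2 : (A * A) *ᵥ v = ((hA.eigenvalues j : ℂ) * (hA.eigenvalues j : ℂ)) • v := by
    rw [← Matrix.mulVec_mulVec, h1, Matrix.mulVec_smul, h1, smul_smul]
  have h3 : (A * A) *ᵥ v = ((s : ℂ) * (hA.eigenvalues j : ℂ) - (d : ℂ)) • v := by
    rw [h, Matrix.sub_mulVec, Matrix.smul_mulVec, h1, Matrix.smul_mulVec, Matrix.one_mulVec, smul_smul,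
      sub_smul]
  rw [h2] at h3
  have h4 := smul_left_injective ℂ hv0 h3
  have h5 : ((hA.eigenvalues j * hA.eigenvalues j : ℝ) : ℂ) = ((s * hA.eigenvalues j - d : ℝ) : ℂ) := by
    push_cast; exact h4
  exact_mod_cast h5

lemma pow_form {A : M2} (hA : A.IsHermitian) (c : ℝ) (hc : 0 < c) (h : A * A = (c : ℂ) • A)
    (q : ℝ) (hq : 0 < q) :
    (hA.eigenvectorUnitary : M2) * Matrix.diagonal (fun j => ((hA.eigenvalues j ^ q : ℝ) : ℂ))
      * star (hA.eigenvectorUnitary : M2) = ((c ^ (q - 1) : ℝ) : ℂ) • A := by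
  have hev : ∀ j, hA.eigenvalues j ^ q = c ^ (q - 1) * hA.eigenvalues j := by
    intro j
    have h1 := ev_quad hA c 0 (by rw [h]; simp) j
    have h2 : hA.eigenvalues j * (hA.eigenvalues j - c) = 0 := by
      rw [mul_sub, h1]; ring
    rcases mul_eq_zero.1 h2 with h3 | h3
    · rw [h3, Real.zero_rpow hq.ne', mul_zero]
    · rw [sub_eq_zero.1 h3, Real.rpow_sub_one hc.ne']
      field_simp
  have hd : Matrix.diagonal (fun j => ((hA.eigenvalues j ^ q : ℝ) : ℂ)) =
      ((c ^ (q - 1) : ℝ) : ℂ) • Matrix.diagonal (fun j => (hA.eigenvalues j : ℂ)) := by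
    rw [← Matrix.diagonal_smul]
    congr 1
    funext j
    rw [hev j]
    simp
  rw [hd, Matrix.mul_smul, Matrix.smul_mul]
  congr 1
  have := hA.spectral_theorem
  rw [Unitary.conjStarAlgAut_apply] at this
  conv_rhs => rw [this]
  rfl

noncomputable def A0 : M2 := !![1, 0; 0, 0]
noncomputable def B0 : M2 := !![36, 48; 48, 64]

lemma A0_psd : A0.PosSemidef := by
  have : A0 = (!![1, 0; 0, 0] : M2)ᴴ * (!![1, 0; 0, 0] : M2) := by
    ext i j; fin_cases i <;> fin_cases j <;> simp [A0, Matrix.mul_apply, Fin.sum_univ_two]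
  rw [this]
  exact Matrix.posSemidef_conjTranspose_mul_self _

lemma B0_psd : B0.PosSemidef := by
  have : B0 = (!![6, 8; 0, 0] : M2)ᴴ * (!![6, 8; 0, 0] : M2) := by
    ext i j; fin_cases i <;> fin_cases j <;> simp [B0, Matrix.mul_apply, Fin.sum_univ_two, map_ofNat] <;> norm_num
  rw [this]
  exact Matrix.posSemidef_conjTranspose_mul_self _

lemma A0_sq : A0 * A0 = ((1 : ℝ) : ℂ) • A0 := by
  ext i j; fin_cases i <;> fin_cases j <;> simp [A0, Matrix.mul_apply, Fin.sum_univ_two]

lemma B0_sq : B0 * B0 = ((100 : ℝ) : ℂ) • B0 := by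
  ext i j; fin_cases i <;> fin_cases j <;> simp [B0, Matrix.mul_apply, Fin.sum_univ_two] <;> norm_num

noncomputable def M0 : M2 := !![36/5, 24/5; 24/5, 0]
noncomputable def N0 : M2 := !![37, 48; 48, 64]

lemma rpow100 : (100 : ℝ) ^ ((1/2 : ℝ) - 1) = 1/10 := by
  have h1 : ((1/2 : ℝ) - 1) = -(1/2) := by norm_num
  rw [h1, Real.rpow_neg (by norm_num), ← Real.sqrt_eq_rpow]
  have : Real.sqrt 100 = 10 := by
    rw [show (100 : ℝ) = 10 ^ 2 by norm_num]; exact Real.sqrt_sq (by norm_num)
  rw [this]; norm_num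

lemma ev0_eq {A : M2} (hA : A.IsHermitian) (i : Fin (Fintype.card (Fin 2))) :
    hA.eigenvalues₀ i = hA.eigenvalues ((Fintype.equivOfCardEq (Fintype.card_fin _)) i) := by
  unfold Matrix.IsHermitian.eigenvalues
  rw [Equiv.symm_apply_apply]

def i1 : Fin (Fintype.card (Fin 2)) := ⟨1, by simp⟩

lemma lowN : (144/25 : ℝ) ≤ (Matrix.isHermitian_conjTranspose_mul_self M0).eigenvalues₀ i1 := by
  rw [ev0_eq]
  set j := (Fintype.equivOfCardEq (Fintype.card_fin _)) i1
  have h := ev_quad (Matrix.isHermitian_conjTranspose_mul_self M0) (2448/25) (331776/625) (by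
    ext i j; fin_cases i <;> fin_cases j <;>
      simp [M0, Matrix.mul_apply, Fin.sum_univ_two, Matrix.conjTranspose_apply, map_ofNat] <;> norm_num) j
  set x := (Matrix.isHermitian_conjTranspose_mul_self M0).eigenvalues j
  have h2 : (x - 144/25) * (x - 2304/25) = 0 := by linarith
  rcases mul_eq_zero.1 h2 with h3 | h3 <;> linarith

lemma highK : (Matrix.isHermitian_conjTranspose_mul_self N0).eigenvalues₀ i1 < 144/25 := by
  by_contra hc
  push Not at hc
  set hK := Matrix.isHermitian_conjTranspose_mul_self N0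
  have hall : ∀ j, (144/25 : ℝ) ≤ hK.eigenvalues j := by
    intro j
    refine hc.trans ?_
    unfold Matrix.IsHermitian.eigenvalues
    apply hK.eigenvalues₀_antitone
    rw [Fin.le_def]
    have := ((Fintype.equivOfCardEq (Fintype.card_fin _)).symm j : Fin (Fintype.card (Fin 2))).2
    have h2 : Fintype.card (Fin 2) = 2 := Fintype.card_fin 2
    show _ ≤ 1
    omega
  have ht := hK.trace_eq_sum_eigenvalues
  have hd := hK.det_eq_prod_eigenvalues
  rw [Fin.sum_univ_two] at ht
  rw [Fin.prod_univ_two] at hd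
  have e1 : (N0ᴴ * N0).trace = 10073 := by
    simp [N0, Matrix.trace, Matrix.mul_apply, Fin.sum_univ_two, Matrix.conjTranspose_apply, map_ofNat]; norm_num
  have e2 : (N0ᴴ * N0).det = 4096 := by
    rw [Matrix.det_fin_two]
    simp [N0, Matrix.mul_apply, Fin.sum_univ_two, Matrix.conjTranspose_apply, map_ofNat]; norm_num
  rw [e1] at ht
  rw [e2] at hd
  have ht' : (10073 : ℝ) = hK.eigenvalues 0 + hK.eigenvalues 1 := by
    apply Complex.ofReal_injective; push_cast; exact ht
  have hd' : (4096 : ℝ) = hK.eigenvalues 0 * hK.eigenvalues 1 := by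
    apply Complex.ofReal_injective; push_cast; exact hd
  have a0 := hall 0
  have a1 := hall 1
  nlinarith [mul_nonneg (sub_nonneg.2 a0) (sub_nonneg.2 a1)]

/-- The negation of the preceding statement: For all complex PSD n×n matrices A, B and 0<p<1, each singular value (in decreasing order) of A^p B^(1-p) + B^p A^(1-p) is at most the corresponding singular value of A+B. -/
theorem result :
    ¬ (∀ n : ℕ, ∀ A B : Matrix (Fin n) (Fin n) ℂ, ∀ hA : A.PosSemidef, ∀ hB : B.PosSemidef,
      ∀ p : ℝ, 0 < p → p < 1 →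
        ∀ i : Fin (Fintype.card (Fin n)),
          Real.sqrt ((Matrix.isHermitian_conjTranspose_mul_self
              ((hA.isHermitian.eigenvectorUnitary : Matrix (Fin n) (Fin n) ℂ)
                  * Matrix.diagonal (fun j => ((hA.isHermitian.eigenvalues j ^ p : ℝ) : ℂ))
                  * star (hA.isHermitian.eigenvectorUnitary : Matrix (Fin n) (Fin n) ℂ)
                * ((hB.isHermitian.eigenvectorUnitary : Matrix (Fin n) (Fin n) ℂ)
                  * Matrix.diagonal (fun j => ((hB.isHermitian.eigenvalues j ^ (1 - p) : ℝ) : ℂ))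
                  * star (hB.isHermitian.eigenvectorUnitary : Matrix (Fin n) (Fin n) ℂ))
                + (hB.isHermitian.eigenvectorUnitary : Matrix (Fin n) (Fin n) ℂ)
                  * Matrix.diagonal (fun j => ((hB.isHermitian.eigenvalues j ^ p : ℝ) : ℂ))
                  * star (hB.isHermitian.eigenvectorUnitary : Matrix (Fin n) (Fin n) ℂ)
                * ((hA.isHermitian.eigenvectorUnitary : Matrix (Fin n) (Fin n) ℂ)
                  * Matrix.diagonal (fun j => ((hA.isHermitian.eigenvalues j ^ (1 - p) : ℝ) : ℂ))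
                  * star (hA.isHermitian.eigenvectorUnitary : Matrix (Fin n) (Fin n) ℂ)))).eigenvalues₀ i)
            ≤ Real.sqrt ((Matrix.isHermitian_conjTranspose_mul_self (A + B)).eigenvalues₀ i)) := by
  intro H
  have h := H 2 A0 B0 A0_psd B0_psd (1/2) (by norm_num) (by norm_num) i1
  have e1 : ((1 : ℝ) - 1/2) = 1/2 := by norm_num
  rw [e1] at h
  have hE : ((A0_psd.isHermitian.eigenvectorUnitary : Matrix (Fin 2) (Fin 2) ℂ)
                  * Matrix.diagonal (fun j => ((A0_psd.isHermitian.eigenvalues j ^ (1/2 : ℝ) : ℝ) : ℂ))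
                  * star (A0_psd.isHermitian.eigenvectorUnitary : Matrix (Fin 2) (Fin 2) ℂ)
                * ((B0_psd.isHermitian.eigenvectorUnitary : Matrix (Fin 2) (Fin 2) ℂ)
                  * Matrix.diagonal (fun j => ((B0_psd.isHermitian.eigenvalues j ^ (1/2 : ℝ) : ℝ) : ℂ))
                  * star (B0_psd.isHermitian.eigenvectorUnitary : Matrix (Fin 2) (Fin 2) ℂ))
                + (B0_psd.isHermitian.eigenvectorUnitary : Matrix (Fin 2) (Fin 2) ℂ)
                  * Matrix.diagonal (fun j => ((B0_psd.isHermitian.eigenvalues j ^ (1/2 : ℝ) : ℝ) : ℂ))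
                  * star (B0_psd.isHermitian.eigenvectorUnitary : Matrix (Fin 2) (Fin 2) ℂ)
                * ((A0_psd.isHermitian.eigenvectorUnitary : Matrix (Fin 2) (Fin 2) ℂ)
                  * Matrix.diagonal (fun j => ((A0_psd.isHermitian.eigenvalues j ^ (1/2 : ℝ) : ℝ) : ℂ))
                  * star (A0_psd.isHermitian.eigenvectorUnitary : Matrix (Fin 2) (Fin 2) ℂ))) = M0 := by
    rw [pow_form A0_psd.isHermitian 1 one_pos A0_sq (1/2) (by norm_num),
      pow_form B0_psd.isHermitian 100 (by norm_num) B0_sq (1/2) (by norm_num), rpow100, Real.one_rpow]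
    ext i j; fin_cases i <;> fin_cases j <;>
      simp [A0, B0, M0, Matrix.mul_apply, Fin.sum_univ_two] <;> norm_num
  rw [hE] at h
  have hS : A0 + B0 = N0 := by
    ext i j; fin_cases i <;> fin_cases j <;> simp [A0, B0, N0] <;> norm_num
  rw [hS] at h
  have h1 := lowN
  have h2 := highK
  have h3 : Real.sqrt ((Matrix.isHermitian_conjTranspose_mul_self N0).eigenvalues₀ i1) < Real.sqrt (144/25) :=
    (Real.sqrt_lt_sqrt_iff_of_pos (by norm_num)).2 h2
  have h4 := Real.sqrt_le_sqrt h1
  linarith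

end Pool.Agent.S04250
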