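import Pool.Statements.S04258
-- import your own Pool.Agent.* helpers here

set_option autoImplicit false
open Pool Pool.MP_d4c9a2_an

namespace Pool.Agent.S04258

noncomputable section

/-!
Counterexample in dimension 3: the monomial map `F(x,y,z) = (z, x^3, y^3 z^2)`.
The order of `F^k` is `min (x_k, y_k)` where `(x,y,z)_{k+1} = (z_k, 3 x_k, 3 y_k + 2 z_k)`, start `(1,1,1)`.
The difference `x_k - y_k` satisfies `d_{k+2} = - d_{k+1} - 3 d_k` (complex roots), and is never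
divisible by 3 for `k ≥ 1`.  An integer linear recursion for the order would make it eventually
periodic mod 3, hence the sign of `d_k` eventually periodic, which complex characteristic
roots forbid.
-/

def u : ℕ → (Fin 3 → ℕ)
  | 0 => fun _ => 1
  | (k+1) => ![u k 2, 3 * u k 0, 3 * u k 1 + 2 * u k 2]

def F (z : Fin 3 → ℂ) : Fin 3 → ℂ := ![z 2, z 0 ^ 3, z 1 ^ 3 * z 2 ^ 2]

lemma F_hom (k : ℕ) (t : ℂ) (z : Fin 3 → ℂ) :
    F^[k] (t • z) = fun i => t ^ (u k i) * F^[k] z i := by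
  induction k with
  | zero => ext i; simp [u]
  | succ k ih =>
    rw [Function.iterate_succ_apply', ih, Function.iterate_succ_apply']
    ext i
    fin_cases i <;> simp [F, u] <;> ring

lemma F_one (k : ℕ) : F^[k] (fun _ => 1) = fun _ => 1 := by
  induction k with
  | zero => rfl
  | succ k ih =>
    rw [Function.iterate_succ_apply', ih]; ext i; fin_cases i <;> simp [F]

lemma F_smooth : ContDiff ℂ (⊤ : ℕ∞) F := by
  rw [contDiff_pi]
  intro i
  fin_cases i
  · exact contDiff_apply ℂ ℂ (2 : Fin 3)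
  · exact (contDiff_apply ℂ ℂ (0 : Fin 3)).pow 3
  · exact ((contDiff_apply ℂ ℂ (1 : Fin 3)).pow 3).mul ((contDiff_apply ℂ ℂ (2 : Fin 3)).pow 2)

lemma iter_smooth (k : ℕ) : ContDiff ℂ (⊤ : ℕ∞) (F^[k]) := by
  induction k with
  | zero => exact contDiff_id
  | succ k ih => rw [Function.iterate_succ']; exact F_smooth.comp ih

lemma order_eq (g : (Fin 3 → ℂ) → (Fin 3 → ℂ)) (hg : ContDiff ℂ (⊤ : ℕ∞) g) (e : Fin 3 → ℕ)
    (hhom : ∀ (t : ℂ) z, g (t • z) = fun i => t^(e i) * g z i) (hone : g (fun _ => 1) = fun _ => 1)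
    (c : ℕ) (hc : ∃ i, e i = c) (hmin : ∀ i, c ≤ e i) :
    sInf {m : ℕ | iteratedFDeriv ℂ m g 0 ≠ 0} = c := by
  have hzero : ∀ m < c, iteratedFDeriv ℂ m g 0 = 0 := by
    intro m hm
    let L : (Fin 3 → ℂ) →L[ℂ] (Fin 3 → ℂ) :=
      ContinuousLinearMap.pi (fun i => (2:ℂ)^(e i) • ContinuousLinearMap.proj i)
    let D : (Fin 3 → ℂ) →L[ℂ] (Fin 3 → ℂ) := (2:ℂ) • ContinuousLinearMap.id ℂ _
    have hcomp : g ∘ D = L ∘ g := by
      funext z
      show g ((2:ℂ) • z) = L (g z)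
      rw [hhom]
      ext i
      simp [L]
    have hm' : ((m : ℕ∞) : WithTop ℕ∞) ≤ ((⊤ : ℕ∞) : WithTop ℕ∞) := by
      exact_mod_cast le_top
    have h1 := D.iteratedFDeriv_comp_right hg 0 (i := m) hm'
    have h2 := L.iteratedFDeriv_comp_left (hg.contDiffAt (x := 0)) (i := m) hm'
    rw [hcomp, h2, map_zero] at h1
    ext v i
    have h3 := congrFun (congrArg (fun M => M v) h1) i
    have h4 : (iteratedFDeriv ℂ m g 0) (fun j => (2:ℂ) • v j) = (2:ℂ)^m • (iteratedFDeriv ℂ m g 0) v := by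
      rw [ContinuousMultilinearMap.map_smul_univ]; simp
    have h5 : (2:ℂ)^(e i) * (iteratedFDeriv ℂ m g 0 v i) = (2:ℂ)^m * (iteratedFDeriv ℂ m g 0 v i) := by
      have := congrFun h4 i
      simp only [Pi.smul_apply, smul_eq_mul] at this
      rw [← this]
      simpa [L, D] using h3
    have h6 : ((2:ℂ)^(e i) - (2:ℂ)^m) * (iteratedFDeriv ℂ m g 0 v i) = 0 := by
      rw [sub_mul, h5, sub_self]
    rcases mul_eq_zero.1 h6 with h | h
    · exfalso
      have h7 : (2:ℂ)^(e i) = (2:ℂ)^m := sub_eq_zero.1 h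
      have h8 : (2:ℕ)^(e i) = (2:ℕ)^m := by exact_mod_cast h7
      have h9 := Nat.pow_right_injective (le_refl 2) h8
      have := hmin i
      omega
    · simpa using h
  have hne : iteratedFDeriv ℂ c g 0 ≠ 0 := by
    intro h0
    obtain ⟨i, hi⟩ := hc
    let l : ℂ →L[ℂ] (Fin 3 → ℂ) := ContinuousLinearMap.pi (fun _ => ContinuousLinearMap.id ℂ ℂ)
    let p : (Fin 3 → ℂ) →L[ℂ] ℂ := ContinuousLinearMap.proj i
    have hm' : ((c : ℕ∞) : WithTop ℕ∞) ≤ ((⊤ : ℕ∞) : WithTop ℕ∞) := by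
      exact_mod_cast le_top
    have h1 := l.iteratedFDeriv_comp_right hg 0 (i := c) hm'
    have h2 := p.iteratedFDeriv_comp_left (f := g ∘ l) ((hg.comp l.contDiff).contDiffAt (x := 0)) (i := c) hm'
    rw [h1, map_zero, h0] at h2
    have hfun : p ∘ (g ∘ l) = fun t : ℂ => t ^ c := by
      funext t
      show g (l t) i = t ^ c
      have : l t = t • (fun _ => (1:ℂ)) := by ext j; simp [l]
      rw [this, hhom, hone]
      simp [hi]
    rw [hfun] at h2
    have h3 : iteratedDeriv c (fun t : ℂ => t ^ c) 0 = 0 := by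
      rw [iteratedDeriv_eq_iteratedFDeriv, h2]
      simp
    have h4 : iteratedDeriv c (fun t : ℂ => t ^ c) 0 = (Nat.factorial c : ℂ) := by
      simp [Nat.descFactorial_self]
    rw [h4] at h3
    exact (Nat.cast_ne_zero.2 (Nat.factorial_ne_zero c)) h3
  apply le_antisymm
  · exact Nat.sInf_le hne
  · apply le_csInf ⟨c, hne⟩
    intro m hm
    by_contra hlt
    exact hm (hzero m (not_le.1 hlt))

lemma F_fderiv_det (z : Fin 3 → ℂ) : (fderiv ℂ F z).det = 9 * z 0 ^ 2 * z 1 ^ 2 * z 2 ^ 2 := by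
  let J : Matrix (Fin 3) (Fin 3) ℂ :=
    !![0,0,1; 3 * z 0 ^ 2, 0, 0; 0, 3 * z 1 ^ 2 * z 2 ^ 2, z 1 ^ 3 * (2 * z 2)]
  have h : HasFDerivAt F (LinearMap.toContinuousLinearMap (Matrix.toLin' J)) z := by
    rw [hasFDerivAt_pi']
    have h0 : HasFDerivAt (fun x : Fin 3 → ℂ => x 0) (ContinuousLinearMap.proj (R := ℂ) (0 : Fin 3)) z := hasFDerivAt_apply (0 : Fin 3) z
    have h1 : HasFDerivAt (fun x : Fin 3 → ℂ => x 1) (ContinuousLinearMap.proj (R := ℂ) (1 : Fin 3)) z := hasFDerivAt_apply (1 : Fin 3) z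
    have h2 : HasFDerivAt (fun x : Fin 3 → ℂ => x 2) (ContinuousLinearMap.proj (R := ℂ) (2 : Fin 3)) z := hasFDerivAt_apply (2 : Fin 3) z
    intro i
    fin_cases i
    · refine (h2.congr_fderiv ?_)
      ext v
      simp [J, Matrix.toLin'_apply, dotProduct, Fin.sum_univ_three]
    · refine ((h0.pow 3).congr_fderiv ?_)
      ext v
      simp [J, Matrix.toLin'_apply, dotProduct, Fin.sum_univ_three]
    · refine (((h1.pow 3).mul (h2.pow 2)).congr_fderiv ?_)
      ext v
      simp [J, Matrix.toLin'_apply, dotProduct, Fin.sum_univ_three]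
      ring
  rw [h.fderiv]
  have h3 : (LinearMap.toContinuousLinearMap (Matrix.toLin' J)).det = J.det := by
    rw [LinearMap.det_toContinuousLinearMap, LinearMap.det_toLin']
  rw [h3, Matrix.det_fin_three]
  simp [J]
  ring

lemma no_pos (e : ℕ → ℝ) (P Q : ℝ) (h : P^2 < 4*Q) (hpos : ∀ j, 0 < e j)
    (hrec : ∀ j, e (j+2) = P * e (j+1) - Q * e j) : False := by
  have hδ : 0 < Q - P^2/4 := by linarith
  set δ := Q - P^2/4 with hδdef
  let r : ℕ → ℝ := fun j => e (j+1) / e j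
  have hr : ∀ j, 0 < r j := fun j => div_pos (hpos _) (hpos _)
  have hstep : ∀ j, r (j+1) = P - Q / r j := by
    intro j
    have h1 := (hpos j).ne'
    have h2 := (hpos (j+1)).ne'
    show e (j+2) / e (j+1) = P - Q / (e (j+1) / e j)
    rw [hrec]; field_simp
  have hdec : ∀ j, r (j+1) ≤ r j - δ / r j := by
    intro j
    rw [hstep]
    have h0 := hr j
    have h3 : P - Q / r j - (r j - δ / r j) = -((r j - P/2)^2 / r j) := by
      rw [hδdef]; field_simp; ring
    have h4 : 0 ≤ (r j - P/2)^2 / r j := by positivity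
    linarith
  have hle : ∀ j, r j ≤ r 0 := by
    intro j
    induction j with
    | zero => exact le_refl _
    | succ j ih =>
      have := hdec j
      have h5 : 0 ≤ δ / r j := (div_pos hδ (hr j)).le
      linarith
  have hdec2 : ∀ j, r (j+1) ≤ r j - δ / r 0 := by
    intro j
    have h5 : δ / r 0 ≤ δ / r j := div_le_div_of_nonneg_left hδ.le (hr j) (hle j)
    have := hdec j
    linarith
  have hlin : ∀ j : ℕ, r j ≤ r 0 - j * (δ / r 0) := by
    intro j
    induction j with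
    | zero => simp
    | succ j ih =>
      have := hdec2 j
      push_cast
      linarith
  obtain ⟨n, hn⟩ := exists_nat_gt (r 0 / (δ / r 0))
  have h6 := hlin n
  have h7 := hr n
  have h8 : 0 < δ / r 0 := div_pos hδ (hr 0)
  rw [div_lt_iff₀ h8] at hn
  linarith

def dd (k : ℕ) : ℤ := (u k 0 : ℤ) - u k 1

lemma dd_rec (k : ℕ) : dd (k+2) = - dd (k+1) - 3 * dd k := by
  simp [dd, u]; ring

lemma dd_mod (k : ℕ) : ¬ (3 ∣ dd (k+1)) := by
  induction k with
  | zero => simp [dd, u]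
  | succ k ih =>
    have := dd_rec k
    intro h
    apply ih
    have h2 : dd (k+1) = -(dd (k+1+1)) - 3 * dd k := by
      have : dd (k+1+1) = dd (k+2) := rfl
      linarith
    rw [h2]
    exact dvd_sub (dvd_neg.2 h) (dvd_mul_right 3 _)

def mu : ℂ := ⟨-1/2, Real.sqrt 11 / 2⟩

lemma mu_sq : mu^2 = - mu - 3 := by
  have h11 : Real.sqrt 11 * Real.sqrt 11 = 11 := Real.mul_self_sqrt (by norm_num)
  apply Complex.ext
  · simp [mu, sq]; nlinarith
  · simp [mu, sq]; ring

lemma dd_mu (k : ℕ) : Real.sqrt 11 * (dd k : ℝ) = -4 * (mu^k).im ∧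
    Real.sqrt 11 * (dd (k+1) : ℝ) = -4 * (mu^(k+1)).im := by
  induction k with
  | zero =>
    constructor
    · simp [dd, u]
    · simp [dd, u, mu]; ring
  | succ k ih =>
    refine ⟨ih.2, ?_⟩
    have h1 : mu^(k+1+1) = - mu^(k+1) - 3 * mu^k := by
      have : mu^(k+1+1) = mu^k * mu^2 := by ring
      rw [this, mu_sq]; ring
    have h2 : dd (k+1+1) = - dd (k+1) - 3 * dd k := dd_rec k
    rw [h1, h2]
    push_cast
    have h3 : (- mu^(k+1) - 3 * mu^k).im = - (mu^(k+1)).im - 3 * (mu^k).im := by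
      simp
    rw [h3]
    linarith [ih.1, ih.2]

lemma dd_step (T m : ℕ) : (dd (m + 2*T) : ℝ) = 2 * (mu^T).re * (dd (m+T) : ℝ) -
    Complex.normSq (mu^T) * (dd m : ℝ) := by
  have hs : Real.sqrt 11 ≠ 0 := by positivity
  have key : mu^(m+2*T) = ((2 * (mu^T).re : ℝ) : ℂ) * mu^(m+T) - ((Complex.normSq (mu^T) : ℝ) : ℂ) * mu^m := by
    have h1 : mu^(m+2*T) = mu^m * (mu^T)^2 := by ring
    have h2 : mu^(m+T) = mu^m * mu^T := by ring
    have h3 : (mu^T)^2 = ((2 * (mu^T).re : ℝ) : ℂ) * mu^T - ((Complex.normSq (mu^T) : ℝ) : ℂ) := by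
      generalize mu^T = w
      apply Complex.ext
      · simp [sq, Complex.normSq_apply]; ring
      · simp [sq]; ring
    rw [h1, h2, h3]; ring
  have hi := congrArg Complex.im key
  rw [Complex.sub_im, Complex.im_ofReal_mul, Complex.im_ofReal_mul] at hi
  have e1 := (dd_mu (m+2*T)).1
  have e2 := (dd_mu (m+T)).1
  have e3 := (dd_mu m).1
  apply mul_left_cancel₀ hs
  rw [mul_sub, e1, hi]
  have : Real.sqrt 11 * (2 * (mu^T).re * (dd (m+T) : ℝ)) = 2 * (mu^T).re * (Real.sqrt 11 * (dd (m+T) : ℝ)) := by ring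
  rw [this, e2]
  have : Real.sqrt 11 * (Complex.normSq (mu^T) * (dd m : ℝ)) = Complex.normSq (mu^T) * (Real.sqrt 11 * (dd m : ℝ)) := by ring
  rw [this, e3]
  ring

lemma no_const_sign (T M : ℕ) (hT : 1 ≤ T) (s : ℝ) (h : ∀ j : ℕ, 0 < s * (dd (M + j * T) : ℝ)) : False := by
  apply no_pos (fun j => s * (dd (M + j * T) : ℝ)) (2 * (mu^T).re) (Complex.normSq (mu^T)) ?_ h
  · intro j
    have h1 := dd_step T (M + j * T)
    have e1 : M + (j+2) * T = M + j * T + 2 * T := by ring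
    have e2 : M + (j+1) * T = M + j * T + T := by ring
    simp only [e1, e2]
    rw [h1]; ring
  · have h0 : (mu^T).im ≠ 0 := by
      intro h0
      have h1 := (dd_mu T).1
      rw [h0, mul_zero] at h1
      have hs : Real.sqrt 11 ≠ 0 := by positivity
      have h2 : (dd T : ℝ) = 0 := by
        rcases mul_eq_zero.1 h1 with h | h
        · exact absurd h hs
        · exact h
      have h3 : dd T = 0 := by exact_mod_cast h2
      obtain ⟨t, rfl⟩ : ∃ t, T = t + 1 := ⟨T - 1, by omega⟩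
      exact dd_mod t (h3 ▸ dvd_zero 3)
    rw [Complex.normSq_apply]
    have : 0 < (mu^T).im * (mu^T).im := mul_self_pos.2 h0
    nlinarith

def cc (k : ℕ) : ℕ := min (u k 0) (u k 1)

lemma cc_le (k : ℕ) : ∀ i, cc k ≤ u k i := by
  intro i
  fin_cases i
  · exact min_le_left _ _
  · exact min_le_right _ _
  · cases k with
    | zero => simp [cc, u]
    | succ k =>
      have : cc (k+1) ≤ u (k+1) 0 := min_le_left _ _
      refine this.trans ?_
      simp [u]
      omega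

lemma cc_mem (k : ℕ) : ∃ i, u k i = cc k := by
  rcases min_choice (u k 0) (u k 1) with h | h
  · exact ⟨0, h.symm⟩
  · exact ⟨1, h.symm⟩

lemma cc_order (k : ℕ) : sInf {m : ℕ | iteratedFDeriv ℂ m (F^[k]) 0 ≠ 0} = cc k :=
  order_eq _ (iter_smooth k) (u k) (F_hom k) (F_one k) _ (cc_mem k) (cc_le k)

lemma cc_iff (k : ℕ) : ((cc (k+1) : ℕ) : ZMod 3) = ((u (k+1) 0 : ℕ) : ZMod 3) ↔ dd (k+1) < 0 := by
  constructor
  · intro h
    by_contra hlt
    have h1 : u (k+1) 1 ≤ u (k+1) 0 := by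
      unfold dd at hlt; omega
    have h2 : cc (k+1) = u (k+1) 1 := min_eq_right h1
    rw [h2] at h
    apply dd_mod k
    have h3 : ((dd (k+1) : ℤ) : ZMod 3) = 0 := by
      unfold dd; push_cast; rw [h]; ring
    exact (ZMod.intCast_zmod_eq_zero_iff_dvd _ 3).1 h3
  · intro h
    have h1 : u (k+1) 0 ≤ u (k+1) 1 := by
      unfold dd at h; omega
    have h2 : cc (k+1) = u (k+1) 0 := min_eq_left h1
    rw [h2]

lemma not_rec (d : ℕ) (a : Fin d → ℤ) (K : ℕ)
    (h : ∀ k : ℕ, K ≤ k → ((cc (k+d) : ℕ) : ℤ) = ∑ i : Fin d, a i * ((cc (k + (i:ℕ)) : ℕ) : ℤ)) : False := by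
  let S : ℕ → (Fin d → ZMod 3) × (Fin 3 → ZMod 3) :=
    fun k => (fun i => (cc (k + (i:ℕ)) : ZMod 3), fun i => (u k i : ZMod 3))
  obtain ⟨n, m, hnm, hS⟩ : ∃ n m, n < m ∧ S (K+n) = S (K+m) := by
    obtain ⟨n, m, hne, hS⟩ := Finite.exists_ne_map_eq_of_infinite (fun n : ℕ => S (K+n))
    rcases lt_or_gt_of_ne hne with h | h
    · exact ⟨n, m, h, hS⟩
    · exact ⟨m, n, h, hS.symm⟩
  set k1 := K + n with hk1
  set k2 := K + m with hk2
  have hu : ∀ j i, ((u (k1 + j) i : ℕ) : ZMod 3) = ((u (k2 + j) i : ℕ) : ZMod 3) := by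
    intro j
    induction j with
    | zero => exact fun i => congrFun (congrArg Prod.snd hS) i
    | succ j ih =>
      intro i
      have e1 : k1 + (j+1) = (k1 + j) + 1 := by ring
      have e2 : k2 + (j+1) = (k2 + j) + 1 := by ring
      rw [e1, e2]
      fin_cases i
      · simpa [u] using ih 2
      · simp [u, ih 0]
      · simp [u, ih 1, ih 2]
  have hc : ∀ j, ((cc (k1 + j) : ℕ) : ZMod 3) = ((cc (k2 + j) : ℕ) : ZMod 3) := by
    intro j
    induction j using Nat.strong_induction_on with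
    | _ j ih =>
      by_cases hj : j < d
      · exact congrFun (congrArg Prod.fst hS) ⟨j, hj⟩
      · obtain ⟨j', rfl⟩ : ∃ j', j = j' + d := ⟨j - d, by omega⟩
        have r1 := congrArg (fun x : ℤ => (x : ZMod 3)) (h (k1 + j') (by omega))
        have r2 := congrArg (fun x : ℤ => (x : ZMod 3)) (h (k2 + j') (by omega))
        push_cast at r1 r2
        rw [← add_assoc, ← add_assoc, r1, r2]
        apply Finset.sum_congr rfl
        intro i _
        have := ih (j' + (i:ℕ)) (by have := i.2; omega)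
        rw [← add_assoc, ← add_assoc] at this
        rw [this]
  obtain ⟨T, hT, hk⟩ : ∃ T, 1 ≤ T ∧ k2 = k1 + T := ⟨m - n, by omega, by omega⟩
  have hper : ∀ j, dd (k1 + 1 + j) < 0 ↔ dd (k1 + 1 + j + T) < 0 := by
    intro j
    have e1 : k1 + 1 + j = (k1 + j) + 1 := by ring
    have e2 : k1 + 1 + j + T = (k2 + j) + 1 := by rw [hk]; ring
    rw [e2, e1, ← cc_iff, ← cc_iff]
    have := hc (j+1)
    have h2 := hu (j+1) 0
    rw [← add_assoc, ← add_assoc] at this h2
    rw [this, h2]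
  have hall : ∀ j : ℕ, dd (k1 + 1) < 0 ↔ dd (k1 + 1 + j * T) < 0 := by
    intro j
    induction j with
    | zero => simp
    | succ j ih =>
      rw [ih, hper]
      have : k1 + 1 + j * T + T = k1 + 1 + (j+1) * T := by ring
      rw [this]
  by_cases hs : dd (k1 + 1) < 0
  · apply no_const_sign T (k1 + 1) hT (-1)
    intro j
    have h1 : dd (k1 + 1 + j * T) < 0 := (hall j).1 hs
    have h2 : ((dd (k1 + 1 + j * T) : ℤ) : ℝ) < 0 := by exact_mod_cast h1
    linarith
  · apply no_const_sign T (k1 + 1) hT 1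
    intro j
    have h1 : ¬ dd (k1 + 1 + j * T) < 0 := fun h => hs ((hall j).2 h)
    have h3 : dd (k1 + 1 + j * T) ≠ 0 := by
      intro h0
      have := dd_mod (k1 + j * T)
      have e : k1 + j * T + 1 = k1 + 1 + j * T := by ring
      rw [e, h0] at this
      exact this (dvd_zero 3)
    have h4 : 0 < dd (k1 + 1 + j * T) := by omega
    have h2 : (0:ℝ) < ((dd (k1 + 1 + j * T) : ℤ) : ℝ) := by exact_mod_cast h4
    linarith

/-- The negation of the preceding statement: For every holomorphic germ f of ℂⁿ fixing 0 that is non-invertible and dominant, the orders of vanishing c(f^k) of its iterates at 0 eventually satisfy a linear recursion with integer coefficients. -/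
theorem result :
    ¬ (∀ (n : ℕ) (f : (Fin n → ℂ) → (Fin n → ℂ)),
      AnalyticAt ℂ f 0 → f 0 = 0 →
      (fderiv ℂ f 0).det = 0 →
      (∀ ε : ℝ, 0 < ε → ∃ z : Fin n → ℂ, ‖z‖ < ε ∧ (fderiv ℂ f z).det ≠ 0) →
      ∃ (d : ℕ) (a : Fin d → ℤ) (K : ℕ), ∀ k : ℕ, K ≤ k →
        ((sInf {m : ℕ | iteratedFDeriv ℂ m (f^[k + d]) 0 ≠ 0} : ℕ) : ℤ) =
          ∑ i : Fin d, a i *
            ((sInf {m : ℕ | iteratedFDeriv ℂ m (f^[k + (i : ℕ)]) 0 ≠ 0} : ℕ) : ℤ)) := by
  intro H
  have g1 : AnalyticAt ℂ F 0 := by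
    have hp : ∀ i : Fin 3, AnalyticAt ℂ (fun x : Fin 3 → ℂ => x i) 0 := fun i =>
      (ContinuousLinearMap.proj (R := ℂ) (φ := fun _ : Fin 3 => ℂ) i).analyticAt 0
    rw [analyticAt_pi_iff]
    intro i
    fin_cases i
    · exact hp 2
    · exact (hp 0).pow 3
    · exact ((hp 1).pow 3).mul ((hp 2).pow 2)
  have g2 : F 0 = 0 := by
    ext i; fin_cases i <;> simp [F]
  have g3 : (fderiv ℂ F 0).det = 0 := by
    rw [F_fderiv_det]; simp
  have g4 : ∀ ε : ℝ, 0 < ε → ∃ z : Fin 3 → ℂ, ‖z‖ < ε ∧ (fderiv ℂ F z).det ≠ 0 := by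
    intro ε hε
    refine ⟨fun _ => ((ε/2 : ℝ) : ℂ), ?_, ?_⟩
    · rw [pi_norm_lt_iff hε]
      intro i
      rw [Complex.norm_real, Real.norm_eq_abs, abs_of_pos (by linarith)]
      linarith
    · rw [F_fderiv_det]
      have h0 : ((ε/2 : ℝ) : ℂ) ≠ 0 := by
        rw [Complex.ofReal_ne_zero]; positivity
      exact mul_ne_zero (mul_ne_zero (mul_ne_zero (by norm_num) (pow_ne_zero _ h0)) (pow_ne_zero _ h0)) (pow_ne_zero _ h0)
  obtain ⟨d, a, K, h⟩ := H 3 F g1 g2 g3 g4
  simp only [cc_order] at h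
  exact not_rec d a K h

end

end Pool.Agent.S04258
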