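import Pool.Statements.S04380
-- import your own Pool.Agent.* helpers here

set_option autoImplicit false
open Pool Pool.MP_e12d7b_an

namespace Pool.Agent.S04380

open Finset Polynomial

/-- `1 + t + ... + t^(2i)` -/
noncomputable def G (i : ℕ) (t : ℝ) : ℝ := ∑ s ∈ range (2 * i + 1), t ^ s

/-- `∑_{i ≤ n} (-1)^i c_i t^(n-i) (1 + t + ... + t^(2i))` -/
noncomputable def E (n : ℕ) (c : ℕ → ℝ) (t : ℝ) : ℝ :=
  ∑ i ∈ range (n + 1), (-1) ^ i * c i * t ^ (n - i) * G i t

theorem E_congr (n : ℕ) (c d : ℕ → ℝ) (t : ℝ) (h : ∀ i ≤ n, c i = d i) : E n c t = E n d t := by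
  unfold E
  apply sum_congr rfl
  intro i hi
  rw [h i (by simpa [Nat.lt_succ_iff] using hi)]

theorem E_succ (n : ℕ) (c : ℕ → ℝ) (t : ℝ) :
    E (n + 1) c t = t * E n c t + (-1) ^ (n + 1) * c (n + 1) * G (n + 1) t := by
  unfold E
  rw [sum_range_succ, Nat.sub_self, pow_zero, mul_one, mul_sum]
  congr 1
  apply sum_congr rfl
  intro i hi
  have hi' : i ≤ n := by simpa [Nat.lt_succ_iff] using hi
  have : n + 1 - i = (n - i) + 1 := by omega
  rw [this, pow_succ]; ring

theorem G_upper (i : ℕ) (t : ℝ) (ht : 1 ≤ t) : G i t ≤ (2 * i + 1) * t ^ (2 * i) := by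
  unfold G
  calc ∑ s ∈ range (2 * i + 1), t ^ s ≤ ∑ s ∈ range (2 * i + 1), t ^ (2 * i) := by
        apply sum_le_sum
        intro s hs
        exact pow_le_pow_right₀ ht (by simp at hs; omega)
    _ = (2 * i + 1) * t ^ (2 * i) := by simp

theorem G_lower (i : ℕ) (t : ℝ) (ht : 0 ≤ t) : t ^ (2 * i) ≤ G i t := by
  unfold G
  rw [sum_range_succ]
  have : 0 ≤ ∑ s ∈ range (2 * i), t ^ s := sum_nonneg (fun s _ => pow_nonneg ht s)
  linarith

theorem G_upper2 (i : ℕ) (t : ℝ) (ht : 1 ≤ t) :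
    t * G i t ≤ t ^ (2 * i + 1) + (2 * i) * t ^ (2 * i) := by
  unfold G
  rw [sum_range_succ, mul_add, ← pow_succ', add_comm]
  have h0 : (0:ℝ) ≤ t := by linarith
  have : t * ∑ s ∈ range (2 * i), t ^ s ≤ (2 * i) * t ^ (2 * i) := by
    rw [mul_sum]
    calc ∑ s ∈ range (2 * i), t * t ^ s ≤ ∑ s ∈ range (2 * i), t ^ (2 * i) := by
          apply sum_le_sum
          intro s hs
          rw [← pow_succ']
          exact pow_le_pow_right₀ ht (by simp at hs; omega)
      _ = (2 * i) * t ^ (2 * i) := by simp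
  linarith

/-- The analytic step. -/
theorem step (n : ℕ) (A C δ ρ bound : ℝ) (hA : 0 < A) (hδ : 0 < δ) (hρ0 : 0 < ρ) (hρ : ρ < 4)
    (hb : 0 < bound) (e : ℝ → ℝ) (h1 : ∀ t, 1 ≤ t → δ * t ^ (2 * n) ≤ e t)
    (h2 : ∀ t, 1 ≤ t → A * t ^ (2 * n + 1) - C * t ^ (2 * n) ≤ t * e t) :
    ∃ β : ℝ, 0 < β ∧ β < bound ∧ ∃ δ' : ℝ, 0 < δ' ∧ ∀ t, 1 ≤ t →
      δ' * t ^ (2 * n + 4) ≤ t ^ 2 * e t - β * t * G (n + 1) t + β ^ 2 / (ρ * A) * G (n + 2) t := by
  obtain ⟨ρ', hρ'⟩ : ∃ z : ℝ, z = (ρ + 4) / 2 := ⟨_, rfl⟩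
  have hρ'1 : ρ < ρ' := by rw [hρ']; linarith
  have hρ'2 : ρ' < 4 := by rw [hρ']; linarith
  have hρ'0 : 0 < ρ' := by linarith
  obtain ⟨ε, hε⟩ : ∃ z : ℝ, z = (4 - ρ') / 16 := ⟨_, rfl⟩
  have hε0 : 0 < ε := by rw [hε]; linarith
  have hε1 : ε < 1 / 4 := by rw [hε]; linarith
  have hεk : ρ' * (1 + ε) ^ 2 ≤ 4 * (1 - ε) := by
    have h3 : (1 + ε) ^ 2 ≤ 1 + 3 * ε := by nlinarith
    have h4 : 4 - ρ' = 16 * ε := by rw [hε]; ring
    have h5 : ρ' * (1 + ε) ^ 2 ≤ ρ' * (1 + 3 * ε) := mul_le_mul_of_nonneg_left h3 hρ'0.le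
    nlinarith
  obtain ⟨T, hT⟩ : ∃ z : ℝ, z = 1 + |C| / (A * ε) + (2 * n + 2) / ε := ⟨_, rfl⟩
  have hn0 : (0:ℝ) ≤ n := Nat.cast_nonneg n
  have hT1 : 1 ≤ T := by
    rw [hT]
    have : 0 ≤ |C| / (A * ε) := by positivity
    have : (0:ℝ) ≤ (2 * n + 2) / ε := by positivity
    linarith
  have hTC : |C| ≤ A * ε * T := by
    have h3 : |C| / (A * ε) ≤ T := by
      rw [hT]
      have : (0:ℝ) ≤ (2 * n + 2) / ε := by positivity
      linarith
    rw [div_le_iff₀ (by positivity)] at h3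
    linarith
  have hTn : (2 * n + 2 : ℝ) ≤ ε * T := by
    have h3 : (2 * n + 2 : ℝ) / ε ≤ T := by
      rw [hT]
      have : 0 ≤ |C| / (A * ε) := by positivity
      linarith
    rw [div_le_iff₀ hε0] at h3
    linarith
  obtain ⟨β, hβ⟩ : ∃ z : ℝ, z = min (bound / 2) (δ / ((2 * n + 3) * T)) := ⟨_, rfl⟩
  have hβ0 : 0 < β := by
    rw [hβ]
    apply lt_min
    · linarith
    · positivity
  have hβb : β < bound := by
    have : β ≤ bound / 2 := hβ ▸ min_le_left _ _
    linarith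
  have hβδ : β * ((2 * n + 3) * T) ≤ δ := by
    have h3 : β ≤ δ / ((2 * n + 3) * T) := hβ ▸ min_le_right _ _
    rwa [le_div_iff₀ (by positivity)] at h3
  obtain ⟨γ', hγ⟩ : ∃ z : ℝ, z = β ^ 2 / (ρ * A) := ⟨_, rfl⟩
  have hγ0 : 0 < γ' := by rw [hγ]; positivity
  obtain ⟨δ', hδ'⟩ : ∃ z : ℝ, z = γ' - β ^ 2 / (ρ' * A) := ⟨_, rfl⟩
  have hδ'0 : 0 < δ' := by
    have : β ^ 2 / (ρ' * A) < β ^ 2 / (ρ * A) := by
      apply div_lt_div_of_pos_left (by positivity) (by positivity)
      exact mul_lt_mul_of_pos_right hρ'1 hA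
    rw [hδ', hγ]; linarith
  have hδ'γ : δ' ≤ γ' := by
    rw [hδ']
    have : 0 ≤ β ^ 2 / (ρ' * A) := by positivity
    linarith
  refine ⟨β, hβ0, hβb, δ', hδ'0, ?_⟩
  rw [← hγ]
  clear hT hβ
  intro t ht
  have ht0 : 0 < t := by linarith
  have hG2 : t ^ (2 * n + 4) ≤ G (n + 2) t := by
    have := G_lower (n + 2) t ht0.le
    rwa [show 2 * (n + 2) = 2 * n + 4 by ring] at this
  rcases le_total t T with hcase | hcase
  · -- small t
    have hG1 : G (n + 1) t ≤ (2 * n + 3) * t ^ (2 * n + 2) := by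
      have := G_upper (n + 1) t ht
      rw [show 2 * (n + 1) = 2 * n + 2 by ring] at this
      push_cast at this
      linarith [this]
    have h3 : β * t * G (n + 1) t ≤ δ * t ^ (2 * n + 2) := by
      have hp : 0 < t ^ (2 * n + 2) := by positivity
      calc β * t * G (n + 1) t ≤ β * t * ((2 * n + 3) * t ^ (2 * n + 2)) :=
            mul_le_mul_of_nonneg_left hG1 (by positivity)
        _ = (β * ((2 * n + 3) * t)) * t ^ (2 * n + 2) := by ring
        _ ≤ (β * ((2 * n + 3) * T)) * t ^ (2 * n + 2) := by gcongr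
        _ ≤ δ * t ^ (2 * n + 2) := by gcongr
    have h4 : δ * t ^ (2 * n + 2) ≤ t ^ 2 * e t := by
      calc δ * t ^ (2 * n + 2) = t ^ 2 * (δ * t ^ (2 * n)) := by ring
        _ ≤ t ^ 2 * e t := mul_le_mul_of_nonneg_left (h1 t ht) (by positivity)
    have h5 : δ' * t ^ (2 * n + 4) ≤ γ' * G (n + 2) t := by
      calc δ' * t ^ (2 * n + 4) ≤ γ' * t ^ (2 * n + 4) := by gcongr
        _ ≤ γ' * G (n + 2) t := by gcongr
    linarith
  · -- large t
    have hG1 : t * G (n + 1) t ≤ t ^ (2 * n + 3) + (2 * n + 2) * t ^ (2 * n + 2) := by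
      have := G_upper2 (n + 1) t ht
      rw [show 2 * (n + 1) = 2 * n + 2 by ring] at this
      push_cast at this
      linarith [this]
    have hC : C ≤ A * ε * t := by
      calc C ≤ |C| := le_abs_self C
        _ ≤ A * ε * T := hTC
        _ ≤ A * ε * t := by gcongr
    have hN : (2 * n + 2 : ℝ) ≤ ε * t := by
      calc (2 * n + 2 : ℝ) ≤ ε * T := hTn
        _ ≤ ε * t := by gcongr
    have hp : 0 < t ^ (2 * n + 2) := by positivity
    -- multiply by t
    have key : δ' * t ^ (2 * n + 4) * t ≤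
        (t ^ 2 * e t - β * t * G (n + 1) t + γ' * G (n + 2) t) * t := by
      have e1 : A * t ^ (2 * n + 3) - C * t ^ (2 * n + 2) ≤ t ^ 2 * e t * t := by
        calc A * t ^ (2 * n + 3) - C * t ^ (2 * n + 2)
            = t ^ 2 * (A * t ^ (2 * n + 1) - C * t ^ (2 * n)) := by ring
          _ ≤ t ^ 2 * (t * e t) := mul_le_mul_of_nonneg_left (h2 t ht) (by positivity)
          _ = t ^ 2 * e t * t := by ring
      have e2 : β * t * G (n + 1) t * t ≤
          β * t * (t ^ (2 * n + 3) + (2 * n + 2) * t ^ (2 * n + 2)) := by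
        calc β * t * G (n + 1) t * t = β * t * (t * G (n + 1) t) := by ring
          _ ≤ _ := mul_le_mul_of_nonneg_left hG1 (by positivity)
      have e3 : γ' * t ^ (2 * n + 4) * t ≤ γ' * G (n + 2) t * t := by gcongr
      have e4 : (1 - ε) * A * t ≤ A * t - C := by nlinarith
      have e5 : β * (2 * n + 2) * t ≤ ε * β * t ^ 2 := by
        have : β * (2 * n + 2) * t ≤ β * (ε * t) * t := by gcongr
        nlinarith
      have quad : 0 ≤ (1 - ε) * A - (1 + ε) * (β * t) + (β * t) ^ 2 / (ρ' * A) := by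
        obtain ⟨z, hz⟩ : ∃ z : ℝ, z = β * t := ⟨_, rfl⟩
        obtain ⟨u, hu⟩ : ∃ z : ℝ, z = (1 - ε) * A := ⟨_, rfl⟩
        rw [← hz, ← hu]
        have hu0 : 0 < u := by rw [hu]; apply mul_pos _ hA; linarith
        have h6 : (1 + ε) ^ 2 ≤ 4 * u / (ρ' * A) := by
          rw [le_div_iff₀ (by positivity), hu]
          nlinarith [hεk]
        have h7 : 0 ≤ 4 * u * (u - (1 + ε) * z + z ^ 2 / (ρ' * A)) := by
          have : 4 * u * (u - (1 + ε) * z + z ^ 2 / (ρ' * A)) =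
              (2 * u - (1 + ε) * z) ^ 2 + z ^ 2 * (4 * u / (ρ' * A) - (1 + ε) ^ 2) := by
            field_simp
            ring
          rw [this]
          have h8 : 0 ≤ 4 * u / (ρ' * A) - (1 + ε) ^ 2 := by linarith
          positivity
        exact nonneg_of_mul_nonneg_right h7 (by positivity)
      have e6 : 0 ≤ (A * t - C) - β * t ^ 2 - β * (2 * n + 2) * t + γ' * t ^ 3 - δ' * t ^ 3 := by
        have h9 : γ' - δ' = β ^ 2 / (ρ' * A) := by rw [hδ']; ring
        have h10 : 0 ≤ t * ((1 - ε) * A - (1 + ε) * (β * t) + (β * t) ^ 2 / (ρ' * A)) :=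
          mul_nonneg ht0.le quad
        have h11 : t * ((1 - ε) * A - (1 + ε) * (β * t) + (β * t) ^ 2 / (ρ' * A)) =
            (1 - ε) * A * t - β * t ^ 2 - ε * β * t ^ 2 + (γ' - δ') * t ^ 3 := by
          rw [h9]; field_simp; ring
        rw [h11] at h10
        nlinarith
      have e7 : 0 ≤ t ^ (2 * n + 2) *
          ((A * t - C) - β * t ^ 2 - β * (2 * n + 2) * t + γ' * t ^ 3 - δ' * t ^ 3) :=
        mul_nonneg hp.le e6
      have e8 : t ^ (2 * n + 2) *
          ((A * t - C) - β * t ^ 2 - β * (2 * n + 2) * t + γ' * t ^ 3 - δ' * t ^ 3) =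
          (A * t ^ (2 * n + 3) - C * t ^ (2 * n + 2)) -
          β * t * (t ^ (2 * n + 3) + (2 * n + 2) * t ^ (2 * n + 2)) +
          γ' * t ^ (2 * n + 4) * t - δ' * t ^ (2 * n + 4) * t := by ring
      rw [e8] at e7
      linarith
    exact le_of_mul_le_mul_right key ht0

/-- Existence of the weights. -/
theorem exists_g (a : ℕ → ℝ) (m : ℕ) (ha : ∀ i ≤ 2 * m, 0 < a i)
    (hodd : ∀ j < m, a (2 * j + 1) ^ 2 < a (2 * j) * a (2 * j + 2)) :
    ∀ j ≤ m, ∃ g : ℕ → ℝ, (∀ i, 0 < g i) ∧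
      (∀ i, i + 2 ≤ 2 * j → 4 * g i * g (i + 2) < g (i + 1) ^ 2) ∧
      (1 ≤ j → 4 * g 1 < g 0) ∧
      (∃ δ : ℝ, 0 < δ ∧ ∀ t, 1 ≤ t → δ * t ^ (2 * (2 * j)) ≤ E (2 * j) (fun i => g i * a i) t) ∧
      (∃ C : ℝ, ∀ t, 1 ≤ t → g (2 * j) * a (2 * j) * t ^ (2 * (2 * j) + 1) - C * t ^ (2 * (2 * j)) ≤
        t * E (2 * j) (fun i => g i * a i) t) := by
  intro j
  induction j with
  | zero =>
    intro _
    have h0 : 0 < a 0 := ha 0 (by omega)
    refine ⟨fun _ => 1, fun _ => one_pos, fun i hi => by omega, fun h => by omega,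
      ⟨a 0, h0, fun t _ => ?_⟩, ⟨0, fun t _ => ?_⟩⟩
    · simp [E, G]
    · simp only [E, G]; simp; linarith
  | succ j ih =>
    intro hj
    obtain ⟨g, hg, hlc, h01, ⟨δ, hδ, hE1⟩, ⟨C, hE2⟩⟩ := ih (by omega)
    obtain ⟨a0, ha0⟩ : ∃ z : ℝ, z = a (2 * j) := ⟨_, rfl⟩
    obtain ⟨a1, ha1⟩ : ∃ z : ℝ, z = a (2 * j + 1) := ⟨_, rfl⟩
    obtain ⟨a2, ha2⟩ : ∃ z : ℝ, z = a (2 * j + 2) := ⟨_, rfl⟩
    have p0 : 0 < a0 := ha0 ▸ ha _ (by omega)
    have p1 : 0 < a1 := ha1 ▸ ha _ (by omega)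
    have p2 : 0 < a2 := ha2 ▸ ha _ (by omega)
    have hlt : a1 ^ 2 < a0 * a2 := by rw [ha0, ha1, ha2]; exact hodd j (by omega)
    rw [← ha0] at hE2
    obtain ⟨θ, hθ⟩ : ∃ z : ℝ, z = a1 ^ 2 / (a0 * a2) := ⟨_, rfl⟩
    have hθ0 : 0 < θ := by rw [hθ]; positivity
    have hθ1 : θ < 1 := by rw [hθ, div_lt_one (by positivity)]; exact hlt
    obtain ⟨r, hr⟩ : ∃ z : ℝ, z = 8 / (1 + θ) := ⟨_, rfl⟩
    have hr4 : 4 < r := by rw [hr, lt_div_iff₀ (by positivity)]; linarith
    have hr0 : 0 < r := by linarith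
    obtain ⟨ρ, hρ⟩ : ∃ z : ℝ, z = r * θ := ⟨_, rfl⟩
    have hρ0 : 0 < ρ := by rw [hρ]; positivity
    have hρ4 : ρ < 4 := by
      rw [hρ, hr, div_mul_eq_mul_div, div_lt_iff₀ (by positivity)]; linarith
    obtain ⟨G0, hG0⟩ : ∃ z : ℝ, z = g (2 * j) := ⟨_, rfl⟩
    have hG0p : 0 < G0 := hG0 ▸ hg _
    rw [← hG0] at hE2
    -- bound for the next weight
    obtain ⟨bd, hbd⟩ : ∃ z : ℝ, z = if j = 0 then G0 / 4 else G0 ^ 2 / (4 * g (2 * j - 1)) :=
      ⟨_, rfl⟩
    have hbd0 : 0 < bd := by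
      rw [hbd]
      split_ifs
      · linarith
      · have := hg (2 * j - 1); positivity
    obtain ⟨β, hβ, hβb, δ', hδ', hst⟩ := step (2 * j) (G0 * a0) C δ ρ (bd * a1) (by positivity) hδ hρ0
      hρ4 (by positivity) _ hE1 hE2
    obtain ⟨x, hx⟩ : ∃ z : ℝ, z = β / a1 := ⟨_, rfl⟩
    have hx0 : 0 < x := by rw [hx]; positivity
    have hxb : x < bd := by rw [hx, div_lt_iff₀ p1]; exact hβb
    obtain ⟨y, hy⟩ : ∃ z : ℝ, z = x ^ 2 / (r * G0) := ⟨_, rfl⟩
    have hy0 : 0 < y := by rw [hy]; positivity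
    have hβx : x * a1 = β := by rw [hx]; field_simp
    have hya : y * a2 = β ^ 2 / (ρ * (G0 * a0)) := by
      rw [hy, hρ, hθ, ← hβx]
      field_simp
    obtain ⟨g', g'le, g'1, g'2, g'pos⟩ : ∃ g' : ℕ → ℝ, (∀ i, i ≤ 2 * j → g' i = g i) ∧
        g' (2 * j + 1) = x ∧ g' (2 * j + 2) = y ∧ ∀ i, 0 < g' i := by
      refine ⟨fun i => if i ≤ 2 * j then g i else if i = 2 * j + 1 then x else
        if i = 2 * j + 2 then y else 1, ?_, ?_, ?_, ?_⟩
      · intro i hi; exact if_pos hi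
      · beta_reduce
        rw [if_neg (by omega : ¬ 2 * j + 1 ≤ 2 * j)]; exact if_pos rfl
      · beta_reduce
        rw [if_neg (by omega : ¬ 2 * j + 2 ≤ 2 * j), if_neg (by omega : ¬ 2 * j + 2 = 2 * j + 1)]
        exact if_pos rfl
      · intro i
        beta_reduce
        split_ifs
        · exact hg i
        · exact hx0
        · exact hy0
        · exact one_pos
    have hsq : Even (2 * j + 2) := ⟨j + 1, by ring⟩
    have hsq1 : Odd (2 * j + 1) := ⟨j, by ring⟩
    have hEs : ∀ t, E (2 * (j + 1)) (fun i => g' i * a i) t =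
        t ^ 2 * E (2 * j) (fun i => g i * a i) t - β * t * G (2 * j + 1) t +
          β ^ 2 / (ρ * (G0 * a0)) * G (2 * j + 2) t := by
      intro t
      rw [show 2 * (j + 1) = 2 * j + 1 + 1 by ring, E_succ, E_succ,
        E_congr (2 * j) _ (fun i => g i * a i) t (fun i hi => by rw [g'le i hi])]
      have e1 : (-1 : ℝ) ^ (2 * j + 1 + 1) = 1 := by
        rw [show 2 * j + 1 + 1 = 2 * j + 2 by ring]; exact hsq.neg_one_pow
      have e2 : (-1 : ℝ) ^ (2 * j + 1) = -1 := hsq1.neg_one_pow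
      rw [e1, e2]
      have e3 : g' (2 * j + 1 + 1) * a (2 * j + 1 + 1) = β ^ 2 / (ρ * (G0 * a0)) := by
        rw [show 2 * j + 1 + 1 = 2 * j + 2 by ring, g'2, ← ha2]; exact hya
      have e4 : g' (2 * j + 1) * a (2 * j + 1) = β := by rw [g'1, ← ha1]; exact hβx
      beta_reduce
      rw [e3, e4]
      rw [show 2 * j + 1 + 1 = 2 * j + 2 by ring]
      ring
    refine ⟨g', ?_, ?_, ?_, ⟨δ', hδ', ?_⟩, ⟨β * (2 * (2 * j) + 3), ?_⟩⟩
    · exact g'pos
    · intro i hi
      rcases Nat.lt_or_ge (i + 2) (2 * j + 1) with h | h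
      · rw [g'le i (by omega), g'le (i + 1) (by omega), g'le (i + 2) (by omega)]
        exact hlc i (by omega)
      · rcases Nat.lt_or_ge (i + 2) (2 * j + 2) with h' | h'
        · -- i + 2 = 2j+1
          have hi2 : i = 2 * j - 1 := by omega
          have hj0 : j ≠ 0 := by omega
          have : i + 2 = 2 * j + 1 := by omega
          rw [this, g'1]
          have : i + 1 = 2 * j := by omega
          rw [this, g'le (2 * j) le_rfl, g'le i (by omega), hi2]
          rw [hbd, if_neg hj0, lt_div_iff₀ (by have := hg (2 * j - 1); positivity)] at hxb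
          rw [← hG0]
          linarith
        · have : i = 2 * j := by omega
          rw [this, g'1, g'2, g'le (2 * j) le_rfl, ← hG0]
          have : 4 * G0 * y = 4 / r * x ^ 2 := by rw [hy]; field_simp
          rw [this]
          have h4r : 4 / r < 1 := by rw [div_lt_one hr0]; exact hr4
          have := mul_lt_mul_of_pos_right h4r (show 0 < x ^ 2 by positivity)
          linarith
    · intro _
      rcases Nat.eq_zero_or_pos j with h | h
      · subst h
        have e0 : g' 0 = g 0 := g'le 0 (by omega)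
        have e1 : g' 1 = x := g'1
        rw [e0, e1]
        rw [hbd, if_pos rfl] at hxb
        have : G0 = g 0 := hG0
        rw [this] at hxb
        linarith
      · rw [g'le 1 (by omega), g'le 0 (by omega)]
        exact h01 h
    · intro t ht
      rw [hEs t]
      have := hst t ht
      rwa [show 2 * (2 * (j + 1)) = 2 * (2 * j) + 4 by ring]
    · intro t ht
      rw [hEs t]
      have ht0 : 0 < t := by linarith
      have hc2 : g' (2 * (j + 1)) * a (2 * (j + 1)) = β ^ 2 / (ρ * (G0 * a0)) := by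
        rw [show 2 * (j + 1) = 2 * j + 2 by ring, g'2, ← ha2]; exact hya
      rw [hc2]
      obtain ⟨c2, hc2'⟩ : ∃ z : ℝ, z = β ^ 2 / (ρ * (G0 * a0)) := ⟨_, rfl⟩
      rw [← hc2']
      have hc2p : 0 < c2 := by rw [hc2']; positivity
      have i1 : 0 ≤ t ^ 2 * E (2 * j) (fun i => g i * a i) t := by
        have := hE1 t ht
        have h3 : 0 ≤ δ * t ^ (2 * (2 * j)) := by positivity
        have h4 : 0 ≤ E (2 * j) (fun i => g i * a i) t := by linarith
        positivity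
      have i2 : t ^ (2 * (2 * j) + 4) ≤ G (2 * j + 2) t := by
        have := G_lower (2 * j + 2) t ht0.le
        rwa [show 2 * (2 * j + 2) = 2 * (2 * j) + 4 by ring] at this
      have i3 : G (2 * j + 1) t ≤ (2 * (2 * j) + 3) * t ^ (2 * (2 * j) + 2) := by
        have := G_upper (2 * j + 1) t ht
        rw [show 2 * (2 * j + 1) = 2 * (2 * j) + 2 by ring] at this
        push_cast at this ⊢
        linarith [this]
      have i4 : β * t * G (2 * j + 1) t ≤ β * t * ((2 * (2 * j) + 3) * t ^ (2 * (2 * j) + 2)) :=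
        mul_le_mul_of_nonneg_left i3 (by positivity)
      have i5 : c2 * t ^ (2 * (2 * j) + 4) ≤ c2 * G (2 * j + 2) t := by gcongr
      have i6 : c2 * t ^ (2 * (2 * j) + 4) -
          β * t * ((2 * (2 * j) + 3) * t ^ (2 * (2 * j) + 2)) ≤
          t ^ 2 * E (2 * j) (fun i => g i * a i) t - β * t * G (2 * j + 1) t +
          c2 * G (2 * j + 2) t := by linarith
      calc c2 * t ^ (2 * (2 * (j + 1)) + 1) - β * (2 * (2 * j) + 3) * t ^ (2 * (2 * (j + 1)))
          = t * (c2 * t ^ (2 * (2 * j) + 4) -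
            β * t * ((2 * (2 * j) + 3) * t ^ (2 * (2 * j) + 2))) := by
            rw [show 2 * (2 * (j + 1)) + 1 = 2 * (2 * j) + 4 + 1 by ring,
              show 2 * (2 * (j + 1)) = 2 * (2 * j) + 4 by ring]
            ring
        _ ≤ _ := mul_le_mul_of_nonneg_left i6 ht0.le

/-- Extension of a finite log-concave sequence. -/
theorem extend (g : ℕ → ℝ) (n : ℕ) (hn : 1 ≤ n) (hg : ∀ i, 0 < g i)
    (hlc : ∀ i, i + 2 ≤ n → 4 * g i * g (i + 2) < g (i + 1) ^ 2) :
    ∃ g' : ℕ → ℝ, (∀ i ≤ n, g' i = g i) ∧ (∀ i, 0 < g' i) ∧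
      (∀ i, 4 * g' i * g' (i + 2) < g' (i + 1) ^ 2) := by
  obtain ⟨q, hq⟩ : ∃ z : ℝ, z = g n / g (n - 1) := ⟨_, rfl⟩
  have hq0 : 0 < q := by rw [hq]; exact div_pos (hg _) (hg _)
  have hqn : q * g (n - 1) = g n := by rw [hq]; field_simp [(hg (n - 1)).ne']
  obtain ⟨τ, hτ⟩ : ∃ z : ℕ → ℝ, z = fun s => g n * q ^ s * (1 / 5) ^ (s ^ 2) := ⟨_, rfl⟩
  have hgn := hg n
  have hτ0 : ∀ s, 0 < τ s := by intro s; rw [hτ]; positivity
  have hτlc : ∀ s, 4 * τ s * τ (s + 2) < τ (s + 1) ^ 2 := by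
    intro s
    have e1 : 4 * τ s * τ (s + 2) = (4 / 25) * τ (s + 1) ^ 2 := by
      rw [hτ]
      beta_reduce
      have : (1 / 5 : ℝ) ^ (s ^ 2) * (1 / 5) ^ ((s + 2) ^ 2) = (1 / 25) * ((1 / 5) ^ ((s + 1) ^ 2)) ^ 2 := by
        rw [← pow_mul, ← pow_add, show s ^ 2 + (s + 2) ^ 2 = (s + 1) ^ 2 * 2 + 2 by ring, pow_add]
        norm_num
        ring
      calc 4 * (g n * q ^ s * (1 / 5) ^ (s ^ 2)) * (g n * q ^ (s + 2) * (1 / 5) ^ ((s + 2) ^ 2))
          = 4 * g n ^ 2 * (q ^ s * q ^ (s + 2)) * ((1 / 5 : ℝ) ^ (s ^ 2) * (1 / 5) ^ ((s + 2) ^ 2)) := by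
            ring
        _ = _ := by rw [this]; ring
    rw [e1]
    have := hτ0 (s + 1)
    nlinarith [sq_pos_of_pos this]
  refine ⟨fun i => if i ≤ n then g i else τ (i - n), ?_, ?_, ?_⟩
  · intro i hi; exact if_pos hi
  · intro i
    beta_reduce
    split_ifs
    · exact hg i
    · exact hτ0 _
  · intro i
    beta_reduce
    have hτz : τ 0 = g n := by rw [hτ]; simp
    rcases Nat.lt_or_ge n (i + 2) with h | h
    · rw [if_neg (by omega : ¬ i + 2 ≤ n)]
      rcases Nat.lt_or_ge n (i + 1) with h' | h'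
      · rw [if_neg (by omega : ¬ i + 1 ≤ n)]
        rcases Nat.lt_or_ge n i with h'' | h''
        · rw [if_neg (by omega : ¬ i ≤ n)]
          have := hτlc (i - n)
          rwa [show i - n + 2 = i + 2 - n by omega, show i - n + 1 = i + 1 - n by omega] at this
        · rw [if_pos h'']
          have hi : i = n := by omega
          subst hi
          have := hτlc 0
          rw [hτz] at this
          rwa [show i + 2 - i = 0 + 2 by omega, show i + 1 - i = 0 + 1 by omega]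
      · rw [if_pos (by omega : i ≤ n), if_pos (by omega : i + 1 ≤ n)]
        have hi : i + 1 = n := by omega
        rw [hi, show i + 2 - n = 1 by omega, show i = n - 1 by omega]
        have e1 : τ 1 = g n * q / 5 := by rw [hτ]; simp; ring
        rw [e1]
        calc 4 * g (n - 1) * (g n * q / 5) = 4 / 5 * (q * g (n - 1)) * g n := by ring
          _ = 4 / 5 * g n ^ 2 := by rw [hqn]; ring
          _ < g n ^ 2 := by nlinarith [sq_pos_of_pos hgn]
    · rw [if_pos (by omega : i ≤ n), if_pos (by omega : i + 1 ≤ n), if_pos h]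
      exact hlc i h

/-- The polynomials. -/
noncomputable def P (n : ℕ) (c : ℕ → ℝ) : ℝ[X] :=
  ∑ i ∈ range (n + 1), C (c i) * (X ^ (n - i) + X ^ (n + 1 + i))

noncomputable def W (n : ℕ) (c : ℕ → ℝ) : ℝ[X] :=
  ∑ i ∈ range (n + 1), C (c i) * X ^ (n - i) * ∑ s ∈ range (2 * i + 1), (-X) ^ s

theorem P_eq (n : ℕ) (c : ℕ → ℝ) : P n c = (X - C (-1)) * W n c := by
  unfold P W
  rw [mul_sum]
  apply sum_congr rfl
  intro i hi
  have hi' : i ≤ n := by simpa [Nat.lt_succ_iff] using hi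
  have h1 : (X - C (-1) : ℝ[X]) * ∑ s ∈ range (2 * i + 1), (-X) ^ s = 1 + X ^ (2 * i + 1) := by
    have := mul_neg_geom_sum (-X : ℝ[X]) (2 * i + 1)
    rw [Odd.neg_pow ⟨i, rfl⟩] at this
    rw [C_neg, C_1]
    linear_combination this
  calc C (c i) * (X ^ (n - i) + X ^ (n + 1 + i))
      = C (c i) * X ^ (n - i) * (1 + X ^ (2 * i + 1)) := by
        have : n + 1 + i = (n - i) + (2 * i + 1) := by omega
        rw [this, pow_add]; ring
    _ = _ := by rw [← h1]; ring

theorem W_eval (n : ℕ) (hn : Even n) (c : ℕ → ℝ) (t : ℝ) : (W n c).eval (-t) = E n c t := by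
  unfold W E G
  rw [eval_finsetSum]
  apply sum_congr rfl
  intro i hi
  have hi' : i ≤ n := by simpa [Nat.lt_succ_iff] using hi
  have h1 : (-1 : ℝ) ^ (n - i) = (-1) ^ i := by
    have : (-1 : ℝ) ^ (n - i) * (-1) ^ i = 1 := by
      rw [← pow_add, Nat.sub_add_cancel hi', hn.neg_one_pow]
    rcases neg_one_pow_eq_or ℝ i with h | h <;> rw [h] at this ⊢ <;> linarith
  simp only [eval_mul, eval_C, eval_pow, eval_X, eval_finsetSum, eval_neg, neg_neg]
  rw [neg_pow t, h1]
  ring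

theorem G_pal (i : ℕ) (t : ℝ) (ht : 0 < t) : G i t = t ^ (2 * i) * G i t⁻¹ := by
  unfold G
  rw [mul_sum, ← sum_range_reflect]
  apply sum_congr rfl
  intro s hs
  have hs' : s ≤ 2 * i := by simp at hs; omega
  have : 2 * i + 1 - 1 - s = 2 * i - s := by omega
  rw [this, inv_pow, ← div_eq_mul_inv, eq_div_iff (by positivity), ← pow_add]
  congr 1; omega

theorem E_pal (n : ℕ) (c : ℕ → ℝ) (t : ℝ) (ht : 0 < t) : E n c t = t ^ (2 * n) * E n c t⁻¹ := by
  unfold E
  rw [mul_sum]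
  apply sum_congr rfl
  intro i hi
  have hi' : i ≤ n := by simpa [Nat.lt_succ_iff] using hi
  have h1 : t ^ (2 * n) * t⁻¹ ^ (n - i) = t ^ (n - i) * t ^ (2 * i) := by
    rw [inv_pow, ← div_eq_mul_inv, div_eq_iff (by positivity), ← pow_add, ← pow_add]
    congr 1; omega
  rw [G_pal i t ht]
  calc (-1) ^ i * c i * t ^ (n - i) * (t ^ (2 * i) * G i t⁻¹)
      = (-1) ^ i * c i * (t ^ (n - i) * t ^ (2 * i)) * G i t⁻¹ := by ring
    _ = _ := by rw [← h1]; ring

theorem E_zero (n : ℕ) (c : ℕ → ℝ) : E n c 0 = (-1) ^ n * c n := by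
  unfold E G
  rw [sum_range_succ, sum_eq_zero]
  · simp
  · intro i hi
    simp only [mem_range] at hi
    rw [zero_pow (by omega : n - i ≠ 0)]; ring

theorem P_coeff (n : ℕ) (g a : ℕ → ℝ) (k : ℕ) :
    (P n (fun i => g i * a i)).coeff k =
      (if k ≤ n then g (n - k) else g (k - n - 1)) * (P n a).coeff k := by
  unfold P
  rw [finsetSum_coeff, finsetSum_coeff, mul_sum]
  apply sum_congr rfl
  intro i hi
  have hi' : i ≤ n := by simpa [Nat.lt_succ_iff] using hi
  rw [coeff_C_mul, coeff_C_mul, coeff_add, coeff_X_pow, coeff_X_pow]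
  by_cases h1 : k = n - i
  · have h2 : ¬ k = n + 1 + i := by omega
    rw [if_pos h1, if_neg h2, if_pos (by omega : k ≤ n), show n - k = i by omega]
    ring
  · by_cases h2 : k = n + 1 + i
    · rw [if_neg h1, if_pos h2, if_neg (by omega : ¬ k ≤ n), show k - n - 1 = i by omega]
      ring
    · rw [if_neg h1, if_neg h2]; ring

theorem P_eval_pos (n : ℕ) (c : ℕ → ℝ) (hc : ∀ i ≤ n, 0 < c i) (x : ℝ) (hx : 0 ≤ x) :
    0 < (P n c).eval x := by
  unfold P
  rw [eval_finsetSum, sum_range_succ]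
  have h1 : 0 ≤ ∑ i ∈ range n, eval x (C (c i) * (X ^ (n - i) + X ^ (n + 1 + i))) := by
    apply sum_nonneg
    intro i hi
    simp only [mem_range] at hi
    have := hc i (by omega)
    simp only [eval_mul, eval_C, eval_add, eval_pow, eval_X]
    positivity
  have h2 : 0 < eval x (C (c n) * (X ^ (n - n) + X ^ (n + 1 + n)) : ℝ[X]) := by
    have := hc n le_rfl
    simp only [eval_mul, eval_C, eval_add, eval_pow, eval_X, Nat.sub_self, pow_zero, eval_one]
    have h3 := pow_nonneg hx (n + 1 + n)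
    exact mul_pos this (by linarith)
  linarith

/-- the numbers -/
def v (j : ℕ) : ℕ :=
  [232, 157, 125, 105, 90, 78, 68, 60, 53, 47, 41, 36, 31, 26, 22, 19, 15, 12, 9, 6, 3].getD j 0

def aN (i : ℕ) : ℕ := if i % 2 = 0 then v (i / 2) ^ 2 else v (i / 2) * v (i / 2 + 1) - 1

theorem aN_pos : ∀ i ≤ 40, 0 < aN i := by decide +kernel
theorem aN_odd : ∀ j < 20, aN (2 * j + 1) ^ 2 < aN (2 * j) * aN (2 * j + 2) := by decide +kernel
theorem aN_sum : ∑ i ∈ range 41, (-1 : ℤ) ^ i * (aN i : ℤ) * (2 * (i : ℤ) + 1) < 0 := by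
  decide +kernel

theorem E_one (c : ℕ → ℕ) :
    E 40 (fun i => (c i : ℝ)) 1 =
      ((∑ i ∈ range 41, (-1 : ℤ) ^ i * (c i : ℤ) * (2 * (i : ℤ) + 1) : ℤ) : ℝ) := by
  unfold E G
  push_cast
  apply sum_congr rfl
  intro i _
  simp

/-- The negation of the preceding statement: For every positive real sequence with γ_{k+1}² > 4γ_kγ_{k+2} for all k, multiplying the coefficients of any real polynomial termwise by γ_k never increases the number of nonreal zeros, counted with multiplicity. -/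
theorem result :
    ¬ (∀ γ : ℕ → ℝ, (∀ k, 0 < γ k) →
      (∀ k, 4 * γ k * γ (k + 2) < γ (k + 1) ^ 2) →
      ∀ p q : Polynomial ℝ, (∀ k, q.coeff k = γ k * p.coeff k) →
        q.natDegree - q.roots.card ≤ p.natDegree - p.roots.card) := by
  intro H
  have hev : Even 40 := by decide
  obtain ⟨a, ha⟩ : ∃ a : ℕ → ℝ, a = fun i => (aN i : ℝ) := ⟨_, rfl⟩
  have apos : ∀ i ≤ 40, 0 < a i := by
    intro i hi; rw [ha]; beta_reduce; exact_mod_cast aN_pos i hi
  have aodd : ∀ j < 20, a (2 * j + 1) ^ 2 < a (2 * j) * a (2 * j + 2) := by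
    intro j hj; rw [ha]; beta_reduce; exact_mod_cast aN_odd j hj
  obtain ⟨g0, hg0, hlc0, h010, ⟨δ, hδ, hE⟩, -⟩ := exists_g a 20 apos aodd 20 le_rfl
  obtain ⟨g, hgg, hg, hlc⟩ := extend g0 40 (by norm_num) hg0 (fun i hi => hlc0 i (by omega))
  have h01 : 4 * g 1 < g 0 := by
    rw [hgg 1 (by norm_num), hgg 0 (by norm_num)]; exact h010 (by norm_num)
  have hE' : ∀ t, 1 ≤ t → 0 < E 40 (fun i => g i * a i) t := by
    intro t ht
    have h1 := hE t ht
    have h2 : E (2 * 20) (fun i => g0 i * a i) t = E 40 (fun i => g i * a i) t :=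
      E_congr 40 _ _ t (fun i hi => by rw [hgg i hi])
    rw [h2] at h1
    have : 0 < δ * t ^ (2 * (2 * 20)) := by positivity
    linarith
  have hE0 : ∀ t, 0 < t → 0 < E 40 (fun i => g i * a i) t := by
    intro t ht
    rcases le_total 1 t with h | h
    · exact hE' t h
    · rw [E_pal 40 _ t ht]
      have : 1 ≤ t⁻¹ := (one_le_inv₀ ht).2 h
      have := hE' t⁻¹ this
      positivity
  -- the sequence
  obtain ⟨γ, hγ⟩ : ∃ γ : ℕ → ℝ, γ = fun k => if k ≤ 40 then g (40 - k) else g (k - 40 - 1) :=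
    ⟨_, rfl⟩
  have γpos : ∀ k, 0 < γ k := by
    intro k; rw [hγ]; beta_reduce; split_ifs <;> exact hg _
  have γlc : ∀ k, 4 * γ k * γ (k + 2) < γ (k + 1) ^ 2 := by
    intro k
    rw [hγ]; beta_reduce
    rcases Nat.lt_or_ge k 39 with h | h
    · rw [if_pos (by omega), if_pos (by omega), if_pos (by omega)]
      have := hlc (40 - (k + 2))
      rw [show 40 - (k + 2) + 2 = 40 - k by omega, show 40 - (k + 2) + 1 = 40 - (k + 1) by omega] at this
      linarith
    · rcases Nat.lt_or_ge k 40 with h' | h'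
      · have : k = 39 := by omega
        subst this
        norm_num
        nlinarith [hg 0, hg 1]
      · rcases Nat.lt_or_ge k 41 with h'' | h''
        · have : k = 40 := by omega
          subst this
          norm_num
          nlinarith [hg 0, hg 1]
        · rw [if_neg (by omega), if_neg (by omega), if_neg (by omega)]
          have := hlc (k - 40 - 1)
          rwa [show k - 40 - 1 + 2 = k + 2 - 40 - 1 by omega,
            show k - 40 - 1 + 1 = k + 1 - 40 - 1 by omega] at this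
  have hcoeff : ∀ k, (P 40 (fun i => g i * a i)).coeff k = γ k * (P 40 a).coeff k := by
    intro k; rw [P_coeff, hγ]
  have key := H γ γpos γlc (P 40 a) (P 40 (fun i => g i * a i)) hcoeff
  -- degrees agree
  have hdeg : (P 40 (fun i => g i * a i)).natDegree = (P 40 a).natDegree := by
    have hsupp : (P 40 (fun i => g i * a i)).support = (P 40 a).support := by
      apply Finset.ext
      intro k
      rw [mem_support_iff, mem_support_iff, hcoeff k]
      exact ⟨fun h h' => h (by rw [h', mul_zero]), fun h h' => by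
        rcases mul_eq_zero.1 h' with h1 | h1
        · exact (γpos k).ne' h1
        · exact h h1⟩
    exact natDegree_eq_of_degree_eq (by unfold degree; rw [hsupp])
  -- roots of q
  have hqpos := P_eval_pos 40 (fun i => g i * a i) (fun i hi => mul_pos (hg i) (apos i hi))
  have hq0 : P 40 (fun i => g i * a i) ≠ 0 := by
    intro h
    have := hqpos 0 le_rfl
    rw [h] at this; simp at this
  have hqr : (P 40 (fun i => g i * a i)).roots.card ≤ 1 := by
    have hW : (W 40 (fun i => g i * a i)).roots = 0 := by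
      apply Multiset.eq_zero_of_forall_notMem
      intro x hx
      have hx' : (W 40 (fun i => g i * a i)).eval x = 0 := (mem_roots'.1 hx).2
      rcases lt_or_ge x 0 with h | h
      · have h1 := W_eval 40 hev (fun i => g i * a i) (-x)
        rw [neg_neg, hx'] at h1
        have := hE0 (-x) (by linarith)
        linarith
      · have h1 := hqpos x h
        rw [P_eq, eval_mul, hx'] at h1
        simp at h1
    rw [P_eq] at hq0 ⊢
    rw [roots_mul hq0, hW, roots_X_sub_C]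
    simp
  -- roots of p
  have hp0 : P 40 a ≠ 0 := by
    intro h
    have := P_eval_pos 40 a apos 0 le_rfl
    rw [h] at this; simp at this
  have hE1 : E 40 a 1 < 0 := by
    rw [ha, E_one]
    exact_mod_cast aN_sum
  have hEz : 0 < E 40 a 0 := by
    rw [E_zero, hev.neg_one_pow, one_mul]
    exact apos 40 le_rfl
  have hcont : Continuous (fun t => E 40 a t) := by
    unfold E G
    fun_prop
  obtain ⟨t0, ⟨ht0, ht1⟩, hroot⟩ : ∃ t0 ∈ Set.Icc (0:ℝ) 1, E 40 a t0 = 0 := by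
    have := intermediate_value_Icc' (zero_le_one : (0:ℝ) ≤ 1) hcont.continuousOn
    have hm : (0:ℝ) ∈ Set.Icc (E 40 a 1) (E 40 a 0) := ⟨hE1.le, hEz.le⟩
    obtain ⟨t, ht, h⟩ := this hm
    exact ⟨t, ht, h⟩
  have ht0' : 0 < t0 := by
    rcases eq_or_lt_of_le ht0 with h | h
    · rw [← h] at hroot; linarith
    · exact h
  have ht1' : t0 < 1 := by
    rcases eq_or_lt_of_le ht1 with h | h
    · rw [h] at hroot; linarith
    · exact h
  have hroot' : E 40 a t0⁻¹ = 0 := by
    have h1 := E_pal 40 a t0 ht0'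
    rw [hroot] at h1
    have h2 : t0 ^ (2 * 40) ≠ 0 := by positivity
    rcases mul_eq_zero.1 h1.symm with h | h
    · exact absurd h h2
    · exact h
  have hinv : 1 < t0⁻¹ := (one_lt_inv₀ ht0').2 ht1'
  have mem : ∀ t, E 40 a t = 0 → -t ∈ (P 40 a).roots := by
    intro t ht
    rw [mem_roots hp0, IsRoot.def, P_eq, eval_mul, W_eval 40 hev, ht, mul_zero]
  have mem1 : (-1 : ℝ) ∈ (P 40 a).roots := by
    rw [mem_roots hp0, IsRoot.def, P_eq, eval_mul]
    simp
  have hcard : 3 ≤ (P 40 a).roots.card := by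
    have hsub : ({-1, -t0, -t0⁻¹} : Finset ℝ) ⊆ (P 40 a).roots.toFinset := by
      intro x hx
      rw [Multiset.mem_toFinset]
      simp only [Finset.mem_insert, Finset.mem_singleton] at hx
      rcases hx with rfl | rfl | rfl
      · exact mem1
      · exact mem _ hroot
      · exact mem _ hroot'
    have h3 : ({-1, -t0, -t0⁻¹} : Finset ℝ).card = 3 := by
      rw [card_eq_three]
      refine ⟨-1, -t0, -t0⁻¹, ?_, ?_, ?_, rfl⟩
      · intro h; linarith
      · intro h; linarith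
      · intro h; linarith
    calc 3 = ({-1, -t0, -t0⁻¹} : Finset ℝ).card := h3.symm
      _ ≤ (P 40 a).roots.toFinset.card := card_le_card hsub
      _ ≤ (P 40 a).roots.card := Multiset.toFinset_card_le _
  have hle := card_roots' (P 40 a)
  rw [hdeg] at key
  omega

end Pool.Agent.S04380
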