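import Pool.Statements.S04456
-- import your own Pool.Agent.* helpers here

set_option autoImplicit false
open Filter Topology MeasureTheory
open Pool Pool.MP_ec63c8_an

namespace Pool.Agent.S04456

open scoped ENNReal

abbrev X : Type := lp (fun _ : ℕ => ℂ) 3

instance : Fact ((1 : ℝ≥0∞) ≤ 3) := ⟨by norm_num⟩

noncomputable def m (t : ℝ) (k : ℕ) : ℂ :=
  Complex.exp ((-1 + (k : ℂ) * Complex.I) * ((max t 0 : ℝ) : ℂ))

theorem norm_m (t : ℝ) (k : ℕ) : ‖m t k‖ = Real.exp (-(max t 0)) := by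
  unfold m
  rw [Complex.norm_exp]
  congr 1
  simp

theorem norm_m_le (t : ℝ) (k : ℕ) : ‖m t k‖ ≤ 1 := by
  rw [norm_m, Real.exp_le_one_iff]
  have := le_max_right t 0
  linarith

theorem mem_mul (t : ℝ) (x : X) : Memℓp (fun k => m t k * x k) 3 := by
  apply Memℓp.mono' (lp.memℓp x)
  intro k
  rw [norm_mul]
  calc ‖m t k‖ * ‖x k‖ ≤ 1 * ‖x k‖ := by gcongr; exact norm_m_le t k
    _ = ‖x k‖ := one_mul _

noncomputable def T (t : ℝ) : X →L[ℂ] X :=
  LinearMap.mkContinuous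
    { toFun := fun x => ⟨fun k => m t k * x k, mem_mul t x⟩
      map_add' := by
        intro x y
        ext k
        exact mul_add _ _ _
      map_smul' := by
        intro c x
        ext k
        exact mul_left_comm _ _ _ } 1 (by
    intro x
    rw [one_mul]
    apply lp.norm_mono (by norm_num)
    intro k
    show ‖m t k * x k‖ ≤ ‖x k‖
    rw [norm_mul]
    calc ‖m t k‖ * ‖x k‖ ≤ 1 * ‖x k‖ := by gcongr; exact norm_m_le t k
      _ = ‖x k‖ := one_mul _)

theorem T_apply (t : ℝ) (x : X) (k : ℕ) : T t x k = m t k * x k := rfl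

theorem T_norm (t : ℝ) (x : X) : ‖T t x‖ ≤ Real.exp (-(max t 0)) * ‖x‖ := by
  have h1 : ‖((Real.exp (-(max t 0)) : ℝ) : ℂ) • x‖ = Real.exp (-(max t 0)) * ‖x‖ := by
    rw [norm_smul]
    congr 1
    rw [Complex.norm_real, Real.norm_of_nonneg (Real.exp_pos _).le]
  rw [← h1]
  apply lp.norm_mono (by norm_num)
  intro k
  rw [T_apply, norm_mul, norm_m]
  show _ ≤ ‖((Real.exp (-(max t 0)) : ℝ) : ℂ) * x k‖
  rw [norm_mul, Complex.norm_real, Real.norm_of_nonneg (Real.exp_pos _).le]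

theorem T_norm' (t : ℝ) (x : X) : ‖T t x‖ ≤ ‖x‖ := by
  refine (T_norm t x).trans ?_
  have : Real.exp (-(max t 0)) ≤ 1 := by
    rw [Real.exp_le_one_iff]
    have := le_max_right t 0
    linarith
  calc _ ≤ 1 * ‖x‖ := by gcongr
    _ = _ := one_mul _

theorem T_single (t : ℝ) (i : ℕ) (c : ℂ) : T t (lp.single 3 i c) = m t i • lp.single 3 i c := by
  ext k
  rw [T_apply]
  by_cases h : k = i
  · subst h
    rfl
  · show m t k * _ = m t i * _
    rw [lp.single_apply_ne _ _ _ h]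
    simp

theorem m_cont (k : ℕ) : Continuous (fun t => m t k) := by
  unfold m
  fun_prop

theorem T_cont (x : X) : Continuous (fun t : ℝ => T t x) := by
  have hs : HasSum (fun i : ℕ => lp.single 3 i (x i : ℂ)) x := lp.hasSum_single (by norm_num) x
  have hu : TendstoUniformly (fun (s : Finset ℕ) (t : ℝ) => T t (∑ i ∈ s, lp.single 3 i (x i : ℂ)))
      (fun t => T t x) atTop := by
    rw [Metric.tendstoUniformly_iff]
    intro ε hε
    have := Metric.tendsto_nhds.mp hs ε hε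
    filter_upwards [this] with s hs t
    rw [dist_eq_norm, ← map_sub]
    refine (T_norm' t _).trans_lt ?_
    rw [dist_eq_norm, norm_sub_rev] at hs
    exact hs
  apply hu.continuous
  apply Frequently.of_forall
  intro s
  simp only [map_sum, T_single]
  apply continuous_finsetSum
  intro i _
  exact (m_cont i).smul continuous_const

/-- the vector `(k+1)^{-1/2}` -/
theorem mem_x0 : Memℓp (fun k : ℕ => ((((k : ℝ) + 1) ^ (-(1 / 2) : ℝ) : ℝ) : ℂ)) 3 := by
  apply memℓp_gen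
  have h := (summable_nat_add_iff 1).mpr (Real.summable_nat_rpow.mpr (by norm_num : (-(3/2) : ℝ) < -1))
  refine h.congr ?_
  intro k
  have hk : (0 : ℝ) < (k : ℝ) + 1 := by positivity
  rw [Complex.norm_real, Real.norm_of_nonneg (by positivity)]
  push_cast
  rw [← Real.rpow_mul hk.le]
  congr 1
  norm_num

noncomputable def x0 : X := ⟨_, mem_x0⟩

theorem x0_apply (k : ℕ) : x0 k = ((((k : ℝ) + 1) ^ (-(1 / 2) : ℝ) : ℝ) : ℂ) := rfl

theorem int_F {a : ℝ} (ha : 0 < a) (s : ℝ) : Integrable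
    (fun t : ℝ => Complex.exp (-(((a : ℂ) + (s : ℂ) * Complex.I) * (t : ℂ))) • T t x0)
    (volume.restrict (Set.Ioi 0)) := by
  have h1 : IntegrableOn (fun t : ℝ => Real.exp (-a * t) * ‖x0‖) (Set.Ioi 0) :=
    (exp_neg_integrableOn_Ioi 0 ha).mul_const _
  refine Integrable.mono' h1 ?_ ?_
  · have hc : Continuous (fun t : ℝ =>
        Complex.exp (-(((a : ℂ) + (s : ℂ) * Complex.I) * (t : ℂ)))) := by fun_prop
    exact (hc.smul (T_cont x0)).aestronglyMeasurable
  · filter_upwards with t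
    rw [norm_smul, Complex.norm_exp]
    have : (-(((a : ℂ) + (s : ℂ) * Complex.I) * (t : ℂ))).re = -a * t := by simp
    rw [this]
    gcongr
    exact T_norm' t x0

theorem coord {a : ℝ} (ha : 0 < a) (s : ℝ) (k : ℕ) :
    (∫ t in Set.Ioi (0 : ℝ),
      Complex.exp (-(((a : ℂ) + (s : ℂ) * Complex.I) * (t : ℂ))) • T t x0) k =
      x0 k / ((a : ℂ) + 1 + ((s : ℂ) - k) * Complex.I) := by
  have h1 := (lp.evalCLM ℂ (fun _ : ℕ => ℂ) 3 k).integral_comp_comm (int_F ha s)
  have h2 : (∫ t in Set.Ioi (0 : ℝ),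
      Complex.exp (-(((a : ℂ) + (s : ℂ) * Complex.I) * (t : ℂ))) • T t x0) k =
      lp.evalCLM ℂ (fun _ : ℕ => ℂ) 3 k (∫ t in Set.Ioi (0 : ℝ),
      Complex.exp (-(((a : ℂ) + (s : ℂ) * Complex.I) * (t : ℂ))) • T t x0) := rfl
  rw [h2, ← h1]
  have h3 : ∀ t ∈ Set.Ioi (0 : ℝ), (lp.evalCLM ℂ (fun _ : ℕ => ℂ) 3 k)
      (Complex.exp (-(((a : ℂ) + (s : ℂ) * Complex.I) * (t : ℂ))) • T t x0) =
      x0 k * Complex.exp ((-((a : ℂ) + 1 + ((s : ℂ) - k) * Complex.I)) * (t : ℂ)) := by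
    intro t ht
    show Complex.exp (-(((a : ℂ) + (s : ℂ) * Complex.I) * (t : ℂ))) * (m t k * x0 k) = _
    unfold m
    rw [max_eq_left (le_of_lt ht), ← mul_assoc, ← Complex.exp_add, mul_comm]
    congr 2
    ring
  rw [setIntegral_congr_fun measurableSet_Ioi h3, integral_const_mul,
    integral_exp_mul_complex_Ioi (by simp; linarith)]
  simp only [Complex.ofReal_zero, mul_zero, Complex.exp_zero]
  rw [neg_div_neg_eq, mul_one_div]

theorem lower {a : ℝ} (ha : 0 < a) {s : ℝ} (hs : 1 < s) :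
    (1 / (2 * (a + 2) ^ 2)) * s⁻¹ ≤ ‖∫ t in Set.Ioi (0 : ℝ),
      Complex.exp (-(((a : ℂ) + (s : ℂ) * Complex.I) * (t : ℂ))) • T t x0‖ ^ 2 := by
  obtain ⟨k, hk⟩ : ∃ k, k = ⌊s⌋₊ := ⟨_, rfl⟩
  have hk1 : (k : ℝ) ≤ s := by rw [hk]; exact Nat.floor_le (by linarith)
  have hk2 : s < k + 1 := by rw [hk]; exact Nat.lt_floor_add_one s
  have h1 := lp.norm_apply_le_norm (p := 3) (by norm_num) (∫ t in Set.Ioi (0 : ℝ),
      Complex.exp (-(((a : ℂ) + (s : ℂ) * Complex.I) * (t : ℂ))) • T t x0) k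
  rw [coord ha s k, norm_div, x0_apply, Complex.norm_real, Real.norm_of_nonneg (by positivity)] at h1
  have h2 : ‖((a : ℂ) + 1 + ((s : ℂ) - k) * Complex.I)‖ ≤ a + 2 := by
    calc ‖((a : ℂ) + 1 + ((s : ℂ) - k) * Complex.I)‖
        ≤ ‖((a : ℂ) + 1)‖ + ‖((s : ℂ) - k) * Complex.I‖ := norm_add_le _ _
      _ = (a + 1) + (s - k) := by
          have e1 : ((a : ℂ) + 1) = ((a + 1 : ℝ) : ℂ) := by push_cast; ring
          have e2 : ((s : ℂ) - k) = ((s - k : ℝ) : ℂ) := by push_cast; ring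
          rw [norm_mul, Complex.norm_I, mul_one, e1, e2, Complex.norm_real, Complex.norm_real,
            Real.norm_of_nonneg (by linarith), Real.norm_of_nonneg (by linarith)]
      _ ≤ a + 2 := by linarith
  have h0 : 0 < ‖((a : ℂ) + 1 + ((s : ℂ) - k) * Complex.I)‖ := by
    rw [norm_pos_iff]
    intro h
    have := congrArg Complex.re h
    simp at this
    linarith
  have hk0 : (0 : ℝ) < (k : ℝ) + 1 := by positivity
  have h3 : ((k : ℝ) + 1) ^ (-(1 / 2) : ℝ) / (a + 2) ≤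
      ((k : ℝ) + 1) ^ (-(1 / 2) : ℝ) / ‖((a : ℂ) + 1 + ((s : ℂ) - k) * Complex.I)‖ := by
    gcongr
  have h4 := h3.trans h1
  have h5 : (((k : ℝ) + 1) ^ (-(1 / 2) : ℝ) / (a + 2)) ^ 2 = 1 / ((k + 1) * (a + 2) ^ 2) := by
    rw [div_pow]
    have : (((k : ℝ) + 1) ^ (-(1 / 2) : ℝ)) ^ 2 = ((k : ℝ) + 1)⁻¹ := by
      rw [← Real.rpow_natCast, ← Real.rpow_mul hk0.le, ← Real.rpow_neg_one]
      congr 1
      norm_num
    rw [this]
    field_simp
  calc (1 / (2 * (a + 2) ^ 2)) * s⁻¹ = 1 / ((2 * s) * (a + 2) ^ 2) := by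
        field_simp
    _ ≤ 1 / ((k + 1) * (a + 2) ^ 2) := by
        gcongr
        linarith
    _ = (((k : ℝ) + 1) ^ (-(1 / 2) : ℝ) / (a + 2)) ^ 2 := h5.symm
    _ ≤ _ := by
        gcongr

theorem infinite {a : ℝ} (ha : 0 < a) :
    (∫⁻ s : ℝ,
      ((‖∫ t in Set.Ioi (0 : ℝ),
          Complex.exp (-(((a : ℂ) + (s : ℂ) * Complex.I) * (t : ℂ))) • T t x0‖₊ : ENNReal)) ^ 2) = ⊤ := by
  rw [eq_top_iff]
  have hc : (0 : ℝ) < 1 / (2 * (a + 2) ^ 2) := by positivity
  have h1 : (∫⁻ s in Set.Ioi (1 : ℝ), ENNReal.ofReal ((1 / (2 * (a + 2) ^ 2)) * s⁻¹)) = ⊤ := by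
    by_contra hne
    have hm : AEStronglyMeasurable (fun s : ℝ => (1 / (2 * (a + 2) ^ 2)) * s⁻¹)
        (volume.restrict (Set.Ioi 1)) := by
      apply Measurable.aestronglyMeasurable
      fun_prop
    have hpos : 0 ≤ᵐ[volume.restrict (Set.Ioi 1)] (fun s : ℝ => (1 / (2 * (a + 2) ^ 2)) * s⁻¹) := by
      filter_upwards [self_mem_ae_restrict measurableSet_Ioi] with s hs
      have hs' : (1 : ℝ) < s := hs
      show (0 : ℝ) ≤ _
      positivity
    have h2 := (lintegral_ofReal_ne_top_iff_integrable hm hpos).mp hne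
    apply not_integrableOn_Ioi_inv (a := 1)
    have h3 := h2.const_mul (1 / (2 * (a + 2) ^ 2))⁻¹
    refine h3.congr ?_
    filter_upwards with s
    rw [← mul_assoc, inv_mul_cancel₀ hc.ne', one_mul]
  rw [← h1]
  calc (∫⁻ s in Set.Ioi (1 : ℝ), ENNReal.ofReal ((1 / (2 * (a + 2) ^ 2)) * s⁻¹))
      ≤ ∫⁻ s in Set.Ioi (1 : ℝ), ((‖∫ t in Set.Ioi (0 : ℝ),
          Complex.exp (-(((a : ℂ) + (s : ℂ) * Complex.I) * (t : ℂ))) • T t x0‖₊ : ENNReal)) ^ 2 := by
        apply setLIntegral_mono' measurableSet_Ioi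
        intro s hs
        have h := lower ha (s := s) hs
        calc ENNReal.ofReal ((1 / (2 * (a + 2) ^ 2)) * s⁻¹) ≤ ENNReal.ofReal (‖∫ t in Set.Ioi (0 : ℝ),
              Complex.exp (-(((a : ℂ) + (s : ℂ) * Complex.I) * (t : ℂ))) • T t x0‖ ^ 2) :=
              ENNReal.ofReal_le_ofReal h
          _ = _ := by
              rw [ENNReal.ofReal_pow (norm_nonneg _), ofReal_norm]
              rfl
    _ ≤ _ := setLIntegral_le_lintegral _ _

/-- The negation of the preceding statement: For every bounded strongly continuous semigroup T on a complex Banach space and every x, T(t)x tends to 0 iff a times the integral over s of the squared norm of the Laplace-transform resolvent at a+is applied to x tends to 0 as a tends to 0 from above. -/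
theorem result :
    ¬ (∀ (X : Type) [NormedAddCommGroup X] [NormedSpace ℂ X] [CompleteSpace X]
      (T : ℝ → (X →L[ℂ] X)),
      T 0 = 1 →
      (∀ s t : ℝ, 0 ≤ s → 0 ≤ t → T (s + t) = T s * T t) →
      (∀ x : X, ContinuousOn (fun t : ℝ => T t x) (Set.Ici (0 : ℝ))) →
      (∃ M : ℝ, ∀ t : ℝ, 0 ≤ t → ‖T t‖ ≤ M) →
      ∀ x : X,
        (Tendsto (fun t : ℝ => T t x) atTop (𝓝 0) ↔
          Tendsto
            (fun a : ℝ => ENNReal.ofReal a *
              ∫⁻ s : ℝ,
                ((‖∫ t in Set.Ioi (0 : ℝ),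
                    Complex.exp (-(((a : ℂ) + (s : ℂ) * Complex.I) * (t : ℂ))) • T t x‖₊ : ENNReal)) ^ 2)
            (𝓝[>] (0 : ℝ)) (𝓝 0))) := by
  intro H
  have h := (H X T ?_ ?_ ?_ ?_ x0).mp ?_
  · have h2 : Tendsto (fun _ : ℝ => (⊤ : ENNReal)) (𝓝[>] (0 : ℝ)) (𝓝 0) := by
      refine h.congr' ?_
      filter_upwards [self_mem_nhdsWithin] with a ha
      have ha' : (0 : ℝ) < a := ha
      exact (congrArg (fun z => ENNReal.ofReal a * z) (infinite ha')).trans
        (ENNReal.mul_top (ENNReal.ofReal_pos.mpr ha').ne')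
    have := tendsto_nhds_unique h2 tendsto_const_nhds
    exact ENNReal.zero_ne_top this
  · ext x k
    rw [T_apply]
    simp [m]
  · intro s t hs ht
    ext x k
    show T (s + t) x k = T s (T t x) k
    rw [T_apply, T_apply, T_apply, ← mul_assoc]
    congr 1
    unfold m
    rw [max_eq_left hs, max_eq_left ht, max_eq_left (by linarith), ← Complex.exp_add]
    congr 1
    push_cast
    ring
  · intro x
    exact (T_cont x).continuousOn
  · exact ⟨1, fun t _ => ContinuousLinearMap.opNorm_le_bound _ zero_le_one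
      (fun x => by rw [one_mul]; exact T_norm' t x)⟩
  · rw [tendsto_zero_iff_norm_tendsto_zero]
    refine squeeze_zero' (Eventually.of_forall fun t => norm_nonneg _)
      (g := fun t : ℝ => Real.exp (-t) * ‖x0‖) ?_ ?_
    · filter_upwards [eventually_ge_atTop 0] with t ht
      have := T_norm t x0
      rwa [max_eq_left ht] at this
    · have := (Real.tendsto_exp_neg_atTop_nhds_zero).mul_const ‖x0‖
      rwa [zero_mul] at this

end Pool.Agent.S04456
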