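import Pool.Statements.S04818

set_option autoImplicit false
open Pool Pool.MP_0c316d_co

namespace Pool.Agent.S04818

/-- terminals: pairs `i < j` in `Fin 14` -/
abbrev PT : Type := {p : Fin 14 × Fin 14 // p.1 < p.2}

/-- the bipartite example graph -/
def exG : SimpleGraph (PT ⊕ Fin 14) where
  Adj x y := match x, y with
    | Sum.inl p, Sum.inr b => b ≠ p.1.1 ∧ b ≠ p.1.2
    | Sum.inr b, Sum.inl p => b ≠ p.1.1 ∧ b ≠ p.1.2
    | _, _ => False
  symm := by
    constructor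
    intro x y h
    rcases x with x | x <;> rcases y with y | y <;> simp_all
  loopless := by
    constructor
    intro x h
    rcases x with x | x <;> simp_all

def exA : Finset (PT ⊕ Fin 14) := Finset.univ.map Function.Embedding.inl

theorem mem_exA (x : PT ⊕ Fin 14) : x ∈ exA ↔ ∃ p, x = Sum.inl p := by
  unfold exA
  simp only [Finset.mem_map, Finset.mem_univ, true_and, Function.Embedding.inl_apply]
  constructor
  · rintro ⟨a, h⟩; exact ⟨a, h.symm⟩
  · rintro ⟨a, h⟩; exact ⟨a, h.symm⟩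

theorem card_PT : Fintype.card PT = 91 := by
  simp only [PT]
  rw [Fintype.card_subtype]
  decide +kernel

theorem exA_card : exA.card = 91 := by
  unfold exA
  rw [Finset.card_map, Finset.card_univ, card_PT]

theorem exA_indep (a : PT ⊕ Fin 14) (ha : a ∈ exA) (b : PT ⊕ Fin 14) (hb : b ∈ exA) :
    ¬ exG.Adj a b := by
  rw [mem_exA] at ha hb
  obtain ⟨p, rfl⟩ := ha
  obtain ⟨q, rfl⟩ := hb
  intro h
  exact h

theorem exA_conn (a : PT ⊕ Fin 14) (ha : a ∈ exA) (b : PT ⊕ Fin 14) (hb : b ∈ exA)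
    (S : Finset (PT ⊕ Fin 14)) (haS : a ∉ S) (hbS : b ∉ S) (hS : S.card < 10) :
    ∃ p : exG.Walk a b, ∀ v ∈ p.support, v ∉ S := by
  rw [mem_exA] at ha hb
  obtain ⟨p, rfl⟩ := ha
  obtain ⟨q, rfl⟩ := hb
  -- the common neighbours
  set N : Finset (Fin 14) := Finset.univ \ {p.1.1, p.1.2, q.1.1, q.1.2} with hN
  have hNc : 10 ≤ N.card := by
    have h1 : N.card = 14 - ({p.1.1, p.1.2, q.1.1, q.1.2} : Finset (Fin 14)).card := by
      rw [hN, Finset.card_sdiff_of_subset (Finset.subset_univ _)]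
      simp
    have h2 : ({p.1.1, p.1.2, q.1.1, q.1.2} : Finset (Fin 14)).card ≤ 4 := Finset.card_le_four
    omega
  have : ∃ c ∈ N, (Sum.inr c : PT ⊕ Fin 14) ∉ S := by
    by_contra hcon
    push Not at hcon
    have hsub : N.map Function.Embedding.inr ⊆ S := by
      intro x hx
      rw [Finset.mem_map] at hx
      obtain ⟨c, hc, rfl⟩ := hx
      exact hcon c hc
    have := Finset.card_le_card hsub
    rw [Finset.card_map] at this
    omega
  obtain ⟨c, hcN, hcS⟩ := this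
  rw [hN] at hcN
  simp only [Finset.mem_sdiff, Finset.mem_univ, true_and, Finset.mem_insert,
    Finset.mem_singleton, not_or] at hcN
  have h1 : exG.Adj (Sum.inl p) (Sum.inr c) := ⟨hcN.1, hcN.2.1⟩
  have h2 : exG.Adj (Sum.inr c) (Sum.inl q) := ⟨hcN.2.2.1, hcN.2.2.2⟩
  refine ⟨SimpleGraph.Walk.cons h1 (SimpleGraph.Walk.cons h2 SimpleGraph.Walk.nil), ?_⟩
  intro v hv
  simp only [SimpleGraph.Walk.support_cons, SimpleGraph.Walk.support_nil, List.mem_cons,
    List.not_mem_nil, or_false] at hv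
  rcases hv with rfl | rfl | rfl
  · exact haS
  · exact hcS
  · exact hbS

theorem three_le (T : exG.Subgraph) (hT : T.coe.IsTree) (hA : (↑exA : Set (PT ⊕ Fin 14)) ⊆ T.verts)
    (B : Finset (Fin 14)) (hB : ∀ b, b ∈ B ↔ (Sum.inr b : PT ⊕ Fin 14) ∈ T.verts) :
    3 ≤ B.card := by
  by_contra hlt
  have hle : B.card ≤ 2 := by omega
  obtain ⟨C, hBC, hC⟩ := Finset.exists_superset_card_eq hle (by simp)
  obtain ⟨x, y, hxy, hCxy⟩ := Finset.card_eq_two.mp hC
  obtain ⟨u, v, huv, hsub⟩ : ∃ u v : Fin 14, u < v ∧ B ⊆ {u, v} := by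
    rcases lt_or_gt_of_ne hxy with h | h
    · exact ⟨x, y, h, by rw [← hCxy]; exact hBC⟩
    · refine ⟨y, x, h, ?_⟩
      rw [Finset.pair_comm, ← hCxy]; exact hBC
  let p : PT := ⟨(u, v), huv⟩
  have hp : (Sum.inl p : PT ⊕ Fin 14) ∈ T.verts := hA (by rw [Finset.mem_coe, mem_exA]; exact ⟨p, rfl⟩)
  -- another terminal
  obtain ⟨q, hq⟩ : ∃ q : PT, q ≠ p := by
    by_contra hcon
    push Not at hcon
    have : Fintype.card PT ≤ 1 := Fintype.card_le_one_iff.mpr (fun a b => (hcon a).trans (hcon b).symm)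
    rw [card_PT] at this
    omega
  have hqv : (Sum.inl q : PT ⊕ Fin 14) ∈ T.verts := hA (by rw [Finset.mem_coe, mem_exA]; exact ⟨q, rfl⟩)
  have hconn := hT.connected.preconnected ⟨Sum.inl p, hp⟩ ⟨Sum.inl q, hqv⟩
  obtain ⟨w⟩ := hconn
  cases w with
  | nil => exact hq rfl
  | @cons _ z _ h w' =>
    obtain ⟨z, hz⟩ := z
    have hadj : T.Adj (Sum.inl p) z := by simpa using h
    have hG : exG.Adj (Sum.inl p) z := T.adj_sub hadj
    rcases z with z | b
    · exact hG
    · have hbB : b ∈ B := (hB b).mpr hz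
      have := hsub hbB
      simp only [Finset.mem_insert, Finset.mem_singleton] at this
      obtain ⟨h1, h2⟩ := hG
      rcases this with h | h
      · exact h1 h
      · exact h2 h

/-- The negation of the preceding statement: For t≥5, k≥2 with m=⌊⌈tk/2⌉/(t−1)⌋: every finite graph with an independent k-connected t-set A has m A-trees meeting only in A, and some such graph has no m+1 of them. -/
theorem result :
    ¬ (∀ t k : ℕ, 5 ≤ t → 2 ≤ k →
      (∀ (V : Type) [Fintype V] (G : SimpleGraph V) (A : Finset V),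
        A.card = t →
        (∀ a ∈ A, ∀ b ∈ A, ¬ G.Adj a b) →
        (∀ a ∈ A, ∀ b ∈ A, a ≠ b → ∀ S : Finset V, a ∉ S → b ∉ S → S.card < k →
          ∃ p : G.Walk a b, ∀ v ∈ p.support, v ∉ S) →
        ∃ T : Fin ((t * k + 1) / 2 / (t - 1)) → G.Subgraph,
          (∀ i, (T i).coe.IsTree ∧ (↑A : Set V) ⊆ (T i).verts ∧
            ∀ v ∈ (T i).verts, ((T i).neighborSet v).ncard = 1 → v ∈ A) ∧
          (∀ i j, i ≠ j → (T i).verts ∩ (T j).verts ⊆ (↑A : Set V))) ∧
      (∃ (V : Type) (_ : Fintype V) (G : SimpleGraph V) (A : Finset V),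
        A.card = t ∧
        (∀ a ∈ A, ∀ b ∈ A, ¬ G.Adj a b) ∧
        (∀ a ∈ A, ∀ b ∈ A, a ≠ b → ∀ S : Finset V, a ∉ S → b ∉ S → S.card < k →
          ∃ p : G.Walk a b, ∀ v ∈ p.support, v ∉ S) ∧
        ¬ ∃ T : Fin ((t * k + 1) / 2 / (t - 1) + 1) → G.Subgraph,
          (∀ i, (T i).coe.IsTree ∧ (↑A : Set V) ⊆ (T i).verts ∧
            ∀ v ∈ (T i).verts, ((T i).neighborSet v).ncard = 1 → v ∈ A) ∧
          (∀ i j, i ≠ j → (T i).verts ∩ (T j).verts ⊆ (↑A : Set V)))) := by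
  classical
  intro H
  obtain ⟨H1, -⟩ := H 91 10 (by norm_num) (by norm_num)
  obtain ⟨T, hT, hdisj⟩ := H1 (PT ⊕ Fin 14) exG exA exA_card exA_indep
    (fun a ha b hb _ S haS hbS hS => exA_conn a ha b hb S haS hbS hS)
  have hnum : (91 * 10 + 1) / 2 / (91 - 1) = 5 := by norm_num
  let B : Fin ((91 * 10 + 1) / 2 / (91 - 1)) → Finset (Fin 14) := fun i =>
    Finset.univ.filter (fun b => (Sum.inr b : PT ⊕ Fin 14) ∈ (T i).verts)
  have hB : ∀ i, 3 ≤ (B i).card := fun i =>
    three_le (T i) (hT i).1 (hT i).2.1 (B i) (by intro b; simp [B])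
  have hpd : ∀ i ∈ (Finset.univ : Finset (Fin ((91 * 10 + 1) / 2 / (91 - 1)))),
      ∀ j ∈ (Finset.univ : Finset (Fin ((91 * 10 + 1) / 2 / (91 - 1)))), i ≠ j →
      Disjoint (B i) (B j) := by
    intro i _ j _ hij
    rw [Finset.disjoint_left]
    intro b hbi hbj
    have h1 : (Sum.inr b : PT ⊕ Fin 14) ∈ (T i).verts := by simpa [B] using hbi
    have h2 : (Sum.inr b : PT ⊕ Fin 14) ∈ (T j).verts := by simpa [B] using hbj
    have h3 := hdisj i j hij ⟨h1, h2⟩
    rw [Finset.mem_coe, mem_exA] at h3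
    obtain ⟨p, hp⟩ := h3
    cases hp
  have hcard := Finset.card_biUnion hpd
  have hle : (Finset.univ.biUnion B).card ≤ 14 := by
    have := Finset.card_le_univ (Finset.univ.biUnion B)
    simpa using this
  have hsum : ∑ i : Fin ((91 * 10 + 1) / 2 / (91 - 1)), 3 ≤ ∑ i, (B i).card :=
    Finset.sum_le_sum (fun i _ => hB i)
  have h15 : ∑ i : Fin ((91 * 10 + 1) / 2 / (91 - 1)), 3 = 15 := by
    rw [Finset.sum_const, Finset.card_univ, Fintype.card_fin]
    norm_num
  omega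

end Pool.Agent.S04818
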