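import Pool.Statements.S05175
import Mathlib

set_option autoImplicit false
open Pool Pool.MP_229fa6_co

namespace Pool.Agent.S05175

/-- `F s t i j`: the order isomorphism between `ℤ \ {s}` and `ℤ \ {t}` obtained by closing the
gaps sends `i` to `j`. -/
def F (s t i j : ℤ) : Prop :=
  i ≠ s ∧ j ≠ t ∧ i - (if s < i then 1 else 0) = j - (if t < j then 1 else 0)

section core
variable {n : ℕ} (σ τ : Equiv.Perm (Fin n))

/-- adjacency of states; `false` = domain side (ranks for `σ`), `true` = range side. -/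
def Adj (a b : Bool × ℤ × ℤ) : Prop :=
  ∃ z : Fin n,
    (a.1 = false ∧ b.1 = true ∧ F (σ z : ℕ) (τ z : ℕ) a.2.1 b.2.1 ∧
      F (σ z : ℕ) (τ z : ℕ) a.2.2 b.2.2) ∨
    (a.1 = true ∧ b.1 = false ∧ F (σ z : ℕ) (τ z : ℕ) b.2.1 a.2.1 ∧
      F (σ z : ℕ) (τ z : ℕ) b.2.2 a.2.2)

abbrev Conn := Relation.ReflTransGen (Adj σ τ)

lemma fwd (z : Fin n) {i j i' j' : ℤ} (h1 : F (σ z : ℕ) (τ z : ℕ) i i')
    (h2 : F (σ z : ℕ) (τ z : ℕ) j j') : Conn σ τ (false, i, j) (true, i', j') :=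
  Relation.ReflTransGen.single ⟨z, Or.inl ⟨rfl, rfl, h1, h2⟩⟩

lemma bwd (z : Fin n) {i j i' j' : ℤ} (h1 : F (σ z : ℕ) (τ z : ℕ) i' i)
    (h2 : F (σ z : ℕ) (τ z : ℕ) j' j) : Conn σ τ (true, i, j) (false, i', j') :=
  Relation.ReflTransGen.single ⟨z, Or.inr ⟨rfl, rfl, h1, h2⟩⟩


lemma exists_σ (i : ℤ) (h0 : 0 ≤ i) (h1 : i < n) : ∃ z : Fin n, ((σ z : ℕ) : ℤ) = i := by
  refine ⟨σ.symm ⟨i.toNat, by omega⟩, ?_⟩
  simp [h0]

lemma inj_σ {z w : Fin n} (h : ((σ z : ℕ) : ℤ) = (σ w : ℕ)) : z = w := by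
  apply σ.injective
  apply Fin.ext
  exact_mod_cast h

variable (p q : ℤ)

/-- class of a position -/
def cls (i : ℤ) : Fin 4 :=
  if i < p - 4 then 0 else if p + 4 < i ∧ i < q - 4 then 1 else if q + 4 < i then 2 else 3

lemma cls0 {p q i : ℤ} (h : cls p q i = 0) : i < p - 4 := by
  unfold cls at h; split_ifs at h <;> simp_all
lemma cls1 {p q i : ℤ} (h : cls p q i = 1) : p + 4 < i ∧ i < q - 4 := by
  unfold cls at h; split_ifs at h <;> simp_all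
lemma cls2 {p q i : ℤ} (h : cls p q i = 2) : q + 4 < i := by
  unfold cls at h; split_ifs at h <;> simp_all
lemma cls3 {p q i : ℤ} (hpq : p < q) (h : cls p q i = 3) :
    (p - 4 ≤ i ∧ i ≤ p + 4) ∨ (q - 4 ≤ i ∧ i ≤ q + 4) := by
  unfold cls at h
  split_ifs at h with h1 h2 h3
  · simp at h
  · simp at h
  · simp at h
  · push Not at h2; by_cases h4 : p + 4 < i
    · right; exact ⟨h2 h4, by omega⟩
    · left; omega

/-- matrix of counts -/
def x (a b : Fin 4) : ℕ :=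
  (Finset.univ.filter (fun z : Fin n => cls p q (σ z : ℕ) = a ∧ cls p q (τ z : ℕ) = b)).card

def m (n : ℕ) (a : Fin 4) : ℕ :=
  (Finset.univ.filter (fun i : Fin n => cls p q (i : ℕ) = a)).card

lemma row (a : Fin 4) : ∑ b, x σ τ p q a b = m p q n a := by
  have h1 : (Finset.univ.filter (fun z : Fin n => cls p q (σ z : ℕ) = a)).card = m p q n a := by
    unfold m
    apply Finset.card_bijective σ σ.bijective
    intro i; simp
  rw [← h1]
  unfold x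
  rw [Finset.card_eq_sum_card_fiberwise (f := fun z => cls p q (τ z : ℕ)) (t := Finset.univ)
    (by intro z _; simp)]
  apply Finset.sum_congr rfl
  intro b _
  rw [Finset.filter_filter]

lemma col (b : Fin 4) : ∑ a, x σ τ p q a b = m p q n b := by
  have h1 : (Finset.univ.filter (fun z : Fin n => cls p q (τ z : ℕ) = b)).card = m p q n b := by
    unfold m
    apply Finset.card_bijective τ τ.bijective
    intro i; simp
  rw [← h1]
  unfold x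
  rw [Finset.card_eq_sum_card_fiberwise (f := fun z => cls p q (σ z : ℕ)) (t := Finset.univ)
    (by intro z _; simp)]
  apply Finset.sum_congr rfl
  intro a _
  rw [Finset.filter_filter]
  congr 1
  ext z; simp [and_comm]

lemma total : ∑ a, m p q n a = n := by
  have : (Finset.univ : Finset (Fin n)).card = n := by simp
  conv_rhs => rw [← this]
  rw [Finset.card_eq_sum_card_fiberwise (f := fun z : Fin n => cls p q (z : ℕ)) (t := Finset.univ)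
    (by intro z _; simp)]
  rfl

lemma m3 (hpq : p < q) : m p q n 3 ≤ 18 := by
  unfold m
  have h : (Finset.univ.filter (fun i : Fin n => cls p q (i : ℕ) = 3)).card ≤
      (Finset.Icc (p - 4) (p + 4) ∪ Finset.Icc (q - 4) (q + 4)).card := by
    apply Finset.card_le_card_of_injOn (fun i : Fin n => ((i : ℕ) : ℤ))
    · intro i hi
      simp only [Finset.coe_filter, Finset.mem_univ, true_and, Set.mem_ofPred_eq] at hi
      have := cls3 hpq hi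
      simp only [Finset.coe_union, Finset.coe_Icc, Set.mem_union, Set.mem_Icc]
      exact this
    · intro i _ j _ hij
      apply Fin.ext
      have hij' : ((i : ℕ) : ℤ) = ((j : ℕ) : ℤ) := hij
      exact_mod_cast hij'
  refine h.trans ((Finset.card_union_le _ _).trans ?_)
  simp only [Int.card_Icc]
  omega

lemma x_pos {a b : Fin 4} (h : x σ τ p q a b ≠ 0) :
    ∃ z : Fin n, cls p q (σ z : ℕ) = a ∧ cls p q (τ z : ℕ) = b := by
  unfold x at h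
  rw [Finset.card_ne_zero] at h
  obtain ⟨z, hz⟩ := h
  exact ⟨z, by simpa using hz⟩

/-- existence of suitable far points -/
lemma far_exists (hn : 200 ≤ n) (hpq : p < q)
    (H : ∀ z : Fin n, ¬ (((p < (σ z : ℕ) ∧ p < (τ z : ℕ)) ∨ (((σ z : ℕ) : ℤ) < p ∧ ((τ z : ℕ) : ℤ) < p)) ∧
      ((q < (σ z : ℕ) ∧ q < (τ z : ℕ)) ∨ (((σ z : ℕ) : ℤ) < q ∧ ((τ z : ℕ) : ℤ) < q)))) :
    let X := x σ τ p q
    (X 0 1 ≠ 0 ∧ X 1 0 ≠ 0) ∨ (X 1 2 ≠ 0 ∧ X 2 1 ≠ 0) ∨ (X 0 2 ≠ 0 ∧ X 2 0 ≠ 0) ∨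
      (X 0 1 ≠ 0 ∧ X 1 2 ≠ 0 ∧ X 2 0 ≠ 0) ∨ (X 1 0 ≠ 0 ∧ X 2 1 ≠ 0 ∧ X 0 2 ≠ 0) := by
  intro X
  have h00 : X 0 0 = 0 := by
    by_contra h
    obtain ⟨z, h1, h2⟩ := x_pos σ τ p q h
    have := cls0 h1; have := cls0 h2
    apply H z; omega
  have h11 : X 1 1 = 0 := by
    by_contra h
    obtain ⟨z, h1, h2⟩ := x_pos σ τ p q h
    have := cls1 h1; have := cls1 h2
    apply H z; omega
  have h22 : X 2 2 = 0 := by
    by_contra h
    obtain ⟨z, h1, h2⟩ := x_pos σ τ p q h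
    have := cls2 h1; have := cls2 h2
    apply H z; omega
  have r0 := row σ τ p q 0
  have r1 := row σ τ p q 1
  have r2 := row σ τ p q 2
  have r3 := row σ τ p q 3
  have c0 := col σ τ p q 0
  have c1 := col σ τ p q 1
  have c2 := col σ τ p q 2
  have c3 := col σ τ p q 3
  have ht := total (n := n) p q
  have h3 := m3 (n := n) p q hpq
  simp only [Fin.sum_univ_four] at r0 r1 r2 r3 c0 c1 c2 c3 ht
  have e : ∀ a b, x σ τ p q a b = X a b := fun _ _ => rfl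
  simp only [e] at r0 r1 r2 r3 c0 c1 c2 c3
  generalize X 0 0 = x00 at *
  generalize X 0 1 = x01 at *
  generalize X 0 2 = x02 at *
  generalize X 0 3 = x03 at *
  generalize X 1 0 = x10 at *
  generalize X 1 1 = x11 at *
  generalize X 1 2 = x12 at *
  generalize X 1 3 = x13 at *
  generalize X 2 0 = x20 at *
  generalize X 2 1 = x21 at *
  generalize X 2 2 = x22 at *
  generalize X 2 3 = x23 at *
  generalize X 3 0 = x30 at *
  generalize X 3 1 = x31 at *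
  generalize X 3 2 = x32 at *
  generalize X 3 3 = x33 at *
  omega

/-- three-letter word from `AB`, `AC`, `BC` points. -/
lemma word_ABC (hpq : p < q) (s t u : Fin n)
    (hs : ((σ s : ℕ) : ℤ) < p ∧ p ≤ (τ s : ℕ) ∧ ((τ s : ℕ) : ℤ) < q)
    (ht : ((σ t : ℕ) : ℤ) < p ∧ q < (τ t : ℕ))
    (hu : p < (σ u : ℕ) ∧ ((σ u : ℕ) : ℤ) ≤ q ∧ q < (τ u : ℕ)) :
    Conn σ τ (false, p, q) (true, p, q) := by
  refine (fwd σ τ s (i' := p - 1) (j' := q) ?_ ?_).trans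
    ((bwd σ τ t (i' := p) (j' := q + 1) ?_ ?_).trans (fwd σ τ u ?_ ?_)) <;>
    (refine ⟨by omega, by omega, ?_⟩; split_ifs <;> omega)

/-- three-letter word from `BC`, `BA`, `CA` points. -/
lemma word_BCA (hpq : p < q) (s t u : Fin n)
    (hs : p < (σ s : ℕ) ∧ ((σ s : ℕ) : ℤ) ≤ q ∧ q < (τ s : ℕ))
    (ht : p < (σ t : ℕ) ∧ ((σ t : ℕ) : ℤ) ≤ q ∧ ((τ t : ℕ) : ℤ) ≤ p)
    (hu : q < (σ u : ℕ) ∧ ((τ u : ℕ) : ℤ) ≤ p) :
    Conn σ τ (false, p, q) (true, p, q) := by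
  refine (fwd σ τ u (i' := p + 1) (j' := q + 1) ?_ ?_).trans
    ((bwd σ τ t (i' := p) (j' := q + 1) ?_ ?_).trans (fwd σ τ s ?_ ?_)) <;>
    (refine ⟨by omega, by omega, ?_⟩; split_ifs <;> omega)

/-- three-letter word from `BA`, `CA`, `CB` points. -/
lemma word_BAC (hpq : p < q) (s t u : Fin n)
    (hs : p < (σ s : ℕ) ∧ ((σ s : ℕ) : ℤ) < q ∧ ((τ s : ℕ) : ℤ) ≤ p)
    (ht : q < (σ t : ℕ) ∧ ((τ t : ℕ) : ℤ) < p)
    (hu : q < (σ u : ℕ) ∧ p < (τ u : ℕ) ∧ ((τ u : ℕ) : ℤ) < q) :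
    Conn σ τ (false, p, q) (true, p, q) := by
  refine (fwd σ τ s (i' := p + 1) (j' := q) ?_ ?_).trans
    ((bwd σ τ t (i' := p) (j' := q - 1) ?_ ?_).trans (fwd σ τ u ?_ ?_)) <;>
    (refine ⟨by omega, by omega, ?_⟩; split_ifs <;> omega)

/-- `AB`, `BA` far and a good state `(p-4, q)`. -/
lemma path_AB_neg (hpq : p < q) (s t r : Fin n)
    (hs : ((σ s : ℕ) : ℤ) < p - 4 ∧ p + 4 < (τ s : ℕ) ∧ ((τ s : ℕ) : ℤ) < q - 4)
    (ht : ((τ t : ℕ) : ℤ) < p - 4 ∧ p + 4 < (σ t : ℕ) ∧ ((σ t : ℕ) : ℤ) < q - 4)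
    (hr : p - 4 < (σ r : ℕ) ∧ p - 4 < (τ r : ℕ) ∧ ((σ r : ℕ) : ℤ) < q ∧ ((τ r : ℕ) : ℤ) < q) :
    Conn σ τ (false, p, q) (true, p, q) := by
  refine (fwd σ τ s (i' := p - 1) (j' := q) ?_ ?_).trans
    ((bwd σ τ t (i' := p - 2) (j' := q) ?_ ?_).trans
    ((fwd σ τ s (i' := p - 3) (j' := q) ?_ ?_).trans
    ((bwd σ τ t (i' := p - 4) (j' := q) ?_ ?_).trans
    ((fwd σ τ r (i' := p - 4) (j' := q) ?_ ?_).trans
    ((bwd σ τ s (i' := p - 3) (j' := q) ?_ ?_).trans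
    ((fwd σ τ t (i' := p - 2) (j' := q) ?_ ?_).trans
    ((bwd σ τ s (i' := p - 1) (j' := q) ?_ ?_).trans
    (fwd σ τ t ?_ ?_)))))))) <;>
    (refine ⟨by omega, by omega, ?_⟩; split_ifs <;> omega)

/-- `AB`, `BA` far and a good state `(p+4, q)`. -/
lemma path_AB_pos (hpq : p < q) (s t r : Fin n)
    (hs : ((σ s : ℕ) : ℤ) < p - 4 ∧ p + 4 < (τ s : ℕ) ∧ ((τ s : ℕ) : ℤ) < q - 4)
    (ht : ((τ t : ℕ) : ℤ) < p - 4 ∧ p + 4 < (σ t : ℕ) ∧ ((σ t : ℕ) : ℤ) < q - 4)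
    (hr : ((σ r : ℕ) : ℤ) < p + 4 ∧ ((τ r : ℕ) : ℤ) < p + 4) :
    Conn σ τ (false, p, q) (true, p, q) := by
  refine (fwd σ τ t (i' := p + 1) (j' := q) ?_ ?_).trans
    ((bwd σ τ s (i' := p + 2) (j' := q) ?_ ?_).trans
    ((fwd σ τ t (i' := p + 3) (j' := q) ?_ ?_).trans
    ((bwd σ τ s (i' := p + 4) (j' := q) ?_ ?_).trans
    ((fwd σ τ r (i' := p + 4) (j' := q) ?_ ?_).trans
    ((bwd σ τ t (i' := p + 3) (j' := q) ?_ ?_).trans
    ((fwd σ τ s (i' := p + 2) (j' := q) ?_ ?_).trans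
    ((bwd σ τ t (i' := p + 1) (j' := q) ?_ ?_).trans
    (fwd σ τ s ?_ ?_)))))))) <;>
    (refine ⟨by omega, by omega, ?_⟩; split_ifs <;> omega)

/-- `BC`, `CB` far and a good state `(p, q+4)`. -/
lemma path_BC_pos (hpq : p < q) (s t r : Fin n)
    (hs : p + 4 < (σ s : ℕ) ∧ ((σ s : ℕ) : ℤ) < q - 4 ∧ q + 4 < (τ s : ℕ))
    (ht : p + 4 < (τ t : ℕ) ∧ ((τ t : ℕ) : ℤ) < q - 4 ∧ q + 4 < (σ t : ℕ))
    (hr : ((σ r : ℕ) : ℤ) < q + 4 ∧ ((τ r : ℕ) : ℤ) < q + 4 ∧ p < (σ r : ℕ) ∧ p < (τ r : ℕ)) :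
    Conn σ τ (false, p, q) (true, p, q) := by
  refine (fwd σ τ t (i' := p) (j' := q + 1) ?_ ?_).trans
    ((bwd σ τ s (i' := p) (j' := q + 2) ?_ ?_).trans
    ((fwd σ τ t (i' := p) (j' := q + 3) ?_ ?_).trans
    ((bwd σ τ s (i' := p) (j' := q + 4) ?_ ?_).trans
    ((fwd σ τ r (i' := p) (j' := q + 4) ?_ ?_).trans
    ((bwd σ τ t (i' := p) (j' := q + 3) ?_ ?_).trans
    ((fwd σ τ s (i' := p) (j' := q + 2) ?_ ?_).trans
    ((bwd σ τ t (i' := p) (j' := q + 1) ?_ ?_).trans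
    (fwd σ τ s ?_ ?_)))))))) <;>
    (refine ⟨by omega, by omega, ?_⟩; split_ifs <;> omega)

/-- `BC`, `CB` far and a good state `(p, q-4)`. -/
lemma path_BC_neg (hpq : p < q) (s t r : Fin n)
    (hs : p + 4 < (σ s : ℕ) ∧ ((σ s : ℕ) : ℤ) < q - 4 ∧ q + 4 < (τ s : ℕ))
    (ht : p + 4 < (τ t : ℕ) ∧ ((τ t : ℕ) : ℤ) < q - 4 ∧ q + 4 < (σ t : ℕ))
    (hr : q - 4 < (σ r : ℕ) ∧ q - 4 < (τ r : ℕ)) :
    Conn σ τ (false, p, q) (true, p, q) := by
  refine (fwd σ τ s (i' := p) (j' := q - 1) ?_ ?_).trans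
    ((bwd σ τ t (i' := p) (j' := q - 2) ?_ ?_).trans
    ((fwd σ τ s (i' := p) (j' := q - 3) ?_ ?_).trans
    ((bwd σ τ t (i' := p) (j' := q - 4) ?_ ?_).trans
    ((fwd σ τ r (i' := p) (j' := q - 4) ?_ ?_).trans
    ((bwd σ τ s (i' := p) (j' := q - 3) ?_ ?_).trans
    ((fwd σ τ t (i' := p) (j' := q - 2) ?_ ?_).trans
    ((bwd σ τ s (i' := p) (j' := q - 1) ?_ ?_).trans
    (fwd σ τ t ?_ ?_)))))))) <;>
    (refine ⟨by omega, by omega, ?_⟩; split_ifs <;> omega)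

/-- `AC`, `CA` far and a good state `(p-4, q-4)`. -/
lemma path_AC_neg (hpq : p < q) (s t r : Fin n)
    (hs : ((σ s : ℕ) : ℤ) < p - 4 ∧ q + 4 < (τ s : ℕ))
    (ht : ((τ t : ℕ) : ℤ) < p - 4 ∧ q + 4 < (σ t : ℕ))
    (hr : q - 4 < (σ r : ℕ) ∧ q - 4 < (τ r : ℕ)) :
    Conn σ τ (false, p, q) (true, p, q) := by
  refine (fwd σ τ s (i' := p - 1) (j' := q - 1) ?_ ?_).trans
    ((bwd σ τ t (i' := p - 2) (j' := q - 2) ?_ ?_).trans
    ((fwd σ τ s (i' := p - 3) (j' := q - 3) ?_ ?_).trans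
    ((bwd σ τ t (i' := p - 4) (j' := q - 4) ?_ ?_).trans
    ((fwd σ τ r (i' := p - 4) (j' := q - 4) ?_ ?_).trans
    ((bwd σ τ s (i' := p - 3) (j' := q - 3) ?_ ?_).trans
    ((fwd σ τ t (i' := p - 2) (j' := q - 2) ?_ ?_).trans
    ((bwd σ τ s (i' := p - 1) (j' := q - 1) ?_ ?_).trans
    (fwd σ τ t ?_ ?_)))))))) <;>
    (refine ⟨by omega, by omega, ?_⟩; split_ifs <;> omega)

/-- `AC`, `CA` far and a good state `(p+4, q+4)`. -/
lemma path_AC_pos (hpq : p < q) (s t r : Fin n)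
    (hs : ((σ s : ℕ) : ℤ) < p - 4 ∧ q + 4 < (τ s : ℕ))
    (ht : ((τ t : ℕ) : ℤ) < p - 4 ∧ q + 4 < (σ t : ℕ))
    (hr : ((σ r : ℕ) : ℤ) < p + 4 ∧ ((τ r : ℕ) : ℤ) < p + 4) :
    Conn σ τ (false, p, q) (true, p, q) := by
  refine (fwd σ τ t (i' := p + 1) (j' := q + 1) ?_ ?_).trans
    ((bwd σ τ s (i' := p + 2) (j' := q + 2) ?_ ?_).trans
    ((fwd σ τ t (i' := p + 3) (j' := q + 3) ?_ ?_).trans
    ((bwd σ τ s (i' := p + 4) (j' := q + 4) ?_ ?_).trans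
    ((fwd σ τ r (i' := p + 4) (j' := q + 4) ?_ ?_).trans
    ((bwd σ τ t (i' := p + 3) (j' := q + 3) ?_ ?_).trans
    ((fwd σ τ s (i' := p + 2) (j' := q + 2) ?_ ?_).trans
    ((bwd σ τ t (i' := p + 1) (j' := q + 1) ?_ ?_).trans
    (fwd σ τ s ?_ ?_)))))))) <;>
    (refine ⟨by omega, by omega, ?_⟩; split_ifs <;> omega)

/-- cyclic case `AB`, `BC`, `CA`, good state `(p-3, q)`. -/
lemma path_cyc1 (hpq : p < q) (s t u r : Fin n)
    (hs : ((σ s : ℕ) : ℤ) < p - 4 ∧ p + 4 < (τ s : ℕ) ∧ ((τ s : ℕ) : ℤ) < q - 4)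
    (ht : p + 4 < (σ t : ℕ) ∧ ((σ t : ℕ) : ℤ) < q - 4 ∧ q + 4 < (τ t : ℕ))
    (hu : ((τ u : ℕ) : ℤ) < p - 4 ∧ q + 4 < (σ u : ℕ))
    (hr : p - 3 < (σ r : ℕ) ∧ p - 3 < (τ r : ℕ) ∧ ((σ r : ℕ) : ℤ) < q ∧ ((τ r : ℕ) : ℤ) < q) :
    Conn σ τ (false, p, q) (true, p, q) := by
  refine (fwd σ τ s (i' := p - 1) (j' := q) ?_ ?_).trans
    ((bwd σ τ u (i' := p - 2) (j' := q - 1) ?_ ?_).trans
    ((fwd σ τ s (i' := p - 3) (j' := q - 1) ?_ ?_).trans
    ((bwd σ τ t (i' := p - 3) (j' := q) ?_ ?_).trans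
    ((fwd σ τ r (i' := p - 3) (j' := q) ?_ ?_).trans
    ((bwd σ τ s (i' := p - 2) (j' := q) ?_ ?_).trans
    ((fwd σ τ t (i' := p - 2) (j' := q - 1) ?_ ?_).trans
    ((bwd σ τ s (i' := p - 1) (j' := q - 1) ?_ ?_).trans
    (fwd σ τ u ?_ ?_)))))))) <;>
    (refine ⟨by omega, by omega, ?_⟩; split_ifs <;> omega)

/-- cyclic case `BA`, `CB`, `AC`, good state `(p-3, q)`. -/
lemma path_cyc2 (hpq : p < q) (s t u r : Fin n)
    (hs : ((τ s : ℕ) : ℤ) < p - 4 ∧ p + 4 < (σ s : ℕ) ∧ ((σ s : ℕ) : ℤ) < q - 4)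
    (ht : p + 4 < (τ t : ℕ) ∧ ((τ t : ℕ) : ℤ) < q - 4 ∧ q + 4 < (σ t : ℕ))
    (hu : ((σ u : ℕ) : ℤ) < p - 4 ∧ q + 4 < (τ u : ℕ))
    (hr : p - 3 < (σ r : ℕ) ∧ p - 3 < (τ r : ℕ) ∧ ((σ r : ℕ) : ℤ) < q ∧ ((τ r : ℕ) : ℤ) < q) :
    Conn σ τ (false, p, q) (true, p, q) := by
  refine (fwd σ τ u (i' := p - 1) (j' := q - 1) ?_ ?_).trans
    ((bwd σ τ s (i' := p - 2) (j' := q - 1) ?_ ?_).trans
    ((fwd σ τ t (i' := p - 2) (j' := q) ?_ ?_).trans
    ((bwd σ τ s (i' := p - 3) (j' := q) ?_ ?_).trans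
    ((fwd σ τ r (i' := p - 3) (j' := q) ?_ ?_).trans
    ((bwd σ τ t (i' := p - 3) (j' := q - 1) ?_ ?_).trans
    ((fwd σ τ s (i' := p - 2) (j' := q - 1) ?_ ?_).trans
    ((bwd σ τ u (i' := p - 1) (j' := q) ?_ ?_).trans
    (fwd σ τ s ?_ ?_)))))))) <;>
    (refine ⟨by omega, by omega, ?_⟩; split_ifs <;> omega)


lemma auxA {p q s t : ℤ} (hpq : p < q) (d : ¬ (((p < s ∧ p < t) ∨ (s < p ∧ t < p)) ∧
      ((q < s ∧ q < t) ∨ (s < q ∧ t < q)))) (hs : s < p)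
    (a : p - 4 < s → p - 4 < t → s < q → q ≤ t) (hs' : p - 4 < s) : q ≤ t := by omega

lemma auxB {p q s t : ℤ} (hpq : p < q) (d : ¬ (((p < s ∧ p < t) ∨ (s < p ∧ t < p)) ∧
      ((q < s ∧ q < t) ∨ (s < q ∧ t < q)))) (hs : p < s) (hs2 : s < q)
    (a : s < p + 4 → p + 4 ≤ t) (hs' : s < p + 4) : q ≤ t := by omega

lemma auxC {p q s t : ℤ} (hpq : p < q) (d : ¬ (((p < s ∧ p < t) ∨ (s < p ∧ t < p)) ∧
      ((q < s ∧ q < t) ∨ (s < q ∧ t < q)))) (hs : q < s)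
    (a : s < q + 4 → t < q + 4 → p < s → t ≤ p) (hs' : s < q + 4) : t ≤ p := by omega

lemma auxD {p q s t : ℤ} (hpq : p < q) (d : ¬ (((p < s ∧ p < t) ∨ (s < p ∧ t < p)) ∧
      ((q < s ∧ q < t) ∨ (s < q ∧ t < q)))) (hs : p < s) (hs2 : s < q)
    (a : q - 4 < s → t ≤ q - 4) (hs' : q - 4 < s) : t ≤ p := by omega

lemma auxE {p q s t : ℤ} (hpq : p < q) (d : ¬ (((p < s ∧ p < t) ∨ (s < p ∧ t < p)) ∧
      ((q < s ∧ q < t) ∨ (s < q ∧ t < q)))) (hs : s < p)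
    (a : p - 3 < s → p - 3 < t → s < q → q ≤ t) (hs' : p - 3 < s) : q ≤ t := by omega

lemma main_lt (hn : 200 ≤ n) (h0 : 0 ≤ p) (hpq : p < q) (hq : q < n) :
    Conn σ τ (false, p, q) (true, p, q) := by
  by_cases H : ∀ z : Fin n, ¬ (((p < (σ z : ℕ) ∧ p < (τ z : ℕ)) ∨ (((σ z : ℕ) : ℤ) < p ∧ ((τ z : ℕ) : ℤ) < p)) ∧
      ((q < (σ z : ℕ) ∧ q < (τ z : ℕ)) ∨ (((σ z : ℕ) : ℤ) < q ∧ ((τ z : ℕ) : ℤ) < q)))
  swap
  · push Not at H
    obtain ⟨z, hz1, hz2⟩ := H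
    refine fwd σ τ z ?_ ?_ <;>
    (refine ⟨by omega, by omega, ?_⟩; split_ifs <;> omega)
  have hfar := far_exists σ τ p q hn hpq H
  simp only at hfar
  -- inequality of the other coordinates
  have injτ : ∀ {z w : Fin n}, ((τ z : ℕ) : ℤ) = (τ w : ℕ) → z = w := fun h => inj_σ τ h
  have injσ : ∀ {z w : Fin n}, ((σ z : ℕ) : ℤ) = (σ w : ℕ) → z = w := fun h => inj_σ σ h
  have neτ : ∀ {z w : Fin n}, ((σ z : ℕ) : ℤ) ≠ (σ w : ℕ) → ((τ z : ℕ) : ℤ) ≠ (τ w : ℕ) := by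
    intro z w h h'
    exact h (by rw [injτ h'])
  have neσ : ∀ {z w : Fin n}, ((τ z : ℕ) : ℤ) ≠ (τ w : ℕ) → ((σ z : ℕ) : ℤ) ≠ (σ w : ℕ) := by
    intro z w h h'
    exact h (by rw [injσ h'])
  rcases hfar with ⟨hA, hB⟩ | ⟨hA, hB⟩ | ⟨hA, hB⟩ | ⟨hA, hB, hC⟩ | ⟨hA, hB, hC⟩
  · -- AB and BA
    obtain ⟨s, hs1, hs2⟩ := x_pos σ τ p q hA
    obtain ⟨t, ht1, ht2⟩ := x_pos σ τ p q hB
    have := cls0 hs1; have := cls1 hs2; have := cls1 ht1; have := cls0 ht2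
    by_cases hr : ∃ r : Fin n, p - 4 < (σ r : ℕ) ∧ p - 4 < (τ r : ℕ) ∧ ((σ r : ℕ) : ℤ) < q ∧
        ((τ r : ℕ) : ℤ) < q
    · obtain ⟨r, hr⟩ := hr
      exact path_AB_neg σ τ p q hpq s t r (by omega) (by omega) hr
    by_cases hr' : ∃ r : Fin n, ((σ r : ℕ) : ℤ) < p + 4 ∧ ((τ r : ℕ) : ℤ) < p + 4
    · obtain ⟨r, hr'⟩ := hr'
      exact path_AB_pos σ τ p q hpq s t r (by omega) (by omega) hr'
    push Not at hr hr'
    obtain ⟨z1, hz1⟩ := exists_σ σ (p - 1) (by omega) (by omega)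
    obtain ⟨z2, hz2⟩ := exists_σ σ (p - 2) (by omega) (by omega)
    obtain ⟨w1, hw1⟩ := exists_σ σ (p + 1) (by omega) (by omega)
    obtain ⟨w2, hw2⟩ := exists_σ σ (p + 2) (by omega) (by omega)
    have a1 := auxA hpq (H z1) (by omega) (hr z1) (by omega)
    have a2 := auxA hpq (H z2) (by omega) (hr z2) (by omega)
    have c1 := auxB hpq (H w1) (by omega) (by omega) (hr' w1) (by omega)
    have c2 := auxB hpq (H w2) (by omega) (by omega) (hr' w2) (by omega)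
    have n1 := neτ (z := z1) (w := z2) (by omega)
    have n2 := neτ (z := w1) (w := w2) (by omega)
    have ht' : ∃ t : Fin n, ((σ t : ℕ) : ℤ) < p ∧ q < (τ t : ℕ) := by
      by_cases h : q < (τ z1 : ℕ)
      · exact ⟨z1, by omega, h⟩
      · exact ⟨z2, by omega, by omega⟩
    have hu' : ∃ u : Fin n, p < (σ u : ℕ) ∧ ((σ u : ℕ) : ℤ) ≤ q ∧ q < (τ u : ℕ) := by
      by_cases h : q < (τ w1 : ℕ)
      · exact ⟨w1, by omega, by omega, h⟩
      · exact ⟨w2, by omega, by omega, by omega⟩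
    obtain ⟨t', ht'⟩ := ht'
    obtain ⟨u', hu'⟩ := hu'
    exact word_ABC σ τ p q hpq s t' u' (by omega) ht' hu'
  · -- BC and CB
    obtain ⟨s, hs1, hs2⟩ := x_pos σ τ p q hA
    obtain ⟨t, ht1, ht2⟩ := x_pos σ τ p q hB
    have := cls1 hs1; have := cls2 hs2; have := cls2 ht1; have := cls1 ht2
    by_cases hr : ∃ r : Fin n, ((σ r : ℕ) : ℤ) < q + 4 ∧ ((τ r : ℕ) : ℤ) < q + 4 ∧ p < (σ r : ℕ) ∧
        p < (τ r : ℕ)
    · obtain ⟨r, hr⟩ := hr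
      exact path_BC_pos σ τ p q hpq s t r (by omega) (by omega) hr
    by_cases hr' : ∃ r : Fin n, q - 4 < (σ r : ℕ) ∧ q - 4 < (τ r : ℕ)
    · obtain ⟨r, hr'⟩ := hr'
      exact path_BC_neg σ τ p q hpq s t r (by omega) (by omega) hr'
    push Not at hr hr'
    obtain ⟨z1, hz1⟩ := exists_σ σ (q + 1) (by omega) (by omega)
    obtain ⟨w1, hw1⟩ := exists_σ σ (q - 1) (by omega) (by omega)
    have a1 := auxC hpq (H z1) (by omega) (hr z1) (by omega)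
    have c1 := auxD hpq (H w1) (by omega) (by omega) (hr' w1) (by omega)
    exact word_BCA σ τ p q hpq s w1 z1 (by omega) (by omega) (by omega)
  · -- AC and CA
    obtain ⟨s, hs1, hs2⟩ := x_pos σ τ p q hA
    obtain ⟨t, ht1, ht2⟩ := x_pos σ τ p q hB
    have := cls0 hs1; have := cls2 hs2; have := cls2 ht1; have := cls0 ht2
    by_cases hr : ∃ r : Fin n, q - 4 < (σ r : ℕ) ∧ q - 4 < (τ r : ℕ)
    · obtain ⟨r, hr⟩ := hr
      exact path_AC_neg σ τ p q hpq s t r (by omega) (by omega) hr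
    by_cases hr' : ∃ r : Fin n, ((σ r : ℕ) : ℤ) < p + 4 ∧ ((τ r : ℕ) : ℤ) < p + 4
    · obtain ⟨r, hr'⟩ := hr'
      exact path_AC_pos σ τ p q hpq s t r (by omega) (by omega) hr'
    push Not at hr hr'
    have hgap : p + 3 ≤ q := by
      by_contra hcon
      obtain ⟨z1, hz1⟩ := exists_σ σ (p - 1) (by omega) (by omega)
      have a1 := hr z1 (by omega)
      have d1 := H z1
      clear H hr hr'
      omega
    obtain ⟨z1, hz1⟩ := exists_σ σ (p + 1) (by omega) (by omega)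
    obtain ⟨z2, hz2⟩ := exists_σ σ (p + 2) (by omega) (by omega)
    obtain ⟨w1, hw1⟩ := exists_σ τ (q - 1) (by omega) (by omega)
    obtain ⟨w2, hw2⟩ := exists_σ τ (q - 2) (by omega) (by omega)
    have a1 := auxB hpq (H z1) (by omega) (by omega) (hr' z1) (by omega)
    have a2 := auxB hpq (H z2) (by omega) (by omega) (hr' z2) (by omega)
    have symH : ∀ z : Fin n, ¬ (((p < (τ z : ℕ) ∧ p < (σ z : ℕ)) ∨ (((τ z : ℕ) : ℤ) < p ∧ ((σ z : ℕ) : ℤ) < p)) ∧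
      ((q < (τ z : ℕ) ∧ q < (σ z : ℕ)) ∨ (((τ z : ℕ) : ℤ) < q ∧ ((σ z : ℕ) : ℤ) < q))) := by
      intro z; have := H z; tauto
    have c1 := auxD hpq (symH w1) (by omega) (by omega) (fun h => by
      by_contra hc; have := hr w1 (by omega); omega) (by omega)
    have c2 := auxD hpq (symH w2) (by omega) (by omega) (fun h => by
      by_contra hc; have := hr w2 (by omega); omega) (by omega)
    have n1 := neτ (z := z1) (w := z2) (by omega)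
    have n2 := neσ (z := w1) (w := w2) (by omega)
    have hs' : ∃ s : Fin n, ((σ s : ℕ) : ℤ) < p ∧ p ≤ (τ s : ℕ) ∧ ((τ s : ℕ) : ℤ) < q := by
      by_cases h : ((σ w1 : ℕ) : ℤ) < p
      · exact ⟨w1, h, by omega, by omega⟩
      · exact ⟨w2, by omega, by omega, by omega⟩
    have hu' : ∃ u : Fin n, p < (σ u : ℕ) ∧ ((σ u : ℕ) : ℤ) ≤ q ∧ q < (τ u : ℕ) := by
      by_cases h : q < (τ z1 : ℕ)
      · exact ⟨z1, by omega, by omega, h⟩
      · exact ⟨z2, by omega, by omega, by omega⟩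
    obtain ⟨s', hs'⟩ := hs'
    obtain ⟨u', hu'⟩ := hu'
    exact word_ABC σ τ p q hpq s' s u' hs' (by omega) hu'
  · -- AB, BC, CA
    obtain ⟨s, hs1, hs2⟩ := x_pos σ τ p q hA
    obtain ⟨t, ht1, ht2⟩ := x_pos σ τ p q hB
    obtain ⟨u, hu1, hu2⟩ := x_pos σ τ p q hC
    have := cls0 hs1; have := cls1 hs2; have := cls1 ht1; have := cls2 ht2
    have := cls2 hu1; have := cls0 hu2
    by_cases hr : ∃ r : Fin n, p - 3 < (σ r : ℕ) ∧ p - 3 < (τ r : ℕ) ∧ ((σ r : ℕ) : ℤ) < q ∧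
        ((τ r : ℕ) : ℤ) < q
    · obtain ⟨r, hr⟩ := hr
      exact path_cyc1 σ τ p q hpq s t u r (by omega) (by omega) (by omega) hr
    push Not at hr
    obtain ⟨z1, hz1⟩ := exists_σ σ (p - 1) (by omega) (by omega)
    obtain ⟨z2, hz2⟩ := exists_σ σ (p - 2) (by omega) (by omega)
    have a1 := auxE hpq (H z1) (by omega) (hr z1) (by omega)
    have a2 := auxE hpq (H z2) (by omega) (hr z2) (by omega)
    have n1 := neτ (z := z1) (w := z2) (by omega)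
    have ht' : ∃ t : Fin n, ((σ t : ℕ) : ℤ) < p ∧ q < (τ t : ℕ) := by
      by_cases h : q < (τ z1 : ℕ)
      · exact ⟨z1, by omega, h⟩
      · exact ⟨z2, by omega, by omega⟩
    obtain ⟨t', ht'⟩ := ht'
    exact word_ABC σ τ p q hpq s t' t (by omega) ht' (by omega)
  · -- BA, CB, AC
    obtain ⟨s, hs1, hs2⟩ := x_pos σ τ p q hA
    obtain ⟨t, ht1, ht2⟩ := x_pos σ τ p q hB
    obtain ⟨u, hu1, hu2⟩ := x_pos σ τ p q hC
    have := cls1 hs1; have := cls0 hs2; have := cls2 ht1; have := cls1 ht2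
    have := cls0 hu1; have := cls2 hu2
    by_cases hr : ∃ r : Fin n, p - 3 < (σ r : ℕ) ∧ p - 3 < (τ r : ℕ) ∧ ((σ r : ℕ) : ℤ) < q ∧
        ((τ r : ℕ) : ℤ) < q
    · obtain ⟨r, hr⟩ := hr
      exact path_cyc2 σ τ p q hpq s t u r (by omega) (by omega) (by omega) hr
    push Not at hr
    obtain ⟨z1, hz1⟩ := exists_σ τ (p - 1) (by omega) (by omega)
    obtain ⟨z2, hz2⟩ := exists_σ τ (p - 2) (by omega) (by omega)
    have symH : ∀ z : Fin n, ¬ (((p < (τ z : ℕ) ∧ p < (σ z : ℕ)) ∨ (((τ z : ℕ) : ℤ) < p ∧ ((σ z : ℕ) : ℤ) < p)) ∧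
      ((q < (τ z : ℕ) ∧ q < (σ z : ℕ)) ∨ (((τ z : ℕ) : ℤ) < q ∧ ((σ z : ℕ) : ℤ) < q))) := by
      intro z; have := H z; tauto
    have a1 := auxE hpq (symH z1) (by omega) (fun h1 h2 h3 => by
      by_contra hc; have := hr z1 (by omega) (by omega) (by omega); omega) (by omega)
    have a2 := auxE hpq (symH z2) (by omega) (fun h1 h2 h3 => by
      by_contra hc; have := hr z2 (by omega) (by omega) (by omega); omega) (by omega)
    have n1 := neσ (z := z1) (w := z2) (by omega)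
    have ht' : ∃ t : Fin n, q < (σ t : ℕ) ∧ ((τ t : ℕ) : ℤ) < p := by
      by_cases h : q < (σ z1 : ℕ)
      · exact ⟨z1, h, by omega⟩
      · exact ⟨z2, by omega, by omega⟩
    obtain ⟨t', ht'⟩ := ht'
    exact word_BAC σ τ p q hpq s t' t (by omega) ht' (by omega)


end core

section conv
variable {n : ℕ} (σ τ : Equiv.Perm (Fin n))

lemma card_lem (z a : Fin n) :
    (Finset.univ.filter (fun e : Fin n => e ≠ z ∧ σ e < σ a)).card =
      (σ a : ℕ) - (if σ z < σ a then 1 else 0) := by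
  have h1 : (Finset.univ.filter (fun e : Fin n => σ e < σ a)).card = (σ a : ℕ) := by
    rw [← Fin.card_Iio (σ a)]
    apply Finset.card_bijective σ σ.bijective
    intro i; simp
  have h2 : Finset.univ.filter (fun e : Fin n => e ≠ z ∧ σ e < σ a) =
      (Finset.univ.filter (fun e : Fin n => σ e < σ a)).erase z := by
    ext e; simp
  rw [h2, Finset.card_erase_eq_ite, h1]
  simp only [Finset.mem_filter, Finset.mem_univ, true_and]
  split_ifs <;> simp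

variable (R : Fin n → Fin n → Fin n → Prop)
  (hR : ∀ z a b : Fin n, R z a b ↔
      (a ≠ z ∧ b ≠ z ∧
        (Finset.univ.filter (fun e : Fin n => e ≠ z ∧ σ e < σ a)).card =
        (Finset.univ.filter (fun e : Fin n => e ≠ z ∧ τ e < τ b)).card))

include hR in
lemma F_iff (z a b : Fin n) : F (σ z : ℕ) (τ z : ℕ) (σ a : ℕ) (τ b : ℕ) ↔ R z a b := by
  rw [hR, card_lem, card_lem]
  have e1 : a ≠ z ↔ ((σ a : ℕ) : ℤ) ≠ (σ z : ℕ) := by
    rw [not_iff_not]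
    constructor
    · rintro rfl; rfl
    · intro h; exact inj_σ σ h
  have e2 : b ≠ z ↔ ((τ b : ℕ) : ℤ) ≠ (τ z : ℕ) := by
    rw [not_iff_not]
    constructor
    · rintro rfl; rfl
    · intro h; exact inj_σ τ h
  rw [e1, e2]
  unfold F
  simp only [Fin.lt_def]
  generalize ((σ a : Fin n) : ℕ) = A
  generalize ((σ z : Fin n) : ℕ) = Z
  generalize ((τ b : Fin n) : ℕ) = B
  generalize ((τ z : Fin n) : ℕ) = T
  constructor
  · rintro ⟨h1, h2, h3⟩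
    refine ⟨h1, h2, ?_⟩
    split_ifs at h3 ⊢ <;> omega
  · rintro ⟨h1, h2, h3⟩
    refine ⟨h1, h2, ?_⟩
    split_ifs at h3 ⊢ <;> omega

def W (x y : Fin n) (m : ℕ) (a b : Fin n) : Prop :=
  ∃ s : Fin m → Fin n, ∃ p q : Fin (m + 1) → Fin n,
      p 0 = x ∧ q 0 = y ∧ p (Fin.last m) = a ∧ q (Fin.last m) = b ∧
      ∀ i : Fin m,
        (Even i.val →
          R (s i) (p i.castSucc) (p i.succ) ∧ R (s i) (q i.castSucc) (q i.succ)) ∧
        (Odd i.val →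
          R (s i) (p i.succ) (p i.castSucc) ∧ R (s i) (q i.succ) (q i.castSucc))

lemma W_zero (x y : Fin n) : W R x y 0 x y :=
  ⟨fun _ => x, fun _ => x, fun _ => y, rfl, rfl, rfl, rfl, fun i => i.elim0⟩

lemma W_succ (x y : Fin n) (m : ℕ) (a b a' b' z : Fin n) (h : W R x y m a b)
    (h1 : Even m → R z a a' ∧ R z b b') (h2 : Odd m → R z a' a ∧ R z b' b) :
    W R x y (m + 1) a' b' := by
  obtain ⟨s, p, q, hp0, hq0, hp, hq, hs⟩ := h
  refine ⟨Fin.snoc s z, Fin.snoc p a', Fin.snoc q b', ?_, ?_, ?_, ?_, ?_⟩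
  · have : (0 : Fin (m + 1 + 1)) = Fin.castSucc 0 := rfl
    rw [this, Fin.snoc_castSucc, hp0]
  · have : (0 : Fin (m + 1 + 1)) = Fin.castSucc 0 := rfl
    rw [this, Fin.snoc_castSucc, hq0]
  · rw [Fin.snoc_last]
  · rw [Fin.snoc_last]
  · intro i
    refine Fin.lastCases ?_ ?_ i
    · rw [Fin.succ_last, Fin.snoc_last, Fin.snoc_last, Fin.snoc_last, Fin.snoc_castSucc,
        Fin.snoc_castSucc, hp, hq]
      exact ⟨h1, h2⟩
    · intro j
      rw [Fin.succ_castSucc, Fin.snoc_castSucc, Fin.snoc_castSucc, Fin.snoc_castSucc,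
        Fin.snoc_castSucc, Fin.snoc_castSucc]
      exact hs j

lemma F_range1 {s t i j : ℤ} {n : ℕ} (h : F s t i j) (h1 : 0 ≤ i) (h2 : i < n) (h3 : 0 ≤ t)
    (h4 : t < n) (h5 : 0 ≤ s) (h6 : s < n) : 0 ≤ j ∧ j < n := by
  obtain ⟨a, b, c⟩ := h
  split_ifs at c <;> omega

lemma F_range2 {s t i j : ℤ} {n : ℕ} (h : F s t j i) (h1 : 0 ≤ i) (h2 : i < n) (h3 : 0 ≤ t)
    (h4 : t < n) (h5 : 0 ≤ s) (h6 : s < n) : 0 ≤ j ∧ j < n := by
  obtain ⟨a, b, c⟩ := h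
  split_ifs at c <;> omega

include hR in
lemma conv (x y : Fin n) (st : Bool × ℤ × ℤ)
    (h : Conn σ τ (false, ((σ x : ℕ) : ℤ), ((σ y : ℕ) : ℤ)) st) :
    ∃ m a b, W R x y m a b ∧
      ((st.1 = false ∧ Even m ∧ st.2.1 = (σ a : ℕ) ∧ st.2.2 = (σ b : ℕ)) ∨
       (st.1 = true ∧ Odd m ∧ st.2.1 = (τ a : ℕ) ∧ st.2.2 = (τ b : ℕ))) := by
  induction h with
  | refl => exact ⟨0, x, y, W_zero R x y, Or.inl ⟨rfl, by simp, rfl, rfl⟩⟩
  | @tail st1 st2 _ hadj ih =>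
    obtain ⟨m, a, b, hW, hcase⟩ := ih
    obtain ⟨z, hz⟩ := hadj
    rcases hz with ⟨g1, g2, g3, g4⟩ | ⟨g1, g2, g3, g4⟩
    · rcases hcase with ⟨_, c2, c3, c4⟩ | ⟨c1, _⟩
      · rw [c3] at g3; rw [c4] at g4
        have r1 := F_range1 (n := n) g3 (by omega) (by omega) (by omega) (by omega) (by omega) (by omega)
        have r2 := F_range1 (n := n) g4 (by omega) (by omega) (by omega) (by omega) (by omega) (by omega)
        obtain ⟨a', ha'⟩ := exists_σ τ _ r1.1 r1.2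
        obtain ⟨b', hb'⟩ := exists_σ τ _ r2.1 r2.2
        rw [← ha', F_iff σ τ R hR] at g3
        rw [← hb', F_iff σ τ R hR] at g4
        refine ⟨m + 1, a', b', W_succ R x y m a b a' b' z hW (fun _ => ⟨g3, g4⟩) ?_, Or.inr
          ⟨g2, c2.add_one, ha'.symm, hb'.symm⟩⟩
        intro hodd
        exact absurd c2 (Nat.not_even_iff_odd.2 hodd)
      · rw [c1] at g1; exact absurd g1 (by simp)
    · rcases hcase with ⟨c1, _⟩ | ⟨_, c2, c3, c4⟩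
      · rw [c1] at g1; exact absurd g1 (by simp)
      · rw [c3] at g3; rw [c4] at g4
        have r1 := F_range2 (n := n) g3 (by omega) (by omega) (by omega) (by omega) (by omega) (by omega)
        have r2 := F_range2 (n := n) g4 (by omega) (by omega) (by omega) (by omega) (by omega) (by omega)
        obtain ⟨a', ha'⟩ := exists_σ σ _ r1.1 r1.2
        obtain ⟨b', hb'⟩ := exists_σ σ _ r2.1 r2.2
        rw [← ha', F_iff σ τ R hR] at g3
        rw [← hb', F_iff σ τ R hR] at g4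
        refine ⟨m + 1, a', b', W_succ R x y m a b a' b' z hW ?_ (fun _ => ⟨g3, g4⟩), Or.inl
          ⟨g2, c2.add_one, ha'.symm, hb'.symm⟩⟩
        intro heven
        exact absurd heven (Nat.not_even_iff_odd.2 c2)

lemma conn_swap (p q p' q' : ℤ) (b b' : Bool) (h : Conn σ τ (b, p, q) (b', p', q')) :
    Conn σ τ (b, q, p) (b', q', p') := by
  have := Relation.ReflTransGen.lift (r := Adj σ τ) (p := Adj σ τ)
    (fun st : Bool × ℤ × ℤ => (st.1, st.2.2, st.2.1)) (by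
      rintro a b ⟨z, hz⟩
      refine ⟨z, ?_⟩
      rcases hz with ⟨g1, g2, g3, g4⟩ | ⟨g1, g2, g3, g4⟩
      · exact Or.inl ⟨g1, g2, g4, g3⟩
      · exact Or.inr ⟨g1, g2, g4, g3⟩)
  exact this _ _ h

end conv

/-- For all large n, any two linear orders on an n-set, and any two distinct points x,y: some alternating composite φ_{z1}, φ_{z2}⁻¹, φ_{z3}, … (odd length) of the point-deleted order isomorphisms is defined at x and y and agrees there with the full isomorphism. -/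
theorem result :
    ∃ N : ℕ, ∀ n : ℕ, N ≤ n → ∀ σ τ : Equiv.Perm (Fin n),
    ∀ R : Fin n → Fin n → Fin n → Prop,
    (∀ z a b : Fin n, R z a b ↔
      (a ≠ z ∧ b ≠ z ∧
        (Finset.univ.filter (fun e : Fin n => e ≠ z ∧ σ e < σ a)).card =
        (Finset.univ.filter (fun e : Fin n => e ≠ z ∧ τ e < τ b)).card)) →
    ∀ x y : Fin n, x ≠ y →
    ∃ k : ℕ, ∃ s : Fin (2 * k + 1) → Fin n, ∃ p q : Fin (2 * k + 1 + 1) → Fin n,
      p 0 = x ∧ q 0 = y ∧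
      p (Fin.last (2 * k + 1)) = τ.symm (σ x) ∧
      q (Fin.last (2 * k + 1)) = τ.symm (σ y) ∧
      ∀ i : Fin (2 * k + 1),
        (Even i.val →
          R (s i) (p i.castSucc) (p i.succ) ∧ R (s i) (q i.castSucc) (q i.succ)) ∧
        (Odd i.val →
          R (s i) (p i.succ) (p i.castSucc) ∧ R (s i) (q i.succ) (q i.castSucc)) := by
  refine ⟨200, ?_⟩
  intro n hn σ τ R hR x y hxy
  have hconn : Conn σ τ (false, ((σ x : ℕ) : ℤ), ((σ y : ℕ) : ℤ))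
      (true, ((σ x : ℕ) : ℤ), ((σ y : ℕ) : ℤ)) := by
    have hne : ((σ x : ℕ) : ℤ) ≠ (σ y : ℕ) := fun h => hxy (inj_σ σ h)
    rcases lt_or_gt_of_ne hne with h | h
    · exact main_lt σ τ _ _ hn (by omega) h (by omega)
    · exact conn_swap σ τ _ _ _ _ _ _ (main_lt σ τ _ _ hn (by omega) h (by omega))
  obtain ⟨m, a, b, hW, hcase⟩ := conv σ τ R hR x y _ hconn
  rcases hcase with ⟨c1, _⟩ | ⟨_, c2, c3, c4⟩
  · exact absurd c1 (by simp)
  · obtain ⟨k, rfl⟩ := c2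
    obtain ⟨s, p, q, h1, h2, h3, h4, h5⟩ := hW
    have ha : a = τ.symm (σ x) := by
      rw [Equiv.eq_symm_apply]
      apply Fin.ext
      have c3' : ((σ x : ℕ) : ℤ) = (τ a : ℕ) := c3
      exact_mod_cast c3'.symm
    have hb : b = τ.symm (σ y) := by
      rw [Equiv.eq_symm_apply]
      apply Fin.ext
      have c4' : ((σ y : ℕ) : ℤ) = (τ b : ℕ) := c4
      exact_mod_cast c4'.symm
    exact ⟨k, s, p, q, h1, h2, h3.trans ha, h4.trans hb, h5⟩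

end Pool.Agent.S05175
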