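import Pool.Statements.S05189
import Mathlib

set_option autoImplicit false
open Pool Pool.MP_238aad_co

namespace Pool.Agent.S05189

section aux
variable (U : Ultrafilter ℕ)

lemma union_notMem {A B : Set ℕ} (hA : A ∉ U) (hB : B ∉ U) : A ∪ B ∉ U := by
  rw [Ultrafilter.union_mem_iff]; tauto

lemma notMem_mono {A B : Set ℕ} (hB : B ∉ U) (h : A ⊆ B) : A ∉ U :=
  fun hA => hB (Filter.mem_of_superset hA h)

/-- Recursive choice of a pairwise disjoint sequence of small sets. -/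
lemma exists_seq (P : ℕ → Set ℕ → Prop)
    (hP : ∀ k, ∀ E : Set ℕ, E ∉ U → ∃ J : Set ℕ, J ∉ U ∧ Disjoint J E ∧ P k J) :
    ∃ J : ℕ → Set ℕ, (∀ k, P k (J k)) ∧ ∀ i j, i ≠ j → Disjoint (J i) (J j) := by
  choose c hc1 hc2 hc3 using hP
  let E : ℕ → {E : Set ℕ // E ∉ U} := fun n => Nat.rec
    (motive := fun _ => {E : Set ℕ // E ∉ U})
    ⟨∅, by simpa using Filter.empty_notMem (U : Filter ℕ)⟩
    (fun k E => ⟨E.1 ∪ c k E.1 E.2, union_notMem U E.2 (hc1 k E.1 E.2)⟩) n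
  have hE : ∀ k, (E (k + 1)).1 = (E k).1 ∪ c k (E k).1 (E k).2 := fun k => rfl
  have hmono : Monotone (fun k => (E k).1) := by
    apply monotone_nat_of_le_succ
    intro k
    rw [hE]
    exact Set.subset_union_left
  refine ⟨fun k => c k (E k).1 (E k).2, fun k => hc3 _ _ _, ?_⟩
  have key : ∀ i j, i < j → Disjoint (c i (E i).1 (E i).2) (c j (E j).1 (E j).2) := by
    intro i j hij
    have h1 : c i (E i).1 (E i).2 ⊆ (E (i + 1)).1 := by
      rw [hE]; exact Set.subset_union_right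
    have h2 : (E (i + 1)).1 ⊆ (E j).1 := hmono hij
    exact (Disjoint.mono_right (h1.trans h2) (hc2 j (E j).1 (E j).2)).symm
  intro i j hij
  rcases lt_or_gt_of_ne hij with h | h
  · exact key i j h
  · exact (key j i h).symm

lemma even_odd (J : ℕ → Set ℕ) (hd : ∀ i j, i ≠ j → Disjoint (J i) (J j)) :
    (⋃ k, J (2 * k)) ∉ U ∨ (⋃ k, J (2 * k + 1)) ∉ U := by
  by_contra h
  push Not at h
  have : (⋃ k, J (2 * k)) ∩ (⋃ k, J (2 * k + 1)) ∈ U := Filter.inter_mem h.1 h.2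
  have he : (⋃ k, J (2 * k)) ∩ (⋃ k, J (2 * k + 1)) = ∅ := by
    rw [← Set.disjoint_iff_inter_eq_empty, Set.disjoint_iUnion_left]
    intro i
    rw [Set.disjoint_iUnion_right]
    intro j
    apply hd
    omega
  rw [he] at this
  exact Filter.empty_notMem (U : Filter ℕ) this

variable (ψ : Set ℕ → Set ℕ)
  (hmono : ∀ J J' : Set ℕ, J ⊆ J' → J' ∉ U → ψ J ⊆ ψ J')
  (hexp : ∀ J : Set ℕ, J ∉ U → J ⊆ ψ J)
  (hsmall : ∀ J : Set ℕ, J ∉ U → ψ J ∉ U)

include hmono hsmall in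
lemma open_small (S₀ : Set ℕ) (hS₀ : S₀ ∉ U) :
    {y | ∀ S : Set ℕ, S ∉ U → ∃ J : Set ℕ, J ∉ U ∧ Disjoint J S ∧ y ∈ ψ (S₀ ∪ J)} ∉ U := by
  intro hT
  set T := {y | ∀ S : Set ℕ, S ∉ U → ∃ J : Set ℕ, J ∉ U ∧ Disjoint J S ∧ y ∈ ψ (S₀ ∪ J)} with hTdef
  have hemp : (∅ : Set ℕ) ∉ U := Filter.empty_notMem (U : Filter ℕ)
  obtain ⟨J, hJ, hd⟩ := exists_seq U (fun k J => k / 2 ∈ T → k / 2 ∈ ψ (S₀ ∪ J)) (by
    intro k E hE
    by_cases hk : k / 2 ∈ T
    · obtain ⟨J, h1, h2, h3⟩ := hk E hE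
      exact ⟨J, h1, h2, fun _ => h3⟩
    · exact ⟨∅, hemp, by simp, fun h => absurd h hk⟩)
  have fin : ∀ W : Set ℕ, W ∉ U → (∀ y ∈ T, y ∈ ψ (S₀ ∪ W)) → False := by
    intro W hW h
    exact hsmall _ (union_notMem U hS₀ hW) (Filter.mem_of_superset hT h)
  rcases even_odd U J hd with h | h
  · refine fin _ h ?_
    intro y hy
    have h1 := hJ (2 * y) (by simpa using hy)
    have e : 2 * y / 2 = y := by omega
    rw [e] at h1
    exact hmono _ _ (Set.union_subset_union_right _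
      (Set.subset_iUnion (fun k => J (2 * k)) y)) (union_notMem U hS₀ h) h1
  · refine fin _ h ?_
    intro y hy
    have e : (2 * y + 1) / 2 = y := by omega
    have h1 := hJ (2 * y + 1) (by rw [e]; exact hy)
    rw [e] at h1
    exact hmono _ _ (Set.union_subset_union_right _
      (Set.subset_iUnion (fun k => J (2 * k + 1)) y)) (union_notMem U hS₀ h) h1

include hmono hexp hsmall in
lemma exists_good (hU : ∀ y : ℕ, ({y} : Set ℕ) ∉ U) : ∃ (S : ℕ → Set ℕ) (y : ℕ → ℕ), (⋃ k, S k) ∉ U ∧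
    (∀ k, y k ∈ S k) ∧ (∀ i j, i ≠ j → Disjoint (S i) (S j)) ∧
    ∀ k, ∀ J : Set ℕ, J ∉ U → Disjoint J (S k) → y k ∉ ψ J := by
  obtain ⟨S, hS, hd⟩ := exists_seq U
    (fun _ S => ∃ y ∈ S, ∀ J : Set ℕ, J ∉ U → Disjoint J S → y ∉ ψ J) (by
    intro _ E hE
    have h1 := open_small U ψ hmono hsmall E hE
    have h2 : {y | ∀ S : Set ℕ, S ∉ U → ∃ J : Set ℕ, J ∉ U ∧ Disjoint J S ∧ y ∈ ψ (E ∪ J)} ≠
        Set.univ := by
      intro h; rw [h] at h1; exact h1 Filter.univ_mem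
    obtain ⟨y, hy⟩ := (Set.ne_univ_iff_exists_notMem _).1 h2
    simp only [Set.mem_ofPred_eq] at hy
    push Not at hy
    obtain ⟨S, hSU, hS⟩ := hy
    have hnot : ∀ J : Set ℕ, J ∉ U → Disjoint J (S \ E) → y ∉ ψ J := by
      intro J hJ hJS hyJ
      have hJ' : J \ E ∉ U := notMem_mono U hJ Set.sdiff_subset
      have hdis : Disjoint (J \ E) S := by
        rw [Set.disjoint_left] at hJS ⊢
        intro a ha haS
        exact hJS ha.1 ⟨haS, ha.2⟩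
      have h3 := hS (J \ E) hJ' hdis
      apply h3
      refine hmono _ _ ?_ (union_notMem U hE hJ') hyJ
      intro a ha
      by_cases hE' : a ∈ E
      · exact Or.inl hE'
      · exact Or.inr ⟨ha, hE'⟩
    refine ⟨S \ E, notMem_mono U hSU Set.sdiff_subset, Set.disjoint_sdiff_left, y, ?_, hnot⟩
    by_contra hyS
    exact hnot {y} (hU y) (by simpa using hyS) (hexp _ (hU y) rfl))
  choose y hy hy2 using hS
  rcases even_odd U S hd with h | h
  · exact ⟨fun k => S (2 * k), fun k => y (2 * k), h, fun k => hy _,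
      fun i j hij => hd _ _ (by omega), fun k => hy2 _⟩
  · exact ⟨fun k => S (2 * k + 1), fun k => y (2 * k + 1), h, fun k => hy _,
      fun i j hij => hd _ _ (by omega), fun k => hy2 _⟩

end aux

/-- For every nonprincipal ultrafilter U on ℕ (ordered by inclusion) and monotone f:U→U whose images of coatoms have no common lower bound in f(U), U is a retract of f(U) via monotone maps g, h with g∘h = id. -/
theorem result :
    ∀ U : Ultrafilter ℕ, (∀ n : ℕ, U ≠ pure n) →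
      ∀ f : {s : Set ℕ // s ∈ U} → {s : Set ℕ // s ∈ U}, Monotone f →
        (¬ ∃ y : {s : Set ℕ // s ∈ U}, y ∈ Set.range f ∧
            ∀ c : {s : Set ℕ // s ∈ U},
              (c.1 ≠ Set.univ ∧ ∀ t : {s : Set ℕ // s ∈ U}, c.1 ⊆ t.1 → t.1 = c.1 ∨ t.1 = Set.univ) →
              y ≤ f c) →
        ∃ g : ↥(Set.range f) → {s : Set ℕ // s ∈ U},
          ∃ h : {s : Set ℕ // s ∈ U} → ↥(Set.range f),
            Monotone g ∧ Monotone h ∧ ∀ x, g (h x) = x := by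
  intro U hUn f hf hlb
  have hsing : ∀ n : ℕ, ({n} : Set ℕ) ∉ U := by
    intro n hn
    obtain ⟨x, _, hx⟩ := Ultrafilter.eq_pure_of_finite_mem (Set.finite_singleton n) hn
    exact hUn x hx
  have hcompl : ∀ J : Set ℕ, J ∉ U → Jᶜ ∈ U := fun J h => Ultrafilter.compl_mem_iff_notMem.2 h
  let co : ℕ → {s : Set ℕ // s ∈ U} := fun n => ⟨{n}ᶜ, hcompl _ (hsing n)⟩
  let X : ℕ → {s : Set ℕ // s ∈ U} := fun n => f (co n)
  -- no member of the range lies below all `X n`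
  have hX : ∀ B : {s : Set ℕ // s ∈ U}, ¬ ∀ n, f B ≤ X n := by
    intro B hB
    apply hlb
    refine ⟨f B, ⟨B, rfl⟩, ?_⟩
    rintro c ⟨hc1, hc2⟩
    obtain ⟨n, hn⟩ := (Set.ne_univ_iff_exists_notMem _).1 hc1
    have h1 : c.1 ⊆ (co n).1 := by
      intro a ha han
      rw [Set.mem_singleton_iff] at han
      exact hn (han ▸ ha)
    have h2 : (co n).1 = c.1 := by
      rcases hc2 (co n) h1 with h | h
      · exact h
      · exfalso
        have : n ∈ (co n).1 := by rw [h]; trivial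
        exact this rfl
    have h3 : co n = c := Subtype.ext h2
    rw [← h3]; exact hB n
  let ψ : Set ℕ → Set ℕ := fun J => {n | ∃ h : Jᶜ ∈ U, f ⟨Jᶜ, h⟩ ≤ X n}
  have hψ : ∀ (J : Set ℕ) (h : Jᶜ ∈ U) (n : ℕ), n ∈ ψ J ↔ f ⟨Jᶜ, h⟩ ≤ X n := by
    intro J h n
    exact ⟨fun ⟨_, h'⟩ => h', fun h' => ⟨h, h'⟩⟩
  have hmono : ∀ J J' : Set ℕ, J ⊆ J' → J' ∉ U → ψ J ⊆ ψ J' := by
    rintro J J' hJ hJ' n ⟨h, hn⟩
    refine ⟨hcompl _ hJ', le_trans (hf ?_) hn⟩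
    exact Set.compl_subset_compl.2 hJ
  have hexp : ∀ J : Set ℕ, J ∉ U → J ⊆ ψ J := by
    intro J hJ n hn
    refine ⟨hcompl _ hJ, hf ?_⟩
    show Jᶜ ⊆ {n}ᶜ
    rw [Set.compl_subset_compl]
    simpa using hn
  have hsmall : ∀ J : Set ℕ, J ∉ U → ψ J ∉ U := by
    intro J hJ hψU
    have hJc := hcompl _ hJ
    have hB : Jᶜ ∩ ψ J ∈ U := Filter.inter_mem hJc hψU
    apply hX ⟨_, hB⟩
    intro n
    by_cases hn : n ∈ ψ J
    · refine le_trans (hf ?_) ((hψ J hJc n).1 hn)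
      exact Set.inter_subset_left
    · apply hf
      show Jᶜ ∩ ψ J ⊆ {n}ᶜ
      intro a ha han
      rw [Set.mem_singleton_iff] at han
      exact hn (han ▸ ha.2)
  obtain ⟨S, y, hSU, hyS, hdis, hgood⟩ := exists_good U ψ hmono hexp hsmall hsing
  set SS := ⋃ k, S k with hSS
  -- the coding map
  let Y : Set ℕ → Set ℕ := fun J => {m | m ∈ J ∧ m ∉ SS} ∪ y '' J
  have hYsmall : ∀ J : Set ℕ, J ∉ U → Y J ∉ U := by
    intro J hJ
    refine notMem_mono U (union_notMem U hJ hSU) ?_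
    rintro m (⟨hm, _⟩ | ⟨k, _, rfl⟩)
    · exact Or.inl hm
    · exact Or.inr (Set.mem_iUnion.2 ⟨k, hyS k⟩)
  have hYmono : ∀ J J' : Set ℕ, J ⊆ J' → Y J ⊆ Y J' := by
    intro J J' hJ
    rintro m (⟨hm, hm'⟩ | ⟨k, hk, rfl⟩)
    · exact Or.inl ⟨hJ hm, hm'⟩
    · exact Or.inr ⟨k, hJ hk, rfl⟩
  have hAc : ∀ A : Set ℕ, A ∈ U → Aᶜ ∉ U := by
    intro A hA h
    exact (Ultrafilter.compl_mem_iff_notMem.1 h) hA
  let h : {s : Set ℕ // s ∈ U} → ↥(Set.range f) := fun A =>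
    ⟨f ⟨(Y A.1ᶜ)ᶜ, hcompl _ (hYsmall _ (hAc _ A.2))⟩, ⟨_, rfl⟩⟩
  let gs : ↥(Set.range f) → Set ℕ := fun L => {n | ¬ (L.1 ≤ X (y n) ∧ (n ∉ SS → L.1 ≤ X n))}
  have hgs : ∀ L, gs L ∈ U := by
    rintro ⟨L, ⟨B, rfl⟩⟩
    have hBc : (B.1ᶜ)ᶜ ∈ U := by rw [compl_compl]; exact B.2
    have h1 := union_notMem U hSU (hsmall _ (hAc _ B.2))
    by_contra h2
    have h3 := hcompl _ h2
    apply h1
    refine Filter.mem_of_superset h3 ?_
    intro n hn
    have hn' : f B ≤ X (y n) ∧ (n ∉ SS → f B ≤ X n) := by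
      by_contra hcon
      exact hn hcon
    by_cases hnS : n ∈ SS
    · exact Or.inl hnS
    · right
      rw [hψ _ hBc]
      have e : (⟨(B.1ᶜ)ᶜ, hBc⟩ : {s : Set ℕ // s ∈ U}) = B := Subtype.ext (compl_compl _)
      rw [e]
      exact hn'.2 hnS
  refine ⟨fun L => ⟨gs L, hgs L⟩, h, ?_, ?_, ?_⟩
  · intro L L' hL
    show gs L ⊆ gs L'
    intro n hn hcon
    exact hn ⟨le_trans hL hcon.1, fun hnS => le_trans hL (hcon.2 hnS)⟩
  · intro A A' hA
    show f _ ≤ f _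
    apply hf
    show (Y A.1ᶜ)ᶜ ⊆ (Y A'.1ᶜ)ᶜ
    rw [Set.compl_subset_compl]
    apply hYmono
    rw [Set.compl_subset_compl]
    exact hA
  · intro A
    apply Subtype.ext
    show gs (h A) = A.1
    have hY1 := hYsmall _ (hAc _ A.2)
    have hY2 := hcompl _ hY1
    ext n
    constructor
    · intro hn
      by_contra hnA
      apply hn
      have hnA' : n ∈ A.1ᶜ := hnA
      constructor
      · exact (hψ _ hY2 _).1 (hexp _ hY1 (Or.inr ⟨n, hnA', rfl⟩))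
      · intro hnS
        exact (hψ _ hY2 _).1 (hexp _ hY1 (Or.inl ⟨hnA', hnS⟩))
    · rintro hnA ⟨h1, _⟩
      have h2 : y n ∈ ψ (Y A.1ᶜ) := (hψ _ hY2 _).2 h1
      refine hgood n _ hY1 ?_ h2
      rw [Set.disjoint_left]
      rintro m (⟨_, hm⟩ | ⟨k, hk, rfl⟩) hmS
      · exact hm (Set.mem_iUnion.2 ⟨n, hmS⟩)
      · have hkn : k ≠ n := by rintro rfl; exact hk hnA
        exact Set.disjoint_left.1 (hdis k n hkn) (hyS k) hmS

end Pool.Agent.S05189
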