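import Pool.Statements.S05573
import Mathlib

set_option autoImplicit false
open Filter Topology
open Pool Pool.MP_3c9ffc_co

namespace Pool.Agent.S05573

open SimpleGraph

section walks
variable {V : Type} {G : SimpleGraph V}

theorem path_edge {a b : V} (r : G.Walk a b) (hr : r.IsPath) (he : s(b, a) ∈ r.edges) :
    r.length = 1 := by
  cases r with
  | nil => simp at he
  | cons h p =>
    rename_i x
    rw [Walk.cons_isPath_iff] at hr
    rw [Walk.edges_cons, List.mem_cons] at he
    rcases he with he | he
    · have hx : x = b := by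
        rw [Sym2.eq_iff] at he
        rcases he with ⟨h1, h2⟩ | ⟨h1, h2⟩
        · exact absurd h2 (by
            intro h3
            subst h1
            exact G.ne_of_adj h (by rw [h3]))
        · exact h1.symm
      subst hx
      have := Walk.isPath_iff_eq_nil.1 hr.1
      rw [this]; simp
    · exact absurd (Walk.snd_mem_support_of_mem_edges p he) hr.2

theorem bypass_parity [DecidableEq V] {a b : V} (p : G.Walk a b)
    (hodd : Odd (p.length + p.bypass.length)) :
    ∃ (v : V) (c : G.Walk v v), c.IsCycle ∧ Odd c.length ∧ c.length ≤ p.length := by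
  induction p with
  | nil => simp [Walk.bypass] at hodd
  | cons h p ih =>
    rename_i a a' b
    by_cases h1 : Odd (p.length + p.bypass.length)
    · obtain ⟨v, c, hc1, hc2, hc3⟩ := ih h1
      exact ⟨v, c, hc1, hc2, by rw [Walk.length_cons]; omega⟩
    · by_cases hs : a ∈ p.bypass.support
      · have hby : (Walk.cons h p).bypass = p.bypass.dropUntil a hs := by
          simp [Walk.bypass, hs]
        rw [hby, Walk.length_cons] at hodd
        have hspec := p.bypass.take_spec hs
        have hlen : (p.bypass.takeUntil a hs).length + (p.bypass.dropUntil a hs).length =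
            p.bypass.length := by
          rw [← Walk.length_append, hspec]
        have hle := p.length_bypass_le_length
        have hpath : (p.bypass.takeUntil a hs).IsPath := (p.bypass_isPath).takeUntil hs
        have hcl : Odd ((p.bypass.takeUntil a hs).length + 1) := by
          rw [Nat.odd_iff] at *
          omega
        refine ⟨a, Walk.cons h (p.bypass.takeUntil a hs), ?_, ?_, ?_⟩
        · rw [Walk.cons_isCycle_iff]
          refine ⟨hpath, fun he => ?_⟩
          have := path_edge _ hpath he
          rw [this] at hcl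
          revert hcl; decide
        · rw [Walk.length_cons]; exact hcl
        · rw [Walk.length_cons, Walk.length_cons]; omega
      · have hby : (Walk.cons h p).bypass = Walk.cons h p.bypass := by
          simp [Walk.bypass, hs]
        exfalso
        rw [hby, Walk.length_cons, Walk.length_cons] at hodd
        apply h1
        rw [Nat.odd_iff] at *
        omega

theorem odd_cycle_of_closed {u : V} (w : G.Walk u u) (hw : Odd w.length) :
    ∃ (v : V) (c : G.Walk v v), c.IsCycle ∧ Odd c.length ∧ c.length ≤ w.length := by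
  classical
  apply bypass_parity
  have : w.bypass = Walk.nil := Walk.isPath_iff_eq_nil.1 w.bypass_isPath
  rw [this]
  simpa using hw

/-- there is a walk inside `W` of length `n` from `v` -/
def D (G : SimpleGraph V) (W : Finset V) (v : V) : ℕ → V → Prop
  | 0, x => x = v
  | n + 1, y => y ∈ W ∧ ∃ x, D G W v n x ∧ G.Adj x y

theorem D_walk (W : Finset V) (v : V) (n : ℕ) (x : V) (h : D G W v n x) :
    ∃ w : G.Walk v x, w.length = n := by
  induction n generalizing x with
  | zero => cases h; exact ⟨Walk.nil, rfl⟩
  | succ n ih =>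
    obtain ⟨_, y, hy, hadj⟩ := h
    obtain ⟨w, hw⟩ := ih y hy
    exact ⟨w.concat hadj, by simp [hw]⟩

end walks

section main
variable {V : Type} [DecidableEq V] {G : SimpleGraph V}

open Classical in
/-- layers -/
noncomputable def L (G : SimpleGraph V) (W : Finset V) (v : V) (n : ℕ) : Finset V :=
  W.filter (fun x => D G W v n x ∧ ∀ m < n, ¬ D G W v m x)

theorem mem_L {W : Finset V} {v : V} {n : ℕ} {x : V} :
    x ∈ L G W v n ↔ x ∈ W ∧ D G W v n x ∧ ∀ m < n, ¬ D G W v m x := by
  classical
  unfold L
  exact Finset.mem_filter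

theorem L_disj {W : Finset V} {v : V} {i j : ℕ} (hij : i ≠ j) :
    Disjoint (L G W v i) (L G W v j) := by
  rw [Finset.disjoint_left]
  intro x hx hy
  rw [mem_L] at hx hy
  rcases lt_or_gt_of_ne hij with h | h
  · exact hy.2.2 i h hx.2.1
  · exact hx.2.2 j h hy.2.1

theorem D_min {W : Finset V} {v : V} {n : ℕ} {x : V} (hx : x ∈ W) (h : D G W v n x) :
    ∃ m ≤ n, x ∈ L G W v m := by
  classical
  have hex : ∃ m, D G W v m x := ⟨n, h⟩
  refine ⟨Nat.find hex, Nat.find_min' hex h, ?_⟩
  rw [mem_L]
  exact ⟨hx, Nat.find_spec hex, fun m hm => Nat.find_min hex hm⟩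

theorem L_adj {W : Finset V} {v : V} {i j : ℕ} {x y : V} (hx : x ∈ L G W v i)
    (hy : y ∈ L G W v j) (hadj : G.Adj x y) : j ≤ i + 1 := by
  rw [mem_L] at hx hy
  by_contra hcon
  push Not at hcon
  exact hy.2.2 (i + 1) hcon ⟨hy.1, x, hx.2.1, hadj⟩

theorem L_pred {W : Finset V} {v : V} {i : ℕ} (hv : v ∈ W) (h : (L G W v (i + 1)).Nonempty) :
    (L G W v i).Nonempty := by
  obtain ⟨y, hy⟩ := h
  rw [mem_L] at hy
  obtain ⟨hyW, ⟨_, x, hx, hadj⟩, hmin⟩ := hy
  refine ⟨x, ?_⟩
  rw [mem_L]
  refine ⟨?_, hx, fun m hm hD => hmin (m + 1) (by omega) ⟨hyW, x, hD, hadj⟩⟩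
  cases i with
  | zero => cases hx; exact hv
  | succ i => exact hx.1

theorem L_nonempty {W : Finset V} {v : V} {i : ℕ} (hv : v ∈ W) (h : (L G W v i).Nonempty) :
    ∀ j ≤ i, (L G W v j).Nonempty := by
  induction i with
  | zero => intro j hj; rw [Nat.le_zero.1 hj]; exact h
  | succ i ih =>
    intro j hj
    rcases Nat.lt_or_ge i j with h1 | h1
    · have : j = i + 1 := by omega
      rw [this]; exact h
    · exact ih (L_pred hv h) j h1

theorem same_layer {W : Finset V} {v : V} {i h : ℕ}
    (hodd : ∀ (u : V) (w : G.Walk u u), Odd w.length → 4 * h ≤ w.length) (hi : i < 2 * h) {x y : V}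
    (hx : x ∈ L G W v i) (hy : y ∈ L G W v i) : ¬ G.Adj x y := by
  intro hadj
  obtain ⟨w1, hw1⟩ := D_walk W v i x (mem_L.1 hx).2.1
  obtain ⟨w2, hw2⟩ := D_walk W v i y (mem_L.1 hy).2.1
  have := hodd v ((w1.concat hadj).append w2.reverse) (by
    rw [Walk.length_append, Walk.length_concat, Walk.length_reverse, hw1, hw2]
    exact ⟨i, by ring⟩)
  rw [Walk.length_append, Walk.length_concat, Walk.length_reverse, hw1, hw2] at this
  omega

theorem main_lemma (h : ℕ) (hh : 0 < h)
    (hodd : ∀ (u : V) (w : G.Walk u u), Odd w.length → 4 * h ≤ w.length) (n : ℕ) :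
    ∀ W : Finset V, W.card ≤ n → ∃ I ⊆ W, G.IsIndepSet (I : Set V) ∧
      h ^ 2 * W.card ≤ 2 * h ^ 2 * I.card + n * W.card := by
  intro W
  induction W using Finset.strongInduction with
  | H W ih =>
    intro hWn
    rcases W.eq_empty_or_nonempty with rfl | ⟨v, hv⟩
    · exact ⟨∅, Finset.Subset.refl _, by simp, by simp⟩
    -- choose a thin layer
    obtain ⟨i, hi1, hi2, hi3⟩ : ∃ i, h ≤ i ∧ i < 2 * h ∧ h * (L G W v i).card ≤ n := by
      by_contra hcon
      push Not at hcon
      have h1 : ((Finset.Ico h (2 * h)).biUnion (L G W v)).card ≤ W.card := by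
        apply Finset.card_le_card
        intro x hx
        rw [Finset.mem_biUnion] at hx
        obtain ⟨i, _, hx⟩ := hx
        exact (mem_L.1 hx).1
      rw [Finset.card_biUnion (fun i _ j _ hij => L_disj hij)] at h1
      have h2 : ∑ _i ∈ Finset.Ico h (2 * h), (n + 1) ≤
          ∑ i ∈ Finset.Ico h (2 * h), h * (L G W v i).card := by
        apply Finset.sum_le_sum
        intro i hi
        rw [Finset.mem_Ico] at hi
        exact hcon i hi.1 hi.2
      rw [Finset.sum_const, Nat.card_Ico, ← Finset.mul_sum, smul_eq_mul] at h2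
      have h3 : 2 * h - h = h := by omega
      rw [h3] at h2
      have h4 := Nat.le_of_mul_le_mul_left h2 hh
      omega
    set B : Finset V := (Finset.range i).biUnion (L G W v) with hB
    have hBW : B ⊆ W := by
      intro x hx
      rw [hB, Finset.mem_biUnion] at hx
      obtain ⟨j, _, hx⟩ := hx
      exact (mem_L.1 hx).1
    have hLW : L G W v i ⊆ W := fun x hx => (mem_L.1 hx).1
    have hBL : Disjoint B (L G W v i) := by
      rw [hB, Finset.disjoint_biUnion_left]
      intro j hj
      exact L_disj (by rw [Finset.mem_range] at hj; omega)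
    set W' : Finset V := W \ (B ∪ L G W v i) with hW'
    have hsub : B ∪ L G W v i ⊆ W := Finset.union_subset hBW hLW
    have hcardW : W.card = W'.card + B.card + (L G W v i).card := by
      rw [hW', Finset.card_sdiff_of_subset hsub, Finset.card_union_of_disjoint hBL]
      have := Finset.card_le_card hsub
      rw [Finset.card_union_of_disjoint hBL] at this
      omega
    have hvL : v ∈ L G W v 0 := by
      rw [mem_L]
      exact ⟨hv, rfl, fun m hm => absurd hm (Nat.not_lt_zero _)⟩
    have hvB : v ∈ B := by
      rw [hB, Finset.mem_biUnion]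
      exact ⟨0, by rw [Finset.mem_range]; omega, hvL⟩
    have hss : W' ⊂ W := by
      rw [Finset.ssubset_iff_of_subset Finset.sdiff_subset]
      exact ⟨v, hv, fun hc => (Finset.mem_sdiff.1 hc).2 (Finset.mem_union_left _ hvB)⟩
    obtain ⟨I', hI'W, hI'ind, hI'card⟩ := ih W' hss ((Finset.card_le_card hss.1).trans hWn)
    -- parity classes
    have key : ∀ P : ℕ → Prop, [DecidablePred P] → (∀ j, P j → ¬ P (j + 1)) →
        ((((Finset.range i).filter P).biUnion (L G W v)) ∪ I') ⊆ W ∧
        G.IsIndepSet ((((((Finset.range i).filter P).biUnion (L G W v)) ∪ I') : Finset V) : Set V) ∧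
        (((((Finset.range i).filter P).biUnion (L G W v)) ∪ I') : Finset V).card =
          ∑ j ∈ (Finset.range i).filter P, (L G W v j).card + I'.card := by
      intro P _ hP
      have hsubB : ((Finset.range i).filter P).biUnion (L G W v) ⊆ B :=
        Finset.biUnion_subset_biUnion_of_subset_left _ (Finset.filter_subset _ _)
      refine ⟨?_, ?_, ?_⟩
      · apply Finset.union_subset (hsubB.trans hBW)
        exact hI'W.trans hss.1
      · -- cross edges
        have hcross : ∀ x ∈ B, ∀ y ∈ I', ¬ G.Adj x y := by
          intro x hx y hy hadj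
          rw [hB, Finset.mem_biUnion] at hx
          obtain ⟨j, hj, hxj⟩ := hx
          rw [Finset.mem_range] at hj
          have hyW' := hI'W hy
          rw [hW', Finset.mem_sdiff] at hyW'
          obtain ⟨m, hm, hym⟩ := D_min (G := G) (v := v) (n := j + 1) hyW'.1
            ⟨hyW'.1, x, (mem_L.1 hxj).2.1, hadj⟩
          apply hyW'.2
          rcases Nat.lt_or_ge m i with h1 | h1
          · exact Finset.mem_union_left _ (by
              rw [hB, Finset.mem_biUnion]; exact ⟨m, Finset.mem_range.2 h1, hym⟩)
          · have : m = i := by omega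
            subst this
            exact Finset.mem_union_right _ hym
        have hin : ∀ x ∈ ((Finset.range i).filter P).biUnion (L G W v),
            ∀ y ∈ ((Finset.range i).filter P).biUnion (L G W v), ¬ G.Adj x y := by
          intro x hx y hy hadj
          rw [Finset.mem_biUnion] at hx hy
          obtain ⟨j, hj, hxj⟩ := hx
          obtain ⟨k, hk, hyk⟩ := hy
          rw [Finset.mem_filter, Finset.mem_range] at hj hk
          have h1 := L_adj hxj hyk hadj
          have h2 := L_adj hyk hxj hadj.symm
          have h3 : j ≠ k + 1 := fun h => hP k hk.2 (h ▸ hj.2)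
          have h4 : k ≠ j + 1 := fun h => hP j hj.2 (h ▸ hk.2)
          have h5 : j = k := by omega
          subst h5
          exact same_layer hodd (by omega) hxj hyk hadj
        intro x hx y hy _
        rw [Finset.mem_coe, Finset.mem_union] at hx hy
        rcases hx with hx | hx <;> rcases hy with hy | hy
        · exact hin x hx y hy
        · exact hcross x (hsubB hx) y hy
        · exact fun hadj => hcross y (hsubB hy) x hx hadj.symm
        · intro hadj
          exact hI'ind hx hy (G.ne_of_adj hadj) hadj
      · rw [Finset.card_union_of_disjoint, Finset.card_biUnion (fun i _ j _ hij => L_disj hij)]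
        rw [Finset.disjoint_left]
        intro x hx hx'
        have := hI'W hx'
        rw [hW', Finset.mem_sdiff] at this
        exact this.2 (Finset.mem_union_left _ (hsubB hx))
    obtain ⟨e1, e2, e3⟩ := key (fun j => Even j) (fun j hj => by
      rw [Nat.not_even_iff_odd]; exact hj.add_one)
    obtain ⟨o1, o2, o3⟩ := key (fun j => ¬ Even j) (fun j hj => by
      rw [not_not]; rw [Nat.not_even_iff_odd] at hj; exact hj.add_one)
    have hBcard : B.card = ∑ j ∈ (Finset.range i).filter (fun j => Even j), (L G W v j).card +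
        ∑ j ∈ (Finset.range i).filter (fun j => ¬ Even j), (L G W v j).card := by
      rw [Finset.sum_filter_add_sum_filter_not, hB,
        Finset.card_biUnion (fun i _ j _ hij => L_disj hij)]
    -- cost of the deleted layer
    have hcost : h ^ 2 * (L G W v i).card ≤ n * B.card := by
      rcases (L G W v i).eq_empty_or_nonempty with h0 | h0
      · rw [h0]; simp
      · have hBi : i ≤ B.card := by
          rw [hB, Finset.card_biUnion (fun i _ j _ hij => L_disj hij)]
          calc i = ∑ _j ∈ Finset.range i, 1 := by simp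
            _ ≤ ∑ j ∈ Finset.range i, (L G W v j).card := by
              apply Finset.sum_le_sum
              intro j hj
              rw [Finset.mem_range] at hj
              exact Finset.card_pos.2 (L_nonempty hv h0 j (by omega))
        calc h ^ 2 * (L G W v i).card = h * (h * (L G W v i).card) := by ring
          _ ≤ h * n := by gcongr
          _ ≤ B.card * n := by gcongr; omega
          _ = n * B.card := by ring
    rcases le_total (∑ j ∈ (Finset.range i).filter (fun j => Even j), (L G W v j).card)
      (∑ j ∈ (Finset.range i).filter (fun j => ¬ Even j), (L G W v j).card) with hle | hle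
    · refine ⟨_, o1, o2, ?_⟩
      rw [o3, hcardW]
      have : h ^ 2 * B.card ≤ 2 * h ^ 2 *
          ∑ j ∈ (Finset.range i).filter (fun j => ¬ Even j), (L G W v j).card := by
        rw [hBcard]
        nlinarith [Nat.mul_le_mul_left (h ^ 2) hle]
      nlinarith [Nat.zero_le (n * (L G W v i).card)]
    · refine ⟨_, e1, e2, ?_⟩
      rw [e3, hcardW]
      have : h ^ 2 * B.card ≤ 2 * h ^ 2 *
          ∑ j ∈ (Finset.range i).filter (fun j => Even j), (L G W v j).card := by
        rw [hBcard]
        nlinarith [Nat.mul_le_mul_left (h ^ 2) hle]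
      nlinarith [Nat.zero_le (n * (L G W v i).card)]

end main

theorem final (α p n : ℕ) (hp : 1 ≤ p) (hn : n = 2 * α + p) (G : SimpleGraph (Fin n))
    (hG : ∀ s : Finset (Fin n), G.IsIndepSet (s : Set (Fin n)) → s.card ≤ α) :
    ∃ v : Fin n, ∃ w : G.Walk v v,
      w.IsCycle ∧ Odd w.length ∧ (w.length : ℝ) ≤ 8 / Real.sqrt p * (α : ℝ) +
        (4 * Real.sqrt p + 3) := by
  have hp0 : (0 : ℝ) < p := by exact_mod_cast hp
  have hsp : 0 < Real.sqrt p := Real.sqrt_pos.2 hp0
  set h : ℕ := ⌊(n : ℝ) / Real.sqrt p⌋₊ + 1 with hh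
  have hh0 : 0 < h := by omega
  have hhn : (n : ℝ) / Real.sqrt p < h := by
    rw [hh]; push_cast; exact Nat.lt_floor_add_one _
  have hh2 : (h : ℝ) ≤ (n : ℝ) / Real.sqrt p + 1 := by
    rw [hh]; push_cast
    have := Nat.floor_le (show 0 ≤ (n : ℝ) / Real.sqrt p by positivity)
    linarith
  by_cases hodd : ∀ (u : Fin n) (w : G.Walk u u), Odd w.length → 4 * h ≤ w.length
  · exfalso
    obtain ⟨I, _, hI, hcard⟩ := main_lemma h hh0 hodd n Finset.univ (by simp)
    have hIα := hG I hI
    rw [Finset.card_univ, Fintype.card_fin] at hcard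
    have h1 : h ^ 2 * p ≤ n * n := by
      have h2 : h ^ 2 * n ≤ 2 * h ^ 2 * α + n * n := by
        refine hcard.trans ?_
        gcongr
      rw [hn] at h2 ⊢
      nlinarith
    have h3 : ((h : ℝ) ^ 2 * p) ≤ (n : ℝ) * n := by exact_mod_cast h1
    have h4 : (n : ℝ) < h * Real.sqrt p := by rwa [div_lt_iff₀ hsp] at hhn
    have h5 : (Real.sqrt p) ^ 2 = p := Real.sq_sqrt hp0.le
    have h6 : (0 : ℝ) ≤ n := Nat.cast_nonneg _
    nlinarith
  · push Not at hodd
    obtain ⟨u, w, hw1, hw2⟩ := hodd
    obtain ⟨v, c, hc1, hc2, hc3⟩ := odd_cycle_of_closed w hw1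
    refine ⟨v, c, hc1, hc2, ?_⟩
    have h1 : c.length + 1 ≤ 4 * h := by omega
    have h2 : (c.length : ℝ) + 1 ≤ 4 * h := by exact_mod_cast h1
    have h3 : (n : ℝ) / Real.sqrt p = 2 * α / Real.sqrt p + Real.sqrt p := by
      rw [hn]; push_cast
      rw [add_div]
      congr 1
      rw [Real.div_sqrt]
    calc (c.length : ℝ) ≤ 4 * h - 1 := by linarith
      _ ≤ 4 * ((n : ℝ) / Real.sqrt p + 1) - 1 := by linarith
      _ = 8 / Real.sqrt p * α + (4 * Real.sqrt p + 3) := by rw [h3]; ring

/-- There are constants c_p ≥ 0 tending to 0 such that, for each p ≥ 1, every graph on 2α+p vertices with no independent set of size α+1 has an odd cycle of length at most c_p·α + o(α). -/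
theorem result :
    ∃ c : ℕ → ℝ, (∀ p, 0 ≤ c p) ∧ Tendsto c atTop (𝓝 0) ∧
      ∀ p : ℕ, 1 ≤ p →
        ∃ e : ℕ → ℝ, Tendsto (fun α : ℕ => e α / (α : ℝ)) atTop (𝓝 0) ∧
          ∀ α : ℕ, ∀ G : SimpleGraph (Fin (2 * α + p)),
            (∀ s : Finset (Fin (2 * α + p)), G.IsIndepSet (s : Set (Fin (2 * α + p))) → s.card ≤ α) →
            ∃ v : Fin (2 * α + p), ∃ w : G.Walk v v,
              w.IsCycle ∧ Odd w.length ∧ (w.length : ℝ) ≤ c p * (α : ℝ) + e α := by
  refine ⟨fun p => 8 / Real.sqrt p, fun p => by positivity, ?_, ?_⟩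
  · have h1 : Tendsto (fun p : ℕ => Real.sqrt p) atTop atTop :=
      Real.tendsto_sqrt_atTop.comp tendsto_natCast_atTop_atTop
    exact h1.const_div_atTop 8
  · intro p hp
    refine ⟨fun _ => 4 * Real.sqrt p + 3, ?_, ?_⟩
    · exact tendsto_natCast_atTop_atTop.const_div_atTop _
    · intro α G hG
      exact final α p _ hp rfl G hG

end Pool.Agent.S05573
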