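import Pool.Statements.S05592
import Mathlib

set_option autoImplicit false
open Pool Pool.MP_3df3be_co

namespace Pool.Agent.S05592

theorem rowIff {n : ℕ} (f : Fin n → Fin n) (hf : Function.Injective f) (C S : Finset (Fin n))
    (hcard : S.card ≤ C.card) (h : ∀ c ∈ C, f c ∈ S) (c : Fin n) : f c ∈ S ↔ c ∈ C := by
  classical
  have himg : C.image f = S := by
    apply Finset.eq_of_subset_of_card_le
    · intro x hx
      obtain ⟨c, hc, rfl⟩ := Finset.mem_image.1 hx
      exact h c hc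
    · rw [Finset.card_image_of_injective _ hf]
      exact hcard
  constructor
  · intro hc
    rw [← himg] at hc
    obtain ⟨c', hc', he⟩ := Finset.mem_image.1 hc
    rw [← hf he]
    exact hc'
  · exact h c

theorem split {n : ℕ} (f : Fin n → Fin n) (hf : Function.Injective f) (C' S' S : Finset (Fin n))
    (hcard : S'.card ≤ C'.card) (h : ∀ c ∈ C', f c ∈ S') :
    (C'.filter (fun c => f c ∈ S)).card = (S'.filter (fun s => s ∈ S)).card := by
  classical
  have himg : C'.image f = S' := by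
    apply Finset.eq_of_subset_of_card_le
    · intro x hx
      obtain ⟨c, hc, rfl⟩ := Finset.mem_image.1 hx
      exact h c hc
    · rw [Finset.card_image_of_injective _ hf]
      exact hcard
  rw [← himg, Finset.filter_image, Finset.card_image_of_injective _ hf]

/-- The negation of the preceding statement: For every n there is a latin square of order n such that, for each m with 1 ≤ m and 2m ≤ n, some m rows and m columns meet in an m×m subarray using only m symbols, i.e. a latin subsquare of order m. -/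
theorem result :
    ¬ (∀ n : ℕ, ∃ L : Fin n → Fin n → Fin n,
      (∀ i : Fin n, Function.Bijective (L i)) ∧
      (∀ j : Fin n, Function.Bijective (fun i : Fin n => L i j)) ∧
      ∀ m : ℕ, 1 ≤ m → 2 * m ≤ n →
        ∃ R C S : Finset (Fin n),
          R.card = m ∧ C.card = m ∧ S.card = m ∧
          ∀ r ∈ R, ∀ c ∈ C, L r c ∈ S) := by
  classical
  intro H
  obtain ⟨L, hrow, hcol, hsub⟩ := H 8
  obtain ⟨R, C, S, hR, hC, hS, hL⟩ := hsub 4 (by norm_num) (by norm_num)
  obtain ⟨R', C', S', hR', hC', hS', hL'⟩ := hsub 3 (by norm_num) (by norm_num)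
  -- the four blocks
  have rowS : ∀ r ∈ R, ∀ c, L r c ∈ S ↔ c ∈ C := fun r hr c =>
    rowIff (L r) (hrow r).1 C S (by omega) (fun c hc => hL r hr c hc) c
  have colS : ∀ c ∈ C, ∀ r, L r c ∈ S ↔ r ∈ R := fun c hc r =>
    rowIff (fun r => L r c) (hcol c).1 R S (by omega) (fun r hr => hL r hr c hc) r
  have offS : ∀ r, r ∉ R → ∀ c, L r c ∈ Sᶜ ↔ c ∈ C := fun r hr c =>
    rowIff (L r) (hrow r).1 C Sᶜ (by rw [Finset.card_compl, Fintype.card_fin]; omega)
      (fun c hc => by rw [Finset.mem_compl, colS c hc r]; exact hr) c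
  have all : ∀ r c, L r c ∈ S ↔ (r ∈ R ↔ c ∈ C) := by
    intro r c
    by_cases hr : r ∈ R
    · rw [rowS r hr c]; simp [hr]
    · have := offS r hr c
      rw [Finset.mem_compl] at this
      simp only [hr, false_iff]
      tauto
  have colB : ∀ c ∈ C', ∀ r, L r c ∈ S' ↔ r ∈ R' := fun c hc r =>
    rowIff (fun r => L r c) (hcol c).1 R' S' (by omega) (fun r hr => hL' r hr c hc) r
  -- rows of the small square lie on one side
  have hRside : ∀ r₁ ∈ R', ∀ r₂ ∈ R', (r₁ ∈ R ↔ r₂ ∈ R) := by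
    by_contra hcon
    push Not at hcon
    obtain ⟨r₁, h1, r₂, h2, h12⟩ := hcon
    have key : ∀ r₁ ∈ R', ∀ r₂ ∈ R', r₁ ∈ R → r₂ ∉ R → False := by
      intro r₁ h1 r₂ h2 ha hb
      have e1 := split (L r₁) (hrow r₁).1 C' S' S (by omega) (fun c hc => hL' r₁ h1 c hc)
      have e2 := split (L r₂) (hrow r₂).1 C' S' S (by omega) (fun c hc => hL' r₂ h2 c hc)
      have f1 : C'.filter (fun c => L r₁ c ∈ S) = C'.filter (fun c => c ∈ C) := by
        apply Finset.filter_congr; intro c _; rw [all]; simp [ha]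
      have f2 : C'.filter (fun c => L r₂ c ∈ S) = C'.filter (fun c => ¬ c ∈ C) := by
        apply Finset.filter_congr; intro c _; rw [all]; simp [hb]
      rw [f1] at e1
      rw [f2] at e2
      have := Finset.card_filter_add_card_filter_not (s := C') (fun c => c ∈ C)
      omega
    rcases h12 with ⟨ha, hb⟩ | ⟨ha, hb⟩
    · exact key r₁ h1 r₂ h2 ha hb
    · exact key r₂ h2 r₁ h1 hb ha
  have hCside : ∀ c₁ ∈ C', ∀ c₂ ∈ C', (c₁ ∈ C ↔ c₂ ∈ C) := by
    by_contra hcon
    push Not at hcon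
    obtain ⟨c₁, h1, c₂, h2, h12⟩ := hcon
    have key : ∀ c₁ ∈ C', ∀ c₂ ∈ C', c₁ ∈ C → c₂ ∉ C → False := by
      intro c₁ h1 c₂ h2 ha hb
      have e1 := split (fun r => L r c₁) (hcol c₁).1 R' S' S (by omega) (fun r hr => hL' r hr c₁ h1)
      have e2 := split (fun r => L r c₂) (hcol c₂).1 R' S' S (by omega) (fun r hr => hL' r hr c₂ h2)
      have f1 : R'.filter (fun r => L r c₁ ∈ S) = R'.filter (fun r => r ∈ R) := by
        apply Finset.filter_congr; intro c _; rw [all]; simp [ha]
      have f2 : R'.filter (fun r => L r c₂ ∈ S) = R'.filter (fun r => ¬ r ∈ R) := by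
        apply Finset.filter_congr; intro c _; rw [all]; simp [hb]
      rw [f1] at e1
      rw [f2] at e2
      have := Finset.card_filter_add_card_filter_not (s := R') (fun r => r ∈ R)
      omega
    rcases h12 with ⟨ha, hb⟩ | ⟨ha, hb⟩
    · exact key c₁ h1 c₂ h2 ha hb
    · exact key c₂ h2 c₁ h1 hb ha
  obtain ⟨r₁, hr₁⟩ : R'.Nonempty := by rw [← Finset.card_pos]; omega
  obtain ⟨c₁, hc₁⟩ : C'.Nonempty := by rw [← Finset.card_pos]; omega
  -- the block containing the small square
  set R₀ : Finset (Fin 8) := Finset.univ.filter (fun r => (r ∈ R ↔ r₁ ∈ R)) with hR₀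
  set S₀ : Finset (Fin 8) := Finset.univ.filter (fun s => (s ∈ S ↔ (r₁ ∈ R ↔ c₁ ∈ C))) with hS₀
  have cardHalf : ∀ (A : Finset (Fin 8)) (p : Prop), A.card = 4 →
      (Finset.univ.filter (fun r => (r ∈ A ↔ p))).card = 4 := by
    intro A p hA
    by_cases hp : p
    · have : Finset.univ.filter (fun r => (r ∈ A ↔ p)) = A := by ext x; simp [hp]
      rw [this]; exact hA
    · have : Finset.univ.filter (fun r => (r ∈ A ↔ p)) = Aᶜ := by ext x; simp [hp]
      rw [this, Finset.card_compl, Fintype.card_fin]; omega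
  have hR₀c : R₀.card = 4 := by rw [hR₀]; convert cardHalf R (r₁ ∈ R) hR
  have hS₀c : S₀.card = 4 := by rw [hS₀]; convert cardHalf S (r₁ ∈ R ↔ c₁ ∈ C) hS
  have hsubR : R' ⊆ R₀ := by
    intro r hr
    rw [hR₀, Finset.mem_filter]
    exact ⟨Finset.mem_univ _, hRside r hr r₁ hr₁⟩
  obtain ⟨r₀, hr₀, hr₀'⟩ : ∃ r₀ ∈ R₀, r₀ ∉ R' := by
    by_contra hcon
    push Not at hcon
    have := Finset.card_le_card (show R₀ ⊆ R' from hcon)
    omega
  have hr₀R : (r₀ ∈ R ↔ r₁ ∈ R) := by
    rw [hR₀, Finset.mem_filter] at hr₀; exact hr₀.2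
  have hin : ∀ r ∈ R₀, ∀ c ∈ C', L r c ∈ S₀ := by
    intro r hr c hc
    rw [hR₀, Finset.mem_filter] at hr
    rw [hS₀, Finset.mem_filter]
    refine ⟨Finset.mem_univ _, ?_⟩
    rw [all, hr.2, hCside c hc c₁ hc₁]
  -- symbols of the small square
  have hS'sub : S' ⊆ S₀ := by
    have himg : C'.image (L r₁) = S' := by
      apply Finset.eq_of_subset_of_card_le
      · intro x hx
        obtain ⟨c, hc, rfl⟩ := Finset.mem_image.1 hx
        exact hL' r₁ hr₁ c hc
      · rw [Finset.card_image_of_injective _ (hrow r₁).1]; omega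
    rw [← himg]
    intro x hx
    obtain ⟨c, hc, rfl⟩ := Finset.mem_image.1 hx
    exact hin r₁ (hsubR hr₁) c hc
  have h3 : (C'.image (L r₀)) ⊆ S₀ \ S' := by
    intro x hx
    obtain ⟨c, hc, rfl⟩ := Finset.mem_image.1 hx
    rw [Finset.mem_sdiff]
    refine ⟨hin r₀ hr₀ c hc, ?_⟩
    rw [colB c hc r₀]
    exact hr₀'
  have h4 := Finset.card_le_card h3
  rw [Finset.card_image_of_injective _ (hrow r₀).1, Finset.card_sdiff_of_subset hS'sub] at h4
  omega

end Pool.Agent.S05592
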