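import Pool.Statements.S05635

set_option autoImplicit false
open Pool Pool.MP_400a6b_co

namespace Pool.Agent.S05635

open MvPowerSeries

abbrev S := MvPowerSeries (Fin 2) ℚ

/-- series supported in a submonoid -/
def W (M : AddSubmonoid (Fin 2 →₀ ℕ)) : Subring S where
  carrier := {f | ∀ m, m ∉ M → coeff m f = 0}
  mul_mem' := by
    intro f g hf hg m hm
    classical
    rw [coeff_mul]
    apply Finset.sum_eq_zero
    rintro ⟨a, b⟩ hab
    rw [Finset.HasAntidiagonal.mem_antidiagonal] at hab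
    dsimp only at hab ⊢
    by_cases ha : a ∈ M
    · by_cases hb : b ∈ M
      · exact absurd (hab ▸ M.add_mem ha hb) hm
      · rw [hg b hb, mul_zero]
    · rw [hf a ha, zero_mul]
  one_mem' := by
    classical
    intro m hm
    rw [coeff_one, if_neg]
    rintro rfl
    exact hm M.zero_mem
  add_mem' := by
    intro f g hf hg m hm
    rw [map_add, hf m hm, hg m hm, add_zero]
  zero_mem' := by
    intro m _
    rw [map_zero]
  neg_mem' := by
    intro f hf m hm
    rw [map_neg, hf m hm, neg_zero]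

lemma mem_W {M : AddSubmonoid (Fin 2 →₀ ℕ)} {f : S} :
    f ∈ W M ↔ ∀ m, m ∉ M → coeff m f = 0 := Iff.rfl

lemma inv_mem_W (M : AddSubmonoid (Fin 2 →₀ ℕ)) (f g : S) (hf : f ∈ W M)
    (h0 : constantCoeff f ≠ 0) (hfg : f * g = 1) : g ∈ W M := by
  classical
  have key : ∀ n : ℕ, ∀ m : Fin 2 →₀ ℕ, m 0 + m 1 = n → m ∉ M → coeff m g = 0 := by
    intro n
    induction n using Nat.strong_induction_on with
    | _ n ih =>
      intro m hmn hm
      have h1 : coeff m (f * g) = 0 := by
        rw [hfg, coeff_one, if_neg]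
        rintro rfl
        exact hm M.zero_mem
      rw [coeff_mul, Finset.sum_eq_single (0, m)] at h1
      · dsimp only at h1
        rw [coeff_zero_eq_constantCoeff_apply] at h1
        exact (mul_eq_zero.1 h1).resolve_left h0
      · rintro ⟨a, b⟩ hab hne
        rw [Finset.HasAntidiagonal.mem_antidiagonal] at hab
        dsimp only at hab ⊢
        by_cases ha : a ∈ M
        · have hb : b ∉ M := fun hb => hm (hab ▸ M.add_mem ha hb)
          have ha0 : a ≠ 0 := by
            rintro rfl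
            apply hne
            rw [zero_add] at hab
            rw [hab]
          have hlt : b 0 + b 1 < n := by
            rw [← hmn, ← hab]
            simp only [Finsupp.add_apply]
            by_contra hcon
            apply ha0
            ext i
            fin_cases i
            · show a 0 = 0
              omega
            · show a 1 = 0
              omega
          rw [ih _ hlt b rfl hb, mul_zero]
        · rw [hf a ha, zero_mul]
      · intro h
        exact absurd (Finset.HasAntidiagonal.mem_antidiagonal.2 (zero_add m)) h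
  intro m hm
  exact key _ m rfl hm

/-- `x^a y^b` with `a ≤ b` -/
def Mle : AddSubmonoid (Fin 2 →₀ ℕ) where
  carrier := {m | m 0 ≤ m 1}
  add_mem' := by
    intro a b ha hb
    show (a + b) 0 ≤ (a + b) 1
    simp only [Finsupp.add_apply]
    exact add_le_add ha hb
  zero_mem' := by simp

/-- `x^a y^b` with `b ≤ a` -/
def Mge : AddSubmonoid (Fin 2 →₀ ℕ) where
  carrier := {m | m 1 ≤ m 0}
  add_mem' := by
    intro a b ha hb
    show (a + b) 1 ≤ (a + b) 0
    simp only [Finsupp.add_apply]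
    exact add_le_add ha hb
  zero_mem' := by simp

lemma mem_Mle {m : Fin 2 →₀ ℕ} : m ∈ Mle ↔ m 0 ≤ m 1 := Iff.rfl
lemma mem_Mge {m : Fin 2 →₀ ℕ} : m ∈ Mge ↔ m 1 ≤ m 0 := Iff.rfl

lemma hasSubst : PowerSeries.HasSubst (X 0 * X 1 : S) := by
  apply PowerSeries.HasSubst.of_constantCoeff_zero
  simp

/-- `F(x) ↦ F(xy)` -/
noncomputable def phi : PowerSeries ℚ →ₐ[ℚ] S := PowerSeries.substAlgHom hasSubst

/-- the exponent `(n,n)` -/
noncomputable def dd (n : ℕ) : Fin 2 →₀ ℕ := Finsupp.single 0 n + Finsupp.single 1 n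

lemma dd_apply0 (n : ℕ) : dd n 0 = n := by simp [dd]
lemma dd_apply1 (n : ℕ) : dd n 1 = n := by simp [dd]

lemma eq_dd_iff (m : Fin 2 →₀ ℕ) (n : ℕ) : m = dd n ↔ m 0 = n ∧ m 1 = n := by
  constructor
  · rintro rfl; exact ⟨dd_apply0 n, dd_apply1 n⟩
  · rintro ⟨h0, h1⟩
    ext i
    fin_cases i
    · simpa [dd_apply0] using h0
    · simpa [dd_apply1] using h1

lemma XX_pow (d : ℕ) : (X 0 * X 1 : S) ^ d = monomial (dd d) 1 := by
  rw [mul_pow, X_pow_eq, X_pow_eq, monomial_mul_monomial, one_mul]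
  rfl

lemma coeff_phi (F : PowerSeries ℚ) (m : Fin 2 →₀ ℕ) :
    coeff m (phi F) = if m 0 = m 1 then PowerSeries.coeff (m 0) F else 0 := by
  classical
  unfold phi
  rw [PowerSeries.coe_substAlgHom, PowerSeries.coeff_subst hasSubst]
  rw [finsum_eq_single _ (m 0)]
  · rw [XX_pow, coeff_monomial]
    by_cases h : m 0 = m 1
    · rw [if_pos h, if_pos ((eq_dd_iff m _).2 ⟨rfl, h.symm⟩), smul_eq_mul, mul_one]
    · rw [if_neg h, if_neg, smul_zero]
      intro h'
      rw [eq_dd_iff] at h'
      exact h h'.2.symm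
  · intro n hn
    rw [XX_pow, coeff_monomial, if_neg, smul_zero]
    intro h'
    rw [eq_dd_iff] at h'
    exact hn h'.1.symm

lemma phi_mem_le (F : PowerSeries ℚ) : phi F ∈ W Mle := by
  intro m hm
  rw [coeff_phi, if_neg]
  intro h
  exact hm (mem_Mle.2 h.le)

lemma phi_mem_ge (F : PowerSeries ℚ) : phi F ∈ W Mge := by
  intro m hm
  rw [coeff_phi, if_neg]
  intro h
  exact hm (mem_Mge.2 h.ge)

lemma phi_coe (p : Polynomial ℚ) :
    phi (p : PowerSeries ℚ) = ((Polynomial.aeval (MvPolynomial.X 0 * MvPolynomial.X 1) p :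
      MvPolynomial (Fin 2) ℚ) : S) := by
  unfold phi
  rw [PowerSeries.substAlgHom_coe]
  have h : (X 0 * X 1 : S) = MvPolynomial.coeToMvPowerSeries.algHom ℚ
      (MvPolynomial.X 0 * MvPolynomial.X 1 : MvPolynomial (Fin 2) ℚ) := by
    simp
  rw [h, Polynomial.aeval_algHom_apply]
  simp

/-! ### Division of polynomials by monomials -/

lemma coe_of_monomial_mul (P : MvPolynomial (Fin 2) ℚ) (s : Fin 2 →₀ ℕ) (f : S)
    (h : monomial s 1 * f = (P : S)) : ∃ Q : MvPolynomial (Fin 2) ℚ, (Q : S) = f := by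
  classical
  refine ⟨MvPolynomial.divMonomial P s, ?_⟩
  ext m
  rw [MvPolynomial.coeff_coe, MvPolynomial.coeff_divMonomial, ← MvPolynomial.coeff_coe, ← h,
    coeff_monomial_mul, if_pos (by simp), one_mul, add_tsub_cancel_left]

/-! ### The algebraic core -/

/-- minimal polynomial -/
lemma exists_good (F : PowerSeries ℚ) (h : ∃ p : Polynomial (Polynomial ℚ), p ≠ 0 ∧
          Polynomial.eval₂ Polynomial.coeToPowerSeries.ringHom F p = 0) :
    ∃ p : Polynomial (Polynomial ℚ),
      Polynomial.eval₂ Polynomial.coeToPowerSeries.ringHom F p = 0 ∧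
      Polynomial.eval₂ Polynomial.coeToPowerSeries.ringHom F (Polynomial.derivative p) ≠ 0 := by
  classical
  let Pr : ℕ → Prop := fun n => ∃ p : Polynomial (Polynomial ℚ), p ≠ 0 ∧
          Polynomial.eval₂ Polynomial.coeToPowerSeries.ringHom F p = 0 ∧ p.natDegree = n
  have hex : ∃ n, Pr n := by
    obtain ⟨p, hp, hp'⟩ := h
    exact ⟨_, p, hp, hp', rfl⟩
  obtain ⟨p, hp0, hpF, hpd⟩ := Nat.find_spec hex
  refine ⟨p, hpF, ?_⟩
  intro hcon
  have hdeg : p.natDegree ≠ 0 := by
    intro h0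
    rw [Polynomial.natDegree_eq_zero] at h0
    obtain ⟨a, rfl⟩ := h0
    rw [Polynomial.eval₂_C] at hpF
    have : (a : PowerSeries ℚ) = 0 := hpF
    rw [Polynomial.coe_eq_zero_iff] at this
    rw [this] at hp0
    simp at hp0
  have hd0 : Polynomial.derivative p ≠ 0 := by
    intro h0
    exact hdeg (Polynomial.derivative_eq_zero.1 h0)
  have hlt := Polynomial.natDegree_derivative_lt hdeg
  rw [hpd] at hlt
  exact Nat.find_min hex hlt ⟨_, hd0, hcon, rfl⟩

lemma eval₂_mem (M : AddSubmonoid (Fin 2 →₀ ℕ)) (σ : Polynomial ℚ →+* S)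
    (hσ : ∀ q, σ q ∈ W M) (p : Polynomial (Polynomial ℚ)) (a : S) (ha : a ∈ W M) :
    Polynomial.eval₂ σ a p ∈ W M := by
  have h := Polynomial.hom_eval₂ p (σ.codRestrict (W M) hσ) (W M).subtype ⟨a, ha⟩
  have h2 : (W M).subtype.comp (σ.codRestrict (W M) hσ) = σ := rfl
  rw [h2] at h
  have h3 : (W M).subtype ⟨a, ha⟩ = a := rfl
  rw [h3] at h
  rw [← h]
  exact Subtype.prop _

lemma taylor (M : AddSubmonoid (Fin 2 →₀ ℕ)) (σ : Polynomial ℚ →+* S)
    (hσ : ∀ q, σ q ∈ W M) (p : Polynomial (Polynomial ℚ)) (a b : S) (ha : a ∈ W M)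
    (hb : b ∈ W M) :
    ∃ E ∈ W M, Polynomial.eval₂ σ (a + b) p = Polynomial.eval₂ σ a p +
      Polynomial.eval₂ σ a (Polynomial.derivative p) * b + E * b ^ 2 := by
  set τ := σ.codRestrict (W M) hσ with hτ
  have hc : (W M).subtype.comp τ = σ := rfl
  obtain ⟨E, hE⟩ := Polynomial.binomExpansion (p.map τ) (⟨a, ha⟩ : W M) ⟨b, hb⟩
  refine ⟨E.1, E.2, ?_⟩
  have h1 := congrArg (W M).subtype hE
  rw [Polynomial.derivative_map, Polynomial.eval_map, Polynomial.eval_map, Polynomial.eval_map,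
    map_add, map_add, map_mul, map_mul, map_pow, Polynomial.hom_eval₂, Polynomial.hom_eval₂,
    Polynomial.hom_eval₂, hc] at h1
  exact h1

lemma coeff_x_mul (g : S) (hg : g ∈ W Mge) (n : ℕ) : coeff (dd n) (X 0 * g) = 0 := by
  classical
  rw [X, coeff_monomial_mul]
  split_ifs with h
  · rw [one_mul]
    apply hg
    rw [mem_Mge]
    have h0 := h 0
    simp only [Finsupp.single_eq_same, dd_apply0] at h0
    simp only [Finsupp.tsub_apply, dd_apply0, dd_apply1, Finsupp.single_eq_same]
    simp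
    omega
  · rfl

lemma coeff_y_mul (g : S) (hg : g ∈ W Mle) (n : ℕ) : coeff (dd n) (X 1 * g) = 0 := by
  classical
  rw [X, coeff_monomial_mul]
  split_ifs with h
  · rw [one_mul]
    apply hg
    rw [mem_Mle]
    have h0 := h 1
    simp only [Finsupp.single_eq_same, dd_apply1] at h0
    simp only [Finsupp.tsub_apply, dd_apply0, dd_apply1, Finsupp.single_eq_same]
    simp
    omega
  · rfl

lemma y_mem : (X 1 : S) ∈ W Mle := by
  classical
  intro m hm
  rw [coeff_X, if_neg]
  rintro rfl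
  apply hm
  rw [mem_Mle]
  simp

lemma x_mem : (X 0 : S) ∈ W Mge := by
  classical
  intro m hm
  rw [coeff_X, if_neg]
  rintro rfl
  apply hm
  rw [mem_Mge]
  simp

/-- the coefficient ring hom -/
noncomputable def sg : Polynomial ℚ →+* S :=
  (phi : PowerSeries ℚ →+* S).comp Polynomial.coeToPowerSeries.ringHom

lemma sg_mem (q : Polynomial ℚ) : sg q ∈ W Mle := phi_mem_le _

lemma sg_eval (F : PowerSeries ℚ) (p : Polynomial (Polynomial ℚ)) :
    Polynomial.eval₂ sg (phi F) p = phi (Polynomial.eval₂ Polynomial.coeToPowerSeries.ringHom F p) := by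
  have := Polynomial.hom_eval₂ p Polynomial.coeToPowerSeries.ringHom (phi : PowerSeries ℚ →+* S) F
  exact this.symm

lemma sg_poly (B : MvPolynomial (Fin 2) ℚ) (p : Polynomial (Polynomial ℚ)) :
    ∃ P : MvPolynomial (Fin 2) ℚ, Polynomial.eval₂ sg (B : S) p = (P : S) := by
  set τ : Polynomial ℚ →+* MvPolynomial (Fin 2) ℚ :=
    ((Polynomial.aeval (MvPolynomial.X 0 * MvPolynomial.X 1 : MvPolynomial (Fin 2) ℚ)) :
      Polynomial ℚ →ₐ[ℚ] MvPolynomial (Fin 2) ℚ).toRingHom with hτ
  refine ⟨Polynomial.eval₂ τ B p, ?_⟩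
  have h := Polynomial.hom_eval₂ p τ (MvPolynomial.coeToMvPowerSeries.ringHom) B
  have h2 : (MvPolynomial.coeToMvPowerSeries.ringHom).comp τ = sg := by
    apply RingHom.ext
    intro q
    exact (phi_coe q).symm
  rw [h2] at h
  exact h.symm

lemma phi_X : phi PowerSeries.X = X 0 * X 1 := by
  unfold phi
  exact PowerSeries.substAlgHom_X hasSubst

lemma core (F : PowerSeries ℚ) (halg : ∃ p : Polynomial (Polynomial ℚ), p ≠ 0 ∧
          Polynomial.eval₂ Polynomial.coeToPowerSeries.ringHom F p = 0) :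
    ∃ R : S, (∃ P Q : MvPolynomial (Fin 2) ℚ,
            MvPolynomial.constantCoeff Q ≠ 0 ∧ R * (Q : S) = (P : S)) ∧
        (∀ n : ℕ, coeff (dd n) R = PowerSeries.coeff n F) := by
  obtain ⟨p, hp, hp'⟩ := exists_good F halg
  set D := Polynomial.eval₂ Polynomial.coeToPowerSeries.ringHom F (Polynomial.derivative p) with hD
  obtain ⟨k, u, hDu, hu0⟩ : ∃ (k : ℕ) (u : PowerSeries ℚ), D = PowerSeries.X ^ k * u ∧
      PowerSeries.constantCoeff u ≠ 0 := by
    have h1 := PowerSeries.coeff_order hp'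
    obtain ⟨u, hu⟩ := PowerSeries.X_pow_order_dvd (φ := D)
    generalize D.order.toNat = k at h1 hu
    refine ⟨k, u, hu, ?_⟩
    rw [hu, mul_comm] at h1
    have h2 := PowerSeries.coeff_mul_X_pow u k 0
    rw [zero_add] at h2
    rw [h2] at h1
    simpa using h1
  obtain ⟨A, H, hFA⟩ : ∃ (A : Polynomial ℚ) (H : PowerSeries ℚ),
      F = (A : PowerSeries ℚ) + PowerSeries.X ^ (k + 1) * H := by
    have : PowerSeries.X ^ (k + 1) ∣ F - (PowerSeries.trunc (k + 1) F : PowerSeries ℚ) := by
      rw [PowerSeries.X_pow_dvd_iff]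
      intro m hm
      rw [map_sub, Polynomial.coeff_coe, PowerSeries.coeff_trunc, if_pos hm, sub_self]
    obtain ⟨H, hH⟩ := this
    exact ⟨_, H, by rw [← hH]; ring⟩
  set x : S := X 0 with hx
  set y : S := X 1 with hy
  set t : S := x * y with ht
  set Ft := phi F with hFt
  set At := phi (A : PowerSeries ℚ) with hAt
  set Ht := phi H with hHt
  set ut := phi u with hut
  have hFt' : Ft = At + t ^ (k + 1) * Ht := by
    rw [hFt, hFA, map_add, map_mul, map_pow, phi_X]
  set B := At + t ^ k * y with hB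
  set v := 1 - x * Ht with hv
  set z := y * v with hz
  have hBz : B = Ft + t ^ k * z := by
    rw [hB, hFt', hz, hv, ht]; ring
  have ht_mem : t ∈ W Mle := by
    rw [ht, hx, hy, ← phi_X]; exact phi_mem_le _
  have hz_mem : z ∈ W Mle := by
    have : z = y - t * Ht := by rw [hz, hv, ht]; ring
    rw [this]
    exact (W Mle).sub_mem y_mem ((W Mle).mul_mem ht_mem (phi_mem_le _))
  have hZ_mem : t ^ k * z ∈ W Mle := (W Mle).mul_mem ((W Mle).pow_mem ht_mem _) hz_mem
  have hFt_mem : Ft ∈ W Mle := phi_mem_le _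
  obtain ⟨E, hE, hEeq⟩ := taylor Mle sg sg_mem p Ft (t ^ k * z) hFt_mem hZ_mem
  obtain ⟨E1, hE1, hE1eq⟩ := taylor Mle sg sg_mem (Polynomial.derivative p) Ft (t ^ k * z) hFt_mem hZ_mem
  rw [← hBz, sg_eval, sg_eval, hp, map_zero, zero_add, ← hD, hDu, map_mul, map_pow, phi_X] at hEeq
  rw [← hBz, sg_eval, ← hD, hDu, map_mul, map_pow, phi_X] at hE1eq
  set E2 := Polynomial.eval₂ sg Ft (Polynomial.derivative (Polynomial.derivative p)) + E1 * (t ^ k * z) with hE2
  have hE2_mem : E2 ∈ W Mle := (W Mle).add_mem (eval₂_mem Mle sg sg_mem _ _ hFt_mem)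
    ((W Mle).mul_mem hE1 hZ_mem)
  have hpB : Polynomial.eval₂ sg B p = t ^ (2 * k) * y * (v * (ut + z * E)) := by
    rw [hEeq, hz, pow_mul]; ring
  have hpB' : Polynomial.eval₂ sg B (Polynomial.derivative p) = t ^ k * (ut + z * E2) := by
    rw [hE1eq, hE2]; ring
  set w := ut + z * E with hw
  have hw_mem : w ∈ W Mle := (W Mle).add_mem (phi_mem_le _) ((W Mle).mul_mem hz_mem hE)
  have hv_mem : v ∈ W Mge := (W Mge).sub_mem (W Mge).one_mem ((W Mge).mul_mem x_mem (phi_mem_ge _))
  have hv0 : constantCoeff v = 1 := by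
    rw [hv, map_sub, map_mul, hx, constantCoeff_X]; simp
  have hz0 : constantCoeff z = 0 := by
    rw [hz, map_mul, hy, constantCoeff_X]; simp
  have hut0 : constantCoeff ut = PowerSeries.constantCoeff u := by
    rw [← coeff_zero_eq_constantCoeff_apply, hut, coeff_phi]
    simp
  have hw0 : constantCoeff w ≠ 0 := by
    rw [hw, map_add, map_mul, hz0, zero_mul, add_zero, hut0]; exact hu0
  have hv0' : constantCoeff v ≠ 0 := by rw [hv0]; exact one_ne_zero
  set v' := v⁻¹ with hv'
  set w' := w⁻¹ with hw'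
  have hvv : v * v' = 1 := MvPowerSeries.mul_inv_cancel v hv0'
  have hww : w * w' = 1 := MvPowerSeries.mul_inv_cancel w hw0
  have hv'_mem : v' ∈ W Mge := inv_mem_W Mge v v' hv_mem hv0' hvv
  have hw'_mem : w' ∈ W Mle := inv_mem_W Mle w w' hw_mem hw0 hww
  have hB_mem : B ∈ W Mle := (W Mle).add_mem (phi_mem_le _)
    ((W Mle).mul_mem ((W Mle).pow_mem ht_mem _) y_mem)
  -- polynomials
  obtain ⟨B0, hB0⟩ : ∃ B0 : MvPolynomial (Fin 2) ℚ, (B0 : S) = B := by
    refine ⟨Polynomial.aeval (MvPolynomial.X 0 * MvPolynomial.X 1) A +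
      (MvPolynomial.X 0 * MvPolynomial.X 1) ^ k * MvPolynomial.X 1, ?_⟩
    rw [hB, hAt, phi_coe, ht, hx, hy]
    simp
  obtain ⟨P1, hP1⟩ := sg_poly B0 p
  obtain ⟨P2, hP2⟩ := sg_poly B0 (Polynomial.derivative p)
  rw [hB0] at hP1 hP2
  obtain ⟨Q, hQ⟩ := coe_of_monomial_mul P1 (dd (2 * k) + Finsupp.single 1 1) (v * w) (by
    rw [← hP1, hpB]
    congr 1
    rw [ht, hx, hy, XX_pow, X, monomial_mul_monomial, one_mul])
  obtain ⟨P, hP⟩ := coe_of_monomial_mul (P2 * B0) (dd k) ((ut + z * E2) * B) (by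
    rw [MvPolynomial.coe_mul, ← hP2, hpB', hB0, ht, hx, hy, XX_pow]
    ring)
  refine ⟨(ut + z * E2) * B * (v' * w'), ⟨P, Q, ?_, ?_⟩, ?_⟩
  · have h1 : MvPolynomial.constantCoeff Q = constantCoeff (Q : S) := by
      rw [← coeff_zero_eq_constantCoeff_apply, MvPolynomial.coeff_coe]; rfl
    rw [h1, hQ, map_mul, hv0, one_mul]
    exact hw0
  · rw [hQ, hP]
    calc (ut + z * E2) * B * (v' * w') * (v * w) = (ut + z * E2) * B * ((v * v') * (w * w')) := by ring
      _ = (ut + z * E2) * B := by rw [hvv, hww]; ring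
  · intro n
    have hkey : (ut + z * E2) * B * (v' * w')
        = Ft + x * (Ft * Ht * v') + y * (t ^ k + (E2 - E) * B * w') := by
      have e1 : ut + z * E2 = w + z * (E2 - E) := by rw [hw]; ring
      have e2 : v' = 1 + x * Ht * v' := by
        have : v * v' = v' - x * Ht * v' := by rw [hv]; ring
        rw [hvv] at this
        rw [this]; ring
      calc (ut + z * E2) * B * (v' * w')
          = (w * w') * (B * v') + (v * v') * (y * (E2 - E) * B * w') := by rw [e1, hz]; ring
        _ = B * v' + y * (E2 - E) * B * w' := by rw [hvv, hww]; ring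
        _ = Ft * v' + t ^ k * y * (v * v') + y * (E2 - E) * B * w' := by
            rw [hBz, hz]; ring
        _ = Ft * (1 + x * Ht * v') + t ^ k * y + y * (E2 - E) * B * w' := by
            rw [hvv, ← e2]; ring
        _ = _ := by ring
    rw [hkey, map_add, map_add, coeff_x_mul, coeff_y_mul, add_zero, add_zero, hFt, coeff_phi,
      dd_apply0, dd_apply1, if_pos rfl]
    · exact (W Mle).add_mem ((W Mle).pow_mem ht_mem _)
        ((W Mle).mul_mem ((W Mle).mul_mem ((W Mle).sub_mem hE2_mem hE) hB_mem) hw'_mem)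
    · exact (W Mge).mul_mem ((W Mge).mul_mem (phi_mem_ge _) (phi_mem_ge _)) hv'_mem

/-! ### Growth bound -/

lemma sum_le_support (Q : MvPolynomial (Fin 2) ℚ) (m : Fin 2 →₀ ℕ) :
    ∑ p ∈ Finset.HasAntidiagonal.antidiagonal m, |coeff p.2 (Q : S)|
      ≤ ∑ c ∈ Q.support, |Q.coeff c| := by
  classical
  have hinj : Set.InjOn (fun p : (Fin 2 →₀ ℕ) × (Fin 2 →₀ ℕ) => p.2)
      (Finset.HasAntidiagonal.antidiagonal m : Finset _) := by
    rintro ⟨a, c⟩ h1 ⟨a', c'⟩ h2 h
    simp only [Finset.mem_coe, Finset.HasAntidiagonal.mem_antidiagonal] at h1 h2 h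
    subst h
    have : a = a' := by
      rw [← h2] at h1
      exact add_right_cancel h1
    rw [this]
  have h1 : ∑ p ∈ Finset.HasAntidiagonal.antidiagonal m, |coeff p.2 (Q : S)|
      = ∑ c ∈ (Finset.HasAntidiagonal.antidiagonal m).image (fun p => p.2), |Q.coeff c| := by
    rw [Finset.sum_image hinj]
    rfl
  rw [h1]
  set s := (Finset.HasAntidiagonal.antidiagonal m).image (fun p => p.2) with hs
  have h2 : ∑ c ∈ s, |Q.coeff c| = ∑ c ∈ s.filter (fun c => c ∈ Q.support), |Q.coeff c| := by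
    rw [Finset.sum_filter]
    apply Finset.sum_congr rfl
    intro c _
    split_ifs with h
    · rfl
    · rw [MvPolynomial.notMem_support_iff.1 h, abs_zero]
  rw [h2]
  apply Finset.sum_le_sum_of_subset_of_nonneg
  · intro c hc
    exact (Finset.mem_filter.1 hc).2
  · intro c _ _
    exact abs_nonneg _

lemma growth (R : S) (P Q : MvPolynomial (Fin 2) ℚ) (hQ : MvPolynomial.constantCoeff Q ≠ 0)
    (h : R * (Q : S) = (P : S)) :
    ∃ C b : ℚ, 0 ≤ C ∧ ∀ m : Fin 2 →₀ ℕ, |coeff m R| ≤ C * b ^ (m 0 + m 1) := by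
  classical
  obtain ⟨q0, hq0⟩ : ∃ q0, q0 = MvPolynomial.constantCoeff Q := ⟨_, rfl⟩
  obtain ⟨N, hN⟩ : ∃ N, N = ∑ c ∈ Q.support, |Q.coeff c| := ⟨_, rfl⟩
  obtain ⟨C0, hC0⟩ : ∃ C0, C0 = ∑ c ∈ P.support, |P.coeff c| := ⟨_, rfl⟩
  have hN0 : 0 ≤ N := by rw [hN]; exact Finset.sum_nonneg fun _ _ => abs_nonneg _
  have hC00 : 0 ≤ C0 := by rw [hC0]; exact Finset.sum_nonneg fun _ _ => abs_nonneg _
  have hq0pos : 0 < |q0| := by rw [hq0]; exact abs_pos.2 hQ
  have hP : ∀ m, |P.coeff m| ≤ C0 := by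
    intro m
    by_cases hm : m ∈ P.support
    · rw [hC0]
      exact Finset.single_le_sum (f := fun c => |P.coeff c|) (fun _ _ => abs_nonneg _) hm
    · rw [MvPolynomial.notMem_support_iff.1 hm, abs_zero]; exact hC00
  obtain ⟨b, hb⟩ : ∃ b, b = 1 + N / |q0| := ⟨_, rfl⟩
  have hb1 : 1 ≤ b := by
    have : 0 ≤ N / |q0| := div_nonneg hN0 hq0pos.le
    linarith
  obtain ⟨C, hC⟩ : ∃ C, C = C0 / |q0| := ⟨_, rfl⟩
  have hCnn : 0 ≤ C := by rw [hC]; exact div_nonneg hC00 hq0pos.le
  have hbpos : 0 < b := by linarith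
  refine ⟨C, b, hCnn, ?_⟩
  have key : ∀ n : ℕ, ∀ m : Fin 2 →₀ ℕ, m 0 + m 1 = n → |coeff m R| ≤ C * b ^ n := by
    intro n
    induction n using Nat.strong_induction_on with
    | _ n ih =>
      intro m hmn
      have h1 : coeff m (R * (Q : S)) = P.coeff m := by
        rw [h, MvPolynomial.coeff_coe]
      rw [coeff_mul] at h1
      have hmem : (m, (0 : Fin 2 →₀ ℕ)) ∈ Finset.HasAntidiagonal.antidiagonal m := by
        rw [Finset.HasAntidiagonal.mem_antidiagonal, add_zero]
      rw [← Finset.add_sum_erase _ _ hmem] at h1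
      dsimp only at h1
      have hq : coeff (0 : Fin 2 →₀ ℕ) (Q : S) = q0 := by
        rw [MvPolynomial.coeff_coe, hq0]; rfl
      rw [hq] at h1
      obtain ⟨Sm, hSm⟩ : ∃ Sm, Sm = ∑ p ∈ (Finset.HasAntidiagonal.antidiagonal m).erase (m, 0),
        coeff p.1 R * coeff p.2 (Q : S) := ⟨_, rfl⟩
      rw [← hSm] at h1
      have hlt : ∀ p ∈ (Finset.HasAntidiagonal.antidiagonal m).erase (m, 0), p.1 0 + p.1 1 < n := by
        rintro ⟨a, c⟩ hp
        rw [Finset.mem_erase, Finset.HasAntidiagonal.mem_antidiagonal] at hp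
        obtain ⟨hne, hac⟩ := hp
        dsimp only at hac ⊢
        rw [← hmn, ← hac]
        simp only [Finsupp.add_apply]
        by_contra hcon
        apply hne
        have hc0 : c = 0 := by
          ext i
          fin_cases i
          · show c 0 = 0
            omega
          · show c 1 = 0
            omega
        rw [hc0, add_zero] at hac
        rw [hc0, hac]
      rcases Nat.eq_zero_or_pos n with hn | hn
      · have hS0 : Sm = 0 := by
          rw [hSm]
          apply Finset.sum_eq_zero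
          intro p hp
          have := hlt p hp
          omega
        rw [hS0, add_zero] at h1
        have h2 : |coeff m R| * |q0| ≤ C0 := by
          rw [← abs_mul, h1]; exact hP m
        rw [hn, pow_zero, mul_one, hC, le_div_iff₀ hq0pos]
        exact h2
      · obtain ⟨l, rfl⟩ : ∃ l, n = l + 1 := ⟨n - 1, by omega⟩
        have hSle : |Sm| ≤ C * b ^ l * N := by
          calc |Sm| ≤ ∑ p ∈ (Finset.HasAntidiagonal.antidiagonal m).erase (m, 0),
                |coeff p.1 R * coeff p.2 (Q : S)| := by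
                rw [hSm]; exact Finset.abs_sum_le_sum_abs _ _
            _ ≤ ∑ p ∈ (Finset.HasAntidiagonal.antidiagonal m).erase (m, 0),
                C * b ^ l * |coeff p.2 (Q : S)| := by
                apply Finset.sum_le_sum
                intro p hp
                rw [abs_mul]
                apply mul_le_mul_of_nonneg_right _ (abs_nonneg _)
                refine (ih _ (hlt p hp) p.1 rfl).trans ?_
                apply mul_le_mul_of_nonneg_left _ hCnn
                apply pow_le_pow_right₀ hb1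
                have := hlt p hp
                omega
            _ ≤ ∑ p ∈ Finset.HasAntidiagonal.antidiagonal m,
                C * b ^ l * |coeff p.2 (Q : S)| := by
                apply Finset.sum_le_sum_of_subset_of_nonneg (Finset.erase_subset _ _)
                intro p _ _
                positivity
            _ = C * b ^ l * ∑ p ∈ Finset.HasAntidiagonal.antidiagonal m, |coeff p.2 (Q : S)| := by
                rw [Finset.mul_sum]
            _ ≤ C * b ^ l * N := by
                rw [hN]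
                apply mul_le_mul_of_nonneg_left (sum_le_support Q m)
                positivity
        have h2 : |coeff m R| * |q0| ≤ C0 + C * b ^ l * N := by
          rw [← abs_mul]
          have h3 : coeff m R * q0 = P.coeff m - Sm := by rw [← h1]; ring
          rw [h3]
          calc |P.coeff m - Sm| ≤ |P.coeff m| + |Sm| := abs_sub _ _
            _ ≤ C0 + C * b ^ l * N := add_le_add (hP m) hSle
        have h4 : C0 ≤ C * b ^ l * |q0| := by
          have h5 : C0 = C * |q0| := by rw [hC]; field_simp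
          have h6 : 1 ≤ b ^ l := one_le_pow₀ hb1
          calc C0 = C * |q0| := h5
            _ ≤ C * |q0| * b ^ l := by
                apply le_mul_of_one_le_right (by positivity) h6
            _ = _ := by ring
        have h7 : b * |q0| = |q0| + N := by rw [hb]; field_simp
        have h8 : C * b ^ (l + 1) * |q0| = C * b ^ l * |q0| + C * b ^ l * N := by
          calc C * b ^ (l + 1) * |q0| = C * b ^ l * (b * |q0|) := by ring
            _ = _ := by rw [h7]; ring
        have h9 : |coeff m R| * |q0| ≤ C * b ^ (l + 1) * |q0| := by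
          rw [h8]; linarith
        exact le_of_mul_le_mul_right h9 hq0pos
  intro m
  exact key _ m rfl

/-! ### The positive series -/

/-- all coefficients `b^(i+j)` -/
noncomputable def HH (b : ℚ) : S := fun m => b ^ (m 0 + m 1)
/-- coefficients `b^j` on the `y` axis -/
noncomputable def H1 (b : ℚ) : S := fun m => if m 0 = 0 then b ^ (m 1) else 0
/-- the diagonal of `HH` -/
noncomputable def GG (b : ℚ) : S := fun m => if m 0 = m 1 then b ^ (m 0 + m 1) else 0

lemma coeff_HH (b : ℚ) (m : Fin 2 →₀ ℕ) : coeff m (HH b) = b ^ (m 0 + m 1) := rfl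
lemma coeff_H1 (b : ℚ) (m : Fin 2 →₀ ℕ) : coeff m (H1 b) = if m 0 = 0 then b ^ (m 1) else 0 := rfl
lemma coeff_GG (b : ℚ) (m : Fin 2 →₀ ℕ) :
    coeff m (GG b) = if m 0 = m 1 then b ^ (m 0 + m 1) else 0 := rfl

lemma coe_sub' (a b : MvPolynomial (Fin 2) ℚ) :
    ((a - b : MvPolynomial (Fin 2) ℚ) : S) = (a : S) - (b : S) :=
  map_sub (MvPolynomial.coeToMvPowerSeries.ringHom (σ := Fin 2) (R := ℚ)) a b

lemma HH_mul (b : ℚ) : HH b * (1 - monomial (Finsupp.single 0 1) b) = H1 b := by
  classical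
  ext m
  rw [mul_sub, mul_one, map_sub, coeff_mul_monomial, coeff_HH, coeff_HH, coeff_H1]
  simp only [Finsupp.single_le_iff, Finsupp.tsub_apply]
  by_cases h : m 0 = 0
  · rw [if_neg (by omega), if_pos h, h]; simp
  · rw [if_pos (by omega), if_neg h]
    obtain ⟨k, hk⟩ : ∃ k, m 0 = k + 1 := ⟨m 0 - 1, by omega⟩
    rw [hk]
    simp
    ring

lemma H1_mul (b : ℚ) : H1 b * (1 - monomial (Finsupp.single 1 1) b) = 1 := by
  classical
  ext m
  rw [mul_sub, mul_one, map_sub, coeff_mul_monomial, coeff_one]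
  have e0 : (m - Finsupp.single 1 1 : Fin 2 →₀ ℕ) 0 = m 0 := by simp [Finsupp.tsub_apply]
  have e1 : (m - Finsupp.single 1 1 : Fin 2 →₀ ℕ) 1 = m 1 - 1 := by simp [Finsupp.tsub_apply]
  have hm0 : m = 0 ↔ m 0 = 0 ∧ m 1 = 0 := by
    constructor
    · rintro rfl; simp
    · rintro ⟨h0, h1⟩
      ext i
      fin_cases i
      · exact h0
      · exact h1
  by_cases h : m 1 = 0
  · have hn : ¬ (Finsupp.single (1 : Fin 2) 1 : Fin 2 →₀ ℕ) ≤ m := by
      rw [Finsupp.single_le_iff]; omega
    rw [if_neg hn, coeff_H1]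
    by_cases h' : m 0 = 0
    · rw [if_pos h', if_pos (hm0.2 ⟨h', h⟩), h]; simp
    · rw [if_neg h', if_neg (fun hh => h' (hm0.1 hh).1)]; simp
  · have hn : (Finsupp.single (1 : Fin 2) 1 : Fin 2 →₀ ℕ) ≤ m := by
      rw [Finsupp.single_le_iff]; omega
    have hm : ¬ m = 0 := fun hh => h (hm0.1 hh).2
    rw [if_pos hn, if_neg hm, coeff_H1, coeff_H1, e0, e1]
    obtain ⟨k, hk⟩ : ∃ k, m 1 = k + 1 := ⟨m 1 - 1, by omega⟩
    rw [hk]
    by_cases h' : m 0 = 0
    · rw [if_pos h', if_pos h']
      simp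
      ring
    · rw [if_neg h', if_neg h']
      simp

lemma GG_mul (b : ℚ) : GG b * (1 - monomial (dd 1) (b ^ 2)) = 1 := by
  classical
  ext m
  rw [mul_sub, mul_one, map_sub, coeff_mul_monomial, coeff_GG, coeff_GG, coeff_one]
  have hle : dd 1 ≤ m ↔ 1 ≤ m 0 ∧ 1 ≤ m 1 := by
    constructor
    · intro h
      have h0 := h 0
      have h1 := h 1
      rw [dd_apply0] at h0
      rw [dd_apply1] at h1
      exact ⟨h0, h1⟩
    · rintro ⟨h0, h1⟩ i
      fin_cases i
      · show dd 1 0 ≤ m 0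
        rw [dd_apply0]; exact h0
      · show dd 1 1 ≤ m 1
        rw [dd_apply1]; exact h1
  have hm0 : m = 0 ↔ m 0 = 0 ∧ m 1 = 0 := by
    constructor
    · rintro rfl; simp
    · rintro ⟨h0, h1⟩
      ext i
      fin_cases i
      · exact h0
      · exact h1
  simp only [Finsupp.tsub_apply, dd_apply0, dd_apply1]
  by_cases h : m 0 = m 1
  · rcases Nat.eq_zero_or_pos (m 0) with h0 | h0
    · rw [if_pos h, if_neg (by rw [hle]; omega), if_pos (hm0.2 ⟨h0, by omega⟩), h0]
      have : m 1 = 0 := by omega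
      rw [this]; simp
    · rw [if_pos h, if_pos (hle.2 ⟨h0, by omega⟩), if_pos (by omega),
        if_neg (fun hh => by have := (hm0.1 hh).1; omega)]
      obtain ⟨k, hk⟩ : ∃ k, m 0 = k + 1 := ⟨m 0 - 1, by omega⟩
      rw [← h, hk]
      simp
      ring
  · have hm : ¬ m = 0 := fun hh => h (by rw [(hm0.1 hh).1, (hm0.1 hh).2])
    rw [if_neg h, if_neg hm]
    split_ifs with h1 h2
    · exfalso
      rw [hle] at h1
      omega
    · simp
    · simp

/-- For every F ∈ ℚ⟦x⟧ with all coefficients ≥ 0 that is algebraic over ℚ[x] (nonzero p ∈ ℚ[x][T] with p(F)=0), there is a bivariate rational power series R = P/Q (Q(0)≠0) with all Taylor coefficients ≥ 0 whose diagonal coefficients [x^n y^n]R equal [x^n]F. -/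
theorem result :
    ∀ F : PowerSeries ℚ,
      (∀ n : ℕ, 0 ≤ PowerSeries.coeff n F) →
      (∃ p : Polynomial (Polynomial ℚ), p ≠ 0 ∧
          Polynomial.eval₂ Polynomial.coeToPowerSeries.ringHom F p = 0) →
      ∃ R : MvPowerSeries (Fin 2) ℚ,
        (∃ P Q : MvPolynomial (Fin 2) ℚ,
            MvPolynomial.constantCoeff Q ≠ 0 ∧
            R * (Q : MvPowerSeries (Fin 2) ℚ) = (P : MvPowerSeries (Fin 2) ℚ)) ∧
        (∀ m : Fin 2 →₀ ℕ, 0 ≤ MvPowerSeries.coeff m R) ∧
        (∀ n : ℕ, MvPowerSeries.coeff (Finsupp.single 0 n + Finsupp.single 1 n) R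
            = PowerSeries.coeff n F) := by
  intro F hF halg
  obtain ⟨R0, ⟨P, Q, hQ0, hR0⟩, hdiag⟩ := core F halg
  obtain ⟨K, b, hK, hbound⟩ := growth R0 P Q hQ0 hR0
  set px : MvPolynomial (Fin 2) ℚ := 1 - MvPolynomial.monomial (Finsupp.single 0 1) b with hpx
  set py : MvPolynomial (Fin 2) ℚ := 1 - MvPolynomial.monomial (Finsupp.single 1 1) b with hpy
  set pz : MvPolynomial (Fin 2) ℚ := 1 - MvPolynomial.monomial (dd 1) (b ^ 2) with hpz
  have hpx' : (px : S) = 1 - monomial (Finsupp.single 0 1) b := by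
    rw [hpx, coe_sub', MvPolynomial.coe_one, MvPolynomial.coe_monomial]
  have hpy' : (py : S) = 1 - monomial (Finsupp.single 1 1) b := by
    rw [hpy, coe_sub', MvPolynomial.coe_one, MvPolynomial.coe_monomial]
  have hpz' : (pz : S) = 1 - monomial (dd 1) (b ^ 2) := by
    rw [hpz, coe_sub', MvPolynomial.coe_one, MvPolynomial.coe_monomial]
  have hHH : HH b * ((px : S) * (py : S)) = 1 := by
    rw [← mul_assoc, hpx', hpy', HH_mul, H1_mul]
  have hGG : GG b * (pz : S) = 1 := by rw [hpz', GG_mul]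
  refine ⟨R0 + MvPowerSeries.C K * (HH b - GG b), ⟨P * (px * py * pz) +
    MvPolynomial.C K * Q * (pz - px * py), Q * (px * py * pz), ?_, ?_⟩, ?_, ?_⟩
  · rw [map_mul, map_mul, map_mul]
    classical
    have e0 : ¬ (Finsupp.single (0 : Fin 2) 1 : Fin 2 →₀ ℕ) = 0 := by
      rw [Finsupp.single_eq_zero]; exact one_ne_zero
    have e1 : ¬ (Finsupp.single (1 : Fin 2) 1 : Fin 2 →₀ ℕ) = 0 := by
      rw [Finsupp.single_eq_zero]; exact one_ne_zero
    have e2 : ¬ dd 1 = 0 := by
      intro h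
      have h2 := congrArg (fun f => f 0) h
      simp [dd_apply0] at h2
    have h1 : MvPolynomial.constantCoeff px = 1 := by
      rw [hpx, map_sub, map_one, MvPolynomial.constantCoeff_monomial, if_neg e0, sub_zero]
    have h2 : MvPolynomial.constantCoeff py = 1 := by
      rw [hpy, map_sub, map_one, MvPolynomial.constantCoeff_monomial, if_neg e1, sub_zero]
    have h3 : MvPolynomial.constantCoeff pz = 1 := by
      rw [hpz, map_sub, map_one, MvPolynomial.constantCoeff_monomial, if_neg e2, sub_zero]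
    rw [h1, h2, h3]
    simpa using hQ0
  · simp only [MvPolynomial.coe_mul, MvPolynomial.coe_add, MvPolynomial.coe_C]
    have hsub : ((pz - px * py : MvPolynomial (Fin 2) ℚ) : S) = (pz : S) - (px : S) * (py : S) := by
      have := map_sub (MvPolynomial.coeToMvPowerSeries.ringHom (σ := Fin 2) (R := ℚ)) pz (px * py)
      simpa using this
    rw [hsub]
    calc (R0 + C K * (HH b - GG b)) * ((Q : S) * ((px : S) * (py : S) * (pz : S)))
        = (R0 * (Q : S)) * ((px : S) * (py : S) * (pz : S)) +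
          C K * (Q : S) * ((HH b * ((px : S) * (py : S))) * (pz : S)
            - (GG b * (pz : S)) * ((px : S) * (py : S))) := by ring
      _ = _ := by rw [hR0, hHH, hGG]; ring
  · intro m
    rw [map_add, coeff_C_mul, map_sub, coeff_HH, coeff_GG]
    by_cases h : m 0 = m 1
    · rw [if_pos h, sub_self, mul_zero, add_zero]
      have hm : m = dd (m 0) := (eq_dd_iff m _).2 ⟨rfl, h.symm⟩
      rw [hm, hdiag]
      exact hF _
    · rw [if_neg h, sub_zero]
      have := (abs_le.1 (hbound m)).1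
      linarith
  · intro n
    have h1 := hdiag n
    show coeff (dd n) (R0 + C K * (HH b - GG b)) = _
    rw [map_add, coeff_C_mul, map_sub, coeff_HH, coeff_GG, dd_apply0, dd_apply1, if_pos rfl,
      sub_self, mul_zero, add_zero, h1]

end Pool.Agent.S05635
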