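import Pool.Statements.S05715
-- import your own Pool.Agent.* helpers here

set_option autoImplicit false
open Pool Pool.MP_44d0b1_co

namespace Pool.Agent.S05715

open Finset

/-- Boolean functions in n variables. -/
abbrev BF (n : ℕ) := (Fin n → ZMod 2) → ZMod 2

/-- Monomial of a set of variables. -/
def mono {n : ℕ} (S : Finset (Fin n)) : BF n := fun x => ∏ i ∈ S, x i

/-- Reed-Muller code. -/
def RM (n k : ℕ) : Submodule (ZMod 2) (BF n) :=
  Submodule.span (ZMod 2) (mono '' {S | S.card ≤ k})

lemma mono_mem {n k : ℕ} {S : Finset (Fin n)} (h : S.card ≤ k) : mono S ∈ RM n k :=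
  Submodule.subset_span ⟨S, h, rfl⟩

lemma RM_mono {n k l : ℕ} (h : k ≤ l) : RM n k ≤ RM n l :=
  Submodule.span_mono (Set.image_mono (fun S hS => le_trans hS h))

lemma mem_RM_iff {n k : ℕ} (f : BF n) :
    f ∈ RM n k ↔ ∃ a : Finset (Fin n) → ZMod 2, ∀ x : Fin n → ZMod 2,
            f x = ∑ S ∈ (Finset.univ : Finset (Finset (Fin n))).filter (fun S => S.card ≤ k),
              a S * ∏ i ∈ S, x i := by
  have hset : ({S | S.card ≤ k} : Set (Finset (Fin n))) =
      ((Finset.univ : Finset (Finset (Fin n))).filter (fun S => S.card ≤ k) : Finset _) := by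
    ext S; simp
  rw [RM, hset, Submodule.mem_span_image_finset_iff_exists_fun']
  constructor
  · rintro ⟨c, hc⟩
    refine ⟨c, fun x => ?_⟩
    rw [← hc]
    simp [mono, Finset.sum_apply]
  · rintro ⟨c, hc⟩
    refine ⟨c, ?_⟩
    funext x
    rw [hc x]
    simp [mono, Finset.sum_apply]

lemma z2_idem (a : ZMod 2) : a * a = a := by revert a; decide

lemma z2_add_self (a : ZMod 2) : a + a = 0 := by revert a; decide

lemma mono_insert {n : ℕ} (j : Fin n) (T : Finset (Fin n)) (x : Fin n → ZMod 2) :
    mono (insert j T) x = x j * mono T x := by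
  by_cases h : j ∈ T
  · rw [Finset.insert_eq_of_mem h]
    unfold mono
    rw [← Finset.mul_prod_erase T x h, ← mul_assoc, z2_idem]
  · unfold mono
    rw [Finset.prod_insert h]

lemma mono_mul {n : ℕ} (S T : Finset (Fin n)) : mono S * mono T = mono (S ∪ T) := by
  induction S using Finset.induction_on with
  | empty => funext x; simp [mono]
  | insert a S ha ih =>
    funext x
    rw [Pi.mul_apply, mono_insert, Finset.insert_union, mono_insert, ← ih, Pi.mul_apply]
    ring

lemma mul_mem' {n a b : ℕ} {f g : BF n} (hf : f ∈ RM n a) (hg : g ∈ RM n b) :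
    f * g ∈ RM n (a + b) := by
  unfold RM at hf hg
  induction hf using Submodule.span_induction with
  | mem f hf =>
    obtain ⟨S, hS, rfl⟩ := hf
    induction hg using Submodule.span_induction with
    | mem g hg =>
      obtain ⟨T, hT, rfl⟩ := hg
      rw [mono_mul]
      exact mono_mem (le_trans (Finset.card_union_le S T) (add_le_add hS hT))
    | zero => rw [mul_zero]; exact Submodule.zero_mem _
    | add x y _ _ hx hy => rw [mul_add]; exact Submodule.add_mem _ hx hy
    | smul c x _ hx => rw [mul_smul_comm]; exact Submodule.smul_mem _ _ hx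
  | zero => rw [zero_mul]; exact Submodule.zero_mem _
  | add x y _ _ hx hy => rw [add_mul]; exact Submodule.add_mem _ hx hy
  | smul c x _ hx => rw [smul_mul_assoc]; exact Submodule.smul_mem _ _ hx

lemma const_mem {n k : ℕ} (c : ZMod 2) : (fun _ => c : BF n) ∈ RM n k := by
  have h : (fun _ => c : BF n) = c • mono (∅ : Finset (Fin n)) := by
    funext x; simp [mono]
  rw [h]
  exact Submodule.smul_mem _ _ (mono_mem (by simp))

lemma coord_mem {n k : ℕ} (i : Fin n) : (fun x => x i : BF n) ∈ RM n (k + 1) := by
  have h : (fun x => x i : BF n) = mono ({i} : Finset (Fin n)) := by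
    funext x; simp [mono]
  rw [h]
  exact mono_mem (by simp)

lemma prod_mem' {n : ℕ} {ι : Type*} [DecidableEq ι] (s : Finset ι) (f : ι → BF n)
    (h : ∀ i ∈ s, f i ∈ RM n 1) : ∏ i ∈ s, f i ∈ RM n s.card := by
  induction s using Finset.induction_on with
  | empty =>
    rw [Finset.prod_empty]
    exact const_mem 1
  | insert a s ha ih =>
    rw [Finset.prod_insert ha, Finset.card_insert_of_notMem ha, add_comm]
    exact mul_mem' (h a (Finset.mem_insert_self a s))
      (ih (fun i hi => h i (Finset.mem_insert_of_mem hi)))

lemma comp_mem {n m k : ℕ} (σ : (Fin m → ZMod 2) → (Fin n → ZMod 2))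
    (hσ : ∀ i, (fun x => σ x i : BF m) ∈ RM m 1) {f : BF n} (hf : f ∈ RM n k) :
    (fun x => f (σ x) : BF m) ∈ RM m k := by
  have h : RM n k ≤ (RM m k).comap (LinearMap.funLeft (ZMod 2) (ZMod 2) σ) := by
    unfold RM
    rw [Submodule.span_le]
    rintro _ ⟨S, hS, rfl⟩
    change (fun x => mono S (σ x) : BF m) ∈ RM m k
    have : (fun x => mono S (σ x) : BF m) = ∏ i ∈ S, (fun x => σ x i : BF m) := by
      funext x
      simp [mono, Finset.prod_apply]
    rw [this]
    exact RM_mono hS (prod_mem' S _ (fun i _ => hσ i))
  exact h hf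

/-- every function is a polynomial function of degree at most n -/
lemma RM_top (n : ℕ) (f : BF n) : f ∈ RM n n := by
  have hdelta : ∀ y : Fin n → ZMod 2, (fun x => if x = y then 1 else 0 : BF n) ∈ RM n n := by
    intro y
    have : (fun x => if x = y then 1 else 0 : BF n) =
        ∏ i ∈ (Finset.univ : Finset (Fin n)), ((fun x => x i : BF n) + (fun _ => y i + 1)) := by
      funext x
      rw [Finset.prod_apply]
      have h1 : ∀ a b : ZMod 2, a + (b + 1) = if a = b then 1 else 0 := by decide
      simp only [Pi.add_apply, h1]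
      rw [Finset.prod_ite_zero]
      simp [funext_iff]
    rw [this]
    have := prod_mem' (Finset.univ : Finset (Fin n))
      (fun i => (fun x => x i : BF n) + (fun _ => y i + 1))
      (fun i _ => Submodule.add_mem _ (coord_mem (k := 0) i) (const_mem _))
    simpa using this
  have hf : f = ∑ y : Fin n → ZMod 2, f y • (fun x => if x = y then 1 else 0 : BF n) := by
    funext x
    simp [Finset.sum_apply]
  rw [hf]
  exact Submodule.sum_mem _ (fun y _ => Submodule.smul_mem _ _ (hdelta y))

lemma RM_all {n k : ℕ} (h : n ≤ k) (f : BF n) : f ∈ RM n k := RM_mono h (RM_top n f)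

lemma RM_parity {n k : ℕ} (h : k < n) {f : BF n} (hf : f ∈ RM n k) : ∑ x, f x = 0 := by
  unfold RM at hf
  induction hf using Submodule.span_induction with
  | mem f hf =>
    obtain ⟨S, hS, rfl⟩ := hf
    have hS' : S.card ≤ k := hS
    obtain ⟨i, hi⟩ : ∃ i, i ∉ S := by
      by_contra hcon
      push Not at hcon
      have : S = Finset.univ := Finset.eq_univ_iff_forall.2 hcon
      rw [this, Finset.card_univ, Fintype.card_fin] at hS'
      omega
    apply Finset.sum_involution (fun x _ => Function.update x i (x i + 1))
    · intro x _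
      have : mono S (Function.update x i (x i + 1)) = mono S x := by
        unfold mono
        rw [Finset.prod_update_of_notMem hi]
      rw [this, z2_add_self]
    · intro x _ _ hx
      have h5 : Function.update x i (x i + 1) = x := hx
      have := congrFun h5 i
      simp at this
    · intro x _
      have : ∀ a : ZMod 2, a + 1 + 1 = a := by decide
      simp [this]
    · intro x _
      exact Finset.mem_univ (Function.update x i (x i + 1))
  | zero => simp
  | add x y _ _ hx hy =>
    simp only [Pi.add_apply, Finset.sum_add_distrib, hx, hy, add_zero]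
  | smul c x _ hx =>
    simp only [Pi.smul_apply, ← Finset.smul_sum, hx, smul_zero]

/-- distance from a point to a set of functions -/
noncomputable def dd {n : ℕ} (z : BF n) (A : Set (BF n)) : ℕ :=
  sInf ((fun f => hammingDist z f) '' A)

lemma dd_le {n : ℕ} {z : BF n} {A : Set (BF n)} {a : BF n} (h : a ∈ A) :
    dd z A ≤ hammingDist z a := Nat.sInf_le ⟨a, h, rfl⟩

lemma dd_att {n : ℕ} (z : BF n) {A : Set (BF n)} (h : A.Nonempty) :
    ∃ a ∈ A, dd z A = hammingDist z a := by
  have := Nat.sInf_mem (Set.Nonempty.image (fun f => hammingDist z f) h)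
  obtain ⟨a, ha, hae⟩ := this
  exact ⟨a, ha, hae.symm⟩

/-- covering radius of the Reed-Muller code -/
noncomputable def cr (n k : ℕ) : ℕ :=
  (Finset.univ : Finset (BF n)).sup (fun z => dd z (RM n k : Set (BF n)))

lemma dd_le_cr {n k : ℕ} (z : BF n) : dd z (RM n k : Set (BF n)) ≤ cr n k :=
  Finset.le_sup (f := fun z => dd z (RM n k : Set (BF n))) (Finset.mem_univ z)

lemma cr_att (n k : ℕ) : ∃ z : BF n, dd z (RM n k : Set (BF n)) = cr n k := by
  obtain ⟨z, _, hz⟩ := Finset.exists_mem_eq_sup (Finset.univ : Finset (BF n))
    ⟨0, Finset.mem_univ _⟩ (fun z => dd z (RM n k : Set (BF n)))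
  exact ⟨z, hz.symm⟩

lemma RM_ne {n k : ℕ} : (RM n k : Set (BF n)).Nonempty := ⟨0, Submodule.zero_mem _⟩

lemma exists_close {n k : ℕ} (z : BF n) : ∃ a ∈ RM n k, hammingDist z a ≤ cr n k := by
  obtain ⟨a, ha, hae⟩ := dd_att z (RM_ne (n := n) (k := k))
  exact ⟨a, ha, hae ▸ dd_le_cr z⟩

lemma hd_sum {ι : Type*} [Fintype ι] (f g : ι → ZMod 2) :
    hammingDist f g = ∑ x, if f x ≠ g x then 1 else 0 := by
  unfold hammingDist
  rw [Finset.card_filter]

lemma hd_add {ι : Type*} [Fintype ι] (f g h : ι → ZMod 2) :
    hammingDist (f + h) g = hammingDist f (g + h) := by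
  rw [hd_sum, hd_sum]
  apply Finset.sum_congr rfl
  intro x _
  have : ∀ a b c : ZMod 2, (a + c ≠ b) ↔ (a ≠ b + c) := by decide
  simp only [Pi.add_apply, this]

lemma hd_comp {ι : Type*} [Fintype ι] (σ : Equiv.Perm ι) (f g : ι → ZMod 2) :
    hammingDist (fun x => f (σ x)) (fun x => g (σ x)) = hammingDist f g := by
  rw [hd_sum, hd_sum]
  exact Equiv.sum_comp σ (fun x => if f x ≠ g x then 1 else 0)

lemma hd_split {n : ℕ} (f g : BF (n + 1)) :
    hammingDist f g =
      hammingDist (fun y : Fin n → ZMod 2 => f (Fin.cons 0 y)) (fun y => g (Fin.cons 0 y)) +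
      hammingDist (fun y : Fin n → ZMod 2 => f (Fin.cons 1 y)) (fun y => g (Fin.cons 1 y)) := by
  rw [hd_sum, hd_sum, hd_sum]
  rw [← Equiv.sum_comp (Fin.consEquiv (fun _ => ZMod 2)), Fintype.sum_prod_type]
  exact Fin.sum_univ_two _

lemma cr_lower {n k : ℕ} : 2 * cr n k ≤ cr (n + 1) k := by
  obtain ⟨z, hz⟩ := cr_att n k
  let z' : BF (n + 1) := fun x => z (Fin.tail x)
  obtain ⟨a, ha, hae⟩ := exists_close (k := k) z'
  refine le_trans ?_ hae
  rw [hd_split]
  have h0 : ∀ c : ZMod 2, cr n k ≤
      hammingDist (fun y : Fin n → ZMod 2 => z' (Fin.cons c y)) (fun y => a (Fin.cons c y)) := by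
    intro c
    have hmem : (fun y => a (Fin.cons c y) : BF n) ∈ RM n k := by
      apply comp_mem (fun y => Fin.cons c y) _ ha
      intro i
      refine Fin.cases ?_ (fun j => ?_) i
      · simpa using const_mem c
      · simpa using coord_mem (k := 0) j
    have : (fun y : Fin n → ZMod 2 => z' (Fin.cons c y)) = z := by
      funext y
      simp [z']
    rw [this, ← hz]
    exact dd_le hmem
  have := h0 0
  have := h0 1
  omega

lemma cr_upper {n k : ℕ} : cr (n + 1) (k + 1) ≤ cr n k + cr n (k + 1) := by
  obtain ⟨z, hz⟩ := cr_att (n + 1) (k + 1)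
  obtain ⟨u, hu, hud⟩ := exists_close (k := k + 1) (fun y => z (Fin.cons 0 y) : BF n)
  obtain ⟨v, hv, hvd⟩ := exists_close (k := k) ((fun y => z (Fin.cons 1 y) : BF n) + u)
  let c : BF (n + 1) := (fun x => u (Fin.tail x)) + (fun x => x 0) * (fun x => v (Fin.tail x))
  have htail : ∀ i, (fun x => (Fin.tail x : Fin n → ZMod 2) i : BF (n + 1)) ∈ RM (n + 1) 1 := by
    intro i
    exact coord_mem (k := 0) i.succ
  have hc : c ∈ RM (n + 1) (k + 1) := by
    apply Submodule.add_mem
    · exact comp_mem (fun x => Fin.tail x) htail hu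
    · rw [add_comm k 1]
      exact mul_mem' (coord_mem (k := 0) 0) (comp_mem (fun x => Fin.tail x) htail hv)
  rw [← hz]
  refine le_trans (dd_le hc) ?_
  rw [hd_split]
  have h0 : (fun y : Fin n → ZMod 2 => c (Fin.cons 0 y)) = u := by
    funext y
    simp [c]
  have h1 : (fun y : Fin n → ZMod 2 => c (Fin.cons 1 y)) = v + u := by
    funext y
    simp [c, add_comm]
  rw [h0, h1, ← hd_add]
  omega

lemma cr_strict : ∀ n k : ℕ, k + 1 ≤ n → cr n (k + 1) < cr n k := by
  intro n
  induction n with
  | zero => intro k hk; omega
  | succ n ih =>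
    intro k hk
    rcases Nat.lt_or_ge k n with h | h
    · have h1 := ih k h
      have h2 := cr_upper (n := n) (k := k)
      have h3 := cr_lower (n := n) (k := k)
      omega
    · have hkn : k = n := by omega
      subst hkn
      have h1 : cr (k + 1) (k + 1) = 0 := by
        obtain ⟨z, hz⟩ := cr_att (k + 1) (k + 1)
        have := dd_le (z := z) (A := (RM (k + 1) (k + 1) : Set (BF (k + 1)))) (RM_top (k + 1) z)
        rw [hammingDist_self] at this
        omega
      rw [h1, Nat.pos_iff_ne_zero]
      intro h2
      obtain ⟨a, ha, hae⟩ := exists_close (k := k) (fun x => if x = 0 then 1 else 0 : BF (k + 1))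
      rw [h2, Nat.le_zero, hammingDist_eq_zero] at hae
      have h3 := RM_parity (Nat.lt_succ_self k) ha
      rw [← hae] at h3
      simp at h3

/-- the shift operator -/
lemma shift_mono {n : ℕ} (S : Finset (Fin n)) (i : Fin n) (x : Fin n → ZMod 2) :
    mono S (Function.update x i (x i + 1)) + mono S x =
      if i ∈ S then mono (S.erase i) x else 0 := by
  split_ifs with h
  · unfold mono
    rw [← Finset.mul_prod_erase S x h, ← Finset.mul_prod_erase S _ h,
      Finset.prod_update_of_notMem (Finset.notMem_erase i S)]
    simp only [Function.update_self]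
    have : ∀ a b : ZMod 2, (a + 1) * b + a * b = b := by decide
    exact this _ _
  · have : mono S (Function.update x i (x i + 1)) = mono S x := by
      unfold mono
      rw [Finset.prod_update_of_notMem h]
    rw [this, z2_add_self]

lemma trans_mono {n : ℕ} (S : Finset (Fin n)) (i j : Fin n) (x : Fin n → ZMod 2) :
    mono S (Function.update x i (x i + x j)) + mono S x =
      if i ∈ S then mono (insert j (S.erase i)) x else 0 := by
  split_ifs with h
  · rw [mono_insert]
    unfold mono
    rw [← Finset.mul_prod_erase S x h, ← Finset.mul_prod_erase S _ h,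
      Finset.prod_update_of_notMem (Finset.notMem_erase i S)]
    simp only [Function.update_self]
    have : ∀ a b c : ZMod 2, (a + c) * b + a * b = c * b := by decide
    exact this _ _ _
  · have : mono S (Function.update x i (x i + x j)) = mono S x := by
      unfold mono
      rw [Finset.prod_update_of_notMem h]
    rw [this, z2_add_self]

/-- sum of monomials -/
def msum {n : ℕ} (A : Finset (Finset (Fin n))) : BF n := ∑ S ∈ A, mono S

lemma msum_mem {n k : ℕ} (A : Finset (Finset (Fin n))) (h : ∀ S ∈ A, S.card ≤ k) :
    msum A ∈ RM n k := Submodule.sum_mem _ (fun S hS => mono_mem (h S hS))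

lemma exists_msum {n : ℕ} (f : BF n) : ∃ A : Finset (Finset (Fin n)), f = msum A := by
  obtain ⟨a, ha⟩ := (mem_RM_iff f).1 (RM_top n f)
  refine ⟨(Finset.univ.filter (fun S : Finset (Fin n) => S.card ≤ n)).filter (fun S => a S = 1), ?_⟩
  funext x
  rw [ha x]
  unfold msum
  rw [Finset.sum_apply, Finset.sum_filter (p := fun S => a S = 1)]
  apply Finset.sum_congr rfl
  intro S _
  have : ∀ c d : ZMod 2, c * d = if c = 1 then d else 0 := by decide
  exact this _ _

section Alg

variable {n k : ℕ} (P : Submodule (ZMod 2) (BF n))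
  (hRM : RM n k ≤ P)
  (hshift : ∀ f ∈ P, ∀ i : Fin n, (fun x => f (Function.update x i (x i + 1))) ∈ P)
  (htrans : ∀ f ∈ P, ∀ i j : Fin n, i ≠ j → (fun x => f (Function.update x i (x i + x j))) ∈ P)

include hshift in
lemma descend : ∀ (d : ℕ) (A : Finset (Finset (Fin n))) (T : Finset (Fin n)),
    msum A ∈ P → T ∈ A → (∀ S ∈ A, S.card ≤ T.card) → T.card = k + 1 + d →
    ∃ (A' : Finset (Finset (Fin n))) (T' : Finset (Fin n)), msum A' ∈ P ∧ T' ∈ A' ∧
      (∀ S ∈ A', S.card ≤ k + 1) ∧ T'.card = k + 1 := by
  intro d
  induction d with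
  | zero =>
    intro A T hA hT hmax hc
    exact ⟨A, T, hA, hT, fun S hS => by have := hmax S hS; omega, by omega⟩
  | succ d ih =>
    intro A T hA hT hmax hc
    obtain ⟨i, hi⟩ : T.Nonempty := by
      rw [← Finset.card_pos]; omega
    have h1 : (fun x => msum A (Function.update x i (x i + 1))) + msum A ∈ P :=
      Submodule.add_mem _ (hshift _ hA i) hA
    have h2 : (fun x => msum A (Function.update x i (x i + 1))) + msum A =
        msum ((A.filter (fun S => i ∈ S)).image (fun S => S.erase i)) := by
      funext x
      unfold msum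
      rw [Finset.sum_image]
      · simp only [Pi.add_apply, Finset.sum_apply]
        rw [← Finset.sum_add_distrib, Finset.sum_filter]
        apply Finset.sum_congr rfl
        intro S _
        exact shift_mono S i x
      · intro S hS S' hS' hSS
        have h3 : i ∈ S := (Finset.mem_filter.1 (Finset.mem_coe.1 hS)).2
        have h4 : i ∈ S' := (Finset.mem_filter.1 (Finset.mem_coe.1 hS')).2
        have hSS' : S.erase i = S'.erase i := hSS
        rw [← Finset.insert_erase h3, hSS', Finset.insert_erase h4]
    rw [h2] at h1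
    apply ih _ (T.erase i) h1
    · exact Finset.mem_image.2 ⟨T, Finset.mem_filter.2 ⟨hT, hi⟩, rfl⟩
    · intro S hS
      obtain ⟨S', hS', rfl⟩ := Finset.mem_image.1 hS
      obtain ⟨hS'A, hiS'⟩ := Finset.mem_filter.1 hS'
      rw [Finset.card_erase_of_mem hi, Finset.card_erase_of_mem hiS']
      have := hmax S' hS'A
      omega
    · rw [Finset.card_erase_of_mem hi]
      omega

include hRM htrans in
lemma isolate : ∀ (N : ℕ) (A : Finset (Finset (Fin n))) (T : Finset (Fin n)),
    (A.filter (fun S => S.card = k + 1)).card ≤ N → msum A ∈ P → T ∈ A →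
    (∀ S ∈ A, S.card ≤ k + 1) → T.card = k + 1 → mono T ∈ P := by
  intro N
  induction N with
  | zero =>
    intro A T hN hA hT hmax hc
    exfalso
    have : T ∈ A.filter (fun S => S.card = k + 1) := Finset.mem_filter.2 ⟨hT, hc⟩
    rw [Nat.le_zero, Finset.card_eq_zero] at hN
    rw [hN] at this
    simp at this
  | succ N ih =>
    intro A T hN hA hT hmax hc
    by_cases hex : ∃ T' ∈ A, T'.card = k + 1 ∧ T' ≠ T
    · obtain ⟨T', hT', hc', hne⟩ := hex
      -- i in T not in T', j in T' not in T
      have hi : ∃ i ∈ T, i ∉ T' := by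
        by_contra hcon
        push Not at hcon
        exact hne (Finset.eq_of_subset_of_card_le hcon (by omega)).symm
      have hj : ∃ j ∈ T', j ∉ T := by
        by_contra hcon
        push Not at hcon
        exact hne (Finset.eq_of_subset_of_card_le hcon (by omega))
      obtain ⟨i, hiT, hiT'⟩ := hi
      obtain ⟨j, hjT', hjT⟩ := hj
      have hij : i ≠ j := fun h => hjT (h ▸ hiT)
      -- apply Q_ij then Q_ji
      set g1 : BF n := (fun x => msum A (Function.update x i (x i + x j))) + msum A with hg1
      have hg1P : g1 ∈ P := Submodule.add_mem _ (htrans _ hA i j hij) hA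
      set g2 : BF n := (fun x => g1 (Function.update x j (x j + x i))) + g1 with hg2
      have hg2P : g2 ∈ P := Submodule.add_mem _ (htrans _ hg1P j i hij.symm) hg1P
      have hg1e : g1 = ∑ S ∈ A, if i ∈ S then mono (insert j (S.erase i)) else 0 := by
        funext x
        rw [hg1]
        unfold msum
        simp only [Pi.add_apply, Finset.sum_apply]
        rw [← Finset.sum_add_distrib]
        apply Finset.sum_congr rfl
        intro S _
        rw [trans_mono]
        split_ifs <;> rfl
      have hg2e : g2 = ∑ S ∈ A, if i ∈ S then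
          mono (insert i ((insert j (S.erase i)).erase j)) else 0 := by
        funext x
        rw [hg2, hg1e]
        simp only [Pi.add_apply, Finset.sum_apply]
        rw [← Finset.sum_add_distrib]
        apply Finset.sum_congr rfl
        intro S _
        split_ifs with h
        · rw [trans_mono, if_pos (Finset.mem_insert_self _ _)]
        · simp
      have hsplit : g2 = msum (A.filter (fun S => i ∈ S ∧ j ∉ S)) +
          ∑ S ∈ A.filter (fun S => i ∈ S ∧ j ∈ S), mono (S.erase j) := by
        rw [hg2e]
        unfold msum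
        rw [Finset.sum_filter, Finset.sum_filter, ← Finset.sum_add_distrib]
        apply Finset.sum_congr rfl
        intro S _
        by_cases h1 : i ∈ S
        · by_cases h2 : j ∈ S
          · simp only [h1, h2, not_true, and_false, and_self, if_true, if_false, zero_add]
            congr 1
            ext a
            simp only [Finset.mem_insert, Finset.mem_erase]
            constructor
            · rintro (rfl | ⟨h3, (h4 | ⟨h5, h6⟩)⟩)
              · exact ⟨hij, h1⟩
              · exact absurd h4 h3
              · exact ⟨h3, h6⟩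
            · rintro ⟨h3, h4⟩
              by_cases h5 : a = i
              · exact Or.inl h5
              · exact Or.inr ⟨h3, Or.inr ⟨h5, h4⟩⟩
          · simp only [h1, h2, not_false_iff, and_true, and_false, if_true, if_false, add_zero]
            congr 1
            ext a
            simp only [Finset.mem_insert, Finset.mem_erase]
            constructor
            · rintro (rfl | ⟨h3, (h4 | ⟨h5, h6⟩)⟩)
              · exact h1
              · exact absurd h4 h3
              · exact h6
            · intro h4
              by_cases h5 : a = i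
              · exact Or.inl h5
              · exact Or.inr ⟨fun h => h2 (h ▸ h4), Or.inr ⟨h5, h4⟩⟩
        · simp [h1]
      have hlow : ∑ S ∈ A.filter (fun S => i ∈ S ∧ j ∈ S), mono (S.erase j) ∈ P := by
        apply hRM
        apply Submodule.sum_mem
        intro S hS
        obtain ⟨hSA, _, hjS⟩ := Finset.mem_filter.1 hS
        apply mono_mem
        rw [Finset.card_erase_of_mem hjS]
        have := hmax S hSA
        omega
      have hnew : msum (A.filter (fun S => i ∈ S ∧ j ∉ S)) ∈ P := by
        have : msum (A.filter (fun S => i ∈ S ∧ j ∉ S)) =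
            g2 - ∑ S ∈ A.filter (fun S => i ∈ S ∧ j ∈ S), mono (S.erase j) := by
          rw [hsplit]; abel
        rw [this]
        exact Submodule.sub_mem _ hg2P hlow
      apply ih (A.filter (fun S => i ∈ S ∧ j ∉ S)) T _ hnew
        (Finset.mem_filter.2 ⟨hT, hiT, hjT⟩)
        (fun S hS => hmax S (Finset.mem_filter.1 hS).1) hc
      have hlt : (A.filter (fun S => i ∈ S ∧ j ∉ S)).filter (fun S => S.card = k + 1) ⊂
          A.filter (fun S => S.card = k + 1) := by
        rw [Finset.ssubset_iff_subset_ne]
        constructor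
        · intro S hS
          obtain ⟨hS1, hS2⟩ := Finset.mem_filter.1 hS
          exact Finset.mem_filter.2 ⟨(Finset.mem_filter.1 hS1).1, hS2⟩
        · intro heq
          have : T' ∈ A.filter (fun S => S.card = k + 1) := Finset.mem_filter.2 ⟨hT', hc'⟩
          rw [← heq] at this
          exact hiT' (Finset.mem_filter.1 (Finset.mem_filter.1 this).1).2.1
      have := Finset.card_lt_card hlt
      omega
    · push Not at hex
      have : mono T = msum A - msum (A.erase T) := by
        unfold msum
        rw [← Finset.add_sum_erase A mono hT]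
        abel
      rw [this]
      apply Submodule.sub_mem _ hA
      apply hRM
      apply msum_mem
      intro S hS
      obtain ⟨hne, hSA⟩ := Finset.mem_erase.1 hS
      have h1 := hmax S hSA
      by_contra hcon
      exact hne (hex S hSA (by omega))

include htrans hRM in
lemma spread : ∀ (N : ℕ) (T T' : Finset (Fin n)), (T' \ T).card ≤ N → T.card = k + 1 →
    T'.card = k + 1 → mono T ∈ P → mono T' ∈ P := by
  intro N
  induction N with
  | zero =>
    intro T T' hN hT hT' hP
    rw [Nat.le_zero, Finset.card_eq_zero, Finset.sdiff_eq_empty_iff_subset] at hN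
    rw [Finset.eq_of_subset_of_card_le hN (by omega)]
    exact hP
  | succ N ih =>
    intro T T' hN hT hT' hP
    by_cases hTT : T' = T
    · rw [hTT]; exact hP
    · have hi : ∃ i ∈ T, i ∉ T' := by
        by_contra hcon
        push Not at hcon
        exact hTT (Finset.eq_of_subset_of_card_le hcon (by omega)).symm
      have hj : ∃ j ∈ T', j ∉ T := by
        by_contra hcon
        push Not at hcon
        exact hTT (Finset.eq_of_subset_of_card_le hcon (by omega))
      obtain ⟨i, hiT, hiT'⟩ := hi
      obtain ⟨j, hjT', hjT⟩ := hj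
      have hij : i ≠ j := fun h => hjT (h ▸ hiT)
      have h1 : mono (insert j (T.erase i)) ∈ P := by
        have : mono (insert j (T.erase i)) =
            (fun x => mono T (Function.update x i (x i + x j))) + mono T := by
          funext x
          rw [Pi.add_apply, trans_mono, if_pos hiT]
        rw [this]
        exact Submodule.add_mem _ (htrans _ hP i j hij) hP
      have hjT2 : j ∉ T.erase i := fun h => hjT (Finset.mem_of_mem_erase h)
      apply ih (insert j (T.erase i)) T' _ _ hT' h1
      · have hlt : T' \ insert j (T.erase i) ⊂ T' \ T := by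
          rw [Finset.ssubset_iff_subset_ne]
          constructor
          · intro a ha
            rw [Finset.mem_sdiff, Finset.mem_insert, Finset.mem_erase] at ha
            rw [Finset.mem_sdiff]
            refine ⟨ha.1, fun haT => ha.2 (Or.inr ⟨fun h => hiT' (h ▸ ha.1), haT⟩)⟩
          · intro heq
            have : j ∈ T' \ T := Finset.mem_sdiff.2 ⟨hjT', hjT⟩
            rw [← heq] at this
            exact (Finset.mem_sdiff.1 this).2 (Finset.mem_insert_self _ _)
        have := Finset.card_lt_card hlt
        omega
      · rw [Finset.card_insert_of_notMem hjT2, Finset.card_erase_of_mem hiT]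
        omega

include hRM hshift htrans in
lemma RM_succ_le (f : BF n) (hfP : f ∈ P) (hf : f ∉ RM n k) : RM n (k + 1) ≤ P := by
  obtain ⟨A, hA⟩ := exists_msum f
  have hAne : A.Nonempty := by
    rw [Finset.nonempty_iff_ne_empty]
    rintro rfl
    apply hf
    rw [hA]
    unfold msum
    rw [Finset.sum_empty]
    exact Submodule.zero_mem _
  obtain ⟨T, hT, hmax⟩ := Finset.exists_max_image A Finset.card hAne
  have hTk : k + 1 ≤ T.card := by
    by_contra hcon
    apply hf
    rw [hA]
    exact msum_mem A (fun S hS => by have := hmax S hS; omega)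
  obtain ⟨A', T', h1, h2, h3, h4⟩ := descend (k := k) P hshift (T.card - (k + 1)) A T
    (hA ▸ hfP) hT hmax (by omega)
  have h5 := isolate P hRM htrans _ A' T' le_rfl h1 h2 h3 h4
  unfold RM
  rw [Submodule.span_le]
  rintro _ ⟨S, hS, rfl⟩
  have hS' : S.card ≤ k + 1 := hS
  rcases Nat.lt_or_ge S.card (k + 1) with h | h
  · exact hRM (mono_mem (by omega))
  · exact spread P hRM htrans _ T' S le_rfl h4 (by omega) h5

end Alg

/-- functions at maximal distance from the code -/
def Bad (n k : ℕ) : Set (BF n) := {y | ∀ a ∈ RM n k, cr n k ≤ hammingDist y a}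

/-- translations preserving `Bad` -/
def Per (n k : ℕ) : Submodule (ZMod 2) (BF n) where
  carrier := {z | ∀ y ∈ Bad n k, z + y ∈ Bad n k}
  zero_mem' := by
    intro y hy
    rw [zero_add]; exact hy
  add_mem' := by
    intro a b ha hb y hy
    rw [add_assoc]
    exact ha _ (hb _ hy)
  smul_mem' := by
    intro c x hx y hy
    have hc : c = 0 ∨ c = 1 := by revert c; decide
    rcases hc with rfl | rfl
    · rw [zero_smul, zero_add]; exact hy
    · rw [one_smul]; exact hx y hy

lemma RM_le_Per (n k : ℕ) : RM n k ≤ Per n k := by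
  intro z hz y hy a ha
  rw [add_comm, hd_add]
  exact hy _ (Submodule.add_mem _ ha hz)

lemma Bad_comp {n k : ℕ} (σ : Equiv.Perm (Fin n → ZMod 2)) (hσ : ∀ x, σ (σ x) = x)
    (hσ1 : ∀ i, (fun x => σ x i : BF n) ∈ RM n 1) {y : BF n} (hy : y ∈ Bad n k) :
    (fun x => y (σ x)) ∈ Bad n k := by
  intro a ha
  have h1 := hy _ (comp_mem (fun x => σ x) hσ1 ha)
  rw [← hd_comp σ] at h1
  simpa only [hσ] using h1

lemma Per_comp {n k : ℕ} (σ : Equiv.Perm (Fin n → ZMod 2)) (hσ : ∀ x, σ (σ x) = x)
    (hσ1 : ∀ i, (fun x => σ x i : BF n) ∈ RM n 1) {z : BF n} (hz : z ∈ Per n k) :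
    (fun x => z (σ x)) ∈ Per n k := by
  intro y hy
  have h1 := Bad_comp σ hσ hσ1 (hz _ (Bad_comp σ hσ hσ1 hy))
  have h2 : (fun x => (z + fun x => y (σ x)) (σ x)) = (fun x => z (σ x)) + y := by
    funext x
    simp [hσ]
  rw [h2] at h1
  exact h1

lemma Per_eq {n k : ℕ} {f : BF n} (hf : f ∈ Per n k) : f ∈ RM n k := by
  by_contra hcon
  have hkn : k + 1 ≤ n := by
    by_contra h
    exact hcon (RM_all (by omega) f)
  have hle : RM n (k + 1) ≤ Per n k := by
    apply RM_succ_le (Per n k) (RM_le_Per n k) _ _ f hf hcon
    · intro g hg i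
      have hinv : Function.Involutive
          (fun x : Fin n → ZMod 2 => Function.update x i (x i + 1)) := by
        intro x
        have : ∀ a : ZMod 2, a + 1 + 1 = a := by decide
        simp [this]
      apply Per_comp (Function.Involutive.toPerm _ hinv) hinv _ hg
      intro j
      by_cases hj : j = i
      · subst hj
        have : (fun x => (Function.Involutive.toPerm _ hinv) x j : BF n) = (fun x => x j : BF n) + (fun _ => 1) := by
          funext x
          simp
        rw [this]
        exact Submodule.add_mem _ (coord_mem (k := 0) j) (const_mem 1)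
      · have : (fun x => (Function.Involutive.toPerm _ hinv) x j : BF n) = (fun x => x j : BF n) := by
          funext x
          simp [Function.update_of_ne hj]
        rw [this]
        exact coord_mem (k := 0) j
    · intro g hg i l hil
      have hinv : Function.Involutive
          (fun x : Fin n → ZMod 2 => Function.update x i (x i + x l)) := by
        intro x
        have : ∀ a b : ZMod 2, a + b + b = a := by decide
        simp [Function.update_of_ne hil.symm, this]
      apply Per_comp (Function.Involutive.toPerm _ hinv) hinv _ hg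
      intro j
      by_cases hj : j = i
      · subst hj
        have : (fun x => (Function.Involutive.toPerm _ hinv) x j : BF n) = (fun x => x j : BF n) + (fun x => x l) := by
          funext x
          simp
        rw [this]
        exact Submodule.add_mem _ (coord_mem (k := 0) j) (coord_mem (k := 0) l)
      · have : (fun x => (Function.Involutive.toPerm _ hinv) x j : BF n) = (fun x => x j : BF n) := by
          funext x
          simp [Function.update_of_ne hj]
        rw [this]
        exact coord_mem (k := 0) j
  -- contradiction with strict decrease of the covering radius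
  obtain ⟨g, hg⟩ := cr_att n k
  have hgB : g ∈ Bad n k := fun a ha => hg ▸ dd_le ha
  have h1 : cr n k ≤ cr n (k + 1) := by
    obtain ⟨c, hc, hcd⟩ := exists_close (k := k + 1) g
    refine le_trans ?_ hcd
    have h2 := hle hc g hgB 0 (Submodule.zero_mem _)
    rw [add_comm, hd_add, zero_add] at h2
    exact h2
  have h2 := cr_strict n k hkn
  omega

/-- For all n and k ≥ 2, let A be the Boolean functions in n variables of degree at most k and B the functions at maximal Hamming distance from A. Then the functions at maximal distance from B are exactly A. -/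
theorem result :
    ∀ n k : ℕ, 2 ≤ k →
      ∀ A : Set ((Fin n → ZMod 2) → ZMod 2),
        (∀ f, f ∈ A ↔ ∃ a : Finset (Fin n) → ZMod 2, ∀ x : Fin n → ZMod 2,
            f x = ∑ S ∈ (Finset.univ : Finset (Finset (Fin n))).filter (fun S => S.card ≤ k),
              a S * ∏ i ∈ S, x i) →
        ∀ B : Set ((Fin n → ZMod 2) → ZMod 2),
          (∀ y, y ∈ B ↔ ∀ z : (Fin n → ZMod 2) → ZMod 2,
              sInf ((fun f => hammingDist z f) '' A) ≤ sInf ((fun f => hammingDist y f) '' A)) →
          ∀ z : (Fin n → ZMod 2) → ZMod 2,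
            (∀ w : (Fin n → ZMod 2) → ZMod 2,
                sInf ((fun g => hammingDist w g) '' B) ≤ sInf ((fun g => hammingDist z g) '' B))
              ↔ z ∈ A := by
  intro n k _ A hA B hB z
  have hAe : A = (RM n k : Set (BF n)) := by
    ext f
    rw [hA f, SetLike.mem_coe, mem_RM_iff]
  subst hAe
  have hBe : B = Bad n k := by
    ext y
    rw [hB y]
    constructor
    · intro h a ha
      obtain ⟨z0, hz0⟩ := cr_att n k
      have h1 : dd z0 (RM n k : Set (BF n)) ≤ dd y (RM n k : Set (BF n)) := h z0
      rw [hz0] at h1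
      exact le_trans h1 (dd_le ha)
    · intro h z0
      obtain ⟨a, ha, hae⟩ := dd_att y (RM_ne (n := n) (k := k))
      change dd z0 (RM n k : Set (BF n)) ≤ dd y (RM n k : Set (BF n))
      rw [hae]
      exact le_trans (dd_le_cr z0) (h a ha)
  subst hBe
  change (∀ w, dd w (Bad n k) ≤ dd z (Bad n k)) ↔ _
  -- Bad is nonempty
  obtain ⟨g0, hg0⟩ := cr_att n k
  have hg0B : g0 ∈ Bad n k := fun a ha => hg0 ▸ dd_le ha
  have hne : (Bad n k).Nonempty := ⟨g0, hg0B⟩
  constructor
  · intro h
    have h0 : cr n k ≤ dd z (Bad n k) := by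
      refine le_trans ?_ (h 0)
      obtain ⟨g, hg, hge⟩ := dd_att (0 : BF n) hne
      rw [hge, hammingDist_comm]
      exact hg 0 (Submodule.zero_mem _)
    apply Per_eq
    intro g hg a ha
    rw [hd_add]
    refine le_trans h0 (dd_le ?_)
    rw [add_comm]
    intro b hb
    rw [hd_add]
    exact hg _ (Submodule.add_mem _ hb ha)
  · intro hz w
    have h1 : dd w (Bad n k) ≤ cr n k := by
      obtain ⟨a, ha, had⟩ := exists_close (k := k) (w + g0)
      rw [hd_add] at had
      refine le_trans (dd_le ?_) had
      intro b hb
      rw [add_comm a g0, hd_add]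
      exact hg0B _ (Submodule.add_mem _ hb ha)
    refine le_trans h1 ?_
    obtain ⟨g, hg, hge⟩ := dd_att z hne
    rw [hge, hammingDist_comm]
    exact hg z hz

end Pool.Agent.S05715
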