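import Pool.Statements.S05774
-- import your own Pool.Agent.* helpers here

set_option autoImplicit false
open Pool Pool.MP_48c19b_co

namespace Pool.Agent.S05774

/-- code of a subset of `Fin 4` -/
def code (S : Finset (Fin 4)) : ℕ := ∑ i ∈ S, 2 ^ (i : ℕ)

/-- the weights -/
def tab (S : Finset (Fin 4)) : ℕ :=
  match code S with
  | 0 => 39 | 1 => 39 | 2 => 12 | 3 => 6 | 4 => 39 | 5 => 14 | 6 => 3 | 7 => 1
  | 8 => 27 | 9 => 14 | 10 => 4 | 11 => 2 | 12 => 14 | 13 => 5 | 14 => 1 | _ => 0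

/-- swapped weights -/
def tab' (S : Finset (Fin 4)) : ℕ :=
  match code S with
  | 0 => 39 | 1 => 39 | 2 => 12 | 3 => 6 | 8 => 39 | 9 => 14 | 10 => 3 | 11 => 1
  | 4 => 27 | 5 => 14 | 6 => 4 | 7 => 2 | 12 => 14 | 13 => 5 | 14 => 1 | _ => 0

theorem tab_swap (S : Finset (Fin 4)) : tab (S.image (Equiv.swap 2 3)) = tab' S := by
  revert S; decide

theorem tab_mono (S T : Finset (Fin 4)) (h : T ⊆ S) : tab S ≤ tab T := by
  revert S T; decide

theorem sum16 (F : Finset (Fin 4) → ℝ) : ∑ S, F S =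
    F ∅ + F {0} + F {1} + F {0, 1} + F {2} + F {0, 2} + F {1, 2} + F {0, 1, 2}
    + F {3} + F {0, 3} + F {1, 3} + F {0, 1, 3} + F {2, 3} + F {0, 2, 3} + F {1, 2, 3}
    + F {0, 1, 2, 3} := by
  have h : (Finset.univ : Finset (Finset (Fin 4))) =
    {∅, {0}, {1}, {0, 1}, {2}, {0, 2}, {1, 2}, {0, 1, 2}, {3}, {0, 3}, {1, 3}, {0, 1, 3},
      {2, 3}, {0, 2, 3}, {1, 2, 3}, {0, 1, 2, 3}} := by decide
  rw [h]
  repeat rw [Finset.sum_insert (by decide)]
  rw [Finset.sum_singleton]
  ring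

theorem prodmem (y : Fin 4 → ℝ) (T : Finset (Fin 4)) :
    ∏ i ∈ T, y i = (if 0 ∈ T then y 0 else 1) * (if 1 ∈ T then y 1 else 1) *
      (if 2 ∈ T then y 2 else 1) * (if 3 ∈ T then y 3 else 1) := by
  rw [← Fin.prod_univ_four (fun i => if i ∈ T then y i else 1)]
  rw [Finset.prod_ite_mem]
  simp

theorem tab_0 : tab (∅ : Finset (Fin 4)) = 39 := by decide
theorem tab'_0 : tab' (∅ : Finset (Fin 4)) = 39 := by decide
theorem tab_1 : tab ({0} : Finset (Fin 4)) = 39 := by decide
theorem tab'_1 : tab' ({0} : Finset (Fin 4)) = 39 := by decide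
theorem tab_2 : tab ({1} : Finset (Fin 4)) = 12 := by decide
theorem tab'_2 : tab' ({1} : Finset (Fin 4)) = 12 := by decide
theorem tab_3 : tab ({0, 1} : Finset (Fin 4)) = 6 := by decide
theorem tab'_3 : tab' ({0, 1} : Finset (Fin 4)) = 6 := by decide
theorem tab_4 : tab ({2} : Finset (Fin 4)) = 39 := by decide
theorem tab'_4 : tab' ({2} : Finset (Fin 4)) = 27 := by decide
theorem tab_5 : tab ({0, 2} : Finset (Fin 4)) = 14 := by decide
theorem tab'_5 : tab' ({0, 2} : Finset (Fin 4)) = 14 := by decide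
theorem tab_6 : tab ({1, 2} : Finset (Fin 4)) = 3 := by decide
theorem tab'_6 : tab' ({1, 2} : Finset (Fin 4)) = 4 := by decide
theorem tab_7 : tab ({0, 1, 2} : Finset (Fin 4)) = 1 := by decide
theorem tab'_7 : tab' ({0, 1, 2} : Finset (Fin 4)) = 2 := by decide
theorem tab_8 : tab ({3} : Finset (Fin 4)) = 27 := by decide
theorem tab'_8 : tab' ({3} : Finset (Fin 4)) = 39 := by decide
theorem tab_9 : tab ({0, 3} : Finset (Fin 4)) = 14 := by decide
theorem tab'_9 : tab' ({0, 3} : Finset (Fin 4)) = 14 := by decide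
theorem tab_10 : tab ({1, 3} : Finset (Fin 4)) = 4 := by decide
theorem tab'_10 : tab' ({1, 3} : Finset (Fin 4)) = 3 := by decide
theorem tab_11 : tab ({0, 1, 3} : Finset (Fin 4)) = 2 := by decide
theorem tab'_11 : tab' ({0, 1, 3} : Finset (Fin 4)) = 1 := by decide
theorem tab_12 : tab ({2, 3} : Finset (Fin 4)) = 14 := by decide
theorem tab'_12 : tab' ({2, 3} : Finset (Fin 4)) = 14 := by decide
theorem tab_13 : tab ({0, 2, 3} : Finset (Fin 4)) = 5 := by decide
theorem tab'_13 : tab' ({0, 2, 3} : Finset (Fin 4)) = 5 := by decide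
theorem tab_14 : tab ({1, 2, 3} : Finset (Fin 4)) = 1 := by decide
theorem tab'_14 : tab' ({1, 2, 3} : Finset (Fin 4)) = 1 := by decide
theorem tab_15 : tab ({0, 1, 2, 3} : Finset (Fin 4)) = 0 := by decide
theorem tab'_15 : tab' ({0, 1, 2, 3} : Finset (Fin 4)) = 0 := by decide

/-- The negation of the preceding statement: For nonnegative subset weights that decrease under enlarging sets and whose multiaffine polynomial is Rayleigh at all positive points, adding the polynomial with variables g,h swapped keeps it Rayleigh for every pair e,f, with e,f,g,h all distinct. -/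
theorem result :
    ¬ (∀ (m : ℕ) (w : Finset (Fin m) → ℝ),
    (∀ S, 0 ≤ w S) →
    (∀ S T : Finset (Fin m), T ⊆ S → w S ≤ w T) →
    (∀ e f : Fin m, e ≠ f → ∀ y : Fin m → ℝ, (∀ i, 0 < y i) →
      0 ≤ (∑ S ∈ Finset.univ.filter (fun S : Finset (Fin m) => e ∈ S ∧ f ∉ S),
              w S * ∏ i ∈ S.erase e, y i) *
          (∑ S ∈ Finset.univ.filter (fun S : Finset (Fin m) => f ∈ S ∧ e ∉ S),
              w S * ∏ i ∈ S.erase f, y i) -
          (∑ S ∈ Finset.univ.filter (fun S : Finset (Fin m) => e ∈ S ∧ f ∈ S),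
              w S * ∏ i ∈ (S.erase e).erase f, y i) *
          (∑ S ∈ Finset.univ.filter (fun S : Finset (Fin m) => e ∉ S ∧ f ∉ S),
              w S * ∏ i ∈ S, y i)) →
    ∀ e f g h : Fin m, e ≠ f → e ≠ g → e ≠ h → f ≠ g → f ≠ h → g ≠ h →
    ∀ y : Fin m → ℝ, (∀ i, 0 < y i) →
      0 ≤ (∑ S ∈ Finset.univ.filter (fun S : Finset (Fin m) => e ∈ S ∧ f ∉ S),
              (w S + w (S.image (Equiv.swap g h))) * ∏ i ∈ S.erase e, y i) *
          (∑ S ∈ Finset.univ.filter (fun S : Finset (Fin m) => f ∈ S ∧ e ∉ S),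
              (w S + w (S.image (Equiv.swap g h))) * ∏ i ∈ S.erase f, y i) -
          (∑ S ∈ Finset.univ.filter (fun S : Finset (Fin m) => e ∈ S ∧ f ∈ S),
              (w S + w (S.image (Equiv.swap g h))) * ∏ i ∈ (S.erase e).erase f, y i) *
          (∑ S ∈ Finset.univ.filter (fun S : Finset (Fin m) => e ∉ S ∧ f ∉ S),
              (w S + w (S.image (Equiv.swap g h))) * ∏ i ∈ S, y i)) := by
  intro H
  have key := H 4 (fun S => (tab S : ℝ)) (fun S => Nat.cast_nonneg _)
    (fun S T h => by exact_mod_cast tab_mono S T h) ?_ 0 1 2 3 (by decide) (by decide) (by decide)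
    (by decide) (by decide) (by decide) ![1, 1, 1 / 1000, 200] ?_
  · simp only [tab_swap, Finset.sum_filter, sum16, prodmem, tab_0, tab'_0, tab_1, tab'_1, tab_2, tab'_2, tab_3, tab'_3, tab_4, tab'_4, tab_5, tab'_5, tab_6, tab'_6, tab_7, tab'_7, tab_8, tab'_8, tab_9, tab'_9, tab_10, tab'_10, tab_11, tab'_11, tab_12, tab'_12, tab_13, tab'_13, tab_14, tab'_14, tab_15, tab'_15] at key
    simp at key
    norm_num at key
  · intro e f hef y hy
    have h0 := hy 0
    have h1 := hy 1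
    have h2 := hy 2
    have h3 := hy 3
    simp only [Finset.sum_filter, sum16, prodmem, tab_0, tab_1, tab_2, tab_3, tab_4, tab_5, tab_6, tab_7, tab_8, tab_9, tab_10, tab_11, tab_12, tab_13, tab_14, tab_15]
    fin_cases e <;> fin_cases f <;> first | exact absurd rfl hef | skip
    all_goals
      simp
      rw [← sub_nonneg]
      ring_nf
      positivity
  · intro i
    fin_cases i <;> norm_num


end Pool.Agent.S05774
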