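import Pool.Statements.S05864

set_option autoImplicit false
open Pool Pool.MP_4e5a55_co

namespace Pool.Agent.S05864

open Filter Topology

/-! ### K(5,1) ≥ 7 -/

/-- the radius 1 ball around the word with number `c`, as a bit mask -/
def ball (c : ℕ) : ℕ :=
  (2 ^ c) ||| (2 ^ (c ^^^ 1)) ||| (2 ^ (c ^^^ 2)) ||| (2 ^ (c ^^^ 4)) ||| (2 ^ (c ^^^ 8)) |||
    (2 ^ (c ^^^ 16))

/-- candidate for an uncovered vertex -/
def cand (cov : ℕ) : ℕ := Nat.log2 (4294967295 - cov)

/-- no uncovered vertex was found -/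
def none' (cov : ℕ) : Bool := !(decide (cand cov < 32) && !cov.testBit (cand cov))

/-- can the uncovered vertices be covered by `fuel` more balls -/
def search : ℕ → ℕ → Bool
  | 0, cov => none' cov
  | (fuel + 1), cov =>
    none' cov ||
      (search fuel (cov ||| ball (cand cov)) || search fuel (cov ||| ball (cand cov ^^^ 1)) ||
      search fuel (cov ||| ball (cand cov ^^^ 2)) || search fuel (cov ||| ball (cand cov ^^^ 4)) ||
      search fuel (cov ||| ball (cand cov ^^^ 8)) || search fuel (cov ||| ball (cand cov ^^^ 16)))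

set_option maxRecDepth 100000 in
theorem search_six : search 6 0 = false := by decide +kernel

lemma ball_testBit (c v : ℕ) (h : (ball c).testBit v = true) :
    c = v ∨ c = v ^^^ 1 ∨ c = v ^^^ 2 ∨ c = v ^^^ 4 ∨ c = v ^^^ 8 ∨ c = v ^^^ 16 := by
  unfold ball at h
  simp only [Nat.testBit_or, Nat.testBit_two_pow, Bool.or_eq_true, decide_eq_true_eq] at h
  rcases h with ((((h | h) | h) | h) | h) | h
  · left; exact h
  · right; left; rw [← h, Nat.xor_assoc, Nat.xor_self, Nat.xor_zero]
  · right; right; left; rw [← h, Nat.xor_assoc, Nat.xor_self, Nat.xor_zero]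
  · right; right; right; left; rw [← h, Nat.xor_assoc, Nat.xor_self, Nat.xor_zero]
  · right; right; right; right; left; rw [← h, Nat.xor_assoc, Nat.xor_self, Nat.xor_zero]
  · right; right; right; right; right; rw [← h, Nat.xor_assoc, Nat.xor_self, Nat.xor_zero]

lemma none'_false (cov : ℕ) (h : none' cov = false) :
    cand cov < 32 ∧ cov.testBit (cand cov) = false := by
  unfold none' at h
  simpa using h

lemma search_sound : ∀ (fuel cov : ℕ), search fuel cov = false →
    ∀ C : Finset ℕ, C.card ≤ fuel →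
      ∃ v, v < 32 ∧ cov.testBit v = false ∧ ∀ c ∈ C, (ball c).testBit v = false := by
  intro fuel
  induction fuel with
  | zero =>
    intro cov h C hC
    have h1 := none'_false cov h
    have hC0 : C = ∅ := Finset.card_eq_zero.1 (by omega)
    exact ⟨cand cov, h1.1, h1.2, by rw [hC0]; simp⟩
  | succ n ih =>
    intro cov h C hC
    unfold search at h
    simp only [Bool.or_eq_false_iff] at h
    obtain ⟨h0, ⟨⟨⟨⟨⟨h1, h2⟩, h3⟩, h4⟩, h5⟩, h6⟩⟩ := h
    have hc := none'_false cov h0
    by_cases hex : ∀ c ∈ C, (ball c).testBit (cand cov) = false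
    · exact ⟨cand cov, hc.1, hc.2, hex⟩
    · push Not at hex
      obtain ⟨c, hcC, hcb⟩ := hex
      have hcb' : (ball c).testBit (cand cov) = true := by simpa using hcb
      have hs : search n (cov ||| ball c) = false := by
        rcases ball_testBit c _ hcb' with h | h | h | h | h | h
        all_goals rw [h]; assumption
      obtain ⟨v, hv1, hv2, hv3⟩ := ih _ hs (C.erase c) (by
        rw [Finset.card_erase_of_mem hcC]; omega)
      rw [Nat.testBit_or, Bool.or_eq_false_iff] at hv2
      refine ⟨v, hv1, hv2.1, ?_⟩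
      intro c' hc'
      by_cases hcc : c' = c
      · rw [hcc]; exact hv2.2
      · exact hv3 c' (Finset.mem_erase.2 ⟨hcc, hc'⟩)

/-- number of a word -/
def enc (w : Fin 5 → Bool) : ℕ :=
  (w 0).toNat + 2 * (w 1).toNat + 4 * (w 2).toNat + 8 * (w 3).toNat + 16 * (w 4).toNat

set_option maxRecDepth 100000 in
lemma enc_near : ∀ w c : Fin 5 → Bool, hammingDist w c ≤ 1 →
    (ball (enc c)).testBit (enc w) = true := by decide +kernel

lemma enc_surj : ∀ v : ℕ, v < 32 → ∃ w : Fin 5 → Bool, enc w = v := by decide +kernel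

lemma code_lower (C : Finset (Fin 5 → Bool)) (hC : ∀ w : Fin 5 → Bool, ∃ c ∈ C, hammingDist w c ≤ 1) :
    7 ≤ C.card := by
  classical
  by_contra hcon
  have hcard : (C.image enc).card ≤ 6 := Finset.card_image_le.trans (by omega)
  obtain ⟨v, hv1, -, hv3⟩ := search_sound 6 0 search_six (C.image enc) hcard
  obtain ⟨w, hw⟩ := enc_surj v hv1
  obtain ⟨c, hc, hwc⟩ := hC w
  have h1 := hv3 (enc c) (Finset.mem_image_of_mem _ hc)
  rw [← hw, enc_near w c hwc] at h1
  exact absurd h1 (by decide)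

/-! ### The six lines -/

/-- flip times -/
def kk : Fin 6 → Fin 5 → ℕ :=
  ![![5, 3, 2, 4, 1], ![3, 1, 4, 2, 5], ![1, 3, 2, 5, 4], ![1, 4, 5, 3, 2], ![1, 5, 3, 4, 2],
    ![2, 1, 4, 5, 3]]

/-- flip directions -/
def ss : Fin 6 → Fin 5 → Bool :=
  ![![false, false, false, true, true], ![false, false, true, true, true],
    ![false, false, false, true, true], ![true, true, false, true, true],
    ![false, false, true, false, true], ![false, true, false, false, true]]

/-- sign as a real number -/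
noncomputable def sg (b : Bool) : ℝ := if b then 1 else -1

lemma kk_inj : ∀ i : Fin 6, kk i 0 ≠ kk i 1 := by decide

lemma cover : ∀ w : Fin 5 → Bool, ∃ i : Fin 6, ∃ m : Fin 6, ∀ j : Fin 5,
    (kk i j ≤ m.1 ∧ w j = ss i j) ∨ (m.1 < kk i j ∧ w j = !(ss i j)) := by decide +kernel

/-- base point of the line -/
noncomputable def bp (i : Fin 6) : Fin 5 → ℝ := fun j => 1 / 2 - 4 * sg (ss i j) * (kk i j)
/-- direction of the line -/
noncomputable def dv (i : Fin 6) : Fin 5 → ℝ := fun j => 4 * sg (ss i j)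

lemma sg_cases (b : Bool) : sg b = 1 ∨ sg b = -1 := by
  unfold sg; cases b <;> simp

/-- the lines -/
noncomputable def LL (i : Fin 6) : AffineSubspace ℝ (Fin 5 → ℝ) :=
  AffineSubspace.mk' (bp i) (Submodule.span ℝ {dv i})

lemma mem_LL (i : Fin 6) (y : Fin 5 → ℝ) : y ∈ LL i ↔ ∃ t : ℝ, ∀ j, y j = bp i j + t * dv i j := by
  unfold LL
  rw [AffineSubspace.mem_mk', Submodule.mem_span_singleton]
  constructor
  · rintro ⟨t, ht⟩
    refine ⟨t, fun j => ?_⟩
    have := congrFun ht j
    simp only [Pi.smul_apply, smul_eq_mul, vsub_eq_sub, Pi.sub_apply] at this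
    linarith
  · rintro ⟨t, ht⟩
    refine ⟨t, ?_⟩
    funext j
    simp only [Pi.smul_apply, smul_eq_mul, vsub_eq_sub, Pi.sub_apply]
    rw [ht j]; ring

lemma LL_finrank (i : Fin 6) : Module.finrank ℝ (LL i).direction = 1 := by
  unfold LL
  rw [AffineSubspace.direction_mk']
  apply finrank_span_singleton
  intro h
  have := congrFun h 0
  unfold dv at this
  rcases sg_cases (ss i 0) with h1 | h1 <;> rw [h1] at this <;> norm_num at this

lemma LL_miss (i : Fin 6) (y : Fin 5 → ℝ) (hy : y ∈ LL i) : ¬ (∀ j, 0 ≤ y j ∧ y j ≤ 1) := by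
  intro h
  rw [mem_LL] at hy
  obtain ⟨t, ht⟩ := hy
  have hb : ∀ j, |t - kk i j| ≤ 1 / 8 := by
    intro j
    have h1 := h j
    rw [ht j] at h1
    unfold bp dv at h1
    rw [abs_le]
    rcases sg_cases (ss i j) with h2 | h2 <;> rw [h2] at h1 <;> constructor <;> linarith [h1.1, h1.2]
  have h0 := abs_le.1 (hb 0)
  have h1 := abs_le.1 (hb 1)
  have hne := kk_inj i
  rcases lt_or_gt_of_ne hne with h2 | h2
  · have : (kk i 0 : ℝ) + 1 ≤ kk i 1 := by exact_mod_cast h2
    linarith [h0.1, h0.2, h1.1, h1.2]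
  · have : (kk i 1 : ℝ) + 1 ≤ kk i 0 := by exact_mod_cast h2
    linarith [h0.1, h0.2, h1.1, h1.2]

lemma illum (x : Fin 5 → ℝ) (hx : ∀ j, 0 ≤ x j ∧ x j ≤ 1) :
    ∃ i, ∃ y ∈ LL i, ∃ t : ℝ, 0 < t ∧
      ∀ j, 0 < (x + t • (x - y)) j ∧ (x + t • (x - y)) j < 1 := by
  classical
  obtain ⟨i, m, him⟩ := cover (fun j => decide (x j = 1))
  refine ⟨i, fun j => bp i j + ((m : ℕ) + 1 / 2 : ℝ) * dv i j, (mem_LL i _).2 ⟨_, fun j => rfl⟩, ?_⟩
  set y : Fin 5 → ℝ := fun j => bp i j + ((m : ℕ) + 1 / 2 : ℝ) * dv i j with hy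
  have hyj : ∀ j, (x j = 1 → 1 < y j) ∧ (x j ≠ 1 → y j < 0) := by
    intro j
    simp only [hy]
    unfold bp dv
    rcases him j with ⟨h1, h2⟩ | ⟨h1, h2⟩
    · have h1' : (kk i j : ℝ) ≤ (m : ℕ) := by exact_mod_cast h1
      constructor
      · intro h3
        rw [decide_eq_true h3] at h2
        rw [← h2]
        simp only [sg, if_true]
        linarith
      · intro h3
        rw [decide_eq_false h3] at h2
        rw [← h2]
        simp only [sg]
        norm_num
        linarith
    · have h1' : ((m : ℕ) : ℝ) + 1 ≤ kk i j := by exact_mod_cast h1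
      constructor
      · intro h3
        rw [decide_eq_true h3] at h2
        have h4 : ss i j = false := by
          cases hss : ss i j
          · rfl
          · rw [hss] at h2; exact absurd h2 (by decide)
        rw [h4]
        simp only [sg]
        norm_num
        linarith
      · intro h3
        rw [decide_eq_false h3] at h2
        have h4 : ss i j = true := by
          cases hss : ss i j
          · rw [hss] at h2; exact absurd h2 (by decide)
          · rfl
        rw [h4]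
        simp only [sg, if_true]
        linarith
  have hev : ∀ᶠ t : ℝ in 𝓝[>] 0, ∀ j, 0 < (x + t • (x - y)) j ∧ (x + t • (x - y)) j < 1 := by
    rw [eventually_all]
    intro j
    have hform : ∀ t : ℝ, (x + t • (x - y)) j = x j + t * (x j - y j) := fun t => rfl
    simp only [hform]
    have hcont : ContinuousAt (fun t : ℝ => x j + t * (x j - y j)) 0 := by fun_prop
    have hval : (fun t : ℝ => x j + t * (x j - y j)) 0 = x j := by simp
    have htend : Tendsto (fun t : ℝ => x j + t * (x j - y j)) (𝓝[>] 0) (𝓝 (x j)) := by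
      have h0 : Tendsto (fun t : ℝ => x j + t * (x j - y j)) (𝓝 0) (𝓝 (x j)) := by
        simpa using hcont.tendsto
      exact h0.mono_left nhdsWithin_le_nhds
    have hpos : ∀ᶠ t : ℝ in 𝓝[>] 0, 0 < t := self_mem_nhdsWithin
    by_cases h1 : x j = 1
    · have hy1 := (hyj j).1 h1
      have e1 : ∀ᶠ t : ℝ in 𝓝[>] 0, 0 < x j + t * (x j - y j) :=
        htend.eventually (lt_mem_nhds (by rw [h1]; norm_num))
      filter_upwards [e1, hpos] with t ht1 ht2
      refine ⟨ht1, ?_⟩
      have : t * (x j - y j) < 0 := mul_neg_of_pos_of_neg ht2 (by linarith)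
      linarith
    · have hy0 := (hyj j).2 h1
      have hxlt : x j < 1 := lt_of_le_of_ne (hx j).2 h1
      have e1 : ∀ᶠ t : ℝ in 𝓝[>] 0, x j + t * (x j - y j) < 1 :=
        htend.eventually (gt_mem_nhds hxlt)
      filter_upwards [e1, hpos] with t ht1 ht2
      refine ⟨?_, ht1⟩
      have : 0 < t * (x j - y j) := mul_pos ht2 (by linarith [(hx j).1])
      linarith [(hx j).1]
  obtain ⟨t, ht1, ht2⟩ := (hev.and self_mem_nhdsWithin).exists
  exact ⟨t, ht2, ht1⟩

/-- The negation of the preceding statement: For all d and l<d: the least number of l-dimensional affine subspaces missing the unit d-cube that illuminate all its boundary points equals the least size of a binary length-d code in which every word is within Hamming distance l of a codeword. -/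
theorem result :
    ¬ (∀ d l : ℕ, l < d →
      sInf {n : ℕ | ∃ L : Fin n → AffineSubspace ℝ (Fin d → ℝ),
          (∀ i, Module.finrank ℝ (L i).direction = l ∧
              ∀ y ∈ L i, ¬ (∀ j, 0 ≤ y j ∧ y j ≤ 1)) ∧
          ∀ x : Fin d → ℝ, (∀ j, 0 ≤ x j ∧ x j ≤ 1) → ¬ (∀ j, 0 < x j ∧ x j < 1) →
            ∃ i, ∃ y ∈ L i, ∃ t : ℝ, 0 < t ∧
              ∀ j, 0 < (x + t • (x - y)) j ∧ (x + t • (x - y)) j < 1}
        =
      sInf {n : ℕ | ∃ C : Finset (Fin d → Bool), C.card = n ∧
          ∀ w : Fin d → Bool, ∃ c ∈ C, hammingDist w c ≤ l}) := by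
  intro H
  have h := H 5 1 (by norm_num)
  have hle : sInf {n : ℕ | ∃ L : Fin n → AffineSubspace ℝ (Fin 5 → ℝ),
          (∀ i, Module.finrank ℝ (L i).direction = 1 ∧
              ∀ y ∈ L i, ¬ (∀ j, 0 ≤ y j ∧ y j ≤ 1)) ∧
          ∀ x : Fin 5 → ℝ, (∀ j, 0 ≤ x j ∧ x j ≤ 1) → ¬ (∀ j, 0 < x j ∧ x j < 1) →
            ∃ i, ∃ y ∈ L i, ∃ t : ℝ, 0 < t ∧
              ∀ j, 0 < (x + t • (x - y)) j ∧ (x + t • (x - y)) j < 1} ≤ 6 :=
    Nat.sInf_le ⟨LL, fun i => ⟨LL_finrank i, LL_miss i⟩, fun x hx _ => illum x hx⟩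
  have hmem : sInf {n : ℕ | ∃ C : Finset (Fin 5 → Bool), C.card = n ∧
          ∀ w : Fin 5 → Bool, ∃ c ∈ C, hammingDist w c ≤ 1} ∈
      {n : ℕ | ∃ C : Finset (Fin 5 → Bool), C.card = n ∧
          ∀ w : Fin 5 → Bool, ∃ c ∈ C, hammingDist w c ≤ 1} :=
    Nat.sInf_mem ⟨_, Finset.univ, rfl, fun w => ⟨w, Finset.mem_univ _, by simp⟩⟩
  obtain ⟨C, hC1, hC2⟩ := hmem
  have := code_lower C hC2
  omega

end Pool.Agent.S05864
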