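import Pool.Statements.S05868

set_option autoImplicit false
open Pool Pool.MP_4e7ec3_co

namespace Pool.Agent.S05868

/-- the set `{0, 1/17, ..., 1}` -/
noncomputable def FF : Finset ℝ := (Finset.range 18).image (fun i : ℕ => (i : ℝ) / 17)

/-- the map: each third goes to the middle of its partner -/
noncomputable def TT (x : ℝ) : ℝ :=
  if x < 5 / 34 then 4 / 17 else if x < 11 / 34 then 1 / 17 else
  if x < 17 / 34 then 10 / 17 else if x < 23 / 34 then 7 / 17 else
  if x < 29 / 34 then 16 / 17 else 13 / 17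

lemma mem_FF {x : ℝ} : x ∈ FF ↔ ∃ i : ℕ, i < 18 ∧ (i : ℝ) / 17 = x := by
  simp [FF]

/-- the three traps -/
def inB (k : ℕ) (x : ℝ) : Prop := (6 * k : ℝ) / 17 ≤ x ∧ x ≤ (6 * k + 5 : ℝ) / 17

lemma TT_inB (k : ℕ) (hk : k < 3) (x : ℝ) (hx : inB k x) :
    TT x = (6 * k + 1 : ℝ) / 17 ∨ TT x = (6 * k + 4 : ℝ) / 17 := by
  unfold inB at hx
  unfold TT
  obtain ⟨h1, h2⟩ := hx
  interval_cases k
  · norm_num at h1 h2
    split_ifs <;> first | (left; norm_num; done) | (right; norm_num; done) | (exfalso; linarith)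
  · norm_num at h1 h2
    split_ifs <;> first | (left; norm_num; done) | (right; norm_num; done) | (exfalso; linarith)
  · norm_num at h1 h2
    split_ifs <;> first | (left; norm_num; done) | (right; norm_num; done) | (exfalso; linarith)

lemma step_inB (k : ℕ) (hk : k < 3) (x y : ℝ) (hx : inB k x)
    (hy : y = TT x ∨
            (y ∈ FF ∧ y < TT x ∧ ∀ r ∈ FF, r < TT x → r ≤ y) ∨
            (y ∈ FF ∧ TT x < y ∧ ∀ r ∈ FF, TT x < r → y ≤ r)) : inB k y := by
  have key : ∀ i : ℕ, 1 ≤ i → i ≤ 16 → TT x = (i : ℝ) / 17 →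
      ((i : ℝ) - 1) / 17 ≤ y ∧ y ≤ ((i : ℝ) + 1) / 17 := by
    intro i hi1 hi2 hT
    rw [hT] at hy
    rcases hy with h | ⟨_, h1, h2⟩ | ⟨_, h1, h2⟩
    · rw [h]; constructor <;> linarith
    · have hm : ((i - 1 : ℕ) : ℝ) / 17 ∈ FF := mem_FF.2 ⟨i - 1, by omega, rfl⟩
      have hc : ((i - 1 : ℕ) : ℝ) = (i : ℝ) - 1 := by
        rw [Nat.cast_sub hi1]; simp
      have := h2 _ hm (by rw [hc]; linarith)
      rw [hc] at this
      constructor <;> linarith
    · have hm : ((i + 1 : ℕ) : ℝ) / 17 ∈ FF := mem_FF.2 ⟨i + 1, by omega, rfl⟩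
      have hc : ((i + 1 : ℕ) : ℝ) = (i : ℝ) + 1 := by push_cast; ring
      have := h2 _ hm (by rw [hc]; linarith)
      rw [hc] at this
      constructor <;> linarith
  unfold inB
  rcases TT_inB k hk x hx with h | h
  · have := key (6 * k + 1) (by omega) (by omega) (by rw [h]; push_cast; ring)
    push_cast at this
    constructor <;> linarith [this.1, this.2]
  · have := key (6 * k + 4) (by omega) (by omega) (by rw [h]; push_cast; ring)
    push_cast at this
    constructor <;> linarith [this.1, this.2]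

lemma TT_moves : ∀ p ∈ FF, TT p ∈ FF ∧ 1 / 17 < |p - TT p| := by
  intro p hp
  obtain ⟨i, hi, rfl⟩ := mem_FF.1 hp
  have key : ∀ j : ℕ, j < 18 → (j + 2 ≤ i ∨ i + 2 ≤ j) → TT ((i : ℝ) / 17) = (j : ℝ) / 17 →
      TT ((i : ℝ) / 17) ∈ FF ∧ 1 / 17 < |(i : ℝ) / 17 - TT ((i : ℝ) / 17)| := by
    intro j hj hij hT
    rw [hT]
    refine ⟨mem_FF.2 ⟨j, hj, rfl⟩, ?_⟩
    rw [lt_abs]
    rcases hij with h | h
    · left
      have : (j : ℝ) + 2 ≤ i := by exact_mod_cast h
      linarith
    · right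
      have : (i : ℝ) + 2 ≤ j := by exact_mod_cast h
      linarith
  clear hp
  interval_cases i
  · exact key 4 (by norm_num) (by norm_num) (by unfold TT; norm_num)
  · exact key 4 (by norm_num) (by norm_num) (by unfold TT; norm_num)
  · exact key 4 (by norm_num) (by norm_num) (by unfold TT; norm_num)
  · exact key 1 (by norm_num) (by norm_num) (by unfold TT; norm_num)
  · exact key 1 (by norm_num) (by norm_num) (by unfold TT; norm_num)
  · exact key 1 (by norm_num) (by norm_num) (by unfold TT; norm_num)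
  · exact key 10 (by norm_num) (by norm_num) (by unfold TT; norm_num)
  · exact key 10 (by norm_num) (by norm_num) (by unfold TT; norm_num)
  · exact key 10 (by norm_num) (by norm_num) (by unfold TT; norm_num)
  · exact key 7 (by norm_num) (by norm_num) (by unfold TT; norm_num)
  · exact key 7 (by norm_num) (by norm_num) (by unfold TT; norm_num)
  · exact key 7 (by norm_num) (by norm_num) (by unfold TT; norm_num)
  · exact key 16 (by norm_num) (by norm_num) (by unfold TT; norm_num)
  · exact key 16 (by norm_num) (by norm_num) (by unfold TT; norm_num)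
  · exact key 16 (by norm_num) (by norm_num) (by unfold TT; norm_num)
  · exact key 13 (by norm_num) (by norm_num) (by unfold TT; norm_num)
  · exact key 13 (by norm_num) (by norm_num) (by unfold TT; norm_num)
  · exact key 13 (by norm_num) (by norm_num) (by unfold TT; norm_num)

/-- The negation of the preceding statement: There is a constant k such that for every finite F in [0,1] containing 0 and 1, every ε>0, and every T:F→F moving each point by more than ε, some p₀ in F reaches a point at distance at least 1/3 in at most k/ε steps, each step going to T(p) or a neighbour of T(p) in F. -/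
theorem result :
    ¬ (∃ k : ℝ, ∀ (F : Finset ℝ) (ε : ℝ) (T : ℝ → ℝ),
      (∀ p ∈ F, 0 ≤ p ∧ p ≤ 1) → (0 : ℝ) ∈ F → (1 : ℝ) ∈ F → 0 < ε →
      (∀ p ∈ F, T p ∈ F ∧ ε < |p - T p|) →
      ∃ p₀ ∈ F, ∃ n : ℕ, (n : ℝ) ≤ k / ε ∧
        ∃ x : ℕ → ℝ, x 0 = p₀ ∧
          (∀ i < n,
            x (i + 1) = T (x i) ∨
            (x (i + 1) ∈ F ∧ x (i + 1) < T (x i) ∧
              ∀ r ∈ F, r < T (x i) → r ≤ x (i + 1)) ∨
            (x (i + 1) ∈ F ∧ T (x i) < x (i + 1) ∧
              ∀ r ∈ F, T (x i) < r → x (i + 1) ≤ r)) ∧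
          1 / 3 ≤ |x n - p₀|) := by
  rintro ⟨k, h⟩
  obtain ⟨p₀, hp₀, n, -, x, hx0, hstep, hfar⟩ := h FF (1 / 17) TT
    (by
      intro p hp
      obtain ⟨i, hi, rfl⟩ := mem_FF.1 hp
      have : (i : ℝ) ≤ 17 := by exact_mod_cast (by omega : i ≤ 17)
      constructor
      · positivity
      · rw [div_le_one (by norm_num)]; exact this)
    (mem_FF.2 ⟨0, by norm_num, by norm_num⟩)
    (mem_FF.2 ⟨17, by norm_num, by norm_num⟩)
    (by norm_num)
    TT_moves
  obtain ⟨i, hi, hip⟩ := mem_FF.1 hp₀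
  have hB0 : ∃ b, b < 3 ∧ inB b p₀ := by
    refine ⟨i / 6, by omega, ?_⟩
    unfold inB
    rw [← hip]
    have h1 : 6 * (i / 6) ≤ i := by omega
    have h2 : i ≤ 6 * (i / 6) + 5 := by omega
    have h1' : (6 * ((i / 6 : ℕ) : ℝ)) ≤ i := by exact_mod_cast h1
    have h2' : (i : ℝ) ≤ 6 * ((i / 6 : ℕ) : ℝ) + 5 := by exact_mod_cast h2
    constructor
    · exact div_le_div_of_nonneg_right h1' (by norm_num)
    · exact div_le_div_of_nonneg_right h2' (by norm_num)
  obtain ⟨b, hb, hbp⟩ := hB0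
  have hall : ∀ j, j ≤ n → inB b (x j) := by
    intro j
    induction j with
    | zero => intro _; rw [hx0]; exact hbp
    | succ j ih =>
      intro hj
      exact step_inB b hb (x j) (x (j + 1)) (ih (by omega)) (hstep j (by omega))
  have hn := hall n le_rfl
  unfold inB at hn hbp
  rw [le_abs] at hfar
  rcases hfar with h1 | h1
  · linarith [hn.1, hn.2, hbp.1, hbp.2]
  · linarith [hn.1, hn.2, hbp.1, hbp.2]

end Pool.Agent.S05868
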