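import Pool.Statements.S05966
-- import your own Pool.Agent.* helpers here

set_option autoImplicit false
open Pool Pool.MP_56ef61_co

namespace Pool.Agent.S05966

/-- The counterexample on `K_{4,3}`: two vertices of the larger side carry the colours `0,1,2`,
the other two carry the cyclically shifted colours `2,0,1`. Modulo `3` the sum of the colours of a
perfect-on-the-small-side matching is `-1` or `-2`, whereas a rainbow one would have sum `0`. -/
def col : Fin 4 → Fin 3 → ℕ := fun i j =>
  if i.val < 2 then j.val else (j.val + 2) % 3

lemma col_inj : ∀ i : Fin 4, Function.Injective (col i) := by decide

lemma no_rainbow : ∀ f : Fin 3 → Fin 4, Function.Injective f →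
    ¬ Function.Injective (fun j : Fin 3 => col (f j) j) := by decide

/-- The negation of the preceding statement: For every n, colour the edges of K_{n,n-1} with natural numbers so that the edges at each vertex of the n-side get distinct colours. Then some injective choice of partner on the n-side for each vertex of the (n-1)-side uses pairwise distinct colours. -/
theorem result :
    ¬ (∀ (n : ℕ) (c : Fin n → Fin (n - 1) → ℕ),
      (∀ i : Fin n, Function.Injective (c i)) →
      ∃ f : Fin (n - 1) → Fin n,
        Function.Injective f ∧ Function.Injective (fun j : Fin (n - 1) => c (f j) j)) := by
  intro h
  obtain ⟨f, hf, hg⟩ := h 4 col col_inj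
  exact no_rainbow f hf hg

end Pool.Agent.S05966
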