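import Mathlib
import Pool.Statements.S05986

set_option autoImplicit false
open Pool Pool.MP_5833ce_co

namespace Pool.Agent.S05986

/-- coordinate vectors of the vertices -/
def X : Fin 16 → Fin 7 → ZMod 3 := ![
  ![0, 1, 1, 0, 2, 1, 0],
  ![1, 0, 2, 2, 2, 0, 0],
  ![1, 1, 1, 1, 1, 0, 1],
  ![1, 1, 0, 1, 2, 1, 1],
  ![1, 0, 0, 0, 0, 1, 1],
  ![1, 1, 1, 2, 0, 1, 2],
  ![0, 0, 1, 2, 0, 0, 2],
  ![1, 0, 2, 2, 2, 1, 1],
  ![1, 2, 2, 0, 2, 1, 1],
  ![2, 1, 2, 1, 2, 0, 2],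
  ![0, 0, 2, 2, 2, 1, 0],
  ![0, 1, 2, 1, 0, 1, 0],
  ![0, 0, 2, 0, 0, 2, 2],
  ![1, 1, 2, 0, 1, 1, 1],
  ![1, 1, 0, 1, 2, 1, 2],
  ![1, 2, 2, 1, 0, 0, 0]]

/-- the diagonal form -/
def W : Fin 7 → ZMod 3 := ![1, 1, 1, 1, 1, 1, 2]

/-- Gram products -/
def Bf (v w : Fin 16) : ZMod 3 :=
  W 0 * X v 0 * X w 0 + W 1 * X v 1 * X w 1 + W 2 * X v 2 * X w 2 + W 3 * X v 3 * X w 3 +
  W 4 * X v 4 * X w 4 + W 5 * X v 5 * X w 5 + W 6 * X v 6 * X w 6

/-- the graph -/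
def Gr : SimpleGraph (Fin 16) where
  Adj v w := v ≠ w ∧ Bf v w = 1
  symm := ⟨by
    intro v w h
    refine ⟨h.1.symm, ?_⟩
    have := h.2
    unfold Bf at *
    rw [← this]; ring⟩
  loopless := ⟨fun v h => h.1 rfl⟩

instance : DecidableRel Gr.Adj := fun v w => inferInstanceAs (Decidable (v ≠ w ∧ Bf v w = 1))

lemma entries : ∀ v w : Fin 16, (v = w → Bf v w = 1) ∧ (v ≠ w → Bf v w = 1 ∨ Bf v w = 0) := by
  decide

set_option maxRecDepth 1000000 in
lemma cover : ∀ a b c d e f g : ZMod 3, ∃ v : Fin 16,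
    W 0 * X v 0 * a + W 1 * X v 1 * b + W 2 * X v 2 * c + W 3 * X v 3 * d +
      W 4 * X v 4 * e + W 5 * X v 5 * f + W 6 * X v 6 * g = 0 := by
  decide

lemma nbhd (f : Fin 16 → ZMod 3) (v : Fin 16) :
    f v + ∑ w ∈ Gr.neighborFinset v, f w = ∑ w, Bf v w * f w := by
  rw [SimpleGraph.neighborFinset_eq_filter, Finset.sum_filter]
  have h1 : f v = ∑ w, if v = w then f w else 0 := by simp
  rw [h1, ← Finset.sum_add_distrib]
  apply Finset.sum_congr rfl
  intro w _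
  by_cases h : v = w
  · have h2 : ¬ Gr.Adj v w := fun hh => hh.1 h
    rw [if_pos h, if_neg h2, (entries v w).1 h]
    ring
  · rw [if_neg h]
    rcases (entries v w).2 h with h3 | h3
    · have h2 : Gr.Adj v w := ⟨h, h3⟩
      rw [if_pos h2, h3]; ring
    · have h2 : ¬ Gr.Adj v w := by
        intro hh
        have := hh.2
        rw [h3] at this
        exact absurd this (by decide)
      rw [if_neg h2, h3]; ring

lemma expand (f : Fin 16 → ZMod 3) (v : Fin 16) :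
    ∑ w, Bf v w * f w =
      W 0 * X v 0 * (∑ w, X w 0 * f w) + W 1 * X v 1 * (∑ w, X w 1 * f w) +
      W 2 * X v 2 * (∑ w, X w 2 * f w) + W 3 * X v 3 * (∑ w, X w 3 * f w) +
      W 4 * X v 4 * (∑ w, X w 4 * f w) + W 5 * X v 5 * (∑ w, X w 5 * f w) +
      W 6 * X v 6 * (∑ w, X w 6 * f w) := by
  simp only [Finset.mul_sum]
  rw [← Finset.sum_add_distrib, ← Finset.sum_add_distrib, ← Finset.sum_add_distrib,
    ← Finset.sum_add_distrib, ← Finset.sum_add_distrib, ← Finset.sum_add_distrib]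
  apply Finset.sum_congr rfl
  intro w _
  unfold Bf
  ring

/-- The negation of the preceding statement: For every k ≥ 2 and every finite simple graph, some labeling of the vertices by integers mod k makes the sum of labels over each vertex's closed neighbourhood nonzero mod k. -/
theorem result :
    ¬ (∀ k : ℕ, 2 ≤ k →
      ∀ (V : Type) [Fintype V] (G : SimpleGraph V) [DecidableRel G.Adj],
        ∃ f : V → ZMod k, ∀ v : V, f v + ∑ w ∈ G.neighborFinset v, f w ≠ 0) := by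
  intro h
  obtain ⟨f, hf⟩ := h 3 (by norm_num) (Fin 16) Gr
  obtain ⟨v, hv⟩ := cover (∑ w, X w 0 * f w) (∑ w, X w 1 * f w) (∑ w, X w 2 * f w)
    (∑ w, X w 3 * f w) (∑ w, X w 4 * f w) (∑ w, X w 5 * f w) (∑ w, X w 6 * f w)
  exact hf v (by rw [nbhd, expand, hv])

end Pool.Agent.S05986
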