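import Pool.Statements.S06217
import Mathlib
import Pool.Agent.Helper9.Tied

set_option autoImplicit false
open Pool Pool.MP_63a4dd_co

namespace Pool.Agent.S06217

/-- There exist a cardinal d and an integer k>1 and two non-isomorphic graphs, each d-regular with diameter exactly k and with no cycle of length at most 2k. -/
theorem result :
    ∃ d : Cardinal.{0}, ∃ k : ℕ, 1 < k ∧
      ∃ (V W : Type) (G : SimpleGraph V) (H : SimpleGraph W),
        (∀ v : V, Cardinal.mk (G.neighborSet v) = d) ∧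
        G.ediam = (k : ℕ∞) ∧
        ((2 * k : ℕ) : ℕ∞) < G.egirth ∧
        (∀ w : W, Cardinal.mk (H.neighborSet w) = d) ∧
        H.ediam = (k : ℕ∞) ∧
        ((2 * k : ℕ) : ℕ∞) < H.egirth ∧
        IsEmpty (G ≃g H) := by
  refine ⟨Cardinal.aleph0, 2, by norm_num, ℕ, ℕ,
    Pool.Agent.Helper9.Tied.lim Pool.Agent.Helper9.Tied.pet 10,
    Pool.Agent.Helper9.Tied.lim ⊥ 0, Pool.Agent.Helper9.Tied.lim_card,
    Pool.Agent.Helper9.Tied.lim_ediam Pool.Agent.Helper9.Tied.pet_lt
      Pool.Agent.Helper9.Tied.pet_good,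
    Pool.Agent.Helper9.Tied.good_egirth (Pool.Agent.Helper9.Tied.lim_good
      Pool.Agent.Helper9.Tied.pet_lt Pool.Agent.Helper9.Tied.pet_good),
    Pool.Agent.Helper9.Tied.lim_card,
    Pool.Agent.Helper9.Tied.lim_ediam Pool.Agent.Helper9.Tied.bot_lt
      Pool.Agent.Helper9.Tied.bot_good,
    Pool.Agent.Helper9.Tied.good_egirth (Pool.Agent.Helper9.Tied.lim_good
      Pool.Agent.Helper9.Tied.bot_lt Pool.Agent.Helper9.Tied.bot_good), ⟨fun e => ?_⟩⟩
  exact Pool.Agent.Helper9.Tied.not_core_bot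
    (Pool.Agent.Helper9.Tied.core_iso e Pool.Agent.Helper9.Tied.core_pet)

end Pool.Agent.S06217
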