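import Pool.Statements.S06222
-- import your own Pool.Agent.* helpers here

set_option autoImplicit false
open Classical
open Pool Pool.MP_63da8f_co

namespace Pool.Agent.S06222

/-- The strict order relation of a nine-element poset: bit `j` of entry `i` says `i < j`. -/
def rows : List ℕ := [440, 488, 488, 416, 384, 256, 256, 0, 0]

def lt9 (i j : Fin 9) : Bool := (rows.getD i.val 0).testBit j.val

/-- A copy of `Fin 9` carrying the order. -/
structure Q where
  val : Fin 9

instance : PartialOrder Q where
  le a b := a.val = b.val ∨ lt9 a.val b.val = true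
  lt a b := lt9 a.val b.val = true
  le_refl a := Or.inl rfl
  le_trans a b c hab hbc := by
    have key : ∀ i j k : Fin 9, (i = j ∨ lt9 i j = true) → (j = k ∨ lt9 j k = true) →
        (i = k ∨ lt9 i k = true) := by decide +kernel
    exact key _ _ _ hab hbc
  le_antisymm a b hab hba := by
    have key : ∀ i j : Fin 9, (i = j ∨ lt9 i j = true) → (j = i ∨ lt9 j i = true) → i = j := by
      decide +kernel
    have := key _ _ hab hba
    cases a; cases b; simp_all
  lt_iff_le_not_ge a b := by
    have key : ∀ i j : Fin 9, lt9 i j = true ↔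
        ((i = j ∨ lt9 i j = true) ∧ ¬ (j = i ∨ lt9 j i = true)) := by decide +kernel
    exact key _ _

lemma lt_iff (a b : Q) : a < b ↔ lt9 a.val b.val = true := Iff.rfl

/-- number of jumps of a sequence -/
def jumps : List (Fin 9) → ℕ
  | [] => 0
  | [_] => 0
  | a :: b :: l => (if lt9 a b then 0 else 1) + jumps (b :: l)

/-- Every arrangement of `rem` after `last` has more than `budget` jumps. -/
def check : ℕ → List (Fin 9) → Fin 9 → ℕ → Bool
  | 0, _, _, _ => false
  | fuel + 1, rem, last, budget =>
    (!rem.isEmpty) && rem.all (fun y =>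
      (rem.any (fun z => lt9 z y)) ||
        (if lt9 last y then check fuel (rem.erase y) y budget
         else match budget with
          | 0 => true
          | b + 1 => check fuel (rem.erase y) y b))

lemma check_sound : ∀ (fuel : ℕ) (rem : List (Fin 9)) (last : Fin 9) (budget : ℕ),
    check fuel rem last budget = true → ∀ l : List (Fin 9), l.Perm rem →
    l.Pairwise (fun a b => ¬ lt9 b a = true) → budget < jumps (last :: l) := by
  intro fuel
  induction fuel with
  | zero => intro rem last budget h; simp [check] at h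
  | succ fuel ih =>
    intro rem last budget h l hl hp
    rw [check, Bool.and_eq_true] at h
    obtain ⟨h1, h2⟩ := h
    cases l with
    | nil =>
      have : rem = [] := hl.symm.eq_nil
      simp [this] at h1
    | cons y l' =>
      have hy : y ∈ rem := hl.subset (List.mem_cons_self)
      rw [List.all_eq_true] at h2
      have h3 := h2 y hy
      rw [List.pairwise_cons] at hp
      have h4 : rem.any (fun z => lt9 z y) = false := by
        rw [List.any_eq_false]
        intro z hz
        have hz' : z ∈ y :: l' := hl.symm.subset hz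
        rw [List.mem_cons] at hz'
        rcases hz' with rfl | hz'
        · have : ∀ i : Fin 9, ¬ lt9 i i = true := by decide +kernel
          exact this _
        · exact hp.1 z hz'
      rw [h4, Bool.false_or] at h3
      have hperm : l'.Perm (rem.erase y) := (List.perm_cons_erase hy).symm.trans hl.symm |>.symm.cons_inv
      by_cases hlt : lt9 last y = true
      · rw [if_pos hlt] at h3
        have := ih _ _ _ h3 l' hperm hp.2
        simpa [jumps, hlt] using this
      · rw [if_neg hlt] at h3
        cases budget with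
        | zero =>
          simp [jumps, hlt]
        | succ b =>
          have := ih _ _ _ h3 l' hperm hp.2
          simp only [jumps, hlt]
          simp
          omega

lemma count_eq (l : List Q) :
    (l.zip l.tail).countP (fun p => decide (¬ p.1 < p.2)) = jumps (l.map Q.val) := by
  induction l with
  | nil => rfl
  | cons a l ih =>
    cases l with
    | nil => rfl
    | cons b l =>
      have e : ((a :: b :: l).zip (a :: b :: l).tail) = (a, b) :: ((b :: l).zip (b :: l).tail) := rfl
      rw [e, List.countP_cons, ih]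
      simp only [List.map_cons, jumps]
      by_cases h : lt9 a.val b.val = true
      · have h' : a < b := h
        simp [h, h']
      · have h' : ¬ a < b := h
        simp [h, h', Nat.add_comm]

/-- The ground set. -/
noncomputable def P : Finset Q := (Finset.univ : Finset (Fin 9)).image Q.mk

lemma mem_P (q : Q) : q ∈ P := by
  unfold P
  exact Finset.mem_image.2 ⟨q.val, Finset.mem_univ _, rfl⟩

lemma mk_inj : Function.Injective Q.mk := by
  intro a b h
  cases h
  rfl

lemma card_P : P.card = 9 := by
  unfold P
  rw [Finset.card_image_of_injective _ mk_inj]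
  simp

lemma exists_list (S : Finset Q) (L : List (Fin 9)) (k : ℕ) (hn : L.Nodup)
    (hS : ∀ i : Fin 9, i ∈ L ↔ (Q.mk i) ∈ S)
    (hp : L.Pairwise (fun a b => ¬ lt9 b a = true)) (hj : jumps L = k) :
    ∃ l : List Q, l.Nodup ∧ l.toFinset = S ∧ l.Pairwise (fun a b => ¬ b < a) ∧
      (l.zip l.tail).countP (fun p => decide (¬ p.1 < p.2)) = k := by
  refine ⟨L.map Q.mk, hn.map mk_inj, ?_, ?_, ?_⟩
  · ext q
    rw [List.mem_toFinset, List.mem_map]
    constructor
    · rintro ⟨i, hi, rfl⟩
      exact (hS i).1 hi
    · intro hq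
      exact ⟨q.val, (hS _).2 hq, rfl⟩
  · rw [List.pairwise_map]
    exact hp
  · rw [count_eq, List.map_map]
    have : (Q.val ∘ Q.mk) = id := rfl
    rw [this, List.map_id, hj]

/-- witness orders for the deleted posets -/
def wit : Fin 9 → List (Fin 9)
  | 0 => [1, 2, 3, 5, 4, 7, 6, 8]
  | 1 => [0, 2, 3, 5, 4, 7, 6, 8]
  | 2 => [0, 1, 3, 5, 4, 7, 6, 8]
  | 3 => [1, 2, 6, 0, 4, 7, 5, 8]
  | 4 => [1, 2, 6, 0, 3, 5, 8, 7]
  | 5 => [0, 4, 1, 2, 3, 7, 6, 8]
  | 6 => [0, 4, 1, 2, 3, 5, 8, 7]
  | 7 => [0, 4, 1, 2, 3, 5, 6, 8]
  | 8 => [1, 2, 6, 0, 3, 5, 4, 7]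

lemma wit_nodup : ∀ x, (wit x).Nodup := by decide +kernel
lemma wit_mem : ∀ x i : Fin 9, i ∈ wit x ↔ i ≠ x := by decide +kernel
lemma wit_pair : ∀ x, (wit x).Pairwise (fun a b => ¬ lt9 b a = true) := by decide +kernel
lemma wit_jumps : ∀ x, jumps (wit x) = 3 := by decide +kernel

lemma all_mem : ∀ i : Fin 9, i ∈ ([0, 1, 2, 3, 5, 4, 7, 6, 8] : List (Fin 9)) := by
  decide +kernel

lemma top_check : ∀ y : Fin 9, (∃ z, lt9 z y = true) ∨
    check 9 ((List.finRange 9).erase y) y 3 = true := by decide +kernel

lemma lower (L : List (Fin 9)) (hL : L.Perm (List.finRange 9))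
    (hp : L.Pairwise (fun a b => ¬ lt9 b a = true)) : 4 ≤ jumps L := by
  cases L with
  | nil => exact absurd hL.length_eq (by simp)
  | cons y l =>
    rcases top_check y with ⟨z, hz⟩ | h
    · exfalso
      have hz' : z ∈ y :: l := hL.symm.subset (List.mem_finRange z)
      rw [List.mem_cons] at hz'
      rcases hz' with rfl | hz'
      · have : ∀ i : Fin 9, ¬ lt9 i i = true := by decide +kernel
        exact this _ hz
      · rw [List.pairwise_cons] at hp
        exact hp.1 z hz' hz
    · have hy : y ∈ List.finRange 9 := List.mem_finRange y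
      have hperm : l.Perm ((List.finRange 9).erase y) :=
        ((List.perm_cons_erase hy).symm.trans hL.symm).symm.cons_inv
      have := check_sound _ _ _ _ h l hperm (List.pairwise_cons.1 hp).2
      omega

/-- The negation of the preceding statement: For every finite poset P with jump number r (minimum over linear extensions of the number of consecutive incomparable pairs), if deleting any single element lowers the jump number, then P has at most 2r elements. -/
theorem result :
    ¬ (∀ (α : Type) [PartialOrder α] (σ : Finset α → ℕ),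
      (∀ S : Finset α, σ S = sInf {k : ℕ | ∃ l : List α, l.Nodup ∧ l.toFinset = S ∧
          l.Pairwise (fun a b => ¬ b < a) ∧
          (l.zip l.tail).countP (fun p => decide (¬ p.1 < p.2)) = k}) →
      ∀ (P : Finset α) (r : ℕ), σ P = r → (∀ x ∈ P, σ (P.erase x) < r) →
        P.card ≤ 2 * r) := by
  intro h
  have hP4 : (4 : ℕ) ∈ {k : ℕ | ∃ l : List Q, l.Nodup ∧ l.toFinset = P ∧
          l.Pairwise (fun a b => ¬ b < a) ∧
          (l.zip l.tail).countP (fun p => decide (¬ p.1 < p.2)) = k} :=
    exists_list P [0, 1, 2, 3, 5, 4, 7, 6, 8] 4 (by decide +kernel)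
      (fun i => ⟨fun _ => mem_P _, fun _ => all_mem i⟩) (by decide +kernel)
      (by decide +kernel)
  have hlow : ∀ k ∈ {k : ℕ | ∃ l : List Q, l.Nodup ∧ l.toFinset = P ∧
          l.Pairwise (fun a b => ¬ b < a) ∧
          (l.zip l.tail).countP (fun p => decide (¬ p.1 < p.2)) = k}, 4 ≤ k := by
    rintro k ⟨l, hn, hS, hp, rfl⟩
    rw [count_eq]
    apply lower
    · refine (List.perm_ext_iff_of_nodup (hn.map ?_) (List.nodup_finRange 9)).2 fun i => ?_
      · intro a b hab; cases a; cases b; simp_all
      · refine ⟨fun _ => List.mem_finRange i, fun _ => ?_⟩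
        rw [List.mem_map]
        refine ⟨⟨i⟩, ?_, rfl⟩
        rw [← List.mem_toFinset, hS]
        exact mem_P _
    · rw [List.pairwise_map]
      exact hp
  have hr : sInf {k : ℕ | ∃ l : List Q, l.Nodup ∧ l.toFinset = P ∧
          l.Pairwise (fun a b => ¬ b < a) ∧
          (l.zip l.tail).countP (fun p => decide (¬ p.1 < p.2)) = k} = 4 :=
    le_antisymm (Nat.sInf_le hP4) (le_csInf ⟨4, hP4⟩ hlow)
  have h2 := h Q (fun S => sInf {k : ℕ | ∃ l : List Q, l.Nodup ∧ l.toFinset = S ∧
          l.Pairwise (fun a b => ¬ b < a) ∧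
          (l.zip l.tail).countP (fun p => decide (¬ p.1 < p.2)) = k}) (fun S => rfl) P 4 hr ?_
  · rw [card_P] at h2
    omega
  · intro x _
    refine lt_of_le_of_lt (Nat.sInf_le (m := 3) ?_) (by norm_num)
    refine exists_list _ (wit x.val) 3 (wit_nodup _) (fun i => ?_) (wit_pair _) (wit_jumps _)
    rw [wit_mem, Finset.mem_erase]
    constructor
    · intro hi
      refine ⟨fun hcon => hi ?_, mem_P _⟩
      rw [← hcon]
    · rintro ⟨hi, _⟩ rfl
      exact hi rfl

end Pool.Agent.S06222
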