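import Pool.Statements.S06274

set_option autoImplicit false
open Pool Pool.MP_67f250_co

namespace Pool.Agent.S06274

/-- The underlying set of the counterexample. -/
def X : Type := Fin 11

instance : DecidableEq X := inferInstanceAs (DecidableEq (Fin 11))
instance : Fintype X := inferInstanceAs (Fintype (Fin 11))

/-- bit masks of the principal up-sets -/
def row : Nat → Nat
  | 0 => 1
  | 1 => 2
  | 2 => 4
  | 3 => 13
  | 4 => 19
  | 5 => 38
  | 6 => 71
  | 7 => 215
  | 8 => 367
  | 9 => 575
  | 10 => 1535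
  | _ => 0

/-- the order relation -/
def leB (x y : Fin 11) : Bool := Nat.testBit (row x.1) y.1

lemma le_refl' : ∀ x : Fin 11, leB x x = true := by decide

lemma le_trans' : ∀ x y z : Fin 11, leB x y = true → leB y z = true → leB x z = true := by
  decide +kernel

lemma le_antisymm' : ∀ x y : Fin 11, leB x y = true → leB y x = true → x = y := by
  decide +kernel

instance : PartialOrder X where
  le x y := leB x y = true
  le_refl := le_refl'
  le_trans := le_trans'
  le_antisymm := le_antisymm'

instance : DecidableLE X := fun x y => inferInstanceAs (Decidable (leB x y = true))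

/-- candidates for the value at `x` of a map without fixed points -/
def dom (S : List (Fin 11)) (x : Fin 11) : List (Fin 11) :=
  S.filter fun y => !leB x y && !leB y x

/-- Backtracking refutation. -/
def search (S : List (Fin 11)) : List (Fin 11) → List (Fin 11 × Fin 11) → Bool
  | [], _ => false
  | x :: vs, asg => (dom S x).all fun y =>
      (asg.any fun p => (leB p.1 x && !leB p.2 y) || (leB x p.1 && !leB y p.2)) ||
        search S vs ((x, y) :: asg)

lemma search_sound (S : List (Fin 11)) (f : Fin 11 → Fin 11)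
    (hdom : ∀ x ∈ S, f x ∈ dom S x)
    (hmono : ∀ x ∈ S, ∀ y ∈ S, leB x y = true → leB (f x) (f y) = true) :
    ∀ (vs : List (Fin 11)) (asg : List (Fin 11 × Fin 11)), (∀ x ∈ vs, x ∈ S) →
      (∀ p ∈ asg, p.1 ∈ S ∧ p.2 = f p.1) → search S vs asg = true → False := by
  intro vs
  induction vs with
  | nil =>
    intro asg _ _ h
    simp [search] at h
  | cons x vs ih =>
    intro asg hvs hasg h
    rw [search, List.all_eq_true] at h
    have hx : x ∈ S := hvs x (by simp)
    have h1 := h (f x) (hdom x hx)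
    rw [Bool.or_eq_true] at h1
    rcases h1 with h1 | h1
    · rw [List.any_eq_true] at h1
      obtain ⟨p, hp, h2⟩ := h1
      obtain ⟨hpS, hpf⟩ := hasg p hp
      rw [Bool.or_eq_true] at h2
      rcases h2 with h2 | h2
      · rw [Bool.and_eq_true, Bool.not_eq_true'] at h2
        have := hmono p.1 hpS x hx h2.1
        rw [hpf] at h2
        rw [this] at h2
        exact absurd h2.2 (by simp)
      · rw [Bool.and_eq_true, Bool.not_eq_true'] at h2
        have := hmono x hx p.1 hpS h2.1
        rw [hpf] at h2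
        rw [this] at h2
        exact absurd h2.2 (by simp)
    · refine ih ((x, f x) :: asg) (fun y hy => hvs y (by simp [hy])) ?_ h1
      intro p hp
      rcases List.mem_cons.1 hp with rfl | hp
      · exact ⟨hx, rfl⟩
      · exact hasg p hp

/-- A point comparable with its image forces a fixed point. -/
lemma fixed_of_comparable (S : Set X) (f : X → X) (hf : Set.MapsTo f S S)
    (hm : MonotoneOn f S) (x : X) (hx : x ∈ S) (h : x ≤ f x ∨ f x ≤ x) : ∃ y ∈ S, f y = y := by
  classical
  rcases h with h | h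
  · have hne : (Finset.univ.filter fun y : X => y ∈ S ∧ y ≤ f y).Nonempty := ⟨x, by simp [hx, h]⟩
    obtain ⟨m, hm1⟩ := (Finset.univ.filter fun y : X => y ∈ S ∧ y ≤ f y).exists_maximal hne
    have hm2 := hm1.1
    simp only [Finset.mem_univ, true_and, Finset.mem_filter] at hm2
    refine ⟨m, hm2.1, ?_⟩
    have h3 : f m ∈ S ∧ f m ≤ f (f m) := ⟨hf hm2.1, hm hm2.1 (hf hm2.1) hm2.2⟩
    have h4 := hm1.2 (y := f m) (by simpa using h3) hm2.2
    exact le_antisymm h4 hm2.2
  · have hne : (Finset.univ.filter fun y : X => y ∈ S ∧ f y ≤ y).Nonempty := ⟨x, by simp [hx, h]⟩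
    obtain ⟨m, hm1⟩ := (Finset.univ.filter fun y : X => y ∈ S ∧ f y ≤ y).exists_minimal hne
    have hm2 := hm1.1
    simp only [Finset.mem_univ, true_and, Finset.mem_filter] at hm2
    refine ⟨m, hm2.1, ?_⟩
    have h3 : f m ∈ S ∧ f (f m) ≤ f m := ⟨hf hm2.1, hm (hf hm2.1) hm2.1 hm2.2⟩
    have h4 := hm1.2 (y := f m) (by simpa using h3) hm2.2
    exact le_antisymm hm2.2 h4

lemma fpp (L : List (Fin 11)) (S : Set X) (hS : ∀ x : Fin 11, x ∈ L ↔ (show X from x) ∈ S)
    (hs : search L L [] = true) (f : X → X) (hf : Set.MapsTo f S S) (hm : MonotoneOn f S) :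
    ∃ x ∈ S, f x = x := by
  by_contra hno
  refine search_sound L f ?_ ?_ L [] (fun x hx => hx) (by simp) hs
  · intro x hx
    have hxS : (show X from x) ∈ S := (hS x).1 hx
    have hfS : f x ∈ S := hf hxS
    refine List.mem_filter.2 ⟨(hS (f x)).2 hfS, ?_⟩
    rw [Bool.and_eq_true, Bool.not_eq_true', Bool.not_eq_true']
    constructor
    · by_contra h
      have h' : leB x (f x) = true := by simpa using h
      exact hno (fixed_of_comparable S f hf hm x hxS (Or.inl h'))
    · by_contra h
      have h' : leB (f x) x = true := by simpa using h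
      exact hno (fixed_of_comparable S f hf hm x hxS (Or.inr h'))
  · intro x hx y hy hxy
    exact hm ((hS x).1 hx) ((hS y).1 hy) hxy

def LA : List (Fin 11) := [6, 8, 0, 7, 2, 3, 1, 4, 5, 9]
def LB : List (Fin 11) := [10, 0, 1, 2, 3, 4, 5, 6, 7, 8]
def LD : List (Fin 11) := [8, 6, 7, 1, 4, 2, 0, 5, 3]

lemma searchA : search LA LA [] = true := by decide +kernel
lemma searchB : search LB LB [] = true := by decide +kernel
lemma searchD : search LD LD [] = true := by decide +kernel

/-- the map without fixed points -/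
def g : Fin 11 → Fin 11 := ![1, 2, 0, 4, 5, 3, 9, 9, 9, 10, 9]

theorem result :
    ¬ (∀ (α : Type) [PartialOrder α] [Finite α] (A B : Set α),
      IsUpperSet A → IsUpperSet B → A ∪ B = Set.univ →
      (∀ f : α → α, Set.MapsTo f A A → MonotoneOn f A → ∃ x ∈ A, f x = x) →
      (∀ f : α → α, Set.MapsTo f B B → MonotoneOn f B → ∃ x ∈ B, f x = x) →
      (∀ f : α → α, Set.MapsTo f (A ∩ B) (A ∩ B) → MonotoneOn f (A ∩ B) →
        ∃ x ∈ A ∩ B, f x = x) →
      ∀ f : α → α, Monotone f → ∃ x, f x = x) := by
  intro H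
  have hmem : ∀ L : List (Fin 11), ∀ x : Fin 11, x ∈ L ↔ (show X from x) ∈ {y : X | y ∈ L} :=
    fun L x => Iff.rfl
  have hA : IsUpperSet {y : X | y ∈ LA} := by
    have h : ∀ a b : Fin 11, leB a b = true → a ∈ LA → b ∈ LA := by decide +kernel
    exact fun a b hab ha => h a b hab ha
  have hB : IsUpperSet {y : X | y ∈ LB} := by
    have h : ∀ a b : Fin 11, leB a b = true → a ∈ LB → b ∈ LB := by decide +kernel
    exact fun a b hab ha => h a b hab ha
  have hU : {y : X | y ∈ LA} ∪ {y : X | y ∈ LB} = Set.univ := by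
    have h : ∀ a : Fin 11, a ∈ LA ∨ a ∈ LB := by decide +kernel
    exact Set.eq_univ_of_forall fun a => h a
  have hD : ∀ x : Fin 11, x ∈ LD ↔ (show X from x) ∈ {y : X | y ∈ LA} ∩ {y : X | y ∈ LB} := by
    have h : ∀ a : Fin 11, a ∈ LD ↔ (a ∈ LA ∧ a ∈ LB) := by decide +kernel
    exact fun a => h a
  have hg : Monotone (α := X) (β := X) g := by
    have h : ∀ a b : Fin 11, leB a b = true → leB (g a) (g b) = true := by decide +kernel
    exact fun a b hab => h a b hab
  obtain ⟨x, hx⟩ := H X {y : X | y ∈ LA} {y : X | y ∈ LB} hA hB hU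
    (fpp LA _ (hmem LA) searchA) (fpp LB _ (hmem LB) searchB)
    (fpp LD _ hD searchD) g hg
  have h : ∀ x : Fin 11, g x ≠ x := by decide
  exact h x hx

end Pool.Agent.S06274
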