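import Pool.Statements.S06316
-- import your own Pool.Agent.* helpers here

set_option autoImplicit false
open Pool Pool.MP_6b8a7b_co

namespace Pool.Agent.S06316

/-- The negation of the preceding statement: Take any hypergraph whose edges are all finite and in which every vertex lies in some edge. Then some edge cover C exists such that, for every edge cover C', the cardinality of C minus C' is at most the cardinality of C' minus C. -/
theorem result :
    ¬ (∀ (V : Type) (E : Set (Set V)),
      (∀ e ∈ E, e.Finite) →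
      (∀ v : V, ∃ e ∈ E, v ∈ e) →
      ∃ C ⊆ E, ⋃₀ C = Set.univ ∧
        ∀ C' ⊆ E, ⋃₀ C' = Set.univ →
          Cardinal.mk ↥(C \ C') ≤ Cardinal.mk ↥(C' \ C)) := by
  intro h
  obtain ⟨C, hCE, hC, hmin⟩ := h ℕ {s | s.Finite} (fun e he => he)
    (fun v => ⟨{v}, Set.finite_singleton v, rfl⟩)
  have hns : ¬ C.Subsingleton := by
    intro hs
    have hfin : (⋃₀ C).Finite := by
      rcases hs.eq_empty_or_singleton with h0 | ⟨e, he⟩
      · rw [h0]; simp
      · rw [he, Set.sUnion_singleton]
        exact hCE (by rw [he]; rfl)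
    rw [hC] at hfin
    exact Set.infinite_univ hfin
  rw [Set.not_subsingleton_iff] at hns
  obtain ⟨e1, he1, e2, he2, hne⟩ := hns
  have f1 : e1.Finite := hCE he1
  have f2 : e2.Finite := hCE he2
  have key : ∀ e f : Set ℕ, e ∈ C → f ∈ C → e ⊆ f → e ≠ f → False := by
    intro e f he hf hef hnef
    have hcov : ⋃₀ (C \ {e}) = Set.univ := by
      rw [Set.eq_univ_iff_forall]
      intro x
      have hx : x ∈ ⋃₀ C := by rw [hC]; trivial
      obtain ⟨g, hg, hxg⟩ := hx
      by_cases hge : g = e
      · exact ⟨f, ⟨hf, fun h => hnef h.symm⟩, hef (hge ▸ hxg)⟩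
      · exact ⟨g, ⟨hg, hge⟩, hxg⟩
    have h1 := hmin (C \ {e}) (fun g hg => hCE hg.1) hcov
    have h2 : ((C \ {e}) \ C : Set (Set ℕ)) = ∅ := by
      ext g; simp only [Set.mem_diff, Set.mem_singleton_iff, Set.mem_empty_iff_false, iff_false]
      tauto
    have h3 : (C \ (C \ {e}) : Set (Set ℕ)) = {e} := by
      ext g
      simp only [Set.mem_diff, Set.mem_singleton_iff]
      constructor
      · intro hg
        by_contra hge
        exact hg.2 ⟨hg.1, hge⟩
      · intro hg
        subst hg
        exact ⟨he, fun h => h.2 rfl⟩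
    rw [h2, h3] at h1
    simp at h1
  by_cases hu : e1 ∪ e2 ∈ C
  · by_cases h12 : e1 = e1 ∪ e2
    · refine key e2 e1 he2 he1 ?_ (fun h => hne h.symm)
      rw [h12]
      exact Set.subset_union_right
    · exact key e1 (e1 ∪ e2) he1 hu Set.subset_union_left h12
  · have hcov : ⋃₀ ((C \ {e1, e2}) ∪ {e1 ∪ e2}) = Set.univ := by
      rw [Set.eq_univ_iff_forall]
      intro x
      have hx : x ∈ ⋃₀ C := by rw [hC]; trivial
      obtain ⟨g, hg, hxg⟩ := hx
      by_cases hge : g = e1
      · exact ⟨e1 ∪ e2, Or.inr rfl, Or.inl (hge ▸ hxg)⟩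
      · by_cases hge2 : g = e2
        · exact ⟨e1 ∪ e2, Or.inr rfl, Or.inr (hge2 ▸ hxg)⟩
        · refine ⟨g, Or.inl ⟨hg, ?_⟩, hxg⟩
          simp only [Set.mem_insert_iff, Set.mem_singleton_iff, not_or]
          exact ⟨hge, hge2⟩
    have hsub : ((C \ {e1, e2}) ∪ {e1 ∪ e2} : Set (Set ℕ)) ⊆ {s | s.Finite} := by
      rintro g (hg | hg)
      · exact hCE hg.1
      · rw [Set.mem_singleton_iff] at hg
        rw [hg]
        exact f1.union f2
    have h1 := hmin _ hsub hcov
    have h2 : (((C \ {e1, e2}) ∪ {e1 ∪ e2}) \ C : Set (Set ℕ)) = {e1 ∪ e2} := by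
      ext g
      simp only [Set.mem_diff, Set.mem_union, Set.mem_singleton_iff]
      constructor
      · rintro ⟨hg | hg, hgC⟩
        · exact absurd hg.1 hgC
        · exact hg
      · intro hg
        refine ⟨Or.inr hg, ?_⟩
        rw [hg]; exact hu
    have h3 : ({e1, e2} : Set (Set ℕ)) ⊆ (C \ ((C \ {e1, e2}) ∪ {e1 ∪ e2}) : Set (Set ℕ)) := by
      rintro g (hg | hg)
      · rw [hg]
        refine ⟨he1, ?_⟩
        rintro (h | h)
        · exact h.2 (Or.inl rfl)
        · rw [Set.mem_singleton_iff] at h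
          exact hu (h ▸ he1)
      · rw [Set.mem_singleton_iff] at hg
        rw [hg]
        refine ⟨he2, ?_⟩
        rintro (h | h)
        · exact h.2 (Or.inr rfl)
        · rw [Set.mem_singleton_iff] at h
          exact hu (h ▸ he2)
    have h4 := (Cardinal.mk_le_mk_of_subset h3).trans h1
    rw [h2, Cardinal.mk_singleton, Cardinal.mk_insert (by simpa using hne), Cardinal.mk_singleton] at h4
    norm_num at h4

end Pool.Agent.S06316
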