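import Pool.Statements.S06366
import Pool.Agent.Helper8.Paving

set_option autoImplicit false
open Pool Pool.MP_6f5d90_co

namespace Pool.Agent.S06366

/-- The negation of the preceding statement: For every matroid on a finite set whose circuits all have size at least its rank (paving), some rank level of its flats is at least as large as every antichain of flats under inclusion, i.e. the lattice of flats is Sperner. -/
theorem result :
    ¬ (∀ (α : Type) [Finite α] (M : Matroid α),
      (∀ C : Set α, M.IsCircuit C → M.eRk M.E ≤ C.encard) →
      ∃ k : ℕ, ∀ A : Set (Set α), (∀ F ∈ A, M.IsFlat F) →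
        IsAntichain (· ⊆ ·) A →
        A.ncard ≤ {F : Set α | M.IsFlat F ∧ M.eRk F = (k : ℕ∞)}.ncard) := by
  intro h
  obtain ⟨k, hk⟩ := h Pool.Agent.Helper8.Paving.P Pool.Agent.Helper8.Paving.M
    Pool.Agent.Helper8.Paving.paving
  have h1 := hk Pool.Agent.Helper8.Paving.AA Pool.Agent.Helper8.Paving.AA_flat
    Pool.Agent.Helper8.Paving.AA_antichain
  exact absurd h1 (not_le.mpr (Pool.Agent.Helper8.Paving.level_lt k))

end Pool.Agent.S06366
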