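import Mathlib
set_option autoImplicit false
open scoped Pointwise
open Matrix

namespace Pool.Agent.S06424


lemma exp_le_one_add (x : ℝ) (h1 : -(1/2) ≤ x) (h2 : x ≤ 1/2) : Real.exp (x - x^2) ≤ 1 + x := by
  rcases le_or_gt 0 x with hx | hx
  · have h3 : (1 - (x - x^2)) ≤ Real.exp (-(x - x^2)) := by
      have := Real.add_one_le_exp (-(x-x^2))
      linarith
    have h4 : Real.exp (x - x^2) * Real.exp (-(x - x^2)) = 1 := by
      rw [← Real.exp_add]; simp
    have h5 : 0 < 1 - (x - x^2) := by nlinarith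
    have h6 : Real.exp (x-x^2) * (1 - (x - x^2)) ≤ 1 := by
      calc _ ≤ Real.exp (x-x^2) * Real.exp (-(x - x^2)) :=
            mul_le_mul_of_nonneg_left h3 (Real.exp_pos _).le
        _ = 1 := h4
    have h7 : 1 ≤ (1 + x) * (1 - (x - x^2)) := by nlinarith [pow_nonneg hx 3]
    by_contra hc
    push Not at hc
    nlinarith
  · set t := -x with ht
    have ht0 : 0 ≤ t := by linarith
    have ht1 : t ≤ 1/2 := by linarith
    have hx' : x - x^2 = -(t + t^2) := by rw [ht]; ring
    have h3 : 1 + (t + t^2) + (t+t^2)^2/2 ≤ Real.exp (t+t^2) :=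
      Real.quadratic_le_exp_of_nonneg (by positivity)
    have h4 : Real.exp (-(t + t^2)) * Real.exp (t+t^2) = 1 := by
      rw [← Real.exp_add]; simp
    have h7 : 1 ≤ (1 - t) * (1 + (t + t^2) + (t+t^2)^2/2) := by
      have : (1 - t) * (1 + (t + t^2) + (t+t^2)^2/2) = 1 + t^2 * ((1+t)^2*(1-t)/2 - t) := by ring
      rw [this]
      have : 0 ≤ ((1+t)^2*(1-t)/2 - t) := by nlinarith [mul_nonneg ht0 ht0, mul_nonneg ht0 (sub_nonneg.mpr ht1), mul_nonneg (mul_nonneg ht0 ht0) (sub_nonneg.mpr ht1)]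
      nlinarith [mul_nonneg (mul_nonneg ht0 ht0) this]
    rw [hx']
    have h8 : 1 + x = 1 - t := by rw [ht]; ring
    rw [h8]
    have h9 : 1 ≤ (1-t) * Real.exp (t+t^2) := by
      calc 1 ≤ _ := h7
        _ ≤ _ := mul_le_mul_of_nonneg_left h3 (by linarith)
    have h10 := Real.exp_pos (t+t^2)
    have h11 := Real.exp_pos (-(t+t^2))
    calc Real.exp (-(t+t^2)) = Real.exp (-(t+t^2)) * 1 := by ring
      _ ≤ Real.exp (-(t+t^2)) * ((1-t) * Real.exp (t+t^2)) := mul_le_mul_of_nonneg_left h9 h11.le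
      _ = (1-t) * (Real.exp (-(t + t^2)) * Real.exp (t+t^2)) := by ring
      _ = 1 - t := by rw [h4]; ring


lemma det_one_add_ge {d : ℕ} (H : Matrix (Fin d) (Fin d) ℝ) (hH : H.IsHermitian)
    (h : ∑ i, ∑ j, (H i j)^2 ≤ 1/4) :
    Real.exp (H.trace - ∑ i, ∑ j, (H i j)^2) ≤ (1 + H).det := by
  classical
  set μ := hH.eigenvalues with hμ
  have hspec := hH.spectral_theorem
  set U : Matrix (Fin d) (Fin d) ℝ := (hH.eigenvectorUnitary : Matrix (Fin d) (Fin d) ℝ) with hU
  have hUU : U * star U = 1 := by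
    have := hH.eigenvectorUnitary.2
    exact (Matrix.mem_unitaryGroup_iff).mp this
  have hUU' : star U * U = 1 := by
    have := hH.eigenvectorUnitary.2
    exact (Matrix.mem_unitaryGroup_iff').mp this
  have hH' : H = U * diagonal μ * star U := by
    conv_lhs => rw [hspec]
    simp [Unitary.conjStarAlgAut_apply, hU, hμ]
  have htr : H.trace = ∑ i, μ i := by
    rw [hH', Matrix.trace_mul_comm, ← Matrix.mul_assoc, hUU', Matrix.one_mul, Matrix.trace_diagonal]
  have hsq : ∑ i, ∑ j, (H i j)^2 = ∑ i, (μ i)^2 := by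
    have h1 : ∑ i, ∑ j, (H i j)^2 = (H * H).trace := by
      simp only [Matrix.trace, Matrix.diag, Matrix.mul_apply]
      refine Finset.sum_congr rfl fun i _ => Finset.sum_congr rfl fun j _ => ?_
      have := hH.apply i j
      simp at this
      rw [this]; ring
    rw [h1]
    have h2 : H * H = U * (diagonal μ * diagonal μ) * star U := by
      conv_lhs => rw [hH']
      calc U * diagonal μ * star U * (U * diagonal μ * star U)
          = U * diagonal μ * (star U * U) * diagonal μ * star U := by simp only [Matrix.mul_assoc]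
        _ = _ := by rw [hUU']; simp only [Matrix.mul_assoc, Matrix.mul_one]
    rw [h2, Matrix.trace_mul_comm, ← Matrix.mul_assoc, hUU', Matrix.one_mul, Matrix.diagonal_mul_diagonal, Matrix.trace_diagonal]
    refine Finset.sum_congr rfl fun i _ => by ring
  have hdet : (1 + H).det = ∏ i, (1 + μ i) := by
    have h2 : 1 + H = U * diagonal (fun i => 1 + μ i) * star U := by
      have h3 : diagonal (fun i => 1 + μ i) = 1 + diagonal μ := by
        ext i j
        by_cases hij : i = j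
        · subst hij; simp
        · simp [hij]
      rw [h3, Matrix.mul_add, Matrix.add_mul, Matrix.mul_one, hUU, ← hH']
    rw [h2, Matrix.det_mul_right_comm, hUU, Matrix.one_mul, Matrix.det_diagonal]
  rw [hdet, htr, hsq, ← Finset.sum_sub_distrib, Real.exp_sum]
  refine Finset.prod_le_prod (fun i _ => (Real.exp_pos _).le) fun i _ => ?_
  have h3 : (μ i)^2 ≤ 1/4 := by
    calc (μ i)^2 ≤ ∑ i, (μ i)^2 := Finset.single_le_sum (f := fun i => (μ i)^2) (fun i _ => sq_nonneg _) (Finset.mem_univ i)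
      _ ≤ 1/4 := by rw [← hsq]; exact h
  have h4 : |μ i| ≤ 1/2 := abs_le_of_sq_le_sq (by nlinarith) (by norm_num)
  exact exp_le_one_add _ (abs_le.mp h4).1 (abs_le.mp h4).2




/-- the quantitative rigidity inequality -/
lemma rigid {d : ℕ} (hd : 3 ≤ d) (H : Matrix (Fin d) (Fin d) ℝ) (η : ℝ) (hη : 0 ≤ η)
    (h1 : ∀ i j, i ≠ j → 2 * |H i j| ≤ H i i + H j j + 4 * η)
    (h2 : H.trace - ∑ i, ∑ j, (H i j)^2 ≤ 4 * d * η)
    (h3 : ∀ i j, |H i j| ≤ 1 / (2 * (d:ℝ)^3)) :
    ∀ i j, |H i j| ≤ 20 * (d:ℝ)^2 * η := by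
  classical
  have hd' : (3:ℝ) ≤ d := by exact_mod_cast hd
  have hd0 : (0:ℝ) < d := by linarith
  set τ := H.trace + 4 * ((d:ℝ)-1) * η with hτ
  have hcard : ((Finset.univ : Finset (Fin d)).card : ℝ) = d := by simp
  have hij : ∀ i j, i ≠ j → 0 ≤ H i i + H j j + 4 * η := fun i j h => by
    have := h1 i j h
    have := abs_nonneg (H i j)
    linarith
  -- for each i, trace bound
  have hrow : ∀ i, H i i * (2 - (d:ℝ)) - 4 * ((d:ℝ)-1) * η ≤ H.trace := by
    intro i
    have e1 : H.trace = H i i + ∑ j ∈ Finset.univ.erase i, H j j := by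
      rw [Matrix.trace, ← Finset.add_sum_erase _ _ (Finset.mem_univ i)]; rfl
    have e2 : ∑ j ∈ Finset.univ.erase i, (-(H i i) - 4*η) ≤ ∑ j ∈ Finset.univ.erase i, H j j := by
      apply Finset.sum_le_sum
      intro j hj
      have := hij i j (Finset.ne_of_mem_erase hj).symm
      linarith
    rw [Finset.sum_const, Finset.card_erase_of_mem (Finset.mem_univ i), Finset.card_univ, Fintype.card_fin, nsmul_eq_mul] at e2
    have e3 : ((d - 1 : ℕ) : ℝ) = (d:ℝ) - 1 := by
      rw [Nat.cast_sub (by omega)]; simp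
    rw [e3] at e2
    rw [e1]
    nlinarith
  have hτ0 : 0 ≤ τ := by
    by_contra hneg
    push Not at hneg
    have hpos : ∀ i, 0 < H i i := by
      intro i
      have := hrow i
      have h5 : H i i * (2 - (d:ℝ)) ≤ τ := by rw [hτ]; linarith
      have h6 : H i i * (2 - (d:ℝ)) < 0 := lt_of_le_of_lt h5 hneg
      by_contra hc
      push Not at hc
      nlinarith
    have : 0 ≤ H.trace := Finset.sum_nonneg fun i _ => (hpos i).le
    have : 0 ≤ τ := by
      rw [hτ]
      have : 0 ≤ 4 * ((d:ℝ)-1) * η := by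
        apply mul_nonneg (by linarith) hη
      linarith
    linarith
  have hlow : ∀ i, -τ ≤ H i i := by
    intro i
    have h4 := hrow i
    have h5 : H i i * (2 - (d:ℝ)) ≤ τ := by rw [hτ]; linarith
    by_contra hc
    push Not at hc
    nlinarith
  have hup : ∀ i, H i i ≤ d * τ := by
    intro i
    have e1 : H.trace = H i i + ∑ j ∈ Finset.univ.erase i, H j j := by
      rw [Matrix.trace, ← Finset.add_sum_erase _ _ (Finset.mem_univ i)]; rfl
    have e2 : ∑ j ∈ Finset.univ.erase i, (-τ) ≤ ∑ j ∈ Finset.univ.erase i, H j j := by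
      apply Finset.sum_le_sum
      intro j hj
      exact hlow j
    rw [Finset.sum_const, Finset.card_erase_of_mem (Finset.mem_univ i), Finset.card_univ, Fintype.card_fin, nsmul_eq_mul] at e2
    have e3 : ((d - 1 : ℕ) : ℝ) = (d:ℝ) - 1 := by
      rw [Nat.cast_sub (by omega)]; simp
    rw [e3] at e2
    have e4 : H.trace ≤ τ := by
      rw [hτ]
      have : 0 ≤ 4 * ((d:ℝ)-1) * η := by
        apply mul_nonneg (by linarith) hη
      linarith
    nlinarith
  have hall : ∀ i j, |H i j| ≤ d * τ + 2 * η := by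
    intro i j
    by_cases h : i = j
    · subst h
      rw [abs_le]
      constructor
      · have := hlow i
        nlinarith
      · have := hup i
        linarith
    · have a1 := h1 i j h
      have a2 := hup i
      have a3 := hup j
      linarith
  -- sup
  obtain ⟨m, hm0, hm, hmax⟩ : ∃ m : ℝ, 0 ≤ m ∧ (∀ i j, |H i j| ≤ m) ∧ (∃ i j, m = |H i j|) := by
    have : Nonempty (Fin d) := ⟨⟨0, by omega⟩⟩
    obtain ⟨⟨i, j⟩, hij'⟩ := Finite.exists_max (fun p : Fin d × Fin d => |H p.1 p.2|)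
    exact ⟨|H i j|, abs_nonneg _, fun a b => hij' (a, b), i, j, rfl⟩
  have hsq : ∑ i, ∑ j, (H i j)^2 ≤ (d:ℝ)^2 * m^2 := by
    calc ∑ i, ∑ j, (H i j)^2 ≤ ∑ i : Fin d, ∑ j : Fin d, m^2 := by
          refine Finset.sum_le_sum fun i _ => Finset.sum_le_sum fun j _ => ?_
          rw [← sq_abs]
          exact pow_le_pow_left₀ (abs_nonneg _) (hm i j) 2
      _ = (d:ℝ)^2 * m^2 := by simp; ring
  obtain ⟨i0, j0, hm1⟩ := hmax
  have k1 : m ≤ d * τ + 2 * η := by rw [hm1]; exact hall i0 j0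
  have k2 : m ≤ 1 / (2 * (d:ℝ)^3) := by rw [hm1]; exact h3 i0 j0
  have k3 : τ ≤ (d:ℝ)^2 * m^2 + 8 * d * η := by
    rw [hτ]
    nlinarith
  have k4 : (d:ℝ)^3 * m ≤ 1/2 := by
    rw [le_div_iff₀ (by positivity)] at k2
    linarith
  have k5 : m ≤ (d:ℝ)^3 * m * m + 8 * (d:ℝ)^2 * η + 2 * η := by
    calc m ≤ d * τ + 2 * η := k1
      _ ≤ d * ((d:ℝ)^2 * m^2 + 8 * d * η) + 2 * η := by
          have := mul_le_mul_of_nonneg_left k3 hd0.le
          linarith
      _ = _ := by ring
  have k6 : (d:ℝ)^3 * m * m ≤ 1/2 * m := mul_le_mul_of_nonneg_right k4 hm0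
  have k7 : 2 * η ≤ 2 * (d:ℝ)^2 * η := by
    have : (1:ℝ) ≤ (d:ℝ)^2 := by nlinarith
    nlinarith
  have k8 : m ≤ 20 * (d:ℝ)^2 * η := by linarith
  intro i j
  exact (hm i j).trans k8




variable {n : ℕ}

def G (n : ℕ) : Matrix (Fin (n+1)) (Fin (n+1)) ℝ :=
  fun i j => (if i = j then 1 else 0) + (if i = 0 then 1 else 0)
noncomputable def Gi (n : ℕ) : Matrix (Fin (n+1)) (Fin (n+1)) ℝ :=
  fun i j => (if i = j then 1 else 0) - (if i = 0 then 1/2 else 0)

lemma G_eq : G n = 1 + Matrix.of (fun i _ => if i = 0 then 1 else 0) := by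
  ext i j; simp [G, Matrix.one_apply]
lemma Gi_eq : Gi n = 1 - (1/2:ℝ) • Matrix.of (fun i _ => if i = 0 then 1 else 0) := by
  ext i j; simp [Gi, Matrix.one_apply]

lemma E_mul_E : (Matrix.of (fun i _ => if i = 0 then 1 else 0) : Matrix (Fin (n+1)) (Fin (n+1)) ℝ) *
    (Matrix.of (fun i _ => if i = 0 then 1 else 0)) = Matrix.of (fun i _ => if i = 0 then 1 else 0) := by
  ext i j
  simp [Matrix.mul_apply]

lemma G_mul_Gi : G n * Gi n = 1 := by
  rw [G_eq, Gi_eq, Matrix.add_mul, Matrix.mul_sub, Matrix.mul_sub]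
  simp only [Matrix.one_mul, Matrix.mul_one, Matrix.mul_smul, E_mul_E]
  ext i j
  simp only [Matrix.add_apply, Matrix.sub_apply, Matrix.smul_apply, Matrix.of_apply, Matrix.one_apply, smul_eq_mul]
  split_ifs <;> norm_num

lemma Gi_mul_G : Gi n * G n = 1 := mul_eq_one_comm.mp G_mul_Gi

def wvec (z : Fin (n+1) → ℤ) : Fin (n+1) → ℤ := fun i => z i + if i = 0 then ∑ j, z j else 0

lemma G_mulVec (z : Fin (n+1) → ℤ) :
    (G n).mulVec (fun i => (z i:ℝ)) = fun i => (wvec z i : ℝ) := by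
  ext i
  simp only [Matrix.mulVec, dotProduct, G, wvec, add_mul, Finset.sum_add_distrib]
  by_cases h : i = 0 <;> simp [h]

lemma sum_wvec (z : Fin (n+1) → ℤ) : ∑ i, wvec z i = 2 * ∑ i, z i := by
  simp [wvec, Finset.sum_add_distrib]; ring

lemma even_sq (z : Fin (n+1) → ℤ) : Even (∑ i, (wvec z i)^2) := by
  have h1 : ∑ i, (wvec z i)^2 = ∑ i, (wvec z i) + ∑ i, (wvec z i * (wvec z i - 1)) := by
    rw [← Finset.sum_add_distrib]
    refine Finset.sum_congr rfl fun i _ => by ring
  rw [h1, sum_wvec]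
  refine Even.add (even_two_mul _) ?_
  refine Finset.sum_induction _ _ (fun a b => Even.add) (by simp) fun i _ => ?_
  exact Int.even_mul_pred_self _

lemma wvec_ne {z : Fin (n+1) → ℤ} (hz : z ≠ 0) : wvec z ≠ 0 := by
  intro h
  have h1 : ∑ i, z i = 0 := by
    have := sum_wvec z
    rw [h] at this
    simp at this
    linarith
  apply hz
  ext i
  have := congrFun h i
  simp only [wvec, h1] at this
  simpa using this

lemma wvec_surj (w : Fin (n+1) → ℤ) (hw : Even (∑ i, w i)) : ∃ z, wvec z = w := by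
  obtain ⟨s, hs⟩ := hw
  refine ⟨fun i => w i - if i = 0 then s else 0, ?_⟩
  ext i
  simp only [wvec, Finset.sum_sub_distrib, hs]
  by_cases h : i = 0 <;> simp [h]

lemma wvec_zero : wvec (0 : Fin (n+1) → ℤ) = 0 := by
  ext i; simp [wvec]

/-- quadratic form identity -/
lemma quad (M : Matrix (Fin (n+1)) (Fin (n+1)) ℝ) (w : Fin (n+1) → ℝ) :
    (M.mulVec w) ⬝ᵥ (M.mulVec w) = w ⬝ᵥ w + w ⬝ᵥ ((Mᵀ * M - 1).mulVec w) := by
  rw [Matrix.sub_mulVec, Matrix.one_mulVec, dotProduct_sub, ← Matrix.mulVec_mulVec, Matrix.dotProduct_mulVec w Mᵀ, Matrix.vecMul_transpose]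
  ring

lemma quad_root (H : Matrix (Fin (n+1)) (Fin (n+1)) ℝ) (hH : H.IsHermitian) (i j : Fin (n+1)) (s t : ℝ) :
    (Pi.single i s + Pi.single j t) ⬝ᵥ (H.mulVec (Pi.single i s + Pi.single j t)) =
      s^2 * H i i + t^2 * H j j + 2 * s * t * H i j := by
  have h := hH.apply i j
  simp at h
  simp [Matrix.mulVec_add, h]
  ring

lemma root_dot (i j : Fin (n+1)) (hij : i ≠ j) (s t : ℝ) :
    (Pi.single i s + Pi.single j t : Fin (n+1) → ℝ) ⬝ᵥ (Pi.single i s + Pi.single j t) = s^2 + t^2 := by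
  simp [hij, hij.symm]
  ring

lemma quad_bound (H : Matrix (Fin (n+1)) (Fin (n+1)) ℝ) (h : ℝ) (hH : ∀ i j, |H i j| ≤ h)
    (w : Fin (n+1) → ℝ) : |w ⬝ᵥ (H.mulVec w)| ≤ h * (n+1) * (w ⬝ᵥ w) := by
  have h0 : 0 ≤ h := (abs_nonneg _).trans (hH 0 0)
  have e1 : w ⬝ᵥ (H.mulVec w) = ∑ i, ∑ j, w i * H i j * w j := by
    simp only [dotProduct, Matrix.mulVec, Finset.mul_sum, mul_assoc]
  rw [e1]
  calc |∑ i, ∑ j, w i * H i j * w j| ≤ ∑ i, ∑ j, |w i * H i j * w j| :=
        (Finset.abs_sum_le_sum_abs _ _).trans (Finset.sum_le_sum fun i _ => Finset.abs_sum_le_sum_abs _ _)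
    _ ≤ ∑ i, ∑ j, h * ((w i)^2/2 + (w j)^2/2) := by
        refine Finset.sum_le_sum fun i _ => Finset.sum_le_sum fun j _ => ?_
        rw [abs_mul, abs_mul]
        have a1 : |w i| * |w j| ≤ (w i)^2/2 + (w j)^2/2 := by
          nlinarith [sq_nonneg (|w i| - |w j|), sq_abs (w i), sq_abs (w j)]
        have a2 := hH i j
        calc |w i| * |H i j| * |w j| = |H i j| * (|w i| * |w j|) := by ring
          _ ≤ h * (|w i| * |w j|) := mul_le_mul_of_nonneg_right a2 (by positivity)
          _ ≤ _ := mul_le_mul_of_nonneg_left a1 h0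
    _ = h * (n+1) * (w ⬝ᵥ w) := by
        simp only [dotProduct, ← Finset.mul_sum, Finset.sum_add_distrib, Finset.sum_const, Finset.card_univ, Fintype.card_fin, nsmul_eq_mul, ← Finset.sum_div]
        push_cast
        have : ∑ i, w i * w i = ∑ i, (w i)^2 := Finset.sum_congr rfl fun i _ => by ring
        rw [this]
        ring

def rootv (i j : Fin (n+1)) (b : Bool) : Fin (n+1) → ℝ :=
  if b then (if i < j then Pi.single i 1 + Pi.single j 1 else Pi.single i (-1) + Pi.single j (-1))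
  else Pi.single i 1 + Pi.single j (-1)

/-- integer vectors of square norm two -/
lemma int_root (w : Fin (n+1) → ℤ) (hw : ∑ i, (w i)^2 = 2) :
    ∃ i j b, i ≠ j ∧ (fun k => (w k : ℝ)) = rootv i j b := by
  have h1 : ∃ i, w i ≠ 0 := by
    by_contra hc
    push Not at hc
    simp [hc] at hw
  obtain ⟨i, hi⟩ := h1
  have hle : ∀ k, (w k)^2 ≤ 2 := fun k => by
    rw [← hw]; exact Finset.single_le_sum (f := fun i => (w i)^2) (fun i _ => sq_nonneg _) (Finset.mem_univ k)
  have hval : ∀ k, w k = 0 ∨ w k = 1 ∨ w k = -1 := fun k => by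
    have := hle k
    have h3 : w k < 2 := by nlinarith
    have h4 : -2 < w k := by nlinarith
    omega
  have hsq : ∀ k, w k ≠ 0 → (w k)^2 = 1 := fun k hk => by
    rcases hval k with h | h | h <;> simp_all
  have e1 : ∑ k ∈ Finset.univ.erase i, (w k)^2 = 1 := by
    have := Finset.add_sum_erase Finset.univ (fun k => (w k)^2) (Finset.mem_univ i)
    rw [hw, hsq i hi] at this
    linarith
  have h2 : ∃ j ∈ Finset.univ.erase i, w j ≠ 0 := by
    by_contra hc
    push Not at hc
    rw [Finset.sum_eq_zero (fun k hk => by rw [hc k hk]; rfl)] at e1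
    exact absurd e1 (by norm_num)
  obtain ⟨j, hj, hj0⟩ := h2
  have hji : j ≠ i := Finset.ne_of_mem_erase hj
  have e2 : ∑ k ∈ (Finset.univ.erase i).erase j, (w k)^2 = 0 := by
    have := Finset.add_sum_erase (Finset.univ.erase i) (fun k => (w k)^2) hj
    rw [e1, hsq j hj0] at this
    linarith
  have h3 : ∀ k, k ≠ i → k ≠ j → w k = 0 := by
    intro k hki hkj
    have := (Finset.sum_eq_zero_iff_of_nonneg (fun k _ => sq_nonneg (w k))).mp e2 k (by simp [hki, hkj])
    exact pow_eq_zero_iff (by norm_num) |>.mp this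
  have key : ∀ s t : ℝ, (w i : ℝ) = s → (w j : ℝ) = t → (fun k => (w k : ℝ)) = Pi.single i s + Pi.single j t := by
    intro s t hs ht
    ext k
    by_cases hki : k = i
    · subst hki; simp [hs, hji.symm]
    · by_cases hkj : k = j
      · subst hkj; simp [ht, hki]
      · simp [h3 k hki hkj, hki, hkj]
  rcases hval i with hwi | hwi | hwi
  · exact absurd hwi hi
  · rcases hval j with hwj | hwj | hwj
    · exact absurd hwj hj0
    · rcases lt_or_gt_of_ne hji with hlt | hlt
      · refine ⟨j, i, true, hji, ?_⟩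
        rw [key 1 1 (by simp [hwi]) (by simp [hwj])]
        simp [rootv, hlt, add_comm]
      · refine ⟨i, j, true, hji.symm, ?_⟩
        rw [key 1 1 (by simp [hwi]) (by simp [hwj])]
        simp [rootv, hlt]
    · refine ⟨i, j, false, hji.symm, ?_⟩
      rw [key 1 (-1) (by simp [hwi]) (by simp [hwj])]
      simp [rootv]
  · rcases hval j with hwj | hwj | hwj
    · exact absurd hwj hj0
    · refine ⟨j, i, false, hji, ?_⟩
      rw [key (-1) 1 (by simp [hwi]) (by simp [hwj])]
      simp [rootv, add_comm]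
    · rcases lt_or_gt_of_ne hji with hlt | hlt
      · refine ⟨i, j, true, hji.symm, ?_⟩
        rw [key (-1) (-1) (by simp [hwi]) (by simp [hwj])]
        simp [rootv, not_lt.mpr hlt.le]
      · refine ⟨j, i, true, hji, ?_⟩
        rw [key (-1) (-1) (by simp [hwi]) (by simp [hwj])]
        simp [rootv, not_lt.mpr hlt.le, add_comm]



end Pool.Agent.S06424
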