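import Mathlib
import Pool.Agent.S06424Aux
set_option autoImplicit false
open scoped Pointwise
open Matrix
namespace Pool.Agent.S06424

variable {n : ℕ}

lemma pack_lower (C : Set (Fin (n+1) → ℝ)) (η : ℝ)
    (hin : ∀ x, x ⬝ᵥ x ≤ (1-η)^2 → x ∈ C) (A : Matrix (Fin (n+1)) (Fin (n+1)) ℝ)
    (hP : ∀ z : Fin (n+1) → ℤ, z ≠ 0 → A.mulVec (fun i => (z i : ℝ)) ∉ interior ((2:ℝ) • C))
    (z : Fin (n+1) → ℤ) (hz : z ≠ 0) :
    4 * (1-η)^2 ≤ (A.mulVec (fun i => (z i : ℝ))) ⬝ᵥ (A.mulVec (fun i => (z i : ℝ))) := by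
  by_contra hc
  push Not at hc
  apply hP z hz
  have hO : IsOpen {x : Fin (n+1) → ℝ | x ⬝ᵥ x < 4 * (1-η)^2} := by
    apply isOpen_lt _ continuous_const
    simp only [dotProduct]
    fun_prop
  refine interior_maximal ?_ hO hc
  intro x hx
  refine ⟨(1/2:ℝ) • x, hin _ ?_, ?_⟩
  · simp only [smul_dotProduct, dotProduct_smul, smul_eq_mul]
    simp only [Set.mem_ofPred_eq] at hx
    linarith
  · simp [smul_smul]

lemma mem_two_smul (C : Set (Fin (n+1) → ℝ)) (η : ℝ)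
    (hout : ∀ x ∈ C, x ⬝ᵥ x ≤ (1+η)^2) (x : Fin (n+1) → ℝ) (hx : x ∈ (2:ℝ) • C) :
    x ⬝ᵥ x ≤ 4 * (1+η)^2 := by
  obtain ⟨y, hy, rfl⟩ := hx
  have := hout y hy
  simp only [smul_dotProduct, dotProduct_smul, smul_eq_mul]
  linarith

lemma exists_eps (U : Set (Matrix (Fin (n+1)) (Fin (n+1)) ℝ)) (hU : IsOpen U) (A : Matrix (Fin (n+1)) (Fin (n+1)) ℝ)
    (hA : A ∈ U) : ∃ ε : ℝ, 0 < ε ∧ ∀ B : Matrix (Fin (n+1)) (Fin (n+1)) ℝ, (∀ i j, |B i j - A i j| < ε) → B ∈ U := by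
  have hU' : IsOpen {f : Fin (n+1) → Fin (n+1) → ℝ | Matrix.of f ∈ U} :=
    hU.preimage (f := fun f : Fin (n+1) → Fin (n+1) → ℝ => Matrix.of f) continuous_id
  obtain ⟨ε, hε, h⟩ := Metric.isOpen_iff.mp hU' (fun i j => A i j) hA
  refine ⟨ε, hε, fun B hB => h (a := fun i j => B i j) ?_⟩
  rw [Metric.mem_ball]
  rw [dist_pi_lt_iff hε]
  intro i
  rw [dist_pi_lt_iff hε]
  intro j
  rw [Real.dist_eq]
  exact hB i j

noncomputable def A0 (M : Matrix (Fin (n+1)) (Fin (n+1)) ℝ) : Matrix (Fin (n+1)) (Fin (n+1)) ℝ :=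
  (Real.sqrt 2) • (M * G n)

noncomputable def M0 (A : Matrix (Fin (n+1)) (Fin (n+1)) ℝ) : Matrix (Fin (n+1)) (Fin (n+1)) ℝ :=
  (Real.sqrt 2)⁻¹ • (A * Gi n)

lemma A0_M0 (A : Matrix (Fin (n+1)) (Fin (n+1)) ℝ) : A0 (M0 A) = A := by
  rw [A0, M0, Matrix.smul_mul, smul_smul, Matrix.mul_assoc, Gi_mul_G, Matrix.mul_one, mul_inv_cancel₀ (by positivity), one_smul]

lemma M0_A0 (A : Matrix (Fin (n+1)) (Fin (n+1)) ℝ) : M0 (A0 A) = A := by
  rw [A0, M0, Matrix.smul_mul, smul_smul, Matrix.mul_assoc, G_mul_Gi, Matrix.mul_one, inv_mul_cancel₀ (by positivity), one_smul]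

lemma A0_mulVec (M : Matrix (Fin (n+1)) (Fin (n+1)) ℝ) (z : Fin (n+1) → ℤ) :
    (A0 M).mulVec (fun i => (z i : ℝ)) = (Real.sqrt 2) • M.mulVec (fun i => (wvec z i : ℝ)) := by
  rw [A0, Matrix.smul_mulVec, ← Matrix.mulVec_mulVec, G_mulVec]

lemma A0_dot (M : Matrix (Fin (n+1)) (Fin (n+1)) ℝ) (z : Fin (n+1) → ℤ) :
    (A0 M).mulVec (fun i => (z i : ℝ)) ⬝ᵥ (A0 M).mulVec (fun i => (z i : ℝ)) =
      2 * ((fun i => (wvec z i : ℝ)) ⬝ᵥ (fun i => (wvec z i : ℝ)) +
        (fun i => (wvec z i : ℝ)) ⬝ᵥ ((Mᵀ * M - 1).mulVec (fun i => (wvec z i : ℝ)))) := by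
  rw [A0_mulVec, smul_dotProduct, dotProduct_smul, smul_smul, Real.mul_self_sqrt (by norm_num), quad, smul_eq_mul]

lemma det_A0 (M : Matrix (Fin (n+1)) (Fin (n+1)) ℝ) :
    (A0 M).det = (Real.sqrt 2)^(n+1) * (G n).det * M.det := by
  rw [A0, Matrix.det_smul, Matrix.det_mul, Fintype.card_fin]; ring

lemma det_G_ne : (G n).det ≠ 0 := by
  have h : (G n).det * (Gi n).det = 1 := by rw [← Matrix.det_mul, G_mul_Gi, Matrix.det_one]
  intro h0
  rw [h0] at h
  simp at h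

lemma cast_dot (w : Fin (n+1) → ℤ) : (fun i => (w i : ℝ)) ⬝ᵥ (fun i => (w i : ℝ)) = ((∑ i, (w i)^2 : ℤ) : ℝ) := by
  simp only [dotProduct]
  push_cast
  refine Finset.sum_congr rfl fun i _ => by ring

lemma herm (M : Matrix (Fin (n+1)) (Fin (n+1)) ℝ) : (Mᵀ * M - 1).IsHermitian := by
  unfold Matrix.IsHermitian
  simp [Matrix.conjTranspose_eq_transpose_of_trivial, Matrix.transpose_mul]

/-- integer root vectors come from the lattice -/
lemma root_exists (i j : Fin (n+1)) (hij : i ≠ j) (s t : ℤ) (hs : s^2 = 1) (ht : t^2 = 1) :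
    ∃ z : Fin (n+1) → ℤ, z ≠ 0 ∧ (fun k => (wvec z k : ℝ)) = Pi.single i (s:ℝ) + Pi.single j (t:ℝ) := by
  have hs' : s = 1 ∨ s = -1 := by
    have : (s - 1) * (s + 1) = 0 := by linarith [hs, show (s-1)*(s+1) = s^2 - 1 by ring]
    rcases mul_eq_zero.mp this with h | h
    · left; linarith
    · right; linarith
  have ht' : t = 1 ∨ t = -1 := by
    have : (t - 1) * (t + 1) = 0 := by linarith [ht, show (t-1)*(t+1) = t^2 - 1 by ring]
    rcases mul_eq_zero.mp this with h | h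
    · left; linarith
    · right; linarith
  obtain ⟨z, hz⟩ := wvec_surj (Pi.single i s + Pi.single j t) (by
    simp only [Pi.add_apply, Finset.sum_add_distrib, Finset.sum_pi_single', Finset.mem_univ, if_true]
    rcases hs' with h | h <;> rcases ht' with h' | h' <;> rw [h, h'] <;> decide)
  refine ⟨z, ?_, ?_⟩
  · rintro rfl
    rw [wvec_zero] at hz
    have := congrFun hz i
    simp [hij] at this
    rw [← this] at hs
    simp at hs
  · ext k
    rw [hz]
    simp only [Pi.add_apply]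
    push_cast
    congr 1
    · by_cases h : k = i
      · subst h; simp
      · simp [h]
    · by_cases h : k = j
      · subst h; simp
      · simp [h]



lemma two_le (z : Fin (n+1) → ℤ) (hz : z ≠ 0) : 2 ≤ ∑ i, (wvec z i)^2 := by
  have h1 : 0 < ∑ i, (wvec z i)^2 := by
    have h0 := wvec_ne hz
    obtain ⟨i, hi⟩ := Function.ne_iff.mp h0
    have : 0 < (wvec z i)^2 := by
      have : wvec z i ≠ 0 := hi
      positivity
    exact lt_of_lt_of_le this (Finset.single_le_sum (f := fun i => (wvec z i)^2) (fun i _ => sq_nonneg _) (Finset.mem_univ i))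
  obtain ⟨k, hk⟩ := even_sq z
  omega

lemma isCompact_box : IsCompact {M : Matrix (Fin (n+1)) (Fin (n+1)) ℝ | ∀ i j, M i j ∈ Set.Icc (-2:ℝ) 2} := by
  have h1 : IsCompact (Set.univ.pi fun _ : Fin (n+1) => Set.univ.pi fun _ : Fin (n+1) => Set.Icc (-2:ℝ) 2) :=
    isCompact_univ_pi fun _ => isCompact_univ_pi fun _ => isCompact_Icc
  have h2 := h1.image (f := fun f : Fin (n+1) → Fin (n+1) → ℝ => Matrix.of f) continuous_id
  convert h2 using 1
  ext M
  constructor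
  · intro hM
    refine ⟨fun i j => M i j, fun i _ j _ => hM i j, rfl⟩
  · rintro ⟨f, hf, rfl⟩ i j
    exact hf i trivial j trivial

def TT (C : Set (Fin (n+1) → ℝ)) (ε : ℝ) : Set (Matrix (Fin (n+1)) (Fin (n+1)) ℝ) :=
  {M | (∀ i j, |(Mᵀ * M - 1) i j| ≤ ε) ∧ ∀ z : Fin (n+1) → ℤ, z ≠ 0 → (A0 M).mulVec (fun i => (z i : ℝ)) ∉ interior ((2:ℝ) • C)}

lemma cont_H : Continuous fun M : Matrix (Fin (n+1)) (Fin (n+1)) ℝ => Mᵀ * M - 1 :=
  (continuous_id.matrix_transpose.matrix_mul continuous_id).sub continuous_const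

lemma cont_A0 : Continuous fun M : Matrix (Fin (n+1)) (Fin (n+1)) ℝ => A0 M := by
  unfold A0
  have h : Continuous fun M : Matrix (Fin (n+1)) (Fin (n+1)) ℝ => M * G n :=
    continuous_id.matrix_mul continuous_const
  exact h.const_smul (Real.sqrt 2)

lemma cont_M0 : Continuous fun M : Matrix (Fin (n+1)) (Fin (n+1)) ℝ => M0 M := by
  unfold M0
  have h : Continuous fun M : Matrix (Fin (n+1)) (Fin (n+1)) ℝ => M * Gi n :=
    continuous_id.matrix_mul continuous_const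
  exact h.const_smul ((Real.sqrt 2)⁻¹)

lemma isCompact_TT (C : Set (Fin (n+1) → ℝ)) (ε : ℝ) (hε : ε ≤ 1) : IsCompact (TT C ε) := by
  refine isCompact_box.of_isClosed_subset ?_ ?_
  · have : TT C ε = (⋂ i, ⋂ j, {M | |(Mᵀ * M - 1) i j| ≤ ε}) ∩
        ⋂ z : Fin (n+1) → ℤ, ⋂ _ : z ≠ 0, {M | (A0 M).mulVec (fun i => (z i : ℝ)) ∉ interior ((2:ℝ) • C)} := by
      ext M; simp [TT]
    rw [this]
    refine IsClosed.inter ?_ ?_
    · refine isClosed_iInter fun i => isClosed_iInter fun j => ?_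
      exact isClosed_le ((cont_H.matrix_elem i j).abs) continuous_const
    · refine isClosed_iInter fun z => isClosed_iInter fun hz => ?_
      have hc : Continuous fun M : Matrix (Fin (n+1)) (Fin (n+1)) ℝ => (A0 M).mulVec (fun i => (z i : ℝ)) :=
        cont_A0.matrix_mulVec continuous_const
      exact (isOpen_interior.isClosed_compl).preimage hc
  · rintro M ⟨hM, -⟩ i j
    have h1 := hM j j
    have h2 : (Mᵀ * M - 1) j j = ∑ k, (M k j)^2 - 1 := by
      simp [Matrix.mul_apply, sq]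
    rw [h2] at h1
    have h3 := (abs_le.mp h1).2
    have h4 : (M i j)^2 ≤ ∑ k, (M k j)^2 := Finset.single_le_sum (f := fun k => (M k j)^2) (fun i _ => sq_nonneg _) (Finset.mem_univ i)
    have h5 : (M i j)^2 ≤ 2^2 := by linarith
    have := abs_le_of_sq_le_sq h5 (by norm_num)
    exact abs_le.mp this

theorem exists_local_max (hn : 2 ≤ n) (C : Set (Fin (n+1) → ℝ)) (η : ℝ) (hη : η = 1/(80*((n:ℝ)+1)^5))
    (hin : ∀ x, x ⬝ᵥ x ≤ (1-η)^2 → x ∈ C) (hout : ∀ x ∈ C, x ⬝ᵥ x ≤ (1+η)^2) :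
    ∃ A : Matrix (Fin (n+1)) (Fin (n+1)) ℝ, A.det ≠ 0 ∧
      (∀ z : Fin (n+1) → ℤ, z ≠ 0 → A.mulVec (fun i => (z i : ℝ)) ∉ interior ((2:ℝ) • C)) ∧
      (∃ ε : ℝ, 0 < ε ∧ ∀ B : Matrix (Fin (n+1)) (Fin (n+1)) ℝ, (∀ i j, |B i j - A i j| < ε) → B.det ≠ 0 →
        (∀ z : Fin (n+1) → ℤ, z ≠ 0 → B.mulVec (fun i => (z i : ℝ)) ∉ interior ((2:ℝ) • C)) →
        |A.det| ≤ |B.det|) ∧
      Set.ncard {v : Fin (n+1) → ℝ | v ≠ 0 ∧ v ∈ (2:ℝ) • C ∧
        ∃ z : Fin (n+1) → ℤ, v = A.mulVec (fun i => (z i : ℝ))} ≠ 2 * (n+1)^2 := by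
  classical
  set D : ℝ := (n:ℝ) + 1 with hD
  have hD3 : 3 ≤ D := by
    have : (2:ℝ) ≤ n := by exact_mod_cast hn
    linarith
  have hD0 : 0 < D := by linarith
  set ε : ℝ := 1/(2*D^3) with hε
  have hε0 : 0 < ε := by positivity
  have hD3' : (27:ℝ) ≤ D^3 := by
    calc (27:ℝ) = 3^3 := by norm_num
      _ ≤ D^3 := pow_le_pow_left₀ (by norm_num) hD3 3
  have hε1 : ε ≤ 1/54 := by
    rw [hε]; apply div_le_div_of_nonneg_left (by norm_num) (by norm_num); linarith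
  have hη0 : 0 < η := by rw [hη]; positivity
  have hηε : 40 * D^2 * η = ε := by
    rw [hη, hε]; field_simp; norm_num
  have hD2 : (9:ℝ) ≤ D^2 := by nlinarith
  have hηs : 360 * η ≤ ε := by
    rw [← hηε]; nlinarith
  have hη1 : η ≤ 1/1000 := by linarith
  -- the scaled D_n lattice is in TT
  set M1 : Matrix (Fin (n+1)) (Fin (n+1)) ℝ := (1+2*η) • 1 with hM1
  have hM1H : M1ᵀ * M1 - 1 = ((1+2*η)^2 - 1) • (1 : Matrix (Fin (n+1)) (Fin (n+1)) ℝ) := by
    rw [hM1]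
    simp only [Matrix.transpose_smul, Matrix.transpose_one, Matrix.smul_mul, Matrix.mul_smul, Matrix.one_mul, smul_smul, sub_smul, one_smul]
    congr 2
    ring
  have hM1T : M1 ∈ TT C ε := by
    refine ⟨fun i j => ?_, fun z hz => ?_⟩
    · rw [hM1H, Matrix.smul_apply, Matrix.one_apply]
      have : 0 ≤ (1+2*η)^2 - 1 := by nlinarith
      split_ifs
      · simp only [smul_eq_mul, mul_one]
        rw [abs_of_nonneg this]
        nlinarith
      · simp [hε0.le]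
    · intro hmem
      have h1 := mem_two_smul C η hout _ (interior_subset hmem)
      rw [A0_dot, hM1H, Matrix.smul_mulVec, Matrix.one_mulVec, dotProduct_smul, smul_eq_mul, cast_dot] at h1
      have h2 : (2:ℝ) ≤ ((∑ i, (wvec z i)^2 : ℤ) : ℝ) := by exact_mod_cast two_le z hz
      nlinarith
  obtain ⟨M, hMT, hMmin⟩ := (isCompact_TT C ε (by linarith)).exists_isMinOn ⟨M1, hM1T⟩
    ((continuous_id.matrix_det).abs.continuousOn (s := TT C ε))
  have hmin : ∀ B ∈ TT C ε, |M.det| ≤ |B.det| := fun B hB => hMmin hB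
  set H := Mᵀ * M - 1 with hH
  have hHh : H.IsHermitian := herm M
  have hT1 : ∀ i j, |H i j| ≤ ε := hMT.1
  have hcast : (((n+1:ℕ):ℝ)) = D := by rw [hD]; push_cast; ring
  have r1 : ∀ i j, i ≠ j → 2 * |H i j| ≤ H i i + H j j + 4 * η := by
    intro i j hij
    have key : ∀ t : ℤ, t^2 = 1 → -(2 * (t:ℝ) * H i j) ≤ H i i + H j j + 4 * η := by
      intro t ht
      obtain ⟨z, hz, hzw⟩ := root_exists i j hij 1 t (by norm_num) ht
      have h1 := pack_lower C η hin (A0 M) hMT.2 z hz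
      rw [A0_dot, hzw, root_dot i j hij, ← hH, quad_root H hHh] at h1
      have ht' : (t:ℝ)^2 = 1 := by exact_mod_cast ht
      rw [ht'] at h1
      push_cast at h1
      nlinarith
    have k1 := key 1 (by norm_num)
    have k2 := key (-1) (by norm_num)
    push_cast at k1 k2
    rcases abs_cases (H i j) with ⟨h, _⟩ | ⟨h, _⟩ <;> rw [h] <;> linarith
  have hsq : ∑ i, ∑ j, (H i j)^2 ≤ 1/4 := by
    calc ∑ i, ∑ j, (H i j)^2 ≤ ∑ i : Fin (n+1), ∑ j : Fin (n+1), ε^2 := by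
          refine Finset.sum_le_sum fun i _ => Finset.sum_le_sum fun j _ => ?_
          rw [← sq_abs]
          exact pow_le_pow_left₀ (abs_nonneg _) (hT1 i j) 2
      _ = (D * ε)^2 := by
          simp only [Finset.sum_const, Finset.card_univ, Fintype.card_fin, nsmul_eq_mul]
          rw [hcast]; ring
      _ ≤ 1/4 := by
          have : D * ε ≤ 1/2 := by
            rw [hε]
            rw [mul_one_div, div_le_div_iff₀ (by positivity) (by norm_num)]
            nlinarith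
          have h0 : 0 ≤ D * ε := by positivity
          nlinarith
  have hdetH : (1 + H).det = M.det^2 := by
    rw [hH, add_sub_cancel, Matrix.det_mul, Matrix.det_transpose]; ring
  have hexp := det_one_add_ge H hHh hsq
  have r2 : H.trace - ∑ i, ∑ j, (H i j)^2 ≤ 4 * ((n+1:ℕ):ℝ) * η := by
    have h1 : |M.det| ≤ |M1.det| := hmin M1 hM1T
    have h2 : M1.det = (1+2*η)^(n+1) := by
      rw [hM1, Matrix.det_smul, Matrix.det_one, Fintype.card_fin, mul_one]
    have h3 : M.det^2 ≤ ((1+2*η)^(n+1))^2 := by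
      rw [← h2]; exact sq_le_sq.mpr h1
    have h4 : (1+2*η) ≤ Real.exp (2*η) := by
      have := Real.add_one_le_exp (2*η); linarith
    have h5 : ((1+2*η)^(n+1))^2 ≤ Real.exp (4 * ((n+1:ℕ):ℝ) * η) := by
      calc ((1+2*η)^(n+1))^2 ≤ ((Real.exp (2*η))^(n+1))^2 := by gcongr
        _ = Real.exp (4 * ((n+1:ℕ):ℝ) * η) := by
            rw [← Real.exp_nat_mul, ← Real.exp_nat_mul]; congr 1; push_cast; ring
    have h6 : Real.exp (H.trace - ∑ i, ∑ j, (H i j)^2) ≤ Real.exp (4 * ((n+1:ℕ):ℝ) * η) := by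
      calc _ ≤ (1+H).det := hexp
        _ = M.det^2 := hdetH
        _ ≤ _ := h3.trans h5
    exact Real.exp_le_exp.mp h6
  have hrig := rigid (d := n+1) (by omega) H η hη0.le r1 r2 (by
    intro i j
    rw [hcast]
    exact hT1 i j)
  have hsmall : ∀ i j, |H i j| ≤ ε/2 := by
    intro i j
    have := hrig i j
    rw [hcast] at this
    linarith
  have hdetM : M.det ≠ 0 := by
    intro h0
    rw [hdetH, h0] at hexp
    have := Real.exp_pos (H.trace - ∑ i, ∑ j, (H i j)^2)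
    simp at hexp
    linarith
  refine ⟨A0 M, ?_, hMT.2, ?_, ?_⟩
  · rw [det_A0]
    exact mul_ne_zero (mul_ne_zero (by positivity) det_G_ne) hdetM
  · have hU : IsOpen {B : Matrix (Fin (n+1)) (Fin (n+1)) ℝ | ∀ i j, |((M0 B)ᵀ * (M0 B) - 1) i j| < ε} := by
      have : {B : Matrix (Fin (n+1)) (Fin (n+1)) ℝ | ∀ i j, |((M0 B)ᵀ * (M0 B) - 1) i j| < ε} =
          ⋂ i, ⋂ j, {B | |((M0 B)ᵀ * (M0 B) - 1) i j| < ε} := by ext; simp
      rw [this]
      refine isOpen_iInter_of_finite fun i => isOpen_iInter_of_finite fun j => ?_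
      exact isOpen_lt (((cont_H.comp cont_M0).matrix_elem i j).abs) continuous_const
    obtain ⟨δ, hδ, hδU⟩ := exists_eps _ hU (A0 M) (by
      intro i j
      rw [M0_A0]
      have := hsmall i j
      rw [← hH]
      linarith)
    refine ⟨δ, hδ, fun B hB _ hBP => ?_⟩
    have h1 := hδU B hB
    have h2 : M0 B ∈ TT C ε := by
      refine ⟨fun i j => (h1 i j).le, ?_⟩
      rw [A0_M0]; exact hBP
    have h3 := hmin _ h2
    rw [← A0_M0 B, det_A0, det_A0, abs_mul (_ * _) M.det, abs_mul (_ * _) (M0 B).det]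
    exact mul_le_mul_of_nonneg_left h3 (abs_nonneg _)
  · set F : (Fin (n+1) × Fin (n+1)) × Bool → (Fin (n+1) → ℝ) :=
      fun p => (Real.sqrt 2) • M.mulVec (rootv p.1.1 p.1.2 p.2) with hF
    set S : Finset (Fin (n+1) → ℝ) := Finset.image F ((Finset.univ : Finset (Fin (n+1))).offDiag ×ˢ Finset.univ) with hS
    have hsub : {v : Fin (n+1) → ℝ | v ≠ 0 ∧ v ∈ (2:ℝ) • C ∧
        ∃ z : Fin (n+1) → ℤ, v = (A0 M).mulVec (fun i => (z i : ℝ))} ⊆ ↑S := by
      rintro v ⟨hv0, hvC, z, hz⟩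
      have hz0 : z ≠ 0 := by
        rintro rfl
        apply hv0
        rw [hz]
        have : (fun i => (((0 : Fin (n+1) → ℤ) i : ℤ) : ℝ)) = (0 : Fin (n+1) → ℝ) := by ext; simp
        rw [this, Matrix.mulVec_zero]
      have h1 := mem_two_smul C η hout v hvC
      rw [hz, A0_dot, ← hH] at h1
      have h2 := quad_bound H (ε/2) hsmall (fun i => (wvec z i : ℝ))
      have h3 := (abs_le.mp h2).1
      rw [cast_dot] at h1 h3
      set q : ℤ := ∑ i, (wvec z i)^2 with hq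
      have h4 : q < 4 := by
        by_contra hc
        push Not at hc
        have hc' : (4:ℝ) ≤ (q:ℝ) := by exact_mod_cast hc
        have h5 : ε/2 * ((n:ℝ)+1) ≤ 1/36 := by
          rw [← hD, hε]
          rw [div_div, div_mul_eq_mul_div, one_mul, div_le_div_iff₀ (by positivity) (by norm_num)]
          nlinarith
        nlinarith
      have h6 := two_le z hz0
      obtain ⟨k, hk⟩ := even_sq z
      have h7 : ∑ i, (wvec z i)^2 = 2 := by omega
      obtain ⟨i, j, b, hij, hw⟩ := int_root _ h7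
      rw [hS]
      simp only [Finset.coe_image, Set.mem_image, Finset.mem_coe]
      refine ⟨((i, j), b), ?_, ?_⟩
      · simp [hij]
      · rw [hF, hz, A0_mulVec, hw]
    have hcard : S.card ≤ ((n+1)*(n+1) - (n+1)) * 2 := by
      rw [hS]
      refine Finset.card_image_le.trans ?_
      rw [Finset.card_product, Finset.offDiag_card]
      simp
    have hle : Set.ncard {v : Fin (n+1) → ℝ | v ≠ 0 ∧ v ∈ (2:ℝ) • C ∧
        ∃ z : Fin (n+1) → ℤ, v = (A0 M).mulVec (fun i => (z i : ℝ))} ≤ S.card := by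
      rw [← Set.ncard_coe_finset]
      exact Set.ncard_le_ncard hsub (Finset.finite_toSet _)
    intro heq
    rw [heq] at hle
    have : 2 * (n+1)^2 ≤ ((n+1)*(n+1) - (n+1)) * 2 := hle.trans hcard
    have h8 : (n+1)*(n+1) - (n+1) < (n+1)^2 := by
      rw [sq]; apply Nat.sub_lt <;> positivity
    omega

end Pool.Agent.S06424
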