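import Pool.Statements.S06424
import Pool.Agent.S06424Main
set_option autoImplicit false
open scoped Pointwise
open Pool Pool.MP_73fc50_co
open TopologicalSpace Matrix

namespace Pool.Agent.S06424

/-- closed unit Euclidean ball -/
def EB (d : ℕ) : Set (Fin d → ℝ) := {x | x ⬝ᵥ x ≤ 1}

lemma cs {d : ℕ} (x y : Fin d → ℝ) : (x ⬝ᵥ y)^2 ≤ (x ⬝ᵥ x) * (y ⬝ᵥ y) := by
  simp only [dotProduct]
  have := Finset.sum_mul_sq_le_sq_mul_sq Finset.univ x y
  simpa [sq] using this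

lemma dot_nonneg' {d : ℕ} (x : Fin d → ℝ) : 0 ≤ x ⬝ᵥ x := by
  simp only [dotProduct]
  exact Finset.sum_nonneg fun i _ => mul_self_nonneg _

lemma abs_dot_le {d : ℕ} (x y : Fin d → ℝ) (a b : ℝ) (ha : 0 ≤ a) (hb : 0 ≤ b) (hx : x ⬝ᵥ x ≤ a^2) (hy : y ⬝ᵥ y ≤ b^2) :
    |x ⬝ᵥ y| ≤ a * b := by
  apply abs_le_of_sq_le_sq _ (by positivity)
  calc (x ⬝ᵥ y)^2 ≤ (x ⬝ᵥ x) * (y ⬝ᵥ y) := cs x y
    _ ≤ a^2 * b^2 := mul_le_mul hx hy (dot_nonneg' _) (by positivity)
    _ = (a*b)^2 := by ring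

lemma EB_convex (d : ℕ) : Convex ℝ (EB d) := by
  intro x hx y hy a b ha hb hab
  simp only [EB, Set.mem_ofPred_eq] at *
  have h := abs_dot_le x y 1 1 (by norm_num) (by norm_num) (by linarith) (by linarith)
  have h1 := (abs_le.mp h).2
  have e : (a • x + b • y) ⬝ᵥ (a • x + b • y) = a^2 * (x ⬝ᵥ x) + 2*a*b*(x ⬝ᵥ y) + b^2 * (y ⬝ᵥ y) := by
    simp only [add_dotProduct, dotProduct_add, smul_dotProduct, dotProduct_smul, smul_eq_mul, dotProduct_comm y x]
    ring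
  rw [e]
  have hab2 : a^2 + 2*a*b + b^2 = 1 := by
    have : (a+b)^2 = 1 := by rw [hab]; norm_num
    linarith [show (a+b)^2 = a^2+2*a*b+b^2 by ring]
  nlinarith [mul_nonneg ha hb, mul_nonneg ha ha, mul_nonneg hb hb, mul_nonneg (mul_nonneg ha hb) (show (0:ℝ) ≤ 1 by norm_num)]

lemma EB_compact (d : ℕ) : IsCompact (EB d) := by
  have h1 : IsCompact (Set.univ.pi fun _ : Fin d => Set.Icc (-1:ℝ) 1) := isCompact_univ_pi fun _ => isCompact_Icc
  refine h1.of_isClosed_subset ?_ ?_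
  · apply isClosed_le _ continuous_const
    simp only [dotProduct]; fun_prop
  · intro x hx i _
    simp only [EB, Set.mem_ofPred_eq, dotProduct] at hx
    have h4 : x i * x i ≤ 1 := le_trans (Finset.single_le_sum (f := fun k => x k * x k) (fun i _ => mul_self_nonneg _) (Finset.mem_univ i)) hx
    have h5 : (x i)^2 ≤ 1^2 := by nlinarith
    exact abs_le.mp (abs_le_of_sq_le_sq h5 (by norm_num))

lemma EB_zero (d : ℕ) : (0 : Fin d → ℝ) ∈ EB d := by simp [EB]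

lemma EB_neg (d : ℕ) (x : Fin d → ℝ) (hx : x ∈ EB d) : -x ∈ EB d := by
  simpa [EB] using hx

lemma small_dot {d : ℕ} (e : Fin d → ℝ) (δ : ℝ) (hδ : 0 ≤ δ) (h : ∀ i, |e i| ≤ δ) : e ⬝ᵥ e ≤ ((d:ℝ) * δ)^2 := by
  simp only [dotProduct]
  calc ∑ i, e i * e i ≤ ∑ i : Fin d, δ * δ := by
        refine Finset.sum_le_sum fun i _ => ?_
        rw [← abs_mul_abs_self]
        exact mul_le_mul (h i) (h i) (abs_nonneg _) hδ
    _ = d * δ^2 := by
        rw [Finset.sum_const, Finset.card_univ, Fintype.card_fin, nsmul_eq_mul]; ring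
    _ ≤ (d:ℝ)^2 * δ^2 := by
        have : (d:ℝ) ≤ (d:ℝ)^2 := by
          rcases Nat.eq_zero_or_pos d with h | h
          · subst h; simp
          · have : (1:ℝ) ≤ d := by exact_mod_cast h
            nlinarith
        exact mul_le_mul_of_nonneg_right this (sq_nonneg _)
    _ = _ := by ring

/-- Hausdorff-close bodies: outer inclusion -/
lemma outer {d : ℕ} (K : Set (Fin d → ℝ)) (δ η : ℝ) (hδ : 0 < δ) (hη : d * δ ≤ η)
    (hfin : Metric.hausdorffEDist K (EB d) ≠ ⊤)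
    (hK : Metric.hausdorffDist K (EB d) < δ) (x : Fin d → ℝ) (hx : x ∈ K) : x ⬝ᵥ x ≤ (1+η)^2 := by
  obtain ⟨b, hb, hxb⟩ := Metric.exists_dist_lt_of_hausdorffDist_lt hx hK hfin
  have he : ∀ i, |(x - b) i| ≤ δ := fun i => by
    have := (dist_pi_lt_iff hδ).mp hxb i
    rw [Real.dist_eq] at this
    exact this.le
  have h1 := small_dot (x - b) δ hδ.le he
  have hη0 : 0 ≤ η := le_trans (by positivity) hη
  have h2 : (x - b) ⬝ᵥ (x - b) ≤ η^2 := h1.trans (pow_le_pow_left₀ (by positivity) hη 2)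
  have hb' : b ⬝ᵥ b ≤ 1^2 := by simpa [EB] using hb
  have h3 := (abs_le.mp (abs_dot_le b (x-b) 1 η (by norm_num) hη0 hb' h2)).2
  have e : x ⬝ᵥ x = b ⬝ᵥ b + 2 * (b ⬝ᵥ (x-b)) + (x-b) ⬝ᵥ (x-b) := by
    simp only [dotProduct_sub, sub_dotProduct, dotProduct_comm x b]
    ring
  rw [e]
  nlinarith

/-- inner inclusion -/
lemma inner' {d : ℕ} (K : Set (Fin d → ℝ)) (hc : Convex ℝ K) (hcl : IsClosed K) (hne : K.Nonempty) (δ η : ℝ) (hδ : 0 < δ) (hη : d * δ ≤ η) (hη1 : η < 1)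
    (hfin : Metric.hausdorffEDist K (EB d) ≠ ⊤)
    (hK : Metric.hausdorffDist K (EB d) < δ) (y : Fin d → ℝ) (hy : y ⬝ᵥ y ≤ (1-η)^2) : y ∈ K := by
  by_contra hyK
  obtain ⟨f, u, hfu, huy⟩ := geometric_hahn_banach_closed_point hc hcl hyK
  set w : Fin d → ℝ := fun i => f (Pi.single i 1) with hw
  have hfw : ∀ x, f x = w ⬝ᵥ x := by
    intro x
    have hx : x = ∑ i, x i • (Pi.single i (1:ℝ) : Fin d → ℝ) := by
      ext j
      simp [Finset.sum_apply, Pi.single_apply]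
    conv_lhs => rw [hx]
    rw [map_sum]
    simp only [map_smul, smul_eq_mul, dotProduct, hw]
    exact Finset.sum_congr rfl fun i _ => mul_comm _ _
  have hww : 0 < w ⬝ᵥ w := by
    rcases (dot_nonneg' w).lt_or_eq with h | h
    · exact h
    · exfalso
      have hw0 : w = 0 := dotProduct_self_eq_zero.mp h.symm
      obtain ⟨a, ha⟩ := hne
      have h1 := hfu a ha
      rw [hfw, hw0] at h1 huy
      simp at h1 huy
      linarith
  set N := Real.sqrt (w ⬝ᵥ w) with hN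
  have hN0 : 0 < N := Real.sqrt_pos.mpr hww
  have hN2 : N^2 = w ⬝ᵥ w := Real.sq_sqrt hww.le
  have hbE : N⁻¹ • w ∈ EB d := by
    simp only [EB, Set.mem_ofPred_eq, smul_dotProduct, dotProduct_smul, smul_eq_mul, ← hN2]
    field_simp
    exact le_refl _
  obtain ⟨x, hx, hxb⟩ := Metric.exists_dist_lt_of_hausdorffDist_lt' hbE hK hfin
  have he : ∀ i, |(x - N⁻¹ • w) i| ≤ δ := fun i => by
    have := (dist_pi_lt_iff hδ).mp hxb i
    rw [Real.dist_eq] at this
    exact this.le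
  have h1 := small_dot _ δ hδ.le he
  have hη0 : 0 ≤ η := le_trans (by positivity) hη
  have h2 : (x - N⁻¹ • w) ⬝ᵥ (x - N⁻¹ • w) ≤ η^2 := h1.trans (pow_le_pow_left₀ (by positivity) hη 2)
  have h3 := (abs_le.mp (abs_dot_le w (x- N⁻¹ • w) N η hN0.le hη0 hN2.ge h2)).1
  have h4 := (abs_le.mp (abs_dot_le w y N (1-η) hN0.le (by linarith) hN2.ge hy)).2
  have h5 : w ⬝ᵥ (x - N⁻¹ • w) = w ⬝ᵥ x - N := by
    rw [dotProduct_sub, dotProduct_smul, ← hN2, smul_eq_mul]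
    field_simp
  have h6 := hfu x hx
  rw [hfw] at h6 huy
  rw [h5] at h3
  nlinarith


/-- symmetric convex nonempty compacts -/
def ZZ (d : ℕ) : Set (NonemptyCompacts (Fin d → ℝ)) :=
  {K | Convex ℝ (K : Set (Fin d → ℝ)) ∧ ∀ x ∈ (K : Set (Fin d → ℝ)), -x ∈ (K : Set (Fin d → ℝ))}

lemma nc_edist_ne_top {d : ℕ} (K L : NonemptyCompacts (Fin d → ℝ)) :
    Metric.hausdorffEDist (K : Set (Fin d → ℝ)) L ≠ ⊤ :=
  Metric.hausdorffEDist_ne_top_of_nonempty_of_bounded K.nonempty L.nonempty K.isCompact.isBounded L.isCompact.isBounded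

lemma isClosed_ZZ (d : ℕ) : IsClosed (ZZ d) := by
  refine isClosed_of_closure_subset fun K hK => ?_
  rw [Metric.mem_closure_iff] at hK
  have hcl : IsClosed (K : Set (Fin d → ℝ)) := K.isCompact.isClosed
  constructor
  · intro x hx y hy a b ha hb hab
    rw [← hcl.closure_eq, Metric.mem_closure_iff]
    intro ε hε
    obtain ⟨L, hL, hKL⟩ := hK (ε/3) (by positivity)
    change Metric.hausdorffDist (K : Set (Fin d → ℝ)) L < _ at hKL
    obtain ⟨x', hx', hxx⟩ := Metric.exists_dist_lt_of_hausdorffDist_lt hx hKL (nc_edist_ne_top K L)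
    obtain ⟨y', hy', hyy⟩ := Metric.exists_dist_lt_of_hausdorffDist_lt hy hKL (nc_edist_ne_top K L)
    have hz := hL.1 hx' hy' ha hb hab
    obtain ⟨z, hz1, hz2⟩ := Metric.exists_dist_lt_of_hausdorffDist_lt' hz hKL (nc_edist_ne_top K L)
    refine ⟨z, hz1, ?_⟩
    have h1 : dist (a • x + b • y) (a • x' + b • y') ≤ ε/3 := by
      rw [dist_eq_norm]
      have : a • x + b • y - (a • x' + b • y') = a • (x - x') + b • (y - y') := by
        simp only [smul_sub]; abel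
      rw [this]
      calc ‖a • (x - x') + b • (y - y')‖ ≤ ‖a • (x - x')‖ + ‖b • (y - y')‖ := norm_add_le _ _
        _ = a * ‖x - x'‖ + b * ‖y - y'‖ := by rw [norm_smul, norm_smul, Real.norm_of_nonneg ha, Real.norm_of_nonneg hb]
        _ ≤ a * (ε/3) + b * (ε/3) := by
            rw [dist_eq_norm] at hxx hyy
            gcongr
        _ = ε/3 := by rw [← add_mul, hab, one_mul]
    have h2 : dist z (a • x' + b • y') < ε/3 := hz2
    have h3 := dist_triangle (a • x + b • y) (a • x' + b • y') z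
    rw [dist_comm z] at h2
    linarith
  · intro x hx
    rw [← hcl.closure_eq, Metric.mem_closure_iff]
    intro ε hε
    obtain ⟨L, hL, hKL⟩ := hK (ε/3) (by positivity)
    change Metric.hausdorffDist (K : Set (Fin d → ℝ)) L < _ at hKL
    obtain ⟨x', hx', hxx⟩ := Metric.exists_dist_lt_of_hausdorffDist_lt hx hKL (nc_edist_ne_top K L)
    have hz := hL.2 x' hx'
    obtain ⟨z, hz1, hz2⟩ := Metric.exists_dist_lt_of_hausdorffDist_lt' hz hKL (nc_edist_ne_top K L)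
    refine ⟨z, hz1, ?_⟩
    have h1 : dist (-x) (-x') < ε/3 := by rw [dist_neg_neg]; exact hxx
    have h3 := dist_triangle (-x) (-x') z
    rw [dist_comm z] at hz2
    linarith

/-- The Euclidean ball as a point of `ZZ d`. -/
def ballZ (d : ℕ) : ZZ d :=
  ⟨⟨⟨EB d, EB_compact d⟩, ⟨0, EB_zero d⟩⟩, EB_convex d, EB_neg d⟩

theorem not_meagre_of_ball (d : ℕ) (δ : ℝ) (hδ : 0 < δ)
    (S : Set {K : ConvexBody (Fin d → ℝ) //
        (∀ x ∈ (K : Set (Fin d → ℝ)), -x ∈ (K : Set (Fin d → ℝ))) ∧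
        (interior (K : Set (Fin d → ℝ))).Nonempty})
    (hint : ∀ K : NonemptyCompacts (Fin d → ℝ), K ∈ ZZ d → Metric.hausdorffDist (K : Set (Fin d → ℝ)) (EB d) < δ →
      (interior (K : Set (Fin d → ℝ))).Nonempty)
    (hS : ∀ K : {K : ConvexBody (Fin d → ℝ) //
        (∀ x ∈ (K : Set (Fin d → ℝ)), -x ∈ (K : Set (Fin d → ℝ))) ∧
        (interior (K : Set (Fin d → ℝ))).Nonempty}, Metric.hausdorffDist (K.1 : Set (Fin d → ℝ)) (EB d) < δ → K ∈ S) :
    ¬ IsMeagre S := by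
  intro hm
  have : CompleteSpace (ZZ d) := (isClosed_ZZ d).completeSpace_coe
  set j : {K : ConvexBody (Fin d → ℝ) //
        (∀ x ∈ (K : Set (Fin d → ℝ)), -x ∈ (K : Set (Fin d → ℝ))) ∧
        (interior (K : Set (Fin d → ℝ))).Nonempty} → ZZ d :=
    fun K => ⟨⟨⟨(K.1 : Set (Fin d → ℝ)), K.1.isCompact⟩, K.1.nonempty⟩, K.1.convex, K.2.1⟩ with hj
  have hiso : Isometry j := by
    refine Isometry.of_dist_eq fun K L => ?_
    rfl
  have h1 : IsMeagre (j '' S) := hiso.isUniformInducing.isInducing.isMeagre_image hm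
  refine not_isMeagre_of_isOpen (Metric.isOpen_ball (x := ballZ d) (ε := δ)) ⟨ballZ d, Metric.mem_ball_self hδ⟩ (h1.mono ?_)
  rintro ⟨K, hK⟩ hKb
  have hd : Metric.hausdorffDist (K : Set (Fin d → ℝ)) (EB d) < δ := hKb
  have hi := hint K hK hd
  refine ⟨⟨⟨(K : Set (Fin d → ℝ)), hK.1, K.isCompact, K.nonempty⟩, hK.2, hi⟩, hS _ hd, ?_⟩
  rfl


/-- The negation of the preceding statement: For all large d, all but a meagre set of o-symmetric convex bodies C in R^d have this property: every locally densest packing lattice of C has exactly 2d^2 nonzero lattice points in 2C, i.e. kissing number 2d^2. -/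
theorem result :
    ¬ (∃ d₀ : ℕ, ∀ d : ℕ, d₀ ≤ d →
    IsMeagre {C : {K : ConvexBody (Fin d → ℝ) //
        (∀ x ∈ (K : Set (Fin d → ℝ)), -x ∈ (K : Set (Fin d → ℝ))) ∧
        (interior (K : Set (Fin d → ℝ))).Nonempty} |
      ∃ A : Matrix (Fin d) (Fin d) ℝ,
        A.det ≠ 0 ∧
        (∀ z : Fin d → ℤ, z ≠ 0 →
          A.mulVec (fun i => (z i : ℝ)) ∉ interior ((2:ℝ) • (C.1 : Set (Fin d → ℝ)))) ∧
        (∃ ε : ℝ, 0 < ε ∧ ∀ B : Matrix (Fin d) (Fin d) ℝ,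
          (∀ i j, |B i j - A i j| < ε) → B.det ≠ 0 →
          (∀ z : Fin d → ℤ, z ≠ 0 →
            B.mulVec (fun i => (z i : ℝ)) ∉ interior ((2:ℝ) • (C.1 : Set (Fin d → ℝ)))) →
          |A.det| ≤ |B.det|) ∧
        Set.ncard {v : Fin d → ℝ | v ≠ 0 ∧ v ∈ (2:ℝ) • (C.1 : Set (Fin d → ℝ)) ∧
          ∃ z : Fin d → ℤ, v = A.mulVec (fun i => (z i : ℝ))} ≠ 2 * d ^ 2}) := by
  rintro ⟨d₀, hd₀⟩
  set n := max d₀ 2 with hn
  have hn2 : 2 ≤ n := le_max_right _ _
  have hm := hd₀ (n+1) (by have := le_max_left d₀ 2; omega)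
  set D : ℝ := (n:ℝ) + 1 with hD
  have hD3 : 3 ≤ D := by
    have : (2:ℝ) ≤ n := by exact_mod_cast hn2
    linarith
  set η : ℝ := 1/(80*D^5) with hη
  have hη0 : 0 < η := by positivity
  have hη1 : η < 1/2 := by
    rw [hη, div_lt_div_iff₀ (by positivity) (by norm_num)]
    have : (1:ℝ) ≤ D^5 := one_le_pow₀ (by linarith)
    linarith
  set δ : ℝ := η / D with hδ
  have hδ0 : 0 < δ := by positivity
  have hδη : ((n+1:ℕ):ℝ) * δ ≤ η := by
    have : ((n+1:ℕ):ℝ) = D := by push_cast; rfl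
    rw [this, hδ]
    field_simp
    exact le_refl _
  refine not_meagre_of_ball (n+1) δ hδ0 _ ?_ ?_ hm
  · intro K hK hd
    have hfin : Metric.hausdorffEDist (K : Set (Fin (n+1) → ℝ)) (EB (n+1)) ≠ ⊤ :=
      nc_edist_ne_top K (ballZ (n+1)).1
    have hin := inner' (K : Set (Fin (n+1) → ℝ)) hK.1 K.isCompact.isClosed K.nonempty δ η hδ0 hδη (by linarith) hfin hd
    refine ⟨0, ?_⟩
    have hO : IsOpen {x : Fin (n+1) → ℝ | x ⬝ᵥ x < (1-η)^2} := by
      apply isOpen_lt _ continuous_const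
      simp only [dotProduct]
      fun_prop
    have hsub : {x : Fin (n+1) → ℝ | x ⬝ᵥ x < (1-η)^2} ⊆ (K : Set (Fin (n+1) → ℝ)) :=
      fun x hx => hin x (le_of_lt hx)
    have h0 : (0 : Fin (n+1) → ℝ) ∈ {x : Fin (n+1) → ℝ | x ⬝ᵥ x < (1-η)^2} := by
      have : (0:ℝ) < 1 - η := by linarith
      have h2 : (0 : Fin (n+1) → ℝ) ⬝ᵥ (0 : Fin (n+1) → ℝ) < (1-η)^2 := by
        rw [dotProduct_zero]; positivity
      exact h2
    exact interior_maximal hsub hO h0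
  · intro K hd
    have hfin : Metric.hausdorffEDist (K.1 : Set (Fin (n+1) → ℝ)) (EB (n+1)) ≠ ⊤ :=
      Metric.hausdorffEDist_ne_top_of_nonempty_of_bounded K.1.nonempty ⟨0, EB_zero _⟩ K.1.isBounded (EB_compact _).isBounded
    have hin := inner' (K.1 : Set (Fin (n+1) → ℝ)) K.1.convex K.1.isClosed K.1.nonempty δ η hδ0 hδη (by linarith) hfin hd
    have hout := outer (K.1 : Set (Fin (n+1) → ℝ)) δ η hδ0 hδη hfin hd
    exact exists_local_max hn2 (K.1 : Set (Fin (n+1) → ℝ)) η hη hin hout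

end Pool.Agent.S06424
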