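import Pool.Statements.S06495

set_option autoImplicit false
open Pool Pool.MP_79384d_co

namespace Pool.Agent.S06495

/-- The symmetric conference matrix of order 6. -/
def C6 : Fin 6 → Fin 6 → ℤ :=
  ![![0, 1, 1, 1, 1, 1], ![1, 0, 1, -1, -1, 1], ![1, 1, 0, 1, -1, -1],
    ![1, -1, 1, 0, 1, -1], ![1, -1, -1, 1, 0, 1], ![1, 1, -1, -1, 1, 0]]

/-- The block of an index. -/
def blk (i : Fin 18) : Fin 6 := ⟨i.val / 3, by omega⟩

/-- The matrix `(C6 + I) ⊗ J₃ - I` over the integers, as a function. -/
def fZ (i j : Fin 18) : ℤ :=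
  if i = j then 0 else if blk i = blk j then 1 else C6 (blk i) (blk j)

theorem fZ_symm : ∀ i j, fZ i j = fZ j i := by decide +kernel

theorem fZ_diag : ∀ i, fZ i i = 0 := by decide +kernel

theorem fZ_off : ∀ i j, i ≠ j → fZ i j = 1 ∨ fZ i j = -1 := by decide +kernel

def SZ : Matrix (Fin 18) (Fin 18) ℤ := Matrix.of fZ

theorem SZ_poly : (SZ + 1) * (SZ * SZ - 4 * SZ - 41) = 0 := by
  decide +kernel

/-- (C+I) is invertible: integer combination of the rows of S + I inside a block. -/
theorem fZ_row : ∀ j : Fin 18, (∑ i : Fin 18, (if i.val = 0 then -1 else if i.val % 3 = 0 then 1 else 0) * (fZ i j + if i = j then 1 else 0)) = if j.val / 3 = 0 then 4 else 0 := by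
  decide +kernel

theorem fZ_u : ∀ i, ∑ j, fZ i j * (if j.val < 3 then 1 else 0) = 2 * (if i.val < 3 then 1 else 0) + 3 * (if i.val < 3 then 0 else 1) := by
  decide +kernel

theorem fZ_w : ∀ i, ∑ j, fZ i j * (if j.val < 3 then 0 else 1) = 15 * (if i.val < 3 then 1 else 0) + 2 * (if i.val < 3 then 0 else 1) := by
  decide +kernel

theorem fZ_x : ∀ i, ∑ j, fZ i j * (if j.val = 0 then 1 else if j.val = 1 then -1 else 0) = - (if i.val = 0 then 1 else if i.val = 1 then -1 else 0) := by
  decide +kernel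

open Matrix in
/-- The real matrix. -/
noncomputable def SR : Matrix (Fin 18) (Fin 18) ℝ := SZ.map (Int.castRingHom ℝ)

theorem SR_apply (i j : Fin 18) : SR i j = (fZ i j : ℝ) := rfl

theorem SR_poly : (SR + 1) * (SR * SR - 4 * SR - 41) = 0 := by
  have h := congrArg (Int.castRingHom ℝ).mapMatrix SZ_poly
  simp only [map_mul, map_add, map_sub, map_one, map_zero, map_ofNat] at h
  exact h

open Matrix in
theorem mulVec_poly {μ : ℝ} {v : Fin 18 → ℝ} (hv : SR *ᵥ v = μ • v) :
    ((SR + 1) * (SR * SR - 4 * SR - 41)) *ᵥ v = ((μ + 1) * (μ * μ - 4 * μ - 41)) • v := by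
  have h4 : ((4 : Matrix (Fin 18) (Fin 18) ℝ) * SR) *ᵥ v = (4 * μ) • v := by
    rw [← mulVec_mulVec, hv, mulVec_smul, ofNat_mulVec, smul_smul, mul_comm μ]
  have h41 : (41 : Matrix (Fin 18) (Fin 18) ℝ) *ᵥ v = (41 : ℝ) • v := by
    rw [ofNat_mulVec]
  rw [← mulVec_mulVec, sub_mulVec, sub_mulVec, ← mulVec_mulVec, hv, mulVec_smul, hv, h4, h41]
  rw [mulVec_sub, mulVec_sub, mulVec_smul, mulVec_smul, mulVec_smul, mulVec_smul, add_mulVec, hv, one_mulVec]
  ext i
  simp only [Pi.add_apply, Pi.sub_apply, Pi.smul_apply, smul_eq_mul]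
  ring

open Matrix in
theorem mem_roots_iff (μ : ℝ) :
    μ ∈ SR.charpoly.roots.toFinset ↔ ∃ v : Fin 18 → ℝ, v ≠ 0 ∧ SR *ᵥ v = μ • v := by
  rw [Multiset.mem_toFinset, Polynomial.mem_roots SR.charpoly_monic.ne_zero,
    Polynomial.IsRoot.def, eval_charpoly, ← exists_mulVec_eq_zero_iff]
  refine exists_congr fun v => and_congr_right fun _ => ?_
  rw [sub_mulVec, scalar_apply, ← smul_one_eq_diagonal, smul_mulVec, one_mulVec, sub_eq_zero]
  exact eq_comm

open Matrix in
theorem roots_eq : SR.charpoly.roots.toFinset = {-1, 2 + 3 * √5, 2 - 3 * √5} := by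
  have h5 : √5 * √5 = (5 : ℝ) := Real.mul_self_sqrt (by norm_num)
  ext μ
  rw [mem_roots_iff]
  simp only [Finset.mem_insert, Finset.mem_singleton]
  constructor
  · rintro ⟨v, hv0, hv⟩
    have h := mulVec_poly hv
    rw [SR_poly, zero_mulVec] at h
    have h1 := (smul_eq_zero.mp h.symm).resolve_right hv0
    have h2 : (μ + 1) * ((μ - (2 + 3 * √5)) * (μ - (2 - 3 * √5))) = 0 := by
      rw [← h1]
      linear_combination (-9) * (μ + 1) * h5
    rcases mul_eq_zero.mp h2 with h3 | h3
    · left; linarith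
    · rcases mul_eq_zero.mp h3 with h4 | h4
      · right; left; linarith
      · right; right; linarith
  · have hu : ∀ i, ∑ j, (fZ i j : ℝ) * (if j.val < 3 then 1 else 0)
        = 2 * (if i.val < 3 then 1 else 0) + 3 * (if i.val < 3 then 0 else 1) := by
      intro i; exact_mod_cast fZ_u i
    have hw : ∀ i, ∑ j, (fZ i j : ℝ) * (if j.val < 3 then 0 else 1)
        = 15 * (if i.val < 3 then 1 else 0) + 2 * (if i.val < 3 then 0 else 1) := by
      intro i; exact_mod_cast fZ_w i
    have hx : ∀ i, ∑ j, (fZ i j : ℝ) * (if j.val = 0 then 1 else if j.val = 1 then -1 else 0)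
        = - (if i.val = 0 then 1 else if i.val = 1 then -1 else 0) := by
      intro i; exact_mod_cast fZ_x i
    have key : ∀ t : ℝ, t * t = 5 → ∃ v : Fin 18 → ℝ, v ≠ 0 ∧ SR *ᵥ v = (2 + 3 * t) • v := by
      intro t ht
      refine ⟨fun j => t * (if j.val < 3 then 1 else 0) + (if j.val < 3 then 0 else 1), ?_, ?_⟩
      · intro h0
        have := congrFun h0 3
        simp at this
      · ext i
        simp only [mulVec, dotProduct, SR_apply, Pi.smul_apply, smul_eq_mul, mul_add,
          Finset.sum_add_distrib, hw]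
        have e1 : ∑ j, (fZ i j : ℝ) * (t * (if j.val < 3 then 1 else 0))
            = t * (2 * (if i.val < 3 then 1 else 0) + 3 * (if i.val < 3 then 0 else 1)) := by
          rw [← hu, Finset.mul_sum]
          exact Finset.sum_congr rfl fun j _ => by ring
        rw [e1]
        split_ifs
        · linear_combination (-3) * ht
        · ring
    rintro (rfl | rfl | rfl)
    · refine ⟨fun j => if j.val = 0 then 1 else if j.val = 1 then -1 else 0, ?_, ?_⟩
      · intro h0
        have := congrFun h0 0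
        simp at this
      · ext i
        simp only [mulVec, dotProduct, SR_apply, hx, Pi.smul_apply, smul_eq_mul]
        ring
    · exact key _ h5
    · have := key (-√5) (by linarith)
      simpa [sub_eq_add_neg] using this

open Matrix in
theorem no_regular (s : Fin 18 → ℝ) (hs : ∀ i, s i = 1 ∨ s i = -1) (c : ℝ)
    (hc : ∀ i, ∑ j, s i * SR i j * s j = c) : False := by
  have hsq : ∀ i, s i * s i = 1 := by
    intro i; rcases hs i with h | h <;> rw [h] <;> norm_num
  -- s is an eigenvector
  have hv : SR *ᵥ s = c • s := by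
    ext i
    simp only [mulVec, dotProduct, Pi.smul_apply, smul_eq_mul]
    rw [← hc i, Finset.sum_mul]
    refine Finset.sum_congr rfl fun j _ => ?_
    have := hsq i
    linear_combination (-(SR i j * s j)) * this
  have hs0 : s ≠ 0 := by
    intro h0
    have h1 := hsq 0
    rw [h0] at h1
    simp at h1
  have hroot : c ∈ SR.charpoly.roots.toFinset := (mem_roots_iff c).mpr ⟨s, hs0, hv⟩
  rw [roots_eq] at hroot
  simp only [Finset.mem_insert, Finset.mem_singleton] at hroot
  -- integer valued signs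
  have hz : ∀ i, ∃ z : ℤ, (z = 1 ∨ z = -1) ∧ s i = z := by
    intro i
    rcases hs i with h | h
    · exact ⟨1, Or.inl rfl, by rw [h]; norm_num⟩
    · exact ⟨-1, Or.inr rfl, by rw [h]; norm_num⟩
  choose z hz1 hz2 using hz
  have hcz : c = ((∑ j, z 0 * fZ 0 j * z j : ℤ) : ℝ) := by
    rw [← hc 0]
    push_cast
    refine Finset.sum_congr rfl fun j _ => ?_
    rw [hz2 0, hz2 j, SR_apply]
  set k : ℤ := ∑ j, z 0 * fZ 0 j * z j with hk
  have hirr : ∀ t : ℝ, t * t = 5 → c ≠ 2 + 3 * t := by
    intro t ht hct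
    have h1 : (k - 2) * (k - 2) = 45 := by
      have h2 : ((k : ℝ) - 2) * ((k : ℝ) - 2) = 45 := by
        rw [← hcz, hct]; linear_combination 9 * ht
      exact_mod_cast h2
    have h3 : k - 2 ≤ 6 := by nlinarith
    have h4 : -6 ≤ k - 2 := by nlinarith
    generalize k - 2 = m at h1 h3 h4
    interval_cases m <;> omega
  have h5 : √5 * √5 = (5 : ℝ) := Real.mul_self_sqrt (by norm_num)
  rcases hroot with h | h | h
  · -- eigenvalue -1: the block sums vanish
    have hS1 : ∀ i, ∑ j, ((fZ i j : ℤ) + if i = j then 1 else 0) * z j = 0 := by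
      intro i
      have h6 : ∑ j, ((fZ i j : ℝ)) * s j = c * s i := by
        have := congrFun hv i
        simpa only [mulVec, dotProduct, Pi.smul_apply, smul_eq_mul, SR_apply] using this
      have h7 : ((∑ j, ((fZ i j : ℤ) + if i = j then 1 else 0) * z j : ℤ) : ℝ) = 0 := by
        push_cast
        simp only [add_mul, Finset.sum_add_distrib]
        have h8 : ∑ j, (fZ i j : ℝ) * (z j : ℝ) = c * s i := by
          rw [← h6]
          exact Finset.sum_congr rfl fun j _ => by rw [hz2 j]
        rw [h8, h, hz2 i]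
        simp
      exact_mod_cast h7
    have h9 : ∑ j, (if (j : Fin 18).val / 3 = 0 then (4:ℤ) else 0) * z j = 0 := by
      have h10 : ∑ j, (if (j : Fin 18).val / 3 = 0 then (4:ℤ) else 0) * z j
          = ∑ i : Fin 18, (if i.val = 0 then -1 else if i.val % 3 = 0 then 1 else 0) *
            ∑ j, ((fZ i j : ℤ) + if i = j then 1 else 0) * z j := by
        simp_rw [Finset.mul_sum]
        rw [Finset.sum_comm]
        refine Finset.sum_congr rfl fun j _ => ?_
        rw [← fZ_row j, Finset.sum_mul]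
        exact Finset.sum_congr rfl fun i _ => by ring
      rw [h10]
      exact Finset.sum_eq_zero fun i _ => by rw [hS1 i, mul_zero]
    have h11 : ∑ j, (if (j : Fin 18).val / 3 = 0 then (4:ℤ) else 0) * z j
        = 4 * z 0 + 4 * z 1 + 4 * z 2 := by
      have e : ∀ j : Fin 18, (if j.val / 3 = 0 then (4:ℤ) else 0) * z j =
          (if j = 0 then 4 * z j else 0) + (if j = 1 then 4 * z j else 0)
            + (if j = 2 then 4 * z j else 0) := by
        intro j
        have hcase : ((if j.val / 3 = 0 then (4:ℤ) else 0) = (if j = 0 then 4 else 0)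
          + (if j = 1 then 4 else 0) + (if j = 2 then 4 else 0)) := by
          revert j; decide +kernel
        rw [hcase, add_mul, add_mul, ite_mul, ite_mul, ite_mul, zero_mul]
      rw [Finset.sum_congr rfl fun j _ => e j, Finset.sum_add_distrib, Finset.sum_add_distrib,
        Finset.sum_ite_eq', Finset.sum_ite_eq', Finset.sum_ite_eq']
      simp
    rw [h11] at h9
    rcases hz1 0 with a | a <;> rcases hz1 1 with b | b <;> rcases hz1 2 with d | d <;>
      rw [a, b, d] at h9 <;> norm_num at h9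
  · exact hirr _ h5 h
  · exact hirr (-√5) (by linarith) (by rw [h]; ring)

theorem result :
    ∃ n : ℕ, 14 ≤ n ∧ ∃ S : Matrix (Fin n) (Fin n) ℝ,
      S.IsSymm ∧ (∀ i, S i i = 0) ∧
      (∀ i j, i ≠ j → S i j = 1 ∨ S i j = -1) ∧
      S.charpoly.roots.toFinset.card = 3 ∧
      ∀ s : Fin n → ℝ, (∀ i, s i = 1 ∨ s i = -1) →
        ¬ ∃ c : ℝ, ∀ i, ∑ j, s i * S i j * s j = c := by
  refine ⟨18, by norm_num, SR, ?_, ?_, ?_, ?_, ?_⟩
  · ext i j
    rw [Matrix.transpose_apply, SR_apply, SR_apply, fZ_symm]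
  · intro i
    rw [SR_apply, fZ_diag]; norm_num
  · intro i j hij
    rw [SR_apply]
    rcases fZ_off i j hij with h | h
    · left; rw [h]; norm_num
    · right; rw [h]; norm_num
  · rw [roots_eq]
    have h5 : 0 < √(5:ℝ) := Real.sqrt_pos.mpr (by norm_num)
    have h6 : √5 * √5 = (5 : ℝ) := Real.mul_self_sqrt (by norm_num)
    have a1 : (-1 : ℝ) ≠ 2 + 3 * √5 := by linarith
    have a2 : (-1 : ℝ) ≠ 2 - 3 * √5 := by
      intro h
      have : √5 = (1:ℝ) := by linarith
      rw [this] at h6; norm_num at h6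
    have a3 : (2 + 3 * √5 : ℝ) ≠ 2 - 3 * √5 := by
      intro h
      linarith
    rw [Finset.card_insert_of_notMem, Finset.card_insert_of_notMem, Finset.card_singleton]
    · simpa using a3
    · simp only [Finset.mem_insert, Finset.mem_singleton, not_or]
      exact ⟨a1, a2⟩
  · rintro s hs ⟨c, hc⟩
    exact no_regular s hs c hc

end Pool.Agent.S06495
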