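import Pool.Statements.S06581

set_option autoImplicit false
open Pool Pool.MP_811355_co

namespace Pool.Agent.S06581

/-- Binary value of a vector. -/
def enc (u : Fin 6 → ZMod 2) : ℕ :=
  (u 0).val + 2 * (u 1).val + 4 * (u 2).val + 8 * (u 3).val + 16 * (u 4).val + 32 * (u 5).val

/-- The 19 connection vectors, in binary. -/
def L : List ℕ := [6, 8, 9, 10, 13, 20, 22, 24, 27, 29, 33, 34, 35, 36, 37, 41, 45, 52, 53]

/-- A proper 6-colouring. -/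
def colL : List ℕ := [0, 1, 1, 1, 4, 5, 1, 2, 2, 2, 4, 2, 2, 1, 0, 3, 0, 1, 5, 3, 4, 5, 5, 5, 3,
  5, 4, 2, 3, 3, 0, 3, 3, 3, 4, 3, 3, 5, 0, 2, 0, 5, 5, 5, 4, 1, 5, 3, 2, 1, 4, 3, 2, 2, 0, 2,
  0, 5, 1, 2, 4, 1, 1, 1]

/-- The vector with given coordinates. -/
def vec (a b c d e f : ZMod 2) : Fin 6 → ZMod 2 := ![a, b, c, d, e, f]

theorem chk : ∀ a0 a1 a2 a3 a4 a5 b0 b1 b2 b3 b4 b5 : ZMod 2,
    (a0 - b0).val + 2 * (a1 - b1).val + 4 * (a2 - b2).val + 8 * (a3 - b3).val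
      + 16 * (a4 - b4).val + 32 * (a5 - b5).val ∈ L →
    colL.getD (a0.val + 2 * a1.val + 4 * a2.val + 8 * a3.val + 16 * a4.val + 32 * a5.val) 0 % 6 ≠
    colL.getD (b0.val + 2 * b1.val + 4 * b2.val + 8 * b3.val + 16 * b4.val + 32 * b5.val) 0 % 6 := by
  decide +kernel

/-- The graph. -/
def G : SimpleGraph (Fin 6 → ZMod 2) where
  Adj u v := u ≠ v ∧ enc (u - v) ∈ L
  symm := ⟨by
    rintro u v ⟨h1, h2⟩
    refine ⟨h1.symm, ?_⟩
    have : v - u = u - v := by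
      ext i
      have h : ∀ a b : ZMod 2, a - b = b - a := by decide
      exact h _ _
    rwa [this]⟩
  loopless := ⟨by rintro u ⟨h1, _⟩; exact h1 rfl⟩

theorem col6 : G.Colorable 6 := by
  refine ⟨SimpleGraph.Coloring.mk (fun u => Fin.ofNat 6 (colL.getD (enc u) 0)) ?_⟩
  rintro u v ⟨_, h⟩ he
  have h1 := congrArg Fin.val he
  simp only [Fin.ofNat] at h1
  exact chk (u 0) (u 1) (u 2) (u 3) (u 4) (u 5) (v 0) (v 1) (v 2) (v 3) (v 4) (v 5) h h1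

/-- The vertices `52, 29, 23, 62, 40, 60, 51, 17, 53` of a 5-chromatic subgraph. -/
def w : Fin 9 → (Fin 6 → ZMod 2) :=
  ![vec 0 0 1 0 1 1, vec 1 0 1 1 1 0, vec 1 1 1 0 1 0, vec 0 1 1 1 1 1, vec 0 0 0 1 0 1,
    vec 0 0 1 1 1 1, vec 1 1 0 0 1 1, vec 1 0 0 0 1 0, vec 1 0 1 0 1 1]

set_option synthInstance.maxSize 100000 in
set_option synthInstance.maxHeartbeats 4000000 in
theorem no4 : ∀ x0 x1 : Fin 4, x0 ≠ x1 → ∀ x2, x0 ≠ x2 → x1 ≠ x2 → ∀ x3, x0 ≠ x3 → x1 ≠ x3 →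
    x2 ≠ x3 → ∀ x4, x1 ≠ x4 → x3 ≠ x4 → ∀ x5, x0 ≠ x5 → x1 ≠ x5 → x4 ≠ x5 →
    ∀ x6, x2 ≠ x6 → x3 ≠ x6 → x4 ≠ x6 → ∀ x7, x0 ≠ x7 → x2 ≠ x7 → x5 ≠ x7 → x6 ≠ x7 →
    ∀ x8, x2 ≠ x8 → x4 ≠ x8 → x5 ≠ x8 → x6 ≠ x8 → x7 ≠ x8 → False := by
  decide +kernel

theorem adjw : ∀ p ∈ ([(0,1),(0,2),(1,2),(0,3),(1,3),(2,3),(1,4),(3,4),(0,5),(1,5),(4,5),
    (2,6),(3,6),(4,6),(0,7),(2,7),(5,7),(6,7),(2,8),(4,8),(5,8),(6,8),(7,8)] :
    List (Fin 9 × Fin 9)), enc (w p.1 - w p.2) ∈ L := by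
  decide +kernel

theorem nevec : ∀ u v : Fin 6 → ZMod 2, enc (u - v) ∈ L → u ≠ v := by
  rintro u v h rfl
  rw [sub_self] at h
  exact absurd h (by decide)

theorem not4 : ¬ G.Colorable 4 := by
  rintro ⟨C⟩
  have h : ∀ p ∈ ([(0,1),(0,2),(1,2),(0,3),(1,3),(2,3),(1,4),(3,4),(0,5),(1,5),(4,5),
    (2,6),(3,6),(4,6),(0,7),(2,7),(5,7),(6,7),(2,8),(4,8),(5,8),(6,8),(7,8)] :
    List (Fin 9 × Fin 9)), C (w p.1) ≠ C (w p.2) := fun p hp =>
    C.valid ⟨nevec _ _ (adjw p hp), adjw p hp⟩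
  refine no4 (C (w 0)) (C (w 1)) (h (0,1) (by decide)) (C (w 2)) (h (0,2) (by decide))
    (h (1,2) (by decide)) (C (w 3)) (h (0,3) (by decide)) (h (1,3) (by decide))
    (h (2,3) (by decide)) (C (w 4)) (h (1,4) (by decide)) (h (3,4) (by decide))
    (C (w 5)) (h (0,5) (by decide)) (h (1,5) (by decide)) (h (4,5) (by decide))
    (C (w 6)) (h (2,6) (by decide)) (h (3,6) (by decide)) (h (4,6) (by decide))
    (C (w 7)) (h (0,7) (by decide)) (h (2,7) (by decide)) (h (5,7) (by decide))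
    (h (6,7) (by decide)) (C (w 8)) (h (2,8) (by decide)) (h (4,8) (by decide))
    (h (5,8) (by decide)) (h (6,8) (by decide)) (h (7,8) (by decide))

/-- There is n and a set S of binary vectors of length n such that the graph on all binary n-vectors, joining distinct u and v when u minus v lies in S, has chromatic number exactly 5 or exactly 6. -/
theorem result :
    ∃ n : ℕ, ∃ S : Set (Fin n → ZMod 2), ∃ G : SimpleGraph (Fin n → ZMod 2),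
      (∀ u v : Fin n → ZMod 2, G.Adj u v ↔ (u ≠ v ∧ u - v ∈ S)) ∧
      (G.chromaticNumber = 5 ∨ G.chromaticNumber = 6) := by
  refine ⟨6, {u | enc u ∈ L}, G, fun u v => Iff.rfl, ?_⟩
  have h6 : G.chromaticNumber ≤ (6 : ℕ) := SimpleGraph.chromaticNumber_le_iff_colorable.mpr col6
  have h4 : ¬ G.chromaticNumber ≤ (4 : ℕ) := fun h =>
    not4 (SimpleGraph.chromaticNumber_le_iff_colorable.mp h)
  have hne : G.chromaticNumber ≠ ⊤ := fun h => by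
    rw [h] at h6
    exact absurd h6 (by simp)
  obtain ⟨k, hk⟩ := ENat.ne_top_iff_exists.mp hne
  rw [← hk] at h6 h4 ⊢
  have h6' : k ≤ 6 := by exact_mod_cast h6
  have h4' : ¬ k ≤ 4 := fun h => h4 (by exact_mod_cast h)
  have : k = 5 ∨ k = 6 := by omega
  rcases this with rfl | rfl
  · left; rfl
  · right; rfl

end Pool.Agent.S06581
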