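import Pool.Statements.S06607
import Pool.Agent.Helper7.STS3

set_option autoImplicit false
open Pool Pool.MP_828a2e_co

namespace Pool.Agent.S06607

/-- There is a constant c such that every finite group of order n embeds in the automorphism group of some Steiner triple system on at most n^c points. -/
theorem result :
    ∃ c : ℕ, ∀ (G : Type) [Group G] [Fintype G],
      ∃ (V : Type) (_ : Fintype V) (_ : DecidableEq V) (B : Finset (Finset V)),
        (∀ b ∈ B, b.card = 3) ∧
        (∀ x y : V, x ≠ y → ∃! b, b ∈ B ∧ x ∈ b ∧ y ∈ b) ∧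
        Fintype.card V ≤ (Fintype.card G) ^ c ∧
        ∃ φ : G →* Equiv.Perm V, Function.Injective φ ∧
          ∀ g : G, ∀ b ∈ B, b.image (⇑(φ g)) ∈ B := by
  refine ⟨7, ?_⟩
  intro G _ _
  by_cases hG : 2 ≤ Fintype.card G
  · exact Pool.Agent.Helper7.STS.exists_sts G hG
  · have h1 : 0 < Fintype.card G := Fintype.card_pos
    have h2 : Fintype.card G = 1 := by omega
    have h3 : Subsingleton G := Fintype.card_le_one_iff_subsingleton.mp (by omega)
    refine ⟨Unit, inferInstance, inferInstance, ∅, by simp, ?_, ?_, 1, ?_, by simp⟩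
    · intro x y hxy
      exact absurd (Subsingleton.elim x y) hxy
    · rw [h2]; simp
    · intro a b _
      exact Subsingleton.elim a b

end Pool.Agent.S06607
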