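import Pool.Statements.S06627

set_option autoImplicit false
open Classical
open Pool Pool.MP_837616_co

namespace Pool.Agent.S06627

open Finset

/-- The possible edges. -/
def EE (n : ℕ) : Finset (Finset (Fin n)) := (Finset.univ : Finset (Fin n)).powersetCard 5

/-- Degree. -/
noncomputable def dg {n : ℕ} (H : Finset (Finset (Fin n))) (v : Fin n) : ℕ :=
  (H.filter (fun e => v ∈ e)).card

/-- The 4-sets missing `v` and `z`. -/
noncomputable def AA {n : ℕ} (v z : Fin n) : Finset (Finset (Fin n)) :=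
  ((Finset.univ : Finset (Fin n)) \ {v, z}).powersetCard 4

theorem mem_EE {n : ℕ} {e : Finset (Fin n)} : e ∈ EE n ↔ e.card = 5 := by
  simp [EE, mem_powersetCard]

theorem mem_AA {n : ℕ} {v z : Fin n} {A : Finset (Fin n)} :
    A ∈ AA v z ↔ v ∉ A ∧ z ∉ A ∧ A.card = 4 := by
  rw [AA, mem_powersetCard]
  constructor
  · rintro ⟨h1, h2⟩
    exact ⟨fun h => by simpa using h1 h, fun h => by simpa using h1 h, h2⟩
  · rintro ⟨h1, h2, h3⟩
    refine ⟨fun x hx => ?_, h3⟩
    simp only [mem_sdiff, mem_univ, true_and, mem_insert, mem_singleton, not_or]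
    exact ⟨fun h => h1 (h ▸ hx), fun h => h2 (h ▸ hx)⟩

theorem card_AA {n : ℕ} {v z : Fin n} (hvz : v ≠ z) : (AA v z).card = (n - 2).choose 4 := by
  rw [AA, card_powersetCard, card_sdiff_of_subset (subset_univ _), card_univ, Fintype.card_fin,
    card_pair hvz]

/-- Swap of `v` and `z` in the edges `A ∪ {v}`, `A ∪ {z}` with `A ∈ B`. -/
noncomputable def sig {n : ℕ} (v z : Fin n) (B : Finset (Finset (Fin n))) (e : Finset (Fin n)) :
    Finset (Fin n) :=
  if v ∈ e ∧ z ∉ e ∧ e.erase v ∈ B then insert z (e.erase v)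
  else if z ∈ e ∧ v ∉ e ∧ e.erase z ∈ B then insert v (e.erase z)
  else e

theorem sig_v {n : ℕ} {v z : Fin n} (hvz : v ≠ z) (B : Finset (Finset (Fin n)))
    {A : Finset (Fin n)} (hA : A ∈ AA v z) :
    sig v z B (insert v A) = if A ∈ B then insert z A else insert v A := by
  obtain ⟨h1, h2, h3⟩ := mem_AA.mp hA
  have e1 : (insert v A).erase v = A := erase_insert h1
  have e2 : z ∉ insert v A := by simp [h2, hvz.symm]
  unfold sig
  rw [e1]
  by_cases hB : A ∈ B
  · simp [hB, h2, hvz.symm]
  · simp [hB, h2, hvz.symm]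

theorem sig_z {n : ℕ} {v z : Fin n} (hvz : v ≠ z) (B : Finset (Finset (Fin n)))
    {A : Finset (Fin n)} (hA : A ∈ AA v z) :
    sig v z B (insert z A) = if A ∈ B then insert v A else insert z A := by
  obtain ⟨h1, h2, h3⟩ := mem_AA.mp hA
  have e1 : (insert z A).erase z = A := erase_insert h2
  unfold sig
  rw [e1]
  by_cases hB : A ∈ B
  · simp [hB, h1, hvz]
  · simp [hB, h1, hvz]

theorem sig_other {n : ℕ} {v z : Fin n} (B : Finset (Finset (Fin n)))
    {e : Finset (Fin n)} (h : v ∈ e ↔ z ∈ e) : sig v z B e = e := by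
  unfold sig
  rw [if_neg, if_neg]
  · rintro ⟨h1, h2, _⟩; exact h2 (h.mpr h1)
  · rintro ⟨h1, h2, _⟩; exact h2 (h.mp h1)

theorem EE_cases {n : ℕ} {v z : Fin n} {e : Finset (Fin n)} (he : e ∈ EE n) :
    (v ∈ e ↔ z ∈ e) ∨ (∃ A ∈ AA v z, e = insert v A) ∨ (∃ A ∈ AA v z, e = insert z A) := by
  rw [mem_EE] at he
  by_cases hv : v ∈ e <;> by_cases hz : z ∈ e
  · left; simp [hv, hz]
  · right; left
    refine ⟨e.erase v, mem_AA.mpr ⟨notMem_erase _ _, fun h => hz (mem_of_mem_erase h), ?_⟩,
      (insert_erase hv).symm⟩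
    rw [card_erase_of_mem hv, he]
  · right; right
    refine ⟨e.erase z, mem_AA.mpr ⟨fun h => hv (mem_of_mem_erase h), notMem_erase _ _, ?_⟩,
      (insert_erase hz).symm⟩
    rw [card_erase_of_mem hz, he]
  · left; simp [hv, hz]

theorem insert_v_mem {n : ℕ} {v z : Fin n} {A : Finset (Fin n)} (hA : A ∈ AA v z) :
    insert v A ∈ EE n := by
  obtain ⟨h1, h2, h3⟩ := mem_AA.mp hA
  rw [mem_EE, card_insert_of_notMem h1, h3]

theorem insert_z_mem {n : ℕ} {v z : Fin n} {A : Finset (Fin n)} (hA : A ∈ AA v z) :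
    insert z A ∈ EE n := by
  obtain ⟨h1, h2, h3⟩ := mem_AA.mp hA
  rw [mem_EE, card_insert_of_notMem h2, h3]

theorem sig_mem {n : ℕ} {v z : Fin n} (hvz : v ≠ z) (B : Finset (Finset (Fin n)))
    {e : Finset (Fin n)} (he : e ∈ EE n) : sig v z B e ∈ EE n := by
  rcases EE_cases (v := v) (z := z) he with h | ⟨A, hA, rfl⟩ | ⟨A, hA, rfl⟩
  · rw [sig_other B h]; exact he
  · rw [sig_v hvz B hA]; split_ifs
    · exact insert_z_mem hA
    · exact he
  · rw [sig_z hvz B hA]; split_ifs
    · exact insert_v_mem hA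
    · exact he

theorem sig_sig {n : ℕ} {v z : Fin n} (hvz : v ≠ z) (B : Finset (Finset (Fin n)))
    {e : Finset (Fin n)} (he : e ∈ EE n) : sig v z B (sig v z B e) = e := by
  rcases EE_cases (v := v) (z := z) he with h | ⟨A, hA, rfl⟩ | ⟨A, hA, rfl⟩
  · rw [sig_other B h, sig_other B h]
  · rw [sig_v hvz B hA]; split_ifs with hB
    · rw [sig_z hvz B hA, if_pos hB]
    · rw [sig_v hvz B hA, if_neg hB]
  · rw [sig_z hvz B hA]; split_ifs with hB
    · rw [sig_v hvz B hA, if_pos hB]
    · rw [sig_z hvz B hA, if_neg hB]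

theorem mem_sig {n : ℕ} {v z : Fin n} (hvz : v ≠ z) (B : Finset (Finset (Fin n)))
    {e : Finset (Fin n)} (he : e ∈ EE n) {x : Fin n} (hxv : x ≠ v) (hxz : x ≠ z) :
    x ∈ sig v z B e ↔ x ∈ e := by
  rcases EE_cases (v := v) (z := z) he with h | ⟨A, hA, rfl⟩ | ⟨A, hA, rfl⟩
  · rw [sig_other B h]
  · rw [sig_v hvz B hA]; split_ifs with hB <;> simp [hxv, hxz]
  · rw [sig_z hvz B hA]; split_ifs with hB <;> simp [hxv, hxz]

/-- The flipped hypergraph. -/
noncomputable def Phi {n : ℕ} (v z : Fin n) (B : Finset (Finset (Fin n)))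
    (H : Finset (Finset (Fin n))) : Finset (Finset (Fin n)) :=
  (EE n).filter (fun e => sig v z B e ∈ H)

theorem mem_Phi {n : ℕ} {v z : Fin n} {B : Finset (Finset (Fin n))}
    {H : Finset (Finset (Fin n))} {e : Finset (Fin n)} :
    e ∈ Phi v z B H ↔ e ∈ EE n ∧ sig v z B e ∈ H := by
  rw [Phi, mem_filter]

theorem Phi_Phi {n : ℕ} {v z : Fin n} (hvz : v ≠ z) (B : Finset (Finset (Fin n)))
    {H : Finset (Finset (Fin n))} (hH : H ⊆ EE n) : Phi v z B (Phi v z B H) = H := by
  ext e
  rw [mem_Phi, mem_Phi]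
  constructor
  · rintro ⟨h1, h2, h3⟩
    rwa [sig_sig hvz B h1] at h3
  · intro h
    have := hH h
    exact ⟨this, sig_mem hvz B this, by rwa [sig_sig hvz B this]⟩

theorem Phi_sub {n : ℕ} (v z : Fin n) (B H : Finset (Finset (Fin n))) :
    Phi v z B H ⊆ EE n := filter_subset _ _

theorem dg_Phi_other {n : ℕ} {v z : Fin n} (hvz : v ≠ z) (B : Finset (Finset (Fin n)))
    {H : Finset (Finset (Fin n))} (hH : H ⊆ EE n) {x : Fin n} (hxv : x ≠ v) (hxz : x ≠ z) :
    dg (Phi v z B H) x = dg H x := by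
  unfold dg
  refine card_nbij' (sig v z B) (sig v z B) ?_ ?_ ?_ ?_
  · intro e he
    simp only [coe_filter, Set.mem_setOf_eq, mem_Phi] at he ⊢
    exact ⟨he.1.2, (mem_sig hvz B he.1.1 hxv hxz).mpr he.2⟩
  · intro e he
    simp only [coe_filter, Set.mem_setOf_eq, mem_Phi] at he ⊢
    have := hH he.1
    exact ⟨⟨sig_mem hvz B this, by rw [sig_sig hvz B this]; exact he.1⟩,
      (mem_sig hvz B this hxv hxz).mpr he.2⟩
  · intro e he
    simp only [coe_filter, Set.mem_setOf_eq, mem_Phi] at he
    exact sig_sig hvz B he.1.1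
  · intro e he
    simp only [coe_filter, Set.mem_setOf_eq] at he
    exact sig_sig hvz B (hH he.1)

/-- Number of edges containing both `v` and `z`. -/
noncomputable def both {n : ℕ} (v z : Fin n) (H : Finset (Finset (Fin n))) : ℕ :=
  (H.filter (fun e => v ∈ e ∧ z ∈ e)).card

theorem dg_Phi_v {n : ℕ} {v z : Fin n} (hvz : v ≠ z) (B : Finset (Finset (Fin n)))
    {H : Finset (Finset (Fin n))} (hH : H ⊆ EE n) :
    dg (Phi v z B H) v = both v z H +
      ((AA v z).filter (fun A => if A ∈ B then insert z A ∈ H else insert v A ∈ H)).card := by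
  unfold dg both
  rw [← card_filter_add_card_filter_not (s := (Phi v z B H).filter (fun e => v ∈ e))
    (fun e => z ∈ e)]
  congr 1
  · congr 1
    ext e
    simp only [mem_filter, mem_Phi]
    constructor
    · rintro ⟨⟨⟨h1, h2⟩, h3⟩, h4⟩
      rw [sig_other B (by simp [h3, h4])] at h2
      exact ⟨h2, h3, h4⟩
    · rintro ⟨h2, h3, h4⟩
      exact ⟨⟨⟨hH h2, by rwa [sig_other B (by simp [h3, h4])]⟩, h3⟩, h4⟩
  · symm
    refine card_nbij (fun A => insert v A) ?_ ?_ ?_
    · intro A hA
      simp only [coe_filter, Set.mem_setOf_eq] at hA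
      simp only [coe_filter, Set.mem_setOf_eq, mem_filter, mem_Phi]
      obtain ⟨h1, h2⟩ := hA
      refine ⟨⟨⟨insert_v_mem h1, ?_⟩, mem_insert_self _ _⟩, ?_⟩
      · rw [sig_v hvz B h1]; split_ifs at h2 ⊢ <;> exact h2
      · rw [mem_insert, not_or]
        exact ⟨hvz.symm, (mem_AA.mp h1).2.1⟩
    · intro A hA A' hA' h
      simp only [coe_filter, Set.mem_setOf_eq] at hA hA'
      have := congrArg (fun s => s.erase v) h
      simpa [erase_insert (mem_AA.mp hA.1).1, erase_insert (mem_AA.mp hA'.1).1] using this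
    · intro e he
      simp only [coe_filter, Set.mem_setOf_eq, mem_filter, mem_Phi] at he
      obtain ⟨⟨⟨h1, h2⟩, h3⟩, h4⟩ := he
      rcases EE_cases (v := v) (z := z) h1 with h | ⟨A, hA, rfl⟩ | ⟨A, hA, rfl⟩
      · exact absurd (h.mp h3) h4
      · refine ⟨A, ?_, rfl⟩
        simp only [coe_filter, Set.mem_setOf_eq]
        refine ⟨hA, ?_⟩
        rw [sig_v hvz B hA] at h2
        split_ifs at h2 ⊢ <;> exact h2
      · exact absurd (mem_insert_self _ _) h4

theorem sig_comm {n : ℕ} (v z : Fin n) (B : Finset (Finset (Fin n))) (e : Finset (Fin n)) :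
    sig v z B e = sig z v B e := by
  unfold sig
  by_cases h1 : v ∈ e <;> by_cases h2 : z ∈ e <;> simp [h1, h2]

theorem AA_comm {n : ℕ} (v z : Fin n) : AA v z = AA z v := by
  ext A; rw [mem_AA, mem_AA]; tauto

theorem Phi_comm {n : ℕ} (v z : Fin n) (B H : Finset (Finset (Fin n))) :
    Phi v z B H = Phi z v B H := by
  ext e; rw [mem_Phi, mem_Phi, sig_comm]

theorem dg_Phi_z {n : ℕ} {v z : Fin n} (hvz : v ≠ z) (B : Finset (Finset (Fin n)))
    {H : Finset (Finset (Fin n))} (hH : H ⊆ EE n) :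
    dg (Phi v z B H) z = both v z H +
      ((AA v z).filter (fun A => if A ∈ B then insert v A ∈ H else insert z A ∈ H)).card := by
  rw [Phi_comm, dg_Phi_v hvz.symm B hH, AA_comm z v]
  congr 1
  unfold both
  congr 1
  ext e; simp only [mem_filter]; tauto

/-- Active 4-sets. -/
noncomputable def act {n : ℕ} (v z : Fin n) (H : Finset (Finset (Fin n))) :
    Finset (Finset (Fin n)) :=
  (AA v z).filter (fun A => ¬ (insert v A ∈ H ↔ insert z A ∈ H))

/-- Active 4-sets whose `v` edge is present. -/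
noncomputable def neg {n : ℕ} (v z : Fin n) (H : Finset (Finset (Fin n))) :
    Finset (Finset (Fin n)) :=
  (AA v z).filter (fun A => insert v A ∈ H ∧ insert z A ∉ H)

/-- 4-sets with both edges present. -/
noncomputable def two {n : ℕ} (v z : Fin n) (H : Finset (Finset (Fin n))) :
    Finset (Finset (Fin n)) :=
  (AA v z).filter (fun A => insert v A ∈ H ∧ insert z A ∈ H)

theorem count_v {n : ℕ} {v z : Fin n} {B : Finset (Finset (Fin n))}
    {H : Finset (Finset (Fin n))} :
    ((AA v z).filter (fun A => if A ∈ B then insert z A ∈ H else insert v A ∈ H)).card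
      = (two v z H).card + (act v z H ∩ symmDiff B (neg v z H)).card := by
  rw [← card_union_of_disjoint]
  · congr 1
    ext A
    simp only [two, act, neg, mem_union, mem_inter, mem_filter, mem_symmDiff]
    by_cases h0 : A ∈ AA v z <;> by_cases h1 : A ∈ B <;> by_cases h2 : insert v A ∈ H <;>
      by_cases h3 : insert z A ∈ H <;> simp [h0, h1, h2, h3]
  · rw [disjoint_left]
    intro A
    simp only [two, act, mem_inter, mem_filter]
    tauto

theorem count_z {n : ℕ} {v z : Fin n} {B : Finset (Finset (Fin n))}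
    {H : Finset (Finset (Fin n))} :
    ((AA v z).filter (fun A => if A ∈ B then insert v A ∈ H else insert z A ∈ H)).card
      = (two v z H).card + (act v z H \ symmDiff B (neg v z H)).card := by
  rw [← card_union_of_disjoint]
  · congr 1
    ext A
    simp only [two, act, neg, mem_union, mem_sdiff, mem_filter, mem_symmDiff]
    by_cases h0 : A ∈ AA v z <;> by_cases h1 : A ∈ B <;> by_cases h2 : insert v A ∈ H <;>
      by_cases h3 : insert z A ∈ H <;> simp [h0, h1, h2, h3]
  · rw [disjoint_left]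
    intro A
    simp only [two, act, mem_sdiff, mem_filter]
    tauto

theorem act_Phi {n : ℕ} {v z : Fin n} (hvz : v ≠ z) (B : Finset (Finset (Fin n)))
    {H : Finset (Finset (Fin n))} : act v z (Phi v z B H) = act v z H := by
  unfold act
  refine filter_congr fun A hA => ?_
  rw [mem_Phi, mem_Phi, sig_v hvz B hA, sig_z hvz B hA]
  have h1 := insert_v_mem hA
  have h2 := insert_z_mem hA
  split_ifs <;> simp only [h1, h2, true_and]
  tauto

/-- Averaging over a family of injective self-maps. -/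
theorem avg {α ι : Type} (G Bd : Finset α) (I : Finset ι) (Φ : ι → α → α)
    (hmaps : ∀ i ∈ I, ∀ H ∈ G, Φ i H ∈ G) (hinj : ∀ i ∈ I, Set.InjOn (Φ i) G)
    (hB : Bd ⊆ G) (c : ℝ)
    (hbad : ∀ H ∈ G, ∀ J : Finset ι, J ⊆ I → (∀ i ∈ J, Φ i H ∈ Bd) → (J.card : ℝ) ≤ c) :
    (I.card : ℝ) * Bd.card ≤ c * G.card := by
  have h1 : ∀ i ∈ I, (G.filter (fun H => Φ i H ∈ Bd)).card = Bd.card := by
    intro i hi
    refine card_nbij (Φ i) ?_ ?_ ?_
    · intro H hH
      simp only [coe_filter, Set.mem_setOf_eq] at hH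
      exact hH.2
    · intro H hH H' hH' h
      simp only [coe_filter, Set.mem_setOf_eq] at hH hH'
      exact hinj i hi hH.1 hH'.1 h
    · intro K hK
      have hsurj := Finset.surjOn_of_injOn_of_card_le (Φ i) (hmaps i hi) (hinj i hi) le_rfl
      obtain ⟨H, hH, hHK⟩ := hsurj (hB hK)
      refine ⟨H, ?_, hHK⟩
      simp only [coe_filter, Set.mem_setOf_eq]
      exact ⟨hH, by rw [hHK]; exact hK⟩
  have h2 : ∑ i ∈ I, (G.filter (fun H => Φ i H ∈ Bd)).card
      = ∑ H ∈ G, (I.filter (fun i => Φ i H ∈ Bd)).card := by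
    simp only [card_filter]
    exact sum_comm
  calc (I.card : ℝ) * Bd.card = ((∑ i ∈ I, (G.filter (fun H => Φ i H ∈ Bd)).card : ℕ) : ℝ) := by
        rw [sum_congr rfl h1, sum_const, smul_eq_mul]; push_cast; ring
    _ = ((∑ H ∈ G, (I.filter (fun i => Φ i H ∈ Bd)).card : ℕ) : ℝ) := by rw [h2]
    _ = ∑ H ∈ G, ((I.filter (fun i => Φ i H ∈ Bd)).card : ℝ) := by push_cast; rfl
    _ ≤ ∑ _H ∈ G, c := sum_le_sum fun H hH => hbad H hH _ (filter_subset _ _)
        (fun i hi => (mem_filter.mp hi).2)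
    _ = c * G.card := by rw [sum_const, nsmul_eq_mul, mul_comm]

theorem cb_sq (k : ℕ) : k.centralBinom ^ 2 * (2 * k + 1) ≤ 16 ^ k := by
  induction k with
  | zero => simp
  | succ k ih =>
    have h := Nat.succ_mul_centralBinom_succ k
    have h1 : ((k + 1) * (k + 1).centralBinom) ^ 2 * (2 * k + 3)
        ≤ (k + 1) ^ 2 * 16 ^ (k + 1) := by
      rw [h]
      calc (2 * (2 * k + 1) * k.centralBinom) ^ 2 * (2 * k + 3)
          = 4 * ((2 * k + 1) * (2 * k + 3)) * (k.centralBinom ^ 2 * (2 * k + 1)) := by ring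
        _ ≤ 4 * (4 * (k + 1) ^ 2) * 16 ^ k :=
            Nat.mul_le_mul (Nat.mul_le_mul_left 4 (by nlinarith)) ih
        _ = (k + 1) ^ 2 * 16 ^ (k + 1) := by ring
    have h2 : (k + 1) ^ 2 * ((k + 1).centralBinom ^ 2 * (2 * (k + 1) + 1))
        ≤ (k + 1) ^ 2 * 16 ^ (k + 1) := by
      calc (k + 1) ^ 2 * ((k + 1).centralBinom ^ 2 * (2 * (k + 1) + 1))
          = ((k + 1) * (k + 1).centralBinom) ^ 2 * (2 * k + 3) := by ring
        _ ≤ _ := h1
    exact Nat.le_of_mul_le_mul_left h2 (by positivity)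

theorem choose_sq (g k : ℕ) : g.choose k ^ 2 * (g + 1) ≤ 4 ^ g := by
  rcases Nat.even_or_odd' g with ⟨j, rfl | rfl⟩
  · calc (2 * j).choose k ^ 2 * (2 * j + 1) ≤ j.centralBinom ^ 2 * (2 * j + 1) := by
          gcongr
          exact Nat.choose_le_centralBinom k j
      _ ≤ 16 ^ j := cb_sq j
      _ = 4 ^ (2 * j) := by rw [pow_mul]; norm_num
  · have h1 : (2 * j + 1).choose k ≤ (2 * j + 1).choose j := by
      have := Nat.choose_le_middle k (2 * j + 1)
      rwa [show (2 * j + 1) / 2 = j by omega] at this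
    have h2 : (j + 1).centralBinom = 2 * (2 * j + 1).choose j := by
      rw [Nat.centralBinom, show 2 * (j + 1) = (2 * j + 1) + 1 by ring, Nat.choose_succ_succ,
        Nat.choose_symm_half]
      ring
    have h3 := cb_sq (j + 1)
    rw [h2] at h3
    have h4 : 4 * ((2 * j + 1).choose j ^ 2 * (2 * (j + 1) + 1)) ≤ 4 * 4 ^ (2 * j + 1) := by
      calc 4 * ((2 * j + 1).choose j ^ 2 * (2 * (j + 1) + 1))
          = (2 * (2 * j + 1).choose j) ^ 2 * (2 * (j + 1) + 1) := by ring
        _ ≤ 16 ^ (j + 1) := h3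
        _ = 4 * 4 ^ (2 * j + 1) := by
            rw [show (16:ℕ) = 4 ^ 2 by norm_num, ← pow_mul, ← pow_succ']
            congr 1
    have h5 := Nat.le_of_mul_le_mul_left h4 (by norm_num)
    calc (2 * j + 1).choose k ^ 2 * (2 * j + 1 + 1)
        ≤ (2 * j + 1).choose j ^ 2 * (2 * (j + 1) + 1) := by
          gcongr
          omega
      _ ≤ _ := h5

/-- Number of subsets of `U` meeting `W` in exactly `k` elements. -/
theorem card_meet {α : Type} (U W : Finset α) (hW : W ⊆ U) (k : ℕ) :
    (U.powerset.filter (fun B => (W ∩ B).card = k)).card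
      ≤ W.card.choose k * 2 ^ (U.card - W.card) := by
  have h : (U.powerset.filter (fun B => (W ∩ B).card = k)).card
      ≤ (W.powersetCard k ×ˢ (U \ W).powerset).card := by
    refine card_le_card_of_injOn (fun B => (W ∩ B, B \ W)) ?_ ?_
    · intro B hB
      simp only [coe_filter, Set.mem_setOf_eq, mem_powerset] at hB
      simp only [coe_product, Set.mem_prod, mem_coe, mem_powersetCard, mem_powerset]
      exact ⟨⟨inter_subset_left, hB.2⟩, sdiff_subset_sdiff hB.1 subset_rfl⟩
    · intro B hB B' hB' h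
      simp only [Prod.mk.injEq] at h
      ext x
      have h1 := Finset.ext_iff.mp h.1 x
      have h2 := Finset.ext_iff.mp h.2 x
      simp only [mem_inter, mem_sdiff] at h1 h2
      tauto
  refine h.trans ?_
  rw [card_product, card_powersetCard, card_powerset, card_sdiff_of_subset hW]

theorem meet_sq {α : Type} (U W : Finset α) (hW : W ⊆ U) (k : ℕ) :
    (U.powerset.filter (fun B => (W ∩ B).card = k)).card ^ 2 * (W.card + 1) ≤ 4 ^ U.card := by
  have h1 := card_meet U W hW k
  have h2 := card_le_card hW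
  calc (U.powerset.filter (fun B => (W ∩ B).card = k)).card ^ 2 * (W.card + 1)
      ≤ (W.card.choose k * 2 ^ (U.card - W.card)) ^ 2 * (W.card + 1) := by gcongr
    _ = (W.card.choose k ^ 2 * (W.card + 1)) * (2 ^ (U.card - W.card)) ^ 2 := by ring
    _ ≤ 4 ^ W.card * (2 ^ (U.card - W.card)) ^ 2 := by
        gcongr; exact choose_sq _ _
    _ = 4 ^ U.card := by
        rw [← pow_mul, mul_comm (U.card - W.card) 2, pow_mul, show (2:ℕ) ^ 2 = 4 by norm_num,
          ← pow_add]
        congr 1; omega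

theorem cheb_sum {α : Type} (U : Finset α) : ∀ x : ℝ,
    ∑ B ∈ U.powerset, (x + U.card - 2 * B.card) ^ 2 = (x ^ 2 + U.card) * 2 ^ U.card := by
  induction U using Finset.induction_on with
  | empty => intro x; simp
  | insert a U ha ih =>
    intro x
    rw [sum_powerset_insert ha, card_insert_of_notMem ha]
    have h1 : ∑ B ∈ U.powerset, (x + ((U.card + 1 : ℕ) : ℝ) - 2 * B.card) ^ 2
        = ((x + 1) ^ 2 + U.card) * 2 ^ U.card := by
      rw [← ih (x + 1)]
      refine sum_congr rfl fun B _ => ?_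
      push_cast; ring
    have h2 : ∑ B ∈ U.powerset, (x + ((U.card + 1 : ℕ) : ℝ) - 2 * (insert a B).card) ^ 2
        = ((x - 1) ^ 2 + U.card) * 2 ^ U.card := by
      rw [← ih (x - 1)]
      refine sum_congr rfl fun B hB => ?_
      rw [card_insert_of_notMem (fun h => ha (mem_powerset.mp hB h))]
      push_cast; ring
    rw [h1, h2]
    push_cast; ring

theorem cheb {α : Type} (U : Finset α) :
    (U.card : ℝ) * ((U.powerset.filter (fun B => 4 * B.card < U.card)).card : ℝ)
      ≤ 4 * 2 ^ U.card := by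
  rcases Nat.eq_zero_or_pos U.card with h0 | h0
  · rw [h0]; simp
  have h := cheb_sum U 0
  have h1 : ∑ B ∈ U.powerset.filter (fun B => 4 * B.card < U.card), ((U.card : ℝ) / 2) ^ 2
      ≤ ∑ B ∈ U.powerset, (0 + (U.card : ℝ) - 2 * B.card) ^ 2 := by
    refine (sum_le_sum ?_).trans (sum_le_sum_of_subset_of_nonneg (filter_subset _ _)
      (fun _ _ _ => by positivity))
    intro B hB
    have hB' : (4 : ℝ) * B.card < U.card := by exact_mod_cast (mem_filter.mp hB).2
    have : (U.card : ℝ) / 2 ≤ 0 + (U.card : ℝ) - 2 * B.card := by linarith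
    gcongr
  rw [h, sum_const, nsmul_eq_mul] at h1
  have hp : (0 : ℝ) < U.card := by exact_mod_cast h0
  have h2 : (U.card : ℝ) * ((U.card : ℝ) *
      ((U.powerset.filter (fun B => 4 * B.card < U.card)).card : ℝ))
      ≤ (U.card : ℝ) * (4 * 2 ^ U.card) := by nlinarith
  exact le_of_mul_le_mul_left h2 hp

/-- Toggling of the edges `A ∪ {v}`. -/
noncomputable def tog {n : ℕ} (v : Fin n) (B H : Finset (Finset (Fin n))) :
    Finset (Finset (Fin n)) := symmDiff H (B.image (insert v))

theorem insert_v_mem_tog {n : ℕ} {v z : Fin n} {B H : Finset (Finset (Fin n))}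
    (hB : B ⊆ AA v z) {A : Finset (Fin n)} (hA : A ∈ AA v z) :
    insert v A ∈ tog v B H ↔ ¬ (insert v A ∈ H ↔ A ∈ B) := by
  have h : insert v A ∈ B.image (insert v) ↔ A ∈ B := by
    rw [mem_image]
    constructor
    · rintro ⟨A', hA', h⟩
      have h1 := (mem_AA.mp (hB hA')).1
      have h2 := (mem_AA.mp hA).1
      have := congrArg (fun s => s.erase v) h
      simp only [erase_insert h1, erase_insert h2] at this
      rwa [← this]
    · intro h; exact ⟨A, h, rfl⟩
  rw [tog, mem_symmDiff, h]; tauto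

theorem insert_z_mem_tog {n : ℕ} {v z : Fin n} (hvz : v ≠ z) {B H : Finset (Finset (Fin n))}
    {A : Finset (Fin n)} (hA : A ∈ AA v z) :
    insert z A ∈ tog v B H ↔ insert z A ∈ H := by
  have h : insert z A ∉ B.image (insert v) := by
    rw [mem_image]
    rintro ⟨A', hA', h⟩
    have h1 : v ∈ insert z A := h ▸ mem_insert_self _ _
    rw [mem_insert] at h1
    rcases h1 with h1 | h1
    · exact hvz h1
    · exact (mem_AA.mp hA).1 h1
  rw [tog, mem_symmDiff]; tauto

theorem act_tog {n : ℕ} {v z : Fin n} (hvz : v ≠ z) {B H : Finset (Finset (Fin n))}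
    (hB : B ⊆ AA v z) : act v z (tog v B H) = symmDiff (act v z H) B := by
  ext A
  unfold act
  rw [mem_filter, mem_symmDiff, mem_filter]
  by_cases hA : A ∈ AA v z
  · rw [insert_v_mem_tog hB hA, insert_z_mem_tog hvz hA]; simp only [hA, true_and]; tauto
  · have : A ∉ B := fun h => hA (hB h)
    simp [hA, this]

theorem symmDiff_bij {α : Type} (U N : Finset α) (hN : N ⊆ U) (P : Finset α → Prop) :
    (U.powerset.filter (fun B => P (symmDiff B N))).card = (U.powerset.filter P).card := by
  refine card_nbij' (fun B => symmDiff B N) (fun B => symmDiff B N) ?_ ?_ ?_ ?_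
  · intro B hB
    simp only [coe_filter, Set.mem_setOf_eq, mem_powerset] at hB ⊢
    exact ⟨(symmDiff_le_sup).trans (union_subset hB.1 hN), hB.2⟩
  · intro B hB
    simp only [coe_filter, Set.mem_setOf_eq, mem_powerset] at hB ⊢
    refine ⟨(symmDiff_le_sup).trans (union_subset hB.1 hN), ?_⟩
    rw [symmDiff_symmDiff_cancel_right]; exact hB.2
  · intro B _; simp
  · intro B _; simp

/-- Few hypergraphs have few active sets. -/
theorem few_act {n : ℕ} {v z : Fin n} (hvz : v ≠ z) :
    ((AA v z).card : ℝ) * (((EE n).powerset.filter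
      (fun H => 4 * (act v z H).card < (AA v z).card)).card : ℝ) ≤ 4 * 2 ^ (EE n).card := by
  have h := avg (EE n).powerset ((EE n).powerset.filter
      (fun H => 4 * (act v z H).card < (AA v z).card)) (AA v z).powerset (fun B H => tog v B H)
      (by
        intro B hB H hH
        rw [mem_powerset] at hB hH ⊢
        refine (symmDiff_le_sup).trans (union_subset hH ?_)
        intro e he
        obtain ⟨A, hA, rfl⟩ := mem_image.mp he
        exact insert_v_mem (hB hA))
      (by
        intro B hB H hH H' hH' h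
        exact symmDiff_left_injective _ h)
      (filter_subset _ _)
      ((((AA v z).powerset.filter (fun B => 4 * B.card < (AA v z).card)).card : ℝ))
      (by
        intro H hH J hJ hJ2
        have hact : act v z H ⊆ AA v z := filter_subset _ _
        have key := symmDiff_bij (AA v z) (act v z H) hact (fun B => 4 * B.card < (AA v z).card)
        have key' : ((AA v z).powerset.filter
            (fun B => 4 * (symmDiff B (act v z H)).card < (AA v z).card)).card
            = ((AA v z).powerset.filter (fun B => 4 * B.card < (AA v z).card)).card := by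
          convert key
        refine le_trans (Nat.cast_le.mpr (card_le_card ?_)) (le_of_eq (congrArg Nat.cast key'))
        intro B hB
        rw [mem_filter]
        refine ⟨hJ hB, ?_⟩
        have := (mem_filter.mp (hJ2 B hB)).2
        rwa [act_tog hvz (mem_powerset.mp (hJ hB)), symmDiff_comm] at this)
  rw [card_powerset, card_powerset] at h
  push_cast at h
  have h2 := cheb (AA v z)
  have hp : (0 : ℝ) < 2 ^ (AA v z).card := by positivity
  have h3 : (2 : ℝ) ^ (AA v z).card * (((AA v z).card : ℝ) * (((EE n).powerset.filter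
      (fun H => 4 * (act v z H).card < (AA v z).card)).card : ℝ))
      ≤ (2 : ℝ) ^ (AA v z).card * (4 * 2 ^ (EE n).card) := by
    calc (2 : ℝ) ^ (AA v z).card * (((AA v z).card : ℝ) * (((EE n).powerset.filter
          (fun H => 4 * (act v z H).card < (AA v z).card)).card : ℝ))
        = ((AA v z).card : ℝ) * ((2 : ℝ) ^ (AA v z).card * (((EE n).powerset.filter
          (fun H => 4 * (act v z H).card < (AA v z).card)).card : ℝ)) := by ring
      _ ≤ ((AA v z).card : ℝ) * ((((AA v z).powerset.filter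
          (fun B => 4 * B.card < (AA v z).card)).card : ℝ) * 2 ^ (EE n).card) := by gcongr
      _ = (((AA v z).card : ℝ) * (((AA v z).powerset.filter
          (fun B => 4 * B.card < (AA v z).card)).card : ℝ)) * 2 ^ (EE n).card := by ring
      _ ≤ (4 * 2 ^ (AA v z).card) * 2 ^ (EE n).card := by gcongr
      _ = _ := by ring
  exact le_of_mul_le_mul_left h3 hp

/-- Bad values of the number of flipped active sets. -/
noncomputable def KK (D : Finset ℕ) (c g : ℕ) : Finset ℕ :=
  D.image (fun d => d - c) ∪ D.image (fun d => c + g - d) ∪ {g / 2}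

theorem card_KK (D : Finset ℕ) (c g : ℕ) : (KK D c g).card ≤ 2 * D.card + 1 := by
  unfold KK
  refine (card_union_le _ _).trans ?_
  refine Nat.add_le_add ((card_union_le _ _).trans ?_) (by simp)
  have h1 : (D.image (fun d => d - c)).card ≤ D.card := card_image_le
  have h2 : (D.image (fun d => c + g - d)).card ≤ D.card := card_image_le
  omega

/-- The number of `B` with `|W ∩ B| ∈ K`. -/
theorem meet_KK {α : Type} (U W : Finset α) (hW : W ⊆ U) (hb : U.card ≤ 4 * W.card)
    (K : Finset ℕ) :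
    ((U.powerset.filter (fun B => (W ∩ B).card ∈ K)).card : ℝ) * Real.sqrt U.card
      ≤ K.card * (2 * 2 ^ U.card) := by
  have h1 : (U.powerset.filter (fun B => (W ∩ B).card ∈ K)).card
      ≤ ∑ k ∈ K, (U.powerset.filter (fun B => (W ∩ B).card = k)).card := by
    refine le_trans (card_le_card ?_) card_biUnion_le
    intro B hB
    rw [mem_filter] at hB
    rw [mem_biUnion]
    exact ⟨_, hB.2, mem_filter.mpr ⟨hB.1, rfl⟩⟩
  have h2 : ∀ k ∈ K, ((U.powerset.filter (fun B => (W ∩ B).card = k)).card : ℝ)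
      * Real.sqrt U.card ≤ 2 * 2 ^ U.card := by
    intro k _
    have h := meet_sq U W hW k
    have h' : (((U.powerset.filter (fun B => (W ∩ B).card = k)).card : ℝ)) ^ 2 * (W.card + 1)
        ≤ 4 ^ U.card := by exact_mod_cast h
    refine le_of_sq_le_sq ?_ (by positivity)
    rw [mul_pow, Real.sq_sqrt (by positivity), mul_pow, ← pow_mul, mul_comm U.card 2, pow_mul]
    have hb' : (U.card : ℝ) ≤ 4 * W.card := by exact_mod_cast hb
    calc (((U.powerset.filter (fun B => (W ∩ B).card = k)).card : ℝ)) ^ 2 * U.card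
        ≤ (((U.powerset.filter (fun B => (W ∩ B).card = k)).card : ℝ)) ^ 2 *
          (4 * (W.card + 1)) := by
          gcongr; linarith
      _ = 4 * ((((U.powerset.filter (fun B => (W ∩ B).card = k)).card : ℝ)) ^ 2 *
          (W.card + 1)) := by ring
      _ ≤ 4 * 4 ^ U.card := by gcongr
      _ = _ := by norm_num
  calc ((U.powerset.filter (fun B => (W ∩ B).card ∈ K)).card : ℝ) * Real.sqrt U.card
      ≤ (∑ k ∈ K, ((U.powerset.filter (fun B => (W ∩ B).card = k)).card : ℝ))
          * Real.sqrt U.card := by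
        gcongr; exact_mod_cast h1
    _ = ∑ k ∈ K, ((U.powerset.filter (fun B => (W ∩ B).card = k)).card : ℝ)
          * Real.sqrt U.card := by rw [sum_mul]
    _ ≤ ∑ _k ∈ K, (2 * 2 ^ U.card) := sum_le_sum h2
    _ = _ := by rw [sum_const, nsmul_eq_mul]

/-- Hypergraphs with distinct degrees on `S`. -/
noncomputable def good {n : ℕ} (S : Finset (Fin n)) : Finset (Finset (Finset (Fin n))) :=
  (EE n).powerset.filter (fun H => Set.InjOn (dg H) S)

theorem bad_KK {n : ℕ} {v z : Fin n} (hvz : v ≠ z) {S : Finset (Fin n)} (hv : v ∉ S)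
    (hz : z ∉ S) {B H : Finset (Finset (Fin n))} (hH : H ⊆ EE n)
    (hinj : Set.InjOn (dg H) S)
    (hbad : ¬ Set.InjOn (dg (Phi v z B H)) ((insert v (insert z S) : Finset (Fin n)) : Set (Fin n))) :
    (act v z H ∩ symmDiff B (neg v z H)).card
      ∈ KK (S.image (dg H)) (both v z H + (two v z H).card) (act v z H).card := by
  by_contra hK
  apply hbad
  have e1 := dg_Phi_v hvz B hH
  have e2 := dg_Phi_z hvz B hH
  rw [count_v] at e1
  rw [count_z] at e2
  have e3 := card_sdiff_add_card_inter (act v z H) (symmDiff B (neg v z H))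
  set k := (act v z H ∩ symmDiff B (neg v z H)).card with hk
  set l := (act v z H \ symmDiff B (neg v z H)).card with hl
  set g := (act v z H).card with hg
  simp only [KK, mem_union, mem_image, mem_singleton, not_or, not_exists, not_and] at hK
  obtain ⟨⟨k1, k2⟩, k3⟩ := hK
  have n1 : ∀ x ∈ S, dg (Phi v z B H) v ≠ dg (Phi v z B H) x := by
    intro x hx h
    rw [dg_Phi_other hvz B hH (fun h => hv (h ▸ hx)) (fun h => hz (h ▸ hx))] at h
    exact k1 (dg H x) ⟨x, hx, rfl⟩ (by omega)
  have n2 : ∀ x ∈ S, dg (Phi v z B H) z ≠ dg (Phi v z B H) x := by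
    intro x hx h
    rw [dg_Phi_other hvz B hH (fun h => hv (h ▸ hx)) (fun h => hz (h ▸ hx))] at h
    exact k2 (dg H x) ⟨x, hx, rfl⟩ (by omega)
  have n3 : dg (Phi v z B H) v ≠ dg (Phi v z B H) z := by
    intro h
    apply k3
    omega
  intro x hx y hy hxy
  simp only [coe_insert, Set.mem_insert_iff, mem_coe] at hx hy
  rcases hx with rfl | rfl | hx <;> rcases hy with rfl | rfl | hy
  · rfl
  · exact absurd hxy n3
  · exact absurd hxy (n1 y hy)
  · exact absurd hxy.symm n3
  · rfl
  · exact absurd hxy (n2 y hy)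
  · exact absurd hxy.symm (n1 x hx)
  · exact absurd hxy.symm (n2 x hx)
  · refine hinj hx hy ?_
    rwa [dg_Phi_other hvz B hH (fun h => hv (h ▸ hx)) (fun h => hz (h ▸ hx)),
      dg_Phi_other hvz B hH (fun h => hv (h ▸ hy)) (fun h => hz (h ▸ hy))] at hxy

/-- One step: add `v` and `z` to `S`. -/
theorem step {n : ℕ} {v z : Fin n} (hvz : v ≠ z) {S : Finset (Fin n)} (hv : v ∉ S)
    (hz : z ∉ S) {η τ : ℝ} (hη0 : 0 ≤ η) (hη1 : η ≤ 1)
    (hη : (2 * n + 1 : ℝ) * 2 ≤ η * Real.sqrt (AA v z).card)
    (hτ : 4 ≤ τ * (AA v z).card) :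
    (1 - η) * (good S).card - τ * 2 ^ (EE n).card
      ≤ ((good (insert v (insert z S))).card : ℝ) := by
  classical
  set m := (AA v z).card with hm
  have hmpos : (0 : ℝ) < m := by
    rcases Nat.eq_zero_or_pos m with h | h
    · rw [h] at hη; simp at hη
      have : (0 : ℝ) ≤ n := by positivity
      linarith
    · exact_mod_cast h
  -- the family
  set G : Finset (Finset (Finset (Fin n))) :=
    (good S).filter (fun H => ¬ 4 * (act v z H).card < m) with hG
  set Bd : Finset (Finset (Finset (Fin n))) :=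
    G.filter (fun H => ¬ Set.InjOn (dg H) ((insert v (insert z S) : Finset (Fin n)) : Set (Fin n)))
    with hBd
  have hfew := few_act (n := n) hvz
  rw [← hm] at hfew
  -- few
  have hT : (((EE n).powerset.filter
      (fun H => 4 * (act v z H).card < m)).card : ℝ) ≤ τ * 2 ^ (EE n).card := by
    have h1 : (m : ℝ) * (((EE n).powerset.filter
      (fun H => 4 * (act v z H).card < m)).card : ℝ) ≤ m * (τ * 2 ^ (EE n).card) := by
      calc (m : ℝ) * (((EE n).powerset.filter
            (fun H => 4 * (act v z H).card < m)).card : ℝ) ≤ 4 * 2 ^ (EE n).card := hfew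
        _ ≤ (τ * m) * 2 ^ (EE n).card := by gcongr
        _ = _ := by ring
    exact le_of_mul_le_mul_left h1 hmpos
  have hGcard : ((good S).card : ℝ) - τ * 2 ^ (EE n).card ≤ G.card := by
    have h1 : (good S).card ≤ G.card + ((EE n).powerset.filter
      (fun H => 4 * (act v z H).card < m)).card := by
      rw [← card_filter_add_card_filter_not (s := good S)
        (fun H => 4 * (act v z H).card < m), add_comm]
      refine Nat.add_le_add_left (card_le_card ?_) _
      intro H hH
      rw [mem_filter] at hH ⊢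
      exact ⟨(mem_filter.mp hH.1).1, hH.2⟩
    have h2 : ((good S).card : ℝ) ≤ G.card + (((EE n).powerset.filter
      (fun H => 4 * (act v z H).card < m)).card : ℝ) := by exact_mod_cast h1
    linarith
  have hBdcard : (Bd.card : ℝ) ≤ η * G.card := by
    have h := avg G Bd (AA v z).powerset (fun B H => Phi v z B H)
      (by
        intro B hB H hH
        simp only [hG, good, mem_filter, mem_powerset] at hH ⊢
        refine ⟨⟨Phi_sub _ _ _ _, ?_⟩, ?_⟩
        · intro x hx y hy hxy
          refine hH.1.2 hx hy ?_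
          rw [mem_coe] at hx hy
          rwa [dg_Phi_other hvz B hH.1.1 (fun h => hv (h ▸ hx)) (fun h => hz (h ▸ hx)),
            dg_Phi_other hvz B hH.1.1 (fun h => hv (h ▸ hy)) (fun h => hz (h ▸ hy))] at hxy
        · rw [act_Phi hvz]; exact hH.2)
      (by
        intro B hB H hH H' hH' h
        simp only [hG, good, mem_coe, mem_filter, mem_powerset] at hH hH'
        have h' : Phi v z B H = Phi v z B H' := h
        rw [← Phi_Phi hvz B hH.1.1, ← Phi_Phi hvz B hH'.1.1, h'])
      (filter_subset _ _)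
      (η * 2 ^ m)
      (by
        intro H hH J hJ hJ2
        simp only [hG, good, mem_filter, mem_powerset] at hH
        obtain ⟨⟨hH1, hH2⟩, hH3⟩ := hH
        have hact : act v z H ⊆ AA v z := filter_subset _ _
        have hneg : neg v z H ⊆ AA v z := filter_subset _ _
        set K := KK (S.image (dg H)) (both v z H + (two v z H).card) (act v z H).card with hK
        have hKc : K.card ≤ 2 * n + 1 := by
          refine (card_KK _ _ _).trans ?_
          have h1 : (S.image (dg H)).card ≤ S.card := card_image_le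
          have h2 : S.card ≤ n := by simpa using card_le_univ S
          omega
        have h1 : J.card ≤ ((AA v z).powerset.filter
            (fun B => (act v z H ∩ symmDiff B (neg v z H)).card ∈ K)).card := by
          refine card_le_card ?_
          intro B hB
          rw [mem_filter]
          refine ⟨hJ hB, ?_⟩
          have h2 := hJ2 B hB
          simp only [hBd, mem_filter] at h2
          exact bad_KK hvz hv hz hH1 hH2 h2.2
        have h2 : ((AA v z).powerset.filter
            (fun B => (act v z H ∩ symmDiff B (neg v z H)).card ∈ K)).card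
            = ((AA v z).powerset.filter (fun B => (act v z H ∩ B).card ∈ K)).card := by
          convert symmDiff_bij (AA v z) (neg v z H) hneg (fun B => (act v z H ∩ B).card ∈ K)
        have h3 := meet_KK (AA v z) (act v z H) hact (by omega) K
        rw [h2] at h1
        have hsq : 0 < Real.sqrt m := Real.sqrt_pos.mpr hmpos
        have h1' : (J.card : ℝ) ≤
            (((AA v z).powerset.filter (fun B => (act v z H ∩ B).card ∈ K)).card : ℝ) := by
          exact_mod_cast h1
        have hKc' : (K.card : ℝ) ≤ 2 * n + 1 := by exact_mod_cast hKc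
        have h4 : (J.card : ℝ) * Real.sqrt m ≤ (η * 2 ^ m) * Real.sqrt m := by
          calc (J.card : ℝ) * Real.sqrt m
              ≤ (((AA v z).powerset.filter (fun B => (act v z H ∩ B).card ∈ K)).card : ℝ)
                * Real.sqrt m := by gcongr
            _ ≤ K.card * (2 * 2 ^ m) := by convert h3
            _ ≤ (2 * n + 1) * (2 * 2 ^ m) := by gcongr
            _ = ((2 * n + 1 : ℝ) * 2) * 2 ^ m := by ring
            _ ≤ (η * Real.sqrt m) * 2 ^ m := by gcongr
            _ = _ := by ring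
        exact le_of_mul_le_mul_right h4 hsq)
    rw [card_powerset] at h
    push_cast at h
    have hp : (0 : ℝ) < 2 ^ m := by positivity
    have h5 : (2 : ℝ) ^ m * Bd.card ≤ 2 ^ m * (η * G.card) := by
      calc (2 : ℝ) ^ m * Bd.card ≤ η * 2 ^ m * G.card := h
        _ = _ := by ring
    exact le_of_mul_le_mul_left h5 hp
  have hfin : (G.card : ℝ) - Bd.card ≤ ((good (insert v (insert z S))).card : ℝ) := by
    have h1 : G.card ≤ Bd.card + (good (insert v (insert z S))).card := by
      rw [← card_filter_add_card_filter_not (s := G)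
        (fun H => ¬ Set.InjOn (dg H) ((insert v (insert z S) : Finset (Fin n)) : Set (Fin n)))]
      refine Nat.add_le_add_left (card_le_card ?_) _
      intro H hH
      simp only [hG, good, mem_filter, not_not] at hH ⊢
      exact ⟨hH.1.1.1, hH.2⟩
    have h2 : (G.card : ℝ) ≤ Bd.card + ((good (insert v (insert z S))).card : ℝ) := by
      exact_mod_cast h1
    linarith
  have hτ0 : 0 ≤ τ * 2 ^ (EE n).card := le_trans (by positivity) hT
  have : (1 - η) * (((good S).card : ℝ) - τ * 2 ^ (EE n).card) ≤ (1 - η) * G.card :=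
    mul_le_mul_of_nonneg_left hGcard (by linarith)
  nlinarith

theorem good_mono {n : ℕ} {S T : Finset (Fin n)} (h : S ⊆ T) : good T ⊆ good S := by
  intro H hH
  simp only [good, mem_filter] at hH ⊢
  exact ⟨hH.1, hH.2.mono (by exact_mod_cast h)⟩

theorem iter {n : ℕ} (z : Fin n) {η τ : ℝ} (hη0 : 0 ≤ η) (hη1 : η ≤ 1) (hτ0 : 0 ≤ τ)
    (hη : (2 * n + 1 : ℝ) * 2 ≤ η * Real.sqrt (((n - 2).choose 4 : ℕ) : ℝ))
    (hτ : 4 ≤ τ * (((n - 2).choose 4 : ℕ) : ℝ)) (S : Finset (Fin n)) :
    z ∉ S → (1 - η) ^ S.card * 2 ^ (EE n).card - S.card * (τ * 2 ^ (EE n).card)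
      ≤ ((good S).card : ℝ) := by
  induction S using Finset.induction_on with
  | empty =>
    intro _
    have : good (∅ : Finset (Fin n)) = (EE n).powerset := by
      unfold good
      rw [filter_true_of_mem]
      intro H _; simp
    rw [this, card_powerset]
    simp
  | insert a S ha ih =>
    intro hz
    rw [mem_insert, not_or] at hz
    have h1 := ih hz.2
    have h2 := step (n := n) (v := a) (z := z) (fun h => hz.1 h.symm) ha hz.2 hη0 hη1
      (by rw [card_AA (fun h => hz.1 h.symm)]; exact hη)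
      (by rw [card_AA (fun h => hz.1 h.symm)]; exact hτ)
    have h3 : (good (insert a (insert z S))).card ≤ (good (insert a S)).card :=
      card_le_card (good_mono (insert_subset_insert _ (subset_insert _ _)))
    have h3' : ((good (insert a (insert z S))).card : ℝ) ≤ ((good (insert a S)).card : ℝ) := by
      exact_mod_cast h3
    rw [card_insert_of_notMem ha]
    have hM : (0 : ℝ) < 2 ^ (EE n).card := by positivity
    have h4 : (1 - η) * ((1 - η) ^ S.card * 2 ^ (EE n).card - S.card * (τ * 2 ^ (EE n).card))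
        ≤ (1 - η) * (good S).card := mul_le_mul_of_nonneg_left h1 (by linarith)
    have h5 : 0 ≤ η * (S.card * (τ * 2 ^ (EE n).card)) := by positivity
    have h6 : (1 - η) ^ (S.card + 1) * 2 ^ (EE n).card
        = (1 - η) * ((1 - η) ^ S.card * 2 ^ (EE n).card) := by ring
    rw [h6]
    push_cast
    linarith

theorem final {n : ℕ} (hn : 2 ≤ n) {η τ : ℝ} (hη0 : 0 ≤ η) (hη1 : η ≤ 1) (hτ0 : 0 ≤ τ)
    (hη : (2 * n + 1 : ℝ) * 2 ≤ η * Real.sqrt (((n - 2).choose 4 : ℕ) : ℝ))
    (hτ : 4 ≤ τ * (((n - 2).choose 4 : ℕ) : ℝ)) :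
    (1 - η) ^ n * 2 ^ (EE n).card - n * (τ * 2 ^ (EE n).card)
      ≤ ((good (Finset.univ : Finset (Fin n))).card : ℝ) := by
  let v : Fin n := ⟨0, by omega⟩
  let z : Fin n := ⟨1, by omega⟩
  have hvz : v ≠ z := by simp [v, z]
  set S : Finset (Fin n) := Finset.univ \ {v, z} with hS
  have hv : v ∉ S := by simp [hS]
  have hz : z ∉ S := by simp [hS]
  have hU : insert v (insert z S) = Finset.univ := by
    ext x; simp [hS]; tauto
  have h1 := iter z hη0 hη1 hτ0 hη hτ S hz
  have h2 := step hvz hv hz hη0 hη1 (by rw [card_AA hvz]; exact hη) (by rw [card_AA hvz]; exact hτ)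
  rw [hU] at h2
  have hSc : S.card ≤ n - 1 := by
    have : (insert z S).card ≤ n := by simpa using card_le_univ (insert z S)
    rw [card_insert_of_notMem hz] at this
    omega
  have hSc' : (S.card : ℝ) + 1 ≤ n := by
    have : S.card + 1 ≤ n := by omega
    exact_mod_cast this
  have hM : (0 : ℝ) < 2 ^ (EE n).card := by positivity
  have h4 : (1 - η) * ((1 - η) ^ S.card * 2 ^ (EE n).card - S.card * (τ * 2 ^ (EE n).card))
      ≤ (1 - η) * (good S).card := mul_le_mul_of_nonneg_left h1 (by linarith)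
  have h5 : 0 ≤ η * (S.card * (τ * 2 ^ (EE n).card)) := by positivity
  have h6 : (1 - η) ^ (S.card + 1) * 2 ^ (EE n).card
      = (1 - η) * ((1 - η) ^ S.card * 2 ^ (EE n).card) := by ring
  have h7 : (1 - η) ^ n * 2 ^ (EE n).card ≤ (1 - η) ^ (S.card + 1) * 2 ^ (EE n).card := by
    refine mul_le_mul_of_nonneg_right ?_ hM.le
    exact pow_le_pow_of_le_one (by linarith) (by linarith) (by omega)
  have h8 : ((S.card : ℝ) + 1) * (τ * 2 ^ (EE n).card) ≤ n * (τ * 2 ^ (EE n).card) := by
    gcongr
  linarith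

theorem choose_lower {n : ℕ} (hn : 10 ≤ n) : n ^ 4 ≤ 384 * (n - 2).choose 4 := by
  obtain ⟨k, rfl⟩ : ∃ k, n = k + 5 := ⟨n - 5, by omega⟩
  have h1 : (k + 5 - 2).choose 4 * 24 = (k + 3) * (k + 2) * (k + 1) * k := by
    have h := Nat.descFactorial_eq_factorial_mul_choose (k + 3) 4
    have h2 : (k + 3).descFactorial 4 = (k + 3) * (k + 2) * (k + 1) * k := by
      simp [Nat.descFactorial]
      ring
    rw [h2] at h
    rw [show k + 5 - 2 = k + 3 by omega, h]
    simp [Nat.factorial]; ring
  have hk : 5 ≤ k := by omega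
  have h2 : k + 5 ≤ 2 * k := by omega
  calc (k + 5) ^ 4 ≤ (2 * k) ^ 4 := by gcongr
    _ = 16 * (k * k * k * k) := by ring
    _ ≤ 16 * ((k + 3) * (k + 2) * (k + 1) * k) := by gcongr <;> omega
    _ = 16 * ((k + 5 - 2).choose 4 * 24) := by rw [h1]
    _ = _ := by ring

/-- There is c > 0 such that for all large n, at least a c fraction of the 5-uniform hypergraphs on n labeled vertices have pairwise distinct vertex degrees. -/
theorem result :
    ∃ c : ℝ, 0 < c ∧ ∃ N : ℕ, ∀ n : ℕ, N ≤ n →
      c ≤ ((((Finset.univ : Finset (Fin n)).powersetCard 5).powerset.filter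
              (fun H => Function.Injective
                (fun v : Fin n => (H.filter (fun e => v ∈ e)).card))).card : ℝ)
            / (2 : ℝ) ^ (n.choose 5) := by
  refine ⟨(1 / 4) ^ 200 / 2, by positivity, max 400 ⌈1536 / (((1 : ℝ) / 4) ^ 200 / 2)⌉₊, ?_⟩
  intro n hn
  have hn1 : 400 ≤ n := le_trans (le_max_left _ _) hn
  have hn2 : (1536 : ℝ) / (((1 : ℝ) / 4) ^ 200 / 2) ≤ n :=
    le_trans (Nat.le_ceil _) (by exact_mod_cast le_trans (le_max_right _ _) hn)
  have hn1' : (400 : ℝ) ≤ n := by exact_mod_cast hn1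
  have hnpos : (0 : ℝ) < n := by linarith
  have hch : ((n : ℝ)) ^ 4 ≤ 384 * (((n - 2).choose 4 : ℕ) : ℝ) := by
    exact_mod_cast choose_lower (by omega : 10 ≤ n)
  have hsq : (n : ℝ) ^ 2 / 20 ≤ Real.sqrt (((n - 2).choose 4 : ℕ) : ℝ) := by
    apply Real.le_sqrt_of_sq_le
    have : ((n : ℝ) ^ 2 / 20) ^ 2 = (n : ℝ) ^ 4 / 400 := by ring
    rw [this]
    have h4 : (0 : ℝ) ≤ (((n - 2).choose 4 : ℕ) : ℝ) := by positivity
    linarith
  have hη : (2 * n + 1 : ℝ) * 2 ≤ (100 / n) * Real.sqrt (((n - 2).choose 4 : ℕ) : ℝ) := by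
    calc (2 * n + 1 : ℝ) * 2 ≤ 5 * n := by linarith
      _ = (100 / n) * ((n : ℝ) ^ 2 / 20) := by field_simp; ring
      _ ≤ _ := by gcongr
  have hτ : 4 ≤ (1536 / (n : ℝ) ^ 4) * (((n - 2).choose 4 : ℕ) : ℝ) := by
    rw [div_mul_eq_mul_div, le_div_iff₀ (by positivity)]
    linarith
  have hη1 : 100 / (n : ℝ) ≤ 1 := by rw [div_le_one hnpos]; linarith
  have hfin := final (n := n) (by omega) (by positivity) hη1 (by positivity) hη hτ
  have hcard : (EE n).card = n.choose 5 := by
    rw [EE, card_powersetCard, card_univ, Fintype.card_fin]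
  have hset : (((Finset.univ : Finset (Fin n)).powersetCard 5).powerset.filter
              (fun H => Function.Injective
                (fun v : Fin n => (H.filter (fun e => v ∈ e)).card))).card
      = (good (Finset.univ : Finset (Fin n))).card := by
    congr 1
    ext H
    simp only [good, mem_filter, coe_univ, Set.injOn_univ]
    rfl
  rw [hset, ← hcard, le_div_iff₀ (by positivity)]
  refine le_trans ?_ hfin
  have hb : ((1 : ℝ) / 4) ^ 200 ≤ (1 - 100 / (n : ℝ)) ^ n := by
    set k := n / 200 + 1 with hk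
    have hk1 : n ≤ k * 200 := by omega
    have hk2 : (k : ℝ) ≤ n / 200 + 1 := by
      have : (((n / 200 : ℕ)) : ℝ) ≤ (n : ℝ) / 200 := Nat.cast_div_le
      rw [hk]; push_cast; linarith
    have h1 : 1 + (k : ℝ) * (-(100 / (n : ℝ))) ≤ (1 + -(100 / (n : ℝ))) ^ k :=
      one_add_mul_le_pow (by linarith) k
    have h2 : (1 : ℝ) / 4 ≤ 1 + (k : ℝ) * (-(100 / (n : ℝ))) := by
      have h3 : (k : ℝ) * (100 / (n : ℝ)) ≤ (n / 200 + 1) * (100 / (n : ℝ)) := by gcongr
      have h4 : ((n : ℝ) / 200 + 1) * (100 / (n : ℝ)) = 1 / 2 + 100 / n := by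
        field_simp; ring
      have h5 : 100 / (n : ℝ) ≤ 1 / 4 := by
        rw [div_le_iff₀ hnpos]; linarith
      linarith
    have h3 : (1 : ℝ) / 4 ≤ (1 - 100 / (n : ℝ)) ^ k := by
      rw [sub_eq_add_neg]; linarith
    calc ((1 : ℝ) / 4) ^ 200 ≤ ((1 - 100 / (n : ℝ)) ^ k) ^ 200 := by gcongr
      _ = (1 - 100 / (n : ℝ)) ^ (k * 200) := by rw [pow_mul]
      _ ≤ (1 - 100 / (n : ℝ)) ^ n :=
          pow_le_pow_of_le_one (by linarith) (by
            have : (0 : ℝ) ≤ 100 / n := by positivity
            linarith) hk1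
  have hc : (n : ℝ) * (1536 / (n : ℝ) ^ 4) ≤ (1 / 4) ^ 200 / 2 := by
    have hcpos : (0 : ℝ) < (1 / 4) ^ 200 / 2 := by positivity
    rw [div_le_iff₀ hcpos] at hn2
    have h1 : (n : ℝ) * (1536 / (n : ℝ) ^ 4) = 1536 / (n : ℝ) ^ 3 := by field_simp
    rw [h1, div_le_iff₀ (by positivity)]
    have h2 : (n : ℝ) ≤ (n : ℝ) ^ 3 := by
      have : (1 : ℝ) ≤ n := by linarith
      exact le_self_pow₀ this (by norm_num)
    nlinarith
  have hM : (0 : ℝ) < 2 ^ (EE n).card := by positivity
  have h9 := mul_le_mul_of_nonneg_right hb hM.le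
  have h10 := mul_le_mul_of_nonneg_right hc hM.le
  have h11 : (n : ℝ) * (1536 / (n : ℝ) ^ 4 * 2 ^ (EE n).card)
      = (n : ℝ) * (1536 / (n : ℝ) ^ 4) * 2 ^ (EE n).card := by ring
  rw [h11]
  linarith

end Pool.Agent.S06627
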