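import Pool.Statements.S06658
-- import your own Pool.Agent.* helpers here

set_option autoImplicit false
open Pool Pool.MP_85fffe_co

namespace Pool.Agent.S06658

theorem exists_v : ∃ v : ℕ → ℝ, LinearIndependent ℚ v := by
  have h1 : Cardinal.aleph0 ≤ Module.rank ℚ ℝ := by
    rw [Real.rank_rat_real]
    exact Cardinal.aleph0_le_continuum
  let b := Module.Basis.ofVectorSpace ℚ ℝ
  have h2 : Infinite (Module.Basis.ofVectorSpaceIndex ℚ ℝ) := by
    rw [Cardinal.infinite_iff]
    rw [← b.mk_eq_rank''] at h1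
    exact h1
  obtain ⟨e⟩ : Nonempty (ℕ ↪ Module.Basis.ofVectorSpaceIndex ℚ ℝ) := ⟨Infinite.natEmbedding _⟩
  exact ⟨fun n => b (e n), b.linearIndependent.comp _ e.injective⟩

section
variable {v : ℕ → ℝ} (hv : LinearIndependent ℚ v)
include hv

theorem three {a b c d e f : ℕ} (h : v a + v b + v c = v d + v e + v f) : d = a ∨ d = b ∨ d = c := by
  have h1 : Finsupp.linearCombination ℚ v (Finsupp.single a 1 + Finsupp.single b 1 + Finsupp.single c 1)
      = Finsupp.linearCombination ℚ v (Finsupp.single d 1 + Finsupp.single e 1 + Finsupp.single f 1) := by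
    simp only [map_add, Finsupp.linearCombination_single, one_smul]
    exact h
  have h2 := hv h1
  have h3 := DFunLike.congr_fun h2 d
  by_contra hc
  push Not at hc
  simp only [Finsupp.add_apply, Finsupp.single_apply, if_neg hc.1.symm, if_neg hc.2.1.symm,
    if_neg hc.2.2.symm, if_true] at h3
  split_ifs at h3 <;> norm_num at h3

theorem two {a b c d : ℕ} (h : v a + v b = v c + v d) : c = a ∨ c = b := by
  have h1 : Finsupp.linearCombination ℚ v (Finsupp.single a 1 + Finsupp.single b 1)
      = Finsupp.linearCombination ℚ v (Finsupp.single c 1 + Finsupp.single d 1) := by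
    simp only [map_add, Finsupp.linearCombination_single, one_smul]
    exact h
  have h2 := hv h1
  have h3 := DFunLike.congr_fun h2 c
  by_contra hc
  push Not at hc
  simp only [Finsupp.add_apply, Finsupp.single_apply, if_neg hc.1.symm, if_neg hc.2.symm,
    if_true] at h3
  split_ifs at h3 <;> norm_num at h3

end

/-- the ground set -/
noncomputable def X (v : ℕ → ℝ) (k : ℕ) : Finset ℝ :=
  ((Finset.range k ×ˢ Finset.range (k + 2)).filter (fun p => p.1 ≠ p.2)).image
    (fun p => v p.1 + v (k + p.2))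

/-- the patterns -/
noncomputable def A (v : ℕ → ℝ) (k : ℕ) (I : Finset ℕ) : Finset ℝ := I.image (fun i => v i + v (k + k))

theorem mem_X {v : ℕ → ℝ} {k : ℕ} {x : ℝ} : x ∈ X v k ↔ ∃ i j, i < k ∧ j < k + 2 ∧ i ≠ j ∧
    v i + v (k + j) = x := by
  simp only [X, Finset.mem_image, Finset.mem_filter, Finset.mem_product, Finset.mem_range, Prod.exists]
  constructor
  · rintro ⟨i, j, ⟨⟨h1, h2⟩, h3⟩, h4⟩; exact ⟨i, j, h1, h2, h3, h4⟩
  · rintro ⟨i, j, h1, h2, h3, h4⟩; exact ⟨i, j, ⟨⟨h1, h2⟩, h3⟩, h4⟩

theorem mem_A {v : ℕ → ℝ} {k : ℕ} {I : Finset ℕ} {x : ℝ} : x ∈ A v k I ↔ ∃ i ∈ I, v i + v (k + k) = x := by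
  simp only [A, Finset.mem_image]

theorem growth (k : ℕ) (hk : 15 ≤ k) : k * (k * (k + 2)) < 2 ^ (k - 2) := by
  induction k, hk using Nat.le_induction with
  | base => norm_num
  | succ k hk ih =>
    have h1 : 2 ^ (k + 1 - 2) = 2 * 2 ^ (k - 2) := by
      rw [← pow_succ']; congr 1; omega
    rw [h1]
    have h2 : (k + 1) * ((k + 1) * (k + 1 + 2)) ≤ 2 * (k * (k * (k + 2))) := by
      nlinarith [mul_le_mul hk (le_refl (k * k)) (by positivity) (by positivity), mul_le_mul hk (le_refl k) (by positivity) (by positivity)]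
    omega

/-- The negation of the preceding statement: There is a constant C such that for every finite set X of n reals, any family of maximally repeated patterns of X, no two of which are translates of each other, has at most C·n members. -/
theorem result :
    ¬ (∃ C : ℕ, ∀ X : Finset ℝ, ∀ S : Finset (Finset ℝ),
      (∀ A ∈ S,
        A.Nonempty ∧ A ⊆ X ∧
        (∃ t : ℝ, t ≠ 0 ∧ A.image (· + t) ⊆ X) ∧
        (∀ B : Finset ℝ, A ⊂ B →
          ¬ (∀ t : ℝ, A.image (· + t) ⊆ X → B.image (· + t) ⊆ X))) →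
      (∀ A ∈ S, ∀ B ∈ S, ∀ t : ℝ, B = A.image (· + t) → A = B) →
      S.card ≤ C * X.card) := by
  rintro ⟨C, H⟩
  obtain ⟨v, hv⟩ := exists_v
  have hvi : Function.Injective v := hv.injective
  obtain ⟨k, hk, hkC⟩ : ∃ k, 15 ≤ k ∧ C ≤ k := ⟨C + 15, by omega, by omega⟩
  -- the family
  let F : Finset ℕ → Finset ℝ := fun I => A v k (insert 0 (insert 1 I))
  let S : Finset (Finset ℝ) := (Finset.Ico 2 k).powerset.image F
  have hF : ∀ I J, I ∈ (Finset.Ico 2 k).powerset → J ∈ (Finset.Ico 2 k).powerset → F I = F J → I = J := by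
    intro I J hI hJ h
    rw [Finset.mem_powerset] at hI hJ
    have h1 : Function.Injective (fun i => v i + v (k + k)) := fun a b hab => hvi (by
      have : v a + v (k + k) = v b + v (k + k) := hab
      linarith)
    have h2 : insert 0 (insert 1 I) = insert 0 (insert 1 J) := Finset.image_injective h1 h
    have h3 : ∀ I J : Finset ℕ, I ⊆ Finset.Ico 2 k → insert 0 (insert 1 I) = insert 0 (insert 1 J) → I ⊆ J := by
      intro I J hI h2 i hi
      have h4 : i ∈ insert 0 (insert 1 J) := by
        rw [← h2]; simp [hi]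
      have h5 := Finset.mem_Ico.mp (hI hi)
      simp only [Finset.mem_insert] at h4
      rcases h4 with h4 | h4 | h4
      · omega
      · omega
      · exact h4
    exact Finset.Subset.antisymm (h3 I J hI h2) (h3 J I hJ h2.symm)
  have hScard : S.card = 2 ^ (k - 2) := by
    rw [Finset.card_image_of_injOn (fun I hI J hJ h => hF I J hI hJ h), Finset.card_powerset, Nat.card_Ico]
  have hXcard : (X v k).card ≤ k * (k + 2) := by
    calc (X v k).card ≤ ((Finset.range k ×ˢ Finset.range (k + 2)).filter (fun p => p.1 ≠ p.2)).card :=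
          Finset.card_image_le
      _ ≤ (Finset.range k ×ˢ Finset.range (k + 2)).card := Finset.card_filter_le _ _
      _ = k * (k + 2) := by rw [Finset.card_product, Finset.card_range, Finset.card_range]
  have hlt : ∀ I ∈ (Finset.Ico 2 k).powerset, ∀ i ∈ insert 0 (insert 1 I), i < k := by
    intro I hI i hi
    rw [Finset.mem_powerset] at hI
    simp only [Finset.mem_insert] at hi
    rcases hi with rfl | rfl | hi
    · omega
    · omega
    · exact (Finset.mem_Ico.mp (hI hi)).2
  have key := H (X v k) S ?_ ?_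
  · rw [hScard] at key
    have h1 := growth k hk
    have h2 : C * (X v k).card ≤ k * (k * (k + 2)) := Nat.mul_le_mul hkC hXcard
    omega
  · intro A' hA'
    obtain ⟨I, hI, rfl⟩ := Finset.mem_image.mp hA'
    refine ⟨⟨v 0 + v (k + k), mem_A.mpr ⟨0, by simp, rfl⟩⟩, ?_, ⟨v (k + (k + 1)) - v (k + k), ?_, ?_⟩, ?_⟩
    · intro x hx
      obtain ⟨i, hi, rfl⟩ := mem_A.mp hx
      have := hlt I hI i hi
      exact mem_X.mpr ⟨i, k, this, by omega, by omega, rfl⟩
    · intro h
      have : v (k + (k + 1)) = v (k + k) := by linarith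
      have := hvi this
      omega
    · intro x hx
      obtain ⟨y, hy, rfl⟩ := Finset.mem_image.mp hx
      obtain ⟨i, hi, rfl⟩ := mem_A.mp hy
      have := hlt I hI i hi
      exact mem_X.mpr ⟨i, k + 1, this, by omega, by omega, by ring⟩
    · intro B hB hall
      obtain ⟨hsub, hne⟩ := Finset.ssubset_iff_subset_ne.mp hB
      obtain ⟨b, hbB, hbA⟩ : ∃ b ∈ B, b ∉ F I := by
        by_contra hc
        push Not at hc
        exact hne (Finset.Subset.antisymm hsub hc)
      have hb0 : b ∈ X v k := by
        have h1 := hall 0 (by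
          intro x hx
          obtain ⟨y, hy, rfl⟩ := Finset.mem_image.mp hx
          obtain ⟨i, hi, rfl⟩ := mem_A.mp hy
          have := hlt I hI i hi
          exact mem_X.mpr ⟨i, k, this, by omega, by omega, by ring⟩)
        exact h1 (Finset.mem_image.mpr ⟨b, hbB, by ring⟩)
      obtain ⟨l, m, hl, hm, hlm, rfl⟩ := mem_X.mp hb0
      have hb1 : v l + v (k + m) + (v (k + (k + 1)) - v (k + k)) ∈ X v k := by
        have h1 := hall (v (k + (k + 1)) - v (k + k)) (by
          intro x hx
          obtain ⟨y, hy, rfl⟩ := Finset.mem_image.mp hx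
          obtain ⟨i, hi, rfl⟩ := mem_A.mp hy
          have := hlt I hI i hi
          exact mem_X.mpr ⟨i, k + 1, this, by omega, by omega, by ring⟩)
        exact h1 (Finset.mem_image.mpr ⟨_, hbB, rfl⟩)
      obtain ⟨l', m', hl', hm', hlm', he⟩ := mem_X.mp hb1
      have hmk : m = k := by
        have h1 : v l + v (k + m) + v (k + (k + 1)) = v (k + k) + v l' + v (k + m') := by linarith
        rcases three hv h1 with h2 | h2 | h2 <;> omega
      subst hmk
      have hlI : l ∉ insert 0 (insert 1 I) := by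
        intro hc
        exact hbA (mem_A.mpr ⟨l, hc, rfl⟩)
      have hb2 : v l + v (m + m) + (v (m + l) - v (m + m)) ∈ X v m := by
        have h1 := hall (v (m + l) - v (m + m)) (by
          intro x hx
          obtain ⟨y, hy, rfl⟩ := Finset.mem_image.mp hx
          obtain ⟨i, hi, rfl⟩ := mem_A.mp hy
          have := hlt I hI i hi
          refine mem_X.mpr ⟨i, l, this, by omega, ?_, by ring⟩
          rintro rfl
          exact hlI hi)
        exact h1 (Finset.mem_image.mpr ⟨_, hbB, rfl⟩)
      obtain ⟨l2, m2, hl2, hm2, hlm2, he2⟩ := mem_X.mp hb2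
      have h3 : v l2 + v (m + m2) = v l + v (m + l) := by linarith
      have h4 : l = l2 := by rcases two hv h3 with h5 | h5 <;> omega
      have h6 : v l2 + v (m + m2) = v (m + l) + v l := by linarith
      have h7 : m + l = m + m2 := by rcases two hv h6 with h5 | h5 <;> omega
      omega
  · intro A1 hA1 A2 hA2 t ht
    obtain ⟨I, hI, rfl⟩ := Finset.mem_image.mp hA1
    obtain ⟨J, hJ, rfl⟩ := Finset.mem_image.mp hA2
    have h0 : v 0 + v (k + k) + t ∈ F J := by
      rw [ht]
      exact Finset.mem_image.mpr ⟨_, mem_A.mpr ⟨0, by simp, rfl⟩, rfl⟩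
    have h1 : v 1 + v (k + k) + t ∈ F J := by
      rw [ht]
      exact Finset.mem_image.mpr ⟨_, mem_A.mpr ⟨1, by simp, rfl⟩, rfl⟩
    obtain ⟨j, hj, hj'⟩ := mem_A.mp h0
    obtain ⟨j2, hj2, hj2'⟩ := mem_A.mp h1
    have h3 : v 1 + v j = v 0 + v j2 := by linarith
    have h4 : 0 = j := by rcases two hv h3 with h5 | h5 <;> omega
    subst h4
    have h5 : t = 0 := by linarith
    subst h5
    rw [ht]
    ext x
    simp

end Pool.Agent.S06658
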