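import Pool.Statements.S06670
-- import your own Pool.Agent.* helpers here

set_option autoImplicit false
open Pool Pool.MP_8697c3_co

namespace Pool.Agent.S06670

noncomputable section

/-- bottom indices: an increasing sequence with its limit -/
def SA : Set ℝ := insert 0 (Set.range fun n : ℕ => -(1 / ((n : ℝ) + 5)))
/-- top indices: a decreasing sequence with its limit -/
def SB : Set ℝ := insert 0 (Set.range fun n : ℕ => 1 / ((n : ℝ) + 5))

theorem seq_pos (n : ℕ) : 0 < 1 / ((n : ℝ) + 5) := by positivity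
theorem seq_le (n : ℕ) : 1 / ((n : ℝ) + 5) ≤ 1 / 5 := by
  apply one_div_le_one_div_of_le (by norm_num)
  have : (0 : ℝ) ≤ n := Nat.cast_nonneg n
  linarith

theorem SA_bd {a : ℝ} (ha : a ∈ SA) : -(1 / 5) ≤ a ∧ a ≤ 0 := by
  rcases ha with rfl | ⟨n, rfl⟩
  · norm_num
  · have h1 := seq_pos n
    have h2 := seq_le n
    exact ⟨by linarith, by linarith⟩

theorem SB_bd {b : ℝ} (hb : b ∈ SB) : 0 ≤ b ∧ b ≤ 1 / 5 := by
  rcases hb with rfl | ⟨n, rfl⟩
  · norm_num
  · exact ⟨(seq_pos n).le, seq_le n⟩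

theorem zero_SA : (0 : ℝ) ∈ SA := Set.mem_insert _ _
theorem zero_SB : (0 : ℝ) ∈ SB := Set.mem_insert _ _

theorem tendsto_seq : Filter.Tendsto (fun n : ℕ => 1 / ((n : ℝ) + 5)) Filter.atTop (nhds 0) := by
  have h : Filter.Tendsto (fun n : ℕ => (n : ℝ) + 5) Filter.atTop Filter.atTop :=
    Filter.tendsto_atTop_add_const_right _ _ tendsto_natCast_atTop_atTop
  refine h.inv_tendsto_atTop.congr (fun n => ?_)
  simp [one_div]

theorem compact_SB : IsCompact SB := tendsto_seq.isCompact_insert_range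
theorem compact_SA : IsCompact SA := by
  have h := tendsto_seq.neg
  rw [neg_zero] at h
  exact h.isCompact_insert_range

/-- the defining predicate of the poset -/
def KK (p : ℝ × ℝ) : Prop :=
  (∃ a ∈ SA, -a ≤ p.1 ∧ a ≤ p.2) ∧ (∃ b ∈ SB, p.1 ≤ 1 - b ∧ p.2 ≤ 1 + b)

/-- the poset -/
abbrev P : Type := {p : ℝ × ℝ // KK p}

theorem le_iff (p q : P) : p ≤ q ↔ p.1.1 ≤ q.1.1 ∧ p.1.2 ≤ q.1.2 := Iff.rfl

theorem eq_of (p q : P) (h1 : p.1.1 = q.1.1) (h2 : p.1.2 = q.1.2) : p = q :=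
  Subtype.ext (Prod.ext h1 h2)

theorem chain_low {C : Set P} (hC : IsChain (· ≤ ·) C) (hne : C.Nonempty) (u : Finset C) :
    ∃ m ∈ C, ∀ c ∈ u, m ≤ (c : P) := by
  classical
  induction u using Finset.induction_on with
  | empty => obtain ⟨c, hc⟩ := hne; exact ⟨c, hc, by simp⟩
  | insert x s _ ih =>
    obtain ⟨m, hm, h⟩ := ih
    rcases hC.total hm x.2 with h1 | h1
    · refine ⟨m, hm, ?_⟩
      intro c hc
      rcases Finset.mem_insert.1 hc with rfl | hc
      · exact h1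
      · exact h c hc
    · refine ⟨x, x.2, ?_⟩
      intro c hc
      rcases Finset.mem_insert.1 hc with rfl | hc
      · exact le_refl _
      · exact h1.trans (h c hc)

theorem chain_high {C : Set P} (hC : IsChain (· ≤ ·) C) (hne : C.Nonempty) (u : Finset C) :
    ∃ m ∈ C, ∀ c ∈ u, (c : P) ≤ m := by
  classical
  induction u using Finset.induction_on with
  | empty => obtain ⟨c, hc⟩ := hne; exact ⟨c, hc, by simp⟩
  | insert x s _ ih =>
    obtain ⟨m, hm, h⟩ := ih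
    rcases hC.total hm x.2 with h1 | h1
    · refine ⟨x, x.2, ?_⟩
      intro c hc
      rcases Finset.mem_insert.1 hc with rfl | hc
      · exact le_refl _
      · exact (h c hc).trans h1
    · refine ⟨m, hm, ?_⟩
      intro c hc
      rcases Finset.mem_insert.1 hc with rfl | hc
      · exact h1
      · exact h c hc

theorem exA {C : Set P} (hC : IsChain (· ≤ ·) C) (hne : C.Nonempty) :
    ∃ a ∈ SA, ∀ c ∈ C, -a ≤ (c : P).1.1 ∧ a ≤ c.1.2 := by
  have h := compact_SA.inter_iInter_nonempty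
    (fun c : C => {a : ℝ | -a ≤ (c : P).1.1 ∧ a ≤ (c : P).1.2})
    (fun c => (isClosed_le continuous_neg continuous_const).inter
      (isClosed_le continuous_id continuous_const))
    (by
      intro u
      obtain ⟨m, _, hm⟩ := chain_low hC hne u
      obtain ⟨a, ha, h1, h2⟩ := m.2.1
      refine ⟨a, ha, ?_⟩
      simp only [Set.mem_iInter]
      intro c hc
      have := hm c hc
      rw [le_iff] at this
      exact ⟨h1.trans this.1, h2.trans this.2⟩)
  obtain ⟨a, ha, h⟩ := h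
  refine ⟨a, ha, fun c hc => ?_⟩
  exact Set.mem_iInter.1 h ⟨c, hc⟩

theorem exB {C : Set P} (hC : IsChain (· ≤ ·) C) (hne : C.Nonempty) :
    ∃ b ∈ SB, ∀ c ∈ C, (c : P).1.1 ≤ 1 - b ∧ c.1.2 ≤ 1 + b := by
  have h := compact_SB.inter_iInter_nonempty
    (fun c : C => {b : ℝ | (c : P).1.1 ≤ 1 - b ∧ (c : P).1.2 ≤ 1 + b})
    (fun c => (isClosed_le continuous_const (continuous_const.sub continuous_id)).inter
      (isClosed_le continuous_const (continuous_const.add continuous_id)))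
    (by
      intro u
      obtain ⟨m, _, hm⟩ := chain_high hC hne u
      obtain ⟨b, hb, h1, h2⟩ := m.2.2
      refine ⟨b, hb, ?_⟩
      simp only [Set.mem_iInter]
      intro c hc
      have := hm c hc
      rw [le_iff] at this
      exact ⟨this.1.trans h1, this.2.trans h2⟩)
  obtain ⟨b, hb, h⟩ := h
  refine ⟨b, hb, fun c hc => ?_⟩
  exact Set.mem_iInter.1 h ⟨c, hc⟩

/-- first coordinates -/
def f1 (C : Set P) : Set ℝ := (fun c : P => c.1.1) '' C
/-- second coordinates -/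
def f2 (C : Set P) : Set ℝ := (fun c : P => c.1.2) '' C

theorem glb {C : Set P} (hC : IsChain (· ≤ ·) C) (hne : C.Nonempty) : ∃ a : P, IsGLB C a := by
  obtain ⟨a, ha, hA⟩ := exA hC hne
  obtain ⟨b, hb, hB⟩ := exB hC hne
  have n1 : (f1 C).Nonempty := hne.image _
  have n2 : (f2 C).Nonempty := hne.image _
  have b1 : BddBelow (f1 C) := ⟨-a, by rintro _ ⟨c, hc, rfl⟩; exact (hA c hc).1⟩
  have b2 : BddBelow (f2 C) := ⟨a, by rintro _ ⟨c, hc, rfl⟩; exact (hA c hc).2⟩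
  have l1 : ∀ c ∈ C, sInf (f1 C) ≤ (c : P).1.1 := fun c hc => csInf_le b1 ⟨c, hc, rfl⟩
  have l2 : ∀ c ∈ C, sInf (f2 C) ≤ (c : P).1.2 := fun c hc => csInf_le b2 ⟨c, hc, rfl⟩
  have hK : KK (sInf (f1 C), sInf (f2 C)) := by
    refine ⟨⟨a, ha, le_csInf n1 ?_, le_csInf n2 ?_⟩, ?_⟩
    · rintro _ ⟨c, hc, rfl⟩; exact (hA c hc).1
    · rintro _ ⟨c, hc, rfl⟩; exact (hA c hc).2
    · obtain ⟨c, hc⟩ := hne
      exact ⟨b, hb, (l1 c hc).trans (hB c hc).1, (l2 c hc).trans (hB c hc).2⟩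
  refine ⟨⟨_, hK⟩, fun c hc => ?_, fun w hw => ?_⟩
  · rw [le_iff]; exact ⟨l1 c hc, l2 c hc⟩
  · rw [le_iff]
    refine ⟨le_csInf n1 ?_, le_csInf n2 ?_⟩
    · rintro _ ⟨c, hc, rfl⟩; exact ((le_iff _ _).1 (hw hc)).1
    · rintro _ ⟨c, hc, rfl⟩; exact ((le_iff _ _).1 (hw hc)).2

theorem lub {C : Set P} (hC : IsChain (· ≤ ·) C) (hne : C.Nonempty) : ∃ a : P, IsLUB C a := by
  obtain ⟨a, ha, hA⟩ := exA hC hne
  obtain ⟨b, hb, hB⟩ := exB hC hne
  have n1 : (f1 C).Nonempty := hne.image _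
  have n2 : (f2 C).Nonempty := hne.image _
  have b1 : BddAbove (f1 C) := ⟨1 - b, by rintro _ ⟨c, hc, rfl⟩; exact (hB c hc).1⟩
  have b2 : BddAbove (f2 C) := ⟨1 + b, by rintro _ ⟨c, hc, rfl⟩; exact (hB c hc).2⟩
  have l1 : ∀ c ∈ C, (c : P).1.1 ≤ sSup (f1 C) := fun c hc => le_csSup b1 ⟨c, hc, rfl⟩
  have l2 : ∀ c ∈ C, (c : P).1.2 ≤ sSup (f2 C) := fun c hc => le_csSup b2 ⟨c, hc, rfl⟩
  have hK : KK (sSup (f1 C), sSup (f2 C)) := by
    refine ⟨?_, ⟨b, hb, csSup_le n1 ?_, csSup_le n2 ?_⟩⟩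
    · obtain ⟨c, hc⟩ := hne
      exact ⟨a, ha, (hA c hc).1.trans (l1 c hc), (hA c hc).2.trans (l2 c hc)⟩
    · rintro _ ⟨c, hc, rfl⟩; exact (hB c hc).1
    · rintro _ ⟨c, hc, rfl⟩; exact (hB c hc).2
  refine ⟨⟨_, hK⟩, fun c hc => ?_, fun w hw => ?_⟩
  · rw [le_iff]; exact ⟨l1 c hc, l2 c hc⟩
  · rw [le_iff]
    refine ⟨csSup_le n1 ?_, csSup_le n2 ?_⟩
    · rintro _ ⟨c, hc, rfl⟩; exact ((le_iff _ _).1 (hw hc)).1
    · rintro _ ⟨c, hc, rfl⟩; exact ((le_iff _ _).1 (hw hc)).2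

/-- bottom points -/
def xp (a : SA) : P := ⟨(-a.1, a.1), ⟨a.1, a.2, le_refl _, le_refl _⟩,
  ⟨0, zero_SB, by have := SA_bd a.2; simp only; linarith, by have := SA_bd a.2; simp only; linarith⟩⟩
/-- top points -/
def yp (b : SB) : P := ⟨(1 - b.1, 1 + b.1),
  ⟨0, zero_SA, by have := SB_bd b.2; simp only; linarith, by have := SB_bd b.2; simp only; linarith⟩,
  ⟨b.1, b.2, le_refl _, le_refl _⟩⟩

@[simp] theorem xp1 (a : SA) : (xp a).1.1 = -a.1 := rfl
@[simp] theorem xp2 (a : SA) : (xp a).1.2 = a.1 := rfl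
@[simp] theorem yp1 (b : SB) : (yp b).1.1 = 1 - b.1 := rfl
@[simp] theorem yp2 (b : SB) : (yp b).1.2 = 1 + b.1 := rfl

theorem mem_of_comp {C : Set P} (hC : IsMaxChain (· ≤ ·) C) (z : P)
    (h : ∀ c ∈ C, z ≤ c ∨ c ≤ z) : z ∈ C := by
  have h1 : IsChain (· ≤ ·) (insert z C) := hC.1.insert (fun c hc _ => h c hc)
  have h2 := hC.2 h1 (Set.subset_insert _ _)
  rw [h2]; exact Set.mem_insert _ _

theorem maxchain_ne {C : Set P} (hC : IsMaxChain (· ≤ ·) C) : C.Nonempty := by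
  by_contra hne
  rw [Set.not_nonempty_iff_eq_empty] at hne
  have := mem_of_comp hC (xp ⟨0, zero_SA⟩) (by rw [hne]; simp)
  rw [hne] at this; exact this

theorem bot_mem {C : Set P} (hC : IsMaxChain (· ≤ ·) C) : ∃ a : SA, xp a ∈ C := by
  obtain ⟨a, ha, hA⟩ := exA hC.1 (maxchain_ne hC)
  refine ⟨⟨a, ha⟩, mem_of_comp hC _ fun c hc => Or.inl ?_⟩
  rw [le_iff]; exact hA c hc

theorem top_mem {C : Set P} (hC : IsMaxChain (· ≤ ·) C) : ∃ b : SB, yp b ∈ C := by
  obtain ⟨b, hb, hB⟩ := exB hC.1 (maxchain_ne hC)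
  refine ⟨⟨b, hb⟩, mem_of_comp hC _ fun c hc => Or.inr ?_⟩
  rw [le_iff]; exact hB c hc

/-- sum of coordinates -/
def sm (p : P) : ℝ := p.1.1 + p.1.2

theorem sm_mono {p q : P} (h : p ≤ q) : sm p ≤ sm q := by
  rw [le_iff] at h; simp only [sm]; linarith [h.1, h.2]

theorem eq_of_sm {p q : P} (h : p ≤ q) (hs : sm q ≤ sm p) : p = q := by
  rw [le_iff] at h; simp only [sm] at hs
  exact eq_of _ _ (by linarith [h.1, h.2]) (by linarith [h.1, h.2])

theorem le_of_sm {C : Set P} (hC : IsChain (· ≤ ·) C) {p q : P} (hp : p ∈ C) (hq : q ∈ C)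
    (hs : sm p ≤ sm q) : p ≤ q := by
  rcases hC.total hp hq with h | h
  · exact h
  · rw [eq_of_sm h hs]

theorem slice {C : Set P} (hC : IsMaxChain (· ≤ ·) C) (t : ℝ) (h0 : 0 ≤ t) (h2 : t ≤ 2) :
    ∃ c ∈ C, sm c = t := by
  obtain ⟨a, ha⟩ := bot_mem hC
  obtain ⟨b, hb⟩ := top_mem hC
  set L : Set P := {c | c ∈ C ∧ sm c ≤ t} with hL
  set U : Set P := {c | c ∈ C ∧ t ≤ sm c} with hU
  have haL : xp a ∈ L := ⟨ha, by simp [sm, h0]⟩
  have hbU : yp b ∈ U := ⟨hb, by simp only [sm, yp1, yp2]; linarith⟩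
  have hLU : ∀ l ∈ L, ∀ u ∈ U, l ≤ u := fun l hl u hu => le_of_sm hC.1 hl.1 hu.1 (hl.2.trans hu.2)
  have nL1 : (f1 L).Nonempty := ⟨_, xp a, haL, rfl⟩
  have nL2 : (f2 L).Nonempty := ⟨_, xp a, haL, rfl⟩
  have nU1 : (f1 U).Nonempty := ⟨_, yp b, hbU, rfl⟩
  have nU2 : (f2 U).Nonempty := ⟨_, yp b, hbU, rfl⟩
  have bL1 : BddAbove (f1 L) := ⟨(yp b).1.1, by
    rintro _ ⟨c, hc, rfl⟩; exact ((le_iff _ _).1 (hLU c hc _ hbU)).1⟩
  have bL2 : BddAbove (f2 L) := ⟨(yp b).1.2, by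
    rintro _ ⟨c, hc, rfl⟩; exact ((le_iff _ _).1 (hLU c hc _ hbU)).2⟩
  have bU1 : BddBelow (f1 U) := ⟨(xp a).1.1, by
    rintro _ ⟨c, hc, rfl⟩; exact ((le_iff _ _).1 (hLU _ haL c hc)).1⟩
  have bU2 : BddBelow (f2 U) := ⟨(xp a).1.2, by
    rintro _ ⟨c, hc, rfl⟩; exact ((le_iff _ _).1 (hLU _ haL c hc)).2⟩
  have c1 : ∀ c ∈ L, c.1.1 ≤ sSup (f1 L) := fun c hc => le_csSup bL1 ⟨c, hc, rfl⟩
  have c2 : ∀ c ∈ L, c.1.2 ≤ sSup (f2 L) := fun c hc => le_csSup bL2 ⟨c, hc, rfl⟩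
  have d1 : ∀ c ∈ U, sInf (f1 U) ≤ c.1.1 := fun c hc => csInf_le bU1 ⟨c, hc, rfl⟩
  have d2 : ∀ c ∈ U, sInf (f2 U) ≤ c.1.2 := fun c hc => csInf_le bU2 ⟨c, hc, rfl⟩
  have e1 : sSup (f1 L) ≤ sInf (f1 U) := by
    apply csSup_le nL1
    rintro _ ⟨c, hc, rfl⟩
    apply le_csInf nU1
    rintro _ ⟨u, hu, rfl⟩
    exact ((le_iff _ _).1 (hLU c hc u hu)).1
  have e2 : sSup (f2 L) ≤ sInf (f2 U) := by
    apply csSup_le nL2
    rintro _ ⟨c, hc, rfl⟩
    apply le_csInf nU2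
    rintro _ ⟨u, hu, rfl⟩
    exact ((le_iff _ _).1 (hLU c hc u hu)).2
  have s1 : sSup (f1 L) + sSup (f2 L) ≤ t := by
    have h : ∀ l ∈ L, ∀ l' ∈ L, l.1.1 + l'.1.2 ≤ t := by
      intro l hl l' hl'
      rcases hC.1.total hl.1 hl'.1 with h | h
      · have := hl'.2; rw [le_iff] at h; simp only [sm] at this; linarith [h.1]
      · have := hl.2; rw [le_iff] at h; simp only [sm] at this; linarith [h.2]
    have h' : sSup (f1 L) ≤ t - sSup (f2 L) := by
      apply csSup_le nL1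
      rintro _ ⟨l, hl, rfl⟩
      have : sSup (f2 L) ≤ t - l.1.1 := by
        apply csSup_le nL2
        rintro _ ⟨l', hl', rfl⟩
        have := h l hl l' hl'
        simp only; linarith
      simp only; linarith
    linarith
  have s2 : t ≤ sInf (f1 U) + sInf (f2 U) := by
    have h : ∀ l ∈ U, ∀ l' ∈ U, t ≤ l.1.1 + l'.1.2 := by
      intro l hl l' hl'
      rcases hC.1.total hl.1 hl'.1 with h | h
      · have := hl.2; rw [le_iff] at h; simp only [sm] at this; linarith [h.2]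
      · have := hl'.2; rw [le_iff] at h; simp only [sm] at this; linarith [h.1]
    have h' : t - sInf (f2 U) ≤ sInf (f1 U) := by
      apply le_csInf nU1
      rintro _ ⟨l, hl, rfl⟩
      have : t - l.1.1 ≤ sInf (f2 U) := by
        apply le_csInf nU2
        rintro _ ⟨l', hl', rfl⟩
        have := h l hl l' hl'
        simp only; linarith
      simp only; linarith
    linarith
  set z1 : ℝ := min (sInf (f1 U)) (t - sSup (f2 L)) with hz1
  have q1 : sSup (f1 L) ≤ z1 := le_min e1 (by linarith)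
  have q2 : z1 ≤ sInf (f1 U) := min_le_left _ _
  have q3 : sSup (f2 L) ≤ t - z1 := by have := min_le_right (sInf (f1 U)) (t - sSup (f2 L)); linarith
  have q4 : t - z1 ≤ sInf (f2 U) := by
    rcases min_choice (sInf (f1 U)) (t - sSup (f2 L)) with h | h
    · rw [hz1, h]; linarith
    · rw [hz1, h]; linarith
  have hK : KK (z1, t - z1) := by
    refine ⟨⟨a.1, a.2, ?_, ?_⟩, ⟨b.1, b.2, ?_, ?_⟩⟩
    · have := c1 _ haL; rw [xp1] at this; exact this.trans q1
    · have := c2 _ haL; rw [xp2] at this; exact this.trans q3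
    · have := d1 _ hbU; rw [yp1] at this; exact q2.trans this
    · have := d2 _ hbU; rw [yp2] at this; exact q4.trans this
  refine ⟨⟨_, hK⟩, mem_of_comp hC _ fun c hc => ?_, by simp [sm]⟩
  rcases le_total (sm c) t with h | h
  · right; rw [le_iff]; exact ⟨(c1 c ⟨hc, h⟩).trans q1, (c2 c ⟨hc, h⟩).trans q3⟩
  · left; rw [le_iff]; exact ⟨q2.trans (d1 c ⟨hc, h⟩), q4.trans (d2 c ⟨hc, h⟩)⟩

/-- difference of coordinates -/
def df (p : P) : ℝ := p.1.2 - p.1.1

theorem eq_of_sm_df {p q : P} (h1 : sm p = sm q) (h2 : df p = df q) : p = q := by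
  simp only [sm, df] at h1 h2
  exact eq_of _ _ (by linarith) (by linarith)

theorem crossing {C C' : Set P} (hC : IsMaxChain (· ≤ ·) C) (hC' : IsMaxChain (· ≤ ·) C')
    (hd : Disjoint C C') {a a' : SA} {b b' : SB} (ha : xp a ∈ C) (ha' : xp a' ∈ C')
    (hb : yp b ∈ C) (hb' : yp b' ∈ C') (h : a.1 < a'.1) : b.1 < b'.1 := by
  by_contra hcon
  push Not at hcon
  have key : ∀ {C : Set P}, IsMaxChain (· ≤ ·) C → ∃ g : ℝ → P,
      (∀ t ∈ Set.Icc (0 : ℝ) 2, g t ∈ C ∧ sm (g t) = t) ∧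
      ContinuousOn (fun t => df (g t)) (Set.Icc 0 2) := by
    intro C hC
    have : ∀ t : ℝ, ∃ p : P, t ∈ Set.Icc (0 : ℝ) 2 → p ∈ C ∧ sm p = t := by
      intro t
      by_cases ht : t ∈ Set.Icc (0 : ℝ) 2
      · obtain ⟨c, hc, h⟩ := slice hC t ht.1 ht.2
        exact ⟨c, fun _ => ⟨hc, h⟩⟩
      · exact ⟨xp ⟨0, zero_SA⟩, fun h => absurd h ht⟩
    choose g hg using this
    refine ⟨g, hg, ?_⟩
    have hlip : LipschitzOnWith 1 (fun t => df (g t)) (Set.Icc 0 2) := by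
      apply LipschitzOnWith.of_dist_le_mul
      have aux : ∀ s ∈ Set.Icc (0 : ℝ) 2, ∀ t ∈ Set.Icc (0 : ℝ) 2, s ≤ t →
          |df (g s) - df (g t)| ≤ t - s := by
        intro s hs t ht hst
        obtain ⟨g1, g2⟩ := hg s hs
        obtain ⟨g3, g4⟩ := hg t ht
        have hle : g s ≤ g t := le_of_sm hC.1 g1 g3 (by rw [g2, g4]; exact hst)
        rw [le_iff] at hle
        simp only [sm] at g2 g4
        simp only [df]
        rw [abs_le]
        constructor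
        · linarith [hle.1, hle.2]
        · linarith [hle.1, hle.2]
      intro s hs t ht
      simp only [NNReal.coe_one, one_mul, Real.dist_eq]
      rcases le_total s t with hst | hst
      · rw [abs_sub_comm s t, abs_of_nonneg (sub_nonneg.2 hst)]
        exact aux s hs t ht hst
      · rw [abs_of_nonneg (sub_nonneg.2 hst), abs_sub_comm]
        exact aux t ht s hs hst
    exact hlip.continuousOn
  obtain ⟨g, hg, hgc⟩ := key hC
  obtain ⟨g', hg', hgc'⟩ := key hC'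
  have h02 : (0 : ℝ) ≤ 2 := by norm_num
  have m0 : (0 : ℝ) ∈ Set.Icc (0 : ℝ) 2 := ⟨le_refl _, h02⟩
  have m2 : (2 : ℝ) ∈ Set.Icc (0 : ℝ) 2 := ⟨h02, le_refl _⟩
  have uniq : ∀ {C : Set P}, IsMaxChain (· ≤ ·) C → ∀ p ∈ C, ∀ q ∈ C, sm p = sm q → p = q := by
    intro C hC p hp q hq h
    exact eq_of_sm (le_of_sm hC.1 hp hq h.le) h.ge
  have g0 : g 0 = xp a := uniq hC _ (hg 0 m0).1 _ ha (by rw [(hg 0 m0).2]; simp [sm])
  have g0' : g' 0 = xp a' := uniq hC' _ (hg' 0 m0).1 _ ha' (by rw [(hg' 0 m0).2]; simp [sm])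
  have g2 : g 2 = yp b := uniq hC _ (hg 2 m2).1 _ hb (by rw [(hg 2 m2).2]; simp only [sm, yp1, yp2]; ring)
  have g2' : g' 2 = yp b' := uniq hC' _ (hg' 2 m2).1 _ hb' (by rw [(hg' 2 m2).2]; simp only [sm, yp1, yp2]; ring)
  have hivt := intermediate_value_Icc h02 (hgc.sub hgc')
  have hz : (0 : ℝ) ∈ Set.Icc (df (g 0) - df (g' 0)) (df (g 2) - df (g' 2)) := by
    rw [g0, g0', g2, g2']
    simp only [df, xp1, xp2, yp1, yp2]
    constructor
    · linarith
    · linarith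
  obtain ⟨t, ht, hzero⟩ := hivt hz
  have hEq : g t = g' t := eq_of_sm_df (by rw [(hg t ht).2, (hg' t ht).2]) (by
    change df (g t) - df (g' t) = 0 at hzero; linarith)
  exact Set.disjoint_left.1 hd (hg t ht).1 (by rw [hEq]; exact (hg' t ht).1)

theorem finA (k : ℕ) : {s : SA | s.1 < -(1 / ((k : ℝ) + 5))}.Finite := by
  apply Set.Finite.of_finite_image (f := Subtype.val) _ Subtype.val_injective.injOn
  apply ((Set.finite_Iio k).image (fun n : ℕ => -(1 / ((n : ℝ) + 5)))).subset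
  rintro _ ⟨⟨s, hs⟩, h, rfl⟩
  change s < _ at h
  rcases hs with rfl | ⟨n, rfl⟩
  · have := seq_pos k; exfalso; linarith
  · refine ⟨n, ?_, rfl⟩
    simp only [Set.mem_Iio]
    by_contra hn
    push Not at hn
    have : 1 / ((n : ℝ) + 5) ≤ 1 / ((k : ℝ) + 5) := by
      apply one_div_le_one_div_of_le (by positivity)
      have : (k : ℝ) ≤ n := Nat.cast_le.2 hn
      linarith
    simp only at h; linarith

theorem finB (k : ℕ) : {s : SB | 1 / ((k : ℝ) + 5) < s.1}.Finite := by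
  apply Set.Finite.of_finite_image (f := Subtype.val) _ Subtype.val_injective.injOn
  apply ((Set.finite_Iio k).image (fun n : ℕ => 1 / ((n : ℝ) + 5))).subset
  rintro _ ⟨⟨s, hs⟩, h, rfl⟩
  change _ < s at h
  rcases hs with rfl | ⟨n, rfl⟩
  · have := seq_pos k; exfalso; linarith
  · refine ⟨n, ?_, rfl⟩
    simp only [Set.mem_Iio]
    by_contra hn
    push Not at hn
    have : 1 / ((n : ℝ) + 5) ≤ 1 / ((k : ℝ) + 5) := by
      apply one_div_le_one_div_of_le (by positivity)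
      have : (k : ℝ) ≤ n := Nat.cast_le.2 hn
      linarith
    simp only at h; linarith

theorem F_finite (F : Set (Set P)) (hF : ∀ C ∈ F, IsMaxChain (· ≤ ·) C)
    (hd : F.PairwiseDisjoint id) : F.Finite := by
  by_contra hinf
  have hinf' : Infinite F := Set.infinite_coe_iff.2 hinf
  have h1 : ∀ C : F, ∃ a : SA, xp a ∈ C.1 := fun C => bot_mem (hF C.1 C.2)
  have h2 : ∀ C : F, ∃ b : SB, yp b ∈ C.1 := fun C => top_mem (hF C.1 C.2)
  choose fa hfa using h1
  choose fb hfb using h2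
  have disj : ∀ C C' : F, C ≠ C' → Disjoint C.1 C'.1 := fun C C' hne =>
    hd C.2 C'.2 (fun h => hne (Subtype.ext h))
  have injA : Function.Injective fa := by
    intro C C' h
    by_contra hne
    exact Set.disjoint_left.1 (disj C C' hne) (hfa C) (by rw [h]; exact hfa C')
  have injB : Function.Injective fb := by
    intro C C' h
    by_contra hne
    exact Set.disjoint_left.1 (disj C C' hne) (hfb C) (by rw [h]; exact hfb C')
  -- choose C0 with nonzero indices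
  obtain ⟨C0, hC0⟩ : ∃ C0 : F, (fa C0).1 ≠ 0 ∧ (fb C0).1 ≠ 0 := by
    by_contra hno
    push Not at hno
    have hfin : (Set.univ : Set F).Finite := by
      have s1 : (fa ⁻¹' {⟨0, zero_SA⟩}).Finite := (Set.finite_singleton _).preimage injA.injOn
      have s2 : (fb ⁻¹' {⟨0, zero_SB⟩}).Finite := (Set.finite_singleton _).preimage injB.injOn
      refine (s1.union s2).subset ?_
      intro C _
      by_cases h : (fa C).1 = 0
      · left; exact Subtype.ext h
      · right; exact Subtype.ext (hno C h)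
    exact Set.infinite_univ hfin
  obtain ⟨k, hk⟩ : ∃ k : ℕ, (fa C0).1 = -(1 / ((k : ℝ) + 5)) := by
    rcases (fa C0).2 with h | ⟨n, h⟩
    · exact absurd h hC0.1
    · exact ⟨n, h.symm⟩
  obtain ⟨m, hm⟩ : ∃ m : ℕ, (fb C0).1 = 1 / ((m : ℝ) + 5) := by
    rcases (fb C0).2 with h | ⟨n, h⟩
    · exact absurd h hC0.2
    · exact ⟨n, h.symm⟩
  have s1 : (fa ⁻¹' {s : SA | s.1 < -(1 / ((k : ℝ) + 5))}).Finite := (finA k).preimage injA.injOn
  have s2 : (fb ⁻¹' {s : SB | 1 / ((m : ℝ) + 5) < s.1}).Finite := (finB m).preimage injB.injOn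
  have hfin : (Set.univ : Set F).Finite := by
    refine ((s1.union s2).union (Set.finite_singleton C0)).subset ?_
    intro C _
    by_cases hne : C = C0
    · right; exact hne
    · left
      rcases lt_trichotomy (fa C).1 (fa C0).1 with h | h | h
      · left; change (fa C).1 < _; rw [← hk]; exact h
      · exact absurd (injA (Subtype.ext h)) hne
      · right
        change _ < (fb C).1
        rw [← hm]
        exact crossing (hF C0.1 C0.2) (hF C.1 C.2) (disj C0 C (Ne.symm hne)) (hfa C0) (hfa C)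
          (hfb C0) (hfb C) h
  exact Set.infinite_univ hfin

/-- staircase chains -/
def stair (x1 x2 y1 y2 l : ℝ) : Set P :=
  {p | (p.1.2 = x2 ∧ x1 ≤ p.1.1 ∧ p.1.1 ≤ l) ∨ (p.1.1 = l ∧ x2 ≤ p.1.2 ∧ p.1.2 ≤ y2) ∨
    (p.1.2 = y2 ∧ l ≤ p.1.1 ∧ p.1.1 ≤ y1)}

theorem stair_chain {x1 x2 y1 y2 l : ℝ} (h1 : x1 ≤ l) (h2 : l ≤ y1) (h3 : x2 ≤ y2) :
    IsChain (· ≤ ·) (stair x1 x2 y1 y2 l) := by
  intro p hp q hq _
  simp only [le_iff]
  rcases hp with ⟨a1, a2, a3⟩ | ⟨a1, a2, a3⟩ | ⟨a1, a2, a3⟩ <;>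
  rcases hq with ⟨b1, b2, b3⟩ | ⟨b1, b2, b3⟩ | ⟨b1, b2, b3⟩
  · rcases le_total p.1.1 q.1.1 with h | h
    · left; exact ⟨h, by linarith⟩
    · right; exact ⟨h, by linarith⟩
  · left; exact ⟨by linarith, by linarith⟩
  · left; exact ⟨by linarith, by linarith⟩
  · right; exact ⟨by linarith, by linarith⟩
  · rcases le_total p.1.2 q.1.2 with h | h
    · left; exact ⟨by linarith, h⟩
    · right; exact ⟨by linarith, h⟩
  · left; exact ⟨by linarith, by linarith⟩
  · right; exact ⟨by linarith, by linarith⟩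
  · right; exact ⟨by linarith, by linarith⟩
  · rcases le_total p.1.1 q.1.1 with h | h
    · left; exact ⟨h, by linarith⟩
    · right; exact ⟨h, by linarith⟩

theorem stair_max (a : SA) (b : SB) {l : ℝ} (hl1 : 1 / 4 ≤ l) (hl2 : l ≤ 3 / 4) :
    IsMaxChain (· ≤ ·) (stair (-a.1) a.1 (1 - b.1) (1 + b.1) l) := by
  have ha := SA_bd a.2
  have hb := SB_bd b.2
  refine ⟨stair_chain (by linarith) (by linarith) (by linarith), ?_⟩
  intro t ht hst
  apply Set.Subset.antisymm hst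
  intro z hz
  have mx : xp a ∈ t := hst (Or.inl ⟨rfl, le_refl _, by rw [xp1]; linarith⟩)
  have my : yp b ∈ t := hst (Or.inr (Or.inr ⟨rfl, by rw [yp1]; linarith, le_refl _⟩))
  have k1 : KK (l, a.1) := ⟨⟨a.1, a.2, by simp only; linarith, le_refl _⟩,
    ⟨b.1, b.2, by simp only; linarith, by simp only; linarith⟩⟩
  have k2 : KK (l, 1 + b.1) := ⟨⟨a.1, a.2, by simp only; linarith, by simp only; linarith⟩,
    ⟨b.1, b.2, by simp only; linarith, le_refl _⟩⟩
  have m1 : (⟨_, k1⟩ : P) ∈ t := hst (Or.inl ⟨rfl, by simp only; linarith, le_refl _⟩)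
  have m2 : (⟨_, k2⟩ : P) ∈ t := hst (Or.inr (Or.inl ⟨rfl, by simp only; linarith, le_refl _⟩))
  have t1 := ht.total mx hz
  have t2 := ht.total my hz
  have t3 := ht.total m1 hz
  have t4 := ht.total m2 hz
  simp only [le_iff, xp1, xp2, yp1, yp2] at t1 t2 t3 t4
  obtain ⟨⟨a', ha', p1, p2⟩, ⟨b', hb', p3, p4⟩⟩ := z.2
  -- the point lies above `xp a` and below `yp b`
  have u1 : -a.1 ≤ z.1.1 ∧ a.1 ≤ z.1.2 := by
    rcases t1 with h | h
    · exact h
    · exact ⟨by linarith, by linarith⟩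
  have u2 : z.1.1 ≤ 1 - b.1 ∧ z.1.2 ≤ 1 + b.1 := by
    rcases t2 with h | h
    · exact ⟨by linarith, by linarith⟩
    · exact h
  rcases lt_trichotomy z.1.1 l with h | h | h
  · left
    rcases t3 with h3 | h3
    · linarith [h3.1]
    · exact ⟨by linarith [h3.2], u1.1, h.le⟩
  · right; left
    exact ⟨h, u1.2, u2.2⟩
  · right; right
    rcases t4 with h4 | h4
    · exact ⟨by linarith [h4.2], h.le, u2.1⟩
    · linarith [h4.1]

theorem seq_inj : Function.Injective (fun n : ℕ => 1 / ((n : ℝ) + 5)) := by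
  intro m n h
  simp only at h
  have hm : (0 : ℝ) < (m : ℝ) + 5 := by positivity
  have hn : (0 : ℝ) < (n : ℝ) + 5 := by positivity
  rw [div_eq_div_iff hm.ne' hn.ne'] at h
  have : (m : ℝ) = n := by linarith
  exact Nat.cast_injective this

/-- The negation of the preceding statement: Every nonempty partial order in which each nonempty chain has a sup and an inf has a cutset A and pairwise disjoint maximal chains F such that each point of A lies in exactly one chain of F and each chain of F contains exactly one point of A. -/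
theorem result :
    ¬ (∀ (P : Type) [PartialOrder P] [Nonempty P],
      (∀ c : Set P, IsChain (· ≤ ·) c → c.Nonempty →
        (∃ a : P, IsLUB c a) ∧ (∃ a : P, IsGLB c a)) →
      ∃ (F : Set (Set P)) (A : Set P),
        (∀ C ∈ F, IsMaxChain (· ≤ ·) C) ∧
        F.PairwiseDisjoint id ∧
        (∀ C : Set P, IsMaxChain (· ≤ ·) C → (A ∩ C).Nonempty) ∧
        (∀ a ∈ A, ∃! C : Set P, C ∈ F ∧ a ∈ C) ∧
        (∀ C ∈ F, ∃! a : P, a ∈ A ∧ a ∈ C)) := by
  intro H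
  haveI : Nonempty P := ⟨xp ⟨0, zero_SA⟩⟩
  obtain ⟨F, A, hF, hd, hcut, hA, hFA⟩ := H P (fun c hc hne => ⟨lub hc hne, glb hc hne⟩)
  have hFfin := F_finite F hF hd
  have hAfin : A.Finite := by
    have hsub : A ⊆ ⋃ C ∈ F, {a | a ∈ A ∧ a ∈ C} := by
      intro a ha
      obtain ⟨C, ⟨hC, haC⟩, _⟩ := hA a ha
      exact Set.mem_biUnion hC ⟨ha, haC⟩
    refine (hFfin.biUnion ?_).subset hsub
    intro C hC
    apply Set.Subsingleton.finite
    obtain ⟨a, _, hu⟩ := hFA C hC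
    intro p hp q hq
    rw [hu p hp, hu q hq]
  -- choose indices
  obtain ⟨n, hn⟩ : ∃ n : ℕ, ∀ p ∈ A, p.1.2 ≠ -(1 / ((n : ℝ) + 5)) := by
    by_contra hno
    push Not at hno
    have : (Set.univ : Set ℕ).Finite := by
      have hf := (hAfin.image (fun p : P => -p.1.2)).preimage seq_inj.injOn
      refine (hf.subset ?_)
      intro k _
      obtain ⟨p, hp, h⟩ := hno k
      exact ⟨p, hp, by simp only [h, neg_neg]⟩
    exact Set.infinite_univ this
  obtain ⟨m, hm⟩ : ∃ m : ℕ, ∀ p ∈ A, p.1.2 ≠ 1 + 1 / ((m : ℝ) + 5) := by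
    by_contra hno
    push Not at hno
    have : (Set.univ : Set ℕ).Finite := by
      have hf := (hAfin.image (fun p : P => p.1.2 - 1)).preimage seq_inj.injOn
      refine (hf.subset ?_)
      intro k _
      obtain ⟨p, hp, h⟩ := hno k
      exact ⟨p, hp, by simp only [h]; ring⟩
    exact Set.infinite_univ this
  obtain ⟨l, hl, hl'⟩ : ∃ l ∈ Set.Icc (1 / 4 : ℝ) (3 / 4), l ∉ (fun p : P => p.1.1) '' A :=
    (Set.Icc_infinite (by norm_num : (1 / 4 : ℝ) < 3 / 4)).exists_notMem_finite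
      (hAfin.image _)
  have hmax := stair_max ⟨-(1 / ((n : ℝ) + 5)), Set.mem_insert_of_mem _ ⟨n, rfl⟩⟩
    ⟨1 / ((m : ℝ) + 5), Set.mem_insert_of_mem _ ⟨m, rfl⟩⟩ hl.1 hl.2
  obtain ⟨p, hpA, hp⟩ := hcut _ hmax
  rcases hp with ⟨h, _⟩ | ⟨h, _⟩ | ⟨h, _⟩
  · exact hn p hpA h
  · exact hl' ⟨p, hpA, h⟩
  · exact hm p hpA h

end

end Pool.Agent.S06670
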