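import Pool.Statements.S07027

set_option autoImplicit false
open scoped BigOperators
open Pool Pool.MP_9cb2a9_co

namespace Pool.Agent.S07027

theorem ch2 (x : ℕ) : 2 * Nat.choose (x + 2) 2 = (x + 2) * (x + 1) := by
  have h := Nat.descFactorial_eq_factorial_mul_choose (x + 2) 2
  simp [Nat.descFactorial, Nat.factorial] at h
  linarith

theorem ch3 (x : ℕ) : 6 * Nat.choose (x + 3) 3 = (x + 3) * (x + 2) * (x + 1) := by
  have h := Nat.descFactorial_eq_factorial_mul_choose (x + 3) 3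
  simp [Nat.descFactorial, Nat.factorial] at h
  nlinarith

theorem ch4 (x : ℕ) : 24 * Nat.choose (x + 4) 4 = (x + 4) * (x + 3) * (x + 2) * (x + 1) := by
  have h := Nat.descFactorial_eq_factorial_mul_choose (x + 4) 4
  simp [Nat.descFactorial, Nat.factorial] at h
  nlinarith

/-- alternating sums of antitone nonnegative sequences -/
theorem alt (R : ℕ) : ∀ g : ℕ → ℤ, (∀ r, 0 ≤ g r) → (∀ r, g (r + 1) ≤ g r) →
    0 ≤ ∑ r ∈ Finset.range R, (-1 : ℤ) ^ r * g r ∧
      ∑ r ∈ Finset.range R, (-1 : ℤ) ^ r * g r ≤ g 0 := by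
  induction R with
  | zero => intro g h0 h1; simpa using h0 0
  | succ R ih =>
    intro g h0 h1
    obtain ⟨h2, h3⟩ := ih (fun r => g (r + 1)) (fun r => h0 _) (fun r => h1 _)
    rw [Finset.sum_range_succ']
    have e : ∑ r ∈ Finset.range R, (-1 : ℤ) ^ (r + 1) * g (r + 1) =
        - ∑ r ∈ Finset.range R, (-1 : ℤ) ^ r * g (r + 1) := by
      rw [← Finset.sum_neg_distrib]
      apply Finset.sum_congr rfl
      intro r _
      rw [pow_succ]; ring
    rw [e]
    have := h1 0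
    constructor
    · simp; linarith
    · simp; linarith

/-- kernel -/
def K (n i t j : ℕ) : ℕ :=
  if 2 * t ≤ i ∧ j ≤ i then
    Nat.choose (2 * n - 2 * i + (i - j)) (i - j) * Nat.choose j (i - 2 * t) else 0

def T (b : ℕ → ℕ → ℤ) (n i t : ℕ) : ℤ :=
  ∑ j ∈ Finset.range (i + 1), (K n i t j : ℤ) * b j (n - t)

def T1 (b : ℕ → ℕ → ℤ) (m j : ℕ) : ℤ :=
  (Nat.choose j 2 : ℤ) * b j (m - 1) + (((2 * m + 1 - 2 * j) * (j - 1) : ℕ) : ℤ) * b (j - 1) (m - 1)
    + (Nat.choose (2 * m + 2 - 2 * j) 2 : ℤ) * b (j - 2) (m - 1)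

/-- coefficient after two steps -/
def S (n i t k : ℕ) : ℕ :=
  K n i t k * Nat.choose k 2 + K n i t (k + 1) * ((2 * (n - t) + 1 - 2 * (k + 1)) * (k + 1 - 1))
    + K n i t (k + 2) * Nat.choose (2 * (n - t) + 2 - 2 * (k + 2)) 2

theorem K_big (n i t j : ℕ) (h : i < j) : K n i t j = 0 := by
  unfold K; rw [if_neg]; omega

theorem K_val (e d t p : ℕ) (hp : p ≤ 2 * t) :
    K (e + 2 * t + d) (e + 2 * t) t (e + p) =
      Nat.choose (2 * d + (2 * t - p)) (2 * t - p) * Nat.choose (e + p) e := by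
  unfold K
  rw [if_pos (by omega)]
  have h1 : 2 * (e + 2 * t + d) - 2 * (e + 2 * t) = 2 * d := by omega
  have h2 : e + 2 * t - (e + p) = 2 * t - p := by omega
  have h3 : e + 2 * t - 2 * t = e := by omega
  rw [h1, h2, h3]

/-- re-indexing -/
theorem reindex (b : ℕ → ℕ → ℤ) (hb0 : ∀ n, b 0 n = 0) (n i t : ℕ) :
    ∑ j ∈ Finset.range (i + 1), (K n i t j : ℤ) * T1 b (n - t) j =
      ∑ k ∈ Finset.range (i + 1), (S n i t k : ℤ) * b k (n - t - 1) := by
  set m := n - t with hm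
  have h1 : ∑ j ∈ Finset.range (i + 1), (K n i t j : ℤ) * ((((2 * m + 1 - 2 * j) * (j - 1) : ℕ) : ℤ) * b (j - 1) (m - 1)) =
      ∑ k ∈ Finset.range (i + 1), (K n i t (k + 1) : ℤ) * ((((2 * m + 1 - 2 * (k + 1)) * (k + 1 - 1) : ℕ) : ℤ) * b k (m - 1)) := by
    have e1 := Finset.sum_range_succ (fun j => (K n i t j : ℤ) * ((((2 * m + 1 - 2 * j) * (j - 1) : ℕ) : ℤ) * b (j - 1) (m - 1))) (i + 1)
    have e2 := Finset.sum_range_succ' (fun j => (K n i t j : ℤ) * ((((2 * m + 1 - 2 * j) * (j - 1) : ℕ) : ℤ) * b (j - 1) (m - 1))) (i + 1)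
    have e3 : K n i t (i + 1) = 0 := K_big n i t (i + 1) (by omega)
    rw [e1] at e2
    rw [e3] at e2
    simp only [Nat.cast_zero, zero_mul, add_zero, Nat.add_sub_cancel] at e2
    simp only [Nat.zero_sub, mul_zero, Nat.cast_zero, zero_mul, add_zero] at e2
    simp only [Nat.add_sub_cancel]
    exact e2
  have h2 : ∑ j ∈ Finset.range (i + 1), (K n i t j : ℤ) * ((Nat.choose (2 * m + 2 - 2 * j) 2 : ℤ) * b (j - 2) (m - 1)) =
      ∑ k ∈ Finset.range (i + 1), (K n i t (k + 2) : ℤ) * ((Nat.choose (2 * m + 2 - 2 * (k + 2)) 2 : ℤ) * b k (m - 1)) := by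
    have e1 := Finset.sum_range_succ (fun j => (K n i t j : ℤ) * ((Nat.choose (2 * m + 2 - 2 * j) 2 : ℤ) * b (j - 2) (m - 1))) (i + 1)
    have e1' := Finset.sum_range_succ (fun j => (K n i t j : ℤ) * ((Nat.choose (2 * m + 2 - 2 * j) 2 : ℤ) * b (j - 2) (m - 1))) (i + 2)
    have e2 := Finset.sum_range_succ' (fun j => (K n i t j : ℤ) * ((Nat.choose (2 * m + 2 - 2 * j) 2 : ℤ) * b (j - 2) (m - 1))) (i + 2)
    have e2' := Finset.sum_range_succ' (fun j => (K n i t (j + 1) : ℤ) * ((Nat.choose (2 * m + 2 - 2 * (j + 1)) 2 : ℤ) * b (j + 1 - 2) (m - 1))) (i + 1)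
    have e3 : K n i t (i + 1) = 0 := K_big n i t (i + 1) (by omega)
    have e4 : K n i t (i + 2) = 0 := K_big n i t (i + 2) (by omega)
    rw [e1', e1] at e2
    rw [e2'] at e2
    rw [e3, e4] at e2
    simp only [Nat.cast_zero, zero_mul, add_zero, Nat.zero_sub, hb0, mul_zero, zero_add] at e2
    rw [e2]
    apply Finset.sum_congr rfl
    intro k _
    have e6 : k + 1 + 1 - 2 = k := by omega
    have e7 : k + 1 + 1 = k + 2 := by omega
    rw [e6]
  have h3 : ∑ j ∈ Finset.range (i + 1), (K n i t j : ℤ) * T1 b m j =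
      ∑ j ∈ Finset.range (i + 1), (K n i t j : ℤ) * ((Nat.choose j 2 : ℤ) * b j (m - 1)) +
      ∑ j ∈ Finset.range (i + 1), (K n i t j : ℤ) * ((((2 * m + 1 - 2 * j) * (j - 1) : ℕ) : ℤ) * b (j - 1) (m - 1)) +
      ∑ j ∈ Finset.range (i + 1), (K n i t j : ℤ) * ((Nat.choose (2 * m + 2 - 2 * j) 2 : ℤ) * b (j - 2) (m - 1)) := by
    rw [← Finset.sum_add_distrib, ← Finset.sum_add_distrib]
    apply Finset.sum_congr rfl
    intro j _
    unfold T1
    ring
  rw [h3, h1, h2, ← Finset.sum_add_distrib, ← Finset.sum_add_distrib]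
  apply Finset.sum_congr rfl
  intro k _
  unfold S
  rw [← hm]
  push_cast
  ring

/-- evaluation of the coefficient -/
theorem S_val (e d t p : ℕ) (ht : 1 ≤ t) (hp : p ≤ 2 * t + 2) :
    S (e + 2 * (t + 1) + d) (e + 2 * (t + 1)) t (e + p) =
      (Nat.choose (2 * d + (2 * t + 2 - p)) (2 * t + 2 - p) * Nat.choose (e + p) (e + 2)) * Nat.choose (e + p) 2
      + (if p ≤ 2 * t + 1 then Nat.choose (2 * d + (2 * t + 1 - p)) (2 * t + 1 - p) * Nat.choose (e + p + 1) (e + 2) else 0)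
          * ((2 * d + 2 * t + 3 - 2 * p) * (e + p))
      + (if p ≤ 2 * t then Nat.choose (2 * d + (2 * t - p)) (2 * t - p) * Nat.choose (e + p + 2) (e + 2) else 0)
          * Nat.choose (2 * d + 2 * t + 2 - 2 * p) 2 := by
  have h1 : 2 * (e + 2 * (t + 1) + d) - 2 * (e + 2 * (t + 1)) = 2 * d := by omega
  have h2 : e + 2 * (t + 1) - 2 * t = e + 2 := by omega
  unfold S K
  rw [h1, h2]
  have h3 : e + 2 * (t + 1) - (e + p) = 2 * t + 2 - p := by omega
  have h4 : e + 2 * (t + 1) - (e + p + 1) = 2 * t + 1 - p := by omega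
  have h5 : e + 2 * (t + 1) - (e + p + 2) = 2 * t - p := by omega
  rw [h3, h4, h5]
  have h6 : 2 * (e + 2 * (t + 1) + d - t) + 1 - 2 * (e + p + 1) = 2 * d + 2 * t + 3 - 2 * p := by omega
  have h7 : 2 * (e + 2 * (t + 1) + d - t) + 2 - 2 * (e + p + 2) = 2 * d + 2 * t + 2 - 2 * p := by omega
  rw [h6, h7]
  have h8 : (2 * t ≤ e + 2 * (t + 1) ∧ e + p ≤ e + 2 * (t + 1)) := by omega
  have h9 : (2 * t ≤ e + 2 * (t + 1) ∧ e + p + 1 ≤ e + 2 * (t + 1)) ↔ p ≤ 2 * t + 1 := by omega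
  have h10 : (2 * t ≤ e + 2 * (t + 1) ∧ e + p + 2 ≤ e + 2 * (t + 1)) ↔ p ≤ 2 * t := by omega
  have h11 : e + p + 1 - 1 = e + p := by omega
  rw [if_pos h8, h11]
  simp only [h9, h10]

/-- kernel inequality for t ≥ 2 -/
theorem ker2 (e d t p : ℕ) (ht : 2 ≤ t) (hp : p ≤ 2 * t + 2) (hpd : p ≤ 2 * d + (2 * t + 2 - p)) :
    2 * K (e + 2 * (t + 1) + d) (e + 2 * (t + 1)) (t + 1) (e + p) ≤
      S (e + 2 * (t + 1) + d) (e + 2 * (t + 1)) t (e + p) := by
  rw [S_val e d t p (by omega) hp, K_val e d (t + 1) p (by omega)]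
  have hs : 2 * (t + 1) - p = 2 * t + 2 - p := by omega
  rw [hs]
  rcases Nat.lt_or_ge p 3 with hp3 | hp3
  · interval_cases p
    · -- p = 0
      rw [if_pos (by omega), if_pos (by omega)]
      have h1 := Nat.choose_mul (n := 2 * d + (2 * t + 2 - 0)) (k := 2 * t + 2 - 0) (s := 2) (by omega)
      have e1 : 2 * d + (2 * t + 2 - 0) - 2 = 2 * d + (2 * t - 0) := by omega
      have e2 : 2 * t + 2 - 0 - 2 = 2 * t - 0 := by omega
      rw [e1, e2] at h1
      have e3 : 2 * d + 2 * t + 2 - 2 * 0 = 2 * d + (2 * t + 2 - 0) := by omega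
      rw [e3]
      have h2 : 2 ≤ Nat.choose (2 * t + 2 - 0) 2 := by
        have := Nat.choose_le_choose 2 (show 3 ≤ 2 * t + 2 - 0 by omega)
        have e : Nat.choose 3 2 = 3 := rfl
        omega
      simp only [add_zero, Nat.choose_self, mul_one]
      have h3 := Nat.mul_le_mul_left (Nat.choose (2 * d + (2 * t + 2 - 0)) (2 * t + 2 - 0)) h2
      have h4 : Nat.choose (2 * d + (2 * t - 0)) (2 * t - 0) * Nat.choose (2 * d + (2 * t + 2 - 0)) 2 =
        Nat.choose (2 * d + (2 * t + 2 - 0)) 2 * Nat.choose (2 * d + (2 * t - 0)) (2 * t - 0) := by ring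
      have h5 : Nat.choose (2 * d + (2 * t + 2 - 0)) (2 * t + 2 - 0) * Nat.choose (2 * t + 2 - 0) 2 ≤
        Nat.choose (2 * d + (2 * t - 0)) (2 * t - 0) * Nat.choose (2 * d + (2 * t + 2 - 0)) 2 := by
        rw [h4, h1]
      refine le_trans ?_ (Nat.le_add_left _ _)
      refine le_trans ?_ h5
      linarith
    · -- p = 1
      rw [if_pos (by omega)]
      have e1 : 2 * t + 2 - 1 = 2 * t + 1 := by omega
      have e2 : 2 * t + 1 - 1 = 2 * t := by omega
      rw [e1, e2]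
      have h1 := Nat.add_one_mul_choose_eq (2 * d + 2 * t) (2 * t)
      have e3 : 2 * d + 2 * t + 3 - 2 * 1 = 2 * d + 2 * t + 1 := by omega
      have e4 : e + 1 + 1 = e + 2 := by omega
      rw [e3, e4, Nat.choose_self]
      have e5 : 2 * d + (2 * t + 1) = 2 * d + 2 * t + 1 := by omega
      have hE : Nat.choose (e + 1) e = e + 1 := Nat.choose_succ_self_right e
      rw [e5, hE]
      have h2 : Nat.choose (2 * d + 2 * t + 1) (2 * t + 1) * 2 ≤ Nat.choose (2 * d + 2 * t + 1) (2 * t + 1) * (2 * t + 1) :=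
        Nat.mul_le_mul_left _ (by omega)
      have h3 := Nat.mul_le_mul_right (e + 1) h2
      have h4 : Nat.choose (2 * d + 2 * t) (2 * t) * 1 * ((2 * d + 2 * t + 1) * (e + 1)) =
        Nat.choose (2 * d + 2 * t + 1) (2 * t + 1) * (2 * t + 1) * (e + 1) := by
        rw [← h1]; ring
      rw [h4]
      have h5 : 2 * (Nat.choose (2 * d + 2 * t + 1) (2 * t + 1) * (e + 1)) =
        Nat.choose (2 * d + 2 * t + 1) (2 * t + 1) * 2 * (e + 1) := by ring
      rw [h5]
      omega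
    · -- p = 2
      rw [if_pos (by omega)]
      have e1 : 2 * t + 2 - 2 = 2 * t := by omega
      have e2 : 2 * t + 1 - 2 = 2 * t - 1 := by omega
      rw [e1, e2]
      obtain ⟨u, rfl⟩ : ∃ u, t = u + 1 := ⟨t - 1, by omega⟩
      have e6 : 2 * (u + 1) - 1 = 2 * u + 1 := by omega
      rw [e6]
      have h1 := Nat.add_one_mul_choose_eq (2 * d + (2 * u + 1)) (2 * u + 1)
      have e7 : 2 * d + (2 * u + 1) + 1 = 2 * d + 2 * (u + 1) := by omega
      have e8 : 2 * u + 1 + 1 = 2 * (u + 1) := by omega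
      rw [e7, e8] at h1
      have e3 : 2 * d + 2 * (u + 1) + 3 - 2 * 2 = 2 * d + 2 * u + 1 := by omega
      rw [e3]
      have hA : Nat.choose (e + 2 + 1) (e + 2) = e + 3 := by
        rw [Nat.choose_succ_self_right]
      have hB : 2 * Nat.choose (e + 2) e = (e + 2) * (e + 1) := by
        rw [← ch2 e, Nat.choose_symm_add]
      rw [hA]
      set X := Nat.choose (2 * d + (2 * u + 1)) (2 * u + 1) with hX
      set Y := Nat.choose (2 * d + 2 * (u + 1)) (2 * (u + 1)) with hY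
      have h2 : Y ≤ (2 * d + 2 * u + 1) * X := by
        have h3 : Y * 2 ≤ Y * (2 * (u + 1)) := Nat.mul_le_mul_left _ (by omega)
        rw [← h1] at h3
        have h4 : (2 * d + 2 * (u + 1)) * X ≤ (2 * (2 * d + 2 * u + 1)) * X := Nat.mul_le_mul_right _ (by omega)
        nlinarith
      have h5 : 2 * (Y * Nat.choose (e + 2) e) = Y * ((e + 2) * (e + 1)) := by
        rw [← hB]; ring
      rw [h5]
      have h6 : X * (e + 3) * ((2 * d + 2 * u + 1) * (e + 2)) = ((2 * d + 2 * u + 1) * X) * ((e + 2) * (e + 3)) := by ring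
      have h7 : Y * ((e + 2) * (e + 1)) ≤ ((2 * d + 2 * u + 1) * X) * ((e + 2) * (e + 3)) :=
        Nat.mul_le_mul h2 (Nat.mul_le_mul_left _ (by omega))
      rw [h6]
      omega
  · -- p ≥ 3
    have h1 := Nat.choose_mul (n := e + p) (k := p) (s := 2) (by omega)
    have h2 : 3 ≤ Nat.choose p 2 := by
      have := Nat.choose_le_choose 2 hp3
      have e : Nat.choose 3 2 = 3 := rfl
      omega
    have h3 : Nat.choose (e + p - 2) (p - 2) ≤ Nat.choose (e + p) (p - 2) :=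
      Nat.choose_le_choose _ (by omega)
    have h4 : Nat.choose (e + p) (e + 2) = Nat.choose (e + p) (p - 2) := by
      rw [← Nat.choose_symm_of_eq_add]
      omega
    have h5 : Nat.choose (e + p) e = Nat.choose (e + p) p := Nat.choose_symm_add
    rw [h4, h5]
    set A := Nat.choose (2 * d + (2 * t + 2 - p)) (2 * t + 2 - p) with hA
    have h6 : 2 * Nat.choose (e + p) p ≤ Nat.choose (e + p) (p - 2) * Nat.choose (e + p) 2 := by
      have h7 : Nat.choose (e + p) p * 3 ≤ Nat.choose (e + p) p * Nat.choose p 2 := Nat.mul_le_mul_left _ h2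
      have h8 : Nat.choose (e + p) 2 * Nat.choose (e + p - 2) (p - 2) ≤ Nat.choose (e + p) 2 * Nat.choose (e + p) (p - 2) :=
        Nat.mul_le_mul_left _ h3
      nlinarith
    have h9 := Nat.mul_le_mul_left A h6
    have h10 : A * (Nat.choose (e + p) (p - 2) * Nat.choose (e + p) 2) = A * Nat.choose (e + p) (p - 2) * Nat.choose (e + p) 2 := by ring
    have h11 : A * (2 * Nat.choose (e + p) p) = 2 * (A * Nat.choose (e + p) p) := by ring
    rw [h10, h11] at h9
    refine le_trans h9 ?_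
    rw [add_assoc]
    exact Nat.le_add_right _ _

theorem q2 (x : ℕ) : ((Nat.choose (x + 2) 2 : ℕ) : ℚ) = (x + 2) * (x + 1) / 2 := by
  have h : ((2 * Nat.choose (x + 2) 2 : ℕ) : ℚ) = (((x + 2) * (x + 1) : ℕ) : ℚ) := by rw [ch2]
  push_cast at h
  linarith

theorem q3 (x : ℕ) : ((Nat.choose (x + 3) 3 : ℕ) : ℚ) = (x + 3) * (x + 2) * (x + 1) / 6 := by
  have h : ((6 * Nat.choose (x + 3) 3 : ℕ) : ℚ) = (((x + 3) * (x + 2) * (x + 1) : ℕ) : ℚ) := by rw [ch3]
  push_cast at h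
  linarith

theorem q4 (x : ℕ) : ((Nat.choose (x + 4) 4 : ℕ) : ℚ) = (x + 4) * (x + 3) * (x + 2) * (x + 1) / 24 := by
  have h : ((24 * Nat.choose (x + 4) 4 : ℕ) : ℚ) = (((x + 4) * (x + 3) * (x + 2) * (x + 1) : ℕ) : ℚ) := by rw [ch4]
  push_cast at h
  linarith

theorem cs2 (e : ℕ) : Nat.choose (e + 2) e = Nat.choose (e + 2) 2 := Nat.choose_symm_add
theorem cs2' (e : ℕ) : Nat.choose (e + 4) (e + 2) = Nat.choose (e + 4) 2 := Nat.choose_symm_add (a := e + 2) (b := 2)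
theorem cs3 (e : ℕ) : Nat.choose (e + 3) e = Nat.choose (e + 3) 3 := Nat.choose_symm_add
theorem cs4 (e : ℕ) : Nat.choose (e + 4) e = Nat.choose (e + 4) 4 := Nat.choose_symm_add
theorem cs1 (e : ℕ) : Nat.choose (e + 3) (e + 2) = e + 3 := Nat.choose_succ_self_right (e + 2)
theorem cs0 (e : ℕ) : Nat.choose (e + 1) e = e + 1 := Nat.choose_succ_self_right e

theorem ker1_0 (e d : ℕ) : 4 * K (e + 2 * (1 + 1) + d) (e + 2 * (1 + 1)) (1 + 1) (e + 0) ≤
      S (e + 2 * (1 + 1) + d) (e + 2 * (1 + 1)) 1 (e + 0) := by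
  rw [S_val e d 1 0 (by omega) (by omega), K_val e d (1 + 1) 0 (by omega)]
  have h1 : Nat.choose e (e + 2) = 0 := Nat.choose_eq_zero_of_lt (by omega)
  have h2 : Nat.choose (e + 1) (e + 2) = 0 := Nat.choose_eq_zero_of_lt (by omega)
  simp only [Nat.add_zero, Nat.sub_zero, Nat.mul_zero, h1, h2, Nat.zero_mul, Nat.choose_self, Nat.mul_one,
    Nat.mul_zero, if_true, Nat.zero_le, Nat.zero_add]
  norm_num only
  have : ((4 * Nat.choose (2 * d + 4) 4 : ℕ) : ℚ) ≤ ((Nat.choose (2 * d + 2) 2 * Nat.choose (2 * d + 4) 2 : ℕ) : ℚ) := by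
    push_cast
    rw [q4, q2, show 2 * d + 4 = (2 * d + 2) + 2 from rfl, q2]
    push_cast
    rw [← sub_nonneg]; ring_nf; positivity
  exact_mod_cast this

theorem ker1_1 (e d : ℕ) : 4 * K (e + 2 * (1 + 1) + d) (e + 2 * (1 + 1)) (1 + 1) (e + 1) + (if d = 0 then 2 else 0) ≤
      S (e + 2 * (1 + 1) + d) (e + 2 * (1 + 1)) 1 (e + 1) := by
  rw [S_val e d 1 1 (by omega) (by omega), K_val e d (1 + 1) 1 (by omega)]
  have h1 : Nat.choose (e + 1) (e + 2) = 0 := Nat.choose_eq_zero_of_lt (by omega)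
  have h2 : e + 1 + 1 = e + 2 := rfl
  have h3 : e + 1 + 2 = e + 3 := rfl
  have h4 : 2 * (1 + 1) - 1 = 3 := rfl
  have h5 : 2 * 1 + 1 - 1 = 2 := rfl
  have h6 : 2 * 1 - 1 = 1 := rfl
  have h7 : 2 * d + 2 * 1 + 3 - 2 * 1 = 2 * d + 3 := by omega
  have h8 : 2 * d + 2 * 1 + 2 - 2 * 1 = 2 * d + 2 := by omega
  rw [h2, h3, h4, h5, h6, h7, h8, h1, cs0, cs1, Nat.choose_self,
    if_pos (show 1 ≤ 2 * 1 + 1 by omega), if_pos (show 1 ≤ 2 * 1 by omega), Nat.choose_one_right]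
  have : ((4 * (Nat.choose (2 * d + 3) 3 * (e + 1)) + (if d = 0 then 2 else 0) : ℕ) : ℚ) ≤
      ((Nat.choose (2 * d + 2) 2 * 1 * ((2 * d + 3) * (e + 1)) + (2 * d + 1) * (e + 3) * Nat.choose (2 * d + 2) 2 : ℕ) : ℚ) := by
    by_cases hd : d = 0
    · subst hd
      rw [if_pos rfl]
      simp [Nat.choose]
      ring_nf; rfl
    · rw [if_neg hd]
      push_cast
      rw [q3, q2]
      push_cast
      rw [← sub_nonneg]; ring_nf; positivity
  have h9 := (Nat.cast_le (α := ℚ)).1 this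
  simpa using h9

theorem ker1_2 (e d : ℕ) : 4 * K (e + 2 * (1 + 1) + (d + 1)) (e + 2 * (1 + 1)) (1 + 1) (e + 2) ≤
      S (e + 2 * (1 + 1) + (d + 1)) (e + 2 * (1 + 1)) 1 (e + 2) := by
  rw [S_val e (d + 1) 1 2 (by omega) (by omega), K_val e (d + 1) (1 + 1) 2 (by omega)]
  have h2 : e + 2 + 1 = e + 3 := rfl
  have h3 : e + 2 + 2 = e + 4 := rfl
  have h4 : 2 * (1 + 1) - 2 = 2 := rfl
  have h4' : 2 * 1 + 2 - 2 = 2 := rfl
  have h5 : 2 * 1 + 1 - 2 = 1 := rfl
  have h6 : 2 * 1 - 2 = 0 := rfl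
  have h7 : 2 * (d + 1) + 2 * 1 + 3 - 2 * 2 = 2 * d + 3 := by omega
  have h8 : 2 * (d + 1) + 2 * 1 + 2 - 2 * 2 = 2 * d + 2 := by omega
  have h9 : 2 * (d + 1) + 2 = 2 * d + 2 + 2 := by omega
  rw [h2, h3, h4, h5, h6, h7, h8, h9, cs1, cs2, cs2', Nat.choose_self,
    if_pos (show 2 ≤ 2 * 1 + 1 by omega), if_pos (show 2 ≤ 2 * 1 by omega), Nat.choose_one_right, Nat.choose_zero_right]
  have : ((4 * (Nat.choose (2 * d + 2 + 2) 2 * Nat.choose (e + 2) 2) : ℕ) : ℚ) ≤
      ((Nat.choose (2 * d + 2 + 2) 2 * 1 * Nat.choose (e + 2) 2 + (2 * (d + 1) + 1) * (e + 3) * ((2 * d + 3) * (e + 2)) +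
        1 * Nat.choose (e + 4) 2 * Nat.choose (2 * d + 2) 2 : ℕ) : ℚ) := by
    push_cast
    rw [show e + 4 = (e + 2) + 2 from rfl, q2, q2, q2, q2]
    push_cast
    rw [← sub_nonneg]; ring_nf; positivity
  exact_mod_cast this

theorem ker1_3 (e d : ℕ) : 4 * K (e + 2 * (1 + 1) + (d + 1)) (e + 2 * (1 + 1)) (1 + 1) (e + 3) ≤
      S (e + 2 * (1 + 1) + (d + 1)) (e + 2 * (1 + 1)) 1 (e + 3) := by
  rw [S_val e (d + 1) 1 3 (by omega) (by omega), K_val e (d + 1) (1 + 1) 3 (by omega)]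
  have h2 : e + 3 + 1 = e + 4 := rfl
  have h4 : 2 * (1 + 1) - 3 = 1 := rfl
  have h4' : 2 * 1 + 2 - 3 = 1 := rfl
  have h5 : 2 * 1 + 1 - 3 = 0 := rfl
  have h7 : 2 * (d + 1) + 2 * 1 + 3 - 2 * 3 = 2 * d + 1 := by omega
  rw [h2, h4, h5, h7, cs1, cs3, cs2',
    if_pos (show 3 ≤ 2 * 1 + 1 by omega), if_neg (show ¬ (3 ≤ 2 * 1) by omega), Nat.choose_one_right, Nat.choose_zero_right]
  have : ((4 * ((2 * (d + 1) + 1) * Nat.choose (e + 3) 3) : ℕ) : ℚ) ≤
      (((2 * (d + 1) + 1) * (e + 3) * Nat.choose (e + 3) 2 + 1 * Nat.choose (e + 4) 2 * ((2 * d + 1) * (e + 3)) : ℕ) : ℚ) := by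
    push_cast
    rw [show (e + 3).choose 2 = ((e + 1) + 2).choose 2 from rfl, show e + 4 = (e + 2) + 2 from rfl, q3, q2, q2]
    push_cast
    rw [← sub_nonneg]; ring_nf; positivity
  have h9 := (Nat.cast_le (α := ℚ)).1 this
  simpa using h9

theorem ker1_4 (e d : ℕ) : 4 * K (e + 2 * (1 + 1) + d) (e + 2 * (1 + 1)) (1 + 1) (e + 4) ≤
      S (e + 2 * (1 + 1) + d) (e + 2 * (1 + 1)) 1 (e + 4) := by
  rw [S_val e d 1 4 (by omega) (by omega), K_val e d (1 + 1) 4 (by omega)]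
  have h4 : 2 * (1 + 1) - 4 = 0 := rfl
  have h4' : 2 * 1 + 2 - 4 = 0 := rfl
  rw [h4, cs4, cs2',
    if_neg (show ¬ (4 ≤ 2 * 1 + 1) by omega), if_neg (show ¬ (4 ≤ 2 * 1) by omega), Nat.choose_zero_right]
  have : ((4 * (1 * Nat.choose (e + 4) 4) : ℕ) : ℚ) ≤
      ((1 * Nat.choose (e + 4) 2 * Nat.choose (e + 4) 2 : ℕ) : ℚ) := by
    push_cast
    rw [q4, show e + 4 = (e + 2) + 2 from rfl, q2]
    push_cast
    rw [← sub_nonneg]; ring_nf; positivity
  have h9 := (Nat.cast_le (α := ℚ)).1 this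
  simpa using h9

theorem ex1_2 (e : ℕ) : 2 * (4 * K (e + 2 * (1 + 1) + 0) (e + 2 * (1 + 1)) (1 + 1) (e + 2)) + 0 ≤
      2 * S (e + 2 * (1 + 1) + 0) (e + 2 * (1 + 1)) 1 (e + 2) + (e + 2) * (e + 2 - 5) := by
  rw [S_val e 0 1 2 (by omega) (by omega), K_val e 0 (1 + 1) 2 (by omega)]
  have h2 : e + 2 + 1 = e + 3 := rfl
  have h3 : e + 2 + 2 = e + 4 := rfl
  have h4 : 2 * (1 + 1) - 2 = 2 := rfl
  have h4' : 2 * 1 + 2 - 2 = 2 := rfl
  have h5 : 2 * 1 + 1 - 2 = 1 := rfl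
  have h6 : 2 * 1 - 2 = 0 := rfl
  have h7 : 2 * 0 + 2 * 1 + 3 - 2 * 2 = 1 := rfl
  have h8 : 2 * 0 + 2 * 1 + 2 - 2 * 2 = 0 := rfl
  rw [h2, h3, h4, h5, h6, cs1, cs2, cs2', Nat.choose_self,
    if_pos (show 2 ≤ 2 * 1 + 1 by omega), if_pos (show 2 ≤ 2 * 1 by omega)]
  simp only [Nat.mul_zero, Nat.zero_add, Nat.choose_self, Nat.choose_zero_right, Nat.mul_one, Nat.one_mul,
    Nat.choose_zero_succ, Nat.add_zero]
  have h9 := ch2 e
  rcases Nat.lt_or_ge e 3 with h | h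
  · interval_cases e <;> simp [Nat.choose] 
  · obtain ⟨u, rfl⟩ := Nat.exists_eq_add_of_le h
    have h12 : 3 + u + 2 - 5 = u := by omega
    rw [h12]
    nlinarith

theorem ex1_0 (e : ℕ) : 4 * K (e + 2 * (1 + 1) + 0) (e + 2 * (1 + 1)) (1 + 1) (e + 0) + 2 ≤
      S (e + 2 * (1 + 1) + 0) (e + 2 * (1 + 1)) 1 (e + 0) := by
  rw [S_val e 0 1 0 (by omega) (by omega), K_val e 0 (1 + 1) 0 (by omega)]
  have h1 : Nat.choose e (e + 2) = 0 := Nat.choose_eq_zero_of_lt (by omega)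
  have h2 : Nat.choose (e + 1) (e + 2) = 0 := Nat.choose_eq_zero_of_lt (by omega)
  simp only [Nat.add_zero, Nat.sub_zero, Nat.mul_zero, h1, h2, Nat.zero_mul, Nat.choose_self, Nat.mul_one,
    Nat.mul_zero, if_true, Nat.zero_le, Nat.zero_add]
  decide

/-- first comparison: the two-step expansion -/
theorem step (b : ℕ → ℕ → ℤ) (hb0 : ∀ n, b 0 n = 0) (n i t : ℕ)
    (hLo : ∀ j, T1 b (n - t) j ≤ 2 * b j (n - t)) :
    ∑ k ∈ Finset.range (i + 1), (S n i t k : ℤ) * b k (n - t - 1) ≤ 2 * T b n i t := by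
  rw [← reindex b hb0, T, Finset.mul_sum]
  apply Finset.sum_le_sum
  intro j _
  have := mul_le_mul_of_nonneg_left (hLo j) (show (0 : ℤ) ≤ (K n i t j : ℤ) by positivity)
  linarith

theorem T_nonneg (b : ℕ → ℕ → ℤ) (n i t : ℕ) (h : ∀ k, 0 ≤ b k (n - t)) : 0 ≤ T b n i t := by
  unfold T
  apply Finset.sum_nonneg
  intro j _
  exact mul_nonneg (by positivity) (h j)

theorem T_zero (b : ℕ → ℕ → ℤ) (n i t : ℕ) (h : i < 2 * t) : T b n i t = 0 := by
  unfold T
  apply Finset.sum_eq_zero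
  intro j _
  unfold K
  rw [if_neg (by omega)]
  simp

/-- decrease from level t to t+1 for t ≥ 2 -/
theorem mono2 (b : ℕ → ℕ → ℤ) (hb0 : ∀ n, b 0 n = 0) (hbz : ∀ i n : ℕ, ¬ (2 ≤ i ∧ i ≤ n) → b i n = 0)
    (n i t : ℕ) (ht : 2 ≤ t) (hin : i ≤ n) (hnn : ∀ t k, 1 ≤ t → 0 ≤ b k (n - t))
    (hLo : 3 ≤ n - t → ∀ j, T1 b (n - t) j ≤ 2 * b j (n - t)) :
    T b n i (t + 1) ≤ T b n i t := by
  have hT0 : 0 ≤ T b n i t := T_nonneg b n i t (fun k => hnn t k (by omega))
  rcases Nat.lt_or_ge i (2 * (t + 1)) with h | h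
  · rw [T_zero b n i (t + 1) h]; exact hT0
  rcases Nat.lt_or_ge (n - t) 3 with h3 | h3
  · have : T b n i (t + 1) = 0 := by
      unfold T
      apply Finset.sum_eq_zero
      intro j _
      rw [hbz j (n - (t + 1)) (by omega)]
      simp
    rw [this]; exact hT0
  have hst := step b hb0 n i t (hLo h3)
  obtain ⟨e, rfl⟩ : ∃ e, i = e + 2 * (t + 1) := ⟨i - 2 * (t + 1), by omega⟩
  obtain ⟨d, rfl⟩ : ∃ d, n = e + 2 * (t + 1) + d := ⟨n - (e + 2 * (t + 1)), by omega⟩
  have hcmp : 2 * T b (e + 2 * (t + 1) + d) (e + 2 * (t + 1)) (t + 1) ≤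
      ∑ k ∈ Finset.range (e + 2 * (t + 1) + 1), (S (e + 2 * (t + 1) + d) (e + 2 * (t + 1)) t k : ℤ) *
        b k (e + 2 * (t + 1) + d - t - 1) := by
    unfold T
    rw [Finset.mul_sum]
    apply Finset.sum_le_sum
    intro k hk
    have hk' := Finset.mem_range.1 hk
    have hsub : e + 2 * (t + 1) + d - (t + 1) = e + 2 * (t + 1) + d - t - 1 := by omega
    rw [hsub]
    have hbk : 0 ≤ b k (e + 2 * (t + 1) + d - t - 1) := by
      have := hnn (t + 1) k (by omega)
      rwa [hsub] at this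
    by_cases hkr : 2 ≤ k ∧ k ≤ e + 2 * (t + 1) + d - t - 1
    · rcases Nat.lt_or_ge k e with hke | hke
      · have : K (e + 2 * (t + 1) + d) (e + 2 * (t + 1)) (t + 1) k = 0 := by
          unfold K
          rw [if_pos (by omega)]
          rw [Nat.choose_eq_zero_of_lt (show k < e + 2 * (t + 1) - 2 * (t + 1) by omega)]
          simp
        rw [this]
        have := mul_nonneg (show (0:ℤ) ≤ (S (e + 2 * (t + 1) + d) (e + 2 * (t + 1)) t k : ℤ) by positivity) hbk
        simpa using this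
      · obtain ⟨p, rfl⟩ := Nat.exists_eq_add_of_le hke
        have hker := ker2 e d t p ht (by omega) (by omega)
        have hker' : (2 : ℤ) * (K (e + 2 * (t + 1) + d) (e + 2 * (t + 1)) (t + 1) (e + p) : ℤ) ≤
            (S (e + 2 * (t + 1) + d) (e + 2 * (t + 1)) t (e + p) : ℤ) := by exact_mod_cast hker
        have := mul_le_mul_of_nonneg_right hker' hbk
        linarith
    · rw [hbz k _ hkr]; simp
  linarith

/-- decrease from level 1 to 2 by a factor of two -/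
theorem mono1 (b : ℕ → ℕ → ℤ) (hb0 : ∀ n, b 0 n = 0) (hbz : ∀ i n : ℕ, ¬ (2 ≤ i ∧ i ≤ n) → b i n = 0)
    (n i : ℕ) (hin : i ≤ n) (hnn : ∀ t k, 1 ≤ t → 0 ≤ b k (n - t))
    (hLo : 3 ≤ n - 1 → ∀ j, T1 b (n - 1) j ≤ 2 * b j (n - 1))
    (hH : (((n - 2) * (n - 2 - 5) : ℕ) : ℤ) * b (n - 2) (n - 2) ≤ 4 * b (n - 3) (n - 2) + 4 * b (n - 4) (n - 2)) :
    2 * T b n i 2 ≤ T b n i 1 := by
  have hT0 : 0 ≤ T b n i 1 := T_nonneg b n i 1 (fun k => hnn 1 k (by omega))
  rcases Nat.lt_or_ge i (2 * (1 + 1)) with h | h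
  · rw [T_zero b n i 2 h]; linarith
  have h3 : 3 ≤ n - 1 := by omega
  have hst := step b hb0 n i 1 (hLo h3)
  obtain ⟨e, rfl⟩ : ∃ e, i = e + 2 * (1 + 1) := ⟨i - 2 * (1 + 1), by omega⟩
  obtain ⟨d, rfl⟩ : ∃ d, n = e + 2 * (1 + 1) + d := ⟨n - (e + 2 * (1 + 1)), by omega⟩
  have hcmp : 4 * T b (e + 2 * (1 + 1) + d) (e + 2 * (1 + 1)) 2 ≤
      ∑ k ∈ Finset.range (e + 2 * (1 + 1) + 1), (S (e + 2 * (1 + 1) + d) (e + 2 * (1 + 1)) 1 k : ℤ) *
        b k (e + 2 * (1 + 1) + d - 1 - 1) := by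
    have hsub : e + 2 * (1 + 1) + d - 2 = e + 2 * (1 + 1) + d - 1 - 1 := by omega
    have hbk : ∀ k, 0 ≤ b k (e + 2 * (1 + 1) + d - 1 - 1) := by
      intro k
      have := hnn 2 k (by omega)
      rwa [hsub] at this
    have hKsmall : ∀ k, k < e → K (e + 2 * (1 + 1) + d) (e + 2 * (1 + 1)) 2 k = 0 := by
      intro k hke
      unfold K
      rw [if_pos (by omega)]
      rw [Nat.choose_eq_zero_of_lt (show k < e + 2 * (1 + 1) - 2 * 2 by omega)]
      simp
    rcases Nat.eq_zero_or_pos d with hd | hd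
    · subst hd
      unfold T
      rw [hsub]
      have z3 : b (e + 3) (e + 2 * (1 + 1) + 0 - 1 - 1) = 0 := hbz _ _ (by omega)
      have z4 : b (e + 4) (e + 2 * (1 + 1) + 0 - 1 - 1) = 0 := hbz _ _ (by omega)
      have expand : ∀ F : ℕ → ℤ, ∑ x ∈ Finset.range (e + 2 * (1 + 1) + 1), F x =
          ∑ x ∈ Finset.range e, F x + F e + F (e + 1) + F (e + 2) + F (e + 3) + F (e + 4) := by
        intro F
        have hr : e + 2 * (1 + 1) + 1 = e + 4 + 1 := by omega
        rw [hr, Finset.sum_range_succ, Finset.sum_range_succ, Finset.sum_range_succ, Finset.sum_range_succ,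
          Finset.sum_range_succ]
      rw [expand, expand, z3, z4]
      have hz : ∑ x ∈ Finset.range e, (K (e + 2 * (1 + 1) + 0) (e + 2 * (1 + 1)) 2 x : ℤ) * b x (e + 2 * (1 + 1) + 0 - 1 - 1) = 0 := by
        apply Finset.sum_eq_zero
        intro k hk
        rw [hKsmall k (Finset.mem_range.1 hk)]; simp
      have hnz : 0 ≤ ∑ x ∈ Finset.range e, (S (e + 2 * (1 + 1) + 0) (e + 2 * (1 + 1)) 1 x : ℤ) * b x (e + 2 * (1 + 1) + 0 - 1 - 1) := by
        apply Finset.sum_nonneg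
        intro k _
        exact mul_nonneg (by positivity) (hbk k)
      rw [hz]
      have k0 := ex1_0 e
      have k1 := ker1_1 e 0
      have k2 := ex1_2 e
      rw [if_pos rfl] at k1
      have i0 : e + 2 * (1 + 1) + 0 - 2 = e + 2 := by omega
      have i1 : e + 2 * (1 + 1) + 0 - 3 = e + 1 := by omega
      have i2 : e + 2 * (1 + 1) + 0 - 4 = e := by omega
      have i3 : e + 2 * (1 + 1) + 0 - 1 - 1 = e + 2 := by omega
      rw [i0, i1, i2] at hH
      simp only [i3] at hnz hbk ⊢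
      have c0 : (4 : ℤ) * (K (e + 2 * (1 + 1) + 0) (e + 2 * (1 + 1)) 2 e : ℤ) + 2 ≤ (S (e + 2 * (1 + 1) + 0) (e + 2 * (1 + 1)) 1 e : ℤ) := by
        exact_mod_cast k0
      have c1 : (4 : ℤ) * (K (e + 2 * (1 + 1) + 0) (e + 2 * (1 + 1)) 2 (e + 1) : ℤ) + 2 ≤ (S (e + 2 * (1 + 1) + 0) (e + 2 * (1 + 1)) 1 (e + 1) : ℤ) := by
        exact_mod_cast k1
      have c2 : (2 : ℤ) * (4 * (K (e + 2 * (1 + 1) + 0) (e + 2 * (1 + 1)) 2 (e + 2) : ℤ)) ≤
          2 * (S (e + 2 * (1 + 1) + 0) (e + 2 * (1 + 1)) 1 (e + 2) : ℤ) + (((e + 2) * (e + 2 - 5) : ℕ) : ℤ) := by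
        exact_mod_cast k2
      have m0 := mul_le_mul_of_nonneg_right c0 (hbk e)
      have m1 := mul_le_mul_of_nonneg_right c1 (hbk (e + 1))
      have m2 := mul_le_mul_of_nonneg_right c2 (hbk (e + 2))
      linarith
    · obtain ⟨d, rfl⟩ : ∃ d', d = d' + 1 := ⟨d - 1, by omega⟩
      unfold T
      rw [Finset.mul_sum]
      apply Finset.sum_le_sum
      intro k hk
      have hk' := Finset.mem_range.1 hk
      rw [hsub]
      have key : 4 * K (e + 2 * (1 + 1) + (d + 1)) (e + 2 * (1 + 1)) 2 k ≤ S (e + 2 * (1 + 1) + (d + 1)) (e + 2 * (1 + 1)) 1 k := by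
        rcases Nat.lt_or_ge k e with hke | hke
        · rw [hKsmall k hke]; omega
        · obtain ⟨p, rfl⟩ := Nat.exists_eq_add_of_le hke
          have hp : p ≤ 4 := by omega
          interval_cases p
          · exact ker1_0 e (d + 1)
          · have := ker1_1 e (d + 1)
            simpa using this
          · exact ker1_2 e d
          · exact ker1_3 e d
          · exact ker1_4 e (d + 1)
      have key' : (4 : ℤ) * (K (e + 2 * (1 + 1) + (d + 1)) (e + 2 * (1 + 1)) 2 k : ℤ) ≤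
          (S (e + 2 * (1 + 1) + (d + 1)) (e + 2 * (1 + 1)) 1 k : ℤ) := by exact_mod_cast key
      have := mul_le_mul_of_nonneg_right key' (hbk k)
      linarith
  linarith

theorem T_one (b : ℕ → ℕ → ℤ) (n i : ℕ) (h2 : 2 ≤ i) (hin : i ≤ n) : T b n i 1 = T1 b n i := by
  obtain ⟨q, rfl⟩ : ∃ q, i = q + 2 := ⟨i - 2, by omega⟩
  obtain ⟨d, rfl⟩ : ∃ d, n = q + 2 + d := ⟨n - (q + 2), by omega⟩
  unfold T T1
  rw [Finset.sum_range_succ, Finset.sum_range_succ, Finset.sum_range_succ]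
  have hz : ∑ x ∈ Finset.range q, (K (q + 2 + d) (q + 2) 1 x : ℤ) * b x (q + 2 + d - 1) = 0 := by
    apply Finset.sum_eq_zero
    intro k hk
    unfold K
    rw [if_pos (by have := Finset.mem_range.1 hk; omega),
      Nat.choose_eq_zero_of_lt (show k < q + 2 - 2 * 1 by have := Finset.mem_range.1 hk; omega)]
    simp
  have k0 := K_val q d 1 0 (by omega)
  have k1 := K_val q d 1 1 (by omega)
  have k2 := K_val q d 1 2 (by omega)
  have e0 : q + 2 * 1 = q + 2 := rfl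
  rw [e0] at k0 k1 k2
  have e1 : q + 0 = q := rfl
  rw [e1, Nat.choose_self] at k0
  rw [Nat.choose_succ_self_right] at k1
  rw [cs2] at k2
  rw [hz, k0, k1, k2]
  have e2 : 2 * d + (2 * 1 - 1) = 2 * d + 1 := by omega
  have e3 : 2 * 1 - 1 = 1 := rfl
  have e4 : 2 * 1 - 2 = 0 := rfl
  have e5 : 2 * 1 - 0 = 2 := rfl
  rw [e3, e4, e5, Nat.choose_one_right, Nat.choose_zero_right]
  have e6 : 2 * (q + 2 + d) + 1 - 2 * (q + 2) = 2 * d + 1 := by omega
  have e7 : 2 * (q + 2 + d) + 2 - 2 * (q + 2) = 2 * d + 2 := by omega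
  have e8 : q + 2 - 1 = q + 1 := by omega
  have e9 : q + 2 - 2 = q := by omega
  rw [e6, e7, e8, e9]
  push_cast
  ring

theorem T1_out (b : ℕ → ℕ → ℤ) (hb0 : ∀ n, b 0 n = 0) (hbz : ∀ i n : ℕ, ¬ (2 ≤ i ∧ i ≤ n) → b i n = 0)
    (n j : ℕ) (hn : 3 ≤ n) (h : ¬ (2 ≤ j ∧ j ≤ n)) : T1 b n j = 0 := by
  unfold T1
  rcases Nat.lt_or_ge j 2 with h2 | h2
  · interval_cases j
    · simp [hb0]
    · simp [hb0]
  · have hj : n < j := by omega
    rw [hbz j (n - 1) (by omega)]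
    have e1 : 2 * n + 1 - 2 * j = 0 := by omega
    have e2 : 2 * n + 2 - 2 * j = 0 := by omega
    rw [e1, e2]
    simp

theorem T1_two (b : ℕ → ℕ → ℤ) (hb0 : ∀ n, b 0 n = 0) (hbz : ∀ i n : ℕ, ¬ (2 ≤ i ∧ i ≤ n) → b i n = 0)
    (hb2 : ∀ n : ℕ, 2 ≤ n → b 2 n = 1) (n : ℕ) (hn : 3 ≤ n) : T1 b n 2 = 1 := by
  unfold T1
  have : b 1 (n - 1) = 0 := hbz _ _ (by omega)
  rw [hb2 _ (by omega), show 2 - 1 = 1 from rfl, this, show 2 - 2 = 0 from rfl, hb0]
  simp

/-- the recurrence as an alternating sum -/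
theorem rec_eq (b : ℕ → ℕ → ℤ)
    (hrec : ∀ i n : ℕ, 3 ≤ i → i ≤ n →
        b i n = ∑ k ∈ Finset.range (i + 1),
          ((Nat.choose (2 * n - 2 * i + k) k : ℕ) : ℤ) *
            ∑ r ∈ Finset.Icc 1 (i / 2),
              (-1 : ℤ) ^ (r - 1) * ((Nat.choose (i - k) (i - 2 * r) : ℕ) : ℤ) * b (i - k) (n - r))
    (n i : ℕ) (h3 : 3 ≤ i) (hin : i ≤ n) :
    b i n = ∑ r ∈ Finset.range (i / 2), (-1 : ℤ) ^ r * T b n i (r + 1) := by
  rw [hrec i n h3 hin]
  have h1 : ∀ G : ℕ → ℤ, ∑ r ∈ Finset.Icc 1 (i / 2), G r = ∑ r ∈ Finset.range (i / 2), G (r + 1) := by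
    intro G
    rw [show Finset.Icc 1 (i / 2) = Finset.Ico 1 (i / 2 + 1) from rfl, Finset.sum_Ico_eq_sum_range]
    apply Finset.sum_congr
    · congr 1
    · intro r _
      rw [add_comm]
  simp only [h1, Finset.mul_sum]
  rw [Finset.sum_comm]
  apply Finset.sum_congr rfl
  intro r hr
  have hr' : 2 * (r + 1) ≤ i := by
    have := Finset.mem_range.1 hr
    omega
  unfold T
  have hrefl := Finset.sum_range_reflect (fun j => (K n i (r + 1) j : ℤ) * b j (n - (r + 1))) (i + 1)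
  rw [← hrefl, Finset.mul_sum]
  apply Finset.sum_congr rfl
  intro k hk
  have hk' : k ≤ i := by
    have := Finset.mem_range.1 hk
    omega
  have e1 : i + 1 - 1 - k = i - k := by omega
  rw [e1]
  unfold K
  rw [if_pos ⟨hr', Nat.sub_le _ _⟩]
  have e2 : i - (i - k) = k := by omega
  rw [e2, Nat.add_sub_cancel]
  push_cast
  ring

/-- main two-sided induction -/
theorem main (b : ℕ → ℕ → ℤ) (hb0 : ∀ n, b 0 n = 0) (hbz : ∀ i n : ℕ, ¬ (2 ≤ i ∧ i ≤ n) → b i n = 0)
    (hb2 : ∀ n : ℕ, 2 ≤ n → b 2 n = 1)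
    (hrec : ∀ i n : ℕ, 3 ≤ i → i ≤ n →
        b i n = ∑ k ∈ Finset.range (i + 1),
          ((Nat.choose (2 * n - 2 * i + k) k : ℕ) : ℤ) *
            ∑ r ∈ Finset.Icc 1 (i / 2),
              (-1 : ℤ) ^ (r - 1) * ((Nat.choose (i - k) (i - 2 * r) : ℕ) : ℤ) * b (i - k) (n - r)) :
    ∀ n : ℕ, (∀ j, 0 ≤ b j n) ∧
      (3 ≤ n → ∀ j, T1 b n j ≤ 2 * b j n ∧ b j n ≤ T1 b n j) ∧
      (((n * (n - 5) : ℕ) : ℤ) * b n n ≤ 4 * b (n - 1) n + 4 * b (n - 2) n) := by
  intro n
  induction n using Nat.strong_induction_on with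
  | _ n ih =>
  rcases Nat.lt_or_ge n 3 with hn | hn
  · have hA : ∀ j, 0 ≤ b j n := by
      intro j
      by_cases h : 2 ≤ j ∧ j ≤ n
      · have hj : j = 2 := by omega
        rw [hj, hb2 n (by omega)]; norm_num
      · rw [hbz j n h]
    refine ⟨hA, fun h => absurd h (by omega), ?_⟩
    have e : n * (n - 5) = 0 := by rw [show n - 5 = 0 by omega]; simp
    rw [e]
    have := hA (n - 1)
    have := hA (n - 2)
    simp
    linarith
  · -- n ≥ 3
    have hnn : ∀ t k, 1 ≤ t → 0 ≤ b k (n - t) := fun t k ht => (ih (n - t) (by omega)).1 k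
    have hLo : ∀ t, 1 ≤ t → 3 ≤ n - t → ∀ j, T1 b (n - t) j ≤ 2 * b j (n - t) :=
      fun t ht h3 j => ((ih (n - t) (by omega)).2.1 h3 j).1
    have hB : ∀ j, T1 b n j ≤ 2 * b j n ∧ b j n ≤ T1 b n j := by
      intro i
      by_cases hr : 2 ≤ i ∧ i ≤ n
      · obtain ⟨h2, hin⟩ := hr
        rcases Nat.lt_or_ge i 3 with hi | hi
        · have : i = 2 := by omega
          rw [this, T1_two b hb0 hbz hb2 n hn, hb2 n (by omega)]
          norm_num
        · rw [← T_one b n i h2 hin]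
          have hm1 : 2 * T b n i 2 ≤ T b n i 1 := by
            apply mono1 b hb0 hbz n i hin hnn (hLo 1 le_rfl)
            have := (ih (n - 2) (by omega)).2.2
            have e1 : n - 2 - 1 = n - 3 := by omega
            have e2 : n - 2 - 2 = n - 4 := by omega
            rw [e1, e2] at this
            exact this
          have hm2 : ∀ r, T b n i (r + 2 + 1) ≤ T b n i (r + 2) := by
            intro r
            exact mono2 b hb0 hbz n i (r + 2) (by omega) hin hnn (hLo (r + 2) (by omega))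
          have hT0 : ∀ r, 0 ≤ T b n i (r + 1) := fun r => T_nonneg b n i (r + 1) (fun k => hnn (r + 1) k (by omega))
          have hsum := rec_eq b hrec n i hi hin
          obtain ⟨R, hR⟩ : ∃ R, i / 2 = R + 1 := ⟨i / 2 - 1, by omega⟩
          rw [hR, Finset.sum_range_succ'] at hsum
          obtain ⟨ha, hb⟩ := alt R (fun r => T b n i (r + 2)) (fun r => hT0 (r + 1)) hm2
          have e : ∑ r ∈ Finset.range R, (-1 : ℤ) ^ (r + 1) * T b n i (r + 1 + 1) =
              - ∑ r ∈ Finset.range R, (-1 : ℤ) ^ r * T b n i (r + 2) := by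
            rw [← Finset.sum_neg_distrib]
            apply Finset.sum_congr rfl
            intro r _
            rw [pow_succ]; ring
          rw [e] at hsum
          simp only [pow_zero, one_mul, Nat.zero_add] at hsum hb
          have := hT0 1
          constructor
          · linarith
          · linarith
      · rw [T1_out b hb0 hbz n i hn hr, hbz i n hr]
        norm_num
    have hA : ∀ j, 0 ≤ b j n := by
      intro j
      have h1 := (hB j).1
      have h2 : 0 ≤ T1 b n j := by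
        unfold T1
        have a1 := hnn 1 j le_rfl
        have a2 := hnn 1 (j - 1) le_rfl
        have a3 := hnn 1 (j - 2) le_rfl
        positivity
      linarith
    refine ⟨hA, fun _ => hB, ?_⟩
    rcases Nat.lt_or_ge n 6 with h6 | h6
    · have e : n * (n - 5) = 0 := by rw [show n - 5 = 0 by omega]; simp
      rw [e]
      have := hA (n - 1)
      have := hA (n - 2)
      simp
      linarith
    · -- H at n ≥ 6
      obtain ⟨q, rfl⟩ : ∃ q, n = q + 6 := ⟨n - 6, by omega⟩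
      have b0 := (hB (q + 6)).2
      have b1 := (hB (q + 5)).1
      have b2 := (hB (q + 4)).1
      unfold T1 at b0 b1 b2
      have z : b (q + 6) (q + 6 - 1) = 0 := hbz _ _ (by omega)
      rw [z] at b0
      have e1 : q + 6 - 1 = q + 5 := by omega
      have e2 : q + 6 - 2 = q + 4 := by omega
      have e3 : q + 5 - 1 = q + 4 := by omega
      have e4 : q + 5 - 2 = q + 3 := by omega
      have e5 : q + 4 - 1 = q + 3 := by omega
      have e6 : q + 4 - 2 = q + 2 := by omega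
      have e7 : q + 6 - 5 = q + 1 := by omega
      have f1 : 2 * (q + 6) + 1 - 2 * (q + 6) = 1 := by omega
      have f2 : 2 * (q + 6) + 2 - 2 * (q + 6) = 2 := by omega
      have f3 : 2 * (q + 6) + 1 - 2 * (q + 5) = 3 := by omega
      have f4 : 2 * (q + 6) + 2 - 2 * (q + 5) = 4 := by omega
      have f5 : 2 * (q + 6) + 1 - 2 * (q + 4) = 5 := by omega
      have f6 : 2 * (q + 6) + 2 - 2 * (q + 4) = 6 := by omega
      have g2 : Nat.choose 2 2 = 1 := rfl
      have g4 : Nat.choose 4 2 = 6 := rfl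
      have g6 : Nat.choose 6 2 = 15 := rfl
      rw [e1, e2, f1, f2, g2] at b0
      rw [e1, e3, e4, f3, f4, g4] at b1
      rw [e1, e5, e6, f5, f6, g6] at b2
      rw [e1, e2, e7]
      have x0 := hnn 1 (q + 5) le_rfl
      have y0 := hnn 1 (q + 4) le_rfl
      have zz0 := hnn 1 (q + 3) le_rfl
      have u0 := hnn 1 (q + 2) le_rfl
      rw [e1] at x0 y0 zz0 u0
      have c5 : (2 : ℤ) * (Nat.choose (q + 5) 2 : ℤ) = (q + 5) * (q + 4) := by
        have := ch2 (q + 3); exact_mod_cast this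
      have c4 : (2 : ℤ) * (Nat.choose (q + 4) 2 : ℤ) = (q + 4) * (q + 3) := by
        have := ch2 (q + 2); exact_mod_cast this
      have hHq := (ih (q + 5) (by omega)).2.2
      have h1' : q + 5 - 5 = q := by omega
      rw [h1', e3, e4] at hHq
      have hx3 : q = 0 → b (q + 5) (q + 5) ≤ 3 * b (q + 4) (q + 5) := by
        intro hq
        subst hq
        have g := (ih 5 (by omega)).2.1 (by omega)
        have g5 := (g 5).2
        have g4' := (g 4).1
        unfold T1 at g5 g4'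
        have n4 := (ih 4 (by omega)).1
        have z5 : b 5 (5 - 1) = 0 := hbz _ _ (by omega)
        rw [z5] at g5
        have p4 := n4 4
        have p3 := n4 3
        have p2 := n4 2
        norm_num [Nat.choose] at g5 g4'
        simp only [Nat.zero_add]
        linarith
      generalize hx : b (q + 5) (q + 5) = x at *
      generalize hy : b (q + 4) (q + 5) = y at *
      generalize hz : b (q + 3) (q + 5) = zv at *
      generalize hu : b (q + 2) (q + 5) = u at *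
      generalize hb0' : b (q + 6) (q + 6) = B0 at *
      generalize hb1' : b (q + 5) (q + 6) = B1 at *
      generalize hb2' : b (q + 4) (q + 6) = B2 at *
      generalize hc5 : (Nat.choose (q + 5) 2 : ℤ) = C5 at *
      generalize hc4 : (Nat.choose (q + 4) 2 : ℤ) = C4 at *
      push_cast at b0 b1 b2 hHq ⊢
      have hB0 : B0 ≤ ((q : ℤ) + 5) * x + y := by linarith
      have hq0 : (0 : ℤ) ≤ (q : ℤ) := by positivity
      have hL : ((q : ℤ) + 6) * (q + 1) * B0 ≤ ((q : ℤ) + 6) * (q + 1) * (((q : ℤ) + 5) * x + y) :=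
        mul_le_mul_of_nonneg_left hB0 (by positivity)
      have hC5x : 2 * C5 * x = ((q : ℤ) + 5) * (q + 4) * x := by rw [c5]
      have hC4y : 2 * C4 * y = ((q : ℤ) + 4) * (q + 3) * y := by rw [c4]
      rcases Nat.eq_zero_or_pos q with hq | hq
      · have hxx := hx3 hq
        subst hq
        simp only [Nat.cast_zero, zero_add] at *
        linarith
      · have hq1 : (1 : ℤ) ≤ (q : ℤ) := by exact_mod_cast hq
        have h4 : 0 ≤ (((q : ℤ) + 5)) * (4 * y + 4 * zv - ((q : ℤ) + 5) * q * x) :=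
          mul_nonneg (by positivity) (by linarith)
        have h5 : 0 ≤ ((q : ℤ) + 5) * (((q : ℤ) - 1) * (q + 4)) * x :=
          mul_nonneg (mul_nonneg (by positivity) (mul_nonneg (by linarith) (by positivity))) x0
        have h6 : 0 ≤ (q : ℤ) * zv := mul_nonneg hq0 zz0
        linarith

theorem a_nonneg (a : ℕ → ℕ → ℤ) (h01 : a 0 1 = 1) (h0 : ∀ n : ℕ, 1 < n → a 0 n = 0)
    (hz : ∀ i n : ℕ, n < 2 * i → a i n = 0)
    (hrec : ∀ i n : ℕ, 1 ≤ i → 1 ≤ n →
        a i (n + 1) = (i : ℤ) * a i n + ((n : ℤ) - 2 * (i : ℤ) + 2) * a (i - 1) n) :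
    ∀ n, 1 ≤ n → ∀ i, 0 ≤ a i n := by
  intro n hn
  induction n, hn using Nat.le_induction with
  | base =>
    intro i
    rcases Nat.eq_zero_or_pos i with hi | hi
    · rw [hi, h01]; norm_num
    · rw [hz i 1 (by omega)]
  | succ n hn ih =>
    intro i
    rcases Nat.eq_zero_or_pos i with hi | hi
    · rw [hi, h0 (n + 1) (by omega)]
    · rcases Nat.lt_or_ge (n + 1) (2 * i) with h | h
      · rw [hz i (n + 1) h]
      · rw [hrec i n hi hn]
        have h1 := ih i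
        have h2 := ih (i - 1)
        have h3 : (0 : ℤ) ≤ (n : ℤ) - 2 * (i : ℤ) + 2 := by
          have : (2 : ℤ) * (i : ℤ) ≤ (n : ℤ) + 1 := by exact_mod_cast h
          linarith
        have := mul_nonneg h3 h2
        positivity

/-- For the integer sequences a_i(n) and b_i(n) fixed by the given recurrences and initial conditions, b_i(n) ≤ a_i(2n) holds for every n and every i with 2 ≤ i ≤ n. -/
theorem result :
  ∀ a b : ℕ → ℕ → ℤ,
    a 0 1 = 1 → a 1 2 = 1 →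
    (∀ n : ℕ, 1 < n → a 0 n = 0) →
    (∀ i n : ℕ, n < 2 * i → a i n = 0) →
    (∀ i n : ℕ, 1 ≤ i → 1 ≤ n →
        a i (n + 1) = (i : ℤ) * a i n + ((n : ℤ) - 2 * (i : ℤ) + 2) * a (i - 1) n) →
    (∀ n : ℕ, 2 ≤ n → b 2 n = 1) →
    (∀ i n : ℕ, ¬ (2 ≤ i ∧ i ≤ n) → b i n = 0) →
    (∀ i n : ℕ, 3 ≤ i → i ≤ n →
        b i n = ∑ k ∈ Finset.range (i + 1),
          ((Nat.choose (2 * n - 2 * i + k) k : ℕ) : ℤ) *
            ∑ r ∈ Finset.Icc 1 (i / 2),
              (-1 : ℤ) ^ (r - 1) * ((Nat.choose (i - k) (i - 2 * r) : ℕ) : ℤ) * b (i - k) (n - r)) →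
    ∀ n i : ℕ, 2 ≤ i → i ≤ n → b i n ≤ a i (2 * n) := by
  intro a b h01 h12 ha0 haz harec hb2 hbz hbrec
  have hb0 : ∀ n, b 0 n = 0 := fun n => hbz 0 n (by omega)
  have hmain := main b hb0 hbz hb2 hbrec
  have hapos := a_nonneg a h01 ha0 haz harec
  -- strengthened claim: all indices
  have key : ∀ n, 2 ≤ n → ∀ i, b i n ≤ a i (2 * n) := by
    intro n hn
    induction n, hn using Nat.le_induction with
    | base =>
      intro i
      by_cases h : 2 ≤ i ∧ i ≤ 2
      · have hi : i = 2 := by omega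
        subst hi
        have e1 := harec 2 3 (by omega) (by omega)
        have e2 := harec 1 2 (by omega) (by omega)
        have e3 : a 2 3 = 0 := haz 2 3 (by omega)
        norm_num [h12, e3, ha0 2 (by omega)] at e1 e2
        rw [hb2 2 le_rfl, show 2 * 2 = 4 from rfl, e1, e2]
      · rw [hbz i 2 h]
        exact hapos _ (by omega) i
    | succ n hn ih =>
      intro i
      by_cases h : 2 ≤ i ∧ i ≤ n + 1
      · obtain ⟨h2, hin⟩ := h
        have hU := ((hmain (n + 1)).2.1 (by omega) i).2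
        refine le_trans hU ?_
        unfold T1
        rw [Nat.add_sub_cancel]
        have r1 := harec i (2 * n + 1) (by omega) (by omega)
        have r2 := harec i (2 * n) (by omega) (by omega)
        have r3 := harec (i - 1) (2 * n) (by omega) (by omega)
        rw [show 2 * (n + 1) = 2 * n + 1 + 1 by ring, r1, r2, r3]
        have i1 := ih i
        have i2 := ih (i - 1)
        have i3 := ih (i - 2)
        have p1 := hapos (2 * n) (by omega) i
        have p2 := hapos (2 * n) (by omega) (i - 1)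
        have p3 := hapos (2 * n) (by omega) (i - 2)
        rw [show i - 1 - 1 = i - 2 by omega]
        obtain ⟨u, rfl⟩ : ∃ u, i = u + 2 := ⟨i - 2, by omega⟩
        obtain ⟨d, rfl⟩ : ∃ d, n = u + 1 + d := ⟨n - (u + 1), by omega⟩
        have g1 : 2 * (u + 1 + d) + 1 + 1 + 1 - 2 * (u + 2) = 2 * d + 1 := by omega
        have g2 : 2 * (u + 1 + d) + 1 + 1 + 2 - 2 * (u + 2) = 2 * d + 2 := by omega
        have g3 : u + 2 - 1 = u + 1 := by omega
        have g4 : u + 2 - 2 = u := by omega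
        rw [g1, g2, g3, g4]
        rw [g3] at i2 p2
        rw [g4] at i3 p3
        have c1 : (2 : ℤ) * (Nat.choose (u + 2) 2 : ℤ) = (u + 2) * (u + 1) := by
          have := ch2 u; exact_mod_cast this
        have c2 : (2 : ℤ) * (Nat.choose (2 * d + 2) 2 : ℤ) = (2 * d + 2) * (2 * d + 1) := by
          have := ch2 (2 * d); exact_mod_cast this
        generalize (Nat.choose (u + 2) 2 : ℤ) = C1 at *
        generalize (Nat.choose (2 * d + 2) 2 : ℤ) = C2 at *
        generalize a (u + 2) (2 * (u + 1 + d)) = A1 at *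
        generalize a (u + 1) (2 * (u + 1 + d)) = A2 at *
        generalize a u (2 * (u + 1 + d)) = A3 at *
        generalize b (u + 2) (u + 1 + d) = B1 at *
        generalize b (u + 1) (u + 1 + d) = B2 at *
        generalize b u (u + 1 + d) = B3 at *
        have hu0 : (0 : ℤ) ≤ (u : ℤ) := by positivity
        have hd0 : (0 : ℤ) ≤ (d : ℤ) := by positivity
        have hC1 : 0 ≤ C1 := by
          have : (0 : ℤ) ≤ (u + 2) * (u + 1) := by positivity
          linarith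
        have hC2 : 0 ≤ C2 := by
          have : (0 : ℤ) ≤ (2 * d + 2) * (2 * d + 1) := by positivity
          linarith
        have m1 : 0 ≤ C1 * (A1 - B1) := mul_nonneg hC1 (by linarith)
        have m2 : 0 ≤ ((2 * (d : ℤ) + 1) * (u + 1)) * (A2 - B2) := mul_nonneg (by positivity) (by linarith)
        have m3 : 0 ≤ C2 * (A3 - B3) := mul_nonneg hC2 (by linarith)
        have e1 : 2 * C1 * A1 = ((u : ℤ) + 2) * (u + 1) * A1 := by rw [c1]
        have e2 : 2 * C2 * A3 = (2 * (d : ℤ) + 2) * (2 * d + 1) * A3 := by rw [c2]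
        have n1 : 0 ≤ ((u : ℤ) + 2) * (u + 3) * A1 := mul_nonneg (by positivity) p1
        have n2 : 0 ≤ ((u : ℤ) + 2) * (2 * d) * A2 := mul_nonneg (by positivity) p2
        have n3 : 0 ≤ (2 * (d : ℤ) + 2) * (2 * d + 1) * A3 := mul_nonneg (by positivity) p3
        push_cast
        linarith
      · rw [hbz i (n + 1) h]
        exact hapos _ (by omega) i
  intro n i h2 hin
  exact key n (by omega) i

end Pool.Agent.S07027
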