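import Pool.Statements.S07220
-- import your own Pool.Agent.* helpers here

set_option autoImplicit false
open Pool Pool.MP_a94970_co

namespace Pool.Agent.S07220

open Finset

open Classical in
/-- number of elements of `P` below `2^K` in the `j`-block of `x` -/
noncomputable def c (K j : ℕ) (P : ℕ → Prop) (x : ℕ) : ℕ :=
  ((range (2 ^ K)).filter (fun h => P h ∧ h / 2 ^ j = x / 2 ^ j)).card

/-- number of `x` whose `j`-block contains exactly one element of `P` -/
noncomputable def u (K j : ℕ) (P : ℕ → Prop) : ℕ :=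
  ∑ x ∈ range (2 ^ K), if c K j P x = 1 then 1 else 0

noncomputable def F (K : ℕ) (P : ℕ → Prop) : ℕ := ∑ j ∈ range (K + 1), u K j P

theorem split {K j : ℕ} (hj : j ≤ K) : 2 ^ K = 2 ^ (K - j) * 2 ^ j := by
  rw [← pow_add]; congr 1; omega

theorem div_lt {K j x : ℕ} (hj : j ≤ K) : x / 2 ^ j < 2 ^ (K - j) ↔ x < 2 ^ K := by
  rw [Nat.div_lt_iff_lt_mul (by positivity), ← split hj]

theorem add_div {K j : ℕ} (hj : j ≤ K) (x : ℕ) : (x + 2 ^ K) / 2 ^ j = x / 2 ^ j + 2 ^ (K - j) := by
  rw [split hj, Nat.add_mul_div_right _ _ (by positivity)]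

theorem c_low {K j : ℕ} (hj : j ≤ K) (P : ℕ → Prop) {x : ℕ} (hx : x < 2 ^ K) :
    c (K + 1) j P x = c K j P x := by
  unfold c
  congr 1
  ext h
  simp only [mem_filter, mem_range]
  constructor
  · rintro ⟨h1, h2, h3⟩
    refine ⟨?_, h2, h3⟩
    rw [← div_lt hj, h3, div_lt hj]
    exact hx
  · rintro ⟨h1, h2, h3⟩
    refine ⟨?_, h2, h3⟩
    rw [pow_succ]; omega

theorem c_high {K j : ℕ} (hj : j ≤ K) (P : ℕ → Prop) {y : ℕ} :
    c (K + 1) j P (2 ^ K + y) = c K j (fun h => P (h + 2 ^ K)) y := by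
  classical
  unfold c
  have key : ((range (2 ^ (K + 1))).filter (fun h => P h ∧ h / 2 ^ j = (2 ^ K + y) / 2 ^ j)) =
      ((range (2 ^ K)).filter (fun h => P (h + 2 ^ K) ∧ h / 2 ^ j = y / 2 ^ j)).image
        (fun g => g + 2 ^ K) := by
    ext h
    simp only [mem_filter, mem_range, mem_image]
    rw [add_comm (2 ^ K) y, add_div hj]
    constructor
    · rintro ⟨h1, h2, h3⟩
      have h4 : 2 ^ K ≤ h := by
        by_contra hc
        push Not at hc
        have h6 := (div_lt hj).mpr hc
        have h5 : 2 ^ (K - j) ≤ y / 2 ^ j + 2 ^ (K - j) := Nat.le_add_left _ _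
        rw [← h3] at h5
        exact absurd h6 (not_lt.mpr h5)
      refine ⟨h - 2 ^ K, ⟨?_, ?_, ?_⟩, by omega⟩
      · rw [pow_succ] at h1; omega
      · rwa [Nat.sub_add_cancel h4]
      · have h5 := add_div hj (h - 2 ^ K)
        rw [Nat.sub_add_cancel h4] at h5
        omega
    · rintro ⟨g, ⟨h1, h2, h3⟩, rfl⟩
      refine ⟨?_, h2, ?_⟩
      · rw [pow_succ]; omega
      · rw [add_div hj, h3]
  have h2 := card_image_of_injective
    ((range (2 ^ K)).filter (fun h => P (h + 2 ^ K) ∧ h / 2 ^ j = y / 2 ^ j))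
    (add_left_injective (2 ^ K))
  rw [← h2]
  convert congrArg card key using 2

theorem u_succ {K j : ℕ} (hj : j ≤ K) (P : ℕ → Prop) :
    u (K + 1) j P = u K j P + u K j (fun h => P (h + 2 ^ K)) := by
  unfold u
  have h1 : 2 ^ (K + 1) = 2 ^ K + 2 ^ K := by ring
  rw [h1, sum_range_add]
  congr 1
  · apply sum_congr rfl
    intro x hx
    rw [c_low hj P (mem_range.mp hx)]
  · apply sum_congr rfl
    intro x _
    rw [c_high hj P]

theorem F_zero {K : ℕ} {P : ℕ → Prop} (h : ∀ x < 2 ^ K, ¬ P x) : F K P = 0 := by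
  classical
  unfold F u
  apply sum_eq_zero
  intro j _
  apply sum_eq_zero
  intro x _
  have : c K j P x = 0 := by
    unfold c
    rw [card_eq_zero, filter_eq_empty_iff]
    intro y hy
    exact fun h' => h y (mem_range.mp hy) h'.1
  rw [this]; simp

theorem F_succ (K : ℕ) (P : ℕ → Prop) :
    F (K + 1) P = F K P + F K (fun h => P (h + 2 ^ K)) + u (K + 1) (K + 1) P := by
  unfold F
  rw [sum_range_succ, ← sum_add_distrib]
  congr 1
  apply sum_congr rfl
  intro j hj
  exact u_succ (by have := mem_range.mp hj; omega) P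

theorem F_le (K : ℕ) : ∀ P : ℕ → Prop, F K P + 1 ≤ 2 ^ (K + 1) := by
  classical
  induction K with
  | zero =>
    intro P
    unfold F u
    simp only [zero_add, range_one, sum_singleton, pow_zero, pow_one]
    split_ifs <;> omega
  | succ K ih =>
    intro P
    rw [F_succ]
    have h0 := ih P
    have h1 := ih (fun h => P (h + 2 ^ K))
    have h2 : 2 ^ (K + 1 + 1) = 2 ^ (K + 1) + 2 ^ (K + 1) := by ring
    have h3 : 2 ^ (K + 1) = 2 ^ K + 2 ^ K := by ring
    by_cases hu : u (K + 1) (K + 1) P = 0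
    · rw [hu]; omega
    · -- exactly one element
      have hle : u (K + 1) (K + 1) P ≤ 2 ^ (K + 1) := by
        unfold u
        calc ∑ x ∈ range (2 ^ (K + 1)), (if c (K + 1) (K + 1) P x = 1 then 1 else 0)
            ≤ ∑ x ∈ range (2 ^ (K + 1)), 1 := by
              apply sum_le_sum; intro x _; split_ifs <;> omega
          _ = 2 ^ (K + 1) := by simp
      obtain ⟨x, hx, hx1⟩ : ∃ x ∈ range (2 ^ (K + 1)), c (K + 1) (K + 1) P x = 1 := by
        by_contra hc
        push Not at hc
        apply hu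
        unfold u
        apply sum_eq_zero
        intro x hx
        rw [if_neg (hc x hx)]
      unfold c at hx1
      rw [card_eq_one] at hx1
      obtain ⟨a, ha⟩ := hx1
      have hall : ∀ y, y < 2 ^ (K + 1) → P y → y = a := by
        intro y hy hP
        have : y ∈ (range (2 ^ (K + 1))).filter (fun h => P h ∧ h / 2 ^ (K + 1) = x / 2 ^ (K + 1)) := by
          rw [mem_filter]
          refine ⟨mem_range.mpr hy, hP, ?_⟩
          rw [Nat.div_eq_of_lt hy, Nat.div_eq_of_lt (mem_range.mp hx)]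
        rw [ha] at this
        exact mem_singleton.mp this
      by_cases hlow : a < 2 ^ K
      · have : F K (fun h => P (h + 2 ^ K)) = 0 := F_zero (fun y hy hP => by
          have := hall (y + 2 ^ K) (by omega) hP
          omega)
        omega
      · have : F K P = 0 := F_zero (fun y hy hP => by
          have := hall y (by omega) hP
          omega)
        omega

/-- the vertices -/
abbrev V (K : ℕ) : Type := Fin (2 ^ K) ⊕ (Fin (K + 1) × Fin (2 ^ K))

def adj (K : ℕ) : V K → V K → Prop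
  | Sum.inl h, Sum.inr p => h.1 / 2 ^ p.1.1 = p.2.1 / 2 ^ p.1.1
  | Sum.inr p, Sum.inl h => h.1 / 2 ^ p.1.1 = p.2.1 / 2 ^ p.1.1
  | _, _ => False

def G (K : ℕ) : SimpleGraph (V K) where
  Adj := adj K
  symm := by
    constructor
    rintro (a | a) (b | b) h
    · exact h
    · exact h
    · exact h
    · exact h
  loopless := by
    constructor
    rintro (a | a) h
    · exact h
    · exact h

theorem conn (K : ℕ) : (G K).Connected := by
  have h0 : 0 < 2 ^ K := by positivity
  let r : V K := Sum.inr (⟨K, by omega⟩, ⟨0, h0⟩)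
  have h1 : ∀ h : Fin (2 ^ K), (G K).Reachable r (Sum.inl h) := by
    intro h
    apply SimpleGraph.Adj.reachable
    show h.1 / 2 ^ K = 0 / 2 ^ K
    rw [Nat.div_eq_of_lt h.2, Nat.zero_div]
  have h2 : ∀ v, (G K).Reachable r v := by
    rintro (h | ⟨j, x⟩)
    · exact h1 h
    · refine (h1 x).trans ?_
      apply SimpleGraph.Adj.reachable
      show x.1 / 2 ^ j.1 = x.1 / 2 ^ j.1
      rfl
  exact { preconnected := fun v w => (h2 v).symm.trans (h2 w), nonempty := ⟨r⟩ }

/-- The negation of the preceding statement: Every connected finite simple graph on n ≥ 3 vertices has a 0/1/2 labelling where each 0-vertex has exactly one neighbour labelled 2, with total label sum at most 4n/5. -/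
theorem result :
    ¬ (∀ (V : Type) [Fintype V] (G : SimpleGraph V),
      G.Connected → 3 ≤ Fintype.card V →
      ∃ f : V → ℕ, (∀ v, f v ≤ 2) ∧
        (∀ v, f v = 0 → ∃! u, G.Adj v u ∧ f u = 2) ∧
        5 * (∑ v, f v) ≤ 4 * Fintype.card V) := by
  classical
  intro H
  obtain ⟨K, hK⟩ : ∃ K, K = 20 := ⟨20, rfl⟩
  obtain ⟨N, hN⟩ : ∃ N, N = 2 ^ K := ⟨_, rfl⟩
  have hN0 : 0 < N := by rw [hN]; positivity
  have hcard : Fintype.card (V K) = N + (K + 1) * N := by
    rw [Fintype.card_sum, Fintype.card_prod, Fintype.card_fin, Fintype.card_fin, hN]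
  obtain ⟨f, hf2, hf0, hsum⟩ := H (V K) (G K) (conn K) (by rw [hcard]; nlinarith)
  rw [hcard, Fintype.sum_sum_type, Fintype.sum_prod_type] at hsum
  let P : ℕ → Prop := fun h => ∃ hh : h < 2 ^ K, f (Sum.inl ⟨h, hh⟩) = 2
  have hkey : ∀ (j : Fin (K + 1)) (x : Fin (2 ^ K)),
      1 ≤ f (Sum.inr (j, x)) + (if c K j P x = 1 then 1 else 0) := by
    intro j x
    by_cases h0 : f (Sum.inr (j, x)) = 0
    · have h1 : c K j P x = 1 := by
        obtain ⟨w, ⟨hw1, hw2⟩, hw3⟩ := hf0 _ h0
        rcases w with h | p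
        · unfold c
          rw [card_eq_one]
          refine ⟨h.1, ?_⟩
          ext g
          simp only [mem_filter, mem_range, mem_singleton]
          constructor
          · rintro ⟨hg1, ⟨hg2, hg3⟩, hg4⟩
            have := hw3 (Sum.inl ⟨g, hg2⟩) ⟨hg4, hg3⟩
            have := Sum.inl.inj this
            exact congrArg Fin.val this
          · rintro rfl
            exact ⟨h.2, ⟨h.2, hw2⟩, hw1⟩
        · exact absurd hw1 (fun h => h)
      rw [if_pos h1]; omega
    · omega
  have hU : ∑ j : Fin (K + 1), ∑ x : Fin (2 ^ K), (if c K j P x = 1 then 1 else 0) = F K P := by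
    unfold F u
    rw [← Fin.sum_univ_eq_sum_range (fun j => ∑ x ∈ range (2 ^ K), if c K j P x = 1 then 1 else 0)]
    apply sum_congr rfl
    intro j _
    exact Fin.sum_univ_eq_sum_range (fun x => if c K j P x = 1 then 1 else 0) (2 ^ K)
  have hF := F_le K P
  have hlow : (K + 1) * N ≤ ∑ j : Fin (K + 1), ∑ x : Fin (2 ^ K), f (Sum.inr (j, x)) + F K P := by
    rw [← hU, ← sum_add_distrib]
    calc (K + 1) * N = ∑ j : Fin (K + 1), ∑ x : Fin (2 ^ K), 1 := by
          simp [hN]
      _ ≤ _ := by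
          apply sum_le_sum
          intro j _
          rw [← sum_add_distrib]
          apply sum_le_sum
          intro x _
          exact hkey j x
  have hF2 : F K P + 1 ≤ 2 * N := by
    rw [hN]; rw [pow_succ] at hF; omega
  subst hK
  clear hN hcard hf0 hU hkey
  have h9 : 0 ≤ ∑ a : Fin (2 ^ 20), f (Sum.inl a) := Nat.zero_le _
  generalize (∑ a : Fin (2 ^ 20), f (Sum.inl a)) = S1 at *
  generalize (∑ j : Fin (20 + 1), ∑ x : Fin (2 ^ 20), f (Sum.inr (j, x))) = S2 at *
  omega

end Pool.Agent.S07220
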