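import Pool.Statements.S07343
import Pool.Agent.Skel.Basic

set_option autoImplicit false
open Pool Pool.MP_b0e7a9_co

namespace Pool.Agent.S07343

/-- For a nondegenerate d-simplex with vertices in the closed unit ball, 0 ≤ k < d, and x in the simplex: if the open ball of radius ρ at x misses every k-face, then ρ ≤ sqrt((d-k)/(d(k+1))). -/
theorem result :
    ∀ (d k : ℕ), 0 < d → k < d →
    ∀ (p : Fin (d + 1) → EuclideanSpace ℝ (Fin d)), AffineIndependent ℝ p →
    (∀ i, ‖p i‖ ≤ 1) →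
    ∀ (x : EuclideanSpace ℝ (Fin d)), x ∈ convexHull ℝ (Set.range p) →
    ∀ ρ : ℝ,
      Disjoint (Metric.ball x ρ)
        (⋃ (s : Finset (Fin (d + 1))) (_ : s.card = k + 1), convexHull ℝ (p '' (s : Set (Fin (d + 1))))) →
      ρ ≤ Real.sqrt (((d : ℝ) - (k : ℝ)) / ((d : ℝ) * ((k : ℝ) + 1))) := by
  intro d k hd hk p hp hnorm x hx ρ hdisj
  rcases le_or_gt ρ 0 with hρ | hρ
  · exact hρ.trans (Real.sqrt_nonneg _)
  -- weights of x
  have hx' : ∃ l : Fin (d + 1) → ℝ, (∀ i, 0 ≤ l i) ∧ ∑ i, l i = 1 ∧ ∑ i, l i • p i = x := by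
    rw [← Set.image_univ, ← Finset.coe_univ, ← Finset.coe_image] at hx
    have hinj : Function.Injective p := hp.injective
    rw [Finset.mem_convexHull'] at hx
    obtain ⟨w, hw0, hw1, hw2⟩ := hx
    refine ⟨fun i => w (p i), fun i => hw0 _ (Finset.mem_image_of_mem _ (Finset.mem_univ _)), ?_, ?_⟩
    · rw [← hw1, Finset.sum_image (fun a _ b _ h => hinj h)]
    · rw [← hw2, Finset.sum_image (fun a _ b _ h => hinj h)]
  obtain ⟨l, hl0, hl1, hlx⟩ := hx'
  have hdR : (0 : ℝ) < d := by exact_mod_cast hd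
  have hkR : (k : ℝ) < d := by exact_mod_cast hk
  -- points of the skeleton are far
  have hfar : ∀ μ : Fin (d + 1) → ℝ, (∀ i, 0 ≤ μ i) → ∑ i, μ i = 1 →
      (Finset.univ.filter (fun i => μ i ≠ 0)).card ≤ k + 1 → ρ ^ 2 ≤ ‖∑ i, μ i • p i - x‖ ^ 2 := by
    intro μ hμ0 hμ1 hμc
    obtain ⟨s, hs1, hs2⟩ := Finset.exists_superset_card_eq (n := k + 1) hμc (by simp; omega)
    have hsupp : ∀ i, i ∉ s → μ i = 0 := by
      intro i hi
      by_contra h
      exact hi (hs1 (Finset.mem_filter.2 ⟨Finset.mem_univ _, h⟩))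
    have hmem : ∑ i, μ i • p i ∈ convexHull ℝ (p '' (s : Set (Fin (d + 1)))) := by
      have h1 : ∑ i, μ i • p i = ∑ i ∈ s, μ i • p i := by
        symm
        apply Finset.sum_subset (Finset.subset_univ _)
        intro i _ hi
        rw [hsupp i hi, zero_smul]
      have h2 : ∑ i ∈ s, μ i = 1 := by
        rw [← hμ1]
        apply Finset.sum_subset (Finset.subset_univ _)
        intro i _ hi
        exact hsupp i hi
      rw [h1]
      exact (convex_convexHull ℝ _).sum_mem (fun i _ => hμ0 i) h2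
        (fun i hi => subset_convexHull ℝ _ ⟨i, hi, rfl⟩)
    have hnot : ∑ i, μ i • p i ∉ Metric.ball x ρ := by
      intro h
      refine Set.disjoint_left.1 hdisj h ?_
      simp only [Set.mem_iUnion]
      exact ⟨s, hs2, hmem⟩
    rw [Metric.mem_ball, not_lt, dist_eq_norm] at hnot
    exact pow_le_pow_left₀ hρ.le hnot 2
  have hσ : ∑ i, l i * ‖p i - ∑ j, l j • p j‖ ^ 2 ≤ 1 := by
    rw [Pool.Agent.Skel.sigma_eq p l hl1]
    have h1 : ∑ i, l i * ‖p i‖ ^ 2 ≤ ∑ i, l i * 1 := by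
      refine Finset.sum_le_sum (fun i _ => mul_le_mul_of_nonneg_left ?_ (hl0 i))
      exact pow_le_one₀ (norm_nonneg _) (hnorm i)
    simp only [mul_one, hl1] at h1
    have := sq_nonneg ‖∑ j, l j • p j‖
    linarith
  have hσ0 : 0 ≤ ∑ i, l i * ‖p i - ∑ j, l j • p j‖ ^ 2 :=
    Finset.sum_nonneg (fun i _ => mul_nonneg (hl0 i) (sq_nonneg _))
  apply Real.le_sqrt_of_sq_le
  rcases Nat.eq_zero_or_pos k with hk0 | hk0
  · -- vertices
    subst hk0
    have h1 : ∀ i, ρ ^ 2 ≤ ‖p i - x‖ ^ 2 := by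
      intro i
      have := hfar (fun j => if j = i then 1 else 0) (fun j => by split_ifs <;> norm_num)
        (by simp) (by
          refine (Finset.card_le_card (t := {i}) ?_).trans (by simp)
          intro j hj
          simpa using hj)
      simpa using this
    have h2 : ρ ^ 2 ≤ ∑ i, l i * ‖p i - ∑ j, l j • p j‖ ^ 2 := by
      rw [hlx]
      calc ρ ^ 2 = ∑ i, l i * ρ ^ 2 := by rw [← Finset.sum_mul, hl1, one_mul]
        _ ≤ _ := Finset.sum_le_sum (fun i _ => mul_le_mul_of_nonneg_left (h1 i) (hl0 i))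
    have h3 : ((d : ℝ) - ((0 : ℕ) : ℝ)) / ((d : ℝ) * (((0 : ℕ) : ℝ) + 1)) = 1 := by
      push_cast
      field_simp
      ring
    rw [h3]
    exact h2.trans hσ
  · have h1 := Pool.Agent.Skel.skel (k + 1) (by omega) (d + 1) (Fin (d + 1)) (by simp) (by omega)
      p hp x (ρ ^ 2) hfar l hl0 hl1
    have h2 : Pool.Agent.Skel.cc (d + 1) (k + 1) =
        ((d : ℝ) - (k : ℝ)) / ((d : ℝ) * ((k : ℝ) + 1)) := by
      rw [Pool.Agent.Skel.cc]
      push_cast
      congr 1 <;> ring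
    rw [h2] at h1
    rw [hlx] at h1 hσ hσ0
    simp only [sub_self, norm_zero] at h1
    have h3 : 0 ≤ ((d : ℝ) - (k : ℝ)) / ((d : ℝ) * ((k : ℝ) + 1)) := by
      apply div_nonneg
      · linarith
      · positivity
    calc ρ ^ 2 ≤ 0 ^ 2 + ((d : ℝ) - (k : ℝ)) / ((d : ℝ) * ((k : ℝ) + 1)) *
          ∑ i, l i * ‖p i - x‖ ^ 2 := h1
      _ ≤ 0 ^ 2 + ((d : ℝ) - (k : ℝ)) / ((d : ℝ) * ((k : ℝ) + 1)) * 1 := by
          have := mul_le_mul_of_nonneg_left hσ h3
          linarith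
      _ = _ := by ring

end Pool.Agent.S07343
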