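import Pool.Statements.S07557
import Pool.Agent.HypDeg.Final

set_option autoImplicit false
open Pool Pool.MP_bd7745_co

namespace Pool.Agent.S07557

/-- For k = 3 and k = 4: among all k-uniform hypergraphs on n labelled vertices, the fraction having two distinct vertices of equal degree tends to 1 as n → ∞. -/
theorem result :
    ∀ k : ℕ, (k = 3 ∨ k = 4) →
      Filter.Tendsto
        (fun n : ℕ =>
          ((((Finset.univ : Finset (Fin n)).powersetCard k).powerset.filter
              (fun H => ∃ v w : Fin n, v ≠ w ∧
                (H.filter (fun e => v ∈ e)).card = (H.filter (fun e => w ∈ e)).card)).card : ℝ)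
            / ((((Finset.univ : Finset (Fin n)).powersetCard k).powerset.card : ℝ)))
        Filter.atTop (nhds 1) := by
  intro k hk
  obtain ⟨j, hj, rfl⟩ : ∃ j, (j = 2 ∨ j = 3) ∧ k = j + 1 := by
    rcases hk with rfl | rfl
    · exact ⟨2, Or.inl rfl, rfl⟩
    · exact ⟨3, Or.inr rfl, rfl⟩
  refine (Pool.Agent.HypDeg.main j hj).congr ?_
  intro n
  unfold Pool.Agent.HypDeg.B Pool.Agent.HypDeg.Good
  rw [Finset.card_powerset (Pool.Agent.HypDeg.EE n (j + 1))]
  push_cast
  rfl

end Pool.Agent.S07557
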