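import Pool.Statements.S07922
-- import your own Pool.Agent.* helpers here

set_option autoImplicit false
open Pool Pool.MP_d26300_co

namespace Pool.Agent.S07922

open Matrix Polynomial

/-- parent function of the nonsingular tree (spur star) -/
def pT : Fin 12 → Fin 12 := ![0, 0, 0, 0, 0, 0, 1, 2, 3, 4, 5, 0]
/-- parent function of the singular tree (branches of length 5, 3, 3) -/
def pS : Fin 12 → Fin 12 := ![0, 0, 1, 2, 3, 4, 0, 6, 7, 0, 9, 10]

def tr (p : Fin 12 → Fin 12) : SimpleGraph (Fin 12) where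
  Adj a b := a ≠ b ∧ (p a = b ∨ p b = a)
  symm := by
    constructor
    rintro a b ⟨h1, h2⟩
    exact ⟨h1.symm, h2.symm⟩
  loopless := by
    constructor
    rintro a ⟨h1, _⟩
    exact h1 rfl

instance (p : Fin 12 → Fin 12) : DecidableRel (tr p).Adj := fun a b => by
  unfold tr; infer_instance

theorem tr_conn (p : Fin 12 → Fin 12) (hp : ∀ a, a ≠ 0 → p a < a) : (tr p).Connected := by
  have h : ∀ n : ℕ, ∀ a : Fin 12, a.1 ≤ n → (tr p).Reachable 0 a := by
    intro n
    induction n with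
    | zero =>
      intro a ha
      have : a = 0 := Fin.ext (by simpa using ha)
      rw [this]
    | succ n ih =>
      intro a ha
      by_cases h0 : a = 0
      · rw [h0]
      · have h1 := hp a h0
        refine (ih (p a) (by have := Fin.lt_def.mp h1; omega)).trans ?_
        apply SimpleGraph.Adj.reachable
        exact ⟨ne_of_lt h1, Or.inr rfl⟩
  exact { preconnected := fun v w => (h 12 v (by omega)).symm.trans (h 12 w (by omega)),
          nonempty := ⟨0⟩ }

theorem tree_T : (tr pT).IsTree := by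
  rw [SimpleGraph.isTree_iff_connected_and_card]
  refine ⟨tr_conn _ (by decide), ?_⟩
  rw [Nat.card_eq_fintype_card, Nat.card_eq_fintype_card, ← SimpleGraph.edgeFinset_card]
  decide +kernel

theorem tree_S : (tr pS).IsTree := by
  rw [SimpleGraph.isTree_iff_connected_and_card]
  refine ⟨tr_conn _ (by decide), ?_⟩
  rw [Nat.card_eq_fintype_card, Nat.card_eq_fintype_card, ← SimpleGraph.edgeFinset_card]
  decide +kernel

/-- eigenvector gives root -/
theorem mem_roots {M : Matrix (Fin 12) (Fin 12) ℝ} {x : ℝ} {v : Fin 12 → ℝ} (hv : v ≠ 0)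
    (h : M *ᵥ v = x • v) : x ∈ M.charpoly.roots := by
  rw [Polynomial.mem_roots (Matrix.charpoly_monic M).ne_zero, Polynomial.IsRoot.def,
    Matrix.eval_charpoly, ← Matrix.exists_mulVec_eq_zero_iff]
  refine ⟨v, hv, ?_⟩
  rw [Matrix.sub_mulVec, h]
  ext i
  simp [Matrix.scalar_apply, Matrix.mulVec_diagonal]

theorem trace_pow {M : Matrix (Fin 12) (Fin 12) ℝ} (hM : M.IsHermitian) (k : ℕ) :
    (M ^ k).trace = ∑ i, (hM.eigenvalues i) ^ k := by
  conv_lhs => rw [hM.spectral_theorem]
  rw [← map_pow, Unitary.conjStarAlgAut_apply, Matrix.trace_mul_comm, ← mul_assoc]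
  simp [Matrix.diagonal_pow, Matrix.trace_diagonal]

theorem vec_of_root {M : Matrix (Fin 12) (Fin 12) ℝ} {x : ℝ} (h : x ∈ M.charpoly.roots) :
    ∃ v : Fin 12 → ℝ, v ≠ 0 ∧ M *ᵥ v = x • v := by
  rw [Polynomial.mem_roots (Matrix.charpoly_monic M).ne_zero, Polynomial.IsRoot.def,
    Matrix.eval_charpoly, ← Matrix.exists_mulVec_eq_zero_iff] at h
  obtain ⟨v, hv, h⟩ := h
  refine ⟨v, hv, ?_⟩
  rw [Matrix.sub_mulVec, sub_eq_zero] at h
  rw [← h]
  ext i
  simp [Matrix.scalar_apply]

/-- integer adjacency matrix of the spur star -/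
def AT : Matrix (Fin 12) (Fin 12) ℤ := fun i j => if (tr pT).Adj i j then 1 else 0

def q : Fin 12 → Fin 12 := ![11, 6, 7, 8, 9, 10, 1, 2, 3, 4, 5, 0]

/-- its inverse -/
def BT : Matrix (Fin 12) (Fin 12) ℤ := fun i j =>
  if q i = j then 1 else if 6 ≤ i ∧ 6 ≤ j ∧ (tr pT).Adj (q i) (q j) then -1 else 0

theorem AB : AT * BT = 1 := by
  have h : ∀ i j, (∑ k, AT i k * BT k j) = if i = j then 1 else 0 := by decide +kernel
  ext i j
  rw [Matrix.mul_apply, h, Matrix.one_apply]

theorem tr2 : (AT ^ 2).trace = 22 := by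
  have h : (∑ i, ∑ k, AT i k * AT k i) = 22 := by decide +kernel
  rw [pow_two, Matrix.trace]
  simpa [Matrix.mul_apply] using h

theorem tr4 : (AT ^ 4).trace = 102 := by
  have h : (∑ i, ∑ j, (∑ k, AT i k * AT k j) * (∑ k, AT j k * AT k i)) = 102 := by decide +kernel
  have h4 : AT ^ 4 = (AT * AT) * (AT * AT) := by noncomm_ring
  rw [h4, Matrix.trace]
  simpa [Matrix.mul_apply] using h

theorem MT_eq : (tr pT).adjMatrix ℝ = (Int.castRingHom ℝ).mapMatrix AT := by
  ext i j
  simp only [SimpleGraph.adjMatrix_apply, RingHom.mapMatrix_apply, Matrix.map_apply, AT]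
  split_ifs <;> simp

theorem trR (k : ℕ) : (((tr pT).adjMatrix ℝ) ^ k).trace = (((AT ^ k).trace : ℤ) : ℝ) := by
  rw [MT_eq, ← map_pow]
  simp [Matrix.trace]

theorem detR : |((tr pT).adjMatrix ℝ).det| = 1 := by
  rw [MT_eq, ← RingHom.map_det]
  have h := congrArg Matrix.det AB
  rw [Matrix.det_mul, Matrix.det_one] at h
  rcases Int.isUnit_iff.mp (IsUnit.of_mul_eq_one _ h) with h1 | h1 <;> rw [h1] <;> simp

theorem herm (p : Fin 12 → Fin 12) : ((tr p).adjMatrix ℝ).IsHermitian := by
  rw [Matrix.IsHermitian, Matrix.conjTranspose_eq_transpose_of_trivial,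
    SimpleGraph.transpose_adjMatrix]

theorem annT {v : Fin 12 → ℝ} {x : ℝ} (hv : v ≠ 0)
    (h : ((tr pT).adjMatrix ℝ) *ᵥ v = x • v) : (x ^ 2 - 1) * (x ^ 4 - 7 * x ^ 2 + 1) = 0 := by
  have h0 := congrFun h 0
  rw [SimpleGraph.adjMatrix_mulVec_apply,
    show (tr pT).neighborFinset 0 = {1, 2, 3, 4, 5, 11} by decide] at h0
  have h1 := congrFun h 1
  rw [SimpleGraph.adjMatrix_mulVec_apply,
    show (tr pT).neighborFinset 1 = {0, 6} by decide] at h1
  have h2 := congrFun h 2
  rw [SimpleGraph.adjMatrix_mulVec_apply,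
    show (tr pT).neighborFinset 2 = {0, 7} by decide] at h2
  have h3 := congrFun h 3
  rw [SimpleGraph.adjMatrix_mulVec_apply,
    show (tr pT).neighborFinset 3 = {0, 8} by decide] at h3
  have h4 := congrFun h 4
  rw [SimpleGraph.adjMatrix_mulVec_apply,
    show (tr pT).neighborFinset 4 = {0, 9} by decide] at h4
  have h5 := congrFun h 5
  rw [SimpleGraph.adjMatrix_mulVec_apply,
    show (tr pT).neighborFinset 5 = {0, 10} by decide] at h5
  have h6 := congrFun h 6
  rw [SimpleGraph.adjMatrix_mulVec_apply,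
    show (tr pT).neighborFinset 6 = {1} by decide] at h6
  have h7 := congrFun h 7
  rw [SimpleGraph.adjMatrix_mulVec_apply,
    show (tr pT).neighborFinset 7 = {2} by decide] at h7
  have h8 := congrFun h 8
  rw [SimpleGraph.adjMatrix_mulVec_apply,
    show (tr pT).neighborFinset 8 = {3} by decide] at h8
  have h9 := congrFun h 9
  rw [SimpleGraph.adjMatrix_mulVec_apply,
    show (tr pT).neighborFinset 9 = {4} by decide] at h9
  have h10 := congrFun h 10
  rw [SimpleGraph.adjMatrix_mulVec_apply,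
    show (tr pT).neighborFinset 10 = {5} by decide] at h10
  have h11 := congrFun h 11
  rw [SimpleGraph.adjMatrix_mulVec_apply,
    show (tr pT).neighborFinset 11 = {0} by decide] at h11
  simp only [Pi.smul_apply, smul_eq_mul, Finset.sum_singleton] at h0 h1 h2 h3 h4 h5 h6 h7 h8 h9 h10 h11
  rw [Finset.sum_insert (by decide), Finset.sum_insert (by decide), Finset.sum_insert (by decide), Finset.sum_insert (by decide), Finset.sum_insert (by decide), Finset.sum_singleton] at h0
  rw [Finset.sum_insert (by decide), Finset.sum_singleton] at h1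
  rw [Finset.sum_insert (by decide), Finset.sum_singleton] at h2
  rw [Finset.sum_insert (by decide), Finset.sum_singleton] at h3
  rw [Finset.sum_insert (by decide), Finset.sum_singleton] at h4
  rw [Finset.sum_insert (by decide), Finset.sum_singleton] at h5
  by_cases hx : x ^ 2 - 1 = 0
  · rw [hx, zero_mul]
  have e : ∀ a b c : ℝ, c + b = x * a → a = x * b → (x ^ 2 - 1) * b = c := by
    intro a b c h1 h2
    rw [h2] at h1
    linear_combination -h1
  have b6 := e _ _ _ h1 h6
  have b7 := e _ _ _ h2 h7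
  have b8 := e _ _ _ h3 h8
  have b9 := e _ _ _ h4 h9
  have b10 := e _ _ _ h5 h10
  have key : (x ^ 4 - 7 * x ^ 2 + 1) * v 0 = 0 := by
    have : x * ((x ^ 2 - 1) * (v 1 + (v 2 + (v 3 + (v 4 + (v 5 + v 11)))))) = x * ((x ^ 2 - 1) * (x * v 0)) := by
      rw [h0]
    rw [h6, h7, h8, h9, h10] at this
    linear_combination -this + x ^ 2 * (b6 + b7 + b8 + b9 + b10) - (x ^ 2 - 1) * h11
  rcases mul_eq_zero.mp key with h' | h'
  · rw [h', mul_zero]
  · exfalso
    apply hv
    have z : ∀ b : ℝ, (x ^ 2 - 1) * b = v 0 → b = 0 := by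
      intro b hb
      rw [h'] at hb
      exact (mul_eq_zero.mp hb).resolve_left hx
    have z6 := z _ b6
    have z7 := z _ b7
    have z8 := z _ b8
    have z9 := z _ b9
    have z10 := z _ b10
    have z1 : v 1 = 0 := by rw [h6, z6, mul_zero]
    have z2 : v 2 = 0 := by rw [h7, z7, mul_zero]
    have z3 : v 3 = 0 := by rw [h8, z8, mul_zero]
    have z4 : v 4 = 0 := by rw [h9, z9, mul_zero]
    have z5 : v 5 = 0 := by rw [h10, z10, mul_zero]
    have z11 : v 11 = 0 := by
      rw [z1, z2, z3, z4, z5, h'] at h0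
      linarith
    ext i
    fin_cases i <;> simp [z1, z2, z3, z4, z5, z6, z7, z8, z9, z10, z11, h']

theorem abs_formula {x : ℝ} (h : (x ^ 2 - 1) * (x ^ 4 - 7 * x ^ 2 + 1) = 0) :
    |x| = (-x ^ 4 + 12 * x ^ 2 + 4) / 15 := by
  have hx : x ^ 2 = |x| ^ 2 := (sq_abs x).symm
  have hx4 : x ^ 4 = |x| ^ 4 := by
    calc x ^ 4 = (x ^ 2) ^ 2 := by ring
      _ = (|x| ^ 2) ^ 2 := by rw [hx]
      _ = |x| ^ 4 := by ring
  have h0 := abs_nonneg x
  rw [hx, hx4] at h ⊢
  generalize |x| = y at *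
  rcases mul_eq_zero.mp h with h1 | h1
  · have : y = 1 := by nlinarith
    rw [this]; norm_num
  · have h2 : (y ^ 2 + 1 - 3 * y) * (y ^ 2 + 1 + 3 * y) = 0 := by linear_combination h1
    have h3 : y ^ 2 + 1 + 3 * y ≠ 0 := by positivity
    have h4 := (mul_eq_zero.mp h2).resolve_right h3
    linear_combination (-1/15 : ℝ) * h1 * (-1) - (1/3 : ℝ) * h4

theorem sumT : (((tr pT).adjMatrix ℝ).charpoly.roots.map (fun x : ℝ => |x|)).sum = 14 := by
  have hM := herm pT
  have hr := hM.roots_charpoly_eq_eigenvalues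
  have h1 : (((tr pT).adjMatrix ℝ).charpoly.roots.map (fun x : ℝ => |x|)).sum =
      ∑ i, |hM.eigenvalues i| := by
    rw [hr, Multiset.map_map]
    rfl
  have h2 : ∀ i, |hM.eigenvalues i| =
      (-(hM.eigenvalues i) ^ 4 + 12 * (hM.eigenvalues i) ^ 2 + 4) / 15 := by
    intro i
    apply abs_formula
    have : hM.eigenvalues i ∈ ((tr pT).adjMatrix ℝ).charpoly.roots := by
      rw [hr]
      exact Multiset.mem_map.mpr ⟨i, Finset.mem_univ i, rfl⟩
    obtain ⟨v, hv, h⟩ := vec_of_root this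
    exact annT hv h
  rw [h1, Finset.sum_congr rfl (fun i _ => h2 i), ← Finset.sum_div, Finset.sum_add_distrib,
    Finset.sum_add_distrib, Finset.sum_neg_distrib, ← Finset.mul_sum, ← trace_pow hM, ← trace_pow hM,
    trR, trR, tr2, tr4]
  simp
  norm_num

theorem prodT : (((tr pT).adjMatrix ℝ).charpoly.roots.map (fun x : ℝ => |x|)).prod = 1 := by
  have hM := herm pT
  have hr := hM.roots_charpoly_eq_eigenvalues
  have h1 : (((tr pT).adjMatrix ℝ).charpoly.roots.map (fun x : ℝ => |x|)).prod =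
      ∏ i, |hM.eigenvalues i| := by
    rw [hr, Multiset.map_map]
    rfl
  rw [h1, ← Finset.abs_prod]
  have := hM.det_eq_prod_eigenvalues
  have h2 : (∏ i, hM.eigenvalues i) = ((tr pT).adjMatrix ℝ).det := by
    rw [this]; simp
  rw [h2, detR]

/-- equations for the singular tree -/
theorem eqS {v : Fin 12 → ℝ} {x : ℝ}
    (h0 : v 1 + v 6 + v 9 = x * v 0)
    (h1 : v 0 + v 2 = x * v 1)
    (h2 : v 1 + v 3 = x * v 2)
    (h3 : v 2 + v 4 = x * v 3)
    (h4 : v 3 + v 5 = x * v 4)
    (h5 : v 4 = x * v 5)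
    (h6 : v 0 + v 7 = x * v 6)
    (h7 : v 6 + v 8 = x * v 7)
    (h8 : v 7 = x * v 8)
    (h9 : v 0 + v 10 = x * v 9)
    (h10 : v 9 + v 11 = x * v 10)
    (h11 : v 10 = x * v 11) :
    ((tr pS).adjMatrix ℝ) *ᵥ v = x • v := by
  ext i
  rw [SimpleGraph.adjMatrix_mulVec_apply, Pi.smul_apply, smul_eq_mul]
  fin_cases i
  · show ∑ u ∈ (tr pS).neighborFinset 0, v u = x * v 0
    rw [show (tr pS).neighborFinset 0 = {1, 6, 9} by decide, Finset.sum_insert (by decide), Finset.sum_insert (by decide), Finset.sum_singleton]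
    linarith
  · show ∑ u ∈ (tr pS).neighborFinset 1, v u = x * v 1
    rw [show (tr pS).neighborFinset 1 = {0, 2} by decide, Finset.sum_insert (by decide), Finset.sum_singleton]
    linarith
  · show ∑ u ∈ (tr pS).neighborFinset 2, v u = x * v 2
    rw [show (tr pS).neighborFinset 2 = {1, 3} by decide, Finset.sum_insert (by decide), Finset.sum_singleton]
    linarith
  · show ∑ u ∈ (tr pS).neighborFinset 3, v u = x * v 3
    rw [show (tr pS).neighborFinset 3 = {2, 4} by decide, Finset.sum_insert (by decide), Finset.sum_singleton]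
    linarith
  · show ∑ u ∈ (tr pS).neighborFinset 4, v u = x * v 4
    rw [show (tr pS).neighborFinset 4 = {3, 5} by decide, Finset.sum_insert (by decide), Finset.sum_singleton]
    linarith
  · show ∑ u ∈ (tr pS).neighborFinset 5, v u = x * v 5
    rw [show (tr pS).neighborFinset 5 = {4} by decide, Finset.sum_singleton]
    linarith
  · show ∑ u ∈ (tr pS).neighborFinset 6, v u = x * v 6
    rw [show (tr pS).neighborFinset 6 = {0, 7} by decide, Finset.sum_insert (by decide), Finset.sum_singleton]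
    linarith
  · show ∑ u ∈ (tr pS).neighborFinset 7, v u = x * v 7
    rw [show (tr pS).neighborFinset 7 = {6, 8} by decide, Finset.sum_insert (by decide), Finset.sum_singleton]
    linarith
  · show ∑ u ∈ (tr pS).neighborFinset 8, v u = x * v 8
    rw [show (tr pS).neighborFinset 8 = {7} by decide, Finset.sum_singleton]
    linarith
  · show ∑ u ∈ (tr pS).neighborFinset 9, v u = x * v 9
    rw [show (tr pS).neighborFinset 9 = {0, 10} by decide, Finset.sum_insert (by decide), Finset.sum_singleton]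
    linarith
  · show ∑ u ∈ (tr pS).neighborFinset 10, v u = x * v 10
    rw [show (tr pS).neighborFinset 10 = {9, 11} by decide, Finset.sum_insert (by decide), Finset.sum_singleton]
    linarith
  · show ∑ u ∈ (tr pS).neighborFinset 11, v u = x * v 11
    rw [show (tr pS).neighborFinset 11 = {10} by decide, Finset.sum_singleton]
    linarith

theorem rootS {x : ℝ} (hg : x ^ 8 - 9 * x ^ 6 + 26 * x ^ 4 - 27 * x ^ 2 + 8 = 0)
    (hne : x ^ 3 - 2 * x ≠ 0) : x ∈ ((tr pS).adjMatrix ℝ).charpoly.roots := by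
  let t : ℝ := x ^ 3 - 2 * x
  let u : ℝ := x ^ 5 - 4 * x ^ 3 + 3 * x
  have ht : t = x ^ 3 - 2 * x := rfl
  have hu : u = x ^ 5 - 4 * x ^ 3 + 3 * x := rfl
  apply mem_roots (v := ![t * u, (x ^ 4 - 3 * x ^ 2 + 1) * t, (x ^ 3 - 2 * x) * t, (x ^ 2 - 1) * t,
    x * t, t, (x ^ 2 - 1) * u, x * u, u, (x ^ 2 - 1) * u, x * u, u])
  · intro h
    have := congrFun h 5
    exact hne this
  · apply eqS
    · show (x ^ 4 - 3 * x ^ 2 + 1) * t + (x ^ 2 - 1) * u + (x ^ 2 - 1) * u = x * (t * u)
      rw [ht, hu]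
      linear_combination (-x) * hg
    · show t * u + (x ^ 3 - 2 * x) * t = x * ((x ^ 4 - 3 * x ^ 2 + 1) * t)
      rw [hu]; ring
    · show (x ^ 4 - 3 * x ^ 2 + 1) * t + (x ^ 2 - 1) * t = x * ((x ^ 3 - 2 * x) * t)
      ring
    · show (x ^ 3 - 2 * x) * t + x * t = x * ((x ^ 2 - 1) * t)
      ring
    · show (x ^ 2 - 1) * t + t = x * (x * t)
      ring
    · show x * t = x * t
      rfl
    · show t * u + x * u = x * ((x ^ 2 - 1) * u)
      rw [ht]; ring
    · show (x ^ 2 - 1) * u + u = x * (x * u)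
      ring
    · show x * u = x * u
      rfl
    · show t * u + x * u = x * ((x ^ 2 - 1) * u)
      rw [ht]; ring
    · show (x ^ 2 - 1) * u + u = x * (x * u)
      ring
    · show x * u = x * u
      rfl

theorem rootS' {x : ℝ} (hg : x ^ 3 - 2 * x = 0) : x ∈ ((tr pS).adjMatrix ℝ).charpoly.roots := by
  apply mem_roots (v := ![0, 0, 0, 0, 0, 0, x ^ 2 - 1, x, 1, -(x ^ 2 - 1), -x, -1])
  · intro h
    have := congrFun h 8
    exact one_ne_zero this
  · apply eqS
    · show (0 : ℝ) + (x ^ 2 - 1) + -(x ^ 2 - 1) = x * 0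
      ring
    · show (0 : ℝ) + 0 = x * 0
      ring
    · show (0 : ℝ) + 0 = x * 0
      ring
    · show (0 : ℝ) + 0 = x * 0
      ring
    · show (0 : ℝ) + 0 = x * 0
      ring
    · show (0 : ℝ) = x * 0
      ring
    · show (0 : ℝ) + x = x * (x ^ 2 - 1)
      linear_combination -hg
    · show (x ^ 2 - 1) + 1 = x * x
      ring
    · show x = x * 1
      ring
    · show (0 : ℝ) + -x = x * -(x ^ 2 - 1)
      linear_combination hg
    · show -(x ^ 2 - 1) + -1 = x * -x
      ring
    · show -x = x * -1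
      ring

theorem sum_ge (R : Multiset ℝ) (F : Finset ℝ) (h : ∀ x ∈ F, x ∈ R) :
    ∑ x ∈ F, |x| ≤ (R.map (fun x : ℝ => |x|)).sum := by
  have h1 : F.val ≤ R := (Multiset.le_iff_subset F.nodup).mpr h
  obtain ⟨R', rfl⟩ := Multiset.le_iff_exists_add.mp h1
  rw [Multiset.map_add, Multiset.sum_add]
  have h2 : 0 ≤ (R'.map (fun x : ℝ => |x|)).sum := by
    apply Multiset.sum_nonneg
    intro x hx
    obtain ⟨y, _, rfl⟩ := Multiset.mem_map.mp hx
    exact abs_nonneg y
  have h3 : ∑ x ∈ F, |x| = (F.val.map (fun x : ℝ => |x|)).sum := rfl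
  rw [h3]; linarith

theorem ivt {a b : ℝ} (hab : a ≤ b)
    (h : (a ^ 8 - 9 * a ^ 6 + 26 * a ^ 4 - 27 * a ^ 2 + 8) * (b ^ 8 - 9 * b ^ 6 + 26 * b ^ 4 - 27 * b ^ 2 + 8) ≤ 0) :
    ∃ x, a ≤ x ∧ x ≤ b ∧ x ^ 8 - 9 * x ^ 6 + 26 * x ^ 4 - 27 * x ^ 2 + 8 = 0 := by
  let f : ℝ → ℝ := fun x => x ^ 8 - 9 * x ^ 6 + 26 * x ^ 4 - 27 * x ^ 2 + 8
  have hf : ContinuousOn f (Set.Icc a b) := by
    apply Continuous.continuousOn; fun_prop
  rcases mul_nonpos_iff.mp h with ⟨h1, h2⟩ | ⟨h1, h2⟩
  · obtain ⟨x, hx, hx'⟩ := intermediate_value_Icc' hab hf ⟨h2, h1⟩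
    exact ⟨x, hx.1, hx.2, hx'⟩
  · obtain ⟨x, hx, hx'⟩ := intermediate_value_Icc hab hf ⟨h1, h2⟩
    exact ⟨x, hx.1, hx.2, hx'⟩

theorem sumS : 14 ≤ (((tr pS).adjMatrix ℝ).charpoly.roots.map (fun x : ℝ => |x|)).sum := by
  obtain ⟨x1, a1, b1, g1⟩ := ivt (a := 0.70) (b := 0.71) (by norm_num) (by norm_num)
  obtain ⟨x2, a2, b2, g2⟩ := ivt (a := 1.145) (b := 1.15) (by norm_num) (by norm_num)
  obtain ⟨x3, a3, b3, g3⟩ := ivt (a := 1.68) (b := 1.69) (by norm_num) (by norm_num)
  obtain ⟨x4, a4, b4, g4⟩ := ivt (a := 2.08) (b := 2.09) (by norm_num) (by norm_num)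
  obtain ⟨r, hr⟩ : ∃ r, r = Real.sqrt 2 := ⟨_, rfl⟩
  have hr2 : r ^ 2 = 2 := by rw [hr]; exact Real.sq_sqrt (by norm_num)
  have hr0 : 0 ≤ r := by rw [hr]; exact Real.sqrt_nonneg _
  have hr1 : 1.41 ≤ r := by nlinarith
  have hr3 : r ≤ 1.42 := by nlinarith
  let f : Fin 10 → ℝ := ![-x4, -x3, -r, -x2, -x1, x1, x2, r, x3, x4]
  have hmono : StrictMono f := by
    rw [Fin.strictMono_iff_lt_succ]
    intro i
    fin_cases i
    · show -x4 < -x3
      norm_num at *; linarith
    · show -x3 < -r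
      norm_num at *; linarith
    · show -r < -x2
      norm_num at *; linarith
    · show -x2 < -x1
      norm_num at *; linarith
    · show -x1 < x1
      norm_num at *; linarith
    · show x1 < x2
      norm_num at *; linarith
    · show x2 < r
      norm_num at *; linarith
    · show r < x3
      norm_num at *; linarith
    · show x3 < x4
      norm_num at *; linarith
  have ne : ∀ y : ℝ, y ^ 2 < 1.99 ∨ 2.01 < y ^ 2 → 0.1 < y → y ^ 3 - 2 * y ≠ 0 := by
    intro y hy hy0 h
    have h1 : y * (y ^ 2 - 2) = 0 := by linear_combination h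
    rcases mul_eq_zero.mp h1 with h2 | h2
    · norm_num at hy0; linarith
    · rcases hy with hy | hy <;> norm_num at hy <;> linarith
  have ne1 := ne x1 (Or.inl (by nlinarith)) (by linarith)
  have ne2 := ne x2 (Or.inl (by nlinarith)) (by linarith)
  have ne3 := ne x3 (Or.inr (by nlinarith)) (by linarith)
  have ne4 := ne x4 (Or.inr (by nlinarith)) (by linarith)
  have hroot : ∀ i, f i ∈ ((tr pS).adjMatrix ℝ).charpoly.roots := by
    have hneg : ∀ y : ℝ, y ^ 8 - 9 * y ^ 6 + 26 * y ^ 4 - 27 * y ^ 2 + 8 = 0 → y ^ 3 - 2 * y ≠ 0 →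
        -y ∈ ((tr pS).adjMatrix ℝ).charpoly.roots := by
      intro y h1 h2
      apply rootS
      · linear_combination h1
      · intro h; apply h2; linear_combination -h
    intro i
    fin_cases i
    · exact hneg x4 g4 ne4
    · exact hneg x3 g3 ne3
    · exact rootS' (x := -r) (by linear_combination (-r) * hr2)
    · exact hneg x2 g2 ne2
    · exact hneg x1 g1 ne1
    · exact rootS g1 ne1
    · exact rootS g2 ne2
    · exact rootS' (x := r) (by linear_combination r * hr2)
    · exact rootS g3 ne3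
    · exact rootS g4 ne4
  refine le_trans ?_ (sum_ge _ (Finset.univ.map ⟨f, hmono.injective⟩) ?_)
  · rw [Finset.sum_map]
    show 14 ≤ ∑ x : Fin 10, |f x|
    have p1 : |x1| = x1 := abs_of_nonneg (by norm_num at a1; linarith)
    have p2 : |x2| = x2 := abs_of_nonneg (by norm_num at a2; linarith)
    have p3 : |x3| = x3 := abs_of_nonneg (by norm_num at a3; linarith)
    have p4 : |x4| = x4 := abs_of_nonneg (by norm_num at a4; linarith)
    have p5 : |r| = r := abs_of_nonneg hr0
    have hs : ∑ x : Fin 10, |f x| = |-x4| + |-x3| + |-r| + |-x2| + |-x1| + |x1| + |x2| + |r| + |x3| + |x4| := by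
      simp only [Fin.sum_univ_succ, Fin.sum_univ_zero]
      show |-x4| + (|-x3| + (|-r| + (|-x2| + (|-x1| + (|x1| + (|x2| + (|r| + (|x3| + (|x4| + 0))))))))) = _
      ring
    rw [hs]
    simp only [abs_neg, p1, p2, p3, p4, p5]
    norm_num at *
    linarith
  · intro x hx
    obtain ⟨i, _, rfl⟩ := Finset.mem_map.mp hx
    exact hroot i

theorem prodS : (((tr pS).adjMatrix ℝ).charpoly.roots.map (fun x : ℝ => |x|)).prod = 0 := by
  apply Multiset.prod_eq_zero
  rw [Multiset.mem_map]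
  exact ⟨0, rootS' (by norm_num), abs_zero⟩

/-- The negation of the preceding statement: For trees T, S on the same even number of vertices: if the product of absolute adjacency eigenvalues is 1 for T and 0 for S, then the sum of absolute eigenvalues (energy) of T is strictly larger than that of S. -/
theorem result :
    ¬ (∀ (n : ℕ) (T S : SimpleGraph (Fin n)) [DecidableRel T.Adj] [DecidableRel S.Adj],
      Even n → T.IsTree → S.IsTree →
      ((T.adjMatrix ℝ).charpoly.roots.map (fun x : ℝ => |x|)).prod = 1 →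
      ((S.adjMatrix ℝ).charpoly.roots.map (fun x : ℝ => |x|)).prod = 0 →
      ((S.adjMatrix ℝ).charpoly.roots.map (fun x : ℝ => |x|)).sum <
        ((T.adjMatrix ℝ).charpoly.roots.map (fun x : ℝ => |x|)).sum) := by
  intro H
  have h := H 12 (tr pT) (tr pS) (by decide) tree_T tree_S prodT prodS
  rw [sumT] at h
  exact absurd sumS (not_le.mpr h)

end Pool.Agent.S07922
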