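import Pool.Statements.S08118

set_option autoImplicit false
open Pool Pool.MP_de7a81_co

namespace Pool.Agent.S08118

def msk (i : Fin 10) : ℕ := ![162, 549, 778, 116, 168, 27, 136, 849, 132, 134] i

/-- A `K_{2,3}`-free graph on ten vertices with `m = 5` and `b = 3`. -/
def G : SimpleGraph (Fin 10) where
  Adj i j := Nat.testBit (msk i) j.val = true
  symm := by
    have h : ∀ i j : Fin 10, Nat.testBit (msk i) j.val = true → Nat.testBit (msk j) i.val = true := by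
      decide +kernel
    exact ⟨h⟩
  loopless := by
    have h : ∀ i : Fin 10, ¬ Nat.testBit (msk i) i.val = true := by decide +kernel
    exact ⟨h⟩

instance : DecidableRel G.Adj := fun i j => by unfold G; infer_instance

set_option synthInstance.maxSize 100000 in
set_option synthInstance.maxHeartbeats 4000000 in
set_option maxRecDepth 100000 in
theorem no4 : ∀ c7 : Fin 4, ∀ c0 : Fin 4, (c0 ≠ c7) → ∀ c1 : Fin 4, (c1 ≠ c0) → ∀ c5 : Fin 4, (c5 ≠ c0 ∧ c5 ≠ c1) → ∀ c9 : Fin 4, (c9 ≠ c7 ∧ c9 ≠ c1) → ∀ c2 : Fin 4, (c2 ≠ c1 ∧ c2 ≠ c9) → ∀ c3 : Fin 4, (c3 ≠ c5 ∧ c3 ≠ c2) → ∀ c4 : Fin 4, (c4 ≠ c7 ∧ c4 ≠ c5 ∧ c4 ≠ c3) → ∀ c8 : Fin 4, (c8 ≠ c7 ∧ c8 ≠ c2) → ∀ c6 : Fin 4, (c6 ≠ c7 ∧ c6 ≠ c3) → ¬ ∀ i : Fin 4, ((c0 = i ∧ ∀ j : Fin 4, j ≠ i → (c1 = j ∨ c5 = j ∨ c7 = j)) ∨ (c1 = i ∧ ∀ j : Fin 4, j ≠ i → (c0 = j ∨ c2 = j ∨ c5 = j ∨ c9 = j)) ∨ (c2 = i ∧ ∀ j : Fin 4, j ≠ i → (c1 = j ∨ c3 = j ∨ c8 = j ∨ c9 = j)) ∨ (c3 = i ∧ ∀ j : Fin 4, j ≠ i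 → (c2 = j ∨ c4 = j ∨ c5 = j ∨ c6 = j)) ∨ (c4 = i ∧ ∀ j : Fin 4, j ≠ i → (c3 = j ∨ c5 = j ∨ c7 = j)) ∨ (c5 = i ∧ ∀ j : Fin 4, j ≠ i → (c0 = j ∨ c1 = j ∨ c3 = j ∨ c4 = j)) ∨ (c7 = i ∧ ∀ j : Fin 4, j ≠ i → (c0 = j ∨ c4 = j ∨ c6 = j ∨ c8 = j ∨ c9 = j)) ∨ (c9 = i ∧ ∀ j : Fin 4, j ≠ i → (c1 = j ∨ c2 = j ∨ c7 = j))) := by
  decide +kernel

def Nb (v : Fin 10) : Finset (Fin 10) := Finset.univ.filter (fun w => G.Adj v w)

theorem K23 : ∀ a b : Fin 10, a ≠ b → ∀ x, G.Adj a x → G.Adj b x → ∀ y, G.Adj a y → G.Adj b y → y ≠ x →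
    ∀ z, G.Adj a z → G.Adj b z → z ≠ x → z = y := by
  decide +kernel

theorem nb4 : ∀ v : Fin 10, 4 ≤ (Nb v).card → v ∈ ({1, 2, 3, 5, 7} : Finset (Fin 10)) := by
  decide +kernel

theorem nb1 : ∀ w : Fin 10, G.Adj 1 w → w = 0 ∨ w = 2 ∨ w = 5 ∨ w = 9 := by
  decide +kernel

theorem deg5 : 5 ≤ (Finset.univ.filter (fun v : Fin 10 => 5 - 1 ≤ G.degree v)).card := by
  decide +kernel

set_option synthInstance.maxSize 100000 in
set_option synthInstance.maxHeartbeats 4000000 in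
set_option maxRecDepth 100000 in
theorem nb_list : ∀ v w : Fin 10, G.Adj v w →
    (v = 0 ∧ (w = 1 ∨ w = 5 ∨ w = 7)) ∨
    (v = 1 ∧ (w = 0 ∨ w = 2 ∨ w = 5 ∨ w = 9)) ∨
    (v = 2 ∧ (w = 1 ∨ w = 3 ∨ w = 8 ∨ w = 9)) ∨
    (v = 3 ∧ (w = 2 ∨ w = 4 ∨ w = 5 ∨ w = 6)) ∨
    (v = 4 ∧ (w = 3 ∨ w = 5 ∨ w = 7)) ∨
    (v = 5 ∧ (w = 0 ∨ w = 1 ∨ w = 3 ∨ w = 4)) ∨
    (v = 6 ∧ (w = 3 ∨ w = 7)) ∨
    (v = 7 ∧ (w = 0 ∨ w = 4 ∨ w = 6 ∨ w = 8 ∨ w = 9)) ∨
    (v = 8 ∧ (w = 2 ∨ w = 7)) ∨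
    (v = 9 ∧ (w = 1 ∨ w = 2 ∨ w = 7)) := by
  decide +kernel

def BCol (k : ℕ) (c : Fin 10 → Fin k) : Prop :=
  (∀ u v : Fin 10, G.Adj u v → c u ≠ c v) ∧
    ∀ i : Fin k, ∃ v : Fin 10, c v = i ∧ ∀ j : Fin k, j ≠ i → ∃ w : Fin 10, G.Adj v w ∧ c w = j

theorem A (i j : Fin 10) (h : Nat.testBit (msk i) j.val = true) : G.Adj i j := h

theorem case4 (c : Fin 10 → Fin 4) (h : BCol 4 c) : False := by
  obtain ⟨h1, h2⟩ := h
  refine no4 (c 7) (c 0) (h1 _ _ (A _ _ (by decide +kernel))) (c 1) (h1 _ _ (A _ _ (by decide +kernel)))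
    (c 5) ⟨h1 _ _ (A _ _ (by decide +kernel)), h1 _ _ (A _ _ (by decide +kernel))⟩
    (c 9) ⟨h1 _ _ (A _ _ (by decide +kernel)), h1 _ _ (A _ _ (by decide +kernel))⟩
    (c 2) ⟨h1 _ _ (A _ _ (by decide +kernel)), h1 _ _ (A _ _ (by decide +kernel))⟩
    (c 3) ⟨h1 _ _ (A _ _ (by decide +kernel)), h1 _ _ (A _ _ (by decide +kernel))⟩
    (c 4) ⟨h1 _ _ (A _ _ (by decide +kernel)), h1 _ _ (A _ _ (by decide +kernel)),
      h1 _ _ (A _ _ (by decide +kernel))⟩
    (c 8) ⟨h1 _ _ (A _ _ (by decide +kernel)), h1 _ _ (A _ _ (by decide +kernel))⟩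
    (c 6) ⟨h1 _ _ (A _ _ (by decide +kernel)), h1 _ _ (A _ _ (by decide +kernel))⟩ ?_
  intro i
  obtain ⟨v, hv, hw⟩ := h2 i
  have hw' : ∀ j : Fin 4, j ≠ i → ∃ w : Fin 10, G.Adj v w ∧ c w = j := hw
  -- v has at least three neighbours
  have hcard : 3 ≤ (Nb v).card := by
    have hsub : (Finset.univ.erase i) ⊆ (Nb v).image c := by
      intro j hj
      obtain ⟨w, hw1, hw2⟩ := hw j (Finset.ne_of_mem_erase hj)
      exact Finset.mem_image.mpr ⟨w, Finset.mem_filter.mpr ⟨Finset.mem_univ _, hw1⟩, hw2⟩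
    have h3 := (Finset.card_le_card hsub).trans Finset.card_image_le
    rw [Finset.card_erase_of_mem (Finset.mem_univ i), Finset.card_univ, Fintype.card_fin] at h3
    exact h3
  have key : ∀ v : Fin 10, 3 ≤ (Nb v).card → v = 0 ∨ v = 1 ∨ v = 2 ∨ v = 3 ∨ v = 4 ∨ v = 5 ∨ v = 7 ∨ v = 9 := by
    decide +kernel
  rcases key v hcard with rfl | rfl | rfl | rfl | rfl | rfl | rfl | rfl
  · left
    refine ⟨hv, fun j hj => ?_⟩
    obtain ⟨w, hw1, hw2⟩ := hw j hj
    have := nb_list _ _ hw1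
    simp at this
    rcases this with rfl | rfl | rfl <;> simp [hw2]
  · right; left
    refine ⟨hv, fun j hj => ?_⟩
    obtain ⟨w, hw1, hw2⟩ := hw j hj
    have := nb_list _ _ hw1
    simp at this
    rcases this with rfl | rfl | rfl | rfl <;> simp [hw2]
  · right; right; left
    refine ⟨hv, fun j hj => ?_⟩
    obtain ⟨w, hw1, hw2⟩ := hw j hj
    have := nb_list _ _ hw1
    simp at this
    rcases this with rfl | rfl | rfl | rfl <;> simp [hw2]
  · right; right; right; left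
    refine ⟨hv, fun j hj => ?_⟩
    obtain ⟨w, hw1, hw2⟩ := hw j hj
    have := nb_list _ _ hw1
    simp at this
    rcases this with rfl | rfl | rfl | rfl <;> simp [hw2]
  · right; right; right; right; left
    refine ⟨hv, fun j hj => ?_⟩
    obtain ⟨w, hw1, hw2⟩ := hw j hj
    have := nb_list _ _ hw1
    simp at this
    rcases this with rfl | rfl | rfl <;> simp [hw2]
  · right; right; right; right; right; left
    refine ⟨hv, fun j hj => ?_⟩
    obtain ⟨w, hw1, hw2⟩ := hw j hj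
    have := nb_list _ _ hw1
    simp at this
    rcases this with rfl | rfl | rfl | rfl <;> simp [hw2]
  · right; right; right; right; right; right; left
    refine ⟨hv, fun j hj => ?_⟩
    obtain ⟨w, hw1, hw2⟩ := hw j hj
    have := nb_list _ _ hw1
    simp at this
    rcases this with rfl | rfl | rfl | rfl | rfl <;> simp [hw2]
  · right; right; right; right; right; right; right
    refine ⟨hv, fun j hj => ?_⟩
    obtain ⟨w, hw1, hw2⟩ := hw j hj
    have := nb_list _ _ hw1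
    simp at this
    rcases this with rfl | rfl | rfl <;> simp [hw2]

theorem case5 (k : ℕ) (hk : 5 ≤ k) (c : Fin 10 → Fin k) (h : BCol k c) : False := by
  obtain ⟨h1, h2⟩ := h
  choose f hf hg using h2
  have hinj : Function.Injective f := by
    intro i j hij
    rw [← hf i, ← hf j, hij]
  have hmem : ∀ i, f i ∈ ({1, 2, 3, 5, 7} : Finset (Fin 10)) := by
    intro i
    apply nb4
    have hsub : (Finset.univ.erase i) ⊆ (Nb (f i)).image c := by
      intro j hj
      obtain ⟨w, hw1, hw2⟩ := hg i j (Finset.ne_of_mem_erase hj)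
      exact Finset.mem_image.mpr ⟨w, Finset.mem_filter.mpr ⟨Finset.mem_univ _, hw1⟩, hw2⟩
    have h3 := (Finset.card_le_card hsub).trans Finset.card_image_le
    rw [Finset.card_erase_of_mem (Finset.mem_univ i), Finset.card_univ, Fintype.card_fin] at h3
    omega
  have himg : Finset.univ.image f = ({1, 2, 3, 5, 7} : Finset (Fin 10)) := by
    apply Finset.eq_of_subset_of_card_le
    · intro x hx
      obtain ⟨i, -, rfl⟩ := Finset.mem_image.mp hx
      exact hmem i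
    · rw [Finset.card_image_of_injective _ hinj, Finset.card_univ, Fintype.card_fin]
      have : ({1, 2, 3, 5, 7} : Finset (Fin 10)).card = 5 := by decide
      omega
  have hsurj : ∀ t ∈ ({1, 2, 3, 5, 7} : Finset (Fin 10)), f (c t) = t := by
    intro t ht
    rw [← himg] at ht
    obtain ⟨i, -, rfl⟩ := Finset.mem_image.mp ht
    rw [hf i]
  have e1 := hsurj 1 (by decide)
  have e2 := hsurj 2 (by decide)
  have e5 := hsurj 5 (by decide)
  have e7 := hsurj 7 (by decide)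
  have hne : c 7 ≠ c 1 := by
    intro h
    rw [h, e1] at e7
    exact absurd e7 (by decide)
  obtain ⟨w, hw1, hw2⟩ := hg (c 1) (c 7) hne
  rw [e1] at hw1
  rcases nb1 w hw1 with rfl | rfl | rfl | rfl
  · exact h1 0 7 (A _ _ (by decide +kernel)) hw2
  · rw [hw2, e7] at e2
    exact absurd e2 (by decide)
  · rw [hw2, e7] at e5
    exact absurd e5 (by decide)
  · exact h1 9 7 (A _ _ (by decide +kernel)) hw2

theorem reach : ∀ v : Fin 10, G.Reachable 7 v := by
  have r0 : G.Reachable 7 0 := (A 7 0 (by decide +kernel)).reachable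
  have r4 : G.Reachable 7 4 := (A 7 4 (by decide +kernel)).reachable
  have r6 : G.Reachable 7 6 := (A 7 6 (by decide +kernel)).reachable
  have r8 : G.Reachable 7 8 := (A 7 8 (by decide +kernel)).reachable
  have r9 : G.Reachable 7 9 := (A 7 9 (by decide +kernel)).reachable
  have r1 : G.Reachable 7 1 := r0.trans (A 0 1 (by decide +kernel)).reachable
  have r5 : G.Reachable 7 5 := r0.trans (A 0 5 (by decide +kernel)).reachable
  have r2 : G.Reachable 7 2 := r8.trans (A 8 2 (by decide +kernel)).reachable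
  have r3 : G.Reachable 7 3 := r6.trans (A 6 3 (by decide +kernel)).reachable
  intro v
  fin_cases v
  · exact r0
  · exact r1
  · exact r2
  · exact r3
  · exact r4
  · exact r5
  · exact r6
  · exact SimpleGraph.Reachable.refl _
  · exact r8
  · exact r9

theorem not_exc (C : G.ConnectedComponent)
    (h : Nonempty (SimpleGraph.Iso (G.induce C.supp)
            (SimpleGraph.boxProd (SimpleGraph.cycleGraph 3) (SimpleGraph.cycleGraph 3)))) : False := by
  obtain ⟨φ⟩ := h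
  have hC : C = G.connectedComponentMk 7 := by
    induction C using SimpleGraph.ConnectedComponent.ind with
    | _ v => exact (SimpleGraph.ConnectedComponent.sound (reach v)).symm
  have hs : C.supp = Set.univ := by
    ext v
    simp only [Set.mem_univ, iff_true]
    rw [SimpleGraph.ConnectedComponent.mem_supp_iff, hC]
    exact (SimpleGraph.ConnectedComponent.sound (reach v)).symm
  have hcard := Nat.card_congr φ.toEquiv
  rw [hs] at hcard
  simp at hcard

/-- The negation of the preceding statement: Every finite K_{2,3}-free graph has a b-colouring with at least m(G)−1 colours, unless it has a component isomorphic to C3□C3 and all other components have maximum degree at most 2. -/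
theorem result :
    ¬ (∀ (V : Type) [Fintype V] [DecidableEq V] (G : SimpleGraph V) [DecidableRel G.Adj],
      (¬ ∃ f : (Fin 2 ⊕ Fin 3) → V, Function.Injective f ∧
          ∀ i j, G.Adj (f (Sum.inl i)) (f (Sum.inr j))) →
      (¬ ∃ C : G.ConnectedComponent,
          Nonempty (SimpleGraph.Iso (G.induce C.supp)
            (SimpleGraph.boxProd (SimpleGraph.cycleGraph 3) (SimpleGraph.cycleGraph 3))) ∧
          ∀ v : V, G.connectedComponentMk v ≠ C → G.degree v ≤ 2) →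
      ∀ m : ℕ, m ≤ (Finset.univ.filter (fun v : V => m - 1 ≤ G.degree v)).card →
        ∃ k : ℕ, m - 1 ≤ k ∧ ∃ c : V → Fin k,
          (∀ u v : V, G.Adj u v → c u ≠ c v) ∧
          ∀ i : Fin k, ∃ v : V, c v = i ∧
            ∀ j : Fin k, j ≠ i → ∃ w : V, G.Adj v w ∧ c w = j) := by
  intro H
  have hA : ¬ ∃ f : (Fin 2 ⊕ Fin 3) → Fin 10, Function.Injective f ∧
          ∀ i j, G.Adj (f (Sum.inl i)) (f (Sum.inr j)) := by
    rintro ⟨f, hf, hadj⟩
    have hab : f (Sum.inl 0) ≠ f (Sum.inl 1) := fun h => by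
      have := hf h
      simp at this
    have hxy : f (Sum.inr 1) ≠ f (Sum.inr 0) := fun h => by
      have := hf h
      simp at this
    have hxz : f (Sum.inr 2) ≠ f (Sum.inr 0) := fun h => by
      have := hf h
      simp at this
    have hyz : f (Sum.inr 2) ≠ f (Sum.inr 1) := fun h => by
      have := hf h
      simp at this
    exact hyz (K23 _ _ hab _ (hadj 0 0) (hadj 1 0) _ (hadj 0 1) (hadj 1 1) hxy _ (hadj 0 2) (hadj 1 2) hxz)
  have hB : ¬ ∃ C : G.ConnectedComponent,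
          Nonempty (SimpleGraph.Iso (G.induce C.supp)
            (SimpleGraph.boxProd (SimpleGraph.cycleGraph 3) (SimpleGraph.cycleGraph 3))) ∧
          ∀ v : Fin 10, G.connectedComponentMk v ≠ C → G.degree v ≤ 2 := by
    rintro ⟨C, hC, -⟩
    exact not_exc C hC
  have hH := H (Fin 10) G hA hB 5 deg5
  obtain ⟨k, hk, c, hc⟩ := hH
  rcases Nat.lt_or_ge k 5 with h | h
  · have : k = 4 := by omega
    subst this
    exact case4 c hc
  · exact case5 k h c hc

end Pool.Agent.S08118
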