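import Pool.Statements.S08204
import Mathlib

set_option autoImplicit false
open Pool Pool.MP_e2b918_co

namespace Pool.Agent.S08204

def masks : List ℕ := [5460, 1992, 4713, 6438, 3489, 1692, 4743, 6258, 3099, 6246, 2355, 1944, 717]

def adjb (u v : ℕ) : Bool := (masks.getD u 0).testBit v

def ok (l : List (ℕ × ℕ)) (k y : ℕ) : Bool :=
  l.all fun p => p.2 != y && (adjb p.1 k != adjb p.2 y)

def leaf (l : List (ℕ × ℕ)) : Bool :=
  (List.range 13).all fun x =>
    (l.lookup ((l.lookup ((l.lookup ((l.lookup x).getD 0)).getD 0)).getD 0)).getD 0 == x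

def search : ℕ → ℕ → List (ℕ × ℕ) → Bool
  | 0, _, l => leaf l
  | f + 1, k, l => (List.range 13).any fun y => ok l k y && search f (k + 1) ((k, y) :: l)

theorem search_false : search 13 0 [] = false := by decide +kernel

def tab (P : ℕ → ℕ) : ℕ → List (ℕ × ℕ)
  | 0 => []
  | k + 1 => (k, P k) :: tab P k

lemma lookup_tab (P : ℕ → ℕ) (k x : ℕ) (hx : x < k) : (tab P k).lookup x = some (P x) := by
  induction k with
  | zero => omega
  | succ k ih =>
    unfold tab
    rw [List.lookup_cons]
    by_cases h : x = k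
    · subst h; simp
    · have : (x == k) = false := by simpa using h
      rw [this]
      exact ih (by omega)

lemma mem_tab (P : ℕ → ℕ) (k : ℕ) (p : ℕ × ℕ) (hp : p ∈ tab P k) : p.1 < k ∧ p.2 = P p.1 := by
  induction k with
  | zero => simp [tab] at hp
  | succ k ih =>
    unfold tab at hp
    rcases List.mem_cons.1 hp with rfl | h
    · exact ⟨by simp, rfl⟩
    · have := ih h
      exact ⟨by omega, this.2⟩

theorem search_sound (P : ℕ → ℕ) (hlt : ∀ i < 13, P i < 13)
    (hinj : ∀ i < 13, ∀ j < 13, P i = P j → i = j)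
    (hanti : ∀ i < 13, ∀ j < 13, i ≠ j → adjb (P i) (P j) = !adjb i j)
    (h4 : ∀ i < 13, P (P (P (P i))) = i) :
    ∀ f k, f + k = 13 → search f k (tab P k) = true := by
  intro f
  induction f with
  | zero =>
    intro k hk
    obtain rfl : k = 13 := by omega
    unfold search leaf
    rw [List.all_eq_true]
    intro x hx
    rw [List.mem_range] at hx
    have h1 := hlt x hx
    have h2 := hlt _ h1
    have h3 := hlt _ h2
    rw [lookup_tab P 13 x hx, Option.getD_some, lookup_tab P 13 _ h1, Option.getD_some,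
      lookup_tab P 13 _ h2, Option.getD_some, lookup_tab P 13 _ h3, Option.getD_some, h4 x hx]
    simp
  | succ f ih =>
    intro k hk
    unfold search
    rw [List.any_eq_true]
    refine ⟨P k, List.mem_range.2 (hlt k (by omega)), ?_⟩
    rw [Bool.and_eq_true]
    refine ⟨?_, ih (k + 1) (by omega)⟩
    unfold ok
    rw [List.all_eq_true]
    intro p hp
    obtain ⟨hp1, hp2⟩ := mem_tab P k p hp
    rw [hp2]
    have hne : p.1 ≠ k := by omega
    have h1 : P p.1 ≠ P k := fun h => hne (hinj _ (by omega) _ (by omega) h)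
    have h2 := hanti p.1 (by omega) k (by omega) hne
    rw [h2]
    have h1' : (P p.1 != P k) = true := by simpa using h1
    rw [h1']
    cases adjb p.1 k <;> rfl

def G : SimpleGraph (Fin 13) where
  Adj u v := adjb u v = true
  symm := ⟨by unfold adjb; decide +kernel⟩
  loopless := ⟨by unfold adjb; decide +kernel⟩

instance : DecidableRel G.Adj := fun u v => inferInstanceAs (Decidable (adjb u v = true))

def sig : Fin 13 → Fin 13 := ![0, 2, 3, 4, 5, 6, 7, 8, 1, 10, 11, 12, 9]
def sinv : Fin 13 → Fin 13 := ![0, 8, 1, 2, 3, 4, 5, 6, 7, 12, 9, 10, 11]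

def sigE : Fin 13 ≃ Fin 13 where
  toFun := sig
  invFun := sinv
  left_inv := by unfold Function.LeftInverse; decide +kernel
  right_inv := by unfold Function.RightInverse Function.LeftInverse; decide +kernel

lemma sig_anti : ∀ u v : Fin 13, u ≠ v → adjb (sig u) (sig v) = !adjb u v := by decide +kernel

def iso : G ≃g Gᶜ where
  toEquiv := sigE
  map_rel_iff' := by
    intro u v
    rw [SimpleGraph.compl_adj]
    show (sig u ≠ sig v ∧ ¬ adjb (sig u) (sig v) = true) ↔ adjb u v = true
    by_cases huv : u = v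
    · subst huv
      constructor
      · rintro ⟨h, -⟩; exact absurd rfl h
      · intro h; exact absurd h (G.loopless.irrefl u)
    · rw [sig_anti u v huv]
      have h1 : sig u ≠ sig v := fun h => huv (sigE.injective h)
      simp [h1]

lemma regular : G.IsRegularOfDegree 6 := by
  unfold SimpleGraph.IsRegularOfDegree
  decide +kernel

theorem no4 (σ : G ≃g Gᶜ) (h4 : ∀ v, σ (σ (σ (σ v))) = v) : False := by
  let P : ℕ → ℕ := fun i => if h : i < 13 then (σ ⟨i, h⟩ : Fin 13).1 else 0
  have hP : ∀ (i : ℕ) (h : i < 13), P i = (σ ⟨i, h⟩ : Fin 13).1 := fun i h => by simp [P, h]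
  have hlt : ∀ i < 13, P i < 13 := fun i h => by rw [hP i h]; exact (σ ⟨i, h⟩).2
  have := search_sound P hlt ?_ ?_ ?_ 13 0 rfl
  · rw [show tab P 0 = [] from rfl, search_false] at this
    exact absurd this (by decide)
  · intro i hi j hj h
    rw [hP i hi, hP j hj] at h
    have := σ.injective (Fin.ext h)
    exact congrArg Fin.val this
  · intro i hi j hj hij
    rw [hP i hi, hP j hj]
    have hne : (⟨i, hi⟩ : Fin 13) ≠ ⟨j, hj⟩ := fun h => hij (congrArg Fin.val h)
    have h1 := σ.map_rel_iff (a := ⟨i, hi⟩) (b := ⟨j, hj⟩)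
    rw [SimpleGraph.compl_adj] at h1
    have hne' : σ ⟨i, hi⟩ ≠ σ ⟨j, hj⟩ := fun h => hne (σ.injective h)
    have h2 : ¬ (adjb (σ ⟨i, hi⟩ : Fin 13) (σ ⟨j, hj⟩ : Fin 13) = true) ↔ adjb i j = true := by
      constructor
      · intro h; exact h1.1 ⟨hne', h⟩
      · intro h; exact (h1.2 h).2
    cases h3 : adjb i j
    · rw [h3] at h2
      simpa using h2
    · rw [h3] at h2
      simpa using h2
  · intro i hi
    have e : ∀ (v : Fin 13), P v.1 = (σ v).1 := fun v => hP v.1 v.2
    have e0 : P i = (σ ⟨i, hi⟩ : Fin 13).1 := hP i hi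
    rw [e0, e, e, e, h4]

/-- The negation of the preceding statement: Every finite regular self-complementary graph has an isomorphism onto its complement whose permutation of the vertices has at most one fixed point, with every other vertex lying on a cycle of length exactly 4. -/
theorem result :
    ¬ (∀ (V : Type) [Fintype V] [DecidableEq V] (G : SimpleGraph V) [DecidableRel G.Adj],
      (∃ d : ℕ, G.IsRegularOfDegree d) →
      Nonempty (G ≃g Gᶜ) →
      ∃ σ : G ≃g Gᶜ,
        (∀ u v : V, σ u = u → σ v = v → u = v) ∧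
        (∀ v : V, σ v ≠ v → σ (σ v) ≠ v ∧ σ (σ (σ (σ v))) = v)) := by
  intro H
  obtain ⟨σ, -, h⟩ := H (Fin 13) G ⟨6, regular⟩ ⟨iso⟩
  apply no4 σ
  intro v
  by_cases hv : σ v = v
  · rw [hv, hv, hv, hv]
  · exact (h v hv).2

end Pool.Agent.S08204
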