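import Pool.Statements.S08237
import Pool.Agent.Helper8.SymSet

set_option autoImplicit false
open Pool Pool.MP_e5126b_co

namespace Pool.Agent.S08237

/-- For every finite group of odd order, every r > 1 and every r-coloring, some one-colored set A with A = gA⁻¹g for some g has more than ∣G∣/r² elements. -/
theorem result :
    ∀ (G : Type) [Group G] [Fintype G], Odd (Fintype.card G) →
      ∀ r : ℕ, 1 < r → ∀ χ : G → Fin r,
        ∃ (A : Finset G) (g : G) (c : Fin r),
          (∀ a ∈ A, χ a = c) ∧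
          (∀ x : G, x ∈ A ↔ g * x⁻¹ * g ∈ A) ∧
          (1 : ℝ) / ((r : ℝ) ^ 2) < (A.card : ℝ) / (Fintype.card G : ℝ) := by
  intro G _ _ hodd r hr χ
  classical
  obtain ⟨g, c, h⟩ := Pool.Agent.Helper8.SymSet.main hodd hr χ
  refine ⟨Pool.Agent.Helper8.SymSet.A χ g c, g, c, ?_,
    Pool.Agent.Helper8.SymSet.inv_mem χ g c, ?_⟩
  · intro a ha
    unfold Pool.Agent.Helper8.SymSet.A at ha
    exact (Finset.mem_filter.1 ha).2.1
  · have hN : (0 : ℝ) < (Fintype.card G : ℝ) := by
      exact_mod_cast Fintype.card_pos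
    have hr0 : (0 : ℝ) < (r : ℝ) ^ 2 := by
      have : 0 < r := by omega
      positivity
    rw [div_lt_div_iff₀ hr0 hN]
    have h2 : (Fintype.card G : ℝ) < (r : ℝ) ^ 2 *
        ((Pool.Agent.Helper8.SymSet.A χ g c).card : ℝ) := by exact_mod_cast h
    linarith

end Pool.Agent.S08237
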