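import Pool.Statements.S08338

set_option autoImplicit false
open Pool Pool.MP_ed2cb0_co

namespace Pool.Agent.S08338

/-- neighbourhood masks -/
def msk (i : Fin 9) : ℕ := ![174, 333, 91, 151, 428, 465, 294, 313, 242] i

/-- A graph on nine vertices whose slide IR-graph is the path on seven vertices. -/
def G : SimpleGraph (Fin 9) where
  Adj i j := Nat.testBit (msk i) j.val = true
  symm := by
    have h : ∀ i j : Fin 9, Nat.testBit (msk i) j.val = true → Nat.testBit (msk j) i.val = true := by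
      decide +kernel
    exact ⟨h⟩
  loopless := by
    have h : ∀ i : Fin 9, ¬ Nat.testBit (msk i) i.val = true := by decide +kernel
    exact ⟨h⟩

instance : DecidableRel G.Adj := fun i j => by unfold G; infer_instance

def Irr (D : Finset (Fin 9)) : Prop :=
  ∀ v ∈ D, ∃ w : Fin 9, (w = v ∨ G.Adj v w) ∧ ∀ u ∈ D, u ≠ v → ¬ (w = u ∨ G.Adj u w)

instance (D : Finset (Fin 9)) : Decidable (Irr D) := by unfold Irr; infer_instance

def S : Fin 7 → Finset (Fin 9) :=
  ![{0, 1, 3}, {0, 1, 2}, {0, 2, 6}, {0, 4, 6}, {4, 5, 6}, {4, 5, 8}, {4, 7, 8}]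

set_option maxRecDepth 100000 in
theorem allIrr : ∀ D : Finset (Fin 9), Irr D → D.card ≤ 3 ∧ (D.card = 3 → ∃ i, S i = D) := by
  decide +kernel

theorem S_irr : ∀ i, Irr (S i) ∧ (S i).card = 3 := by decide +kernel

theorem S_inj : ∀ i j, S i = S j → i = j := by decide +kernel

def Rel (D E : Finset (Fin 9)) : Prop :=
  ∃ u v : Fin 9, D \ E = {u} ∧ E \ D = {v} ∧ G.Adj u v

instance (D E : Finset (Fin 9)) : Decidable (Rel D E) := by unfold Rel; infer_instance

theorem adj_iff : ∀ i j : Fin 7,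
    (i ≠ j ∧ (Rel (S i) (S j) ∨ Rel (S j) (S i))) ↔ (i.val + 1 = j.val ∨ j.val + 1 = i.val) := by
  decide +kernel


def H : SimpleGraph (Fin 7) := SimpleGraph.pathGraph 7

theorem H_adj (i j : Fin 7) : H.Adj i j ↔ (i.val + 1 = j.val ∨ j.val + 1 = i.val) := by
  unfold H
  rw [SimpleGraph.pathGraph_adj]

/-- The negation of the preceding statement: Every finite connected claw-free graph isomorphic to the slide IR-graph of some finite graph G is isomorphic to a complete graph or to K_m □ K_k with m, k ≥ 2. -/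
theorem result :
    ¬ (∀ (n : ℕ) (H : SimpleGraph (Fin n)), H.Connected →
    (∀ a b c d : Fin n, H.Adj a b → H.Adj a c → H.Adj a d → b ≠ c → b ≠ d → c ≠ d →
        H.Adj b c ∨ H.Adj b d ∨ H.Adj c d) →
    (∃ (p : ℕ) (G : SimpleGraph (Fin p)),
      Nonempty (H ≃g SimpleGraph.fromRel
        (fun (D E : {D : Finset (Fin p) //
            (∀ v ∈ D, ∃ w : Fin p, (w = v ∨ G.Adj v w) ∧
                ∀ u ∈ D, u ≠ v → ¬ (w = u ∨ G.Adj u w)) ∧
            ∀ F : Finset (Fin p),
              (∀ v ∈ F, ∃ w : Fin p, (w = v ∨ G.Adj v w) ∧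
                  ∀ u ∈ F, u ≠ v → ¬ (w = u ∨ G.Adj u w)) →
              F.card ≤ D.card}) =>
          ∃ u v : Fin p, D.1 \ E.1 = {u} ∧ E.1 \ D.1 = {v} ∧ G.Adj u v))) →
    (∃ k : ℕ, Nonempty (H ≃g (⊤ : SimpleGraph (Fin k)))) ∨
    (∃ m k : ℕ, 2 ≤ m ∧ 2 ≤ k ∧
      Nonempty (H ≃g SimpleGraph.boxProd (⊤ : SimpleGraph (Fin m)) (⊤ : SimpleGraph (Fin k))))) := by
  intro hyp
  have hS : ∀ i, (∀ v ∈ S i, ∃ w : Fin 9, (w = v ∨ G.Adj v w) ∧
                ∀ u ∈ S i, u ≠ v → ¬ (w = u ∨ G.Adj u w)) ∧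
            ∀ F : Finset (Fin 9),
              (∀ v ∈ F, ∃ w : Fin 9, (w = v ∨ G.Adj v w) ∧
                  ∀ u ∈ F, u ≠ v → ¬ (w = u ∨ G.Adj u w)) →
              F.card ≤ (S i).card := by
    intro i
    refine ⟨(S_irr i).1, ?_⟩
    intro F hF
    rw [(S_irr i).2]
    exact (allIrr F hF).1
  let f : Fin 7 → {D : Finset (Fin 9) //
            (∀ v ∈ D, ∃ w : Fin 9, (w = v ∨ G.Adj v w) ∧
                ∀ u ∈ D, u ≠ v → ¬ (w = u ∨ G.Adj u w)) ∧
            ∀ F : Finset (Fin 9),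
              (∀ v ∈ F, ∃ w : Fin 9, (w = v ∨ G.Adj v w) ∧
                  ∀ u ∈ F, u ≠ v → ¬ (w = u ∨ G.Adj u w)) →
              F.card ≤ D.card} := fun i => ⟨S i, hS i⟩
  have hf : Function.Bijective f := by
    constructor
    · intro i j hij
      exact S_inj i j (congrArg Subtype.val hij)
    · rintro ⟨D, hD1, hD2⟩
      have h3 : D.card = 3 := by
        apply le_antisymm (allIrr D hD1).1
        have := hD2 (S 0) (S_irr 0).1
        rwa [(S_irr 0).2] at this
      obtain ⟨i, hi⟩ := (allIrr D hD1).2 h3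
      exact ⟨i, Subtype.ext hi⟩
  have key := hyp 7 H (SimpleGraph.pathGraph_connected 6) ?_ ⟨9, G, ⟨⟨Equiv.ofBijective f hf, ?_⟩⟩⟩
  · rcases key with ⟨k, ⟨φ⟩⟩ | ⟨m, k, hm, hk, ⟨φ⟩⟩
    · have h1 : (⊤ : SimpleGraph (Fin k)).Adj (φ 0) (φ 2) := by
        rw [SimpleGraph.top_adj]
        intro h
        have := φ.injective h
        exact absurd this (by decide)
      have h2 := φ.map_adj_iff.mp h1
      rw [H_adj] at h2
      revert h2
      decide
    · rcases hxy : φ 0 with ⟨x, y⟩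
      have hx : ∃ x' : Fin m, x' ≠ x := by
        haveI : Nontrivial (Fin m) := Fin.nontrivial_iff_two_le.mpr hm
        exact exists_ne x
      have hy : ∃ y' : Fin k, y' ≠ y := by
        haveI : Nontrivial (Fin k) := Fin.nontrivial_iff_two_le.mpr hk
        exact exists_ne y
      obtain ⟨x', hx'⟩ := hx
      obtain ⟨y', hy'⟩ := hy
      have a1 : (SimpleGraph.boxProd (⊤ : SimpleGraph (Fin m)) (⊤ : SimpleGraph (Fin k))).Adj
          (φ 0) (x', y) := by
        rw [hxy, SimpleGraph.boxProd_adj]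
        left
        exact ⟨hx'.symm, rfl⟩
      have a2 : (SimpleGraph.boxProd (⊤ : SimpleGraph (Fin m)) (⊤ : SimpleGraph (Fin k))).Adj
          (φ 0) (x, y') := by
        rw [hxy, SimpleGraph.boxProd_adj]
        right
        exact ⟨hy'.symm, rfl⟩
      have b1 : H.Adj 0 (φ.symm (x', y)) := by
        rw [← φ.map_adj_iff]
        simpa using a1
      have b2 : H.Adj 0 (φ.symm (x, y')) := by
        rw [← φ.map_adj_iff]
        simpa using a2
      rw [H_adj] at b1 b2
      have c1 : φ.symm (x', y) = φ.symm (x, y') := by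
        apply Fin.ext
        simp only [Fin.val_zero] at b1 b2
        omega
      have c2 := φ.symm.injective c1
      exact hx' (congrArg Prod.fst c2)
  · intro a b c d hab hac had hbc hbd hcd
    rw [H_adj] at hab hac had
    have e1 : b.val ≠ c.val := fun h => hbc (Fin.ext h)
    have e2 : b.val ≠ d.val := fun h => hbd (Fin.ext h)
    have e3 : c.val ≠ d.val := fun h => hcd (Fin.ext h)
    omega
  · intro i j
    rw [H_adj, ← adj_iff, SimpleGraph.fromRel_adj]
    constructor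
    · rintro ⟨h1, h2⟩
      exact ⟨fun h => h1 (congrArg f h), h2⟩
    · rintro ⟨h1, h2⟩
      exact ⟨fun h => h1 (hf.1 h), h2⟩

end Pool.Agent.S08338
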