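import Pool.Statements.S08698

set_option autoImplicit false
open Function
open Pool Pool.MP_0eaf94_gt

namespace Pool.Agent.S08698

/-- the minimum of a real function on the fibres of an open map of a compact space is a continuous
function on the target -/
lemma exists_min {X Z : Type} [TopologicalSpace X] [CompactSpace X] [TopologicalSpace Z] [T2Space Z]
    (h : X → Z) (hc : Continuous h) (ho : IsOpenMap h) (hs : Surjective h)
    (v : X → ℝ) (hv : Continuous v) :
    ∃ μ : Z → ℝ, Continuous μ ∧ (∀ z, ∃ p, h p = z ∧ v p = μ z) ∧ ∀ p, μ (h p) ≤ v p := by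
  have key : ∀ z, ∃ p, h p = z ∧ ∀ q, h q = z → v p ≤ v q := by
    intro z
    have hcl : IsCompact (h ⁻¹' {z}) := (isClosed_singleton.preimage hc).isCompact
    obtain ⟨p0, hp0⟩ := hs z
    obtain ⟨p, hp, hmin⟩ := hcl.exists_isMinOn ⟨p0, hp0⟩ hv.continuousOn
    exact ⟨p, hp, fun q hq => hmin hq⟩
  choose P hP hmin using key
  refine ⟨fun z => v (P z), ?_, fun z => ⟨P z, hP z, rfl⟩, fun p => hmin _ p rfl⟩
  rw [continuous_iff_lower_upperSemicontinuous]
  constructor
  · rw [lowerSemicontinuous_iff_isClosed_preimage]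
    intro c
    have : (fun z => v (P z)) ⁻¹' Set.Iic c = h '' (v ⁻¹' Set.Iic c) := by
      ext z
      constructor
      · intro hz
        exact ⟨P z, hz, hP z⟩
      · rintro ⟨p, hp, rfl⟩
        exact (hmin _ p rfl).trans hp
    rw [this]
    exact (((isClosed_Iic.preimage hv).isCompact).image hc).isClosed
  · rw [upperSemicontinuous_iff_isOpen_preimage]
    intro c
    have : (fun z => v (P z)) ⁻¹' Set.Iio c = h '' (v ⁻¹' Set.Iio c) := by
      ext z
      constructor
      · intro hz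
        exact ⟨P z, hz, hP z⟩
      · rintro ⟨p, hp, rfl⟩
        exact lt_of_le_of_lt (hmin _ p rfl) hp
    rw [this]
    exact ho _ (isOpen_Iio.preimage hv)

/-- the space -/
def XS : Set (ℝ × ℝ) := {p | -1 ≤ p.1 ∧ p.1 ≤ 2 ∧ 0 ≤ p.2 ∧ p.2 ≤ 2 ∧ (p.2 ≤ 1 ∨ p.1 = 2) ∧
  (0 ≤ p.1 ∨ p.2 = 0 ∨ p.2 = 1)}

lemma XS_closed : IsClosed XS := by
  unfold XS
  refine IsClosed.inter (isClosed_le continuous_const continuous_fst) ?_
  refine IsClosed.inter (isClosed_le continuous_fst continuous_const) ?_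
  refine IsClosed.inter (isClosed_le continuous_const continuous_snd) ?_
  refine IsClosed.inter (isClosed_le continuous_snd continuous_const) ?_
  refine IsClosed.inter ?_ ?_
  · exact (isClosed_le continuous_snd continuous_const).union
      (isClosed_eq continuous_fst continuous_const)
  · exact (isClosed_le continuous_const continuous_fst).union
      ((isClosed_eq continuous_snd continuous_const).union
        (isClosed_eq continuous_snd continuous_const))

lemma XS_compact : IsCompact XS := by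
  apply IsCompact.of_isClosed_subset (isCompact_Icc (a := ((-1 : ℝ), (0 : ℝ))) (b := ((2 : ℝ), (2 : ℝ))))
    XS_closed
  rintro ⟨a, b⟩ ⟨h1, h2, h3, h4, -⟩
  exact ⟨⟨h1, h3⟩, ⟨h2, h4⟩⟩

instance : CompactSpace XS := isCompact_iff_compactSpace.mp XS_compact

/-- the map onto the interval -/
def F (p : XS) : Set.Icc (-1 : ℝ) 2 := ⟨p.1.1, p.2.1, p.2.2.1⟩

lemma F_cont : Continuous F := by
  unfold F
  fun_prop

lemma F_surj : Surjective F := by
  rintro ⟨y, hy1, hy2⟩
  exact ⟨⟨(y, 0), hy1, hy2, le_refl _, by norm_num, Or.inl (by norm_num), Or.inr (Or.inl rfl)⟩, rfl⟩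

/-- main impossibility -/
lemma impossible {Z : Type} [MetricSpace Z] [CompactSpace Z] (h : XS → Z) (g : Z → Set.Icc (-1 : ℝ) 2)
    (hc : Continuous h) (ho : IsOpenMap h) (hs : Surjective h) (gc : Continuous g)
    (gconn : ∀ y, IsConnected (g ⁻¹' {y})) (hgh : ∀ x, g (h x) = F x) : False := by
  have hvc : Continuous fun p : XS => p.1.2 := by fun_prop
  obtain ⟨m, mc, mat, mle⟩ := exists_min h hc ho hs (fun p : XS => p.1.2) hvc
  obtain ⟨M', M'c, M'at, M'le⟩ := exists_min h hc ho hs (fun p : XS => - p.1.2) hvc.neg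
  -- fibres
  have hfst : ∀ p q : XS, h p = h q → p.1.1 = q.1.1 := by
    intro p q hpq
    have h1 := hgh p
    have h2 := hgh q
    rw [hpq, h2] at h1
    exact (congrArg Subtype.val h1).symm
  -- points of the rectangle
  have hmem : ∀ y s : ℝ, 0 ≤ y → y ≤ 2 → 0 ≤ s → s ≤ 1 → (y, s) ∈ XS := fun y s h1 h2 h3 h4 =>
    ⟨by linarith, h2, h3, by linarith, Or.inl h4, Or.inl h1⟩
  have hmem2 : ∀ s : ℝ, 0 ≤ s → s ≤ 2 → ((2 : ℝ), s) ∈ XS := fun s h3 h4 =>
    ⟨by norm_num, le_refl _, h3, h4, Or.inr rfl, Or.inl (by norm_num)⟩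
  -- whisker: no point above one is equivalent to a point at height at most one
  have hwh : ∀ p q : XS, 1 < p.1.2 → q.1.2 ≤ 1 → h p ≠ h q := by
    rintro ⟨⟨a, b⟩, hp⟩ ⟨⟨c, d⟩, hq⟩ h1 h2 heq
    simp only at h1 h2
    have ha : a = 2 := by
      rcases hp.2.2.2.2.1 with h' | h'
      · simp only at h'; linarith
      · exact h'
    have hac := hfst _ _ heq
    simp only at hac
    have hc2 : c = 2 := by rw [← hac, ha]
    subst hc2
    have hd0 : 0 ≤ d := hq.2.2.1
    have hU : IsOpen {p : XS | 1 < p.1.2} := isOpen_lt continuous_const hvc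
    have hV : IsOpen (h ⁻¹' (h '' {p : XS | 1 < p.1.2})) := (ho _ hU).preimage hc
    let γ : Set.Icc (0 : ℝ) 2 → XS := fun y => ⟨(y.1, d), hmem y.1 d y.2.1 y.2.2 hd0 h2⟩
    have γc : Continuous γ := by
      apply Continuous.subtype_mk
      fun_prop
    have hW : IsOpen (γ ⁻¹' (h ⁻¹' (h '' {p : XS | 1 < p.1.2}))) := hV.preimage γc
    have h2W : (⟨2, by norm_num⟩ : Set.Icc (0 : ℝ) 2) ∈ γ ⁻¹' (h ⁻¹' (h '' {p : XS | 1 < p.1.2})) := by
      refine ⟨⟨(a, b), hp⟩, h1, ?_⟩
      rw [heq]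
    have hall : ∀ y : Set.Icc (0 : ℝ) 2, y ∈ γ ⁻¹' (h ⁻¹' (h '' {p : XS | 1 < p.1.2})) → y.1 = 2 := by
      rintro y ⟨⟨⟨a', b'⟩, hp'⟩, h1', heq'⟩
      have ha' : a' = 2 := by
        rcases hp'.2.2.2.2.1 with h' | h'
        · simp only [Set.mem_ofPred_eq] at h' h1'; linarith
        · exact h'
      have := hfst _ _ heq'
      simp only [γ] at this
      rw [← this, ha']
    rw [Metric.isOpen_iff] at hW
    obtain ⟨ε, hε, hball⟩ := hW _ h2W
    let y' : ℝ := max 0 (2 - ε / 2)
    have hy'0 : 0 ≤ y' := le_max_left _ _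
    have hy'2 : y' < 2 := by
      apply max_lt (by norm_num)
      linarith
    have hy'' : 2 - ε / 2 ≤ y' := le_max_right _ _
    have := hall ⟨y', hy'0, hy'2.le⟩ (hball (by
      rw [Metric.mem_ball, Subtype.dist_eq, Real.dist_eq, abs_lt]
      constructor <;> simp only <;> linarith))
    simp only at this
    linarith
  -- the two curves
  let e0 : Set.Icc (0 : ℝ) 2 → XS := fun y => ⟨(y.1, 0), hmem y.1 0 y.2.1 y.2.2 le_rfl zero_le_one⟩
  let e1 : Set.Icc (0 : ℝ) 2 → XS := fun y => ⟨(y.1, 1), hmem y.1 1 y.2.1 y.2.2 zero_le_one le_rfl⟩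
  have e0c : Continuous e0 := by
    apply Continuous.subtype_mk
    fun_prop
  have e1c : Continuous e1 := by
    apply Continuous.subtype_mk
    fun_prop
  have hm1 : ∀ y, m (h (e1 y)) ≤ 1 := fun y => mle (e1 y)
  -- minimum at (2,1)
  have h21 : m (h (e1 ⟨2, by norm_num⟩)) = 1 := by
    apply le_antisymm (hm1 _)
    let δ : Set.Icc (0 : ℝ) 2 → XS := fun s => ⟨(2, s.1), hmem2 s.1 s.2.1 s.2.2⟩
    have δc : Continuous δ := by
      apply Continuous.subtype_mk
      fun_prop
    have hgt : ∀ s : Set.Icc (0 : ℝ) 2, 1 < s.1 → 1 ≤ m (h (δ s)) := by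
      intro s hs1
      obtain ⟨p, hp1, hp2⟩ := mat (h (δ s))
      rw [← hp2]
      by_contra hlt
      push Not at hlt
      exact hwh (δ s) p hs1 hlt.le hp1.symm
    have hcl : IsClosed {s : Set.Icc (0 : ℝ) 2 | 1 ≤ m (h (δ s))} :=
      isClosed_le continuous_const (mc.comp (hc.comp δc))
    have : (⟨1, by norm_num⟩ : Set.Icc (0 : ℝ) 2) ∈ {s : Set.Icc (0 : ℝ) 2 | 1 ≤ m (h (δ s))} := by
      rw [← hcl.closure_eq, Metric.mem_closure_iff]
      intro ε hε
      have hlt : 1 < min (2 : ℝ) (1 + ε / 2) := by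
        apply lt_min <;> linarith
      have hle2 : min (2 : ℝ) (1 + ε / 2) ≤ 2 := min_le_left _ _
      have hle3 : min (2 : ℝ) (1 + ε / 2) ≤ 1 + ε / 2 := min_le_right _ _
      refine ⟨⟨min (2 : ℝ) (1 + ε / 2), by linarith, hle2⟩, hgt _ hlt, ?_⟩
      rw [Subtype.dist_eq, Real.dist_eq, abs_lt]
      constructor <;> simp only <;> linarith
    exact this
  -- a curve across the rectangle
  let r : (y : Set.Icc (0 : ℝ) 2) → Set.Icc (0 : ℝ) 1 → XS :=
    fun y s => ⟨(y.1, s.1), hmem y.1 s.1 y.2.1 y.2.2 s.2.1 s.2.2⟩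
  have rc : ∀ y, Continuous (r y) := by
    intro y
    apply Continuous.subtype_mk
    fun_prop
  have hr0 : ∀ y, r y ⟨0, by norm_num⟩ = e0 y := fun y => rfl
  have hr1 : ∀ y, r y ⟨1, by norm_num⟩ = e1 y := fun y => rfl
  -- if m = 1 at the top then the maximum at the bottom is zero
  have hcl2 : ∀ y, m (h (e1 y)) = 1 → M' (h (e0 y)) = 0 := by
    intro y hy
    obtain ⟨q, hq1, hq2⟩ := M'at (h (e0 y))
    have hq0 : 0 ≤ q.1.2 := q.2.2.2.1
    have hqle : q.1.2 ≤ 1 := by
      by_contra hlt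
      push Not at hlt
      exact hwh q (e0 y) hlt zero_le_one hq1
    have hm0 : m (h (e0 y)) ≤ 0 := mle (e0 y)
    have hcont : Continuous fun s => m (h (r y s)) := mc.comp (hc.comp (rc y))
    have hivt := intermediate_value_univ (⟨0, by norm_num⟩ : Set.Icc (0 : ℝ) 1) ⟨1, by norm_num⟩ hcont
    have hq3 : q.1.2 ∈ Set.Icc (m (h (r y ⟨0, by norm_num⟩))) (m (h (r y ⟨1, by norm_num⟩))) := by
      rw [hr0, hr1, hy]
      exact ⟨by linarith, hqle⟩
    obtain ⟨s, hs'⟩ := hivt hq3
    replace hs' := id hs'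
    beta_reduce at hs'
    obtain ⟨p, hp1, hp2⟩ := mat (h (r y s))
    have hpq : p = q := by
      apply Subtype.ext
      apply Prod.ext
      · rw [hfst _ _ hp1, hfst _ _ hq1]
      · rw [hp2, hs']
    have : m (h q) = q.1.2 := by
      rw [← hpq, hp1, hp2]
    rw [hq1] at this
    have : q.1.2 = 0 := by linarith
    rw [← hq2, this, neg_zero]
  have hcl3 : ∀ y, -(1/2 : ℝ) < M' (h (e0 y)) → 1/2 < m (h (e1 y)) → m (h (e1 y)) = 1 := by
    intro y hy1 hy2
    have hcont : Continuous fun s => M' (h (r y s)) := M'c.comp (hc.comp (rc y))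
    have hivt := intermediate_value_univ (⟨1, by norm_num⟩ : Set.Icc (0 : ℝ) 1) ⟨0, by norm_num⟩ hcont
    have hM1 : M' (h (e1 y)) ≤ -1 := M'le (e1 y)
    have hq3 : - m (h (e1 y)) ∈ Set.Icc (M' (h (r y ⟨1, by norm_num⟩))) (M' (h (r y ⟨0, by norm_num⟩))) := by
      rw [hr0, hr1]
      have := hm1 y
      constructor <;> linarith
    obtain ⟨s, hs'⟩ := hivt hq3
    replace hs' := id hs'
    beta_reduce at hs'
    obtain ⟨p, hp1, hp2⟩ := M'at (h (r y s))
    obtain ⟨q, hq1, hq2⟩ := mat (h (e1 y))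
    have hpq : p = q := by
      apply Subtype.ext
      apply Prod.ext
      · rw [hfst _ _ hp1, hfst _ _ hq1]
      · linarith
    have h5 : M' (h q) = - m (h (e1 y)) := by
      rw [← hpq, hp1, hs']
    rw [hq1] at h5
    linarith [hm1 y]
  -- clopen argument
  have hT : IsClopen {y : Set.Icc (0 : ℝ) 2 | m (h (e1 y)) = 1} := by
    constructor
    · exact isClosed_eq (mc.comp (hc.comp e1c)) continuous_const
    · have : {y : Set.Icc (0 : ℝ) 2 | m (h (e1 y)) = 1} =
          {y | -(1/2 : ℝ) < M' (h (e0 y))} ∩ {y | 1/2 < m (h (e1 y))} := by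
        ext y
        constructor
        · intro hy
          have hy' : m (h (e1 y)) = 1 := hy
          refine ⟨?_, ?_⟩
          · simp only [Set.mem_ofPred_eq, hcl2 y hy']
            norm_num
          · simp only [Set.mem_ofPred_eq, hy']
            norm_num
        · rintro ⟨h1, h2⟩
          exact hcl3 y h1 h2
      rw [this]
      exact (isOpen_lt continuous_const (M'c.comp (hc.comp e0c))).inter
        (isOpen_lt continuous_const (mc.comp (hc.comp e1c)))
  have : PreconnectedSpace (Set.Icc (0 : ℝ) 2) := Subtype.preconnectedSpace isPreconnected_Icc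
  have hTu := hT.eq_univ ⟨⟨2, by norm_num⟩, h21⟩
  have h0 : m (h (e1 ⟨0, by norm_num⟩)) = 1 := by
    have : (⟨0, by norm_num⟩ : Set.Icc (0 : ℝ) 2) ∈ {y : Set.Icc (0 : ℝ) 2 | m (h (e1 y)) = 1} := by
      rw [hTu]; trivial
    exact this
  -- the left part
  have hl0 : ∀ y : Set.Icc (-1 : ℝ) 0, ((y.1, 0) : ℝ × ℝ) ∈ XS := fun y =>
    ⟨y.2.1, by linarith [y.2.2], le_rfl, by norm_num, Or.inl zero_le_one, Or.inr (Or.inl rfl)⟩
  have hl1 : ∀ y : Set.Icc (-1 : ℝ) 0, ((y.1, 1) : ℝ × ℝ) ∈ XS := fun y =>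
    ⟨y.2.1, by linarith [y.2.2], zero_le_one, by norm_num, Or.inl le_rfl, Or.inr (Or.inr rfl)⟩
  let f0 : Set.Icc (-1 : ℝ) 0 → XS := fun y => ⟨(y.1, 0), hl0 y⟩
  let f1 : Set.Icc (-1 : ℝ) 0 → XS := fun y => ⟨(y.1, 1), hl1 y⟩
  have f0c : Continuous f0 := by
    apply Continuous.subtype_mk
    fun_prop
  have f1c : Continuous f1 := by
    apply Continuous.subtype_mk
    fun_prop
  have hneg : ∀ y : Set.Icc (-1 : ℝ) 0, y.1 < 0 → h (f0 y) = h (f1 y) := by
    intro y hy
    have hfib : g ⁻¹' {F (f0 y)} = {h (f0 y), h (f1 y)} := by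
      ext z
      constructor
      · intro hz
        obtain ⟨p, rfl⟩ := hs z
        have h1 : g (h p) = F (f0 y) := hz
        rw [hgh] at h1
        have h2 : p.1.1 = y.1 := congrArg Subtype.val h1
        rcases p.2.2.2.2.2.2 with h3 | h3 | h3
        · linarith
        · left
          congr 1
          exact Subtype.ext (Prod.ext h2 h3)
        · right
          show h p = h (f1 y)
          congr 1
          exact Subtype.ext (Prod.ext h2 h3)
      · rintro (rfl | rfl)
        · exact hgh _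
        · show g (h (f1 y)) = F (f0 y)
          rw [hgh]
          rfl
    have hcon := gconn (F (f0 y))
    rw [hfib] at hcon
    by_contra hne
    exact hcon.isPreconnected.infinite_of_nontrivial (Set.nontrivial_pair hne)
      (Set.toFinite _)
  have hcl4 : IsClosed {y : Set.Icc (-1 : ℝ) 0 | h (f0 y) = h (f1 y)} :=
    isClosed_eq (hc.comp f0c) (hc.comp f1c)
  have h00 : (⟨0, by norm_num⟩ : Set.Icc (-1 : ℝ) 0) ∈ {y : Set.Icc (-1 : ℝ) 0 | h (f0 y) = h (f1 y)} := by
    rw [← hcl4.closure_eq, Metric.mem_closure_iff]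
    intro ε hε
    have hlt : max (-1 : ℝ) (- ε / 2) < 0 := by
      apply max_lt <;> linarith
    have hle2 : (-1 : ℝ) ≤ max (-1 : ℝ) (- ε / 2) := le_max_left _ _
    have hle3 : - ε / 2 ≤ max (-1 : ℝ) (- ε / 2) := le_max_right _ _
    refine ⟨⟨max (-1 : ℝ) (- ε / 2), hle2, hlt.le⟩, hneg _ hlt, ?_⟩
    rw [Subtype.dist_eq, Real.dist_eq, abs_lt]
    constructor <;> simp only <;> linarith
  have h01 : h (f0 ⟨0, by norm_num⟩) = h (f1 ⟨0, by norm_num⟩) := h00
  have h6 : m (h (f1 ⟨0, by norm_num⟩)) = 1 := h0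
  have h7 : m (h (f0 ⟨0, by norm_num⟩)) ≤ 0 := mle _
  rw [h01, h6] at h7
  linarith

/-- closure of the left set -/
lemma clos1 {y : Set.Icc (-1 : ℝ) 2} (hy : y ∈ closure {y : Set.Icc (-1 : ℝ) 2 | y.1 < 1}) :
    y.1 ≤ 1 := by
  have : closure {y : Set.Icc (-1 : ℝ) 2 | y.1 < 1} ⊆ {y : Set.Icc (-1 : ℝ) 2 | y.1 ≤ 1} :=
    closure_minimal (fun y (hy : y.1 < 1) => (le_of_lt hy : y.1 ≤ 1))
      (isClosed_le continuous_subtype_val continuous_const)
  exact this hy

lemma clos2 {y : Set.Icc (-1 : ℝ) 2} (hy : y ∈ closure {y : Set.Icc (-1 : ℝ) 2 | 0 < y.1}) :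
    0 ≤ y.1 := by
  have : closure {y : Set.Icc (-1 : ℝ) 2 | 0 < y.1} ⊆ {y : Set.Icc (-1 : ℝ) 2 | 0 ≤ y.1} :=
    closure_minimal (fun y (hy : 0 < y.1) => (le_of_lt hy : 0 ≤ y.1))
      (isClosed_le continuous_const continuous_subtype_val)
  exact this hy

/-- a continuous map from a compact space onto its range whose saturations of open sets are open
is open onto the range -/
lemma open_range {X W : Type} [TopologicalSpace X] [CompactSpace X] [TopologicalSpace W] [T2Space W]
    (h : X → W) (hc : Continuous h)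
    (hsat : ∀ U : Set X, IsOpen U → IsOpen (h ⁻¹' (h '' U))) :
    IsOpenMap (Set.rangeFactorization h) := by
  have hc' : Continuous (Set.rangeFactorization h) := hc.subtype_mk _
  have hq : Topology.IsQuotientMap (Set.rangeFactorization h) :=
    (hc'.isClosedMap).isQuotientMap hc' Set.rangeFactorization_surjective
  intro U hU
  rw [← hq.isOpen_preimage]
  have : Set.rangeFactorization h ⁻¹' (Set.rangeFactorization h '' U) = h ⁻¹' (h '' U) := by
    ext x
    constructor
    · rintro ⟨u, hu, hux⟩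
      exact ⟨u, hu, congrArg Subtype.val hux⟩
    · rintro ⟨u, hu, hux⟩
      exact ⟨u, hu, Subtype.ext hux⟩
  rw [this]
  exact hsat U hU

lemma left_MO : ∃ (Z : Type) (_ : MetricSpace Z) (_ : CompactSpace Z)
    (h : ↥(F ⁻¹' closure {y : Set.Icc (-1 : ℝ) 2 | y.1 < 1}) → Z)
    (g : Z → ↥(closure {y : Set.Icc (-1 : ℝ) 2 | y.1 < 1})),
    Continuous h ∧ IsOpenMap h ∧ Surjective h ∧
    Continuous g ∧ Surjective g ∧ (∀ y, IsConnected (g ⁻¹' {y})) ∧
    ∀ x : ↥(F ⁻¹' closure {y : Set.Icc (-1 : ℝ) 2 | y.1 < 1}),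
      ((g (h x) : ↥(closure {y : Set.Icc (-1 : ℝ) 2 | y.1 < 1})) : Set.Icc (-1 : ℝ) 2) = F x := by
  set G : Set (Set.Icc (-1 : ℝ) 2) := closure {y : Set.Icc (-1 : ℝ) 2 | y.1 < 1} with hG
  have hGc : IsClosed G := isClosed_closure
  have hX1 : IsClosed (F ⁻¹' G) := hGc.preimage F_cont
  have : CompactSpace (F ⁻¹' G) := isCompact_iff_compactSpace.mp hX1.isCompact
  have hle : ∀ x : F ⁻¹' G, x.1.1.1 ≤ 1 := fun x => clos1 x.2
  have hs1 : ∀ x : F ⁻¹' G, x.1.1.2 ≤ 1 := by
    intro x
    rcases x.1.2.2.2.2.2.1 with h | h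
    · exact h
    · linarith [hle x]
  -- the flip
  have hflip : ∀ x : F ⁻¹' G, ((x.1.1.1, 1 - x.1.1.2) : ℝ × ℝ) ∈ XS := by
    intro x
    have h0 := x.1.2.2.2.1
    have h1 := hs1 x
    refine ⟨x.1.2.1, x.1.2.2.1, by simp only; linarith, by simp only; linarith,
      Or.inl (by simp only; linarith), ?_⟩
    rcases x.1.2.2.2.2.2.2 with h | h | h
    · exact Or.inl h
    · right; right; simp only; linarith
    · right; left; simp only; linarith
  let σ : F ⁻¹' G → F ⁻¹' G := fun x => ⟨⟨(x.1.1.1, 1 - x.1.1.2), hflip x⟩, x.2⟩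
  have σc : Continuous σ := by
    apply Continuous.subtype_mk
    apply Continuous.subtype_mk
    fun_prop
  let k : F ⁻¹' G → G × ℝ := fun x => (⟨F x.1, x.2⟩, x.1.1.2 * (1 - x.1.1.2))
  have kc : Continuous k := by
    apply Continuous.prodMk
    · exact (F_cont.comp continuous_subtype_val).subtype_mk _
    · fun_prop
  have hk : ∀ x x', k x = k x' ↔ x = x' ∨ x = σ x' := by
    intro x x'
    constructor
    · intro hxx
      have h1 : x.1.1.1 = x'.1.1.1 :=
        congrArg (fun z : G × ℝ => z.1.1.1) hxx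
      have h2 : x.1.1.2 * (1 - x.1.1.2) = x'.1.1.2 * (1 - x'.1.1.2) :=
        congrArg (fun z : G × ℝ => z.2) hxx
      have h3 : (x.1.1.2 - x'.1.1.2) * (1 - x.1.1.2 - x'.1.1.2) = 0 := by linear_combination h2
      rcases mul_eq_zero.mp h3 with h4 | h4
      · left
        exact Subtype.ext (Subtype.ext (Prod.ext h1 (by linarith)))
      · right
        exact Subtype.ext (Subtype.ext (Prod.ext h1 (by simp only [σ]; linarith)))
    · rintro (rfl | rfl)
      · rfl
      · simp only [k, σ, Prod.mk.injEq]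
        refine ⟨rfl, by ring⟩
  have hsat : ∀ U : Set (F ⁻¹' G), IsOpen U → IsOpen (k ⁻¹' (k '' U)) := by
    intro U hU
    have : k ⁻¹' (k '' U) = U ∪ σ ⁻¹' U := by
      ext x
      constructor
      · rintro ⟨u, hu, hux⟩
        rcases (hk u x).mp hux with rfl | rfl
        · exact Or.inl hu
        · exact Or.inr hu
      · rintro (hx | hx)
        · exact ⟨x, hx, rfl⟩
        · exact ⟨σ x, hx, (hk _ _).mpr (Or.inr rfl)⟩
    rw [this]
    exact hU.union (hU.preimage σc)
  refine ⟨Set.range k, inferInstance, isCompact_iff_compactSpace.mp (isCompact_range kc),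
    Set.rangeFactorization k, fun z => z.1.1, kc.subtype_mk _, open_range k kc hsat,
    Set.rangeFactorization_surjective, by fun_prop, ?_, ?_, fun x => rfl⟩
  · intro y
    have hy : ((y.1.1, 0) : ℝ × ℝ) ∈ XS :=
      ⟨y.1.2.1, y.1.2.2, le_refl _, by norm_num, Or.inl (by norm_num), Or.inr (Or.inl rfl)⟩
    exact ⟨Set.rangeFactorization k ⟨⟨(y.1.1, 0), hy⟩, y.2⟩, rfl⟩
  · intro y
    have hy1 : y.1.1 ≤ 1 := clos1 y.2
    rcases lt_or_ge y.1.1 0 with hneg | hpos
    · have hy : ((y.1.1, 0) : ℝ × ℝ) ∈ XS :=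
        ⟨y.1.2.1, y.1.2.2, le_refl _, by norm_num, Or.inl (by norm_num), Or.inr (Or.inl rfl)⟩
      have : (fun z : Set.range k => z.1.1) ⁻¹' {y} =
          {Set.rangeFactorization k ⟨⟨(y.1.1, 0), hy⟩, y.2⟩} := by
        ext z
        constructor
        · intro hz
          obtain ⟨x, rfl⟩ := Set.rangeFactorization_surjective z
          have h1 : x.1.1.1 = y.1.1 := congrArg (fun z : G => z.1.1) hz
          apply Subtype.ext
          apply (hk _ _).mpr
          rcases x.1.2.2.2.2.2.2 with h | h | h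
          · linarith
          · exact Or.inl (Subtype.ext (Subtype.ext (Prod.ext h1 h)))
          · exact Or.inr (Subtype.ext (Subtype.ext (Prod.ext h1 (by simp only [σ]; linarith))))
        · rintro rfl
          rfl
      rw [this]
      exact isConnected_singleton
    · have hr : ∀ s : Set.Icc (0 : ℝ) 1, ((y.1.1, s.1) : ℝ × ℝ) ∈ XS := fun s =>
        ⟨y.1.2.1, y.1.2.2, s.2.1, by linarith [s.2.2], Or.inl s.2.2, Or.inl hpos⟩
      let r : Set.Icc (0 : ℝ) 1 → Set.range k := fun s =>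
        Set.rangeFactorization k ⟨⟨(y.1.1, s.1), hr s⟩, y.2⟩
      have rc : Continuous r := by
        apply Continuous.subtype_mk
        apply kc.comp
        apply Continuous.subtype_mk
        apply Continuous.subtype_mk
        fun_prop
      have : (fun z : Set.range k => z.1.1) ⁻¹' {y} = Set.range r := by
        ext z
        constructor
        · intro hz
          obtain ⟨x, rfl⟩ := Set.rangeFactorization_surjective z
          have h1 : x.1.1.1 = y.1.1 := congrArg (fun z : G => z.1.1) hz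
          refine ⟨⟨x.1.1.2, x.1.2.2.2.1, hs1 x⟩, ?_⟩
          apply Subtype.ext
          apply (hk _ _).mpr
          exact Or.inl (Subtype.ext (Subtype.ext (Prod.ext h1.symm rfl)))
        · rintro ⟨s, rfl⟩
          rfl
      rw [this]
      have : ConnectedSpace (Set.Icc (0 : ℝ) 1) :=
        isConnected_iff_connectedSpace.mp (isConnected_Icc (by norm_num))
      exact isConnected_range rc

lemma right_MO : ∃ (Z : Type) (_ : MetricSpace Z) (_ : CompactSpace Z)
    (h : ↥(F ⁻¹' closure {y : Set.Icc (-1 : ℝ) 2 | 0 < y.1}) → Z)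
    (g : Z → ↥(closure {y : Set.Icc (-1 : ℝ) 2 | 0 < y.1})),
    Continuous h ∧ IsOpenMap h ∧ Surjective h ∧
    Continuous g ∧ Surjective g ∧ (∀ y, IsConnected (g ⁻¹' {y})) ∧
    ∀ x : ↥(F ⁻¹' closure {y : Set.Icc (-1 : ℝ) 2 | 0 < y.1}),
      ((g (h x) : ↥(closure {y : Set.Icc (-1 : ℝ) 2 | 0 < y.1})) : Set.Icc (-1 : ℝ) 2) = F x := by
  set G : Set (Set.Icc (-1 : ℝ) 2) := closure {y : Set.Icc (-1 : ℝ) 2 | 0 < y.1} with hG
  have hGc : IsClosed G := isClosed_closure
  have hX1 : IsClosed (F ⁻¹' G) := hGc.preimage F_cont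
  refine ⟨F ⁻¹' G, inferInstance, isCompact_iff_compactSpace.mp hX1.isCompact, id,
    fun x => ⟨F x.1, x.2⟩, continuous_id, IsOpenMap.id, surjective_id,
    (F_cont.comp continuous_subtype_val).subtype_mk _, ?_, ?_, fun x => rfl⟩
  · intro y
    obtain ⟨x, hx⟩ := F_surj y.1
    exact ⟨⟨x, by show F x ∈ G; rw [hx]; exact y.2⟩, Subtype.ext hx⟩
  · intro y
    have hy0 : 0 ≤ y.1.1 := clos2 y.2
    -- height of the fibre
    let c : ℝ := if y.1.1 = 2 then 2 else 1
    have hc0 : 0 ≤ c := by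
      simp only [c]; split_ifs <;> norm_num
    have hr : ∀ s : Set.Icc (0 : ℝ) c, ((y.1.1, s.1) : ℝ × ℝ) ∈ XS := by
      intro s
      have hs := s.2.2
      by_cases h2 : y.1.1 = 2
      · have hc2 : c = 2 := if_pos h2
        exact ⟨y.1.2.1, y.1.2.2, s.2.1, le_trans hs hc2.le, Or.inr h2, Or.inl hy0⟩
      · have hc1 : c = 1 := if_neg h2
        have hs3 : s.1 ≤ 1 := le_trans hs hc1.le
        exact ⟨y.1.2.1, y.1.2.2, s.2.1, by simp only; linarith, Or.inl hs3, Or.inl hy0⟩
    let r : Set.Icc (0 : ℝ) c → F ⁻¹' G := fun s => ⟨⟨(y.1.1, s.1), hr s⟩, y.2⟩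
    have rc : Continuous r := by
      apply Continuous.subtype_mk
      apply Continuous.subtype_mk
      fun_prop
    have : (fun x : F ⁻¹' G => (⟨F x.1, x.2⟩ : G)) ⁻¹' {y} = Set.range r := by
      ext x
      constructor
      · intro hx
        have h1 : x.1.1.1 = y.1.1 := congrArg (fun z : G => z.1.1) hx
        have h2 : x.1.1.2 ≤ c := by
          rcases x.1.2.2.2.2.2.1 with h | h
          · refine h.trans ?_
            simp only [c]; split_ifs <;> norm_num
          · have hc2 : c = 2 := if_pos (h1 ▸ h)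
            rw [hc2]
            exact x.1.2.2.2.2.1
        exact ⟨⟨x.1.1.2, x.1.2.2.2.1, h2⟩, Subtype.ext (Subtype.ext (Prod.ext h1.symm rfl))⟩
      · rintro ⟨s, rfl⟩
        rfl
    rw [this]
    have : ConnectedSpace (Set.Icc (0 : ℝ) c) :=
      isConnected_iff_connectedSpace.mp (isConnected_Icc hc0)
    exact isConnected_range rc

/-- The negation of the preceding statement: For a continuous surjection f between compact metric spaces and open G₁, G₂ covering Y: if each restriction of f over closure(Gᵢ) is an open map followed by a monotone map, then f itself is an open map followed by a monotone map. -/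
theorem result :
    ¬ (∀ (X Y : Type) [MetricSpace X] [CompactSpace X] [MetricSpace Y] [CompactSpace Y]
      (f : X → Y), Continuous f → Surjective f →
      ∀ G₁ G₂ : Set Y, IsOpen G₁ → IsOpen G₂ → G₁ ∪ G₂ = Set.univ →
      (∃ (Z : Type) (_ : MetricSpace Z) (_ : CompactSpace Z)
          (h : ↥(f ⁻¹' closure G₁) → Z) (g : Z → ↥(closure G₁)),
          Continuous h ∧ IsOpenMap h ∧ Surjective h ∧
          Continuous g ∧ Surjective g ∧ (∀ y, IsConnected (g ⁻¹' {y})) ∧
          ∀ x : ↥(f ⁻¹' closure G₁), ((g (h x) : ↥(closure G₁)) : Y) = f x) →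
      (∃ (Z : Type) (_ : MetricSpace Z) (_ : CompactSpace Z)
          (h : ↥(f ⁻¹' closure G₂) → Z) (g : Z → ↥(closure G₂)),
          Continuous h ∧ IsOpenMap h ∧ Surjective h ∧
          Continuous g ∧ Surjective g ∧ (∀ y, IsConnected (g ⁻¹' {y})) ∧
          ∀ x : ↥(f ⁻¹' closure G₂), ((g (h x) : ↥(closure G₂)) : Y) = f x) →
      ∃ (Z : Type) (_ : MetricSpace Z) (_ : CompactSpace Z)
          (h : X → Z) (g : Z → Y),
          Continuous h ∧ IsOpenMap h ∧ Surjective h ∧
          Continuous g ∧ Surjective g ∧ (∀ y, IsConnected (g ⁻¹' {y})) ∧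
          ∀ x : X, g (h x) = f x) := by
  intro H
  obtain ⟨Z, _, _, h, g, hc, ho, hs, gc, -, gconn, hgh⟩ :=
    H XS (Set.Icc (-1 : ℝ) 2) F F_cont F_surj {y | y.1 < 1} {y | 0 < y.1}
      (isOpen_lt continuous_subtype_val continuous_const)
      (isOpen_lt continuous_const continuous_subtype_val)
      (by
        ext y
        simp only [Set.mem_union, Set.mem_ofPred_eq, Set.mem_univ, iff_true]
        by_contra hcon
        push Not at hcon
        linarith [hcon.1, hcon.2])
      left_MO right_MO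
  exact impossible h g hc ho hs gc gconn hgh

end Pool.Agent.S08698
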