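import Pool.Statements.S08700

set_option autoImplicit false
open TopologicalSpace
open Pool Pool.MP_0eb590_gt

namespace Pool.Agent.S08700

/-- The set of functions on the disjoint union of the naturals and the reals, as pairs. -/
abbrev Z : Type := (ℕ → ℝ) × (ℝ → ℝ)

noncomputable def lam (N : ℕ) (b c : ℝ) : ℝ := max 0 (min 1 (b - |c| - (N + 1)))

noncomputable def Phi (u : ℝ → ℝ → ℝ) (z : Z) : Z :=
  (fun i => z.1 (i + 1), fun α => u α (z.1 0))

noncomputable def Fk (u : ℝ → ℝ → ℝ) (N : ℕ) (f : Z → ℝ) : ℕ → Z → ℝ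
  | 0, z => f z
  | k + 1, z => f z + lam N (z.1 0) (z.1 1) * Fk u N f k (Phi u z)

noncomputable def FF (u : ℝ → ℝ → ℝ) (N : ℕ) (f : Z → ℝ) (z : Z) : ℝ :=
  Fk u N f ⌈z.1 0⌉₊ z

theorem pos_right {a b : ℝ} (ha : 0 ≤ a) (h : 0 < a * b) : 0 < b := by
  by_contra hb
  nlinarith

theorem lam_nonneg (N : ℕ) (b c : ℝ) : 0 ≤ lam N b c := le_max_left _ _

theorem lam_pos {N : ℕ} {b c : ℝ} (h : 0 < lam N b c) : |c| + N + 1 < b := by
  unfold lam at h
  rcases lt_max_iff.1 h with h | h
  · exact absurd h (lt_irrefl _)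
  · have := (lt_min_iff.1 h).2
    linarith

theorem lam_zero {N : ℕ} {b c : ℝ} (h : b ≤ |c| + N + 1) : lam N b c = 0 := by
  unfold lam
  apply max_eq_left
  apply (min_le_right _ _).trans
  linarith

theorem lam_one {N : ℕ} {b c : ℝ} (h : |c| + N + 2 ≤ b) : lam N b c = 1 := by
  unfold lam
  have : min 1 (b - |c| - ((N : ℝ) + 1)) = 1 := by
    apply min_eq_left
    linarith
  rw [this]
  norm_num

theorem lam_cont (N : ℕ) : Continuous (fun z : Z => lam N (z.1 0) (z.1 1)) := by
  unfold lam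
  fun_prop

theorem Phi_cont {u : ℝ → ℝ → ℝ} (hu : ∀ α, Continuous (u α)) : Continuous (Phi u) := by
  unfold Phi
  refine Continuous.prodMk ?_ ?_
  · fun_prop
  · refine continuous_pi fun α => ?_
    exact (hu α).comp (by fun_prop)

theorem Fk_cont {u : ℝ → ℝ → ℝ} (hu : ∀ α, Continuous (u α)) (N : ℕ) {f : Z → ℝ}
    (hf : Continuous f) (k : ℕ) : Continuous (Fk u N f k) := by
  induction k with
  | zero => exact hf
  | succ k ih =>
    exact hf.add ((lam_cont N).mul (ih.comp (Phi_cont hu)))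

theorem Fk_succ (u : ℝ → ℝ → ℝ) (N : ℕ) (f : Z → ℝ) (k : ℕ) :
    ∀ z : Z, z.1 0 ≤ k → Fk u N f (k + 1) z = Fk u N f k z := by
  induction k with
  | zero =>
    intro z hz
    have : lam N (z.1 0) (z.1 1) = 0 := by
      apply lam_zero
      have := abs_nonneg (z.1 1)
      push_cast at hz
      have h3 : (0 : ℝ) ≤ N := Nat.cast_nonneg N
      linarith
    simp [Fk, this]
  | succ k ih =>
    intro z hz
    change f z + lam N (z.1 0) (z.1 1) * Fk u N f (k + 1) (Phi u z) =
      f z + lam N (z.1 0) (z.1 1) * Fk u N f k (Phi u z)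
    by_cases h : lam N (z.1 0) (z.1 1) = 0
    · simp [h]
    · have hp : 0 < lam N (z.1 0) (z.1 1) := lt_of_le_of_ne (lam_nonneg _ _ _) (Ne.symm h)
      have h1 := lam_pos hp
      rw [ih (Phi u z)]
      change z.1 1 ≤ k
      have := le_abs_self (z.1 1)
      push_cast at hz
      have h3 : (0 : ℝ) ≤ N := Nat.cast_nonneg N
      linarith

theorem FF_eq (u : ℝ → ℝ → ℝ) (N : ℕ) (f : Z → ℝ) (k : ℕ) (z : Z) (hz : z.1 0 ≤ k) :
    FF u N f z = Fk u N f k z := by
  have key : ∀ l : ℕ, ⌈z.1 0⌉₊ ≤ l → Fk u N f l z = Fk u N f ⌈z.1 0⌉₊ z := by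
    intro l hl
    induction l, hl using Nat.le_induction with
    | base => rfl
    | succ l hl ih =>
      rw [Fk_succ u N f l z ?_, ih]
      exact (Nat.le_ceil _).trans (by exact_mod_cast hl)
  exact (key k (Nat.ceil_le.2 hz)).symm

theorem FF_rec (u : ℝ → ℝ → ℝ) (N : ℕ) (f : Z → ℝ) (z : Z) :
    FF u N f z = f z + lam N (z.1 0) (z.1 1) * FF u N f (Phi u z) := by
  obtain ⟨k, hk⟩ := exists_nat_ge (max (z.1 0) (z.1 1))
  have h0 : z.1 0 ≤ k := (le_max_left _ _).trans hk
  have h1 : z.1 1 ≤ k := (le_max_right _ _).trans hk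
  rw [FF_eq u N f (k + 1) z (by push_cast; linarith), FF_eq u N f k (Phi u z) h1]
  rfl

theorem FF_cont {u : ℝ → ℝ → ℝ} (hu : ∀ α, Continuous (u α)) (N : ℕ) {f : Z → ℝ}
    (hf : Continuous f) : Continuous (FF u N f) := by
  rw [continuous_iff_continuousAt]
  intro z
  obtain ⟨k, hk⟩ := exists_nat_gt (z.1 0)
  have : FF u N f =ᶠ[nhds z] Fk u N f k := by
    have ho : IsOpen {w : Z | w.1 0 < k} := isOpen_lt (by fun_prop) continuous_const
    filter_upwards [ho.mem_nhds hk] with w hw
    exact FF_eq u N f k w (le_of_lt hw)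
  exact (Fk_cont hu N hf k).continuousAt.congr this.symm

theorem FF_nonneg (u : ℝ → ℝ → ℝ) (N : ℕ) {f : Z → ℝ} (hf : ∀ z, 0 ≤ f z) (z : Z) :
    0 ≤ FF u N f z := by
  have : ∀ k z, 0 ≤ Fk u N f k z := by
    intro k
    induction k with
    | zero => exact hf
    | succ k ih => exact fun z => add_nonneg (hf z) (mul_nonneg (lam_nonneg _ _ _) (ih _))
  exact this _ _

theorem FF_small (u : ℝ → ℝ → ℝ) (N : ℕ) (f : Z → ℝ) (z : Z) (hz : z.1 0 ≤ N) :
    FF u N f z = f z := by
  rw [FF_rec, lam_zero]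
  · simp
  · have := abs_nonneg (z.1 1)
    linarith

/-- cut-off functions -/
noncomputable def cut (N : ℕ) (h : Z → ℝ) (z : Z) : ℝ := max 0 (N - z.1 0) * h z

theorem cut_cont (N : ℕ) {h : Z → ℝ} (hh : Continuous h) : Continuous (cut N h) := by
  unfold cut
  fun_prop

theorem cut_zero {N : ℕ} {h : Z → ℝ} {z : Z} (hz : (N : ℝ) ≤ z.1 0) : cut N h z = 0 := by
  unfold cut
  rw [max_eq_left (by linarith)]
  simp

theorem FF_far (u : ℝ → ℝ → ℝ) (N : ℕ) (h : Z → ℝ) (z : Z) (hz : |z.1 1| + N + 2 ≤ z.1 0) :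
    FF u N (cut N h) z = FF u N (cut N h) (Phi u z) := by
  rw [FF_rec, lam_one hz, cut_zero]
  · ring
  · have := abs_nonneg (z.1 1)
    linarith

abbrev Idx : Type := ℕ × C(Z, ℝ)

/-- the separating family -/
noncomputable def fam (u : ℝ → ℝ → ℝ) (z : Z) (p : Idx) : ℝ :=
  FF u p.1 (cut p.1 p.2) z

/-- the coarse topology -/
noncomputable def tau (u : ℝ → ℝ → ℝ) : TopologicalSpace Z :=
  TopologicalSpace.induced (fam u) Pi.topologicalSpace

theorem fam_cont {u : ℝ → ℝ → ℝ} (hu : ∀ α, Continuous (u α)) : Continuous (fam u) :=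
  continuous_pi fun p => FF_cont hu p.1 (cut_cont p.1 p.2.continuous)

theorem fam_inj (u : ℝ → ℝ → ℝ) : Function.Injective (fam u) := by
  intro z w hzw
  obtain ⟨N, hN⟩ := exists_nat_gt (max (z.1 0) (w.1 0))
  have hz : z.1 0 < N := (le_max_left _ _).trans_lt hN
  have hw : w.1 0 < N := (le_max_right _ _).trans_lt hN
  have key : ∀ h : C(Z, ℝ), (N - z.1 0) * h z = (N - w.1 0) * h w := by
    intro h
    have := congrFun hzw (N, h)
    unfold fam at this
    simp only at this
    rw [FF_small u N _ z hz.le, FF_small u N _ w hw.le] at this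
    unfold cut at this
    rwa [max_eq_right (by linarith), max_eq_right (by linarith)] at this
  have h0 : (N : ℝ) - z.1 0 = N - w.1 0 := by
    have := key (ContinuousMap.const _ 1)
    simpa using this
  have key2 : ∀ h : C(Z, ℝ), h z = h w := by
    intro h
    have := key h
    rw [← h0] at this
    exact mul_left_cancel₀ (by linarith : (N : ℝ) - z.1 0 ≠ 0) this
  refine Prod.ext (funext fun i => ?_) (funext fun α => ?_)
  · exact key2 ⟨fun z => z.1 i, by fun_prop⟩
  · exact key2 ⟨fun z => z.2 α, by fun_prop⟩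

theorem exists_bump (B : Set (ℕ → ℝ)) (hB : IsOpen B) :
    ∃ h : C(ℕ → ℝ, ℝ), (∀ x, 0 ≤ h x) ∧ ∀ x, 0 < h x ↔ x ∈ B := by
  by_cases hU : B = Set.univ
  · refine ⟨ContinuousMap.const _ 1, fun x => by simp, fun x => by simp [hU]⟩
  · letI : MetricSpace (ℕ → ℝ) := metrizableSpaceMetric (ℕ → ℝ)
    have hne : Bᶜ.Nonempty := Set.nonempty_compl.2 hU
    refine ⟨⟨fun x => Metric.infDist x Bᶜ, Metric.continuous_infDist_pt _⟩,
      fun x => Metric.infDist_nonneg, fun x => ?_⟩
    have := hB.isClosed_compl.notMem_iff_infDist_pos hne (x := x)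
    simp only [Set.mem_compl_iff, not_not] at this
    exact this.symm

theorem exists_u : ∃ u : ℝ → ℝ → ℝ, (∀ α, Continuous (u α)) ∧
    ∀ (N : ℝ) (O : Set (ℝ → ℝ)), IsOpen O → O.Nonempty → ∃ b, N < b ∧ (fun α => u α b) ∈ O := by
  have hP : DenseRange (denseSeq C(ℝ, ℝ)) := denseRange_denseSeq _
  have hex : ∀ α : ℝ, ∃ g : C(ℝ, ℝ), ∀ n : ℕ, g n = denseSeq C(ℝ, ℝ) (Nat.unpair n).1 α := by
    intro α
    obtain ⟨g, hg⟩ := ContinuousMap.exists_extension Nat.isClosedEmbedding_coe_real
      (⟨fun n => denseSeq C(ℝ, ℝ) (Nat.unpair n).1 α, continuous_of_discreteTopology⟩ : C(ℕ, ℝ))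
    exact ⟨g, fun n => DFunLike.congr_fun hg n⟩
  choose g hg using hex
  refine ⟨fun α => g α, fun α => (g α).continuous, ?_⟩
  intro N O hO hne
  obtain ⟨t, ht⟩ := hne
  obtain ⟨I, v, hv, hIv⟩ := isOpen_pi_iff.1 hO t ht
  classical
  have hcont : ∃ f : C(ℝ, ℝ), (f : ℝ → ℝ) ∈ O := by
    refine ⟨⟨fun x => (Lagrange.interpolate I id t).eval x, by fun_prop⟩, hIv ?_⟩
    intro α hα
    have := Lagrange.eval_interpolate_at_node (s := I) (v := id) t (fun _ _ _ _ h => h) hα
    simp only [id] at this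
    simp only [ContinuousMap.coe_mk]
    rw [this]
    exact (hv α hα).2
  have hopen : IsOpen {f : C(ℝ, ℝ) | (f : ℝ → ℝ) ∈ O} := by
    refine hO.preimage (?_ : Continuous fun f : C(ℝ, ℝ) => (f : ℝ → ℝ))
    exact continuous_pi fun x => ContinuousEvalConst.continuous_eval_const x
  obtain ⟨m, hm⟩ := hP.exists_mem_open hopen hcont
  obtain ⟨k, hk⟩ := exists_nat_gt N
  refine ⟨(Nat.pair m k : ℕ), ?_, ?_⟩
  · refine hk.trans_le ?_
    exact_mod_cast Nat.right_le_pair m k
  · have : (fun α => g α (Nat.pair m k : ℕ)) = (denseSeq C(ℝ, ℝ) m : ℝ → ℝ) := by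
      funext α
      rw [hg α (Nat.pair m k)]
      simp
    rw [this]
    exact hm

theorem tau_props {u : ℝ → ℝ → ℝ} (hu : ∀ α, Continuous (u α))
    (hdense : ∀ (N : ℝ) (O : Set (ℝ → ℝ)), IsOpen O → O.Nonempty →
      ∃ b, N < b ∧ (fun α => u α b) ∈ O) :
    @T35Space Z (tau u) ∧ ∃ B : Set (Set Z), B.Countable ∧
      (∀ P ∈ B, @IsOpen Z (tau u) P ∧ P.Nonempty) ∧
      ∀ U : Set Z, @IsOpen Z (tau u) U → U.Nonempty → ∃ P ∈ B, P ⊆ U := by
  refine ⟨?_, ?_⟩
  · exact @Topology.IsEmbedding.t35Space Z (tau u) _ _ _ (fam u)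
      (@Topology.IsEmbedding.mk Z (Idx → ℝ) (tau u) _ (fam u)
        (@Topology.IsInducing.mk Z (Idx → ℝ) (tau u) _ (fam u) rfl) (fam_inj u))
  · choose! bump hbump0 hbump using exists_bump
    let bp : Set (ℕ → ℝ) → C(Z, ℝ) := fun A => (bump A).comp ⟨Prod.fst, continuous_fst⟩
    let V : ℕ → Set (ℕ → ℝ) → Set Z := fun N A => {z | 0 < fam u z (N, bp A)}
    have hVo : ∀ N A, @IsOpen Z (tau u) (V N A) := by
      intro N A
      refine @IsOpen.preimage Z ℝ (tau u) _ (fun z => fam u z (N, bp A)) ?_ _ isOpen_Ioi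
      have h1 : @Continuous Z (Idx → ℝ) (tau u) _ (fam u) := continuous_induced_dom
      exact @Continuous.comp Z (Idx → ℝ) ℝ (tau u) _ _ _ _ (continuous_apply (N, bp A)) h1
    refine ⟨{P | (∃ N : ℕ, ∃ A ∈ countableBasis (ℕ → ℝ), P = V N A) ∧ P.Nonempty}, ?_, ?_, ?_⟩
    · have : {P | (∃ N : ℕ, ∃ A ∈ countableBasis (ℕ → ℝ), P = V N A) ∧ P.Nonempty} ⊆
          ⋃ N : ℕ, (V N) '' (countableBasis (ℕ → ℝ)) := by
        rintro P ⟨⟨N, A, hA, rfl⟩, -⟩
        exact Set.mem_iUnion.2 ⟨N, A, hA, rfl⟩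
      refine Set.Countable.mono this (Set.countable_iUnion fun N => ?_)
      exact (countable_countableBasis _).image _
    · rintro P ⟨⟨N, A, hA, rfl⟩, hne⟩
      exact ⟨hVo N A, hne⟩
    · intro U hU hUne
      obtain ⟨z0, hz0⟩ := hUne
      obtain ⟨O', hO', rfl⟩ := isOpen_induced_iff.1 hU
      obtain ⟨I, v, hv, hIv⟩ := isOpen_pi_iff.1 hO' _ hz0
      -- the bound
      let N1 : ℕ := I.sup fun p => p.1
      have hN1 : ∀ p ∈ I, p.1 ≤ N1 := fun p hp => Finset.le_sup (f := fun p : Idx => p.1) hp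
      let W : Set Z := {z | ∀ p ∈ I, fam u z p ∈ v p}
      have hWo : IsOpen W := by
        have : W = fam u ⁻¹' ((I : Set Idx).pi v) := by
          ext z
          simp [W, Set.mem_pi]
        rw [this]
        exact (isOpen_set_pi I.finite_toSet fun p hp => (hv p hp).1).preimage (fam_cont hu)
      have hz0W : z0 ∈ W := fun p hp => (hv p hp).2
      have hWU : W ⊆ fam u ⁻¹' O' := by
        intro z hz
        exact hIv fun p hp => hz p hp
      have hfar : ∀ z : Z, |z.1 1| + N1 + 2 ≤ z.1 0 → Phi u z ∈ W → z ∈ W := by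
        intro z hz hzW p hp
        have h1 := hzW p hp
        unfold fam at h1 ⊢
        rw [FF_far u p.1 p.2 z ?_]
        · exact h1
        · have : (p.1 : ℝ) ≤ N1 := by exact_mod_cast hN1 p hp
          linarith
      -- choose b
      obtain ⟨b, hb, hbW⟩ := hdense (|z0.1 0| + N1 + 2) {t | (z0.1, t) ∈ W}
        (hWo.preimage (by fun_prop)) ⟨z0.2, hz0W⟩
      let x1 : ℕ → ℝ := fun i => Nat.casesOn i b z0.1
      let G : Set (ℕ → ℝ) := {x | |x 1| + N1 + 2 < x 0 ∧
        ((fun i => x (i + 1), fun α => u α (x 0)) : Z) ∈ W}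
      have hGo : IsOpen G := by
        have h0 : IsOpen {x : ℕ → ℝ | |x 1| + N1 + 2 < x 0} := by
          apply isOpen_lt <;> fun_prop
        refine h0.inter ?_
        have h1 : Continuous fun x : ℕ → ℝ => (fun i => x (i + 1) : ℕ → ℝ) := by fun_prop
        have h2 : Continuous fun x : ℕ → ℝ => (fun α => u α (x 0) : ℝ → ℝ) :=
          continuous_pi fun α => (hu α).comp (continuous_apply 0)
        exact hWo.preimage (h1.prodMk h2)
      have hx1G : x1 ∈ G := ⟨hb, hbW⟩
      obtain ⟨A, hA, hx1A, hAG⟩ :=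
        (isBasis_countableBasis (ℕ → ℝ)).exists_subset_of_mem_open hx1G hGo
      have hAo : IsOpen A := (isBasis_countableBasis (ℕ → ℝ)).isOpen hA
      obtain ⟨N2, hN2⟩ := exists_nat_gt b
      let N : ℕ := max (N1 + 2) N2
      refine ⟨V N A, ⟨⟨N, A, hA, rfl⟩, ?_⟩, ?_⟩
      · refine ⟨(x1, 0), ?_⟩
        change 0 < FF u N (cut N (bp A)) (x1, 0)
        have hbN : b < N := hN2.trans_le (by exact_mod_cast le_max_right _ _)
        rw [FF_small u N _ _ (show x1 0 ≤ N from hbN.le)]
        unfold cut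
        refine mul_pos ?_ ((hbump A hAo x1).2 hx1A)
        refine lt_max_of_lt_right ?_
        change 0 < (N : ℝ) - b
        linarith
      · have hNN : (N1 : ℝ) + 2 ≤ N := by exact_mod_cast le_max_left _ _
        have hcut0 : ∀ z, 0 ≤ cut N (bp A) z := by
          intro z
          exact mul_nonneg (le_max_left _ _) (hbump0 A hAo _)
        have key : ∀ k : ℕ, ∀ z : Z, z.1 0 ≤ k → 0 < FF u N (cut N (bp A)) z → z ∈ W := by
          intro k
          induction k with
          | zero =>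
            intro z hz hpos
            rw [FF_rec] at hpos
            have hl : lam N (z.1 0) (z.1 1) = 0 := by
              apply lam_zero
              have := abs_nonneg (z.1 1)
              push_cast at hz
              have h3 : (0 : ℝ) ≤ N := Nat.cast_nonneg N
              linarith
            rw [hl, zero_mul, add_zero] at hpos
            have hzA : z.1 ∈ A := by
              rw [← hbump A hAo]
              exact pos_right (le_max_left _ _) hpos
            have := hAG hzA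
            exact hfar z this.1.le this.2
          | succ k ih =>
            intro z hz hpos
            rw [FF_rec] at hpos
            by_cases hc : 0 < cut N (bp A) z
            · have hzA : z.1 ∈ A := by
                rw [← hbump A hAo]
                exact pos_right (le_max_left _ _) hc
              have := hAG hzA
              exact hfar z this.1.le this.2
            · have hc0 : cut N (bp A) z = 0 := le_antisymm (not_lt.1 hc) (hcut0 z)
              rw [hc0, zero_add] at hpos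
              have hlp : 0 < lam N (z.1 0) (z.1 1) := by
                rcases (lam_nonneg N (z.1 0) (z.1 1)).lt_or_eq with h | h
                · exact h
                · rw [← h, zero_mul] at hpos
                  exact absurd hpos (lt_irrefl _)
              have hFp : 0 < FF u N (cut N (bp A)) (Phi u z) := by
                exact (pos_iff_pos_of_mul_pos hpos).1 hlp
              have h1 := lam_pos hlp
              refine hfar z (by linarith) (ih _ ?_ hFp)
              change z.1 1 ≤ k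
              have := le_abs_self (z.1 1)
              push_cast at hz
              have h3 : (0 : ℝ) ≤ N := Nat.cast_nonneg N
              linarith
        intro z hz
        apply hWU
        obtain ⟨k, hk⟩ := exists_nat_ge (z.1 0)
        exact key k z hk hz

/-- The negation of the preceding statement: For every Tychonoff space X: if C_p(X) (continuous reals on X, pointwise topology) admits a continuous bijection onto a Tychonoff space with a countable π-base, then X is separable. -/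
theorem result :
    ¬ (∀ (X : Type) [TopologicalSpace X] [T35Space X],
      (∃ (Y : Type) (τ : TopologicalSpace Y), T35Space Y ∧
        ∃ g : C(X, ℝ) → Y, Function.Bijective g ∧
          @Continuous C(X, ℝ) Y
            (TopologicalSpace.induced (fun f : C(X, ℝ) => (⇑f : X → ℝ)) Pi.topologicalSpace)
            τ g ∧
          ∃ B : Set (Set Y), B.Countable ∧
            (∀ P ∈ B, IsOpen P ∧ P.Nonempty) ∧
            ∀ U : Set Y, IsOpen U → U.Nonempty → ∃ P ∈ B, P ⊆ U) →
      SeparableSpace X) := by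
  intro H
  letI tX : TopologicalSpace (ℕ ⊕ ℝ) := ⊥
  haveI : DiscreteTopology (ℕ ⊕ ℝ) := ⟨rfl⟩
  have hns : ¬ SeparableSpace (ℕ ⊕ ℝ) := by
    rw [separableSpace_iff_countable]
    intro hc
    have : Countable ℝ := (Sum.inr_injective (α := ℕ) (β := ℝ)).countable
    exact not_countable this
  apply hns
  refine H (ℕ ⊕ ℝ) ?_
  obtain ⟨u, hu, hdense⟩ := exists_u
  obtain ⟨h35, B, hBc, hBo, hB⟩ := tau_props hu hdense
  refine ⟨Z, tau u, h35, ?_⟩
  refine ⟨fun f => (fun n => f (Sum.inl n), fun α => f (Sum.inr α)), ⟨?_, ?_⟩, ?_, ?_⟩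
  · intro f f' hff
    have h1 := congrArg Prod.fst hff
    have h2 := congrArg Prod.snd hff
    ext x
    rcases x with n | α
    · exact congrFun h1 n
    · exact congrFun h2 α
  · intro z
    refine ⟨⟨Sum.elim z.1 z.2, continuous_of_discreteTopology⟩, ?_⟩
    rfl
  · rw [tau, continuous_induced_rng]
    let e : (ℕ ⊕ ℝ → ℝ) → Z := fun f => (fun n => f (Sum.inl n), fun α => f (Sum.inr α))
    have he : Continuous e := by
      refine Continuous.prodMk ?_ ?_ <;> fun_prop
    have hfe : Continuous (fam u ∘ e) := (fam_cont hu).comp he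
    exact @Continuous.comp C(ℕ ⊕ ℝ, ℝ) (ℕ ⊕ ℝ → ℝ) (Idx → ℝ)
      (TopologicalSpace.induced (fun f : C(ℕ ⊕ ℝ, ℝ) =>
      (⇑f : ℕ ⊕ ℝ → ℝ)) Pi.topologicalSpace) _ _ (fun f => ⇑f) (fam u ∘ e) hfe
      continuous_induced_dom
  · exact ⟨B, hBc, hBo, hB⟩

end Pool.Agent.S08700
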