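import Pool.Statements.S08740

set_option autoImplicit false

open Pool Pool.MP_16af68_gt

namespace Pool.Agent.S08740

open Cardinal Ordinal Set

/-- the initial ordinal of the cardinal aleph (m+1), as a type -/
abbrev W (m : ℕ) : Type := (ℵ_ ((m : Ordinal.{0}) + 1)).ord.ToType

theorem bddW (m : ℕ) {ι : Type} (hι : #ι < ℵ_ ((m : Ordinal.{0}) + 1)) (f : ι → W m) :
    ∃ b, ∀ i, f i < b := by
  by_contra hcon
  push Not at hcon
  have hcof : IsCofinal (Set.range f) := by
    intro b
    obtain ⟨i, hi⟩ := hcon b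
    exact ⟨f i, ⟨i, rfl⟩, hi⟩
  have h1 := Order.cof_le hcof
  rw [Ordinal.cof_toType, (isRegular_aleph_add_one _).cof_ord] at h1
  have h2 : #(Set.range f) ≤ #ι := Cardinal.mk_range_le
  exact absurd (h1.trans h2) (not_le.2 hι)

theorem mkW (m : ℕ) : #(W m) = ℵ_ ((m : Ordinal.{0}) + 1) := mk_ord_toType _

theorem aleph_lt {m n : ℕ} (h : m < n) :
    ℵ_ ((m : Ordinal.{0}) + 1) < ℵ_ ((n : Ordinal.{0}) + 1) := by
  apply aleph_lt_aleph.2
  have : (m : Ordinal.{0}) < n := by exact_mod_cast h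
  simpa using this

instance (m : ℕ) : Nonempty (W m) := by
  rw [← Cardinal.mk_ne_zero_iff, mkW]
  exact (aleph_pos _).ne'

theorem exists_gt' (m : ℕ) (a : W m) : ∃ b, a < b := by
  have : #PUnit.{1} < ℵ_ ((m : Ordinal.{0}) + 1) := by
    have := (isRegular_aleph_add_one (m : Ordinal.{0})).nat_lt 1
    simpa using this
  obtain ⟨b, hb⟩ := bddW m this (fun _ => a)
  exact ⟨b, hb ⟨⟩⟩

theorem bddMono {m n : ℕ} (hmn : m ≠ n) (c : W m → W n) (hc : Monotone c) :
    ∃ b, ∀ a, c a < b := by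
  rcases lt_or_gt_of_ne hmn with h | h
  · exact bddW n (by rw [mkW]; exact aleph_lt h) c
  · by_contra hcon
    push Not at hcon
    choose α hα using hcon
    obtain ⟨a0, ha0⟩ := bddW m (by rw [mkW]; exact aleph_lt h) α
    obtain ⟨b, hb⟩ := exists_gt' n (c a0)
    exact absurd ((hα b).trans (hc (ha0 b).le)) (not_le.2 hb)

/-- the sobrification of `W n` -/
def RR (n : ℕ) : Type := WithTop (W n)

noncomputable instance (n : ℕ) : LinearOrder (RR n) := inferInstanceAs (LinearOrder (WithTop (W n)))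
noncomputable instance (n : ℕ) : OrderTop (RR n) := inferInstanceAs (OrderTop (WithTop (W n)))
instance (n : ℕ) : WellFoundedLT (RR n) := inferInstanceAs (WellFoundedLT (WithTop (W n)))

def emb {n : ℕ} (a : W n) : RR n := (WithTop.some a : WithTop (W n))

theorem emb_lt {n : ℕ} {a b : W n} : emb a < emb b ↔ a < b := WithTop.coe_lt_coe
theorem emb_le {n : ℕ} {a b : W n} : emb a ≤ emb b ↔ a ≤ b := WithTop.coe_le_coe
theorem emb_ne {n : ℕ} (a : W n) : emb a ≠ ⊤ := WithTop.coe_ne_top
theorem exists_emb {n : ℕ} {x : RR n} (hx : x ≠ ⊤) : ∃ a, emb a = x :=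
  WithTop.ne_top_iff_exists.1 hx

instance (n : ℕ) : TopologicalSpace (RR n) where
  IsOpen U := U = Set.univ ∨ ∀ x ∈ U, ∃ a, a < x ∧ Ioi a ⊆ U
  isOpen_univ := Or.inl rfl
  isOpen_inter := by
    rintro U V (rfl | hU) (rfl | hV)
    · left; simp
    · right; simpa using hV
    · right; simpa using hU
    · right
      rintro x ⟨hxU, hxV⟩
      obtain ⟨a, ha, haU⟩ := hU x hxU
      obtain ⟨b, hb, hbV⟩ := hV x hxV
      refine ⟨max a b, max_lt ha hb, ?_⟩
      intro y hy
      have := max_lt_iff.1 (show max a b < y from hy)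
      exact ⟨haU this.1, hbV this.2⟩
  isOpen_sUnion := by
    intro S hS
    by_cases h : Set.univ ∈ S
    · left
      exact eq_univ_of_univ_subset (subset_sUnion_of_mem h)
    · right
      rintro x ⟨U, hU, hx⟩
      rcases hS U hU with rfl | h1
      · exact absurd hU h
      · obtain ⟨a, ha, haU⟩ := h1 x hx
        exact ⟨a, ha, haU.trans (subset_sUnion_of_mem hU)⟩

theorem isOpen_RR {n : ℕ} {U : Set (RR n)} :
    IsOpen U ↔ U = Set.univ ∨ ∀ x ∈ U, ∃ a, a < x ∧ Ioi a ⊆ U := Iff.rfl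

theorem isOpen_Ioi_RR {n : ℕ} (a : RR n) : IsOpen (Set.Ioi a) :=
  isOpen_RR.2 (Or.inr fun _ hx => ⟨a, hx, subset_rfl⟩)

theorem spec_RR {n : ℕ} {x y : RR n} : x ⤳ y ↔ y ≤ x := by
  rw [specializes_iff_forall_open]
  constructor
  · intro h
    by_contra hxy
    exact lt_irrefl x (h (Set.Ioi x) (isOpen_Ioi_RR x) (not_le.1 hxy))
  · intro h U hU' hy
    rcases isOpen_RR.1 hU' with rfl | hU
    · trivial
    · obtain ⟨a, ha, haU⟩ := hU y hy
      exact haU (lt_of_lt_of_le ha h)

instance (n : ℕ) : T0Space (RR n) := by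
  refine ⟨fun x y h => ?_⟩
  exact le_antisymm (spec_RR.1 h.symm.specializes) (spec_RR.1 h.specializes)

/-- generic points of a chain -/
def Gen {m : ℕ} {X : Type} [TopologicalSpace X] (c : W m → X) (x : X) : Prop :=
  ∀ U : Set X, IsOpen U → (x ∈ U ↔ ∃ a, c a ∈ U)

def Chain {m : ℕ} {X : Type} [TopologicalSpace X] (c : W m → X) : Prop :=
  ∀ a b, a ≤ b → c b ⤳ c a

/-- the category -/
def KK (X : Type) [TopologicalSpace X] : Prop :=
  T0Space X ∧ ∀ (m : ℕ) (c : W m → X), Chain c → ∃ x, Gen c x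

section
variable {X Y : Type} [TopologicalSpace X] [TopologicalSpace Y] {m : ℕ}

theorem Gen.map {c : W m → X} {x : X} (h : Gen c x) {f : X → Y} (hf : Continuous f) :
    Gen (f ∘ c) (f x) := fun U hU => h _ (hU.preimage hf)

theorem Chain.map {c : W m → X} (h : Chain c) {f : X → Y} (hf : Continuous f) :
    Chain (f ∘ c) := fun a b hab => (h a b hab).map hf

theorem Gen.unique [T0Space X] {c : W m → X} {x y : X} (hx : Gen c x) (hy : Gen c y) : x = y := by
  apply T0Space.t0
  rw [inseparable_iff_forall_isOpen]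
  intro U hU
  rw [hx U hU, hy U hU]

theorem Gen.sub {A : Set X} {c : W m → A} {p : X} (hp : p ∈ A)
    (h : Gen (fun a => (c a : X)) p) : Gen c ⟨p, hp⟩ := by
  intro U hU
  obtain ⟨V, hV, rfl⟩ := isOpen_induced_iff.1 hU
  exact h V hV

theorem Gen.spec {c : W m → X} {x : X} (h : Gen c x) (a : W m) : x ⤳ c a := by
  rw [specializes_iff_forall_open]
  intro U hU ha
  exact (h U hU).2 ⟨a, ha⟩

theorem sober_gen [QuasiSober X] {c : W m → X} (hc : Chain c) : ∃ x, Gen c x := by
  have hirr : IsIrreducible (range c) := by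
    refine ⟨range_nonempty c, ?_⟩
    rintro U V hU hV ⟨_, ⟨a, rfl⟩, ha⟩ ⟨_, ⟨b, rfl⟩, hb⟩
    refine ⟨c (max a b), ⟨_, rfl⟩, ?_, ?_⟩
    · exact (hc a _ (le_max_left _ _)).mem_open hU ha
    · exact (hc b _ (le_max_right _ _)).mem_open hV hb
  obtain ⟨x, hx⟩ := QuasiSober.sober hirr.closure isClosed_closure
  refine ⟨x, fun U hU => ?_⟩
  constructor
  · intro hxU
    have : x ∈ closure (range c) := hx.mem
    obtain ⟨_, h1, ⟨a, rfl⟩⟩ := mem_closure_iff.1 this U hU hxU
    exact ⟨a, h1⟩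
  · rintro ⟨a, ha⟩
    have : c a ∈ closure {x} := by
      rw [hx.def]
      exact subset_closure ⟨a, rfl⟩
    exact (specializes_iff_mem_closure.2 this).mem_open hU ha

end

theorem KK_of_sober (X : Type) [TopologicalSpace X] [T0Space X] [QuasiSober X] : KK X :=
  ⟨inferInstance, fun _ _ hc => sober_gen hc⟩

theorem gen_RR {n m : ℕ} {c : W m → RR n} {s : RR n} (hs : IsLUB (range c) s) : Gen c s := by
  intro U hU'
  rcases isOpen_RR.1 hU' with rfl | hU
  · simp
  · constructor
    · intro h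
      obtain ⟨a, ha, haU⟩ := hU s h
      obtain ⟨_, ⟨b, rfl⟩, hb⟩ := (lt_isLUB_iff hs).1 ha
      exact ⟨b, haU hb⟩
    · rintro ⟨b, hb⟩
      obtain ⟨a, ha, haU⟩ := hU _ hb
      exact haU (lt_of_lt_of_le ha (hs.1 ⟨b, rfl⟩))

theorem exists_lub {n : ℕ} (S : Set (RR n)) : ∃ s, IsLUB S s := by
  have hne : (upperBounds S).Nonempty := ⟨⊤, fun _ _ => le_top⟩
  have hwf : WellFounded ((· < ·) : RR n → RR n → Prop) := wellFounded_lt
  refine ⟨hwf.min (upperBounds S) hne, hwf.min_mem _ hne, ?_⟩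
  intro b hb
  exact not_lt.1 (hwf.not_lt_min _ hb)

theorem KK_RR (n : ℕ) : KK (RR n) := by
  refine ⟨inferInstance, fun m c hc => ?_⟩
  obtain ⟨s, hs⟩ := exists_lub (range c)
  exact ⟨s, gen_RR hs⟩

theorem cntW (m : ℕ) : #ℕ < ℵ_ ((m : Ordinal.{0}) + 1) := by
  rw [Cardinal.mk_nat]
  refine Cardinal.aleph0_lt_aleph_one.trans_le (aleph_le_aleph.2 ?_)
  simp

/-- points with finitely many top coordinates -/
def YY : Set (∀ n : ℕ, RR n) := {x | {n | x n = ⊤}.Finite}

theorem gen_prod {m : ℕ} {c : W m → ∀ n : ℕ, RR n} (hc : Chain c) {p : ∀ n : ℕ, RR n}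
    (hp : ∀ n, IsLUB (range fun a => c a n) (p n)) : Gen c p := by
  intro U hU
  constructor
  · intro hpU
    obtain ⟨I, v, hv, hIv⟩ := isOpen_pi_iff.1 hU p hpU
    have h1 : ∀ n : ℕ, ∃ a : W m, n ∈ I → c a n ∈ v n := by
      intro n
      by_cases hn : n ∈ I
      · obtain ⟨a, ha⟩ := (gen_RR (hp n) (v n) (hv n hn).1).1 (hv n hn).2
        exact ⟨a, fun _ => ha⟩
      · obtain ⟨a⟩ := (inferInstance : Nonempty (W m))
        exact ⟨a, fun h => absurd h hn⟩
    choose α hα using h1
    obtain ⟨a0, ha0⟩ := bddW m (ι := ℕ) (cntW m) α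
    refine ⟨a0, hIv fun n hn => ?_⟩
    have h3 := (hc (α n) a0 (ha0 n).le).map (continuous_apply n)
    exact h3.mem_open (hv n hn).1 (hα n hn)
  · rintro ⟨a, ha⟩
    have : p ⤳ c a := by
      rw [specializes_pi]
      intro n
      rw [spec_RR]
      exact (hp n).1 ⟨a, rfl⟩
    exact this.mem_open hU ha

theorem Chain.mono {m n : ℕ} {c : W m → RR n} (hc : Chain c) : Monotone c :=
  fun a b hab => spec_RR.1 (hc a b hab)

theorem KK_YY : KK YY := by
  refine ⟨inferInstance, fun m c hc => ?_⟩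
  have hc' : Chain (fun a => (c a : ∀ n : ℕ, RR n)) := hc.map continuous_subtype_val
  choose p hp using fun n => exists_lub (range fun a => (c a : ∀ n : ℕ, RR n) n)
  have hg := gen_prod hc' hp
  refine ⟨⟨p, ?_⟩, hg.sub _⟩
  have hcn : ∀ n, Chain (fun a => (c a : ∀ n : ℕ, RR n) n) := fun n =>
    hc'.map (continuous_apply n)
  have hfin : {n : ℕ | ∃ a, (c a : ∀ n : ℕ, RR n) n = ⊤}.Finite := by
    have h1 : ∀ n : ℕ, ∃ a : W m, (∃ a, (c a : ∀ n : ℕ, RR n) n = ⊤) →
        (c a : ∀ n : ℕ, RR n) n = ⊤ := by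
      intro n
      by_cases h : ∃ a, (c a : ∀ n : ℕ, RR n) n = ⊤
      · obtain ⟨a, ha⟩ := h
        exact ⟨a, fun _ => ha⟩
      · obtain ⟨a⟩ := (inferInstance : Nonempty (W m))
        exact ⟨a, fun h' => absurd h' h⟩
    choose α hα using h1
    obtain ⟨a0, ha0⟩ := bddW m (ι := ℕ) (cntW m) α
    refine (c a0).2.subset ?_
    intro n hn
    have h3 := (hcn n).mono (ha0 n).le
    have h4 := hα n hn
    change (c (α n) : ∀ n : ℕ, RR n) n ≤ (c a0 : ∀ n : ℕ, RR n) n at h3
    rw [h4] at h3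
    exact top_le_iff.1 h3
  refine (hfin.union (Set.finite_singleton m)).subset ?_
  intro n hn
  by_contra hcon
  simp only [mem_union, mem_setOf_eq, mem_singleton_iff, not_or, not_exists] at hcon
  obtain ⟨h1, h2⟩ := hcon
  choose d hd using fun a => exists_emb (h1 a)
  have hdm : Monotone d := by
    intro a b hab
    have := (hcn n).mono hab
    simp only [← hd] at this
    exact emb_le.1 this
  obtain ⟨b, hb⟩ := bddMono (Ne.symm h2) d hdm
  have hub : p n ≤ emb b := by
    apply (hp n).2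
    rintro _ ⟨a, rfl⟩
    simp only [← hd]
    exact emb_le.2 (hb a).le
  have : p n = ⊤ := hn
  rw [this] at hub
  exact emb_ne b (top_le_iff.1 hub)

abbrev XX (n : ℕ) : Type := {x : RR n // x ≠ ⊤}

theorem XX_refl (n : ℕ) (Z : Type) [TopologicalSpace Z] (hZ : KK Z) (g : XX n → Z)
    (hg : Continuous g) :
    ∃! h : RR n → Z, Continuous h ∧ h ∘ (Subtype.val : XX n → RR n) = g := by
  haveI := hZ.1
  let c : W n → XX n := fun a => ⟨emb a, emb_ne a⟩
  have hc : Chain c := by
    intro a b hab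
    rw [subtype_specializes_iff]
    exact spec_RR.2 (emb_le.2 hab)
  have hrange : ∀ x : XX n, ∃ a, c a = x := by
    intro x
    obtain ⟨a, ha⟩ := exists_emb x.2
    exact ⟨a, Subtype.ext ha⟩
  obtain ⟨z, hz⟩ := hZ.2 n (g ∘ c) (hc.map hg)
  have htop : Gen (fun a => ((c a : XX n) : RR n)) ⊤ := by
    apply gen_RR
    refine ⟨fun _ _ => le_top, ?_⟩
    intro b hb
    by_contra hbt
    obtain ⟨b', rfl⟩ := exists_emb (fun h => hbt (h ▸ le_rfl) : b ≠ ⊤)
    obtain ⟨b2, hb2⟩ := exists_gt' n b'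
    exact absurd (emb_le.1 (hb ⟨b2, rfl⟩)) (not_le.2 hb2)
  classical
  let h : RR n → Z := fun x => if hx : x = ⊤ then z else g ⟨x, hx⟩
  have hht : h ⊤ = z := by simp [h]
  have hhx : ∀ x : XX n, h x = g x := by
    intro x
    simp [h, x.2]
  refine ⟨h, ⟨?_, funext hhx⟩, ?_⟩
  · rw [continuous_def]
    intro U hU
    obtain ⟨V, hV, hVU⟩ := isOpen_induced_iff.1 (hU.preimage hg)
    by_cases hne : z ∈ U
    · have : h ⁻¹' U = V := by
        ext x
        by_cases hx : x = ⊤
        · subst hx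
          simp only [mem_preimage, hht]
          refine ⟨fun _ => ?_, fun _ => hne⟩
          obtain ⟨a, ha⟩ := (hz U hU).1 hne
          refine (htop V hV).2 ⟨a, ?_⟩
          have : c a ∈ g ⁻¹' U := ha
          rw [← hVU] at this
          exact this
        · have h1 := hhx ⟨x, hx⟩
          simp only [mem_preimage]
          rw [h1]
          have h2 : (⟨x, hx⟩ : XX n) ∈ g ⁻¹' U ↔ (⟨x, hx⟩ : XX n) ∈ Subtype.val ⁻¹' V := by
            rw [← hVU]
          exact h2
      rw [this]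
      exact hV
    · have : h ⁻¹' U = ∅ := by
        ext x
        simp only [mem_preimage, mem_empty_iff_false, iff_false]
        by_cases hx : x = ⊤
        · subst hx
          rw [hht]
          exact hne
        · have h1 := hhx ⟨x, hx⟩
          simp only at h1
          rw [h1]
          intro hgU
          obtain ⟨a, ha⟩ := hrange ⟨x, hx⟩
          apply hne
          refine (hz U hU).2 ⟨a, ?_⟩
          simp only [Function.comp_apply, ha]
          exact hgU
      rw [this]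
      exact isOpen_empty
  · rintro h' ⟨hc', hh'⟩
    have hx' : ∀ x : XX n, h' x = g x := fun x => congrFun hh' x
    funext x
    by_cases hx : x = ⊤
    · subst hx
      rw [hht]
      have h1 := htop.map hc'
      refine Gen.unique h1 ?_
      have : (h' ∘ fun a => ((c a : XX n) : RR n)) = g ∘ c := by
        funext a
        exact hx' (c a)
      rw [this]
      exact hz
    · have := hx' ⟨x, hx⟩
      have h2 := hhx ⟨x, hx⟩
      simp only at this h2
      rw [this, h2]

/-- The negation of the preceding statement: For every Keimel–Lawson category K and every family of T0 spaces with K-reflections ηᵢ, the product of the ηᵢ is a K-reflection of the product space, so the K-reflection preserves arbitrary products. -/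
theorem result :
    ¬ (∀ (K : (X : Type) → [TopologicalSpace X] → Prop),
    (∀ (X : Type) [TopologicalSpace X], K X → T0Space X) →
    (∀ (X : Type) [TopologicalSpace X] [T0Space X] [QuasiSober X], K X) →
    (∀ (X Y : Type) [TopologicalSpace X] [TopologicalSpace Y],
        Nonempty (X ≃ₜ Y) → K X → K Y) →
    (∀ (Y : Type) [TopologicalSpace Y] [T0Space Y] [QuasiSober Y] (S : Set (Set Y)),
        (∀ A ∈ S, K ↥A) → K ↥(⋂₀ S)) →
    (∀ (X Y : Type) [TopologicalSpace X] [TopologicalSpace Y] [T0Space X] [QuasiSober X]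
        [T0Space Y] [QuasiSober Y] (f : X → Y), Continuous f →
        ∀ B : Set Y, K ↥B → K ↥(f ⁻¹' B)) →
    ∀ (I : Type) (X R : I → Type) [∀ i, TopologicalSpace (X i)] [∀ i, T0Space (X i)]
      [∀ i, TopologicalSpace (R i)] (η : ∀ i, X i → R i),
      (∀ i, Continuous (η i) ∧ K (R i) ∧
        ∀ (Z : Type) [TopologicalSpace Z], K Z → ∀ g : X i → Z, Continuous g →
          ∃! h : R i → Z, Continuous h ∧ h ∘ η i = g) →
      (Continuous (fun (x : ∀ i, X i) (i : I) => η i (x i)) ∧ K (∀ i, R i) ∧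
        ∀ (Z : Type) [TopologicalSpace Z], K Z → ∀ g : (∀ i, X i) → Z, Continuous g →
          ∃! h : (∀ i, R i) → Z, Continuous h ∧
            (h ∘ fun (x : ∀ i, X i) (i : I) => η i (x i)) = g)) := by
  intro H
  have H1 := H (@KK) (fun X _ h => h.1) (fun X _ _ _ => KK_of_sober X) ?_ ?_ ?_ ℕ XX RR
    (fun n => Subtype.val) ?_
  · obtain ⟨-, -, h3⟩ := H1
    let g : (∀ n, XX n) → YY := fun x => ⟨fun n => (x n : RR n), by
      have : {n : ℕ | (x n : RR n) = ⊤} = ∅ := by
        ext n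
        simpa using (x n).2
      change {n : ℕ | (x n : RR n) = ⊤}.Finite
      rw [this]
      exact Set.finite_empty⟩
    have hg : Continuous g := by
      refine Continuous.subtype_mk ?_ _
      exact continuous_pi fun n => continuous_subtype_val.comp (continuous_apply n)
    obtain ⟨h, ⟨hh, hhg⟩, -⟩ := h3 YY KK_YY g hg
    let y : ∀ n : ℕ, RR n := (h fun _ => ⊤ : YY)
    have hy : {n | y n = ⊤}.Finite := (h fun _ => ⊤ : YY).2
    obtain ⟨n, hn⟩ := hy.exists_notMem
    obtain ⟨a, ha⟩ := exists_emb (show y n ≠ ⊤ from hn)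
    obtain ⟨b, hb⟩ := exists_gt' n a
    let w : ∀ k, XX k := fun k =>
      if hk : k = n then ⟨emb (hk ▸ b), emb_ne _⟩ else ⟨emb (Classical.arbitrary (W k)), emb_ne _⟩
    have hw : ((w n : XX n) : RR n) = emb b := by
      simp [w]
    have hsp : (fun _ => ⊤ : ∀ n : ℕ, RR n) ⤳ fun k => (w k : RR k) := by
      rw [specializes_pi]
      intro k
      rw [spec_RR]
      exact le_top
    have h5 := hsp.map hh
    have h6 : h (fun k => (w k : RR k)) = g w := congrFun hhg w
    rw [h6, subtype_specializes_iff, specializes_pi] at h5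
    have h7 := spec_RR.1 (h5 n)
    have h8 : (w n : RR n) ≤ y n := h7
    rw [hw, ← ha] at h8
    exact absurd (emb_le.1 h8) (not_le.2 hb)
  · rintro X Y _ _ ⟨e⟩ ⟨h0, hX⟩
    refine ⟨e.symm.isEmbedding.t0Space, fun m c hc => ?_⟩
    obtain ⟨x, hx⟩ := hX m (e.symm ∘ c) (hc.map e.symm.continuous)
    refine ⟨e x, ?_⟩
    have := hx.map e.continuous
    have h2 : (⇑e ∘ ⇑e.symm ∘ c) = c := by
      funext a
      simp
    rwa [h2] at this
  · intro Y _ _ _ S hS
    refine ⟨inferInstance, fun m c hc => ?_⟩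
    have hc' : Chain (fun a => (c a : Y)) := hc.map continuous_subtype_val
    obtain ⟨y, hy⟩ := sober_gen hc'
    refine ⟨⟨y, ?_⟩, hy.sub _⟩
    intro A hA
    let d : W m → A := fun a => ⟨c a, (c a).2 A hA⟩
    have hd : Chain d := by
      intro a b hab
      rw [subtype_specializes_iff]
      exact hc' a b hab
    obtain ⟨a, ha⟩ := (hS A hA).2 m d hd
    have h2 := ha.map continuous_subtype_val
    have h3 : (a : Y) = y := Gen.unique h2 hy
    rw [← h3]
    exact a.2
  · intro X Y _ _ _ _ _ _ f hf B hB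
    refine ⟨inferInstance, fun m c hc => ?_⟩
    have hc' : Chain (fun a => (c a : X)) := hc.map continuous_subtype_val
    obtain ⟨x, hx⟩ := sober_gen hc'
    refine ⟨⟨x, ?_⟩, hx.sub _⟩
    let d : W m → B := fun a => ⟨f (c a), (c a).2⟩
    have hd : Chain d := by
      intro a b hab
      rw [subtype_specializes_iff]
      exact (hc' a b hab).map hf
    obtain ⟨b, hb⟩ := hB.2 m d hd
    have h2 := hb.map continuous_subtype_val
    have h3 : (b : Y) = f x := Gen.unique h2 (hx.map hf)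
    change f x ∈ B
    rw [← h3]
    exact b.2
  · intro n
    refine ⟨continuous_subtype_val, KK_RR n, ?_⟩
    intro Z _ hZ g hg
    exact XX_refl n Z hZ g hg

end Pool.Agent.S08740
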