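import Pool.Statements.S08750

set_option autoImplicit false
open Pool Pool.MP_182cc9_gt
open Filter Topology

namespace Pool.Agent.S08750

/-- first discrete index set -/
structure A1 where
  y : unitInterval
  w : ℝ

/-- second discrete index set -/
structure A2 where
  y : unitInterval
  m : ℕ

instance : TopologicalSpace A1 := ⊥
instance : DiscreteTopology A1 := ⟨rfl⟩
instance : TopologicalSpace A2 := ⊥
instance : DiscreteTopology A2 := ⟨rfl⟩

/-- the space -/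
abbrev XX : Type := OnePoint A1 × OnePoint A2 × unitInterval

def pt1 (a : A1) : XX := ((a : OnePoint A1), (OnePoint.infty, a.y))

def pt2 (b : A2) : XX := (OnePoint.infty, ((b : OnePoint A2), b.y))

def ZZ : Set XX := Set.range pt1 ∪ Set.range pt2

theorem tendsto_inf {A : Type} [TopologicalSpace A] [DiscreteTopology A] {ι : Type} {l : Filter ι}
    (f : ι → A) (hf : Tendsto f l cofinite) :
    Tendsto (fun i => (f i : OnePoint A)) l (𝓝 OnePoint.infty) := by
  have h1 : Tendsto (fun a : A => (a : OnePoint A)) (coclosedCompact A) (𝓝 OnePoint.infty) :=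
    OnePoint.tendsto_coe_infty
  rw [coclosedCompact_eq_cocompact, cocompact_eq_cofinite] at h1
  exact h1.comp hf

theorem keyL (U V : Set XX) (hU : IsOpen U) (hV : IsOpen V) (hUV : Disjoint U V)
    (y : ℕ → unitInterval) (y0 : unitInterval) (hy : Tendsto y atTop (𝓝 y0))
    (m : ℕ → ℕ) (hm : ∀ k, k ≤ m k) (hmem : ∀ k, pt2 ⟨y k, m k⟩ ∈ V) :
    {w : ℝ | pt1 ⟨y0, w⟩ ∈ U}.Countable := by
  -- exceptional sets
  have hfin : ∀ k, {a : A1 | ((a : OnePoint A1), (((⟨y k, m k⟩ : A2) : OnePoint A2), y k)) ∉ V}.Finite := by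
    intro k
    have ht : Tendsto (fun a : A1 => (((a : OnePoint A1), (((⟨y k, m k⟩ : A2) : OnePoint A2), y k)) : XX))
        cofinite (𝓝 (pt2 ⟨y k, m k⟩)) := by
      unfold pt2
      rw [nhds_prod_eq]
      exact (tendsto_inf (fun a : A1 => a) tendsto_id).prodMk tendsto_const_nhds
    have := ht.eventually (hV.mem_nhds (hmem k))
    rw [eventually_cofinite] at this
    exact this
  have hcount : (⋃ k, {a : A1 | ((a : OnePoint A1), (((⟨y k, m k⟩ : A2) : OnePoint A2), y k)) ∉ V}).Countable :=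
    Set.countable_iUnion (fun k => (hfin k).countable)
  have hinj : Function.Injective (fun w : ℝ => (⟨y0, w⟩ : A1)) := by
    intro w w' h
    exact congrArg A1.w h
  refine (hcount.preimage_of_injOn (f := fun w : ℝ => (⟨y0, w⟩ : A1)) hinj.injOn).mono ?_
  intro w hw
  by_contra hcon
  simp only [Set.mem_preimage, Set.mem_iUnion, not_exists, Set.mem_ofPred_eq, not_not] at hcon
  have hcof : Tendsto (fun k => (⟨y k, m k⟩ : A2)) atTop cofinite := by
    intro s hs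
    rw [mem_cofinite] at hs
    obtain ⟨B, hB⟩ := (hs.image A2.m).bddAbove
    rw [mem_map, mem_atTop_sets]
    refine ⟨B + 1, fun k hk => ?_⟩
    by_contra hks
    have h1 : m k ≤ B := hB ⟨⟨y k, m k⟩, hks, rfl⟩
    have h2 := hm k
    omega
  have ht : Tendsto (fun k => ((((⟨y0, w⟩ : A1) : OnePoint A1), (((⟨y k, m k⟩ : A2) : OnePoint A2), y k)) : XX))
      atTop (𝓝 (pt1 ⟨y0, w⟩)) := by
    unfold pt1
    rw [nhds_prod_eq, nhds_prod_eq]
    exact tendsto_const_nhds.prodMk ((tendsto_inf _ hcof).prodMk hy)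
  have hev := ht.eventually (hU.mem_nhds hw)
  obtain ⟨k, hk⟩ := hev.exists
  exact Set.disjoint_left.mp hUV hk (hcon k)

theorem exists_ge_seq (s : ℕ → Set ℕ) (hs : ∀ k, (s k).Infinite) :
    ∃ m : ℕ → ℕ, ∀ k, k ≤ m k ∧ m k ∈ s k := by
  have : ∀ k, ∃ m, k ≤ m ∧ m ∈ s k := by
    intro k
    obtain ⟨m, hm, hk⟩ := (hs k).exists_gt k
    exact ⟨m, hk.le, hm⟩
  choose m hm using this
  exact ⟨m, hm⟩

theorem closed_type (U V : Set XX) (hU : IsOpen U) (hV : IsOpen V) (hUV : Disjoint U V)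
    (hZ : ZZ ⊆ U ∪ V) : IsClosed {y : unitInterval | {m : ℕ | pt2 ⟨y, m⟩ ∈ V}.Infinite} := by
  apply IsSeqClosed.isClosed
  intro y y0 hy hlim
  obtain ⟨m, hm⟩ := exists_ge_seq (fun k => {m : ℕ | pt2 ⟨y k, m⟩ ∈ V}) hy
  have h1 := keyL U V hU hV hUV y y0 hlim m (fun k => (hm k).1) (fun k => (hm k).2)
  by_contra hfin
  have hUinf : {m : ℕ | pt2 ⟨y0, m⟩ ∈ U}.Infinite := by
    intro hfU
    have hcov : (Set.univ : Set ℕ) ⊆ {m : ℕ | pt2 ⟨y0, m⟩ ∈ U} ∪ {m : ℕ | pt2 ⟨y0, m⟩ ∈ V} := by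
      intro m _
      exact hZ (Or.inr ⟨_, rfl⟩)
    have hfV : {m : ℕ | pt2 ⟨y0, m⟩ ∈ V}.Finite := Set.not_infinite.mp hfin
    exact Set.infinite_univ ((hfU.union hfV).subset hcov)
  obtain ⟨m', hm'⟩ := exists_ge_seq (fun _ => {m : ℕ | pt2 ⟨y0, m⟩ ∈ U}) (fun _ => hUinf)
  have h2 := keyL V U hV hU hUV.symm (fun _ => y0) y0 tendsto_const_nhds m'
    (fun k => (hm' k).1) (fun k => (hm' k).2)
  have hcov : (Set.univ : Set ℝ) ⊆ {w : ℝ | pt1 ⟨y0, w⟩ ∈ U} ∪ {w : ℝ | pt1 ⟨y0, w⟩ ∈ V} := by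
    intro w _
    exact hZ (Or.inl ⟨_, rfl⟩)
  exact Cardinal.not_countable_real ((h1.union h2).mono hcov)

theorem no_partition (U V : Set XX) (hU : IsOpen U) (hV : IsOpen V) (hUV : Disjoint U V)
    (hZ : ZZ ⊆ U ∪ V) (hF : {x : XX | x.2.2 = 0} ⊆ U) (hG : {x : XX | x.2.2 = 1} ⊆ V) : False := by
  have hc1 := closed_type U V hU hV hUV hZ
  have hc2 := closed_type V U hV hU hUV.symm (by rw [Set.union_comm]; exact hZ)
  have hcov : (Set.univ : Set unitInterval) ⊆ {y : unitInterval | {m : ℕ | pt2 ⟨y, m⟩ ∈ V}.Infinite} ∪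
      {y : unitInterval | {m : ℕ | pt2 ⟨y, m⟩ ∈ U}.Infinite} := by
    intro y _
    by_contra hcon
    simp only [Set.mem_union, Set.mem_ofPred_eq, not_or, Set.not_infinite] at hcon
    have hcov : (Set.univ : Set ℕ) ⊆ {m : ℕ | pt2 ⟨y, m⟩ ∈ V} ∪ {m : ℕ | pt2 ⟨y, m⟩ ∈ U} := by
      intro m _
      exact (hZ (Or.inr ⟨_, rfl⟩)).symm
    exact Set.infinite_univ ((hcon.1.union hcon.2).subset hcov)
  have h0 : (0 : unitInterval) ∈ {y : unitInterval | {m : ℕ | pt2 ⟨y, m⟩ ∈ U}.Infinite} := by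
    have : {m : ℕ | pt2 ⟨0, m⟩ ∈ U} = Set.univ := by
      ext m
      simp only [Set.mem_ofPred_eq, Set.mem_univ, iff_true]
      exact hF rfl
    rw [Set.mem_ofPred_eq, this]
    exact Set.infinite_univ
  have h1 : (1 : unitInterval) ∈ {y : unitInterval | {m : ℕ | pt2 ⟨y, m⟩ ∈ V}.Infinite} := by
    have : {m : ℕ | pt2 ⟨1, m⟩ ∈ V} = Set.univ := by
      ext m
      simp only [Set.mem_ofPred_eq, Set.mem_univ, iff_true]
      exact hG rfl
    rw [Set.mem_ofPred_eq, this]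
    exact Set.infinite_univ
  have hpre : IsPreconnected (Set.univ : Set unitInterval) := isPreconnected_univ
  rw [isPreconnected_closed_iff] at hpre
  obtain ⟨y, -, hy1, hy2⟩ := hpre _ _ hc1 hc2 hcov ⟨1, Set.mem_univ _, h1⟩ ⟨0, Set.mem_univ _, h0⟩
  obtain ⟨m, hm⟩ := exists_ge_seq (fun _ => {m : ℕ | pt2 ⟨y, m⟩ ∈ V}) (fun _ => hy1)
  obtain ⟨m', hm'⟩ := exists_ge_seq (fun _ => {m : ℕ | pt2 ⟨y, m⟩ ∈ U}) (fun _ => hy2)
  have h3 := keyL U V hU hV hUV (fun _ => y) y tendsto_const_nhds m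
    (fun k => (hm k).1) (fun k => (hm k).2)
  have h4 := keyL V U hV hU hUV.symm (fun _ => y) y tendsto_const_nhds m'
    (fun k => (hm' k).1) (fun k => (hm' k).2)
  have hcov : (Set.univ : Set ℝ) ⊆ {w : ℝ | pt1 ⟨y, w⟩ ∈ U} ∪ {w : ℝ | pt1 ⟨y, w⟩ ∈ V} := by
    intro w _
    exact hZ (Or.inl ⟨_, rfl⟩)
  exact Cardinal.not_countable_real ((h3.union h4).mono hcov)

theorem ZZ_discrete (A : Set XX) (hA : A ⊆ ZZ) : ∃ O : Set XX, IsOpen O ∧ A = ZZ ∩ O := by
  let O1 : A1 → Set XX := fun a => {x | x.1 = (a : OnePoint A1)}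
  let O2 : A2 → Set XX := fun b => {x | x.2.1 = (b : OnePoint A2)}
  have h1 : ∀ a, IsOpen (O1 a) := by
    intro a
    have : IsOpen ({(a : OnePoint A1)} : Set (OnePoint A1)) := by
      have := OnePoint.isOpenEmbedding_coe.isOpenMap {a} (isOpen_discrete _)
      simpa using this
    exact this.preimage continuous_fst
  have h2 : ∀ b, IsOpen (O2 b) := by
    intro b
    have : IsOpen ({(b : OnePoint A2)} : Set (OnePoint A2)) := by
      have := OnePoint.isOpenEmbedding_coe.isOpenMap {b} (isOpen_discrete _)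
      simpa using this
    exact this.preimage (continuous_fst.comp continuous_snd)
  refine ⟨(⋃ a ∈ {a | pt1 a ∈ A}, O1 a) ∪ (⋃ b ∈ {b | pt2 b ∈ A}, O2 b),
    (isOpen_biUnion (fun a _ => h1 a)).union (isOpen_biUnion (fun b _ => h2 b)), ?_⟩
  ext x
  constructor
  · intro hx
    refine ⟨hA hx, ?_⟩
    rcases hA hx with ⟨a, rfl⟩ | ⟨b, rfl⟩
    · left
      simp only [Set.mem_iUnion]
      exact ⟨a, hx, rfl⟩
    · right
      simp only [Set.mem_iUnion]
      exact ⟨b, hx, rfl⟩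
  · rintro ⟨hx, hO⟩
    rcases hO with hO | hO
    · simp only [Set.mem_iUnion] at hO
      obtain ⟨a, ha, hxa⟩ := hO
      rcases hx with ⟨a', rfl⟩ | ⟨b, rfl⟩
      · have : a' = a := OnePoint.coe_injective hxa
        rw [this]; exact ha
      · exact absurd hxa (OnePoint.infty_ne_coe a)
    · simp only [Set.mem_iUnion] at hO
      obtain ⟨b, hb, hxb⟩ := hO
      rcases hx with ⟨a, rfl⟩ | ⟨b', rfl⟩
      · exact absurd hxb (OnePoint.infty_ne_coe b)
      · have : b' = b := OnePoint.coe_injective hxb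
        rw [this]; exact hb

/-- the recursion -/
def DD (X : Type) [TopologicalSpace X] : ℕ → Set X → Set X → Prop
  | 0, Y, A => A ∩ Y = ∅
  | (k + 1), Y, A => (A ∩ Y = ∅ ∨
          ∀ F G : Set X, (∃ C : Set X, IsClosed C ∧ F = Y ∩ C) →
            (∃ C : Set X, IsClosed C ∧ G = Y ∩ C) → Disjoint F G →
            ∃ S U V : Set X, S ⊆ Y ∧ (∃ C : Set X, IsClosed C ∧ S = Y ∩ C) ∧
              (∃ O : Set X, IsOpen O ∧ U = Y ∩ O) ∧
              (∃ O : Set X, IsOpen O ∧ V = Y ∩ O) ∧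
              Disjoint U V ∧ Y \ S = U ∪ V ∧ F ⊆ U ∧ G ⊆ V ∧
              DD X k S (A ∩ S))

/-- The negation of the preceding statement: In every T1 normal space X, for every subset Z and every n ≥ −1: if the large inductive dimension of Z as a space is at most n, then the relative large inductive dimension of Z in X is at most n. -/
theorem result :
    ¬ (∀ (X : Type) [TopologicalSpace X] [T4Space X] (Z : Set X) (n : ℕ)
      (D : ℕ → Set X → Set X → Prop),
      (∀ Y A : Set X, D 0 Y A ↔ A ∩ Y = ∅) →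
      (∀ (k : ℕ) (Y A : Set X), D (k + 1) Y A ↔
        (A ∩ Y = ∅ ∨
          ∀ F G : Set X, (∃ C : Set X, IsClosed C ∧ F = Y ∩ C) →
            (∃ C : Set X, IsClosed C ∧ G = Y ∩ C) → Disjoint F G →
            ∃ S U V : Set X, S ⊆ Y ∧ (∃ C : Set X, IsClosed C ∧ S = Y ∩ C) ∧
              (∃ O : Set X, IsOpen O ∧ U = Y ∩ O) ∧
              (∃ O : Set X, IsOpen O ∧ V = Y ∩ O) ∧
              Disjoint U V ∧ Y \ S = U ∪ V ∧ F ⊆ U ∧ G ⊆ V ∧
              D k S (A ∩ S))) →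
      D n Z Z → D n Set.univ Z) := by
  intro H
  have h := H XX ZZ 1 (DD XX) (fun _ _ => Iff.rfl) (fun _ _ _ => Iff.rfl) ?_
  · rcases h with h | h
    · have : pt2 ⟨0, 0⟩ ∈ ZZ ∩ Set.univ := ⟨Or.inr ⟨_, rfl⟩, Set.mem_univ _⟩
      rw [h] at this
      exact this
    · have hcl : ∀ c : unitInterval, IsClosed {x : XX | x.2.2 = c} := fun c =>
        isClosed_eq (continuous_snd.comp continuous_snd) continuous_const
      obtain ⟨S, U, V, -, -, ⟨O1, hO1, hUO⟩, ⟨O2, hO2, hVO⟩, hUV, hS, hF, hG, hZS⟩ :=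
        h {x : XX | x.2.2 = 0} {x : XX | x.2.2 = 1}
          ⟨_, hcl 0, by rw [Set.univ_inter]⟩ ⟨_, hcl 1, by rw [Set.univ_inter]⟩ (by
            rw [Set.disjoint_left]
            intro x hx hx'
            rw [Set.mem_ofPred_eq] at hx hx'
            rw [hx] at hx'
            exact zero_ne_one hx')
      rw [Set.univ_inter] at hUO hVO
      subst hUO hVO
      apply no_partition U V hO1 hO2 hUV ?_ hF hG
      intro x hx
      rw [← hS]
      refine ⟨Set.mem_univ _, fun hxS => ?_⟩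
      have hZS' : (ZZ ∩ S) ∩ S = ∅ := hZS
      have : x ∈ (ZZ ∩ S) ∩ S := ⟨⟨hx, hxS⟩, hxS⟩
      rw [hZS'] at this
      exact this
  · right
    intro F G hF hG hFG
    obtain ⟨C, hC, hFC⟩ := hF
    obtain ⟨C', hC', hGC⟩ := hG
    have hFZ : F ⊆ ZZ := by rw [hFC]; exact Set.inter_subset_left
    have hGZ : G ⊆ ZZ := by rw [hGC]; exact Set.inter_subset_left
    refine ⟨∅, F, ZZ \ F, Set.empty_subset _, ⟨∅, isClosed_empty, by simp⟩,
      ZZ_discrete F hFZ, ZZ_discrete _ Set.sdiff_subset, Set.disjoint_sdiff_right, ?_,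
      subset_rfl, ?_, ?_⟩
    · rw [Set.sdiff_empty, Set.union_sdiff_cancel hFZ]
    · intro x hx
      exact ⟨hGZ hx, fun hxF => Set.disjoint_left.mp hFG hxF hx⟩
    · exact Set.inter_empty _

end Pool.Agent.S08750
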