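import Pool.Statements.S08944

set_option autoImplicit false

open Pool Pool.MP_440a64_gt

namespace Pool.Agent.S08944

open Set Cardinal TopologicalSpace

/-- the reals with the discrete topology -/
def Yd : Type := ℝ
instance : TopologicalSpace Yd := ⊥
instance : DiscreteTopology Yd := ⟨rfl⟩
/-- a discrete set of size two to the continuum -/
def Ld : Type := ℝ → ℝ
instance : TopologicalSpace Ld := ⊥
instance : DiscreteTopology Ld := ⟨rfl⟩
instance : Nonempty Ld := ⟨fun _ => (0 : ℝ)⟩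

abbrev XX : Type := Yd × OnePoint Ld

/-- the topology of pointwise convergence -/
@[reducible] def pw : TopologicalSpace C(XX, ℝ) :=
  TopologicalSpace.induced (fun f : C(XX, ℝ) => (⇑f : XX → ℝ)) inferInstance

theorem pw_eval (x : XX) : @Continuous C(XX, ℝ) ℝ pw _ (fun f => f x) := by
  have h1 : @Continuous C(XX, ℝ) (XX → ℝ) pw _ (fun f => (⇑f : XX → ℝ)) := continuous_induced_dom
  exact @Continuous.comp C(XX, ℝ) (XX → ℝ) ℝ pw _ _ _ _ (continuous_apply x) h1

def supp (h : C(XX, ℝ)) (y : Yd) : Set Ld := {α | h (y, (α : OnePoint Ld)) ≠ h (y, OnePoint.infty)}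

theorem supp_countable (h : C(XX, ℝ)) (y : Yd) : (supp h y).Countable := by
  have hfin : ∀ n : ℕ, {α : Ld | 1 / ((n : ℝ) + 1) ≤
      |h (y, (α : OnePoint Ld)) - h (y, OnePoint.infty)|}.Finite := by
    intro n
    let U : Set (OnePoint Ld) := {x | |h (y, x) - h (y, OnePoint.infty)| < 1 / ((n : ℝ) + 1)}
    have hU : IsOpen U := isOpen_lt (by fun_prop) continuous_const
    have hmem : OnePoint.infty ∈ U := by
      simp only [U, mem_ofPred_eq, sub_self, abs_zero]
      positivity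
    have hc := ((OnePoint.isOpen_iff_of_mem hmem).1 hU).2.finite_of_discrete
    refine hc.subset ?_
    intro α hα
    simp only [mem_compl_iff, mem_preimage, U, mem_ofPred_eq, not_lt]
    exact hα
  have hsub : supp h y ⊆ ⋃ n : ℕ, {α : Ld | 1 / ((n : ℝ) + 1) ≤
      |h (y, (α : OnePoint Ld)) - h (y, OnePoint.infty)|} := by
    intro α hα
    have hpos : 0 < |h (y, (α : OnePoint Ld)) - h (y, OnePoint.infty)| :=
      abs_pos.2 (sub_ne_zero.2 hα)
    obtain ⟨n, hn⟩ := exists_nat_one_div_lt hpos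
    exact mem_iUnion.2 ⟨n, hn.le⟩
  exact (countable_iUnion fun n => (hfin n).countable).mono hsub

theorem exists_code : ∃ ξ : C(XX, ℝ) × ℕ → Ld, Function.Injective ξ := by
  have he : ∀ (h : C(XX, ℝ)) (y : Yd), ∃ e : ℕ → Ld, supp h y ⊆ range e := fun h y =>
    countable_iff_exists_subset_range.1 (supp_countable h y)
  choose e he using he
  let code : C(XX, ℝ) → (Yd → ℝ × (ℕ → Ld × ℝ)) := fun h y =>
    (h (y, OnePoint.infty), fun k => (e h y k, h (y, ((e h y k : Ld) : OnePoint Ld))))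
  have hcode : Function.Injective code := by
    intro h h' hh
    have hy : ∀ y, code h y = code h' y := fun y => congrFun hh y
    have hinf : ∀ y, h (y, OnePoint.infty) = h' (y, OnePoint.infty) := fun y =>
      congrArg Prod.fst (hy y)
    have hval : ∀ y k, e h y k = e h' y k ∧
        h (y, ((e h y k : Ld) : OnePoint Ld)) = h' (y, ((e h' y k : Ld) : OnePoint Ld)) := by
      intro y k
      have h1 := congrFun (congrArg Prod.snd (hy y)) k
      exact ⟨congrArg Prod.fst h1, congrArg Prod.snd h1⟩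
    ext ⟨y, x⟩
    induction x using OnePoint.rec with
    | infty => exact hinf y
    | coe α =>
      by_cases h1 : α ∈ supp h y
      · obtain ⟨k, rfl⟩ := he h y h1
        rw [(hval y k).2, (hval y k).1]
      · by_cases h2 : α ∈ supp h' y
        · obtain ⟨k, rfl⟩ := he h' y h2
          rw [← (hval y k).2, (hval y k).1]
        · simp only [supp, mem_ofPred_eq, not_not] at h1 h2
          rw [h1, h2, hinf]
  have hcard : #(C(XX, ℝ) × ℕ) ≤ #Ld := by
    have h1 : #(C(XX, ℝ)) ≤ #(Yd → ℝ × (ℕ → Ld × ℝ)) := mk_le_of_injective hcode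
    have hY : #Yd = 𝔠 := mk_real
    have hL : #Ld = 𝔠 ^ 𝔠 := by
      change #(ℝ → ℝ) = _
      rw [← power_def, mk_real]
    have hcc : 𝔠 ≤ (𝔠 : Cardinal.{0}) ^ (𝔠 : Cardinal.{0}) :=
      self_le_power _ (Cardinal.one_le_aleph0.trans aleph0_le_continuum)
    have hinf : ℵ₀ ≤ (𝔠 : Cardinal.{0}) ^ (𝔠 : Cardinal.{0}) := aleph0_le_continuum.trans hcc
    have h2 : #(Yd → ℝ × (ℕ → Ld × ℝ)) = 𝔠 ^ 𝔠 := by
      have e1 : #(Ld × ℝ) = 𝔠 ^ 𝔠 := by
        rw [mk_prod, lift_id, lift_id, hL, mk_real, mul_eq_left hinf hcc continuum_ne_zero]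
      have e2 : #(ℕ → Ld × ℝ) = 𝔠 ^ 𝔠 := by
        rw [← power_def, e1, mk_nat, ← power_mul, continuum_mul_aleph0]
      have e3 : #(ℝ × (ℕ → Ld × ℝ)) = 𝔠 ^ 𝔠 := by
        rw [mk_prod, lift_id, lift_id, e2, mk_real, mul_eq_right hinf hcc continuum_ne_zero]
      rw [← power_def, e3, hY, ← power_mul, continuum_mul_self]
    rw [mk_prod, lift_id, lift_id, mk_nat]
    calc #(C(XX, ℝ)) * ℵ₀ ≤ 𝔠 ^ 𝔠 * ℵ₀ := by
          gcongr
          exact h1.trans h2.le
      _ = 𝔠 ^ 𝔠 := mul_eq_left hinf hinf aleph0_ne_zero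
      _ = #Ld := hL.symm
  obtain ⟨f⟩ := hcard
  exact ⟨f, f.injective⟩

theorem isClopen_pt (y : Yd) (α : Ld) : IsClopen ({(y, (α : OnePoint Ld))} : Set XX) := by
  refine ⟨isClosed_singleton, ?_⟩
  rw [← singleton_prod_singleton]
  refine (isOpen_discrete _).prod ?_
  have := OnePoint.isOpenEmbedding_coe.isOpenMap {α} (isOpen_discrete _)
  rwa [image_singleton] at this

noncomputable def bump (y : Yd) (α : Ld) : C(XX, ℝ) :=
  ⟨({(y, (α : OnePoint Ld))} : Set XX).indicator fun _ => (1 : ℝ),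
    (isClopen_pt y α).continuous_indicator continuous_const⟩

theorem bump_self (y : Yd) (α : Ld) : bump y α (y, (α : OnePoint Ld)) = 1 := by
  simp [bump]

theorem bump_inf (y z : Yd) (α : Ld) : bump y α (z, OnePoint.infty) = 0 := by
  simp [bump]

theorem bump_le (y : Yd) (α : Ld) (x : XX) : |bump y α x| ≤ 1 := by
  by_cases h : x = (y, (α : OnePoint Ld))
  · rw [h, bump_self]
    norm_num
  · have : bump y α x = 0 := by simp [bump, h]
    rw [this]
    norm_num

theorem exists_dense_poly : ∃ P : ℕ → (ℝ → ℝ), DenseRange P := by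
  classical
  have h1 : DenseRange (fun f : C(ℝ, ℝ) => (f : ℝ → ℝ)) := by
    rw [DenseRange, dense_iff_inter_open]
    intro O hO hne
    obtain ⟨t, ht⟩ := hne
    obtain ⟨I, v, hv, hIv⟩ := isOpen_pi_iff.1 hO t ht
    refine ⟨fun x => (Lagrange.interpolate I id t).eval x, hIv ?_,
      ⟨⟨fun x => (Lagrange.interpolate I id t).eval x, by fun_prop⟩, rfl⟩⟩
    intro α hα
    have := Lagrange.eval_interpolate_at_node (s := I) (v := id) t (fun _ _ _ _ h => h) hα
    simp only [id] at this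
    simp only
    rw [this]
    exact (hv α hα).2
  have h2 : Continuous (fun f : C(ℝ, ℝ) => (f : ℝ → ℝ)) :=
    continuous_pi fun x => ContinuousEvalConst.continuous_eval_const x
  exact ⟨_, h1.comp (denseRange_denseSeq C(ℝ, ℝ)) h2⟩

/-- The negation of the preceding statement: For every Tychonoff X: if C_p(X) has a uniformly dense subspace that is monotonically ω-monolithic (countable monotone σ-continuous external networks on closures of countable sets), then C_p(X) itself is monotonically ω-monolithic. -/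
theorem result :
    ¬ (∀ (X : Type) [TopologicalSpace X] [T35Space X] (D : Set C(X, ℝ)),
      (∀ f : C(X, ℝ), ∀ ε : ℝ, 0 < ε → ∃ g ∈ D, ∀ x : X, |f x - g x| < ε) →
      (∃ N : Set C(X, ℝ) → Set (Set C(X, ℝ)),
        (∀ A : Set C(X, ℝ), A ⊆ D → A.Countable →
          (N A).Countable ∧ (∀ n ∈ N A, n ⊆ D) ∧
          ∀ y ∈ D,
            y ∈ @closure _ (TopologicalSpace.induced (fun f : C(X, ℝ) => (⇑f : X → ℝ)) inferInstance) A →
            ∀ U : Set C(X, ℝ),
              @IsOpen _ (TopologicalSpace.induced (fun f : C(X, ℝ) => (⇑f : X → ℝ)) inferInstance) U →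
              y ∈ U → ∃ n ∈ N A, y ∈ n ∧ n ⊆ U) ∧
        (∀ A B : Set C(X, ℝ), A ⊆ B → B ⊆ D → B.Countable → N A ⊆ N B) ∧
        (∀ A : ℕ → Set C(X, ℝ), Monotone A → (∀ k, A k ⊆ D ∧ (A k).Countable) →
          N (⋃ k, A k) = ⋃ k, N (A k))) →
      (∃ N : Set C(X, ℝ) → Set (Set C(X, ℝ)),
        (∀ A : Set C(X, ℝ), A.Countable →
          (N A).Countable ∧
          ∀ y : C(X, ℝ),
            y ∈ @closure _ (TopologicalSpace.induced (fun f : C(X, ℝ) => (⇑f : X → ℝ)) inferInstance) A →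
            ∀ U : Set C(X, ℝ),
              @IsOpen _ (TopologicalSpace.induced (fun f : C(X, ℝ) => (⇑f : X → ℝ)) inferInstance) U →
              y ∈ U → ∃ n ∈ N A, y ∈ n ∧ n ⊆ U) ∧
        (∀ A B : Set C(X, ℝ), A ⊆ B → B.Countable → N A ⊆ N B) ∧
        (∀ A : ℕ → Set C(X, ℝ), Monotone A → (∀ k, (A k).Countable) →
          N (⋃ k, A k) = ⋃ k, N (A k)))) := by
  intro H
  obtain ⟨ξ, hξ⟩ := exists_code
  let y0 : Yd := (0 : ℝ)
  -- the perturbation size
  have hc : ∀ p : C(XX, ℝ) × ℕ, ∃ c : ℝ, 0 < c ∧ c < 1 / ((p.2 : ℝ) + 1) ∧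
      p.1 (y0, (ξ p : OnePoint Ld)) + c ≠ p.1 (y0, OnePoint.infty) := by
    intro p
    have hpos : (0 : ℝ) < 1 / ((p.2 : ℝ) + 1) := by positivity
    by_cases h : p.1 (y0, (ξ p : OnePoint Ld)) + 1 / ((p.2 : ℝ) + 1) / 2 =
        p.1 (y0, OnePoint.infty)
    · refine ⟨1 / ((p.2 : ℝ) + 1) / 3, by positivity, by linarith, ?_⟩
      intro h'
      linarith
    · exact ⟨1 / ((p.2 : ℝ) + 1) / 2, by positivity, by linarith, h⟩
  choose c hc0 hc1 hc2 using hc
  let d : C(XX, ℝ) × ℕ → C(XX, ℝ) := fun p => p.1 + c p • bump y0 (ξ p)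
  have hd_supp : ∀ p, ξ p ∈ supp (d p) y0 := by
    intro p
    simp only [supp, mem_ofPred_eq, d, ContinuousMap.add_apply, ContinuousMap.smul_apply,
      bump_self, bump_inf, smul_eq_mul, mul_one, mul_zero, add_zero]
    exact hc2 p
  let S : Set C(XX, ℝ) → Set Ld := fun A => ⋃ a ∈ A, supp a y0
  have hS_closure : ∀ (A : Set C(XX, ℝ)) (y : C(XX, ℝ)), y ∈ @closure _ pw A →
      supp y y0 ⊆ S A := by
    intro A y hy α hα
    by_contra hcon
    have hA : A ⊆ {f : C(XX, ℝ) | f (y0, (α : OnePoint Ld)) = f (y0, OnePoint.infty)} := by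
      intro a ha
      by_contra h
      exact hcon (mem_iUnion₂.2 ⟨a, ha, h⟩)
    have hcl : @IsClosed _ pw
        {f : C(XX, ℝ) | f (y0, (α : OnePoint Ld)) = f (y0, OnePoint.infty)} :=
      @isClosed_eq _ _ _ pw _ _ _ (pw_eval _) (pw_eval _)
    have := (@closure_minimal _ pw _ _ hA hcl) hy
    exact hα this
  let D : Set C(XX, ℝ) := range d
  let N : Set C(XX, ℝ) → Set (Set C(XX, ℝ)) := fun A => (fun p => {d p}) '' (ξ ⁻¹' S A)
  have hunif : ∀ f : C(XX, ℝ), ∀ ε : ℝ, 0 < ε → ∃ g ∈ D, ∀ x : XX, |f x - g x| < ε := by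
    intro f ε hε
    obtain ⟨n, hn⟩ := exists_nat_one_div_lt hε
    refine ⟨d (f, n), ⟨_, rfl⟩, fun x => ?_⟩
    simp only [d, ContinuousMap.add_apply, ContinuousMap.smul_apply, smul_eq_mul]
    have h1 : f x - (f x + c (f, n) * bump y0 (ξ (f, n)) x) =
        -(c (f, n) * bump y0 (ξ (f, n)) x) := by ring
    rw [h1, abs_neg, abs_mul, abs_of_pos (hc0 _)]
    calc c (f, n) * |bump y0 (ξ (f, n)) x| ≤ c (f, n) * 1 := by
          gcongr
          · exact (hc0 _).le
          · exact bump_le _ _ _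
      _ = c (f, n) := mul_one _
      _ < 1 / ((n : ℝ) + 1) := hc1 (f, n)
      _ < ε := hn
  obtain ⟨N', hN'1, hN'2, hN'3⟩ := H XX D hunif ⟨N, by
    intro A hAD hA
    refine ⟨?_, ?_, ?_⟩
    · refine Set.Countable.image ?_ _
      refine Set.Countable.preimage_of_injOn ?_ hξ.injOn
      exact hA.biUnion fun a _ => supp_countable a y0
    · rintro n ⟨p, hp, rfl⟩
      exact singleton_subset_iff.2 ⟨p, rfl⟩
    · rintro y ⟨p, rfl⟩ hy U hU hyU
      exact ⟨{d p}, ⟨p, hS_closure A _ hy (hd_supp p), rfl⟩, rfl, singleton_subset_iff.2 hyU⟩, by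
    intro A B hAB _ _
    refine image_mono (preimage_mono ?_)
    exact biUnion_subset_biUnion_left hAB, by
    intro A _ _
    simp only [N, S]
    rw [← image_iUnion, ← preimage_iUnion]
    congr 2
    ext α
    simp only [mem_iUnion]
    constructor
    · rintro ⟨a, ⟨k, hk⟩, h⟩
      exact ⟨k, a, hk, h⟩
    · rintro ⟨k, a, hk, h⟩
      exact ⟨a, ⟨k, hk⟩, h⟩⟩
  -- the final contradiction
  obtain ⟨P, hP⟩ := exists_dense_poly
  let ext0 : (ℝ → ℝ) → C(XX, ℝ) := fun f =>
    ⟨fun x => f x.1, (continuous_of_discreteTopology (f := fun y : Yd => f y)).comp continuous_fst⟩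
  have hext : @Continuous (ℝ → ℝ) C(XX, ℝ) _ pw ext0 := by
    rw [continuous_induced_rng]
    exact continuous_pi fun x => continuous_apply x.1
  let A : Set C(XX, ℝ) := ext0 '' range P
  have hAc : A.Countable := (countable_range P).image _
  have hcl : ∀ f, ext0 f ∈ @closure _ pw A := by
    intro f
    have h1 := @image_closure_subset_closure_image _ _ _ pw ext0 (range P) hext
    exact h1 ⟨f, hP f, rfl⟩
  classical
  let E : ℝ → C(XX, ℝ) := fun y => ext0 (Pi.single y 1)
  let U : ℝ → Set C(XX, ℝ) := fun y => {f | 1 / 2 < f ((y : Yd), OnePoint.infty)}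
  have hUo : ∀ y, @IsOpen _ pw (U y) := fun y =>
    @IsOpen.preimage _ _ pw _ _ (pw_eval ((y : Yd), OnePoint.infty)) _
      (isOpen_Ioi (a := (1 : ℝ) / 2))
  have hEU : ∀ y, E y ∈ U y := by
    intro y
    change 1 / 2 < (Pi.single y (1 : ℝ) : ℝ → ℝ) y
    rw [Pi.single_eq_same]
    norm_num
  have hnet := hN'1 A hAc
  choose n hn1 hn2 hn3 using fun y => hnet.2 (E y) (hcl _) (U y) (hUo y) (hEU y)
  have hinj : Function.Injective n := by
    intro y z hyz
    by_contra hne
    have h1 : E z ∈ U y := by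
      apply hn3 y
      rw [hyz]
      exact hn2 z
    have h2 : (1 : ℝ) / 2 < (Pi.single z (1 : ℝ) : ℝ → ℝ) y := h1
    rw [Pi.single_eq_of_ne hne] at h2
    norm_num at h2
  have hcount : (range n).Countable := hnet.1.mono (range_subset_iff.2 hn1)
  have : Countable ℝ := by
    have h3 := hcount.to_subtype
    exact (rangeFactorization_injective.2 hinj).countable
  exact not_countable this

end Pool.Agent.S08944
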