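import Pool.Statements.S09012
-- import your own Pool.Agent.* helpers here

set_option autoImplicit false
open Pool Pool.MP_55e428_gt

namespace Pool.Agent.S09012

open Set Filter Topology

/-- The one-point compactification of the discrete set `ℝ`, as a subset of `ℝ^ℝ`. -/
def KK : Set (ℝ → ℝ) :=
  {x | (∀ γ, x γ = 0 ∨ x γ = 1) ∧ ∀ γ γ', γ ≠ γ' → x γ = 0 ∨ x γ' = 0}

theorem KK_compact : IsCompact KK := by
  have h1 : IsCompact (Set.pi Set.univ (fun _ : ℝ => ({0, 1} : Set ℝ))) :=
    isCompact_univ_pi (fun _ => (Set.toFinite _).isCompact)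
  refine h1.of_isClosed_subset ?_ ?_
  · have : KK = (⋂ γ, {x : ℝ → ℝ | x γ = 0 ∨ x γ = 1}) ∩
        ⋂ γ, ⋂ γ', ⋂ (_ : γ ≠ γ'), {x : ℝ → ℝ | x γ = 0 ∨ x γ' = 0} := by
      ext x
      simp [KK]
    rw [this]
    refine IsClosed.inter (isClosed_iInter fun γ => ?_) (isClosed_iInter fun γ =>
      isClosed_iInter fun γ' => isClosed_iInter fun _ => ?_)
    · exact (isClosed_eq (continuous_apply γ) continuous_const).union
        (isClosed_eq (continuous_apply γ) continuous_const)
    · exact (isClosed_eq (continuous_apply γ) continuous_const).union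
        (isClosed_eq (continuous_apply γ') continuous_const)
  · rintro x ⟨hx, -⟩ γ -
    rcases hx γ with h | h <;> simp [h]

theorem zero_mem_KK : (0 : ℝ → ℝ) ∈ KK := by
  constructor
  · intro γ; left; rfl
  · intro γ γ' _; left; rfl

theorem single_mem_KK (γ : ℝ) : (Pi.single γ (1 : ℝ) : ℝ → ℝ) ∈ KK := by
  constructor
  · intro δ
    by_cases h : δ = γ
    · subst h; right; simp
    · left; simp [Pi.single_apply, h]
  · intro δ δ' hne
    by_cases h : δ = γ
    · right
      have : δ' ≠ γ := fun h' => hne (h.trans h'.symm)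
      simp [Pi.single_apply, this]
    · left; simp [Pi.single_apply, h]

/-- zero of `KK` -/
def kz : KK := ⟨0, zero_mem_KK⟩

/-- unit vectors of `KK` -/
noncomputable def ke (γ : ℝ) : KK := ⟨Pi.single γ 1, single_mem_KK γ⟩

theorem ke_tendsto : Tendsto ke cofinite (𝓝 kz) := by
  rw [tendsto_subtype_rng, tendsto_pi_nhds]
  intro δ
  refine Tendsto.congr' ?_ tendsto_const_nhds
  have : ({δ} : Set ℝ)ᶜ ∈ (cofinite : Filter ℝ) := (Set.finite_singleton δ).compl_mem_cofinite
  filter_upwards [this] with γ hγ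
  have : δ ≠ γ := fun h => hγ (by simp [h])
  simp [ke, kz, Pi.single_apply, this]

/-- compact pieces -/
def CC (n : ℕ) : Set (ℝ → ℝ) :=
  {g | (∀ γ, g γ ∈ Set.Icc (0 : ℝ) 1) ∧ ∀ s : Finset ℝ, n < s.card → ∃ γ ∈ s, g γ = 0}

theorem CC_compact (n : ℕ) : IsCompact (CC n) := by
  have h1 : IsCompact (Set.pi Set.univ (fun _ : ℝ => Set.Icc (0 : ℝ) 1)) :=
    isCompact_univ_pi (fun _ => isCompact_Icc)
  refine h1.of_isClosed_subset ?_ ?_
  · have : CC n = (Set.pi Set.univ (fun _ : ℝ => Set.Icc (0 : ℝ) 1)) ∩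
        ⋂ s : Finset ℝ, ⋂ (_ : n < s.card), ⋃ γ ∈ s, {g : ℝ → ℝ | g γ = 0} := by
      ext x
      simp [CC]
      intro _
      exact ⟨fun h => ⟨fun i => (h i).1, fun i => (h i).2⟩, fun h γ => ⟨h.1 γ, h.2 γ⟩⟩
    rw [this]
    refine IsClosed.inter (isClosed_set_pi fun _ _ => isClosed_Icc) (isClosed_iInter fun s =>
      isClosed_iInter fun _ => ?_)
    exact isClosed_biUnion_finset fun γ _ => isClosed_eq (continuous_apply γ) continuous_const
  · rintro x ⟨hx, -⟩ γ -
    exact hx γ

/-- the sigma-compact target -/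
def YY : Set (ℝ → ℝ) := ⋃ n, CC n

/-- the cut-off function -/
noncomputable def hh (x : ℝ) : ℝ := min 1 (max 0 (x - 1))

theorem hh_cont : Continuous hh := by unfold hh; fun_prop

theorem hh_mem (x : ℝ) : hh x ∈ Set.Icc (0 : ℝ) 1 := by
  unfold hh
  exact ⟨le_min zero_le_one (le_max_left _ _), min_le_left _ _⟩

theorem hh_zero {x : ℝ} (h : x < 1) : hh x = 0 := by
  unfold hh
  rw [max_eq_left (by linarith), min_eq_right zero_le_one]

theorem hh_add {y : ℝ} (h : y ∈ Set.Icc (0 : ℝ) 1) : hh (y + 1) = y := by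
  unfold hh
  rw [add_sub_cancel_right, max_eq_right h.1, min_eq_right h.2]

theorem phi_mem (f : {f : KK → ℝ // Continuous f}) :
    (fun γ => hh (f.1 (ke γ) - f.1 kz)) ∈ YY := by
  have h1 : Tendsto (fun γ => f.1 (ke γ) - f.1 kz) cofinite (𝓝 (f.1 kz - f.1 kz)) :=
    ((f.2.tendsto kz).comp ke_tendsto).sub_const _
  rw [sub_self] at h1
  have h2 : ∀ᶠ γ in cofinite, f.1 (ke γ) - f.1 kz < 1 :=
    h1.eventually (gt_mem_nhds zero_lt_one)
  have h3 : {γ | ¬ (f.1 (ke γ) - f.1 kz < 1)}.Finite := h2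
  refine Set.mem_iUnion.2 ⟨h3.toFinset.card, fun γ => hh_mem _, fun s hs => ?_⟩
  by_contra hcon
  push Not at hcon
  have : s ⊆ h3.toFinset := by
    intro γ hγ
    rw [Set.Finite.mem_toFinset]
    intro hlt
    exact hcon γ hγ (hh_zero hlt)
  exact absurd (Finset.card_le_card this) (not_le.2 hs)

/-- the map -/
noncomputable def phi (f : {f : KK → ℝ // Continuous f}) : YY :=
  ⟨fun γ => hh (f.1 (ke γ) - f.1 kz), phi_mem f⟩

theorem phi_cont : Continuous phi := by
  refine Continuous.subtype_mk (continuous_pi fun γ => ?_) _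
  refine hh_cont.comp (Continuous.sub ?_ ?_)
  · exact (continuous_apply (ke γ)).comp continuous_subtype_val
  · exact (continuous_apply kz).comp continuous_subtype_val

theorem phi_surj : Function.Surjective phi := by
  rintro ⟨g, hg⟩
  obtain ⟨n, hg1, hg2⟩ := Set.mem_iUnion.1 hg
  have hfin : {γ | g γ ≠ 0}.Finite := by
    by_contra hinf
    obtain ⟨s, hs, hc⟩ := Set.Infinite.exists_subset_card_eq hinf (n + 1)
    obtain ⟨γ, hγ, h0⟩ := hg2 s (by omega)
    exact hs hγ h0
  refine ⟨⟨fun x => ∑ γ ∈ hfin.toFinset, (g γ + 1) * (x : ℝ → ℝ) γ, ?_⟩, ?_⟩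
  · refine continuous_finsetSum _ fun γ _ => continuous_const.mul ?_
    exact (continuous_apply γ).comp continuous_subtype_val
  · apply Subtype.ext
    funext δ
    show hh ((∑ γ ∈ hfin.toFinset, (g γ + 1) * (ke δ : ℝ → ℝ) γ) -
      (∑ γ ∈ hfin.toFinset, (g γ + 1) * (kz : ℝ → ℝ) γ)) = g δ
    have h0 : (∑ γ ∈ hfin.toFinset, (g γ + 1) * (kz : ℝ → ℝ) γ) = 0 := by
      apply Finset.sum_eq_zero
      intro γ _
      simp [kz]
    rw [h0, sub_zero]
    by_cases hδ : g δ = 0
    · rw [hδ]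
      have : (∑ γ ∈ hfin.toFinset, (g γ + 1) * (ke δ : ℝ → ℝ) γ) = 0 := by
        apply Finset.sum_eq_zero
        intro γ hγ
        have hγ' : g γ ≠ 0 := by simpa using hγ
        have : γ ≠ δ := fun h => hγ' (h ▸ hδ)
        simp [ke, Pi.single_apply, this]
      rw [this]
      exact hh_zero (by norm_num)
    · have : (∑ γ ∈ hfin.toFinset, (g γ + 1) * (ke δ : ℝ → ℝ) γ) = g δ + 1 := by
        rw [Finset.sum_eq_single δ]
        · simp [ke]
        · intro γ _ hne
          simp [ke, Pi.single_apply, hne]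
        · intro h
          exact absurd (by simpa using hδ) h
      rw [this]
      exact hh_add (hg1 δ)

theorem single_mem_YY (γ : ℝ) : (Pi.single γ (1 : ℝ) : ℝ → ℝ) ∈ YY := by
  refine Set.mem_iUnion.2 ⟨1, fun δ => ?_, fun s hs => ?_⟩
  · by_cases h : δ = γ
    · subst h; simp
    · simp [Pi.single_apply, h]
  · obtain ⟨a, ha, b, hb, hab⟩ := Finset.one_lt_card.1 hs
    by_cases h : a = γ
    · refine ⟨b, hb, ?_⟩
      have : b ≠ γ := fun h' => hab (h.trans h'.symm)
      simp [Pi.single_apply, this]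
    · exact ⟨a, ha, by simp [Pi.single_apply, h]⟩


/-- The negation of the preceding statement: For every compact subset K of ℝ^Γ lying in c₀(Γ) (i.e. every Eberlein compact), every continuous surjection from C_p(K) (pointwise topology) onto a σ-compact Tychonoff space Y has Y with a countable network. -/
theorem result :
    ¬ (∀ (Γ : Type) (K : Set (Γ → ℝ)), IsCompact K →
      (∀ x ∈ K, ∀ ε : ℝ, 0 < ε → {γ : Γ | ε < |x γ|}.Finite) →
      ∀ (Y : Type) [TopologicalSpace Y] [T35Space Y] [SigmaCompactSpace Y]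
        (φ : {f : K → ℝ // Continuous f} → Y), Continuous φ → Function.Surjective φ →
        ∃ N : Set (Set Y), N.Countable ∧
          ∀ U : Set Y, IsOpen U → ∀ y ∈ U, ∃ A ∈ N, y ∈ A ∧ A ⊆ U) := by
  intro H
  haveI : SigmaCompactSpace YY :=
    isSigmaCompact_iff_sigmaCompactSpace.1 (isSigmaCompact_iUnion_of_isCompact _ CC_compact)
  obtain ⟨N, hN, hnet⟩ := H ℝ KK KK_compact (by
    intro x hx ε hε
    have : {γ : ℝ | ε < |x γ|}.Subsingleton := by
      intro a ha b hb
      by_contra hab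
      rcases hx.2 a b hab with h | h
      · have ha' : ε < |x a| := ha
        rw [h, abs_zero] at ha'
        linarith
      · have hb' : ε < |x b| := hb
        rw [h, abs_zero] at hb'
        linarith
    exact this.finite) YY phi phi_cont phi_surj
  let e : ℝ → YY := fun γ => ⟨Pi.single γ 1, single_mem_YY γ⟩
  have key : ∀ γ : ℝ, ∃ A ∈ N, e γ ∈ A ∧ A ⊆ {y : YY | 1 / 2 < (y : ℝ → ℝ) γ} := by
    intro γ
    refine hnet _ ?_ (e γ) ?_
    · exact isOpen_lt continuous_const ((continuous_apply γ).comp continuous_subtype_val)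
    · show (1 : ℝ) / 2 < (Pi.single γ (1 : ℝ) : ℝ → ℝ) γ
      simp
      norm_num
  choose A hAN hAe hAsub using key
  have hinj : Function.Injective (fun γ => (⟨A γ, hAN γ⟩ : N)) := by
    intro γ δ h
    have h' : A γ = A δ := congrArg Subtype.val h
    have : e δ ∈ A γ := h' ▸ hAe δ
    have h2 : (1 : ℝ) / 2 < (Pi.single δ (1 : ℝ) : ℝ → ℝ) γ := hAsub γ this
    by_contra hne
    rw [Pi.single_apply, if_neg hne] at h2
    norm_num at h2
  haveI : Countable N := hN.to_subtype
  exact not_countable (α := ℝ) hinj.countable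


end Pool.Agent.S09012
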