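import Pool.Statements.S09109
-- import your own Pool.Agent.* helpers here

set_option autoImplicit false
open Topology
open Pool Pool.MP_6b9469_gt

namespace Pool.Agent.S09109

/-- Every topological space having a σ-disjoint base and a σ-locally countable base also has a single base that is both σ-disjoint and σ-locally countable. -/
theorem result :
    ∀ (X : Type) [TopologicalSpace X],
      (∃ B : Set (Set X), TopologicalSpace.IsTopologicalBasis B ∧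
        ∃ F : ℕ → Set (Set X), B = ⋃ n, F n ∧ ∀ n, (F n).PairwiseDisjoint id) →
      (∃ B : Set (Set X), TopologicalSpace.IsTopologicalBasis B ∧
        ∃ F : ℕ → Set (Set X), B = ⋃ n, F n ∧
          ∀ n, ∀ x : X, ∃ U ∈ 𝓝 x, {S ∈ F n | (S ∩ U).Nonempty}.Countable) →
      ∃ B : Set (Set X), TopologicalSpace.IsTopologicalBasis B ∧
        (∃ F : ℕ → Set (Set X), B = ⋃ n, F n ∧ ∀ n, (F n).PairwiseDisjoint id) ∧
        (∃ G : ℕ → Set (Set X), B = ⋃ n, G n ∧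
          ∀ n, ∀ x : X, ∃ U ∈ 𝓝 x, {S ∈ G n | (S ∩ U).Nonempty}.Countable) := by
  intro X _ h1 h2
  obtain ⟨B, hB, F, hBF, hF⟩ := h1
  obtain ⟨B', hB', F', hBF', hF'⟩ := h2
  -- the part of `U` covered by the members of `F' m` inside `U`
  let D : ℕ → ℕ → Set (Set X) := fun n m => {G | ∃ U ∈ F n, G = ⋃₀ {V | V ∈ F' m ∧ V ⊆ U}}
  have hDdisj : ∀ n m, (D n m).PairwiseDisjoint id := by
    intro n m G1 hG1 G2 hG2 hne
    obtain ⟨U1, hU1, rfl⟩ := hG1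
    obtain ⟨U2, hU2, rfl⟩ := hG2
    have hU : U1 ≠ U2 := by
      rintro rfl
      exact hne rfl
    have hd : Disjoint U1 U2 := hF n hU1 hU2 hU
    refine Disjoint.mono ?_ ?_ hd
    · exact Set.sUnion_subset (fun V hV => hV.2)
    · exact Set.sUnion_subset (fun V hV => hV.2)
  have hDcount : ∀ n m, ∀ x : X, ∃ W ∈ 𝓝 x, {S ∈ D n m | (S ∩ W).Nonempty}.Countable := by
    intro n m x
    obtain ⟨W, hW, hcount⟩ := hF' m x
    refine ⟨W, hW, ?_⟩
    let g : Set X → Set X := fun V => ⋃₀ {V' | V' ∈ F' m ∧ V' ⊆ ⋃₀ {U | U ∈ F n ∧ V ⊆ U}}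
    refine (hcount.image g).mono ?_
    rintro S ⟨⟨U, hU, rfl⟩, ⟨y, ⟨V, ⟨hV, hVU⟩, hyV⟩, hyW⟩⟩
    refine ⟨V, ⟨hV, ⟨y, hyV, hyW⟩⟩, ?_⟩
    have : ⋃₀ {U' | U' ∈ F n ∧ V ⊆ U'} = U := by
      apply Set.Subset.antisymm
      · refine Set.sUnion_subset (fun U' hU' => ?_)
        by_cases he : U' = U
        · rw [he]
        · have hd : Disjoint U' U := hF n hU'.1 hU he
          exact absurd (hVU hyV) (Set.disjoint_left.1 hd (hU'.2 hyV))
      · exact Set.subset_sUnion_of_mem ⟨hU, hVU⟩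
    show ⋃₀ {V' | V' ∈ F' m ∧ V' ⊆ ⋃₀ {U | U ∈ F n ∧ V ⊆ U}} = _
    rw [this]
  refine ⟨⋃ k : ℕ, D (Nat.unpair k).1 (Nat.unpair k).2, ?_, ⟨_, rfl, fun k => hDdisj _ _⟩,
    ⟨_, rfl, fun k => hDcount _ _⟩⟩
  refine TopologicalSpace.isTopologicalBasis_of_isOpen_of_nhds ?_ ?_
  · intro G hG
    rw [Set.mem_iUnion] at hG
    obtain ⟨k, U, hU, rfl⟩ := hG
    refine isOpen_sUnion (fun V hV => hB'.isOpen ?_)
    rw [hBF']
    exact Set.mem_iUnion.2 ⟨_, hV.1⟩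
  · intro x O hx hO
    obtain ⟨U, hU, hxU, hUO⟩ := hB.exists_subset_of_mem_open hx hO
    obtain ⟨V, hV, hxV, hVU⟩ := hB'.exists_subset_of_mem_open hxU (hB.isOpen hU)
    rw [hBF, Set.mem_iUnion] at hU
    obtain ⟨n, hn⟩ := hU
    rw [hBF', Set.mem_iUnion] at hV
    obtain ⟨m, hm⟩ := hV
    refine ⟨⋃₀ {V | V ∈ F' m ∧ V ⊆ U}, ?_, ⟨V, ⟨hm, hVU⟩, hxV⟩, ?_⟩
    · refine Set.mem_iUnion.2 ⟨Nat.pair n m, U, ?_, ?_⟩
      · rw [Nat.unpair_pair]; exact hn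
      · rw [Nat.unpair_pair]
    · exact (Set.sUnion_subset (fun V hV => hV.2)).trans hUO

end Pool.Agent.S09109
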