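import Pool.Statements.S09115

set_option autoImplicit false
open Pool Pool.MP_6c8a84_gt

namespace Pool.Agent.S09115

open Complex

/-- A continuous function on the line whose exponential is constant is constant. -/
lemma const_of_exp (u : ℝ → ℂ) (hu : Continuous u) (c : ℂ) (h : ∀ x, exp (u x) = c) (x y : ℝ) :
    u x = u y := by
  have key := isCoveringMap_exp.eq_of_comp_eq (g₁ := u) (g₂ := fun _ => u y) hu continuous_const
    (by
      funext z
      apply Subtype.ext
      simp only [Function.comp]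
      rw [h, h]) y rfl
  exact congrFun key x

/-- The winding number argument. -/
lemma winding (F : C(ℝ × ℝ, ℂ)) (h0 : ∀ p, F p ≠ 0)
    (hper : ∀ t, F (2 * Real.pi, t) = F (0, t)) (r : ℂ)
    (hstart : ∀ θ : ℝ, F (θ, 0) = r * exp (θ * I)) (b : ℂ)
    (hend : ∀ θ : ℝ, ‖F (θ, 1) - b‖ < ‖b‖) : False := by
  have hb : b ≠ 0 := by
    rintro rfl
    have := hend 0
    simp at this
    exact absurd this (not_lt.mpr (norm_nonneg _))
  obtain ⟨G, ⟨-, hG⟩, -⟩ := isCoveringMapOn_exp.existsUnique_continuousMap_lifts F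
    (a₀ := ((0 : ℝ), (0 : ℝ))) (e₀ := log (F (0, 0))) (exp_log (h0 _)) (fun a => h0 a)
  have hG' : ∀ p, exp (G p) = F p := fun p => congrFun hG p
  -- difference along the period is constant in t
  have hd : ∀ t t' : ℝ, G (2 * Real.pi, t) - G (0, t) = G (2 * Real.pi, t') - G (0, t') := by
    intro t t'
    apply const_of_exp (fun t => G (2 * Real.pi, t) - G (0, t)) (by fun_prop) 1
    intro x
    rw [exp_sub, hG', hG', hper, div_self (h0 _)]
  -- at time zero it is 2 π i
  have hs : ∀ x y : ℝ, G (x, 0) - x * I = G (y, 0) - y * I := by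
    intro x y
    apply const_of_exp (fun x : ℝ => G (x, 0) - x * I) (by fun_prop) r
    intro x
    rw [exp_sub, hG', hstart, mul_div_assoc, div_self (exp_ne_zero _), mul_one]
  have h1 := hs (2 * Real.pi) 0
  -- at time one it is zero
  have hslit : ∀ θ : ℝ, F (θ, 1) / b ∈ slitPlane := by
    intro θ
    left
    have h2 : ‖F (θ, 1) / b - 1‖ < 1 := by
      have : F (θ, 1) / b - 1 = (F (θ, 1) - b) / b := by field_simp
      rw [this, norm_div, div_lt_one (norm_pos_iff.mpr hb)]
      exact hend θ
    have h3 := (abs_le.mp ((abs_re_le_norm _).trans h2.le))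
    have h4 : |(F (θ, 1) / b - 1).re| < 1 := (abs_re_le_norm _).trans_lt h2
    rw [sub_re, one_re] at h4
    linarith [(abs_lt.mp h4).1]
  have hcont : Continuous (fun θ : ℝ => log (F (θ, 1) / b)) := by
    apply Continuous.clog (by fun_prop) hslit
  have he : ∀ x y : ℝ, G (x, 1) - log (F (x, 1) / b) = G (y, 1) - log (F (y, 1) / b) := by
    intro x y
    apply const_of_exp (fun x : ℝ => G (x, 1) - log (F (x, 1) / b))
      ((by fun_prop : Continuous fun x : ℝ => G (x, 1)).sub hcont) b
    intro x
    rw [exp_sub, hG', exp_log (div_ne_zero (h0 _) hb)]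
    field_simp [h0]
  have h2 := he (2 * Real.pi) 0
  rw [hper 1] at h2
  have h3 := hd 0 1
  have h4 : ((2 * Real.pi : ℝ) : ℂ) * I = 0 := by
    have e1 : G (2 * Real.pi, 1) = G (0, 1) := by linear_combination h2
    rw [e1, sub_self] at h3
    have e2 : G (2 * Real.pi, 0) - G (0, 0) = ((2 * Real.pi : ℝ) : ℂ) * I := by
      push_cast at h1 ⊢
      linear_combination h1
    rw [← e2, h3]
  have : ((2 * Real.pi : ℝ) : ℂ) = 0 := by
    rcases mul_eq_zero.mp h4 with h | h
    · exact h
    · exact absurd h I_ne_zero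
  have h5 : (2 * Real.pi : ℝ) = 0 := by exact_mod_cast this
  have := Real.pi_pos
  linarith

/-- A countable dense set of the plane. -/
noncomputable def D : Set ℂ := Set.range (TopologicalSpace.denseSeq ℂ)

lemma D_countable : D.Countable := Set.countable_range _

lemma D_dense : Dense D := TopologicalSpace.denseRange_denseSeq ℂ

lemma not_countable_Ioo {δ : ℝ} (hδ : 0 < δ) : ¬ (Set.Ioo 0 δ).Countable := by
  intro h
  have := Cardinal.mk_Ioo_real hδ
  have h2 := h.le_aleph0
  rw [this] at h2
  exact absurd h2 (not_le.mpr Cardinal.aleph0_lt_continuum)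

/-- An interval contains a point outside a countable set. -/
lemma exists_notMem (S : Set ℝ) (hS : S.Countable) (δ : ℝ) (hδ : 0 < δ) :
    ∃ r, 0 < r ∧ r < δ ∧ r ∉ S := by
  by_contra hcon
  push Not at hcon
  have hsub : Set.Ioo 0 δ ⊆ S := fun r hr => hcon r hr.1 hr.2
  have := hS.mono hsub
  exact (not_countable_Ioo hδ) this

/-- Every point off `D` can be joined by a segment off `D` to points in any ball. -/
lemma good_segment (x : ℂ) (hx : x ∉ D) (y : ℂ) (ε : ℝ) (hε : 0 < ε) :
    ∃ y', ‖y' - y‖ < ε ∧ ∀ t : ℝ, 0 ≤ t → t ≤ 1 → x + t * (y' - x) ∉ D := by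
  obtain ⟨y1, hy1, hne⟩ : ∃ y1 : ℂ, ‖y1 - y‖ < ε / 2 ∧ y1 ≠ x := by
    by_cases h : y = x
    · refine ⟨y + (ε / 4 : ℝ), ?_, ?_⟩
      · rw [add_sub_cancel_left, norm_real, Real.norm_eq_abs, abs_of_pos (by positivity)]
        linarith
      · rw [h]
        intro h2
        have : ((ε / 4 : ℝ) : ℂ) = 0 := by linear_combination h2
        have : ε / 4 = 0 := by exact_mod_cast this
        linarith
    · exact ⟨y, by simpa using half_pos hε, h⟩
  set w := y1 - x with hw
  have hw0 : w ≠ 0 := sub_ne_zero.mpr hne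
  have hwpos : 0 < ‖w‖ := norm_pos_iff.mpr hw0
  set S : Set ℝ := (fun d : ℂ => ((d - x) / w).im / ((d - x) / w).re) '' D with hS
  obtain ⟨l, hl0, hl1, hlS⟩ := exists_notMem S (D_countable.image _) (ε / (2 * ‖w‖)) (by positivity)
  refine ⟨x + (1 + l * I) * w, ?_, ?_⟩
  · have e1 : x + (1 + l * I) * w - y = (y1 - y) + l * I * w := by rw [hw]; ring
    rw [e1]
    have e2 : ‖(l : ℂ) * I * w‖ < ε / 2 := by
      rw [norm_mul, norm_mul, norm_I, norm_real, Real.norm_eq_abs, abs_of_pos hl0, mul_one]
      rw [lt_div_iff₀ (by positivity)] at hl1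
      linarith
    calc ‖(y1 - y) + l * I * w‖ ≤ ‖y1 - y‖ + ‖(l : ℂ) * I * w‖ := norm_add_le _ _
      _ < ε := by linarith
  · intro t ht0 ht1 hmem
    rcases eq_or_lt_of_le ht0 with h | h
    · rw [← h] at hmem
      simp at hmem
      exact hx hmem
    · apply hlS
      refine ⟨_, hmem, ?_⟩
      have e3 : (x + t * (x + (1 + l * I) * w - x) - x) / w = t + (t * l : ℝ) * I := by
        field_simp
        push_cast
        ring
      simp only [e3]
      have e4 : ((t : ℂ) + (t * l : ℝ) * I).re = t := by simp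
      have e5 : ((t : ℂ) + (t * l : ℝ) * I).im = t * l := by simp
      rw [e4, e5]
      field_simp

/-- There is a metric space X on which every homotopy starting at the identity is stationary, yet some continuous open surjection g from a metric space Z onto X admits a homotopy starting at g that moves some point. -/
theorem result :
    ∃ (X : Type) (_ : MetricSpace X),
      (∀ h : X × unitInterval → X, Continuous h →
          (∀ x : X, h (x, (0 : unitInterval)) = x) →
          ∀ (a : X) (t : unitInterval), h (a, t) = a) ∧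
      ∃ (Z : Type) (_ : MetricSpace Z) (g : Z → X),
        Continuous g ∧ IsOpenMap g ∧ Function.Surjective g ∧
        ∃ (a : Z) (h : Z × unitInterval → X), Continuous h ∧
          (∀ z : Z, h (z, (0 : unitInterval)) = g z) ∧
          ∃ t : unitInterval, h (a, t) ≠ g a := by
  refine ⟨{z : ℂ // z ∉ D}, inferInstance, ?_, ?_⟩
  · intro h hc hid a s
    by_contra hne
    set b := h (a, s) with hb
    have hab : 0 < ‖(b : ℂ) - a‖ := by
      rw [norm_pos_iff, sub_ne_zero]
      exact fun h' => hne (Subtype.ext h')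
    have hcs : Continuous (fun x => h (x, s)) := by fun_prop
    obtain ⟨δ, hδ, hclose⟩ := Metric.continuous_iff.mp hcs a (‖(b : ℂ) - a‖ / 3) (by positivity)
    set δ' := min δ (‖(b : ℂ) - a‖ / 3) with hδ'
    have hδ'pos : 0 < δ' := lt_min hδ (by positivity)
    obtain ⟨p, hpD, hpa⟩ := Metric.dense_iff.mp D_dense (a : ℂ) (δ' / 2) (by positivity)
    obtain ⟨r, hr0, hr1, hrS⟩ := exists_notMem ((fun d : ℂ => ‖d - p‖) '' D)
      (D_countable.image _) (δ' / 2) (by positivity)
    have hpa' : ‖p - a‖ < δ' / 2 := by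
      have h1 := Metric.mem_ball.mp hpD
      rwa [dist_eq_norm] at h1
    have hpt : ∀ θ : ℝ, p + r * exp (θ * I) ∉ D := by
      intro θ hmem
      apply hrS
      refine ⟨_, hmem, ?_⟩
      simp only [add_sub_cancel_left]
      rw [norm_mul, norm_exp_ofReal_mul_I, mul_one, norm_real, Real.norm_eq_abs, abs_of_pos hr0]
    let P : ℝ → {z : ℂ // z ∉ D} := fun θ => ⟨p + r * exp (θ * I), hpt θ⟩
    have hPc : Continuous P := by
      apply Continuous.subtype_mk
      fun_prop
    let F : C(ℝ × ℝ, ℂ) := ⟨fun q => ((h (P q.1, Set.projIcc 0 1 zero_le_one q.2 * s) :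
        {z : ℂ // z ∉ D}) : ℂ) - p, by
      apply Continuous.sub _ continuous_const
      apply continuous_subtype_val.comp
      apply hc.comp
      apply Continuous.prodMk (hPc.comp continuous_fst)
      exact (continuous_projIcc.comp continuous_snd).mul continuous_const⟩
    have hF : ∀ q, F q = ((h (P q.1, Set.projIcc 0 1 zero_le_one q.2 * s) :
        {z : ℂ // z ∉ D}) : ℂ) - p := fun q => rfl
    refine winding F ?_ ?_ r ?_ (b - p) ?_
    · intro q h0
      rw [hF, sub_eq_zero] at h0
      exact (h (P q.1, Set.projIcc 0 1 zero_le_one q.2 * s)).2 (h0 ▸ hpa)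
    · intro t
      have : P (2 * Real.pi) = P 0 := by
        apply Subtype.ext
        show p + r * exp ((2 * Real.pi : ℝ) * I) = p + r * exp ((0 : ℝ) * I)
        push_cast
        rw [exp_two_pi_mul_I]
        simp
      simp only [hF, this]
    · intro θ
      rw [hF]
      have : (Set.projIcc 0 1 zero_le_one (0 : ℝ) : unitInterval) = 0 := Set.projIcc_left _
      simp only [this, zero_mul, hid]
      show p + r * exp (θ * I) - p = r * exp (θ * I)
      ring
    · intro θ
      rw [hF]
      have h1 : (Set.projIcc 0 1 zero_le_one (1 : ℝ) : unitInterval) = 1 := Set.projIcc_right _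
      simp only [h1, one_mul]
      have h2 : dist (P θ) a < δ := by
        rw [Subtype.dist_eq, dist_eq_norm]
        show ‖p + r * exp (θ * I) - a‖ < δ
        have : p + r * exp (θ * I) - a = (p - a) + r * exp (θ * I) := by ring
        rw [this]
        have h3 : ‖(r : ℂ) * exp (θ * I)‖ = r := by
          rw [norm_mul, norm_exp_ofReal_mul_I, mul_one, norm_real, Real.norm_eq_abs,
            abs_of_pos hr0]
        have h4 := norm_add_le (p - (a : ℂ)) (r * exp (θ * I))
        have h5 : δ' ≤ δ := min_le_left _ _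
        linarith
      have h3 := hclose (P θ) h2
      rw [Subtype.dist_eq, dist_eq_norm, ← hb] at h3
      have h4 : ((h (P θ, s) : {z : ℂ // z ∉ D}) : ℂ) - p - (b - p) =
        ((h (P θ, s) : {z : ℂ // z ∉ D}) : ℂ) - b := by ring
      rw [h4]
      have h5 : δ' ≤ ‖(b : ℂ) - a‖ / 3 := min_le_right _ _
      have h6 : ‖(b : ℂ) - a‖ ≤ ‖(b : ℂ) - p‖ + ‖p - a‖ := by
        have : (b : ℂ) - a = (b - p) + (p - a) := by ring
        rw [this]
        exact norm_add_le _ _
      linarith
  · let Z := {z : ℂ × ℂ // ∀ t : ℝ, 0 ≤ t → t ≤ 1 → z.1 + t * (z.2 - z.1) ∉ D}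
    have hz1 : ∀ z : Z, z.1.1 ∉ D := by
      intro z
      have := z.2 0 le_rfl zero_le_one
      simpa using this
    obtain ⟨x0, hx0⟩ : ∃ x0 : ℂ, x0 ∉ D := by
      obtain ⟨r, -, -, hr⟩ := exists_notMem (re '' D) (D_countable.image _) 1 one_pos
      exact ⟨r, fun hmem => hr ⟨_, hmem, by simp⟩⟩
    obtain ⟨y0, hy0, hseg⟩ := good_segment x0 hx0 (x0 + 1) (1 / 2) (by norm_num)
    refine ⟨Z, inferInstance, fun z => ⟨z.1.1, hz1 z⟩, ?_, ?_, ?_, ⟨(x0, y0), hseg⟩,
      fun q => ⟨q.1.1.1 + ((q.2 : ℝ) : ℂ) * (q.1.1.2 - q.1.1.1), q.1.2 q.2 q.2.2.1 q.2.2.2⟩,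
      ?_, ?_, 1, ?_⟩
    · apply Continuous.subtype_mk
      fun_prop
    · intro U hU
      rw [Metric.isOpen_iff] at hU ⊢
      rintro _ ⟨z, hz, rfl⟩
      obtain ⟨ε, hε, hball⟩ := hU z hz
      refine ⟨ε, hε, ?_⟩
      intro x hx
      obtain ⟨y, hy, hs⟩ := good_segment x.1 x.2 z.1.2 ε hε
      refine ⟨⟨(x.1, y), hs⟩, hball ?_, rfl⟩
      rw [Metric.mem_ball, Subtype.dist_eq, Prod.dist_eq]
      apply max_lt
      · exact hx
      · rw [dist_eq_norm]
        exact hy
    · intro x
      refine ⟨⟨(x.1, x.1), ?_⟩, rfl⟩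
      intro t _ _
      simpa using x.2
    · apply Continuous.subtype_mk
      have c1 : Continuous (fun q : Z × unitInterval => q.1.1.1) :=
        continuous_fst.comp (continuous_subtype_val.comp continuous_fst)
      have c2 : Continuous (fun q : Z × unitInterval => q.1.1.2) :=
        continuous_snd.comp (continuous_subtype_val.comp continuous_fst)
      have c3 : Continuous (fun q : Z × unitInterval => ((q.2 : ℝ) : ℂ)) :=
        continuous_ofReal.comp (continuous_subtype_val.comp continuous_snd)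
      exact c1.add (c3.mul (c2.sub c1))
    · intro z
      apply Subtype.ext
      simp
    · intro hcon
      have h1 := congrArg Subtype.val hcon
      simp at h1
      rw [h1] at hy0
      have : x0 - (x0 + 1) = -1 := by ring
      rw [this] at hy0
      norm_num at hy0

end Pool.Agent.S09115
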