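import Pool.Statements.S09126
-- import your own Pool.Agent.* helpers here

set_option autoImplicit false
open Pool Pool.MP_6e1b9b_gt

namespace Pool.Agent.S09126

open Set

/-- `ρ(x,y) = 1 - |x + y - 1|`, which vanishes exactly at the two corners `(0,0)` and `(1,1)`. -/
noncomputable def rho (x y : unitInterval) : unitInterval :=
  ⟨1 - |(x : ℝ) + y - 1|, by
    have h1 := x.2.1; have h2 := x.2.2; have h3 := y.2.1; have h4 := y.2.2
    constructor
    · have : |(x : ℝ) + y - 1| ≤ 1 := by rw [abs_le]; constructor <;> linarith
      linarith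
    · have := abs_nonneg ((x : ℝ) + y - 1)
      linarith⟩

lemma rho_continuous : Continuous (fun a : Fin 3 → unitInterval => rho (a 0) (a 1)) := by
  unfold rho
  fun_prop

/-- The map. -/
noncomputable def F : C(Fin 3 → unitInterval, Fin 2 → unitInterval) where
  toFun a := ![rho (a 0) (a 1), a 2]
  continuous_toFun := by
    apply continuous_pi
    intro i
    fin_cases i
    · exact rho_continuous
    · exact continuous_apply 2

lemma F_apply (a : Fin 3 → unitInterval) : F a = ![rho (a 0) (a 1), a 2] := rfl

lemma rho_symm (x y : unitInterval) : rho y x = rho x y := by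
  unfold rho
  apply Subtype.ext
  simp only
  rw [add_comm]

lemma rho_refl (x y : unitInterval) : rho (unitInterval.symm x) (unitInterval.symm y) = rho x y := by
  unfold rho
  apply Subtype.ext
  simp only [unitInterval.coe_symm_eq]
  congr 1
  rw [← abs_neg]
  congr 1
  ring

lemma rho_zero {x y : unitInterval} (h : rho x y = 0) : (x = 0 ∧ y = 0) ∨ (x = 1 ∧ y = 1) := by
  have h0 : 1 - |(x : ℝ) + y - 1| = 0 := congrArg Subtype.val h
  have h1 := x.2.1; have h2 := x.2.2; have h3 := y.2.1; have h4 := y.2.2
  have h5 : |(x : ℝ) + y - 1| = 1 := by linarith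
  rcases (abs_eq zero_le_one).1 h5 with h6 | h6
  · right
    constructor <;> apply Subtype.ext
    · change (x : ℝ) = 1; linarith
    · change (y : ℝ) = 1; linarith
  · left
    constructor <;> apply Subtype.ext
    · change (x : ℝ) = 0; linarith
    · change (y : ℝ) = 0; linarith

lemma F_surj : Function.Surjective F := by
  intro b
  refine ⟨![b 0, 0, b 1], ?_⟩
  rw [F_apply]
  have h1 := (b 0).2.1; have h2 := (b 0).2.2
  have : rho (b 0) 0 = b 0 := by
    unfold rho
    apply Subtype.ext
    change 1 - |((b 0 : ℝ)) + 0 - 1| = _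
    rw [abs_of_nonpos (by linarith)]
    ring
  funext i
  fin_cases i
  · exact this
  · rfl

lemma no_single (a : Fin 3 → unitInterval) : ∃ b, F b = F a ∧ b ≠ a := by
  by_cases h1 : a 0 = a 1
  · by_cases h2 : a 0 = unitInterval.symm (a 0)
    · -- then `a 0 = a 1 = 1/2`
      refine ⟨![0, 1, a 2], ?_, ?_⟩
      · rw [F_apply, F_apply]
        have h3 : ((a 0 : unitInterval) : ℝ) = 1 - (a 0 : ℝ) := by
          have := congrArg Subtype.val h2
          simpa using this
        have : rho 0 1 = rho (a 0) (a 1) := by
          unfold rho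
          apply Subtype.ext
          rw [← h1]
          change 1 - |(0:ℝ) + 1 - 1| = 1 - |(a 0 : ℝ) + (a 0 : ℝ) - 1|
          have h4 : (a 0 : ℝ) + (a 0 : ℝ) - 1 = 0 := by linarith
          rw [h4]; norm_num
        funext i
        fin_cases i
        · exact this
        · rfl
      · intro h
        have h4 := congrFun h 0
        have h5 := congrFun h 1
        have h6 : (0 : unitInterval) = 1 := by
          have : (0 : unitInterval) = a 0 := h4
          rw [this, h1]; exact h5.symm
        exact zero_ne_one h6
    · refine ⟨![unitInterval.symm (a 0), unitInterval.symm (a 1), a 2], ?_, ?_⟩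
      · rw [F_apply, F_apply]
        funext i
        fin_cases i
        · exact rho_refl (a 0) (a 1)
        · rfl
      · intro h
        exact h2 (congrFun h 0).symm
  · refine ⟨![a 1, a 0, a 2], ?_, ?_⟩
    · rw [F_apply, F_apply]
      funext i
      fin_cases i
      · exact rho_symm (a 0) (a 1)
      · rfl
    · intro h
      exact h1 (congrFun h 0).symm

/-- A closed subset of the cube containing an interval of a vertical segment is not totally
disconnected. -/
lemma not_td (K : Set (Fin 3 → unitInterval)) (c : unitInterval)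
    (hK : IsTotallyDisconnected K)
    (hint : (interior {z : unitInterval | (![c, c, z] : Fin 3 → unitInterval) ∈ K}).Nonempty) :
    False := by
  obtain ⟨z0, hz0⟩ := hint
  obtain ⟨ε, hε, hball⟩ := Metric.mem_nhds_iff.1 (mem_interior_iff_mem_nhds.1 hz0)
  have hz1 : ∃ z1 : unitInterval, z1 ≠ z0 ∧ dist z1 z0 < ε := by
    have h1 := z0.2.1; have h2 := z0.2.2
    by_cases h : (z0 : ℝ) < 1
    · refine ⟨⟨min 1 (z0 + ε / 2), ?_, min_le_left _ _⟩, ?_, ?_⟩
      · exact le_min zero_le_one (by linarith)
      · intro h3
        have h4 : min 1 ((z0 : ℝ) + ε / 2) = z0 := congrArg Subtype.val h3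
        rcases min_choice 1 ((z0 : ℝ) + ε / 2) with h5 | h5 <;> rw [h5] at h4 <;> linarith
      · rw [Subtype.dist_eq, Real.dist_eq]
        simp only
        rw [abs_of_nonneg]
        · have := min_le_right 1 ((z0 : ℝ) + ε / 2)
          linarith
        · have : (z0 : ℝ) ≤ min 1 ((z0 : ℝ) + ε / 2) := le_min h2 (by linarith)
          linarith
    · have h3 : (z0 : ℝ) = 1 := by linarith
      refine ⟨⟨max 0 (z0 - ε / 2), le_max_left _ _, ?_⟩, ?_, ?_⟩
      · exact max_le zero_le_one (by linarith)
      · intro h3'
        have h4 : max 0 ((z0 : ℝ) - ε / 2) = z0 := congrArg Subtype.val h3'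
        rcases max_choice 0 ((z0 : ℝ) - ε / 2) with h5 | h5 <;> rw [h5] at h4 <;> linarith
      · rw [Subtype.dist_eq, Real.dist_eq]
        simp only
        rw [abs_of_nonpos]
        · have := le_max_right 0 ((z0 : ℝ) - ε / 2)
          linarith
        · have : max 0 ((z0 : ℝ) - ε / 2) ≤ z0 := max_le h1 (by linarith)
          linarith
  obtain ⟨z1, hne, hd⟩ := hz1
  let γ : ℝ → (Fin 3 → unitInterval) := fun r => ![c, c, projIcc 0 1 zero_le_one r]
  have hγ : Continuous γ := by
    apply continuous_pi
    intro i
    fin_cases i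
    · exact continuous_const
    · exact continuous_const
    · exact (continuous_projIcc (h := zero_le_one) : Continuous (projIcc (0:ℝ) 1 zero_le_one))
  have hT : IsPreconnected (γ '' (uIcc (z0 : ℝ) z1)) := isPreconnected_uIcc.image _ hγ.continuousOn
  have hTK : γ '' (uIcc (z0 : ℝ) z1) ⊆ K := by
    rintro _ ⟨r, hr, rfl⟩
    have hr1 : r ∈ Icc (0:ℝ) 1 := by
      have h3 : uIcc (z0 : ℝ) z1 ⊆ Icc 0 1 := uIcc_subset_Icc z0.2 z1.2
      exact h3 hr
    have hp : projIcc 0 1 zero_le_one r = ⟨r, hr1⟩ := projIcc_of_mem _ hr1
    have hdist : dist (projIcc 0 1 zero_le_one r) z0 < ε := by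
      rw [hp, Subtype.dist_eq]
      refine lt_of_le_of_lt ?_ hd
      rw [Subtype.dist_eq, Real.dist_eq, Real.dist_eq]
      exact abs_sub_left_of_mem_uIcc hr
    exact hball hdist
  have hsub := hK _ hTK hT
  have h1 : γ z0 ∈ γ '' (uIcc (z0 : ℝ) z1) := ⟨z0, left_mem_uIcc, rfl⟩
  have h2 : γ z1 ∈ γ '' (uIcc (z0 : ℝ) z1) := ⟨z1, right_mem_uIcc, rfl⟩
  have h3 := congrFun (hsub h1 h2) 2
  have h4 : projIcc 0 1 zero_le_one (z0 : ℝ) = projIcc 0 1 zero_le_one (z1 : ℝ) := h3
  rw [projIcc_val, projIcc_val] at h4
  exact hne h4.symm

/-- The negation of the preceding statement: For every continuous surjection f from the cube onto the square, if the set of points whose fiber is just themselves is totally disconnected, then some closed totally disconnected subset of the cube is mapped by f onto the whole square. -/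
theorem result :
    ¬ (∀ f : C(Fin 3 → unitInterval, Fin 2 → unitInterval),
      Function.Surjective f →
      IsTotallyDisconnected {x : Fin 3 → unitInterval | ∀ y, f y = f x → y = x} →
      ∃ K : Set (Fin 3 → unitInterval),
        IsClosed K ∧ IsTotallyDisconnected K ∧ f '' K = Set.univ) := by
  intro h
  have hempty : {x : Fin 3 → unitInterval | ∀ y, F y = F x → y = x} = ∅ := by
    rw [eq_empty_iff_forall_notMem]
    intro x hx
    obtain ⟨b, hb, hne⟩ := no_single x
    exact hne (hx b hb)
  obtain ⟨K, hKc, hKt, hKs⟩ := h F F_surj (by rw [hempty]; exact isTotallyDisconnected_empty)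
  have hcont : ∀ c : unitInterval, Continuous
      (fun z : unitInterval => (![c, c, z] : Fin 3 → unitInterval)) := by
    intro c
    apply continuous_pi
    intro i
    fin_cases i
    · exact continuous_const
    · exact continuous_const
    · exact continuous_id
  let S : Bool → Set unitInterval := fun b => {z | (![if b then 1 else 0, if b then 1 else 0, z] :
    Fin 3 → unitInterval) ∈ K}
  obtain ⟨b, hb⟩ := nonempty_interior_of_iUnion_of_closed (f := S)
    (fun b => hKc.preimage (hcont _))
    (by
      rw [eq_univ_iff_forall]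
      intro z
      have hz : (![0, z] : Fin 2 → unitInterval) ∈ F '' K := by rw [hKs]; trivial
      obtain ⟨a, haK, ha⟩ := hz
      rw [F_apply] at ha
      have h0 : rho (a 0) (a 1) = 0 := congrFun ha 0
      have h2 : a 2 = z := congrFun ha 1
      rcases rho_zero h0 with ⟨h3, h4⟩ | ⟨h3, h4⟩
      · refine mem_iUnion.2 ⟨false, ?_⟩
        have : (![0, 0, z] : Fin 3 → unitInterval) = a := by
          funext i
          fin_cases i
          · exact h3.symm
          · exact h4.symm
          · exact h2.symm
        change (![0, 0, z] : Fin 3 → unitInterval) ∈ K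
        rw [this]; exact haK
      · refine mem_iUnion.2 ⟨true, ?_⟩
        have : (![1, 1, z] : Fin 3 → unitInterval) = a := by
          funext i
          fin_cases i
          · exact h3.symm
          · exact h4.symm
          · exact h2.symm
        change (![1, 1, z] : Fin 3 → unitInterval) ∈ K
        rw [this]; exact haK)
  exact not_td K (if b then 1 else 0) hKt hb

end Pool.Agent.S09126
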