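import Pool.Statements.S09184
import Mathlib

set_option autoImplicit false
open Pool Pool.MP_7ca978_gt

namespace Pool.Agent.S09184

/-- The orthogonal map `(z, x) ↦ (e^{2πi/3} z, -x)` of `ℂ × ℝ = ℝ³`, as a linear isometry. -/
noncomputable def Tlin : EuclideanSpace ℝ (Fin 3) →ₗᵢ[ℝ] EuclideanSpace ℝ (Fin 3) where
  toFun p := !₂[-(1/2) * p 0 - (Real.sqrt 3 / 2) * p 1, (Real.sqrt 3 / 2) * p 0 - (1/2) * p 1, - p 2]
  map_add' p q := by
    ext i
    fin_cases i <;> simp <;> ring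
  map_smul' c p := by
    ext i
    fin_cases i <;> simp <;> ring
  norm_map' p := by
    rw [EuclideanSpace.norm_eq, EuclideanSpace.norm_eq]
    congr 1
    simp [Fin.sum_univ_three]
    have h : Real.sqrt 3 ^ 2 = 3 := Real.sq_sqrt (by norm_num)
    ring_nf
    rw [h]
    ring

noncomputable def T : EuclideanSpace ℝ (Fin 3) ≃ₗᵢ[ℝ] EuclideanSpace ℝ (Fin 3) :=
  Tlin.toLinearIsometryEquiv rfl

lemma T_apply (p : EuclideanSpace ℝ (Fin 3)) : T p =
    !₂[-(1/2) * p 0 - (Real.sqrt 3 / 2) * p 1, (Real.sqrt 3 / 2) * p 0 - (1/2) * p 1, - p 2] := rfl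

/-- The two real functions. -/
noncomputable def f (i : Fin 2) (p : EuclideanSpace ℝ (Fin 3)) : ℝ :=
  if i = 0 then - p 0 / 2 + (Real.sqrt 3 / 6) * p 1 - p 2 / 2
  else (p 0 ^ 2 - p 1 ^ 2) / 2 + (Real.sqrt 3 / 3) * (p 0 * p 1) + p 2 * p 0 + Real.sqrt 3 * (p 2 * p 1)

/-- The negation of the preceding statement: For every n ≥ 1, every orthogonal map T of ℝ^n and any n−1 real functions continuous on the unit sphere, some point p of the sphere satisfies φ_i(Tp) = φ_i(p) for all i. -/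
theorem result :
    ¬ (∀ n : ℕ, 1 ≤ n →
      ∀ T : EuclideanSpace ℝ (Fin n) ≃ₗᵢ[ℝ] EuclideanSpace ℝ (Fin n),
      ∀ φ : Fin (n - 1) → EuclideanSpace ℝ (Fin n) → ℝ,
        (∀ i, ContinuousOn (φ i) (Metric.sphere (0 : EuclideanSpace ℝ (Fin n)) 1)) →
        ∃ p ∈ Metric.sphere (0 : EuclideanSpace ℝ (Fin n)) 1,
          ∀ i, φ i (T p) = φ i p) := by
  intro H
  obtain ⟨p, hp, h⟩ := H 3 (by norm_num) T f (by
    intro i
    apply Continuous.continuousOn
    unfold f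
    split_ifs <;> fun_prop)
  have h0 := h (0 : Fin 2)
  have h1 := h (1 : Fin 2)
  have hs : Real.sqrt 3 ^ 2 = 3 := Real.sq_sqrt (by norm_num)
  rw [T_apply] at h0 h1
  simp [f] at h0 h1
  have e0 : p 0 + p 2 = 0 := by
    linear_combination h0 - p 0 / 12 * hs
  have e1 : p 0 ^ 2 - p 1 ^ 2 + 2 * p 2 * p 0 = 0 := by
    linear_combination (-1) * h1 - ((5 / 24) * (p 0 ^ 2 - p 1 ^ 2) + Real.sqrt 3 * (p 0 * p 1) / 12 + p 2 * p 0 / 2) * hs
  have hn : p 0 ^ 2 + p 1 ^ 2 + p 2 ^ 2 = 1 := by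
    have := hp
    rw [Metric.mem_sphere, dist_zero_right, EuclideanSpace.norm_eq, Real.sqrt_eq_one] at this
    simpa [Fin.sum_univ_three] using this
  have e2 : p 2 = - p 0 := by linarith
  rw [e2] at e1 hn
  nlinarith [sq_nonneg (p 0), sq_nonneg (p 1)]

end Pool.Agent.S09184
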