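import Pool.Statements.S09222
-- import your own Pool.Agent.* helpers here

set_option autoImplicit false
open Pool Pool.MP_8503ce_gt

namespace Pool.Agent.S09222

open Cardinal Topology Filter Set

/-- the regular cardinal `ℵ_{n+1}` -/
noncomputable def κ (n : ℕ) : Cardinal.{0} := Cardinal.aleph (Order.succ (n : Ordinal))

theorem κ_reg (n : ℕ) : (κ n).IsRegular := by
  unfold κ
  rw [Order.succ_eq_add_one]
  exact isRegular_aleph_add_one _

theorem κ_inj {m n : ℕ} (h : m < n) : κ m < κ n := by
  unfold κ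
  rw [Cardinal.aleph_lt_aleph, Order.succ_lt_succ_iff]
  exact_mod_cast h

theorem aleph0_lt (n : ℕ) : ℵ₀ < κ n := by
  unfold κ
  rw [← Cardinal.aleph_zero, Cardinal.aleph_lt_aleph]
  exact Order.bot_lt_succ _

/-- the well-ordered set of type `ω_{n+1}` -/
abbrev L (n : ℕ) : Type := (κ n).ord.ToType

theorem mk_L (n : ℕ) : #(L n) = κ n := mk_ord_toType _

theorem mk_Iio_L (n : ℕ) (a : L n) : #(Iio a) < κ n := by
  have := Cardinal.mk_Iio_lt a (by rw [mk_ord_toType, Ordinal.type_toType])
  rwa [mk_ord_toType] at this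

instance (n : ℕ) : NoMaxOrder (L n) := Cardinal.noMaxOrder (aleph0_lt n).le

instance (n : ℕ) : Nonempty (L n) := by
  rw [← Cardinal.mk_ne_zero_iff, mk_L]
  exact (lt_trans Cardinal.aleph0_pos (aleph0_lt n)).ne'

/-- a small family in `L n` is bounded -/
theorem bounded {n : ℕ} {ι : Type} (hι : #ι < κ n) (a : ι → L n) : ∃ b, ∀ i, a i ≤ b := by
  have h1 : #(⋃ i, Iio (a i)) < κ n :=
    (card_iUnion_lt_iff_forall_of_isRegular (κ_reg n) hι).mpr (fun i => mk_Iio_L n (a i))
  obtain ⟨b, hb⟩ : ∃ b, b ∉ ⋃ i, Iio (a i) := by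
    by_contra hc
    push Not at hc
    have h2 : (⋃ i, Iio (a i)) = (univ : Set (L n)) := eq_univ_of_forall hc
    rw [h2, mk_univ, mk_L] at h1
    exact lt_irrefl _ h1
  refine ⟨b, fun i => ?_⟩
  by_contra hc
  exact hb (mem_iUnion.mpr ⟨i, not_le.mp hc⟩)

/-- the index set -/
abbrev E : Type := Σ n : ℕ, L n

/-- `S` is big at `n` -/
def Big (n : ℕ) (S : E → Prop) : Prop := κ n ≤ #{x : L n | S ⟨n, x⟩}

theorem Big.mono {n : ℕ} {S T : E → Prop} (h : ∀ e, S e → T e) (hS : Big n S) : Big n T :=
  le_trans hS (Cardinal.mk_le_mk_of_subset (fun x hx => h _ hx))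

/-- the non-sober space -/
abbrev Y0 : Type := {S : E → Prop // {n | Big n S}.Finite}

/-- the factors -/
abbrev XX (n : ℕ) : Type := {S : L n → Prop // ∃ a, ∀ b, S b ↔ b < a}

instance : T0Space Prop := by
  refine ⟨fun p q h => ?_⟩
  have h1 : 𝓝 p = 𝓝 q := h
  by_cases hp : p <;> by_cases hq : q
  · simp [hp, hq]
  · exfalso
    simp only [hp, hq, nhds_true, nhds_false] at h1
    have : ({True} : Set Prop) ∈ (⊤ : Filter Prop) := by rw [← h1]; simp
    rw [Filter.mem_top] at this
    have h2 : False ∈ ({True} : Set Prop) := by rw [this]; trivial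
    simp at h2
  · exfalso
    simp only [hp, hq, nhds_true, nhds_false] at h1
    have : ({True} : Set Prop) ∈ (⊤ : Filter Prop) := by rw [h1]; simp
    rw [Filter.mem_top] at this
    have h2 : False ∈ ({True} : Set Prop) := by rw [this]; trivial
    simp at h2
  · simp [hp, hq]

def mk {n : ℕ} (a : L n) : XX n := ⟨fun b => b < a, a, fun _ => Iff.rfl⟩

theorem exists_mk {n : ℕ} (x : XX n) : ∃ a, x = mk a := by
  obtain ⟨S, a, h⟩ := x
  refine ⟨a, Subtype.ext (funext fun b => propext (h b))⟩

theorem spec_Prop {p q : Prop} (h : q → p) : p ⤳ q := by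
  show 𝓝 p ≤ 𝓝 q
  by_cases hq : q
  · have hp := h hq
    simp [hp, hq]
  · simp [hq]

theorem spec_mk {n : ℕ} {a b : L n} (h : a ≤ b) : mk b ⤳ mk a := by
  rw [subtype_specializes_iff, specializes_pi]
  intro c
  exact spec_Prop (fun hc => lt_of_lt_of_le hc h)

theorem mono_of_cont {m : ℕ} {g : XX m → Y0} (hg : Continuous g) {a b : L m} (h : a ≤ b) (e : E)
    (he : (g (mk a)).1 e) : (g (mk b)).1 e := by
  have h1 : IsOpen {x : XX m | (g x).1 e} := by
    rw [← continuous_Prop]
    exact (continuous_apply e).comp (continuous_subtype_val.comp hg)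
  exact (spec_mk h).mem_open h1 he

theorem closure_Y0 {S T : Y0} (h : ∀ e, S.1 e → T.1 e) : S ∈ closure ({T} : Set Y0) := by
  rw [← specializes_iff_mem_closure, subtype_specializes_iff, specializes_pi]
  intro e
  exact spec_Prop (h e)

theorem le_of_mem_closure {S T : Y0} (h : S ∈ closure ({T} : Set Y0)) (e : E) (he : S.1 e) : T.1 e := by
  rw [← specializes_iff_mem_closure] at h
  have h1 : IsOpen {x : Y0 | x.1 e} := by
    rw [← continuous_Prop]
    exact (continuous_apply e).comp continuous_subtype_val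
  exact h.mem_open h1 he

theorem key {m : ℕ} (g : XX m → Y0) (hg : Continuous g) :
    ∃ y, closure (g '' univ) = closure ({y} : Set Y0) := by
  classical
  let U : E → Prop := fun e => ∃ a, (g (mk a)).1 e
  -- bigness is attained
  have hbig : ∀ n, n ≠ m → Big n U → ∃ a, Big n (g (mk a)).1 := by
    intro n hnm hb
    rcases lt_or_gt_of_ne hnm with h | h
    · -- κ n < κ m
      let W := {x : L n | U ⟨n, x⟩}
      have hW : #W < κ m := lt_of_le_of_lt (le_trans (mk_set_le _) (mk_L n).le) (κ_inj h)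
      choose a ha using fun x : W => x.2
      obtain ⟨b, hb'⟩ := bounded hW a
      refine ⟨b, le_trans hb (Cardinal.mk_le_mk_of_subset ?_)⟩
      intro x hx
      exact mono_of_cont hg (hb' ⟨x, hx⟩) _ (ha ⟨x, hx⟩)
    · -- κ m < κ n
      by_contra hc
      push Not at hc
      have h1 : #(⋃ a : L m, {x : L n | (g (mk a)).1 ⟨n, x⟩}) < κ n := by
        rw [card_iUnion_lt_iff_forall_of_isRegular (κ_reg n) (by rw [mk_L]; exact κ_inj h)]
        intro a
        exact not_le.mp (hc a)
      have h2 : {x : L n | U ⟨n, x⟩} ⊆ ⋃ a : L m, {x : L n | (g (mk a)).1 ⟨n, x⟩} := by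
        rintro x ⟨a, ha⟩
        exact mem_iUnion.mpr ⟨a, ha⟩
      exact absurd hb (not_le.mpr (lt_of_le_of_lt (Cardinal.mk_le_mk_of_subset h2) h1))
  have hU : {n | Big n U}.Finite := by
    let B := {n : ℕ // n ≠ m ∧ Big n U}
    choose a ha using fun x : B => hbig x.1 x.2.1 x.2.2
    have hB : #B < κ m := lt_of_le_of_lt (Cardinal.mk_le_aleph0) (aleph0_lt m)
    obtain ⟨b, hb⟩ := bounded hB a
    apply Set.Finite.subset ((g (mk b)).2.union (Set.finite_singleton m))
    intro n hn
    by_cases hnm : n = m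
    · right; exact hnm
    · left
      exact (ha ⟨n, hnm, hn⟩).mono (fun e he => mono_of_cont hg (hb ⟨n, hnm, hn⟩) e he)
  refine ⟨⟨U, hU⟩, Subset.antisymm ?_ ?_⟩
  · apply closure_minimal _ isClosed_closure
    rintro _ ⟨x, _, rfl⟩
    obtain ⟨a, rfl⟩ := exists_mk x
    exact closure_Y0 (fun e he => ⟨a, he⟩)
  · apply closure_minimal _ isClosed_closure
    rw [singleton_subset_iff]
    have ht : Tendsto (fun a : L m => g (mk a)) atTop (𝓝 ⟨U, hU⟩) := by
      rw [tendsto_subtype_rng, tendsto_pi_nhds]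
      intro e
      rw [tendsto_nhds_Prop]
      rintro ⟨a, ha⟩
      filter_upwards [eventually_ge_atTop a] with b hb
      exact mono_of_cont hg hb e ha
    exact mem_closure_of_tendsto ht (Eventually.of_forall fun a => ⟨mk a, trivial, rfl⟩)

theorem irred (m : ℕ) : IsIrreducible (univ : Set (XX m)) := by
  refine ⟨⟨mk (Classical.arbitrary _), trivial⟩, ?_⟩
  rintro u v hu hv ⟨x, _, hx⟩ ⟨y, _, hy⟩
  obtain ⟨a, rfl⟩ := exists_mk x
  obtain ⟨b, rfl⟩ := exists_mk y
  exact ⟨mk (max a b), trivial, (spec_mk (le_max_left a b)).mem_open hu hx,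
    (spec_mk (le_max_right a b)).mem_open hv hy⟩

theorem unique_of_exists {Y : Type} [TopologicalSpace Y] [T0Space Y] {s : Set Y}
    (h : ∃ y, s = closure ({y} : Set Y)) : ∃! y, s = closure ({y} : Set Y) := by
  obtain ⟨y, hy⟩ := h
  refine ⟨y, hy, fun z hz => ?_⟩
  have h1 : closure ({z} : Set Y) = closure {y} := by rw [← hz, ← hy]
  exact (inseparable_iff_closure_eq.mpr h1).eq

theorem fin_prod (x : ∀ n, XX n) : {n | Big n (fun e => (x e.1).1 e.2)}.Finite := by
  convert Set.finite_empty
  ext n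
  simp only [mem_ofPred_eq, mem_empty_iff_false, iff_false]
  intro hb
  obtain ⟨a, ha⟩ := exists_mk (x n)
  have h1 : {b : L n | (x n).1 b} = Iio a := by
    rw [ha]; rfl
  have h2 : κ n ≤ #(Iio a) := by rw [← h1]; exact hb
  exact absurd h2 (not_le.mpr (mk_Iio_L n a))

/-- the map from the product -/
def prodMap (x : ∀ n, XX n) : Y0 := ⟨fun e => (x e.1).1 e.2, fin_prod x⟩

/-- The negation of the preceding statement: For any class K of T0 spaces containing all sober spaces, and any family of T0 spaces with K-determined subsets A_i, the product of the A_i is K-determined in the product space. -/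
theorem result :
    ¬ (∀ (K : ∀ (Y : Type) [TopologicalSpace Y], Prop),
    (∀ (Y : Type) [TopologicalSpace Y], K Y → T0Space Y) →
    (∀ (Y : Type) [TopologicalSpace Y], T0Space Y → QuasiSober Y → K Y) →
    ∀ (I : Type) (X : I → Type) [∀ i, TopologicalSpace (X i)] [∀ i, T0Space (X i)]
      (A : ∀ i, Set (X i)),
      (∀ i, ∀ (Y : Type) [TopologicalSpace Y], K Y →
        ∀ f : X i → Y, Continuous f →
          ∃! y : Y, closure (f '' A i) = closure ({y} : Set Y)) →
      ∀ (Y : Type) [TopologicalSpace Y], K Y →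
        ∀ f : (∀ i, X i) → Y, Continuous f →
          ∃! y : Y, closure (f '' Set.pi Set.univ A) = closure ({y} : Set Y)) := by
  intro H
  have := H (fun Y _ => T0Space Y ∧ (QuasiSober Y ∨ Nonempty (Y ≃ₜ Y0)))
    (fun Y _ h => h.1) (fun Y _ h1 h2 => ⟨h1, Or.inl h2⟩) ℕ XX (fun n => univ) ?_ Y0
    ⟨inferInstance, Or.inr ⟨Homeomorph.refl _⟩⟩
    prodMap ?_
  · obtain ⟨y, hy, -⟩ := this
    have h1 : ∀ e, y.1 e := by
      rintro ⟨n, b⟩
      obtain ⟨c, hc⟩ := exists_gt b
      -- the point of the product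
      let x : ∀ n, XX n := fun k => if h : k = n then h ▸ mk c else mk (Classical.arbitrary _)
      have hx : x n = mk c := by simp [x]
      have h2 : prodMap x ∈ closure (prodMap '' Set.pi Set.univ (fun _ => Set.univ)) :=
        subset_closure ⟨x, fun _ _ => trivial, rfl⟩
      rw [hy] at h2
      apply le_of_mem_closure h2
      show (x n).1 b
      rw [hx]
      exact hc
    have h2 : {n | Big n y.1} = Set.univ := by
      apply eq_univ_of_forall
      intro n
      show κ n ≤ _
      have : {x : L n | y.1 ⟨n, x⟩} = Set.univ := eq_univ_of_forall (fun x => h1 _)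
      rw [this, mk_univ, mk_L]
    have h3 := y.2
    rw [h2] at h3
    exact Set.infinite_univ h3
  · intro n Y _ hK f hf
    obtain ⟨hT0, hS | ⟨⟨φ⟩⟩⟩ := hK
    · apply unique_of_exists
      obtain ⟨y, hy⟩ := QuasiSober.sober ((irred n).image f hf.continuousOn).closure isClosed_closure
      exact ⟨y, hy.symm⟩
    · apply unique_of_exists
      obtain ⟨z, hz⟩ := key (fun x => φ (f x)) (φ.continuous.comp hf)
      refine ⟨φ.symm z, ?_⟩
      have h1 : (fun x => φ (f x)) '' univ = φ '' (f '' univ) := by rw [image_image]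
      rw [h1, ← φ.image_closure] at hz
      have h2 := congrArg (fun s => φ.symm '' s) hz
      simp only [φ.symm.image_closure, image_singleton] at h2
      have h3 : φ.symm '' (φ '' (closure (f '' univ))) = closure (f '' univ) := by
        rw [image_image]; simp
      rw [h3] at h2
      exact h2
  · apply Continuous.subtype_mk
    apply continuous_pi
    intro e
    exact (continuous_apply e.2).comp (continuous_subtype_val.comp (continuous_apply e.1))

end Pool.Agent.S09222
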