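import Pool.Statements.S09272
-- import your own Pool.Agent.* helpers here

set_option autoImplicit false
open Pool Pool.MP_8d6ae8_gt

namespace Pool.Agent.S09272

/-- the Baire space -/
abbrev B : Type := ℕ → ℕ
/-- addresses -/
abbrev W : Type := List (List ℕ)

/-- the underlying set of the example -/
inductive X : Type
  | inf : X
  | node (l : List B) (s : List ℕ) (t : ℕ) (w : W) : X
  | H (l : List B) (u : W) : X

/-- initial segments -/
def ini (φ : B) (n : ℕ) : List ℕ := (List.range n).map φ

theorem ini_length (φ : B) (n : ℕ) : (ini φ n).length = n := by simp [ini]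

theorem ini_get (φ : B) {n i : ℕ} (h : i < n) : (ini φ n)[i]? = some (φ i) := by
  simp [ini, h]

/-- neighbourhoods of infinity -/
def DD (k : ℕ) : Set X := {x | match x with
  | .inf => True
  | .node l _ _ _ => k ≤ l.length
  | .H l _ => k + 1 ≤ l.length}

theorem DD_inf (k : ℕ) : X.inf ∈ DD k := trivial
theorem DD_node {k : ℕ} {l : List B} {s : List ℕ} {t : ℕ} {w : W} :
    X.node l s t w ∈ DD k ↔ k ≤ l.length := Iff.rfl
theorem DD_H {k : ℕ} {l : List B} {u : W} : X.H l u ∈ DD k ↔ k + 1 ≤ l.length := Iff.rfl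

theorem DD_anti {k m : ℕ} (h : k ≤ m) : DD m ⊆ DD k := by
  intro x hx
  cases x with
  | inf => trivial
  | node l s t w => exact h.trans hx
  | H l u => exact (Nat.add_le_add_right h 1).trans hx

/-- the open sets -/
def opn (U : Set X) : Prop :=
  (∀ l s w, X.H l (s :: w) ∈ U → ∃ m, ∀ t ≥ m, X.node l s t w ∈ U) ∧
  (∀ φ l u, X.H (φ :: l) u ∈ U → ∃ m, ∀ n ≥ m, X.node l (ini φ n) (φ n) u ∈ U) ∧
  (X.inf ∈ U → ∃ k, DD k ⊆ U)

/-- the topology -/
@[reducible] def tX : TopologicalSpace X where
  IsOpen := opn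
  isOpen_univ := ⟨fun _ _ _ _ => ⟨0, fun _ _ => trivial⟩, fun _ _ _ _ => ⟨0, fun _ _ => trivial⟩,
    fun _ => ⟨0, fun _ _ => trivial⟩⟩
  isOpen_inter := by
    rintro U V ⟨h1, h2, h3⟩ ⟨k1, k2, k3⟩
    refine ⟨?_, ?_, ?_⟩
    · intro l s w h
      obtain ⟨m, hm⟩ := h1 l s w h.1
      obtain ⟨m', hm'⟩ := k1 l s w h.2
      exact ⟨max m m', fun t ht => ⟨hm t ((le_max_left _ _).trans ht), hm' t ((le_max_right _ _).trans ht)⟩⟩
    · intro φ l u h
      obtain ⟨m, hm⟩ := h2 φ l u h.1
      obtain ⟨m', hm'⟩ := k2 φ l u h.2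
      exact ⟨max m m', fun t ht => ⟨hm t ((le_max_left _ _).trans ht), hm' t ((le_max_right _ _).trans ht)⟩⟩
    · intro h
      obtain ⟨m, hm⟩ := h3 h.1
      obtain ⟨m', hm'⟩ := k3 h.2
      exact ⟨max m m', fun x hx => ⟨hm (DD_anti (le_max_left _ _) hx), hm' (DD_anti (le_max_right _ _) hx)⟩⟩
  isOpen_sUnion := by
    intro 𝒮 h
    refine ⟨?_, ?_, ?_⟩
    · rintro l s w ⟨U, hU, hx⟩
      obtain ⟨m, hm⟩ := (h U hU).1 l s w hx
      exact ⟨m, fun t ht => ⟨U, hU, hm t ht⟩⟩
    · rintro φ l u ⟨U, hU, hx⟩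
      obtain ⟨m, hm⟩ := (h U hU).2.1 φ l u hx
      exact ⟨m, fun t ht => ⟨U, hU, hm t ht⟩⟩
    · rintro ⟨U, hU, hx⟩
      obtain ⟨m, hm⟩ := (h U hU).2.2 hx
      exact ⟨m, fun x hx => ⟨U, hU, hm hx⟩⟩

attribute [local instance] tX

theorem isOpen_def (U : Set X) : IsOpen U ↔ opn U := Iff.rfl

/-- sets which are stable under the convergences -/
def Stab (S : Set X) : Prop :=
  (∀ l s w, ∃ m, ∀ t ≥ m, (X.node l s t w ∈ S ↔ X.H l (s :: w) ∈ S)) ∧
  (∀ φ l u, ∃ m, ∀ n ≥ m, (X.node l (ini φ n) (φ n) u ∈ S ↔ X.H (φ :: l) u ∈ S)) ∧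
  (∃ k, ∀ x ∈ DD k, (x ∈ S ↔ X.inf ∈ S))

theorem Stab.isOpen {S : Set X} (h : Stab S) : IsOpen S := by
  refine ⟨?_, ?_, ?_⟩
  · intro l s w hx
    obtain ⟨m, hm⟩ := h.1 l s w
    exact ⟨m, fun t ht => (hm t ht).2 hx⟩
  · intro φ l u hx
    obtain ⟨m, hm⟩ := h.2.1 φ l u
    exact ⟨m, fun t ht => (hm t ht).2 hx⟩
  · intro hx
    obtain ⟨k, hk⟩ := h.2.2
    exact ⟨k, fun x hx' => (hk x hx').2 hx⟩

theorem Stab.compl {S : Set X} (h : Stab S) : Stab Sᶜ := by
  refine ⟨?_, ?_, ?_⟩
  · intro l s w
    obtain ⟨m, hm⟩ := h.1 l s w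
    exact ⟨m, fun t ht => not_congr (hm t ht)⟩
  · intro φ l u
    obtain ⟨m, hm⟩ := h.2.1 φ l u
    exact ⟨m, fun t ht => not_congr (hm t ht)⟩
  · obtain ⟨k, hk⟩ := h.2.2
    exact ⟨k, fun x hx => not_congr (hk x hx)⟩

/-- level -/
def len : X → ℕ
  | .inf => 0
  | .node l _ _ _ => l.length
  | .H l _ => l.length

/-- address -/
def addr : X → W
  | .inf => []
  | .node _ s _ w => s :: w
  | .H _ u => u

/-- coordinates -/
def co : List B → ℕ → ℕ → Option ℕ
  | [], _, _ => none
  | φ :: l, i, n => if i = l.length then some (φ n) else co l i n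

/-- traces -/
def trl (l : List B) (L : W) (i n : ℕ) : Option ℕ :=
  if i < l.length then co l i n else (L.getD (i - l.length) [])[n]?

/-- trace of a point -/
def tr : X → ℕ → ℕ → Option ℕ
  | .inf, _, _ => none
  | .node l s t w, i, n => trl l ((s ++ [t]) :: w) i n
  | .H l u, i, n => trl l u i n

/-- the basic clopen sets -/
def CC (k : ℕ) (v : W) : Set X := {x | x ≠ X.inf ∧ len x ≤ k ∧ (addr x).drop (k - len x) = v}
/-- the trace sets -/
def GG (i n a : ℕ) : Set X := {x | tr x i n = some a}

/-- index set -/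
abbrev Idx : Type := ℕ × W × Option (ℕ × ℕ × ℕ)

/-- the countable family -/
def SS : Idx → Set X
  | (k, v, none) => CC k v
  | (k, v, some (i, n, a)) => CC k v ∩ GG i n a

theorem CC_1 (k : ℕ) (v : W) (l : List B) (s : List ℕ) (w : W) (t : ℕ) :
    X.node l s t w ∈ CC k v ↔ X.H l (s :: w) ∈ CC k v := by
  simp only [CC, Set.mem_ofPred_eq, len, addr]
  constructor
  · rintro ⟨_, h⟩
    exact ⟨by simp, h⟩
  · rintro ⟨_, h⟩
    exact ⟨by simp, h⟩

theorem CC_2 (k : ℕ) (v : W) (φ : B) (l : List B) (u : W) :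
    ∃ m, ∀ n ≥ m, (X.node l (ini φ n) (φ n) u ∈ CC k v ↔ X.H (φ :: l) u ∈ CC k v) := by
  have e1 : ∀ n, X.node l (ini φ n) (φ n) u ∈ CC k v ↔
      l.length ≤ k ∧ (ini φ n :: u).drop (k - l.length) = v := by
    intro n
    simp only [CC, Set.mem_ofPred_eq, len, addr]
    constructor
    · rintro ⟨_, h⟩; exact h
    · intro h; exact ⟨by simp, h⟩
  have e2 : X.H (φ :: l) u ∈ CC k v ↔ l.length + 1 ≤ k ∧ u.drop (k - (l.length + 1)) = v := by
    simp only [CC, Set.mem_ofPred_eq, len, addr, List.length_cons]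
    constructor
    · rintro ⟨_, h⟩; exact h
    · intro h; exact ⟨by simp, h⟩
  rcases lt_trichotomy l.length k with h | h | h
  · refine ⟨0, fun n _ => ?_⟩
    rw [e1, e2]
    have h1 : k - l.length = (k - (l.length + 1)) + 1 := by omega
    rw [h1, List.drop_succ_cons]
    constructor
    · rintro ⟨_, h2⟩; exact ⟨h, h2⟩
    · rintro ⟨_, h2⟩; exact ⟨h.le, h2⟩
  · refine ⟨(v.headD []).length + 1, fun n hn => ?_⟩
    rw [e1, e2]
    constructor
    · rintro ⟨_, h2⟩
      exfalso
      rw [h, Nat.sub_self, List.drop_zero] at h2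
      rw [← h2] at hn
      simp only [List.headD_cons, ini_length] at hn
      omega
    · rintro ⟨h2, _⟩; omega
  · refine ⟨0, fun n _ => ?_⟩
    rw [e1, e2]
    constructor
    · rintro ⟨h2, _⟩; omega
    · rintro ⟨h2, _⟩; omega

theorem CC_3 (k : ℕ) (v : W) (x : X) (hx : x ∈ DD (k + 1)) : x ∉ CC k v := by
  intro h
  cases x with
  | inf => exact h.1 rfl
  | node l s t w =>
    have h1 : k + 1 ≤ l.length := hx
    have h2 : l.length ≤ k := h.2.1
    omega
  | H l u =>
    have h1 : k + 1 + 1 ≤ l.length := hx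
    have h2 : l.length ≤ k := h.2.1
    omega

theorem GG_1 (i n a : ℕ) (l : List B) (s : List ℕ) (w : W) :
    ∃ m, ∀ t ≥ m, (X.node l s t w ∈ GG i n a ↔ X.H l (s :: w) ∈ GG i n a) := by
  refine ⟨a + 1, fun t ht => ?_⟩
  simp only [GG, Set.mem_ofPred_eq, tr, trl]
  by_cases h1 : i < l.length
  · rw [if_pos h1, if_pos h1]
  · rw [if_neg h1, if_neg h1]
    obtain ⟨d, hd⟩ : ∃ d, i - l.length = d := ⟨_, rfl⟩
    rw [hd]
    cases d with
    | succ d => simp
    | zero =>
      simp only [List.getD_cons_zero]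
      rcases lt_trichotomy n s.length with h | h | h
      · rw [List.getElem?_append_left h]
      · subst h
        simp
        omega
      · rw [List.getElem?_eq_none (by simp; omega), List.getElem?_eq_none (by omega)]

theorem GG_2 (i n a : ℕ) (φ : B) (l : List B) (u : W) :
    ∃ m, ∀ j ≥ m, (X.node l (ini φ j) (φ j) u ∈ GG i n a ↔ X.H (φ :: l) u ∈ GG i n a) := by
  refine ⟨n, fun j hj => ?_⟩
  simp only [GG, Set.mem_ofPred_eq, tr, trl, List.length_cons]
  have hini : ini φ j ++ [φ j] = ini φ (j + 1) := by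
    simp [ini, List.range_succ]
  rw [hini]
  rcases lt_trichotomy i l.length with h | h | h
  · rw [if_pos h, if_pos (by omega)]
    simp only [co]
    rw [if_neg (by omega)]
  · rw [if_neg (by omega), if_pos (by omega)]
    simp only [co]
    rw [if_pos h, h, Nat.sub_self]
    simp only [List.getD_cons_zero]
    rw [ini_get φ (by omega)]
  · rw [if_neg (by omega), if_neg (by omega)]
    have h1 : i - l.length = (i - (l.length + 1)) + 1 := by omega
    rw [h1]
    simp

theorem SS_stab (q : Idx) : Stab (SS q) := by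
  obtain ⟨k, v, o⟩ := q
  have h3 : ∀ x ∈ DD (k + 1), x ∉ SS (k, v, o) := by
    intro x hx h
    cases o with
    | none => exact CC_3 k v x hx h
    | some p => exact CC_3 k v x hx h.1
  refine ⟨?_, ?_, k + 1, fun x hx => ⟨fun h => absurd h (h3 x hx), fun h => absurd h (h3 _ (DD_inf _))⟩⟩
  · intro l s w
    cases o with
    | none => exact ⟨0, fun t _ => CC_1 k v l s w t⟩
    | some p =>
      obtain ⟨i, n, a⟩ := p
      obtain ⟨m, hm⟩ := GG_1 i n a l s w
      exact ⟨m, fun t ht => and_congr (CC_1 k v l s w t) (hm t ht)⟩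
  · intro φ l u
    obtain ⟨m, hm⟩ := CC_2 k v φ l u
    cases o with
    | none => exact ⟨m, hm⟩
    | some p =>
      obtain ⟨i, n, a⟩ := p
      obtain ⟨m', hm'⟩ := GG_2 i n a φ l u
      exact ⟨max m m', fun t ht => and_congr (hm t ((le_max_left _ _).trans ht))
        (hm' t ((le_max_right _ _).trans ht))⟩

theorem SS_clopen (q : Idx) : IsClopen (SS q) :=
  ⟨⟨(SS_stab q).compl.isOpen⟩, (SS_stab q).isOpen⟩

/-- the separating map -/
noncomputable def F (x : X) (q : Idx) : Bool := by
  classical exact decide (x ∈ SS q)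

theorem F_eq {x y : X} (h : F x = F y) (q : Idx) : x ∈ SS q ↔ y ∈ SS q := by
  classical
  have := congrFun h q
  simp only [F] at this
  exact decide_eq_decide.1 this

theorem co_none (l : List B) (i n : ℕ) (h : l.length ≤ i) : co l i n = none := by
  induction l with
  | nil => rfl
  | cons φ l ih =>
    simp only [List.length_cons] at h
    simp only [co]
    rw [if_neg (by omega)]
    exact ih (by omega)

theorem co_inj (l l' : List B) (hl : l.length = l'.length) (h : ∀ i n, i < l.length → co l i n = co l' i n) :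
    l = l' := by
  induction l generalizing l' with
  | nil =>
    exact (List.length_eq_zero_iff.1 hl.symm).symm
  | cons φ l ih =>
    cases l' with
    | nil => simp at hl
    | cons ψ l' =>
      have hl' : l.length = l'.length := by simpa using hl
      have h1 : φ = ψ := by
        funext n
        have := h l.length n (by simp)
        have e1 : co (φ :: l) l.length n = some (φ n) := by simp [co]
        have e2 : co (ψ :: l') l.length n = some (ψ n) := by simp [co, hl']
        rw [e1, e2] at this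
        exact Option.some.inj this
      have h2 : l = l' := by
        apply ih l' hl'
        intro i n hi
        have := h i n (by simp; omega)
        simp only [co] at this
        rw [if_neg (by omega), if_neg (by omega)] at this
        exact this
      rw [h1, h2]

theorem tr_eq {x y : X} (hx : x ≠ X.inf) (hy : y ≠ X.inf) (h : F x = F y) :
    len x = len y ∧ addr x = addr y ∧ ∀ i n, tr x i n = tr y i n := by
  have hself : ∀ z : X, z ≠ X.inf → z ∈ CC (len z) (addr z) := by
    intro z hz
    exact ⟨hz, le_rfl, by rw [Nat.sub_self, List.drop_zero]⟩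
  have h1 : y ∈ CC (len x) (addr x) := (F_eq h (len x, addr x, none)).1 (hself x hx)
  have h2 : x ∈ CC (len y) (addr y) := (F_eq h (len y, addr y, none)).2 (hself y hy)
  have hlen : len x = len y := le_antisymm h2.2.1 h1.2.1
  have haddr : addr x = addr y := by
    have := h1.2.2
    rw [hlen, Nat.sub_self, List.drop_zero] at this
    exact this.symm
  refine ⟨hlen, haddr, ?_⟩
  intro i n
  have key : ∀ a, tr x i n = some a ↔ tr y i n = some a := by
    intro a
    have := F_eq h (len x, addr x, some (i, n, a))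
    constructor
    · intro ht
      exact (this.1 ⟨hself x hx, ht⟩).2
    · intro ht
      exact (this.2 ⟨h1, ht⟩).2
  exact Option.ext key

theorem lists_eq {l l' : List B} (hl : l.length = l'.length) (L L' : W)
    (h : ∀ i n, trl l L i n = trl l' L' i n) : l = l' := by
  apply co_inj l l' hl
  intro i n hi
  have := h i n
  simp only [trl] at this
  rw [if_pos hi, if_pos (by omega)] at this
  exact this

theorem top_eq {l l' : List B} (hl : l.length = l'.length) (L L' : W)
    (h : ∀ i n, trl l L i n = trl l' L' i n) : L.getD 0 [] = L'.getD 0 [] := by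
  apply List.ext_getElem?
  intro n
  have := h l.length n
  simp only [trl] at this
  rw [if_neg (by omega), if_neg (by omega), Nat.sub_self, hl, Nat.sub_self] at this
  exact this

theorem F_inj : Function.Injective F := by
  intro x y h
  have hinf : ∀ q, X.inf ∉ SS q := by
    rintro ⟨k, v, o⟩ hq
    cases o with
    | none => exact hq.1 rfl
    | some p => exact hq.1.1 rfl
  have hself : ∀ z : X, z ≠ X.inf → z ∈ SS (len z, addr z, none) := by
    intro z hz
    exact ⟨hz, le_rfl, by rw [Nat.sub_self, List.drop_zero]⟩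
  by_cases hx : x = X.inf
  · by_cases hy : y = X.inf
    · rw [hx, hy]
    · exfalso
      rw [hx] at h
      exact hinf _ ((F_eq h _).2 (hself y hy))
  · by_cases hy : y = X.inf
    · exfalso
      rw [hy] at h
      exact hinf _ ((F_eq h _).1 (hself x hx))
    · obtain ⟨h1, h2, h3⟩ := tr_eq hx hy h
      cases x with
      | inf => exact absurd rfl hx
      | node l s t w =>
        cases y with
        | inf => exact absurd rfl hy
        | node l' s' t' w' =>
          have e1 : l = l' := lists_eq h1 _ _ h3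
          have e2 := top_eq h1 _ _ h3
          have e3 : s :: w = s' :: w' := h2
          rw [List.cons.injEq] at e3
          simp only [List.getD_cons_zero, e3.1, List.append_cancel_left_eq, List.cons.injEq,
            and_true] at e2
          rw [e1, e3.1, e3.2, e2]
        | H l' u' =>
          exfalso
          have e2 := top_eq h1 _ _ h3
          have e3 : s :: w = u' := h2
          rw [← e3] at e2
          simp at e2
      | H l u =>
        cases y with
        | inf => exact absurd rfl hy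
        | node l' s' t' w' =>
          exfalso
          have e2 := top_eq h1 _ _ h3
          have e3 : u = s' :: w' := h2
          rw [e3] at e2
          simp at e2
        | H l' u' =>
          have e1 : l = l' := lists_eq h1 _ _ h3
          have e3 : u = u' := h2
          rw [e1, e3]

theorem F_cont : Continuous F := by
  apply continuous_pi
  intro q
  rw [continuous_discrete_rng]
  intro b
  classical
  cases b with
  | true =>
    have : (fun x => F x q) ⁻¹' {true} = SS q := by
      ext x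
      simp [F]
    rw [this]
    exact (SS_clopen q).isOpen
  | false =>
    have : (fun x => F x q) ⁻¹' {false} = (SS q)ᶜ := by
      ext x
      simp [F]
    rw [this]
    exact (SS_clopen q).compl.isOpen

/-- the coarser metrizable topology -/
@[reducible] noncomputable def t2 : TopologicalSpace X := TopologicalSpace.induced F inferInstance

theorem t2_le : tX ≤ t2 := continuous_iff_le_induced.1 F_cont

theorem t2_metr : @TopologicalSpace.MetrizableSpace X t2 := by
  have h : @Topology.IsEmbedding X (Idx → Bool) t2 inferInstance F :=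
    Function.Injective.isEmbedding_induced F_inj
  exact @Topology.IsEmbedding.metrizableSpace X (Idx → Bool) t2 inferInstance inferInstance F h

theorem SS_t2_open (q : Idx) : @IsOpen X t2 (SS q) := by
  classical
  have h1 : @Continuous X (Idx → Bool) t2 inferInstance F := continuous_induced_dom
  have h2 : IsOpen {g : Idx → Bool | g q = true} := by
    have : Continuous (fun g : Idx → Bool => g q) := continuous_apply q
    exact (isOpen_discrete ({true} : Set Bool)).preimage this
  have h3 := @IsOpen.preimage X (Idx → Bool) t2 inferInstance F h1 _ h2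
  have h4 : F ⁻¹' {g : Idx → Bool | g q = true} = SS q := by
    ext x
    simp [F]
  rw [h4] at h3
  exact h3

/-- basic neighbourhoods of the points `H l u` -/
def NN (m : ℕ) (l : List B) (u : W) : Set X :=
  {x | x = X.H l u ∨ (∃ s w t, u = s :: w ∧ m ≤ t ∧ x = X.node l s t w) ∨
    (∃ φ l' n, l = φ :: l' ∧ m ≤ n ∧ x = X.node l' (ini φ n) (φ n) u)}

theorem NN_self (m : ℕ) (l : List B) (u : W) : X.H l u ∈ NN m l u := Or.inl rfl

theorem NN_open (m : ℕ) (l : List B) (u : W) : IsOpen (NN m l u) := by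
  refine ⟨?_, ?_, ?_⟩
  · intro l1 s w h
    rcases h with h | ⟨s', w', t, h1, h2, h3⟩ | ⟨φ, l', n, h1, h2, h3⟩
    · cases h
      exact ⟨m, fun t ht => Or.inr (Or.inl ⟨s, w, t, rfl, ht, rfl⟩)⟩
    · cases h3
    · cases h3
  · intro φ l1 u1 h
    rcases h with h | ⟨s', w', t, h1, h2, h3⟩ | ⟨φ, l', n, h1, h2, h3⟩
    · cases h
      exact ⟨m, fun n hn => Or.inr (Or.inr ⟨φ, l1, n, rfl, hn, rfl⟩)⟩
    · cases h3
    · cases h3
  · intro h
    rcases h with h | ⟨s', w', t, h1, h2, h3⟩ | ⟨φ, l', n, h1, h2, h3⟩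
    · cases h
    · cases h3
    · cases h3

theorem NN_sub {O : Set X} (hO : IsOpen O) {l : List B} {u : W} (h : X.H l u ∈ O) :
    ∃ m, ∀ m' ≥ m, NN m' l u ⊆ O := by
  have h1 : ∃ m, ∀ s w t, u = s :: w → m ≤ t → X.node l s t w ∈ O := by
    cases u with
    | nil => exact ⟨0, fun s w t h => by cases h⟩
    | cons s w =>
      obtain ⟨m, hm⟩ := hO.1 l s w h
      refine ⟨m, ?_⟩
      intro s' w' t e ht
      cases e
      exact hm t ht
  have h2 : ∃ m, ∀ φ l' n, l = φ :: l' → m ≤ n → X.node l' (ini φ n) (φ n) u ∈ O := by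
    cases l with
    | nil => exact ⟨0, fun s w t h => by cases h⟩
    | cons φ l =>
      obtain ⟨m, hm⟩ := hO.2.1 φ l u h
      refine ⟨m, ?_⟩
      intro s' w' t e ht
      cases e
      exact hm t ht
  obtain ⟨m1, hm1⟩ := h1
  obtain ⟨m2, hm2⟩ := h2
  refine ⟨max m1 m2, fun m' hm' x hx => ?_⟩
  have q1 : m1 ≤ m' := (le_max_left _ _).trans hm'
  have q2 : m2 ≤ m' := (le_max_right _ _).trans hm'
  rcases hx with e | ⟨s', w', t, e1, e2, e3⟩ | ⟨φ, l', n, e1, e2, e3⟩
  · rw [e]; exact h
  · rw [e3]; exact hm1 _ _ _ e1 (q1.trans e2)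
  · rw [e3]; exact hm2 _ _ _ e1 (q2.trans e2)

theorem tend_child (l : List B) (s : List ℕ) (w : W) (m : ℕ) :
    Filter.Tendsto (fun t => X.node l s (t + m) w) Filter.atTop (nhds (X.H l (s :: w))) := by
  rw [tendsto_nhds]
  intro O hO h
  obtain ⟨k, hk⟩ := hO.1 l s w h
  filter_upwards [Filter.eventually_ge_atTop k] with t ht
  exact hk _ (by omega)

theorem tend_branch (φ : B) (l : List B) (u : W) (m : ℕ) :
    Filter.Tendsto (fun n => X.node l (ini φ (n + m)) (φ (n + m)) u) Filter.atTop
      (nhds (X.H (φ :: l) u)) := by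
  rw [tendsto_nhds]
  intro O hO h
  obtain ⟨k, hk⟩ := hO.2.1 φ l u h
  filter_upwards [Filter.eventually_ge_atTop k] with t ht
  exact hk _ (by omega)

theorem NN_compact (m : ℕ) (l : List B) (u : W) : IsCompact (NN m l u) := by
  have h1 : IsCompact ({X.H l u} ∪ {x | ∃ s w t, u = s :: w ∧ m ≤ t ∧ x = X.node l s t w}) := by
    cases u with
    | nil =>
      have : {x : X | ∃ s w t, ([] : W) = s :: w ∧ m ≤ t ∧ x = X.node l s t w} = ∅ := by
        ext x
        constructor
        · rintro ⟨s, w, t, h, _⟩; cases h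
        · intro h; exact absurd h (Set.notMem_empty x)
      rw [this, Set.union_empty]
      exact isCompact_singleton
    | cons s w =>
      have := (tend_child l s w m).isCompact_insert_range
      convert this using 1
      ext x
      constructor
      · rintro (h | ⟨s', w', t, h1, h2, h3⟩)
        · left; exact h
        · cases h1
          right
          exact ⟨t - m, by rw [h3]; simp [Nat.sub_add_cancel h2]⟩
      · rintro (h | ⟨t, rfl⟩)
        · left; exact h
        · right; exact ⟨s, w, t + m, rfl, by omega, rfl⟩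
  have h2 : IsCompact ({X.H l u} ∪ {x | ∃ φ l' n, l = φ :: l' ∧ m ≤ n ∧
      x = X.node l' (ini φ n) (φ n) u}) := by
    cases l with
    | nil =>
      have : {x : X | ∃ φ l' n, ([] : List B) = φ :: l' ∧ m ≤ n ∧
          x = X.node l' (ini φ n) (φ n) u} = ∅ := by
        ext x
        constructor
        · rintro ⟨s, w, t, h, _⟩; cases h
        · intro h; exact absurd h (Set.notMem_empty x)
      rw [this, Set.union_empty]
      exact isCompact_singleton
    | cons φ l =>
      have := (tend_branch φ l u m).isCompact_insert_range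
      convert this using 1
      ext x
      constructor
      · rintro (h | ⟨s', w', t, h1, h2, h3⟩)
        · left; exact h
        · cases h1
          right
          exact ⟨t - m, by rw [h3]; simp [Nat.sub_add_cancel h2]⟩
      · rintro (h | ⟨t, rfl⟩)
        · left; exact h
        · right; exact ⟨φ, l, t + m, rfl, by omega, rfl⟩
  have h3 := h1.union h2
  convert h3 using 1
  ext x
  constructor
  · rintro (h | h | h)
    · left; left; exact h
    · left; right; exact h
    · right; right; exact h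
  · rintro ((h | h) | (h | h))
    · left; exact h
    · right; left; exact h
    · left; exact h
    · right; right; exact h

theorem NN_t2_closed (m : ℕ) (l : List B) (u : W) : @IsClosed X t2 (NN m l u) := by
  have h1 : @IsCompact X t2 (NN m l u) := by
    have h := NN_compact m l u
    have h' := @IsCompact.image X X tX t2 _ id h (continuous_id_iff_le.2 t2_le)
    simpa using h'
  haveI : @T2Space X t2 := by
    letI := t2
    haveI := t2_metr
    infer_instance
  exact @IsCompact.isClosed X t2 _ _ h1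

theorem DD_open (k : ℕ) : IsOpen (DD k) := by
  refine ⟨?_, ?_, ?_⟩
  · intro l s w h
    refine ⟨0, fun t _ => ?_⟩
    rw [DD_H] at h
    rw [DD_node]
    omega
  · intro φ l u h
    refine ⟨0, fun t _ => ?_⟩
    rw [DD_H, List.length_cons] at h
    rw [DD_node]
    omega
  · intro _
    exact ⟨k, le_rfl⟩

theorem node_open (l : List B) (s : List ℕ) (t : ℕ) (w : W) : IsOpen ({X.node l s t w} : Set X) := by
  refine ⟨?_, ?_, ?_⟩
  · intro l s w h; cases h
  · intro l s w h; cases h
  · intro h; cases h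

theorem good (p : X) (O : Set X) (hO : IsOpen O) (hp : p ∈ O) :
    ∃ D : Set X, IsOpen D ∧ p ∈ D ∧ @closure X t2 D ⊆ O := by
  cases p with
  | inf =>
    obtain ⟨k, hk⟩ := hO.2.2 hp
    refine ⟨DD (k + 1), DD_open _, trivial, ?_⟩
    intro y hy
    by_contra hyO
    have hyk : y ∉ DD k := fun h => hyO (hk h)
    have hy1 : y ≠ X.inf := by
      intro h; rw [h] at hyk; exact hyk trivial
    have hlen : len y ≤ k := by
      cases y with
      | inf => exact absurd rfl hy1
      | node l s t w =>
        rw [DD_node] at hyk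
        simp only [len]; omega
      | H l u =>
        rw [DD_H] at hyk
        simp only [len]; omega
    have hS := SS_t2_open (k, (addr y).drop (k - len y), none)
    rw [@mem_closure_iff X t2] at hy
    obtain ⟨z, hz1, hz2⟩ := hy _ hS ⟨hy1, hlen, rfl⟩
    exact CC_3 _ _ z hz2 hz1
  | node l s t w =>
    refine ⟨{X.node l s t w}, node_open _ _ _ _, rfl, ?_⟩
    haveI : @T1Space X t2 := by
      letI := t2
      haveI := t2_metr
      infer_instance
    rw [@closure_singleton X t2]
    intro y hy
    rw [Set.mem_singleton_iff.1 hy]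
    exact hp
  | H l u =>
    obtain ⟨m, hm⟩ := NN_sub hO hp
    refine ⟨NN m l u, NN_open _ _ _, NN_self _ _ _, ?_⟩
    rw [@IsClosed.closure_eq X t2 _ (NN_t2_closed m l u)]
    exact hm m le_rfl

theorem regX : RegularSpace X := by
  apply RegularSpace.of_exists_mem_nhds_isClosed_subset
  intro x s hs
  obtain ⟨O, hOs, hO, hxO⟩ := mem_nhds_iff.1 hs
  obtain ⟨D, hD, hxD, hcl⟩ := good x O hO hxO
  refine ⟨closure D, Filter.mem_of_superset (hD.mem_nhds hxD) subset_closure, isClosed_closure, ?_⟩
  refine Set.Subset.trans ?_ (hcl.trans hOs)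
  exact closure.mono t2_le

/-- the development -/
def dev (n : ℕ) : Set (Set X) :=
  {U | (∃ l s t w, U = {X.node l s t w}) ∨ (∃ l u, U = NN n l u) ∨ U = DD n}

theorem dev_open (n : ℕ) : ∀ U ∈ dev n, IsOpen U := by
  rintro U (⟨l, s, t, w, rfl⟩ | ⟨l, u, rfl⟩ | rfl)
  · exact node_open _ _ _ _
  · exact NN_open _ _ _
  · exact DD_open _

theorem dev_cover (n : ℕ) : ⋃₀ dev n = Set.univ := by
  apply Set.eq_univ_of_forall
  intro x
  cases x with
  | inf => exact ⟨DD n, Or.inr (Or.inr rfl), trivial⟩
  | node l s t w => exact ⟨_, Or.inl ⟨l, s, t, w, rfl⟩, rfl⟩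
  | H l u => exact ⟨_, Or.inr (Or.inl ⟨l, u, rfl⟩), NN_self _ _ _⟩

theorem dev_star (x : X) (O : Set X) (hO : IsOpen O) (hx : x ∈ O) :
    ∃ n : ℕ, ⋃₀ {U ∈ dev n | x ∈ U} ⊆ O := by
  cases x with
  | inf =>
    obtain ⟨k, hk⟩ := hO.2.2 hx
    refine ⟨k, ?_⟩
    rintro y ⟨U, ⟨hU, hxU⟩, hy⟩
    rcases hU with ⟨l, s, t, w, rfl⟩ | ⟨l, u, rfl⟩ | rfl
    · cases hxU
    · rcases hxU with h | ⟨s', w', t, h1, h2, h3⟩ | ⟨φ, l', n, h1, h2, h3⟩
      · cases h
      · cases h3
      · cases h3
    · exact hk hy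
  | node l s t w =>
    refine ⟨l.length + s.length + t + 1, ?_⟩
    rintro y ⟨U, ⟨hU, hxU⟩, hy⟩
    rcases hU with ⟨l, s, t, w, rfl⟩ | ⟨l, u, rfl⟩ | rfl
    · rw [Set.mem_singleton_iff.1 hy, ← Set.mem_singleton_iff.1 hxU]
      exact hx
    · exfalso
      rcases hxU with h | ⟨s', w', t, h1, h2, h3⟩ | ⟨φ, l', n, h1, h2, h3⟩
      · cases h
      · cases h3
        omega
      · rw [X.node.injEq] at h3
        have := congrArg List.length h3.2.1
        rw [ini_length] at this
        omega
    · exfalso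
      rw [DD_node] at hxU
      omega
  | H l u =>
    obtain ⟨m, hm⟩ := NN_sub hO hx
    refine ⟨max m (l.length + 1), ?_⟩
    rintro y ⟨U, ⟨hU, hxU⟩, hy⟩
    rcases hU with ⟨l, s, t, w, rfl⟩ | ⟨l, u, rfl⟩ | rfl
    · cases hxU
    · rcases hxU with h | ⟨s', w', t, h1, h2, h3⟩ | ⟨φ, l', n, h1, h2, h3⟩
      · cases h
        exact hm _ (le_max_left _ _) hy
      · cases h3
      · cases h3
    · exfalso
      rw [DD_H] at hxU
      have := le_max_right m (l.length + 1)
      omega

/-- iterated category quantifier -/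
def Qn : ℕ → (List B → Prop) → Prop
  | 0, P => P []
  | j + 1, P => Qn j (fun l => ¬ IsMeagre {φ : B | P (φ :: l)})

theorem Qn_mono (j : ℕ) {P P' : List B → Prop} (h : ∀ l, P l → P' l) (hP : Qn j P) : Qn j P' := by
  induction j generalizing P P' with
  | zero => exact h _ hP
  | succ j ih =>
    refine ih (P := fun l => ¬ IsMeagre {φ : B | P (φ :: l)}) ?_ hP
    intro l hl hm
    exact hl (hm.mono (fun φ hφ => h _ hφ))

theorem Qn_ex {ι : Type} [Countable ι] (j : ℕ) {P : ι → List B → Prop} (h : Qn j (fun l => ∃ i, P i l)) :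
    ∃ i, Qn j (P i) := by
  induction j generalizing P with
  | zero => exact h
  | succ j ih =>
    apply ih (P := fun i l => ¬ IsMeagre {φ : B | P i (φ :: l)})
    refine Qn_mono j ?_ h
    intro l hl
    by_contra hcon
    push Not at hcon
    apply hl
    have : {φ : B | ∃ i, P i (φ :: l)} = ⋃ i, {φ : B | P i (φ :: l)} := by
      ext φ
      simp
    rw [this]
    exact isMeagre_iUnion hcon

theorem Qn_len (j : ℕ) : Qn j (fun l => l.length = j) := by
  induction j with
  | zero => rfl
  | succ j ih =>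
    refine Qn_mono j ?_ ih
    intro l hl
    have : {φ : B | (φ :: l).length = j + 1} = Set.univ := by
      ext φ
      simp [hl]
    rw [this]
    exact not_isMeagre_of_isOpen isOpen_univ Set.univ_nonempty

/-- a non-meagre set is dense in some cylinder -/
theorem somewhere_dense {S : Set B} (hS : ¬ IsMeagre S) (m : ℕ) :
    ∃ s : List ℕ, m ≤ s.length ∧ ∀ t : ℕ, ∃ φ ∈ S, ini φ s.length = s ∧ φ s.length = t := by
  have h1 : ¬ IsNowhereDense S := fun h => hS h.isMeagre
  have h2 : (interior (closure S)).Nonempty := by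
    by_contra h
    exact h1 (Set.not_nonempty_iff_eq_empty.1 h)
  obtain ⟨x, hx⟩ := h2
  obtain ⟨V, ⟨y, n, rfl⟩, hxV, hV⟩ := (PiNat.isTopologicalBasis_cylinders (fun _ => ℕ)).exists_subset_of_mem_open hx
    isOpen_interior
  refine ⟨ini y (max n m), by rw [ini_length]; exact le_max_right _ _, ?_⟩
  intro t
  rw [ini_length]
  set N := max n m with hN
  let z : B := Function.update y N t
  have hz : z ∈ PiNat.cylinder y n := by
    intro i hi
    exact Function.update_of_ne (by have := le_max_left n m; omega) _ _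
  have hzc : z ∈ closure S := interior_subset (hV hz)
  have hopen : IsOpen (PiNat.cylinder z (N + 1)) := PiNat.isOpen_cylinder _ _ _
  obtain ⟨φ, hφ1, hφ2⟩ := mem_closure_iff.1 hzc _ hopen (PiNat.self_mem_cylinder _ _)
  refine ⟨φ, hφ2, ?_, ?_⟩
  · simp only [ini]
    apply List.map_congr_left
    intro i hi
    rw [List.mem_range] at hi
    rw [hφ1 i (by omega)]
    exact Function.update_of_ne (by omega) _ _
  · rw [hφ1 N (by omega)]
    exact Function.update_self _ _ _

theorem transfer (g : X → ℝ) (hg : Continuous g) (j : ℕ) (w : W) (c c' : ℝ) (hc : c < c')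
    (h : Qn (j + 1) (fun l => g (X.H l w) < c)) : ∃ w', Qn j (fun l => g (X.H l w') < c') := by
  have h1 : Qn j (fun l => ∃ s : List ℕ, g (X.H l (s :: w)) < c') := by
    refine Qn_mono j ?_ h
    intro l hl
    have h2 : ∃ m : ℕ, ¬ IsMeagre {φ : B | ∀ n ≥ m, g (X.node l (ini φ n) (φ n) w) < c} := by
      by_contra hcon
      push Not at hcon
      apply hl
      refine (isMeagre_iUnion hcon).mono ?_
      intro φ hφ
      have hO : IsOpen (g ⁻¹' Set.Iio c) := isOpen_Iio.preimage hg
      obtain ⟨m, hm⟩ := hO.2.1 φ l w hφ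
      rw [Set.mem_iUnion]
      exact ⟨m, hm⟩
    obtain ⟨m, hm⟩ := h2
    obtain ⟨s, hs, hd⟩ := somewhere_dense hm m
    refine ⟨s, ?_⟩
    by_contra hcon
    have hO : IsOpen (g ⁻¹' Set.Ioi c) := isOpen_Ioi.preimage hg
    have hmem : X.H l (s :: w) ∈ g ⁻¹' Set.Ioi c := by
      change c < g _
      push Not at hcon
      exact lt_of_lt_of_le hc hcon
    obtain ⟨k, hk⟩ := hO.1 l s w hmem
    obtain ⟨φ, hφ, e1, e2⟩ := hd k
    have h3 := hφ s.length hs
    rw [e1, e2] at h3
    have h4 : c < g (X.node l s k w) := hk k le_rfl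
    exact lt_irrefl _ (h3.trans h4)
  obtain ⟨s, hs⟩ := Qn_ex j h1
  exact ⟨s :: w, hs⟩

theorem descend (g : X → ℝ) (hg : Continuous g) (j : ℕ) : ∀ (w : W) (c : ℝ), c < 1 →
    Qn j (fun l => g (X.H l w) < c) → ∃ w', g (X.H [] w') < 1 := by
  induction j with
  | zero =>
    intro w c hc h
    exact ⟨w, lt_trans h hc⟩
  | succ j ih =>
    intro w c hc h
    obtain ⟨w', hw'⟩ := transfer g hg j w c ((c + 1) / 2) (by linarith) h
    exact ih w' ((c + 1) / 2) (by linarith) hw'

theorem not_cr : ¬ CompletelyRegularSpace X := by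
  intro hcr
  have hK : IsClosed {x : X | ∃ u, x = X.H [] u} := by
    rw [← isOpen_compl_iff]
    refine ⟨?_, ?_, ?_⟩
    · intro l s w _
      refine ⟨0, fun t _ => ?_⟩
      rintro ⟨u, hu⟩
      cases hu
    · intro l s w _
      refine ⟨0, fun t _ => ?_⟩
      rintro ⟨u, hu⟩
      cases hu
    · intro _
      refine ⟨0, ?_⟩
      rintro x hx ⟨u, rfl⟩
      rw [DD_H] at hx
      simp at hx
  obtain ⟨f, hf, hf0, hf1⟩ := hcr.completely_regular X.inf _ hK (by rintro ⟨u, hu⟩; cases hu)
  have hg : Continuous (fun x => ((f x : unitInterval) : ℝ)) := continuous_subtype_val.comp hf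
  have hO : IsOpen ((fun x => ((f x : unitInterval) : ℝ)) ⁻¹' Set.Iio (1 / 2)) := isOpen_Iio.preimage hg
  have hinf : X.inf ∈ ((fun x => ((f x : unitInterval) : ℝ)) ⁻¹' Set.Iio (1 / 2)) := by
    change ((f X.inf : unitInterval) : ℝ) < 1 / 2
    rw [hf0]
    norm_num
  obtain ⟨k, hk⟩ := hO.2.2 hinf
  have hq : Qn (k + 1) (fun l => ((f (X.H l []) : unitInterval) : ℝ) < 1 / 2) := by
    refine Qn_mono (k + 1) ?_ (Qn_len (k + 1))
    intro l hl
    exact hk (by rw [DD_H, hl])
  obtain ⟨w, hw⟩ := descend _ hg (k + 1) [] (1 / 2) (by norm_num) hq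
  have h1 : f (X.H [] w) = 1 := hf1 ⟨w, rfl⟩
  rw [h1] at hw
  norm_num at hw

/-- The negation of the preceding statement: Every regular developable space X is completely regular if it has a coarser metrizable topology t₂ such that each point p in an open set O has an open D around p whose t₂-closure lies in O. -/
theorem result :
    ¬ (∀ (X : Type) (t : TopologicalSpace X),
      @RegularSpace X t →
      (∃ G : ℕ → Set (Set X),
          (∀ n : ℕ, ∀ U ∈ G n, @IsOpen X t U) ∧
          (∀ n : ℕ, ⋃₀ G n = Set.univ) ∧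
          ∀ x : X, ∀ O : Set X, @IsOpen X t O → x ∈ O →
            ∃ n : ℕ, ⋃₀ {U ∈ G n | x ∈ U} ⊆ O) →
      (∃ t₂ : TopologicalSpace X, t ≤ t₂ ∧
          @TopologicalSpace.MetrizableSpace X t₂ ∧
          ∀ p : X, ∀ O : Set X, @IsOpen X t O → p ∈ O →
            ∃ D : Set X, @IsOpen X t D ∧ p ∈ D ∧ @closure X t₂ D ⊆ O) →
      @CompletelyRegularSpace X t) := by
  intro hall
  exact not_cr (hall X tX regX ⟨dev, dev_open, dev_cover, dev_star⟩ ⟨t2, t2_le, t2_metr, good⟩)

end Pool.Agent.S09272
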