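import Pool.Statements.S09372
-- import your own Pool.Agent.* helpers here

set_option autoImplicit false
open Pool Pool.MP_a310bd_gt

namespace Pool.Agent.S09372

open MeasureTheory Set
open scoped ENNReal RealInnerProductSpace

abbrev E (k : ℕ) := EuclideanSpace ℝ (Fin k)

/-- splitting off the first coordinate -/
noncomputable def Phi (m : ℕ) : E (m + 1) ≃ₗ[ℝ] ℝ × E m where
  toFun x := (x 0, WithLp.toLp 2 (fun i => x i.succ))
  invFun p := WithLp.toLp 2 (Fin.cons p.1 (fun i => p.2 i))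
  map_add' x y := by ext <;> simp
  map_smul' c x := by ext <;> simp
  left_inv x := by
    ext i
    refine Fin.cases ?_ (fun j => ?_) i <;> simp
  right_inv p := by
    ext <;> simp

theorem Phi_mp (m : ℕ) : MeasurePreserving (Phi m) volume volume := by
  have h1 : MeasurePreserving (@WithLp.ofLp 2 (Fin (m+1) → ℝ)) volume volume :=
    PiLp.volume_preserving_ofLp _
  have h2 := volume_preserving_piFinSuccAbove (fun _ : Fin (m+1) => ℝ) 0
  have h3 : MeasurePreserving (Prod.map (id : ℝ → ℝ) (@WithLp.toLp 2 (Fin m → ℝ)))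
      (volume.prod volume) (volume.prod volume) :=
    (MeasurePreserving.id volume).prod (PiLp.volume_preserving_toLp (Fin m))
  exact h3.comp (h2.comp h1)

/-- The body, in the coordinates `(x₀, x')`. -/
def K (m : ℕ) : Set (ℝ × E m) := {p | |p.1| ≤ 1 ∧ ‖p.2‖ ^ 2 ≤ 1 + p.1 ^ 2 / 16}

theorem isClosed_K (m : ℕ) : IsClosed (K m) := by
  apply IsClosed.inter
  · exact isClosed_le (f := fun p : ℝ × E m => |p.1|) (by fun_prop) continuous_const
  · exact isClosed_le (f := fun p : ℝ × E m => ‖p.2‖ ^ 2) (g := fun p => 1 + p.1 ^ 2 / 16)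
      (by fun_prop) (by fun_prop)

theorem isCompact_K (m : ℕ) : IsCompact (K m) := by
  apply (isCompact_closedBall (0 : ℝ × E m) 2).of_isClosed_subset (isClosed_K m)
  rintro ⟨t, z⟩ ⟨h1, h2⟩
  simp only at h1 h2
  rw [mem_closedBall_zero_iff, Prod.norm_def]
  have h3 : t ^ 2 ≤ 1 := by
    rw [← sq_abs]
    exact pow_le_one₀ (abs_nonneg _) h1
  apply max_le
  · simp only [Real.norm_eq_abs]; linarith
  · have : ‖z‖ ^ 2 ≤ 2 ^ 2 := by linarith
    exact (sq_le_sq₀ (norm_nonneg _) (by norm_num)).1 this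

theorem measurableSet_K (m : ℕ) : MeasurableSet (K m) := (isClosed_K m).measurableSet

/-- volume of the unit ball of `ℝ^m` -/
noncomputable def V (m : ℕ) : ℝ≥0∞ := volume (Metric.closedBall (0 : E m) 1)

theorem V_ne_top (m : ℕ) : V m ≠ ⊤ := measure_closedBall_lt_top.ne
theorem V_ne_zero (m : ℕ) : V m ≠ 0 := (Metric.measure_closedBall_pos volume _ one_pos).ne'

theorem vol_cyl (m : ℕ) (a b : ℝ) (z : E m) {R : ℝ} (hR : 0 ≤ R) :
    volume ((Icc a b) ×ˢ (Metric.closedBall z R)) =
      ENNReal.ofReal (b - a) * (ENNReal.ofReal (R ^ m) * V m) := by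
  rw [Measure.volume_eq_prod, Measure.prod_prod, Real.volume_Icc, Measure.addHaar_closedBall' _ _ hR]
  simp [V]

theorem K_ge (m : ℕ) : 2 * V m ≤ volume (K m) := by
  have h := vol_cyl m (-1) 1 0 (R := 1) (by norm_num)
  have h2 : (Icc (-1 : ℝ) 1) ×ˢ (Metric.closedBall (0 : E m) 1) ⊆ K m := by
    rintro ⟨t, z⟩ ⟨ht, hz⟩
    simp only at ht hz
    refine ⟨abs_le.2 ht, ?_⟩
    simp only
    rw [mem_closedBall_zero_iff] at hz
    have : ‖z‖ ^ 2 ≤ 1 := pow_le_one₀ (norm_nonneg _) hz
    nlinarith [sq_nonneg t]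
  calc 2 * V m = volume ((Icc (-1 : ℝ) 1) ×ˢ (Metric.closedBall (0 : E m) 1)) := by
        rw [h]; norm_num
    _ ≤ _ := measure_mono h2

theorem K_ge' (m : ℕ) : ENNReal.ofReal (1 / 4) * (ENNReal.ofReal (√(265 / 256) ^ m) * V m) ≤
    volume (K m) := by
  have h := vol_cyl m (3 / 4) 1 0 (R := √(265 / 256)) (by positivity)
  have h2 : (Icc (3 / 4 : ℝ) 1) ×ˢ (Metric.closedBall (0 : E m) √(265 / 256)) ⊆ K m := by
    rintro ⟨t, z⟩ ⟨ht, hz⟩
    simp only at ht hz
    refine ⟨abs_le.2 ⟨by linarith [ht.1], ht.2⟩, ?_⟩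
    simp only
    rw [mem_closedBall_zero_iff] at hz
    have h3 : ‖z‖ ^ 2 ≤ √(265 / 256) ^ 2 := pow_le_pow_left₀ (norm_nonneg _) hz 2
    rw [Real.sq_sqrt (by norm_num)] at h3
    nlinarith [ht.1]
  calc _ = volume ((Icc (3 / 4 : ℝ) 1) ×ˢ (Metric.closedBall (0 : E m) √(265 / 256))) := by
        rw [h]; norm_num
    _ ≤ _ := measure_mono h2

/-- small cross sections -/
def L (m : ℕ) : Set (ℝ × E m) := {p | p ∈ K m ∧ ‖p.2‖ ^ 2 < 1 / 2}

theorem L_le (m : ℕ) : volume (L m) ≤ ENNReal.ofReal (√(15 / 16) ^ m) * volume (K m) := by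
  have h2 : L m ⊆ (Icc (-1 : ℝ) 1) ×ˢ (Metric.closedBall (0 : E m) √(15 / 16)) := by
    rintro ⟨t, z⟩ ⟨⟨ht, -⟩, hz⟩
    simp only at ht hz
    refine ⟨abs_le.1 ht, ?_⟩
    simp only
    rw [mem_closedBall_zero_iff]
    apply Real.le_sqrt_of_sq_le
    linarith
  calc volume (L m) ≤ _ := measure_mono h2
    _ = ENNReal.ofReal (√(15 / 16) ^ m) * (2 * V m) := by
        rw [vol_cyl m _ _ _ (by positivity)]
        norm_num
        ring
    _ ≤ _ := by gcongr; exact K_ge m

theorem slab_le (m : ℕ) (z : E m) (hz : ‖z‖ ^ 2 ≤ 17 / 16) :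
    volume {p : ℝ × E m | p ∈ K m ∧ 3 / 8 < |⟪p.2, z⟫|} ≤
      2 * ENNReal.ofReal (√(15 / 16) ^ m) * volume (K m) := by
  have key : ∀ (p : ℝ × E m) (w : E m), ‖w‖ ^ 2 ≤ 17 / 16 → p ∈ K m → 3 / 8 < ⟪p.2, w⟫ →
      p ∈ (Icc (-1 : ℝ) 1) ×ˢ (Metric.closedBall ((1 / 3 : ℝ) • w) √(15 / 16)) := by
    rintro ⟨t, x⟩ w hw ⟨ht, hx⟩ hin
    simp only at ht hx hin
    refine ⟨abs_le.1 ht, ?_⟩
    simp only
    rw [mem_closedBall_iff_norm]
    apply Real.le_sqrt_of_sq_le
    rw [norm_sub_sq_real, inner_smul_right, norm_smul]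
    have h3 : t ^ 2 ≤ 1 := by
      rw [← sq_abs]
      exact pow_le_one₀ (abs_nonneg _) ht
    have h4 : (‖(1 / 3 : ℝ)‖ * ‖w‖) ^ 2 = ‖w‖ ^ 2 / 9 := by
      rw [Real.norm_of_nonneg (by norm_num)]; ring
    rw [h4]
    nlinarith
  have h2 : {p : ℝ × E m | p ∈ K m ∧ 3 / 8 < |⟪p.2, z⟫|} ⊆
      ((Icc (-1 : ℝ) 1) ×ˢ (Metric.closedBall ((1 / 3 : ℝ) • z) √(15 / 16))) ∪
      ((Icc (-1 : ℝ) 1) ×ˢ (Metric.closedBall ((1 / 3 : ℝ) • (-z)) √(15 / 16))) := by
    rintro p ⟨hp, hin⟩
    rcases lt_abs.1 hin with h | h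
    · exact Or.inl (key p z hz hp h)
    · exact Or.inr (key p (-z) (by rwa [norm_neg]) hp (by rwa [inner_neg_right]))
  calc _ ≤ _ := measure_mono h2
    _ ≤ _ := measure_union_le _ _
    _ = 2 * ENNReal.ofReal (√(15 / 16) ^ m) * (2 * V m) := by
        rw [vol_cyl m _ _ _ (by positivity), vol_cyl m _ _ _ (by positivity)]
        norm_num
        ring
    _ ≤ _ := by gcongr; exact K_ge m

theorem slab2_le (m : ℕ) :
    (volume.prod volume) {q : (ℝ × E m) × (ℝ × E m) | q.1 ∈ K m ∧ q.2 ∈ K m ∧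
      3 / 8 < |⟪q.1.2, q.2.2⟫|} ≤
      2 * ENNReal.ofReal (√(15 / 16) ^ m) * volume (K m) ^ 2 := by
  have hmeas : MeasurableSet {q : (ℝ × E m) × (ℝ × E m) | q.1 ∈ K m ∧ q.2 ∈ K m ∧
      3 / 8 < |⟪q.1.2, q.2.2⟫|} := by
    apply MeasurableSet.inter (measurable_fst (measurableSet_K m))
    apply MeasurableSet.inter (measurable_snd (measurableSet_K m))
    apply IsOpen.measurableSet
    exact isOpen_lt (g := fun q : (ℝ × E m) × (ℝ × E m) => |⟪q.1.2, q.2.2⟫|)
      continuous_const (by fun_prop)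
  rw [Measure.prod_apply_symm hmeas]
  calc ∫⁻ y : ℝ × E m, volume ((fun x => (x, y)) ⁻¹' {q : (ℝ × E m) × (ℝ × E m) | q.1 ∈ K m ∧
        q.2 ∈ K m ∧ 3 / 8 < |⟪q.1.2, q.2.2⟫|})
      ≤ ∫⁻ y : ℝ × E m, (K m).indicator
        (fun _ => 2 * ENNReal.ofReal (√(15 / 16) ^ m) * volume (K m)) y := by
        apply lintegral_mono
        intro y
        simp only
        by_cases hy : y ∈ K m
        · rw [indicator_of_mem hy]
          refine le_trans (measure_mono ?_) (slab_le m y.2 ?_)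
          · rintro x ⟨h1, -, h3⟩
            exact ⟨h1, h3⟩
          · obtain ⟨h1, h2⟩ := hy
            have h3 : y.1 ^ 2 ≤ 1 := by
              rw [← sq_abs]
              exact pow_le_one₀ (abs_nonneg _) h1
            linarith
        · rw [indicator_of_notMem hy]
          have : ((fun x => (x, y)) ⁻¹' {q : (ℝ × E m) × (ℝ × E m) | q.1 ∈ K m ∧
            q.2 ∈ K m ∧ 3 / 8 < |⟪q.1.2, q.2.2⟫|}) = ∅ := by
            ext x
            simp [hy]
          rw [this]; simp
    _ = _ := by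
        rw [lintegral_indicator (measurableSet_K m), lintegral_const,
          Measure.restrict_apply_univ]
        ring


/-- `(t, z) ↦ (-t, z)` preserves volume -/
theorem refl_mp (m : ℕ) : MeasurePreserving (fun p : ℝ × E m => (-p.1, p.2)) volume volume :=
  (Measure.measurePreserving_neg (volume : Measure ℝ)).prod (MeasurePreserving.id volume)

/-- `(t, z) ↦ (2t, z)` halves volumes of preimages -/
theorem dbl (m : ℕ) {A : Set (ℝ × E m)} (hA : MeasurableSet A) :
    2 * volume ((fun p : ℝ × E m => (2 * p.1, p.2)) ⁻¹' A) = volume A := by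
  have hm : Measurable (fun p : ℝ × E m => (2 * p.1, p.2)) := by fun_prop
  rw [Measure.volume_eq_prod, Measure.prod_apply_symm (hm hA), Measure.prod_apply_symm hA,
    ← lintegral_const_mul]
  · apply lintegral_congr
    intro z
    have : ((fun x : ℝ => (x, z)) ⁻¹' ((fun p : ℝ × E m => (2 * p.1, p.2)) ⁻¹' A)) =
        (fun x : ℝ => 2 * x) ⁻¹' ((fun x : ℝ => (x, z)) ⁻¹' A) := rfl
    rw [this, Real.volume_preimage_mul_left two_ne_zero, ← mul_assoc]
    have h2 : (2 : ℝ≥0∞) * ENNReal.ofReal |(2 : ℝ)⁻¹| = 1 := by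
      rw [abs_of_pos (by norm_num), ← ENNReal.ofReal_ofNat 2, ← ENNReal.ofReal_mul (by norm_num)]
      norm_num
    rw [h2, one_mul]
  · exact measurable_measure_prodMk_right (hm hA)

/-- the middle part of the body -/
def Mid (m : ℕ) : Set (ℝ × E m) := {p | p ∈ K m ∧ 0 ≤ p.1 ∧ p.1 ≤ 1 / 2}

theorem Mid_le (m : ℕ) : volume (Mid m) ≤
    ENNReal.ofReal (1 / 2) * (ENNReal.ofReal (√(65 / 64) ^ m) * V m) := by
  have h2 : Mid m ⊆ (Icc (0 : ℝ) (1 / 2)) ×ˢ (Metric.closedBall (0 : E m) √(65 / 64)) := by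
    rintro ⟨t, z⟩ ⟨⟨-, hz⟩, ht0, ht1⟩
    simp only at ht0 ht1 hz
    refine ⟨⟨ht0, ht1⟩, ?_⟩
    simp only
    rw [mem_closedBall_zero_iff]
    apply Real.le_sqrt_of_sq_le
    nlinarith
  calc volume (Mid m) ≤ _ := measure_mono h2
    _ = _ := by
        rw [vol_cyl m _ _ _ (by positivity)]
        norm_num

/-- A convex set is far from `K`. -/
theorem far (m : ℕ) {C : Set (ℝ × E m)} (hCm : MeasurableSet C) (hC : Convex ℝ C) :
    volume (K m) ≤ 4 * volume (symmDiff (K m) C) + 4 * volume (Mid m) := by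
  set Kp : Set (ℝ × E m) := {p | p ∈ K m ∧ 0 < p.1} with hKp
  set Kn : Set (ℝ × E m) := {p | p ∈ K m ∧ p.1 < 0} with hKn
  have hKm := measurableSet_K m
  have hKpm : MeasurableSet Kp := hKm.inter (measurableSet_lt measurable_const measurable_fst)
  have hKnm : MeasurableSet Kn := hKm.inter (measurableSet_lt measurable_fst measurable_const)
  set σ : ℝ × E m → ℝ × E m := fun p => (-p.1, p.2) with hσ
  have hσm : Measurable σ := by rw [hσ]; fun_prop
  -- the two halves have the same volume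
  have hpre : σ ⁻¹' Kp = Kn := by
    ext p
    simp [hσ, hKp, hKn, K]
  have hpn : volume Kn = volume Kp := by
    rw [← hpre]
    exact (refl_mp m).measure_preimage hKpm.nullMeasurableSet
  -- the volume of `K` is twice that of `Kp`
  have hzero : volume {p : ℝ × E m | p.1 = 0} = 0 := by
    have : {p : ℝ × E m | p.1 = 0} = ({0} : Set ℝ) ×ˢ (univ : Set (E m)) := by
      ext p; simp
    rw [this, Measure.volume_eq_prod, Measure.prod_prod]
    simp
  have hK : volume (K m) ≤ 2 * volume Kp := by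
    have hsub : K m ⊆ Kp ∪ Kn ∪ {p | p.1 = 0} := by
      intro p hp
      rcases lt_trichotomy p.1 0 with h | h | h
      · exact Or.inl (Or.inr ⟨hp, h⟩)
      · exact Or.inr h
      · exact Or.inl (Or.inl ⟨hp, h⟩)
    calc volume (K m) ≤ volume (Kp ∪ Kn ∪ {p | p.1 = 0}) := measure_mono hsub
      _ ≤ volume (Kp ∪ Kn) + volume {p : ℝ × E m | p.1 = 0} := measure_union_le _ _
      _ ≤ (volume Kp + volume Kn) + 0 := by
          rw [hzero]; gcongr; exact measure_union_le _ _
      _ = 2 * volume Kp := by rw [hpn]; ring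
  -- the good part of `Kp`
  set A : Set (ℝ × E m) := {p | p ∈ Kp ∧ p ∈ C ∧ σ p ∈ C} with hA
  have hAm : MeasurableSet A := hKpm.inter (hCm.inter (hσm hCm))
  have hKpA : volume Kp ≤ volume A + volume (K m \ C) := by
    have hsub : Kp ⊆ A ∪ (Kp \ C) ∪ (σ ⁻¹' (Kn \ C)) := by
      intro p hp
      by_cases h1 : p ∈ C
      · by_cases h2 : σ p ∈ C
        · exact Or.inl (Or.inl ⟨hp, h1, h2⟩)
        · right
          refine ⟨?_, h2⟩
          obtain ⟨hpK, hp0⟩ := hp
          refine ⟨?_, ?_⟩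
          · simpa [hσ, K] using hpK
          · simpa [hσ] using hp0
      · exact Or.inl (Or.inr ⟨hp, h1⟩)
    calc volume Kp ≤ _ := measure_mono hsub
      _ ≤ volume (A ∪ (Kp \ C)) + volume (σ ⁻¹' (Kn \ C)) := measure_union_le _ _
      _ ≤ (volume A + volume (Kp \ C)) + volume (Kn \ C) :=
          add_le_add (measure_union_le _ _)
            ((refl_mp m).measure_preimage (hKnm.diff hCm).nullMeasurableSet).le
      _ = volume A + volume ((Kp \ C) ∪ (Kn \ C)) := by
          rw [measure_union _ (hKnm.diff hCm), add_assoc]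
          rw [Set.disjoint_left]
          rintro p ⟨⟨-, h1⟩, -⟩ ⟨⟨-, h2⟩, -⟩
          linarith
      _ ≤ volume A + volume (K m \ C) := by
          gcongr
          rintro p (⟨⟨h1, -⟩, h2⟩ | ⟨⟨h1, -⟩, h2⟩)
          · exact ⟨h1, h2⟩
          · exact ⟨h1, h2⟩
  -- squeezing `A` towards the middle stays in `C`
  set B : Set (ℝ × E m) := (fun p : ℝ × E m => (2 * p.1, p.2)) ⁻¹' A with hB
  have hBC : B ⊆ C := by
    rintro ⟨t, z⟩ ⟨hp, h1, h2⟩
    simp only [hσ] at h1 h2
    have := hC h1 h2 (show (0 : ℝ) ≤ 3 / 4 by norm_num) (show (0 : ℝ) ≤ 1 / 4 by norm_num)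
      (by norm_num)
    convert this using 1
    ext
    · simp; ring
    · simp
      have : (3 / 4 : ℝ) * z.ofLp ‹_› + 1 / 4 * z.ofLp ‹_› = z.ofLp ‹_› := by ring
      linarith
  have hBvol : 2 * volume B = volume A := dbl m hAm
  have hBsub : B ⊆ (C \ K m) ∪ Mid m := by
    intro p hp
    by_cases h1 : p ∈ K m
    · right
      obtain ⟨⟨⟨h2, -⟩, h3⟩, -⟩ := hp
      simp only at h2 h3
      rw [abs_le] at h2
      exact ⟨h1, by linarith, by linarith⟩
    · exact Or.inl ⟨hBC hp, h1⟩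
  have hBle : volume B ≤ volume (C \ K m) + volume (Mid m) :=
    (measure_mono hBsub).trans (measure_union_le _ _)
  have hsymm : volume (K m \ C) + volume (C \ K m) = volume (symmDiff (K m) C) := by
    rw [Set.symmDiff_def, measure_union _ (hCm.diff hKm)]
    rw [Set.disjoint_left]
    rintro p ⟨h1, -⟩ ⟨-, h2⟩
    exact h2 h1
  calc volume (K m) ≤ 2 * volume Kp := hK
    _ ≤ 2 * (volume A + volume (K m \ C)) := by gcongr
    _ = 2 * (2 * volume B + volume (K m \ C)) := by rw [hBvol]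
    _ ≤ 2 * (2 * (volume (C \ K m) + volume (Mid m)) + volume (K m \ C)) := by gcongr
    _ ≤ 2 * (2 * (volume (C \ K m) + volume (Mid m)) + 2 * volume (K m \ C)) := by
        gcongr
        rw [two_mul]
        exact le_self_add
    _ = 4 * (volume (K m \ C) + volume (C \ K m)) + 4 * volume (Mid m) := by ring
    _ = _ := by rw [hsymm]


/-- Typical planar sections are convex. -/
theorem section_convex (m : ℕ) (x y : E (m + 1)) (hx : Phi m x ∈ K m) (hy : Phi m y ∈ K m)
    (hx2 : 1 / 2 ≤ ‖(Phi m x).2‖ ^ 2) (hy2 : 1 / 2 ≤ ‖(Phi m y).2‖ ^ 2)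
    (hxy : |⟪(Phi m x).2, (Phi m y).2⟫| ≤ 3 / 8) :
    Convex ℝ ((Phi m ⁻¹' K m) ∩ (Submodule.span ℝ {x, y} : Set (E (m + 1)))) := by
  have hq : ∀ v ∈ Submodule.span ℝ {x, y}, (Phi m v).1 ^ 2 / 16 ≤ ‖(Phi m v).2‖ ^ 2 := by
    intro v hv
    obtain ⟨a, b, rfl⟩ := Submodule.mem_span_pair.1 hv
    rw [map_add, map_smul, map_smul]
    simp only [Prod.fst_add, Prod.smul_fst, Prod.snd_add, Prod.smul_snd, smul_eq_mul]
    rw [norm_add_sq_real, inner_smul_left, inner_smul_right, norm_smul, norm_smul]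
    simp only [Real.norm_eq_abs, conj_trivial, mul_pow, sq_abs]
    set X := ‖(Phi m x).2‖ ^ 2
    set Y := ‖(Phi m y).2‖ ^ 2
    set Z := ⟪(Phi m x).2, (Phi m y).2⟫
    set p := (Phi m x).1
    set r := (Phi m y).1
    have hp : |p| ≤ 1 := hx.1
    have hr : |r| ≤ 1 := hy.1
    have h1 : (a * p + b * r) ^ 2 ≤ 2 * (a ^ 2 + b ^ 2) := by
      have h2 : (a * p + b * r) ^ 2 ≤ 2 * ((a * p) ^ 2 + (b * r) ^ 2) := by
        nlinarith [sq_nonneg (a * p - b * r)]
      have h3 : p ^ 2 ≤ 1 := by rw [← sq_abs]; exact pow_le_one₀ (abs_nonneg _) hp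
      have h4 : r ^ 2 ≤ 1 := by rw [← sq_abs]; exact pow_le_one₀ (abs_nonneg _) hr
      nlinarith [sq_nonneg a, sq_nonneg b]
    have h5 : -(3 / 8) * (a ^ 2 + b ^ 2) ≤ 2 * (a * (b * Z)) := by
      have h6 : |2 * (a * (b * Z))| ≤ 3 / 8 * (a ^ 2 + b ^ 2) := by
        have : 2 * (a * (b * Z)) = (2 * (a * b)) * Z := by ring
        rw [this, abs_mul]
        have h7 : |2 * (a * b)| ≤ a ^ 2 + b ^ 2 := by
          rw [abs_le]
          constructor <;> nlinarith [sq_nonneg (a - b), sq_nonneg (a + b)]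
        calc |2 * (a * b)| * |Z| ≤ (a ^ 2 + b ^ 2) * (3 / 8) :=
              mul_le_mul h7 hxy (abs_nonneg _) (by positivity)
          _ = _ := by ring
      have := neg_abs_le (2 * (a * (b * Z)))
      linarith
    nlinarith [sq_nonneg a, sq_nonneg b]
  rintro v ⟨hvK, hvs⟩ w ⟨hwK, hws⟩ α β hα hβ hαβ
  refine ⟨?_, Submodule.add_mem _ (Submodule.smul_mem _ _ hvs) (Submodule.smul_mem _ _ hws)⟩
  have hd := hq (v - w) (Submodule.sub_mem _ hvs hws)
  rw [map_sub] at hd
  simp only [Prod.fst_sub, Prod.snd_sub] at hd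
  rw [norm_sub_sq_real] at hd
  obtain ⟨hv1, hv2⟩ := hvK
  obtain ⟨hw1, hw2⟩ := hwK
  rw [mem_preimage, map_add, map_smul, map_smul]
  obtain rfl : β = 1 - α := by linarith
  constructor
  · simp only [Prod.fst_add, Prod.smul_fst, smul_eq_mul]
    rw [abs_le] at hv1 hw1 ⊢
    constructor <;> nlinarith
  · simp only [Prod.fst_add, Prod.smul_fst, Prod.snd_add, Prod.smul_snd, smul_eq_mul]
    rw [norm_add_sq_real, inner_smul_left, inner_smul_right, norm_smul, norm_smul]
    simp only [Real.norm_eq_abs, conj_trivial, mul_pow, sq_abs]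
    have h3 := mul_nonneg (mul_nonneg hα hβ) (sub_nonneg.2 hd)
    have h4 := mul_le_mul_of_nonneg_left hv2 hα
    have h5 := mul_le_mul_of_nonneg_left hw2 hβ
    nlinarith

theorem exists_m (c : ℝ) : ∃ m : ℕ, c * ((m : ℝ) + 1) * (4 * √(15 / 16) ^ m) ≤ 1 / 16 ∧
    √(65 / 64) ^ m ≤ 1 / 16 * √(265 / 256) ^ m := by
  have hs0 : 0 ≤ √(15 / 16 : ℝ) := by positivity
  have hs1 : √(15 / 16 : ℝ) < 1 := by
    rw [Real.sqrt_lt' one_pos]; norm_num
  have h1 : Filter.Tendsto (fun m : ℕ => (m : ℝ) * √(15 / 16) ^ m) Filter.atTop (nhds 0) :=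
    tendsto_self_mul_const_pow_of_lt_one hs0 hs1
  have h2 : Filter.Tendsto (fun m : ℕ => (√(15 / 16) : ℝ) ^ m) Filter.atTop (nhds 0) :=
    tendsto_pow_atTop_nhds_zero_of_lt_one hs0 hs1
  have h3 : Filter.Tendsto (fun m : ℕ => c * ((m : ℝ) + 1) * (4 * √(15 / 16) ^ m))
      Filter.atTop (nhds 0) := by
    have := (h1.add h2).const_mul (4 * c)
    simp only [add_zero, mul_zero] at this
    refine this.congr fun m => ?_
    ring
  have hb : 0 < √(265 / 256 : ℝ) := by positivity
  have h4 : Filter.Tendsto (fun m : ℕ => (√(65 / 64) / √(265 / 256) : ℝ) ^ m) Filter.atTop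
      (nhds 0) := by
    apply tendsto_pow_atTop_nhds_zero_of_lt_one (by positivity)
    rw [div_lt_one hb]
    exact Real.sqrt_lt_sqrt (by norm_num) (by norm_num)
  have h5 := (h3.eventually (ge_mem_nhds (show (0 : ℝ) < 1 / 16 by norm_num))).and
    (h4.eventually (ge_mem_nhds (show (0 : ℝ) < 1 / 16 by norm_num)))
  obtain ⟨m, hm1, hm2⟩ := h5.exists
  refine ⟨m, hm1, ?_⟩
  rw [div_pow, div_le_iff₀ (by positivity)] at hm2
  exact hm2

theorem main (c : ℝ) (hc : 0 < c)
    (H : ∀ (n : ℕ) (S : Set (EuclideanSpace ℝ (Fin n))),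
        IsCompact S → 0 < MeasureTheory.volume S →
        (∫ x in S, x ∂MeasureTheory.volume) = 0 →
        ∀ ε : ℝ, 0 ≤ ε →
          (MeasureTheory.volume.prod MeasureTheory.volume)
              {p : EuclideanSpace ℝ (Fin n) × EuclideanSpace ℝ (Fin n) |
                p.1 ∈ S ∧ p.2 ∈ S ∧
                  ¬ Convex ℝ (S ∩ (Submodule.span ℝ {p.1, p.2} : Set (EuclideanSpace ℝ (Fin n))))}
            ≤ ENNReal.ofReal ε * MeasureTheory.volume S ^ 2 →
          ∃ C : Set (EuclideanSpace ℝ (Fin n)),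
            IsCompact C ∧ Convex ℝ C ∧
              MeasureTheory.volume (symmDiff S C)
                ≤ ENNReal.ofReal (c * (n : ℝ) * ε) * MeasureTheory.volume S) : False := by
  obtain ⟨m, hm1, hm2⟩ := exists_m c
  have hPhi := Phi_mp m
  have hcont : Continuous (Phi m) := LinearMap.continuous_of_finiteDimensional (Phi m).toLinearMap
  have hcont' : Continuous (Phi m).symm :=
    LinearMap.continuous_of_finiteDimensional (Phi m).symm.toLinearMap
  set S : Set (E (m + 1)) := Phi m ⁻¹' K m with hS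
  have hSvol : volume S = volume (K m) :=
    hPhi.measure_preimage (measurableSet_K m).nullMeasurableSet
  have hScomp : IsCompact S := by
    have : S = (Phi m).symm '' K m := by
      rw [hS]
      exact ((Phi m).symm.toEquiv.image_eq_preimage_symm (K m)).symm
    rw [this]
    exact (isCompact_K m).image hcont'
  have hVpos : 0 < V m := pos_iff_ne_zero.2 (V_ne_zero m)
  have hKpos : 0 < volume (K m) := by
    refine lt_of_lt_of_le ?_ (K_ge m)
    exact ENNReal.mul_pos two_ne_zero hVpos.ne'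
  have hKtop : volume (K m) ≠ ⊤ := (isCompact_K m).measure_lt_top.ne
  -- centroid
  have hneg : ∀ x : E (m + 1), -x ∈ S ↔ x ∈ S := by
    intro x
    simp [hS, K]
  have hcent : (∫ x in S, x ∂volume) = 0 := by
    have hSm : MeasurableSet S := hScomp.isClosed.measurableSet
    rw [← integral_indicator hSm]
    have h1 := integral_neg_eq_self (fun x : E (m + 1) => S.indicator (fun x => x) x) volume
    have h2 : (fun x : E (m + 1) => S.indicator (fun x => x) (-x)) =
        fun x => - S.indicator (fun x => x) x := by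
      funext x
      by_cases hx : x ∈ S
      · rw [indicator_of_mem hx, indicator_of_mem ((hneg x).2 hx)]
      · rw [indicator_of_notMem hx, indicator_of_notMem (fun h => hx ((hneg x).1 h)), neg_zero]
    rw [h2, integral_neg] at h1
    set I : E (m + 1) := ∫ x : E (m + 1), S.indicator (fun x => x) x with hI
    have h3 : (2 : ℝ) • I = 0 := by
      rw [two_smul]
      nth_rewrite 1 [← h1]
      exact neg_add_cancel I
    exact (smul_eq_zero.1 h3).resolve_left two_ne_zero
  -- the probability of a nonconvex section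
  set s : ℝ := √(15 / 16) with hs
  have hprob : (volume.prod volume)
      {p : E (m + 1) × E (m + 1) | p.1 ∈ S ∧ p.2 ∈ S ∧
        ¬ Convex ℝ (S ∩ (Submodule.span ℝ {p.1, p.2} : Set (E (m + 1))))} ≤
      ENNReal.ofReal (4 * s ^ m) * volume S ^ 2 := by
    set B : Set ((ℝ × E m) × (ℝ × E m)) := (L m ×ˢ K m ∪ K m ×ˢ L m) ∪
      {q : (ℝ × E m) × (ℝ × E m) | q.1 ∈ K m ∧ q.2 ∈ K m ∧ 3 / 8 < |⟪q.1.2, q.2.2⟫|} with hB
    have hsub : {p : E (m + 1) × E (m + 1) | p.1 ∈ S ∧ p.2 ∈ S ∧
        ¬ Convex ℝ (S ∩ (Submodule.span ℝ {p.1, p.2} : Set (E (m + 1))))} ⊆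
        (Prod.map (Phi m) (Phi m)) ⁻¹' B := by
      rintro ⟨x, y⟩ ⟨hx, hy, hnc⟩
      simp only at hx hy hnc
      by_contra hB'
      apply hnc
      simp only [hB, mem_preimage, Prod.map_apply, mem_union, mem_prod, not_or, L, mem_ofPred_eq,
        not_and, not_lt] at hB'
      obtain ⟨⟨h1, h2⟩, h3⟩ := hB'
      apply section_convex m x y hx hy _ _ (h3 hx hy)
      · by_contra h
        push Not at h
        exact h1 ⟨hx, h⟩ hy
      · by_contra h
        push Not at h
        exact absurd (h2 hx hy) (not_le.2 h)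
    have hBm : MeasurableSet B := by
      have hL : MeasurableSet (L m) := by
        apply (measurableSet_K m).inter
        exact (isOpen_lt (f := fun p : ℝ × E m => ‖p.2‖ ^ 2) (by fun_prop)
          continuous_const).measurableSet
      refine ((hL.prod (measurableSet_K m)).union ((measurableSet_K m).prod hL)).union ?_
      apply MeasurableSet.inter (measurable_fst (measurableSet_K m))
      apply MeasurableSet.inter (measurable_snd (measurableSet_K m))
      apply IsOpen.measurableSet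
      exact isOpen_lt (g := fun q : (ℝ × E m) × (ℝ × E m) => |⟪q.1.2, q.2.2⟫|)
        continuous_const (by fun_prop)
    have hmp := hPhi.prod hPhi
    rw [hSvol]
    calc _ ≤ (volume.prod volume) ((Prod.map (Phi m) (Phi m)) ⁻¹' B) := measure_mono hsub
      _ = (volume.prod volume) B := hmp.measure_preimage hBm.nullMeasurableSet
      _ ≤ ((volume.prod volume) (L m ×ˢ K m) + (volume.prod volume) (K m ×ˢ L m)) +
          (volume.prod volume) {q : (ℝ × E m) × (ℝ × E m) | q.1 ∈ K m ∧ q.2 ∈ K m ∧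
            3 / 8 < |⟪q.1.2, q.2.2⟫|} :=
          (measure_union_le _ _).trans (add_le_add (measure_union_le _ _) le_rfl)
      _ ≤ (ENNReal.ofReal (s ^ m) * volume (K m) * volume (K m) +
          volume (K m) * (ENNReal.ofReal (s ^ m) * volume (K m))) +
          2 * ENNReal.ofReal (s ^ m) * volume (K m) ^ 2 := by
          rw [Measure.prod_prod, Measure.prod_prod]
          exact add_le_add (add_le_add (mul_le_mul_left (L_le m) _) (mul_le_mul_right (L_le m) _))
            (slab2_le m)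
      _ = 4 * ENNReal.ofReal (s ^ m) * volume (K m) ^ 2 := by ring
      _ = _ := by
          rw [ENNReal.ofReal_mul (by norm_num)]
          norm_num
  obtain ⟨C, hCcomp, hCconv, hCle⟩ := H (m + 1) S hScomp (by rwa [hSvol]) hcent
    (4 * s ^ m) (by positivity) hprob
  -- transfer `C`
  set C' : Set (ℝ × E m) := (Phi m).symm ⁻¹' C with hC'
  have hC'm : MeasurableSet C' := (hCcomp.isClosed.preimage hcont').measurableSet
  have hC'conv : Convex ℝ C' := hCconv.linear_preimage (Phi m).symm.toLinearMap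
  have hsd : volume (symmDiff S C) = volume (symmDiff (K m) C') := by
    have h1 : symmDiff S C = Phi m ⁻¹' (symmDiff (K m) C') := by
      ext x
      simp [hS, hC', Set.mem_symmDiff]
    rw [h1]
    exact hPhi.measure_preimage ((measurableSet_K m).symmDiff hC'm).nullMeasurableSet
  rw [hsd, hSvol] at hCle
  have hfar := far m hC'm hC'conv
  have h6 : volume (symmDiff (K m) C') ≤ ENNReal.ofReal (1 / 16) * volume (K m) := by
    refine hCle.trans ?_
    gcongr
    push_cast
    exact hm1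
  have h7 : volume (Mid m) ≤ ENNReal.ofReal (1 / 8) * volume (K m) := by
    calc volume (Mid m) ≤ ENNReal.ofReal (1 / 2) * (ENNReal.ofReal (√(65 / 64) ^ m) * V m) :=
          Mid_le m
      _ ≤ ENNReal.ofReal (1 / 2) * (ENNReal.ofReal (1 / 16 * √(265 / 256) ^ m) * V m) := by
          gcongr
      _ = ENNReal.ofReal (1 / 8) *
          (ENNReal.ofReal (1 / 4) * (ENNReal.ofReal (√(265 / 256) ^ m) * V m)) := by
          rw [ENNReal.ofReal_mul (by norm_num : (0 : ℝ) ≤ 1 / 16)]
          have e1 : ENNReal.ofReal (1 / 2) * ENNReal.ofReal (1 / 16) =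
              ENNReal.ofReal (1 / 8) * ENNReal.ofReal (1 / 4) := by
            rw [← ENNReal.ofReal_mul (by norm_num), ← ENNReal.ofReal_mul (by norm_num)]
            norm_num
          calc _ = (ENNReal.ofReal (1 / 2) * ENNReal.ofReal (1 / 16)) *
                (ENNReal.ofReal (√(265 / 256) ^ m) * V m) := by ring
            _ = _ := by rw [e1]; ring
      _ ≤ _ := by gcongr; exact K_ge' m
  have h8 : volume (K m) ≤ ENNReal.ofReal (3 / 4) * volume (K m) := by
    calc volume (K m) ≤ 4 * volume (symmDiff (K m) C') + 4 * volume (Mid m) := hfar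
      _ ≤ 4 * (ENNReal.ofReal (1 / 16) * volume (K m)) +
          4 * (ENNReal.ofReal (1 / 8) * volume (K m)) := by gcongr
      _ = (4 * ENNReal.ofReal (1 / 16) + 4 * ENNReal.ofReal (1 / 8)) * volume (K m) := by ring
      _ = _ := by
          congr 1
          rw [← ENNReal.ofReal_ofNat 4, ← ENNReal.ofReal_mul (by norm_num),
            ← ENNReal.ofReal_mul (by norm_num), ← ENNReal.ofReal_add (by norm_num) (by norm_num)]
          norm_num
  have h9 : ENNReal.ofReal (3 / 4) * volume (K m) < volume (K m) := by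
    calc _ < 1 * volume (K m) := by
          rw [ENNReal.mul_lt_mul_iff_left hKpos.ne' hKtop]
          rw [ENNReal.ofReal_lt_one]
          norm_num
      _ = _ := one_mul _
  exact absurd h8 (not_le.2 h9)


/-- The negation of the preceding statement: There is an absolute c>0 such that for any compact S in R^n of positive volume with centroid 0: if a random pair x,y from S gives nonconvex S∩span(x,y) with probability at most ε, some compact convex C has vol(S Δ C) ≤ c·n·ε·vol(S). -/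
theorem result :
    ¬ (∃ c : ℝ, 0 < c ∧
      ∀ (n : ℕ) (S : Set (EuclideanSpace ℝ (Fin n))),
        IsCompact S → 0 < MeasureTheory.volume S →
        (∫ x in S, x ∂MeasureTheory.volume) = 0 →
        ∀ ε : ℝ, 0 ≤ ε →
          (MeasureTheory.volume.prod MeasureTheory.volume)
              {p : EuclideanSpace ℝ (Fin n) × EuclideanSpace ℝ (Fin n) |
                p.1 ∈ S ∧ p.2 ∈ S ∧
                  ¬ Convex ℝ (S ∩ (Submodule.span ℝ {p.1, p.2} : Set (EuclideanSpace ℝ (Fin n))))}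
            ≤ ENNReal.ofReal ε * MeasureTheory.volume S ^ 2 →
          ∃ C : Set (EuclideanSpace ℝ (Fin n)),
            IsCompact C ∧ Convex ℝ C ∧
              MeasureTheory.volume (symmDiff S C)
                ≤ ENNReal.ofReal (c * (n : ℝ) * ε) * MeasureTheory.volume S) := by
  rintro ⟨c, hc, H⟩
  exact main c hc H

end Pool.Agent.S09372
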