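import Pool.Statements.S09417
-- import your own Pool.Agent.* helpers here

set_option autoImplicit false
universe u
open Pool Pool.MP_acdd99_gt

namespace Pool.Agent.S09417

open Cardinal Set Topology

theorem delta {I κ : Type u} {c : Cardinal.{u}} (hc : c.IsRegular) :
    ∀ (n : ℕ) (s : I → Finset κ) (T : Set I), c ≤ #T → (∀ U ∈ T, (s U).card = n) →
      ∃ (r : Finset κ) (T' : Set I), T' ⊆ T ∧ c ≤ #T' ∧ (∀ U ∈ T', r ⊆ s U) ∧
        ∀ U ∈ T', ∀ V ∈ T', U ≠ V → ∀ i, i ∈ s U → i ∈ s V → i ∈ r := by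
  classical
  intro n
  induction n with
  | zero =>
    intro s T hT hs
    refine ⟨∅, T, Subset.rfl, hT, fun U _ => Finset.empty_subset _, ?_⟩
    intro U hU V _ _ i hi _
    rw [Finset.card_eq_zero.mp (hs U hU)] at hi
    exact hi
  | succ n ih =>
    intro s T hT hs
    by_cases h : ∃ i, c ≤ #{U | U ∈ T ∧ i ∈ s U}
    · obtain ⟨i, hi⟩ := h
      obtain ⟨r, T', hT'T, hT'c, hr, hp⟩ := ih (fun U => (s U).erase i) {U | U ∈ T ∧ i ∈ s U} hi
        (by
          intro U hU
          rw [Finset.card_erase_of_mem hU.2, hs U hU.1]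
          rfl)
      refine ⟨insert i r, T', fun U hU => (hT'T hU).1, hT'c, ?_, ?_⟩
      · intro U hU
        exact Finset.insert_subset (hT'T hU).2 ((hr U hU).trans (Finset.erase_subset _ _))
      · intro U hU V hV hUV j hjU hjV
        by_cases hji : j = i
        · subst hji; exact Finset.mem_insert_self _ _
        · exact Finset.mem_insert_of_mem (hp U hU V hV hUV j
            (Finset.mem_erase.mpr ⟨hji, hjU⟩) (Finset.mem_erase.mpr ⟨hji, hjV⟩))
    · push Not at h
      let P : Set (Set I) := {D | D ⊆ T ∧ ∀ U ∈ D, ∀ V ∈ D, U ≠ V → ∀ i, i ∈ s U → i ∉ s V}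
      obtain ⟨D, hD⟩ : ∃ D, Maximal (· ∈ P) D := by
        apply zorn_subset
        intro C hC hchain
        refine ⟨⋃₀ C, ⟨?_, ?_⟩, fun D hD => subset_sUnion_of_mem hD⟩
        · rintro U ⟨D, hD, hU⟩
          exact (hC hD).1 hU
        · rintro U ⟨D, hD, hU⟩ V ⟨D', hD', hV⟩ hUV
          rcases hchain.total hD hD' with hh | hh
          · exact (hC hD').2 U (hh hU) V hV hUV
          · exact (hC hD).2 U hU V (hh hV) hUV
      refine ⟨∅, D, hD.prop.1, ?_, fun U _ => Finset.empty_subset _, ?_⟩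
      · by_contra hlt
        push Not at hlt
        let E : Set κ := ⋃ U ∈ D, (s U : Set κ)
        have hE : #E < c := by
          refine (card_biUnion_lt_iff_forall_of_isRegular hc hlt).mpr ?_
          intro U _
          exact lt_of_lt_of_le ((s U).finite_toSet.lt_aleph0) hc.aleph0_le
        have hT2 : T ⊆ ⋃ i ∈ E, {U | U ∈ T ∧ i ∈ s U} := by
          intro U hU
          by_contra hcon
          have hno : ∀ i ∈ E, i ∉ s U := by
            intro i hi his
            apply hcon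
            simp only [mem_iUnion]
            exact ⟨i, hi, hU, his⟩
          have hUD : U ∉ D := by
            intro hUD
            have : (s U).Nonempty := by
              rw [← Finset.card_pos, hs U hU]; omega
            obtain ⟨i, hi⟩ := this
            exact hno i (mem_iUnion₂.mpr ⟨U, hUD, hi⟩) hi
          have hins : insert U D ∈ P := by
            refine ⟨insert_subset hU hD.prop.1, ?_⟩
            rintro A (rfl | hA) B (rfl | hB) hAB
            · exact absurd rfl hAB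
            · intro i hi hi'
              exact hno i (mem_iUnion₂.mpr ⟨B, hB, hi'⟩) hi
            · intro i hi hi'
              exact hno i (mem_iUnion₂.mpr ⟨A, hA, hi⟩) hi'
            · exact hD.prop.2 A hA B hB hAB
          have := hD.eq_of_subset hins (subset_insert _ _)
          exact hUD (this ▸ mem_insert _ _)
        have hlt2 : #(⋃ i ∈ E, {U | U ∈ T ∧ i ∈ s U} : Set I) < c :=
          (card_biUnion_lt_iff_forall_of_isRegular hc hE).mpr (fun i _ => h i)
        exact absurd hT (not_le.mpr (lt_of_le_of_lt (mk_le_mk_of_subset hT2) hlt2))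
      · intro U hU V hV hUV i hi hi'
        exact absurd hi' (hD.prop.2 U hU V hV hUV i hi)

theorem delta' {I κ : Type u} {c : Cardinal.{u}} (hc : c.IsRegular) (h0 : ℵ₀ < c)
    (s : I → Finset κ) (hI : c ≤ #I) :
      ∃ (r : Finset κ) (T' : Set I), c ≤ #T' ∧ (∀ U ∈ T', r ⊆ s U) ∧
        ∀ U ∈ T', ∀ V ∈ T', U ≠ V → ∀ i, i ∈ s U → i ∈ s V → i ∈ r := by
  obtain ⟨n, hn⟩ : ∃ n, c ≤ #{U : I | (s U).card = n} := by
    by_contra hcon
    push Not at hcon
    have hU : (⋃ n : ULift.{u} ℕ, {U : I | (s U).card = n.down}) = Set.univ := by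
      ext U
      simp only [mem_iUnion, Set.mem_univ, iff_true]
      exact ⟨⟨(s U).card⟩, rfl⟩
    have := (card_iUnion_lt_iff_forall_of_isRegular (t := fun n : ULift.{u} ℕ =>
      {U : I | (s U).card = n.down}) hc (by simpa using h0)).mpr (fun n => hcon n.down)
    rw [hU, mk_univ] at this
    exact absurd hI (not_le.mpr this)
  obtain ⟨r, T', -, h1, h2, h3⟩ := delta hc n s _ hn (fun U hU => hU)
  exact ⟨r, T', h1, h2, h3⟩

theorem interp (X : Type u) [TopologicalSpace X] [T35Space X] (A : Finset X) (t : X → ℝ) :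
    ∃ φ : X → ℝ, Continuous φ ∧ ∀ x ∈ A, φ x = t x := by
  classical
  have h : ∀ x : X, ∃ f : X → ℝ, Continuous f ∧ f x = 1 ∧ ∀ y ∈ A, y ≠ x → f y = 0 := by
    intro x
    obtain ⟨f, hf, hf0, hf1⟩ := CompletelyRegularSpace.completely_regular x
      ((A.erase x : Finset X) : Set X) (A.erase x).finite_toSet.isClosed (by simp)
    refine ⟨fun y => 1 - (f y : ℝ), by fun_prop, by simp [hf0], ?_⟩
    intro y hy hyx
    have := hf1 (show y ∈ ((A.erase x : Finset X) : Set X) by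
      simp only [Finset.coe_erase, mem_sdiff, Finset.mem_coe, mem_singleton_iff]
      exact ⟨hy, hyx⟩)
    change 1 - ((f y : unitInterval) : ℝ) = 0
    rw [this]; simp
  choose f hf hf1 hf0 using h
  refine ⟨fun y => ∑ x ∈ A, t x * f x y, by fun_prop, ?_⟩
  intro y hy
  simp only
  rw [Finset.sum_eq_single y]
  · rw [hf1, mul_one]
  · intro x _ hxy
    rw [hf0 x y hy hxy.symm, mul_zero]
  · intro h; exact absurd hy h

theorem curve {κ : Type u} (r : Finset κ) : ∃ h : C(ℝ, r → ℝ), DenseRange h := by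
  obtain ⟨g, hg⟩ := ContinuousMap.exists_extension' Int.isClosedEmbedding_coe_real
    (⟨fun n : ℤ => TopologicalSpace.denseSeq (r → ℝ) n.toNat, continuous_of_discreteTopology⟩ :
      C(ℤ, r → ℝ))
  refine ⟨g, ?_⟩
  refine (TopologicalSpace.denseRange_denseSeq (r → ℝ)).mono ?_
  rintro _ ⟨n, rfl⟩
  refine ⟨((n : ℤ) : ℝ), ?_⟩
  have := congrFun hg (n : ℤ)
  simpa using this

/-- composition with a coordinate of the curve -/
def comp' {X : Type u} [TopologicalSpace X] {κ : Type u} {r : Finset κ} (h : C(ℝ, r → ℝ)) (i : r)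
    (φ : {f : X → ℝ // Continuous f}) : {f : X → ℝ // Continuous f} :=
  ⟨fun x => h (φ.1 x) i, (continuous_apply i).comp (h.continuous.comp φ.2)⟩

theorem comp'_cont {X : Type u} [TopologicalSpace X] {κ : Type u} {r : Finset κ}
    (h : C(ℝ, r → ℝ)) (i : r) : Continuous (comp' (X := X) h i) := by
  apply Continuous.subtype_mk
  apply continuous_pi
  intro x
  exact (continuous_apply i).comp (h.continuous.comp
    ((continuous_apply x).comp continuous_subtype_val))

theorem nonempty_V (X : Type u) [TopologicalSpace X] [T35Space X] {κ : Type u} (r : Finset κ)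
    (h : C(ℝ, r → ℝ)) (hd : DenseRange h) (O : κ → Set {f : X → ℝ // Continuous f})
    (w : κ → {f : X → ℝ // Continuous f}) (hO : ∀ i ∈ r, IsOpen (O i) ∧ w i ∈ O i) :
    ∃ φ : {f : X → ℝ // Continuous f}, ∀ i : r, comp' h i φ ∈ O i := by
  classical
  have key : ∀ i : r, ∃ (A : Finset X) (v : X → Set ℝ),
      (∀ x ∈ A, IsOpen (v x) ∧ (w i).1 x ∈ v x) ∧
      ∀ g : {f : X → ℝ // Continuous f}, (∀ x ∈ A, g.1 x ∈ v x) → g ∈ O i := by
    intro i
    obtain ⟨O', hO', hOO'⟩ := isOpen_induced_iff.mp (hO i.1 i.2).1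
    have hw : (w i).1 ∈ O' := by
      have := (hO i.1 i.2).2
      rw [← hOO'] at this
      exact this
    obtain ⟨A, v, hv, hsub⟩ := isOpen_pi_iff.mp hO' _ hw
    refine ⟨A, v, hv, ?_⟩
    intro g hg
    rw [← hOO']
    exact hsub (fun x hx => hg x hx)
  choose A v hv hg using key
  have ht : ∀ x : X, ∃ t : ℝ, ∀ i : r, x ∈ A i → h t i ∈ v i x := by
    intro x
    have hopen : IsOpen (Set.pi {i : r | x ∈ A i} (fun i => v i x)) :=
      isOpen_set_pi (Set.toFinite _) (fun i hi => (hv i x hi).1)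
    obtain ⟨t, ht⟩ := hd.exists_mem_open hopen ⟨fun i => (w i).1 x, fun i hi => (hv i x hi).2⟩
    exact ⟨t, fun i hi => ht i hi⟩
  choose t ht using ht
  obtain ⟨φ, hφ, hφt⟩ := interp X (Finset.univ.biUnion A) t
  refine ⟨⟨φ, hφ⟩, ?_⟩
  intro i
  apply hg
  intro x hx
  change h (φ x) i ∈ v i x
  rw [hφt x (Finset.mem_biUnion.mpr ⟨i, Finset.mem_univ _, hx⟩)]
  exact ht x i hx

/-- main step -/
theorem main (X : Type u) [TopologicalSpace X] [T35Space X] (ι : Type u) (μ : Cardinal.{u})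
    (hμ : ℵ₀ ≤ μ)
    (hbd : ∀ 𝒰 : Set (Set {f : X → ℝ // Continuous f}), (∀ U ∈ 𝒰, IsOpen U ∧ U.Nonempty) →
      (∀ y : {f : X → ℝ // Continuous f}, {U | U ∈ 𝒰 ∧ y ∈ U}.Finite) → #𝒰 ≤ μ)
    (𝒰 : Set (Set (ι → {f : X → ℝ // Continuous f})))
    (hU : ∀ U ∈ 𝒰, IsOpen U ∧ U.Nonempty)
    (hfin : ∀ y : ι → {f : X → ℝ // Continuous f}, {U | U ∈ 𝒰 ∧ y ∈ U}.Finite) : #𝒰 ≤ μ := by
  classical
  by_contra hcon
  push Not at hcon
  have hreg : (Order.succ μ).IsRegular := isRegular_succ hμ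
  have h0 : ℵ₀ < Order.succ μ := lt_of_le_of_lt hμ (Order.lt_succ μ)
  have hle : Order.succ μ ≤ #𝒰 := Order.succ_le_of_lt hcon
  -- basic open sets
  have key : ∀ U : 𝒰, ∃ (w : ι → {f : X → ℝ // Continuous f}) (s : Finset ι)
      (o : ι → Set {f : X → ℝ // Continuous f}), (∀ i ∈ s, IsOpen (o i) ∧ w i ∈ o i) ∧
        (s : Set ι).pi o ⊆ U.1 := by
    intro U
    obtain ⟨w, hw⟩ := (hU U.1 U.2).2
    obtain ⟨s, o, ho, hsub⟩ := isOpen_pi_iff.mp (hU U.1 U.2).1 w hw
    exact ⟨w, s, o, ho, hsub⟩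
  choose w s o ho hsub using key
  obtain ⟨r, T, hT, hr, hp⟩ := delta' hreg h0 s hle
  obtain ⟨h, hd⟩ := curve r
  let V : 𝒰 → Set {f : X → ℝ // Continuous f} := fun U => {φ | ∀ i : r, comp' h i φ ∈ o U i}
  have hVopen : ∀ U ∈ T, IsOpen (V U) := by
    intro U hUT
    have : V U = ⋂ i : r, (comp' h i) ⁻¹' (o U i) := by
      ext φ; simp [V]
    rw [this]
    exact isOpen_iInter_of_finite (fun i =>
      (ho U i.1 (hr U hUT i.2)).1.preimage (comp'_cont h i))
  have hVne : ∀ U ∈ T, (V U).Nonempty := by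
    intro U hUT
    exact nonempty_V X r h hd (o U) (w U) (fun i hi => ho U i (hr U hUT hi))
  obtain ⟨φ, hφ⟩ : ∃ φ, ¬ {U | U ∈ T ∧ φ ∈ V U}.Finite := by
    by_contra hall
    push Not at hall
    have h1 : #(V '' T) ≤ μ := by
      apply hbd
      · rintro _ ⟨U, hUT, rfl⟩
        exact ⟨hVopen U hUT, hVne U hUT⟩
      · intro y
        refine ((hall y).image V).subset ?_
        rintro _ ⟨⟨U, hUT, rfl⟩, hy⟩
        exact ⟨U, ⟨hUT, hy⟩, rfl⟩
    have h2 : T ⊆ ⋃ A ∈ V '' T, {U | U ∈ T ∧ V U = A} := by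
      intro U hUT
      exact mem_iUnion₂.mpr ⟨V U, ⟨U, hUT, rfl⟩, hUT, rfl⟩
    have h3 : #(⋃ A ∈ V '' T, {U | U ∈ T ∧ V U = A} : Set 𝒰) < Order.succ μ := by
      refine (card_biUnion_lt_iff_forall_of_isRegular hreg (lt_of_le_of_lt h1
        (Order.lt_succ μ))).mpr ?_
      rintro A ⟨U, hUT, rfl⟩
      obtain ⟨y, hy⟩ := hVne U hUT
      refine lt_trans ?_ h0
      refine Set.Finite.lt_aleph0 ((hall y).subset ?_)
      rintro U' ⟨hU'T, hU'⟩
      exact ⟨hU'T, by rw [hU']; exact hy⟩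
    exact absurd hT (not_le.mpr (lt_of_le_of_lt (mk_le_mk_of_subset h2) h3))
  -- the point
  let g : ι → {f : X → ℝ // Continuous f} := fun i =>
    if hi : i ∈ r then comp' h ⟨i, hi⟩ φ
    else if hJ : ∃ U, (U ∈ T ∧ φ ∈ V U) ∧ i ∈ s U then w hJ.choose i
    else ⟨fun _ => 0, continuous_const⟩
  have hg : ∀ U, U ∈ T ∧ φ ∈ V U → g ∈ U.1 := by
    intro U hUJ
    apply hsub U
    intro i hi
    by_cases hir : i ∈ r
    · have : g i = comp' h ⟨i, hir⟩ φ := by simp only [g, dif_pos hir]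
      rw [this]
      exact hUJ.2 ⟨i, hir⟩
    · have hJ : ∃ U, (U ∈ T ∧ φ ∈ V U) ∧ i ∈ s U := ⟨U, hUJ, hi⟩
      have hgi : g i = w hJ.choose i := by simp only [g, dif_neg hir, dif_pos hJ]
      have heq : hJ.choose = U := by
        by_contra hne
        exact hir (hp _ hJ.choose_spec.1.1 U hUJ.1 hne i hJ.choose_spec.2 hi)
      rw [hgi, heq]
      exact (ho U i hi).2
  apply hφ
  have hf := hfin g
  have : {U : 𝒰 | U ∈ T ∧ φ ∈ V U} ⊆ Subtype.val ⁻¹' {U | U ∈ 𝒰 ∧ g ∈ U} := by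
    intro U hUJ
    exact ⟨U.2, hg U hUJ⟩
  exact (hf.preimage Subtype.val_injective.injOn).subset this

theorem fam_nat (X : Type u) [TopologicalSpace X] (x0 : X) :
    ∃ 𝒰 : Set (Set {f : X → ℝ // Continuous f}),
          (∀ U ∈ 𝒰, IsOpen U ∧ U.Nonempty) ∧
          (∀ y : {f : X → ℝ // Continuous f}, {U | U ∈ 𝒰 ∧ y ∈ U}.Finite) ∧ ℵ₀ ≤ #𝒰 := by
  let F : ℕ → Set {f : X → ℝ // Continuous f} := fun n => {φ | (n : ℝ) < φ.1 x0 ∧ φ.1 x0 < n + 1}
  have hne : ∀ n, (F n).Nonempty := by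
    intro n
    refine ⟨⟨fun _ => (n : ℝ) + 1 / 2, continuous_const⟩, ?_, ?_⟩
    · change (n : ℝ) < (n : ℝ) + 1 / 2
      linarith
    · change (n : ℝ) + 1 / 2 < n + 1
      linarith
  have hdisj : ∀ m n φ, φ ∈ F m → φ ∈ F n → m = n := by
    intro m n φ h1 h2
    have h3 : (m : ℝ) < n + 1 := h1.1.trans h2.2
    have h4 : (n : ℝ) < m + 1 := h2.1.trans h1.2
    have h5 : m < n + 1 := by exact_mod_cast h3
    have h6 : n < m + 1 := by exact_mod_cast h4
    omega
  refine ⟨Set.range F, ?_, ?_, ?_⟩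
  · rintro _ ⟨n, rfl⟩
    refine ⟨?_, hne n⟩
    have hc : Continuous (fun φ : {f : X → ℝ // Continuous f} => φ.1 x0) :=
      (continuous_apply x0).comp continuous_subtype_val
    exact (isOpen_lt continuous_const hc).inter (isOpen_lt hc continuous_const)
  · intro y
    apply Set.Subsingleton.finite
    rintro _ ⟨⟨m, rfl⟩, hm⟩ _ ⟨⟨n, rfl⟩, hn⟩
    rw [hdisj m n y hm hn]
  · have hinj : Function.Injective F := by
      intro m n hmn
      obtain ⟨φ, hφ⟩ := hne m
      exact hdisj m n φ hφ (hmn ▸ hφ)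
    have : (Set.range F).Infinite := Set.infinite_range_of_injective hinj
    exact Cardinal.aleph0_le_mk_iff.mpr this.to_subtype

/-- For every Tychonoff space X and every nonempty index set ι, the supremum of sizes of point-finite families of nonempty open sets in C_p(X) (pointwise topology) equals the same supremum for the product C_p(X)^ι. -/
theorem result :
    ∀ (X : Type u) [TopologicalSpace X] [T35Space X] (ι : Type u) [Nonempty ι],
      sSup {c : Cardinal.{u} | ∃ 𝒰 : Set (Set {f : X → ℝ // Continuous f}),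
          (∀ U ∈ 𝒰, IsOpen U ∧ U.Nonempty) ∧
          (∀ y : {f : X → ℝ // Continuous f}, {U | U ∈ 𝒰 ∧ y ∈ U}.Finite) ∧
          c = Cardinal.mk ↥𝒰}
        =
      sSup {c : Cardinal.{u} | ∃ 𝒰 : Set (Set (ι → {f : X → ℝ // Continuous f})),
          (∀ U ∈ 𝒰, IsOpen U ∧ U.Nonempty) ∧
          (∀ y : ι → {f : X → ℝ // Continuous f}, {U | U ∈ 𝒰 ∧ y ∈ U}.Finite) ∧
          c = Cardinal.mk ↥𝒰} := by
  intro X _ _ ι _
  classical
  set A := {c : Cardinal.{u} | ∃ 𝒰 : Set (Set {f : X → ℝ // Continuous f}),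
          (∀ U ∈ 𝒰, IsOpen U ∧ U.Nonempty) ∧
          (∀ y : {f : X → ℝ // Continuous f}, {U | U ∈ 𝒰 ∧ y ∈ U}.Finite) ∧
          c = Cardinal.mk ↥𝒰} with hA
  set B := {c : Cardinal.{u} | ∃ 𝒰 : Set (Set (ι → {f : X → ℝ // Continuous f})),
          (∀ U ∈ 𝒰, IsOpen U ∧ U.Nonempty) ∧
          (∀ y : ι → {f : X → ℝ // Continuous f}, {U | U ∈ 𝒰 ∧ y ∈ U}.Finite) ∧
          c = Cardinal.mk ↥𝒰} with hB
  have hAbd : BddAbove A := by
    refine ⟨#(Set {f : X → ℝ // Continuous f}), ?_⟩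
    rintro c ⟨𝒰, -, -, rfl⟩
    exact mk_set_le _
  have hBbd : BddAbove B := by
    refine ⟨#(Set (ι → {f : X → ℝ // Continuous f})), ?_⟩
    rintro c ⟨𝒰, -, -, rfl⟩
    exact mk_set_le _
  have hAne : A.Nonempty := ⟨_, ∅, by simp, by simp, rfl⟩
  have hBne : B.Nonempty := ⟨_, ∅, by simp, by simp, rfl⟩
  apply le_antisymm
  · apply csSup_le hAne
    rintro c ⟨𝒰, hU, hfin, rfl⟩
    obtain ⟨i0⟩ := (inferInstance : Nonempty ι)
    apply le_csSup hBbd
    have hsurj : Function.Surjective (fun y : ι → {f : X → ℝ // Continuous f} => y i0) := by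
      intro z
      exact ⟨fun _ => z, rfl⟩
    refine ⟨(fun U => (fun y : ι → {f : X → ℝ // Continuous f} => y i0) ⁻¹' U) '' 𝒰, ?_, ?_, ?_⟩
    · rintro _ ⟨U, hUU, rfl⟩
      exact ⟨(hU U hUU).1.preimage (continuous_apply i0), (hU U hUU).2.preimage hsurj⟩
    · intro y
      refine ((hfin (y i0)).image
        (fun U => (fun y : ι → {f : X → ℝ // Continuous f} => y i0) ⁻¹' U)).subset ?_
      rintro _ ⟨⟨U, hUU, rfl⟩, hy⟩
      exact ⟨U, ⟨hUU, hy⟩, rfl⟩
    · exact (mk_image_eq hsurj.preimage_injective).symm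
  · apply csSup_le hBne
    rintro c ⟨𝒰, hU, hfin, rfl⟩
    by_cases hX : Nonempty X
    · obtain ⟨x0⟩ := hX
      obtain ⟨𝒱, h1, h2, h3⟩ := fam_nat X x0
      have hμ : ℵ₀ ≤ sSup A := h3.trans (le_csSup hAbd ⟨𝒱, h1, h2, rfl⟩)
      exact main X ι (sSup A) hμ (fun 𝒲 hW hWf => le_csSup hAbd ⟨𝒲, hW, hWf, rfl⟩) 𝒰 hU hfin
    · rw [not_nonempty_iff] at hX
      have hsub : Subsingleton {f : X → ℝ // Continuous f} := by
        constructor
        intro f g
        apply Subtype.ext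
        funext x
        exact hX.elim x
      have h1 : (1 : Cardinal.{u}) ≤ sSup A := by
        apply le_csSup hAbd
        refine ⟨{Set.univ}, ?_, ?_, ?_⟩
        · rintro U rfl
          exact ⟨isOpen_univ, ⟨⟨fun _ => 0, continuous_const⟩, trivial⟩⟩
        · intro y
          exact (Set.finite_singleton Set.univ).subset (fun U hUU => hUU.1)
        · simp
      refine le_trans ?_ h1
      rw [mk_le_one_iff_set_subsingleton]
      intro U hUU V hVV
      obtain ⟨y, hy⟩ := (hU U hUU).2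
      obtain ⟨z, hz⟩ := (hU V hVV).2
      ext t
      have e1 : t = y := Subsingleton.elim _ _
      have e2 : t = z := Subsingleton.elim _ _
      constructor
      · intro _; rw [e2]; exact hz
      · intro _; rw [e1]; exact hy

end Pool.Agent.S09417
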