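import Pool.Statements.S09774
-- import your own Pool.Agent.* helpers here

set_option autoImplicit false
open Pool Pool.MP_f54e59_gt

namespace Pool.Agent.S09774

noncomputable section
open Cardinal hiding univ
open Topology Set

/-!
Counterexample.  `X_i` = a set of cardinality `ℵ_{i+1}` whose proper closed sets are the sets of
cardinality at most `ℵ_i`; its sobrification is `P_i = X_i ∪ {∞}`.  `Z` is the subspace of `∏ P_i` of the
points with only finitely many coordinates `∞`.  `K` = all T0 spaces `Y` such that for every `i` each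
continuous map `X_i → Y` sends each irreducible closed set to a set with a generic point in its closure.
`K` contains all sober spaces and every `X_i` is `K`-determined by definition; `Z` is in `K`, since a
continuous map `X_j → P_i`, `i ≠ j`, is either constant with value in `X_i` or is `∞` outside a set of
size at most `ℵ_j`.  The inclusion of `∏ X_i` into `Z` has image whose closure has no generic point.
-/

def al (i : ℕ) : Cardinal.{0} := aleph ((i : ℕ) : Ordinal.{0})
def XX (i : ℕ) : Type := (al (i+1)).out
def PP (i : ℕ) : Type := Option (XX i)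

lemma mk_XX (i : ℕ) : #(XX i) = al (i+1) := mk_out _
lemma al_inf (i : ℕ) : ℵ₀ ≤ al i := aleph0_le_aleph _
lemma al_lt {i j : ℕ} (h : i < j) : al i < al j := aleph_lt_aleph.2 (by exact_mod_cast h)
lemma al_le {i j : ℕ} (h : i ≤ j) : al i ≤ al j := aleph_le_aleph.2 (by exact_mod_cast h)

instance (i : ℕ) : TopologicalSpace (PP i) :=
  TopologicalSpace.ofClosed {C : Set (PP i) | C = univ ∨ ((none : Option (XX i)) ∉ C ∧ #C ≤ al i)}
    (Or.inr ⟨fun h => h, by rw [mk_emptyCollection]; exact zero_le⟩)
    (by
      intro A hA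
      by_cases h : ∃ C ∈ A, C ≠ univ
      · obtain ⟨C, hC, hne⟩ := h
        rcases hA hC with h1 | h1
        · exact absurd h1 hne
        · exact Or.inr ⟨fun h2 => h1.1 (h2 C hC),
            (mk_le_mk_of_subset (sInter_subset_of_mem hC)).trans h1.2⟩
      · push Not at h
        left
        exact sInter_eq_univ.2 h)
    (by
      intro A hA B hB
      rcases hA with rfl | hA
      · left; simp
      · rcases hB with rfl | hB
        · left; simp
        · right
          refine ⟨fun h => h.elim hA.1 hB.1, (mk_union_le A B).trans (add_le_of_le (al_inf i) hA.2 hB.2)⟩)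

lemma closedP {i : ℕ} (C : Set (PP i)) :
    IsClosed C ↔ C = univ ∨ ((none : Option (XX i)) ∉ C ∧ #C ≤ al i) := by
  rw [← isOpen_compl_iff]
  show Cᶜᶜ ∈ {C : Set (PP i) | C = univ ∨ ((none : Option (XX i)) ∉ C ∧ #C ≤ al i)} ↔ _
  rw [compl_compl]; rfl

def so {i : ℕ} (x : XX i) : PP i := some x
def no (i : ℕ) : PP i := (none : Option (XX i))
lemma so_inj {i : ℕ} : Function.Injective (so : XX i → PP i) := Option.some_injective _
lemma P_cases {i : ℕ} (p : PP i) : p = no i ∨ ∃ x, p = so x := by
  cases p with
  | none => exact Or.inl rfl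
  | some x => exact Or.inr ⟨x, rfl⟩
lemma so_ne {i : ℕ} (x : XX i) : so x ≠ no i := Option.some_ne_none x

instance (i : ℕ) : TopologicalSpace (XX i) := TopologicalSpace.induced so inferInstance

lemma so_emb (i : ℕ) : IsEmbedding (so : XX i → PP i) := ⟨⟨rfl⟩, so_inj⟩

lemma closedP_so {i : ℕ} (S : Set (XX i)) (h : #S ≤ al i) : IsClosed (so '' S) := by
  rw [closedP]; right
  refine ⟨?_, mk_image_le.trans h⟩
  rintro ⟨x, _, hx⟩; exact so_ne x hx

lemma closedX {i : ℕ} (S : Set (XX i)) (h : #S ≤ al i) : IsClosed S := by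
  have := (closedP_so S h).preimage (so_emb i).continuous
  rwa [preimage_image_eq _ so_inj] at this

lemma closedX' {i : ℕ} (S : Set (XX i)) (h : IsClosed S) : S = univ ∨ #S ≤ al i := by
  obtain ⟨C, hC, rfl⟩ := isClosed_induced_iff.1 h
  rcases (closedP C).1 hC with rfl | h1
  · left; simp
  · right; exact (mk_preimage_of_injective _ _ so_inj).trans h1.2

lemma single_small {i : ℕ} {α : Type} (p : α) : #({p} : Set α) ≤ al i := by
  rw [mk_singleton]; exact one_le_aleph0.trans (al_inf i)

lemma not_small_univ (i : ℕ) : ¬ #(univ : Set (XX i)) ≤ al i := by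
  rw [mk_univ, mk_XX]; exact not_le.2 (al_lt (Nat.lt_succ_self i))

instance (i : ℕ) : T0Space (PP i) := by
  rw [t0Space_iff_inseparable]
  intro x y h
  rcases P_cases x with rfl | ⟨p, rfl⟩
  · rcases P_cases y with rfl | ⟨q, rfl⟩
    · rfl
    · have hc : IsClosed ({so q} : Set (PP i)) := by
        have := closedP_so {q} (single_small q); rwa [image_singleton] at this
      exact (h.mem_closed_iff hc).2 rfl
  · have hc : IsClosed ({so p} : Set (PP i)) := by
      have := closedP_so {p} (single_small p); rwa [image_singleton] at this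
    exact ((h.mem_closed_iff hc).1 rfl).symm

instance (i : ℕ) : T0Space (XX i) := (so_emb i).t0Space

lemma irrX (i : ℕ) : IsIrreducible (univ : Set (XX i)) := by
  constructor
  · by_contra h
    rw [not_nonempty_iff_eq_empty] at h
    apply not_small_univ i
    rw [h]; simp
  · rw [isPreirreducible_iff_isClosed_union_isClosed]
    intro A B hA hB hAB
    rcases closedX' A hA with rfl | h1
    · left; simp
    · rcases closedX' B hB with rfl | h2
      · right; simp
      · exfalso
        apply not_small_univ i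
        exact (mk_le_mk_of_subset hAB).trans ((mk_union_le A B).trans (add_le_of_le (al_inf i) h1 h2))

lemma irrPi : IsIrreducible (univ : Set (∀ i, XX i)) := by
  classical
  refine ⟨?_, ?_⟩
  · have : ∀ i, ∃ x : XX i, x ∈ (univ : Set (XX i)) := fun i => (irrX i).nonempty
    choose x hx using this
    exact ⟨x, trivial⟩
  · rintro u v hu hv ⟨x, -, hx⟩ ⟨y, -, hy⟩
    obtain ⟨I, U, hU, hU2⟩ := isOpen_pi_iff.1 hu x hx
    obtain ⟨J, V, hV, hV2⟩ := isOpen_pi_iff.1 hv y hy
    have : ∀ i, ∃ w : XX i, (i ∈ I → w ∈ U i) ∧ (i ∈ J → w ∈ V i) := by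
      intro i
      by_cases hI : i ∈ I
      · by_cases hJ : i ∈ J
        · obtain ⟨w, -, hw⟩ := (irrX i).isPreirreducible (U i) (V i) (hU i hI).1 (hV i hJ).1
            ⟨x i, trivial, (hU i hI).2⟩ ⟨y i, trivial, (hV i hJ).2⟩
          exact ⟨w, fun _ => hw.1, fun _ => hw.2⟩
        · exact ⟨x i, fun _ => (hU i hI).2, fun h => absurd h hJ⟩
      · by_cases hJ : i ∈ J
        · exact ⟨y i, fun h => absurd h hI, fun _ => (hV i hJ).2⟩
        · exact ⟨x i, fun h => absurd h hI, fun h => absurd h hJ⟩
    choose w hw1 hw2 using this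
    exact ⟨w, trivial, hU2 (fun i hi => hw1 i hi), hV2 (fun i hi => hw2 i hi)⟩

lemma single_closed {i : ℕ} (c : XX i) : IsClosed ({so c} : Set (PP i)) := by
  have := closedP_so {c} (single_small c); rwa [image_singleton] at this

lemma no_spec {i : ℕ} (p : PP i) : no i ⤳ p := by
  rw [specializes_iff_forall_closed]
  intro s hs h
  rcases (closedP s).1 hs with rfl | h1
  · trivial
  · exact absurd h h1.1

lemma dich {i j : ℕ} (hij : i ≠ j) (g : XX j → PP i) (hg : Continuous g) :
    (∃ c, ∀ x, g x = so c) ∨ #({x | g x ≠ no i} : Set (XX j)) ≤ al j := by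
  by_cases hc : ∃ c, ∀ x, g x = so c
  · exact Or.inl hc
  right
  rcases lt_or_gt_of_ne hij with h | h
  · have hf : ∀ c : XX i, #(g ⁻¹' {so c} : Set (XX j)) ≤ al j := by
      intro c
      rcases closedX' _ ((single_closed c).preimage hg) with h1 | h1
      · exfalso; apply hc; refine ⟨c, fun x => ?_⟩
        have : x ∈ g ⁻¹' {so c} := by rw [h1]; trivial
        exact this
      · exact h1
    have hsub : ({x | g x ≠ no i} : Set (XX j)) ⊆ ⋃ c : XX i, g ⁻¹' {so c} := by
      intro x hx
      rcases P_cases (g x) with h2 | ⟨c, h2⟩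
      · exact absurd h2 hx
      · exact mem_iUnion.2 ⟨c, h2⟩
    refine (mk_le_mk_of_subset hsub).trans ((mk_iUnion_le _).trans ?_)
    refine mul_le_of_le (al_inf j) ?_ (ciSup_le' hf)
    rw [mk_XX]; exact al_le h
  · have hR : #(so ⁻¹' (range g) : Set (XX i)) ≤ al i := by
      refine (mk_preimage_of_injective _ _ so_inj).trans (mk_range_le.trans ?_)
      rw [mk_XX]; exact al_le h
    have hS : ∀ S ⊆ (so ⁻¹' (range g) : Set (XX i)), IsClosed (g ⁻¹' (so '' S)) := fun S hS =>
      (closedP_so S ((mk_le_mk_of_subset hS).trans hR)).preimage hg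
    have hG : ({x | g x ≠ no i} : Set (XX j)) = g ⁻¹' (so '' (so ⁻¹' (range g))) := by
      ext x
      constructor
      · intro hx
        rcases P_cases (g x) with h2 | ⟨c, h2⟩
        · exact absurd h2 hx
        · exact ⟨c, ⟨x, h2⟩, h2.symm⟩
      · rintro ⟨c, -, h2⟩ h3
        exact so_ne c (h2.trans h3)
    rcases closedX' _ (hS _ subset_rfl) with h1 | h1
    · exfalso
      obtain ⟨x0, -⟩ := (irrX j).nonempty
      have hx0 : x0 ∈ g ⁻¹' (so '' (so ⁻¹' (range g))) := by rw [h1]; trivial
      obtain ⟨c, hcR, hcx⟩ := hx0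
      have hirr := isPreirreducible_iff_isClosed_union_isClosed.1 (irrX j).isPreirreducible
        (g ⁻¹' (so '' {c})) (g ⁻¹' (so '' ((so ⁻¹' (range g)) \ {c})))
        (hS _ (by rintro _ rfl; exact hcR)) (hS _ sdiff_subset) ?_
      · rcases hirr with h2 | h2
        · apply hc; refine ⟨c, fun x => ?_⟩
          obtain ⟨d, hd, hdx⟩ := h2 (mem_univ x)
          rw [← hdx, hd]
        · obtain ⟨d, hd, hdx⟩ := h2 (mem_univ x0)
          exact hd.2 (so_inj (hdx.trans hcx.symm))
      · intro x _
        have hx : x ∈ g ⁻¹' (so '' (so ⁻¹' (range g))) := by rw [h1]; trivial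
        obtain ⟨d, hd, hdx⟩ := hx
        by_cases hdc : d = c
        · left; exact ⟨d, hdc, hdx⟩
        · right; exact ⟨d, ⟨hd, hdc⟩, hdx⟩
    · rw [hG]; exact h1

lemma hit {i j : ℕ} (g : XX j → PP i) (hg : Continuous g) (hc : ¬ ∃ c, ∀ x, g x = so c)
    (u : Set (PP i)) (hu : IsOpen u) (hno : no i ∈ u) : ∃ x, g x ∈ u := by
  by_contra hcon
  push Not at hcon
  have hC : #(uᶜ : Set (PP i)) ≤ al i := by
    rcases (closedP uᶜ).1 hu.isClosed_compl with h | h
    · exfalso
      have : no i ∈ uᶜ := by rw [h]; trivial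
      exact this hno
    · exact h.2
  obtain ⟨x0, -⟩ := (irrX j).nonempty
  have hx0 := hcon x0
  rcases P_cases (g x0) with h2 | ⟨c, h2⟩
  · rw [h2] at hx0; exact hx0 hno
  have hD : IsClosed (uᶜ \ {so c} : Set (PP i)) := by
    rw [closedP]; right
    exact ⟨fun h => h.1 hno, (mk_le_mk_of_subset sdiff_subset).trans hC⟩
  have hirr := isPreirreducible_iff_isClosed_union_isClosed.1 (irrX j).isPreirreducible
    (g ⁻¹' {so c}) (g ⁻¹' (uᶜ \ {so c})) ((single_closed c).preimage hg) (hD.preimage hg) ?_
  · rcases hirr with h3 | h3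
    · exact hc ⟨c, fun x => h3 (mem_univ x)⟩
    · exact (h3 (mem_univ x0)).2 h2
  · intro x _
    by_cases hx : g x = so c
    · left; exact hx
    · right; exact ⟨hcon x, hx⟩

abbrev Z : Type := {z : ∀ i, PP i // {i | z i = no i}.Finite}

lemma uniq {Y : Type} [TopologicalSpace Y] [T0Space Y] (S : Set Y) (h : ∃ y, closure S = closure {y}) :
    ∃! y, closure S = closure {y} := by
  obtain ⟨y, hy⟩ := h
  refine ⟨y, hy, fun z hz => ?_⟩
  exact ((inseparable_iff_closure_eq).2 (hz.symm.trans hy)).eq

lemma specZ (z w : Z) : z ⤳ w ↔ ∀ i, z.1 i ⤳ w.1 i := by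
  have h1 : z ⤳ w ↔ z.1 ⤳ w.1 := subtype_specializes_iff z w
  rw [h1, specializes_pi]

lemma tameZ (j : ℕ) (A : Set (XX j)) (hA : IsIrreducible A) (hAc : IsClosed A) (f : XX j → Z)
    (hf : Continuous f) : ∃! y, closure (f '' A) = closure {y} := by
  classical
  apply uniq
  rcases closedX' A hAc with rfl | hsm
  · let g : ∀ i, XX j → PP i := fun i x => (f x).1 i
    have hg : ∀ i, Continuous (g i) := fun i => (continuous_apply i).comp (continuous_subtype_val.comp hf)
    let z0 : ∀ i, PP i := fun i => if h : ∃ c, ∀ x, g i x = so c then so h.choose else no i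
    have hz1 : ∀ i, (∃ c, ∀ x, g i x = so c) → ∀ x, g i x = z0 i := by
      intro i h x
      have : z0 i = so h.choose := dif_pos h
      rw [this]; exact h.choose_spec x
    have hz2 : ∀ i, ¬ (∃ c, ∀ x, g i x = so c) → z0 i = no i := fun i h => dif_neg h
    have hfin : {i | z0 i = no i}.Finite := by
      by_contra hinf
      have hinf' : ({i | z0 i = no i} \ {j} : Set ℕ).Infinite := Set.Infinite.sdiff hinf (finite_singleton j)
      have hsmall : ∀ i ∈ ({i | z0 i = no i} \ {j} : Set ℕ), #({x | g i x ≠ no i} : Set (XX j)) ≤ al j := by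
        intro i hi
        rcases dich hi.2 (g i) (hg i) with h | h
        · exfalso
          obtain ⟨x0, -⟩ := (irrX j).nonempty
          have h1 := hz1 i h x0
          obtain ⟨c, hc⟩ := h
          have h2 : z0 i = no i := hi.1
          exact so_ne c ((hc x0).symm.trans (h1.trans h2))
        · exact h
      let T : ℕ → Set (XX j) := fun i => if i ∈ ({i | z0 i = no i} \ {j} : Set ℕ) then {x | g i x ≠ no i} else ∅
      have hT : ∀ i, #(T i) ≤ al j := by
        intro i
        by_cases hi : i ∈ ({i | z0 i = no i} \ {j} : Set ℕ)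
        · have : T i = {x | g i x ≠ no i} := if_pos hi
          rw [this]; exact hsmall i hi
        · have : T i = ∅ := if_neg hi
          rw [this, mk_emptyCollection]; exact zero_le
      have hU : #(⋃ i, T i : Set (XX j)) ≤ al j := by
        refine (mk_iUnion_le _).trans (mul_le_of_le (al_inf j) ?_ (ciSup_le' hT))
        rw [mk_nat]; exact al_inf j
      have hne : (⋃ i, T i) ≠ univ := by
        intro h; rw [h] at hU; exact not_small_univ j hU
      obtain ⟨x, hx⟩ := (ne_univ_iff_exists_notMem _).1 hne
      apply hinf'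
      apply (f x).2.subset
      intro i hi
      by_contra hcon
      apply hx
      refine mem_iUnion.2 ⟨i, ?_⟩
      have : T i = {x | g i x ≠ no i} := if_pos hi
      rw [this]; exact hcon
    refine ⟨⟨z0, hfin⟩, ?_⟩
    apply Subset.antisymm
    · apply closure_minimal _ isClosed_closure
      rintro _ ⟨x, -, rfl⟩
      rw [← specializes_iff_mem_closure, specZ]
      intro i
      by_cases h : ∃ c, ∀ x, g i x = so c
      · have := hz1 i h x
        exact specializes_of_eq this.symm
      · show z0 i ⤳ _
        rw [hz2 i h]; exact no_spec _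
    · apply closure_minimal _ isClosed_closure
      rw [singleton_subset_iff, mem_closure_iff]
      intro o ho hzo
      obtain ⟨O, hO, rfl⟩ := isOpen_induced_iff.1 ho
      obtain ⟨I, u, hu1, hu2⟩ := isOpen_pi_iff.1 hO z0 hzo
      obtain ⟨x, -, hx⟩ := (isIrreducible_iff_sInter.1 (irrX j)) (I.image (fun i => (g i) ⁻¹' (u i)))
        (by
          intro v hv
          obtain ⟨i, hi, rfl⟩ := Finset.mem_image.1 hv
          exact (hu1 i hi).1.preimage (hg i))
        (by
          intro v hv
          obtain ⟨i, hi, rfl⟩ := Finset.mem_image.1 hv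
          by_cases h : ∃ c, ∀ x, g i x = so c
          · obtain ⟨x0, -⟩ := (irrX j).nonempty
            refine ⟨x0, trivial, ?_⟩
            show g i x0 ∈ u i
            rw [hz1 i h x0]; exact (hu1 i hi).2
          · obtain ⟨x, hx⟩ := hit (g i) (hg i) h (u i) (hu1 i hi).1 (by rw [← hz2 i h]; exact (hu1 i hi).2)
            exact ⟨x, trivial, hx⟩)
      refine ⟨f x, hu2 ?_, ⟨x, trivial, rfl⟩⟩
      intro i hi
      have := mem_sInter.1 hx ((g i) ⁻¹' (u i)) (by exact Finset.mem_coe.2 (Finset.mem_image_of_mem _ hi))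
      exact this
  · obtain ⟨p, hp⟩ := hA.nonempty
    have hirr := isPreirreducible_iff_isClosed_union_isClosed.1 hA.isPreirreducible
      {p} (A \ {p}) (closedX _ (single_small p)) (closedX _ ((mk_le_mk_of_subset sdiff_subset).trans hsm)) ?_
    · rcases hirr with h | h
      · have : A = {p} := Subset.antisymm h (singleton_subset_iff.2 hp)
        refine ⟨f p, ?_⟩
        rw [this, image_singleton]
      · exact absurd rfl (h hp).2
    · intro x hx
      by_cases hxp : x = p
      · left; exact hxp
      · right; exact ⟨hx, hxp⟩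

/-- The negation of the preceding statement: For every class K of T0 spaces containing all sober spaces, any product of T0 spaces whose irreducible closed sets are K-determined (images have closure of a unique point in every K-space) again has all irreducible closed sets K-determined. -/
theorem result :
    ¬ (∀ K : (∀ (Y : Type) [TopologicalSpace Y], Prop),
      (∀ (Y : Type) [TopologicalSpace Y], K Y → T0Space Y) →
      (∀ (Y : Type) [TopologicalSpace Y], T0Space Y → QuasiSober Y → K Y) →
      ∀ (I : Type) (X : I → Type) [∀ i, TopologicalSpace (X i)],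
        (∀ i, T0Space (X i) ∧ ∀ A : Set (X i), IsIrreducible A → IsClosed A →
          ∀ (Y : Type) [TopologicalSpace Y], K Y → ∀ f : X i → Y, Continuous f →
            ∃! y : Y, closure (f '' A) = closure {y}) →
        ∀ A : Set (∀ i, X i), IsIrreducible A → IsClosed A →
          ∀ (Y : Type) [TopologicalSpace Y], K Y → ∀ f : (∀ i, X i) → Y, Continuous f →
            ∃! y : Y, closure (f '' A) = closure {y}) := by
  classical
  intro H
  let K : (∀ (Y : Type) [TopologicalSpace Y], Prop) := fun Y _ => T0Space Y ∧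
    ∀ (j : ℕ) (A : Set (XX j)), IsIrreducible A → IsClosed A → ∀ f : XX j → Y, Continuous f →
      ∃! y : Y, closure (f '' A) = closure {y}
  have h1 : ∀ (Y : Type) [TopologicalSpace Y], K Y → T0Space Y := fun Y _ h => h.1
  have h2 : ∀ (Y : Type) [TopologicalSpace Y], T0Space Y → QuasiSober Y → K Y := by
    intro Y _ hT hQ
    refine ⟨hT, fun j A hA _ f hf => ?_⟩
    apply uniq
    obtain ⟨y, hy⟩ := QuasiSober.sober (hA.image f hf.continuousOn).closure isClosed_closure
    exact ⟨y, hy.symm⟩
  have hfin : ∀ x : (∀ i, XX i), {i | (so (x i) : PP i) = no i}.Finite := by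
    intro x
    have : {i | (so (x i) : PP i) = no i} = ∅ :=
      eq_empty_iff_forall_notMem.2 fun i hi => so_ne _ hi
    rw [this]; exact finite_empty
  have h3 := H K h1 h2 ℕ XX (fun i => ⟨inferInstance, fun A hA hAc Y _ hK f hf => hK.2 i A hA hAc f hf⟩)
    univ irrPi isClosed_univ Z ⟨inferInstance, tameZ⟩
    (fun x => ⟨fun i => so (x i), hfin x⟩)
    (Continuous.subtype_mk (continuous_pi fun i => (so_emb i).continuous.comp (continuous_apply i)) hfin)
  obtain ⟨z, hz, -⟩ := h3
  obtain ⟨i, hi⟩ := z.2.exists_notMem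
  rcases P_cases (z.1 i) with h4 | ⟨c, h4⟩
  · exact hi h4
  have hnt : ∃ d : XX i, d ≠ c := by
    by_contra hcon
    push Not at hcon
    apply not_small_univ i
    have : (univ : Set (XX i)) = {c} := by ext x; simp [hcon x]
    rw [this]; exact single_small c
  obtain ⟨d, hd⟩ := hnt
  obtain ⟨x0, -⟩ := irrPi.nonempty
  have h5 := hz.subset (subset_closure (mem_image_of_mem _ (mem_univ (Function.update x0 i d))))
  rw [← specializes_iff_mem_closure, specZ] at h5
  have h6 := h5 i
  rw [h4] at h6
  have h7 := (specializes_iff_forall_closed.1 h6) {so c} (single_closed c) rfl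
  have h8 : so (Function.update x0 i d i) = so c := h7
  rw [Function.update_self] at h8
  exact hd (so_inj h8)

end

end Pool.Agent.S09774
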