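import Pool.Statements.S10082
import Pool.Agent.H2.CFGen
import Pool.Agent.H2.CFPer

set_option autoImplicit false
open Pool Pool.MP_51f845_lc

namespace Pool.Agent.S10082

open Pool.Agent.H2.CFWords Pool.Agent.H2.CFGen Br

inductive NTs : Type
  | S | M | K | K2 | Kb | K2b | E | P | Q
deriving DecidableEq

abbrev t (a : Br) : Symbol Br NTs := Symbol.terminal a
abbrev nt (a : NTs) : Symbol Br NTs := Symbol.nonterminal a

open NTs

def ruleList : List (ContextFreeRule Br NTs) :=
  [⟨S, [t o, nt M, t c]⟩, ⟨S, [t m, nt E, t m]⟩, ⟨S, [t o, nt K, t o]⟩, ⟨S, [t o, nt K, nt P]⟩,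
   ⟨S, [t o, nt K2]⟩, ⟨S, [t c, nt Kb, t c]⟩, ⟨S, [nt P, nt Kb, t c]⟩, ⟨S, [nt K2b, t c]⟩,
   ⟨M, [t c, nt E, t o]⟩, ⟨M, [nt P, nt M, nt P]⟩, ⟨M, [t m, nt M]⟩, ⟨M, [nt M, t m]⟩,
   ⟨K, [t o]⟩, ⟨K, [nt P, nt K, nt P]⟩,
   ⟨K2, [t m, nt E, t o]⟩, ⟨K2, [nt P, nt K2, nt P]⟩,
   ⟨Kb, [t c]⟩, ⟨Kb, [nt P, nt Kb, nt P]⟩,
   ⟨K2b, [t c, nt E, t m]⟩, ⟨K2b, [nt P, nt K2b, nt P]⟩,
   ⟨E, []⟩, ⟨E, [nt P, nt E]⟩,
   ⟨P, [t o, nt Q, t c]⟩,
   ⟨Q, []⟩, ⟨Q, [nt P, nt Q]⟩, ⟨Q, [t m, nt Q]⟩]

def gr : ContextFreeGrammar Br where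
  NT := NTs
  initial := S
  rules := ruleList.toFinset

lemma mem_rules (r : ContextFreeRule Br NTs) : r ∈ ruleList.toFinset ↔ r ∈ ruleList :=
  List.mem_toFinset

def I : NTs → List Br → Prop
  | S, u => Pat u
  | M, u => ∃ n x e y, Items n x ∧ Items n y ∧ AllP e ∧ u = x ++ c :: (List.flatten e ++ o :: y)
  | K, u => ∃ l l', AllP l ∧ AllP l' ∧ l.length = l'.length ∧ u = l.flatten ++ o :: l'.flatten
  | K2, u => ∃ l e l', AllP l ∧ AllP e ∧ AllP l' ∧ l.length = l'.length ∧
      u = l.flatten ++ m :: (e.flatten ++ o :: l'.flatten)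
  | Kb, u => ∃ l l', AllP l ∧ AllP l' ∧ l.length = l'.length ∧ u = l.flatten ++ c :: l'.flatten
  | K2b, u => ∃ l e l', AllP l ∧ AllP e ∧ AllP l' ∧ l.length = l'.length ∧
      u = l.flatten ++ c :: (e.flatten ++ m :: l'.flatten)
  | E, u => ∃ e, AllP e ∧ u = e.flatten
  | P, u => Prm u
  | Q, u => BalQ u

lemma real_nil_iff (J : NTs → List Br → Prop) (w : List Br) : Real J [] w ↔ w = [] := by
  constructor
  · intro h; cases h; rfl
  · rintro rfl; exact Real.nil

lemma real_term_iff (J : NTs → List Br → Prop) (a : Br) (s : List (Symbol Br NTs)) (w : List Br) :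
    Real J (Symbol.terminal a :: s) w ↔ ∃ w', w = a :: w' ∧ Real J s w' := by
  constructor
  · intro h
    cases h with
    | term _ h => exact ⟨_, rfl, h⟩
  · rintro ⟨w', rfl, h⟩; exact Real.term a h

lemma real_nt_iff (J : NTs → List Br → Prop) (n : NTs) (s : List (Symbol Br NTs)) (w : List Br) :
    Real J (Symbol.nonterminal n :: s) w ↔ ∃ u w', w = u ++ w' ∧ J n u ∧ Real J s w' := by
  constructor
  · intro h
    cases h with
    | nonterm _ hu h => exact ⟨_, _, rfl, hu, h⟩
  · rintro ⟨u, w', rfl, hu, h⟩; exact Real.nonterm n hu h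

lemma allP_single {p : List Br} (hp : Prm p) : AllP [p] := AllP.cons hp AllP.nil

lemma sound_rules' : ∀ r : ContextFreeRule Br NTs, r ∈ ruleList →
    ∀ w, Real I r.output w → I r.input w := by
  intro r hr' w hw
  simp only [ruleList, List.mem_cons, List.not_mem_nil, or_false] at hr'
  rcases hr' with rfl | rfl | rfl | rfl | rfl | rfl | rfl | rfl | rfl | rfl | rfl | rfl | rfl |
    rfl | rfl | rfl | rfl | rfl | rfl | rfl | rfl | rfl | rfl | rfl | rfl | rfl
  all_goals simp only [t, nt, real_nil_iff, real_term_iff, real_nt_iff] at hw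
  · obtain ⟨w1, rfl, u, w2, rfl, ⟨n, x, e, y, hx, hy, he, rfl⟩, w3, rfl, rfl⟩ := hw
    exact Or.inl (Or.inl ⟨n, x, e, y, hx, hy, he, by simp⟩)
  · obtain ⟨w1, rfl, u, w2, rfl, ⟨e, he, rfl⟩, w3, rfl, rfl⟩ := hw
    exact Or.inl (Or.inr (Or.inl ⟨e, he, by simp⟩))
  · obtain ⟨w1, rfl, u, w2, rfl, ⟨l, l', hl, hl', hlen, rfl⟩, w3, rfl, rfl⟩ := hw
    exact Or.inl (Or.inr (Or.inr (Or.inl ⟨l, l', hl, hl', hlen, by simp⟩)))
  · obtain ⟨w1, rfl, u, w2, rfl, ⟨l, l', hl, hl', hlen, rfl⟩, p, w3, rfl, hp, rfl⟩ := hw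
    exact Or.inl (Or.inr (Or.inr (Or.inr (Or.inl ⟨l, l' ++ [p], hl, hl'.append (allP_single hp),
      by simp [hlen], by simp⟩))))
  · obtain ⟨w1, rfl, u, w2, rfl, ⟨l, e, l', hl, he, hl', hlen, rfl⟩, rfl⟩ := hw
    exact Or.inl (Or.inr (Or.inr (Or.inr (Or.inr ⟨l, e, l', hl, he, hl', hlen, by simp⟩))))
  · obtain ⟨w1, rfl, u, w2, rfl, ⟨l, l', hl, hl', hlen, rfl⟩, w3, rfl, rfl⟩ := hw
    refine Or.inr (Or.inr (Or.inr (Or.inl ⟨_, _, hl'.sg, hl.sg, by simp [hlen], ?_⟩)))
    rw [← sg_flatten, ← sg_flatten]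
    simp [swp]
  · obtain ⟨p, w1, rfl, hp, u, w2, rfl, ⟨l, l', hl, hl', hlen, rfl⟩, w3, rfl, rfl⟩ := hw
    refine Or.inr (Or.inr (Or.inr (Or.inr (Or.inl ⟨_, _, hl'.sg,
      hl.sg.append (allP_single hp.sg), by simp [hlen], ?_⟩))))
    rw [List.flatten_append, ← sg_flatten, ← sg_flatten]
    simp [swp]
  · obtain ⟨u, w2, rfl, ⟨l, e, l', hl, he, hl', hlen, rfl⟩, w3, rfl, rfl⟩ := hw
    refine Or.inr (Or.inr (Or.inr (Or.inr (Or.inr ⟨_, _, _, hl'.sg, he.sg, hl.sg,
      by simp [hlen], ?_⟩))))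
    rw [← sg_flatten, ← sg_flatten, ← sg_flatten]
    simp [swp]
  · obtain ⟨w1, rfl, u, w2, rfl, ⟨e, he, rfl⟩, w3, rfl, rfl⟩ := hw
    exact ⟨0, [], e, [], Items.nil, Items.nil, he, by simp⟩
  · obtain ⟨p, w1, rfl, hp, u, w2, rfl, ⟨n, x, e, y, hx, hy, he, rfl⟩, p', w3, rfl, hp', rfl⟩ := hw
    refine ⟨n + 1, p ++ x, e, y ++ p', Items.prm hp hx, ?_, he, by simp⟩
    have := hy.append (Items.prm hp' Items.nil)
    simpa using this
  · obtain ⟨w1, rfl, u, w2, rfl, ⟨n, x, e, y, hx, hy, he, rfl⟩, rfl⟩ := hw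
    exact ⟨n, m :: x, e, y, Items.mid hx, hy, he, by simp⟩
  · obtain ⟨u, w2, rfl, ⟨n, x, e, y, hx, hy, he, rfl⟩, w3, rfl, rfl⟩ := hw
    refine ⟨n, x, e, y ++ [m], hx, ?_, he, by simp⟩
    have := hy.append (Items.mid Items.nil)
    simpa using this
  · obtain ⟨w1, rfl, rfl⟩ := hw
    exact ⟨[], [], AllP.nil, AllP.nil, rfl, by simp⟩
  · obtain ⟨p, w1, rfl, hp, u, w2, rfl, ⟨l, l', hl, hl', hlen, rfl⟩, p', w3, rfl, hp', rfl⟩ := hw
    exact ⟨p :: l, l' ++ [p'], AllP.cons hp hl, hl'.append (allP_single hp'), by simp [hlen],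
      by simp⟩
  · obtain ⟨w1, rfl, u, w2, rfl, ⟨e, he, rfl⟩, w3, rfl, rfl⟩ := hw
    exact ⟨[], e, [], AllP.nil, he, AllP.nil, rfl, by simp⟩
  · obtain ⟨p, w1, rfl, hp, u, w2, rfl, ⟨l, e, l', hl, he, hl', hlen, rfl⟩, p', w3, rfl, hp', rfl⟩
      := hw
    exact ⟨p :: l, e, l' ++ [p'], AllP.cons hp hl, he, hl'.append (allP_single hp'),
      by simp [hlen], by simp⟩
  · obtain ⟨w1, rfl, rfl⟩ := hw
    exact ⟨[], [], AllP.nil, AllP.nil, rfl, by simp⟩
  · obtain ⟨p, w1, rfl, hp, u, w2, rfl, ⟨l, l', hl, hl', hlen, rfl⟩, p', w3, rfl, hp', rfl⟩ := hw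
    exact ⟨p :: l, l' ++ [p'], AllP.cons hp hl, hl'.append (allP_single hp'), by simp [hlen],
      by simp⟩
  · obtain ⟨w1, rfl, u, w2, rfl, ⟨e, he, rfl⟩, w3, rfl, rfl⟩ := hw
    exact ⟨[], e, [], AllP.nil, he, AllP.nil, rfl, by simp⟩
  · obtain ⟨p, w1, rfl, hp, u, w2, rfl, ⟨l, e, l', hl, he, hl', hlen, rfl⟩, p', w3, rfl, hp', rfl⟩
      := hw
    exact ⟨p :: l, e, l' ++ [p'], AllP.cons hp hl, he, hl'.append (allP_single hp'),
      by simp [hlen], by simp⟩
  · subst hw
    exact ⟨[], AllP.nil, rfl⟩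
  · obtain ⟨p, w1, rfl, hp, u, w2, rfl, ⟨e, he, rfl⟩, rfl⟩ := hw
    exact ⟨p :: e, AllP.cons hp he, by simp⟩
  · obtain ⟨w1, rfl, u, w2, rfl, hu, w3, rfl, rfl⟩ := hw
    exact ⟨u, hu, rfl⟩
  · subst hw
    exact BalQ.nil
  · obtain ⟨p, w1, rfl, hp, u, w2, rfl, hu, rfl⟩ := hw
    have : BalQ (p ++ u) := (BalQ.prm hp).append hu
    simpa [I] using this
  · obtain ⟨w1, rfl, u, w2, rfl, hu, rfl⟩ := hw
    have : BalQ ([m] ++ u) := BalQ.mid.append hu
    simpa [I] using this

lemma sound_rules : ∀ r ∈ gr.rules, ∀ w, Real (N := gr.NT) I r.output w → I r.input w :=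
  fun r hr w hw => sound_rules' r ((mem_rules r).1 hr) w hw

/-- derivability -/
def D (n : NTs) (u : List Br) : Prop :=
  gr.Derives [Symbol.nonterminal n] (u.map Symbol.terminal)

lemma D_of {r : ContextFreeRule Br NTs} (hr : r ∈ ruleList) {w : List Br}
    (h : Real D r.output w) : D r.input w :=
  complete gr r ((mem_rules r).2 hr) h

lemma D_Q : ∀ (n : ℕ) (q : List Br), q.length = n → BalQ q → D Q q := by
  intro n
  induction n using Nat.strong_induction_on with
  | _ n ih =>
    intro q hn hq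
    obtain ⟨k, hk⟩ := BalQ.items _ q rfl hq
    have key : ∀ (k : ℕ) (z : List Br), Items k z → z.length ≤ n → D Q z := by
      intro k z hz
      induction hz with
      | nil =>
        intro _
        exact D_of (r := ⟨Q, []⟩) (by simp [ruleList]) Real.nil
      | @mid n' x hx ihx =>
        intro hlen
        have h1 := ihx (by simp at hlen; omega)
        have := D_of (r := ⟨Q, [t m, nt Q]⟩) (by simp [ruleList])
          (Real.term m (Real.nonterm Q h1 Real.nil))
        simpa using this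
      | @prm n' p x hp hx ihx =>
        intro hlen
        obtain ⟨q', hq', rfl⟩ := hp
        simp at hlen
        have h1 := ihx (by omega)
        have h2 := ih q'.length (by omega) q' rfl hq'
        have h3 : D P (o :: (q' ++ [c])) :=
          D_of (r := ⟨P, [t o, nt Q, t c]⟩) (by simp [ruleList])
            (Real.term o (Real.nonterm Q h2 (Real.term c Real.nil)))
        have := D_of (r := ⟨Q, [nt P, nt Q]⟩) (by simp [ruleList])
          (Real.nonterm P h3 (Real.nonterm Q h1 Real.nil))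
        simpa using this
    exact key k q hk hn.le

lemma D_P {p : List Br} (hp : Prm p) : D P p := by
  obtain ⟨q, hq, rfl⟩ := hp
  exact D_of (r := ⟨P, [t o, nt Q, t c]⟩) (by simp [ruleList])
    (Real.term o (Real.nonterm Q (D_Q _ q rfl hq) (Real.term c Real.nil)))

lemma D_E {e : List (List Br)} (he : AllP e) : D E e.flatten := by
  induction e with
  | nil => exact D_of (r := ⟨E, []⟩) (by simp [ruleList]) Real.nil
  | cons p e ih =>
    have := D_of (r := ⟨E, [nt P, nt E]⟩) (by simp [ruleList])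
      (Real.nonterm P (D_P he.head) (Real.nonterm E (ih he.tail) Real.nil))
    simpa using this

lemma D_sand (N : NTs) (hN : (⟨N, [nt P, nt N, nt P]⟩ : ContextFreeRule Br NTs) ∈ ruleList)
    (z : List Br) (hz : D N z) : ∀ (l l' : List (List Br)), AllP l → AllP l' →
    l.length = l'.length → D N (l.flatten ++ (z ++ l'.flatten)) := by
  intro l
  induction l with
  | nil =>
    intro l' _ _ hlen
    have : l' = [] := List.length_eq_zero_iff.1 hlen.symm
    subst this
    simpa using hz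
  | cons p l ih =>
    intro l' hl hl' hlen
    rcases List.eq_nil_or_concat l' with rfl | ⟨l'', p', rfl⟩
    · simp at hlen
    · have h1 : AllP l'' := fun q hq => hl' q (by simp [hq])
      have h2 : Prm p' := hl' p' (by simp)
      have h3 := ih l'' hl.tail h1 (by simpa using hlen)
      have := D_of (r := ⟨N, [nt P, nt N, nt P]⟩) hN
        (Real.nonterm P (D_P hl.head) (Real.nonterm N h3 (Real.nonterm P (D_P h2) Real.nil)))
      simpa using this

lemma D_M : ∀ (k n : ℕ) (x y : List Br) (e : List (List Br)), x.length + y.length = k →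
    Items n x → Items n y → AllP e → D M (x ++ c :: (e.flatten ++ o :: y)) := by
  intro k
  induction k using Nat.strong_induction_on with
  | _ k ih =>
    intro n x y e hk hx hy he
    have hy2 := hy.sg
    generalize hz : sg y = z at hy2
    have hyz : y = sg z := by rw [← hz, sg_sg]
    cases hx with
    | @mid _ x' hx' =>
      have h1 := ih (x'.length + y.length) (by simp at hk; omega) n x' y e rfl hx' hy he
      have := D_of (r := ⟨M, [t m, nt M]⟩) (by simp [ruleList])
        (Real.term m (Real.nonterm M h1 Real.nil))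
      simpa using this
    | nil =>
      generalize h0 : (0 : ℕ) = n0 at hy2
      cases hy2 with
      | nil =>
        subst hyz
        have := D_of (r := ⟨M, [t c, nt E, t o]⟩) (by simp [ruleList])
          (Real.term c (Real.nonterm E (D_E he) (Real.term o Real.nil)))
        simpa using this
      | @mid _ z' hz' =>
        subst h0
        rw [sg_cons] at hyz
        subst hyz
        have h1 := ih (([] : List Br).length + (sg z').length) (by simp at hk; simp; omega) 0 []
          (sg z') e rfl Items.nil hz'.sg he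
        have := D_of (r := ⟨M, [nt M, t m]⟩) (by simp [ruleList])
          (Real.nonterm M h1 (Real.term m Real.nil))
        simpa [swp] using this
      | prm hp hz' => simp at h0
    | @prm n' p x' hp hx' =>
      generalize h0 : n' + 1 = n0 at hy2
      cases hy2 with
      | nil => simp at h0
      | @mid _ z' hz' =>
        subst h0
        rw [sg_cons] at hyz
        subst hyz
        have h1 := ih ((p ++ x').length + (sg z').length) (by simp at hk; simp; omega) (n' + 1)
          (p ++ x') (sg z') e rfl (Items.prm hp hx') hz'.sg he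
        have := D_of (r := ⟨M, [nt M, t m]⟩) (by simp [ruleList])
          (Real.nonterm M h1 (Real.term m Real.nil))
        simpa [swp] using this
      | @prm n'' p' z' hp' hz' =>
        have hnn : n' = n'' := by omega
        subst hnn
        rw [sg_append] at hyz
        subst hyz
        have hlen : 0 < p.length := List.length_pos_iff.2 (prm_ne hp)
        have h1 := ih (x'.length + (sg z').length) (by simp at hk; omega) n' x'
          (sg z') e rfl hx' hz'.sg he
        have := D_of (r := ⟨M, [nt P, nt M, nt P]⟩) (by simp [ruleList])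
          (Real.nonterm P (D_P hp) (Real.nonterm M h1 (Real.nonterm P (D_P hp'.sg) Real.nil)))
        simpa using this

lemma D_S1 {u : List Br} (hu : Pat1 u) : D S u := by
  obtain ⟨n, x, e, y, hx, hy, he, rfl⟩ := hu
  have := D_of (r := ⟨S, [t o, nt M, t c]⟩) (by simp [ruleList])
    (Real.term o (Real.nonterm M (D_M _ n x y e rfl hx hy he) (Real.term c Real.nil)))
  simpa using this

lemma D_S2 {u : List Br} (hu : Pat2 u) : D S u := by
  obtain ⟨e, he, rfl⟩ := hu
  exact D_of (r := ⟨S, [t m, nt E, t m]⟩) (by simp [ruleList])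
    (Real.term m (Real.nonterm E (D_E he) (Real.term m Real.nil)))

lemma pat1_sg {u : List Br} (hu : Pat1 (sg u)) : Pat1 u := by
  obtain ⟨n, x, e, y, hx, hy, he, h1⟩ := hu
  refine ⟨n, _, _, _, hy.sg, hx.sg, he.sg, ?_⟩
  rw [← sg_flatten, ← sg_sg u, h1]
  simp [swp]

lemma pat2_sg {u : List Br} (hu : Pat2 (sg u)) : Pat2 u := by
  obtain ⟨e, he, h1⟩ := hu
  refine ⟨_, he.sg, ?_⟩
  rw [← sg_flatten, ← sg_sg u, h1]
  simp [swp]

lemma D_S {u : List Br} (hu : Pat u) : D S u := by
  have hK : D K [o] := D_of (r := ⟨K, [t o]⟩) (by simp [ruleList]) (Real.term o Real.nil)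
  have hKb : D Kb [c] := D_of (r := ⟨Kb, [t c]⟩) (by simp [ruleList]) (Real.term c Real.nil)
  have hK2 : ∀ e, AllP e → D K2 (m :: (List.flatten e ++ [o])) := fun e he =>
    D_of (r := ⟨K2, [t m, nt E, t o]⟩) (by simp [ruleList])
      (Real.term m (Real.nonterm E (D_E he) (Real.term o Real.nil)))
  have hK2b : ∀ e, AllP e → D K2b (c :: (List.flatten e ++ [m])) := fun e he =>
    D_of (r := ⟨K2b, [t c, nt E, t m]⟩) (by simp [ruleList])
      (Real.term c (Real.nonterm E (D_E he) (Real.term m Real.nil)))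
  rcases hu with hu | hu
  · rcases hu with hu | hu | ⟨l, l', hl, hl', hlen, rfl⟩ | ⟨l, l', hl, hl', hlen, rfl⟩ |
      ⟨l, e, l', hl, he, hl', hlen, rfl⟩
    · exact D_S1 hu
    · exact D_S2 hu
    · have h1 := D_sand K (by simp [ruleList]) [o] hK l l' hl hl' hlen
      have := D_of (r := ⟨S, [t o, nt K, t o]⟩) (by simp [ruleList])
        (Real.term o (Real.nonterm K h1 (Real.term o Real.nil)))
      simpa using this
    · rcases List.eq_nil_or_concat l' with rfl | ⟨l'', p, rfl⟩
      · simp at hlen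
      · have h1 := D_sand K (by simp [ruleList]) [o] hK l l'' hl
          (fun q hq => hl' q (by simp [hq])) (by simp at hlen; omega)
        have := D_of (r := ⟨S, [t o, nt K, nt P]⟩) (by simp [ruleList])
          (Real.term o (Real.nonterm K h1 (Real.nonterm P (D_P (hl' p (by simp))) Real.nil)))
        simpa using this
    · have h1 := D_sand K2 (by simp [ruleList]) _ (hK2 e he) l l' hl hl' hlen
      have := D_of (r := ⟨S, [t o, nt K2]⟩) (by simp [ruleList])
        (Real.term o (Real.nonterm K2 h1 Real.nil))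
      simpa using this
  · rw [← sg_sg u]
    rcases hu with hu | hu | ⟨l, l', hl, hl', hlen, he1⟩ | ⟨l, l', hl, hl', hlen, he1⟩ |
      ⟨l, e, l', hl, he, hl', hlen, he1⟩
    · rw [sg_sg]; exact D_S1 (pat1_sg hu)
    · rw [sg_sg]; exact D_S2 (pat2_sg hu)
    · rw [he1]
      have h1 := D_sand Kb (by simp [ruleList]) [c] hKb _ _ hl'.sg hl.sg (by simp [hlen])
      have := D_of (r := ⟨S, [t c, nt Kb, t c]⟩) (by simp [ruleList])
        (Real.term c (Real.nonterm Kb h1 (Real.term c Real.nil)))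
      rw [← sg_flatten, ← sg_flatten] at this
      simpa [swp] using this
    · rw [he1]
      rcases List.eq_nil_or_concat l' with rfl | ⟨l'', p, rfl⟩
      · simp at hlen
      · have hl'' : AllP l'' := fun q hq => hl' q (by simp [hq])
        have h1 := D_sand Kb (by simp [ruleList]) [c] hKb _ _ hl''.sg hl.sg
          (by simp at hlen; simp; omega)
        have := D_of (r := ⟨S, [nt P, nt Kb, t c]⟩) (by simp [ruleList])
          (Real.nonterm P (D_P (hl' p (by simp)).sg) (Real.nonterm Kb h1 (Real.term c Real.nil)))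
        rw [← sg_flatten, ← sg_flatten] at this
        simpa [swp] using this
    · rw [he1]
      have h1 := D_sand K2b (by simp [ruleList]) _ (hK2b _ he.sg) _ _ hl'.sg hl.sg (by simp [hlen])
      have := D_of (r := ⟨S, [nt K2b, t c]⟩) (by simp [ruleList])
        (Real.nonterm K2b h1 (Real.term c Real.nil))
      rw [← sg_flatten, ← sg_flatten, ← sg_flatten] at this
      simpa [swp] using this

lemma lang_iff (u : List Br) : u ∈ gr.language ↔ Pat u := by
  constructor
  · intro h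
    have h1 := sound gr I sound_rules h
    have h2 := (real_nt_iff I S [] u).1 h1
    obtain ⟨u', w', rfl, h3, h4⟩ := h2
    rw [real_nil_iff] at h4
    subst h4
    rw [List.append_nil]
    exact h3
  · intro h
    exact D_S h

lemma pat_ne {u : List Br} (hu : Pat u) : u ≠ [] := by
  rintro rfl
  rcases hu with hu | hu
  · rcases hu with ⟨_, _, _, _, _, _, _, h⟩ | ⟨_, _, h⟩ | ⟨_, _, _, _, _, h⟩ |
      ⟨_, _, _, _, _, h⟩ | ⟨_, _, _, _, _, _, _, h⟩ <;> simp at h
  · rcases hu with ⟨_, _, _, _, _, _, _, h⟩ | ⟨_, _, h⟩ | ⟨_, _, _, _, _, h⟩ |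
      ⟨_, _, _, _, _, h⟩ | ⟨_, _, _, _, _, _, _, h⟩ <;> simp at h

lemma v_inj : Function.Injective v := by
  have hlt : ∀ i N, i < N → (v i).length < (v N).length := by
    intro i N hi
    obtain ⟨s, hs⟩ := Lft_at hi
    rw [v, v, hs]
    simp [v]
    omega
  intro i j hij
  rcases lt_trichotomy i j with h | h | h
  · have := hlt i j h; rw [hij] at this; omega
  · exact h
  · have := hlt j i h; rw [hij] at this; omega

/-- The negation of the preceding statement: For every finite alphabet and context-free language L of nonempty words: only finitely many words avoid all factors from L iff for each nonempty word w some power of w has a factor in L. -/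
theorem result :
    ¬ (∀ (α : Type) [Fintype α] (L : Language α),
      L.IsContextFree →
      (∀ v ∈ L, v ≠ []) →
      ({u : List α | ¬ ∃ v ∈ L, v <:+: u}.Finite ↔
        ∀ w : List α, w ≠ [] →
          ∃ n : ℕ, ∃ v ∈ L, v <:+: (List.replicate n w).flatten)) := by
  intro hall
  have h1 := hall Br gr.language ⟨gr, rfl⟩ (fun u hu => pat_ne ((lang_iff u).1 hu))
  have h2 : ∀ w : List Br, w ≠ [] →
      ∃ n : ℕ, ∃ v ∈ gr.language, v <:+: (List.replicate n w).flatten := by
    intro w hw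
    obtain ⟨n, u, hu, hf⟩ := exists_pat hw
    exact ⟨n, u, (lang_iff u).2 hu, hf⟩
  have h3 := h1.2 h2
  apply Set.infinite_range_of_injective v_inj
  apply h3.subset
  rintro _ ⟨N, rfl⟩ ⟨u, hu, hf⟩
  exact no_pat ((lang_iff u).1 hu) N hf

end Pool.Agent.S10082
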