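import Pool.Statements.S10106
-- import your own Pool.Agent.* helpers here

set_option autoImplicit false
open Pool Pool.MP_5708a2_lc

namespace Pool.Agent.S10106

/-- Sets that are piecewise (over finitely many rectangles) boolean combinations of members of
`G`. -/
def Cls (G : Set (Set (ℝ × ℝ))) : Set (Set (ℝ × ℝ)) :=
  {S | ∃ (κ : Type) (_ : Finite κ) (u v : ℝ → κ), ∀ x y x' y' : ℝ, u x = u x' → v y = v y' →
    (∀ g ∈ G, (x, y) ∈ g ↔ (x', y') ∈ g) → ((x, y) ∈ S ↔ (x', y') ∈ S)}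

/-- The countable family. -/
def A (n : ℕ) : Set (ℝ × ℝ) :=
  {p | ∃ (s : List ℕ) (i : ℕ), s[n]? = some i ∧ p = ((i : ℝ), ((Encodable.encode s : ℕ) : ℝ))}

theorem key (G : Set (Set (ℝ × ℝ))) (hG : G.Finite) (h : ∀ n, A n ∈ Cls G) : False := by
  classical
  haveI : Finite G := hG
  have h' : ∀ n : Fin (Nat.card (Set G) + 1), ∃ (κ : Type) (_ : Finite κ) (u v : ℝ → κ),
      ∀ x y x' y' : ℝ, u x = u x' → v y = v y' →
      (∀ g ∈ G, (x, y) ∈ g ↔ (x', y') ∈ g) → ((x, y) ∈ A n ↔ (x', y') ∈ A n) := fun n => h n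
  choose κ hκ u v huv using h'
  haveI : ∀ n, Finite (κ n) := hκ
  obtain ⟨a, ha⟩ := Finite.exists_infinite_fiber
    (fun i : ℕ => (fun n => u n (i : ℝ) : (n : Fin (Nat.card (Set G) + 1)) → κ n))
  haveI := ha
  let e := Infinite.natEmbedding ((fun i : ℕ => (fun n => u n (i : ℝ) :
    (n : Fin (Nat.card (Set G) + 1)) → κ n)) ⁻¹' {a})
  let i : Fin (Nat.card (Set G) + 1) → ℕ := fun n => (e n : ℕ)
  have hi : ∀ n m : Fin (Nat.card (Set G) + 1), u m (i n : ℝ) = a m := by
    intro n m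
    have := (e n).2
    exact congrFun this m
  have hinj : ∀ n m : Fin (Nat.card (Set G) + 1), i n = i m → n = m := by
    intro n m hnm
    have h1 : e n = e m := Subtype.ext hnm
    exact Fin.ext (e.injective h1)
  let s : List ℕ := List.ofFn i
  have hs : ∀ n : Fin (Nat.card (Set G) + 1), s[(n : ℕ)]? = some (i n) := by
    intro n
    simp only [s]
    rw [List.getElem?_eq_getElem (by rw [List.length_ofFn]; exact n.2), List.getElem_ofFn]
  let y : ℝ := ((Encodable.encode s : ℕ) : ℝ)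
  have hmem : ∀ n m : Fin (Nat.card (Set G) + 1), ((i n : ℝ), y) ∈ A m ↔ n = m := by
    intro n m
    constructor
    · rintro ⟨s', j, hj, hp⟩
      rw [Prod.mk.injEq] at hp
      obtain ⟨h1, h2⟩ := hp
      have h3 : s = s' := by
        apply Encodable.encode_injective
        have h2' : ((Encodable.encode s : ℕ) : ℝ) = ((Encodable.encode s' : ℕ) : ℝ) := h2
        exact_mod_cast h2'
      have h4 : i n = j := by exact_mod_cast h1
      rw [← h3, hs m] at hj
      apply hinj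
      rw [h4]
      exact (Option.some.inj hj).symm
    · rintro rfl
      exact ⟨s, i n, hs n, rfl⟩
  let T : Fin (Nat.card (Set G) + 1) → Set G := fun n => {g | ((i n : ℝ), y) ∈ g.1}
  have hT : Function.Injective T := by
    intro n m hnm
    have h1 := huv m (i n) y (i m) y (by rw [hi, hi]) rfl (by
      intro g hg
      have : (⟨g, hg⟩ : G) ∈ T n ↔ (⟨g, hg⟩ : G) ∈ T m := by rw [hnm]
      exact this)
    rw [hmem, hmem] at h1
    exact h1.2 rfl
  have := Nat.card_le_card_of_injective T hT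
  simp at this

/-- The negation of the preceding statement: For every countable family of subsets of the real plane there is a finite family of plane sets such that every class containing it and closed under complement, union, projections onto the axes and products of axis sets contains the whole countable family. -/
theorem result :
    ¬ (∀ F : Set (Set (ℝ × ℝ)), F.Countable →
      ∃ G : Set (Set (ℝ × ℝ)), G.Finite ∧
        ∀ S ∈ F, ∀ C : Set (Set (ℝ × ℝ)),
          (∀ T ∈ C, Tᶜ ∈ C) →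
          (∀ T ∈ C, ∀ U ∈ C, T ∪ U ∈ C) →
          (∀ T ∈ C, {p : ℝ × ℝ | p.2 = 0 ∧ ∃ y : ℝ, (p.1, y) ∈ T} ∈ C) →
          (∀ T ∈ C, {p : ℝ × ℝ | p.1 = 0 ∧ ∃ x : ℝ, (x, p.2) ∈ T} ∈ C) →
          (∀ A ∈ C, ∀ B ∈ C, A ⊆ {p : ℝ × ℝ | p.2 = 0} → B ⊆ {p : ℝ × ℝ | p.1 = 0} →
            {p : ℝ × ℝ | ((p.1, (0:ℝ)) ∈ A) ∧ (((0:ℝ), p.2) ∈ B)} ∈ C) →
          G ⊆ C → S ∈ C) := by
  intro h
  obtain ⟨G, hG, hC⟩ := h (Set.range A) (Set.countable_range A)
  apply key G hG
  intro n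
  apply hC (A n) ⟨n, rfl⟩ (Cls G)
  · rintro T ⟨κ, hκ, u, v, huv⟩
    refine ⟨κ, hκ, u, v, fun x y x' y' h1 h2 h3 => ?_⟩
    rw [Set.mem_compl_iff, Set.mem_compl_iff, huv x y x' y' h1 h2 h3]
  · rintro T ⟨κ, hκ, u, v, huv⟩ U ⟨κ', hκ', u', v', huv'⟩
    refine ⟨κ × κ', inferInstance, fun x => (u x, u' x), fun x => (v x, v' x),
      fun x y x' y' h1 h2 h3 => ?_⟩
    rw [Prod.mk.injEq] at h1 h2
    rw [Set.mem_union, Set.mem_union, huv x y x' y' h1.1 h2.1 h3,
      huv' x y x' y' h1.2 h2.2 h3]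
  · intro T _
    refine ⟨Prop, inferInstance, fun x => ∃ y : ℝ, (x, y) ∈ T, fun y => y = 0,
      fun x y x' y' h1 h2 _ => ?_⟩
    simp only [eq_iff_iff] at h1 h2
    simp only [Set.mem_setOf_eq]
    rw [h1, h2]
  · intro T _
    refine ⟨Prop, inferInstance, fun x => x = 0, fun y => ∃ x : ℝ, (x, y) ∈ T,
      fun x y x' y' h1 h2 _ => ?_⟩
    simp only [eq_iff_iff] at h1 h2
    simp only [Set.mem_setOf_eq]
    rw [h1, h2]
  · intro A _ B _ _ _
    refine ⟨Prop, inferInstance, fun x => (x, (0 : ℝ)) ∈ A, fun y => ((0 : ℝ), y) ∈ B,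
      fun x y x' y' h1 h2 _ => ?_⟩
    simp only [eq_iff_iff] at h1 h2
    simp only [Set.mem_setOf_eq]
    rw [h1, h2]
  · intro g hg
    exact ⟨Unit, inferInstance, fun _ => (), fun _ => (), fun x y x' y' _ _ h3 => h3 g hg⟩

end Pool.Agent.S10106
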