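import Pool.Statements.S10165
-- import your own Pool.Agent.* helpers here
import Pool.Agent.Helper7.CardAutomata

set_option autoImplicit false
open Pool Pool.MP_655bfb_lc

namespace Pool.Agent.S10165

/-- For any finite alphabet, language A and n ≥ 1: if some finite automaton reading n words synchronously (blank-padded) always outputs a set of at most n numbers containing how many distinct input words lie in A, then A is regular. -/
theorem result :
    ∀ (α : Type) [Fintype α] (A : Language α) (n : ℕ), 1 ≤ n →
      (∃ (k : ℕ) (step : Fin k → (Fin n → Option α) → Fin k) (start : Fin k)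
          (out : Fin k → Finset ℕ),
        (∀ q, (out q).card ≤ n) ∧
        ∀ w : Fin n → List α,
          ({x : List α | ∃ j, w j = x ∧ x ∈ A}).ncard ∈
            out (List.foldl step start
              ((List.range (Finset.univ.sup fun j => (w j).length)).map
                fun i j => (w j)[i]?))) →
      ∃ (k : ℕ) (M : DFA α (Fin k)), M.accepts = A := by
  classical
  rintro α _ A n - ⟨k, step, start, out, hout, hw⟩
  have ha : ∀ s : Fin n → List α, Function.Injective s →
      Helper7.KummerTree.cnt (fun z => decide (z ∈ A)) s ∈
        out (Helper7.CardAutomata.run step start s) := by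
    intro s hs
    have h1 := hw s
    have h2 : ({x : List α | ∃ j, s j = x ∧ x ∈ A}).ncard =
        Helper7.KummerTree.cnt (fun z => decide (z ∈ A)) s := by
      have h3 : ({x : List α | ∃ j, s j = x ∧ x ∈ A}) =
          s '' (↑(Finset.univ.filter fun j => s j ∈ A) : Set (Fin n)) := by
        ext x
        constructor
        · rintro ⟨j, rfl, hj⟩
          exact ⟨j, by simpa using hj, rfl⟩
        · rintro ⟨j, hj, rfl⟩
          exact ⟨j, rfl, by simpa using hj⟩
      rw [h3, Set.ncard_image_of_injective _ hs, Set.ncard_coe_finset, Finset.card_filter]
      unfold Helper7.KummerTree.cnt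
      apply Finset.sum_congr rfl
      intro j _
      by_cases h : s j ∈ A <;> simp [h]
    rw [← h2]
    exact h1
  obtain ⟨m, k0, P, x0, hP, hA⟩ := Helper7.CardAutomata.definable step start out hout _ ha
  have hfin := Helper7.CardAutomata.finite_quotients step start A hP (fun y => by
    rw [← hA y]; simp)
  have hreg := Language.IsRegular.of_finite_range_leftQuotient hfin
  obtain ⟨σ, hσ, M, hM⟩ := hreg
  refine ⟨Fintype.card σ, DFA.reindex (Fintype.equivFin σ) M, ?_⟩
  rw [DFA.accepts_reindex, hM]

end Pool.Agent.S10165
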