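import Pool.Statements.S11133

set_option autoImplicit false
open N41f07a28
open Asymptotics Filter
open Pool Pool.MP_1d29c3_nt

namespace Pool.Agent.S11133

open Nat.Prime Chebyshev
open scoped Nat.Prime

theorem ev_pi_small (n M : ℕ) (hM : 1 ≤ M) :
    ∀ᶠ Y : ℕ in atTop, (n : ℝ) * (Nat.primeCounting (M * Y) : ℝ) < Y := by
  have h1 := Chebyshev.eventually_primeCounting_le (ε := 1) one_pos
  have hMR : (1 : ℝ) ≤ M := by exact_mod_cast hM
  have ht : Tendsto (fun Y : ℕ => (M : ℝ) * Y) atTop atTop :=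
    Tendsto.const_mul_atTop (by linarith) tendsto_natCast_atTop_atTop
  have h2 := ht.eventually h1
  have h3 := (Real.tendsto_log_atTop.comp ht).eventually_gt_atTop
    ((n : ℝ) * ((Real.log 4 + 1) * M))
  filter_upwards [h2, h3, eventually_gt_atTop 0] with Y hY2 hY3 hY0
  have hYR : (0 : ℝ) < Y := by exact_mod_cast hY0
  have hfl : ⌊(M : ℝ) * Y⌋₊ = M * Y := by
    rw [← Nat.cast_mul, Nat.floor_natCast]
  rw [hfl] at hY2
  simp only [Function.comp] at hY3
  have hlog4 : 0 < Real.log 4 := Real.log_pos (by norm_num)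
  have hl : 0 < Real.log (M * Y) := lt_of_le_of_lt (by positivity) hY3
  calc (n : ℝ) * (Nat.primeCounting (M * Y) : ℝ)
      ≤ n * ((Real.log 4 + 1) * (M * Y) / Real.log (M * Y)) := by gcongr
    _ = (n * ((Real.log 4 + 1) * M)) * Y / Real.log (M * Y) := by ring
    _ < Y := by
      rw [div_lt_iff₀ hl]
      rw [mul_comm (Y : ℝ)]
      exact mul_lt_mul_of_pos_right hY3 hYR

theorem ev_pow (A B : ℕ) : ∀ᶠ Y : ℕ in atTop, A * Y + B ≤ 2 ^ Y := by
  have h := (tendsto_pow_const_div_const_pow_of_one_lt 1 (r := (2:ℝ)) (by norm_num))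
  have h2 : ∀ᶠ Y : ℕ in atTop, ((Y : ℝ) ^ 1 / 2 ^ Y) < 1 / ((A : ℝ) + B + 1) :=
    h.eventually_lt_const (by positivity)
  filter_upwards [h2, eventually_ge_atTop 1] with Y hY hY1
  rw [div_lt_div_iff₀ (by positivity) (by positivity), pow_one, one_mul] at hY
  have hY1' : (1 : ℝ) ≤ Y := by exact_mod_cast hY1
  have : ((A * Y + B : ℕ) : ℝ) ≤ ((2 ^ Y : ℕ) : ℝ) := by
    push_cast
    have hB : (0 : ℝ) ≤ B := Nat.cast_nonneg B
    nlinarith
  exact_mod_cast this

theorem key (n N : ℕ) (hn : 1 ≤ n) (hN : 1 ≤ N) : ∃ t Z : ℕ, ∃ R : Finset ℕ, 1 ≤ t ∧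
    (∀ a, 1 ≤ a → a ≤ n → a ∣ t) ∧
    (∀ a, 1 ≤ a → a ≤ n → ∀ p, p.Prime → p ∣ t / a + 1 → p ∈ R) ∧
    (∀ p ∈ R, Z < p ∧ p.Prime) ∧ N * R.card ≤ Nat.primeCounting Z := by
  classical
  set M : ℕ := 7 * n * N with hMdef
  have hM : 1 ≤ M := by
    have := Nat.mul_pos (Nat.mul_pos (by norm_num : 0 < 7) hn) hN
    omega
  obtain ⟨Y, hY⟩ := ((ev_pi_small n M hM).and ((ev_pow (2 * n.factorial) 0).and
    ((ev_pow M 1).and ((eventually_ge_atTop n).and
    ((eventually_ge_atTop 2).and (eventually_ge_atTop M)))))).exists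
  obtain ⟨h1, h2, h3, h4, h5, h6⟩ := hY
  set Z := M * Y with hZ
  have hYZ : Y ≤ Z := Nat.le_mul_of_pos_left Y hM
  let q : ℕ → ℕ := fun a => (n.factorial / a) * primorial Y
  have hq : ∀ a, 1 ≤ a → a ≤ n → a * q a = n.factorial * primorial Y := by
    intro a ha1 ha2
    simp only [q]
    rw [← mul_assoc, Nat.mul_div_cancel' (Nat.dvd_factorial ha1 ha2)]
  -- primes larger than Y do not divide q a
  have hcop : ∀ a, 1 ≤ a → a ≤ n → ∀ p, p.Prime → Y < p → ¬ p ∣ q a := by
    intro a ha1 ha2 p hp hYp hd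
    have : p ∣ n.factorial * primorial Y := by
      rw [← hq a ha1 ha2]
      exact hd.mul_left a
    rcases (Nat.Prime.dvd_mul hp).1 this with h | h
    · have := (Nat.Prime.dvd_factorial hp).1 h
      omega
    · have := (Nat.Prime.dvd_primorial_iff hp).1 h
      omega
  -- choose k
  have hk : ∃ k ∈ Finset.Icc 1 Y, ∀ a ∈ Finset.Icc 1 n, ∀ p ∈ (Nat.primesLE Z).filter (Y < ·),
      ¬ p ∣ q a * k + 1 := by
    by_contra hcon
    push Not at hcon
    have hsub : Finset.Icc 1 Y ⊆ (Finset.Icc 1 n).biUnion fun a =>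
        ((Nat.primesLE Z).filter (Y < ·)).biUnion fun p =>
          (Finset.Icc 1 Y).filter fun k => p ∣ q a * k + 1 := by
      intro k hk
      obtain ⟨a, ha, p, hp, hd⟩ := hcon k hk
      simp only [Finset.mem_biUnion]
      exact ⟨a, ha, p, hp, Finset.mem_filter.2 ⟨hk, hd⟩⟩
    have hc1 := Finset.card_le_card hsub
    rw [Nat.card_Icc, Nat.add_sub_cancel] at hc1
    have hone : ∀ a ∈ Finset.Icc 1 n, ∀ p ∈ (Nat.primesLE Z).filter (Y < ·),
        ((Finset.Icc 1 Y).filter fun k => p ∣ q a * k + 1).card ≤ 1 := by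
      intro a ha p hp
      rw [Finset.mem_Icc] at ha
      rw [Finset.mem_filter] at hp
      have hpp := Nat.prime_of_mem_primesLE hp.1
      have haux : ∀ k k', k ∈ Finset.Icc 1 Y → k' ∈ Finset.Icc 1 Y → p ∣ q a * k + 1 →
          p ∣ q a * k' + 1 → k ≤ k' → k = k' := by
        intro k k' hk hk' hd hd' hle
        rw [Finset.mem_Icc] at hk hk'
        have hs : p ∣ (q a * k' + 1) - (q a * k + 1) := Nat.dvd_sub hd' hd
        have he : (q a * k' + 1) - (q a * k + 1) = q a * (k' - k) := by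
          rw [Nat.add_sub_add_right, Nat.mul_sub]
        rw [he] at hs
        rcases (Nat.Prime.dvd_mul hpp).1 hs with h | h
        · exact absurd h (hcop a ha.1 ha.2 p hpp hp.2)
        · by_contra hne
          have := Nat.le_of_dvd (by omega) h
          omega
      rw [Finset.card_le_one]
      intro k hk k' hk'
      rw [Finset.mem_filter] at hk hk'
      rcases le_total k k' with h | h
      · exact haux k k' hk.1 hk'.1 hk.2 hk'.2 h
      · exact (haux k' k hk'.1 hk.1 hk'.2 hk.2 h).symm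
    have hc2 : Y ≤ n * Nat.primeCounting Z := by
      refine hc1.trans (Finset.card_biUnion_le.trans ?_)
      calc ∑ a ∈ Finset.Icc 1 n, (((Nat.primesLE Z).filter (Y < ·)).biUnion fun p =>
            (Finset.Icc 1 Y).filter fun k => p ∣ q a * k + 1).card
          ≤ ∑ a ∈ Finset.Icc 1 n, Nat.primeCounting Z := by
            refine Finset.sum_le_sum fun a ha => Finset.card_biUnion_le.trans ?_
            refine (Finset.sum_le_sum fun p hp => hone a ha p hp).trans ?_
            rw [Finset.sum_const, smul_eq_mul, mul_one]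
            refine (Finset.card_filter_le _ _).trans ?_
            simp
        _ = n * Nat.primeCounting Z := by simp
    have : (Y : ℝ) ≤ n * (Nat.primeCounting Z : ℝ) := by exact_mod_cast hc2
    linarith
  obtain ⟨k, hkI, hk⟩ := hk
  rw [Finset.mem_Icc] at hkI
  set t := n.factorial * primorial Y * k with ht
  have hta : ∀ a, 1 ≤ a → a ≤ n → t / a = q a * k := by
    intro a ha1 ha2
    rw [ht, ← hq a ha1 ha2, mul_assoc, Nat.mul_div_cancel_left _ ha1]
  have hprim : ∀ p ∈ (Finset.Icc 1 n).biUnion fun a => (t / a + 1).primeFactors,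
      Z < p ∧ p.Prime := by
    intro p hp
    obtain ⟨a, ha, hp⟩ := Finset.mem_biUnion.1 hp
    have hpp := Nat.prime_of_mem_primeFactors hp
    have hd := Nat.dvd_of_mem_primeFactors hp
    have ha' := Finset.mem_Icc.1 ha
    rw [hta a ha'.1 ha'.2] at hd
    refine ⟨?_, hpp⟩
    by_contra hZp
    push Not at hZp
    by_cases hYp : Y < p
    · exact hk a ha p (Finset.mem_filter.2 ⟨Nat.mem_primesLE.2 ⟨hZp, hpp⟩, hYp⟩) hd
    · push Not at hYp
      have h7 : p ∣ q a * k := by
        have : p ∣ primorial Y := (Nat.Prime.dvd_primorial_iff hpp).2 hYp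
        exact (this.mul_left _).mul_right _
      have := (Nat.dvd_add_right h7).1 hd
      exact hpp.one_lt.ne' (Nat.dvd_one.1 this)
  refine ⟨t, Z, (Finset.Icc 1 n).biUnion fun a => (t / a + 1).primeFactors, ?_, ?_, ?_, hprim, ?_⟩
  · have h7 : 0 < primorial Y := primorial_pos Y
    have h8 := Nat.factorial_pos n
    exact Nat.mul_pos (Nat.mul_pos h8 h7) hkI.1
  · intro a ha1 ha2
    rw [ht, mul_assoc]
    exact (Nat.dvd_factorial ha1 ha2).mul_right _
  · intro a ha1 ha2 p hp hd
    exact Finset.mem_biUnion.2 ⟨a, Finset.mem_Icc.2 ⟨ha1, ha2⟩,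
      Nat.mem_primeFactors.2 ⟨hp, hd, Nat.succ_ne_zero _⟩⟩
  · -- counting
    have hYR : (2 : ℝ) ≤ Y := by exact_mod_cast h5
    have hlogY : 0 < Real.log Y := Real.log_pos (by linarith)
    have hlog2 : 0 < Real.log 2 := Real.log_pos (by norm_num)
    have hcard : ∀ a ∈ Finset.Icc 1 n,
        ((t / a + 1).primeFactors.card : ℝ) * Real.log Y ≤ 3 * Y * Real.log 2 := by
      intro a ha
      have ha' := Finset.mem_Icc.1 ha
      have hle1 : Y ^ (t / a + 1).primeFactors.card ≤ t / a + 1 := by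
        calc Y ^ (t / a + 1).primeFactors.card ≤ ∏ p ∈ (t / a + 1).primeFactors, p := by
              refine Finset.pow_card_le_prod _ _ _ fun p hp => ?_
              have := (hprim p (Finset.mem_biUnion.2 ⟨a, ha, hp⟩)).1
              omega
          _ ≤ t / a + 1 := Nat.le_of_dvd (Nat.succ_pos _) (Nat.prod_primeFactors_dvd _)
      have hle2 : t / a + 1 ≤ 8 ^ Y := by
        have e1 : t / a ≤ t := Nat.div_le_self _ _
        have e2 : t ≤ n.factorial * 4 ^ Y * Y := by
          rw [ht]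
          have := primorial_le_four_pow Y
          gcongr
          exact hkI.2
        have e3 : 1 ≤ n.factorial * 4 ^ Y * Y := by
          have h7 := Nat.factorial_pos n
          exact Nat.mul_pos (Nat.mul_pos h7 (by positivity)) (by omega)
        calc t / a + 1 ≤ n.factorial * 4 ^ Y * Y + n.factorial * 4 ^ Y * Y := by omega
          _ = (2 * n.factorial * Y + 0) * 4 ^ Y := by ring
          _ ≤ 2 ^ Y * 4 ^ Y := by gcongr
          _ = 8 ^ Y := by
            rw [← mul_pow]
            norm_num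
      have h8 : ((Y : ℝ)) ^ (t / a + 1).primeFactors.card ≤ 8 ^ Y := by
        exact_mod_cast hle1.trans hle2
      have h9 := Real.log_le_log (by positivity) h8
      rw [Real.log_pow, Real.log_pow] at h9
      have h10 : Real.log 8 = 3 * Real.log 2 := by
        rw [show (8 : ℝ) = 2 ^ 3 by norm_num, Real.log_pow]
        norm_num
      rw [h10] at h9
      linarith
    set R := (Finset.Icc 1 n).biUnion fun a => (t / a + 1).primeFactors with hR
    have hR1 : (R.card : ℝ) * Real.log Y ≤ n * (3 * Y * Real.log 2) := by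
      have : (R.card : ℝ) ≤ ∑ a ∈ Finset.Icc 1 n, ((t / a + 1).primeFactors.card : ℝ) := by
        exact_mod_cast Finset.card_biUnion_le
      calc (R.card : ℝ) * Real.log Y
          ≤ (∑ a ∈ Finset.Icc 1 n, ((t / a + 1).primeFactors.card : ℝ)) * Real.log Y := by
            gcongr
        _ = ∑ a ∈ Finset.Icc 1 n, ((t / a + 1).primeFactors.card : ℝ) * Real.log Y := by
            rw [Finset.sum_mul]
        _ ≤ ∑ a ∈ Finset.Icc 1 n, 3 * Y * Real.log 2 := Finset.sum_le_sum hcard
        _ = n * (3 * Y * Real.log 2) := by simp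
    have hZR : (2 : ℝ) ≤ Z := by
      have : (Y : ℝ) ≤ Z := by exact_mod_cast hYZ
      linarith
    have hlogZ : 0 < Real.log Z := Real.log_pos (by linarith)
    have hpsi : (Z : ℝ) * Real.log 2 - Real.log (Z + 1) ≤ Nat.primeCounting Z * Real.log Z :=
      (Chebyshev.psi_ge Z).trans (Chebyshev.psi_le_primeCounting_mul_log Z)
    have hlogZ1 : Real.log (Z + 1) ≤ Y * Real.log 2 := by
      rw [← Real.log_pow]
      apply Real.log_le_log (by positivity)
      exact_mod_cast h3
    have hlogZ2 : Real.log Z ≤ 2 * Real.log Y := by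
      rw [hZ]
      push_cast
      have hM0 : (0 : ℝ) < M := by exact_mod_cast hM
      rw [Real.log_mul hM0.ne' (by linarith)]
      have : Real.log M ≤ Real.log Y := Real.log_le_log hM0 (by exact_mod_cast h6)
      linarith
    have hNn : (1 : ℝ) ≤ (n : ℝ) * N := by exact_mod_cast Nat.mul_pos hn hN
    have hZe : (Z : ℝ) = 7 * n * N * Y := by
      rw [hZ, hMdef]
      push_cast
      ring
    have hfin : (N : ℝ) * R.card * Real.log Z ≤ Nat.primeCounting Z * Real.log Z := by
      have hNc : (0 : ℝ) ≤ (N : ℝ) * R.card := by positivity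
      calc (N : ℝ) * R.card * Real.log Z ≤ N * R.card * (2 * Real.log Y) := by gcongr
        _ = 2 * N * (R.card * Real.log Y) := by ring
        _ ≤ 2 * N * (n * (3 * Y * Real.log 2)) := by gcongr
        _ = 6 * (n * N) * (Y * Real.log 2) := by ring
        _ ≤ 7 * (n * N) * (Y * Real.log 2) - Y * Real.log 2 := by
            have : 0 < Y * Real.log 2 := by positivity
            nlinarith
        _ = Z * Real.log 2 - Y * Real.log 2 := by rw [hZe]; ring
        _ ≤ Z * Real.log 2 - Real.log (Z + 1) := by linarith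
        _ ≤ _ := hpsi
    have := le_of_mul_le_mul_right hfin hlogZ
    exact_mod_cast this

/-- primes with an even number of smaller primes -/
def EE : Set ℕ := {p | p.Prime ∧ Even (Nat.count Nat.Prime p)}

/-- primes with an odd number of smaller primes -/
def OO : Set ℕ := {p | p.Prime ∧ ¬ Even (Nat.count Nat.Prime p)}

theorem fin_Iic (S : Set ℕ) (x : ℕ) : (S ∩ Set.Iic x).Finite :=
  (Set.finite_Iic x).subset Set.inter_subset_right

/-- a set of naturals `i < k` of the form `i = 2 j + e` injects into the primes -/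
theorem count_class (S : Set ℕ) (e x m : ℕ)
    (hS : ∀ j, 2 * j + e < Nat.primeCounting x → Nat.nth Nat.Prime (2 * j + e) ∈ S)
    (hm : 2 * m + e ≤ Nat.primeCounting x + 1) : m ≤ (S ∩ Set.Iic x).ncard := by
  have hinj : Set.InjOn (fun j => Nat.nth Nat.Prime (2 * j + e)) (Set.Iio m) := by
    intro i _ j _ hij
    have := Nat.nth_injective Nat.infinite_setOf_prime hij
    omega
  have himg : (fun j => Nat.nth Nat.Prime (2 * j + e)) '' Set.Iio m ⊆ S ∩ Set.Iic x := by
    rintro _ ⟨j, hj, rfl⟩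
    have hj' : j < m := hj
    have hlt : 2 * j + e < Nat.primeCounting x := by omega
    refine ⟨hS j hlt, ?_⟩
    have : Nat.nth Nat.Prime (2 * j + e) < x + 1 := by
      apply Nat.nth_lt_of_lt_count
      exact hlt
    exact Nat.lt_succ_iff.1 this
  have h1 := Set.ncard_le_ncard himg (fin_Iic S x)
  rw [Set.ncard_image_of_injOn hinj] at h1
  have h2 : (Set.Iio m).ncard = m := by
    rw [← Finset.coe_Iio, Set.ncard_coe_finset]
    simp
  rwa [h2] at h1

theorem big (S : Set ℕ) (hS : ∀ᶠ x : ℕ in atTop,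
    (Nat.primeCounting x : ℝ) / 8 ≤ ((S ∩ Set.Iic x).ncard : ℝ)) :
    (fun x : ℕ ↦ (x : ℝ) / Real.log x) =O[atTop] (fun x ↦ ((S ∩ Set.Iic x).ncard : ℝ)) := by
  apply IsBigO.of_bound (8 * 4)
  filter_upwards [hS, ev_pow 1 1, eventually_ge_atTop 2,
    (Real.isLittleO_log_id_atTop.comp_tendsto tendsto_natCast_atTop_atTop).bound
      (show (0 : ℝ) < 1 / 8 by norm_num)] with x hx _ hx2 hlo
  have hxR : (2 : ℝ) ≤ x := by exact_mod_cast hx2
  have hlog : 0 < Real.log x := Real.log_pos (by linarith)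
  rw [Real.norm_of_nonneg (by positivity), Real.norm_of_nonneg (by positivity)]
  have hpi := Chebyshev.pi_ge x
  simp only [Function.comp, id, Real.norm_of_nonneg hlog.le, Real.norm_natCast] at hlo
  have hlog2 : (1 : ℝ) / 2 ≤ Real.log 2 := by
    have := Real.log_two_gt_d9
    linarith
  have hlog1 : Real.log (x + 1) ≤ 2 * Real.log x := by
    rw [← Real.log_rpow (by linarith)]
    apply Real.log_le_log (by linarith)
    rw [Real.rpow_two]
    nlinarith
  have h1 : (x : ℝ) / 4 / Real.log x ≤ Nat.primeCounting x := by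
    refine le_trans ?_ hpi
    apply div_le_div_of_nonneg_right _ hlog.le
    nlinarith
  have h2 : (x : ℝ) / Real.log x = 4 * ((x : ℝ) / 4 / Real.log x) := by ring
  rw [h2]
  linarith

/-- There exists a set P of primes with both P and its complement in the primes having ≫ x/log x elements up to x, such that the set of positive integers with all prime factors in P has the translation property. -/
theorem result :
    ∃ P : Set ℕ, P ⊆ {p : ℕ | p.Prime} ∧ (fun x : ℕ ↦ (x : ℝ) / Real.log x) =O[atTop] (fun x ↦ ((P ∩ Set.Iic x).ncard : ℝ)) ∧ (fun x : ℕ ↦ (x : ℝ) / Real.log x) =O[atTop] (fun x ↦ ((({p : ℕ | p.Prime} \ P) ∩ Set.Iic x).ncard : ℝ)) ∧ HasTranslationProperty (composedOf P) := by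
  choose t Z R ht1 htd hR hRp hRc using fun n : ℕ =>
    key (n + 1) (2 ^ (n + 3)) (by omega) (Nat.one_le_two_pow)
  let RR : Set ℕ := {p | ∃ n, p ∈ R n}
  have hRRprime : ∀ p ∈ RR, p.Prime := by
    rintro p ⟨n, hn⟩
    exact (hRp n p hn).2
  -- counting RR
  have hcount : ∀ x : ℕ, ((RR ∩ Set.Iic x).ncard : ℝ) ≤ (Nat.primeCounting x : ℝ) / 4 := by
    intro x
    classical
    have hsub : RR ∩ Set.Iic x ⊆ ((Finset.range x).biUnion fun n => (R n).filter (· ≤ x)) := by
      rintro p ⟨⟨n, hn⟩, hpx⟩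
      have hpx' : p ≤ x := hpx
      have h1 := (hRp n p hn).1
      have h2 : 2 ^ (n + 3) ≤ Nat.primeCounting (Z n) := by
        refine le_trans ?_ (hRc n)
        exact Nat.le_mul_of_pos_right _ (Finset.card_pos.2 ⟨p, hn⟩)
      have h3 : Nat.primeCounting (Z n) ≤ Z n + 1 := Nat.count_le Nat.Prime
      have h4 : n < 2 ^ n := Nat.lt_two_pow_self
      have h5 : 2 ^ (n + 3) = 8 * 2 ^ n := by ring
      simp only [Finset.coe_biUnion, Set.mem_iUnion, Finset.mem_coe, Finset.mem_range,
        Finset.mem_filter]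
      exact ⟨n, by omega, hn, hpx'⟩
    have h1 : (RR ∩ Set.Iic x).ncard ≤ ∑ n ∈ Finset.range x, ((R n).filter (· ≤ x)).card := by
      refine (Set.ncard_le_ncard hsub (Finset.finite_toSet _)).trans ?_
      rw [Set.ncard_coe_finset]
      exact Finset.card_biUnion_le
    have h2 : ∀ n, (((R n).filter (· ≤ x)).card : ℝ) ≤
        (Nat.primeCounting x : ℝ) * (1 / 8 * (1 / 2) ^ n) := by
      intro n
      rcases Finset.eq_empty_or_nonempty ((R n).filter (· ≤ x)) with h | ⟨p, hp⟩
      · rw [h]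
        simp only [Finset.card_empty, Nat.cast_zero]
        positivity
      · rw [Finset.mem_filter] at hp
        have h3 : Z n ≤ x := ((hRp n p hp.1).1.le).trans hp.2
        have h4 := Nat.monotone_primeCounting h3
        have h5 : 2 ^ (n + 3) * ((R n).filter (· ≤ x)).card ≤ Nat.primeCounting x :=
          ((Nat.mul_le_mul_left _ (Finset.card_filter_le _ _)).trans (hRc n)).trans h4
        have h6 : (2 : ℝ) ^ (n + 3) * ((R n).filter (· ≤ x)).card ≤ Nat.primeCounting x := by
          exact_mod_cast h5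
        have h7 : (1 : ℝ) / 8 * (1 / 2) ^ n = 1 / 2 ^ (n + 3) := by
          rw [pow_add, one_div_pow]
          field_simp
          norm_num
        rw [h7, mul_one_div, le_div_iff₀ (by positivity), mul_comm]
        exact h6
    calc ((RR ∩ Set.Iic x).ncard : ℝ)
        ≤ ∑ n ∈ Finset.range x, (((R n).filter (· ≤ x)).card : ℝ) := by exact_mod_cast h1
      _ ≤ ∑ n ∈ Finset.range x, (Nat.primeCounting x : ℝ) * (1 / 8 * (1 / 2) ^ n) :=
          Finset.sum_le_sum fun n _ => h2 n
      _ = (Nat.primeCounting x : ℝ) * (1 / 8) * ∑ n ∈ Finset.range x, (1 / 2 : ℝ) ^ n := by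
          rw [Finset.mul_sum]
          exact Finset.sum_congr rfl fun n _ => by ring
      _ ≤ (Nat.primeCounting x : ℝ) * (1 / 8) * 2 := by
          gcongr
          exact sum_geometric_two_le x
      _ = _ := by ring
  have hnthE : ∀ j, Nat.nth Nat.Prime (2 * j + 0) ∈ EE := by
    intro j
    refine ⟨Nat.prime_nth_prime _, ?_⟩
    rw [Nat.count_nth_of_infinite Nat.infinite_setOf_prime]
    simp
  have hnthO : ∀ j, Nat.nth Nat.Prime (2 * j + 1) ∈ OO := by
    intro j
    refine ⟨Nat.prime_nth_prime _, ?_⟩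
    rw [Nat.count_nth_of_infinite Nat.infinite_setOf_prime]
    simp
  have hE : ∀ x : ℕ, (Nat.primeCounting x : ℝ) / 2 - 1 ≤ ((EE ∩ Set.Iic x).ncard : ℝ) := by
    intro x
    have h1 := count_class EE 0 x (Nat.primeCounting x / 2) (fun j _ => hnthE j) (by omega)
    have h2 : (Nat.primeCounting x : ℝ) ≤ 2 * (Nat.primeCounting x / 2 : ℕ) + 1 := by
      have : Nat.primeCounting x ≤ 2 * (Nat.primeCounting x / 2) + 1 := by omega
      exact_mod_cast this
    have h3 : ((Nat.primeCounting x / 2 : ℕ) : ℝ) ≤ ((EE ∩ Set.Iic x).ncard : ℝ) := by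
      exact_mod_cast h1
    linarith
  have hO : ∀ x : ℕ, (Nat.primeCounting x : ℝ) / 2 - 1 ≤ ((OO ∩ Set.Iic x).ncard : ℝ) := by
    intro x
    have h1 := count_class OO 1 x (Nat.primeCounting x / 2) (fun j _ => hnthO j) (by omega)
    have h2 : (Nat.primeCounting x : ℝ) ≤ 2 * (Nat.primeCounting x / 2 : ℕ) + 1 := by
      have : Nat.primeCounting x ≤ 2 * (Nat.primeCounting x / 2) + 1 := by omega
      exact_mod_cast this
    have h3 : ((Nat.primeCounting x / 2 : ℕ) : ℝ) ≤ ((OO ∩ Set.Iic x).ncard : ℝ) := by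
      exact_mod_cast h1
    linarith
  have hlarge : ∀ᶠ x : ℕ in atTop, (8 : ℝ) ≤ Nat.primeCounting x :=
    (tendsto_natCast_atTop_atTop.comp Nat.tendsto_primeCounting).eventually_ge_atTop 8
  refine ⟨EE ∪ RR, ?_, ?_, ?_, ?_⟩
  · rintro p (hp | hp)
    · exact hp.1
    · exact hRRprime p hp
  · apply big
    filter_upwards [hlarge] with x hx
    have h1 := hE x
    have h2 : ((EE ∩ Set.Iic x).ncard : ℝ) ≤ (((EE ∪ RR) ∩ Set.Iic x).ncard : ℝ) := by
      exact_mod_cast Set.ncard_le_ncard (Set.inter_subset_inter_left _ Set.subset_union_left)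
        (fin_Iic _ x)
    linarith
  · apply big
    filter_upwards [hlarge] with x hx
    have h1 := hO x
    have h2 := hcount x
    have hsub : OO ∩ Set.Iic x ⊆ (({p : ℕ | p.Prime} \ (EE ∪ RR)) ∩ Set.Iic x) ∪
        (RR ∩ Set.Iic x) := by
      rintro p ⟨hp, hpx⟩
      by_cases hpR : p ∈ RR
      · exact Or.inr ⟨hpR, hpx⟩
      · refine Or.inl ⟨⟨hp.1, ?_⟩, hpx⟩
        rintro (h | h)
        · exact hp.2 h.2
        · exact hpR h
    have h3 : ((OO ∩ Set.Iic x).ncard : ℝ) ≤
        ((({p : ℕ | p.Prime} \ (EE ∪ RR)) ∩ Set.Iic x).ncard : ℝ) +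
          ((RR ∩ Set.Iic x).ncard : ℝ) := by
      have h4 := (Set.ncard_le_ncard hsub ((fin_Iic _ x).union (fin_Iic _ x))).trans
        (Set.ncard_union_le _ _)
      exact_mod_cast h4
    linarith
  · intro n
    refine ⟨t n, ht1 n, ?_⟩
    intro a ha1 ha2
    have hat : a ∣ t n := htd n a ha1 (by omega)
    have hfac : a + t n = a * (t n / a + 1) := by
      rw [mul_add, Nat.mul_div_cancel' hat, mul_one, add_comm]
    constructor
    · rintro ⟨h0, hp⟩
      refine ⟨by omega, fun p hpp hd => ?_⟩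
      rw [hfac] at hd
      rcases (Nat.Prime.dvd_mul hpp).1 hd with h | h
      · exact hp p hpp h
      · exact Or.inr ⟨n, hR n a ha1 (by omega) p hpp h⟩
    · rintro ⟨h0, hp⟩
      refine ⟨by omega, fun p hpp hd => ?_⟩
      apply hp p hpp
      rw [hfac]
      exact hd.mul_right _

end Pool.Agent.S11133
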