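import Pool.Statements.S11736
import Pool.Agent.Helper1.QuinticPoly

set_option autoImplicit false
open Pool Pool.MP_59b56e_nt

namespace Pool.Agent.S11736

open Pool.Agent.Helper1.QuinticDescent Pool.Agent.Helper1.QuinticStep
open Pool.Agent.Helper1.QuinticPoly

lemma par_val (D T a : ℤ) (hD : D % 2 = 0) (f : a ^ 5 - 13 * D ^ 2 * a ^ 3 + 36 * D ^ 4 * a = T) :
    T % 2 = a % 2 := by
  obtain ⟨c, hc⟩ := Int.dvd_of_emod_eq_zero hD
  have e1 : T = 2 * (-26 * c ^ 2 * a ^ 3 + 288 * c ^ 4 * a) + a ^ 5 := by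
    rw [← f, hc]; ring
  have e2 : a ^ 5 % 2 = a % 2 := by
    rcases Int.emod_two_eq_zero_or_one a with h | h <;> simp [pow_succ, Int.mul_emod, h]
  omega

lemma sixteen (D T a : ℤ) (hD : D % 2 = 1) (ha : a % 2 = 0)
    (f : a ^ 5 - 13 * D ^ 2 * a ^ 3 + 36 * D ^ 4 * a = T) : 16 ∣ T := by
  obtain ⟨c, hc⟩ := Int.dvd_of_emod_eq_zero ha
  have e1 : T = 8 * (4 * c ^ 5 - 13 * D ^ 2 * c ^ 3 + 9 * D ^ 4 * c) := by
    rw [← f, hc]; ring
  have e2 : (4 * c ^ 5 - 13 * D ^ 2 * c ^ 3 + 9 * D ^ 4 * c) % 2 = 0 := by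
    rcases Int.emod_two_eq_zero_or_one c with h | h <;>
    simp [pow_succ, Int.mul_emod, Int.add_emod, Int.sub_emod, h, hD]
  omega

/-- The arithmetic core: there are no five distinct rationals. -/
lemma core (t : ℚ) (ht : t ≠ 0) (x : Fin 5 → ℚ) (hx : Function.Injective x)
    (hf : ∀ i, x i ^ 5 - 13 * x i ^ 3 + 36 * x i = t) : False := by
  classical
  -- common denominator
  have hex : ∃ D : ℕ, 0 < D ∧ ∀ i, ∃ a : ℤ, (D : ℚ) * x i = a := by
    refine ⟨∏ i, (x i).den, Finset.prod_pos (fun i _ => (x i).den_pos), fun i => ?_⟩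
    refine ⟨(∏ j ∈ Finset.univ.erase i, ((x j).den : ℤ)) * (x i).num, ?_⟩
    have h1 : (∏ j, (x j).den) = (x i).den * ∏ j ∈ Finset.univ.erase i, (x j).den :=
      (Finset.mul_prod_erase Finset.univ (fun j => (x j).den) (Finset.mem_univ i)).symm
    rw [h1]
    push_cast
    have h2 : ((x i).num : ℚ) = x i * (x i).den := (Rat.mul_den_eq_num (x i)).symm
    rw [h2]; ring
  obtain ⟨hD0, hDa⟩ := Nat.find_spec hex
  have hmin := fun m hm => Nat.find_min hex (m := m) hm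
  set D := Nat.find hex with hDdef
  choose a ha using hDa
  have hDq : (D : ℚ) ≠ 0 := by exact_mod_cast hD0.ne'
  have hinj : Function.Injective a := by
    intro i j hij
    apply hx
    apply mul_left_cancel₀ hDq
    rw [ha i, ha j, hij]
  set T : ℤ := a 0 ^ 5 - 13 * (D : ℤ) ^ 2 * a 0 ^ 3 + 36 * (D : ℤ) ^ 4 * a 0 with hT
  have hTq : ∀ i, ((a i ^ 5 - 13 * (D : ℤ) ^ 2 * a i ^ 3 + 36 * (D : ℤ) ^ 4 * a i : ℤ) : ℚ) =
      (D : ℚ) ^ 5 * t := by
    intro i
    push_cast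
    rw [← ha i, ← hf i]; ring
  have hfa : ∀ i, a i ^ 5 - 13 * (D : ℤ) ^ 2 * a i ^ 3 + 36 * (D : ℤ) ^ 4 * a i = T := by
    intro i
    have : ((a i ^ 5 - 13 * (D : ℤ) ^ 2 * a i ^ 3 + 36 * (D : ℤ) ^ 4 * a i : ℤ) : ℚ) = (T : ℚ) := by
      rw [hTq i, hT, hTq 0]
    exact_mod_cast this
  have hT0 : T ≠ 0 := by
    intro h0
    have h1 := hTq 0
    rw [hfa 0, h0] at h1
    have : (D : ℚ) ^ 5 * t ≠ 0 := mul_ne_zero (pow_ne_zero 5 hDq) ht
    exact this (by rw [← h1]; simp)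
  have hne : ∀ i j : Fin 5, i ≠ j → a i ≠ a j := fun i j hij h => hij (hinj h)
  obtain ⟨s1, s2, s3, s4, s5⟩ := symm_rel (D : ℤ) T (a 0) (a 1) (a 2) (a 3) (a 4)
    (hne _ _ (by decide)) (hne _ _ (by decide)) (hne _ _ (by decide)) (hne _ _ (by decide))
    (hne _ _ (by decide)) (hne _ _ (by decide)) (hne _ _ (by decide)) (hne _ _ (by decide))
    (hne _ _ (by decide)) (hne _ _ (by decide)) (hfa 0) (hfa 1) (hfa 2) (hfa 3) (hfa 4)
  -- D is odd
  have hDodd : (D : ℤ) % 2 = 1 := by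
    rcases Int.emod_two_eq_zero_or_one (D : ℤ) with h0 | h0
    · exfalso
      have hp : ∀ i, T % 2 = a i % 2 := fun i => par_val (D : ℤ) T (a i) h0 (hfa i)
      rcases Int.emod_two_eq_zero_or_one T with hT2 | hT2
      · -- all even: contradiction with minimality
        obtain ⟨D1, hD1⟩ : ∃ D1 : ℕ, D = 2 * D1 := ⟨D / 2, by omega⟩
        apply hmin D1 (by omega)
        refine ⟨by omega, fun i => ?_⟩
        obtain ⟨c, hc⟩ := Int.dvd_of_emod_eq_zero (show a i % 2 = 0 by rw [← hp i, hT2])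
        refine ⟨c, ?_⟩
        have h1 := ha i
        rw [hc, hD1] at h1
        push_cast at h1
        linarith
      · have p0 := hp 0
        have p1 := hp 1
        have p2 := hp 2
        have p3 := hp 3
        have p4 := hp 4
        omega
    · exact h0
  -- some root is even
  have h16 : (16 : ℤ) ∣ T := by
    by_contra hcon
    have hp : ∀ i, a i % 2 = 1 := by
      intro i
      rcases Int.emod_two_eq_zero_or_one (a i) with h0 | h0
      · exact absurd (sixteen (D : ℤ) T (a i) hDodd h0 (hfa i)) hcon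
      · exact h0
    have p0 := hp 0
    have p1 := hp 1
    have p2 := hp 2
    have p3 := hp 3
    have p4 := hp 4
    omega
  obtain ⟨T1, hT1⟩ := h16
  obtain ⟨M, hM⟩ := disc_identity (D : ℤ) T (a 0) (a 1) (a 2) (a 3) (a 4) s1 s2 s3 s4 s5
  have hM4 : (4 : ℤ) ∣ M := by
    have : (4 : ℤ) ^ 2 ∣ M ^ 2 := by
      rw [hM, hT1]
      exact ⟨12800000 * T1 ^ 4 - 41805504 * T1 ^ 2 * (D : ℤ) ^ 10 + 29160000 * (D : ℤ) ^ 20, by ring⟩
    exact (Int.pow_dvd_pow_iff (by norm_num)).1 this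
  obtain ⟨M1, hM1⟩ := hM4
  apply no_solution (8 * T1) (3 * (D : ℤ) ^ 5) M1
  · rintro h0
    apply hT0
    rw [hT1]; linarith
  · have : (D : ℤ) ^ 5 % 2 = 1 := by simp [pow_succ, Int.mul_emod, hDodd]
    omega
  · exact Dvd.intro T1 rfl
  · unfold Eqn
    have h16 : (16 : ℤ) ≠ 0 := by norm_num
    apply mul_left_cancel₀ h16
    rw [hT1, hM1] at hM
    linear_combination hM

/-- The negation of the preceding statement: Every real polynomial of degree n ≥ 1 having n distinct rational roots admits a nonzero real t such that p(x) − t also has n distinct rational roots. -/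
theorem result :
    ¬ (∀ p : Polynomial ℝ, 0 < p.natDegree →
      (∃ s : Finset ℚ, s.card = p.natDegree ∧ ∀ q ∈ s, p.eval (q : ℝ) = 0) →
      ∃ t : ℝ, t ≠ 0 ∧
        ∃ s : Finset ℚ, s.card = p.natDegree ∧
          ∀ q ∈ s, (p - Polynomial.C t).eval (q : ℝ) = 0) := by
  intro H
  let p : Polynomial ℝ := Polynomial.X ^ 5 - Polynomial.C 13 * Polynomial.X ^ 3
    + Polynomial.C 36 * Polynomial.X
  have hdeg : p.natDegree = 5 := by
    show (Polynomial.X ^ 5 - Polynomial.C 13 * Polynomial.X ^ 3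
      + Polynomial.C 36 * Polynomial.X : Polynomial ℝ).natDegree = 5
    compute_degree!
  have heval : ∀ x : ℝ, p.eval x = x ^ 5 - 13 * x ^ 3 + 36 * x := by
    intro x; simp [p]
  obtain ⟨t, ht, s, hs, hroot⟩ := H p (by rw [hdeg]; norm_num)
    ⟨{0, 2, -2, 3, -3}, by rw [hdeg]; decide, by
      intro q hq
      simp only [Finset.mem_insert, Finset.mem_singleton] at hq
      rw [heval]
      rcases hq with rfl | rfl | rfl | rfl | rfl <;> norm_num⟩
  rw [hdeg] at hs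
  have hx : ∀ i, ((s.orderEmbOfFin hs i : ℚ) : ℝ) ^ 5 - 13 * ((s.orderEmbOfFin hs i : ℚ) : ℝ) ^ 3
      + 36 * ((s.orderEmbOfFin hs i : ℚ) : ℝ) = t := by
    intro i
    have := hroot _ (s.orderEmbOfFin_mem hs i)
    rw [Polynomial.eval_sub, Polynomial.eval_C, heval] at this
    linarith
  set x : Fin 5 → ℚ := fun i => s.orderEmbOfFin hs i with hxdef
  set t0 : ℚ := x 0 ^ 5 - 13 * x 0 ^ 3 + 36 * x 0 with ht0
  have htt : t = (t0 : ℝ) := by
    rw [← hx 0, ht0]; push_cast; rfl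
  apply core t0 _ x (s.orderEmbOfFin hs).injective _
  · rintro h0
    apply ht
    rw [htt, h0]; simp
  · intro i
    have h1 := hx i
    rw [htt] at h1
    have : ((x i ^ 5 - 13 * x i ^ 3 + 36 * x i : ℚ) : ℝ) = (t0 : ℝ) := by
      push_cast; exact h1
    exact_mod_cast this

end Pool.Agent.S11736
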