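import Pool.Statements.S12097
-- import your own Pool.Agent.* helpers here

set_option autoImplicit false
open Pool Pool.MP_7cf9eb_nt

namespace Pool.Agent.S12097

open Filter Asymptotics Real in
theorem theta_lower : ∀ᶠ t : ℝ in atTop, 0.6 * t ≤ Chebyshev.theta t := by
  have h1 : (fun t : ℝ => √t * Real.log t) =o[atTop] (fun t : ℝ => t) := by
    have ha : (fun t : ℝ => √t) =O[atTop] (fun t : ℝ => √t) := isBigO_refl _ _
    have hb : (fun t : ℝ => Real.log t) =o[atTop] (fun t : ℝ => t ^ ((1 : ℝ) / 2)) :=
      isLittleO_log_rpow_atTop (by norm_num)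
    refine (ha.mul_isLittleO hb).congr' (Eventually.of_forall fun t => rfl) ?_
    filter_upwards [eventually_ge_atTop 0] with t ht
    show √t * t ^ ((1 : ℝ) / 2) = t
    rw [← Real.sqrt_eq_rpow]
    exact Real.mul_self_sqrt ht
  have h2 : (fun t : ℝ => Real.log t) =o[atTop] (fun t : ℝ => t) := Real.isLittleO_log_id_atTop
  have h1' := h1.bound (show (0 : ℝ) < 0.01 by norm_num)
  have h2' := h2.bound (show (0 : ℝ) < 0.01 by norm_num)
  filter_upwards [h1', h2', eventually_ge_atTop 100] with t e1 e2 ht
  have h3 := Chebyshev.theta_ge' (x := t) (by linarith)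
  have l2 := Real.log_two_gt_d9
  have l3 := Real.log_two_lt_d9
  have hlog : Real.log (t + 2) ≤ Real.log 2 + Real.log t := by
    rw [← Real.log_mul (by norm_num) (by positivity)]
    exact Real.log_le_log (by positivity) (by linarith)
  have e1' : √t * Real.log t ≤ 0.01 * t := by
    have := (le_abs_self _).trans e1
    rwa [Real.norm_of_nonneg (by linarith)] at this
  have e2' : Real.log t ≤ 0.01 * t := by
    have := (le_abs_self _).trans e2
    rwa [Real.norm_of_nonneg (by linarith)] at this
  nlinarith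

theorem theta_tendsto :
    Filter.Tendsto (fun N : ℕ => Chebyshev.theta (N : ℝ)) Filter.atTop Filter.atTop := by
  have h1 : Filter.Tendsto (fun N : ℕ => (0.6 : ℝ) * (N : ℝ)) Filter.atTop Filter.atTop :=
    Filter.Tendsto.const_mul_atTop (by norm_num) tendsto_natCast_atTop_atTop
  have hcast : Filter.Tendsto (fun N : ℕ => (N : ℝ)) Filter.atTop Filter.atTop :=
    tendsto_natCast_atTop_atTop
  exact Filter.tendsto_atTop_mono' Filter.atTop (hcast.eventually theta_lower) h1

open Filter Asymptotics Real intervalIntegral in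
theorem pi_lower : ∀ᶠ N : ℕ in atTop,
    Chebyshev.theta N / Real.log N + 0.55 * N / Real.log N ^ 2 ≤ (Nat.primeCounting N : ℝ) := by
  obtain ⟨T, hT⟩ := eventually_atTop.1 theta_lower
  set T0 := max T 2 with hT0
  have hT02 : 2 ≤ T0 := le_max_right _ _
  filter_upwards [eventually_ge_atTop (⌈12 * T0⌉₊)] with N hN
  have hN' : 12 * T0 ≤ (N : ℝ) := (Nat.le_ceil _).trans (by exact_mod_cast hN)
  have hN2 : (2 : ℝ) ≤ N := by linarith
  have hNT : T0 ≤ (N : ℝ) := by linarith
  have hL : 0 < Real.log N := Real.log_pos (by linarith)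
  have hmain := Chebyshev.primeCounting_eq_theta_div_log_add_integral (x := (N : ℝ)) hN2
  rw [Nat.floor_natCast] at hmain
  rw [hmain]
  have hint : ∀ a b : ℝ, 2 ≤ a → a ≤ b → b ≤ N →
      IntervalIntegrable (fun t => Chebyshev.theta t / (t * Real.log t ^ 2))
        MeasureTheory.volume a b := by
    intro a b ha hab hb
    refine MeasureTheory.IntegrableOn.intervalIntegrable ?_
    refine (Chebyshev.integrableOn_theta_div_id_mul_log_sq (N : ℝ)).mono_set ?_
    rw [Set.uIcc_of_le hab]
    exact Set.Icc_subset_Icc ha hb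
  have hsplit := integral_add_adjacent_intervals (hint 2 T0 le_rfl hT02 hNT) (hint T0 N hT02 hNT le_rfl)
  have hnn : 0 ≤ ∫ t in (2 : ℝ)..T0, Chebyshev.theta t / (t * Real.log t ^ 2) := by
    refine integral_nonneg hT02 (fun t ht => ?_)
    have := Chebyshev.theta_nonneg t
    have : 0 ≤ t := by linarith [ht.1]
    positivity
  have hlow : (∫ t in T0..(N : ℝ), (0.6 / Real.log N ^ 2 : ℝ)) ≤
      ∫ t in T0..(N : ℝ), Chebyshev.theta t / (t * Real.log t ^ 2) := by
    refine integral_mono_on hNT (by simp) (hint T0 N hT02 hNT le_rfl) (fun t ht => ?_)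
    have ht2 : 2 ≤ t := hT02.trans ht.1
    have hlt : 0 < Real.log t := Real.log_pos (by linarith)
    have hlt2 : Real.log t ≤ Real.log N := Real.log_le_log (by linarith) ht.2
    have hth : 0.6 * t ≤ Chebyshev.theta t := hT t ((le_max_left _ _).trans ht.1)
    calc (0.6 / Real.log N ^ 2 : ℝ) ≤ 0.6 / Real.log t ^ 2 := by gcongr
      _ = (0.6 * t) / (t * Real.log t ^ 2) := by field_simp
      _ ≤ _ := by gcongr
  rw [integral_const, smul_eq_mul] at hlow
  have : 0.55 * N / Real.log N ^ 2 ≤ (N - T0) * (0.6 / Real.log N ^ 2) := by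
    rw [mul_div_assoc', div_le_div_iff_of_pos_right (by positivity)]
    linarith
  linarith

open Filter Asymptotics Real in
theorem key (C : ℝ) : ∀ᶠ N : ℕ in atTop,
    C ≤ (Nat.primeCounting N : ℝ) ∧
    Chebyshev.theta N + Real.log 2 ≤
      ((Nat.primeCounting N : ℝ) - C) * Real.log (Chebyshev.theta N) := by
  have hcast : Tendsto (fun N : ℕ => (N : ℝ)) atTop atTop := tendsto_natCast_atTop_atTop
  have e1 := hcast.eventually theta_lower
  have e2 := pi_lower
  have hlog : Tendsto (fun N : ℕ => Real.log (N : ℝ)) atTop atTop := Real.tendsto_log_atTop.comp hcast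
  have e3 := hlog.eventually (eventually_ge_atTop (7 : ℝ))
  have hsq : (fun x : ℝ => Real.log x ^ 2) =o[atTop] (id : ℝ → ℝ) := isLittleO_pow_log_id_atTop
  have hpos : (0 : ℝ) < 0.04 / (|C| + 1) := by positivity
  have e4 := hcast.eventually (hsq.bound hpos)
  filter_upwards [e1, e2, e3, e4, eventually_ge_atTop 1] with N h1 h2 h3 h4 h5
  set L := Real.log (N : ℝ) with hLdef
  set θ := Chebyshev.theta (N : ℝ) with hθdef
  set P := (Nat.primeCounting N : ℝ) with hPdef
  have hN : (1 : ℝ) ≤ N := by exact_mod_cast h5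
  have hNpos : (0 : ℝ) < N := by linarith
  have hL0 : 0 < L := by linarith
  have hθ0 : 0 < θ := by linarith
  have h4' : L ^ 2 * (|C| + 1) ≤ 0.04 * N := by
    have := (le_abs_self _).trans h4
    rw [Real.norm_of_nonneg (by simpa using hNpos.le)] at this
    simp only [id] at this
    have h6 : 0 < |C| + 1 := by positivity
    calc L ^ 2 * (|C| + 1) ≤ (0.04 / (|C| + 1) * N) * (|C| + 1) := by gcongr
      _ = 0.04 * N := by field_simp
  have hCabs : C ≤ |C| := le_abs_self C
  have hP : θ / L + 0.55 * N / L ^ 2 ≤ P := h2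
  -- `x := 0.55 N / L^2`
  have hI : 0 ≤ P - θ / L := by
    have : 0 ≤ 0.55 * (N : ℝ) / L ^ 2 := by positivity
    linarith
  have hC0 : C ≤ θ / L := by
    rw [le_div_iff₀ hL0]
    have : |C| * L ≤ 0.04 * N := by nlinarith [abs_nonneg C]
    nlinarith [abs_nonneg C]
  have hPC : C ≤ P := by linarith
  refine ⟨hPC, ?_⟩
  have hlogθ : L + (1 - N / θ) ≤ Real.log θ := by
    have : Real.log θ = L + Real.log (θ / N) := by
      rw [Real.log_div hθ0.ne' hNpos.ne', hLdef]; ring
    rw [this]
    have h7 := Real.one_sub_inv_le_log_of_pos (show 0 < θ / N by positivity)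
    rw [inv_div] at h7
    linarith
  have hstep : (P - C) * (L + (1 - N / θ)) ≤ (P - C) * Real.log θ := by
    apply mul_le_mul_of_nonneg_left hlogθ; linarith
  refine le_trans ?_ hstep
  set A := 1 - N / θ with hA
  have hA1 : A ≤ 1 := by
    have : 0 ≤ N / θ := by positivity
    linarith
  have hA2 : -0.7 ≤ A := by
    have : N / θ ≤ 1.7 := by
      rw [div_le_iff₀ hθ0]; linarith
    linarith
  have hθA : θ * A = θ - N := by
    rw [hA]; field_simp
  set J := P - θ / L with hJ
  have hPeq : P = θ / L + J := by rw [hJ]; ring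
  have hJ2 : 0.55 * N / L ^ 2 ≤ J := by linarith
  have hJL : 0.55 * N ≤ J * L ^ 2 := by
    rwa [div_le_iff₀ (by positivity)] at hJ2
  have hexp : (P - C) * (L + A) = θ + (θ - N) / L + J * L + J * A - C * L - C * A := by
    rw [hPeq, ← hθA]; field_simp; ring
  rw [hexp]
  have hl2 := Real.log_two_lt_d9
  -- multiply through by L
  have hfin : 0 ≤ ((θ - N) / L + J * L + J * A - C * L - C * A - Real.log 2) * L := by
    have e : ((θ - N) / L + J * L + J * A - C * L - C * A - Real.log 2) * L =
        (θ - N) + J * L ^ 2 + J * A * L - C * L ^ 2 - C * A * L - Real.log 2 * L := by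
      field_simp
    rw [e]
    have hJ0 : 0 ≤ J := hI
    have hJL0 : 0 ≤ J * L := mul_nonneg hJ0 hL0.le
    have b1 : J * L * (-0.7) ≤ J * L * A := mul_le_mul_of_nonneg_left hA2 hJL0
    have b2 : J * L * 7 ≤ J * L * L := mul_le_mul_of_nonneg_left h3 hJL0
    have b3 : J * A * L = J * L * A := by ring
    have b4 : J * L ^ 2 = J * L * L := by ring
    have a2 : C * L ^ 2 ≤ |C| * L ^ 2 := mul_le_mul_of_nonneg_right hCabs (by positivity)
    have hCA : C * A ≤ |C| := by
      calc C * A ≤ |C * A| := le_abs_self _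
        _ = |C| * |A| := abs_mul _ _
        _ ≤ |C| * 1 := by
            refine mul_le_mul_of_nonneg_left ?_ (abs_nonneg C)
            rw [abs_le]; constructor <;> linarith
        _ = |C| := by ring
    have a3 : C * A * L ≤ |C| * L := mul_le_mul_of_nonneg_right hCA hL0.le
    have a4 : |C| * L * 7 ≤ |C| * L * L :=
      mul_le_mul_of_nonneg_left h3 (mul_nonneg (abs_nonneg C) hL0.le)
    have a4' : |C| * L ^ 2 = |C| * L * L := by ring
    have a5 : L * 7 ≤ L * L := mul_le_mul_of_nonneg_left h3 hL0.le
    have a5' : L ^ 2 = L * L := by ring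
    have a6 : |C| * L ^ 2 + L ^ 2 ≤ 0.04 * N := by linarith
    have a7 : 0 ≤ |C| * L ^ 2 := by positivity
    have a8 : Real.log 2 * L ≤ 0.7 * L := mul_le_mul_of_nonneg_right (by linarith) hL0.le
    linarith
  have := nonneg_of_mul_nonneg_left hfin hL0
  linarith

/-- For every constant C and threshold K, only finitely many n satisfy: for all k with K ≤ k < n, the number of distinct prime factors of n−k is less than log k / log log k + C. -/
theorem result :
    ∀ C : ℝ, ∀ K : ℕ,
      Set.Finite {n : ℕ | ∀ k : ℕ, K ≤ k → k < n →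
        (((n - k).primeFactors.card : ℕ) : ℝ) <
          Real.log (k : ℝ) / Real.log (Real.log (k : ℝ)) + C} := by
  intro C K
  obtain ⟨N, ⟨hC, hkey⟩, hθK, hθ3⟩ := ((key C).and
    ((theta_tendsto.eventually
        (Filter.eventually_ge_atTop (Real.log ((max K 16 : ℕ) : ℝ)))).and
    (theta_tendsto.eventually (Filter.eventually_ge_atTop (3 : ℝ))))).exists
  set K' := max K 16 with hK'
  set M := primorial N with hM
  have hMpos : 0 < M := primorial_pos N
  have hθM : Chebyshev.theta (N : ℝ) = Real.log (M : ℝ) := by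
    rw [Chebyshev.theta_eq_log_primorial, Nat.floor_natCast]
  have hMR : (0 : ℝ) < M := by exact_mod_cast hMpos
  have hK16 : 16 ≤ K' := le_max_right _ _
  have hKM : K' ≤ M := by
    rw [hθM] at hθK
    have : ((K' : ℕ) : ℝ) ≤ (M : ℝ) := (Real.log_le_log_iff (by
      have : (0 : ℕ) < K' := by omega
      exact_mod_cast this) hMR).1 hθK
    exact_mod_cast this
  have hcard : M.primeFactors.card = Nat.primeCounting N := by
    rw [hM, primeFactors_primorial, Nat.primesLE_card_eq_primeCounting]
  refine (Set.finite_lt_nat (K' + M)).subset ?_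
  intro n hn
  by_contra hlt
  have hlt' : K' + M ≤ n := not_lt.1 hlt
  have hmod : (n - K') % M < M := Nat.mod_lt _ hMpos
  have hk1 : K ≤ K' + (n - K') % M := (le_max_left _ _).trans (Nat.le_add_right _ _)
  have hk2 : K' + (n - K') % M < n := by omega
  have hcon := hn (K' + (n - K') % M) hk1 hk2
  have hdvd : M ∣ n - (K' + (n - K') % M) := by
    have : n - (K' + (n - K') % M) = M * ((n - K') / M) := by
      have := Nat.div_add_mod (n - K') M
      omega
    rw [this]
    exact dvd_mul_right _ _
  have hsub := Nat.primeFactors_mono hdvd (by omega)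
  have hge : (Nat.primeCounting N : ℝ) ≤ (((n - (K' + (n - K') % M)).primeFactors.card : ℕ) : ℝ) := by
    rw [← hcard]
    exact_mod_cast Finset.card_le_card hsub
  set k := K' + (n - K') % M with hk
  have hk16 : (16 : ℝ) ≤ (k : ℝ) := by
    have : 16 ≤ k := by omega
    exact_mod_cast this
  have hkM : (k : ℝ) ≤ 2 * M := by
    have : k ≤ 2 * M := by omega
    exact_mod_cast this
  have hl2 := Real.log_two_gt_d9
  have hexp := Real.exp_one_lt_d9
  have hlogk : Real.exp 1 ≤ Real.log k := by
    have h16 : Real.log 16 = 4 * Real.log 2 := by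
      rw [show (16 : ℝ) = 2 ^ 4 by norm_num, Real.log_pow]; norm_num
    have := Real.log_le_log (by norm_num) hk16
    linarith
  have hlogU : Real.log k ≤ Chebyshev.theta N + Real.log 2 := by
    rw [hθM, ← Real.log_mul hMR.ne' (by norm_num)]
    refine Real.log_le_log (by linarith) (by linarith)
  set U := Chebyshev.theta (N : ℝ) + Real.log 2 with hU
  have hUe : Real.exp 1 ≤ U := hlogk.trans hlogU
  have hanti := Real.log_div_self_antitoneOn hlogk hUe hlogU
  simp only at hanti
  have he1 : (1 : ℝ) < Real.exp 1 := by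
    have := Real.add_one_lt_exp (show (1 : ℝ) ≠ 0 by norm_num)
    linarith
  have hlk : 0 < Real.log k := by linarith
  have hllk : 0 < Real.log (Real.log k) := Real.log_pos (by linarith)
  have hUpos : 0 < U := by linarith
  have hlU : 0 < Real.log U := Real.log_pos (by linarith)
  have hratio : Real.log k / Real.log (Real.log k) ≤ U / Real.log U := by
    rw [div_le_div_iff₀ hllk hlU]
    rw [div_le_div_iff₀ hUpos hlk] at hanti
    linarith
  have hθU : Real.log (Chebyshev.theta (N : ℝ)) ≤ Real.log U :=
    Real.log_le_log (by linarith) (by rw [hU]; linarith)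
  have hUr : U / Real.log U ≤ (Nat.primeCounting N : ℝ) - C := by
    rw [div_le_iff₀ hlU]
    refine hkey.trans ?_
    exact mul_le_mul_of_nonneg_left hθU (by linarith)
  linarith

end Pool.Agent.S12097
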