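import Pool.Statements.S12120

set_option autoImplicit false
open Pool Pool.MP_7fe555_nt

namespace Pool.Agent.S12120

/-- The least common multiple of three increasing numbers is large compared with their gaps. -/
lemma lcm_bound (x y z : ℕ) (hx : 0 < x) (hxy : x < y) (hyz : y < z) :
    x ^ 3 ≤ Nat.lcm (Nat.lcm x y) z * (z - x) ^ 3 := by
  have h1 : Nat.gcd x y * Nat.lcm x y = x * y := Nat.gcd_mul_lcm x y
  have h2 : Nat.gcd (Nat.lcm x y) z * Nat.lcm (Nat.lcm x y) z = Nat.lcm x y * z :=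
    Nat.gcd_mul_lcm _ _
  have h3 : Nat.gcd (Nat.lcm x y) z ∣ Nat.gcd z x * Nat.gcd z y := by
    have e1 : Nat.gcd (Nat.lcm x y) z ∣ Nat.gcd z (x * y) := by
      rw [Nat.gcd_comm z]
      exact Nat.gcd_dvd_gcd_of_dvd_left _ (Nat.lcm_dvd_mul x y)
    exact e1.trans (Nat.gcd_mul_right_dvd_mul_gcd z x y)
  have g1 : Nat.gcd x y ≤ z - x := by
    have : Nat.gcd x y ∣ y - x := Nat.dvd_sub (Nat.gcd_dvd_right _ _) (Nat.gcd_dvd_left _ _)
    have := Nat.le_of_dvd (by omega) this
    omega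
  have g2 : Nat.gcd z x ≤ z - x := by
    have : Nat.gcd z x ∣ z - x := Nat.dvd_sub (Nat.gcd_dvd_left _ _) (Nat.gcd_dvd_right _ _)
    exact Nat.le_of_dvd (by omega) this
  have g3 : Nat.gcd z y ≤ z - x := by
    have : Nat.gcd z y ∣ z - y := Nat.dvd_sub (Nat.gcd_dvd_left _ _) (Nat.gcd_dvd_right _ _)
    have := Nat.le_of_dvd (by omega) this
    omega
  have h4 : Nat.gcd (Nat.lcm x y) z ≤ (z - x) * (z - x) := by
    have hpos : 0 < Nat.gcd z x * Nat.gcd z y :=
      Nat.mul_pos (Nat.gcd_pos_of_pos_right _ hx) (Nat.gcd_pos_of_pos_left _ (by omega))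
    exact (Nat.le_of_dvd hpos h3).trans (Nat.mul_le_mul g2 g3)
  calc x ^ 3 = x * x * x := by ring
    _ ≤ x * y * z := Nat.mul_le_mul (Nat.mul_le_mul le_rfl hxy.le) (by omega)
    _ = Nat.gcd x y * (Nat.lcm x y * z) := by rw [← h1]; ring
    _ = Nat.gcd x y * (Nat.gcd (Nat.lcm x y) z * Nat.lcm (Nat.lcm x y) z) := by rw [h2]
    _ ≤ (z - x) * ((z - x) * (z - x) * Nat.lcm (Nat.lcm x y) z) :=
        Nat.mul_le_mul g1 (Nat.mul_le_mul h4 le_rfl)
    _ = Nat.lcm (Nat.lcm x y) z * (z - x) ^ 3 := by ring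

/-- A geometric sum. -/
lemma geom (t : ℝ) (ht : 0 < t) (J : ℕ) :
    (t < 2 ^ J → (∑ j ∈ Finset.range (J + 1), if t < 2 ^ j then ((1 : ℝ) / 2) ^ j else 0) +
      (1 / 2) ^ J ≤ 2 / t) ∧
    (2 ^ J ≤ t → (∑ j ∈ Finset.range (J + 1), if t < 2 ^ j then ((1 : ℝ) / 2) ^ j else 0) = 0) := by
  induction J with
  | zero =>
    constructor
    · intro h
      simp at h ⊢
      rw [if_pos h, le_div_iff₀ ht]
      linarith
    · intro h
      simp at h ⊢
      exact h
  | succ J ih =>
    have hp : (2 : ℝ) ^ (J + 1) = 2 * 2 ^ J := by ring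
    have hq : ((1 : ℝ) / 2) ^ (J + 1) = (1 / 2) ^ J / 2 := by ring
    have hpos : (0 : ℝ) < 2 ^ J := by positivity
    have hinv : ((1 : ℝ) / 2) ^ J * 2 ^ J = 1 := by
      rw [← mul_pow]; norm_num
    constructor
    · intro h
      rw [Finset.sum_range_succ, if_pos h]
      by_cases hJ : t < 2 ^ J
      · have := ih.1 hJ
        rw [hq]
        linarith
      · rw [ih.2 (not_lt.mp hJ), hq, le_div_iff₀ ht]
        have h2 : (0 : ℝ) < (1 / 2) ^ J := by positivity
        rw [hp] at h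
        nlinarith
    · intro h
      rw [Finset.sum_range_succ, if_neg (not_lt.mpr h), ih.2 (by rw [hp] at h; linarith), add_zero]

lemma geom' (t : ℝ) (ht : 0 < t) (J : ℕ) :
    (∑ j ∈ Finset.range (J + 1), if t < 2 ^ j then ((1 : ℝ) / 2) ^ j else 0) ≤ 2 / t := by
  by_cases h : t < 2 ^ J
  · have := (geom t ht J).1 h
    have h2 : (0 : ℝ) < (1 / 2) ^ J := by positivity
    linarith
  · rw [(geom t ht J).2 (not_lt.mp h)]
    positivity

/-- The reciprocal cube root of the least common multiple is bounded by a logarithmic gap. -/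
lemma inv_bound (x y z : ℕ) (hx : 0 < x) (hxy : x < y) (hyz : y < z) (t : ℝ) (ht1 : 1 ≤ t)
    (ht : t ^ 3 = (Nat.lcm (Nat.lcm x y) z : ℕ)) :
    1 / t ≤ 2 * (Real.log z - Real.log x) := by
  have hxR : (0 : ℝ) < x := by exact_mod_cast hx
  have hzx : (x : ℝ) < z := by exact_mod_cast hxy.trans hyz
  have hzR : (0 : ℝ) < z := hxR.trans hzx
  have h1 := lcm_bound x y z hx hxy hyz
  have h2 : (x : ℝ) ^ 3 ≤ t ^ 3 * (z - x) ^ 3 := by
    rw [ht]
    have h3 : (((z - x : ℕ) : ℝ)) = z - x := by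
      rw [Nat.cast_sub (by omega)]
    rw [← h3]
    exact_mod_cast h1
  have h3 : (x : ℝ) ≤ t * (z - x) := by
    rw [← mul_pow] at h2
    exact le_of_pow_le_pow_left₀ (by norm_num) (mul_nonneg (by linarith) (by linarith)) h2
  have htpos : 0 < t := by linarith
  have h4 : Real.log z - Real.log x = Real.log (z / x) := by
    rw [Real.log_div hzR.ne' hxR.ne']
  have h5 : 1 - ((z : ℝ) / x)⁻¹ ≤ Real.log (z / x) := Real.one_sub_inv_le_log_of_pos (by positivity)
  rw [h4]
  rw [inv_div] at h5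
  have h6 : 1 / t ≤ 2 * (1 - (x : ℝ) / z) := by
    rw [div_le_iff₀ htpos]
    have h7 : (1 : ℝ) - x / z = (z - x) / z := by field_simp
    rw [h7]
    have h8 : 2 * (((z : ℝ) - x) / z) * t = 2 * (t * (z - x)) / z := by ring
    rw [h8, le_div_iff₀ hzR]
    nlinarith [mul_le_mul_of_nonneg_right ht1 (show (0 : ℝ) ≤ z - x by linarith)]
  linarith

/-- The negation of the preceding statement: There is a strictly increasing sequence of positive integers and a constant c>0 such that, for all large x, the number of i with lcm of three consecutive terms a(i+1),a(i+2),a(i+3) below x exceeds c·x^(1/3)·ln x. -/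
theorem result :
    ¬ (∃ a : ℕ → ℕ, StrictMono a ∧ (∀ n, 0 < a n) ∧
      ∃ c : ℝ, 0 < c ∧ ∃ X : ℝ, ∀ x : ℝ, X ≤ x →
        c * x ^ ((1 : ℝ) / 3) * Real.log x <
          (({i : ℕ | ((Nat.lcm (Nat.lcm (a (i + 1)) (a (i + 2))) (a (i + 3)) : ℕ) : ℝ) < x}.ncard : ℕ) : ℝ)) := by
  rintro ⟨a, ha, hpos, c, hc, X, hX⟩
  set l : ℕ → ℕ := fun i => Nat.lcm (Nat.lcm (a (i + 1)) (a (i + 2))) (a (i + 3)) with hl
  have hlpos : ∀ i, 0 < l i := fun i =>
    Nat.lcm_pos (Nat.lcm_pos (hpos _) (hpos _)) (hpos _)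
  have ha3 : ∀ i, a (i + 3) ≤ l i := fun i => Nat.le_of_dvd (hlpos i) (Nat.dvd_lcm_right _ _)
  have hil : ∀ i, i < l i := by
    intro i
    have h1 : i + 3 ≤ a (i + 3) := ha.le_apply
    have := ha3 i
    omega
  -- cube roots
  set t : ℕ → ℝ := fun i => ((l i : ℕ) : ℝ) ^ ((1 : ℝ) / 3) with ht
  have ht3 : ∀ i, t i ^ 3 = (l i : ℕ) := by
    intro i
    rw [ht, ← Real.rpow_natCast, ← Real.rpow_mul (by positivity)]
    norm_num
  have ht1 : ∀ i, 1 ≤ t i := by
    intro i
    apply Real.one_le_rpow _ (by norm_num)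
    exact_mod_cast hlpos i
  have hlt : ∀ i j : ℕ, ((l i : ℕ) : ℝ) < 8 ^ j ↔ t i < 2 ^ j := by
    intro i j
    have h8 : (8 : ℝ) ^ j = (2 ^ j) ^ 3 := by
      rw [← pow_mul, mul_comm, pow_mul]
      norm_num
    rw [h8, ← ht3]
    exact pow_lt_pow_iff_left₀ (by linarith [ht1 i]) (by positivity) (by norm_num)
  obtain ⟨K, hK1, hK2, hK3⟩ : ∃ K : ℕ, 16 / c < K ∧ X ≤ 8 ^ K ∧ 1 ≤ K := by
    obtain ⟨K1, h1⟩ := exists_nat_gt (16 / c)
    obtain ⟨K2, h2⟩ := exists_nat_gt X
    refine ⟨max (max K1 K2) 1, ?_, ?_, le_max_right _ _⟩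
    · have : K1 ≤ max (max K1 K2) 1 := (le_max_left _ _).trans (le_max_left _ _)
      exact h1.trans_le (by exact_mod_cast this)
    · have h3 : K2 ≤ max (max K1 K2) 1 := (le_max_right _ _).trans (le_max_left _ _)
      have h4 : max (max K1 K2) 1 ≤ 8 ^ (max (max K1 K2) 1) := (Nat.lt_pow_self (by norm_num)).le
      have h5 : (K2 : ℝ) ≤ 8 ^ (max (max K1 K2) 1) := by exact_mod_cast h3.trans h4
      linarith
  set J := 2 * K with hJ
  set M := 8 ^ J with hM
  -- lower bound for each j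
  have hlow : ∀ j ∈ Finset.Ico K J, c * (j * Real.log 8) ≤
      ∑ i ∈ Finset.range M, if t i < 2 ^ j then ((1 : ℝ) / 2) ^ j else 0 := by
    intro j hj
    rw [Finset.mem_Ico] at hj
    have h1 := hX (8 ^ j) (hK2.trans (pow_le_pow_right₀ (by norm_num) hj.1))
    have h2 : ((8 : ℝ) ^ j) ^ ((1 : ℝ) / 3) = 2 ^ j := by
      rw [← Real.rpow_natCast 8 j, ← Real.rpow_mul (by norm_num), mul_comm, Real.rpow_mul (by norm_num),
        Real.rpow_natCast]
      congr 1
      rw [show (8 : ℝ) = 2 ^ (3 : ℝ) by norm_num, ← Real.rpow_mul (by norm_num)]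
      norm_num
    rw [h2, Real.log_pow] at h1
    have h3 : ({i : ℕ | ((l i : ℕ) : ℝ) < 8 ^ j}.ncard : ℕ) ≤
        ((Finset.range M).filter (fun i => t i < 2 ^ j)).card := by
      rw [← Set.ncard_coe_finset]
      apply Set.ncard_le_ncard _ (Finset.finite_toSet _)
      intro i hi
      have hi' : ((l i : ℕ) : ℝ) < 8 ^ j := hi
      rw [Finset.mem_coe, Finset.mem_filter, Finset.mem_range]
      refine ⟨?_, (hlt i j).mp hi'⟩
      have h4 : l i < 8 ^ j := by exact_mod_cast hi'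
      have h5 : 8 ^ j ≤ M := Nat.pow_le_pow_right (by norm_num) hj.2.le
      have := hil i
      omega
    have h4 : (({i : ℕ | ((l i : ℕ) : ℝ) < 8 ^ j}.ncard : ℕ) : ℝ) ≤
        ((Finset.range M).filter (fun i => t i < 2 ^ j)).card := by exact_mod_cast h3
    rw [← Finset.sum_filter, Finset.sum_const, nsmul_eq_mul]
    have h5 : c * 2 ^ j * (j * Real.log 8) <
        ((Finset.range M).filter (fun i => t i < 2 ^ j)).card := lt_of_lt_of_le h1 h4
    have h6 : ((1 : ℝ) / 2) ^ j * 2 ^ j = 1 := by rw [← mul_pow]; norm_num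
    have h7 : (0 : ℝ) < (1 / 2) ^ j := by positivity
    calc c * (j * Real.log 8) = (c * 2 ^ j * (j * Real.log 8)) * (1 / 2) ^ j := by
          linear_combination (-(c * (j * Real.log 8))) * h6
      _ ≤ _ := mul_le_mul_of_nonneg_right h5.le h7.le
  -- the truncated logarithms
  set g : ℕ → ℝ := fun i => min (Real.log (a (i + 1))) (Real.log (8 ^ J)) with hg
  have hgmono : ∀ i, g i ≤ g (i + 2) := by
    intro i
    apply min_le_min _ le_rfl
    apply Real.log_le_log (by exact_mod_cast hpos _)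
    exact_mod_cast (ha (show i + 1 < i + 2 + 1 by omega)).le
  have hup : ∀ i, ∑ j ∈ Finset.Ico K J, (if t i < 2 ^ j then ((1 : ℝ) / 2) ^ j else 0) ≤
      4 * (g (i + 2) - g i) := by
    intro i
    by_cases hi : ((l i : ℕ) : ℝ) < 8 ^ J
    · have h1 : ∑ j ∈ Finset.Ico K J, (if t i < 2 ^ j then ((1 : ℝ) / 2) ^ j else 0) ≤
          ∑ j ∈ Finset.range (J + 1), (if t i < 2 ^ j then ((1 : ℝ) / 2) ^ j else 0) := by
        apply Finset.sum_le_sum_of_subset_of_nonneg
        · intro j hj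
          rw [Finset.mem_Ico] at hj
          rw [Finset.mem_range]
          omega
        · intro j _ _
          split_ifs <;> positivity
      have h2 := geom' (t i) (by linarith [ht1 i]) J
      have h3 := inv_bound (a (i + 1)) (a (i + 2)) (a (i + 3)) (hpos _) (ha (by omega))
        (ha (by omega)) (t i) (ht1 i) (ht3 i)
      have h4 : (a (i + 3) : ℝ) ≤ 8 ^ J := by
        have : (a (i + 3) : ℝ) ≤ (l i : ℕ) := by exact_mod_cast ha3 i
        linarith
      have h5 : Real.log (a (i + 3)) ≤ Real.log (8 ^ J) :=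
        Real.log_le_log (by exact_mod_cast hpos _) h4
      have h6 : Real.log (a (i + 1)) ≤ Real.log (a (i + 3)) := by
        apply Real.log_le_log (by exact_mod_cast hpos _)
        exact_mod_cast (ha (show i + 1 < i + 3 by omega)).le
      have h7 : g (i + 2) = Real.log (a (i + 3)) := min_eq_left h5
      have h8 : g i = Real.log (a (i + 1)) := min_eq_left (h6.trans h5)
      rw [h7, h8]
      have h9 : 2 / t i = 2 * (1 / t i) := by ring
      rw [h9] at h2
      linarith
    · have h1 : ∑ j ∈ Finset.Ico K J, (if t i < 2 ^ j then ((1 : ℝ) / 2) ^ j else 0) = 0 := by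
        apply Finset.sum_eq_zero
        intro j hj
        rw [Finset.mem_Ico] at hj
        rw [if_neg]
        intro h
        apply hi
        rw [hlt]
        exact h.trans_le (pow_le_pow_right₀ (by norm_num) hj.2.le)
      rw [h1]
      have := hgmono i
      linarith
  have htel : ∀ n, ∑ i ∈ Finset.range n, (g (i + 2) - g i) = g (n + 1) + g n - g 1 - g 0 := by
    intro n
    induction n with
    | zero => simp
    | succ n ih => rw [Finset.sum_range_succ, ih]; ring
  have hlog8 : 0 < Real.log 8 := Real.log_pos (by norm_num)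
  have hJlog : Real.log (8 ^ J) = J * Real.log 8 := Real.log_pow 8 J
  have hg0 : ∀ i, 0 ≤ g i := by
    intro i
    apply le_min
    · apply Real.log_nonneg
      exact_mod_cast hpos _
    · rw [hJlog]
      positivity
  have hgJ : ∀ i, g i ≤ J * Real.log 8 := by
    intro i
    rw [← hJlog]
    exact min_le_right _ _
  have htot : ∑ j ∈ Finset.Ico K J, c * (j * Real.log 8) ≤ 8 * (J * Real.log 8) := by
    calc ∑ j ∈ Finset.Ico K J, c * (j * Real.log 8)
        ≤ ∑ j ∈ Finset.Ico K J, ∑ i ∈ Finset.range M,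
            (if t i < 2 ^ j then ((1 : ℝ) / 2) ^ j else 0) := Finset.sum_le_sum hlow
      _ = ∑ i ∈ Finset.range M, ∑ j ∈ Finset.Ico K J,
            (if t i < 2 ^ j then ((1 : ℝ) / 2) ^ j else 0) := Finset.sum_comm
      _ ≤ ∑ i ∈ Finset.range M, 4 * (g (i + 2) - g i) := Finset.sum_le_sum (fun i _ => hup i)
      _ = 4 * (g (M + 1) + g M - g 1 - g 0) := by rw [← Finset.mul_sum, htel]
      _ ≤ 8 * (J * Real.log 8) := by
        have := hgJ (M + 1)
        have := hgJ M
        have := hg0 1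
        have := hg0 0
        linarith
  have hbig : (K : ℝ) * (c * (K * Real.log 8)) ≤ ∑ j ∈ Finset.Ico K J, c * (j * Real.log 8) := by
    have h1 : ∑ j ∈ Finset.Ico K J, c * ((K : ℝ) * Real.log 8) ≤
        ∑ j ∈ Finset.Ico K J, c * (j * Real.log 8) := by
      apply Finset.sum_le_sum
      intro j hj
      rw [Finset.mem_Ico] at hj
      have : (K : ℝ) ≤ j := by exact_mod_cast hj.1
      apply mul_le_mul_of_nonneg_left _ hc.le
      exact mul_le_mul_of_nonneg_right this hlog8.le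
    rw [Finset.sum_const, nsmul_eq_mul, Nat.card_Ico] at h1
    have h2 : J - K = K := by omega
    rw [h2] at h1
    exact h1
  have hKpos : (0 : ℝ) < K := by exact_mod_cast hK3
  have hJK : (J : ℝ) = 2 * K := by rw [hJ]; push_cast; ring
  rw [hJK] at htot
  rw [div_lt_iff₀ hc] at hK1
  have h1 : (K : ℝ) * (c * (K * Real.log 8)) ≤ 8 * (2 * K * Real.log 8) := hbig.trans htot
  have h2 : 16 * (K * Real.log 8) < K * c * (K * Real.log 8) :=
    mul_lt_mul_of_pos_right hK1 (by positivity)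
  nlinarith

end Pool.Agent.S12120
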