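import Pool.Statements.S12186
import Pool.Agent.Helper8.ProdSum

set_option autoImplicit false
open Pool Pool.MP_87cb84_nt

namespace Pool.Agent.S12186

/-- The negation of the preceding statement: There is ε > 0 such that for all large n, the number of multisets of n positive integers whose product equals n times their sum exceeds n^ε. -/
theorem result :
    ¬ (∃ ε : ℝ, 0 < ε ∧ ∃ N : ℕ, ∀ n : ℕ, N ≤ n →
      (n : ℝ) ^ ε <
        (({s : Multiset ℕ | Multiset.card s = n ∧ (∀ x ∈ s, 0 < x) ∧
            s.prod = n * s.sum}.ncard : ℕ) : ℝ)) := by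
  exact Pool.Agent.Helper8.ProdSum.main

end Pool.Agent.S12186
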