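import Pool.Statements.S12365
import Pool.Agent.Helper8.IndE

set_option autoImplicit false
open Pool Pool.MP_9e9cd3_nt

namespace Pool.Agent.S12365

/-- For n>3, prime p≡1 mod 2^n, primitive root g with g^k=2: D_4(1)+2·Σ_{t=3}^{n-1}2^{t-2}Σ_j D_{2^t}(2j+1) ≡ 2(2^{n-2}+1)k mod 2^{n+1}, with D_e(j) the Jacobi-sum index-count differences. -/
theorem result :
  ∀ (n p : ℕ), 3 < n → p.Prime → p % 2 ^ n = 1 →
  ∀ (g : ZMod p), orderOf g = p - 1 →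
  ∀ (D : ℕ → ℕ → ℤ),
    (∀ e j : ℕ, D e j =
      (Set.ncard {x : ZMod p | x ≠ 0 ∧ x ≠ 1 ∧
          ∃ a b : ℕ, g ^ a = x ∧ g ^ b = 1 - x ∧
            (a + e / 2 * b) % e = j % e} : ℤ)
      - (Set.ncard {x : ZMod p | x ≠ 0 ∧ x ≠ 1 ∧
          ∃ a b : ℕ, g ^ a = x ∧ g ^ b = 1 - x ∧
            (a + e / 2 * b) % e = (j + e / 2) % e} : ℤ)) →
  ∀ k : ℕ, g ^ k = 2 →
  (2 ^ (n + 1) : ℤ) ∣ D 4 1
      + 2 * ∑ t ∈ Finset.Ico 3 n, (2 : ℤ) ^ (t - 2) *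
          ∑ j ∈ Finset.range (2 ^ (t - 3)), D (2 ^ t) (2 * j + 1)
      - 2 * ((2 : ℤ) ^ (n - 2) + 1) * (k : ℤ) := by
  intro n p hn hp hmod g hg D hD k hk
  haveI : Fact p.Prime := ⟨hp⟩
  obtain ⟨s, rfl⟩ : ∃ s, n = s + 3 := ⟨n - 3, by omega⟩
  have hdm := Nat.div_add_mod p (2 ^ (s + 3))
  rw [hmod] at hdm
  have h8 : 2 ^ (s + 3) = 8 * 2 ^ s := by rw [pow_add]; ring
  have hM : p - 1 = 8 * 2 ^ s * (p / 2 ^ (s + 3)) := by
    rw [← h8]; omega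
  have hM0 : 0 < p / 2 ^ (s + 3) := by
    rcases Nat.eq_zero_or_pos (p / 2 ^ (s + 3)) with h | h
    · rw [h] at hdm
      have := hp.one_lt
      omega
    · exact h
  have hK : 0 < 2 ^ s := by positivity
  have hp1 : 1 < p - 1 := by
    rw [hM]
    have : 0 < 2 ^ s * (p / 2 ^ (s + 3)) := Nat.mul_pos hK hM0
    have e : 8 * 2 ^ s * (p / 2 ^ (s + 3)) = 8 * (2 ^ s * (p / 2 ^ (s + 3))) := by ring
    omega
  obtain ⟨I, H⟩ := Pool.Agent.Helper8.IndA.exists_Ix g hg hp1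
  exact Pool.Agent.Helper8.IndA.final H s k (p / 2 ^ (s + 3)) (by omega) hM0 hM D hD hk

end Pool.Agent.S12365
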