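import Pool.Statements.S13285

set_option autoImplicit false
open MeasureTheory ProbabilityTheory
open scoped NNReal ENNReal
open Pool Pool.MP_429aeb_pr

namespace Pool.Agent.S13285

/-! ### measure theoretic part -/

lemma pi_section_le {E : Type} [MeasurableSpace E] {k : ℕ} (μ : Measure E) [IsProbabilityMeasure μ]
    (r : Fin (k + 1)) (S : Set (Fin (k + 1) → E)) (hS : MeasurableSet S) (ε : ℝ≥0∞)
    (h : ∀ z : Fin k → E, μ {a | (r.insertNth a z : Fin (k + 1) → E) ∈ S} ≤ ε) :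
    Measure.pi (fun _ : Fin (k + 1) => μ) S ≤ ε := by
  have hp := (measurePreserving_piFinSuccAbove (fun _ : Fin (k + 1) => μ) r).symm
  rw [← hp.measure_preimage hS.nullMeasurableSet]
  rw [Measure.prod_apply_symm (hp.measurable hS)]
  calc _ ≤ ∫⁻ _ : Fin k → E, ε ∂(Measure.pi fun _ : Fin k => μ) := lintegral_mono (fun z => h z)
    _ = ε := by simp

lemma gauss1 (σ : ℝ≥0) (hσ : 0 < σ) (b c η : ℝ) (hb : b ≠ 0) :
    gaussianReal 0 (σ ^ 2) {g | |b * g + c| ≤ η} ≤ ENNReal.ofReal (η / (|b| * σ)) := by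
  have hbp : 0 < |b| := abs_pos.mpr hb
  have hσp : (0 : ℝ) < σ := hσ
  have hsub : {g : ℝ | |b * g + c| ≤ η} ⊆ Set.Icc (-c / b - η / |b|) (-c / b + η / |b|) := by
    intro g hg
    have h1 : |g - (-c / b)| ≤ η / |b| := by
      rw [le_div_iff₀ hbp, ← abs_mul]
      have : (g - -c / b) * b = b * g + c := by field_simp; ring
      rw [this]
      exact hg
    have h2 := abs_le.mp h1
    exact ⟨by linarith [h2.1], by linarith [h2.2]⟩
  refine (measure_mono hsub).trans ?_
  rw [gaussianReal_apply 0 (by positivity)]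
  have hle : ∀ x ∈ Set.Icc (-c / b - η / |b|) (-c / b + η / |b|),
      gaussianPDF 0 (σ ^ 2) x ≤ ENNReal.ofReal (1 / (2 * σ)) := by
    intro x _
    unfold gaussianPDF
    apply ENNReal.ofReal_le_ofReal
    unfold gaussianPDFReal
    have h1 : 2 * (σ : ℝ) ≤ Real.sqrt (2 * Real.pi * (σ ^ 2 : ℝ≥0)) := by
      apply Real.le_sqrt_of_sq_le
      push_cast
      nlinarith [Real.pi_gt_three, sq_nonneg (σ : ℝ)]
    have h2 : Real.exp (-(x - 0) ^ 2 / (2 * (σ ^ 2 : ℝ≥0))) ≤ 1 := by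
      apply Real.exp_le_one_iff.mpr
      apply div_nonpos_of_nonpos_of_nonneg
      · linarith [sq_nonneg (x - 0)]
      · positivity
    calc (Real.sqrt (2 * Real.pi * (σ ^ 2 : ℝ≥0)))⁻¹ *
          Real.exp (-(x - 0) ^ 2 / (2 * (σ ^ 2 : ℝ≥0)))
        ≤ (2 * (σ : ℝ))⁻¹ * 1 := by
          apply mul_le_mul _ h2 (Real.exp_pos _).le (by positivity)
          exact inv_anti₀ (by positivity) h1
      _ = 1 / (2 * σ) := by rw [mul_one, one_div]
  calc _ ≤ ∫⁻ _ in Set.Icc (-c / b - η / |b|) (-c / b + η / |b|), ENNReal.ofReal (1 / (2 * σ)) :=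
        setLIntegral_mono' measurableSet_Icc hle
    _ = ENNReal.ofReal (η / (|b| * σ)) := by
        rw [setLIntegral_const, Real.volume_Icc, ← ENNReal.ofReal_mul (by positivity)]
        congr 1
        field_simp
        ring

lemma exists_large {k : ℕ} (b : Fin (k + 1) → ℝ) (hb : ∑ j, b j ^ 2 = 1) :
    ∃ j, 1 ≤ ((k : ℝ) + 1) * b j ^ 2 := by
  by_contra hcon
  push Not at hcon
  have h1 : ∑ j : Fin (k + 1), ((k : ℝ) + 1) * b j ^ 2 < ∑ j : Fin (k + 1), (1 : ℝ) :=
    Finset.sum_lt_sum_of_nonempty Finset.univ_nonempty (fun j _ => hcon j)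
  rw [← Finset.mul_sum, hb] at h1
  simp at h1

lemma gaussn (n : ℕ) (σ : ℝ≥0) (hσ : 0 < σ) (b : Fin n → ℝ) (hb : ∑ j, b j ^ 2 = 1) (c η : ℝ)
    (hη : 0 ≤ η) :
    Measure.pi (fun _ : Fin n => gaussianReal 0 (σ ^ 2)) {g | |∑ j, b j * g j + c| ≤ η} ≤
      ENNReal.ofReal (η * n / σ) := by
  have hσp : (0 : ℝ) < σ := hσ
  rcases n with _ | k
  · simp at hb
  obtain ⟨j, hj⟩ := exists_large b hb
  apply pi_section_le _ j
  · apply measurableSet_le _ measurable_const
    fun_prop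
  · intro z
    have hbj : b j ≠ 0 := by
      rintro h
      rw [h] at hj
      norm_num at hj
    have hset : {a : ℝ | (j.insertNth a z : Fin (k + 1) → ℝ) ∈ {g : Fin (k + 1) → ℝ | |∑ j, b j * g j + c| ≤ η}} =
        {a | |b j * a + (∑ i, b (j.succAbove i) * z i + c)| ≤ η} := by
      ext a
      simp only [Set.mem_ofPred_eq]
      rw [Fin.sum_univ_succAbove _ j]
      simp only [Fin.insertNth_apply_same, Fin.insertNth_apply_succAbove]
      rw [add_assoc]
    rw [hset]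
    refine (gauss1 σ hσ (b j) _ η hbj).trans ?_
    apply ENNReal.ofReal_le_ofReal
    have hbp : 0 < |b j| := abs_pos.mpr hbj
    have h1 : 1 ≤ ((k : ℝ) + 1) * |b j| := by
      have hk : (1 : ℝ) ≤ (k : ℝ) + 1 := by linarith [(Nat.cast_nonneg k : (0 : ℝ) ≤ k)]
      by_contra hcon
      push Not at hcon
      have h2 : ((k : ℝ) + 1) * b j ^ 2 ≤ (((k : ℝ) + 1) * |b j|) ^ 2 := by
        rw [mul_pow, sq_abs]
        nlinarith [sq_nonneg (b j)]
      have h3 : (((k : ℝ) + 1) * |b j|) ^ 2 < 1 := by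
        have : 0 ≤ ((k : ℝ) + 1) * |b j| := by positivity
        nlinarith
      linarith
    rw [div_le_div_iff₀ (by positivity) hσp]
    push_cast
    have : η * σ * 1 ≤ η * σ * (((k : ℝ) + 1) * |b j|) :=
      mul_le_mul_of_nonneg_left h1 (by positivity)
    linarith

lemma gauss_tail (σ : ℝ≥0) (hσ1 : σ ≤ 1) (y : ℝ) (hy : 0 < y) :
    gaussianReal 0 (σ ^ 2) {g | y < |g|} ≤ ENNReal.ofReal (1 / y ^ 2) := by
  have h := meas_ge_le_variance_div_sq (μ := gaussianReal 0 (σ ^ 2)) (X := id)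
    (by exact memLp_id_gaussianReal 2) hy
  rw [variance_id_gaussianReal] at h
  simp only [id, integral_id_gaussianReal, sub_zero] at h
  refine (measure_mono ?_).trans (h.trans ?_)
  · intro g (hg : y < |g|)
    exact (le_of_lt hg : y ≤ |g|)
  · apply ENNReal.ofReal_le_ofReal
    apply div_le_div_of_nonneg_right _ (by positivity)
    have : (σ : ℝ) ≤ 1 := hσ1
    push_cast
    nlinarith [σ.2]

/-! ### linear algebra -/

/-- the transpose of `A` applied to `v` -/
def tv {m n : ℕ} (A : Fin m → Fin n → ℝ) (v : Fin m → ℝ) (j : Fin n) : ℝ := ∑ k, A k j * v k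

/-- Gram matrix -/
noncomputable def Nm {m n : ℕ} (R : Fin m → Fin n → ℝ) : Matrix (Fin m) (Fin m) ℝ :=
  Matrix.of R * (Matrix.of R).conjTranspose

lemma Nm_herm {m n : ℕ} (R : Fin m → Fin n → ℝ) : (Nm R).IsHermitian :=
  Matrix.isHermitian_mul_conjTranspose_self _

lemma Nm_mulVec {m n : ℕ} (R : Fin m → Fin n → ℝ) (v : Fin m → ℝ) (i : Fin m) :
    (Nm R).mulVec v i = ∑ j, R i j * tv R v j := by
  simp only [Nm, Matrix.mulVec, dotProduct, Matrix.mul_apply, Matrix.conjTranspose_apply,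
    Matrix.of_apply, star_trivial, tv, Finset.mul_sum, Finset.sum_mul]
  rw [Finset.sum_comm]
  refine Finset.sum_congr rfl fun j _ => Finset.sum_congr rfl fun k _ => by ring

/-- the eigenbasis of the Gram matrix -/
noncomputable def ev {m n : ℕ} (R : Fin m → Fin n → ℝ) (l : Fin m) (i : Fin m) : ℝ :=
  (Nm_herm R).eigenvectorBasis l i

noncomputable def nu {m n : ℕ} (R : Fin m → Fin n → ℝ) (l : Fin m) : ℝ :=
  (Nm_herm R).eigenvalues l

lemma ev_eig {m n : ℕ} (R : Fin m → Fin n → ℝ) (l i : Fin m) :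
    ∑ j, R i j * tv R (ev R l) j = nu R l * ev R l i := by
  rw [← Nm_mulVec]
  have := (Nm_herm R).mulVec_eigenvectorBasis l
  exact congrFun this i

lemma ev_norm {m n : ℕ} (R : Fin m → Fin n → ℝ) (l : Fin m) : ∑ i, ev R l i ^ 2 = 1 := by
  have h := (Nm_herm R).eigenvectorBasis.norm_eq_one l
  rw [EuclideanSpace.norm_eq, Real.sqrt_eq_one] at h
  simpa [ev] using h

lemma ev_parseval {m n : ℕ} (R : Fin m → Fin n → ℝ) (z : Fin m → ℝ) :
    ∑ l, (∑ i, ev R l i * z i) ^ 2 = ∑ i, z i ^ 2 := by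
  have h := (Nm_herm R).eigenvectorBasis.sum_sq_norm_inner_right (WithLp.toLp 2 z)
  rw [EuclideanSpace.norm_sq_eq] at h
  simp only [Real.norm_eq_abs, sq_abs] at h
  rw [← h]
  refine Finset.sum_congr rfl fun l _ => ?_
  congr 1
  rw [PiLp.inner_apply]
  refine Finset.sum_congr rfl fun i _ => ?_
  simp [ev, mul_comm]

/-- symmetry: `∑ i, u i * (N z) i = ∑ j, (Rᵀ u) j * (Rᵀ z) j` -/
lemma bil {m n : ℕ} (R : Fin m → Fin n → ℝ) (u z : Fin m → ℝ) :
    ∑ i, u i * ∑ j, R i j * tv R z j = ∑ j, tv R u j * tv R z j := by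
  simp only [Finset.mul_sum]
  rw [Finset.sum_comm]
  refine Finset.sum_congr rfl fun j _ => ?_
  simp only [tv]
  rw [Finset.sum_mul]
  refine Finset.sum_congr rfl fun i _ => by ring

lemma ev_coef {m n : ℕ} (R : Fin m → Fin n → ℝ) (l : Fin m) (z : Fin m → ℝ) :
    ∑ i, ev R l i * ∑ j, R i j * tv R z j = nu R l * ∑ i, ev R l i * z i := by
  rw [bil]
  have h := bil R z (ev R l)
  have h2 : ∑ j, tv R (ev R l) j * tv R z j = ∑ j, tv R z j * tv R (ev R l) j :=
    Finset.sum_congr rfl fun j _ => mul_comm _ _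
  rw [h2, ← h, Finset.mul_sum]
  refine Finset.sum_congr rfl fun i _ => ?_
  rw [ev_eig]
  ring

/-- the finitely many test vectors attached to the rows `R` -/
noncomputable def bvec {m n : ℕ} (R : Fin m → Fin n → ℝ) : Option (Fin m) → Fin n → ℝ
  | some l => fun j => tv R (ev R l) j / Real.sqrt (nu R l)
  | none => by
    classical
    exact if h : ∃ b : Fin n → ℝ, ∑ j, b j ^ 2 = 1 ∧ ∀ i, ∑ j, b j * R i j = 0 then h.choose
      else 0

lemma bvec_none {m n : ℕ} (hmn : m < n) (R : Fin m → Fin n → ℝ) :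
    ∑ j, bvec R none j ^ 2 = 1 ∧ ∀ i, ∑ j, bvec R none j * R i j = 0 := by
  classical
  have h : ∃ b : Fin n → ℝ, ∑ j, b j ^ 2 = 1 ∧ ∀ i, ∑ j, b j * R i j = 0 := by
    have hker : LinearMap.ker (Matrix.mulVecLin (Matrix.of R)) ≠ ⊥ := by
      apply LinearMap.ker_ne_bot_of_finrank_lt
      simpa using hmn
    obtain ⟨b, hb, hb0⟩ := (Submodule.ne_bot_iff _).mp hker
    have hpos : 0 < ∑ j, b j ^ 2 := by
      by_contra hcon
      apply hb0
      have h0 : ∑ j, b j ^ 2 = 0 :=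
        le_antisymm (not_lt.mp hcon) (Finset.sum_nonneg fun j _ => sq_nonneg _)
      have h1 := (Finset.sum_eq_zero_iff_of_nonneg fun j _ => sq_nonneg (b j)).mp h0
      ext j
      exact pow_eq_zero_iff (two_ne_zero) |>.mp (h1 j (Finset.mem_univ j))
    refine ⟨fun j => b j / Real.sqrt (∑ j, b j ^ 2), ?_, ?_⟩
    · simp only [div_pow, Real.sq_sqrt hpos.le]
      rw [← Finset.sum_div, div_self hpos.ne']
    · intro i
      have hbi : ∑ j, R i j * b j = 0 := congrFun hb i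
      have : ∑ j, b j / Real.sqrt (∑ j, b j ^ 2) * R i j =
          (∑ j, R i j * b j) / Real.sqrt (∑ j, b j ^ 2) := by
        rw [Finset.sum_div]
        refine Finset.sum_congr rfl fun j _ => by ring
      rw [this, hbi, zero_div]
  have he : bvec R none = h.choose := by
    simp only [bvec]
    rw [dif_pos h]
  rw [he]
  exact h.choose_spec

lemma tv_succAbove {m n : ℕ} (A : Fin (m + 1) → Fin n → ℝ) (r : Fin (m + 1)) (v : Fin (m + 1) → ℝ)
    (j : Fin n) : tv A v j = A r j * v r +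
      tv (fun i => A (r.succAbove i)) (fun i => v (r.succAbove i)) j := by
  simp only [tv]
  rw [Fin.sum_univ_succAbove _ r]

lemma cs {k : ℕ} (a b : Fin k → ℝ) : (∑ i, a i * b i) ^ 2 ≤ (∑ i, a i ^ 2) * ∑ i, b i ^ 2 :=
  Finset.sum_mul_sq_le_sq_mul_sq _ _ _

/-- an eigenvalue of the minor between the two given eigenvalues -/
lemma interlace {m n : ℕ} (A : Fin (m + 1) → Fin n → ℝ) (r : Fin (m + 1)) (v w : Fin (m + 1) → ℝ)
    (α β : ℝ) (hαβ : β ≤ α) (hv : ∑ i, v i ^ 2 = 1) (hw : ∑ i, w i ^ 2 = 1)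
    (hvw : ∑ i, v i * w i = 0)
    (ev1 : ∀ i, ∑ j, A i j * tv A v j = α * v i) (ew : ∀ i, ∑ j, A i j * tv A w j = β * w i)
    (hr : v r ≠ 0) :
    ∃ l, β ≤ nu (fun i => A (r.succAbove i)) l ∧ nu (fun i => A (r.succAbove i)) l ≤ α := by
  set R : Fin m → Fin n → ℝ := fun i => A (r.succAbove i) with hR
  set c : ℝ := (α + β) / 2 with hc
  set d : ℝ := (α - β) / 2 with hd
  let z : Fin (m + 1) → ℝ := fun i => v r * w i - w r * v i
  let z' : Fin m → ℝ := fun i => z (r.succAbove i)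
  have hzr : z r = 0 := by simp only [z]; ring
  have htz : ∀ j, tv A z j = tv R z' j := by
    intro j
    rw [tv_succAbove A r, hzr, mul_zero, zero_add]
  have hlin : ∀ j, tv A z j = v r * tv A w j - w r * tv A v j := by
    intro j
    simp only [tv, z, Finset.mul_sum]
    rw [← Finset.sum_sub_distrib]
    refine Finset.sum_congr rfl fun k _ => by ring
  have hMz : ∀ i, ∑ j, A i j * tv A z j - c * z i = - d * (v r * w i + w r * v i) := by
    intro i
    have h1 : ∑ j, A i j * tv A z j = v r * (β * w i) - w r * (α * v i) := by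
      rw [← ew i, ← ev1 i, Finset.mul_sum, Finset.mul_sum, ← Finset.sum_sub_distrib]
      refine Finset.sum_congr rfl fun j _ => ?_
      rw [hlin]; ring
    rw [h1]
    simp only [z, hc, hd]
    ring
  have hznorm : ∑ i, z i ^ 2 = v r ^ 2 + w r ^ 2 := by
    have : ∑ i, z i ^ 2 = v r ^ 2 * ∑ i, w i ^ 2 + w r ^ 2 * ∑ i, v i ^ 2 -
        2 * v r * w r * ∑ i, v i * w i := by
      simp only [z, Finset.mul_sum]
      rw [← Finset.sum_add_distrib, ← Finset.sum_sub_distrib]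
      refine Finset.sum_congr rfl fun i _ => by ring
    rw [this, hv, hw, hvw]; ring
  have hz'norm : ∑ i, z' i ^ 2 = v r ^ 2 + w r ^ 2 := by
    rw [← hznorm, Fin.sum_univ_succAbove _ r, hzr]
    simp [z']
  have hDnorm : ∑ i, (∑ j, A i j * tv A z j - c * z i) ^ 2 = d ^ 2 * (v r ^ 2 + w r ^ 2) := by
    have : ∑ i, (∑ j, A i j * tv A z j - c * z i) ^ 2 =
        d ^ 2 * (v r ^ 2 * ∑ i, w i ^ 2 + w r ^ 2 * ∑ i, v i ^ 2 +
        2 * v r * w r * ∑ i, v i * w i) := by
      simp only [hMz, Finset.mul_sum]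
      rw [← Finset.sum_add_distrib, ← Finset.sum_add_distrib, Finset.mul_sum]
      refine Finset.sum_congr rfl fun i _ => by ring
    rw [this, hv, hw, hvw]; ring
  have hD'norm : ∑ i, (∑ j, R i j * tv R z' j - c * z' i) ^ 2 ≤ d ^ 2 * (v r ^ 2 + w r ^ 2) := by
    rw [← hDnorm, Fin.sum_univ_succAbove _ r]
    have : ∀ i, (∑ j, R i j * tv R z' j - c * z' i) ^ 2 =
        (∑ j, A (r.succAbove i) j * tv A z j - c * z (r.succAbove i)) ^ 2 := by
      intro i
      simp only [htz, hR, z']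
    simp only [this]
    linarith [sq_nonneg (∑ j, A r j * tv A z j - c * z r)]
  by_contra hcon
  push Not at hcon
  have hbig : ∀ l, d ^ 2 < (nu R l - c) ^ 2 := by
    intro l
    have hd0 : 0 ≤ d := by rw [hd]; linarith
    rcases lt_or_ge (nu R l) β with h | h
    · have : d < c - nu R l := by rw [hd, hc]; linarith
      nlinarith
    · have h2 := hcon l h
      have : d < nu R l - c := by rw [hd, hc]; linarith
      nlinarith
  have hcoef : ∀ l, ∑ i, ev R l i * (∑ j, R i j * tv R z' j - c * z' i) =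
      (nu R l - c) * ∑ i, ev R l i * z' i := by
    intro l
    have h1 := ev_coef R l z'
    rw [sub_mul, ← h1, Finset.mul_sum, ← Finset.sum_sub_distrib]
    refine Finset.sum_congr rfl fun i _ => by ring
  have hp1 := ev_parseval R (fun i => ∑ j, R i j * tv R z' j - c * z' i)
  have hp2 := ev_parseval R z'
  rw [← hp1] at hD'norm
  simp only [hcoef, mul_pow] at hD'norm
  rw [← hz'norm, ← hp2, Finset.mul_sum] at hD'norm
  have hpos : 0 < v r ^ 2 + w r ^ 2 := by positivity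
  have hne : ∃ l, (∑ i, ev R l i * z' i) ^ 2 ≠ 0 := by
    by_contra hall
    push Not at hall
    rw [← hz'norm, ← hp2] at hpos
    rw [Finset.sum_eq_zero (fun l _ => hall l)] at hpos
    exact lt_irrefl _ hpos
  obtain ⟨l0, hl0⟩ := hne
  have hlt : ∑ l, d ^ 2 * (∑ i, ev R l i * z' i) ^ 2 <
      ∑ l, (nu R l - c) ^ 2 * (∑ i, ev R l i * z' i) ^ 2 := by
    apply Finset.sum_lt_sum
    · intro l _
      exact mul_le_mul_of_nonneg_right (hbig l).le (sq_nonneg _)
    · exact ⟨l0, Finset.mem_univ _, mul_lt_mul_of_pos_right (hbig l0)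
        (lt_of_le_of_ne (sq_nonneg _) (Ne.symm hl0))⟩
  linarith

/-- the deterministic statement -/
lemma det {m n : ℕ} (hmn : m < n) (A : Fin (m + 1) → Fin n → ℝ) (r : Fin (m + 1))
    (v w : Fin (m + 1) → ℝ) (s t x T : ℝ) (hx : 1 < x) (hT0 : 0 ≤ T)
    (ht0 : 0 ≤ t) (hts : t ≤ s) (hst : s - t ≤ t / x)
    (hv : ∑ i, v i ^ 2 = 1) (hw : ∑ i, w i ^ 2 = 1)
    (hvw : ∑ i, v i * w i = 0)
    (ev1 : ∀ i, ∑ j, A i j * tv A v j = s ^ 2 * v i)
    (ew : ∀ i, ∑ j, A i j * tv A w j = t ^ 2 * w i)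
    (hr : 1 ≤ ((m : ℝ) + 1) * v r ^ 2) (hT : ∀ i j, |A i j| ≤ T) :
    ∃ o, ∑ j, bvec (fun i => A (r.succAbove i)) o j ^ 2 = 1 ∧
      |∑ j, bvec (fun i => A (r.succAbove i)) o j * A r j| ≤ 3 * n ^ 2 * T / x := by
  set R : Fin m → Fin n → ℝ := fun i => A (r.succAbove i) with hR
  have hvr : v r ≠ 0 := by
    intro h
    rw [h] at hr
    norm_num at hr
  have hx0 : 0 < x := by linarith
  have hmn' : ((m : ℝ) + 1) ≤ n := by exact_mod_cast hmn
  have hn1 : (1 : ℝ) ≤ n := by linarith [(Nat.cast_nonneg m : (0 : ℝ) ≤ m)]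
  have hm0 : (0 : ℝ) ≤ m := Nat.cast_nonneg m
  rcases eq_or_lt_of_le ht0 with ht | ht
  · -- degenerate case
    subst ht
    have hs : s = 0 := by
      rw [zero_div] at hst
      linarith
    obtain ⟨hb1, hb2⟩ := bvec_none hmn R
    refine ⟨none, hb1, ?_⟩
    have h0 : ∑ j, tv A v j * tv A v j = 0 := by
      rw [← bil]
      have : ∀ i, v i * ∑ j, A i j * tv A v j = 0 := by
        intro i
        rw [ev1, hs]
        ring
      simp only [this, Finset.sum_const_zero]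
    have h1 : ∀ j, tv A v j = 0 := by
      intro j
      have := (Finset.sum_eq_zero_iff_of_nonneg fun j _ => mul_self_nonneg (tv A v j)).mp h0 j
        (Finset.mem_univ j)
      exact mul_self_eq_zero.mp this
    have h2 : v r * ∑ j, bvec R none j * A r j = 0 := by
      have h3 : ∀ j, v r * A r j = - ∑ i, R i j * v (r.succAbove i) := by
        intro j
        have := h1 j
        rw [tv_succAbove A r] at this
        simp only [tv] at this
        linarith
      rw [Finset.mul_sum]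
      calc ∑ j, v r * (bvec R none j * A r j) = ∑ j, bvec R none j * (v r * A r j) :=
            Finset.sum_congr rfl fun j _ => by ring
        _ = - ∑ j, ∑ i, v (r.succAbove i) * (bvec R none j * R i j) := by
            rw [← Finset.sum_neg_distrib]
            refine Finset.sum_congr rfl fun j _ => ?_
            rw [h3, mul_neg, Finset.mul_sum]
            congr 1
            refine Finset.sum_congr rfl fun i _ => by ring
        _ = 0 := by
            rw [Finset.sum_comm]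
            simp only [← Finset.mul_sum, hb2, mul_zero, Finset.sum_const_zero, neg_zero]
    have h3 : ∑ j, bvec R none j * A r j = 0 := by
      rcases mul_eq_zero.mp h2 with h | h
      · exact absurd h hvr
      · exact h
    rw [h3, abs_zero]
    positivity
  · -- main case
    have hst2 : t ^ 2 ≤ s ^ 2 := pow_le_pow_left₀ ht0 hts 2
    obtain ⟨l, hl1, hl2⟩ := interlace A r v w (s ^ 2) (t ^ 2) hst2 hv hw hvw ev1 ew hvr
    rw [← hR] at hl1 hl2
    have hnu : 0 < nu R l := lt_of_lt_of_le (by positivity) hl1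
    have hunit : ∑ j, bvec R (some l) j ^ 2 = 1 := by
      simp only [bvec, div_pow, Real.sq_sqrt hnu.le]
      rw [← Finset.sum_div]
      have h1 := bil R (ev R l) (ev R l)
      have h2 : ∑ j, tv R (ev R l) j ^ 2 = nu R l := by
        simp only [pow_two]
        rw [← h1]
        have : ∀ i, ev R l i * ∑ j, R i j * tv R (ev R l) j = nu R l * ev R l i ^ 2 := by
          intro i
          rw [ev_eig]; ring
        simp only [this]
        rw [← Finset.mul_sum, ev_norm, mul_one]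
      rw [h2, div_self hnu.ne']
    refine ⟨some l, hunit, ?_⟩
    let v' : Fin m → ℝ := fun i => v (r.succAbove i)
    set p : ℝ := ∑ i, ev R l i * v' i with hp
    have hp1 : p ^ 2 ≤ 1 := by
      have h1 := cs (ev R l) v'
      rw [ev_norm, one_mul] at h1
      have h2 : ∑ i, v' i ^ 2 ≤ 1 := by
        rw [← hv, Fin.sum_univ_succAbove _ r]
        linarith [sq_nonneg (v r)]
      exact h1.trans h2
    have hkey : v r * ∑ j, tv R (ev R l) j * A r j = (s ^ 2 - nu R l) * p := by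
      have h1 : ∑ i, ev R l i * (∑ j, R i j * tv A v j) = s ^ 2 * p := by
        rw [hp, Finset.mul_sum]
        refine Finset.sum_congr rfl fun i _ => ?_
        have := ev1 (r.succAbove i)
        simp only [hR]
        rw [this]
        ring
      have h2 : ∀ i, ∑ j, R i j * tv A v j = v r * (∑ j, R i j * A r j) +
          ∑ j, R i j * tv R v' j := by
        intro i
        rw [Finset.mul_sum, ← Finset.sum_add_distrib]
        refine Finset.sum_congr rfl fun j _ => ?_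
        rw [tv_succAbove A r]
        ring
      have h3 := ev_coef R l v'
      have h4 : ∑ i, ev R l i * (∑ j, R i j * A r j) = ∑ j, tv R (ev R l) j * A r j := by
        simp only [Finset.mul_sum, tv, Finset.sum_mul]
        rw [Finset.sum_comm]
        refine Finset.sum_congr rfl fun j _ => Finset.sum_congr rfl fun i _ => by ring
      have h5 : ∑ i, ev R l i * (∑ j, R i j * tv A v j) =
          v r * (∑ i, ev R l i * (∑ j, R i j * A r j)) +
          ∑ i, ev R l i * ∑ j, R i j * tv R v' j := by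
        rw [Finset.mul_sum, ← Finset.sum_add_distrib]
        refine Finset.sum_congr rfl fun i _ => ?_
        rw [h2]; ring
      rw [h4, h3, h1] at h5
      linarith
    have hsum : ∑ j, bvec R (some l) j * A r j =
        (∑ j, tv R (ev R l) j * A r j) / Real.sqrt (nu R l) := by
      simp only [bvec]
      rw [Finset.sum_div]
      refine Finset.sum_congr rfl fun j _ => by ring
    have htb : t ^ 2 ≤ n ^ 2 * T ^ 2 := by
      have h1 : t ^ 2 = ∑ j, tv A w j ^ 2 := by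
        simp only [pow_two (tv A w _)]
        rw [← bil]
        have : ∀ i, w i * ∑ j, A i j * tv A w j = t ^ 2 * w i ^ 2 := by
          intro i
          rw [ew]; ring
        simp only [this]
        rw [← Finset.mul_sum, hw, mul_one]
      rw [h1]
      have h2 : ∀ j, tv A w j ^ 2 ≤ n * T ^ 2 := by
        intro j
        have h3 := cs (fun k => A k j) w
        rw [hw, mul_one] at h3
        refine h3.trans ?_
        calc ∑ k : Fin (m + 1), A k j ^ 2 ≤ ∑ _k : Fin (m + 1), T ^ 2 := by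
              apply Finset.sum_le_sum
              intro k _
              rw [← sq_abs]
              exact pow_le_pow_left₀ (abs_nonneg _) (hT k j) 2
          _ = ((m : ℝ) + 1) * T ^ 2 := by simp
          _ ≤ n * T ^ 2 := mul_le_mul_of_nonneg_right hmn' (sq_nonneg _)
      calc ∑ j, tv A w j ^ 2 ≤ ∑ _j : Fin n, (n : ℝ) * T ^ 2 := Finset.sum_le_sum fun j _ => h2 j
        _ = n ^ 2 * T ^ 2 := by simp; ring
    -- final estimate
    have hs2 : s ≤ t + t / x := by linarith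
    have htx : t / x ≤ t := div_le_self ht0 hx.le
    have hgap : s ^ 2 - t ^ 2 ≤ 3 * t ^ 2 / x := by
      have h1 : s ^ 2 - t ^ 2 = (s - t) * (s + t) := by ring
      rw [h1]
      calc (s - t) * (s + t) ≤ (t / x) * (3 * t) := by
            apply mul_le_mul hst (by linarith) (by linarith) (by positivity)
        _ = 3 * t ^ 2 / x := by ring
    have hgap0 : 0 ≤ s ^ 2 - nu R l := by linarith
    have hgap1 : s ^ 2 - nu R l ≤ 3 * t ^ 2 / x := by linarith
    apply abs_le_of_sq_le_sq _ (by positivity)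
    rw [hsum, div_pow, Real.sq_sqrt hnu.le]
    set q : ℝ := ∑ j, tv R (ev R l) j * A r j with hq
    have h1 : v r ^ 2 * q ^ 2 ≤ (3 * t ^ 2 / x) ^ 2 := by
      calc v r ^ 2 * q ^ 2 = (v r * q) ^ 2 := by ring
        _ = (s ^ 2 - nu R l) ^ 2 * p ^ 2 := by rw [hkey]; ring
        _ ≤ (3 * t ^ 2 / x) ^ 2 * 1 := by
            apply mul_le_mul (pow_le_pow_left₀ hgap0 hgap1 2) hp1 (sq_nonneg _) (sq_nonneg _)
        _ = _ := mul_one _
    have h2 : q ^ 2 ≤ ((m : ℝ) + 1) * (3 * t ^ 2 / x) ^ 2 := by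
      calc q ^ 2 = 1 * q ^ 2 := (one_mul _).symm
        _ ≤ (((m : ℝ) + 1) * v r ^ 2) * q ^ 2 := mul_le_mul_of_nonneg_right hr (sq_nonneg _)
        _ = ((m : ℝ) + 1) * (v r ^ 2 * q ^ 2) := by ring
        _ ≤ _ := mul_le_mul_of_nonneg_left h1 (by positivity)
    rw [div_le_iff₀ hnu]
    calc q ^ 2 ≤ ((m : ℝ) + 1) * (3 * t ^ 2 / x) ^ 2 := h2
      _ = 9 * ((m : ℝ) + 1) * t ^ 2 / x ^ 2 * t ^ 2 := by ring
      _ ≤ 9 * (n : ℝ) * (n ^ 2 * T ^ 2) / x ^ 2 * nu R l := by
          gcongr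
      _ ≤ (3 * n ^ 2 * T / x) ^ 2 * nu R l := by
          apply mul_le_mul_of_nonneg_right _ hnu.le
          have : (3 * (n : ℝ) ^ 2 * T / x) ^ 2 = 9 * n * (n ^ 2 * T ^ 2) / x ^ 2 * n := by ring
          rw [this]
          exact le_mul_of_one_le_right (by positivity) hn1

/-- the closed set of pairs -/
def Sr {m n : ℕ} (x : ℝ) (r : Fin (m + 1)) : Set ((Fin (m + 1) → Fin n → ℝ) ×
    ((Fin (m + 1) → Set.Icc (-1 : ℝ) 1) × (Fin (m + 1) → Set.Icc (-1 : ℝ) 1))) :=
  {p | ∑ i, (p.2.1 i : ℝ) ^ 2 = 1} ∩ {p | ∑ i, (p.2.2 i : ℝ) ^ 2 = 1} ∩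
  {p | ∑ i, (p.2.1 i : ℝ) * (p.2.2 i : ℝ) = 0} ∩
  (⋂ i, {p | ∑ j, p.1 i j * tv p.1 (fun k => (p.2.1 k : ℝ)) j =
    (∑ j, tv p.1 (fun k => (p.2.1 k : ℝ)) j ^ 2) * (p.2.1 i : ℝ)}) ∩
  (⋂ i, {p | ∑ j, p.1 i j * tv p.1 (fun k => (p.2.2 k : ℝ)) j =
    (∑ j, tv p.1 (fun k => (p.2.2 k : ℝ)) j ^ 2) * (p.2.2 i : ℝ)}) ∩
  {p | Real.sqrt (∑ j, tv p.1 (fun k => (p.2.2 k : ℝ)) j ^ 2) ≤
    Real.sqrt (∑ j, tv p.1 (fun k => (p.2.1 k : ℝ)) j ^ 2)} ∩
  {p | Real.sqrt (∑ j, tv p.1 (fun k => (p.2.1 k : ℝ)) j ^ 2) -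
    Real.sqrt (∑ j, tv p.1 (fun k => (p.2.2 k : ℝ)) j ^ 2) ≤
    Real.sqrt (∑ j, tv p.1 (fun k => (p.2.2 k : ℝ)) j ^ 2) / x} ∩
  {p | 1 ≤ ((m : ℝ) + 1) * (p.2.1 r : ℝ) ^ 2}

lemma Sr_closed {m n : ℕ} (x : ℝ) (r : Fin (m + 1)) :
    IsClosed (Sr x r : Set ((Fin (m + 1) → Fin n → ℝ) × _)) := by
  unfold Sr tv
  refine IsClosed.inter (IsClosed.inter (IsClosed.inter (IsClosed.inter (IsClosed.inter
    (IsClosed.inter (IsClosed.inter ?_ ?_) ?_) ?_) ?_) ?_) ?_) ?_
  · exact isClosed_eq (by fun_prop) (by fun_prop)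
  · exact isClosed_eq (by fun_prop) (by fun_prop)
  · exact isClosed_eq (by fun_prop) (by fun_prop)
  · exact isClosed_iInter fun i => isClosed_eq (by fun_prop) (by fun_prop)
  · exact isClosed_iInter fun i => isClosed_eq (by fun_prop) (by fun_prop)
  · exact isClosed_le (by fun_prop) (by fun_prop)
  · exact isClosed_le (by fun_prop) (by fun_prop)
  · exact isClosed_le (by fun_prop) (by fun_prop)

/-- the projection -/
def Br {m n : ℕ} (x : ℝ) (r : Fin (m + 1)) : Set (Fin (m + 1) → Fin n → ℝ) :=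
  Prod.fst '' Sr x r

lemma Br_closed {m n : ℕ} (x : ℝ) (r : Fin (m + 1)) :
    IsClosed (Br x r : Set (Fin (m + 1) → Fin n → ℝ)) :=
  isClosedMap_fst_of_compactSpace _ (Sr_closed x r)

lemma ev_orth {m n : ℕ} (R : Fin m → Fin n → ℝ) (j k : Fin m) (hjk : j ≠ k) :
    ∑ i, ev R j i * ev R k i = 0 := by
  have h : inner ℝ ((Nm_herm R).eigenvectorBasis j) ((Nm_herm R).eigenvectorBasis k) = (0 : ℝ) :=
    (Nm_herm R).eigenvectorBasis.orthonormal.2 hjk
  rw [PiLp.inner_apply] at h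
  rw [← h]
  refine Finset.sum_congr rfl fun i _ => ?_
  simp [ev, mul_comm]

lemma ev_abs {m n : ℕ} (R : Fin m → Fin n → ℝ) (l i : Fin m) :
    ev R l i ∈ Set.Icc (-1 : ℝ) 1 := by
  have h1 : ev R l i ^ 2 ≤ 1 := by
    rw [← ev_norm R l]
    exact Finset.single_le_sum (f := fun i => ev R l i ^ 2) (fun i _ => sq_nonneg _)
      (Finset.mem_univ i)
  constructor <;> nlinarith

lemma ev_q {m n : ℕ} (R : Fin m → Fin n → ℝ) (l : Fin m) :
    ∑ j, tv R (ev R l) j ^ 2 = nu R l := by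
  have h1 := bil R (ev R l) (ev R l)
  simp only [pow_two]
  rw [← h1]
  have : ∀ i, ev R l i * ∑ j, R i j * tv R (ev R l) j = nu R l * ev R l i ^ 2 := by
    intro i
    rw [ev_eig]; ring
  simp only [this]
  rw [← Finset.mul_sum, ev_norm, mul_one]

lemma mem_Br {m n : ℕ} (A : Fin (m + 1) → Fin n → ℝ) (x : ℝ) (j k : Fin (m + 1)) (hjk : j ≠ k)
    (h1 : Real.sqrt (nu A k) ≤ Real.sqrt (nu A j))
    (h2 : Real.sqrt (nu A j) - Real.sqrt (nu A k) ≤ Real.sqrt (nu A k) / x) :
    ∃ r, A ∈ Br x r := by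
  obtain ⟨r, hr⟩ := exists_large (ev A j) (ev_norm A j)
  refine ⟨r, ⟨(A, (fun i => ⟨ev A j i, ev_abs A j i⟩, fun i => ⟨ev A k i, ev_abs A k i⟩)), ?_, rfl⟩⟩
  have e1 : (fun i => ev A j i) = ev A j := rfl
  have e2 : (fun i => ev A k i) = ev A k := rfl
  refine ⟨⟨⟨⟨⟨⟨⟨?_, ?_⟩, ?_⟩, ?_⟩, ?_⟩, ?_⟩, ?_⟩, ?_⟩
  · exact ev_norm A j
  · exact ev_norm A k
  · exact ev_orth A j k hjk
  · rw [Set.mem_iInter]
    intro i
    show ∑ l, A i l * tv A (ev A j) l = (∑ l, tv A (ev A j) l ^ 2) * ev A j i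
    rw [ev_q, ev_eig]
  · rw [Set.mem_iInter]
    intro i
    show ∑ l, A i l * tv A (ev A k) l = (∑ l, tv A (ev A k) l ^ 2) * ev A k i
    rw [ev_q, ev_eig]
  · show Real.sqrt (∑ l, tv A (ev A k) l ^ 2) ≤ Real.sqrt (∑ l, tv A (ev A j) l ^ 2)
    rw [ev_q, ev_q]
    exact h1
  · show Real.sqrt (∑ l, tv A (ev A j) l ^ 2) - Real.sqrt (∑ l, tv A (ev A k) l ^ 2) ≤
      Real.sqrt (∑ l, tv A (ev A k) l ^ 2) / x
    rw [ev_q, ev_q]
    exact h2
  · exact hr

lemma Br_det {m n : ℕ} (hmn : m < n) (A : Fin (m + 1) → Fin n → ℝ) (r : Fin (m + 1))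
    (x T : ℝ) (hx : 1 < x) (hT0 : 0 ≤ T) (hT : ∀ i j, |A i j| ≤ T) (hA : A ∈ Br x r) :
    ∃ o, ∑ j, bvec (fun i => A (r.succAbove i)) o j ^ 2 = 1 ∧
      |∑ j, bvec (fun i => A (r.succAbove i)) o j * A r j| ≤ 3 * n ^ 2 * T / x := by
  obtain ⟨⟨A', v, w⟩, ⟨⟨⟨⟨⟨⟨⟨h1, h2⟩, h3⟩, h4⟩, h5⟩, h6⟩, h7⟩, h8⟩, rfl⟩ := hA
  rw [Set.mem_iInter] at h4 h5
  have hq : ∀ u : Fin (m + 1) → ℝ, 0 ≤ ∑ j, tv A' u j ^ 2 :=
    fun u => Finset.sum_nonneg fun j _ => sq_nonneg _
  refine det hmn A' r (fun k => (v k : ℝ)) (fun k => (w k : ℝ))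
    (Real.sqrt (∑ j, tv A' (fun k => (v k : ℝ)) j ^ 2))
    (Real.sqrt (∑ j, tv A' (fun k => (w k : ℝ)) j ^ 2)) x T hx hT0 (Real.sqrt_nonneg _)
    h6 h7 h1 h2 h3 ?_ ?_ h8 hT
  · intro i
    rw [Real.sq_sqrt (hq _)]
    exact h4 i
  · intro i
    rw [Real.sq_sqrt (hq _)]
    exact h5 i

lemma section_bound {m n : ℕ} (hmn : m < n) (Abar : Fin (m + 1) → Fin n → ℝ)
    (hAb : ∀ i j, |Abar i j| ≤ 1)
    (σ : ℝ≥0) (hσ : 0 < σ) (x y : ℝ) (hx : 1 < x) (hy : 0 ≤ y) (r : Fin (m + 1)) :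
    Measure.pi (fun _ : Fin (m + 1) => Measure.pi (fun _ : Fin n => gaussianReal 0 (σ ^ 2)))
      {G | (fun i j => Abar i j + G i j) ∈ Br x r ∧ ∀ i j, |G i j| ≤ y} ≤
    ENNReal.ofReal (((m : ℝ) + 1) * (3 * n ^ 2 * (1 + y) / x * n / σ)) := by
  apply pi_section_le _ r
  · have hm1 : MeasurableSet {G : Fin (m + 1) → Fin n → ℝ | (fun i j => Abar i j + G i j) ∈ Br x r} := by
      have : Continuous fun G : Fin (m + 1) → Fin n → ℝ => (fun i j => Abar i j + G i j) := by
        fun_prop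
      exact ((Br_closed x r).preimage this).measurableSet
    have hm2 : MeasurableSet {G : Fin (m + 1) → Fin n → ℝ | ∀ i j, |G i j| ≤ y} := by
      have : {G : Fin (m + 1) → Fin n → ℝ | ∀ i j, |G i j| ≤ y} =
          ⋂ i, ⋂ j, {G | |G i j| ≤ y} := by
        ext G; simp
      rw [this]
      exact (isClosed_iInter fun i => isClosed_iInter fun j =>
        isClosed_le (by fun_prop) (by fun_prop)).measurableSet
    exact hm1.inter hm2
  · intro z
    let R : Fin m → Fin n → ℝ := fun i j => Abar (r.succAbove i) j + z i j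
    have hsub : {a : Fin n → ℝ | (r.insertNth a z : Fin (m + 1) → Fin n → ℝ) ∈
        {G : Fin (m + 1) → Fin n → ℝ | (fun i j => Abar i j + G i j) ∈ Br x r ∧
          ∀ i j, |G i j| ≤ y}} ⊆
        ⋃ o : Option (Fin m), {a | ∑ j, bvec R o j ^ 2 = 1 ∧
          |∑ j, bvec R o j * a j + ∑ j, bvec R o j * Abar r j| ≤ 3 * n ^ 2 * (1 + y) / x} := by
      rintro a ⟨ha1, ha2⟩
      rw [Set.mem_iUnion]
      have hb : ∀ i j, |Abar i j + (r.insertNth a z : Fin (m + 1) → Fin n → ℝ) i j| ≤ 1 + y := by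
        intro i j
        exact (abs_add_le _ _).trans (add_le_add (hAb i j) (ha2 i j))
      obtain ⟨o, ho1, ho2⟩ := Br_det hmn _ r x (1 + y) hx (by linarith) hb ha1
      have hR : (fun i => (fun i j => Abar i j + (r.insertNth a z : Fin (m + 1) → Fin n → ℝ) i j)
          (r.succAbove i)) = R := by
        funext i j
        simp [R]
      rw [hR] at ho1 ho2
      refine ⟨o, ho1, ?_⟩
      have : ∑ j, bvec R o j * a j + ∑ j, bvec R o j * Abar r j =
          ∑ j, bvec R o j * (Abar r j + (r.insertNth a z : Fin (m + 1) → Fin n → ℝ) r j) := by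
        rw [← Finset.sum_add_distrib]
        refine Finset.sum_congr rfl fun j _ => ?_
        simp only [Fin.insertNth_apply_same]
        ring
      rw [this]
      exact ho2
    refine (measure_mono hsub).trans ((measure_iUnion_le _).trans ?_)
    rw [tsum_fintype]
    have hη : 0 ≤ 3 * (n : ℝ) ^ 2 * (1 + y) / x := by
      have : 0 < x := by linarith
      positivity
    calc _ ≤ ∑ _o : Option (Fin m), ENNReal.ofReal (3 * n ^ 2 * (1 + y) / x * n / σ) := by
          apply Finset.sum_le_sum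
          intro o _
          by_cases hu : ∑ j, bvec R o j ^ 2 = 1
          · refine (measure_mono ?_).trans (gaussn n σ hσ (bvec R o) hu
              (∑ j, bvec R o j * Abar r j) (3 * n ^ 2 * (1 + y) / x) hη)
            rintro a ⟨-, ha⟩
            exact ha
          · have : {a : Fin n → ℝ | ∑ j, bvec R o j ^ 2 = 1 ∧
                |∑ j, bvec R o j * a j + ∑ j, bvec R o j * Abar r j| ≤
                  3 * n ^ 2 * (1 + y) / x} = ∅ := by
              ext a
              simp [hu]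
            rw [this]
            simp
      _ = ENNReal.ofReal (((m : ℝ) + 1) * (3 * n ^ 2 * (1 + y) / x * n / σ)) := by
          rw [Finset.sum_const, Finset.card_univ, Fintype.card_option, Fintype.card_fin,
            nsmul_eq_mul, ENNReal.ofReal_mul (by positivity)]
          congr 1
          rw [show (m : ℝ) + 1 = ((m + 1 : ℕ) : ℝ) by push_cast; ring, ENNReal.ofReal_natCast]

lemma tail_bound {m n : ℕ} (σ : ℝ≥0) (hσ1 : σ ≤ 1) (y : ℝ) (hy : 0 < y)
    (i : Fin (m + 1)) (j : Fin (n + 1)) :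
    Measure.pi (fun _ : Fin (m + 1) => Measure.pi (fun _ : Fin (n + 1) => gaussianReal 0 (σ ^ 2)))
      {G | y < |G i j|} ≤ ENNReal.ofReal (1 / y ^ 2) := by
  apply pi_section_le _ i
  · exact (isOpen_lt (by fun_prop) (by fun_prop)).measurableSet
  · intro z
    simp only [Set.mem_ofPred_eq, Fin.insertNth_apply_same]
    apply pi_section_le _ j
    · exact (isOpen_lt (by fun_prop) (by fun_prop)).measurableSet
    · intro z'
      simp only [Set.mem_ofPred_eq, Fin.insertNth_apply_same]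
      exact gauss_tail σ hσ1 y hy

/-- There are positive constants c,k1,k2,k3 such that for m≤n, any m×n Ā with Frobenius norm ≤1, 0<σ≤1, x>1, the probability that Ā plus iid N(0,σ²) noise has minimum relative singular-value gap ≤1/x is at most c n^k1 x^-k2 σ^-k3. -/
theorem result :
    ∃ c k₁ k₂ k₃ : ℝ, 0 < c ∧ 0 < k₁ ∧ 0 < k₂ ∧ 0 < k₃ ∧
      ∀ m n : ℕ, m ≤ n → ∀ Abar : Matrix (Fin m) (Fin n) ℝ,
        (∑ i, ∑ j, Abar i j ^ 2) ≤ 1 →
        ∀ σ : ℝ≥0, 0 < σ → σ ≤ 1 → ∀ x : ℝ, 1 < x →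
          (Measure.pi (fun _ : Fin m => Measure.pi (fun _ : Fin n => gaussianReal 0 (σ ^ 2))))
            {G : Fin m → Fin n → ℝ | ∃ j k : Fin m, j ≠ k ∧
              Real.sqrt ((Matrix.isHermitian_mul_conjTranspose_self (Abar + Matrix.of G)).eigenvalues k)
                ≤ Real.sqrt ((Matrix.isHermitian_mul_conjTranspose_self (Abar + Matrix.of G)).eigenvalues j) ∧
              Real.sqrt ((Matrix.isHermitian_mul_conjTranspose_self (Abar + Matrix.of G)).eigenvalues j)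
                - Real.sqrt ((Matrix.isHermitian_mul_conjTranspose_self (Abar + Matrix.of G)).eigenvalues k)
                ≤ Real.sqrt ((Matrix.isHermitian_mul_conjTranspose_self (Abar + Matrix.of G)).eigenvalues k) / x}
            ≤ ENNReal.ofReal (c * (n : ℝ) ^ k₁ * x ^ (-k₂) * (σ : ℝ) ^ (-k₃)) := by
  refine ⟨7, 5, 1 / 2, 1, by norm_num, by norm_num, by norm_num, by norm_num, ?_⟩
  intro m n hmn Abar hA σ hσ hσ1 x hx
  rcases m with _ | m
  · have : {G : Fin 0 → Fin n → ℝ | ∃ j k : Fin 0, j ≠ k ∧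
              Real.sqrt ((Matrix.isHermitian_mul_conjTranspose_self (Abar + Matrix.of G)).eigenvalues k)
                ≤ Real.sqrt ((Matrix.isHermitian_mul_conjTranspose_self (Abar + Matrix.of G)).eigenvalues j) ∧
              Real.sqrt ((Matrix.isHermitian_mul_conjTranspose_self (Abar + Matrix.of G)).eigenvalues j)
                - Real.sqrt ((Matrix.isHermitian_mul_conjTranspose_self (Abar + Matrix.of G)).eigenvalues k)
                ≤ Real.sqrt ((Matrix.isHermitian_mul_conjTranspose_self (Abar + Matrix.of G)).eigenvalues k) / x} = ∅ := by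
      ext G
      simp only [Set.mem_ofPred_eq, Set.mem_empty_iff_false, iff_false]
      rintro ⟨j, -⟩
      exact j.elim0
    rw [this]
    simp
  obtain ⟨n, rfl⟩ : ∃ n', n = n' + 1 := ⟨n - 1, by omega⟩
  have hmn' : m < n + 1 := by omega
  have hAb : ∀ i j, |Abar i j| ≤ 1 := by
    intro i j
    have h1 : Abar i j ^ 2 ≤ 1 := by
      refine le_trans ?_ hA
      refine le_trans ?_ (Finset.single_le_sum (f := fun i => ∑ j, Abar i j ^ 2)
        (fun i _ => Finset.sum_nonneg fun j _ => sq_nonneg _) (Finset.mem_univ i))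
      exact Finset.single_le_sum (f := fun j => Abar i j ^ 2) (fun j _ => sq_nonneg _)
        (Finset.mem_univ j)
    rw [← sq_abs] at h1
    nlinarith [abs_nonneg (Abar i j)]
  set N : ℝ := ((n + 1 : ℕ) : ℝ) with hN
  set y : ℝ := Real.sqrt x with hy
  have hx0 : 0 < x := by linarith
  have hy0 : 0 < y := Real.sqrt_pos.mpr hx0
  have hysq : y ^ 2 = x := Real.sq_sqrt hx0.le
  have hy1 : 1 ≤ y := by
    rw [hy]
    exact Real.one_le_sqrt.mpr hx.le
  have hsub : {G : Fin (m + 1) → Fin (n + 1) → ℝ | ∃ j k : Fin (m + 1), j ≠ k ∧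
              Real.sqrt ((Matrix.isHermitian_mul_conjTranspose_self (Abar + Matrix.of G)).eigenvalues k)
                ≤ Real.sqrt ((Matrix.isHermitian_mul_conjTranspose_self (Abar + Matrix.of G)).eigenvalues j) ∧
              Real.sqrt ((Matrix.isHermitian_mul_conjTranspose_self (Abar + Matrix.of G)).eigenvalues j)
                - Real.sqrt ((Matrix.isHermitian_mul_conjTranspose_self (Abar + Matrix.of G)).eigenvalues k)
                ≤ Real.sqrt ((Matrix.isHermitian_mul_conjTranspose_self (Abar + Matrix.of G)).eigenvalues k) / x}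
      ⊆ (⋃ p : Fin (m + 1) × Fin (n + 1), {G | y < |G p.1 p.2|}) ∪
        (⋃ r : Fin (m + 1), {G | (fun i j => Abar i j + G i j) ∈ Br x r ∧ ∀ i j, |G i j| ≤ y}) := by
    rintro G ⟨j, k, hjk, h1, h2⟩
    by_cases hall : ∀ i j, |G i j| ≤ y
    · right
      rw [Set.mem_iUnion]
      obtain ⟨r, hr⟩ := mem_Br (fun i j => Abar i j + G i j) x j k hjk h1 h2
      exact ⟨r, hr, hall⟩
    · left
      push Not at hall
      obtain ⟨i, j, hij⟩ := hall
      rw [Set.mem_iUnion]
      exact ⟨(i, j), hij⟩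
  refine (measure_mono hsub).trans ((measure_union_le _ _).trans ?_)
  have hb1 : Measure.pi (fun _ : Fin (m + 1) => Measure.pi
      (fun _ : Fin (n + 1) => gaussianReal 0 (σ ^ 2)))
      (⋃ p : Fin (m + 1) × Fin (n + 1), {G | y < |G p.1 p.2|}) ≤
      ENNReal.ofReal (((m : ℝ) + 1) * N * (1 / y ^ 2)) := by
    refine (measure_iUnion_le _).trans ?_
    rw [tsum_fintype]
    calc _ ≤ ∑ _p : Fin (m + 1) × Fin (n + 1), ENNReal.ofReal (1 / y ^ 2) :=
          Finset.sum_le_sum fun p _ => tail_bound σ hσ1 y hy0 p.1 p.2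
      _ = _ := by
          rw [Finset.sum_const, Finset.card_univ, Fintype.card_prod, Fintype.card_fin,
            Fintype.card_fin, nsmul_eq_mul, ENNReal.ofReal_mul (by positivity)]
          congr 1
          rw [show ((m : ℝ) + 1) * N = (((m + 1) * (n + 1) : ℕ) : ℝ) by rw [hN]; push_cast; ring,
            ENNReal.ofReal_natCast]
  have hb2 : Measure.pi (fun _ : Fin (m + 1) => Measure.pi
      (fun _ : Fin (n + 1) => gaussianReal 0 (σ ^ 2)))
      (⋃ r : Fin (m + 1), {G | (fun i j => Abar i j + G i j) ∈ Br x r ∧ ∀ i j, |G i j| ≤ y}) ≤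
      ENNReal.ofReal (((m : ℝ) + 1) * (((m : ℝ) + 1) * (3 * N ^ 2 * (1 + y) / x * N / σ))) := by
    refine (measure_iUnion_le _).trans ?_
    rw [tsum_fintype]
    calc _ ≤ ∑ _r : Fin (m + 1), ENNReal.ofReal (((m : ℝ) + 1) *
            (3 * N ^ 2 * (1 + y) / x * N / σ)) :=
          Finset.sum_le_sum fun r _ => section_bound hmn' Abar hAb σ hσ x y hx hy0.le r
      _ = _ := by
          generalize ((m : ℝ) + 1) * (3 * N ^ 2 * (1 + y) / x * N / σ) = Q
          rw [Finset.sum_const, Finset.card_univ, Fintype.card_fin, nsmul_eq_mul,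
            ENNReal.ofReal_mul (p := (m : ℝ) + 1) (by positivity)]
          congr 1
          rw [show ((m : ℝ) + 1) = ((m + 1 : ℕ) : ℝ) by push_cast; ring,
            ENNReal.ofReal_natCast]
  refine (add_le_add hb1 hb2).trans ?_
  have hσp : (0 : ℝ) < σ := hσ
  have hσ1' : (σ : ℝ) ≤ 1 := hσ1
  rw [← ENNReal.ofReal_add (by positivity) (by positivity)]
  apply ENNReal.ofReal_le_ofReal
  have hmN : (m : ℝ) + 1 ≤ N := by
    rw [hN]; push_cast
    have : (m : ℝ) ≤ n := by exact_mod_cast (by omega : m ≤ n)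
    linarith
  have hN1 : 1 ≤ N := by
    rw [hN]; push_cast; linarith [(Nat.cast_nonneg n : (0 : ℝ) ≤ n)]
  have e1 : N ^ (5 : ℝ) = N ^ 5 := by
    rw [show (5 : ℝ) = ((5 : ℕ) : ℝ) by norm_num, Real.rpow_natCast]
  have e2 : x ^ (-(1 / 2) : ℝ) = 1 / y := by
    rw [Real.rpow_neg hx0.le, ← Real.sqrt_eq_rpow, one_div]
  have e3 : (σ : ℝ) ^ (-1 : ℝ) = 1 / σ := by
    rw [Real.rpow_neg_one, one_div]
  rw [e1, e2, e3, ← hysq]
  have hm0 : (0 : ℝ) ≤ (m : ℝ) + 1 := by positivity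
  have t1 : ((m : ℝ) + 1) * N * (1 / y ^ 2) ≤ N ^ 5 * (1 / y) * (1 / σ) := by
    have a1 : ((m : ℝ) + 1) * N ≤ N ^ 5 := by
      calc ((m : ℝ) + 1) * N ≤ N * N := by gcongr
        _ = N ^ 2 := by ring
        _ ≤ N ^ 5 := pow_le_pow_right₀ hN1 (by norm_num)
    have a2 : 1 / y ^ 2 ≤ 1 / y := by
      apply one_div_le_one_div_of_le hy0
      nlinarith
    have a3 : 1 ≤ 1 / (σ : ℝ) := by
      rw [le_div_iff₀ hσp]; linarith
    calc ((m : ℝ) + 1) * N * (1 / y ^ 2) ≤ N ^ 5 * (1 / y) := by gcongr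
      _ = N ^ 5 * (1 / y) * 1 := (mul_one _).symm
      _ ≤ N ^ 5 * (1 / y) * (1 / σ) := by gcongr
  have t2 : ((m : ℝ) + 1) * (((m : ℝ) + 1) * (3 * N ^ 2 * (1 + y) / y ^ 2 * N / σ)) ≤
      6 * (N ^ 5 * (1 / y) * (1 / σ)) := by
    calc ((m : ℝ) + 1) * (((m : ℝ) + 1) * (3 * N ^ 2 * (1 + y) / y ^ 2 * N / σ))
        ≤ N * (N * (3 * N ^ 2 * (y + y) / y ^ 2 * N / σ)) := by gcongr
      _ = 6 * (N ^ 5 * (1 / y) * (1 / σ)) := by
          field_simp
          ring
  linarith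

end Pool.Agent.S13285
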