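import Pool.Statements.S13402

set_option autoImplicit false
open MeasureTheory ProbabilityTheory
open Pool Pool.MP_aa6114_pr

namespace Pool.Agent.S13402

/-- fair coin -/
noncomputable def nu : Measure Bool :=
  (2⁻¹ : ENNReal) • Measure.dirac true + (2⁻¹ : ENNReal) • Measure.dirac false

instance : IsProbabilityMeasure nu := by
  constructor
  simp [nu, ENNReal.inv_two_add_inv_two]

theorem nu_true : nu {true} = 2⁻¹ := by
  simp [nu]

theorem nu_false : nu {false} = 2⁻¹ := by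
  simp [nu]

/-- three independent fair coins -/
noncomputable def mu : Measure (Fin 3 → Bool) := Measure.pi (fun _ => nu)

instance : IsProbabilityMeasure mu := by unfold mu; infer_instance

/-- the values: first variable 0 or 2, second variable 1, third variable 0 or 3 -/
def val (i : Fin 3) (c : Bool) : ℝ :=
  if i = 0 then (if c then 2 else 0) else if i = 1 then 1 else (if c then 3 else 0)

def X (i : Fin 3) (ω : Fin 3 → Bool) : ℝ := val i (ω i)

theorem X0 (ω : Fin 3 → Bool) : X 0 ω = if ω 0 then 2 else 0 := by simp [X, val]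
theorem X1 (ω : Fin 3 → Bool) : X 1 ω = 1 := by simp [X, val]
theorem X2 (ω : Fin 3 → Bool) : X 2 ω = if ω 2 then 3 else 0 := by simp [X, val]

theorem X_meas (i : Fin 3) : Measurable (X i) :=
  (measurable_of_finite (val i)).comp (measurable_pi_apply i)

theorem X_indep : iIndepFun X mu := by
  unfold mu
  exact iIndepFun_pi (X := fun i => val i) (fun i => (measurable_of_finite (val i)).aemeasurable)

theorem box (A B : Set Bool) : mu {ω | ω 0 ∈ A ∧ ω 2 ∈ B} = nu A * nu B := by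
  have h : {ω : Fin 3 → Bool | ω 0 ∈ A ∧ ω 2 ∈ B} = Set.pi Set.univ ![A, Set.univ, B] := by
    ext ω
    simp [Set.mem_pi, Fin.forall_fin_succ]
  rw [h]
  unfold mu
  rw [Measure.pi_pi, Fin.prod_univ_three]
  show nu A * nu Set.univ * nu B = nu A * nu B
  rw [measure_univ, mul_one]

theorem nu_univ : nu Set.univ = 1 := measure_univ

theorem mset (s : Set (Fin 3 → Bool)) : MeasurableSet s := s.toFinite.measurableSet

/-- The negation of the preceding statement: For independent real random variables and any finite set of pairwise strict or weak inequality constraints P, P(X_a<X_b given P) ≤ P(X_a<X_b given P and X_a<X_c) whenever the second conditioning event has positive probability. -/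
theorem result :
    ¬ (∀ (Ω : Type) [MeasurableSpace Ω] (μ : Measure Ω) [IsProbabilityMeasure μ]
      (n : ℕ) (X : Fin n → Ω → ℝ),
      (∀ i, Measurable (X i)) →
      iIndepFun X μ →
      ∀ (a b c : Fin n), a ≠ b → a ≠ c → b ≠ c →
      ∀ (S W : Finset (Fin n × Fin n)),
        μ ({ω | (∀ p ∈ S, X p.1 ω < X p.2 ω) ∧ (∀ p ∈ W, X p.1 ω ≤ X p.2 ω)}
            ∩ {ω | X a ω < X c ω}) ≠ 0 →
        ProbabilityTheory.cond μ
            {ω | (∀ p ∈ S, X p.1 ω < X p.2 ω) ∧ (∀ p ∈ W, X p.1 ω ≤ X p.2 ω)}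
            {ω | X a ω < X b ω}
          ≤ ProbabilityTheory.cond μ
            ({ω | (∀ p ∈ S, X p.1 ω < X p.2 ω) ∧ (∀ p ∈ W, X p.1 ω ≤ X p.2 ω)}
              ∩ {ω | X a ω < X c ω})
            {ω | X a ω < X b ω}) := by
  intro h
  have h1 := h (Fin 3 → Bool) mu 3 X X_meas X_indep 0 1 2 (by decide) (by decide) (by decide)
    ∅ {((0 : Fin 3), (2 : Fin 3))}
  have hS : {ω : Fin 3 → Bool | (∀ p ∈ (∅ : Finset (Fin 3 × Fin 3)), X p.1 ω < X p.2 ω) ∧
      (∀ p ∈ ({((0 : Fin 3), (2 : Fin 3))} : Finset (Fin 3 × Fin 3)), X p.1 ω ≤ X p.2 ω)} =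
      {ω | ω 0 ∈ ({true} : Set Bool) ∧ ω 2 ∈ ({false} : Set Bool)}ᶜ := by
    ext ω
    simp only [Finset.notMem_empty, false_imp_iff, implies_true, true_and, Finset.mem_singleton,
      forall_eq, Set.mem_ofPred_eq, Set.mem_compl_iff, Set.mem_singleton_iff, X0, X2]
    cases ω 0 <;> cases ω 2 <;> norm_num
  have hSc : {ω : Fin 3 → Bool | ω 0 ∈ ({true} : Set Bool) ∧ ω 2 ∈ ({false} : Set Bool)}ᶜ ∩ {ω | X 0 ω < X 2 ω} =
      {ω | ω 0 ∈ (Set.univ : Set Bool) ∧ ω 2 ∈ ({true} : Set Bool)} := by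
    ext ω
    simp only [Set.mem_inter_iff, Set.mem_ofPred_eq, Set.mem_compl_iff, Set.mem_singleton_iff, Set.mem_univ, true_and, X0, X2]
    cases ω 0 <;> cases ω 2 <;> norm_num
  have hSb : {ω : Fin 3 → Bool | ω 0 ∈ ({true} : Set Bool) ∧ ω 2 ∈ ({false} : Set Bool)}ᶜ ∩ {ω | X 0 ω < X 1 ω} =
      {ω | ω 0 ∈ ({false} : Set Bool) ∧ ω 2 ∈ (Set.univ : Set Bool)} := by
    ext ω
    simp only [Set.mem_inter_iff, Set.mem_ofPred_eq, Set.mem_compl_iff, Set.mem_singleton_iff, Set.mem_univ, and_true, X0, X1]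
    cases ω 0 <;> cases ω 2 <;> norm_num
  have hScb : {ω : Fin 3 → Bool | ω 0 ∈ (Set.univ : Set Bool) ∧ ω 2 ∈ ({true} : Set Bool)} ∩ {ω | X 0 ω < X 1 ω} =
      {ω | ω 0 ∈ ({false} : Set Bool) ∧ ω 2 ∈ ({true} : Set Bool)} := by
    ext ω
    simp only [Set.mem_inter_iff, Set.mem_ofPred_eq, Set.mem_singleton_iff, Set.mem_univ, true_and, X0, X1]
    cases ω 0 <;> cases ω 2 <;> norm_num
  rw [hS, hSc] at h1
  have hne : mu {ω : Fin 3 → Bool | ω 0 ∈ (Set.univ : Set Bool) ∧ ω 2 ∈ ({true} : Set Bool)} ≠ 0 := by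
    rw [box, nu_univ, nu_true]
    simp
  have h2 := h1 hne
  rw [ProbabilityTheory.cond_apply (mset _), ProbabilityTheory.cond_apply (mset _), hSb, hScb] at h2
  rw [measure_compl (mset _) (measure_ne_top _ _), measure_univ, box, box, box, box, nu_univ, nu_true, nu_false] at h2
  have hfin : ((1 : ENNReal) * 2⁻¹)⁻¹ * (2⁻¹ * 2⁻¹) ≠ ⊤ := by
    refine ENNReal.mul_ne_top (by simp) (ENNReal.mul_ne_top (by simp) (by simp))
  have h3 := ENNReal.toReal_mono hfin h2
  rw [ENNReal.toReal_mul, ENNReal.toReal_mul, ENNReal.toReal_inv, ENNReal.toReal_inv,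
    ENNReal.toReal_sub_of_le (by
      rw [← ENNReal.mul_inv (by simp) (by simp)]
      rw [ENNReal.inv_le_one]; norm_num) (by simp)] at h3
  simp only [ENNReal.toReal_mul, ENNReal.toReal_inv, ENNReal.toReal_ofNat, ENNReal.toReal_one] at h3
  norm_num at h3

end Pool.Agent.S13402
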